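import Pool.Agent.helper1.CAD.Sound

namespace Pool.Agent.helper1.CAD

set_option maxRecDepth 100000

def A1 : Spec where
  K := .A
  tys := [(1, 1, [1], 0), (-1, 0, [1], 0), (0, -1, [1], 0)]
  kc := ([1], 0)
  pmin := [1]
  sl := (0, -1)
  good := true
  pv := 0
  px := 0
  pvx := 0

def A1_moves0 : List Move :=
   [([((0, -1, -1), 0), ((0, 0, -1), -1)], 0),
    ([((1, 1, 1), 0), ((-1, 0, -1), -1), ((0, -1, 0), 1)], 0),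
    ([((1, 1, 0), 0), ((-1, 0, 0), -1), ((0, -1, -1), 0), ((0, 0, 1), 1)], 0)]

def A1_reqs0 : List (List ℤ) :=
   [[0, 0, 0, 0, 0, 1, 0, 1, 0, 0, 0],
    [0, 1, 1, 0, 0, 0, 1, 0, 0, 0, 0],
    [1, 0, 0, 1, 0, 1, 0, 0, 0, 1, 0]]

def A1_base0 : List Row :=
   [(false, [1, 1, 0, 0, 0, 0, 0, 0, 0, 0, -1], 0),
    (false, [0, 0, 1, 1, 1, 0, 0, 0, 0, 0, -1], 0),
    (false, [0, 0, 0, 0, 0, 1, 1, 0, 0, 0, -1], 0),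
    (false, [0, 1, 0, 0, 1, 0, 0, 0, 0, 1, -1], 0),
    (false, [1, 0, 1, 0, 0, 0, 0, 1, 0, 0, -1], 0),
    (false, [0, 0, 1, 0, 0, 1, 0, 1, 0, 0, -1], 0),
    (false, [0, 0, 0, 0, 1, 0, 1, 0, 0, 1, -1], 0),
    (true, [0, 0, 0, 0, 0, 0, 0, 1, 1, 1, 0], 0),
    (true, [0, 1, 4, 1, 0, 0, 1, 1, 0, 1, 0], 1),
    (true, [1, 0, 0, 1, 4, 1, 0, 1, 0, 1, 0], 1),
    (true, [0, 0, 0, 0, 0, 0, 0, 0, 0, 0, 1], 1)]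

def A1_0_0_0_tree : Tree :=
  (.br 5 0
  (.fk [(0, 1), (1, -1), (2, 1), (3, -1), (4, -1), (5, 1), (6, -1), (11, 1)])
  (.br 7 0
   (.br 0 0
    (.fk [(0, 1), (1, -2), (2, 1), (3, -1), (4, 5), (5, -3), (6, -1), (9, 1), (10, 1), (11, 1)])
    (.br 3 0
     (.fk [(0, 6), (1, 14), (2, 6), (3, -7), (4, -6), (5, -12), (6, -7), (8, 1), (11, 6)])
     (.br 9 0
      (.fk [(0, -8), (1, -13), (2, -7), (3, 7), (4, 8), (5, 1), (6, 6), (8, 1), (11, 6)])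
      (.mv 2))))
   (.mv 0)))

def A1_0_0_0 : Inst where
  rows :=
   [(false, [1, 1, 0, 0, 0, 0, 0, 0, 0, 0, -1], 0),
    (false, [0, 0, 1, 1, 1, 0, 0, 0, 0, 0, -1], 0),
    (false, [0, 0, 0, 0, 0, 1, 1, 0, 0, 0, -1], 0),
    (false, [0, 1, 0, 0, 1, 0, 0, 0, 0, 1, -1], 0),
    (false, [1, 0, 1, 0, 0, 0, 0, 1, 0, 0, -1], 0),
    (false, [0, 0, 1, 0, 0, 1, 0, 1, 0, 0, -1], 0),
    (false, [0, 0, 0, 0, 1, 0, 1, 0, 0, 1, -1], 0),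
    (true, [0, 0, 0, 0, 0, 0, 0, 1, 1, 1, 0], 0),
    (true, [0, 1, 4, 1, 0, 0, 1, 1, 0, 1, 0], 1),
    (true, [1, 0, 0, 1, 4, 1, 0, 1, 0, 1, 0], 1),
    (true, [0, 0, 0, 0, 0, 0, 0, 0, 0, 0, 1], 1),
    (true, [0, 0, 0, 1, 0, 0, 0, 0, 0, 1, -1], 1)]
  moves := A1_moves0
  reqs := A1_reqs0
  tree := A1_0_0_0_tree

theorem A1_0_0_0_ok : A1.instOK 0 0 0 A1_0_0_0 = true := by
  decide +kernel

def A1_0_1_0_tree : Tree :=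
  (.br 6 0
  (.br 5 0
   (.fk [(0, 1), (1, -1), (2, 1), (3, -1), (4, -1), (5, 1), (6, 2), (10, 1), (11, 1)])
   (.br 7 0
    (.br 0 0
     (.fk [(0, 1), (1, -3), (2, 6), (3, -2), (4, 7), (5, -8), (6, 1), (8, 1), (9, 1), (10, 1), (11, 1)])
     (.br 3 0
      (.fk [(0, 5), (1, 2), (2, 5), (3, -7), (4, -5), (5, -5), (6, 5), (8, 2)])
      (.br 9 0
       (.fk [(0, -2), (1, -7), (2, -1), (3, 1), (4, 2), (5, 1), (6, 6), (8, 1)])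
       (.mv 2))))
    (.mv 0)))
  (.br 1 0
   (.fk [(0, 1), (2, 1), (3, 2), (4, -1), (5, -1), (6, -2)])
   (.br 2 0
    (.br 5 0
     (.fk [(1, 1), (2, 1), (4, -1), (5, 1), (6, -1), (11, 1)])
     (.br 7 0
      (.fk [(0, -2), (2, -1), (3, 1), (4, 2), (5, 1), (6, -1)])
      (.mv 0)))
    (.mv 1))))

def A1_0_1_0 : Inst where
  rows :=
   [(false, [1, 1, 0, 0, 0, 0, 0, 0, 0, 0, -1], 0),
    (false, [0, 0, 1, 1, 1, 0, 0, 0, 0, 0, -1], 0),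
    (false, [0, 0, 0, 0, 0, 1, 1, 0, 0, 0, -1], 0),
    (false, [0, 1, 0, 0, 1, 0, 0, 0, 0, 1, -1], 0),
    (false, [1, 0, 1, 0, 0, 0, 0, 1, 0, 0, -1], 0),
    (false, [0, 0, 1, 0, 0, 1, 0, 1, 0, 0, -1], 0),
    (false, [0, 0, 0, 0, 1, 0, 1, 0, 0, 1, -1], 0),
    (true, [0, 0, 0, 0, 0, 0, 0, 1, 1, 1, 0], 0),
    (true, [0, 1, 4, 1, 0, 0, 1, 1, 0, 1, 0], 1),
    (true, [1, 0, 0, 1, 4, 1, 0, 1, 0, 1, 0], 1),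
    (true, [0, 0, 0, 0, 0, 0, 0, 0, 0, 0, 1], 1),
    (true, [0, 0, 0, -1, 0, 0, 0, 0, 0, -1, 1], 1)]
  moves := A1_moves0
  reqs := A1_reqs0
  tree := A1_0_1_0_tree

theorem A1_0_1_0_ok : A1.instOK 0 1 0 A1_0_1_0 = true := by
  decide +kernel

def A1_0_0_1_tree : Tree :=
  (.br 5 0
  (.fk [(0, -1), (2, 1), (3, 1), (5, -1), (6, -1), (11, 1)])
  (.br 7 0
   (.br 0 0
    (.fk [(0, 1), (1, -3), (3, -1), (4, 6), (5, -3), (9, 1), (10, 1), (11, 1)])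
    (.br 3 0
     (.br 6 0
      (.fk [(0, 1), (1, 1), (2, 4), (3, -2), (4, -1), (5, -4), (6, 1), (8, 1)])
      (.br 1 0
       (.fk [(0, 6), (1, 1), (2, -1), (4, -6), (5, 1), (6, -1), (8, 1)])
       (.br 2 0
        (.fk [(0, -2), (1, 1), (2, -1), (4, 2), (5, 1), (6, -1), (8, 1)])
        (.mv 1))))
     (.br 9 0
      (.fk [(0, 1), (1, -1), (2, -2), (3, -1), (4, -1), (5, 2), (6, 2)])
      (.mv 2))))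
   (.mv 0)))

def A1_0_0_1 : Inst where
  rows :=
   [(false, [1, 1, 0, 0, 0, 0, 0, 0, 0, 0, -1], 0),
    (false, [0, 0, 1, 1, 1, 0, 0, 0, 0, 0, -1], 0),
    (false, [0, 0, 0, 0, 0, 1, 1, 0, 0, 0, -1], 0),
    (false, [0, 1, 0, 0, 1, 0, 0, 0, 0, 1, -1], 0),
    (false, [1, 0, 1, 0, 0, 0, 0, 1, 0, 0, -1], 0),
    (false, [0, 0, 1, 0, 0, 1, 0, 1, 0, 0, -1], 0),
    (false, [0, 0, 0, 0, 1, 0, 1, 0, 0, 1, -1], 0),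
    (true, [0, 0, 0, 0, 0, 0, 0, 1, 1, 1, 0], 0),
    (true, [0, 1, 4, 1, 0, 0, 1, 1, 0, 1, 0], 1),
    (true, [1, 0, 0, 1, 4, 1, 0, 1, 0, 1, 0], 1),
    (true, [0, 0, 0, 0, 0, 0, 0, 0, 0, 0, 1], 1),
    (true, [1, 0, 0, 0, 0, 1, 0, 1, 0, 0, -1], 1)]
  moves := A1_moves0
  reqs := A1_reqs0
  tree := A1_0_0_1_tree

theorem A1_0_0_1_ok : A1.instOK 0 0 1 A1_0_0_1 = true := by
  decide +kernel

def A1_0_1_1_tree : Tree :=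
  (.br 1 0
  (.fk [(0, 1), (2, 1), (3, 1), (6, -1), (10, 1), (11, 1)])
  (.br 2 0
   (.fk [(5, 1), (11, 1)])
   (.br 6 0
    (.fk [(0, 7), (1, -3), (2, 6), (3, -7), (4, -2), (5, -1), (6, 6), (9, 1), (11, 6)])
    (.mv 1))))

def A1_0_1_1 : Inst where
  rows :=
   [(false, [1, 1, 0, 0, 0, 0, 0, 0, 0, 0, -1], 0),
    (false, [0, 0, 1, 1, 1, 0, 0, 0, 0, 0, -1], 0),
    (false, [0, 0, 0, 0, 0, 1, 1, 0, 0, 0, -1], 0),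
    (false, [0, 1, 0, 0, 1, 0, 0, 0, 0, 1, -1], 0),
    (false, [1, 0, 1, 0, 0, 0, 0, 1, 0, 0, -1], 0),
    (false, [0, 0, 1, 0, 0, 1, 0, 1, 0, 0, -1], 0),
    (false, [0, 0, 0, 0, 1, 0, 1, 0, 0, 1, -1], 0),
    (true, [0, 0, 0, 0, 0, 0, 0, 1, 1, 1, 0], 0),
    (true, [0, 1, 4, 1, 0, 0, 1, 1, 0, 1, 0], 1),
    (true, [1, 0, 0, 1, 4, 1, 0, 1, 0, 1, 0], 1),
    (true, [0, 0, 0, 0, 0, 0, 0, 0, 0, 0, 1], 1),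
    (true, [-1, 0, 0, 0, 0, -1, 0, -1, 0, 0, 1], 1)]
  moves := A1_moves0
  reqs := A1_reqs0
  tree := A1_0_1_1_tree

theorem A1_0_1_1_ok : A1.instOK 0 1 1 A1_0_1_1 = true := by
  decide +kernel

def A1_0_2_0_tree : Tree :=
  (.fk [(0, 1), (1, -2), (2, 1), (3, -1), (4, 1), (5, 1), (6, -1), (11, 2), (12, -2), (13, 1)])

def A1_0_2_0 : Inst where
  rows :=
   [(false, [1, 1, 0, 0, 0, 0, 0, 0, 0, 0, -1], 0),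
    (false, [0, 0, 1, 1, 1, 0, 0, 0, 0, 0, -1], 0),
    (false, [0, 0, 0, 0, 0, 1, 1, 0, 0, 0, -1], 0),
    (false, [0, 1, 0, 0, 1, 0, 0, 0, 0, 1, -1], 0),
    (false, [1, 0, 1, 0, 0, 0, 0, 1, 0, 0, -1], 0),
    (false, [0, 0, 1, 0, 0, 1, 0, 1, 0, 0, -1], 0),
    (false, [0, 0, 0, 0, 1, 0, 1, 0, 0, 1, -1], 0),
    (true, [0, 0, 0, 0, 0, 0, 0, 1, 1, 1, 0], 0),
    (true, [0, 1, 4, 1, 0, 0, 1, 1, 0, 1, 0], 1),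
    (true, [1, 0, 0, 1, 4, 1, 0, 1, 0, 1, 0], 1),
    (true, [0, 0, 0, 0, 0, 0, 0, 0, 0, 0, 1], 1),
    (false, [0, 0, 0, 1, 0, 0, 0, 0, 0, 1, -1], 0),
    (false, [1, 0, 0, 0, 0, 1, 0, 1, 0, 0, -1], 0),
    (true, [0, 0, 0, 0, 1, 0, 0, 0, 0, 0, 0], 1)]
  moves := A1_moves0
  reqs := A1_reqs0
  tree := A1_0_2_0_tree

theorem A1_0_2_0_ok : A1.instOK 0 2 0 A1_0_2_0 = true := by
  decide +kernel

theorem A1_ok0 : ∀ b ∈ A1.branches, ∃ I : Inst, A1.instOK 0 b.1 b.2 I = true := by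
  intro b hb
  have h : b = (0, 0) ∨ b = (1, 0) ∨ b = (0, 1) ∨ b = (1, 1) ∨ b = (2, 0) := by
    have hb2 : b ∈ [(0, 0), (1, 0), (0, 1), (1, 1), (2, 0)] := hb
    simpa using hb2
  rcases h with rfl | rfl | rfl | rfl | rfl
  · exact ⟨A1_0_0_0, A1_0_0_0_ok⟩
  · exact ⟨A1_0_1_0, A1_0_1_0_ok⟩
  · exact ⟨A1_0_0_1, A1_0_0_1_ok⟩
  · exact ⟨A1_0_1_1, A1_0_1_1_ok⟩
  · exact ⟨A1_0_2_0, A1_0_2_0_ok⟩

end Pool.Agent.helper1.CAD
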