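import Pool.Agent.helper1.CAD.Sound

namespace Pool.Agent.helper1.CAD

set_option maxRecDepth 100000

def BS0 : Spec where
  K := .B
  tys := [(2, 2, [1], 1), (2, 0, [1], 1), (0, 2, [1], 0), (0, 1, [0], 3)]
  kc := ([4], 4)
  pmin := [0]
  sl := (1, 1)
  good := true
  pv := 0
  px := 1
  pvx := 1

def BS0_moves0 : List Move :=
   [([((0, 1, 0), -1)], 1),
    ([((0, 2, 0), -2)], 1),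
    ([((0, 2, 2), 1), ((0, 1, 2), 2)], 1),
    ([((0, 2, 1), 1), ((0, 1, 1), 2)], 1),
    ([((0, 1, -1), -1), ((0, 1, 1), -1)], 1),
    ([((0, 2, 1), -1), ((0, 1, -1), -2)], 1),
    ([((2, 2, 0), 0), ((2, 0, 0), 2)], 1),
    ([((0, 1, 2), 0), ((0, 0, 2), 1)], 1)]

def BS0_reqs0 : List (List ℤ) :=
   [[0, 0, 0, 0, 0, 0, 0, 0, 0, 0, 0, 0, 1, 0, 0, 0, 0, 0, 0, 0, 0, 0],
    [0, 0, 0, 0, 0, 0, 0, 0, 1, 0, 0, 0, 0, 0, 0, 0, 0, 0, 0, 0, 0, 0],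
    [0, 0, 0, 0, 0, 0, 0, 0, 0, 0, 1, 0, 0, 0, 1, 0, 0, 0, 0, 0, 0, 0],
    [0, 0, 0, 0, 0, 0, 0, 0, 0, 1, 0, 0, 0, 1, 0, 0, 0, 0, 0, 0, 0, 0],
    [0, 0, 0, 0, 0, 0, 0, 0, 0, 0, 0, 1, 0, 1, 0, 0, 0, 0, 0, 0, 0, 0],
    [0, 0, 0, 0, 0, 0, 0, 0, 0, 1, 0, 1, 0, 0, 0, 0, 0, 0, 0, 0, 0, 0],
    [1, 0, 0, 0, 0, 1, 0, 0, 0, 0, 0, 0, 0, 0, 0, 0, 0, 0, 0, 0, 0, 0],
    [0, 0, 0, 0, 0, 0, 0, 0, 0, 0, 0, 0, 0, 0, 1, 0, 0, 1, 0, 0, 0, 0]]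

def BS0_base0 : List Row :=
   [(false, [1, 1, 1, 0, 0, 0, 0, 0, 0, 0, 0, 0, 0, 0, 0, 0, 0, 0, 0, 0, 0, -1], 1),
    (false, [0, 0, 0, 1, 1, 1, 1, 1, 0, 0, 0, 0, 0, 0, 0, 0, 0, 0, 0, 0, 0, -1], 1),
    (false, [0, 0, 0, 0, 0, 0, 0, 0, 1, 1, 1, 0, 0, 0, 0, 0, 0, 0, 0, 0, 0, -1], 0),
    (false, [0, 0, 0, 0, 0, 0, 0, 0, 0, 0, 0, 1, 1, 1, 1, 0, 0, 0, 0, 0, 0, 0], 3),
    (false, [0, 1, 4, 4, 1, 0, 1, 4, 0, 1, 4, 1, 0, 1, 4, 0, 1, 4, 0, 0, 0, -8], 8),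
    (false, [4, 1, 0, 4, 1, 0, 1, 4, 4, 1, 0, 4, 1, 0, 1, 0, 1, 4, 0, 0, 0, -8], 7),
    (false, [-1, -1, -1, 1, 1, 1, 1, 1, -1, -1, -1, 0, 0, 0, 0, 1, 1, 1, -1, 0, 0, 0], 0),
    (false, [1, 1, 1, -1, -1, -1, -1, -1, -1, -1, -1, 0, 0, 0, 0, 1, 1, 1, 0, -1, 0, 0], 0),
    (false, [-1, 0, 1, -1, 0, 1, 0, -1, -1, 0, 1, -1, 0, 1, 0, 1, 0, -1, 0, 0, -1, 0], 0),
    (true, [-1, -1, -1, -1, -1, -1, -1, -1, 1, 1, 1, 1, 1, 1, 1, 1, 1, 1, 0, 0, 0, 0], 1),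
    (true, [1, 1, 1, 1, 1, 1, 1, 1, -1, -1, -1, -1, -1, -1, -1, -1, -1, -1, 0, 0, 0, 0], -1),
    (true, [1, 0, -1, -1, 0, 1, 0, -1, 1, 0, -1, 0, 1, 0, -1, 1, 0, -1, 0, 0, 0, 0], 0),
    (true, [0, 1, 4, 0, 1, 4, 9, 16, 4, 1, 0, 4, 1, 0, 1, 0, 1, 4, 0, 0, 0, 0], 1),
    (true, [4, 1, 0, 16, 9, 4, 1, 0, 0, 1, 4, 1, 0, 1, 4, 0, 1, 4, 0, 0, 0, 0], 1),
    (true, [0, 0, 0, 0, 0, 0, 0, 0, 0, 0, 0, 0, 0, 0, 0, 0, 0, 0, 0, 0, 0, 1], 0)]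

def BS0_0_0_0_tree : Tree :=
  (.br 12 0
  (.br 8 0
   (.br 9 0
    (.br 14 0
     (.fk [(0, -4), (1, -4), (3, 1), (4, 1), (10, 2), (11, 2)])
     (.br 10 0
      (.br 11 0
       (.br 17 0
        (.br 0 0
         (.fk [(3, 1), (4, -1), (5, 1)])
         (.br 5 0
          (.fk [(0, -32), (1, -10), (2, 26), (3, 9), (4, -1), (5, 3), (10, 8), (11, 6)])
          (.mv 6)))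
        (.mv 7))
       (.br 13 0
        (.fk [(0, -2), (1, -6), (2, 16), (3, 7), (5, -1), (10, 3), (11, 3)])
        (.mv 4)))
      (.mv 2)))
    (.br 11 0
     (.br 13 0
      (.fk [(0, -4), (1, -4), (3, 1), (5, 1), (8, 2), (10, 2)])
      (.mv 3))
     (.mv 5)))
   (.mv 1))
  (.mv 0))

def BS0_0_0_0 : Inst where
  rows :=
   [(false, [1, 1, 1, 0, 0, 0, 0, 0, 0, 0, 0, 0, 0, 0, 0, 0, 0, 0, 0, 0, 0, -1], 1),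
    (false, [0, 0, 0, 1, 1, 1, 1, 1, 0, 0, 0, 0, 0, 0, 0, 0, 0, 0, 0, 0, 0, -1], 1),
    (false, [0, 0, 0, 0, 0, 0, 0, 0, 1, 1, 1, 0, 0, 0, 0, 0, 0, 0, 0, 0, 0, -1], 0),
    (false, [0, 0, 0, 0, 0, 0, 0, 0, 0, 0, 0, 1, 1, 1, 1, 0, 0, 0, 0, 0, 0, 0], 3),
    (false, [0, 1, 4, 4, 1, 0, 1, 4, 0, 1, 4, 1, 0, 1, 4, 0, 1, 4, 0, 0, 0, -8], 8),
    (false, [4, 1, 0, 4, 1, 0, 1, 4, 4, 1, 0, 4, 1, 0, 1, 0, 1, 4, 0, 0, 0, -8], 7),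
    (false, [-1, -1, -1, 1, 1, 1, 1, 1, -1, -1, -1, 0, 0, 0, 0, 1, 1, 1, -1, 0, 0, 0], 0),
    (false, [1, 1, 1, -1, -1, -1, -1, -1, -1, -1, -1, 0, 0, 0, 0, 1, 1, 1, 0, -1, 0, 0], 0),
    (false, [-1, 0, 1, -1, 0, 1, 0, -1, -1, 0, 1, -1, 0, 1, 0, 1, 0, -1, 0, 0, -1, 0], 0),
    (true, [-1, -1, -1, -1, -1, -1, -1, -1, 1, 1, 1, 1, 1, 1, 1, 1, 1, 1, 0, 0, 0, 0], 1),
    (true, [1, 1, 1, 1, 1, 1, 1, 1, -1, -1, -1, -1, -1, -1, -1, -1, -1, -1, 0, 0, 0, 0], -1),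
    (true, [1, 0, -1, -1, 0, 1, 0, -1, 1, 0, -1, 0, 1, 0, -1, 1, 0, -1, 0, 0, 0, 0], 0),
    (true, [0, 1, 4, 0, 1, 4, 9, 16, 4, 1, 0, 4, 1, 0, 1, 0, 1, 4, 0, 0, 0, 0], 1),
    (true, [4, 1, 0, 16, 9, 4, 1, 0, 0, 1, 4, 1, 0, 1, 4, 0, 1, 4, 0, 0, 0, 0], 1),
    (true, [0, 0, 0, 0, 0, 0, 0, 0, 0, 0, 0, 0, 0, 0, 0, 0, 0, 0, 0, 0, 0, 1], 0),
    (true, [4, 1, 0, 16, 9, 4, 1, 0, 0, 1, 4, 1, 0, 1, 4, 0, 1, 4, 0, 0, 0, -8], 9)]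
  moves := BS0_moves0
  reqs := BS0_reqs0
  tree := BS0_0_0_0_tree

theorem BS0_0_0_0_ok : BS0.instOK 0 0 0 BS0_0_0_0 = true := by
  decide +kernel

def BS0_0_1_0_tree : Tree :=
  (.br 12 0
  (.br 8 0
   (.fk [(0, -20), (1, -20), (2, 8), (3, 8), (4, 5), (10, 12), (11, 12), (15, 1)])
   (.mv 1))
  (.mv 0))

def BS0_0_1_0 : Inst where
  rows :=
   [(false, [1, 1, 1, 0, 0, 0, 0, 0, 0, 0, 0, 0, 0, 0, 0, 0, 0, 0, 0, 0, 0, -1], 1),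
    (false, [0, 0, 0, 1, 1, 1, 1, 1, 0, 0, 0, 0, 0, 0, 0, 0, 0, 0, 0, 0, 0, -1], 1),
    (false, [0, 0, 0, 0, 0, 0, 0, 0, 1, 1, 1, 0, 0, 0, 0, 0, 0, 0, 0, 0, 0, -1], 0),
    (false, [0, 0, 0, 0, 0, 0, 0, 0, 0, 0, 0, 1, 1, 1, 1, 0, 0, 0, 0, 0, 0, 0], 3),
    (false, [0, 1, 4, 4, 1, 0, 1, 4, 0, 1, 4, 1, 0, 1, 4, 0, 1, 4, 0, 0, 0, -8], 8),
    (false, [4, 1, 0, 4, 1, 0, 1, 4, 4, 1, 0, 4, 1, 0, 1, 0, 1, 4, 0, 0, 0, -8], 7),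
    (false, [-1, -1, -1, 1, 1, 1, 1, 1, -1, -1, -1, 0, 0, 0, 0, 1, 1, 1, -1, 0, 0, 0], 0),
    (false, [1, 1, 1, -1, -1, -1, -1, -1, -1, -1, -1, 0, 0, 0, 0, 1, 1, 1, 0, -1, 0, 0], 0),
    (false, [-1, 0, 1, -1, 0, 1, 0, -1, -1, 0, 1, -1, 0, 1, 0, 1, 0, -1, 0, 0, -1, 0], 0),
    (true, [-1, -1, -1, -1, -1, -1, -1, -1, 1, 1, 1, 1, 1, 1, 1, 1, 1, 1, 0, 0, 0, 0], 1),
    (true, [1, 1, 1, 1, 1, 1, 1, 1, -1, -1, -1, -1, -1, -1, -1, -1, -1, -1, 0, 0, 0, 0], -1),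
    (true, [1, 0, -1, -1, 0, 1, 0, -1, 1, 0, -1, 0, 1, 0, -1, 1, 0, -1, 0, 0, 0, 0], 0),
    (true, [0, 1, 4, 0, 1, 4, 9, 16, 4, 1, 0, 4, 1, 0, 1, 0, 1, 4, 0, 0, 0, 0], 1),
    (true, [4, 1, 0, 16, 9, 4, 1, 0, 0, 1, 4, 1, 0, 1, 4, 0, 1, 4, 0, 0, 0, 0], 1),
    (true, [0, 0, 0, 0, 0, 0, 0, 0, 0, 0, 0, 0, 0, 0, 0, 0, 0, 0, 0, 0, 0, 1], 0),
    (true, [-4, -1, 0, -16, -9, -4, -1, 0, 0, -1, -4, -1, 0, -1, -4, 0, -1, -4, 0, 0, 0, 8], -7)]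
  moves := BS0_moves0
  reqs := BS0_reqs0
  tree := BS0_0_1_0_tree

theorem BS0_0_1_0_ok : BS0.instOK 0 1 0 BS0_0_1_0 = true := by
  decide +kernel

def BS0_0_2_0_tree : Tree :=
  (.br 12 0
  (.br 8 0
   (.fk [(0, -20), (1, -20), (2, 8), (3, 8), (4, 5), (10, 12), (11, 12), (15, -1), (16, 5)])
   (.mv 1))
  (.mv 0))

def BS0_0_2_0 : Inst where
  rows :=
   [(false, [1, 1, 1, 0, 0, 0, 0, 0, 0, 0, 0, 0, 0, 0, 0, 0, 0, 0, 0, 0, 0, -1], 1),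
    (false, [0, 0, 0, 1, 1, 1, 1, 1, 0, 0, 0, 0, 0, 0, 0, 0, 0, 0, 0, 0, 0, -1], 1),
    (false, [0, 0, 0, 0, 0, 0, 0, 0, 1, 1, 1, 0, 0, 0, 0, 0, 0, 0, 0, 0, 0, -1], 0),
    (false, [0, 0, 0, 0, 0, 0, 0, 0, 0, 0, 0, 1, 1, 1, 1, 0, 0, 0, 0, 0, 0, 0], 3),
    (false, [0, 1, 4, 4, 1, 0, 1, 4, 0, 1, 4, 1, 0, 1, 4, 0, 1, 4, 0, 0, 0, -8], 8),
    (false, [4, 1, 0, 4, 1, 0, 1, 4, 4, 1, 0, 4, 1, 0, 1, 0, 1, 4, 0, 0, 0, -8], 7),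
    (false, [-1, -1, -1, 1, 1, 1, 1, 1, -1, -1, -1, 0, 0, 0, 0, 1, 1, 1, -1, 0, 0, 0], 0),
    (false, [1, 1, 1, -1, -1, -1, -1, -1, -1, -1, -1, 0, 0, 0, 0, 1, 1, 1, 0, -1, 0, 0], 0),
    (false, [-1, 0, 1, -1, 0, 1, 0, -1, -1, 0, 1, -1, 0, 1, 0, 1, 0, -1, 0, 0, -1, 0], 0),
    (true, [-1, -1, -1, -1, -1, -1, -1, -1, 1, 1, 1, 1, 1, 1, 1, 1, 1, 1, 0, 0, 0, 0], 1),
    (true, [1, 1, 1, 1, 1, 1, 1, 1, -1, -1, -1, -1, -1, -1, -1, -1, -1, -1, 0, 0, 0, 0], -1),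
    (true, [1, 0, -1, -1, 0, 1, 0, -1, 1, 0, -1, 0, 1, 0, -1, 1, 0, -1, 0, 0, 0, 0], 0),
    (true, [0, 1, 4, 0, 1, 4, 9, 16, 4, 1, 0, 4, 1, 0, 1, 0, 1, 4, 0, 0, 0, 0], 1),
    (true, [4, 1, 0, 16, 9, 4, 1, 0, 0, 1, 4, 1, 0, 1, 4, 0, 1, 4, 0, 0, 0, 0], 1),
    (true, [0, 0, 0, 0, 0, 0, 0, 0, 0, 0, 0, 0, 0, 0, 0, 0, 0, 0, 0, 0, 0, 1], 0),
    (false, [4, 1, 0, 16, 9, 4, 1, 0, 0, 1, 4, 1, 0, 1, 4, 0, 1, 4, 0, 0, 0, -8], 8),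
    (true, [0, 0, 0, 1, 1, 0, 0, 0, 0, 0, 0, 0, 0, 0, 0, 0, 0, 0, 0, 0, 0, 0], 1)]
  moves := BS0_moves0
  reqs := BS0_reqs0
  tree := BS0_0_2_0_tree

theorem BS0_0_2_0_ok : BS0.instOK 0 2 0 BS0_0_2_0 = true := by
  decide +kernel

def BS0_0_3_0_tree : Tree :=
  (.fk [(0, -2), (2, 2), (3, 1), (4, 1), (7, 1), (10, 1), (11, 2), (15, -1), (16, 2)])

def BS0_0_3_0 : Inst where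
  rows :=
   [(false, [1, 1, 1, 0, 0, 0, 0, 0, 0, 0, 0, 0, 0, 0, 0, 0, 0, 0, 0, 0, 0, -1], 1),
    (false, [0, 0, 0, 1, 1, 1, 1, 1, 0, 0, 0, 0, 0, 0, 0, 0, 0, 0, 0, 0, 0, -1], 1),
    (false, [0, 0, 0, 0, 0, 0, 0, 0, 1, 1, 1, 0, 0, 0, 0, 0, 0, 0, 0, 0, 0, -1], 0),
    (false, [0, 0, 0, 0, 0, 0, 0, 0, 0, 0, 0, 1, 1, 1, 1, 0, 0, 0, 0, 0, 0, 0], 3),
    (false, [0, 1, 4, 4, 1, 0, 1, 4, 0, 1, 4, 1, 0, 1, 4, 0, 1, 4, 0, 0, 0, -8], 8),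
    (false, [4, 1, 0, 4, 1, 0, 1, 4, 4, 1, 0, 4, 1, 0, 1, 0, 1, 4, 0, 0, 0, -8], 7),
    (false, [-1, -1, -1, 1, 1, 1, 1, 1, -1, -1, -1, 0, 0, 0, 0, 1, 1, 1, -1, 0, 0, 0], 0),
    (false, [1, 1, 1, -1, -1, -1, -1, -1, -1, -1, -1, 0, 0, 0, 0, 1, 1, 1, 0, -1, 0, 0], 0),
    (false, [-1, 0, 1, -1, 0, 1, 0, -1, -1, 0, 1, -1, 0, 1, 0, 1, 0, -1, 0, 0, -1, 0], 0),
    (true, [-1, -1, -1, -1, -1, -1, -1, -1, 1, 1, 1, 1, 1, 1, 1, 1, 1, 1, 0, 0, 0, 0], 1),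
    (true, [1, 1, 1, 1, 1, 1, 1, 1, -1, -1, -1, -1, -1, -1, -1, -1, -1, -1, 0, 0, 0, 0], -1),
    (true, [1, 0, -1, -1, 0, 1, 0, -1, 1, 0, -1, 0, 1, 0, -1, 1, 0, -1, 0, 0, 0, 0], 0),
    (true, [0, 1, 4, 0, 1, 4, 9, 16, 4, 1, 0, 4, 1, 0, 1, 0, 1, 4, 0, 0, 0, 0], 1),
    (true, [4, 1, 0, 16, 9, 4, 1, 0, 0, 1, 4, 1, 0, 1, 4, 0, 1, 4, 0, 0, 0, 0], 1),
    (true, [0, 0, 0, 0, 0, 0, 0, 0, 0, 0, 0, 0, 0, 0, 0, 0, 0, 0, 0, 0, 0, 1], 0),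
    (false, [4, 1, 0, 16, 9, 4, 1, 0, 0, 1, 4, 1, 0, 1, 4, 0, 1, 4, 0, 0, 0, -8], 8),
    (true, [1, 0, -1, 0, 0, 1, 0, -1, -1, 0, 1, 0, -1, 0, 1, -1, 0, 1, 0, 0, 0, 0], 1)]
  moves := BS0_moves0
  reqs := BS0_reqs0
  tree := BS0_0_3_0_tree

theorem BS0_0_3_0_ok : BS0.instOK 0 3 0 BS0_0_3_0 = true := by
  decide +kernel

theorem BS0_ok0 : ∀ b ∈ BS0.branches, ∃ I : Inst, BS0.instOK 0 b.1 b.2 I = true := by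
  intro b hb
  have h : b = (0, 0) ∨ b = (1, 0) ∨ b = (2, 0) ∨ b = (3, 0) := by
    have hb2 : b ∈ [(0, 0), (1, 0), (2, 0), (3, 0)] := hb
    simpa using hb2
  rcases h with rfl | rfl | rfl | rfl
  · exact ⟨BS0_0_0_0, BS0_0_0_0_ok⟩
  · exact ⟨BS0_0_1_0, BS0_0_1_0_ok⟩
  · exact ⟨BS0_0_2_0, BS0_0_2_0_ok⟩
  · exact ⟨BS0_0_3_0, BS0_0_3_0_ok⟩

def BS0_moves1 : List Move :=
   [([((0, 2, 0), -2)], 1),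
    ([((0, 1, 0), -1)], 1),
    ([((0, 2, 1), -1), ((0, 1, -1), -2)], 1),
    ([((2, 2, 0), 0), ((2, 0, 0), 2)], 1),
    ([((0, 1, -1), -1), ((0, 1, 1), -1)], 1),
    ([((0, 2, 1), 1), ((0, 1, 1), 2)], 1),
    ([((0, 1, -1), 0), ((0, 0, 1), -1)], 1),
    ([((0, 1, 1), 0), ((0, 0, 1), 1)], 1),
    ([((2, 2, 2), 0), ((2, 0, 0), 2), ((0, 1, -1), -1), ((0, 1, -1), -1)], 1),
    ([((2, 2, 0), 0), ((2, 0, 2), 2), ((0, 1, 1), -1), ((0, 1, 1), -1)], 1)]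

def BS0_reqs1 : List (List ℤ) :=
   [[0, 0, 0, 0, 0, 0, 0, 0, 1, 0, 0, 0, 0, 0, 0, 0, 0, 0, 0, 0, 0, 0],
    [0, 0, 0, 0, 0, 0, 0, 0, 0, 0, 0, 0, 1, 0, 0, 0, 0, 0, 0, 0, 0, 0],
    [0, 0, 0, 0, 0, 0, 0, 0, 0, 1, 0, 1, 0, 0, 0, 0, 0, 0, 0, 0, 0, 0],
    [1, 0, 0, 0, 0, 1, 0, 0, 0, 0, 0, 0, 0, 0, 0, 0, 0, 0, 0, 0, 0, 0],
    [0, 0, 0, 0, 0, 0, 0, 0, 0, 0, 0, 1, 0, 1, 0, 0, 0, 0, 0, 0, 0, 0],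
    [0, 0, 0, 0, 0, 0, 0, 0, 0, 1, 0, 0, 0, 1, 0, 0, 0, 0, 0, 0, 0, 0],
    [0, 0, 0, 0, 0, 0, 0, 0, 0, 0, 0, 1, 0, 0, 0, 0, 1, 0, 0, 0, 0, 0],
    [0, 0, 0, 0, 0, 0, 0, 0, 0, 0, 0, 0, 0, 1, 0, 0, 1, 0, 0, 0, 0, 0],
    [0, 0, 1, 0, 0, 1, 0, 0, 0, 0, 0, 2, 0, 0, 0, 0, 0, 0, 0, 0, 0, 0],
    [1, 0, 0, 0, 0, 0, 0, 1, 0, 0, 0, 0, 0, 2, 0, 0, 0, 0, 0, 0, 0, 0]]

def BS0_base1 : List Row :=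
   [(false, [1, 1, 1, 0, 0, 0, 0, 0, 0, 0, 0, 0, 0, 0, 0, 0, 0, 0, 0, 0, 0, -1], 1),
    (false, [0, 0, 0, 1, 1, 1, 1, 1, 0, 0, 0, 0, 0, 0, 0, 0, 0, 0, 0, 0, 0, -1], 1),
    (false, [0, 0, 0, 0, 0, 0, 0, 0, 1, 1, 1, 0, 0, 0, 0, 0, 0, 0, 0, 0, 0, -1], 0),
    (false, [0, 0, 0, 0, 0, 0, 0, 0, 0, 0, 0, 1, 1, 1, 1, 0, 0, 0, 0, 0, 0, 0], 3),
    (false, [0, 1, 4, 4, 1, 0, 1, 4, 0, 1, 4, 1, 0, 1, 4, 0, 1, 4, 0, 0, 0, -8], 7),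
    (false, [4, 1, 0, 4, 1, 0, 1, 4, 4, 1, 0, 4, 1, 0, 1, 0, 1, 4, 0, 0, 0, -8], 8),
    (false, [-1, -1, -1, 1, 1, 1, 1, 1, -1, -1, -1, 0, 0, 0, 0, 1, 1, 1, -1, 0, 0, 0], 0),
    (false, [1, 1, 1, -1, -1, -1, -1, -1, -1, -1, -1, 0, 0, 0, 0, 1, 1, 1, 0, -1, 0, 0], 0),
    (false, [-1, 0, 1, -1, 0, 1, 0, -1, -1, 0, 1, -1, 0, 1, 0, 1, 0, -1, 0, 0, -1, 0], 0),
    (true, [-1, -1, -1, -1, -1, -1, -1, -1, 1, 1, 1, 1, 1, 1, 1, 1, 1, 1, 0, 0, 0, 0], 1),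
    (true, [1, 1, 1, 1, 1, 1, 1, 1, -1, -1, -1, -1, -1, -1, -1, -1, -1, -1, 0, 0, 0, 0], -1),
    (true, [1, 0, -1, -1, 0, 1, 0, -1, 1, 0, -1, 0, 1, 0, -1, 1, 0, -1, 0, 0, 0, 0], 0),
    (true, [0, 1, 4, 0, 1, 4, 9, 16, 4, 1, 0, 4, 1, 0, 1, 0, 1, 4, 0, 0, 0, 0], 1),
    (true, [4, 1, 0, 16, 9, 4, 1, 0, 0, 1, 4, 1, 0, 1, 4, 0, 1, 4, 0, 0, 0, 0], 1),
    (true, [0, 0, 0, 0, 0, 0, 0, 0, 0, 0, 0, 0, 0, 0, 0, 0, 0, 0, 0, 0, 0, 1], 0)]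

def BS0_1_0_0_tree : Tree :=
  (.br 8 0
  (.br 13 0
   (.br 12 0
    (.br 11 0
     (.fk [(0, -20), (1, -16), (2, 4), (3, 7), (4, -1), (5, 5), (8, 8), (10, 8)])
     (.br 9 0
      (.br 16 0
       (.br 11 1
        (.br 0 0
         (.fk [(3, 3), (4, -1), (5, 1)])
         (.br 5 0
          (.fk [(0, -20), (1, -16), (2, 4), (3, 11), (4, -1), (5, 5), (8, 12), (10, 12)])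
          (.mv 3)))
        (.br 2 0
         (.fk [(0, -18), (1, -30), (3, 4), (4, 2), (5, 4), (6, 3), (8, 11), (10, 15), (11, 1)])
         (.br 5 0
          (.fk [(0, -46), (1, -36), (2, 10), (3, 12), (4, 11), (5, -2), (10, 27), (11, 27)])
          (.mv 8))))
       (.mv 6))
      (.mv 2)))
    (.mv 1))
   (.br 11 0
    (.br 9 0
     (.br 12 0
      (.br 16 0
       (.br 13 1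
        (.fk [(0, -4), (2, 4), (3, 3), (4, -1), (5, 1)])
        (.br 0 0
         (.fk [(0, -6), (1, -8), (2, -2), (3, 1), (4, 1), (5, 1), (10, 4), (11, 4)])
         (.br 7 0
          (.br 5 0
           (.fk [(0, -68), (1, -44), (2, 24), (3, 18), (4, 6), (5, 5), (10, 24), (11, 24), (12, 1)])
           (.mv 3))
          (.mv 9))))
       (.mv 7))
      (.mv 1))
     (.mv 5))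
    (.mv 4)))
  (.mv 0))

def BS0_1_0_0 : Inst where
  rows :=
   [(false, [1, 1, 1, 0, 0, 0, 0, 0, 0, 0, 0, 0, 0, 0, 0, 0, 0, 0, 0, 0, 0, -1], 1),
    (false, [0, 0, 0, 1, 1, 1, 1, 1, 0, 0, 0, 0, 0, 0, 0, 0, 0, 0, 0, 0, 0, -1], 1),
    (false, [0, 0, 0, 0, 0, 0, 0, 0, 1, 1, 1, 0, 0, 0, 0, 0, 0, 0, 0, 0, 0, -1], 0),
    (false, [0, 0, 0, 0, 0, 0, 0, 0, 0, 0, 0, 1, 1, 1, 1, 0, 0, 0, 0, 0, 0, 0], 3),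
    (false, [0, 1, 4, 4, 1, 0, 1, 4, 0, 1, 4, 1, 0, 1, 4, 0, 1, 4, 0, 0, 0, -8], 7),
    (false, [4, 1, 0, 4, 1, 0, 1, 4, 4, 1, 0, 4, 1, 0, 1, 0, 1, 4, 0, 0, 0, -8], 8),
    (false, [-1, -1, -1, 1, 1, 1, 1, 1, -1, -1, -1, 0, 0, 0, 0, 1, 1, 1, -1, 0, 0, 0], 0),
    (false, [1, 1, 1, -1, -1, -1, -1, -1, -1, -1, -1, 0, 0, 0, 0, 1, 1, 1, 0, -1, 0, 0], 0),
    (false, [-1, 0, 1, -1, 0, 1, 0, -1, -1, 0, 1, -1, 0, 1, 0, 1, 0, -1, 0, 0, -1, 0], 0),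
    (true, [-1, -1, -1, -1, -1, -1, -1, -1, 1, 1, 1, 1, 1, 1, 1, 1, 1, 1, 0, 0, 0, 0], 1),
    (true, [1, 1, 1, 1, 1, 1, 1, 1, -1, -1, -1, -1, -1, -1, -1, -1, -1, -1, 0, 0, 0, 0], -1),
    (true, [1, 0, -1, -1, 0, 1, 0, -1, 1, 0, -1, 0, 1, 0, -1, 1, 0, -1, 0, 0, 0, 0], 0),
    (true, [0, 1, 4, 0, 1, 4, 9, 16, 4, 1, 0, 4, 1, 0, 1, 0, 1, 4, 0, 0, 0, 0], 1),
    (true, [4, 1, 0, 16, 9, 4, 1, 0, 0, 1, 4, 1, 0, 1, 4, 0, 1, 4, 0, 0, 0, 0], 1),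
    (true, [0, 0, 0, 0, 0, 0, 0, 0, 0, 0, 0, 0, 0, 0, 0, 0, 0, 0, 0, 0, 0, 1], 0),
    (true, [4, 1, 0, 16, 9, 4, 1, 0, 0, 1, 4, 1, 0, 1, 4, 0, 1, 4, 0, 0, 0, -8], 8)]
  moves := BS0_moves1
  reqs := BS0_reqs1
  tree := BS0_1_0_0_tree

theorem BS0_1_0_0_ok : BS0.instOK 1 0 0 BS0_1_0_0 = true := by
  decide +kernel

def BS0_1_1_0_tree : Tree :=
  (.br 8 0
  (.br 12 0
   (.fk [(0, -20), (1, -20), (2, 8), (3, 8), (4, 5), (10, 12), (11, 12), (15, 1)])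
   (.mv 1))
  (.mv 0))

def BS0_1_1_0 : Inst where
  rows :=
   [(false, [1, 1, 1, 0, 0, 0, 0, 0, 0, 0, 0, 0, 0, 0, 0, 0, 0, 0, 0, 0, 0, -1], 1),
    (false, [0, 0, 0, 1, 1, 1, 1, 1, 0, 0, 0, 0, 0, 0, 0, 0, 0, 0, 0, 0, 0, -1], 1),
    (false, [0, 0, 0, 0, 0, 0, 0, 0, 1, 1, 1, 0, 0, 0, 0, 0, 0, 0, 0, 0, 0, -1], 0),
    (false, [0, 0, 0, 0, 0, 0, 0, 0, 0, 0, 0, 1, 1, 1, 1, 0, 0, 0, 0, 0, 0, 0], 3),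
    (false, [0, 1, 4, 4, 1, 0, 1, 4, 0, 1, 4, 1, 0, 1, 4, 0, 1, 4, 0, 0, 0, -8], 7),
    (false, [4, 1, 0, 4, 1, 0, 1, 4, 4, 1, 0, 4, 1, 0, 1, 0, 1, 4, 0, 0, 0, -8], 8),
    (false, [-1, -1, -1, 1, 1, 1, 1, 1, -1, -1, -1, 0, 0, 0, 0, 1, 1, 1, -1, 0, 0, 0], 0),
    (false, [1, 1, 1, -1, -1, -1, -1, -1, -1, -1, -1, 0, 0, 0, 0, 1, 1, 1, 0, -1, 0, 0], 0),
    (false, [-1, 0, 1, -1, 0, 1, 0, -1, -1, 0, 1, -1, 0, 1, 0, 1, 0, -1, 0, 0, -1, 0], 0),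
    (true, [-1, -1, -1, -1, -1, -1, -1, -1, 1, 1, 1, 1, 1, 1, 1, 1, 1, 1, 0, 0, 0, 0], 1),
    (true, [1, 1, 1, 1, 1, 1, 1, 1, -1, -1, -1, -1, -1, -1, -1, -1, -1, -1, 0, 0, 0, 0], -1),
    (true, [1, 0, -1, -1, 0, 1, 0, -1, 1, 0, -1, 0, 1, 0, -1, 1, 0, -1, 0, 0, 0, 0], 0),
    (true, [0, 1, 4, 0, 1, 4, 9, 16, 4, 1, 0, 4, 1, 0, 1, 0, 1, 4, 0, 0, 0, 0], 1),
    (true, [4, 1, 0, 16, 9, 4, 1, 0, 0, 1, 4, 1, 0, 1, 4, 0, 1, 4, 0, 0, 0, 0], 1),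
    (true, [0, 0, 0, 0, 0, 0, 0, 0, 0, 0, 0, 0, 0, 0, 0, 0, 0, 0, 0, 0, 0, 1], 0),
    (true, [-4, -1, 0, -16, -9, -4, -1, 0, 0, -1, -4, -1, 0, -1, -4, 0, -1, -4, 0, 0, 0, 8], -6)]
  moves := BS0_moves1
  reqs := BS0_reqs1
  tree := BS0_1_1_0_tree

theorem BS0_1_1_0_ok : BS0.instOK 1 1 0 BS0_1_1_0 = true := by
  decide +kernel

def BS0_1_2_0_tree : Tree :=
  (.br 8 0
  (.fk [(0, -36), (1, -20), (2, 24), (3, 12), (4, 1), (5, 4), (7, 8), (8, 8), (10, 20), (11, 4), (15, -1), (16, 12)])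
  (.mv 0))

def BS0_1_2_0 : Inst where
  rows :=
   [(false, [1, 1, 1, 0, 0, 0, 0, 0, 0, 0, 0, 0, 0, 0, 0, 0, 0, 0, 0, 0, 0, -1], 1),
    (false, [0, 0, 0, 1, 1, 1, 1, 1, 0, 0, 0, 0, 0, 0, 0, 0, 0, 0, 0, 0, 0, -1], 1),
    (false, [0, 0, 0, 0, 0, 0, 0, 0, 1, 1, 1, 0, 0, 0, 0, 0, 0, 0, 0, 0, 0, -1], 0),
    (false, [0, 0, 0, 0, 0, 0, 0, 0, 0, 0, 0, 1, 1, 1, 1, 0, 0, 0, 0, 0, 0, 0], 3),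
    (false, [0, 1, 4, 4, 1, 0, 1, 4, 0, 1, 4, 1, 0, 1, 4, 0, 1, 4, 0, 0, 0, -8], 7),
    (false, [4, 1, 0, 4, 1, 0, 1, 4, 4, 1, 0, 4, 1, 0, 1, 0, 1, 4, 0, 0, 0, -8], 8),
    (false, [-1, -1, -1, 1, 1, 1, 1, 1, -1, -1, -1, 0, 0, 0, 0, 1, 1, 1, -1, 0, 0, 0], 0),
    (false, [1, 1, 1, -1, -1, -1, -1, -1, -1, -1, -1, 0, 0, 0, 0, 1, 1, 1, 0, -1, 0, 0], 0),
    (false, [-1, 0, 1, -1, 0, 1, 0, -1, -1, 0, 1, -1, 0, 1, 0, 1, 0, -1, 0, 0, -1, 0], 0),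
    (true, [-1, -1, -1, -1, -1, -1, -1, -1, 1, 1, 1, 1, 1, 1, 1, 1, 1, 1, 0, 0, 0, 0], 1),
    (true, [1, 1, 1, 1, 1, 1, 1, 1, -1, -1, -1, -1, -1, -1, -1, -1, -1, -1, 0, 0, 0, 0], -1),
    (true, [1, 0, -1, -1, 0, 1, 0, -1, 1, 0, -1, 0, 1, 0, -1, 1, 0, -1, 0, 0, 0, 0], 0),
    (true, [0, 1, 4, 0, 1, 4, 9, 16, 4, 1, 0, 4, 1, 0, 1, 0, 1, 4, 0, 0, 0, 0], 1),
    (true, [4, 1, 0, 16, 9, 4, 1, 0, 0, 1, 4, 1, 0, 1, 4, 0, 1, 4, 0, 0, 0, 0], 1),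
    (true, [0, 0, 0, 0, 0, 0, 0, 0, 0, 0, 0, 0, 0, 0, 0, 0, 0, 0, 0, 0, 0, 1], 0),
    (false, [4, 1, 0, 16, 9, 4, 1, 0, 0, 1, 4, 1, 0, 1, 4, 0, 1, 4, 0, 0, 0, -8], 7),
    (true, [0, 0, 0, 1, 1, 0, 0, 0, 0, 0, 0, 0, 0, 0, 0, 0, 0, 0, 0, 0, 0, 0], 1)]
  moves := BS0_moves1
  reqs := BS0_reqs1
  tree := BS0_1_2_0_tree

theorem BS0_1_2_0_ok : BS0.instOK 1 2 0 BS0_1_2_0 = true := by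
  decide +kernel

def BS0_1_3_0_tree : Tree :=
  (.fk [(0, -4), (2, 4), (3, 1), (4, 1), (5, 1), (7, 2), (8, 2), (10, 2), (11, 2), (15, -2), (16, 4)])

def BS0_1_3_0 : Inst where
  rows :=
   [(false, [1, 1, 1, 0, 0, 0, 0, 0, 0, 0, 0, 0, 0, 0, 0, 0, 0, 0, 0, 0, 0, -1], 1),
    (false, [0, 0, 0, 1, 1, 1, 1, 1, 0, 0, 0, 0, 0, 0, 0, 0, 0, 0, 0, 0, 0, -1], 1),
    (false, [0, 0, 0, 0, 0, 0, 0, 0, 1, 1, 1, 0, 0, 0, 0, 0, 0, 0, 0, 0, 0, -1], 0),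
    (false, [0, 0, 0, 0, 0, 0, 0, 0, 0, 0, 0, 1, 1, 1, 1, 0, 0, 0, 0, 0, 0, 0], 3),
    (false, [0, 1, 4, 4, 1, 0, 1, 4, 0, 1, 4, 1, 0, 1, 4, 0, 1, 4, 0, 0, 0, -8], 7),
    (false, [4, 1, 0, 4, 1, 0, 1, 4, 4, 1, 0, 4, 1, 0, 1, 0, 1, 4, 0, 0, 0, -8], 8),
    (false, [-1, -1, -1, 1, 1, 1, 1, 1, -1, -1, -1, 0, 0, 0, 0, 1, 1, 1, -1, 0, 0, 0], 0),
    (false, [1, 1, 1, -1, -1, -1, -1, -1, -1, -1, -1, 0, 0, 0, 0, 1, 1, 1, 0, -1, 0, 0], 0),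
    (false, [-1, 0, 1, -1, 0, 1, 0, -1, -1, 0, 1, -1, 0, 1, 0, 1, 0, -1, 0, 0, -1, 0], 0),
    (true, [-1, -1, -1, -1, -1, -1, -1, -1, 1, 1, 1, 1, 1, 1, 1, 1, 1, 1, 0, 0, 0, 0], 1),
    (true, [1, 1, 1, 1, 1, 1, 1, 1, -1, -1, -1, -1, -1, -1, -1, -1, -1, -1, 0, 0, 0, 0], -1),
    (true, [1, 0, -1, -1, 0, 1, 0, -1, 1, 0, -1, 0, 1, 0, -1, 1, 0, -1, 0, 0, 0, 0], 0),
    (true, [0, 1, 4, 0, 1, 4, 9, 16, 4, 1, 0, 4, 1, 0, 1, 0, 1, 4, 0, 0, 0, 0], 1),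
    (true, [4, 1, 0, 16, 9, 4, 1, 0, 0, 1, 4, 1, 0, 1, 4, 0, 1, 4, 0, 0, 0, 0], 1),
    (true, [0, 0, 0, 0, 0, 0, 0, 0, 0, 0, 0, 0, 0, 0, 0, 0, 0, 0, 0, 0, 0, 1], 0),
    (false, [4, 1, 0, 16, 9, 4, 1, 0, 0, 1, 4, 1, 0, 1, 4, 0, 1, 4, 0, 0, 0, -8], 7),
    (true, [1, 0, -1, 0, 0, 1, 0, -1, -1, 0, 1, 0, -1, 0, 1, -1, 0, 1, 0, 0, 0, 0], 1)]
  moves := BS0_moves1
  reqs := BS0_reqs1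
  tree := BS0_1_3_0_tree

theorem BS0_1_3_0_ok : BS0.instOK 1 3 0 BS0_1_3_0 = true := by
  decide +kernel

theorem BS0_ok1 : ∀ b ∈ BS0.branches, ∃ I : Inst, BS0.instOK 1 b.1 b.2 I = true := by
  intro b hb
  have h : b = (0, 0) ∨ b = (1, 0) ∨ b = (2, 0) ∨ b = (3, 0) := by
    have hb2 : b ∈ [(0, 0), (1, 0), (2, 0), (3, 0)] := hb
    simpa using hb2
  rcases h with rfl | rfl | rfl | rfl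
  · exact ⟨BS0_1_0_0, BS0_1_0_0_ok⟩
  · exact ⟨BS0_1_1_0, BS0_1_1_0_ok⟩
  · exact ⟨BS0_1_2_0, BS0_1_2_0_ok⟩
  · exact ⟨BS0_1_3_0, BS0_1_3_0_ok⟩

end Pool.Agent.helper1.CAD
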