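import Pool.Agent.helper1.CAD.Sound

namespace Pool.Agent.helper1.CAD

set_option maxRecDepth 100000

def BS2 : Spec where
  K := .B
  tys := [(2, 2, [1], 0), (2, 0, [1], 0), (0, 2, [1], 0), (2, 1, [0], 1), (0, 1, [0], 2)]
  kc := ([4], 2)
  pmin := [1]
  sl := (1, 1)
  good := true
  pv := 0
  px := 1
  pvx := 1

def BS2_moves0 : List Move :=
   [([((0, 2, 0), -2)], 1),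
    ([((0, 1, 0), -1)], 1),
    ([((0, 2, 2), 1), ((0, 1, 2), 2)], 1),
    ([((0, 2, 2), 0), ((0, 0, 2), 2)], 1),
    ([((0, 2, 1), 1), ((0, 1, 1), 2)], 1),
    ([((0, 2, 1), -1), ((0, 1, -1), -2)], 1),
    ([((0, 1, -1), -1), ((0, 1, 1), -1)], 1),
    ([((2, 2, 2), 1), ((2, 1, 0), 2), ((0, 1, -1), -1)], 1),
    ([((0, 2, 1), 0), ((0, 1, 2), 2), ((0, 0, 0), -1)], 1),
    ([((2, 0, 0), 1), ((2, 1, 2), 0), ((0, 1, -1), -1)], 1)]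

def BS2_reqs0 : List (List ℤ) :=
   [[0, 0, 0, 0, 0, 0, 0, 0, 1, 0, 0, 0, 0, 0, 0, 0, 0, 0, 0, 0, 0, 0, 0, 0, 0, 0],
    [0, 0, 0, 0, 0, 0, 0, 0, 0, 0, 0, 0, 0, 0, 0, 0, 1, 0, 0, 0, 0, 0, 0, 0, 0, 0],
    [0, 0, 0, 0, 0, 0, 0, 0, 0, 0, 1, 0, 0, 0, 0, 0, 0, 0, 1, 0, 0, 0, 0, 0, 0, 0],
    [0, 0, 0, 0, 0, 0, 0, 0, 0, 0, 1, 0, 0, 0, 0, 0, 0, 0, 0, 0, 0, 1, 0, 0, 0, 0],
    [0, 0, 0, 0, 0, 0, 0, 0, 0, 1, 0, 0, 0, 0, 0, 0, 0, 1, 0, 0, 0, 0, 0, 0, 0, 0],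
    [0, 0, 0, 0, 0, 0, 0, 0, 0, 1, 0, 0, 0, 0, 0, 1, 0, 0, 0, 0, 0, 0, 0, 0, 0, 0],
    [0, 0, 0, 0, 0, 0, 0, 0, 0, 0, 0, 0, 0, 0, 0, 1, 0, 1, 0, 0, 0, 0, 0, 0, 0, 0],
    [0, 0, 1, 0, 0, 0, 0, 0, 0, 0, 0, 0, 1, 0, 0, 1, 0, 0, 0, 0, 0, 0, 0, 0, 0, 0],
    [0, 0, 0, 0, 0, 0, 0, 0, 0, 1, 0, 0, 0, 0, 0, 0, 0, 0, 1, 1, 0, 0, 0, 0, 0, 0],
    [0, 0, 0, 0, 0, 1, 0, 0, 0, 0, 0, 0, 0, 0, 1, 1, 0, 0, 0, 0, 0, 0, 0, 0, 0, 0]]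

def BS2_base0 : List Row :=
   [(false, [1, 1, 1, 0, 0, 0, 0, 0, 0, 0, 0, 0, 0, 0, 0, 0, 0, 0, 0, 0, 0, 0, 0, 0, 0, -1], 0),
    (false, [0, 0, 0, 1, 1, 1, 1, 1, 0, 0, 0, 0, 0, 0, 0, 0, 0, 0, 0, 0, 0, 0, 0, 0, 0, -1], 0),
    (false, [0, 0, 0, 0, 0, 0, 0, 0, 1, 1, 1, 0, 0, 0, 0, 0, 0, 0, 0, 0, 0, 0, 0, 0, 0, -1], 0),
    (false, [0, 0, 0, 0, 0, 0, 0, 0, 0, 0, 0, 1, 1, 1, 1, 0, 0, 0, 0, 0, 0, 0, 0, 0, 0, 0], 1),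
    (false, [0, 0, 0, 0, 0, 0, 0, 0, 0, 0, 0, 0, 0, 0, 0, 1, 1, 1, 1, 0, 0, 0, 0, 0, 0, 0], 2),
    (false, [0, 1, 4, 4, 1, 0, 1, 4, 0, 1, 4, 1, 0, 1, 4, 1, 0, 1, 4, 0, 1, 4, 0, 0, 0, -8], 4),
    (false, [4, 1, 0, 4, 1, 0, 1, 4, 4, 1, 0, 4, 1, 0, 1, 4, 1, 0, 1, 0, 1, 4, 0, 0, 0, -8], 3),
    (false, [-1, -1, -1, 1, 1, 1, 1, 1, -1, -1, -1, 0, 0, 0, 0, 0, 0, 0, 0, 1, 1, 1, -1, 0, 0, 0], 0),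
    (false, [1, 1, 1, -1, -1, -1, -1, -1, -1, -1, -1, 0, 0, 0, 0, 0, 0, 0, 0, 1, 1, 1, 0, -1, 0, 0], 0),
    (false, [-1, 0, 1, -1, 0, 1, 0, -1, -1, 0, 1, -1, 0, 1, 0, -1, 0, 1, 0, 1, 0, -1, 0, 0, -1, 0], 0),
    (true, [-1, -1, -1, -1, -1, -1, -1, -1, 1, 1, 1, -1, -1, -1, -1, 1, 1, 1, 1, 1, 1, 1, 0, 0, 0, 0], 1),
    (true, [1, 1, 1, 1, 1, 1, 1, 1, -1, -1, -1, 1, 1, 1, 1, -1, -1, -1, -1, -1, -1, -1, 0, 0, 0, 0], -1),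
    (true, [1, 0, -1, -1, 0, 1, 0, -1, 1, 0, -1, 0, 1, 0, -1, 0, 1, 0, -1, 1, 0, -1, 0, 0, 0, 0], 0),
    (true, [0, 1, 4, 0, 1, 4, 9, 16, 4, 1, 0, 0, 1, 4, 9, 4, 1, 0, 1, 0, 1, 4, 0, 0, 0, 0], 1),
    (true, [4, 1, 0, 16, 9, 4, 1, 0, 0, 1, 4, 9, 4, 1, 0, 1, 0, 1, 4, 0, 1, 4, 0, 0, 0, 0], 1),
    (true, [0, 0, 0, 0, 0, 0, 0, 0, 0, 0, 0, 0, 0, 0, 0, 0, 0, 0, 0, 0, 0, 0, 0, 0, 0, 1], 1)]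

def BS2_0_0_0_tree : Tree :=
  (.br 16 0
  (.br 8 0
   (.br 15 0
    (.br 10 0
     (.br 9 0
      (.fk [(0, -1), (1, -1), (2, 3), (3, -1), (4, 1), (11, 1), (15, 1)])
      (.br 17 0
       (.br 18 0
        (.fk [(4, 1)])
        (.br 19 0
         (.fk [(0, -4), (1, -6), (2, 2), (3, -4), (4, 2), (6, 1), (7, 1), (9, 2), (11, 2), (12, 1)])
         (.mv 8)))
       (.mv 4)))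
     (.br 18 0
      (.br 21 0
       (.fk [(0, -14), (1, -12), (2, 2), (3, -11), (4, 3), (5, 2), (6, 1), (8, 2), (11, 5), (12, 3)])
       (.mv 3))
      (.mv 2)))
    (.br 17 0
     (.br 2 0
      (.br 9 0
       (.br 14 0
        (.br 10 0
         (.fk [(0, -8), (1, -20), (2, 376), (3, 8), (4, 60), (5, -13), (6, -28), (15, 60), (16, 5)])
         (.br 18 0
          (.fk [(0, -12), (1, -16), (2, -4), (3, -15), (4, 5), (5, 5), (6, -1), (11, 8), (12, 8)])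
          (.mv 2)))
        (.br 5 0
         (.fk [(0, -6), (1, -4), (2, 2), (3, -6), (4, 2), (5, 1), (11, 3), (12, 3)])
         (.mv 9)))
       (.mv 5))
      (.br 12 0
       (.fk [(0, -28), (1, -34), (2, 14), (3, -26), (4, 8), (5, 5), (6, 1), (7, 5), (11, 17), (12, 12)])
       (.mv 7)))
     (.mv 6)))
   (.mv 0))
  (.mv 1))

def BS2_0_0_0 : Inst where
  rows :=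
   [(false, [1, 1, 1, 0, 0, 0, 0, 0, 0, 0, 0, 0, 0, 0, 0, 0, 0, 0, 0, 0, 0, 0, 0, 0, 0, -1], 0),
    (false, [0, 0, 0, 1, 1, 1, 1, 1, 0, 0, 0, 0, 0, 0, 0, 0, 0, 0, 0, 0, 0, 0, 0, 0, 0, -1], 0),
    (false, [0, 0, 0, 0, 0, 0, 0, 0, 1, 1, 1, 0, 0, 0, 0, 0, 0, 0, 0, 0, 0, 0, 0, 0, 0, -1], 0),
    (false, [0, 0, 0, 0, 0, 0, 0, 0, 0, 0, 0, 1, 1, 1, 1, 0, 0, 0, 0, 0, 0, 0, 0, 0, 0, 0], 1),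
    (false, [0, 0, 0, 0, 0, 0, 0, 0, 0, 0, 0, 0, 0, 0, 0, 1, 1, 1, 1, 0, 0, 0, 0, 0, 0, 0], 2),
    (false, [0, 1, 4, 4, 1, 0, 1, 4, 0, 1, 4, 1, 0, 1, 4, 1, 0, 1, 4, 0, 1, 4, 0, 0, 0, -8], 4),
    (false, [4, 1, 0, 4, 1, 0, 1, 4, 4, 1, 0, 4, 1, 0, 1, 4, 1, 0, 1, 0, 1, 4, 0, 0, 0, -8], 3),
    (false, [-1, -1, -1, 1, 1, 1, 1, 1, -1, -1, -1, 0, 0, 0, 0, 0, 0, 0, 0, 1, 1, 1, -1, 0, 0, 0], 0),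
    (false, [1, 1, 1, -1, -1, -1, -1, -1, -1, -1, -1, 0, 0, 0, 0, 0, 0, 0, 0, 1, 1, 1, 0, -1, 0, 0], 0),
    (false, [-1, 0, 1, -1, 0, 1, 0, -1, -1, 0, 1, -1, 0, 1, 0, -1, 0, 1, 0, 1, 0, -1, 0, 0, -1, 0], 0),
    (true, [-1, -1, -1, -1, -1, -1, -1, -1, 1, 1, 1, -1, -1, -1, -1, 1, 1, 1, 1, 1, 1, 1, 0, 0, 0, 0], 1),
    (true, [1, 1, 1, 1, 1, 1, 1, 1, -1, -1, -1, 1, 1, 1, 1, -1, -1, -1, -1, -1, -1, -1, 0, 0, 0, 0], -1),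
    (true, [1, 0, -1, -1, 0, 1, 0, -1, 1, 0, -1, 0, 1, 0, -1, 0, 1, 0, -1, 1, 0, -1, 0, 0, 0, 0], 0),
    (true, [0, 1, 4, 0, 1, 4, 9, 16, 4, 1, 0, 0, 1, 4, 9, 4, 1, 0, 1, 0, 1, 4, 0, 0, 0, 0], 1),
    (true, [4, 1, 0, 16, 9, 4, 1, 0, 0, 1, 4, 9, 4, 1, 0, 1, 0, 1, 4, 0, 1, 4, 0, 0, 0, 0], 1),
    (true, [0, 0, 0, 0, 0, 0, 0, 0, 0, 0, 0, 0, 0, 0, 0, 0, 0, 0, 0, 0, 0, 0, 0, 0, 0, 1], 1),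
    (true, [4, 1, 0, 16, 9, 4, 1, 0, 0, 1, 4, 9, 4, 1, 0, 1, 0, 1, 4, 0, 1, 4, 0, 0, 0, -8], 5)]
  moves := BS2_moves0
  reqs := BS2_reqs0
  tree := BS2_0_0_0_tree

theorem BS2_0_0_0_ok : BS2.instOK 0 0 0 BS2_0_0_0 = true := by
  decide +kernel

def BS2_0_1_0_tree : Tree :=
  (.br 16 0
  (.br 8 0
   (.fk [(0, -20), (1, -28), (2, 16), (3, -24), (4, 12), (5, 5), (7, 4), (11, 16), (12, 12), (16, 1)])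
   (.mv 0))
  (.mv 1))

def BS2_0_1_0 : Inst where
  rows :=
   [(false, [1, 1, 1, 0, 0, 0, 0, 0, 0, 0, 0, 0, 0, 0, 0, 0, 0, 0, 0, 0, 0, 0, 0, 0, 0, -1], 0),
    (false, [0, 0, 0, 1, 1, 1, 1, 1, 0, 0, 0, 0, 0, 0, 0, 0, 0, 0, 0, 0, 0, 0, 0, 0, 0, -1], 0),
    (false, [0, 0, 0, 0, 0, 0, 0, 0, 1, 1, 1, 0, 0, 0, 0, 0, 0, 0, 0, 0, 0, 0, 0, 0, 0, -1], 0),
    (false, [0, 0, 0, 0, 0, 0, 0, 0, 0, 0, 0, 1, 1, 1, 1, 0, 0, 0, 0, 0, 0, 0, 0, 0, 0, 0], 1),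
    (false, [0, 0, 0, 0, 0, 0, 0, 0, 0, 0, 0, 0, 0, 0, 0, 1, 1, 1, 1, 0, 0, 0, 0, 0, 0, 0], 2),
    (false, [0, 1, 4, 4, 1, 0, 1, 4, 0, 1, 4, 1, 0, 1, 4, 1, 0, 1, 4, 0, 1, 4, 0, 0, 0, -8], 4),
    (false, [4, 1, 0, 4, 1, 0, 1, 4, 4, 1, 0, 4, 1, 0, 1, 4, 1, 0, 1, 0, 1, 4, 0, 0, 0, -8], 3),
    (false, [-1, -1, -1, 1, 1, 1, 1, 1, -1, -1, -1, 0, 0, 0, 0, 0, 0, 0, 0, 1, 1, 1, -1, 0, 0, 0], 0),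
    (false, [1, 1, 1, -1, -1, -1, -1, -1, -1, -1, -1, 0, 0, 0, 0, 0, 0, 0, 0, 1, 1, 1, 0, -1, 0, 0], 0),
    (false, [-1, 0, 1, -1, 0, 1, 0, -1, -1, 0, 1, -1, 0, 1, 0, -1, 0, 1, 0, 1, 0, -1, 0, 0, -1, 0], 0),
    (true, [-1, -1, -1, -1, -1, -1, -1, -1, 1, 1, 1, -1, -1, -1, -1, 1, 1, 1, 1, 1, 1, 1, 0, 0, 0, 0], 1),
    (true, [1, 1, 1, 1, 1, 1, 1, 1, -1, -1, -1, 1, 1, 1, 1, -1, -1, -1, -1, -1, -1, -1, 0, 0, 0, 0], -1),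
    (true, [1, 0, -1, -1, 0, 1, 0, -1, 1, 0, -1, 0, 1, 0, -1, 0, 1, 0, -1, 1, 0, -1, 0, 0, 0, 0], 0),
    (true, [0, 1, 4, 0, 1, 4, 9, 16, 4, 1, 0, 0, 1, 4, 9, 4, 1, 0, 1, 0, 1, 4, 0, 0, 0, 0], 1),
    (true, [4, 1, 0, 16, 9, 4, 1, 0, 0, 1, 4, 9, 4, 1, 0, 1, 0, 1, 4, 0, 1, 4, 0, 0, 0, 0], 1),
    (true, [0, 0, 0, 0, 0, 0, 0, 0, 0, 0, 0, 0, 0, 0, 0, 0, 0, 0, 0, 0, 0, 0, 0, 0, 0, 1], 1),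
    (true, [-4, -1, 0, -16, -9, -4, -1, 0, 0, -1, -4, -9, -4, -1, 0, -1, 0, -1, -4, 0, -1, -4, 0, 0, 0, 8], -3)]
  moves := BS2_moves0
  reqs := BS2_reqs0
  tree := BS2_0_1_0_tree

theorem BS2_0_1_0_ok : BS2.instOK 0 1 0 BS2_0_1_0 = true := by
  decide +kernel

def BS2_0_2_0_tree : Tree :=
  (.br 8 0
  (.br 16 0
   (.fk [(0, -20), (1, -20), (2, 8), (3, -20), (4, 8), (5, 5), (11, 12), (12, 12), (16, -1), (17, 8)])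
   (.mv 1))
  (.mv 0))

def BS2_0_2_0 : Inst where
  rows :=
   [(false, [1, 1, 1, 0, 0, 0, 0, 0, 0, 0, 0, 0, 0, 0, 0, 0, 0, 0, 0, 0, 0, 0, 0, 0, 0, -1], 0),
    (false, [0, 0, 0, 1, 1, 1, 1, 1, 0, 0, 0, 0, 0, 0, 0, 0, 0, 0, 0, 0, 0, 0, 0, 0, 0, -1], 0),
    (false, [0, 0, 0, 0, 0, 0, 0, 0, 1, 1, 1, 0, 0, 0, 0, 0, 0, 0, 0, 0, 0, 0, 0, 0, 0, -1], 0),
    (false, [0, 0, 0, 0, 0, 0, 0, 0, 0, 0, 0, 1, 1, 1, 1, 0, 0, 0, 0, 0, 0, 0, 0, 0, 0, 0], 1),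
    (false, [0, 0, 0, 0, 0, 0, 0, 0, 0, 0, 0, 0, 0, 0, 0, 1, 1, 1, 1, 0, 0, 0, 0, 0, 0, 0], 2),
    (false, [0, 1, 4, 4, 1, 0, 1, 4, 0, 1, 4, 1, 0, 1, 4, 1, 0, 1, 4, 0, 1, 4, 0, 0, 0, -8], 4),
    (false, [4, 1, 0, 4, 1, 0, 1, 4, 4, 1, 0, 4, 1, 0, 1, 4, 1, 0, 1, 0, 1, 4, 0, 0, 0, -8], 3),
    (false, [-1, -1, -1, 1, 1, 1, 1, 1, -1, -1, -1, 0, 0, 0, 0, 0, 0, 0, 0, 1, 1, 1, -1, 0, 0, 0], 0),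
    (false, [1, 1, 1, -1, -1, -1, -1, -1, -1, -1, -1, 0, 0, 0, 0, 0, 0, 0, 0, 1, 1, 1, 0, -1, 0, 0], 0),
    (false, [-1, 0, 1, -1, 0, 1, 0, -1, -1, 0, 1, -1, 0, 1, 0, -1, 0, 1, 0, 1, 0, -1, 0, 0, -1, 0], 0),
    (true, [-1, -1, -1, -1, -1, -1, -1, -1, 1, 1, 1, -1, -1, -1, -1, 1, 1, 1, 1, 1, 1, 1, 0, 0, 0, 0], 1),
    (true, [1, 1, 1, 1, 1, 1, 1, 1, -1, -1, -1, 1, 1, 1, 1, -1, -1, -1, -1, -1, -1, -1, 0, 0, 0, 0], -1),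
    (true, [1, 0, -1, -1, 0, 1, 0, -1, 1, 0, -1, 0, 1, 0, -1, 0, 1, 0, -1, 1, 0, -1, 0, 0, 0, 0], 0),
    (true, [0, 1, 4, 0, 1, 4, 9, 16, 4, 1, 0, 0, 1, 4, 9, 4, 1, 0, 1, 0, 1, 4, 0, 0, 0, 0], 1),
    (true, [4, 1, 0, 16, 9, 4, 1, 0, 0, 1, 4, 9, 4, 1, 0, 1, 0, 1, 4, 0, 1, 4, 0, 0, 0, 0], 1),
    (true, [0, 0, 0, 0, 0, 0, 0, 0, 0, 0, 0, 0, 0, 0, 0, 0, 0, 0, 0, 0, 0, 0, 0, 0, 0, 1], 1),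
    (false, [4, 1, 0, 16, 9, 4, 1, 0, 0, 1, 4, 9, 4, 1, 0, 1, 0, 1, 4, 0, 1, 4, 0, 0, 0, -8], 4),
    (true, [0, 0, 0, 1, 1, 0, 0, 0, 0, 0, 0, 1, 0, 0, 0, 0, 0, 0, 0, 0, 0, 0, 0, 0, 0, 0], 1)]
  moves := BS2_moves0
  reqs := BS2_reqs0
  tree := BS2_0_2_0_tree

theorem BS2_0_2_0_ok : BS2.instOK 0 2 0 BS2_0_2_0 = true := by
  decide +kernel

def BS2_0_3_0_tree : Tree :=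
  (.fk [(1, -4), (2, 4), (3, -2), (4, 2), (5, 1), (7, 2), (11, 2), (12, 2), (16, -1), (17, 2)])

def BS2_0_3_0 : Inst where
  rows :=
   [(false, [1, 1, 1, 0, 0, 0, 0, 0, 0, 0, 0, 0, 0, 0, 0, 0, 0, 0, 0, 0, 0, 0, 0, 0, 0, -1], 0),
    (false, [0, 0, 0, 1, 1, 1, 1, 1, 0, 0, 0, 0, 0, 0, 0, 0, 0, 0, 0, 0, 0, 0, 0, 0, 0, -1], 0),
    (false, [0, 0, 0, 0, 0, 0, 0, 0, 1, 1, 1, 0, 0, 0, 0, 0, 0, 0, 0, 0, 0, 0, 0, 0, 0, -1], 0),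
    (false, [0, 0, 0, 0, 0, 0, 0, 0, 0, 0, 0, 1, 1, 1, 1, 0, 0, 0, 0, 0, 0, 0, 0, 0, 0, 0], 1),
    (false, [0, 0, 0, 0, 0, 0, 0, 0, 0, 0, 0, 0, 0, 0, 0, 1, 1, 1, 1, 0, 0, 0, 0, 0, 0, 0], 2),
    (false, [0, 1, 4, 4, 1, 0, 1, 4, 0, 1, 4, 1, 0, 1, 4, 1, 0, 1, 4, 0, 1, 4, 0, 0, 0, -8], 4),
    (false, [4, 1, 0, 4, 1, 0, 1, 4, 4, 1, 0, 4, 1, 0, 1, 4, 1, 0, 1, 0, 1, 4, 0, 0, 0, -8], 3),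
    (false, [-1, -1, -1, 1, 1, 1, 1, 1, -1, -1, -1, 0, 0, 0, 0, 0, 0, 0, 0, 1, 1, 1, -1, 0, 0, 0], 0),
    (false, [1, 1, 1, -1, -1, -1, -1, -1, -1, -1, -1, 0, 0, 0, 0, 0, 0, 0, 0, 1, 1, 1, 0, -1, 0, 0], 0),
    (false, [-1, 0, 1, -1, 0, 1, 0, -1, -1, 0, 1, -1, 0, 1, 0, -1, 0, 1, 0, 1, 0, -1, 0, 0, -1, 0], 0),
    (true, [-1, -1, -1, -1, -1, -1, -1, -1, 1, 1, 1, -1, -1, -1, -1, 1, 1, 1, 1, 1, 1, 1, 0, 0, 0, 0], 1),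
    (true, [1, 1, 1, 1, 1, 1, 1, 1, -1, -1, -1, 1, 1, 1, 1, -1, -1, -1, -1, -1, -1, -1, 0, 0, 0, 0], -1),
    (true, [1, 0, -1, -1, 0, 1, 0, -1, 1, 0, -1, 0, 1, 0, -1, 0, 1, 0, -1, 1, 0, -1, 0, 0, 0, 0], 0),
    (true, [0, 1, 4, 0, 1, 4, 9, 16, 4, 1, 0, 0, 1, 4, 9, 4, 1, 0, 1, 0, 1, 4, 0, 0, 0, 0], 1),
    (true, [4, 1, 0, 16, 9, 4, 1, 0, 0, 1, 4, 9, 4, 1, 0, 1, 0, 1, 4, 0, 1, 4, 0, 0, 0, 0], 1),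
    (true, [0, 0, 0, 0, 0, 0, 0, 0, 0, 0, 0, 0, 0, 0, 0, 0, 0, 0, 0, 0, 0, 0, 0, 0, 0, 1], 1),
    (false, [4, 1, 0, 16, 9, 4, 1, 0, 0, 1, 4, 9, 4, 1, 0, 1, 0, 1, 4, 0, 1, 4, 0, 0, 0, -8], 4),
    (true, [1, 0, -1, 0, 0, 1, 0, -1, -1, 0, 1, 0, 1, 0, -1, 0, -1, 0, 1, -1, 0, 1, 0, 0, 0, 0], 1)]
  moves := BS2_moves0
  reqs := BS2_reqs0
  tree := BS2_0_3_0_tree

theorem BS2_0_3_0_ok : BS2.instOK 0 3 0 BS2_0_3_0 = true := by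
  decide +kernel

theorem BS2_ok0 : ∀ b ∈ BS2.branches, ∃ I : Inst, BS2.instOK 0 b.1 b.2 I = true := by
  intro b hb
  have h : b = (0, 0) ∨ b = (1, 0) ∨ b = (2, 0) ∨ b = (3, 0) := by
    have hb2 : b ∈ [(0, 0), (1, 0), (2, 0), (3, 0)] := hb
    simpa using hb2
  rcases h with rfl | rfl | rfl | rfl
  · exact ⟨BS2_0_0_0, BS2_0_0_0_ok⟩
  · exact ⟨BS2_0_1_0, BS2_0_1_0_ok⟩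
  · exact ⟨BS2_0_2_0, BS2_0_2_0_ok⟩
  · exact ⟨BS2_0_3_0, BS2_0_3_0_ok⟩

def BS2_moves1 : List Move :=
   [([((0, 1, 0), -1)], 1),
    ([((0, 2, 0), -2)], 1),
    ([((2, 2, 2), 1), ((2, 1, 2), 2)], 1),
    ([((0, 2, 1), -1), ((0, 1, -1), -2)], 1),
    ([((0, 2, 1), 1), ((0, 1, 1), 2)], 1),
    ([((2, 2, 0), 1), ((2, 1, 0), 2)], 1),
    ([((2, 2, 0), 0), ((2, 0, 0), 2)], 1),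
    ([((0, 2, 2), 1), ((0, 1, 2), 2)], 1),
    ([((0, 1, -1), -1), ((0, 1, 1), -1)], 1),
    ([((0, 1, -1), 0), ((0, 0, 1), -1)], 1),
    ([((0, 1, 1), 0), ((0, 0, 1), 1)], 1),
    ([((2, 2, 0), 0), ((2, 0, 1), 2), ((0, 1, 1), -1)], 1),
    ([((2, 0, 0), 1), ((2, 1, 2), 0), ((0, 1, -1), -1)], 1),
    ([((2, 2, 1), 0), ((2, 0, 0), 2), ((0, 1, -1), -1)], 1),
    ([((2, 2, 0), 1), ((2, 1, 2), 2), ((0, 1, 1), -1)], 1),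
    ([((2, 2, 2), 1), ((2, 1, 0), 2), ((0, 1, -1), -1)], 1),
    ([((0, 2, 2), 0), ((0, 1, -1), -1), ((0, 1, -1), -1), ((0, 0, 0), -2)], 1),
    ([((2, 2, 0), 0), ((2, 0, 2), 2), ((0, 1, 1), -1), ((0, 1, 1), -1)], 1)]

def BS2_reqs1 : List (List ℤ) :=
   [[0, 0, 0, 0, 0, 0, 0, 0, 0, 0, 0, 0, 0, 0, 0, 0, 1, 0, 0, 0, 0, 0, 0, 0, 0, 0],
    [0, 0, 0, 0, 0, 0, 0, 0, 1, 0, 0, 0, 0, 0, 0, 0, 0, 0, 0, 0, 0, 0, 0, 0, 0, 0],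
    [0, 0, 1, 0, 0, 0, 0, 0, 0, 0, 0, 0, 0, 0, 1, 0, 0, 0, 0, 0, 0, 0, 0, 0, 0, 0],
    [0, 0, 0, 0, 0, 0, 0, 0, 0, 1, 0, 0, 0, 0, 0, 1, 0, 0, 0, 0, 0, 0, 0, 0, 0, 0],
    [0, 0, 0, 0, 0, 0, 0, 0, 0, 1, 0, 0, 0, 0, 0, 0, 0, 1, 0, 0, 0, 0, 0, 0, 0, 0],
    [1, 0, 0, 0, 0, 0, 0, 0, 0, 0, 0, 0, 1, 0, 0, 0, 0, 0, 0, 0, 0, 0, 0, 0, 0, 0],
    [1, 0, 0, 0, 0, 1, 0, 0, 0, 0, 0, 0, 0, 0, 0, 0, 0, 0, 0, 0, 0, 0, 0, 0, 0, 0],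
    [0, 0, 0, 0, 0, 0, 0, 0, 0, 0, 1, 0, 0, 0, 0, 0, 0, 0, 1, 0, 0, 0, 0, 0, 0, 0],
    [0, 0, 0, 0, 0, 0, 0, 0, 0, 0, 0, 0, 0, 0, 0, 1, 0, 1, 0, 0, 0, 0, 0, 0, 0, 0],
    [0, 0, 0, 0, 0, 0, 0, 0, 0, 0, 0, 0, 0, 0, 0, 1, 0, 0, 0, 0, 1, 0, 0, 0, 0, 0],
    [0, 0, 0, 0, 0, 0, 0, 0, 0, 0, 0, 0, 0, 0, 0, 0, 0, 1, 0, 0, 1, 0, 0, 0, 0, 0],
    [1, 0, 0, 0, 0, 0, 1, 0, 0, 0, 0, 0, 0, 0, 0, 0, 0, 1, 0, 0, 0, 0, 0, 0, 0, 0],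
    [0, 0, 0, 0, 0, 1, 0, 0, 0, 0, 0, 0, 0, 0, 1, 1, 0, 0, 0, 0, 0, 0, 0, 0, 0, 0],
    [0, 1, 0, 0, 0, 1, 0, 0, 0, 0, 0, 0, 0, 0, 0, 1, 0, 0, 0, 0, 0, 0, 0, 0, 0, 0],
    [1, 0, 0, 0, 0, 0, 0, 0, 0, 0, 0, 0, 0, 0, 1, 0, 0, 1, 0, 0, 0, 0, 0, 0, 0, 0],
    [0, 0, 1, 0, 0, 0, 0, 0, 0, 0, 0, 0, 1, 0, 0, 1, 0, 0, 0, 0, 0, 0, 0, 0, 0, 0],
    [0, 0, 0, 0, 0, 0, 0, 0, 0, 0, 1, 0, 0, 0, 0, 2, 0, 0, 0, 1, 0, 0, 0, 0, 0, 0],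
    [1, 0, 0, 0, 0, 0, 0, 1, 0, 0, 0, 0, 0, 0, 0, 0, 0, 2, 0, 0, 0, 0, 0, 0, 0, 0]]

def BS2_base1 : List Row :=
   [(false, [1, 1, 1, 0, 0, 0, 0, 0, 0, 0, 0, 0, 0, 0, 0, 0, 0, 0, 0, 0, 0, 0, 0, 0, 0, -1], 0),
    (false, [0, 0, 0, 1, 1, 1, 1, 1, 0, 0, 0, 0, 0, 0, 0, 0, 0, 0, 0, 0, 0, 0, 0, 0, 0, -1], 0),
    (false, [0, 0, 0, 0, 0, 0, 0, 0, 1, 1, 1, 0, 0, 0, 0, 0, 0, 0, 0, 0, 0, 0, 0, 0, 0, -1], 0),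
    (false, [0, 0, 0, 0, 0, 0, 0, 0, 0, 0, 0, 1, 1, 1, 1, 0, 0, 0, 0, 0, 0, 0, 0, 0, 0, 0], 1),
    (false, [0, 0, 0, 0, 0, 0, 0, 0, 0, 0, 0, 0, 0, 0, 0, 1, 1, 1, 1, 0, 0, 0, 0, 0, 0, 0], 2),
    (false, [0, 1, 4, 4, 1, 0, 1, 4, 0, 1, 4, 1, 0, 1, 4, 1, 0, 1, 4, 0, 1, 4, 0, 0, 0, -8], 3),
    (false, [4, 1, 0, 4, 1, 0, 1, 4, 4, 1, 0, 4, 1, 0, 1, 4, 1, 0, 1, 0, 1, 4, 0, 0, 0, -8], 4),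
    (false, [-1, -1, -1, 1, 1, 1, 1, 1, -1, -1, -1, 0, 0, 0, 0, 0, 0, 0, 0, 1, 1, 1, -1, 0, 0, 0], 0),
    (false, [1, 1, 1, -1, -1, -1, -1, -1, -1, -1, -1, 0, 0, 0, 0, 0, 0, 0, 0, 1, 1, 1, 0, -1, 0, 0], 0),
    (false, [-1, 0, 1, -1, 0, 1, 0, -1, -1, 0, 1, -1, 0, 1, 0, -1, 0, 1, 0, 1, 0, -1, 0, 0, -1, 0], 0),
    (true, [-1, -1, -1, -1, -1, -1, -1, -1, 1, 1, 1, -1, -1, -1, -1, 1, 1, 1, 1, 1, 1, 1, 0, 0, 0, 0], 1),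
    (true, [1, 1, 1, 1, 1, 1, 1, 1, -1, -1, -1, 1, 1, 1, 1, -1, -1, -1, -1, -1, -1, -1, 0, 0, 0, 0], -1),
    (true, [1, 0, -1, -1, 0, 1, 0, -1, 1, 0, -1, 0, 1, 0, -1, 0, 1, 0, -1, 1, 0, -1, 0, 0, 0, 0], 0),
    (true, [0, 1, 4, 0, 1, 4, 9, 16, 4, 1, 0, 0, 1, 4, 9, 4, 1, 0, 1, 0, 1, 4, 0, 0, 0, 0], 1),
    (true, [4, 1, 0, 16, 9, 4, 1, 0, 0, 1, 4, 9, 4, 1, 0, 1, 0, 1, 4, 0, 1, 4, 0, 0, 0, 0], 1),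
    (true, [0, 0, 0, 0, 0, 0, 0, 0, 0, 0, 0, 0, 0, 0, 0, 0, 0, 0, 0, 0, 0, 0, 0, 0, 0, 1], 1)]

def BS2_1_0_0_tree : Tree :=
  (.br 16 0
  (.br 8 0
   (.br 17 0
    (.br 15 0
     (.fk [(0, -20), (1, -16), (2, 4), (3, -19), (4, 7), (5, -1), (6, 5), (9, 8), (11, 8)])
     (.br 9 0
      (.br 20 0
       (.br 1 0
        (.br 12 0
         (.br 14 0
          (.br 15 1
           (.br 10 0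
            (.fk [(0, -12), (1, -38), (2, 224), (3, 4), (4, 30), (5, -11), (6, -14), (15, 30), (16, 7)])
            (.br 18 0
             (.fk [(4, 1)])
             (.mv 7)))
           (.br 10 0
            (.fk [(0, -12), (1, -38), (2, 224), (3, 4), (4, 30), (5, -11), (6, -14), (15, 30), (16, 7)])
            (.br 19 0
             (.fk [(0, 16), (1, -10), (2, 10), (3, 2), (4, 2), (5, -1), (6, -1), (7, 9), (9, 2), (10, 3), (12, 2)])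
             (.mv 16))))
          (.br 2 0
           (.br 5 0
            (.fk [(0, -4), (1, -4), (3, -6), (4, 2), (6, 1), (9, 3), (11, 3)])
            (.mv 12))
           (.mv 2)))
         (.br 2 0
          (.br 0 0
           (.fk [(0, 93), (2, -6), (3, -8), (4, 15), (5, -2), (6, -7), (15, 15)])
           (.mv 5))
          (.mv 15)))
        (.br 19 0
         (.fk [(0, 28), (1, -18), (2, 22), (3, 4), (4, 4), (5, -3), (6, -1), (7, 17), (9, 4), (10, 7), (12, 4)])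
         (.br 5 0
          (.fk [(0, -10), (1, -8), (2, 2), (3, -10), (4, 4), (5, 1), (6, 1), (9, 3), (11, 6), (12, 3)])
          (.mv 13))))
       (.mv 9))
      (.mv 3)))
    (.br 9 0
     (.br 15 0
      (.br 20 0
       (.br 0 0
        (.fk [(1, -36), (2, 80), (3, -48), (4, 20), (5, -20), (6, 17), (13, 3), (15, 20)])
        (.br 12 0
         (.br 5 0
          (.br 6 0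
           (.br 14 0
            (.br 17 1
             (.fk [(0, -4), (2, 4), (3, -3), (4, 3), (5, -1), (6, 1)])
             (.br 7 0
              (.fk [(0, -48), (1, -18), (2, 42), (3, -38), (4, 8), (5, -5), (6, 8), (7, 3), (11, 11), (12, 8), (13, 1)])
              (.mv 17)))
            (.mv 14))
           (.mv 11))
          (.mv 6))
         (.mv 5)))
       (.mv 10))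
      (.mv 8))
     (.mv 4)))
   (.mv 1))
  (.mv 0))

def BS2_1_0_0 : Inst where
  rows :=
   [(false, [1, 1, 1, 0, 0, 0, 0, 0, 0, 0, 0, 0, 0, 0, 0, 0, 0, 0, 0, 0, 0, 0, 0, 0, 0, -1], 0),
    (false, [0, 0, 0, 1, 1, 1, 1, 1, 0, 0, 0, 0, 0, 0, 0, 0, 0, 0, 0, 0, 0, 0, 0, 0, 0, -1], 0),
    (false, [0, 0, 0, 0, 0, 0, 0, 0, 1, 1, 1, 0, 0, 0, 0, 0, 0, 0, 0, 0, 0, 0, 0, 0, 0, -1], 0),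
    (false, [0, 0, 0, 0, 0, 0, 0, 0, 0, 0, 0, 1, 1, 1, 1, 0, 0, 0, 0, 0, 0, 0, 0, 0, 0, 0], 1),
    (false, [0, 0, 0, 0, 0, 0, 0, 0, 0, 0, 0, 0, 0, 0, 0, 1, 1, 1, 1, 0, 0, 0, 0, 0, 0, 0], 2),
    (false, [0, 1, 4, 4, 1, 0, 1, 4, 0, 1, 4, 1, 0, 1, 4, 1, 0, 1, 4, 0, 1, 4, 0, 0, 0, -8], 3),
    (false, [4, 1, 0, 4, 1, 0, 1, 4, 4, 1, 0, 4, 1, 0, 1, 4, 1, 0, 1, 0, 1, 4, 0, 0, 0, -8], 4),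
    (false, [-1, -1, -1, 1, 1, 1, 1, 1, -1, -1, -1, 0, 0, 0, 0, 0, 0, 0, 0, 1, 1, 1, -1, 0, 0, 0], 0),
    (false, [1, 1, 1, -1, -1, -1, -1, -1, -1, -1, -1, 0, 0, 0, 0, 0, 0, 0, 0, 1, 1, 1, 0, -1, 0, 0], 0),
    (false, [-1, 0, 1, -1, 0, 1, 0, -1, -1, 0, 1, -1, 0, 1, 0, -1, 0, 1, 0, 1, 0, -1, 0, 0, -1, 0], 0),
    (true, [-1, -1, -1, -1, -1, -1, -1, -1, 1, 1, 1, -1, -1, -1, -1, 1, 1, 1, 1, 1, 1, 1, 0, 0, 0, 0], 1),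
    (true, [1, 1, 1, 1, 1, 1, 1, 1, -1, -1, -1, 1, 1, 1, 1, -1, -1, -1, -1, -1, -1, -1, 0, 0, 0, 0], -1),
    (true, [1, 0, -1, -1, 0, 1, 0, -1, 1, 0, -1, 0, 1, 0, -1, 0, 1, 0, -1, 1, 0, -1, 0, 0, 0, 0], 0),
    (true, [0, 1, 4, 0, 1, 4, 9, 16, 4, 1, 0, 0, 1, 4, 9, 4, 1, 0, 1, 0, 1, 4, 0, 0, 0, 0], 1),
    (true, [4, 1, 0, 16, 9, 4, 1, 0, 0, 1, 4, 9, 4, 1, 0, 1, 0, 1, 4, 0, 1, 4, 0, 0, 0, 0], 1),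
    (true, [0, 0, 0, 0, 0, 0, 0, 0, 0, 0, 0, 0, 0, 0, 0, 0, 0, 0, 0, 0, 0, 0, 0, 0, 0, 1], 1),
    (true, [4, 1, 0, 16, 9, 4, 1, 0, 0, 1, 4, 9, 4, 1, 0, 1, 0, 1, 4, 0, 1, 4, 0, 0, 0, -8], 4)]
  moves := BS2_moves1
  reqs := BS2_reqs1
  tree := BS2_1_0_0_tree

theorem BS2_1_0_0_ok : BS2.instOK 1 0 0 BS2_1_0_0 = true := by
  decide +kernel

def BS2_1_1_0_tree : Tree :=
  (.br 16 0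
  (.br 8 0
   (.br 17 0
    (.br 15 0
     (.fk [(0, -16), (1, -20), (2, 4), (3, -15), (4, 7), (6, 5), (9, 8), (11, 8), (16, 1)])
     (.br 9 0
      (.fk [(0, -4), (1, -4), (2, 8), (3, -4), (4, 4), (5, 1), (11, 4), (12, 4), (16, 1)])
      (.mv 3)))
    (.br 9 0
     (.fk [(2, 16), (3, 1), (4, 1), (5, -1), (6, 1), (11, 2), (12, 2), (16, 2)])
     (.mv 4)))
   (.mv 1))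
  (.mv 0))

def BS2_1_1_0 : Inst where
  rows :=
   [(false, [1, 1, 1, 0, 0, 0, 0, 0, 0, 0, 0, 0, 0, 0, 0, 0, 0, 0, 0, 0, 0, 0, 0, 0, 0, -1], 0),
    (false, [0, 0, 0, 1, 1, 1, 1, 1, 0, 0, 0, 0, 0, 0, 0, 0, 0, 0, 0, 0, 0, 0, 0, 0, 0, -1], 0),
    (false, [0, 0, 0, 0, 0, 0, 0, 0, 1, 1, 1, 0, 0, 0, 0, 0, 0, 0, 0, 0, 0, 0, 0, 0, 0, -1], 0),
    (false, [0, 0, 0, 0, 0, 0, 0, 0, 0, 0, 0, 1, 1, 1, 1, 0, 0, 0, 0, 0, 0, 0, 0, 0, 0, 0], 1),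
    (false, [0, 0, 0, 0, 0, 0, 0, 0, 0, 0, 0, 0, 0, 0, 0, 1, 1, 1, 1, 0, 0, 0, 0, 0, 0, 0], 2),
    (false, [0, 1, 4, 4, 1, 0, 1, 4, 0, 1, 4, 1, 0, 1, 4, 1, 0, 1, 4, 0, 1, 4, 0, 0, 0, -8], 3),
    (false, [4, 1, 0, 4, 1, 0, 1, 4, 4, 1, 0, 4, 1, 0, 1, 4, 1, 0, 1, 0, 1, 4, 0, 0, 0, -8], 4),
    (false, [-1, -1, -1, 1, 1, 1, 1, 1, -1, -1, -1, 0, 0, 0, 0, 0, 0, 0, 0, 1, 1, 1, -1, 0, 0, 0], 0),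
    (false, [1, 1, 1, -1, -1, -1, -1, -1, -1, -1, -1, 0, 0, 0, 0, 0, 0, 0, 0, 1, 1, 1, 0, -1, 0, 0], 0),
    (false, [-1, 0, 1, -1, 0, 1, 0, -1, -1, 0, 1, -1, 0, 1, 0, -1, 0, 1, 0, 1, 0, -1, 0, 0, -1, 0], 0),
    (true, [-1, -1, -1, -1, -1, -1, -1, -1, 1, 1, 1, -1, -1, -1, -1, 1, 1, 1, 1, 1, 1, 1, 0, 0, 0, 0], 1),
    (true, [1, 1, 1, 1, 1, 1, 1, 1, -1, -1, -1, 1, 1, 1, 1, -1, -1, -1, -1, -1, -1, -1, 0, 0, 0, 0], -1),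
    (true, [1, 0, -1, -1, 0, 1, 0, -1, 1, 0, -1, 0, 1, 0, -1, 0, 1, 0, -1, 1, 0, -1, 0, 0, 0, 0], 0),
    (true, [0, 1, 4, 0, 1, 4, 9, 16, 4, 1, 0, 0, 1, 4, 9, 4, 1, 0, 1, 0, 1, 4, 0, 0, 0, 0], 1),
    (true, [4, 1, 0, 16, 9, 4, 1, 0, 0, 1, 4, 9, 4, 1, 0, 1, 0, 1, 4, 0, 1, 4, 0, 0, 0, 0], 1),
    (true, [0, 0, 0, 0, 0, 0, 0, 0, 0, 0, 0, 0, 0, 0, 0, 0, 0, 0, 0, 0, 0, 0, 0, 0, 0, 1], 1),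
    (true, [-4, -1, 0, -16, -9, -4, -1, 0, 0, -1, -4, -9, -4, -1, 0, -1, 0, -1, -4, 0, -1, -4, 0, 0, 0, 8], -2)]
  moves := BS2_moves1
  reqs := BS2_reqs1
  tree := BS2_1_1_0_tree

theorem BS2_1_1_0_ok : BS2.instOK 1 1 0 BS2_1_1_0 = true := by
  decide +kernel

def BS2_1_2_0_tree : Tree :=
  (.br 8 0
  (.br 16 0
   (.fk [(0, -28), (1, -20), (2, 16), (3, -24), (4, 12), (5, 5), (8, 4), (11, 16), (12, 12), (16, -1), (17, 12)])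
   (.mv 0))
  (.mv 1))

def BS2_1_2_0 : Inst where
  rows :=
   [(false, [1, 1, 1, 0, 0, 0, 0, 0, 0, 0, 0, 0, 0, 0, 0, 0, 0, 0, 0, 0, 0, 0, 0, 0, 0, -1], 0),
    (false, [0, 0, 0, 1, 1, 1, 1, 1, 0, 0, 0, 0, 0, 0, 0, 0, 0, 0, 0, 0, 0, 0, 0, 0, 0, -1], 0),
    (false, [0, 0, 0, 0, 0, 0, 0, 0, 1, 1, 1, 0, 0, 0, 0, 0, 0, 0, 0, 0, 0, 0, 0, 0, 0, -1], 0),
    (false, [0, 0, 0, 0, 0, 0, 0, 0, 0, 0, 0, 1, 1, 1, 1, 0, 0, 0, 0, 0, 0, 0, 0, 0, 0, 0], 1),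
    (false, [0, 0, 0, 0, 0, 0, 0, 0, 0, 0, 0, 0, 0, 0, 0, 1, 1, 1, 1, 0, 0, 0, 0, 0, 0, 0], 2),
    (false, [0, 1, 4, 4, 1, 0, 1, 4, 0, 1, 4, 1, 0, 1, 4, 1, 0, 1, 4, 0, 1, 4, 0, 0, 0, -8], 3),
    (false, [4, 1, 0, 4, 1, 0, 1, 4, 4, 1, 0, 4, 1, 0, 1, 4, 1, 0, 1, 0, 1, 4, 0, 0, 0, -8], 4),
    (false, [-1, -1, -1, 1, 1, 1, 1, 1, -1, -1, -1, 0, 0, 0, 0, 0, 0, 0, 0, 1, 1, 1, -1, 0, 0, 0], 0),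
    (false, [1, 1, 1, -1, -1, -1, -1, -1, -1, -1, -1, 0, 0, 0, 0, 0, 0, 0, 0, 1, 1, 1, 0, -1, 0, 0], 0),
    (false, [-1, 0, 1, -1, 0, 1, 0, -1, -1, 0, 1, -1, 0, 1, 0, -1, 0, 1, 0, 1, 0, -1, 0, 0, -1, 0], 0),
    (true, [-1, -1, -1, -1, -1, -1, -1, -1, 1, 1, 1, -1, -1, -1, -1, 1, 1, 1, 1, 1, 1, 1, 0, 0, 0, 0], 1),
    (true, [1, 1, 1, 1, 1, 1, 1, 1, -1, -1, -1, 1, 1, 1, 1, -1, -1, -1, -1, -1, -1, -1, 0, 0, 0, 0], -1),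
    (true, [1, 0, -1, -1, 0, 1, 0, -1, 1, 0, -1, 0, 1, 0, -1, 0, 1, 0, -1, 1, 0, -1, 0, 0, 0, 0], 0),
    (true, [0, 1, 4, 0, 1, 4, 9, 16, 4, 1, 0, 0, 1, 4, 9, 4, 1, 0, 1, 0, 1, 4, 0, 0, 0, 0], 1),
    (true, [4, 1, 0, 16, 9, 4, 1, 0, 0, 1, 4, 9, 4, 1, 0, 1, 0, 1, 4, 0, 1, 4, 0, 0, 0, 0], 1),
    (true, [0, 0, 0, 0, 0, 0, 0, 0, 0, 0, 0, 0, 0, 0, 0, 0, 0, 0, 0, 0, 0, 0, 0, 0, 0, 1], 1),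
    (false, [4, 1, 0, 16, 9, 4, 1, 0, 0, 1, 4, 9, 4, 1, 0, 1, 0, 1, 4, 0, 1, 4, 0, 0, 0, -8], 3),
    (true, [0, 0, 0, 1, 1, 0, 0, 0, 0, 0, 0, 1, 0, 0, 0, 0, 0, 0, 0, 0, 0, 0, 0, 0, 0, 0], 1)]
  moves := BS2_moves1
  reqs := BS2_reqs1
  tree := BS2_1_2_0_tree

theorem BS2_1_2_0_ok : BS2.instOK 1 2 0 BS2_1_2_0 = true := by
  decide +kernel

def BS2_1_3_0_tree : Tree :=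
  (.fk [(1, -4), (2, 4), (3, -2), (4, 2), (5, 1), (7, 2), (11, 2), (12, 2), (16, -1), (17, 2)])

def BS2_1_3_0 : Inst where
  rows :=
   [(false, [1, 1, 1, 0, 0, 0, 0, 0, 0, 0, 0, 0, 0, 0, 0, 0, 0, 0, 0, 0, 0, 0, 0, 0, 0, -1], 0),
    (false, [0, 0, 0, 1, 1, 1, 1, 1, 0, 0, 0, 0, 0, 0, 0, 0, 0, 0, 0, 0, 0, 0, 0, 0, 0, -1], 0),
    (false, [0, 0, 0, 0, 0, 0, 0, 0, 1, 1, 1, 0, 0, 0, 0, 0, 0, 0, 0, 0, 0, 0, 0, 0, 0, -1], 0),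
    (false, [0, 0, 0, 0, 0, 0, 0, 0, 0, 0, 0, 1, 1, 1, 1, 0, 0, 0, 0, 0, 0, 0, 0, 0, 0, 0], 1),
    (false, [0, 0, 0, 0, 0, 0, 0, 0, 0, 0, 0, 0, 0, 0, 0, 1, 1, 1, 1, 0, 0, 0, 0, 0, 0, 0], 2),
    (false, [0, 1, 4, 4, 1, 0, 1, 4, 0, 1, 4, 1, 0, 1, 4, 1, 0, 1, 4, 0, 1, 4, 0, 0, 0, -8], 3),
    (false, [4, 1, 0, 4, 1, 0, 1, 4, 4, 1, 0, 4, 1, 0, 1, 4, 1, 0, 1, 0, 1, 4, 0, 0, 0, -8], 4),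
    (false, [-1, -1, -1, 1, 1, 1, 1, 1, -1, -1, -1, 0, 0, 0, 0, 0, 0, 0, 0, 1, 1, 1, -1, 0, 0, 0], 0),
    (false, [1, 1, 1, -1, -1, -1, -1, -1, -1, -1, -1, 0, 0, 0, 0, 0, 0, 0, 0, 1, 1, 1, 0, -1, 0, 0], 0),
    (false, [-1, 0, 1, -1, 0, 1, 0, -1, -1, 0, 1, -1, 0, 1, 0, -1, 0, 1, 0, 1, 0, -1, 0, 0, -1, 0], 0),
    (true, [-1, -1, -1, -1, -1, -1, -1, -1, 1, 1, 1, -1, -1, -1, -1, 1, 1, 1, 1, 1, 1, 1, 0, 0, 0, 0], 1),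
    (true, [1, 1, 1, 1, 1, 1, 1, 1, -1, -1, -1, 1, 1, 1, 1, -1, -1, -1, -1, -1, -1, -1, 0, 0, 0, 0], -1),
    (true, [1, 0, -1, -1, 0, 1, 0, -1, 1, 0, -1, 0, 1, 0, -1, 0, 1, 0, -1, 1, 0, -1, 0, 0, 0, 0], 0),
    (true, [0, 1, 4, 0, 1, 4, 9, 16, 4, 1, 0, 0, 1, 4, 9, 4, 1, 0, 1, 0, 1, 4, 0, 0, 0, 0], 1),
    (true, [4, 1, 0, 16, 9, 4, 1, 0, 0, 1, 4, 9, 4, 1, 0, 1, 0, 1, 4, 0, 1, 4, 0, 0, 0, 0], 1),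
    (true, [0, 0, 0, 0, 0, 0, 0, 0, 0, 0, 0, 0, 0, 0, 0, 0, 0, 0, 0, 0, 0, 0, 0, 0, 0, 1], 1),
    (false, [4, 1, 0, 16, 9, 4, 1, 0, 0, 1, 4, 9, 4, 1, 0, 1, 0, 1, 4, 0, 1, 4, 0, 0, 0, -8], 3),
    (true, [1, 0, -1, 0, 0, 1, 0, -1, -1, 0, 1, 0, 1, 0, -1, 0, -1, 0, 1, -1, 0, 1, 0, 0, 0, 0], 1)]
  moves := BS2_moves1
  reqs := BS2_reqs1
  tree := BS2_1_3_0_tree

theorem BS2_1_3_0_ok : BS2.instOK 1 3 0 BS2_1_3_0 = true := by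
  decide +kernel

theorem BS2_ok1 : ∀ b ∈ BS2.branches, ∃ I : Inst, BS2.instOK 1 b.1 b.2 I = true := by
  intro b hb
  have h : b = (0, 0) ∨ b = (1, 0) ∨ b = (2, 0) ∨ b = (3, 0) := by
    have hb2 : b ∈ [(0, 0), (1, 0), (2, 0), (3, 0)] := hb
    simpa using hb2
  rcases h with rfl | rfl | rfl | rfl
  · exact ⟨BS2_1_0_0, BS2_1_0_0_ok⟩
  · exact ⟨BS2_1_1_0, BS2_1_1_0_ok⟩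
  · exact ⟨BS2_1_2_0, BS2_1_2_0_ok⟩
  · exact ⟨BS2_1_3_0, BS2_1_3_0_ok⟩

end Pool.Agent.helper1.CAD
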