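import Mathlib

/-! Verified checker for branch and bound trees over linear systems (MP_cad530_co). -/

namespace Pool.Agent.helper1.CAD

/-- product of two lists -/
def dot : List ℤ → List ℤ → ℤ
  | a :: as, b :: bs => a * b + dot as bs
  | _, _ => 0

def axpy (y : ℤ) : List ℤ → List ℤ → List ℤ
  | a :: as, b :: bs => (y * a + b) :: axpy y as bs
  | _, _ => []

/-- a row: (is an inequality, coefficients, right hand side); meaning `dot c X = b` or `≥ b` -/
abbrev Row := Bool × List ℤ × ℤ

def Row.sat (r : Row) (X : List ℤ) : Prop := if r.1 then r.2.2 ≤ dot r.2.1 X else dot r.2.1 X = r.2.2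

inductive Tree
  | mv (m : ℕ)
  | fk (ys : List (ℕ × ℤ))
  | br (j : ℕ) (c : ℤ) (a b : Tree)

/-- linear combination of rows, `none` if a sign is wrong -/
def comb (rows : List Row) (z : List ℤ) : List (ℕ × ℤ) → Option (List ℤ × ℤ)
  | [] => some (z, 0)
  | (i, y) :: ys =>
    match comb rows z ys with
    | none => none
    | some (c, b) =>
      match rows[i]? with
      | none => none
      | some (g, a, e) =>
        if g && (y < 0 : Bool) then none
        else if a.length = z.length then some (axpy y a c, y * e + b) else none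

/-- the maximum of `dot c X` over the box -/
def mx : List ℤ → List ℤ → List ℤ → Option ℤ
  | [], [], [] => some 0
  | c :: cs, l :: ls, u :: us =>
    match mx cs ls us with
    | none => none
    | some s => if c ≤ 0 then some (c * l + s) else if u < 0 then none else some (c * u + s)
  | _, _, _ => none

/-- `r ≤ l` entrywise -/
def leq : List ℤ → List ℤ → Bool
  | [], [] => true
  | a :: as, b :: bs => decide (a ≤ b) && leq as bs
  | _, _ => false

def setAt : List ℤ → ℕ → ℤ → List ℤ
  | [], _, _ => []
  | _ :: as, 0, c => c :: as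
  | a :: as, j + 1, c => a :: setAt as j c

def getAt : List ℤ → ℕ → ℤ
  | [], _ => 0
  | a :: _, 0 => a
  | _ :: as, j + 1 => getAt as j

/-- box: lower and upper bounds (`u < 0`: no upper bound) -/
def inBox : List ℤ → List ℤ → List ℤ → Prop
  | [], [], [] => True
  | x :: xs, l :: ls, u :: us => l ≤ x ∧ (u < 0 ∨ x ≤ u) ∧ inBox xs ls us
  | _, _, _ => False

def check (rows : List Row) (reqs : List (List ℤ)) (z : List ℤ) : List ℤ → List ℤ → Tree → Bool
  | lb, _, .mv m =>
    match reqs[m]? with
    | none => false
    | some r => leq r lb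
  | lb, ub, .fk ys =>
    match comb rows z ys with
    | none => false
    | some (c, b) =>
      match mx c lb ub with
      | none => false
      | some s => decide (s < b)
  | lb, ub, .br j c a b =>
    decide (0 ≤ c) && (check rows reqs z lb (setAt ub j c) a && check rows reqs z (setAt lb j (c + 1)) ub b)

theorem dot_axpy (y : ℤ) : ∀ (a c X : List ℤ), a.length = c.length →
    dot (axpy y a c) X = y * dot a X + dot c X
  | [], [], X, _ => by simp [axpy, dot]
  | a :: as, b :: bs, [], _ => by simp [axpy, dot]
  | a :: as, b :: bs, x :: xs, h => by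
    have ih := dot_axpy y as bs xs (by simpa using h)
    simp only [axpy, dot]
    rw [ih]; ring

theorem length_axpy (y : ℤ) : ∀ (a c : List ℤ), a.length = c.length → (axpy y a c).length = c.length
  | [], [], _ => rfl
  | a :: as, b :: bs, h => by
    simp only [axpy, List.length_cons]
    rw [length_axpy y as bs (by simpa using h)]

theorem dot_zero : ∀ (z X : List ℤ), (∀ a ∈ z, a = 0) → dot z X = 0
  | [], X, _ => by simp [dot]
  | a :: as, [], _ => by simp [dot]
  | a :: as, x :: xs, h => by
    have h1 := h a (by simp)
    have h2 := dot_zero as xs (fun b hb => h b (by simp [hb]))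
    simp [dot, h1, h2]

theorem comb_sound (rows : List Row) (z X : List ℤ) (hz : ∀ a ∈ z, a = 0)
    (hr : ∀ r ∈ rows, r.sat X) : ∀ (ys : List (ℕ × ℤ)) (c : List ℤ) (b : ℤ),
    comb rows z ys = some (c, b) → c.length = z.length ∧ b ≤ dot c X
  | [], c, b, h => by
    simp only [comb, Option.some.injEq, Prod.mk.injEq] at h
    obtain ⟨rfl, rfl⟩ := h
    exact ⟨rfl, by rw [dot_zero z X hz]⟩
  | (i, y) :: ys, c, b, h => by
    rw [comb] at h
    cases hc : comb rows z ys with
    | none => rw [hc] at h; simp at h
    | some cb =>
      obtain ⟨c', b'⟩ := cb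
      rw [hc] at h
      obtain ⟨h1, h2⟩ := comb_sound rows z X hz hr ys c' b' hc
      cases hi : rows[i]? with
      | none => rw [hi] at h; simp at h
      | some r =>
        obtain ⟨g, a, e⟩ := r
        rw [hi] at h
        have hmem : (g, a, e) ∈ rows := List.mem_of_getElem? hi
        have hs := hr _ hmem
        simp only at h
        split_ifs at h with h3 h4
        simp only [Option.some.injEq, Prod.mk.injEq] at h
        obtain ⟨rfl, rfl⟩ := h
        have hl : a.length = c'.length := by rw [h4, h1]
        refine ⟨by rw [length_axpy y a c' hl, h1], ?_⟩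
        rw [dot_axpy y a c' X hl]
        unfold Row.sat at hs
        simp only at hs
        cases g with
        | false =>
          simp only [Bool.false_eq_true, if_false] at hs
          rw [hs]; linarith
        | true =>
          simp only [if_true] at hs
          simp only [Bool.true_and, decide_eq_true_eq, not_lt] at h3
          nlinarith [mul_le_mul_of_nonneg_left hs h3]

theorem mx_sound : ∀ (c lb ub X : List ℤ) (s : ℤ), inBox X lb ub → mx c lb ub = some s → dot c X ≤ s
  | [], [], [], [], s, _, h => by simp only [mx, Option.some.injEq] at h; simp [dot, ← h]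
  | c :: cs, l :: ls, u :: us, x :: xs, s, hb, h => by
    obtain ⟨h1, h2, h3⟩ := hb
    rw [mx] at h
    cases hm : mx cs ls us with
    | none => rw [hm] at h; simp at h
    | some s' =>
      rw [hm] at h
      have ih := mx_sound cs ls us xs s' h3 hm
      simp only at h
      simp only [dot]
      split_ifs at h with h4 h5
      · simp only [Option.some.injEq] at h
        have : c * x ≤ c * l := mul_le_mul_of_nonpos_left h1 h4
        linarith
      · simp only [Option.some.injEq] at h
        have h6 : x ≤ u := by rcases h2 with h2 | h2; exact absurd h2 h5; exact h2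
        have : c * x ≤ c * u := mul_le_mul_of_nonneg_left h6 (by omega)
        linarith
  | [], _ :: _, _, _, s, _, h => by simp [mx] at h
  | [], [], _ :: _, _, s, _, h => by simp [mx] at h
  | _ :: _, [], _, _, s, _, h => by simp [mx] at h
  | _ :: _, _ :: _, [], _, s, _, h => by simp [mx] at h
  | [], [], [], _ :: _, s, hb, h => by simp [inBox] at hb
  | _ :: _, _ :: _, _ :: _, [], s, hb, h => by simp [inBox] at hb

theorem inBox_set_ub : ∀ (X lb ub : List ℤ) (j : ℕ) (c : ℤ), inBox X lb ub → getAt X j ≤ c →
    inBox X lb (setAt ub j c)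
  | [], [], [], j, c, h, _ => by simpa [setAt] using h
  | x :: xs, l :: ls, u :: us, 0, c, h, hc => by
    obtain ⟨h1, h2, h3⟩ := h
    exact ⟨h1, Or.inr (by simpa [getAt] using hc), h3⟩
  | x :: xs, l :: ls, u :: us, j + 1, c, h, hc => by
    obtain ⟨h1, h2, h3⟩ := h
    exact ⟨h1, h2, inBox_set_ub xs ls us j c h3 (by simpa [getAt] using hc)⟩

theorem inBox_set_lb : ∀ (X lb ub : List ℤ) (j : ℕ) (c : ℤ), inBox X lb ub → c ≤ getAt X j →
    inBox X (setAt lb j c) ub
  | [], [], [], j, c, h, _ => by simpa [setAt] using h
  | x :: xs, l :: ls, u :: us, 0, c, h, hc => by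
    obtain ⟨h1, h2, h3⟩ := h
    exact ⟨by simpa [getAt] using hc, h2, h3⟩
  | x :: xs, l :: ls, u :: us, j + 1, c, h, hc => by
    obtain ⟨h1, h2, h3⟩ := h
    exact ⟨h1, h2, inBox_set_lb xs ls us j c h3 (by simpa [getAt] using hc)⟩

/-- entrywise comparison -/
def lePw : List ℤ → List ℤ → Prop
  | [], [] => True
  | a :: as, b :: bs => a ≤ b ∧ lePw as bs
  | _, _ => False

theorem leq_sound : ∀ (r lb ub X : List ℤ), leq r lb = true → inBox X lb ub → lePw r X
  | [], [], [], [], _, _ => trivial
  | a :: as, l :: ls, u :: us, x :: xs, h, hb => by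
    obtain ⟨h1, h2, h3⟩ := hb
    rw [leq, Bool.and_eq_true, decide_eq_true_eq] at h
    exact ⟨le_trans h.1 h1, leq_sound as ls us xs h.2 h3⟩
  | [], _ :: _, _, _, h, _ => by simp [leq] at h
  | _ :: _, [], _, _, h, _ => by simp [leq] at h
  | [], [], _ :: _, _, _, hb => by cases ‹List ℤ› <;> simp [inBox] at hb
  | [], [], [], _ :: _, _, hb => by simp [inBox] at hb
  | _ :: _, _ :: _, [], _, _, hb => by cases ‹List ℤ› <;> simp [inBox] at hb
  | _ :: _, _ :: _, _ :: _, [], _, hb => by simp [inBox] at hb

theorem check_sound (rows : List Row) (reqs : List (List ℤ)) (z X : List ℤ) (hz : ∀ a ∈ z, a = 0)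
    (hr : ∀ r ∈ rows, r.sat X) : ∀ (t : Tree) (lb ub : List ℤ), check rows reqs z lb ub t = true →
    inBox X lb ub → ∃ r ∈ reqs, lePw r X
  | .mv m, lb, ub, h, hb => by
    rw [check] at h
    cases hm : reqs[m]? with
    | none => rw [hm] at h; simp at h
    | some r =>
      rw [hm] at h
      exact ⟨r, List.mem_of_getElem? hm, leq_sound r lb ub X h hb⟩
  | .fk ys, lb, ub, h, hb => by
    rw [check] at h
    cases hc : comb rows z ys with
    | none => rw [hc] at h; simp at h
    | some cb =>
      obtain ⟨c, b⟩ := cb
      rw [hc] at h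
      obtain ⟨h1, h2⟩ := comb_sound rows z X hz hr ys c b hc
      simp only at h
      cases hm : mx c lb ub with
      | none => rw [hm] at h; simp at h
      | some s =>
        rw [hm] at h
        have h3 := mx_sound c lb ub X s hb hm
        simp only [decide_eq_true_eq] at h
        omega
  | .br j c a b, lb, ub, h, hb => by
    rw [check, Bool.and_eq_true, Bool.and_eq_true, decide_eq_true_eq] at h
    obtain ⟨_, h1, h2⟩ := h
    rcases le_or_gt (getAt X j) c with h3 | h3
    · exact check_sound rows reqs z X hz hr a lb (setAt ub j c) h1 (inBox_set_ub X lb ub j c hb h3)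
    · exact check_sound rows reqs z X hz hr b (setAt lb j (c + 1)) ub h2
        (inBox_set_lb X lb ub j (c + 1) hb (by omega))

end Pool.Agent.helper1.CAD
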