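import Pool.Agent.helper1.CAD.Pat2

/-! The complementary pattern (MP_cad530_co). -/

namespace Pool.Agent.helper1.CAD

open Finset

variable {ι : Type} [Fintype ι] [DecidableEq ι]

/-- the complementary entry -/
def cpl (a b : ℤ) : ℤ := if a = 0 then b else a - b

theorem cpl_cpl (a b : ℤ) : cpl a (cpl a b) = b := by
  unfold cpl
  split_ifs <;> ring

/-- if a pattern is invariant under `x ↦ v - x`, it also holds for `v - x` -/
theorem Spec.Pat.compl {S : Spec} {v x : ι → ℤ} {p : List ℤ} {s : ι → ℤ} (h : S.Pat v x p s)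
    (hc : ∀ t ∈ S.tys, (t.1, cpl t.1 t.2.1, t.2.2) ∈ S.tys) :
    S.Pat v (fun i => v i - x i) p (fun i => if v i = 0 then -s i else s i) := by
  have hs0 : ∀ i, s i * v i = 0 ↔ v i = 0 := by
    intro i
    rcases h.sg i with h1 | h1 <;> rw [h1] <;> omega
  have key : ∀ i, ((if v i = 0 then -s i else s i) * v i,
      (if v i = 0 then -s i else s i) * (v i - x i)) = (s i * v i, cpl (s i * v i) (s i * x i)) := by
    intro i
    unfold cpl
    by_cases h0 : v i = 0
    · rw [if_pos h0, if_pos ((hs0 i).mpr h0), h0]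
      ext <;> ring
    · rw [if_neg h0, if_neg (fun h1 => h0 ((hs0 i).mp h1))]
      ext <;> ring
  refine ⟨?_, ?_, ?_⟩
  · intro i
    show (if v i = 0 then -s i else s i) = 1 ∨ (if v i = 0 then -s i else s i) = -1
    rcases h.sg i with h1 | h1 <;> rw [h1] <;> split_ifs <;> simp
  · intro i
    show ((if v i = 0 then -s i else s i) * v i,
      (if v i = 0 then -s i else s i) * (v i - x i)) ∈ S.pairs
    rw [key]
    have := h.pair i
    unfold Spec.pairs at this ⊢
    rw [List.mem_append, List.mem_map, List.mem_singleton] at this ⊢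
    rcases this with ⟨t, ht, he⟩ | he
    · left
      refine ⟨_, hc t ht, ?_⟩
      rw [Prod.mk.injEq] at he
      rw [← he.1, ← he.2]
    · right
      rw [Prod.mk.injEq] at he
      rw [he.1, he.2]
      rfl
  · intro t ht
    have := h.cnt _ (hc t ht)
    show ((#{i | ((if v i = 0 then -s i else s i) * v i,
      (if v i = 0 then -s i else s i) * (v i - x i)) = (t.1, t.2.1)} : ℕ) : ℤ) = _
    rw [← this]
    congr 2
    ext i
    simp only [mem_filter, mem_univ, true_and]
    rw [key, Prod.mk.injEq, Prod.mk.injEq]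
    constructor
    · rintro ⟨h1, h2⟩
      refine ⟨h1, ?_⟩
      rw [← h2, h1, cpl_cpl]
    · rintro ⟨h1, h2⟩
      refine ⟨h1, ?_⟩
      rw [h1, h2, cpl_cpl]

end Pool.Agent.helper1.CAD
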