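import Pool.Agent.helper1.CAD.Sound

namespace Pool.Agent.helper1.CAD

set_option maxRecDepth 100000

def D0 : Spec where
  K := .D
  tys := [(2, 2, [1], 0), (2, 0, [1], 0), (0, 2, [1], 0)]
  kc := ([4], 0)
  pmin := [1]
  sl := (0, -1)
  good := true
  pv := 0
  px := 0
  pvx := 0

def D0_moves0 : List Move :=
   [([((0, 2, 0), -2)], 0),
    ([((0, 2, 2), 0), ((0, 0, 2), 2)], 0),
    ([((2, 2, 1), 0), ((2, 0, 1), 2)], 0),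
    ([((2, 2, 2), 0), ((2, 0, 2), 2)], 0),
    ([((2, 2, 0), 0), ((2, 0, 0), 2)], 0),
    ([((0, 2, 1), 0), ((0, 0, 1), 2)], 0),
    ([((2, 2, 1), 0), ((2, 0, 0), 2), ((0, 2, 1), 0), ((0, 0, 2), 2)], 0),
    ([((2, 2, 1), 0), ((2, 0, 2), 2), ((0, 2, 1), 0), ((0, 0, 0), -2)], 0),
    ([((2, 2, 2), 0), ((2, 0, 1), 2), ((0, 2, 1), 0), ((0, 0, 2), 2)], 0),
    ([((2, 2, 0), 0), ((2, 0, 1), 2), ((0, 2, 2), 0), ((0, 0, 1), 2)], 0),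
    ([((0, 2, 1), 0), ((0, 2, 1), 0), ((0, 0, 0), -2), ((0, 0, 2), 2)], 0),
    ([((2, 2, 0), 0), ((2, 0, 2), 2), ((0, 2, 2), 0), ((0, 0, 0), -2)], 0),
    ([((2, 2, 1), 1), ((2, 0, -1), 1), ((0, 0, 0), -1), ((0, 0, 2), 1)], 0),
    ([((2, 2, 0), 1), ((2, 0, -1), 1), ((0, 0, 0), -1), ((0, 0, 1), 1)], 0),
    ([((2, 2, 0), 1), ((2, 0, -1), 1), ((0, 2, 2), 1), ((0, 0, 1), 1), ((0, 0, 1), 2)], 0),
    ([((2, 2, 0), 1), ((2, 0, -1), 1), ((0, 2, 1), -1), ((0, 0, 0), -1), ((0, 0, 2), 2)], 0),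
    ([((0, 2, 1), 0), ((0, 0, 0), -1), ((0, 0, 0), -1), ((0, 0, 0), -1), ((0, 0, 2), 1)], 0)]

def D0_reqs0 : List (List ℤ) :=
   [[0, 0, 0, 0, 0, 0, 0, 0, 1, 0, 0, 0, 0, 0, 0, 0, 0, 0],
    [0, 0, 0, 0, 0, 0, 0, 0, 0, 0, 1, 0, 0, 1, 0, 0, 0, 0],
    [0, 1, 0, 0, 0, 0, 1, 0, 0, 0, 0, 0, 0, 0, 0, 0, 0, 0],
    [0, 0, 1, 0, 0, 0, 0, 1, 0, 0, 0, 0, 0, 0, 0, 0, 0, 0],
    [1, 0, 0, 0, 0, 1, 0, 0, 0, 0, 0, 0, 0, 0, 0, 0, 0, 0],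
    [0, 0, 0, 0, 0, 0, 0, 0, 0, 1, 0, 0, 1, 0, 0, 0, 0, 0],
    [0, 1, 0, 0, 0, 1, 0, 0, 0, 1, 0, 0, 0, 1, 0, 0, 0, 0],
    [0, 1, 0, 0, 0, 0, 0, 1, 0, 1, 0, 1, 0, 0, 0, 0, 0, 0],
    [0, 0, 1, 0, 0, 0, 1, 0, 0, 1, 0, 0, 0, 1, 0, 0, 0, 0],
    [1, 0, 0, 0, 0, 0, 1, 0, 0, 0, 1, 0, 1, 0, 0, 0, 0, 0],
    [0, 0, 0, 0, 0, 0, 0, 0, 0, 2, 0, 1, 0, 1, 0, 0, 0, 0],
    [1, 0, 0, 0, 0, 0, 0, 1, 0, 0, 1, 1, 0, 0, 0, 0, 0, 0],
    [0, 1, 0, 0, 1, 0, 0, 0, 0, 0, 0, 1, 0, 1, 2, 2, 0, 0],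
    [1, 0, 0, 0, 1, 0, 0, 0, 0, 0, 0, 1, 1, 0, 2, 2, 0, 0],
    [1, 0, 0, 0, 1, 0, 0, 0, 0, 0, 1, 0, 2, 0, 2, 2, 0, 0],
    [1, 0, 0, 0, 1, 0, 0, 0, 0, 1, 0, 1, 0, 1, 2, 2, 0, 0],
    [0, 0, 0, 0, 0, 0, 0, 0, 0, 1, 0, 3, 0, 1, 2, 2, 2, 0]]

def D0_base0 : List Row :=
   [(false, [1, 1, 1, 0, 0, 0, 0, 0, 0, 0, 0, 0, 0, 0, 0, 0, 0, -1], 0),
    (false, [0, 0, 0, 1, 1, 1, 1, 1, 0, 0, 0, 0, 0, 0, 0, 0, 0, -1], 0),
    (false, [0, 0, 0, 0, 0, 0, 0, 0, 1, 1, 1, 0, 0, 0, 0, 0, 0, -1], 0),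
    (false, [0, 1, 4, 4, 1, 0, 1, 4, 0, 1, 4, 0, 1, 4, 0, 0, 0, -8], 0),
    (false, [4, 1, 0, 4, 1, 0, 1, 4, 4, 1, 0, 0, 1, 4, 0, 0, 0, -8], 0),
    (false, [-1, -1, -1, 1, 1, 1, 1, 1, -1, -1, -1, 1, 1, 1, -1, 0, 0, 0], 0),
    (false, [1, 1, 1, -1, -1, -1, -1, -1, -1, -1, -1, 1, 1, 1, 0, -1, 0, 0], 0),
    (false, [-1, 0, 1, -1, 0, 1, 0, -1, -1, 0, 1, 1, 0, -1, 0, 0, -1, 0], 0),
    (true, [-1, -1, -1, -1, -1, -1, -1, -1, 1, 1, 1, 1, 1, 1, 0, 0, 0, 0], 0),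
    (true, [1, 0, -1, -1, 0, 1, 0, -1, 1, 0, -1, 1, 0, -1, 0, 0, 0, 0], 0),
    (true, [0, 1, 4, 0, 1, 4, 9, 16, 4, 1, 0, 0, 1, 4, 0, 0, 0, 0], 1),
    (true, [4, 1, 0, 16, 9, 4, 1, 0, 0, 1, 4, 0, 1, 4, 0, 0, 0, 0], 1),
    (true, [0, 0, 0, 0, 0, 0, 0, 0, 0, 0, 0, 0, 0, 0, 0, 0, 0, 1], 1)]

def D0_0_0_0_tree : Tree :=
  (.br 8 0
  (.br 5 0
   (.br 10 0
    (.br 9 0
     (.fk [(2, 1), (12, 1)])
     (.br 12 0
      (.br 6 0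
       (.br 7 0
        (.br 9 1
         (.br 4 0
          (.br 11 0
           (.fk [(0, 20), (1, 68), (2, 10), (3, -8), (4, -3), (5, 16), (6, 10), (7, 10), (8, 10), (9, 10), (10, 7), (12, 10)])
           (.br 11 1
            (.fk [(0, -4), (2, -7), (3, -1), (4, 3), (7, 8), (12, 5)])
            (.br 11 2
             (.br 13 0
              (.fk [(0, -76), (1, -172), (2, -39), (3, 18), (4, 17), (10, 1), (11, 1), (12, 1), (13, 1)])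
              (.fk [(0, 4), (1, 16), (2, 12), (3, -1), (4, -3)]))
             (.br 14 0
              (.fk [(0, -44), (2, -36), (3, 5), (4, 5), (5, -24), (7, 8), (9, 8)])
              (.br 14 1
               (.fk [(0, -12), (2, -4), (3, 1), (4, 1), (5, -8)])
               (.br 15 0
                (.fk [(0, 20), (1, -64), (2, -36), (3, 5), (4, 5), (5, 8), (6, -32), (7, 8), (9, 8)])
                (.br 15 1
                 (.fk [(0, 20), (1, -32), (2, -4), (3, 1), (4, 1), (5, 8), (6, -16)])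
                 (.br 16 0
                  (.fk [(0, 20), (1, 32), (2, 108), (3, 7), (4, -27), (5, 16), (6, 16), (7, -48)])
                  (.br 16 1
                   (.fk [(0, 20), (1, 32), (2, 108), (3, 7), (4, -27), (5, 16), (6, 16), (7, -48)])
                   (.br 13 0
                    (.fk [(0, -76), (1, -172), (2, -39), (3, 18), (4, 17), (10, 1), (11, 1), (12, 1), (13, 1)])
                    (.mv 16)))))))))))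
          (.br 11 0
           (.fk [(0, -4), (1, -6), (2, -6), (3, 1), (4, 1), (7, 4), (9, 4)])
           (.br 13 0
            (.fk [(0, -76), (1, -172), (2, -39), (3, 18), (4, 17), (10, 1), (11, 1), (12, 1), (13, 1)])
            (.br 14 0
             (.fk [(0, -10), (1, 2), (2, -8), (3, 1), (4, 1), (5, -6), (7, 2), (9, 2)])
             (.br 14 1
              (.br 0 0
               (.fk [(0, -36), (1, 8), (2, -44), (3, -3), (4, 13), (5, -26), (7, 22), (12, 8)])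
               (.fk [(0, -14), (1, 2), (2, -12), (4, 3), (5, -7), (7, 7)]))
              (.br 15 0
               (.fk [(0, 6), (1, -14), (2, -8), (3, 1), (4, 1), (5, 2), (6, -8), (7, 2), (9, 2)])
               (.br 15 1
                (.fk [(0, 20), (1, -64), (2, -48), (3, -1), (4, 13), (5, 8), (6, -36), (7, 28), (12, 4)])
                (.br 0 0
                 (.br 1 0
                  (.fk [(0, 188), (1, -60), (2, 4), (3, -51), (4, 31), (10, 4), (11, 4), (12, 4), (13, 4)])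
                  (.mv 12))
                 (.mv 15)))))))))
         (.br 11 0
          (.fk [(0, -4), (1, -2), (2, -6), (3, 1), (4, 1), (7, 4), (9, 4), (12, 4)])
          (.br 13 0
           (.fk [(0, -76), (1, -172), (2, -39), (3, 18), (4, 17), (10, 1), (11, 1), (12, 1), (13, 1)])
           (.mv 10))))
        (.br 2 0
         (.br 11 0
          (.fk [(0, -8), (1, -16), (2, -24), (3, 6), (4, 1), (7, 16), (9, 16), (12, 16), (13, 1)])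
          (.br 1 0
           (.fk [(0, 92), (1, -28), (2, 2), (3, 17), (4, -27), (10, 2), (11, 2), (12, 2), (13, 2)])
           (.mv 7)))
         (.mv 3)))
       (.br 1 0
        (.br 13 0
         (.fk [(0, -76), (1, -172), (2, -39), (3, 18), (4, 17), (10, 1), (11, 1), (12, 1), (13, 1)])
         (.br 2 0
          (.fk [(0, 92), (1, -28), (2, 2), (3, 17), (4, -27), (10, 2), (11, 2), (12, 2), (13, 2)])
          (.mv 8)))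
        (.mv 2)))
      (.mv 5)))
    (.br 13 0
     (.br 0 0
      (.fk [(3, -1), (4, 1)])
      (.br 11 0
       (.br 12 0
        (.fk [(0, 24), (1, -480), (2, 4), (3, 29), (4, 24), (5, 156), (6, 4), (7, 4), (8, 4), (9, 4), (10, 4), (11, 4), (12, 4), (13, 4)])
        (.br 6 0
         (.br 9 0
          (.br 2 0
           (.br 1 0
            (.br 12 1
             (.fk [(0, -4), (1, -5), (2, -4), (3, 1), (4, 1), (5, 3), (7, 3), (9, 3), (12, 3)])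
             (.br 14 0
              (.fk [(0, -32), (1, 12), (2, -44), (3, 5), (4, 3), (5, -20), (7, 12), (9, 12)])
              (.br 14 1
               (.fk [(0, -32), (1, 12), (2, -44), (3, 5), (4, 3), (5, -20), (7, 12), (9, 12)])
               (.br 15 0
                (.fk [(0, 32), (1, -52), (2, -44), (3, 5), (4, 3), (5, 12), (6, -32), (7, 12), (9, 12)])
                (.br 15 1
                 (.fk [(0, 32), (1, -52), (2, -44), (3, 5), (4, 3), (5, 12), (6, -32), (7, 12), (9, 12)])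
                 (.br 4 0
                  (.fk [(0, 956), (1, 452), (2, 4), (3, 29), (4, -209), (5, 156), (6, 4), (7, 4), (8, 4), (9, 4), (10, 4), (11, 4), (12, 4), (13, 4)])
                  (.mv 14)))))))
            (.fk [(0, -4), (2, 4), (3, -1), (4, 1), (7, 4), (9, 4)]))
           (.fk [(0, -4), (2, 4), (3, -1), (4, 1), (7, 8), (9, 8)]))
          (.mv 5))
         (.mv 9)))
       (.br 7 0
        (.br 12 0
         (.fk [(0, -8), (1, -12), (2, -4), (3, 1), (4, 2), (10, 1)])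
         (.br 6 0
          (.br 9 0
           (.br 14 0
            (.fk [(0, -16), (1, 4), (2, -12), (3, 1), (4, 2), (5, -8), (7, 4), (9, 4), (10, 1)])
            (.br 14 1
             (.br 4 0
              (.fk [(1, 6), (2, 2), (3, -1), (5, -1), (7, 1)])
              (.fk [(0, -12), (1, -8), (2, -12), (3, 1), (4, 3), (5, -4), (7, 4)]))
             (.br 15 0
              (.fk [(0, 8), (1, -20), (2, -12), (3, 1), (4, 2), (5, 4), (6, -12), (7, 4), (9, 4), (10, 1)])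
              (.br 15 1
               (.fk [(0, 2), (1, -2), (5, 1), (6, -1)])
               (.br 4 0
                (.fk [(0, 4), (1, 16), (2, 12), (3, -3), (4, -1)])
                (.mv 13))))))
           (.mv 5))
          (.mv 9)))
        (.mv 11))))
     (.mv 1)))
   (.br 0 0
    (.br 13 0
     (.br 12 0
      (.fk [(0, -148), (1, -752), (2, -148), (3, 21), (4, 103), (10, 8), (11, 8), (12, 8), (13, 8)])
      (.br 9 0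
       (.fk [(1, -4), (2, 4), (3, -1), (4, 1)])
       (.mv 5)))
     (.br 1 0
      (.fk [(0, 40), (1, -16), (2, 1), (3, -11), (4, 7), (10, 1), (11, 1), (12, 1), (13, 1)])
      (.br 9 0
       (.fk [(1, -4), (2, 4), (3, -1), (4, 1)])
       (.mv 6))))
    (.mv 4)))
  (.mv 0))

def D0_0_0_0 : Inst where
  rows :=
   [(false, [1, 1, 1, 0, 0, 0, 0, 0, 0, 0, 0, 0, 0, 0, 0, 0, 0, -1], 0),
    (false, [0, 0, 0, 1, 1, 1, 1, 1, 0, 0, 0, 0, 0, 0, 0, 0, 0, -1], 0),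
    (false, [0, 0, 0, 0, 0, 0, 0, 0, 1, 1, 1, 0, 0, 0, 0, 0, 0, -1], 0),
    (false, [0, 1, 4, 4, 1, 0, 1, 4, 0, 1, 4, 0, 1, 4, 0, 0, 0, -8], 0),
    (false, [4, 1, 0, 4, 1, 0, 1, 4, 4, 1, 0, 0, 1, 4, 0, 0, 0, -8], 0),
    (false, [-1, -1, -1, 1, 1, 1, 1, 1, -1, -1, -1, 1, 1, 1, -1, 0, 0, 0], 0),
    (false, [1, 1, 1, -1, -1, -1, -1, -1, -1, -1, -1, 1, 1, 1, 0, -1, 0, 0], 0),
    (false, [-1, 0, 1, -1, 0, 1, 0, -1, -1, 0, 1, 1, 0, -1, 0, 0, -1, 0], 0),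
    (true, [-1, -1, -1, -1, -1, -1, -1, -1, 1, 1, 1, 1, 1, 1, 0, 0, 0, 0], 0),
    (true, [1, 0, -1, -1, 0, 1, 0, -1, 1, 0, -1, 1, 0, -1, 0, 0, 0, 0], 0),
    (true, [0, 1, 4, 0, 1, 4, 9, 16, 4, 1, 0, 0, 1, 4, 0, 0, 0, 0], 1),
    (true, [4, 1, 0, 16, 9, 4, 1, 0, 0, 1, 4, 0, 1, 4, 0, 0, 0, 0], 1),
    (true, [0, 0, 0, 0, 0, 0, 0, 0, 0, 0, 0, 0, 0, 0, 0, 0, 0, 1], 1),
    (true, [4, 1, 0, 16, 9, 4, 1, 0, 0, 1, 4, 0, 1, 4, 0, 0, 0, -8], 1)]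
  moves := D0_moves0
  reqs := D0_reqs0
  tree := D0_0_0_0_tree

theorem D0_0_0_0_ok : D0.instOK 0 0 0 D0_0_0_0 = true := by
  decide +kernel

def D0_0_1_0_tree : Tree :=
  (.br 8 0
  (.br 7 0
   (.fk [(4, 1), (13, 1)])
   (.br 2 0
    (.br 11 0
     (.fk [(3, 2), (4, -1), (9, 4), (13, 1)])
     (.br 1 0
      (.fk [(0, 4), (1, -4), (3, 1), (13, 1)])
      (.br 9 0
       (.fk [(0, 4), (1, 16), (2, 108), (3, -15), (4, 11), (13, 12)])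
       (.mv 7))))
    (.mv 3)))
  (.mv 0))

def D0_0_1_0 : Inst where
  rows :=
   [(false, [1, 1, 1, 0, 0, 0, 0, 0, 0, 0, 0, 0, 0, 0, 0, 0, 0, -1], 0),
    (false, [0, 0, 0, 1, 1, 1, 1, 1, 0, 0, 0, 0, 0, 0, 0, 0, 0, -1], 0),
    (false, [0, 0, 0, 0, 0, 0, 0, 0, 1, 1, 1, 0, 0, 0, 0, 0, 0, -1], 0),
    (false, [0, 1, 4, 4, 1, 0, 1, 4, 0, 1, 4, 0, 1, 4, 0, 0, 0, -8], 0),
    (false, [4, 1, 0, 4, 1, 0, 1, 4, 4, 1, 0, 0, 1, 4, 0, 0, 0, -8], 0),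
    (false, [-1, -1, -1, 1, 1, 1, 1, 1, -1, -1, -1, 1, 1, 1, -1, 0, 0, 0], 0),
    (false, [1, 1, 1, -1, -1, -1, -1, -1, -1, -1, -1, 1, 1, 1, 0, -1, 0, 0], 0),
    (false, [-1, 0, 1, -1, 0, 1, 0, -1, -1, 0, 1, 1, 0, -1, 0, 0, -1, 0], 0),
    (true, [-1, -1, -1, -1, -1, -1, -1, -1, 1, 1, 1, 1, 1, 1, 0, 0, 0, 0], 0),
    (true, [1, 0, -1, -1, 0, 1, 0, -1, 1, 0, -1, 1, 0, -1, 0, 0, 0, 0], 0),
    (true, [0, 1, 4, 0, 1, 4, 9, 16, 4, 1, 0, 0, 1, 4, 0, 0, 0, 0], 1),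
    (true, [4, 1, 0, 16, 9, 4, 1, 0, 0, 1, 4, 0, 1, 4, 0, 0, 0, 0], 1),
    (true, [0, 0, 0, 0, 0, 0, 0, 0, 0, 0, 0, 0, 0, 0, 0, 0, 0, 1], 1),
    (true, [-4, -1, 0, -16, -9, -4, -1, 0, 0, -1, -4, 0, -1, -4, 0, 0, 0, 8], 1)]
  moves := D0_moves0
  reqs := D0_reqs0
  tree := D0_0_1_0_tree

theorem D0_0_1_0_ok : D0.instOK 0 1 0 D0_0_1_0 = true := by
  decide +kernel

def D0_0_2_0_tree : Tree :=
  (.br 8 0
  (.br 7 0
   (.fk [(4, 1), (13, -1), (14, 8)])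
   (.br 2 0
    (.br 11 0
     (.fk [(3, 1), (7, 2), (9, 2), (13, -1), (14, 2)])
     (.br 1 0
      (.fk [(0, 24), (1, 4), (2, 4), (3, 2), (4, -3), (13, -3), (14, 4)])
      (.br 9 0
       (.fk [(0, -12), (1, -4), (2, 16), (3, -3), (4, 4), (13, -1), (14, 12)])
       (.mv 7))))
    (.mv 3)))
  (.mv 0))

def D0_0_2_0 : Inst where
  rows :=
   [(false, [1, 1, 1, 0, 0, 0, 0, 0, 0, 0, 0, 0, 0, 0, 0, 0, 0, -1], 0),
    (false, [0, 0, 0, 1, 1, 1, 1, 1, 0, 0, 0, 0, 0, 0, 0, 0, 0, -1], 0),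
    (false, [0, 0, 0, 0, 0, 0, 0, 0, 1, 1, 1, 0, 0, 0, 0, 0, 0, -1], 0),
    (false, [0, 1, 4, 4, 1, 0, 1, 4, 0, 1, 4, 0, 1, 4, 0, 0, 0, -8], 0),
    (false, [4, 1, 0, 4, 1, 0, 1, 4, 4, 1, 0, 0, 1, 4, 0, 0, 0, -8], 0),
    (false, [-1, -1, -1, 1, 1, 1, 1, 1, -1, -1, -1, 1, 1, 1, -1, 0, 0, 0], 0),
    (false, [1, 1, 1, -1, -1, -1, -1, -1, -1, -1, -1, 1, 1, 1, 0, -1, 0, 0], 0),
    (false, [-1, 0, 1, -1, 0, 1, 0, -1, -1, 0, 1, 1, 0, -1, 0, 0, -1, 0], 0),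
    (true, [-1, -1, -1, -1, -1, -1, -1, -1, 1, 1, 1, 1, 1, 1, 0, 0, 0, 0], 0),
    (true, [1, 0, -1, -1, 0, 1, 0, -1, 1, 0, -1, 1, 0, -1, 0, 0, 0, 0], 0),
    (true, [0, 1, 4, 0, 1, 4, 9, 16, 4, 1, 0, 0, 1, 4, 0, 0, 0, 0], 1),
    (true, [4, 1, 0, 16, 9, 4, 1, 0, 0, 1, 4, 0, 1, 4, 0, 0, 0, 0], 1),
    (true, [0, 0, 0, 0, 0, 0, 0, 0, 0, 0, 0, 0, 0, 0, 0, 0, 0, 1], 1),
    (false, [4, 1, 0, 16, 9, 4, 1, 0, 0, 1, 4, 0, 1, 4, 0, 0, 0, -8], 0),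
    (true, [0, 0, 0, 1, 1, 0, 0, 0, 0, 0, 0, 0, 0, 0, 0, 0, 0, 0], 1)]
  moves := D0_moves0
  reqs := D0_reqs0
  tree := D0_0_2_0_tree

theorem D0_0_2_0_ok : D0.instOK 0 2 0 D0_0_2_0 = true := by
  decide +kernel

def D0_0_3_0_tree : Tree :=
  (.fk [(3, 1), (9, 2), (13, -1), (14, 2)])

def D0_0_3_0 : Inst where
  rows :=
   [(false, [1, 1, 1, 0, 0, 0, 0, 0, 0, 0, 0, 0, 0, 0, 0, 0, 0, -1], 0),
    (false, [0, 0, 0, 1, 1, 1, 1, 1, 0, 0, 0, 0, 0, 0, 0, 0, 0, -1], 0),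
    (false, [0, 0, 0, 0, 0, 0, 0, 0, 1, 1, 1, 0, 0, 0, 0, 0, 0, -1], 0),
    (false, [0, 1, 4, 4, 1, 0, 1, 4, 0, 1, 4, 0, 1, 4, 0, 0, 0, -8], 0),
    (false, [4, 1, 0, 4, 1, 0, 1, 4, 4, 1, 0, 0, 1, 4, 0, 0, 0, -8], 0),
    (false, [-1, -1, -1, 1, 1, 1, 1, 1, -1, -1, -1, 1, 1, 1, -1, 0, 0, 0], 0),
    (false, [1, 1, 1, -1, -1, -1, -1, -1, -1, -1, -1, 1, 1, 1, 0, -1, 0, 0], 0),
    (false, [-1, 0, 1, -1, 0, 1, 0, -1, -1, 0, 1, 1, 0, -1, 0, 0, -1, 0], 0),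
    (true, [-1, -1, -1, -1, -1, -1, -1, -1, 1, 1, 1, 1, 1, 1, 0, 0, 0, 0], 0),
    (true, [1, 0, -1, -1, 0, 1, 0, -1, 1, 0, -1, 1, 0, -1, 0, 0, 0, 0], 0),
    (true, [0, 1, 4, 0, 1, 4, 9, 16, 4, 1, 0, 0, 1, 4, 0, 0, 0, 0], 1),
    (true, [4, 1, 0, 16, 9, 4, 1, 0, 0, 1, 4, 0, 1, 4, 0, 0, 0, 0], 1),
    (true, [0, 0, 0, 0, 0, 0, 0, 0, 0, 0, 0, 0, 0, 0, 0, 0, 0, 1], 1),
    (false, [4, 1, 0, 16, 9, 4, 1, 0, 0, 1, 4, 0, 1, 4, 0, 0, 0, -8], 0),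
    (true, [1, 0, -1, 0, 0, 1, 0, -1, -1, 0, 1, -1, 0, 1, 0, 0, 0, 0], 1)]
  moves := D0_moves0
  reqs := D0_reqs0
  tree := D0_0_3_0_tree

theorem D0_0_3_0_ok : D0.instOK 0 3 0 D0_0_3_0 = true := by
  decide +kernel

theorem D0_ok0 : ∀ b ∈ D0.branches, ∃ I : Inst, D0.instOK 0 b.1 b.2 I = true := by
  intro b hb
  have h : b = (0, 0) ∨ b = (1, 0) ∨ b = (2, 0) ∨ b = (3, 0) := by
    have hb2 : b ∈ [(0, 0), (1, 0), (2, 0), (3, 0)] := hb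
    simpa using hb2
  rcases h with rfl | rfl | rfl | rfl
  · exact ⟨D0_0_0_0, D0_0_0_0_ok⟩
  · exact ⟨D0_0_1_0, D0_0_1_0_ok⟩
  · exact ⟨D0_0_2_0, D0_0_2_0_ok⟩
  · exact ⟨D0_0_3_0, D0_0_3_0_ok⟩

end Pool.Agent.helper1.CAD
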