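import Pool.Agent.helper1.CAD.Sound

namespace Pool.Agent.helper1.CAD

set_option maxRecDepth 100000

def D1 : Spec where
  K := .D
  tys := [(2, 2, [1], 0), (2, 0, [1], 0), (0, 2, [1], 0), (1, 1, [0], 1), (1, 0, [0], 1), (0, 1, [0], 1)]
  kc := ([4], 1)
  pmin := [0]
  sl := (0, -1)
  good := true
  pv := 0
  px := 0
  pvx := 0

def D1_moves0 : List Move :=
   [([((0, 2, 0), -2)], 0),
    ([((0, 1, 0), -1)], 0),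
    ([((1, 1, 2), 0), ((1, 0, 2), 1)], 0),
    ([((1, 1, -1), 0), ((1, 0, -1), 1)], 0),
    ([((0, 2, 2), 0), ((0, 0, 2), 2)], 0),
    ([((0, 2, 1), -1), ((0, 1, -1), -2)], 0),
    ([((0, 2, 2), 1), ((0, 1, 2), 2)], 0),
    ([((0, 2, 1), 0), ((0, 0, 1), 2)], 0),
    ([((0, 2, 1), 1), ((0, 1, 1), 2)], 0),
    ([((2, 2, 0), 0), ((2, 0, 0), 2)], 0),
    ([((1, 1, 0), 0), ((1, 0, 0), 1)], 0),
    ([((0, 1, -1), 0), ((0, 0, 1), -1)], 0),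
    ([((0, 1, -1), -1), ((0, 1, 1), -1)], 0),
    ([((0, 1, 1), 0), ((0, 0, 1), 1)], 0),
    ([((1, 1, 1), 0), ((1, 0, 1), 1)], 0),
    ([((2, 2, 1), 0), ((2, 0, 1), 2)], 0),
    ([((2, 0, 1), 1), ((1, 1, 0), -1), ((0, 1, 1), 0)], 0),
    ([((0, 2, 1), 0), ((1, 1, -1), -1), ((1, 0, 0), 2)], 0),
    ([((2, 0, 2), 1), ((1, 1, 0), -1), ((0, 1, 2), 0)], 0),
    ([((0, 2, 2), 0), ((1, 1, 2), 2), ((1, 0, -2), -1)], 0),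
    ([((1, 1, 1), 0), ((1, 0, -1), 1), ((0, 1, -1), -1)], 0),
    ([((2, 0, 1), 1), ((1, 1, 1), -1), ((0, 1, -1), 0)], 0),
    ([((2, 0, -1), 1), ((1, 1, -1), -1), ((0, 1, 1), 0)], 0),
    ([((0, 2, 2), 0), ((1, 1, 0), -1), ((1, 0, 2), 2)], 0),
    ([((1, 1, 2), 0), ((1, 0, 0), 1), ((0, 1, -1), -1)], 0),
    ([((0, 2, 1), 0), ((1, 1, 1), -1), ((1, 0, 2), 2)], 0),
    ([((0, 2, 1), 0), ((1, 1, 2), 2), ((1, 0, 0), -1)], 0),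
    ([((1, 1, -1), 0), ((1, 0, 1), 1), ((0, 1, 1), -1)], 0),
    ([((0, 2, 1), 0), ((0, 1, 2), 2), ((0, 0, 0), -1)], 0),
    ([((1, 1, 0), 0), ((1, 0, 2), 1), ((0, 1, 1), -1)], 0),
    ([((0, 2, 2), 0), ((1, 1, -1), -1), ((1, 0, 1), 2)], 0),
    ([((2, 2, 2), 0), ((2, 0, 1), 2), ((0, 1, -1), -1)], 0),
    ([((0, 2, 1), 0), ((1, 1, 1), 2), ((1, 0, -1), -1)], 0),
    ([((2, 2, 1), 0), ((2, 0, 0), 2), ((0, 1, -1), -1)], 0),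
    ([((2, 2, 1), 1), ((1, 0, 0), 2), ((0, 1, -1), 0)], 0),
    ([((0, 2, 1), 1), ((1, 1, 1), 0), ((1, 0, 0), 1), ((0, 1, 2), 2)], 0),
    ([((0, 2, 1), 1), ((1, 1, 1), 2), ((1, 0, -2), -1), ((0, 1, 2), 0)], 0),
    ([((0, 2, 2), 0), ((1, 1, 1), -1), ((1, 0, 2), 2), ((0, 1, -1), -1)], 0),
    ([((0, 2, 2), 0), ((0, 1, -1), -1), ((0, 1, -1), -1), ((0, 0, 0), -2)], 0),
    ([((0, 2, 2), 1), ((1, 1, 2), 0), ((1, 0, 1), 1), ((0, 1, -1), -2)], 0),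
    ([((0, 2, 2), 1), ((1, 1, 0), 0), ((1, 0, 1), 1), ((0, 1, 1), 2)], 0),
    ([((2, 2, 1), 1), ((0, 2, 2), 0), ((1, 0, 1), 2), ((0, 1, -1), -2)], 0),
    ([((0, 2, 2), 1), ((1, 1, 0), 0), ((1, 0, -1), 1), ((0, 1, -1), -2)], 0),
    ([((0, 2, 2), 0), ((1, 1, 0), 2), ((1, 0, -2), -1), ((0, 1, -1), -1)], 0),
    ([((0, 2, 2), 0), ((1, 1, 0), -1), ((1, 0, 1), 2), ((0, 1, -1), -1)], 0),
    ([((0, 2, 2), 0), ((1, 1, -1), -1), ((1, 0, 0), 2), ((0, 1, -1), -1)], 0),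
    ([((2, 0, 1), 1), ((0, 2, 2), 0), ((1, 1, 0), -1), ((0, 1, -1), -2)], 0),
    ([((2, 0, 1), 1), ((0, 2, 2), 0), ((1, 1, -1), -1), ((0, 1, 1), 2)], 0),
    ([((2, 0, 2), 1), ((0, 2, 1), 0), ((1, 1, 1), -1), ((0, 1, 2), 2)], 0),
    ([((2, 0, 0), 1), ((1, 1, 0), 0), ((1, 0, -1), -1), ((0, 1, 1), 0)], 0),
    ([((2, 2, 0), 0), ((2, 0, -1), 1), ((1, 0, 0), 2), ((0, 1, -1), 0)], 0),
    ([((2, 0, -1), 1), ((0, 2, 2), 0), ((1, 1, -1), -1), ((0, 1, -1), -2)], 0),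
    ([((2, 0, -1), 1), ((1, 1, 0), 0), ((1, 0, -2), -1), ((0, 1, 1), 0)], 0),
    ([((1, 1, 0), 0), ((1, 0, -1), 1), ((0, 1, 1), 0), ((0, 0, 2), 1)], 0),
    ([((2, 2, 0), 0), ((2, 0, 2), 2), ((0, 2, 2), 0), ((0, 0, 0), -2)], 0),
    ([((2, 2, 0), 1), ((0, 2, 2), 0), ((1, 1, 2), 2), ((1, 0, -1), 1), ((0, 1, -1), -2)], 0),
    ([((2, 0, 2), 1), ((0, 2, 2), 0), ((1, 1, 0), 0), ((1, 0, -1), -1), ((0, 1, 1), 2)], 0),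
    ([((0, 2, 2), 0), ((1, 1, 1), 2), ((1, 0, -2), -1), ((0, 1, -1), 0), ((0, 0, 0), -1)], 0)]

def D1_reqs0 : List (List ℤ) :=
   [[0, 0, 0, 0, 0, 0, 0, 0, 1, 0, 0, 0, 0, 0, 0, 0, 0, 0, 0, 0, 0, 0, 0, 0, 0, 0, 0, 0, 0, 0, 0],
    [0, 0, 0, 0, 0, 0, 0, 0, 0, 0, 0, 0, 0, 0, 0, 0, 0, 0, 0, 0, 0, 1, 0, 0, 0, 0, 0, 0, 0, 0, 0],
    [0, 0, 0, 0, 0, 0, 0, 0, 0, 0, 0, 0, 0, 0, 1, 0, 0, 0, 0, 1, 0, 0, 0, 0, 0, 0, 0, 0, 0, 0, 0],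
    [0, 0, 0, 0, 0, 0, 0, 0, 0, 0, 0, 1, 0, 0, 0, 0, 1, 0, 0, 0, 0, 0, 0, 0, 0, 0, 0, 0, 0, 0, 0],
    [0, 0, 0, 0, 0, 0, 0, 0, 0, 0, 1, 0, 0, 0, 0, 0, 0, 0, 0, 0, 0, 0, 0, 0, 0, 0, 1, 0, 0, 0, 0],
    [0, 0, 0, 0, 0, 0, 0, 0, 0, 1, 0, 0, 0, 0, 0, 0, 0, 0, 0, 0, 1, 0, 0, 0, 0, 0, 0, 0, 0, 0, 0],
    [0, 0, 0, 0, 0, 0, 0, 0, 0, 0, 1, 0, 0, 0, 0, 0, 0, 0, 0, 0, 0, 0, 0, 1, 0, 0, 0, 0, 0, 0, 0],
    [0, 0, 0, 0, 0, 0, 0, 0, 0, 1, 0, 0, 0, 0, 0, 0, 0, 0, 0, 0, 0, 0, 0, 0, 0, 1, 0, 0, 0, 0, 0],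
    [0, 0, 0, 0, 0, 0, 0, 0, 0, 1, 0, 0, 0, 0, 0, 0, 0, 0, 0, 0, 0, 0, 1, 0, 0, 0, 0, 0, 0, 0, 0],
    [1, 0, 0, 0, 0, 1, 0, 0, 0, 0, 0, 0, 0, 0, 0, 0, 0, 0, 0, 0, 0, 0, 0, 0, 0, 0, 0, 0, 0, 0, 0],
    [0, 0, 0, 0, 0, 0, 0, 0, 0, 0, 0, 0, 1, 0, 0, 0, 0, 1, 0, 0, 0, 0, 0, 0, 0, 0, 0, 0, 0, 0, 0],
    [0, 0, 0, 0, 0, 0, 0, 0, 0, 0, 0, 0, 0, 0, 0, 0, 0, 0, 0, 0, 1, 0, 0, 0, 0, 1, 0, 0, 0, 0, 0],
    [0, 0, 0, 0, 0, 0, 0, 0, 0, 0, 0, 0, 0, 0, 0, 0, 0, 0, 0, 0, 1, 0, 1, 0, 0, 0, 0, 0, 0, 0, 0],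
    [0, 0, 0, 0, 0, 0, 0, 0, 0, 0, 0, 0, 0, 0, 0, 0, 0, 0, 0, 0, 0, 0, 1, 0, 0, 1, 0, 0, 0, 0, 0],
    [0, 0, 0, 0, 0, 0, 0, 0, 0, 0, 0, 0, 0, 1, 0, 0, 0, 0, 1, 0, 0, 0, 0, 0, 0, 0, 0, 0, 0, 0, 0],
    [0, 1, 0, 0, 0, 0, 1, 0, 0, 0, 0, 0, 0, 0, 0, 0, 0, 0, 0, 0, 0, 0, 0, 0, 0, 0, 0, 0, 0, 0, 0],
    [0, 0, 0, 0, 0, 0, 1, 0, 0, 0, 0, 0, 1, 0, 0, 0, 0, 0, 0, 0, 0, 0, 1, 0, 0, 0, 0, 0, 0, 0, 0],
    [0, 0, 0, 0, 0, 0, 0, 0, 0, 1, 0, 1, 0, 0, 0, 0, 0, 1, 0, 0, 0, 0, 0, 0, 0, 0, 0, 0, 0, 0, 0],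
    [0, 0, 0, 0, 0, 0, 0, 1, 0, 0, 0, 0, 1, 0, 0, 0, 0, 0, 0, 0, 0, 0, 0, 1, 0, 0, 0, 0, 0, 0, 0],
    [0, 0, 0, 0, 0, 0, 0, 0, 0, 0, 1, 0, 0, 0, 1, 1, 0, 0, 0, 0, 0, 0, 0, 0, 0, 0, 0, 0, 0, 0, 0],
    [0, 0, 0, 0, 0, 0, 0, 0, 0, 0, 0, 0, 0, 1, 0, 0, 1, 0, 0, 0, 1, 0, 0, 0, 0, 0, 0, 0, 0, 0, 0],
    [0, 0, 0, 0, 0, 0, 1, 0, 0, 0, 0, 0, 0, 1, 0, 0, 0, 0, 0, 0, 1, 0, 0, 0, 0, 0, 0, 0, 0, 0, 0],
    [0, 0, 0, 0, 1, 0, 0, 0, 0, 0, 0, 1, 0, 0, 0, 0, 0, 0, 0, 0, 0, 0, 1, 0, 0, 0, 0, 0, 0, 0, 0],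
    [0, 0, 0, 0, 0, 0, 0, 0, 0, 0, 1, 0, 1, 0, 0, 0, 0, 0, 0, 1, 0, 0, 0, 0, 0, 0, 0, 0, 0, 0, 0],
    [0, 0, 0, 0, 0, 0, 0, 0, 0, 0, 0, 0, 0, 0, 1, 0, 0, 1, 0, 0, 1, 0, 0, 0, 0, 0, 0, 0, 0, 0, 0],
    [0, 0, 0, 0, 0, 0, 0, 0, 0, 1, 0, 0, 0, 1, 0, 0, 0, 0, 0, 1, 0, 0, 0, 0, 0, 0, 0, 0, 0, 0, 0],
    [0, 0, 0, 0, 0, 0, 0, 0, 0, 1, 0, 0, 0, 0, 1, 0, 0, 1, 0, 0, 0, 0, 0, 0, 0, 0, 0, 0, 0, 0, 0],
    [0, 0, 0, 0, 0, 0, 0, 0, 0, 0, 0, 1, 0, 0, 0, 0, 0, 0, 1, 0, 0, 0, 1, 0, 0, 0, 0, 0, 0, 0, 0],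
    [0, 0, 0, 0, 0, 0, 0, 0, 0, 1, 0, 0, 0, 0, 0, 0, 0, 0, 0, 0, 0, 0, 0, 1, 1, 0, 0, 0, 0, 0, 0],
    [0, 0, 0, 0, 0, 0, 0, 0, 0, 0, 0, 0, 1, 0, 0, 0, 0, 0, 0, 1, 0, 0, 1, 0, 0, 0, 0, 0, 0, 0, 0],
    [0, 0, 0, 0, 0, 0, 0, 0, 0, 0, 1, 1, 0, 0, 0, 0, 0, 0, 1, 0, 0, 0, 0, 0, 0, 0, 0, 0, 0, 0, 0],
    [0, 0, 1, 0, 0, 0, 1, 0, 0, 0, 0, 0, 0, 0, 0, 0, 0, 0, 0, 0, 1, 0, 0, 0, 0, 0, 0, 0, 0, 0, 0],
    [0, 0, 0, 0, 0, 0, 0, 0, 0, 1, 0, 0, 0, 1, 0, 0, 1, 0, 0, 0, 0, 0, 0, 0, 0, 0, 0, 0, 0, 0, 0],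
    [0, 1, 0, 0, 0, 1, 0, 0, 0, 0, 0, 0, 0, 0, 0, 0, 0, 0, 0, 0, 1, 0, 0, 0, 0, 0, 0, 0, 0, 0, 0],
    [0, 1, 0, 0, 0, 0, 0, 0, 0, 0, 0, 0, 0, 0, 0, 0, 0, 1, 0, 0, 1, 0, 0, 0, 0, 0, 0, 0, 0, 0, 0],
    [0, 0, 0, 0, 0, 0, 0, 0, 0, 1, 0, 0, 0, 1, 0, 0, 0, 1, 0, 0, 0, 0, 0, 1, 0, 0, 0, 0, 0, 0, 0],
    [0, 0, 0, 0, 0, 0, 0, 0, 0, 1, 0, 0, 0, 1, 0, 1, 0, 0, 0, 0, 0, 0, 0, 1, 0, 0, 0, 0, 0, 0, 0],
    [0, 0, 0, 0, 0, 0, 0, 0, 0, 0, 1, 0, 0, 1, 0, 0, 0, 0, 0, 1, 1, 0, 0, 0, 0, 0, 0, 0, 0, 0, 0],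
    [0, 0, 0, 0, 0, 0, 0, 0, 0, 0, 1, 0, 0, 0, 0, 0, 0, 0, 0, 0, 2, 0, 0, 0, 1, 0, 0, 0, 0, 0, 0],
    [0, 0, 0, 0, 0, 0, 0, 0, 0, 0, 1, 0, 0, 0, 1, 0, 0, 0, 1, 0, 1, 0, 0, 0, 0, 0, 0, 0, 0, 0, 0],
    [0, 0, 0, 0, 0, 0, 0, 0, 0, 0, 1, 0, 1, 0, 0, 0, 0, 0, 1, 0, 0, 0, 1, 0, 0, 0, 0, 0, 0, 0, 0],
    [0, 1, 0, 0, 0, 0, 0, 0, 0, 0, 1, 0, 0, 0, 0, 0, 0, 0, 1, 0, 1, 0, 0, 0, 0, 0, 0, 0, 0, 0, 0],
    [0, 0, 0, 0, 0, 0, 0, 0, 0, 0, 1, 0, 1, 0, 0, 0, 1, 0, 0, 0, 1, 0, 0, 0, 0, 0, 0, 0, 0, 0, 0],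
    [0, 0, 0, 0, 0, 0, 0, 0, 0, 0, 1, 0, 1, 0, 0, 1, 0, 0, 0, 0, 1, 0, 0, 0, 0, 0, 0, 0, 0, 0, 0],
    [0, 0, 0, 0, 0, 0, 0, 0, 0, 0, 1, 0, 1, 0, 0, 0, 0, 0, 1, 0, 1, 0, 0, 0, 0, 0, 0, 0, 0, 0, 0],
    [0, 0, 0, 0, 0, 0, 0, 0, 0, 0, 1, 1, 0, 0, 0, 0, 0, 1, 0, 0, 1, 0, 0, 0, 0, 0, 0, 0, 0, 0, 0],
    [0, 0, 0, 0, 0, 0, 1, 0, 0, 0, 1, 0, 1, 0, 0, 0, 0, 0, 0, 0, 1, 0, 0, 0, 0, 0, 0, 0, 0, 0, 0],
    [0, 0, 0, 0, 0, 0, 1, 0, 0, 0, 1, 1, 0, 0, 0, 0, 0, 0, 0, 0, 0, 0, 1, 0, 0, 0, 0, 0, 0, 0, 0],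
    [0, 0, 0, 0, 0, 0, 0, 1, 0, 1, 0, 0, 0, 1, 0, 0, 0, 0, 0, 0, 0, 0, 0, 1, 0, 0, 0, 0, 0, 0, 0],
    [0, 0, 0, 0, 0, 1, 0, 0, 0, 0, 0, 0, 1, 0, 0, 0, 1, 0, 0, 0, 0, 0, 1, 0, 0, 0, 0, 0, 0, 0, 0],
    [1, 0, 0, 0, 1, 0, 0, 0, 0, 0, 0, 0, 0, 0, 0, 0, 0, 1, 0, 0, 1, 0, 0, 0, 0, 0, 0, 0, 0, 0, 0],
    [0, 0, 0, 0, 1, 0, 0, 0, 0, 0, 1, 1, 0, 0, 0, 0, 0, 0, 0, 0, 1, 0, 0, 0, 0, 0, 0, 0, 0, 0, 0],
    [0, 0, 0, 0, 1, 0, 0, 0, 0, 0, 0, 0, 1, 0, 0, 1, 0, 0, 0, 0, 0, 0, 1, 0, 0, 0, 0, 0, 0, 0, 0],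
    [0, 0, 0, 0, 0, 0, 0, 0, 0, 0, 0, 0, 1, 0, 0, 0, 1, 0, 0, 0, 0, 0, 1, 0, 0, 0, 1, 0, 0, 0, 0],
    [1, 0, 0, 0, 0, 0, 0, 1, 0, 0, 1, 0, 0, 0, 0, 0, 0, 0, 0, 0, 0, 0, 0, 0, 1, 0, 0, 0, 0, 0, 0],
    [1, 0, 0, 0, 0, 0, 0, 0, 0, 0, 1, 0, 0, 0, 1, 0, 1, 0, 0, 0, 1, 0, 0, 0, 0, 0, 0, 0, 0, 0, 0],
    [0, 0, 0, 0, 0, 0, 0, 1, 0, 0, 1, 0, 1, 0, 0, 0, 1, 0, 0, 0, 0, 0, 1, 0, 0, 0, 0, 0, 0, 0, 0],
    [0, 0, 0, 0, 0, 0, 0, 0, 0, 0, 1, 0, 0, 1, 0, 1, 0, 0, 0, 0, 1, 0, 0, 0, 1, 0, 0, 0, 0, 2, 0]]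

def D1_base0 : List Row :=
   [(false, [1, 1, 1, 0, 0, 0, 0, 0, 0, 0, 0, 0, 0, 0, 0, 0, 0, 0, 0, 0, 0, 0, 0, 0, 0, 0, 0, 0, 0, 0, -1], 0),
    (false, [0, 0, 0, 1, 1, 1, 1, 1, 0, 0, 0, 0, 0, 0, 0, 0, 0, 0, 0, 0, 0, 0, 0, 0, 0, 0, 0, 0, 0, 0, -1], 0),
    (false, [0, 0, 0, 0, 0, 0, 0, 0, 1, 1, 1, 0, 0, 0, 0, 0, 0, 0, 0, 0, 0, 0, 0, 0, 0, 0, 0, 0, 0, 0, -1], 0),
    (false, [0, 0, 0, 0, 0, 0, 0, 0, 0, 0, 0, 1, 1, 1, 1, 0, 0, 0, 0, 0, 0, 0, 0, 0, 0, 0, 0, 0, 0, 0, 0], 1),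
    (false, [0, 0, 0, 0, 0, 0, 0, 0, 0, 0, 0, 0, 0, 0, 0, 1, 1, 1, 1, 1, 0, 0, 0, 0, 0, 0, 0, 0, 0, 0, 0], 1),
    (false, [0, 0, 0, 0, 0, 0, 0, 0, 0, 0, 0, 0, 0, 0, 0, 0, 0, 0, 0, 0, 1, 1, 1, 1, 0, 0, 0, 0, 0, 0, 0], 1),
    (false, [0, 1, 4, 4, 1, 0, 1, 4, 0, 1, 4, 1, 0, 1, 4, 4, 1, 0, 1, 4, 1, 0, 1, 4, 0, 1, 4, 0, 0, 0, -8], 2),
    (false, [4, 1, 0, 4, 1, 0, 1, 4, 4, 1, 0, 4, 1, 0, 1, 4, 1, 0, 1, 4, 4, 1, 0, 1, 0, 1, 4, 0, 0, 0, -8], 2),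
    (false, [-1, -1, -1, 1, 1, 1, 1, 1, -1, -1, -1, 0, 0, 0, 0, 1, 1, 1, 1, 1, 0, 0, 0, 0, 1, 1, 1, -1, 0, 0, 0], 0),
    (false, [1, 1, 1, -1, -1, -1, -1, -1, -1, -1, -1, 1, 1, 1, 1, 0, 0, 0, 0, 0, 0, 0, 0, 0, 1, 1, 1, 0, -1, 0, 0], 0),
    (false, [-1, 0, 1, -1, 0, 1, 0, -1, -1, 0, 1, -1, 0, 1, 0, -1, 0, 1, 0, -1, -1, 0, 1, 0, 1, 0, -1, 0, 0, -1, 0], 0),
    (true, [-1, -1, -1, -1, -1, -1, -1, -1, 1, 1, 1, 0, 0, 0, 0, 0, 0, 0, 0, 0, 1, 1, 1, 1, 1, 1, 1, 0, 0, 0, 0], 0),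
    (true, [1, 0, -1, -1, 0, 1, 0, -1, 1, 0, -1, 0, 1, 0, -1, -1, 0, 1, 0, -1, 0, 1, 0, -1, 1, 0, -1, 0, 0, 0, 0], 0),
    (true, [0, 1, 4, 0, 1, 4, 9, 16, 4, 1, 0, 1, 0, 1, 4, 1, 0, 1, 4, 9, 4, 1, 0, 1, 0, 1, 4, 0, 0, 0, 0], 1),
    (true, [4, 1, 0, 16, 9, 4, 1, 0, 0, 1, 4, 4, 1, 0, 1, 9, 4, 1, 0, 1, 1, 0, 1, 4, 0, 1, 4, 0, 0, 0, 0], 1),
    (true, [0, 0, 0, 0, 0, 0, 0, 0, 0, 0, 0, 0, 0, 0, 0, 0, 0, 0, 0, 0, 0, 0, 0, 0, 0, 0, 0, 0, 0, 0, 1], 0)]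

def D1_0_0_0_tree : Tree :=
  (.br 8 0
  (.br 21 0
   (.br 20 0
    (.br 22 0
     (.br 9 0
      (.br 10 0
       (.fk [(0, -4), (2, 20), (3, -1), (5, 11), (6, -3), (7, 1)])
       (.br 23 0
        (.fk [(5, 1)])
        (.mv 6)))
      (.br 24 0
       (.br 25 0
        (.br 13 0
         (.br 12 0
          (.br 11 0
           (.fk [(0, -12), (1, -16), (2, -4), (3, 5), (4, -16), (5, 5), (6, -3), (7, 7), (10, 16)])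
           (.br 17 0
            (.fk [(0, -4), (1, -8), (2, -4), (3, -5), (4, -2), (5, -1), (6, 1), (7, 1), (10, 4), (12, 4)])
            (.mv 17)))
          (.br 17 0
           (.fk [(0, -16), (1, -28), (2, -12), (3, -16), (4, -7), (5, 5), (6, -4), (7, 11), (10, 28)])
           (.mv 10)))
         (.br 23 0
          (.fk [(3, -1), (5, 1)])
          (.br 17 0
           (.br 19 0
            (.br 18 0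
             (.br 16 0
              (.br 15 0
               (.fk [(0, -34), (1, -52), (2, -18), (3, -46), (4, 5), (5, 5), (6, -6), (7, 19), (10, 47), (12, 5)])
               (.mv 36))
              (.mv 32))
             (.mv 14))
            (.mv 25))
           (.mv 35))))
        (.mv 7))
       (.br 23 0
        (.fk [(5, 1)])
        (.mv 28))))
     (.br 9 0
      (.br 25 0
       (.br 16 0
        (.br 12 0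
         (.br 11 0
          (.fk [(0, -4), (2, 4), (3, 1), (6, -1), (7, 1)])
          (.br 4 0
           (.br 18 0
            (.br 10 0
             (.fk [(0, 4), (2, 36), (3, 4), (6, -4), (7, -1)])
             (.br 5 0
              (.br 6 0
               (.fk [(0, 4), (1, 20), (2, 16), (3, 4), (6, -4), (7, -1)])
               (.mv 47))
              (.br 0 0
               (.fk [(1, -2), (2, 2), (3, -5), (5, -1), (6, -1), (7, 1)])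
               (.mv 9))))
            (.mv 27))
           (.mv 22)))
         (.br 17 0
          (.br 4 0
           (.br 6 0
            (.br 19 0
             (.br 18 0
              (.br 0 0
               (.fk [(0, 20), (1, -184), (2, 500), (3, -229), (4, 146), (5, -21), (6, -125), (7, 83), (13, 22)])
               (.br 5 0
                (.fk [(0, 4), (1, 16), (2, 12), (3, -15), (4, 16), (5, -13), (6, -3), (7, -1)])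
                (.mv 9)))
              (.br 10 0
               (.fk [(0, -12), (1, -108), (2, 296), (3, -21), (4, 18), (5, -7), (6, -25), (7, -11), (16, 14)])
               (.mv 40)))
             (.mv 29))
            (.mv 16))
           (.br 15 0
            (.br 10 0
             (.fk [(0, -4), (1, -24), (2, 28), (3, -3), (4, 2), (5, -3), (6, -1), (7, -1), (16, 2)])
             (.br 18 0
              (.br 19 0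
               (.fk [(3, -1), (4, 1), (5, -1)])
               (.mv 23))
              (.mv 40)))
            (.mv 52)))
          (.mv 10)))
        (.br 11 0
         (.br 12 0
          (.fk [(0, -4), (2, 4), (3, 1), (4, -1), (6, -1), (7, 1)])
          (.br 17 0
           (.br 6 0
            (.br 19 0
             (.br 5 0
              (.br 26 0
               (.br 7 0
                (.fk [(0, -4), (1, -4), (3, -5), (4, -5), (5, -4), (7, 1), (13, 1)])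
                (.br 10 0
                 (.fk [(0, -4), (1, -16), (2, 28), (3, -3), (4, -3), (5, -4), (7, -1), (13, 1)])
                 (.mv 56)))
               (.mv 53))
              (.mv 49))
             (.mv 29))
            (.mv 16))
           (.mv 10)))
         (.mv 3)))
       (.mv 13))
      (.mv 8)))
    (.br 9 0
     (.br 25 0
      (.br 22 0
       (.br 12 0
        (.br 13 0
         (.br 1 0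
          (.br 6 0
           (.br 10 0
            (.fk [(0, -6), (1, -6), (2, 84), (3, 15), (5, 15), (6, -2), (7, -7)])
            (.br 11 0
             (.br 14 0
              (.fk [(3, 1), (5, -1)])
              (.br 18 0
               (.br 17 0
                (.br 15 0
                 (.br 0 0
                  (.fk [(0, 36), (2, 28), (3, 8), (4, 8), (5, -3), (6, -9), (7, 1)])
                  (.br 5 0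
                   (.br 16 0
                    (.br 19 0
                     (.fk [(0, -8), (2, 8), (3, 3), (4, 3), (5, -9), (6, -2), (7, 2)])
                     (.mv 2))
                    (.mv 55))
                   (.mv 9)))
                 (.mv 19))
                (.mv 24))
               (.mv 39)))
             (.br 17 0
              (.br 5 0
               (.br 18 0
                (.br 4 0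
                 (.fk [(0, 8), (1, 16), (2, 8), (3, 5), (4, 4), (5, 5), (6, -2), (7, -2)])
                 (.mv 51))
                (.mv 30))
               (.br 0 0
                (.fk [(0, 48), (1, -4), (2, 44), (3, 4), (4, 4), (5, 4), (6, -12), (7, 1)])
                (.mv 9)))
              (.mv 45))))
           (.br 2 0
            (.br 10 0
             (.fk [(0, -7), (1, -6), (2, 85), (3, 15), (5, 15), (6, -2), (7, -7)])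
             (.br 14 0
              (.fk [(0, 4), (2, -4), (3, 3), (5, -3), (6, 1), (7, -1)])
              (.br 17 0
               (.br 19 0
                (.br 18 0
                 (.br 15 0
                  (.br 0 0
                   (.fk [(0, 34), (1, -1), (2, -1), (3, 5), (4, 4), (5, 5), (6, -2), (7, -2)])
                   (.br 16 0
                    (.fk [(0, -4), (2, 4), (3, -3), (4, 6), (5, -9), (6, -1), (7, 1)])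
                    (.mv 55)))
                  (.mv 19))
                 (.mv 39))
                (.mv 2))
               (.mv 24))))
            (.mv 31)))
          (.br 17 0
           (.br 6 0
            (.br 5 0
             (.br 10 0
              (.fk [(0, -6), (1, -15), (2, 93), (3, 15), (4, 9), (5, 15), (6, -2), (7, -7)])
              (.br 18 0
               (.br 4 0
                (.fk [(1, 4), (2, 4), (3, 1), (4, 1), (6, -1)])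
                (.br 11 0
                 (.fk [(0, -4), (2, 4), (3, 3), (5, -6), (6, -1), (7, 1)])
                 (.mv 51)))
               (.mv 41)))
             (.mv 33))
            (.mv 15))
           (.mv 34)))
         (.br 18 0
          (.br 16 0
           (.br 6 0
            (.br 0 0
             (.br 17 0
              (.fk [(0, 4), (2, 28), (3, -9), (4, 16), (5, -21), (6, -7), (7, 3)])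
              (.br 1 0
               (.fk [(0, 36), (1, -4), (2, 32), (3, 5), (4, -5), (5, 4), (6, -9), (16, 1)])
               (.mv 34)))
             (.br 5 0
              (.br 17 0
               (.br 10 0
                (.fk [(0, -136), (1, -253), (2, 925), (3, 16), (4, 68), (5, 68), (6, -84), (7, -23), (16, 40)])
                (.br 19 0
                 (.br 26 0
                  (.br 23 0
                   (.br 15 0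
                    (.fk [(3, -1), (4, 1), (5, -1)])
                    (.br 14 0
                     (.br 24 0
                      (.fk [(0, 78), (1, -12), (2, 46), (3, -6), (4, 11), (5, 11), (6, -5), (7, -9), (8, 45), (11, 19), (12, 11)])
                      (.br 20 1
                       (.br 7 0
                        (.br 4 0
                         (.fk [(0, 8), (1, 32), (2, 24), (3, -1), (4, 7), (5, 7), (6, -6), (7, -2)])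
                         (.br 11 0
                          (.br 29 0
                           (.fk [(0, -2), (2, 2), (3, 1), (4, -1), (5, -1), (6, 1), (7, -1), (10, -3), (12, 3)])
                           (.br 29 1
                            (.br 13 1
                             (.br 24 1
                              (.fk [(0, -28), (1, -8), (2, -28), (3, -91), (4, 24), (5, -15), (6, -13), (7, 21), (10, 80)])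
                              (.br 27 0
                               (.fk [(0, -14), (1, 8), (2, -10), (3, -9), (4, 3), (5, -5), (6, 1), (7, 1), (8, -8), (9, 2), (10, 3), (12, 3)])
                               (.br 27 1
                                (.br 1 0
                                 (.fk [(0, 40), (1, -16), (2, 40), (3, 11), (4, -27), (5, 3), (6, 2), (7, -10), (8, 24), (10, -24)])
                                 (.fk [(0, -4), (2, 4), (3, -3), (4, -4), (5, -7), (6, -1), (7, 1)]))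
                                (.fk [(0, 4), (1, -2), (2, 6), (4, -5), (5, -2), (7, -1), (8, 3), (10, -3)]))))
                             (.fk [(3, -1), (4, -1), (5, -1)]))
                            (.mv 57)))
                          (.mv 51)))
                        (.mv 54))
                       (.mv 38)))
                     (.mv 19)))
                   (.mv 6))
                  (.mv 4))
                 (.mv 37)))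
               (.br 1 0
                (.br 4 0
                 (.fk [(0, 8), (1, 16), (2, 8), (3, -3), (4, -5), (5, 5), (6, -2), (7, -2)])
                 (.mv 50))
                (.mv 34)))
              (.mv 9)))
            (.mv 21))
           (.mv 20))
          (.mv 14)))
        (.br 10 0
         (.fk [(0, 8), (2, 64), (3, -8), (5, 15), (6, -2), (7, -7)])
         (.br 15 0
          (.br 6 0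
           (.br 17 0
            (.br 18 0
             (.br 16 0
              (.br 19 0
               (.fk [(3, -1), (4, 1), (5, -1)])
               (.mv 23))
              (.mv 42))
             (.mv 44))
            (.mv 10))
           (.mv 46))
          (.mv 43))))
       (.mv 12))
      (.mv 11))
     (.mv 5)))
   (.mv 1))
  (.mv 0))

def D1_0_0_0 : Inst where
  rows :=
   [(false, [1, 1, 1, 0, 0, 0, 0, 0, 0, 0, 0, 0, 0, 0, 0, 0, 0, 0, 0, 0, 0, 0, 0, 0, 0, 0, 0, 0, 0, 0, -1], 0),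
    (false, [0, 0, 0, 1, 1, 1, 1, 1, 0, 0, 0, 0, 0, 0, 0, 0, 0, 0, 0, 0, 0, 0, 0, 0, 0, 0, 0, 0, 0, 0, -1], 0),
    (false, [0, 0, 0, 0, 0, 0, 0, 0, 1, 1, 1, 0, 0, 0, 0, 0, 0, 0, 0, 0, 0, 0, 0, 0, 0, 0, 0, 0, 0, 0, -1], 0),
    (false, [0, 0, 0, 0, 0, 0, 0, 0, 0, 0, 0, 1, 1, 1, 1, 0, 0, 0, 0, 0, 0, 0, 0, 0, 0, 0, 0, 0, 0, 0, 0], 1),
    (false, [0, 0, 0, 0, 0, 0, 0, 0, 0, 0, 0, 0, 0, 0, 0, 1, 1, 1, 1, 1, 0, 0, 0, 0, 0, 0, 0, 0, 0, 0, 0], 1),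
    (false, [0, 0, 0, 0, 0, 0, 0, 0, 0, 0, 0, 0, 0, 0, 0, 0, 0, 0, 0, 0, 1, 1, 1, 1, 0, 0, 0, 0, 0, 0, 0], 1),
    (false, [0, 1, 4, 4, 1, 0, 1, 4, 0, 1, 4, 1, 0, 1, 4, 4, 1, 0, 1, 4, 1, 0, 1, 4, 0, 1, 4, 0, 0, 0, -8], 2),
    (false, [4, 1, 0, 4, 1, 0, 1, 4, 4, 1, 0, 4, 1, 0, 1, 4, 1, 0, 1, 4, 4, 1, 0, 1, 0, 1, 4, 0, 0, 0, -8], 2),
    (false, [-1, -1, -1, 1, 1, 1, 1, 1, -1, -1, -1, 0, 0, 0, 0, 1, 1, 1, 1, 1, 0, 0, 0, 0, 1, 1, 1, -1, 0, 0, 0], 0),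
    (false, [1, 1, 1, -1, -1, -1, -1, -1, -1, -1, -1, 1, 1, 1, 1, 0, 0, 0, 0, 0, 0, 0, 0, 0, 1, 1, 1, 0, -1, 0, 0], 0),
    (false, [-1, 0, 1, -1, 0, 1, 0, -1, -1, 0, 1, -1, 0, 1, 0, -1, 0, 1, 0, -1, -1, 0, 1, 0, 1, 0, -1, 0, 0, -1, 0], 0),
    (true, [-1, -1, -1, -1, -1, -1, -1, -1, 1, 1, 1, 0, 0, 0, 0, 0, 0, 0, 0, 0, 1, 1, 1, 1, 1, 1, 1, 0, 0, 0, 0], 0),
    (true, [1, 0, -1, -1, 0, 1, 0, -1, 1, 0, -1, 0, 1, 0, -1, -1, 0, 1, 0, -1, 0, 1, 0, -1, 1, 0, -1, 0, 0, 0, 0], 0),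
    (true, [0, 1, 4, 0, 1, 4, 9, 16, 4, 1, 0, 1, 0, 1, 4, 1, 0, 1, 4, 9, 4, 1, 0, 1, 0, 1, 4, 0, 0, 0, 0], 1),
    (true, [4, 1, 0, 16, 9, 4, 1, 0, 0, 1, 4, 4, 1, 0, 1, 9, 4, 1, 0, 1, 1, 0, 1, 4, 0, 1, 4, 0, 0, 0, 0], 1),
    (true, [0, 0, 0, 0, 0, 0, 0, 0, 0, 0, 0, 0, 0, 0, 0, 0, 0, 0, 0, 0, 0, 0, 0, 0, 0, 0, 0, 0, 0, 0, 1], 0),
    (true, [4, 1, 0, 16, 9, 4, 1, 0, 0, 1, 4, 4, 1, 0, 1, 9, 4, 1, 0, 1, 1, 0, 1, 4, 0, 1, 4, 0, 0, 0, -8], 3)]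
  moves := D1_moves0
  reqs := D1_reqs0
  tree := D1_0_0_0_tree

theorem D1_0_0_0_ok : D1.instOK 0 0 0 D1_0_0_0 = true := by
  decide +kernel

def D1_0_1_0_tree : Tree :=
  (.br 8 0
  (.br 12 0
   (.br 21 0
    (.br 9 0
     (.br 20 0
      (.fk [(1, 4), (2, 28), (3, 4), (4, 1), (5, 3), (6, -4), (7, 3), (16, 3)])
      (.br 13 0
       (.fk [(0, 4), (1, 4), (2, 24), (3, 7), (4, 1), (5, -9), (6, -3), (7, 2), (16, 3)])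
       (.br 6 0
        (.br 25 0
         (.br 22 0
          (.br 18 0
           (.br 16 0
            (.br 17 0
             (.fk [(0, 4), (1, 8), (2, 20), (3, -7), (4, 10), (5, -9), (6, -3), (7, 1), (16, 2)])
             (.br 1 0
              (.fk [(0, 32), (1, 24), (2, 72), (3, 3), (4, 5), (5, 5), (6, -8), (7, 2), (16, 10)])
              (.mv 34)))
            (.mv 20))
           (.mv 14))
          (.mv 12))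
         (.mv 11))
        (.mv 21))))
     (.br 20 0
      (.br 22 0
       (.br 13 0
        (.br 11 0
         (.br 14 0
          (.fk [(3, 1)])
          (.br 17 0
           (.br 24 0
            (.fk [(4, -1), (5, 2), (7, 1), (10, 2), (12, 2), (16, 1)])
            (.br 23 0
             (.fk [(3, -1), (5, 1)])
             (.mv 28)))
           (.mv 26)))
         (.br 17 0
          (.br 24 0
           (.fk [(4, -1), (5, 2), (7, 1), (10, 2), (12, 2), (16, 1)])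
           (.br 23 0
            (.fk [(3, -1), (5, 1)])
            (.mv 28)))
          (.mv 17)))
        (.br 19 0
         (.br 17 0
          (.br 18 0
           (.br 16 0
            (.br 7 0
             (.fk [(3, -1), (4, 1), (5, 1), (7, 1), (16, 1)])
             (.br 23 0
              (.fk [(3, -1), (5, 1)])
              (.mv 48)))
            (.mv 32))
           (.mv 14))
          (.br 23 0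
           (.fk [(3, -1), (4, -1), (5, 1)])
           (.mv 35)))
         (.mv 25)))
       (.mv 8))
      (.mv 5)))
    (.mv 1))
   (.br 21 0
    (.br 17 0
     (.br 20 0
      (.br 9 0
       (.fk [(0, 4), (1, -8), (2, 36), (3, -8), (4, -2), (5, 9), (6, -3), (7, 5), (16, 6)])
       (.br 22 0
        (.br 7 0
         (.fk [(3, -3), (4, -3), (5, 3), (7, 1), (16, 1)])
         (.br 23 0
          (.fk [(3, -1), (5, 1)])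
          (.mv 18)))
        (.mv 8)))
      (.br 9 0
       (.br 6 0
        (.br 10 0
         (.fk [(0, 4), (1, 2), (2, 74), (3, 1), (4, 3), (5, 8), (6, -1), (7, -2), (16, 7)])
         (.br 18 0
          (.fk [(0, 4), (1, 8), (2, 20), (3, -9), (4, 10), (5, -9), (6, -3), (7, 1), (16, 2)])
          (.mv 44)))
        (.br 1 0
         (.fk [(0, 4), (1, -4), (2, 16), (3, -5), (4, -1), (5, -10), (6, -1), (7, 2), (16, 3)])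
         (.mv 15)))
       (.mv 5)))
     (.mv 10))
    (.mv 1)))
  (.mv 0))

def D1_0_1_0 : Inst where
  rows :=
   [(false, [1, 1, 1, 0, 0, 0, 0, 0, 0, 0, 0, 0, 0, 0, 0, 0, 0, 0, 0, 0, 0, 0, 0, 0, 0, 0, 0, 0, 0, 0, -1], 0),
    (false, [0, 0, 0, 1, 1, 1, 1, 1, 0, 0, 0, 0, 0, 0, 0, 0, 0, 0, 0, 0, 0, 0, 0, 0, 0, 0, 0, 0, 0, 0, -1], 0),
    (false, [0, 0, 0, 0, 0, 0, 0, 0, 1, 1, 1, 0, 0, 0, 0, 0, 0, 0, 0, 0, 0, 0, 0, 0, 0, 0, 0, 0, 0, 0, -1], 0),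
    (false, [0, 0, 0, 0, 0, 0, 0, 0, 0, 0, 0, 1, 1, 1, 1, 0, 0, 0, 0, 0, 0, 0, 0, 0, 0, 0, 0, 0, 0, 0, 0], 1),
    (false, [0, 0, 0, 0, 0, 0, 0, 0, 0, 0, 0, 0, 0, 0, 0, 1, 1, 1, 1, 1, 0, 0, 0, 0, 0, 0, 0, 0, 0, 0, 0], 1),
    (false, [0, 0, 0, 0, 0, 0, 0, 0, 0, 0, 0, 0, 0, 0, 0, 0, 0, 0, 0, 0, 1, 1, 1, 1, 0, 0, 0, 0, 0, 0, 0], 1),
    (false, [0, 1, 4, 4, 1, 0, 1, 4, 0, 1, 4, 1, 0, 1, 4, 4, 1, 0, 1, 4, 1, 0, 1, 4, 0, 1, 4, 0, 0, 0, -8], 2),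
    (false, [4, 1, 0, 4, 1, 0, 1, 4, 4, 1, 0, 4, 1, 0, 1, 4, 1, 0, 1, 4, 4, 1, 0, 1, 0, 1, 4, 0, 0, 0, -8], 2),
    (false, [-1, -1, -1, 1, 1, 1, 1, 1, -1, -1, -1, 0, 0, 0, 0, 1, 1, 1, 1, 1, 0, 0, 0, 0, 1, 1, 1, -1, 0, 0, 0], 0),
    (false, [1, 1, 1, -1, -1, -1, -1, -1, -1, -1, -1, 1, 1, 1, 1, 0, 0, 0, 0, 0, 0, 0, 0, 0, 1, 1, 1, 0, -1, 0, 0], 0),
    (false, [-1, 0, 1, -1, 0, 1, 0, -1, -1, 0, 1, -1, 0, 1, 0, -1, 0, 1, 0, -1, -1, 0, 1, 0, 1, 0, -1, 0, 0, -1, 0], 0),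
    (true, [-1, -1, -1, -1, -1, -1, -1, -1, 1, 1, 1, 0, 0, 0, 0, 0, 0, 0, 0, 0, 1, 1, 1, 1, 1, 1, 1, 0, 0, 0, 0], 0),
    (true, [1, 0, -1, -1, 0, 1, 0, -1, 1, 0, -1, 0, 1, 0, -1, -1, 0, 1, 0, -1, 0, 1, 0, -1, 1, 0, -1, 0, 0, 0, 0], 0),
    (true, [0, 1, 4, 0, 1, 4, 9, 16, 4, 1, 0, 1, 0, 1, 4, 1, 0, 1, 4, 9, 4, 1, 0, 1, 0, 1, 4, 0, 0, 0, 0], 1),
    (true, [4, 1, 0, 16, 9, 4, 1, 0, 0, 1, 4, 4, 1, 0, 1, 9, 4, 1, 0, 1, 1, 0, 1, 4, 0, 1, 4, 0, 0, 0, 0], 1),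
    (true, [0, 0, 0, 0, 0, 0, 0, 0, 0, 0, 0, 0, 0, 0, 0, 0, 0, 0, 0, 0, 0, 0, 0, 0, 0, 0, 0, 0, 0, 0, 1], 0),
    (true, [-4, -1, 0, -16, -9, -4, -1, 0, 0, -1, -4, -4, -1, 0, -1, -9, -4, -1, 0, -1, -1, 0, -1, -4, 0, -1, -4, 0, 0, 0, 8], -1)]
  moves := D1_moves0
  reqs := D1_reqs0
  tree := D1_0_1_0_tree

theorem D1_0_1_0_ok : D1.instOK 0 1 0 D1_0_1_0 = true := by
  decide +kernel

def D1_0_2_0_tree : Tree :=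
  (.br 8 0
  (.br 21 0
   (.br 9 0
    (.fk [(0, 4), (1, 4), (2, 24), (3, 1), (4, 1), (5, -2), (6, -3), (7, 2), (16, -3), (17, 24)])
    (.br 20 0
     (.br 22 0
      (.br 24 0
       (.fk [(3, -2), (4, -3), (5, 5), (7, 1), (10, 2), (12, 2), (16, -1), (17, 5)])
       (.br 23 0
        (.fk [(5, 1)])
        (.mv 28)))
      (.mv 8))
     (.mv 5)))
   (.mv 1))
  (.mv 0))

def D1_0_2_0 : Inst where
  rows :=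
   [(false, [1, 1, 1, 0, 0, 0, 0, 0, 0, 0, 0, 0, 0, 0, 0, 0, 0, 0, 0, 0, 0, 0, 0, 0, 0, 0, 0, 0, 0, 0, -1], 0),
    (false, [0, 0, 0, 1, 1, 1, 1, 1, 0, 0, 0, 0, 0, 0, 0, 0, 0, 0, 0, 0, 0, 0, 0, 0, 0, 0, 0, 0, 0, 0, -1], 0),
    (false, [0, 0, 0, 0, 0, 0, 0, 0, 1, 1, 1, 0, 0, 0, 0, 0, 0, 0, 0, 0, 0, 0, 0, 0, 0, 0, 0, 0, 0, 0, -1], 0),
    (false, [0, 0, 0, 0, 0, 0, 0, 0, 0, 0, 0, 1, 1, 1, 1, 0, 0, 0, 0, 0, 0, 0, 0, 0, 0, 0, 0, 0, 0, 0, 0], 1),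
    (false, [0, 0, 0, 0, 0, 0, 0, 0, 0, 0, 0, 0, 0, 0, 0, 1, 1, 1, 1, 1, 0, 0, 0, 0, 0, 0, 0, 0, 0, 0, 0], 1),
    (false, [0, 0, 0, 0, 0, 0, 0, 0, 0, 0, 0, 0, 0, 0, 0, 0, 0, 0, 0, 0, 1, 1, 1, 1, 0, 0, 0, 0, 0, 0, 0], 1),
    (false, [0, 1, 4, 4, 1, 0, 1, 4, 0, 1, 4, 1, 0, 1, 4, 4, 1, 0, 1, 4, 1, 0, 1, 4, 0, 1, 4, 0, 0, 0, -8], 2),
    (false, [4, 1, 0, 4, 1, 0, 1, 4, 4, 1, 0, 4, 1, 0, 1, 4, 1, 0, 1, 4, 4, 1, 0, 1, 0, 1, 4, 0, 0, 0, -8], 2),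
    (false, [-1, -1, -1, 1, 1, 1, 1, 1, -1, -1, -1, 0, 0, 0, 0, 1, 1, 1, 1, 1, 0, 0, 0, 0, 1, 1, 1, -1, 0, 0, 0], 0),
    (false, [1, 1, 1, -1, -1, -1, -1, -1, -1, -1, -1, 1, 1, 1, 1, 0, 0, 0, 0, 0, 0, 0, 0, 0, 1, 1, 1, 0, -1, 0, 0], 0),
    (false, [-1, 0, 1, -1, 0, 1, 0, -1, -1, 0, 1, -1, 0, 1, 0, -1, 0, 1, 0, -1, -1, 0, 1, 0, 1, 0, -1, 0, 0, -1, 0], 0),
    (true, [-1, -1, -1, -1, -1, -1, -1, -1, 1, 1, 1, 0, 0, 0, 0, 0, 0, 0, 0, 0, 1, 1, 1, 1, 1, 1, 1, 0, 0, 0, 0], 0),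
    (true, [1, 0, -1, -1, 0, 1, 0, -1, 1, 0, -1, 0, 1, 0, -1, -1, 0, 1, 0, -1, 0, 1, 0, -1, 1, 0, -1, 0, 0, 0, 0], 0),
    (true, [0, 1, 4, 0, 1, 4, 9, 16, 4, 1, 0, 1, 0, 1, 4, 1, 0, 1, 4, 9, 4, 1, 0, 1, 0, 1, 4, 0, 0, 0, 0], 1),
    (true, [4, 1, 0, 16, 9, 4, 1, 0, 0, 1, 4, 4, 1, 0, 1, 9, 4, 1, 0, 1, 1, 0, 1, 4, 0, 1, 4, 0, 0, 0, 0], 1),
    (true, [0, 0, 0, 0, 0, 0, 0, 0, 0, 0, 0, 0, 0, 0, 0, 0, 0, 0, 0, 0, 0, 0, 0, 0, 0, 0, 0, 0, 0, 0, 1], 0),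
    (false, [4, 1, 0, 16, 9, 4, 1, 0, 0, 1, 4, 4, 1, 0, 1, 9, 4, 1, 0, 1, 1, 0, 1, 4, 0, 1, 4, 0, 0, 0, -8], 2),
    (true, [0, 0, 0, 1, 1, 0, 0, 0, 0, 0, 0, 0, 0, 0, 0, 1, 0, 0, 0, 0, 0, 0, 0, 0, 0, 0, 0, 0, 0, 0, 0], 1)]
  moves := D1_moves0
  reqs := D1_reqs0
  tree := D1_0_2_0_tree

theorem D1_0_2_0_ok : D1.instOK 0 2 0 D1_0_2_0 = true := by
  decide +kernel

def D1_0_3_0_tree : Tree :=
  (.br 8 0
  (.br 9 0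
   (.br 21 0
    (.br 12 0
     (.fk [(0, 2), (1, 2), (2, 12), (3, 4), (4, -1), (5, -1), (6, 1), (7, 1), (12, 5), (16, -4), (17, 5)])
     (.br 17 0
      (.br 1 0
       (.fk [(0, 4), (1, 2), (2, 10), (3, -2), (4, 2), (5, -1), (6, -1), (7, 2), (10, 3), (16, -3), (17, 3)])
       (.br 6 0
        (.fk [(0, -4), (1, 8), (2, 28), (3, -9), (4, 6), (5, -9), (6, -5), (7, 7), (10, 8), (16, -6), (17, 8)])
        (.mv 15)))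
      (.mv 10)))
    (.mv 1))
   (.br 20 0
    (.br 22 0
     (.fk [(4, -1), (5, 1), (7, 1), (10, 2), (16, -1), (17, 2)])
     (.mv 8))
    (.mv 5)))
  (.mv 0))

def D1_0_3_0 : Inst where
  rows :=
   [(false, [1, 1, 1, 0, 0, 0, 0, 0, 0, 0, 0, 0, 0, 0, 0, 0, 0, 0, 0, 0, 0, 0, 0, 0, 0, 0, 0, 0, 0, 0, -1], 0),
    (false, [0, 0, 0, 1, 1, 1, 1, 1, 0, 0, 0, 0, 0, 0, 0, 0, 0, 0, 0, 0, 0, 0, 0, 0, 0, 0, 0, 0, 0, 0, -1], 0),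
    (false, [0, 0, 0, 0, 0, 0, 0, 0, 1, 1, 1, 0, 0, 0, 0, 0, 0, 0, 0, 0, 0, 0, 0, 0, 0, 0, 0, 0, 0, 0, -1], 0),
    (false, [0, 0, 0, 0, 0, 0, 0, 0, 0, 0, 0, 1, 1, 1, 1, 0, 0, 0, 0, 0, 0, 0, 0, 0, 0, 0, 0, 0, 0, 0, 0], 1),
    (false, [0, 0, 0, 0, 0, 0, 0, 0, 0, 0, 0, 0, 0, 0, 0, 1, 1, 1, 1, 1, 0, 0, 0, 0, 0, 0, 0, 0, 0, 0, 0], 1),
    (false, [0, 0, 0, 0, 0, 0, 0, 0, 0, 0, 0, 0, 0, 0, 0, 0, 0, 0, 0, 0, 1, 1, 1, 1, 0, 0, 0, 0, 0, 0, 0], 1),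
    (false, [0, 1, 4, 4, 1, 0, 1, 4, 0, 1, 4, 1, 0, 1, 4, 4, 1, 0, 1, 4, 1, 0, 1, 4, 0, 1, 4, 0, 0, 0, -8], 2),
    (false, [4, 1, 0, 4, 1, 0, 1, 4, 4, 1, 0, 4, 1, 0, 1, 4, 1, 0, 1, 4, 4, 1, 0, 1, 0, 1, 4, 0, 0, 0, -8], 2),
    (false, [-1, -1, -1, 1, 1, 1, 1, 1, -1, -1, -1, 0, 0, 0, 0, 1, 1, 1, 1, 1, 0, 0, 0, 0, 1, 1, 1, -1, 0, 0, 0], 0),
    (false, [1, 1, 1, -1, -1, -1, -1, -1, -1, -1, -1, 1, 1, 1, 1, 0, 0, 0, 0, 0, 0, 0, 0, 0, 1, 1, 1, 0, -1, 0, 0], 0),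
    (false, [-1, 0, 1, -1, 0, 1, 0, -1, -1, 0, 1, -1, 0, 1, 0, -1, 0, 1, 0, -1, -1, 0, 1, 0, 1, 0, -1, 0, 0, -1, 0], 0),
    (true, [-1, -1, -1, -1, -1, -1, -1, -1, 1, 1, 1, 0, 0, 0, 0, 0, 0, 0, 0, 0, 1, 1, 1, 1, 1, 1, 1, 0, 0, 0, 0], 0),
    (true, [1, 0, -1, -1, 0, 1, 0, -1, 1, 0, -1, 0, 1, 0, -1, -1, 0, 1, 0, -1, 0, 1, 0, -1, 1, 0, -1, 0, 0, 0, 0], 0),
    (true, [0, 1, 4, 0, 1, 4, 9, 16, 4, 1, 0, 1, 0, 1, 4, 1, 0, 1, 4, 9, 4, 1, 0, 1, 0, 1, 4, 0, 0, 0, 0], 1),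
    (true, [4, 1, 0, 16, 9, 4, 1, 0, 0, 1, 4, 4, 1, 0, 1, 9, 4, 1, 0, 1, 1, 0, 1, 4, 0, 1, 4, 0, 0, 0, 0], 1),
    (true, [0, 0, 0, 0, 0, 0, 0, 0, 0, 0, 0, 0, 0, 0, 0, 0, 0, 0, 0, 0, 0, 0, 0, 0, 0, 0, 0, 0, 0, 0, 1], 0),
    (false, [4, 1, 0, 16, 9, 4, 1, 0, 0, 1, 4, 4, 1, 0, 1, 9, 4, 1, 0, 1, 1, 0, 1, 4, 0, 1, 4, 0, 0, 0, -8], 2),
    (true, [1, 0, -1, 0, 0, 1, 0, -1, -1, 0, 1, 1, 0, -1, 0, 0, 1, 0, -1, 0, 0, -1, 0, 1, -1, 0, 1, 0, 0, 0, 0], 1)]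
  moves := D1_moves0
  reqs := D1_reqs0
  tree := D1_0_3_0_tree

theorem D1_0_3_0_ok : D1.instOK 0 3 0 D1_0_3_0 = true := by
  decide +kernel

theorem D1_ok0 : ∀ b ∈ D1.branches, ∃ I : Inst, D1.instOK 0 b.1 b.2 I = true := by
  intro b hb
  have h : b = (0, 0) ∨ b = (1, 0) ∨ b = (2, 0) ∨ b = (3, 0) := by
    have hb2 : b ∈ [(0, 0), (1, 0), (2, 0), (3, 0)] := hb
    simpa using hb2
  rcases h with rfl | rfl | rfl | rfl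
  · exact ⟨D1_0_0_0, D1_0_0_0_ok⟩
  · exact ⟨D1_0_1_0, D1_0_1_0_ok⟩
  · exact ⟨D1_0_2_0, D1_0_2_0_ok⟩
  · exact ⟨D1_0_3_0, D1_0_3_0_ok⟩

end Pool.Agent.helper1.CAD
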