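import Pool.Agent.helper1.CAD.Sound

namespace Pool.Agent.helper1.CAD

set_option maxRecDepth 100000

def D2 : Spec where
  K := .D
  tys := [(2, 2, [1], 0), (2, 0, [1], 0), (0, 2, [1], 0), (1, 1, [0], 2), (1, 0, [0], 2), (0, 1, [0], 2)]
  kc := ([4], 2)
  pmin := [0]
  sl := (0, -1)
  good := true
  pv := 0
  px := 0
  pvx := 0

def D2_moves0 : List Move :=
   [([((0, 2, 0), -2)], 0),
    ([((0, 1, 0), -1)], 0),
    ([((1, 1, 2), 0), ((1, 0, 2), 1)], 0),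
    ([((1, 1, -1), 0), ((1, 0, -1), 1)], 0),
    ([((0, 2, 2), 0), ((0, 0, 2), 2)], 0),
    ([((0, 2, 1), -1), ((0, 1, -1), -2)], 0),
    ([((0, 2, 2), 1), ((0, 1, 2), 2)], 0),
    ([((0, 2, 1), 0), ((0, 0, 1), 2)], 0),
    ([((2, 2, 2), 0), ((2, 0, 2), 2)], 0),
    ([((0, 2, 1), 1), ((0, 1, 1), 2)], 0),
    ([((2, 2, 0), 0), ((2, 0, 0), 2)], 0),
    ([((1, 1, 0), 0), ((1, 0, 0), 1)], 0),
    ([((0, 1, -1), 0), ((0, 0, 1), -1)], 0),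
    ([((0, 1, -1), -1), ((0, 1, 1), -1)], 0),
    ([((0, 1, 1), 0), ((0, 0, 1), 1)], 0),
    ([((1, 1, 1), 0), ((1, 0, 1), 1)], 0),
    ([((2, 2, 1), 0), ((2, 0, 1), 2)], 0),
    ([((2, 0, 1), 1), ((1, 1, 0), -1), ((0, 1, 1), 0)], 0),
    ([((0, 2, 1), 0), ((1, 1, -1), -1), ((1, 0, 0), 2)], 0),
    ([((2, 0, 2), 1), ((1, 1, 0), -1), ((0, 1, 2), 0)], 0),
    ([((0, 2, 2), 0), ((1, 1, 2), 2), ((1, 0, -2), -1)], 0),
    ([((2, 2, 0), 0), ((2, 0, 1), 2), ((0, 1, 1), -1)], 0),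
    ([((1, 1, 1), 0), ((1, 0, -1), 1), ((0, 1, -1), -1)], 0),
    ([((2, 0, 1), 1), ((1, 1, 1), -1), ((0, 1, -1), 0)], 0),
    ([((2, 0, -1), 1), ((1, 1, -1), -1), ((0, 1, 1), 0)], 0),
    ([((0, 2, 2), 0), ((1, 1, 0), -1), ((1, 0, 2), 2)], 0),
    ([((1, 1, 2), 0), ((1, 0, 0), 1), ((0, 1, -1), -1)], 0),
    ([((2, 2, 1), 1), ((1, 0, 1), 2), ((0, 1, 1), 0)], 0),
    ([((0, 2, 1), 0), ((1, 1, 1), -1), ((1, 0, 2), 2)], 0),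
    ([((2, 2, 0), 1), ((1, 0, 1), 2), ((0, 1, 2), 0)], 0),
    ([((1, 1, -1), 0), ((1, 0, 1), 1), ((0, 1, 1), -1)], 0),
    ([((0, 2, 1), 0), ((0, 1, 2), 2), ((0, 0, 0), -1)], 0),
    ([((1, 1, 0), 0), ((1, 0, 2), 1), ((0, 1, 1), -1)], 0),
    ([((2, 2, 2), 0), ((2, 0, 1), 2), ((0, 1, -1), -1)], 0),
    ([((0, 2, 1), 0), ((1, 1, 1), 2), ((1, 0, -1), -1)], 0),
    ([((2, 2, 1), 0), ((2, 0, 0), 2), ((0, 1, -1), -1)], 0),
    ([((2, 2, 1), 1), ((1, 0, 0), 2), ((0, 1, -1), 0)], 0),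
    ([((0, 2, 1), 1), ((1, 1, 1), 0), ((1, 0, 0), 1), ((0, 1, 2), 2)], 0),
    ([((0, 2, 2), 0), ((1, 1, 1), -1), ((1, 0, 2), 2), ((0, 1, -1), -1)], 0),
    ([((2, 2, 1), 1), ((2, 0, 0), 2), ((1, 1, -1), -1), ((0, 1, 1), 0)], 0),
    ([((0, 2, 2), 0), ((0, 1, -1), -1), ((0, 1, -1), -1), ((0, 0, 0), -2)], 0),
    ([((0, 2, 2), 1), ((1, 1, 2), 0), ((1, 0, 1), 1), ((0, 1, -1), -2)], 0),
    ([((0, 2, 2), 1), ((1, 1, 0), 0), ((1, 0, 1), 1), ((0, 1, 1), 2)], 0),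
    ([((2, 2, 1), 1), ((0, 2, 2), 0), ((1, 0, 2), 2), ((0, 1, 1), 2)], 0),
    ([((2, 2, 1), 1), ((0, 2, 2), 0), ((1, 0, 1), 2), ((0, 1, -1), -2)], 0),
    ([((0, 2, 2), 1), ((1, 1, 0), 0), ((1, 0, -1), 1), ((0, 1, -1), -2)], 0),
    ([((0, 2, 2), 0), ((1, 1, 0), 2), ((1, 0, -2), -1), ((0, 1, -1), -1)], 0),
    ([((2, 2, 1), 0), ((2, 0, 2), 2), ((0, 2, 1), 0), ((0, 0, 0), -2)], 0),
    ([((0, 2, 2), 0), ((1, 1, 0), -1), ((1, 0, 1), 2), ((0, 1, -1), -1)], 0),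
    ([((0, 2, 2), 0), ((1, 1, -1), -1), ((1, 0, 0), 2), ((0, 1, -1), -1)], 0),
    ([((2, 0, 1), 1), ((1, 1, -1), -1), ((0, 1, 1), -1), ((0, 1, 1), 0)], 0),
    ([((2, 0, 1), 1), ((0, 2, 2), 0), ((1, 1, -1), -1), ((0, 1, 1), 2)], 0),
    ([((2, 0, 2), 1), ((0, 2, 1), 0), ((1, 1, 1), -1), ((0, 1, 2), 2)], 0),
    ([((2, 0, 2), 2), ((0, 2, 2), 0), ((1, 1, -1), -1), ((1, 1, 1), -1)], 0),
    ([((2, 0, 2), 1), ((1, 1, 1), -1), ((0, 1, -1), -1), ((0, 1, 2), 0)], 0),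
    ([((2, 0, 2), 1), ((1, 1, 2), 0), ((1, 0, 1), -1), ((0, 1, -1), 0)], 0),
    ([((2, 0, -1), 1), ((0, 2, 2), 0), ((1, 1, -1), -1), ((0, 1, -1), -2)], 0),
    ([((2, 0, -1), 1), ((1, 1, 1), -1), ((0, 1, -1), -1), ((0, 1, -1), 0)], 0),
    ([((2, 0, -1), 1), ((1, 1, 0), 0), ((1, 0, -2), -1), ((0, 1, 1), 0)], 0),
    ([((2, 2, 0), 1), ((0, 2, 1), 0), ((1, 0, 0), 2), ((0, 1, 2), 2)], 0),
    ([((2, 0, 2), 1), ((0, 2, 2), 0), ((1, 1, 2), 0), ((1, 0, -1), -1), ((0, 1, -1), -2)], 0),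
    ([((2, 0, 2), 1), ((0, 2, 2), 0), ((1, 1, 0), 0), ((1, 0, -1), -1), ((0, 1, 1), 2)], 0),
    ([((2, 2, 1), 0), ((2, 0, 2), 2), ((0, 2, 2), 0), ((0, 1, -1), -1), ((0, 0, 0), -2)], 0),
    ([((1, 1, 0), 0), ((1, 1, 0), 0), ((1, 0, 1), 2), ((0, 1, 1), 0), ((0, 1, 1), 0)], 0),
    ([((1, 1, -1), 0), ((1, 1, 1), 2), ((0, 1, 1), 0), ((0, 1, 1), 0)], 0),
    ([((0, 2, 2), 1), ((1, 1, -1), 0), ((1, 0, 0), 1), ((0, 1, 1), 2)], 0),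
    ([((0, 2, 2), 1), ((1, 1, 1), 0), ((1, 0, 0), 1), ((0, 1, -1), -2)], 0),
    ([((1, 1, 1), -1), ((1, 0, 0), 1), ((1, 0, 0), 1), ((0, 1, -1), 0), ((0, 1, -1), 0)], 0)]

def D2_reqs0 : List (List ℤ) :=
   [[0, 0, 0, 0, 0, 0, 0, 0, 1, 0, 0, 0, 0, 0, 0, 0, 0, 0, 0, 0, 0, 0, 0, 0, 0, 0, 0, 0, 0, 0, 0],
    [0, 0, 0, 0, 0, 0, 0, 0, 0, 0, 0, 0, 0, 0, 0, 0, 0, 0, 0, 0, 0, 1, 0, 0, 0, 0, 0, 0, 0, 0, 0],
    [0, 0, 0, 0, 0, 0, 0, 0, 0, 0, 0, 0, 0, 0, 1, 0, 0, 0, 0, 1, 0, 0, 0, 0, 0, 0, 0, 0, 0, 0, 0],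
    [0, 0, 0, 0, 0, 0, 0, 0, 0, 0, 0, 1, 0, 0, 0, 0, 1, 0, 0, 0, 0, 0, 0, 0, 0, 0, 0, 0, 0, 0, 0],
    [0, 0, 0, 0, 0, 0, 0, 0, 0, 0, 1, 0, 0, 0, 0, 0, 0, 0, 0, 0, 0, 0, 0, 0, 0, 0, 1, 0, 0, 0, 0],
    [0, 0, 0, 0, 0, 0, 0, 0, 0, 1, 0, 0, 0, 0, 0, 0, 0, 0, 0, 0, 1, 0, 0, 0, 0, 0, 0, 0, 0, 0, 0],
    [0, 0, 0, 0, 0, 0, 0, 0, 0, 0, 1, 0, 0, 0, 0, 0, 0, 0, 0, 0, 0, 0, 0, 1, 0, 0, 0, 0, 0, 0, 0],
    [0, 0, 0, 0, 0, 0, 0, 0, 0, 1, 0, 0, 0, 0, 0, 0, 0, 0, 0, 0, 0, 0, 0, 0, 0, 1, 0, 0, 0, 0, 0],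
    [0, 0, 1, 0, 0, 0, 0, 1, 0, 0, 0, 0, 0, 0, 0, 0, 0, 0, 0, 0, 0, 0, 0, 0, 0, 0, 0, 0, 0, 0, 0],
    [0, 0, 0, 0, 0, 0, 0, 0, 0, 1, 0, 0, 0, 0, 0, 0, 0, 0, 0, 0, 0, 0, 1, 0, 0, 0, 0, 0, 0, 0, 0],
    [1, 0, 0, 0, 0, 1, 0, 0, 0, 0, 0, 0, 0, 0, 0, 0, 0, 0, 0, 0, 0, 0, 0, 0, 0, 0, 0, 0, 0, 0, 0],
    [0, 0, 0, 0, 0, 0, 0, 0, 0, 0, 0, 0, 1, 0, 0, 0, 0, 1, 0, 0, 0, 0, 0, 0, 0, 0, 0, 0, 0, 0, 0],
    [0, 0, 0, 0, 0, 0, 0, 0, 0, 0, 0, 0, 0, 0, 0, 0, 0, 0, 0, 0, 1, 0, 0, 0, 0, 1, 0, 0, 0, 0, 0],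
    [0, 0, 0, 0, 0, 0, 0, 0, 0, 0, 0, 0, 0, 0, 0, 0, 0, 0, 0, 0, 1, 0, 1, 0, 0, 0, 0, 0, 0, 0, 0],
    [0, 0, 0, 0, 0, 0, 0, 0, 0, 0, 0, 0, 0, 0, 0, 0, 0, 0, 0, 0, 0, 0, 1, 0, 0, 1, 0, 0, 0, 0, 0],
    [0, 0, 0, 0, 0, 0, 0, 0, 0, 0, 0, 0, 0, 1, 0, 0, 0, 0, 1, 0, 0, 0, 0, 0, 0, 0, 0, 0, 0, 0, 0],
    [0, 1, 0, 0, 0, 0, 1, 0, 0, 0, 0, 0, 0, 0, 0, 0, 0, 0, 0, 0, 0, 0, 0, 0, 0, 0, 0, 0, 0, 0, 0],
    [0, 0, 0, 0, 0, 0, 1, 0, 0, 0, 0, 0, 1, 0, 0, 0, 0, 0, 0, 0, 0, 0, 1, 0, 0, 0, 0, 0, 0, 0, 0],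
    [0, 0, 0, 0, 0, 0, 0, 0, 0, 1, 0, 1, 0, 0, 0, 0, 0, 1, 0, 0, 0, 0, 0, 0, 0, 0, 0, 0, 0, 0, 0],
    [0, 0, 0, 0, 0, 0, 0, 1, 0, 0, 0, 0, 1, 0, 0, 0, 0, 0, 0, 0, 0, 0, 0, 1, 0, 0, 0, 0, 0, 0, 0],
    [0, 0, 0, 0, 0, 0, 0, 0, 0, 0, 1, 0, 0, 0, 1, 1, 0, 0, 0, 0, 0, 0, 0, 0, 0, 0, 0, 0, 0, 0, 0],
    [1, 0, 0, 0, 0, 0, 1, 0, 0, 0, 0, 0, 0, 0, 0, 0, 0, 0, 0, 0, 0, 0, 1, 0, 0, 0, 0, 0, 0, 0, 0],
    [0, 0, 0, 0, 0, 0, 0, 0, 0, 0, 0, 0, 0, 1, 0, 0, 1, 0, 0, 0, 1, 0, 0, 0, 0, 0, 0, 0, 0, 0, 0],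
    [0, 0, 0, 0, 0, 0, 1, 0, 0, 0, 0, 0, 0, 1, 0, 0, 0, 0, 0, 0, 1, 0, 0, 0, 0, 0, 0, 0, 0, 0, 0],
    [0, 0, 0, 0, 1, 0, 0, 0, 0, 0, 0, 1, 0, 0, 0, 0, 0, 0, 0, 0, 0, 0, 1, 0, 0, 0, 0, 0, 0, 0, 0],
    [0, 0, 0, 0, 0, 0, 0, 0, 0, 0, 1, 0, 1, 0, 0, 0, 0, 0, 0, 1, 0, 0, 0, 0, 0, 0, 0, 0, 0, 0, 0],
    [0, 0, 0, 0, 0, 0, 0, 0, 0, 0, 0, 0, 0, 0, 1, 0, 0, 1, 0, 0, 1, 0, 0, 0, 0, 0, 0, 0, 0, 0, 0],
    [0, 1, 0, 0, 0, 0, 0, 0, 0, 0, 0, 0, 0, 0, 0, 0, 0, 0, 1, 0, 0, 0, 1, 0, 0, 0, 0, 0, 0, 0, 0],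
    [0, 0, 0, 0, 0, 0, 0, 0, 0, 1, 0, 0, 0, 1, 0, 0, 0, 0, 0, 1, 0, 0, 0, 0, 0, 0, 0, 0, 0, 0, 0],
    [1, 0, 0, 0, 0, 0, 0, 0, 0, 0, 0, 0, 0, 0, 0, 0, 0, 0, 1, 0, 0, 0, 0, 1, 0, 0, 0, 0, 0, 0, 0],
    [0, 0, 0, 0, 0, 0, 0, 0, 0, 0, 0, 1, 0, 0, 0, 0, 0, 0, 1, 0, 0, 0, 1, 0, 0, 0, 0, 0, 0, 0, 0],
    [0, 0, 0, 0, 0, 0, 0, 0, 0, 1, 0, 0, 0, 0, 0, 0, 0, 0, 0, 0, 0, 0, 0, 1, 1, 0, 0, 0, 0, 0, 0],
    [0, 0, 0, 0, 0, 0, 0, 0, 0, 0, 0, 0, 1, 0, 0, 0, 0, 0, 0, 1, 0, 0, 1, 0, 0, 0, 0, 0, 0, 0, 0],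
    [0, 0, 1, 0, 0, 0, 1, 0, 0, 0, 0, 0, 0, 0, 0, 0, 0, 0, 0, 0, 1, 0, 0, 0, 0, 0, 0, 0, 0, 0, 0],
    [0, 0, 0, 0, 0, 0, 0, 0, 0, 1, 0, 0, 0, 1, 0, 0, 1, 0, 0, 0, 0, 0, 0, 0, 0, 0, 0, 0, 0, 0, 0],
    [0, 1, 0, 0, 0, 1, 0, 0, 0, 0, 0, 0, 0, 0, 0, 0, 0, 0, 0, 0, 1, 0, 0, 0, 0, 0, 0, 0, 0, 0, 0],
    [0, 1, 0, 0, 0, 0, 0, 0, 0, 0, 0, 0, 0, 0, 0, 0, 0, 1, 0, 0, 1, 0, 0, 0, 0, 0, 0, 0, 0, 0, 0],
    [0, 0, 0, 0, 0, 0, 0, 0, 0, 1, 0, 0, 0, 1, 0, 0, 0, 1, 0, 0, 0, 0, 0, 1, 0, 0, 0, 0, 0, 0, 0],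
    [0, 0, 0, 0, 0, 0, 0, 0, 0, 0, 1, 0, 0, 1, 0, 0, 0, 0, 0, 1, 1, 0, 0, 0, 0, 0, 0, 0, 0, 0, 0],
    [0, 1, 0, 0, 0, 1, 0, 0, 0, 0, 0, 1, 0, 0, 0, 0, 0, 0, 0, 0, 0, 0, 1, 0, 0, 0, 0, 0, 0, 0, 0],
    [0, 0, 0, 0, 0, 0, 0, 0, 0, 0, 1, 0, 0, 0, 0, 0, 0, 0, 0, 0, 2, 0, 0, 0, 1, 0, 0, 0, 0, 0, 0],
    [0, 0, 0, 0, 0, 0, 0, 0, 0, 0, 1, 0, 0, 0, 1, 0, 0, 0, 1, 0, 1, 0, 0, 0, 0, 0, 0, 0, 0, 0, 0],
    [0, 0, 0, 0, 0, 0, 0, 0, 0, 0, 1, 0, 1, 0, 0, 0, 0, 0, 1, 0, 0, 0, 1, 0, 0, 0, 0, 0, 0, 0, 0],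
    [0, 1, 0, 0, 0, 0, 0, 0, 0, 0, 1, 0, 0, 0, 0, 0, 0, 0, 0, 1, 0, 0, 1, 0, 0, 0, 0, 0, 0, 0, 0],
    [0, 1, 0, 0, 0, 0, 0, 0, 0, 0, 1, 0, 0, 0, 0, 0, 0, 0, 1, 0, 1, 0, 0, 0, 0, 0, 0, 0, 0, 0, 0],
    [0, 0, 0, 0, 0, 0, 0, 0, 0, 0, 1, 0, 1, 0, 0, 0, 1, 0, 0, 0, 1, 0, 0, 0, 0, 0, 0, 0, 0, 0, 0],
    [0, 0, 0, 0, 0, 0, 0, 0, 0, 0, 1, 0, 1, 0, 0, 1, 0, 0, 0, 0, 1, 0, 0, 0, 0, 0, 0, 0, 0, 0, 0],
    [0, 1, 0, 0, 0, 0, 0, 1, 0, 1, 0, 0, 0, 0, 0, 0, 0, 0, 0, 0, 0, 0, 0, 0, 1, 0, 0, 0, 0, 0, 0],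
    [0, 0, 0, 0, 0, 0, 0, 0, 0, 0, 1, 0, 1, 0, 0, 0, 0, 0, 1, 0, 1, 0, 0, 0, 0, 0, 0, 0, 0, 0, 0],
    [0, 0, 0, 0, 0, 0, 0, 0, 0, 0, 1, 1, 0, 0, 0, 0, 0, 1, 0, 0, 1, 0, 0, 0, 0, 0, 0, 0, 0, 0, 0],
    [0, 0, 0, 0, 0, 0, 1, 0, 0, 0, 0, 1, 0, 0, 0, 0, 0, 0, 0, 0, 0, 0, 2, 0, 0, 0, 0, 0, 0, 0, 0],
    [0, 0, 0, 0, 0, 0, 1, 0, 0, 0, 1, 1, 0, 0, 0, 0, 0, 0, 0, 0, 0, 0, 1, 0, 0, 0, 0, 0, 0, 0, 0],
    [0, 0, 0, 0, 0, 0, 0, 1, 0, 1, 0, 0, 0, 1, 0, 0, 0, 0, 0, 0, 0, 0, 0, 1, 0, 0, 0, 0, 0, 0, 0],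
    [0, 0, 0, 0, 0, 0, 0, 1, 0, 0, 1, 1, 0, 1, 0, 0, 0, 0, 0, 0, 0, 0, 0, 0, 0, 0, 0, 0, 0, 0, 0],
    [0, 0, 0, 0, 0, 0, 0, 1, 0, 0, 0, 0, 0, 1, 0, 0, 0, 0, 0, 0, 1, 0, 0, 1, 0, 0, 0, 0, 0, 0, 0],
    [0, 0, 0, 0, 0, 0, 0, 1, 0, 0, 0, 0, 0, 0, 1, 0, 0, 0, 1, 0, 1, 0, 0, 0, 0, 0, 0, 0, 0, 0, 0],
    [0, 0, 0, 0, 1, 0, 0, 0, 0, 0, 1, 1, 0, 0, 0, 0, 0, 0, 0, 0, 1, 0, 0, 0, 0, 0, 0, 0, 0, 0, 0],
    [0, 0, 0, 0, 1, 0, 0, 0, 0, 0, 0, 0, 0, 1, 0, 0, 0, 0, 0, 0, 2, 0, 0, 0, 0, 0, 0, 0, 0, 0, 0],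
    [0, 0, 0, 0, 1, 0, 0, 0, 0, 0, 0, 0, 1, 0, 0, 1, 0, 0, 0, 0, 0, 0, 1, 0, 0, 0, 0, 0, 0, 0, 0],
    [1, 0, 0, 0, 0, 0, 0, 0, 0, 1, 0, 0, 0, 0, 0, 0, 0, 1, 0, 0, 0, 0, 0, 1, 0, 0, 0, 0, 0, 0, 0],
    [0, 0, 0, 0, 0, 0, 0, 1, 0, 0, 1, 0, 0, 0, 1, 0, 1, 0, 0, 0, 1, 0, 0, 0, 0, 0, 0, 0, 0, 0, 0],
    [0, 0, 0, 0, 0, 0, 0, 1, 0, 0, 1, 0, 1, 0, 0, 0, 1, 0, 0, 0, 0, 0, 1, 0, 0, 0, 0, 0, 0, 0, 0],
    [0, 1, 0, 0, 0, 0, 0, 1, 0, 0, 1, 0, 0, 0, 0, 0, 0, 0, 0, 0, 1, 0, 0, 0, 1, 0, 0, 0, 0, 0, 0],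
    [0, 0, 0, 0, 0, 0, 0, 0, 0, 0, 0, 0, 2, 0, 0, 0, 0, 0, 1, 0, 0, 0, 2, 0, 0, 0, 0, 0, 0, 0, 0],
    [0, 0, 0, 0, 0, 0, 0, 0, 0, 0, 0, 1, 0, 1, 0, 0, 0, 0, 0, 0, 0, 0, 2, 0, 0, 0, 0, 0, 0, 2, 0],
    [0, 0, 0, 0, 0, 0, 0, 0, 0, 0, 1, 1, 0, 0, 0, 0, 0, 1, 0, 0, 0, 0, 1, 0, 0, 0, 0, 0, 0, 2, 0],
    [0, 0, 0, 0, 0, 0, 0, 0, 0, 0, 1, 0, 0, 1, 0, 0, 0, 1, 0, 0, 1, 0, 0, 0, 0, 0, 0, 0, 0, 2, 0],
    [0, 0, 0, 0, 0, 0, 0, 0, 0, 0, 0, 0, 0, 1, 0, 0, 0, 2, 0, 0, 2, 0, 0, 0, 0, 0, 0, 0, 0, 2, 0]]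

def D2_base0 : List Row :=
   [(false, [1, 1, 1, 0, 0, 0, 0, 0, 0, 0, 0, 0, 0, 0, 0, 0, 0, 0, 0, 0, 0, 0, 0, 0, 0, 0, 0, 0, 0, 0, -1], 0),
    (false, [0, 0, 0, 1, 1, 1, 1, 1, 0, 0, 0, 0, 0, 0, 0, 0, 0, 0, 0, 0, 0, 0, 0, 0, 0, 0, 0, 0, 0, 0, -1], 0),
    (false, [0, 0, 0, 0, 0, 0, 0, 0, 1, 1, 1, 0, 0, 0, 0, 0, 0, 0, 0, 0, 0, 0, 0, 0, 0, 0, 0, 0, 0, 0, -1], 0),
    (false, [0, 0, 0, 0, 0, 0, 0, 0, 0, 0, 0, 1, 1, 1, 1, 0, 0, 0, 0, 0, 0, 0, 0, 0, 0, 0, 0, 0, 0, 0, 0], 2),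
    (false, [0, 0, 0, 0, 0, 0, 0, 0, 0, 0, 0, 0, 0, 0, 0, 1, 1, 1, 1, 1, 0, 0, 0, 0, 0, 0, 0, 0, 0, 0, 0], 2),
    (false, [0, 0, 0, 0, 0, 0, 0, 0, 0, 0, 0, 0, 0, 0, 0, 0, 0, 0, 0, 0, 1, 1, 1, 1, 0, 0, 0, 0, 0, 0, 0], 2),
    (false, [0, 1, 4, 4, 1, 0, 1, 4, 0, 1, 4, 1, 0, 1, 4, 4, 1, 0, 1, 4, 1, 0, 1, 4, 0, 1, 4, 0, 0, 0, -8], 4),
    (false, [4, 1, 0, 4, 1, 0, 1, 4, 4, 1, 0, 4, 1, 0, 1, 4, 1, 0, 1, 4, 4, 1, 0, 1, 0, 1, 4, 0, 0, 0, -8], 4),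
    (false, [-1, -1, -1, 1, 1, 1, 1, 1, -1, -1, -1, 0, 0, 0, 0, 1, 1, 1, 1, 1, 0, 0, 0, 0, 1, 1, 1, -1, 0, 0, 0], 0),
    (false, [1, 1, 1, -1, -1, -1, -1, -1, -1, -1, -1, 1, 1, 1, 1, 0, 0, 0, 0, 0, 0, 0, 0, 0, 1, 1, 1, 0, -1, 0, 0], 0),
    (false, [-1, 0, 1, -1, 0, 1, 0, -1, -1, 0, 1, -1, 0, 1, 0, -1, 0, 1, 0, -1, -1, 0, 1, 0, 1, 0, -1, 0, 0, -1, 0], 0),
    (true, [-1, -1, -1, -1, -1, -1, -1, -1, 1, 1, 1, 0, 0, 0, 0, 0, 0, 0, 0, 0, 1, 1, 1, 1, 1, 1, 1, 0, 0, 0, 0], 0),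
    (true, [1, 0, -1, -1, 0, 1, 0, -1, 1, 0, -1, 0, 1, 0, -1, -1, 0, 1, 0, -1, 0, 1, 0, -1, 1, 0, -1, 0, 0, 0, 0], 0),
    (true, [0, 1, 4, 0, 1, 4, 9, 16, 4, 1, 0, 1, 0, 1, 4, 1, 0, 1, 4, 9, 4, 1, 0, 1, 0, 1, 4, 0, 0, 0, 0], 1),
    (true, [4, 1, 0, 16, 9, 4, 1, 0, 0, 1, 4, 4, 1, 0, 1, 9, 4, 1, 0, 1, 1, 0, 1, 4, 0, 1, 4, 0, 0, 0, 0], 1),
    (true, [0, 0, 0, 0, 0, 0, 0, 0, 0, 0, 0, 0, 0, 0, 0, 0, 0, 0, 0, 0, 0, 0, 0, 0, 0, 0, 0, 0, 0, 0, 1], 0)]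

def D2_0_0_0_tree : Tree :=
  (.br 8 0
  (.br 22 0
   (.br 20 0
    (.br 21 0
     (.br 7 0
      (.br 9 0
       (.br 10 0
        (.fk [(0, -4), (1, -3), (2, 23), (3, -1), (5, 11), (6, -3), (7, 1)])
        (.br 23 0
         (.fk [(5, 1)])
         (.mv 6)))
       (.br 13 0
        (.br 24 0
         (.br 12 0
          (.br 11 0
           (.br 25 0
            (.fk [(0, -12), (1, -16), (2, -4), (3, 5), (4, -16), (5, 5), (6, -3), (7, 7), (10, 16)])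
            (.mv 7))
           (.br 17 0
            (.br 25 0
             (.fk [(0, -4), (1, -8), (2, -4), (3, -1), (4, -2), (5, -1), (6, 1), (7, 1), (10, 4), (12, 4)])
             (.mv 7))
            (.mv 18)))
          (.br 17 0
           (.br 25 0
            (.fk [(0, -16), (1, -28), (2, -12), (3, -12), (4, -7), (5, 5), (6, -4), (7, 11), (10, 28)])
            (.mv 7))
           (.mv 11)))
         (.br 23 0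
          (.fk [(5, 1)])
          (.mv 31)))
        (.br 19 0
         (.br 18 0
          (.br 17 0
           (.br 16 0
            (.br 24 0
             (.br 0 0
              (.fk [(3, -3), (5, 3), (6, -1), (7, 1)])
              (.br 5 0
               (.fk [(3, -1), (4, 1), (5, 1), (10, 1), (12, 1)])
               (.mv 10)))
             (.br 23 0
              (.fk [(5, 1)])
              (.mv 31)))
            (.mv 34))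
           (.br 11 0
            (.br 12 0
             (.br 23 0
              (.fk [(5, 1)])
              (.mv 37))
             (.mv 11))
            (.mv 18)))
          (.mv 15))
         (.mv 28))))
      (.br 2 0
       (.br 9 0
        (.br 10 0
         (.fk [(0, -4), (1, -3), (2, 23), (3, -1), (5, 11), (6, -3), (7, 1)])
         (.br 23 0
          (.fk [(5, 1)])
          (.mv 6)))
        (.br 12 0
         (.br 13 0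
          (.br 24 0
           (.br 25 0
            (.br 23 0
             (.fk [(0, 2), (2, -2), (3, 1), (4, -2), (5, 4), (10, 1), (11, 2), (12, 1)])
             (.br 10 0
              (.fk [(0, -2), (1, -12), (2, -2), (3, 1), (4, -12), (5, 1), (7, 2), (10, 9), (12, 3)])
              (.mv 6)))
            (.mv 7))
           (.br 23 0
            (.fk [(5, 1)])
            (.mv 31)))
          (.br 23 0
           (.fk [(5, 1)])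
           (.mv 52)))
         (.br 17 0
          (.br 23 0
           (.fk [(5, 1)])
           (.mv 19))
          (.mv 11))))
       (.mv 8)))
     (.mv 1))
    (.br 7 0
     (.br 12 0
      (.br 21 0
       (.br 6 0
        (.br 9 0
         (.br 25 0
          (.br 13 0
           (.br 17 0
            (.br 1 0
             (.br 5 0
              (.br 10 0
               (.fk [(0, -6), (1, -15), (2, 93), (3, 15), (4, 9), (5, 15), (6, -2), (7, -7)])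
               (.br 11 0
                (.br 20 1
                 (.fk [(0, -4), (2, 4), (3, 3), (5, 3), (6, -1), (7, 1)])
                 (.br 24 0
                  (.fk [(0, -4), (1, 5), (2, 7), (3, 1), (4, 1), (5, 1), (6, -1), (9, 4), (10, 1), (12, 1)])
                  (.mv 40)))
                (.br 23 0
                 (.br 4 0
                  (.fk [(0, 4), (1, 8), (2, 4), (3, 2), (4, 2), (5, 2), (6, -1), (7, -1)])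
                  (.mv 56))
                 (.mv 6))))
              (.br 0 0
               (.fk [(0, 4), (2, 4), (3, 1), (4, 1), (5, 1), (6, -1)])
               (.mv 10)))
             (.br 5 0
              (.br 10 0
               (.fk [(0, -6), (1, -15), (2, 93), (3, 15), (4, 9), (5, 15), (6, -2), (7, -7)])
               (.br 18 0
                (.br 24 0
                 (.fk [(3, 1), (5, 1), (10, 1), (12, 1)])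
                 (.br 20 1
                  (.br 23 0
                   (.fk [(5, 1)])
                   (.mv 6))
                  (.mv 40)))
                (.mv 44)))
              (.mv 35)))
            (.br 14 0
             (.br 11 0
              (.fk [(3, 1)])
              (.br 10 0
               (.fk [(0, 8), (1, -6), (2, 70), (3, 15), (5, 15), (6, -2), (7, -7)])
               (.mv 49)))
             (.mv 26)))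
           (.br 1 0
            (.br 18 0
             (.br 16 0
              (.br 17 0
               (.br 5 0
                (.br 4 0
                 (.fk [(0, 4), (1, 8), (2, 4), (3, 1), (4, 5), (5, 5), (6, -1), (7, -1)])
                 (.br 20 1
                  (.br 10 0
                   (.fk [(0, -4), (1, -60), (2, 168), (3, 13), (4, 17), (5, 17), (6, -13), (7, -7), (16, 7)])
                   (.br 23 0
                    (.fk [(5, 1)])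
                    (.mv 6)))
                  (.mv 57)))
                (.br 0 0
                 (.fk [(0, 48), (1, -8), (2, 48), (3, 8), (4, 8), (5, 8), (6, -12), (7, 1)])
                 (.mv 10)))
               (.br 14 0
                (.br 20 1
                 (.br 23 0
                  (.fk [(5, 1)])
                  (.br 10 0
                   (.fk [(0, -1), (1, -12), (2, 45), (3, 4), (4, -2), (5, 5), (6, -4), (7, -2), (16, 2)])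
                   (.mv 6)))
                 (.br 4 0
                  (.br 29 0
                   (.fk [(0, 4), (1, 6), (2, 14), (3, 3), (4, 3), (5, 3), (6, 1), (7, -4), (8, 3), (9, 3), (10, -9), (12, 3)])
                   (.br 29 1
                    (.fk [(0, 2), (1, 2), (2, 4), (3, 1), (4, 1), (5, 1), (7, -1), (8, 1), (9, 1), (10, -2)])
                    (.br 17 1
                     (.br 10 0
                      (.fk [(0, -4), (1, -60), (2, 168), (3, 13), (4, 17), (5, 17), (6, -13), (7, -7), (16, 7)])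
                      (.mv 66))
                     (.mv 67))))
                  (.mv 57)))
                (.mv 26)))
              (.mv 22))
             (.mv 15))
            (.br 5 0
             (.br 17 0
              (.br 18 0
               (.br 10 0
                (.fk [(1, -3), (2, 27), (3, 2), (4, 3), (5, 3), (6, -2), (7, -1)])
                (.br 16 0
                 (.br 19 0
                  (.br 24 0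
                   (.fk [(0, 16), (1, -12), (2, 28), (3, 3), (4, 4), (5, 4), (6, -3), (7, -1), (8, 16), (12, 4)])
                   (.br 20 1
                    (.fk [(0, -4), (2, 4), (3, -3), (5, 3), (6, -1), (7, 1)])
                    (.mv 40)))
                  (.mv 38))
                 (.mv 22)))
               (.mv 15))
              (.mv 36))
             (.mv 35))))
          (.mv 12))
         (.mv 5))
        (.br 2 0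
         (.br 9 0
          (.br 1 0
           (.br 13 0
            (.br 14 0
             (.fk [(0, 4), (2, -4), (3, 3), (5, -3), (6, 1), (7, -1)])
             (.br 17 0
              (.br 10 0
               (.fk [(0, -1), (1, -1), (2, 34), (3, 5), (4, 4), (5, 5), (6, -2), (7, -2)])
               (.br 18 0
                (.br 15 0
                 (.br 20 1
                  (.br 19 0
                   (.br 23 0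
                    (.fk [(5, 1)])
                    (.mv 6))
                   (.mv 2))
                  (.br 24 0
                   (.br 25 0
                    (.fk [(0, 4), (1, 6), (2, 6), (3, 1), (4, 1), (5, 1), (6, -1), (7, -1), (8, 1), (9, 5), (10, 1), (11, 4), (12, 1)])
                    (.mv 12))
                   (.mv 40)))
                 (.mv 20))
                (.mv 41)))
              (.mv 26)))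
            (.mv 23))
           (.mv 16))
          (.mv 5))
         (.mv 33)))
       (.mv 1))
      (.br 9 0
       (.br 17 0
        (.br 21 0
         (.br 18 0
          (.br 10 0
           (.fk [(0, 8), (2, 64), (3, 2), (4, 9), (5, 15), (6, -2), (7, -7)])
           (.br 19 0
            (.br 16 0
             (.br 15 0
              (.fk [(4, 1)])
              (.mv 46))
             (.mv 45))
            (.mv 25)))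
          (.br 10 0
           (.fk [(0, 8), (2, 64), (3, 2), (4, 9), (5, 15), (6, -2), (7, -7)])
           (.mv 48)))
         (.mv 1))
        (.mv 11))
       (.mv 5)))
     (.br 2 0
      (.br 9 0
       (.br 17 0
        (.br 21 0
         (.br 25 0
          (.br 1 0
           (.br 13 0
            (.br 14 0
             (.fk [(0, 4), (2, -4), (3, 1), (5, -3), (6, 1), (7, -1)])
             (.br 18 0
              (.br 19 0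
               (.br 10 0
                (.fk [(2, 32), (3, 3), (4, 4), (5, 4), (6, -1), (7, -3)])
                (.br 15 0
                 (.br 16 0
                  (.fk [(4, 1)])
                  (.mv 60))
                 (.mv 20)))
               (.mv 2))
              (.mv 55)))
            (.br 18 0
             (.br 6 0
              (.br 23 0
               (.fk [(0, 4), (2, -4), (3, -3), (5, 3), (6, 1), (7, -1)])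
               (.mv 54))
              (.mv 23))
             (.mv 15)))
           (.br 5 0
            (.br 6 0
             (.br 10 0
              (.fk [(0, -1), (1, -5), (2, 38), (3, 2), (4, 4), (5, 5), (6, -2), (7, -2)])
              (.br 18 0
               (.br 24 0
                (.fk [(3, -1), (5, 1), (10, 1), (12, 1)])
                (.mv 62))
               (.mv 44)))
             (.mv 16))
            (.mv 35)))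
          (.mv 12))
         (.mv 1))
        (.br 21 0
         (.br 1 0
          (.br 13 0
           (.br 14 0
            (.fk [(0, 4), (2, -4), (3, 1), (5, -3), (6, 1), (7, -1)])
            (.mv 26))
           (.br 18 0
            (.br 6 0
             (.br 23 0
              (.fk [(0, 4), (2, -4), (3, -3), (5, 3), (6, 1), (7, -1)])
              (.mv 54))
             (.mv 23))
            (.mv 15)))
          (.mv 36))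
         (.mv 1)))
       (.mv 5))
      (.mv 8))))
   (.br 9 0
    (.br 20 0
     (.br 21 0
      (.br 10 0
       (.br 12 0
        (.br 25 0
         (.br 11 0
          (.fk [(0, -4), (2, 4), (3, 1), (5, 1), (6, -1), (7, 1)])
          (.br 16 0
           (.br 4 0
            (.br 18 0
             (.br 22 1
              (.fk [(0, 7), (1, -9), (2, 58), (3, 3), (5, 16), (6, -3), (7, -4)])
              (.br 6 0
               (.br 29 0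
                (.fk [(0, 6), (1, -1), (2, 43), (3, 7), (4, 7), (5, 7), (6, 2), (7, -8), (10, -16), (12, 7)])
                (.br 29 1
                 (.fk [(0, 6), (1, -1), (2, 43), (3, 7), (4, 7), (5, 7), (6, 2), (7, -8), (10, -16), (12, 7)])
                 (.br 13 0
                  (.fk [(0, 8), (1, -6), (2, 70), (3, 15), (5, -13), (6, -2), (7, -7)])
                  (.mv 64))))
               (.mv 50)))
             (.mv 30))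
            (.mv 24))
           (.mv 3)))
         (.mv 14))
        (.br 17 0
         (.br 25 0
          (.br 6 0
           (.br 19 0
            (.br 12 1
             (.fk [(2, 8), (3, 1), (4, 1), (5, 1), (6, -1)])
             (.br 22 1
              (.fk [(2, 8), (4, 1), (5, 1), (7, -1)])
              (.br 18 0
               (.fk [(0, -4), (1, -24), (2, 44), (3, -3), (4, 2), (5, 1), (6, -3), (7, 1), (13, 2)])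
               (.mv 63))))
            (.mv 32))
           (.mv 17))
          (.mv 14))
         (.mv 11)))
       (.br 5 0
        (.br 26 0
         (.br 23 0
          (.br 25 0
           (.br 17 0
            (.br 4 0
             (.br 6 0
              (.br 16 0
               (.br 12 0
                (.fk [(1, 4), (2, 4), (3, 1), (4, 1), (5, 1), (6, -1)])
                (.br 18 0
                 (.fk [(0, 4), (1, 16), (2, 12), (3, 1), (4, 16), (5, 3), (6, -3), (7, -1)])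
                 (.mv 42)))
               (.br 11 0
                (.br 12 0
                 (.fk [(0, -4), (2, 4), (3, 1), (5, 1), (6, -1), (7, 1)])
                 (.br 18 0
                  (.br 7 0
                   (.fk [(1, 12), (2, 12), (4, 3), (5, 3), (6, -3), (13, 1)])
                   (.mv 61))
                  (.mv 42)))
                (.mv 3)))
              (.br 12 0
               (.br 0 0
                (.br 1 0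
                 (.fk [(0, 36), (2, 28), (3, 5), (4, 8), (5, 8), (6, -9), (7, 1)])
                 (.mv 16))
                (.mv 21))
               (.mv 17)))
             (.br 12 0
              (.br 11 0
               (.fk [(0, -4), (2, 4), (3, 1), (5, 1), (6, -1), (7, 1)])
               (.mv 24))
              (.br 19 0
               (.br 11 0
                (.br 18 0
                 (.br 6 0
                  (.br 15 0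
                   (.fk [(0, -12), (1, -4), (2, 8), (3, -3), (4, -1), (5, 2), (6, -2), (7, 3)])
                   (.mv 58))
                  (.mv 17))
                 (.mv 42))
                (.mv 24))
               (.mv 25))))
            (.br 12 0
             (.br 7 0
              (.br 0 0
               (.br 1 0
                (.fk [(0, 4), (1, 1), (2, 3), (3, 1), (5, 1), (6, -1)])
                (.br 6 0
                 (.br 18 0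
                  (.br 19 0
                   (.br 11 0
                    (.fk [(0, -1), (2, 1), (3, 1), (5, 1), (6, -1), (7, 1)])
                    (.br 4 0
                     (.fk [(0, 1), (1, 4), (2, 3), (3, 1), (5, 1), (6, -1)])
                     (.mv 24)))
                   (.mv 43))
                  (.mv 27))
                 (.mv 16)))
               (.br 6 0
                (.br 11 0
                 (.fk [(0, -4), (2, 4), (3, 1), (5, 1), (6, -1), (7, 1)])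
                 (.br 4 0
                  (.br 29 0
                   (.fk [(0, -6), (1, 12), (2, 18), (3, 1), (4, 1), (5, 1), (6, 1), (7, -4), (9, 2), (10, -11), (12, 9)])
                   (.br 29 1
                    (.fk [(0, 2), (1, 8), (2, 6), (3, 3), (4, 2), (5, 3), (7, -2), (9, 1), (10, -4), (11, 1), (12, 2)])
                    (.mv 65)))
                  (.mv 24)))
                (.mv 21)))
              (.br 11 0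
               (.fk [(0, -4), (2, 4), (3, 1), (5, 1), (6, -1), (7, 1)])
               (.br 4 0
                (.br 6 0
                 (.br 13 0
                  (.fk [(0, 4), (1, 16), (2, 12), (3, 7), (5, 3), (6, -3), (7, -1)])
                  (.mv 53))
                 (.mv 51))
                (.mv 24))))
             (.mv 11)))
           (.mv 14))
          (.mv 6))
         (.mv 4))
        (.br 0 0
         (.br 11 0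
          (.fk [(0, -2), (1, -1), (2, 3), (3, -1), (5, 1), (6, -1), (7, 1)])
          (.br 18 0
           (.br 1 0
            (.fk [(0, 4), (1, -4), (3, -3), (5, 1), (6, -1), (7, 1)])
            (.mv 39))
           (.mv 30)))
         (.mv 10))))
      (.mv 1))
     (.mv 13))
    (.mv 9)))
  (.mv 0))

def D2_0_0_0 : Inst where
  rows :=
   [(false, [1, 1, 1, 0, 0, 0, 0, 0, 0, 0, 0, 0, 0, 0, 0, 0, 0, 0, 0, 0, 0, 0, 0, 0, 0, 0, 0, 0, 0, 0, -1], 0),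
    (false, [0, 0, 0, 1, 1, 1, 1, 1, 0, 0, 0, 0, 0, 0, 0, 0, 0, 0, 0, 0, 0, 0, 0, 0, 0, 0, 0, 0, 0, 0, -1], 0),
    (false, [0, 0, 0, 0, 0, 0, 0, 0, 1, 1, 1, 0, 0, 0, 0, 0, 0, 0, 0, 0, 0, 0, 0, 0, 0, 0, 0, 0, 0, 0, -1], 0),
    (false, [0, 0, 0, 0, 0, 0, 0, 0, 0, 0, 0, 1, 1, 1, 1, 0, 0, 0, 0, 0, 0, 0, 0, 0, 0, 0, 0, 0, 0, 0, 0], 2),
    (false, [0, 0, 0, 0, 0, 0, 0, 0, 0, 0, 0, 0, 0, 0, 0, 1, 1, 1, 1, 1, 0, 0, 0, 0, 0, 0, 0, 0, 0, 0, 0], 2),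
    (false, [0, 0, 0, 0, 0, 0, 0, 0, 0, 0, 0, 0, 0, 0, 0, 0, 0, 0, 0, 0, 1, 1, 1, 1, 0, 0, 0, 0, 0, 0, 0], 2),
    (false, [0, 1, 4, 4, 1, 0, 1, 4, 0, 1, 4, 1, 0, 1, 4, 4, 1, 0, 1, 4, 1, 0, 1, 4, 0, 1, 4, 0, 0, 0, -8], 4),
    (false, [4, 1, 0, 4, 1, 0, 1, 4, 4, 1, 0, 4, 1, 0, 1, 4, 1, 0, 1, 4, 4, 1, 0, 1, 0, 1, 4, 0, 0, 0, -8], 4),
    (false, [-1, -1, -1, 1, 1, 1, 1, 1, -1, -1, -1, 0, 0, 0, 0, 1, 1, 1, 1, 1, 0, 0, 0, 0, 1, 1, 1, -1, 0, 0, 0], 0),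
    (false, [1, 1, 1, -1, -1, -1, -1, -1, -1, -1, -1, 1, 1, 1, 1, 0, 0, 0, 0, 0, 0, 0, 0, 0, 1, 1, 1, 0, -1, 0, 0], 0),
    (false, [-1, 0, 1, -1, 0, 1, 0, -1, -1, 0, 1, -1, 0, 1, 0, -1, 0, 1, 0, -1, -1, 0, 1, 0, 1, 0, -1, 0, 0, -1, 0], 0),
    (true, [-1, -1, -1, -1, -1, -1, -1, -1, 1, 1, 1, 0, 0, 0, 0, 0, 0, 0, 0, 0, 1, 1, 1, 1, 1, 1, 1, 0, 0, 0, 0], 0),
    (true, [1, 0, -1, -1, 0, 1, 0, -1, 1, 0, -1, 0, 1, 0, -1, -1, 0, 1, 0, -1, 0, 1, 0, -1, 1, 0, -1, 0, 0, 0, 0], 0),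
    (true, [0, 1, 4, 0, 1, 4, 9, 16, 4, 1, 0, 1, 0, 1, 4, 1, 0, 1, 4, 9, 4, 1, 0, 1, 0, 1, 4, 0, 0, 0, 0], 1),
    (true, [4, 1, 0, 16, 9, 4, 1, 0, 0, 1, 4, 4, 1, 0, 1, 9, 4, 1, 0, 1, 1, 0, 1, 4, 0, 1, 4, 0, 0, 0, 0], 1),
    (true, [0, 0, 0, 0, 0, 0, 0, 0, 0, 0, 0, 0, 0, 0, 0, 0, 0, 0, 0, 0, 0, 0, 0, 0, 0, 0, 0, 0, 0, 0, 1], 0),
    (true, [4, 1, 0, 16, 9, 4, 1, 0, 0, 1, 4, 4, 1, 0, 1, 9, 4, 1, 0, 1, 1, 0, 1, 4, 0, 1, 4, 0, 0, 0, -8], 5)]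
  moves := D2_moves0
  reqs := D2_reqs0
  tree := D2_0_0_0_tree

theorem D2_0_0_0_ok : D2.instOK 0 0 0 D2_0_0_0 = true := by
  decide +kernel

def D2_0_1_0_tree : Tree :=
  (.br 8 0
  (.br 9 0
   (.br 21 0
    (.br 20 0
     (.fk [(0, 4), (1, -8), (2, 36), (3, 1), (4, -2), (5, 9), (6, -3), (7, 5), (16, 6)])
     (.br 22 0
      (.br 12 0
       (.br 25 0
        (.br 17 0
         (.br 13 0
          (.br 1 0
           (.fk [(0, 8), (1, 4), (2, 20), (3, 10), (4, 1), (5, 1), (6, -2), (7, 1), (16, 3)])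
           (.br 6 0
            (.fk [(0, 4), (1, 8), (2, 20), (3, 7), (4, 2), (5, 1), (6, -3), (7, 1), (16, 2)])
            (.mv 16)))
          (.br 18 0
           (.fk [(0, 4), (1, 4), (2, 24), (3, 3), (4, 7), (5, -2), (6, -3), (7, 2), (16, 3)])
           (.mv 15)))
         (.br 1 0
          (.br 14 0
           (.br 7 0
            (.br 13 0
             (.fk [(0, 8), (1, 4), (2, 20), (3, 10), (4, 1), (5, 1), (6, -2), (7, 1), (16, 3)])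
             (.br 6 0
              (.fk [(0, 4), (1, 4), (2, 8), (3, 1), (4, 1), (5, 2), (6, -1), (16, 1)])
              (.mv 23)))
            (.br 2 0
             (.fk [(0, 220), (1, 36), (2, 32), (3, -19), (4, 9), (5, 60), (6, 19), (7, -28), (16, 27)])
             (.mv 8)))
           (.mv 26))
          (.mv 36)))
        (.mv 12))
       (.br 17 0
        (.br 18 0
         (.br 6 0
          (.fk [(0, 4), (1, 8), (2, 20), (3, 1), (4, 10), (5, 1), (6, -3), (7, 1), (16, 2)])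
          (.br 1 0
           (.fk [(0, 8), (1, 4), (2, 20), (3, 2), (4, 7), (5, 1), (6, -2), (7, 1), (16, 3)])
           (.mv 16)))
         (.br 10 0
          (.fk [(0, 8), (2, 64), (3, 2), (4, 9), (5, 15), (6, -2), (7, -7)])
          (.mv 48)))
        (.mv 11)))
      (.mv 13)))
    (.mv 1))
   (.br 21 0
    (.br 20 0
     (.br 22 0
      (.br 0 0
       (.br 24 0
        (.fk [(3, -2), (4, -3), (5, 9), (6, -2), (7, 3), (10, 4), (16, 1)])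
        (.br 23 0
         (.fk [(5, 1)])
         (.mv 31)))
       (.br 17 0
        (.br 5 0
         (.br 19 0
          (.br 13 0
           (.br 2 0
            (.br 18 0
             (.br 23 0
              (.fk [(5, 1)])
              (.br 24 0
               (.fk [(3, -3), (4, 12), (5, 12), (6, 1), (7, 3), (10, 12), (12, 4), (16, 4)])
               (.mv 31)))
             (.br 23 0
              (.fk [(5, 1)])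
              (.mv 29)))
            (.br 7 0
             (.fk [(4, -1), (5, 3), (7, 1), (16, 1)])
             (.mv 8)))
           (.br 18 0
            (.br 7 0
             (.fk [(4, 1), (5, 1), (7, 1), (16, 1)])
             (.br 2 0
              (.br 16 0
               (.br 23 0
                (.fk [(5, 1)])
                (.mv 52))
               (.mv 34))
              (.mv 8)))
            (.mv 15)))
          (.br 13 0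
           (.br 7 0
            (.fk [(4, -3), (5, 3), (7, 1), (16, 1)])
            (.br 2 0
             (.br 1 0
              (.fk [(0, 24), (1, 4), (2, 4), (3, -2), (4, 1), (5, 7), (6, 2), (7, -3), (16, 3)])
              (.br 6 0
               (.br 24 0
                (.fk [(0, -40), (1, 40), (3, -19), (4, -5), (5, 48), (6, -7), (7, 12), (10, 48), (12, 12), (16, 5)])
                (.mv 47))
               (.mv 16)))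
             (.mv 8)))
           (.mv 28)))
         (.mv 10))
        (.br 11 0
         (.br 23 0
          (.fk [(5, 1)])
          (.mv 59))
         (.mv 18))))
      (.mv 9))
     (.mv 5))
    (.mv 1)))
  (.mv 0))

def D2_0_1_0 : Inst where
  rows :=
   [(false, [1, 1, 1, 0, 0, 0, 0, 0, 0, 0, 0, 0, 0, 0, 0, 0, 0, 0, 0, 0, 0, 0, 0, 0, 0, 0, 0, 0, 0, 0, -1], 0),
    (false, [0, 0, 0, 1, 1, 1, 1, 1, 0, 0, 0, 0, 0, 0, 0, 0, 0, 0, 0, 0, 0, 0, 0, 0, 0, 0, 0, 0, 0, 0, -1], 0),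
    (false, [0, 0, 0, 0, 0, 0, 0, 0, 1, 1, 1, 0, 0, 0, 0, 0, 0, 0, 0, 0, 0, 0, 0, 0, 0, 0, 0, 0, 0, 0, -1], 0),
    (false, [0, 0, 0, 0, 0, 0, 0, 0, 0, 0, 0, 1, 1, 1, 1, 0, 0, 0, 0, 0, 0, 0, 0, 0, 0, 0, 0, 0, 0, 0, 0], 2),
    (false, [0, 0, 0, 0, 0, 0, 0, 0, 0, 0, 0, 0, 0, 0, 0, 1, 1, 1, 1, 1, 0, 0, 0, 0, 0, 0, 0, 0, 0, 0, 0], 2),
    (false, [0, 0, 0, 0, 0, 0, 0, 0, 0, 0, 0, 0, 0, 0, 0, 0, 0, 0, 0, 0, 1, 1, 1, 1, 0, 0, 0, 0, 0, 0, 0], 2),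
    (false, [0, 1, 4, 4, 1, 0, 1, 4, 0, 1, 4, 1, 0, 1, 4, 4, 1, 0, 1, 4, 1, 0, 1, 4, 0, 1, 4, 0, 0, 0, -8], 4),
    (false, [4, 1, 0, 4, 1, 0, 1, 4, 4, 1, 0, 4, 1, 0, 1, 4, 1, 0, 1, 4, 4, 1, 0, 1, 0, 1, 4, 0, 0, 0, -8], 4),
    (false, [-1, -1, -1, 1, 1, 1, 1, 1, -1, -1, -1, 0, 0, 0, 0, 1, 1, 1, 1, 1, 0, 0, 0, 0, 1, 1, 1, -1, 0, 0, 0], 0),
    (false, [1, 1, 1, -1, -1, -1, -1, -1, -1, -1, -1, 1, 1, 1, 1, 0, 0, 0, 0, 0, 0, 0, 0, 0, 1, 1, 1, 0, -1, 0, 0], 0),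
    (false, [-1, 0, 1, -1, 0, 1, 0, -1, -1, 0, 1, -1, 0, 1, 0, -1, 0, 1, 0, -1, -1, 0, 1, 0, 1, 0, -1, 0, 0, -1, 0], 0),
    (true, [-1, -1, -1, -1, -1, -1, -1, -1, 1, 1, 1, 0, 0, 0, 0, 0, 0, 0, 0, 0, 1, 1, 1, 1, 1, 1, 1, 0, 0, 0, 0], 0),
    (true, [1, 0, -1, -1, 0, 1, 0, -1, 1, 0, -1, 0, 1, 0, -1, -1, 0, 1, 0, -1, 0, 1, 0, -1, 1, 0, -1, 0, 0, 0, 0], 0),
    (true, [0, 1, 4, 0, 1, 4, 9, 16, 4, 1, 0, 1, 0, 1, 4, 1, 0, 1, 4, 9, 4, 1, 0, 1, 0, 1, 4, 0, 0, 0, 0], 1),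
    (true, [4, 1, 0, 16, 9, 4, 1, 0, 0, 1, 4, 4, 1, 0, 1, 9, 4, 1, 0, 1, 1, 0, 1, 4, 0, 1, 4, 0, 0, 0, 0], 1),
    (true, [0, 0, 0, 0, 0, 0, 0, 0, 0, 0, 0, 0, 0, 0, 0, 0, 0, 0, 0, 0, 0, 0, 0, 0, 0, 0, 0, 0, 0, 0, 1], 0),
    (true, [-4, -1, 0, -16, -9, -4, -1, 0, 0, -1, -4, -4, -1, 0, -1, -9, -4, -1, 0, -1, -1, 0, -1, -4, 0, -1, -4, 0, 0, 0, 8], -3)]
  moves := D2_moves0
  reqs := D2_reqs0
  tree := D2_0_1_0_tree

theorem D2_0_1_0_ok : D2.instOK 0 1 0 D2_0_1_0 = true := by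
  decide +kernel

def D2_0_2_0_tree : Tree :=
  (.br 8 0
  (.br 21 0
   (.br 20 0
    (.br 9 0
     (.fk [(0, 4), (1, 4), (2, 24), (3, 1), (4, 1), (5, 6), (6, -3), (7, 2), (16, -3), (17, 6)])
     (.br 22 0
      (.br 24 0
       (.fk [(3, -3), (4, -3), (5, 6), (6, -1), (7, 2), (10, 4), (16, -1), (17, 6)])
       (.br 23 0
        (.fk [(5, 1)])
        (.mv 31)))
      (.mv 9)))
    (.br 9 0
     (.fk [(0, 4), (1, 4), (2, 24), (3, 1), (4, 1), (5, -2), (6, -3), (7, 2), (16, -3), (17, 24)])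
     (.mv 5)))
   (.mv 1))
  (.mv 0))

def D2_0_2_0 : Inst where
  rows :=
   [(false, [1, 1, 1, 0, 0, 0, 0, 0, 0, 0, 0, 0, 0, 0, 0, 0, 0, 0, 0, 0, 0, 0, 0, 0, 0, 0, 0, 0, 0, 0, -1], 0),
    (false, [0, 0, 0, 1, 1, 1, 1, 1, 0, 0, 0, 0, 0, 0, 0, 0, 0, 0, 0, 0, 0, 0, 0, 0, 0, 0, 0, 0, 0, 0, -1], 0),
    (false, [0, 0, 0, 0, 0, 0, 0, 0, 1, 1, 1, 0, 0, 0, 0, 0, 0, 0, 0, 0, 0, 0, 0, 0, 0, 0, 0, 0, 0, 0, -1], 0),
    (false, [0, 0, 0, 0, 0, 0, 0, 0, 0, 0, 0, 1, 1, 1, 1, 0, 0, 0, 0, 0, 0, 0, 0, 0, 0, 0, 0, 0, 0, 0, 0], 2),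
    (false, [0, 0, 0, 0, 0, 0, 0, 0, 0, 0, 0, 0, 0, 0, 0, 1, 1, 1, 1, 1, 0, 0, 0, 0, 0, 0, 0, 0, 0, 0, 0], 2),
    (false, [0, 0, 0, 0, 0, 0, 0, 0, 0, 0, 0, 0, 0, 0, 0, 0, 0, 0, 0, 0, 1, 1, 1, 1, 0, 0, 0, 0, 0, 0, 0], 2),
    (false, [0, 1, 4, 4, 1, 0, 1, 4, 0, 1, 4, 1, 0, 1, 4, 4, 1, 0, 1, 4, 1, 0, 1, 4, 0, 1, 4, 0, 0, 0, -8], 4),
    (false, [4, 1, 0, 4, 1, 0, 1, 4, 4, 1, 0, 4, 1, 0, 1, 4, 1, 0, 1, 4, 4, 1, 0, 1, 0, 1, 4, 0, 0, 0, -8], 4),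
    (false, [-1, -1, -1, 1, 1, 1, 1, 1, -1, -1, -1, 0, 0, 0, 0, 1, 1, 1, 1, 1, 0, 0, 0, 0, 1, 1, 1, -1, 0, 0, 0], 0),
    (false, [1, 1, 1, -1, -1, -1, -1, -1, -1, -1, -1, 1, 1, 1, 1, 0, 0, 0, 0, 0, 0, 0, 0, 0, 1, 1, 1, 0, -1, 0, 0], 0),
    (false, [-1, 0, 1, -1, 0, 1, 0, -1, -1, 0, 1, -1, 0, 1, 0, -1, 0, 1, 0, -1, -1, 0, 1, 0, 1, 0, -1, 0, 0, -1, 0], 0),
    (true, [-1, -1, -1, -1, -1, -1, -1, -1, 1, 1, 1, 0, 0, 0, 0, 0, 0, 0, 0, 0, 1, 1, 1, 1, 1, 1, 1, 0, 0, 0, 0], 0),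
    (true, [1, 0, -1, -1, 0, 1, 0, -1, 1, 0, -1, 0, 1, 0, -1, -1, 0, 1, 0, -1, 0, 1, 0, -1, 1, 0, -1, 0, 0, 0, 0], 0),
    (true, [0, 1, 4, 0, 1, 4, 9, 16, 4, 1, 0, 1, 0, 1, 4, 1, 0, 1, 4, 9, 4, 1, 0, 1, 0, 1, 4, 0, 0, 0, 0], 1),
    (true, [4, 1, 0, 16, 9, 4, 1, 0, 0, 1, 4, 4, 1, 0, 1, 9, 4, 1, 0, 1, 1, 0, 1, 4, 0, 1, 4, 0, 0, 0, 0], 1),
    (true, [0, 0, 0, 0, 0, 0, 0, 0, 0, 0, 0, 0, 0, 0, 0, 0, 0, 0, 0, 0, 0, 0, 0, 0, 0, 0, 0, 0, 0, 0, 1], 0),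
    (false, [4, 1, 0, 16, 9, 4, 1, 0, 0, 1, 4, 4, 1, 0, 1, 9, 4, 1, 0, 1, 1, 0, 1, 4, 0, 1, 4, 0, 0, 0, -8], 4),
    (true, [0, 0, 0, 1, 1, 0, 0, 0, 0, 0, 0, 0, 0, 0, 0, 1, 0, 0, 0, 0, 0, 0, 0, 0, 0, 0, 0, 0, 0, 0, 0], 1)]
  moves := D2_moves0
  reqs := D2_reqs0
  tree := D2_0_2_0_tree

theorem D2_0_2_0_ok : D2.instOK 0 2 0 D2_0_2_0 = true := by
  decide +kernel

def D2_0_3_0_tree : Tree :=
  (.br 8 0
  (.br 22 0
   (.br 21 0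
    (.br 9 0
     (.br 7 0
      (.br 20 0
       (.fk [(0, 12), (1, 12), (2, 24), (3, 3), (4, 4), (5, 4), (6, -3), (7, 5), (10, 4), (11, 6), (16, -8), (17, 10)])
       (.br 6 0
        (.fk [(0, 10), (1, 34), (2, 36), (3, 9), (4, 8), (5, 7), (7, 1), (12, 1), (16, -11), (17, 9)])
        (.br 2 0
         (.br 1 0
          (.fk [(0, 8), (2, 8), (3, 1), (4, 1), (5, 1), (6, 1), (12, 2), (16, -3), (17, 2)])
          (.mv 16))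
         (.mv 33))))
      (.br 2 0
       (.br 12 0
        (.fk [(0, 2), (1, 2), (2, 12), (3, 4), (4, -1), (5, -1), (6, 1), (7, 1), (12, 5), (16, -4), (17, 5)])
        (.br 17 0
         (.br 10 0
          (.fk [(0, -1), (1, 1), (2, 8), (3, 1), (4, 2), (5, 2), (10, 1), (16, -1), (17, 2)])
          (.br 19 0
           (.fk [(4, 1), (5, -1), (7, 1), (10, 2), (16, -1), (17, 2)])
           (.mv 25)))
         (.mv 11)))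
       (.mv 8)))
     (.br 20 0
      (.fk [(4, -1), (5, 1), (7, 1), (10, 2), (16, -1), (17, 2)])
      (.mv 5)))
    (.mv 1))
   (.br 9 0
    (.br 20 0
     (.br 21 0
      (.fk [(0, 8), (1, 6), (2, 18), (3, 2), (4, 3), (5, 3), (6, -2), (7, 2), (8, 1), (11, 3), (16, -4), (17, 4)])
      (.mv 1))
     (.mv 13))
    (.mv 9)))
  (.mv 0))

def D2_0_3_0 : Inst where
  rows :=
   [(false, [1, 1, 1, 0, 0, 0, 0, 0, 0, 0, 0, 0, 0, 0, 0, 0, 0, 0, 0, 0, 0, 0, 0, 0, 0, 0, 0, 0, 0, 0, -1], 0),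
    (false, [0, 0, 0, 1, 1, 1, 1, 1, 0, 0, 0, 0, 0, 0, 0, 0, 0, 0, 0, 0, 0, 0, 0, 0, 0, 0, 0, 0, 0, 0, -1], 0),
    (false, [0, 0, 0, 0, 0, 0, 0, 0, 1, 1, 1, 0, 0, 0, 0, 0, 0, 0, 0, 0, 0, 0, 0, 0, 0, 0, 0, 0, 0, 0, -1], 0),
    (false, [0, 0, 0, 0, 0, 0, 0, 0, 0, 0, 0, 1, 1, 1, 1, 0, 0, 0, 0, 0, 0, 0, 0, 0, 0, 0, 0, 0, 0, 0, 0], 2),
    (false, [0, 0, 0, 0, 0, 0, 0, 0, 0, 0, 0, 0, 0, 0, 0, 1, 1, 1, 1, 1, 0, 0, 0, 0, 0, 0, 0, 0, 0, 0, 0], 2),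
    (false, [0, 0, 0, 0, 0, 0, 0, 0, 0, 0, 0, 0, 0, 0, 0, 0, 0, 0, 0, 0, 1, 1, 1, 1, 0, 0, 0, 0, 0, 0, 0], 2),
    (false, [0, 1, 4, 4, 1, 0, 1, 4, 0, 1, 4, 1, 0, 1, 4, 4, 1, 0, 1, 4, 1, 0, 1, 4, 0, 1, 4, 0, 0, 0, -8], 4),
    (false, [4, 1, 0, 4, 1, 0, 1, 4, 4, 1, 0, 4, 1, 0, 1, 4, 1, 0, 1, 4, 4, 1, 0, 1, 0, 1, 4, 0, 0, 0, -8], 4),
    (false, [-1, -1, -1, 1, 1, 1, 1, 1, -1, -1, -1, 0, 0, 0, 0, 1, 1, 1, 1, 1, 0, 0, 0, 0, 1, 1, 1, -1, 0, 0, 0], 0),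
    (false, [1, 1, 1, -1, -1, -1, -1, -1, -1, -1, -1, 1, 1, 1, 1, 0, 0, 0, 0, 0, 0, 0, 0, 0, 1, 1, 1, 0, -1, 0, 0], 0),
    (false, [-1, 0, 1, -1, 0, 1, 0, -1, -1, 0, 1, -1, 0, 1, 0, -1, 0, 1, 0, -1, -1, 0, 1, 0, 1, 0, -1, 0, 0, -1, 0], 0),
    (true, [-1, -1, -1, -1, -1, -1, -1, -1, 1, 1, 1, 0, 0, 0, 0, 0, 0, 0, 0, 0, 1, 1, 1, 1, 1, 1, 1, 0, 0, 0, 0], 0),
    (true, [1, 0, -1, -1, 0, 1, 0, -1, 1, 0, -1, 0, 1, 0, -1, -1, 0, 1, 0, -1, 0, 1, 0, -1, 1, 0, -1, 0, 0, 0, 0], 0),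
    (true, [0, 1, 4, 0, 1, 4, 9, 16, 4, 1, 0, 1, 0, 1, 4, 1, 0, 1, 4, 9, 4, 1, 0, 1, 0, 1, 4, 0, 0, 0, 0], 1),
    (true, [4, 1, 0, 16, 9, 4, 1, 0, 0, 1, 4, 4, 1, 0, 1, 9, 4, 1, 0, 1, 1, 0, 1, 4, 0, 1, 4, 0, 0, 0, 0], 1),
    (true, [0, 0, 0, 0, 0, 0, 0, 0, 0, 0, 0, 0, 0, 0, 0, 0, 0, 0, 0, 0, 0, 0, 0, 0, 0, 0, 0, 0, 0, 0, 1], 0),
    (false, [4, 1, 0, 16, 9, 4, 1, 0, 0, 1, 4, 4, 1, 0, 1, 9, 4, 1, 0, 1, 1, 0, 1, 4, 0, 1, 4, 0, 0, 0, -8], 4),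
    (true, [1, 0, -1, 0, 0, 1, 0, -1, -1, 0, 1, 1, 0, -1, 0, 0, 1, 0, -1, 0, 0, -1, 0, 1, -1, 0, 1, 0, 0, 0, 0], 1)]
  moves := D2_moves0
  reqs := D2_reqs0
  tree := D2_0_3_0_tree

theorem D2_0_3_0_ok : D2.instOK 0 3 0 D2_0_3_0 = true := by
  decide +kernel

theorem D2_ok0 : ∀ b ∈ D2.branches, ∃ I : Inst, D2.instOK 0 b.1 b.2 I = true := by
  intro b hb
  have h : b = (0, 0) ∨ b = (1, 0) ∨ b = (2, 0) ∨ b = (3, 0) := by
    have hb2 : b ∈ [(0, 0), (1, 0), (2, 0), (3, 0)] := hb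
    simpa using hb2
  rcases h with rfl | rfl | rfl | rfl
  · exact ⟨D2_0_0_0, D2_0_0_0_ok⟩
  · exact ⟨D2_0_1_0, D2_0_1_0_ok⟩
  · exact ⟨D2_0_2_0, D2_0_2_0_ok⟩
  · exact ⟨D2_0_3_0, D2_0_3_0_ok⟩

end Pool.Agent.helper1.CAD
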