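import Pool.Agent.helper1.CAD.Sound

namespace Pool.Agent.helper1.CAD

set_option maxRecDepth 100000

def D2t : Spec where
  K := .D
  tys := [(2, 2, [1], 0), (2, 0, [1], 0), (2, 1, [0], 1), (0, 1, [0], 3), (0, 2, [1], 0)]
  kc := ([4], 2)
  pmin := [0]
  sl := (1, -1)
  good := true
  pv := 0
  px := 0
  pvx := 0

def D2t_moves0 : List Move :=
   [([((0, 1, 0), -1)], 0),
    ([((0, 2, 0), -2)], 0),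
    ([((2, 2, 1), 0), ((2, 0, 1), 2)], 0),
    ([((0, 2, 2), 0), ((0, 0, 2), 2)], 0),
    ([((0, 1, 1), 0), ((0, 0, 1), 1)], 0),
    ([((0, 1, 1), 2), ((0, 2, 1), 1)], 0),
    ([((0, 1, -1), -1), ((0, 1, 1), -1)], 0),
    ([((2, 0, -1), 1), ((2, 1, -1), 0)], 0),
    ([((2, 2, 0), 0), ((2, 0, 0), 2)], 0),
    ([((2, 2, 1), 1), ((2, 1, 1), 2)], 0),
    ([((2, 0, 2), 1), ((2, 1, 2), 0)], 0),
    ([((2, 2, 2), 1), ((2, 1, 2), 2)], 0),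
    ([((2, 0, 0), 1), ((2, 1, 0), 0)], 0),
    ([((2, 2, 2), 0), ((2, 0, 2), 2)], 0),
    ([((0, 1, 2), 2), ((0, 2, 2), 1)], 0),
    ([((0, 2, 1), 0), ((0, 0, 1), 2)], 0),
    ([((0, 1, -1), -2), ((0, 2, 1), -1)], 0),
    ([((0, 1, 2), 0), ((0, 0, 2), 1)], 0),
    ([((0, 1, -1), 0), ((0, 0, 1), -1)], 0),
    ([((2, 2, 0), 1), ((2, 1, 0), 2)], 0),
    ([((2, 0, 1), 1), ((2, 1, 1), 0)], 0),
    ([((2, 0, 1), 1), ((2, 1, -1), 0), ((0, 1, 1), -1)], 0),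
    ([((2, 0, 0), 1), ((2, 1, 2), 0), ((0, 1, -1), -1)], 0),
    ([((0, 1, 2), 2), ((0, 2, 1), 0), ((0, 0, 0), -1)], 0),
    ([((2, 2, 1), 0), ((2, 0, 0), 2), ((0, 1, -1), -1)], 0),
    ([((2, 2, 0), 1), ((2, 1, 2), 2), ((0, 1, 1), -1)], 0),
    ([((2, 2, 2), 0), ((2, 0, 1), 2), ((0, 1, -1), -1)], 0),
    ([((2, 0, -1), 1), ((2, 1, 1), 0), ((0, 1, -1), -1)], 0),
    ([((2, 2, 1), 0), ((2, 0, 2), 1), ((2, 1, 0), 2)], 0),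
    ([((2, 2, 2), 0), ((2, 0, 0), 2), ((0, 1, -1), -1), ((0, 1, -1), -1)], 0),
    ([((2, 0, 2), 1), ((2, 1, 1), 0), ((0, 1, 2), 2), ((0, 2, 1), -1)], 0),
    ([((2, 2, 1), 1), ((2, 1, 0), 2), ((0, 1, -1), -2), ((0, 2, 2), 1)], 0),
    ([((0, 1, -1), -1), ((0, 1, -1), -1), ((0, 2, 2), 0), ((0, 0, 0), -2)], 0),
    ([((2, 2, 0), 0), ((2, 0, 2), 2), ((0, 2, 2), 0), ((0, 0, 0), -2)], 0),
    ([((2, 0, -1), 1), ((2, 1, 0), 0), ((0, 1, -1), -2), ((0, 2, 2), 1)], 0)]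

def D2t_reqs0 : List (List ℤ) :=
   [[0, 0, 0, 0, 0, 0, 0, 0, 0, 0, 0, 0, 0, 1, 0, 0, 0, 0, 0, 0, 0, 0, 0, 0, 0, 0],
    [0, 0, 0, 0, 0, 0, 0, 0, 0, 0, 0, 0, 0, 0, 0, 0, 1, 0, 0, 0, 0, 0, 0, 0, 0, 0],
    [0, 1, 0, 0, 0, 0, 1, 0, 0, 0, 0, 0, 0, 0, 0, 0, 0, 0, 0, 0, 0, 0, 0, 0, 0, 0],
    [0, 0, 0, 0, 0, 0, 0, 0, 0, 0, 0, 0, 0, 0, 0, 0, 0, 0, 1, 0, 0, 1, 0, 0, 0, 0],
    [0, 0, 0, 0, 0, 0, 0, 0, 0, 0, 0, 0, 0, 0, 1, 0, 0, 0, 0, 0, 1, 0, 0, 0, 0, 0],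
    [0, 0, 0, 0, 0, 0, 0, 0, 0, 0, 0, 0, 0, 0, 1, 0, 0, 1, 0, 0, 0, 0, 0, 0, 0, 0],
    [0, 0, 0, 0, 0, 0, 0, 0, 0, 0, 0, 0, 1, 0, 1, 0, 0, 0, 0, 0, 0, 0, 0, 0, 0, 0],
    [0, 0, 0, 0, 1, 0, 0, 0, 1, 0, 0, 0, 0, 0, 0, 0, 0, 0, 0, 0, 0, 0, 0, 0, 0, 0],
    [1, 0, 0, 0, 0, 1, 0, 0, 0, 0, 0, 0, 0, 0, 0, 0, 0, 0, 0, 0, 0, 0, 0, 0, 0, 0],
    [0, 1, 0, 0, 0, 0, 0, 0, 0, 0, 1, 0, 0, 0, 0, 0, 0, 0, 0, 0, 0, 0, 0, 0, 0, 0],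
    [0, 0, 0, 0, 0, 0, 0, 1, 0, 0, 0, 1, 0, 0, 0, 0, 0, 0, 0, 0, 0, 0, 0, 0, 0, 0],
    [0, 0, 1, 0, 0, 0, 0, 0, 0, 0, 0, 1, 0, 0, 0, 0, 0, 0, 0, 0, 0, 0, 0, 0, 0, 0],
    [0, 0, 0, 0, 0, 1, 0, 0, 0, 1, 0, 0, 0, 0, 0, 0, 0, 0, 0, 0, 0, 0, 0, 0, 0, 0],
    [0, 0, 1, 0, 0, 0, 0, 1, 0, 0, 0, 0, 0, 0, 0, 0, 0, 0, 0, 0, 0, 0, 0, 0, 0, 0],
    [0, 0, 0, 0, 0, 0, 0, 0, 0, 0, 0, 0, 0, 0, 0, 1, 0, 0, 1, 0, 0, 0, 0, 0, 0, 0],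
    [0, 0, 0, 0, 0, 0, 0, 0, 0, 0, 0, 0, 0, 0, 0, 0, 0, 1, 0, 0, 1, 0, 0, 0, 0, 0],
    [0, 0, 0, 0, 0, 0, 0, 0, 0, 0, 0, 0, 1, 0, 0, 0, 0, 1, 0, 0, 0, 0, 0, 0, 0, 0],
    [0, 0, 0, 0, 0, 0, 0, 0, 0, 0, 0, 0, 0, 0, 0, 1, 0, 0, 0, 0, 0, 1, 0, 0, 0, 0],
    [0, 0, 0, 0, 0, 0, 0, 0, 0, 0, 0, 0, 1, 0, 0, 0, 0, 0, 0, 0, 1, 0, 0, 0, 0, 0],
    [1, 0, 0, 0, 0, 0, 0, 0, 0, 1, 0, 0, 0, 0, 0, 0, 0, 0, 0, 0, 0, 0, 0, 0, 0, 0],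
    [0, 0, 0, 0, 0, 0, 1, 0, 0, 0, 1, 0, 0, 0, 0, 0, 0, 0, 0, 0, 0, 0, 0, 0, 0, 0],
    [0, 0, 0, 0, 0, 0, 1, 0, 1, 0, 0, 0, 0, 0, 1, 0, 0, 0, 0, 0, 0, 0, 0, 0, 0, 0],
    [0, 0, 0, 0, 0, 1, 0, 0, 0, 0, 0, 1, 1, 0, 0, 0, 0, 0, 0, 0, 0, 0, 0, 0, 0, 0],
    [0, 0, 0, 0, 0, 0, 0, 0, 0, 0, 0, 0, 0, 0, 0, 1, 0, 1, 0, 1, 0, 0, 0, 0, 0, 0],
    [0, 1, 0, 0, 0, 1, 0, 0, 0, 0, 0, 0, 1, 0, 0, 0, 0, 0, 0, 0, 0, 0, 0, 0, 0, 0],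
    [1, 0, 0, 0, 0, 0, 0, 0, 0, 0, 0, 1, 0, 0, 1, 0, 0, 0, 0, 0, 0, 0, 0, 0, 0, 0],
    [0, 0, 1, 0, 0, 0, 1, 0, 0, 0, 0, 0, 1, 0, 0, 0, 0, 0, 0, 0, 0, 0, 0, 0, 0, 0],
    [0, 0, 0, 0, 1, 0, 0, 0, 0, 0, 1, 0, 1, 0, 0, 0, 0, 0, 0, 0, 0, 0, 0, 0, 0, 0],
    [0, 1, 0, 0, 0, 0, 0, 1, 0, 1, 0, 0, 0, 0, 0, 0, 0, 0, 0, 0, 0, 0, 0, 0, 0, 0],
    [0, 0, 1, 0, 0, 1, 0, 0, 0, 0, 0, 0, 2, 0, 0, 0, 0, 0, 0, 0, 0, 0, 0, 0, 0, 0],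
    [0, 0, 0, 0, 0, 0, 0, 1, 0, 0, 1, 0, 0, 0, 0, 1, 0, 1, 0, 0, 0, 0, 0, 0, 0, 0],
    [0, 1, 0, 0, 0, 0, 0, 0, 0, 1, 0, 0, 1, 0, 0, 0, 0, 0, 1, 0, 0, 0, 0, 0, 0, 0],
    [0, 0, 0, 0, 0, 0, 0, 0, 0, 0, 0, 0, 2, 0, 0, 0, 0, 0, 1, 1, 0, 0, 0, 0, 0, 0],
    [1, 0, 0, 0, 0, 0, 0, 1, 0, 0, 0, 0, 0, 0, 0, 0, 0, 0, 1, 1, 0, 0, 0, 0, 0, 0],
    [0, 0, 0, 0, 1, 0, 0, 0, 0, 1, 0, 0, 1, 0, 0, 0, 0, 0, 1, 0, 0, 0, 0, 0, 0, 0]]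

def D2t_base0 : List Row :=
   [(false, [1, 1, 1, 0, 0, 0, 0, 0, 0, 0, 0, 0, 0, 0, 0, 0, 0, 0, 0, 0, 0, 0, 0, 0, 0, -1], 0),
    (false, [0, 0, 0, 1, 1, 1, 1, 1, 0, 0, 0, 0, 0, 0, 0, 0, 0, 0, 0, 0, 0, 0, 0, 0, 0, -1], 0),
    (false, [0, 0, 0, 0, 0, 0, 0, 0, 1, 1, 1, 1, 0, 0, 0, 0, 0, 0, 0, 0, 0, 0, 0, 0, 0, 0], 1),
    (false, [0, 0, 0, 0, 0, 0, 0, 0, 0, 0, 0, 0, 1, 1, 1, 1, 0, 0, 0, 0, 0, 0, 0, 0, 0, 0], 3),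
    (false, [0, 0, 0, 0, 0, 0, 0, 0, 0, 0, 0, 0, 0, 0, 0, 0, 1, 1, 1, 0, 0, 0, 0, 0, 0, -1], 0),
    (false, [0, 1, 4, 4, 1, 0, 1, 4, 1, 0, 1, 4, 1, 0, 1, 4, 0, 1, 4, 0, 1, 4, 0, 0, 0, -8], 4),
    (false, [4, 1, 0, 4, 1, 0, 1, 4, 4, 1, 0, 1, 4, 1, 0, 1, 4, 1, 0, 0, 1, 4, 0, 0, 0, -8], 4),
    (false, [-1, -1, -1, 1, 1, 1, 1, 1, 0, 0, 0, 0, 0, 0, 0, 0, -1, -1, -1, 1, 1, 1, -1, 0, 0, 0], 0),
    (false, [1, 1, 1, -1, -1, -1, -1, -1, 0, 0, 0, 0, 0, 0, 0, 0, -1, -1, -1, 1, 1, 1, 0, -1, 0, 0], 0),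
    (false, [-1, 0, 1, -1, 0, 1, 0, -1, -1, 0, 1, 0, -1, 0, 1, 0, -1, 0, 1, 1, 0, -1, 0, 0, -1, 0], 0),
    (true, [-1, -1, -1, -1, -1, -1, -1, -1, -1, -1, -1, -1, 1, 1, 1, 1, 1, 1, 1, 1, 1, 1, 0, 0, 0, 0], 1),
    (true, [1, 0, -1, -1, 0, 1, 0, -1, 0, 1, 0, -1, 0, 1, 0, -1, 1, 0, -1, 1, 0, -1, 0, 0, 0, 0], 0),
    (true, [0, 1, 4, 0, 1, 4, 9, 16, 0, 1, 4, 9, 4, 1, 0, 1, 4, 1, 0, 0, 1, 4, 0, 0, 0, 0], 1),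
    (true, [4, 1, 0, 16, 9, 4, 1, 0, 9, 4, 1, 0, 1, 0, 1, 4, 0, 1, 4, 0, 1, 4, 0, 0, 0, 0], 1),
    (true, [0, 0, 0, 0, 0, 0, 0, 0, 0, 0, 0, 0, 0, 0, 0, 0, 0, 0, 0, 0, 0, 0, 0, 0, 0, 1], 0)]

def D2t_0_0_0_tree : Tree :=
  (.br 16 0
  (.br 13 0
   (.br 14 0
    (.br 12 0
     (.br 7 0
      (.br 15 0
       (.fk [(3, 1)])
       (.br 4 0
        (.br 0 0
         (.fk [(2, -6), (3, 3), (5, -2), (6, 2)])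
         (.br 5 0
          (.br 19 0
           (.fk [(2, -4), (3, 1), (5, -1), (6, 1), (9, 5), (11, 1)])
           (.br 17 0
            (.fk [(0, -8), (2, -6), (3, 3), (4, 8), (5, -2), (6, 2)])
            (.mv 23)))
          (.mv 8)))
        (.br 8 0
         (.br 21 0
          (.br 20 0
           (.br 19 0
            (.fk [(0, 13), (1, -30), (2, -4), (3, 4), (4, 9), (5, -3), (6, 4), (7, 33), (8, 4), (10, 4), (11, 4)])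
            (.br 17 0
             (.fk [(0, -12), (1, -4), (2, -3), (3, 3), (4, 8), (5, -2), (6, 3)])
             (.mv 23)))
           (.br 17 0
            (.fk [(0, -4), (2, -1), (3, 1), (4, 4), (5, -1), (6, 1)])
            (.mv 15)))
          (.mv 17))
         (.mv 7))))
      (.br 2 0
       (.br 11 0
        (.br 10 0
         (.br 19 0
          (.br 5 0
           (.fk [(2, -1), (3, 1), (9, 1), (11, 1)])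
           (.br 0 0
            (.fk [(2, -3), (3, 3), (5, -1), (6, 1)])
            (.mv 8)))
          (.br 17 0
           (.fk [(0, -4), (2, -3), (3, 3), (4, 4), (5, -1), (6, 1)])
           (.br 15 0
            (.fk [(3, 1)])
            (.mv 23))))
         (.br 1 0
          (.br 6 0
           (.br 15 0
            (.fk [(2, -1), (3, 1)])
            (.br 17 0
             (.fk [(0, -8), (2, -6), (3, 3), (4, 8), (5, -2), (6, 2)])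
             (.mv 30)))
           (.mv 20))
          (.mv 9)))
        (.mv 10))
       (.mv 13)))
     (.br 17 0
      (.br 5 0
       (.br 20 0
        (.br 18 0
         (.fk [(0, 36), (1, -4), (2, 8), (3, 60), (4, 256), (5, -13), (6, -28), (15, 5)])
         (.br 15 0
          (.br 6 0
           (.br 1 0
            (.br 4 0
             (.fk [(0, 4), (1, 8), (2, 1), (3, 5), (4, 4), (5, -1), (6, -1)])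
             (.br 10 0
              (.br 9 0
               (.br 12 1
                (.fk [(3, 1)])
                (.br 19 0
                 (.fk [(0, 56), (1, -238), (2, 32), (3, 32), (4, 46), (5, 32), (6, -27), (7, 125), (9, 32), (10, 32), (11, 193), (15, 12)])
                 (.mv 32)))
               (.mv 34))
              (.mv 27)))
            (.br 9 0
             (.br 10 0
              (.br 12 1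
               (.fk [(3, 1)])
               (.br 19 0
                (.fk [(0, 56), (1, -174), (2, 32), (3, 32), (4, -18), (5, 32), (6, -27), (7, 93), (9, 32), (10, 32), (11, 161), (15, 12)])
                (.mv 32)))
              (.mv 9))
             (.mv 31)))
           (.br 2 0
            (.br 1 0
             (.fk [(0, 8), (2, -6), (3, 3), (4, -8), (5, 2), (6, -2)])
             (.mv 2))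
            (.mv 26)))
          (.mv 14)))
        (.mv 18))
       (.br 11 0
        (.br 9 0
         (.br 12 1
          (.br 0 0
           (.fk [(0, 1), (1, -25), (2, -20), (3, 25), (4, 32), (5, -8), (6, 7)])
           (.mv 8))
          (.br 2 0
           (.br 1 0
            (.fk [(0, 4), (2, -1), (3, -3), (4, -4), (5, 1), (6, -1)])
            (.mv 24))
           (.mv 29)))
         (.mv 12))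
        (.mv 22)))
      (.mv 16)))
    (.br 12 0
     (.br 17 0
      (.br 20 0
       (.br 8 0
        (.fk [(0, -4), (2, -1), (3, 1), (4, 4), (5, -1), (6, 1)])
        (.br 4 0
         (.br 6 0
          (.br 18 0
           (.fk [(0, -16), (1, -52), (2, -9), (3, 11), (4, 124), (5, -11), (6, 4), (12, 5)])
           (.br 21 0
            (.br 15 0
             (.br 0 0
              (.fk [(0, 6), (1, -12), (2, -47), (3, 23), (4, 78), (5, -23), (6, 14), (12, 3)])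
              (.br 5 0
               (.br 9 0
                (.br 11 0
                 (.br 19 0
                  (.fk [(0, -28), (1, -104), (2, -24), (3, -4), (4, 68), (5, 4), (6, 4), (7, 40), (8, 4), (11, 44), (12, 5)])
                  (.br 7 0
                   (.fk [(0, -16), (1, -12), (2, -19), (3, 1), (4, 4), (5, -1), (6, 4), (12, 5)])
                   (.mv 33)))
                 (.mv 25))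
                (.mv 19))
               (.mv 8)))
             (.mv 14))
            (.mv 3)))
          (.mv 21))
         (.mv 7)))
       (.mv 4))
      (.mv 5))
     (.mv 6)))
   (.mv 0))
  (.mv 1))

def D2t_0_0_0 : Inst where
  rows :=
   [(false, [1, 1, 1, 0, 0, 0, 0, 0, 0, 0, 0, 0, 0, 0, 0, 0, 0, 0, 0, 0, 0, 0, 0, 0, 0, -1], 0),
    (false, [0, 0, 0, 1, 1, 1, 1, 1, 0, 0, 0, 0, 0, 0, 0, 0, 0, 0, 0, 0, 0, 0, 0, 0, 0, -1], 0),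
    (false, [0, 0, 0, 0, 0, 0, 0, 0, 1, 1, 1, 1, 0, 0, 0, 0, 0, 0, 0, 0, 0, 0, 0, 0, 0, 0], 1),
    (false, [0, 0, 0, 0, 0, 0, 0, 0, 0, 0, 0, 0, 1, 1, 1, 1, 0, 0, 0, 0, 0, 0, 0, 0, 0, 0], 3),
    (false, [0, 0, 0, 0, 0, 0, 0, 0, 0, 0, 0, 0, 0, 0, 0, 0, 1, 1, 1, 0, 0, 0, 0, 0, 0, -1], 0),
    (false, [0, 1, 4, 4, 1, 0, 1, 4, 1, 0, 1, 4, 1, 0, 1, 4, 0, 1, 4, 0, 1, 4, 0, 0, 0, -8], 4),
    (false, [4, 1, 0, 4, 1, 0, 1, 4, 4, 1, 0, 1, 4, 1, 0, 1, 4, 1, 0, 0, 1, 4, 0, 0, 0, -8], 4),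
    (false, [-1, -1, -1, 1, 1, 1, 1, 1, 0, 0, 0, 0, 0, 0, 0, 0, -1, -1, -1, 1, 1, 1, -1, 0, 0, 0], 0),
    (false, [1, 1, 1, -1, -1, -1, -1, -1, 0, 0, 0, 0, 0, 0, 0, 0, -1, -1, -1, 1, 1, 1, 0, -1, 0, 0], 0),
    (false, [-1, 0, 1, -1, 0, 1, 0, -1, -1, 0, 1, 0, -1, 0, 1, 0, -1, 0, 1, 1, 0, -1, 0, 0, -1, 0], 0),
    (true, [-1, -1, -1, -1, -1, -1, -1, -1, -1, -1, -1, -1, 1, 1, 1, 1, 1, 1, 1, 1, 1, 1, 0, 0, 0, 0], 1),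
    (true, [1, 0, -1, -1, 0, 1, 0, -1, 0, 1, 0, -1, 0, 1, 0, -1, 1, 0, -1, 1, 0, -1, 0, 0, 0, 0], 0),
    (true, [0, 1, 4, 0, 1, 4, 9, 16, 0, 1, 4, 9, 4, 1, 0, 1, 4, 1, 0, 0, 1, 4, 0, 0, 0, 0], 1),
    (true, [4, 1, 0, 16, 9, 4, 1, 0, 9, 4, 1, 0, 1, 0, 1, 4, 0, 1, 4, 0, 1, 4, 0, 0, 0, 0], 1),
    (true, [0, 0, 0, 0, 0, 0, 0, 0, 0, 0, 0, 0, 0, 0, 0, 0, 0, 0, 0, 0, 0, 0, 0, 0, 0, 1], 0),
    (true, [4, 1, 0, 16, 9, 4, 1, 0, 9, 4, 1, 0, 1, 0, 1, 4, 0, 1, 4, 0, 1, 4, 0, 0, 0, -8], 5)]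
  moves := D2t_moves0
  reqs := D2t_reqs0
  tree := D2t_0_0_0_tree

theorem D2t_0_0_0_ok : D2t.instOK 0 0 0 D2t_0_0_0 = true := by
  decide +kernel

def D2t_0_1_0_tree : Tree :=
  (.br 16 0
  (.br 14 0
   (.br 13 0
    (.br 2 0
     (.br 11 0
      (.br 17 0
       (.br 1 0
        (.fk [(0, 28), (1, -16), (2, 1), (3, 5), (4, 4), (5, 5), (6, -1), (15, 6)])
        (.br 10 0
         (.br 7 0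
          (.fk [(2, 1), (5, 1), (15, 1)])
          (.br 9 0
           (.fk [(0, 4), (1, 4), (2, 22), (3, -2), (4, 24), (5, -3), (6, 2), (15, 3)])
           (.mv 28)))
         (.mv 9)))
       (.br 12 0
        (.br 19 0
         (.fk [(3, 4), (5, 1), (11, 4), (15, 1)])
         (.br 15 0
          (.fk [(3, 1)])
          (.mv 23)))
        (.mv 16)))
      (.br 1 0
       (.fk [(0, 24), (1, 4), (2, -12), (3, 7), (4, 4), (5, 2), (6, -3), (15, 3)])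
       (.br 7 0
        (.br 6 0
         (.fk [(0, -12), (1, 68), (2, -68), (3, 20), (4, 8), (5, 13), (6, -4), (15, 17)])
         (.mv 2))
        (.mv 10))))
     (.br 11 0
      (.br 7 0
       (.br 12 0
        (.fk [(2, 1), (3, 1), (6, 1), (15, 1)])
        (.br 17 0
         (.br 6 0
          (.fk [(0, -40), (1, 80), (2, 8), (3, 8), (4, 48), (5, 8), (6, 1), (15, 20)])
          (.mv 26))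
         (.mv 16)))
       (.mv 13))
      (.mv 11)))
    (.mv 0))
   (.br 13 0
    (.br 17 0
     (.br 12 0
      (.fk [(0, -4), (1, -4), (2, 2), (3, 2), (4, 8), (5, -1), (6, 2), (15, 1)])
      (.mv 6))
     (.mv 5))
    (.mv 0)))
  (.mv 1))

def D2t_0_1_0 : Inst where
  rows :=
   [(false, [1, 1, 1, 0, 0, 0, 0, 0, 0, 0, 0, 0, 0, 0, 0, 0, 0, 0, 0, 0, 0, 0, 0, 0, 0, -1], 0),
    (false, [0, 0, 0, 1, 1, 1, 1, 1, 0, 0, 0, 0, 0, 0, 0, 0, 0, 0, 0, 0, 0, 0, 0, 0, 0, -1], 0),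
    (false, [0, 0, 0, 0, 0, 0, 0, 0, 1, 1, 1, 1, 0, 0, 0, 0, 0, 0, 0, 0, 0, 0, 0, 0, 0, 0], 1),
    (false, [0, 0, 0, 0, 0, 0, 0, 0, 0, 0, 0, 0, 1, 1, 1, 1, 0, 0, 0, 0, 0, 0, 0, 0, 0, 0], 3),
    (false, [0, 0, 0, 0, 0, 0, 0, 0, 0, 0, 0, 0, 0, 0, 0, 0, 1, 1, 1, 0, 0, 0, 0, 0, 0, -1], 0),
    (false, [0, 1, 4, 4, 1, 0, 1, 4, 1, 0, 1, 4, 1, 0, 1, 4, 0, 1, 4, 0, 1, 4, 0, 0, 0, -8], 4),
    (false, [4, 1, 0, 4, 1, 0, 1, 4, 4, 1, 0, 1, 4, 1, 0, 1, 4, 1, 0, 0, 1, 4, 0, 0, 0, -8], 4),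
    (false, [-1, -1, -1, 1, 1, 1, 1, 1, 0, 0, 0, 0, 0, 0, 0, 0, -1, -1, -1, 1, 1, 1, -1, 0, 0, 0], 0),
    (false, [1, 1, 1, -1, -1, -1, -1, -1, 0, 0, 0, 0, 0, 0, 0, 0, -1, -1, -1, 1, 1, 1, 0, -1, 0, 0], 0),
    (false, [-1, 0, 1, -1, 0, 1, 0, -1, -1, 0, 1, 0, -1, 0, 1, 0, -1, 0, 1, 1, 0, -1, 0, 0, -1, 0], 0),
    (true, [-1, -1, -1, -1, -1, -1, -1, -1, -1, -1, -1, -1, 1, 1, 1, 1, 1, 1, 1, 1, 1, 1, 0, 0, 0, 0], 1),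
    (true, [1, 0, -1, -1, 0, 1, 0, -1, 0, 1, 0, -1, 0, 1, 0, -1, 1, 0, -1, 1, 0, -1, 0, 0, 0, 0], 0),
    (true, [0, 1, 4, 0, 1, 4, 9, 16, 0, 1, 4, 9, 4, 1, 0, 1, 4, 1, 0, 0, 1, 4, 0, 0, 0, 0], 1),
    (true, [4, 1, 0, 16, 9, 4, 1, 0, 9, 4, 1, 0, 1, 0, 1, 4, 0, 1, 4, 0, 1, 4, 0, 0, 0, 0], 1),
    (true, [0, 0, 0, 0, 0, 0, 0, 0, 0, 0, 0, 0, 0, 0, 0, 0, 0, 0, 0, 0, 0, 0, 0, 0, 0, 1], 0),
    (true, [-4, -1, 0, -16, -9, -4, -1, 0, -9, -4, -1, 0, -1, 0, -1, -4, 0, -1, -4, 0, -1, -4, 0, 0, 0, 8], -3)]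
  moves := D2t_moves0
  reqs := D2t_reqs0
  tree := D2t_0_1_0_tree

theorem D2t_0_1_0_ok : D2t.instOK 0 1 0 D2t_0_1_0 = true := by
  decide +kernel

def D2t_0_2_0_tree : Tree :=
  (.br 16 0
  (.br 12 0
   (.br 13 0
    (.br 17 0
     (.fk [(0, -28), (1, -36), (2, 18), (3, 20), (4, 80), (5, -9), (6, 18), (15, -11), (16, 18)])
     (.br 14 0
      (.br 7 0
       (.fk [(2, -1), (3, 3), (6, 1), (15, -1), (16, 3)])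
       (.br 2 0
        (.br 19 0
         (.fk [(3, 4), (5, 1), (11, 4), (15, -1), (16, 4)])
         (.br 15 0
          (.fk [(3, 1)])
          (.mv 23)))
        (.mv 13)))
      (.mv 5)))
    (.mv 0))
   (.br 13 0
    (.br 14 0
     (.br 17 0
      (.br 1 0
       (.fk [(0, 8), (1, 4), (2, 5), (3, 1), (4, 20), (5, -2), (6, 1), (15, -3), (16, 20)])
       (.br 6 0
        (.fk [(0, 4), (1, 8), (2, 5), (3, 1), (4, 20), (5, -3), (6, 1), (15, -2), (16, 12)])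
        (.mv 2)))
      (.mv 16))
     (.mv 6))
    (.mv 0)))
  (.mv 1))

def D2t_0_2_0 : Inst where
  rows :=
   [(false, [1, 1, 1, 0, 0, 0, 0, 0, 0, 0, 0, 0, 0, 0, 0, 0, 0, 0, 0, 0, 0, 0, 0, 0, 0, -1], 0),
    (false, [0, 0, 0, 1, 1, 1, 1, 1, 0, 0, 0, 0, 0, 0, 0, 0, 0, 0, 0, 0, 0, 0, 0, 0, 0, -1], 0),
    (false, [0, 0, 0, 0, 0, 0, 0, 0, 1, 1, 1, 1, 0, 0, 0, 0, 0, 0, 0, 0, 0, 0, 0, 0, 0, 0], 1),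
    (false, [0, 0, 0, 0, 0, 0, 0, 0, 0, 0, 0, 0, 1, 1, 1, 1, 0, 0, 0, 0, 0, 0, 0, 0, 0, 0], 3),
    (false, [0, 0, 0, 0, 0, 0, 0, 0, 0, 0, 0, 0, 0, 0, 0, 0, 1, 1, 1, 0, 0, 0, 0, 0, 0, -1], 0),
    (false, [0, 1, 4, 4, 1, 0, 1, 4, 1, 0, 1, 4, 1, 0, 1, 4, 0, 1, 4, 0, 1, 4, 0, 0, 0, -8], 4),
    (false, [4, 1, 0, 4, 1, 0, 1, 4, 4, 1, 0, 1, 4, 1, 0, 1, 4, 1, 0, 0, 1, 4, 0, 0, 0, -8], 4),
    (false, [-1, -1, -1, 1, 1, 1, 1, 1, 0, 0, 0, 0, 0, 0, 0, 0, -1, -1, -1, 1, 1, 1, -1, 0, 0, 0], 0),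
    (false, [1, 1, 1, -1, -1, -1, -1, -1, 0, 0, 0, 0, 0, 0, 0, 0, -1, -1, -1, 1, 1, 1, 0, -1, 0, 0], 0),
    (false, [-1, 0, 1, -1, 0, 1, 0, -1, -1, 0, 1, 0, -1, 0, 1, 0, -1, 0, 1, 1, 0, -1, 0, 0, -1, 0], 0),
    (true, [-1, -1, -1, -1, -1, -1, -1, -1, -1, -1, -1, -1, 1, 1, 1, 1, 1, 1, 1, 1, 1, 1, 0, 0, 0, 0], 1),
    (true, [1, 0, -1, -1, 0, 1, 0, -1, 0, 1, 0, -1, 0, 1, 0, -1, 1, 0, -1, 1, 0, -1, 0, 0, 0, 0], 0),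
    (true, [0, 1, 4, 0, 1, 4, 9, 16, 0, 1, 4, 9, 4, 1, 0, 1, 4, 1, 0, 0, 1, 4, 0, 0, 0, 0], 1),
    (true, [4, 1, 0, 16, 9, 4, 1, 0, 9, 4, 1, 0, 1, 0, 1, 4, 0, 1, 4, 0, 1, 4, 0, 0, 0, 0], 1),
    (true, [0, 0, 0, 0, 0, 0, 0, 0, 0, 0, 0, 0, 0, 0, 0, 0, 0, 0, 0, 0, 0, 0, 0, 0, 0, 1], 0),
    (false, [4, 1, 0, 16, 9, 4, 1, 0, 9, 4, 1, 0, 1, 0, 1, 4, 0, 1, 4, 0, 1, 4, 0, 0, 0, -8], 4),
    (true, [0, 0, 0, 1, 1, 0, 0, 0, 1, 0, 0, 0, 0, 0, 0, 0, 0, 0, 0, 0, 0, 0, 0, 0, 0, 0], 1)]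
  moves := D2t_moves0
  reqs := D2t_reqs0
  tree := D2t_0_2_0_tree

theorem D2t_0_2_0_ok : D2t.instOK 0 2 0 D2t_0_2_0 = true := by
  decide +kernel

def D2t_0_3_0_tree : Tree :=
  (.fk [(5, 1), (11, 2), (15, -1), (16, 2)])

def D2t_0_3_0 : Inst where
  rows :=
   [(false, [1, 1, 1, 0, 0, 0, 0, 0, 0, 0, 0, 0, 0, 0, 0, 0, 0, 0, 0, 0, 0, 0, 0, 0, 0, -1], 0),
    (false, [0, 0, 0, 1, 1, 1, 1, 1, 0, 0, 0, 0, 0, 0, 0, 0, 0, 0, 0, 0, 0, 0, 0, 0, 0, -1], 0),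
    (false, [0, 0, 0, 0, 0, 0, 0, 0, 1, 1, 1, 1, 0, 0, 0, 0, 0, 0, 0, 0, 0, 0, 0, 0, 0, 0], 1),
    (false, [0, 0, 0, 0, 0, 0, 0, 0, 0, 0, 0, 0, 1, 1, 1, 1, 0, 0, 0, 0, 0, 0, 0, 0, 0, 0], 3),
    (false, [0, 0, 0, 0, 0, 0, 0, 0, 0, 0, 0, 0, 0, 0, 0, 0, 1, 1, 1, 0, 0, 0, 0, 0, 0, -1], 0),
    (false, [0, 1, 4, 4, 1, 0, 1, 4, 1, 0, 1, 4, 1, 0, 1, 4, 0, 1, 4, 0, 1, 4, 0, 0, 0, -8], 4),
    (false, [4, 1, 0, 4, 1, 0, 1, 4, 4, 1, 0, 1, 4, 1, 0, 1, 4, 1, 0, 0, 1, 4, 0, 0, 0, -8], 4),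
    (false, [-1, -1, -1, 1, 1, 1, 1, 1, 0, 0, 0, 0, 0, 0, 0, 0, -1, -1, -1, 1, 1, 1, -1, 0, 0, 0], 0),
    (false, [1, 1, 1, -1, -1, -1, -1, -1, 0, 0, 0, 0, 0, 0, 0, 0, -1, -1, -1, 1, 1, 1, 0, -1, 0, 0], 0),
    (false, [-1, 0, 1, -1, 0, 1, 0, -1, -1, 0, 1, 0, -1, 0, 1, 0, -1, 0, 1, 1, 0, -1, 0, 0, -1, 0], 0),
    (true, [-1, -1, -1, -1, -1, -1, -1, -1, -1, -1, -1, -1, 1, 1, 1, 1, 1, 1, 1, 1, 1, 1, 0, 0, 0, 0], 1),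
    (true, [1, 0, -1, -1, 0, 1, 0, -1, 0, 1, 0, -1, 0, 1, 0, -1, 1, 0, -1, 1, 0, -1, 0, 0, 0, 0], 0),
    (true, [0, 1, 4, 0, 1, 4, 9, 16, 0, 1, 4, 9, 4, 1, 0, 1, 4, 1, 0, 0, 1, 4, 0, 0, 0, 0], 1),
    (true, [4, 1, 0, 16, 9, 4, 1, 0, 9, 4, 1, 0, 1, 0, 1, 4, 0, 1, 4, 0, 1, 4, 0, 0, 0, 0], 1),
    (true, [0, 0, 0, 0, 0, 0, 0, 0, 0, 0, 0, 0, 0, 0, 0, 0, 0, 0, 0, 0, 0, 0, 0, 0, 0, 1], 0),
    (false, [4, 1, 0, 16, 9, 4, 1, 0, 9, 4, 1, 0, 1, 0, 1, 4, 0, 1, 4, 0, 1, 4, 0, 0, 0, -8], 4),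
    (true, [1, 0, -1, 0, 0, 1, 0, -1, 0, 1, 0, -1, 0, -1, 0, 1, -1, 0, 1, -1, 0, 1, 0, 0, 0, 0], 1)]
  moves := D2t_moves0
  reqs := D2t_reqs0
  tree := D2t_0_3_0_tree

theorem D2t_0_3_0_ok : D2t.instOK 0 3 0 D2t_0_3_0 = true := by
  decide +kernel

theorem D2t_ok0 : ∀ b ∈ D2t.branches, ∃ I : Inst, D2t.instOK 0 b.1 b.2 I = true := by
  intro b hb
  have h : b = (0, 0) ∨ b = (1, 0) ∨ b = (2, 0) ∨ b = (3, 0) := by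
    have hb2 : b ∈ [(0, 0), (1, 0), (2, 0), (3, 0)] := hb
    simpa using hb2
  rcases h with rfl | rfl | rfl | rfl
  · exact ⟨D2t_0_0_0, D2t_0_0_0_ok⟩
  · exact ⟨D2t_0_1_0, D2t_0_1_0_ok⟩
  · exact ⟨D2t_0_2_0, D2t_0_2_0_ok⟩
  · exact ⟨D2t_0_3_0, D2t_0_3_0_ok⟩

end Pool.Agent.helper1.CAD
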