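import Pool.Agent.helper1.CAD.Sound

namespace Pool.Agent.helper1.CAD

set_option maxRecDepth 100000

def D3 : Spec where
  K := .D
  tys := [(2, 2, [1], 0), (2, 0, [1], 0), (0, 2, [1], 0), (1, 1, [0], 3), (1, 0, [0], 3), (0, 1, [0], 3)]
  kc := ([4], 3)
  pmin := [0]
  sl := (0, -1)
  good := true
  pv := 0
  px := 0
  pvx := 0

def D3_moves0 : List Move :=
   [([((0, 2, 0), -2)], 0),
    ([((0, 1, 0), -1)], 0),
    ([((1, 1, 2), 0), ((1, 0, 2), 1)], 0),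
    ([((1, 1, -1), 0), ((1, 0, -1), 1)], 0),
    ([((0, 2, 2), 0), ((0, 0, 2), 2)], 0),
    ([((0, 1, 2), 0), ((0, 0, 2), 1)], 0),
    ([((0, 2, 1), -1), ((0, 1, -1), -2)], 0),
    ([((0, 2, 2), 1), ((0, 1, 2), 2)], 0),
    ([((0, 2, 1), 0), ((0, 0, 1), 2)], 0),
    ([((2, 2, 2), 0), ((2, 0, 2), 2)], 0),
    ([((0, 2, 1), 1), ((0, 1, 1), 2)], 0),
    ([((2, 2, 0), 0), ((2, 0, 0), 2)], 0),
    ([((1, 1, 0), 0), ((1, 0, 0), 1)], 0),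
    ([((0, 1, -1), 0), ((0, 0, 1), -1)], 0),
    ([((0, 1, -1), -1), ((0, 1, 1), -1)], 0),
    ([((0, 1, 1), 0), ((0, 0, 1), 1)], 0),
    ([((1, 1, 1), 0), ((1, 0, 1), 1)], 0),
    ([((2, 2, 1), 0), ((2, 0, 1), 2)], 0),
    ([((2, 0, 0), 1), ((1, 1, -1), -1), ((0, 1, 2), 0)], 0),
    ([((2, 0, 1), 1), ((1, 1, 0), -1), ((0, 1, 1), 0)], 0),
    ([((0, 2, 1), 0), ((1, 1, -1), -1), ((1, 0, 0), 2)], 0),
    ([((2, 0, 2), 1), ((1, 1, 0), -1), ((0, 1, 2), 0)], 0),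
    ([((2, 2, 2), 1), ((1, 0, 2), 2), ((0, 1, 2), 0)], 0),
    ([((2, 2, 0), 0), ((2, 0, 1), 2), ((0, 1, 1), -1)], 0),
    ([((1, 1, 1), 0), ((1, 0, -1), 1), ((0, 1, -1), -1)], 0),
    ([((2, 0, 1), 1), ((1, 1, 1), -1), ((0, 1, -1), 0)], 0),
    ([((2, 0, -1), 1), ((1, 1, 0), -1), ((0, 1, -1), 0)], 0),
    ([((2, 0, -1), 1), ((1, 1, -1), -1), ((0, 1, 1), 0)], 0),
    ([((0, 2, 2), 0), ((1, 1, 0), -1), ((1, 0, 2), 2)], 0),
    ([((1, 1, 2), 0), ((1, 0, 0), 1), ((0, 1, -1), -1)], 0),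
    ([((0, 2, 1), 0), ((1, 1, 1), -1), ((1, 0, 2), 2)], 0),
    ([((2, 2, 0), 1), ((1, 0, 1), 2), ((0, 1, 2), 0)], 0),
    ([((0, 2, 1), 0), ((1, 1, 2), 2), ((1, 0, 0), -1)], 0),
    ([((2, 2, 1), 0), ((2, 0, 2), 2), ((0, 1, 1), -1)], 0),
    ([((1, 1, -1), 0), ((1, 0, 1), 1), ((0, 1, 1), -1)], 0),
    ([((0, 2, 1), 0), ((0, 1, 2), 2), ((0, 0, 0), -1)], 0),
    ([((1, 1, 0), 0), ((1, 0, 2), 1), ((0, 1, 1), -1)], 0),
    ([((2, 2, 2), 0), ((2, 0, 1), 2), ((0, 1, -1), -1)], 0),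
    ([((0, 2, 1), 0), ((1, 1, 1), 2), ((1, 0, -1), -1)], 0),
    ([((2, 2, 1), 0), ((2, 0, 0), 2), ((0, 1, -1), -1)], 0),
    ([((2, 2, 1), 1), ((1, 0, 0), 2), ((0, 1, -1), 0)], 0),
    ([((0, 2, 1), 1), ((1, 1, 1), 0), ((1, 0, 0), 1), ((0, 1, 2), 2)], 0),
    ([((0, 2, 1), 1), ((1, 1, 1), 2), ((1, 0, -2), -1), ((0, 1, 2), 0)], 0),
    ([((2, 2, 2), 0), ((2, 0, 0), 2), ((0, 1, -1), -1), ((0, 1, -1), -1)], 0),
    ([((0, 2, 2), 0), ((1, 1, 1), -1), ((1, 0, 2), 2), ((0, 1, -1), -1)], 0),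
    ([((2, 2, 1), 1), ((2, 0, 0), 2), ((1, 1, -1), -1), ((0, 1, 1), 0)], 0),
    ([((0, 2, 2), 0), ((0, 1, -1), -1), ((0, 1, -1), -1), ((0, 0, 0), -2)], 0),
    ([((0, 2, 2), 1), ((1, 1, 0), 0), ((1, 0, 1), 1), ((0, 1, 1), 2)], 0),
    ([((2, 2, 1), 1), ((0, 2, 2), 0), ((1, 0, 2), 2), ((0, 1, 1), 2)], 0),
    ([((2, 2, 1), 1), ((0, 2, 2), 0), ((1, 0, 1), 2), ((0, 1, -1), -2)], 0),
    ([((2, 2, 1), 0), ((0, 2, 1), 0), ((1, 0, 0), 2), ((1, 0, 2), 2)], 0),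
    ([((0, 2, 2), 0), ((1, 1, -1), -1), ((1, 1, 2), 2), ((1, 0, 0), 1)], 0),
    ([((0, 2, 2), 1), ((1, 1, 0), 0), ((1, 0, -1), 1), ((0, 1, -1), -2)], 0),
    ([((0, 2, 2), 0), ((1, 1, 0), 2), ((1, 0, -2), -1), ((0, 1, -1), -1)], 0),
    ([((2, 2, 1), 0), ((2, 0, 2), 2), ((0, 2, 1), 0), ((0, 0, 0), -2)], 0),
    ([((0, 2, 2), 0), ((1, 1, 0), -1), ((1, 0, 1), 2), ((0, 1, -1), -1)], 0),
    ([((2, 2, 1), 0), ((2, 0, 2), 2), ((0, 1, 2), 0), ((0, 0, 0), -1)], 0),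
    ([((0, 2, 2), 0), ((1, 1, -1), -1), ((1, 0, 2), 2), ((0, 1, 1), -1)], 0),
    ([((2, 0, 1), 1), ((1, 1, -1), -1), ((0, 1, 1), -1), ((0, 1, 1), 0)], 0),
    ([((2, 0, 1), 1), ((0, 2, 2), 0), ((1, 1, -1), -1), ((0, 1, 1), 2)], 0),
    ([((2, 0, 2), 1), ((0, 2, 1), 0), ((1, 1, 1), -1), ((0, 1, 2), 2)], 0),
    ([((2, 0, 2), 1), ((1, 1, -1), 0), ((1, 0, 1), -1), ((0, 1, 2), 0)], 0),
    ([((2, 0, 2), 2), ((0, 2, 2), 0), ((1, 1, 0), -1), ((1, 1, 0), -1)], 0),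
    ([((2, 0, 2), 2), ((0, 2, 2), 0), ((1, 1, -1), -1), ((1, 1, 1), -1)], 0),
    ([((2, 0, 0), 1), ((1, 1, 0), 0), ((1, 0, -1), -1), ((0, 1, 1), 0)], 0),
    ([((2, 0, -1), 1), ((1, 1, 1), -1), ((0, 1, -1), -1), ((0, 1, -1), 0)], 0),
    ([((2, 0, -1), 1), ((1, 1, 0), 0), ((1, 0, -2), -1), ((0, 1, 1), 0)], 0),
    ([((2, 2, 0), 0), ((2, 0, 2), 1), ((1, 0, 0), 2), ((0, 1, 2), 0)], 0),
    ([((2, 2, 0), 1), ((2, 0, 2), 2), ((1, 1, 1), -1), ((0, 1, 2), 0)], 0),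
    ([((1, 0, -1), -1), ((1, 0, 1), 1), ((0, 1, 1), 0), ((0, 1, 1), 0)], 0),
    ([((2, 2, 0), 1), ((0, 2, 1), 0), ((1, 0, 0), 2), ((0, 1, 2), 2)], 0),
    ([((2, 2, 2), 1), ((1, 0, 0), 2), ((0, 1, -1), -1), ((0, 1, -1), -1), ((0, 1, 2), 0)], 0),
    ([((2, 0, 2), 1), ((0, 2, 2), 0), ((1, 1, 0), 0), ((1, 0, -1), -1), ((0, 1, 1), 2)], 0),
    ([((2, 0, 2), 2), ((0, 2, 2), 0), ((1, 1, -1), -1), ((1, 1, 0), -1), ((0, 1, 1), -1)], 0),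
    ([((1, 1, 0), -1), ((1, 0, 1), 1), ((1, 0, 1), 1), ((0, 1, 1), 0), ((0, 1, 1), 0)], 0),
    ([((1, 1, -1), 0), ((1, 1, 1), 2), ((0, 1, 1), 0), ((0, 1, 1), 0)], 0),
    ([((0, 2, 2), 1), ((1, 1, -1), 0), ((1, 0, 0), 1), ((0, 1, 1), 2)], 0)]

def D3_reqs0 : List (List ℤ) :=
   [[0, 0, 0, 0, 0, 0, 0, 0, 1, 0, 0, 0, 0, 0, 0, 0, 0, 0, 0, 0, 0, 0, 0, 0, 0, 0, 0, 0, 0, 0, 0],
    [0, 0, 0, 0, 0, 0, 0, 0, 0, 0, 0, 0, 0, 0, 0, 0, 0, 0, 0, 0, 0, 1, 0, 0, 0, 0, 0, 0, 0, 0, 0],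
    [0, 0, 0, 0, 0, 0, 0, 0, 0, 0, 0, 0, 0, 0, 1, 0, 0, 0, 0, 1, 0, 0, 0, 0, 0, 0, 0, 0, 0, 0, 0],
    [0, 0, 0, 0, 0, 0, 0, 0, 0, 0, 0, 1, 0, 0, 0, 0, 1, 0, 0, 0, 0, 0, 0, 0, 0, 0, 0, 0, 0, 0, 0],
    [0, 0, 0, 0, 0, 0, 0, 0, 0, 0, 1, 0, 0, 0, 0, 0, 0, 0, 0, 0, 0, 0, 0, 0, 0, 0, 1, 0, 0, 0, 0],
    [0, 0, 0, 0, 0, 0, 0, 0, 0, 0, 0, 0, 0, 0, 0, 0, 0, 0, 0, 0, 0, 0, 0, 1, 0, 0, 1, 0, 0, 0, 0],
    [0, 0, 0, 0, 0, 0, 0, 0, 0, 1, 0, 0, 0, 0, 0, 0, 0, 0, 0, 0, 1, 0, 0, 0, 0, 0, 0, 0, 0, 0, 0],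
    [0, 0, 0, 0, 0, 0, 0, 0, 0, 0, 1, 0, 0, 0, 0, 0, 0, 0, 0, 0, 0, 0, 0, 1, 0, 0, 0, 0, 0, 0, 0],
    [0, 0, 0, 0, 0, 0, 0, 0, 0, 1, 0, 0, 0, 0, 0, 0, 0, 0, 0, 0, 0, 0, 0, 0, 0, 1, 0, 0, 0, 0, 0],
    [0, 0, 1, 0, 0, 0, 0, 1, 0, 0, 0, 0, 0, 0, 0, 0, 0, 0, 0, 0, 0, 0, 0, 0, 0, 0, 0, 0, 0, 0, 0],
    [0, 0, 0, 0, 0, 0, 0, 0, 0, 1, 0, 0, 0, 0, 0, 0, 0, 0, 0, 0, 0, 0, 1, 0, 0, 0, 0, 0, 0, 0, 0],
    [1, 0, 0, 0, 0, 1, 0, 0, 0, 0, 0, 0, 0, 0, 0, 0, 0, 0, 0, 0, 0, 0, 0, 0, 0, 0, 0, 0, 0, 0, 0],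
    [0, 0, 0, 0, 0, 0, 0, 0, 0, 0, 0, 0, 1, 0, 0, 0, 0, 1, 0, 0, 0, 0, 0, 0, 0, 0, 0, 0, 0, 0, 0],
    [0, 0, 0, 0, 0, 0, 0, 0, 0, 0, 0, 0, 0, 0, 0, 0, 0, 0, 0, 0, 1, 0, 0, 0, 0, 1, 0, 0, 0, 0, 0],
    [0, 0, 0, 0, 0, 0, 0, 0, 0, 0, 0, 0, 0, 0, 0, 0, 0, 0, 0, 0, 1, 0, 1, 0, 0, 0, 0, 0, 0, 0, 0],
    [0, 0, 0, 0, 0, 0, 0, 0, 0, 0, 0, 0, 0, 0, 0, 0, 0, 0, 0, 0, 0, 0, 1, 0, 0, 1, 0, 0, 0, 0, 0],
    [0, 0, 0, 0, 0, 0, 0, 0, 0, 0, 0, 0, 0, 1, 0, 0, 0, 0, 1, 0, 0, 0, 0, 0, 0, 0, 0, 0, 0, 0, 0],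
    [0, 1, 0, 0, 0, 0, 1, 0, 0, 0, 0, 0, 0, 0, 0, 0, 0, 0, 0, 0, 0, 0, 0, 0, 0, 0, 0, 0, 0, 0, 0],
    [0, 0, 0, 0, 0, 1, 0, 0, 0, 0, 0, 1, 0, 0, 0, 0, 0, 0, 0, 0, 0, 0, 0, 1, 0, 0, 0, 0, 0, 0, 0],
    [0, 0, 0, 0, 0, 0, 1, 0, 0, 0, 0, 0, 1, 0, 0, 0, 0, 0, 0, 0, 0, 0, 1, 0, 0, 0, 0, 0, 0, 0, 0],
    [0, 0, 0, 0, 0, 0, 0, 0, 0, 1, 0, 1, 0, 0, 0, 0, 0, 1, 0, 0, 0, 0, 0, 0, 0, 0, 0, 0, 0, 0, 0],
    [0, 0, 0, 0, 0, 0, 0, 1, 0, 0, 0, 0, 1, 0, 0, 0, 0, 0, 0, 0, 0, 0, 0, 1, 0, 0, 0, 0, 0, 0, 0],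
    [0, 0, 1, 0, 0, 0, 0, 0, 0, 0, 0, 0, 0, 0, 0, 0, 0, 0, 0, 1, 0, 0, 0, 1, 0, 0, 0, 0, 0, 0, 0],
    [1, 0, 0, 0, 0, 0, 1, 0, 0, 0, 0, 0, 0, 0, 0, 0, 0, 0, 0, 0, 0, 0, 1, 0, 0, 0, 0, 0, 0, 0, 0],
    [0, 0, 0, 0, 0, 0, 0, 0, 0, 0, 0, 0, 0, 1, 0, 0, 1, 0, 0, 0, 1, 0, 0, 0, 0, 0, 0, 0, 0, 0, 0],
    [0, 0, 0, 0, 0, 0, 1, 0, 0, 0, 0, 0, 0, 1, 0, 0, 0, 0, 0, 0, 1, 0, 0, 0, 0, 0, 0, 0, 0, 0, 0],
    [0, 0, 0, 0, 1, 0, 0, 0, 0, 0, 0, 0, 1, 0, 0, 0, 0, 0, 0, 0, 1, 0, 0, 0, 0, 0, 0, 0, 0, 0, 0],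
    [0, 0, 0, 0, 1, 0, 0, 0, 0, 0, 0, 1, 0, 0, 0, 0, 0, 0, 0, 0, 0, 0, 1, 0, 0, 0, 0, 0, 0, 0, 0],
    [0, 0, 0, 0, 0, 0, 0, 0, 0, 0, 1, 0, 1, 0, 0, 0, 0, 0, 0, 1, 0, 0, 0, 0, 0, 0, 0, 0, 0, 0, 0],
    [0, 0, 0, 0, 0, 0, 0, 0, 0, 0, 0, 0, 0, 0, 1, 0, 0, 1, 0, 0, 1, 0, 0, 0, 0, 0, 0, 0, 0, 0, 0],
    [0, 0, 0, 0, 0, 0, 0, 0, 0, 1, 0, 0, 0, 1, 0, 0, 0, 0, 0, 1, 0, 0, 0, 0, 0, 0, 0, 0, 0, 0, 0],
    [1, 0, 0, 0, 0, 0, 0, 0, 0, 0, 0, 0, 0, 0, 0, 0, 0, 0, 1, 0, 0, 0, 0, 1, 0, 0, 0, 0, 0, 0, 0],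
    [0, 0, 0, 0, 0, 0, 0, 0, 0, 1, 0, 0, 0, 0, 1, 0, 0, 1, 0, 0, 0, 0, 0, 0, 0, 0, 0, 0, 0, 0, 0],
    [0, 1, 0, 0, 0, 0, 0, 1, 0, 0, 0, 0, 0, 0, 0, 0, 0, 0, 0, 0, 0, 0, 1, 0, 0, 0, 0, 0, 0, 0, 0],
    [0, 0, 0, 0, 0, 0, 0, 0, 0, 0, 0, 1, 0, 0, 0, 0, 0, 0, 1, 0, 0, 0, 1, 0, 0, 0, 0, 0, 0, 0, 0],
    [0, 0, 0, 0, 0, 0, 0, 0, 0, 1, 0, 0, 0, 0, 0, 0, 0, 0, 0, 0, 0, 0, 0, 1, 1, 0, 0, 0, 0, 0, 0],
    [0, 0, 0, 0, 0, 0, 0, 0, 0, 0, 0, 0, 1, 0, 0, 0, 0, 0, 0, 1, 0, 0, 1, 0, 0, 0, 0, 0, 0, 0, 0],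
    [0, 0, 1, 0, 0, 0, 1, 0, 0, 0, 0, 0, 0, 0, 0, 0, 0, 0, 0, 0, 1, 0, 0, 0, 0, 0, 0, 0, 0, 0, 0],
    [0, 0, 0, 0, 0, 0, 0, 0, 0, 1, 0, 0, 0, 1, 0, 0, 1, 0, 0, 0, 0, 0, 0, 0, 0, 0, 0, 0, 0, 0, 0],
    [0, 1, 0, 0, 0, 1, 0, 0, 0, 0, 0, 0, 0, 0, 0, 0, 0, 0, 0, 0, 1, 0, 0, 0, 0, 0, 0, 0, 0, 0, 0],
    [0, 1, 0, 0, 0, 0, 0, 0, 0, 0, 0, 0, 0, 0, 0, 0, 0, 1, 0, 0, 1, 0, 0, 0, 0, 0, 0, 0, 0, 0, 0],
    [0, 0, 0, 0, 0, 0, 0, 0, 0, 1, 0, 0, 0, 1, 0, 0, 0, 1, 0, 0, 0, 0, 0, 1, 0, 0, 0, 0, 0, 0, 0],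
    [0, 0, 0, 0, 0, 0, 0, 0, 0, 1, 0, 0, 0, 1, 0, 1, 0, 0, 0, 0, 0, 0, 0, 1, 0, 0, 0, 0, 0, 0, 0],
    [0, 0, 1, 0, 0, 1, 0, 0, 0, 0, 0, 0, 0, 0, 0, 0, 0, 0, 0, 0, 2, 0, 0, 0, 0, 0, 0, 0, 0, 0, 0],
    [0, 0, 0, 0, 0, 0, 0, 0, 0, 0, 1, 0, 0, 1, 0, 0, 0, 0, 0, 1, 1, 0, 0, 0, 0, 0, 0, 0, 0, 0, 0],
    [0, 1, 0, 0, 0, 1, 0, 0, 0, 0, 0, 1, 0, 0, 0, 0, 0, 0, 0, 0, 0, 0, 1, 0, 0, 0, 0, 0, 0, 0, 0],
    [0, 0, 0, 0, 0, 0, 0, 0, 0, 0, 1, 0, 0, 0, 0, 0, 0, 0, 0, 0, 2, 0, 0, 0, 1, 0, 0, 0, 0, 0, 0],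
    [0, 0, 0, 0, 0, 0, 0, 0, 0, 0, 1, 0, 1, 0, 0, 0, 0, 0, 1, 0, 0, 0, 1, 0, 0, 0, 0, 0, 0, 0, 0],
    [0, 1, 0, 0, 0, 0, 0, 0, 0, 0, 1, 0, 0, 0, 0, 0, 0, 0, 0, 1, 0, 0, 1, 0, 0, 0, 0, 0, 0, 0, 0],
    [0, 1, 0, 0, 0, 0, 0, 0, 0, 0, 1, 0, 0, 0, 0, 0, 0, 0, 1, 0, 1, 0, 0, 0, 0, 0, 0, 0, 0, 0, 0],
    [0, 1, 0, 0, 0, 0, 0, 0, 0, 1, 0, 0, 0, 0, 0, 0, 0, 1, 0, 1, 0, 0, 0, 0, 0, 0, 0, 0, 0, 0, 0],
    [0, 0, 0, 0, 0, 0, 0, 0, 0, 0, 1, 1, 0, 0, 1, 0, 0, 1, 0, 0, 0, 0, 0, 0, 0, 0, 0, 0, 0, 0, 0],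
    [0, 0, 0, 0, 0, 0, 0, 0, 0, 0, 1, 0, 1, 0, 0, 0, 1, 0, 0, 0, 1, 0, 0, 0, 0, 0, 0, 0, 0, 0, 0],
    [0, 0, 0, 0, 0, 0, 0, 0, 0, 0, 1, 0, 1, 0, 0, 1, 0, 0, 0, 0, 1, 0, 0, 0, 0, 0, 0, 0, 0, 0, 0],
    [0, 1, 0, 0, 0, 0, 0, 1, 0, 1, 0, 0, 0, 0, 0, 0, 0, 0, 0, 0, 0, 0, 0, 0, 1, 0, 0, 0, 0, 0, 0],
    [0, 0, 0, 0, 0, 0, 0, 0, 0, 0, 1, 0, 1, 0, 0, 0, 0, 0, 1, 0, 1, 0, 0, 0, 0, 0, 0, 0, 0, 0, 0],
    [0, 1, 0, 0, 0, 0, 0, 1, 0, 0, 0, 0, 0, 0, 0, 0, 0, 0, 0, 0, 0, 0, 0, 1, 1, 0, 0, 0, 0, 0, 0],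
    [0, 0, 0, 0, 0, 0, 0, 0, 0, 0, 1, 1, 0, 0, 0, 0, 0, 0, 0, 1, 0, 0, 1, 0, 0, 0, 0, 0, 0, 0, 0],
    [0, 0, 0, 0, 0, 0, 1, 0, 0, 0, 0, 1, 0, 0, 0, 0, 0, 0, 0, 0, 0, 0, 2, 0, 0, 0, 0, 0, 0, 0, 0],
    [0, 0, 0, 0, 0, 0, 1, 0, 0, 0, 1, 1, 0, 0, 0, 0, 0, 0, 0, 0, 0, 0, 1, 0, 0, 0, 0, 0, 0, 0, 0],
    [0, 0, 0, 0, 0, 0, 0, 1, 0, 1, 0, 0, 0, 1, 0, 0, 0, 0, 0, 0, 0, 0, 0, 1, 0, 0, 0, 0, 0, 0, 0],
    [0, 0, 0, 0, 0, 0, 0, 1, 0, 0, 0, 1, 0, 0, 0, 0, 0, 0, 1, 0, 0, 0, 0, 1, 0, 0, 0, 0, 0, 0, 0],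
    [0, 0, 0, 0, 0, 0, 0, 1, 0, 0, 1, 0, 2, 0, 0, 0, 0, 0, 0, 0, 0, 0, 0, 0, 0, 0, 0, 0, 0, 0, 0],
    [0, 0, 0, 0, 0, 0, 0, 1, 0, 0, 1, 1, 0, 1, 0, 0, 0, 0, 0, 0, 0, 0, 0, 0, 0, 0, 0, 0, 0, 0, 0],
    [0, 0, 0, 0, 0, 1, 0, 0, 0, 0, 0, 0, 1, 0, 0, 0, 1, 0, 0, 0, 0, 0, 1, 0, 0, 0, 0, 0, 0, 0, 0],
    [0, 0, 0, 0, 1, 0, 0, 0, 0, 0, 0, 0, 0, 1, 0, 0, 0, 0, 0, 0, 2, 0, 0, 0, 0, 0, 0, 0, 0, 0, 0],
    [0, 0, 0, 0, 1, 0, 0, 0, 0, 0, 0, 0, 1, 0, 0, 1, 0, 0, 0, 0, 0, 0, 1, 0, 0, 0, 0, 0, 0, 0, 0],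
    [1, 0, 0, 0, 0, 0, 0, 1, 0, 0, 0, 0, 0, 0, 0, 0, 0, 1, 0, 0, 0, 0, 0, 1, 0, 0, 0, 0, 0, 0, 0],
    [1, 0, 0, 0, 0, 0, 0, 1, 0, 0, 0, 0, 0, 1, 0, 0, 0, 0, 0, 0, 0, 0, 0, 1, 0, 0, 0, 0, 0, 0, 0],
    [0, 0, 0, 0, 0, 0, 0, 0, 0, 0, 0, 0, 0, 0, 0, 0, 1, 0, 1, 0, 0, 0, 2, 0, 0, 0, 0, 0, 0, 0, 0],
    [1, 0, 0, 0, 0, 0, 0, 0, 0, 1, 0, 0, 0, 0, 0, 0, 0, 1, 0, 0, 0, 0, 0, 1, 0, 0, 0, 0, 0, 0, 0],
    [0, 0, 1, 0, 0, 0, 0, 0, 0, 0, 0, 0, 0, 0, 0, 0, 0, 1, 0, 0, 2, 0, 0, 1, 0, 0, 0, 0, 0, 0, 0],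
    [0, 0, 0, 0, 0, 0, 0, 1, 0, 0, 1, 0, 1, 0, 0, 0, 1, 0, 0, 0, 0, 0, 1, 0, 0, 0, 0, 0, 0, 0, 0],
    [0, 0, 0, 0, 0, 0, 0, 1, 0, 0, 1, 1, 1, 0, 0, 0, 0, 0, 0, 0, 0, 0, 1, 0, 0, 0, 0, 0, 0, 0, 0],
    [0, 0, 0, 0, 0, 0, 0, 0, 0, 0, 0, 0, 1, 0, 0, 0, 0, 0, 2, 0, 0, 0, 2, 0, 0, 0, 0, 0, 0, 0, 0],
    [0, 0, 0, 0, 0, 0, 0, 0, 0, 0, 0, 1, 0, 1, 0, 0, 0, 0, 0, 0, 0, 0, 2, 0, 0, 0, 0, 0, 0, 2, 0],
    [0, 0, 0, 0, 0, 0, 0, 0, 0, 0, 1, 1, 0, 0, 0, 0, 0, 1, 0, 0, 0, 0, 1, 0, 0, 0, 0, 0, 0, 2, 0]]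

def D3_base0 : List Row :=
   [(false, [1, 1, 1, 0, 0, 0, 0, 0, 0, 0, 0, 0, 0, 0, 0, 0, 0, 0, 0, 0, 0, 0, 0, 0, 0, 0, 0, 0, 0, 0, -1], 0),
    (false, [0, 0, 0, 1, 1, 1, 1, 1, 0, 0, 0, 0, 0, 0, 0, 0, 0, 0, 0, 0, 0, 0, 0, 0, 0, 0, 0, 0, 0, 0, -1], 0),
    (false, [0, 0, 0, 0, 0, 0, 0, 0, 1, 1, 1, 0, 0, 0, 0, 0, 0, 0, 0, 0, 0, 0, 0, 0, 0, 0, 0, 0, 0, 0, -1], 0),
    (false, [0, 0, 0, 0, 0, 0, 0, 0, 0, 0, 0, 1, 1, 1, 1, 0, 0, 0, 0, 0, 0, 0, 0, 0, 0, 0, 0, 0, 0, 0, 0], 3),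
    (false, [0, 0, 0, 0, 0, 0, 0, 0, 0, 0, 0, 0, 0, 0, 0, 1, 1, 1, 1, 1, 0, 0, 0, 0, 0, 0, 0, 0, 0, 0, 0], 3),
    (false, [0, 0, 0, 0, 0, 0, 0, 0, 0, 0, 0, 0, 0, 0, 0, 0, 0, 0, 0, 0, 1, 1, 1, 1, 0, 0, 0, 0, 0, 0, 0], 3),
    (false, [0, 1, 4, 4, 1, 0, 1, 4, 0, 1, 4, 1, 0, 1, 4, 4, 1, 0, 1, 4, 1, 0, 1, 4, 0, 1, 4, 0, 0, 0, -8], 6),
    (false, [4, 1, 0, 4, 1, 0, 1, 4, 4, 1, 0, 4, 1, 0, 1, 4, 1, 0, 1, 4, 4, 1, 0, 1, 0, 1, 4, 0, 0, 0, -8], 6),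
    (false, [-1, -1, -1, 1, 1, 1, 1, 1, -1, -1, -1, 0, 0, 0, 0, 1, 1, 1, 1, 1, 0, 0, 0, 0, 1, 1, 1, -1, 0, 0, 0], 0),
    (false, [1, 1, 1, -1, -1, -1, -1, -1, -1, -1, -1, 1, 1, 1, 1, 0, 0, 0, 0, 0, 0, 0, 0, 0, 1, 1, 1, 0, -1, 0, 0], 0),
    (false, [-1, 0, 1, -1, 0, 1, 0, -1, -1, 0, 1, -1, 0, 1, 0, -1, 0, 1, 0, -1, -1, 0, 1, 0, 1, 0, -1, 0, 0, -1, 0], 0),
    (true, [-1, -1, -1, -1, -1, -1, -1, -1, 1, 1, 1, 0, 0, 0, 0, 0, 0, 0, 0, 0, 1, 1, 1, 1, 1, 1, 1, 0, 0, 0, 0], 0),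
    (true, [1, 0, -1, -1, 0, 1, 0, -1, 1, 0, -1, 0, 1, 0, -1, -1, 0, 1, 0, -1, 0, 1, 0, -1, 1, 0, -1, 0, 0, 0, 0], 0),
    (true, [0, 1, 4, 0, 1, 4, 9, 16, 4, 1, 0, 1, 0, 1, 4, 1, 0, 1, 4, 9, 4, 1, 0, 1, 0, 1, 4, 0, 0, 0, 0], 1),
    (true, [4, 1, 0, 16, 9, 4, 1, 0, 0, 1, 4, 4, 1, 0, 1, 9, 4, 1, 0, 1, 1, 0, 1, 4, 0, 1, 4, 0, 0, 0, 0], 1),
    (true, [0, 0, 0, 0, 0, 0, 0, 0, 0, 0, 0, 0, 0, 0, 0, 0, 0, 0, 0, 0, 0, 0, 0, 0, 0, 0, 0, 0, 0, 0, 1], 0)]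

def D3_0_0_0_tree : Tree :=
  (.br 8 0
  (.br 2 0
   (.br 21 0
    (.br 22 0
     (.br 20 0
      (.br 1 0
       (.br 23 0
        (.fk [(5, 1)])
        (.br 26 0
         (.br 10 0
          (.br 9 0
           (.fk [(0, -9), (2, 25), (3, -1), (5, 11), (6, -3), (7, 1)])
           (.br 13 0
            (.br 24 0
             (.br 17 0
              (.br 25 0
               (.fk [(0, -10), (1, -18), (2, -4), (3, -7), (4, -4), (5, 5), (6, -3), (7, 7), (10, 18)])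
               (.mv 8))
              (.br 12 0
               (.br 11 0
                (.br 25 0
                 (.fk [(0, -4), (1, 4), (3, 1), (5, 1), (6, -1), (7, 1), (9, 2), (11, 2)])
                 (.mv 8))
                (.mv 20))
               (.mv 12)))
             (.mv 35))
            (.br 24 0
             (.br 17 0
              (.br 25 0
               (.br 18 0
                (.br 19 0
                 (.br 16 0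
                  (.br 15 0
                   (.fk [(0, 15), (1, -19), (2, 20), (3, -1), (4, 1), (5, 1), (6, -3), (7, 1), (8, 19)])
                   (.mv 42))
                  (.mv 38))
                 (.mv 30))
                (.mv 16))
               (.mv 8))
              (.mv 41))
             (.mv 35))))
          (.mv 7))
         (.mv 5)))
       (.br 0 0
        (.br 6 0
         (.br 11 0
          (.fk [(3, -1), (5, 3), (6, -1), (7, 1)])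
          (.br 9 0
           (.fk [(0, 4), (2, 28), (3, -5), (5, 25), (6, -7), (7, 3)])
           (.br 16 0
            (.br 23 0
             (.fk [(5, 1)])
             (.br 17 0
              (.br 5 0
               (.br 24 0
                (.fk [(3, -4), (5, 3), (6, -1), (7, 1), (10, 5), (12, 3)])
                (.mv 35))
               (.mv 18))
              (.mv 20)))
            (.mv 3))))
         (.mv 17))
        (.br 5 0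
         (.br 6 0
          (.br 7 0
           (.br 17 0
            (.br 18 0
             (.br 9 0
              (.fk [(0, -4), (2, 4), (3, -3), (5, 3), (6, -1), (7, 1)])
              (.br 19 0
               (.br 24 0
                (.br 25 0
                 (.fk [(0, -9), (1, -2), (2, -5), (3, -5), (4, -2), (5, 3), (6, -1), (7, 3), (10, 6), (12, 2)])
                 (.mv 8))
                (.br 23 0
                 (.fk [(5, 1)])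
                 (.mv 35)))
               (.br 13 0
                (.br 24 0
                 (.fk [(3, -1), (5, 3), (6, -1), (7, 1), (10, 4)])
                 (.br 23 0
                  (.fk [(5, 1)])
                  (.mv 35)))
                (.mv 30))))
             (.br 13 0
              (.br 23 0
               (.fk [(5, 1)])
               (.mv 31))
              (.mv 16)))
            (.br 12 0
             (.br 18 0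
              (.br 9 0
               (.fk [(0, -4), (2, 4), (3, -3), (5, 3), (6, -1), (7, 1)])
               (.br 11 0
                (.br 19 0
                 (.br 23 0
                  (.fk [(5, 1)])
                  (.mv 70))
                 (.mv 50))
                (.mv 20)))
              (.br 13 0
               (.br 23 0
                (.fk [(5, 1)])
                (.mv 31))
               (.mv 16)))
             (.mv 12)))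
           (.br 17 0
            (.br 13 0
             (.br 23 0
              (.fk [(5, 1)])
              (.br 10 0
               (.br 24 0
                (.fk [(3, -1), (5, 3), (6, -1), (7, 1), (10, 4)])
                (.mv 56))
               (.mv 7)))
             (.br 18 0
              (.br 23 0
               (.fk [(5, 1)])
               (.mv 68))
              (.mv 16)))
            (.br 23 0
             (.fk [(5, 1)])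
             (.mv 67))))
          (.mv 17))
         (.mv 11))))
      (.br 9 0
       (.br 12 0
        (.br 17 0
         (.br 13 0
          (.br 1 0
           (.br 25 0
            (.br 10 0
             (.fk [(0, -1), (2, 9), (3, 1), (4, 1), (5, 1), (7, -1)])
             (.br 20 1
              (.br 23 0
               (.fk [(5, 1)])
               (.mv 7))
              (.br 24 0
               (.br 23 0
                (.br 0 0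
                 (.fk [(0, 73), (1, -30), (2, -19), (3, 15), (4, 3), (5, 15), (6, 1), (7, -4), (10, 15), (12, 15)])
                 (.br 5 0
                  (.fk [(0, 25), (1, 12), (2, -13), (3, 3), (4, 3), (5, 3), (6, 1), (7, -4), (10, 3), (11, 9), (12, 3)])
                  (.mv 11)))
                (.mv 7))
               (.mv 46))))
            (.mv 13))
           (.br 6 0
            (.br 5 0
             (.br 10 0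
              (.fk [(0, -1), (1, -1), (2, 10), (3, 1), (4, 1), (5, 1), (7, -1)])
              (.br 18 0
               (.br 24 0
                (.fk [(3, 1), (5, 1), (10, 1), (12, 1)])
                (.br 20 1
                 (.br 23 0
                  (.fk [(5, 1)])
                  (.mv 7))
                 (.mv 46)))
               (.mv 49)))
             (.mv 39))
            (.mv 17)))
          (.br 18 0
           (.br 6 0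
            (.br 5 0
             (.br 16 0
              (.br 10 0
               (.fk [(1, -45), (2, 149), (3, 13), (4, 17), (5, 17), (6, -13), (7, -7), (16, 7)])
               (.br 19 0
                (.br 24 0
                 (.fk [(0, -2), (2, 2), (3, -1), (4, 6), (5, 3), (6, 1), (7, -1), (12, 6)])
                 (.br 20 1
                  (.br 23 0
                   (.fk [(5, 1)])
                   (.mv 7))
                  (.mv 46)))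
                (.mv 44)))
              (.mv 24))
             (.br 0 0
              (.br 16 0
               (.fk [(0, 4), (2, 28), (3, -5), (4, 16), (5, -5), (6, -7), (7, 3)])
               (.mv 24))
              (.mv 11)))
            (.mv 25))
           (.mv 16)))
         (.br 1 0
          (.br 10 0
           (.fk [(0, -3), (1, -6), (2, 25), (3, 2), (4, -1), (5, 5), (6, -2), (7, -1), (16, 1)])
           (.br 23 0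
            (.br 14 0
             (.fk [(0, 8), (2, -8), (3, -2), (5, 3), (6, 2), (7, -2)])
             (.mv 29))
            (.mv 7)))
          (.mv 40)))
        (.br 17 0
         (.br 10 0
          (.fk [(0, -7), (2, 79), (3, 2), (4, 9), (5, 15), (6, -2), (7, -7)])
          (.br 19 0
           (.br 18 0
            (.br 16 0
             (.br 15 0
              (.fk [(4, 1)])
              (.mv 53))
             (.mv 52))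
            (.mv 55))
           (.mv 28)))
         (.mv 12)))
       (.mv 6)))
     (.br 20 0
      (.br 9 0
       (.br 25 0
        (.br 18 0
         (.br 12 0
          (.br 7 0
           (.br 1 0
            (.br 0 0
             (.br 11 0
              (.fk [(0, 6), (1, -1), (2, -5), (3, 1), (5, 1), (6, -1), (7, 1)])
              (.br 16 0
               (.br 4 0
                (.br 22 1
                 (.fk [(0, 15), (1, -3), (2, -4), (3, 1), (5, 4), (6, -1)])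
                 (.br 6 0
                  (.br 29 0
                   (.fk [(0, 88), (1, -5), (2, -11), (3, 14), (4, 14), (5, 14), (6, 3), (7, -12), (10, -31), (12, 14)])
                   (.br 29 1
                    (.fk [(0, 30), (1, -2), (2, -4), (3, 5), (4, 5), (5, 5), (6, 1), (7, -4), (10, -10), (12, 5)])
                    (.br 13 0
                     (.fk [(0, 22), (1, -3), (2, -3), (3, 5), (5, 1), (6, -1), (7, -1)])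
                     (.mv 75))))
                  (.mv 58)))
                (.mv 27))
               (.mv 3)))
             (.br 6 0
              (.br 5 0
               (.br 10 0
                (.fk [(0, -1), (1, -1), (2, 10), (3, 1), (5, 1), (6, -1)])
                (.br 23 0
                 (.br 11 0
                  (.fk [(0, -4), (2, 4), (3, 1), (5, 1), (6, -1), (7, 1)])
                  (.br 4 0
                   (.br 16 0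
                    (.br 26 0
                     (.br 19 0
                      (.br 17 0
                       (.fk [(1, 4), (2, 4), (3, 1), (4, 1), (5, 1), (6, -1)])
                       (.br 29 0
                        (.fk [(0, 20), (1, 30), (2, 22), (3, 14), (4, 14), (5, 14), (6, 3), (7, -12), (8, 3), (10, -31), (11, 14), (12, 14)])
                        (.br 29 1
                         (.fk [(0, 10), (1, 24), (2, 14), (3, 10), (4, 10), (5, 10), (6, 3), (7, -9), (10, -23), (11, 10), (12, 13)])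
                         (.mv 76))))
                      (.mv 57))
                     (.mv 4))
                    (.mv 3))
                   (.mv 27)))
                 (.mv 7)))
               (.mv 11))
              (.mv 23)))
            (.br 6 0
             (.br 10 0
              (.fk [(2, 8), (3, 1), (5, 1), (6, -1)])
              (.br 23 0
               (.br 19 0
                (.br 11 0
                 (.fk [(0, -4), (2, 4), (3, 1), (5, 1), (6, -1), (7, 1)])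
                 (.br 5 0
                  (.br 4 0
                   (.fk [(1, 4), (2, 4), (3, 1), (5, 1), (6, -1)])
                   (.mv 27))
                  (.mv 45)))
                (.mv 48))
               (.mv 7)))
             (.mv 17)))
           (.br 10 0
            (.fk [(2, 8), (3, 1), (5, 1), (6, -1)])
            (.br 23 0
             (.br 11 0
              (.fk [(0, -4), (2, 4), (3, 1), (5, 1), (6, -1), (7, 1)])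
              (.br 13 0
               (.br 4 0
                (.br 6 0
                 (.br 1 0
                  (.br 17 0
                   (.br 16 0
                    (.br 0 0
                     (.fk [(0, 22), (1, -3), (2, -3), (3, 5), (4, 5), (5, 1), (6, -1), (7, -1)])
                     (.br 5 0
                      (.fk [(0, 4), (1, 8), (2, 4), (3, 5), (4, 5), (5, 1), (6, -1), (7, -1)])
                      (.mv 11)))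
                    (.mv 3))
                   (.br 14 0
                    (.fk [(0, 4), (2, -4), (3, 1), (5, -1), (6, 1), (7, -1)])
                    (.mv 51)))
                  (.mv 33))
                 (.mv 59))
                (.mv 27))
               (.mv 63)))
             (.mv 7))))
          (.br 17 0
           (.br 6 0
            (.br 19 0
             (.br 7 0
              (.br 5 0
               (.br 4 0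
                (.fk [(1, 4), (2, 4), (4, 1), (5, 1), (6, -1), (13, 1)])
                (.br 11 0
                 (.br 10 0
                  (.fk [(0, -1), (1, -13), (2, 22), (4, 1), (5, 1), (6, -1), (13, 1)])
                  (.br 15 0
                   (.br 26 0
                    (.fk [(0, -8), (1, -4), (2, 4), (3, -2), (4, -1), (5, 1), (6, -1), (7, 2), (13, 1)])
                    (.mv 4))
                   (.mv 66)))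
                 (.mv 27)))
               (.br 0 0
                (.br 16 0
                 (.fk [(0, 1), (1, -9), (2, 16), (3, -8), (4, 4), (5, 4), (6, -4), (7, 3)])
                 (.mv 64))
                (.mv 11)))
              (.br 10 0
               (.fk [(0, -1), (1, -13), (2, 22), (4, 1), (5, 1), (6, -1), (13, 1)])
               (.br 23 0
                (.br 12 1
                 (.br 1 0
                  (.br 16 0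
                   (.br 11 0
                    (.fk [(0, -4), (2, 4), (3, 1), (5, 1), (6, -1), (7, 1)])
                    (.mv 73))
                   (.mv 72))
                  (.mv 33))
                 (.mv 62))
                (.mv 7))))
             (.mv 36))
            (.mv 19))
           (.mv 12)))
         (.br 11 0
          (.br 10 0
           (.br 12 0
            (.fk [(0, -4), (2, 4), (3, 1), (5, 1), (6, -1), (7, 1)])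
            (.br 17 0
             (.br 22 1
              (.fk [(0, -1), (2, 17), (3, 1), (4, 2), (5, 5), (6, -1), (7, -1)])
              (.br 18 1
               (.br 16 0
                (.fk [(0, -12), (2, 20), (3, -3), (4, 4), (5, 4), (6, -4), (7, 3)])
                (.mv 69))
               (.mv 74)))
             (.mv 12)))
           (.br 12 0
            (.fk [(0, -4), (2, 4), (3, 1), (5, 1), (6, -1), (7, 1)])
            (.mv 47)))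
          (.mv 34)))
        (.mv 15))
       (.mv 10))
      (.mv 14)))
    (.mv 1))
   (.br 7 0
    (.br 9 0
     (.br 20 0
      (.br 21 0
       (.fk [(0, -4), (2, 4), (3, -3), (5, 1), (6, -1), (7, 1)])
       (.mv 1))
      (.br 6 0
       (.br 20 1
        (.br 21 0
         (.br 22 0
          (.fk [(0, -4), (2, 4), (3, -3), (5, 3), (6, -1), (7, 1)])
          (.mv 14))
         (.mv 1))
        (.br 5 0
         (.br 21 0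
          (.br 22 0
           (.br 13 0
            (.br 17 0
             (.br 10 0
              (.fk [(0, -1), (1, -1), (2, 10), (3, 1), (4, 1), (5, 1), (7, -1)])
              (.br 23 0
               (.br 12 0
                (.br 24 0
                 (.fk [(3, 1), (5, 1), (10, 1), (12, 1)])
                 (.mv 46))
                (.br 4 0
                 (.fk [(0, 8), (1, 32), (2, 24), (3, 2), (4, 8), (5, 7), (6, -6), (7, -2)])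
                 (.mv 26)))
               (.mv 7)))
             (.br 12 0
              (.br 1 0
               (.br 14 0
                (.br 23 0
                 (.br 10 0
                  (.fk [(0, -11), (1, -3), (2, 14), (3, 3), (5, 3), (6, 2), (7, -2)])
                  (.br 24 0
                   (.fk [(3, 3), (4, -4), (5, 3), (6, 1), (7, -1), (12, 4)])
                   (.mv 46)))
                 (.mv 71))
                (.mv 29))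
               (.mv 40))
              (.mv 12)))
            (.br 4 0
             (.fk [(0, 4), (1, 16), (2, 12), (3, 1), (5, 7), (6, -3), (7, -1)])
             (.mv 65)))
           (.mv 14))
          (.mv 1))
         (.mv 43)))
       (.mv 37)))
     (.br 20 0
      (.br 21 0
       (.br 22 0
        (.br 23 0
         (.fk [(5, 1)])
         (.br 19 0
          (.br 24 0
           (.br 11 0
            (.br 26 0
             (.br 25 0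
              (.fk [(0, -20), (1, -8), (2, -4), (3, -7), (4, -8), (5, 5), (6, -3), (7, 7), (10, 8)])
              (.mv 8))
             (.mv 5))
            (.br 17 0
             (.br 25 0
              (.br 26 0
               (.fk [(0, -7), (1, -7), (2, -2), (3, -5), (4, -2), (5, 2), (6, -1), (7, 3), (10, 6), (12, 1)])
               (.mv 5))
              (.mv 8))
             (.mv 20)))
           (.mv 35))
          (.mv 22)))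
        (.mv 10))
       (.mv 1))
      (.mv 6)))
    (.mv 9)))
  (.mv 0))

def D3_0_0_0 : Inst where
  rows :=
   [(false, [1, 1, 1, 0, 0, 0, 0, 0, 0, 0, 0, 0, 0, 0, 0, 0, 0, 0, 0, 0, 0, 0, 0, 0, 0, 0, 0, 0, 0, 0, -1], 0),
    (false, [0, 0, 0, 1, 1, 1, 1, 1, 0, 0, 0, 0, 0, 0, 0, 0, 0, 0, 0, 0, 0, 0, 0, 0, 0, 0, 0, 0, 0, 0, -1], 0),
    (false, [0, 0, 0, 0, 0, 0, 0, 0, 1, 1, 1, 0, 0, 0, 0, 0, 0, 0, 0, 0, 0, 0, 0, 0, 0, 0, 0, 0, 0, 0, -1], 0),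
    (false, [0, 0, 0, 0, 0, 0, 0, 0, 0, 0, 0, 1, 1, 1, 1, 0, 0, 0, 0, 0, 0, 0, 0, 0, 0, 0, 0, 0, 0, 0, 0], 3),
    (false, [0, 0, 0, 0, 0, 0, 0, 0, 0, 0, 0, 0, 0, 0, 0, 1, 1, 1, 1, 1, 0, 0, 0, 0, 0, 0, 0, 0, 0, 0, 0], 3),
    (false, [0, 0, 0, 0, 0, 0, 0, 0, 0, 0, 0, 0, 0, 0, 0, 0, 0, 0, 0, 0, 1, 1, 1, 1, 0, 0, 0, 0, 0, 0, 0], 3),
    (false, [0, 1, 4, 4, 1, 0, 1, 4, 0, 1, 4, 1, 0, 1, 4, 4, 1, 0, 1, 4, 1, 0, 1, 4, 0, 1, 4, 0, 0, 0, -8], 6),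
    (false, [4, 1, 0, 4, 1, 0, 1, 4, 4, 1, 0, 4, 1, 0, 1, 4, 1, 0, 1, 4, 4, 1, 0, 1, 0, 1, 4, 0, 0, 0, -8], 6),
    (false, [-1, -1, -1, 1, 1, 1, 1, 1, -1, -1, -1, 0, 0, 0, 0, 1, 1, 1, 1, 1, 0, 0, 0, 0, 1, 1, 1, -1, 0, 0, 0], 0),
    (false, [1, 1, 1, -1, -1, -1, -1, -1, -1, -1, -1, 1, 1, 1, 1, 0, 0, 0, 0, 0, 0, 0, 0, 0, 1, 1, 1, 0, -1, 0, 0], 0),
    (false, [-1, 0, 1, -1, 0, 1, 0, -1, -1, 0, 1, -1, 0, 1, 0, -1, 0, 1, 0, -1, -1, 0, 1, 0, 1, 0, -1, 0, 0, -1, 0], 0),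
    (true, [-1, -1, -1, -1, -1, -1, -1, -1, 1, 1, 1, 0, 0, 0, 0, 0, 0, 0, 0, 0, 1, 1, 1, 1, 1, 1, 1, 0, 0, 0, 0], 0),
    (true, [1, 0, -1, -1, 0, 1, 0, -1, 1, 0, -1, 0, 1, 0, -1, -1, 0, 1, 0, -1, 0, 1, 0, -1, 1, 0, -1, 0, 0, 0, 0], 0),
    (true, [0, 1, 4, 0, 1, 4, 9, 16, 4, 1, 0, 1, 0, 1, 4, 1, 0, 1, 4, 9, 4, 1, 0, 1, 0, 1, 4, 0, 0, 0, 0], 1),
    (true, [4, 1, 0, 16, 9, 4, 1, 0, 0, 1, 4, 4, 1, 0, 1, 9, 4, 1, 0, 1, 1, 0, 1, 4, 0, 1, 4, 0, 0, 0, 0], 1),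
    (true, [0, 0, 0, 0, 0, 0, 0, 0, 0, 0, 0, 0, 0, 0, 0, 0, 0, 0, 0, 0, 0, 0, 0, 0, 0, 0, 0, 0, 0, 0, 1], 0),
    (true, [4, 1, 0, 16, 9, 4, 1, 0, 0, 1, 4, 4, 1, 0, 1, 9, 4, 1, 0, 1, 1, 0, 1, 4, 0, 1, 4, 0, 0, 0, -8], 7)]
  moves := D3_moves0
  reqs := D3_reqs0
  tree := D3_0_0_0_tree

theorem D3_0_0_0_ok : D3.instOK 0 0 0 D3_0_0_0 = true := by
  decide +kernel

def D3_0_1_0_tree : Tree :=
  (.br 8 0
  (.br 20 0
   (.br 21 0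
    (.br 7 0
     (.br 22 0
      (.fk [(4, -3), (5, 3), (7, 1), (16, 1)])
      (.br 9 0
       (.fk [(0, -2), (1, 2), (2, 16), (3, 1), (4, -1), (5, 4), (6, -1), (7, 2), (16, 3)])
       (.mv 10)))
     (.br 2 0
      (.br 9 0
       (.fk [(0, 4), (1, -8), (2, 36), (3, 1), (4, -2), (5, 9), (6, -3), (7, 5), (16, 6)])
       (.br 22 0
        (.br 6 0
         (.br 12 0
          (.br 11 0
           (.br 13 0
            (.br 14 0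
             (.fk [(3, 1)])
             (.br 19 0
              (.br 17 0
               (.br 24 0
                (.fk [(3, 2), (4, -1), (5, 2), (7, 1), (10, 2), (12, 2), (16, 1)])
                (.br 23 0
                 (.fk [(5, 1)])
                 (.mv 35)))
               (.mv 32))
              (.mv 2)))
            (.br 19 0
             (.br 23 0
              (.fk [(5, 1)])
              (.mv 60))
             (.mv 30)))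
           (.br 17 0
            (.br 5 0
             (.br 16 0
              (.br 18 0
               (.br 24 0
                (.fk [(1, 8), (2, -8), (3, -13), (4, 16), (5, 16), (6, 1), (10, 12), (12, 16), (16, 1)])
                (.br 23 0
                 (.fk [(5, 1)])
                 (.mv 35)))
               (.br 13 0
                (.br 23 0
                 (.fk [(5, 1)])
                 (.mv 61))
                (.mv 16)))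
              (.mv 3))
             (.br 0 0
              (.br 16 0
               (.br 23 0
                (.fk [(5, 1)])
                (.mv 18))
               (.mv 3))
              (.mv 11)))
            (.mv 20)))
          (.br 17 0
           (.br 23 0
            (.fk [(5, 1)])
            (.mv 21))
           (.mv 12)))
         (.br 1 0
          (.br 13 0
           (.br 14 0
            (.fk [(0, 124), (1, -12), (2, 16), (3, 28), (4, -3), (5, 28), (6, 15), (7, -12), (16, 19)])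
            (.br 17 0
             (.br 24 0
              (.fk [(0, 52), (1, 4), (2, -8), (3, -1), (4, 1), (5, 8), (6, 7), (7, -8), (10, 8), (11, 6), (12, 14), (16, 5)])
              (.br 23 0
               (.fk [(5, 1)])
               (.mv 35)))
             (.mv 32)))
           (.br 18 0
            (.fk [(0, 28), (2, 4), (3, -5), (4, 4), (5, 7), (6, 3), (7, -3), (16, 4)])
            (.mv 16)))
          (.mv 17)))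
        (.mv 10)))
      (.mv 9)))
    (.mv 1))
   (.br 9 0
    (.br 21 0
     (.br 22 0
      (.br 7 0
       (.br 12 0
        (.br 6 0
         (.br 13 0
          (.fk [(0, 4), (1, 12), (2, 16), (3, 7), (4, 1), (5, 4), (6, -1), (16, 3)])
          (.br 18 0
           (.fk [(1, 4), (2, 4), (4, 1), (5, 1), (16, 1)])
           (.mv 16)))
         (.br 13 0
          (.fk [(0, 2), (1, 2), (2, 12), (3, 5), (5, -1), (6, -1), (7, 1), (16, 2)])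
          (.mv 25)))
        (.br 17 0
         (.br 6 0
          (.br 18 0
           (.fk [(0, 4), (1, 12), (2, 16), (3, 1), (4, 7), (5, 4), (6, -1), (16, 3)])
           (.br 13 0
            (.fk [(1, 4), (2, 4), (3, 1), (5, 1), (16, 1)])
            (.mv 16)))
          (.br 2 0
           (.br 1 0
            (.fk [(0, 12), (2, 4), (3, -1), (5, 5), (6, 1), (7, -1), (16, 2)])
            (.mv 17))
           (.mv 37)))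
         (.mv 12)))
       (.br 2 0
        (.br 12 0
         (.br 1 0
          (.fk [(0, 20), (1, 4), (2, 8), (3, -1), (4, 1), (5, 10), (6, 1), (7, -2), (16, 3)])
          (.br 6 0
           (.br 5 0
            (.fk [(0, 4), (1, 12), (2, 16), (3, 3), (4, 1), (5, 4), (6, -3), (16, 1)])
            (.mv 39))
           (.mv 17)))
         (.br 17 0
          (.br 18 0
           (.br 6 0
            (.fk [(0, 4), (1, 8), (2, 20), (3, 1), (4, 10), (5, 1), (6, -3), (7, 1), (16, 2)])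
            (.br 1 0
             (.fk [(0, 24), (1, 4), (2, 4), (3, -2), (4, 7), (5, 7), (6, 2), (7, -3), (16, 3)])
             (.mv 17)))
           (.br 10 0
            (.fk [(0, -7), (2, 79), (3, 2), (4, 9), (5, 15), (6, -2), (7, -7)])
            (.mv 55)))
          (.mv 12)))
        (.mv 9)))
      (.mv 14))
     (.mv 1))
    (.mv 6)))
  (.mv 0))

def D3_0_1_0 : Inst where
  rows :=
   [(false, [1, 1, 1, 0, 0, 0, 0, 0, 0, 0, 0, 0, 0, 0, 0, 0, 0, 0, 0, 0, 0, 0, 0, 0, 0, 0, 0, 0, 0, 0, -1], 0),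
    (false, [0, 0, 0, 1, 1, 1, 1, 1, 0, 0, 0, 0, 0, 0, 0, 0, 0, 0, 0, 0, 0, 0, 0, 0, 0, 0, 0, 0, 0, 0, -1], 0),
    (false, [0, 0, 0, 0, 0, 0, 0, 0, 1, 1, 1, 0, 0, 0, 0, 0, 0, 0, 0, 0, 0, 0, 0, 0, 0, 0, 0, 0, 0, 0, -1], 0),
    (false, [0, 0, 0, 0, 0, 0, 0, 0, 0, 0, 0, 1, 1, 1, 1, 0, 0, 0, 0, 0, 0, 0, 0, 0, 0, 0, 0, 0, 0, 0, 0], 3),
    (false, [0, 0, 0, 0, 0, 0, 0, 0, 0, 0, 0, 0, 0, 0, 0, 1, 1, 1, 1, 1, 0, 0, 0, 0, 0, 0, 0, 0, 0, 0, 0], 3),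
    (false, [0, 0, 0, 0, 0, 0, 0, 0, 0, 0, 0, 0, 0, 0, 0, 0, 0, 0, 0, 0, 1, 1, 1, 1, 0, 0, 0, 0, 0, 0, 0], 3),
    (false, [0, 1, 4, 4, 1, 0, 1, 4, 0, 1, 4, 1, 0, 1, 4, 4, 1, 0, 1, 4, 1, 0, 1, 4, 0, 1, 4, 0, 0, 0, -8], 6),
    (false, [4, 1, 0, 4, 1, 0, 1, 4, 4, 1, 0, 4, 1, 0, 1, 4, 1, 0, 1, 4, 4, 1, 0, 1, 0, 1, 4, 0, 0, 0, -8], 6),
    (false, [-1, -1, -1, 1, 1, 1, 1, 1, -1, -1, -1, 0, 0, 0, 0, 1, 1, 1, 1, 1, 0, 0, 0, 0, 1, 1, 1, -1, 0, 0, 0], 0),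
    (false, [1, 1, 1, -1, -1, -1, -1, -1, -1, -1, -1, 1, 1, 1, 1, 0, 0, 0, 0, 0, 0, 0, 0, 0, 1, 1, 1, 0, -1, 0, 0], 0),
    (false, [-1, 0, 1, -1, 0, 1, 0, -1, -1, 0, 1, -1, 0, 1, 0, -1, 0, 1, 0, -1, -1, 0, 1, 0, 1, 0, -1, 0, 0, -1, 0], 0),
    (true, [-1, -1, -1, -1, -1, -1, -1, -1, 1, 1, 1, 0, 0, 0, 0, 0, 0, 0, 0, 0, 1, 1, 1, 1, 1, 1, 1, 0, 0, 0, 0], 0),
    (true, [1, 0, -1, -1, 0, 1, 0, -1, 1, 0, -1, 0, 1, 0, -1, -1, 0, 1, 0, -1, 0, 1, 0, -1, 1, 0, -1, 0, 0, 0, 0], 0),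
    (true, [0, 1, 4, 0, 1, 4, 9, 16, 4, 1, 0, 1, 0, 1, 4, 1, 0, 1, 4, 9, 4, 1, 0, 1, 0, 1, 4, 0, 0, 0, 0], 1),
    (true, [4, 1, 0, 16, 9, 4, 1, 0, 0, 1, 4, 4, 1, 0, 1, 9, 4, 1, 0, 1, 1, 0, 1, 4, 0, 1, 4, 0, 0, 0, 0], 1),
    (true, [0, 0, 0, 0, 0, 0, 0, 0, 0, 0, 0, 0, 0, 0, 0, 0, 0, 0, 0, 0, 0, 0, 0, 0, 0, 0, 0, 0, 0, 0, 1], 0),
    (true, [-4, -1, 0, -16, -9, -4, -1, 0, 0, -1, -4, -4, -1, 0, -1, -9, -4, -1, 0, -1, -1, 0, -1, -4, 0, -1, -4, 0, 0, 0, 8], -5)]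
  moves := D3_moves0
  reqs := D3_reqs0
  tree := D3_0_1_0_tree

theorem D3_0_1_0_ok : D3.instOK 0 1 0 D3_0_1_0 = true := by
  decide +kernel

def D3_0_2_0_tree : Tree :=
  (.br 8 0
  (.br 22 0
   (.br 20 0
    (.br 21 0
     (.br 1 0
      (.br 7 0
       (.fk [(4, -3), (5, 3), (7, 1), (16, -1), (17, 3)])
       (.br 2 0
        (.fk [(0, 24), (1, 4), (2, 4), (3, -2), (4, 1), (5, 7), (6, 2), (7, -3), (16, -3), (17, 24)])
        (.mv 9)))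
      (.br 6 0
       (.br 9 0
        (.fk [(0, -36), (1, 4), (2, 176), (3, -9), (4, 1), (5, 150), (6, -27), (7, 26), (16, -17), (17, 150)])
        (.br 11 0
         (.br 7 0
          (.fk [(0, 2), (1, 12), (2, 2), (3, 1), (4, -1), (5, 14), (6, -1), (7, 2), (16, -3), (17, 14)])
          (.br 24 0
           (.fk [(3, -2), (4, -3), (5, 5), (7, 1), (10, 2), (12, 2), (16, -1), (17, 5)])
           (.mv 54)))
         (.br 17 0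
          (.br 7 0
           (.fk [(0, 2), (1, 12), (2, 2), (3, 1), (4, -1), (5, 14), (6, -1), (7, 2), (16, -3), (17, 14)])
           (.br 2 0
            (.br 24 0
             (.fk [(3, -2), (4, -1), (5, 3), (6, 1), (10, 1), (12, 3), (16, -1), (17, 3)])
             (.mv 54))
            (.mv 9)))
          (.mv 20))))
       (.mv 17)))
     (.mv 1))
    (.br 21 0
     (.br 9 0
      (.br 12 0
       (.fk [(0, 4), (1, 4), (2, 24), (3, 3), (4, 1), (5, -2), (6, -3), (7, 2), (16, -3), (17, 24)])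
       (.br 4 0
        (.fk [(0, 4), (1, 4), (2, 24), (3, 1), (4, 1), (5, -2), (6, -3), (7, 2), (16, -3), (17, 30)])
        (.mv 26)))
      (.mv 6))
     (.mv 1)))
   (.br 21 0
    (.br 9 0
     (.fk [(0, 4), (1, 4), (2, 24), (3, 1), (4, 1), (5, -2), (6, -3), (7, 2), (16, -3), (17, 24)])
     (.mv 10))
    (.mv 1)))
  (.mv 0))

def D3_0_2_0 : Inst where
  rows :=
   [(false, [1, 1, 1, 0, 0, 0, 0, 0, 0, 0, 0, 0, 0, 0, 0, 0, 0, 0, 0, 0, 0, 0, 0, 0, 0, 0, 0, 0, 0, 0, -1], 0),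
    (false, [0, 0, 0, 1, 1, 1, 1, 1, 0, 0, 0, 0, 0, 0, 0, 0, 0, 0, 0, 0, 0, 0, 0, 0, 0, 0, 0, 0, 0, 0, -1], 0),
    (false, [0, 0, 0, 0, 0, 0, 0, 0, 1, 1, 1, 0, 0, 0, 0, 0, 0, 0, 0, 0, 0, 0, 0, 0, 0, 0, 0, 0, 0, 0, -1], 0),
    (false, [0, 0, 0, 0, 0, 0, 0, 0, 0, 0, 0, 1, 1, 1, 1, 0, 0, 0, 0, 0, 0, 0, 0, 0, 0, 0, 0, 0, 0, 0, 0], 3),
    (false, [0, 0, 0, 0, 0, 0, 0, 0, 0, 0, 0, 0, 0, 0, 0, 1, 1, 1, 1, 1, 0, 0, 0, 0, 0, 0, 0, 0, 0, 0, 0], 3),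
    (false, [0, 0, 0, 0, 0, 0, 0, 0, 0, 0, 0, 0, 0, 0, 0, 0, 0, 0, 0, 0, 1, 1, 1, 1, 0, 0, 0, 0, 0, 0, 0], 3),
    (false, [0, 1, 4, 4, 1, 0, 1, 4, 0, 1, 4, 1, 0, 1, 4, 4, 1, 0, 1, 4, 1, 0, 1, 4, 0, 1, 4, 0, 0, 0, -8], 6),
    (false, [4, 1, 0, 4, 1, 0, 1, 4, 4, 1, 0, 4, 1, 0, 1, 4, 1, 0, 1, 4, 4, 1, 0, 1, 0, 1, 4, 0, 0, 0, -8], 6),
    (false, [-1, -1, -1, 1, 1, 1, 1, 1, -1, -1, -1, 0, 0, 0, 0, 1, 1, 1, 1, 1, 0, 0, 0, 0, 1, 1, 1, -1, 0, 0, 0], 0),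
    (false, [1, 1, 1, -1, -1, -1, -1, -1, -1, -1, -1, 1, 1, 1, 1, 0, 0, 0, 0, 0, 0, 0, 0, 0, 1, 1, 1, 0, -1, 0, 0], 0),
    (false, [-1, 0, 1, -1, 0, 1, 0, -1, -1, 0, 1, -1, 0, 1, 0, -1, 0, 1, 0, -1, -1, 0, 1, 0, 1, 0, -1, 0, 0, -1, 0], 0),
    (true, [-1, -1, -1, -1, -1, -1, -1, -1, 1, 1, 1, 0, 0, 0, 0, 0, 0, 0, 0, 0, 1, 1, 1, 1, 1, 1, 1, 0, 0, 0, 0], 0),
    (true, [1, 0, -1, -1, 0, 1, 0, -1, 1, 0, -1, 0, 1, 0, -1, -1, 0, 1, 0, -1, 0, 1, 0, -1, 1, 0, -1, 0, 0, 0, 0], 0),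
    (true, [0, 1, 4, 0, 1, 4, 9, 16, 4, 1, 0, 1, 0, 1, 4, 1, 0, 1, 4, 9, 4, 1, 0, 1, 0, 1, 4, 0, 0, 0, 0], 1),
    (true, [4, 1, 0, 16, 9, 4, 1, 0, 0, 1, 4, 4, 1, 0, 1, 9, 4, 1, 0, 1, 1, 0, 1, 4, 0, 1, 4, 0, 0, 0, 0], 1),
    (true, [0, 0, 0, 0, 0, 0, 0, 0, 0, 0, 0, 0, 0, 0, 0, 0, 0, 0, 0, 0, 0, 0, 0, 0, 0, 0, 0, 0, 0, 0, 1], 0),
    (false, [4, 1, 0, 16, 9, 4, 1, 0, 0, 1, 4, 4, 1, 0, 1, 9, 4, 1, 0, 1, 1, 0, 1, 4, 0, 1, 4, 0, 0, 0, -8], 6),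
    (true, [0, 0, 0, 1, 1, 0, 0, 0, 0, 0, 0, 0, 0, 0, 0, 1, 0, 0, 0, 0, 0, 0, 0, 0, 0, 0, 0, 0, 0, 0, 0], 1)]
  moves := D3_moves0
  reqs := D3_reqs0
  tree := D3_0_2_0_tree

theorem D3_0_2_0_ok : D3.instOK 0 2 0 D3_0_2_0 = true := by
  decide +kernel

def D3_0_3_0_tree : Tree :=
  (.br 17 0
  (.br 8 0
   (.br 21 0
    (.br 22 0
     (.br 19 0
      (.fk [(4, 1), (5, -1), (7, 1), (10, 2), (16, -1), (17, 2)])
      (.br 14 0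
       (.br 20 0
        (.fk [(4, -1), (5, 1), (7, 1), (10, 2), (16, -1), (17, 2)])
        (.br 9 0
         (.br 12 0
          (.fk [(3, 1), (4, -1), (6, 1), (12, 2), (16, -1), (17, 2)])
          (.br 10 0
           (.fk [(0, -6), (1, -8), (2, 206), (3, 9), (4, 9), (5, 9), (6, 9), (7, 4), (10, 9), (12, 24), (16, -37), (17, 123)])
           (.mv 28)))
         (.mv 6)))
       (.mv 2)))
     (.br 9 0
      (.br 20 0
       (.fk [(0, 8), (1, 6), (2, 42), (3, 2), (4, 6), (5, 6), (6, -5), (7, 8), (8, 1), (10, 9), (16, -10), (17, 10)])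
       (.mv 14))
      (.mv 10)))
    (.mv 1))
   (.mv 0))
  (.br 12 0
   (.br 8 0
    (.br 21 0
     (.br 14 0
      (.fk [(3, 1), (4, -1), (6, 1), (12, 2), (16, -1), (17, 2)])
      (.br 19 0
       (.br 9 0
        (.br 20 0
         (.fk [(0, 2), (1, 2), (2, 12), (3, 2), (4, 2), (5, 2), (6, -1), (7, 2), (11, 2), (12, 1), (16, -3), (17, 3)])
         (.mv 29))
        (.mv 32))
       (.mv 2)))
     (.mv 1))
    (.mv 0))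
   (.mv 12)))

def D3_0_3_0 : Inst where
  rows :=
   [(false, [1, 1, 1, 0, 0, 0, 0, 0, 0, 0, 0, 0, 0, 0, 0, 0, 0, 0, 0, 0, 0, 0, 0, 0, 0, 0, 0, 0, 0, 0, -1], 0),
    (false, [0, 0, 0, 1, 1, 1, 1, 1, 0, 0, 0, 0, 0, 0, 0, 0, 0, 0, 0, 0, 0, 0, 0, 0, 0, 0, 0, 0, 0, 0, -1], 0),
    (false, [0, 0, 0, 0, 0, 0, 0, 0, 1, 1, 1, 0, 0, 0, 0, 0, 0, 0, 0, 0, 0, 0, 0, 0, 0, 0, 0, 0, 0, 0, -1], 0),
    (false, [0, 0, 0, 0, 0, 0, 0, 0, 0, 0, 0, 1, 1, 1, 1, 0, 0, 0, 0, 0, 0, 0, 0, 0, 0, 0, 0, 0, 0, 0, 0], 3),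
    (false, [0, 0, 0, 0, 0, 0, 0, 0, 0, 0, 0, 0, 0, 0, 0, 1, 1, 1, 1, 1, 0, 0, 0, 0, 0, 0, 0, 0, 0, 0, 0], 3),
    (false, [0, 0, 0, 0, 0, 0, 0, 0, 0, 0, 0, 0, 0, 0, 0, 0, 0, 0, 0, 0, 1, 1, 1, 1, 0, 0, 0, 0, 0, 0, 0], 3),
    (false, [0, 1, 4, 4, 1, 0, 1, 4, 0, 1, 4, 1, 0, 1, 4, 4, 1, 0, 1, 4, 1, 0, 1, 4, 0, 1, 4, 0, 0, 0, -8], 6),
    (false, [4, 1, 0, 4, 1, 0, 1, 4, 4, 1, 0, 4, 1, 0, 1, 4, 1, 0, 1, 4, 4, 1, 0, 1, 0, 1, 4, 0, 0, 0, -8], 6),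
    (false, [-1, -1, -1, 1, 1, 1, 1, 1, -1, -1, -1, 0, 0, 0, 0, 1, 1, 1, 1, 1, 0, 0, 0, 0, 1, 1, 1, -1, 0, 0, 0], 0),
    (false, [1, 1, 1, -1, -1, -1, -1, -1, -1, -1, -1, 1, 1, 1, 1, 0, 0, 0, 0, 0, 0, 0, 0, 0, 1, 1, 1, 0, -1, 0, 0], 0),
    (false, [-1, 0, 1, -1, 0, 1, 0, -1, -1, 0, 1, -1, 0, 1, 0, -1, 0, 1, 0, -1, -1, 0, 1, 0, 1, 0, -1, 0, 0, -1, 0], 0),
    (true, [-1, -1, -1, -1, -1, -1, -1, -1, 1, 1, 1, 0, 0, 0, 0, 0, 0, 0, 0, 0, 1, 1, 1, 1, 1, 1, 1, 0, 0, 0, 0], 0),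
    (true, [1, 0, -1, -1, 0, 1, 0, -1, 1, 0, -1, 0, 1, 0, -1, -1, 0, 1, 0, -1, 0, 1, 0, -1, 1, 0, -1, 0, 0, 0, 0], 0),
    (true, [0, 1, 4, 0, 1, 4, 9, 16, 4, 1, 0, 1, 0, 1, 4, 1, 0, 1, 4, 9, 4, 1, 0, 1, 0, 1, 4, 0, 0, 0, 0], 1),
    (true, [4, 1, 0, 16, 9, 4, 1, 0, 0, 1, 4, 4, 1, 0, 1, 9, 4, 1, 0, 1, 1, 0, 1, 4, 0, 1, 4, 0, 0, 0, 0], 1),
    (true, [0, 0, 0, 0, 0, 0, 0, 0, 0, 0, 0, 0, 0, 0, 0, 0, 0, 0, 0, 0, 0, 0, 0, 0, 0, 0, 0, 0, 0, 0, 1], 0),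
    (false, [4, 1, 0, 16, 9, 4, 1, 0, 0, 1, 4, 4, 1, 0, 1, 9, 4, 1, 0, 1, 1, 0, 1, 4, 0, 1, 4, 0, 0, 0, -8], 6),
    (true, [1, 0, -1, 0, 0, 1, 0, -1, -1, 0, 1, 1, 0, -1, 0, 0, 1, 0, -1, 0, 0, -1, 0, 1, -1, 0, 1, 0, 0, 0, 0], 1)]
  moves := D3_moves0
  reqs := D3_reqs0
  tree := D3_0_3_0_tree

theorem D3_0_3_0_ok : D3.instOK 0 3 0 D3_0_3_0 = true := by
  decide +kernel

theorem D3_ok0 : ∀ b ∈ D3.branches, ∃ I : Inst, D3.instOK 0 b.1 b.2 I = true := by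
  intro b hb
  have h : b = (0, 0) ∨ b = (1, 0) ∨ b = (2, 0) ∨ b = (3, 0) := by
    have hb2 : b ∈ [(0, 0), (1, 0), (2, 0), (3, 0)] := hb
    simpa using hb2
  rcases h with rfl | rfl | rfl | rfl
  · exact ⟨D3_0_0_0, D3_0_0_0_ok⟩
  · exact ⟨D3_0_1_0, D3_0_1_0_ok⟩
  · exact ⟨D3_0_2_0, D3_0_2_0_ok⟩
  · exact ⟨D3_0_3_0, D3_0_3_0_ok⟩

end Pool.Agent.helper1.CAD
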