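import Pool.Agent.helper1.CAD.Sound

namespace Pool.Agent.helper1.CAD

set_option maxRecDepth 100000

def D3u : Spec where
  K := .D
  tys := [(2, 2, [1], 0), (2, 0, [1], 0), (0, 2, [1], 1), (2, 1, [0], 1), (1, 1, [0], 1), (1, 0, [0], 1)]
  kc := ([4], 3)
  pmin := [0]
  sl := (0, -1)
  good := true
  pv := 0
  px := 0
  pvx := 0

def D3u_moves0 : List Move :=
   [([((0, 2, 0), -2)], 0),
    ([((2, 2, 1), 0), ((2, 0, 1), 2)], 0),
    ([((2, 2, 0), 0), ((2, 0, 0), 2)], 0),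
    ([((1, 1, -1), 0), ((1, 0, -1), 1)], 0),
    ([((2, 0, -1), 1), ((2, 1, -1), 0)], 0),
    ([((2, 2, 2), 0), ((2, 0, 2), 2)], 0),
    ([((2, 0, 1), 1), ((2, 1, 1), 0)], 0),
    ([((0, 2, 1), 0), ((0, 0, 1), 2)], 0),
    ([((0, 2, 2), 0), ((0, 0, 2), 2)], 0),
    ([((2, 2, 2), 1), ((2, 1, 2), 2)], 0),
    ([((2, 2, 0), 1), ((2, 1, 0), 2)], 0),
    ([((2, 0, 2), 1), ((2, 1, 2), 0)], 0),
    ([((1, 1, 2), 0), ((1, 0, 2), 1)], 0),
    ([((1, 1, 1), 0), ((1, 0, 1), 1)], 0),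
    ([((2, 2, 1), 1), ((2, 1, 1), 2)], 0),
    ([((1, 1, 0), 0), ((1, 0, 0), 1)], 0),
    ([((0, 2, 1), 0), ((1, 1, -1), -1), ((1, 0, 0), 2)], 0),
    ([((0, 2, 1), -1), ((2, 1, 1), 2), ((1, 1, -1), -1)], 0),
    ([((0, 2, 2), 0), ((1, 1, 0), -1), ((1, 0, 2), 2)], 0),
    ([((2, 2, 0), 1), ((2, 0, 1), 2), ((2, 1, 2), 0)], 0),
    ([((0, 2, 1), -1), ((2, 1, 1), 0), ((1, 0, 2), 2)], 0),
    ([((2, 2, 1), 1), ((2, 0, 0), 2), ((2, 1, -1), 0)], 0),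
    ([((0, 2, 2), 0), ((1, 1, -1), -1), ((1, 0, 1), 2)], 0),
    ([((0, 2, 1), 1), ((2, 1, 1), 0), ((1, 0, 1), 2)], 0),
    ([((0, 2, 2), 0), ((1, 1, 2), 2), ((1, 0, -2), -1)], 0),
    ([((0, 2, 2), 1), ((2, 1, 0), 2), ((1, 1, -1), -1)], 0),
    ([((0, 2, 1), 0), ((1, 1, 0), 2), ((1, 0, -2), -1)], 0),
    ([((0, 2, 1), 1), ((2, 1, 1), 2), ((1, 1, 0), -1)], 0),
    ([((0, 2, 1), 1), ((2, 1, -1), 0), ((1, 0, 0), 2)], 0),
    ([((0, 2, 1), 0), ((1, 1, 2), 2), ((1, 0, 0), -1)], 0),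
    ([((0, 2, 1), 0), ((1, 1, 0), -1), ((1, 0, 1), 2)], 0),
    ([((2, 2, 0), 0), ((2, 0, -1), 1), ((2, 1, 1), 2)], 0),
    ([((0, 2, 1), -1), ((2, 1, -1), 0), ((1, 0, 1), 2)], 0),
    ([((0, 2, 1), 0), ((1, 1, 1), 2), ((1, 0, -1), -1)], 0),
    ([((2, 2, 1), 0), ((2, 0, 2), 1), ((2, 1, 0), 2)], 0),
    ([((0, 2, 1), 0), ((1, 1, 1), -1), ((1, 0, 2), 2)], 0),
    ([((2, 0, 0), 2), ((0, 2, 1), -1), ((2, 1, -1), 0), ((1, 1, -1), -1)], 0),
    ([((2, 0, 2), 2), ((0, 2, 1), 1), ((2, 1, 1), 0), ((1, 1, 1), -1)], 0),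
    ([((0, 2, 2), 0), ((1, 1, -1), -1), ((1, 1, 2), 2), ((1, 0, 0), 1)], 0),
    ([((2, 2, 2), 0), ((2, 0, 1), 2), ((0, 2, 1), 0), ((0, 0, 2), 2)], 0),
    ([((0, 2, 1), 1), ((2, 1, 0), 2), ((1, 1, 0), 0), ((1, 0, -1), -1)], 0),
    ([((2, 2, 0), 0), ((2, 0, 2), 2), ((0, 2, 2), 0), ((0, 0, 0), -2)], 0),
    ([((2, 0, 2), 2), ((0, 2, 1), -1), ((2, 1, -1), 0), ((1, 1, 1), -1)], 0),
    ([((0, 2, 1), 0), ((2, 1, 0), 2), ((1, 1, -1), -1), ((0, 0, 0), -1)], 0),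
    ([((0, 2, 1), 0), ((0, 2, 1), 0), ((0, 0, 0), -2), ((0, 0, 2), 2)], 0),
    ([((0, 2, 1), 1), ((2, 1, 0), 0), ((1, 1, 1), 2), ((1, 0, 0), 1)], 0),
    ([((2, 2, 0), 0), ((0, 2, 2), 1), ((2, 1, 2), 2), ((1, 0, 0), 2)], 0),
    ([((2, 0, 2), 1), ((0, 2, 1), 0), ((2, 1, 0), 0), ((0, 0, 0), -2)], 0),
    ([((2, 2, 1), 0), ((2, 0, 2), 2), ((0, 2, 1), 0), ((0, 0, 0), -2)], 0),
    ([((2, 2, 0), 0), ((0, 2, 2), 0), ((1, 0, 0), 2), ((1, 0, 2), 2)], 0),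
    ([((2, 0, 0), 2), ((0, 2, 1), 1), ((2, 1, -1), 0), ((1, 1, 0), -1)], 0),
    ([((2, 2, 0), 0), ((2, 0, 1), 2), ((0, 2, 2), 0), ((0, 0, 1), 2)], 0),
    ([((2, 0, 2), 1), ((2, 1, -1), 0), ((1, 1, 2), 0), ((1, 0, -1), 1)], 0),
    ([((0, 2, 2), 0), ((2, 1, 2), 2), ((1, 1, -1), -1), ((0, 0, 0), -1)], 0),
    ([((0, 2, 1), -1), ((2, 1, -1), 0), ((2, 1, 2), 2), ((0, 0, 0), -1)], 0),
    ([((0, 2, 1), 1), ((2, 1, 0), 2), ((1, 1, 1), 0), ((1, 0, -2), -1)], 0),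
    ([((0, 2, 1), 0), ((1, 1, 0), 0), ((1, 0, 2), 1), ((0, 0, 0), -2)], 0),
    ([((0, 2, 1), 1), ((2, 1, -1), 0), ((2, 1, 0), 2), ((0, 0, 0), -1)], 0),
    ([((2, 0, 1), 1), ((0, 2, 1), 0), ((2, 1, -1), 0), ((0, 0, 0), -2)], 0),
    ([((2, 0, 1), 2), ((0, 2, 1), 1), ((2, 1, -1), 0), ((1, 1, 1), -1)], 0),
    ([((0, 2, 1), 1), ((2, 1, 1), 2), ((1, 1, 2), 0), ((1, 0, -2), -1)], 0),
    ([((0, 2, 1), 1), ((2, 1, 2), 0), ((1, 1, 2), 2), ((1, 0, 1), 1)], 0),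
    ([((0, 2, 1), 1), ((2, 1, 2), 2), ((1, 1, 2), 0), ((1, 0, -1), -1)], 0),
    ([((0, 2, 1), 1), ((2, 1, 2), 2), ((1, 1, 1), 0), ((1, 0, 0), -1)], 0),
    ([((0, 2, 1), 0), ((2, 1, 2), 0), ((1, 0, 2), 2), ((0, 0, 0), -1)], 0),
    ([((0, 2, 1), -1), ((2, 1, 2), 2), ((1, 1, 1), 0), ((1, 0, -2), -1)], 0),
    ([((0, 2, 1), 0), ((2, 1, 2), 2), ((1, 1, 0), -1), ((0, 0, 0), -1)], 0),
    ([((2, 2, 0), 1), ((0, 2, 1), 0), ((2, 1, 2), 2), ((0, 0, 0), -2)], 0),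
    ([((0, 2, 1), 0), ((1, 1, -1), 0), ((1, 0, 1), 1), ((0, 0, 0), -2)], 0),
    ([((0, 2, 1), -1), ((2, 1, 0), 0), ((1, 1, 2), 2), ((1, 0, 1), 1)], 0),
    ([((2, 2, 0), 0), ((0, 2, 1), 1), ((2, 1, 1), 2), ((1, 0, 0), 2)], 0),
    ([((0, 2, 2), 1), ((2, 1, -1), 0), ((1, 1, 0), 2), ((1, 0, 1), 1)], 0),
    ([((0, 2, 1), 0), ((0, 2, 1), 1), ((2, 1, 1), 2), ((1, 1, 1), -1), ((0, 0, 2), 2)], 0),
    ([((0, 2, 1), -1), ((0, 2, 1), 0), ((2, 1, -1), 0), ((1, 0, 2), 2), ((0, 0, 0), -2)], 0),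
    ([((2, 2, 0), 1), ((0, 2, 1), 1), ((2, 1, 1), 2), ((2, 1, 2), 2), ((1, 1, 1), -1)], 0),
    ([((0, 2, 1), 0), ((0, 2, 1), 0), ((1, 1, 2), 2), ((1, 0, -2), -1), ((0, 0, 0), -2)], 0),
    ([((0, 2, 1), 0), ((2, 1, -1), 0), ((1, 1, 0), 2), ((1, 0, -1), 1), ((0, 0, 2), 1)], 0),
    ([((0, 2, 1), 0), ((2, 1, -1), 0), ((1, 1, 2), 2), ((1, 0, -1), 1), ((0, 0, 0), -1)], 0),
    ([((0, 2, 1), 0), ((0, 2, 2), 0), ((1, 1, -1), -1), ((1, 0, 2), 2), ((0, 0, 0), -2)], 0),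
    ([((2, 0, 1), 2), ((0, 2, 1), 0), ((2, 1, 2), 0), ((1, 1, -1), -1), ((0, 0, 0), -1)], 0),
    ([((2, 0, 1), 1), ((0, 2, 2), 0), ((2, 1, -1), 0), ((1, 1, -1), -1), ((1, 0, 0), 2)], 0),
    ([((2, 0, 1), 1), ((0, 2, 2), 0), ((2, 1, -1), 0), ((1, 1, 0), 2), ((1, 0, -2), -1)], 0),
    ([((2, 0, 0), 2), ((0, 2, 1), 1), ((2, 1, 2), 0), ((1, 1, -1), 0), ((1, 0, -2), -1)], 0),
    ([((2, 0, 0), 2), ((0, 2, 2), 0), ((2, 1, -1), 0), ((1, 1, -1), -1), ((0, 0, 1), 1)], 0),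
    ([((2, 2, 0), 0), ((2, 0, 2), 1), ((2, 1, 1), 2), ((1, 1, 2), 0), ((1, 0, -1), 1)], 0),
    ([((2, 2, 0), 0), ((2, 0, 1), 2), ((0, 2, 2), 1), ((2, 1, -1), 0), ((1, 1, 0), 2), ((1, 0, -1), 1)], 0),
    ([((2, 2, 0), 0), ((0, 2, 1), 0), ((2, 1, 1), 2), ((1, 1, 2), 2), ((1, 0, -1), 1), ((0, 0, 0), -1)], 0),
    ([((2, 2, 1), 1), ((0, 2, 1), 1), ((1, 1, 1), 2), ((1, 1, 1), 2)], 0),
    ([((2, 2, 0), 0), ((2, 0, 1), 1), ((2, 0, 1), 2), ((0, 2, 2), 0), ((2, 1, -1), 0), ((0, 0, 0), -2)], 0),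
    ([((0, 2, 1), -1), ((0, 2, 1), 0), ((2, 1, 2), 2), ((1, 1, -1), 0), ((1, 0, -2), -1), ((0, 0, 0), -2)], 0),
    ([((0, 2, 1), 1), ((0, 2, 1), 1), ((1, 1, -1), 0), ((1, 1, 1), 2), ((0, 0, 0), -2)], 0),
    ([((0, 2, 1), 1), ((0, 2, 2), 1), ((2, 1, -1), 0), ((1, 1, 1), 2), ((1, 1, 1), 2), ((0, 0, 0), -1)], 0),
    ([((0, 2, 1), 1), ((0, 2, 2), 1), ((1, 1, 1), 2), ((1, 0, -2), -1), ((0, 0, 0), -1), ((0, 0, 0), -1)], 0)]

def D3u_reqs0 : List (List ℤ) :=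
   [[0, 0, 0, 0, 0, 0, 0, 0, 1, 0, 0, 0, 0, 0, 0, 0, 0, 0, 0, 0, 0, 0, 0, 0, 0, 0, 0, 0, 0, 0, 0],
    [0, 1, 0, 0, 0, 0, 1, 0, 0, 0, 0, 0, 0, 0, 0, 0, 0, 0, 0, 0, 0, 0, 0, 0, 0, 0, 0, 0, 0, 0, 0],
    [1, 0, 0, 0, 0, 1, 0, 0, 0, 0, 0, 0, 0, 0, 0, 0, 0, 0, 0, 0, 0, 0, 0, 0, 0, 0, 0, 0, 0, 0, 0],
    [0, 0, 0, 0, 0, 0, 0, 0, 0, 0, 0, 0, 0, 0, 0, 1, 0, 0, 0, 0, 1, 0, 0, 0, 0, 0, 0, 0, 0, 0, 0],
    [0, 0, 0, 0, 1, 0, 0, 0, 0, 0, 0, 1, 0, 0, 0, 0, 0, 0, 0, 0, 0, 0, 0, 0, 0, 0, 0, 0, 0, 0, 0],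
    [0, 0, 1, 0, 0, 0, 0, 1, 0, 0, 0, 0, 0, 0, 0, 0, 0, 0, 0, 0, 0, 0, 0, 0, 0, 0, 0, 0, 0, 0, 0],
    [0, 0, 0, 0, 0, 0, 1, 0, 0, 0, 0, 0, 0, 1, 0, 0, 0, 0, 0, 0, 0, 0, 0, 0, 0, 0, 0, 0, 0, 0, 0],
    [0, 0, 0, 0, 0, 0, 0, 0, 0, 1, 0, 0, 0, 0, 0, 0, 0, 0, 0, 0, 0, 0, 0, 0, 0, 1, 0, 0, 0, 0, 0],
    [0, 0, 0, 0, 0, 0, 0, 0, 0, 0, 1, 0, 0, 0, 0, 0, 0, 0, 0, 0, 0, 0, 0, 0, 0, 0, 1, 0, 0, 0, 0],
    [0, 0, 1, 0, 0, 0, 0, 0, 0, 0, 0, 0, 0, 0, 1, 0, 0, 0, 0, 0, 0, 0, 0, 0, 0, 0, 0, 0, 0, 0, 0],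
    [1, 0, 0, 0, 0, 0, 0, 0, 0, 0, 0, 0, 1, 0, 0, 0, 0, 0, 0, 0, 0, 0, 0, 0, 0, 0, 0, 0, 0, 0, 0],
    [0, 0, 0, 0, 0, 0, 0, 1, 0, 0, 0, 0, 0, 0, 1, 0, 0, 0, 0, 0, 0, 0, 0, 0, 0, 0, 0, 0, 0, 0, 0],
    [0, 0, 0, 0, 0, 0, 0, 0, 0, 0, 0, 0, 0, 0, 0, 0, 0, 0, 1, 0, 0, 0, 0, 1, 0, 0, 0, 0, 0, 0, 0],
    [0, 0, 0, 0, 0, 0, 0, 0, 0, 0, 0, 0, 0, 0, 0, 0, 0, 1, 0, 0, 0, 0, 1, 0, 0, 0, 0, 0, 0, 0, 0],
    [0, 1, 0, 0, 0, 0, 0, 0, 0, 0, 0, 0, 0, 1, 0, 0, 0, 0, 0, 0, 0, 0, 0, 0, 0, 0, 0, 0, 0, 0, 0],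
    [0, 0, 0, 0, 0, 0, 0, 0, 0, 0, 0, 0, 0, 0, 0, 0, 1, 0, 0, 0, 0, 1, 0, 0, 0, 0, 0, 0, 0, 0, 0],
    [0, 0, 0, 0, 0, 0, 0, 0, 0, 1, 0, 0, 0, 0, 0, 1, 0, 0, 0, 0, 0, 1, 0, 0, 0, 0, 0, 0, 0, 0, 0],
    [0, 0, 0, 0, 0, 0, 0, 0, 0, 1, 0, 0, 0, 1, 0, 1, 0, 0, 0, 0, 0, 0, 0, 0, 0, 0, 0, 0, 0, 0, 0],
    [0, 0, 0, 0, 0, 0, 0, 0, 0, 0, 1, 0, 0, 0, 0, 0, 1, 0, 0, 0, 0, 0, 0, 1, 0, 0, 0, 0, 0, 0, 0],
    [1, 0, 0, 0, 0, 0, 1, 0, 0, 0, 0, 0, 0, 0, 1, 0, 0, 0, 0, 0, 0, 0, 0, 0, 0, 0, 0, 0, 0, 0, 0],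
    [0, 0, 0, 0, 0, 0, 0, 0, 0, 1, 0, 0, 0, 1, 0, 0, 0, 0, 0, 0, 0, 0, 0, 1, 0, 0, 0, 0, 0, 0, 0],
    [0, 1, 0, 0, 0, 1, 0, 0, 0, 0, 0, 1, 0, 0, 0, 0, 0, 0, 0, 0, 0, 0, 0, 0, 0, 0, 0, 0, 0, 0, 0],
    [0, 0, 0, 0, 0, 0, 0, 0, 0, 0, 1, 0, 0, 0, 0, 1, 0, 0, 0, 0, 0, 0, 1, 0, 0, 0, 0, 0, 0, 0, 0],
    [0, 0, 0, 0, 0, 0, 0, 0, 0, 1, 0, 0, 0, 1, 0, 0, 0, 0, 0, 0, 0, 0, 1, 0, 0, 0, 0, 0, 0, 0, 0],
    [0, 0, 0, 0, 0, 0, 0, 0, 0, 0, 1, 0, 0, 0, 0, 0, 0, 0, 1, 1, 0, 0, 0, 0, 0, 0, 0, 0, 0, 0, 0],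
    [0, 0, 0, 0, 0, 0, 0, 0, 0, 0, 1, 0, 1, 0, 0, 1, 0, 0, 0, 0, 0, 0, 0, 0, 0, 0, 0, 0, 0, 0, 0],
    [0, 0, 0, 0, 0, 0, 0, 0, 0, 1, 0, 0, 0, 0, 0, 0, 1, 0, 0, 1, 0, 0, 0, 0, 0, 0, 0, 0, 0, 0, 0],
    [0, 0, 0, 0, 0, 0, 0, 0, 0, 1, 0, 0, 0, 1, 0, 0, 1, 0, 0, 0, 0, 0, 0, 0, 0, 0, 0, 0, 0, 0, 0],
    [0, 0, 0, 0, 0, 0, 0, 0, 0, 1, 0, 1, 0, 0, 0, 0, 0, 0, 0, 0, 0, 1, 0, 0, 0, 0, 0, 0, 0, 0, 0],
    [0, 0, 0, 0, 0, 0, 0, 0, 0, 1, 0, 0, 0, 0, 0, 0, 0, 0, 1, 0, 0, 1, 0, 0, 0, 0, 0, 0, 0, 0, 0],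
    [0, 0, 0, 0, 0, 0, 0, 0, 0, 1, 0, 0, 0, 0, 0, 0, 1, 0, 0, 0, 0, 0, 1, 0, 0, 0, 0, 0, 0, 0, 0],
    [1, 0, 0, 0, 1, 0, 0, 0, 0, 0, 0, 0, 0, 1, 0, 0, 0, 0, 0, 0, 0, 0, 0, 0, 0, 0, 0, 0, 0, 0, 0],
    [0, 0, 0, 0, 0, 0, 0, 0, 0, 1, 0, 1, 0, 0, 0, 0, 0, 0, 0, 0, 0, 0, 1, 0, 0, 0, 0, 0, 0, 0, 0],
    [0, 0, 0, 0, 0, 0, 0, 0, 0, 1, 0, 0, 0, 0, 0, 0, 0, 1, 0, 0, 1, 0, 0, 0, 0, 0, 0, 0, 0, 0, 0],
    [0, 1, 0, 0, 0, 0, 0, 1, 0, 0, 0, 0, 1, 0, 0, 0, 0, 0, 0, 0, 0, 0, 0, 0, 0, 0, 0, 0, 0, 0, 0],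
    [0, 0, 0, 0, 0, 0, 0, 0, 0, 1, 0, 0, 0, 0, 0, 0, 0, 1, 0, 0, 0, 0, 0, 1, 0, 0, 0, 0, 0, 0, 0],
    [0, 0, 0, 0, 0, 1, 0, 0, 0, 1, 0, 1, 0, 0, 0, 1, 0, 0, 0, 0, 0, 0, 0, 0, 0, 0, 0, 0, 0, 0, 0],
    [0, 0, 0, 0, 0, 0, 0, 1, 0, 1, 0, 0, 0, 1, 0, 0, 0, 1, 0, 0, 0, 0, 0, 0, 0, 0, 0, 0, 0, 0, 0],
    [0, 0, 0, 0, 0, 0, 0, 0, 0, 0, 1, 0, 0, 0, 0, 1, 0, 0, 1, 0, 0, 1, 0, 0, 0, 0, 0, 0, 0, 0, 0],
    [0, 0, 1, 0, 0, 0, 1, 0, 0, 1, 0, 0, 0, 0, 0, 0, 0, 0, 0, 0, 0, 0, 0, 0, 0, 0, 1, 0, 0, 0, 0],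
    [0, 0, 0, 0, 0, 0, 0, 0, 0, 1, 0, 0, 1, 0, 0, 0, 1, 0, 0, 0, 1, 0, 0, 0, 0, 0, 0, 0, 0, 0, 0],
    [1, 0, 0, 0, 0, 0, 0, 1, 0, 0, 1, 0, 0, 0, 0, 0, 0, 0, 0, 0, 0, 0, 0, 0, 1, 0, 0, 0, 0, 0, 0],
    [0, 0, 0, 0, 0, 0, 0, 1, 0, 1, 0, 1, 0, 0, 0, 0, 0, 1, 0, 0, 0, 0, 0, 0, 0, 0, 0, 0, 0, 0, 0],
    [0, 0, 0, 0, 0, 0, 0, 0, 0, 1, 0, 0, 1, 0, 0, 1, 0, 0, 0, 0, 0, 0, 0, 0, 1, 0, 0, 0, 0, 0, 0],
    [0, 0, 0, 0, 0, 0, 0, 0, 0, 2, 0, 0, 0, 0, 0, 0, 0, 0, 0, 0, 0, 0, 0, 0, 1, 0, 1, 0, 0, 0, 0],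
    [0, 0, 0, 0, 0, 0, 0, 0, 0, 1, 0, 0, 1, 0, 0, 0, 0, 1, 0, 0, 0, 1, 0, 0, 0, 0, 0, 0, 0, 0, 0],
    [1, 0, 0, 0, 0, 0, 0, 0, 0, 0, 1, 0, 0, 0, 1, 0, 0, 0, 0, 0, 0, 1, 0, 0, 0, 0, 0, 0, 0, 0, 0],
    [0, 0, 0, 0, 0, 0, 0, 1, 0, 1, 0, 0, 1, 0, 0, 0, 0, 0, 0, 0, 0, 0, 0, 0, 1, 0, 0, 0, 0, 0, 0],
    [0, 1, 0, 0, 0, 0, 0, 1, 0, 1, 0, 0, 0, 0, 0, 0, 0, 0, 0, 0, 0, 0, 0, 0, 1, 0, 0, 0, 0, 0, 0],
    [1, 0, 0, 0, 0, 0, 0, 0, 0, 0, 1, 0, 0, 0, 0, 0, 0, 0, 0, 0, 0, 1, 0, 1, 0, 0, 0, 0, 0, 0, 0],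
    [0, 0, 0, 0, 0, 1, 0, 0, 0, 1, 0, 1, 0, 0, 0, 0, 1, 0, 0, 0, 0, 0, 0, 0, 0, 0, 0, 0, 0, 0, 0],
    [1, 0, 0, 0, 0, 0, 1, 0, 0, 0, 1, 0, 0, 0, 0, 0, 0, 0, 0, 0, 0, 0, 0, 0, 0, 1, 0, 0, 0, 0, 0],
    [0, 0, 0, 0, 0, 0, 0, 1, 0, 0, 0, 1, 0, 0, 0, 0, 0, 0, 1, 0, 1, 0, 0, 0, 0, 0, 0, 0, 0, 0, 0],
    [0, 0, 0, 0, 0, 0, 0, 0, 0, 0, 1, 0, 0, 0, 1, 1, 0, 0, 0, 0, 0, 0, 0, 0, 1, 0, 0, 0, 0, 0, 0],
    [0, 0, 0, 0, 0, 0, 0, 0, 0, 1, 0, 1, 0, 0, 1, 0, 0, 0, 0, 0, 0, 0, 0, 0, 1, 0, 0, 0, 0, 0, 0],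
    [0, 0, 0, 0, 0, 0, 0, 0, 0, 1, 0, 0, 1, 0, 0, 0, 0, 1, 0, 1, 0, 0, 0, 0, 0, 0, 0, 0, 0, 0, 0],
    [0, 0, 0, 0, 0, 0, 0, 0, 0, 1, 0, 0, 0, 0, 0, 0, 1, 0, 0, 0, 0, 0, 0, 1, 1, 0, 0, 0, 0, 0, 0],
    [0, 0, 0, 0, 0, 0, 0, 0, 0, 1, 0, 1, 1, 0, 0, 0, 0, 0, 0, 0, 0, 0, 0, 0, 1, 0, 0, 0, 0, 0, 0],
    [0, 0, 0, 0, 0, 0, 1, 0, 0, 1, 0, 1, 0, 0, 0, 0, 0, 0, 0, 0, 0, 0, 0, 0, 1, 0, 0, 0, 0, 0, 0],
    [0, 0, 0, 0, 0, 0, 1, 0, 0, 1, 0, 1, 0, 0, 0, 0, 0, 1, 0, 0, 0, 0, 0, 0, 0, 0, 0, 0, 0, 0, 0],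
    [0, 0, 0, 0, 0, 0, 0, 0, 0, 1, 0, 0, 0, 1, 0, 0, 0, 0, 1, 1, 0, 0, 0, 0, 0, 0, 0, 0, 0, 0, 0],
    [0, 0, 0, 0, 0, 0, 0, 0, 0, 1, 0, 0, 0, 0, 1, 0, 0, 0, 1, 0, 0, 0, 1, 0, 0, 0, 0, 0, 0, 0, 0],
    [0, 0, 0, 0, 0, 0, 0, 0, 0, 1, 0, 0, 0, 0, 1, 0, 0, 0, 1, 0, 1, 0, 0, 0, 0, 0, 0, 0, 0, 0, 0],
    [0, 0, 0, 0, 0, 0, 0, 0, 0, 1, 0, 0, 0, 0, 1, 0, 0, 1, 0, 0, 0, 1, 0, 0, 0, 0, 0, 0, 0, 0, 0],
    [0, 0, 0, 0, 0, 0, 0, 0, 0, 1, 0, 0, 0, 0, 1, 0, 0, 0, 0, 0, 0, 0, 0, 1, 1, 0, 0, 0, 0, 0, 0],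
    [0, 0, 0, 0, 0, 0, 0, 0, 0, 1, 0, 0, 0, 0, 1, 0, 0, 1, 0, 1, 0, 0, 0, 0, 0, 0, 0, 0, 0, 0, 0],
    [0, 0, 0, 0, 0, 0, 0, 0, 0, 1, 0, 0, 0, 0, 1, 0, 1, 0, 0, 0, 0, 0, 0, 0, 1, 0, 0, 0, 0, 0, 0],
    [1, 0, 0, 0, 0, 0, 0, 0, 0, 1, 0, 0, 0, 0, 1, 0, 0, 0, 0, 0, 0, 0, 0, 0, 1, 0, 0, 0, 0, 0, 0],
    [0, 0, 0, 0, 0, 0, 0, 0, 0, 1, 0, 0, 0, 0, 0, 1, 0, 0, 0, 0, 0, 0, 1, 0, 1, 0, 0, 0, 0, 0, 0],
    [0, 0, 0, 0, 0, 0, 0, 0, 0, 1, 0, 0, 1, 0, 0, 0, 0, 0, 1, 0, 0, 0, 1, 0, 0, 0, 0, 0, 0, 0, 0],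
    [1, 0, 0, 0, 0, 0, 0, 0, 0, 1, 0, 0, 0, 1, 0, 0, 0, 0, 0, 0, 0, 1, 0, 0, 0, 0, 0, 0, 0, 0, 0],
    [0, 0, 0, 0, 0, 0, 0, 0, 0, 0, 1, 1, 0, 0, 0, 0, 1, 0, 0, 0, 0, 0, 1, 0, 0, 0, 0, 0, 0, 0, 0],
    [0, 0, 0, 0, 0, 0, 0, 0, 0, 2, 0, 0, 0, 1, 0, 0, 0, 1, 0, 0, 0, 0, 0, 0, 0, 0, 1, 0, 0, 0, 0],
    [0, 0, 0, 0, 0, 0, 0, 0, 0, 2, 0, 1, 0, 0, 0, 0, 0, 0, 0, 0, 0, 0, 0, 1, 1, 0, 0, 0, 0, 0, 0],
    [1, 0, 0, 0, 0, 0, 0, 0, 0, 1, 0, 0, 0, 1, 1, 0, 0, 1, 0, 0, 0, 0, 0, 0, 0, 0, 0, 0, 0, 0, 0],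
    [0, 0, 0, 0, 0, 0, 0, 0, 0, 2, 0, 0, 0, 0, 0, 0, 0, 0, 1, 1, 0, 0, 0, 0, 1, 0, 0, 0, 0, 0, 0],
    [0, 0, 0, 0, 0, 0, 0, 0, 0, 1, 0, 1, 0, 0, 0, 0, 1, 0, 0, 0, 1, 0, 0, 0, 0, 0, 1, 0, 0, 0, 0],
    [0, 0, 0, 0, 0, 0, 0, 0, 0, 1, 0, 1, 0, 0, 0, 0, 0, 0, 1, 0, 1, 0, 0, 0, 1, 0, 0, 0, 0, 0, 0],
    [0, 0, 0, 0, 0, 0, 0, 0, 0, 1, 1, 0, 0, 0, 0, 1, 0, 0, 0, 0, 0, 0, 0, 1, 1, 0, 0, 0, 0, 0, 0],
    [0, 0, 0, 0, 0, 0, 1, 0, 0, 1, 0, 0, 0, 0, 1, 1, 0, 0, 0, 0, 0, 0, 0, 0, 1, 0, 0, 0, 0, 0, 0],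
    [0, 0, 0, 0, 0, 0, 1, 0, 0, 0, 1, 1, 0, 0, 0, 1, 0, 0, 0, 0, 0, 1, 0, 0, 0, 0, 0, 0, 0, 0, 0],
    [0, 0, 0, 0, 0, 0, 1, 0, 0, 0, 1, 1, 0, 0, 0, 0, 1, 0, 0, 1, 0, 0, 0, 0, 0, 0, 0, 0, 0, 0, 0],
    [0, 0, 0, 0, 0, 1, 0, 0, 0, 1, 0, 0, 0, 0, 1, 1, 0, 0, 0, 1, 0, 0, 0, 0, 0, 0, 0, 0, 0, 0, 0],
    [0, 0, 0, 0, 0, 1, 0, 0, 0, 0, 1, 1, 0, 0, 0, 1, 0, 0, 0, 0, 0, 0, 0, 0, 0, 1, 0, 0, 0, 0, 0],
    [1, 0, 0, 0, 0, 0, 0, 1, 0, 0, 0, 0, 0, 1, 0, 0, 0, 0, 1, 0, 1, 0, 0, 0, 0, 0, 0, 0, 0, 0, 0],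
    [1, 0, 0, 0, 0, 0, 1, 0, 0, 0, 1, 1, 0, 0, 0, 0, 1, 0, 0, 0, 1, 0, 0, 0, 0, 0, 0, 0, 0, 0, 0],
    [1, 0, 0, 0, 0, 0, 0, 0, 0, 1, 0, 0, 0, 1, 0, 0, 0, 0, 1, 0, 1, 0, 0, 0, 1, 0, 0, 0, 0, 0, 0],
    [0, 1, 0, 0, 0, 0, 0, 0, 0, 1, 0, 0, 0, 0, 0, 0, 0, 2, 0, 0, 0, 0, 0, 0, 0, 0, 0, 0, 2, 0, 0],
    [1, 0, 0, 0, 0, 0, 2, 0, 0, 0, 1, 1, 0, 0, 0, 0, 0, 0, 0, 0, 0, 0, 0, 0, 1, 0, 0, 0, 0, 0, 0],
    [0, 0, 0, 0, 0, 0, 0, 0, 0, 2, 0, 0, 0, 0, 1, 1, 0, 0, 0, 1, 0, 0, 0, 0, 1, 0, 0, 0, 0, 0, 0],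
    [0, 0, 0, 0, 0, 0, 0, 0, 0, 2, 0, 0, 0, 0, 0, 1, 0, 1, 0, 0, 0, 0, 0, 0, 1, 0, 0, 0, 2, 0, 0],
    [0, 0, 0, 0, 0, 0, 0, 0, 0, 1, 1, 1, 0, 0, 0, 0, 0, 2, 0, 0, 0, 0, 0, 0, 1, 0, 0, 0, 2, 2, 0],
    [0, 0, 0, 0, 0, 0, 0, 0, 0, 1, 1, 0, 0, 0, 0, 0, 0, 1, 0, 1, 0, 0, 0, 0, 2, 0, 0, 2, 2, 2, 0]]

def D3u_base0 : List Row :=
   [(false, [1, 1, 1, 0, 0, 0, 0, 0, 0, 0, 0, 0, 0, 0, 0, 0, 0, 0, 0, 0, 0, 0, 0, 0, 0, 0, 0, 0, 0, 0, -1], 0),
    (false, [0, 0, 0, 1, 1, 1, 1, 1, 0, 0, 0, 0, 0, 0, 0, 0, 0, 0, 0, 0, 0, 0, 0, 0, 0, 0, 0, 0, 0, 0, -1], 0),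
    (false, [0, 0, 0, 0, 0, 0, 0, 0, 1, 1, 1, 0, 0, 0, 0, 0, 0, 0, 0, 0, 0, 0, 0, 0, 0, 0, 0, 0, 0, 0, -1], 1),
    (false, [0, 0, 0, 0, 0, 0, 0, 0, 0, 0, 0, 1, 1, 1, 1, 0, 0, 0, 0, 0, 0, 0, 0, 0, 0, 0, 0, 0, 0, 0, 0], 1),
    (false, [0, 0, 0, 0, 0, 0, 0, 0, 0, 0, 0, 0, 0, 0, 0, 1, 1, 1, 1, 0, 0, 0, 0, 0, 0, 0, 0, 0, 0, 0, 0], 1),
    (false, [0, 0, 0, 0, 0, 0, 0, 0, 0, 0, 0, 0, 0, 0, 0, 0, 0, 0, 0, 1, 1, 1, 1, 1, 0, 0, 0, 0, 0, 0, 0], 1),
    (false, [0, 1, 4, 4, 1, 0, 1, 4, 0, 1, 4, 1, 0, 1, 4, 1, 0, 1, 4, 4, 1, 0, 1, 4, 0, 1, 4, 0, 0, 0, -8], 6),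
    (false, [4, 1, 0, 4, 1, 0, 1, 4, 4, 1, 0, 4, 1, 0, 1, 4, 1, 0, 1, 4, 1, 0, 1, 4, 0, 1, 4, 0, 0, 0, -8], 6),
    (false, [-1, -1, -1, 1, 1, 1, 1, 1, -1, -1, -1, 0, 0, 0, 0, 0, 0, 0, 0, 1, 1, 1, 1, 1, 1, 1, 1, -1, 0, 0, 0], 0),
    (false, [1, 1, 1, -1, -1, -1, -1, -1, -1, -1, -1, 0, 0, 0, 0, 1, 1, 1, 1, 0, 0, 0, 0, 0, 1, 1, 1, 0, -1, 0, 0], 0),
    (false, [-1, 0, 1, -1, 0, 1, 0, -1, -1, 0, 1, -1, 0, 1, 0, -1, 0, 1, 0, -1, 0, 1, 0, -1, 1, 0, -1, 0, 0, -1, 0], 0),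
    (true, [-1, -1, -1, -1, -1, -1, -1, -1, 1, 1, 1, -1, -1, -1, -1, 0, 0, 0, 0, 0, 0, 0, 0, 0, 1, 1, 1, 0, 0, 0, 0], 0),
    (true, [1, 0, -1, -1, 0, 1, 0, -1, 1, 0, -1, 0, 1, 0, -1, 0, 1, 0, -1, -1, 0, 1, 0, -1, 1, 0, -1, 0, 0, 0, 0], 0),
    (true, [0, 1, 4, 0, 1, 4, 9, 16, 4, 1, 0, 0, 1, 4, 9, 1, 0, 1, 4, 1, 0, 1, 4, 9, 0, 1, 4, 0, 0, 0, 0], 1),
    (true, [4, 1, 0, 16, 9, 4, 1, 0, 0, 1, 4, 9, 4, 1, 0, 4, 1, 0, 1, 9, 4, 1, 0, 1, 0, 1, 4, 0, 0, 0, 0], 1),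
    (true, [0, 0, 0, 0, 0, 0, 0, 0, 0, 0, 0, 0, 0, 0, 0, 0, 0, 0, 0, 0, 0, 0, 0, 0, 0, 0, 0, 0, 0, 0, 1], 0)]

def D3u_0_0_0_tree : Tree :=
  (.br 8 0
  (.br 13 0
   (.br 9 0
    (.br 11 0
     (.br 10 0
      (.fk [(0, -1), (2, 1)])
      (.br 12 0
       (.fk [(0, -4), (2, 4), (3, 3), (4, -3), (6, -1), (7, 1)])
       (.br 15 0
        (.fk [(0, -4), (2, 4), (3, -5), (4, -1), (6, -1), (7, 1)])
        (.mv 25))))
     (.br 0 0
      (.br 4 0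
       (.br 10 0
        (.fk [(0, -1), (2, 1), (3, -1)])
        (.br 26 0
         (.br 21 0
          (.br 16 0
           (.br 22 0
            (.br 15 0
             (.fk [(0, -2), (2, 2), (3, -5), (4, 1), (6, -1), (7, 1)])
             (.br 20 0
              (.fk [(0, 4), (2, 28), (3, -33), (4, -33), (5, 16), (6, -7), (7, 3)])
              (.mv 3)))
            (.br 15 0
             (.fk [(1, -2), (2, 2), (3, -5), (4, 1), (5, -2), (6, -1), (7, 1)])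
             (.mv 22)))
           (.br 22 0
            (.fk [(0, 4), (1, -4), (2, 40), (3, -16), (4, -11), (5, 5), (6, -10), (7, 5), (13, 1)])
            (.mv 71)))
          (.br 16 0
           (.br 15 0
            (.fk [(1, -2), (2, 2), (3, -5), (4, 1), (5, -2), (6, -1), (7, 1)])
            (.br 20 0
             (.br 22 0
              (.br 12 0
               (.br 18 0
                (.br 6 0
                 (.br 2 0
                  (.br 24 0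
                   (.br 25 0
                    (.fk [(0, 18), (1, -46), (2, 12), (3, 12), (4, -5), (5, -73), (6, 5), (7, -3), (8, 49), (11, 17), (12, 12)])
                    (.br 5 0
                     (.fk [(0, 8), (1, 44), (2, 12), (3, 5), (4, 5), (5, -24), (6, -5), (7, -3), (12, 12)])
                     (.mv 83)))
                   (.br 14 0
                    (.br 1 0
                     (.fk [(0, 15), (1, -3), (2, -4), (5, -4), (7, -1)])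
                     (.fk [(0, -4), (2, 4), (3, -7), (4, -7), (5, -4), (6, -1), (7, 1)]))
                    (.mv 53)))
                  (.fk [(0, -2), (2, 2), (3, -5), (4, -5), (5, -2), (6, -1), (7, 1)]))
                 (.mv 80))
                (.mv 38))
               (.mv 25))
              (.mv 22))
             (.mv 3)))
           (.mv 15)))
         (.mv 8)))
       (.mv 4))
      (.br 5 0
       (.br 4 0
        (.br 12 0
         (.br 10 0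
          (.fk [(0, -6), (2, 6), (3, -3), (4, -3), (6, 1), (7, -1)])
          (.br 16 0
           (.br 7 0
            (.br 26 0
             (.br 6 0
              (.br 21 0
               (.fk [(1, 4), (2, 4), (3, -3), (4, 1), (5, 1), (6, -1)])
               (.br 14 0
                (.br 23 0
                 (.br 15 0
                  (.fk [(0, -4), (2, 4), (3, -4), (4, 1), (5, -1), (6, -1), (7, 1)])
                  (.fk [(0, 4), (1, 20), (2, 16), (3, 4), (4, 4), (5, -4), (6, -4), (7, -1)]))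
                 (.mv 49))
                (.mv 46)))
              (.br 1 0
               (.br 14 0
                (.br 25 0
                 (.br 15 0
                  (.fk [(0, -28), (1, -16), (2, 12), (3, -37), (4, 3), (5, -16), (6, -3), (7, 7)])
                  (.br 21 0
                   (.br 20 0
                    (.br 22 0
                     (.br 24 0
                      (.fk [(0, -12), (1, -14), (2, 18), (3, 18), (4, -28), (5, 18), (6, -17), (7, 18), (8, 41), (10, 45), (11, 46), (12, 18)])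
                      (.br 6 1
                       (.fk [(0, 4), (1, 8), (2, 4), (3, 1), (4, 1), (5, 8), (6, -1), (7, -1)])
                       (.mv 88)))
                     (.mv 22))
                    (.mv 3))
                   (.mv 80)))
                 (.mv 51))
                (.mv 19))
               (.mv 1)))
             (.mv 8))
            (.br 24 0
             (.fk [(0, -1), (2, 1), (3, -1), (5, -1), (12, 1)])
             (.mv 41)))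
           (.br 22 0
            (.br 21 0
             (.br 23 0
              (.br 6 0
               (.br 7 0
                (.fk [(0, -28), (1, 48), (2, 76), (3, -21), (4, -19), (5, 12), (6, -19), (7, 7), (13, 10)])
                (.br 24 0
                 (.fk [(0, -46), (1, 64), (2, 22), (3, 22), (4, -85), (5, 5), (6, -27), (7, 22), (10, 105), (12, 41), (13, 5)])
                 (.mv 41)))
               (.br 19 0
                (.br 20 0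
                 (.fk [(0, -4), (2, 4), (3, -7), (4, -5), (5, 4), (6, -1), (7, 1)])
                 (.mv 85))
                (.mv 81)))
              (.mv 18))
             (.mv 15))
            (.mv 71))))
         (.mv 10))
        (.mv 4))
       (.mv 2))))
    (.br 17 0
     (.br 25 0
      (.br 15 0
       (.br 16 0
        (.br 18 0
         (.fk [(4, 1)])
         (.br 21 0
          (.br 23 0
           (.br 7 0
            (.br 22 0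
             (.br 14 0
              (.br 12 0
               (.br 11 0
                (.fk [(3, 1), (4, -1)])
                (.br 24 0
                 (.fk [(3, 1), (4, -1), (9, 1), (10, 1), (11, 1), (12, 1)])
                 (.br 6 0
                  (.br 9 1
                   (.br 0 0
                    (.fk [(0, 1), (2, 7), (3, -3), (4, 6), (5, 1), (6, -2), (7, 1)])
                    (.br 5 0
                     (.br 4 0
                      (.fk [(0, 4), (1, 16), (2, 12), (3, 3), (4, 9), (5, 4), (6, -3), (7, -1)])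
                      (.mv 4))
                     (.mv 2)))
                   (.br 19 0
                    (.br 20 0
                     (.fk [(3, -1), (4, -1), (5, 1)])
                     (.mv 77))
                    (.mv 75)))
                  (.mv 58))))
               (.br 0 0
                (.fk [(3, -3), (4, 2), (6, -1), (7, 1)])
                (.mv 10)))
              (.br 20 0
               (.br 0 0
                (.fk [(3, -6), (4, 3), (6, -2), (7, 2)])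
                (.br 6 0
                 (.br 5 0
                  (.br 24 0
                   (.fk [(0, 32), (1, -104), (2, 16), (3, -20), (4, 16), (5, 16), (6, -9), (7, 16), (8, 47), (9, 4), (10, 75), (11, 12), (12, 16)])
                   (.mv 67))
                  (.mv 2))
                 (.mv 19)))
               (.mv 62)))
             (.br 11 0
              (.br 12 0
               (.br 14 0
                (.fk [(3, 1), (4, -1), (5, -1)])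
                (.mv 61))
               (.mv 69))
              (.mv 32)))
            (.br 14 0
             (.br 2 0
              (.br 24 0
               (.fk [(0, 4), (1, -4), (2, -8), (3, 2), (4, 1), (5, -1), (6, -1), (7, 2), (9, 1), (10, 9), (11, 6), (12, 2)])
               (.br 1 0
                (.br 12 0
                 (.br 11 0
                  (.fk [(3, 1), (4, -1)])
                  (.br 22 0
                   (.br 20 0
                    (.br 0 0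
                     (.fk [(0, 15), (2, 1), (3, -2), (4, 10), (5, 1), (6, -3), (7, 1)])
                     (.br 5 0
                      (.br 4 0
                       (.br 10 0
                        (.fk [(0, 28), (2, 4), (3, 16), (4, -33), (5, 16), (6, 7), (7, -11)])
                        (.mv 41))
                       (.mv 4))
                      (.mv 2)))
                    (.mv 52))
                   (.mv 32)))
                 (.mv 47))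
                (.mv 48)))
              (.mv 5))
             (.mv 11)))
           (.mv 12))
          (.mv 29)))
        (.br 19 0
         (.br 24 0
          (.br 21 0
           (.fk [(0, -4), (1, -8), (2, -4), (3, -3), (4, -6), (5, -2), (6, -1), (7, 3), (10, 8)])
           (.mv 15))
          (.br 21 0
           (.br 23 0
            (.br 14 0
             (.br 22 0
              (.br 7 0
               (.br 11 0
                (.br 12 0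
                 (.fk [(3, 1), (4, -1)])
                 (.br 20 0
                  (.fk [(3, -1), (4, -1), (5, 1)])
                  (.mv 40)))
                (.br 6 0
                 (.br 5 0
                  (.br 4 0
                   (.br 12 0
                    (.br 20 0
                     (.fk [(3, -1), (4, -1), (5, 1)])
                     (.br 26 0
                      (.fk [(0, -4), (1, -8), (2, -4), (3, -9), (4, -5), (5, -6), (6, 1), (7, 1)])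
                      (.mv 76)))
                    (.mv 57))
                   (.mv 4))
                  (.mv 50))
                 (.mv 58)))
               (.br 2 0
                (.br 12 0
                 (.br 1 0
                  (.fk [(0, 4), (2, -4), (3, 3), (4, -3), (6, 1), (7, -1)])
                  (.mv 48))
                 (.mv 47))
                (.mv 5)))
              (.mv 30))
             (.mv 66))
            (.mv 56))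
           (.mv 15)))
         (.mv 26)))
       (.br 21 0
        (.br 24 0
         (.fk [(0, -2), (1, -4), (2, -2), (3, -2), (4, -2), (5, -1), (7, 1), (10, 3), (12, 1)])
         (.br 12 0
          (.br 22 0
           (.br 14 0
            (.br 2 0
             (.br 1 0
              (.fk [(0, 4), (2, -4), (3, 3), (4, -3), (6, 1), (7, -1)])
              (.br 7 0
               (.br 6 0
                (.br 5 0
                 (.br 4 0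
                  (.br 20 0
                   (.br 10 0
                    (.fk [(3, 3), (4, -3), (6, 1), (7, -1)])
                    (.br 23 0
                     (.br 26 0
                      (.br 19 0
                       (.fk [(0, -4), (1, -8), (2, -4), (3, -5), (4, -7), (5, 2), (6, 1), (7, 1)])
                       (.br 18 0
                        (.br 16 0
                         (.br 10 1
                          (.fk [(3, 3), (5, -3), (6, 1), (7, -1)])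
                          (.br 0 0
                           (.fk [(3, -3), (4, -7), (5, -4), (6, -1), (7, 1)])
                           (.br 9 2
                            (.fk [(0, 4), (1, 16), (2, 12), (3, 7), (5, 9), (6, -3), (7, -1)])
                            (.fk [(0, -4), (1, -16), (2, -12), (3, -7), (4, -15), (5, -24), (6, 3), (7, 1)]))))
                         (.mv 26))
                        (.mv 24)))
                      (.mv 8))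
                     (.mv 78)))
                   (.mv 3))
                  (.br 11 0
                   (.fk [(3, 1), (4, -1)])
                   (.mv 4)))
                 (.br 11 0
                  (.fk [(3, 1), (4, -1)])
                  (.mv 21)))
                (.mv 1))
               (.mv 48)))
             (.br 7 0
              (.br 6 0
               (.br 5 0
                (.br 4 0
                 (.br 20 0
                  (.br 23 0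
                   (.br 19 0
                    (.fk [(4, -1), (5, 1)])
                    (.br 16 0
                     (.br 9 1
                      (.fk [(0, 4), (1, 16), (2, 12), (3, 7), (4, -1), (5, 8), (6, -3), (7, -1)])
                      (.br 26 0
                       (.br 18 0
                        (.br 10 0
                         (.br 1 1
                          (.br 0 0
                           (.fk [(0, 12), (1, 16), (2, 4), (3, 7), (5, 9), (6, -3), (7, -1)])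
                           (.br 1 0
                            (.br 0 1
                             (.fk [(0, 12), (1, 16), (2, 4), (3, 7), (5, 9), (6, -3), (7, -1)])
                             (.fk [(0, -12), (1, -16), (2, -4), (3, -7), (4, -15), (5, -24), (6, 3), (7, 1)]))
                            (.fk [(0, -12), (1, -16), (2, -4), (3, -7), (4, -15), (5, -24), (6, 3), (7, 1)])))
                          (.fk [(0, -12), (1, -16), (2, -4), (3, -7), (4, -15), (5, -24), (6, 3), (7, 1)]))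
                         (.br 0 0
                          (.fk [(3, -3), (4, -7), (5, -4), (6, -1), (7, 1)])
                          (.br 1 1
                           (.br 0 1
                            (.fk [(0, 12), (1, 16), (2, 4), (3, 7), (5, 9), (6, -3), (7, -1)])
                            (.br 1 0
                             (.br 0 2
                              (.fk [(0, 12), (1, 16), (2, 4), (3, 7), (5, 9), (6, -3), (7, -1)])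
                              (.br 10 1
                               (.fk [(0, -12), (1, -16), (2, -4), (3, -7), (4, -15), (5, -24), (6, 3), (7, 1)])
                               (.br 27 2
                                (.fk [(0, -4), (1, 8), (2, -4), (3, 3), (5, 5), (6, 1), (7, -1), (8, -4), (12, 4)])
                                (.br 29 1
                                 (.fk [(0, 2), (1, -4), (2, 2), (4, -2), (5, -6), (6, 1), (7, -1), (8, 2), (10, -3), (12, 1)])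
                                 (.br 2 2
                                  (.fk [(0, 12), (1, 16), (2, 4), (3, 13), (5, 3), (6, -1), (7, -3)])
                                  (.fk [(0, -12), (1, -16), (2, -4), (3, -13), (4, -21), (5, -24), (6, 1), (7, 3)]))))))
                             (.br 2 1
                              (.fk [(0, 12), (1, 16), (2, 4), (3, 13), (5, 3), (6, -1), (7, -3)])
                              (.fk [(0, -12), (1, -16), (2, -4), (3, -13), (4, -21), (5, -24), (6, 1), (7, 3)]))))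
                           (.fk [(0, -12), (1, -16), (2, -4), (3, -13), (4, -21), (5, -24), (6, 1), (7, 3)]))))
                        (.mv 75))
                       (.mv 44)))
                     (.mv 26)))
                   (.br 10 0
                    (.br 9 1
                     (.fk [(0, -32), (1, 4), (2, 132), (3, 32), (4, 13), (5, 32), (7, -17), (16, 4)])
                     (.br 11 0
                      (.fk [(3, 1), (4, -1), (5, -1)])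
                      (.mv 73)))
                    (.mv 78)))
                  (.mv 3))
                 (.br 11 0
                  (.fk [(3, 1), (4, -1)])
                  (.mv 4)))
                (.br 11 0
                 (.fk [(3, 1), (4, -1)])
                 (.mv 36)))
               (.br 11 0
                (.fk [(3, 1), (4, -1)])
                (.mv 58)))
              (.mv 5)))
            (.br 23 0
             (.br 7 0
              (.br 20 0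
               (.br 6 0
                (.br 2 0
                 (.br 10 0
                  (.br 11 0
                   (.br 16 0
                    (.br 0 0
                     (.br 19 0
                      (.fk [(3, 3), (4, -9), (5, 3), (6, -2), (7, 2)])
                      (.br 5 0
                       (.br 9 1
                        (.fk [(0, 22), (1, -26), (2, 180), (3, 29), (4, 29), (5, 29), (6, -10), (7, -18), (16, 6)])
                        (.mv 89))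
                       (.mv 82)))
                     (.mv 67))
                    (.mv 66))
                   (.mv 54))
                  (.mv 53))
                 (.mv 9))
                (.mv 79))
               (.mv 3))
              (.mv 11))
             (.mv 64)))
           (.mv 68))
          (.mv 43)))
        (.mv 16)))
      (.mv 7))
     (.br 23 0
      (.br 22 0
       (.br 25 0
        (.br 20 0
         (.br 21 0
          (.br 7 0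
           (.br 14 0
            (.br 12 0
             (.br 11 0
              (.fk [(3, 1), (4, -1)])
              (.br 6 0
               (.br 4 0
                (.br 19 0
                 (.fk [(3, -1), (4, -1), (5, 1)])
                 (.br 16 0
                  (.br 5 0
                   (.br 10 0
                    (.br 24 0
                     (.fk [(0, -26), (1, -24), (2, 2), (3, 2), (4, -11), (5, 2), (6, 2), (7, 2), (8, 35), (10, 7), (11, 25), (12, 77), (16, 2)])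
                     (.br 9 1
                      (.fk [(1, 4), (2, 4), (3, 2), (4, -2), (5, 2), (7, -1)])
                      (.br 26 0
                       (.br 18 0
                        (.br 28 0
                         (.fk [(0, 10), (1, -16), (2, -26), (3, -1), (4, 2), (5, 2), (6, 2), (7, 2), (9, -20), (10, 11), (12, 9)])
                         (.br 28 1
                          (.fk [(0, 4), (1, -4), (2, -8), (3, 1), (4, 3), (5, 1), (6, 2), (7, -1), (9, -6), (12, 6)])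
                          (.br 15 0
                           (.br 17 1
                            (.br 2 0
                             (.fk [(0, -3), (1, -12), (2, -9), (3, 6), (4, -14), (5, -18), (6, 8), (7, -5)])
                             (.br 1 0
                              (.br 0 0
                               (.fk [(0, 16), (1, 20), (2, 4), (3, 1), (4, 5), (5, 19), (6, -6), (7, 1)])
                               (.fk [(0, -12), (1, -16), (2, -4), (3, -15), (4, -11), (5, -24), (6, 3), (7, 1)]))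
                              (.fk [(0, -12), (1, -16), (2, -4), (3, -21), (4, -9), (5, -24), (6, 1), (7, 3)])))
                            (.fk [(3, -1), (4, -1), (5, -1)]))
                           (.mv 90))))
                        (.mv 75))
                       (.mv 44))))
                    (.br 26 0
                     (.br 18 0
                      (.br 28 0
                       (.fk [(0, 6), (2, -6), (3, 1), (4, 1), (5, 5), (6, -1), (7, 1), (9, -6), (10, 5), (12, 1)])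
                       (.br 28 1
                        (.fk [(0, 8), (2, -8), (3, 3), (4, 3), (5, 5), (6, 2), (7, -2), (9, -8), (12, 8)])
                        (.br 1 0
                         (.br 24 0
                          (.fk [(0, -17), (1, -33), (2, 2), (3, 2), (4, -13), (5, 2), (6, 2), (7, 2), (8, 33), (9, 2), (10, 7), (11, 25), (12, 64), (16, 2)])
                          (.br 9 1
                           (.fk [(0, -4), (1, 44), (2, 48), (3, 4), (4, 8), (5, 40), (6, -12), (7, 1)])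
                           (.br 15 0
                            (.br 29 0
                             (.fk [(0, -4), (2, 4), (3, -3), (4, -3), (5, -8), (6, 3), (7, -3), (9, 4), (10, -8), (12, 4)])
                             (.br 29 1
                              (.fk [(0, -4), (2, 4), (3, -5), (4, -5), (5, -8), (6, 1), (7, -1), (9, 4), (10, -4)])
                              (.br 17 1
                               (.br 24 1
                                (.fk [(0, -1), (1, 71), (2, 10), (3, 13), (4, -30), (5, 45), (6, -9), (7, -1), (9, 13), (10, 13), (12, 5)])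
                                (.br 27 0
                                 (.fk [(0, -42), (1, 12), (2, -34), (3, -15), (4, -21), (5, 4), (6, 4), (7, 4), (8, -22), (9, 4), (10, 9), (12, 9)])
                                 (.br 27 1
                                  (.fk [(0, -26), (1, 12), (2, -18), (3, -11), (4, -17), (5, 4), (7, 4), (8, -14), (9, 4), (10, 9), (12, 1)])
                                  (.mv 92))))
                               (.mv 91))))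
                            (.mv 90))))
                         (.br 17 1
                          (.br 24 0
                           (.fk [(0, -17), (1, -33), (2, 2), (3, 2), (4, -13), (5, 2), (6, 2), (7, 2), (8, 33), (9, 2), (10, 7), (11, 25), (12, 64), (16, 2)])
                           (.br 9 1
                            (.fk [(0, -4), (1, 44), (2, 48), (3, 4), (4, 8), (5, 40), (6, -12), (7, 1)])
                            (.br 15 0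
                             (.br 24 1
                              (.fk [(0, -18), (1, 74), (2, 8), (3, 13), (4, -24), (5, 48), (6, -2), (7, -6), (9, 13), (12, 29)])
                              (.br 27 0
                               (.fk [(0, -26), (1, 12), (2, -18), (3, -7), (4, -13), (5, 4), (6, 4), (8, -14), (9, 4), (10, 1), (12, 9)])
                               (.br 27 1
                                (.fk [(0, -10), (1, 10), (2, -8), (3, 1), (4, -4), (5, 8), (6, 2), (7, -1), (8, -7), (9, 1), (12, 6)])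
                                (.br 29 0
                                 (.fk [(0, -4), (1, -12), (3, -7), (4, -1), (5, -16), (6, 3), (7, -1), (8, 2), (9, 2), (10, -6), (12, 2)])
                                 (.br 29 1
                                  (.fk [(0, -2), (1, -6), (3, -4), (4, -1), (5, -8), (6, 1), (8, 1), (9, 1), (10, -2)])
                                  (.mv 92))))))
                             (.mv 90))))
                          (.mv 87)))))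
                      (.mv 24))
                     (.mv 8)))
                   (.br 0 0
                    (.br 1 0
                     (.fk [(0, 4), (1, -4), (3, -7), (4, -3), (5, -4), (6, -1), (7, 1)])
                     (.mv 21))
                    (.mv 2)))
                  (.mv 26)))
                (.mv 4))
               (.mv 59)))
             (.br 19 0
              (.fk [(3, -1), (4, -1), (5, 1)])
              (.mv 55)))
            (.br 19 0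
             (.fk [(3, -1), (4, -1), (5, 1)])
             (.mv 65)))
           (.br 14 0
            (.br 2 0
             (.br 1 0
              (.br 0 0
               (.fk [(0, 44), (2, -12), (3, 7), (4, -19), (5, 16), (6, 3), (7, -7)])
               (.br 12 0
                (.fk [(0, 4), (2, -4), (3, 3), (4, -4), (6, 1), (7, -1)])
                (.mv 10)))
              (.br 12 0
               (.br 11 0
                (.fk [(3, 1), (4, -1)])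
                (.mv 42))
               (.mv 34)))
             (.mv 5))
            (.mv 11)))
          (.br 14 0
           (.br 12 0
            (.br 11 0
             (.fk [(3, 1), (4, -1), (5, -1)])
             (.mv 28))
            (.mv 45))
           (.mv 63)))
         (.mv 33))
        (.mv 7))
       (.mv 13))
      (.mv 35))))
   (.br 9 0
    (.fk [(0, -4), (2, 4), (3, -3), (4, -3), (6, -1), (7, 1)])
    (.br 15 0
     (.br 16 0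
      (.br 23 0
       (.br 6 0
        (.br 25 0
         (.br 1 0
          (.br 22 0
           (.br 21 0
            (.br 7 0
             (.br 0 0
              (.fk [(0, 4), (2, -4), (3, -3), (4, 1), (6, -1), (7, 1)])
              (.br 5 0
               (.br 4 0
                (.br 12 0
                 (.br 17 0
                  (.br 18 0
                   (.fk [(3, -1), (4, 1)])
                   (.br 19 0
                    (.br 24 0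
                     (.fk [(0, -50), (1, 50), (2, 8), (3, -7), (4, 8), (5, 1), (6, -9), (7, 8), (9, 20), (10, 13), (11, 5), (12, 8)])
                     (.br 20 0
                      (.fk [(3, -1), (4, -1), (5, 1)])
                      (.mv 86)))
                    (.mv 60)))
                  (.br 20 0
                   (.br 14 0
                    (.br 9 1
                     (.fk [(0, -4), (1, 4), (2, 8), (3, -2), (4, -2), (5, 4), (6, -2), (7, 1)])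
                     (.br 26 0
                      (.fk [(0, -4), (1, -8), (2, -4), (3, -5), (4, -5), (5, -8), (6, 1), (7, 1)])
                      (.mv 72)))
                    (.mv 74))
                   (.mv 33)))
                 (.mv 10))
                (.mv 31))
               (.mv 2)))
             (.br 2 0
              (.br 14 0
               (.br 17 0
                (.br 18 0
                 (.fk [(3, -1), (4, 1)])
                 (.br 19 0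
                  (.br 0 0
                   (.fk [(0, 15), (2, 1), (3, -1), (4, 10), (5, 1), (6, -3), (7, 1)])
                   (.br 20 0
                    (.fk [(3, -1), (4, -1), (5, 1)])
                    (.mv 84)))
                  (.mv 60)))
                (.mv 37))
               (.mv 11))
              (.mv 5)))
            (.br 18 0
             (.br 0 0
              (.fk [(0, 4), (1, -4), (3, -3), (4, 1), (5, -4), (6, -1), (7, 1)])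
              (.mv 70))
             (.mv 29)))
           (.mv 23))
          (.mv 14))
         (.mv 7))
        (.mv 6))
       (.mv 20))
      (.mv 27))
     (.mv 17))))
  (.mv 0))

def D3u_0_0_0 : Inst where
  rows :=
   [(false, [1, 1, 1, 0, 0, 0, 0, 0, 0, 0, 0, 0, 0, 0, 0, 0, 0, 0, 0, 0, 0, 0, 0, 0, 0, 0, 0, 0, 0, 0, -1], 0),
    (false, [0, 0, 0, 1, 1, 1, 1, 1, 0, 0, 0, 0, 0, 0, 0, 0, 0, 0, 0, 0, 0, 0, 0, 0, 0, 0, 0, 0, 0, 0, -1], 0),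
    (false, [0, 0, 0, 0, 0, 0, 0, 0, 1, 1, 1, 0, 0, 0, 0, 0, 0, 0, 0, 0, 0, 0, 0, 0, 0, 0, 0, 0, 0, 0, -1], 1),
    (false, [0, 0, 0, 0, 0, 0, 0, 0, 0, 0, 0, 1, 1, 1, 1, 0, 0, 0, 0, 0, 0, 0, 0, 0, 0, 0, 0, 0, 0, 0, 0], 1),
    (false, [0, 0, 0, 0, 0, 0, 0, 0, 0, 0, 0, 0, 0, 0, 0, 1, 1, 1, 1, 0, 0, 0, 0, 0, 0, 0, 0, 0, 0, 0, 0], 1),
    (false, [0, 0, 0, 0, 0, 0, 0, 0, 0, 0, 0, 0, 0, 0, 0, 0, 0, 0, 0, 1, 1, 1, 1, 1, 0, 0, 0, 0, 0, 0, 0], 1),
    (false, [0, 1, 4, 4, 1, 0, 1, 4, 0, 1, 4, 1, 0, 1, 4, 1, 0, 1, 4, 4, 1, 0, 1, 4, 0, 1, 4, 0, 0, 0, -8], 6),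
    (false, [4, 1, 0, 4, 1, 0, 1, 4, 4, 1, 0, 4, 1, 0, 1, 4, 1, 0, 1, 4, 1, 0, 1, 4, 0, 1, 4, 0, 0, 0, -8], 6),
    (false, [-1, -1, -1, 1, 1, 1, 1, 1, -1, -1, -1, 0, 0, 0, 0, 0, 0, 0, 0, 1, 1, 1, 1, 1, 1, 1, 1, -1, 0, 0, 0], 0),
    (false, [1, 1, 1, -1, -1, -1, -1, -1, -1, -1, -1, 0, 0, 0, 0, 1, 1, 1, 1, 0, 0, 0, 0, 0, 1, 1, 1, 0, -1, 0, 0], 0),
    (false, [-1, 0, 1, -1, 0, 1, 0, -1, -1, 0, 1, -1, 0, 1, 0, -1, 0, 1, 0, -1, 0, 1, 0, -1, 1, 0, -1, 0, 0, -1, 0], 0),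
    (true, [-1, -1, -1, -1, -1, -1, -1, -1, 1, 1, 1, -1, -1, -1, -1, 0, 0, 0, 0, 0, 0, 0, 0, 0, 1, 1, 1, 0, 0, 0, 0], 0),
    (true, [1, 0, -1, -1, 0, 1, 0, -1, 1, 0, -1, 0, 1, 0, -1, 0, 1, 0, -1, -1, 0, 1, 0, -1, 1, 0, -1, 0, 0, 0, 0], 0),
    (true, [0, 1, 4, 0, 1, 4, 9, 16, 4, 1, 0, 0, 1, 4, 9, 1, 0, 1, 4, 1, 0, 1, 4, 9, 0, 1, 4, 0, 0, 0, 0], 1),
    (true, [4, 1, 0, 16, 9, 4, 1, 0, 0, 1, 4, 9, 4, 1, 0, 4, 1, 0, 1, 9, 4, 1, 0, 1, 0, 1, 4, 0, 0, 0, 0], 1),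
    (true, [0, 0, 0, 0, 0, 0, 0, 0, 0, 0, 0, 0, 0, 0, 0, 0, 0, 0, 0, 0, 0, 0, 0, 0, 0, 0, 0, 0, 0, 0, 1], 0),
    (true, [4, 1, 0, 16, 9, 4, 1, 0, 0, 1, 4, 9, 4, 1, 0, 4, 1, 0, 1, 9, 4, 1, 0, 1, 0, 1, 4, 0, 0, 0, -8], 7)]
  moves := D3u_moves0
  reqs := D3u_reqs0
  tree := D3u_0_0_0_tree

theorem D3u_0_0_0_ok : D3u.instOK 0 0 0 D3u_0_0_0 = true := by
  decide +kernel

def D3u_0_1_0_tree : Tree :=
  (.br 8 0
  (.br 9 0
   (.fk [(0, -4), (1, -4), (2, 24), (3, 6), (4, -1), (5, -1), (6, -3), (7, 4), (16, 3)])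
   (.br 17 0
    (.br 25 0
     (.br 2 0
      (.br 21 0
       (.br 23 0
        (.br 7 0
         (.br 22 0
          (.fk [(3, -1), (5, 1), (7, 1), (16, 1)])
          (.br 15 0
           (.br 16 0
            (.br 11 0
             (.br 13 0
              (.br 18 0
               (.fk [(4, 1), (5, -1)])
               (.br 14 0
                (.fk [(3, 1), (4, -1), (5, -2), (7, 1), (16, 1)])
                (.mv 61)))
              (.mv 23))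
             (.mv 32))
            (.mv 30))
           (.br 24 0
            (.fk [(0, -8), (1, -34), (2, -22), (3, -16), (4, -15), (5, -31), (6, 3), (7, 14), (10, 22), (12, 10), (16, 9)])
            (.mv 68))))
         (.br 14 0
          (.br 13 0
           (.br 11 0
            (.br 24 0
             (.fk [(0, -3), (1, -3), (2, -2), (3, 1), (4, -2), (5, -2), (6, 1), (7, 1), (10, 4), (12, 2), (16, 1)])
             (.br 12 0
              (.fk [(3, 1)])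
              (.mv 47)))
            (.br 24 0
             (.fk [(0, -3), (1, -3), (2, -2), (3, 1), (4, -2), (5, -2), (6, 1), (7, 1), (10, 4), (12, 2), (16, 1)])
             (.br 22 0
              (.br 1 0
               (.fk [(0, 4), (1, -4), (3, 3), (4, -3), (5, 3), (6, 1), (16, 1)])
               (.mv 48))
              (.mv 32))))
           (.br 1 0
            (.br 22 0
             (.fk [(0, 4), (1, -4), (3, -3), (4, -3), (5, 3), (6, 1), (16, 1)])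
             (.mv 23))
            (.mv 14)))
          (.mv 11)))
        (.br 13 0
         (.br 24 0
          (.fk [(0, -4), (1, -8), (2, -12), (3, 3), (4, -4), (5, -4), (6, -1), (7, 5), (10, 16), (11, 4), (16, 1)])
          (.br 14 0
           (.br 18 0
            (.br 12 0
             (.br 16 0
              (.br 1 0
               (.fk [(0, 112), (1, 4), (2, -84), (3, 88), (4, 88), (5, -81), (6, 24), (7, -25), (16, 3)])
               (.br 7 0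
                (.fk [(3, 3), (4, 3), (5, -6), (6, 1), (16, 1)])
                (.mv 48)))
              (.mv 56))
             (.br 15 0
              (.br 16 0
               (.fk [(3, -1), (4, 1), (5, -1)])
               (.mv 56))
              (.mv 43)))
            (.mv 12))
           (.mv 64)))
         (.mv 20)))
       (.br 15 0
        (.br 16 0
         (.br 18 0
          (.fk [(4, 1), (5, -1)])
          (.mv 29))
         (.mv 15))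
        (.mv 16)))
      (.br 7 0
       (.br 14 0
        (.br 6 0
         (.fk [(0, -4), (1, 4), (3, 1), (5, -3), (7, 1), (16, 1)])
         (.br 26 0
          (.fk [(0, -8), (1, -6), (2, -2), (4, -5), (5, -11), (6, 1), (7, 2), (16, 1)])
          (.mv 39)))
        (.mv 9))
       (.mv 5)))
     (.mv 7))
    (.br 23 0
     (.br 22 0
      (.br 14 0
       (.br 12 0
        (.br 7 0
         (.fk [(3, 1), (4, -1), (5, 1), (7, 1), (16, 1)])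
         (.br 13 0
          (.br 2 0
           (.br 11 0
            (.fk [(3, 1), (4, -1)])
            (.mv 42))
           (.mv 5))
          (.mv 37)))
        (.br 21 0
         (.br 0 0
          (.br 19 0
           (.br 20 0
            (.fk [(3, -5), (4, -3), (5, 4), (6, -1), (7, 1)])
            (.mv 33))
           (.mv 55))
          (.mv 10))
         (.mv 45)))
       (.br 7 0
        (.fk [(3, -2), (4, -1), (5, 1), (7, 1), (16, 1)])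
        (.mv 11)))
      (.mv 13))
     (.mv 35))))
  (.mv 0))

def D3u_0_1_0 : Inst where
  rows :=
   [(false, [1, 1, 1, 0, 0, 0, 0, 0, 0, 0, 0, 0, 0, 0, 0, 0, 0, 0, 0, 0, 0, 0, 0, 0, 0, 0, 0, 0, 0, 0, -1], 0),
    (false, [0, 0, 0, 1, 1, 1, 1, 1, 0, 0, 0, 0, 0, 0, 0, 0, 0, 0, 0, 0, 0, 0, 0, 0, 0, 0, 0, 0, 0, 0, -1], 0),
    (false, [0, 0, 0, 0, 0, 0, 0, 0, 1, 1, 1, 0, 0, 0, 0, 0, 0, 0, 0, 0, 0, 0, 0, 0, 0, 0, 0, 0, 0, 0, -1], 1),
    (false, [0, 0, 0, 0, 0, 0, 0, 0, 0, 0, 0, 1, 1, 1, 1, 0, 0, 0, 0, 0, 0, 0, 0, 0, 0, 0, 0, 0, 0, 0, 0], 1),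
    (false, [0, 0, 0, 0, 0, 0, 0, 0, 0, 0, 0, 0, 0, 0, 0, 1, 1, 1, 1, 0, 0, 0, 0, 0, 0, 0, 0, 0, 0, 0, 0], 1),
    (false, [0, 0, 0, 0, 0, 0, 0, 0, 0, 0, 0, 0, 0, 0, 0, 0, 0, 0, 0, 1, 1, 1, 1, 1, 0, 0, 0, 0, 0, 0, 0], 1),
    (false, [0, 1, 4, 4, 1, 0, 1, 4, 0, 1, 4, 1, 0, 1, 4, 1, 0, 1, 4, 4, 1, 0, 1, 4, 0, 1, 4, 0, 0, 0, -8], 6),
    (false, [4, 1, 0, 4, 1, 0, 1, 4, 4, 1, 0, 4, 1, 0, 1, 4, 1, 0, 1, 4, 1, 0, 1, 4, 0, 1, 4, 0, 0, 0, -8], 6),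
    (false, [-1, -1, -1, 1, 1, 1, 1, 1, -1, -1, -1, 0, 0, 0, 0, 0, 0, 0, 0, 1, 1, 1, 1, 1, 1, 1, 1, -1, 0, 0, 0], 0),
    (false, [1, 1, 1, -1, -1, -1, -1, -1, -1, -1, -1, 0, 0, 0, 0, 1, 1, 1, 1, 0, 0, 0, 0, 0, 1, 1, 1, 0, -1, 0, 0], 0),
    (false, [-1, 0, 1, -1, 0, 1, 0, -1, -1, 0, 1, -1, 0, 1, 0, -1, 0, 1, 0, -1, 0, 1, 0, -1, 1, 0, -1, 0, 0, -1, 0], 0),
    (true, [-1, -1, -1, -1, -1, -1, -1, -1, 1, 1, 1, -1, -1, -1, -1, 0, 0, 0, 0, 0, 0, 0, 0, 0, 1, 1, 1, 0, 0, 0, 0], 0),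
    (true, [1, 0, -1, -1, 0, 1, 0, -1, 1, 0, -1, 0, 1, 0, -1, 0, 1, 0, -1, -1, 0, 1, 0, -1, 1, 0, -1, 0, 0, 0, 0], 0),
    (true, [0, 1, 4, 0, 1, 4, 9, 16, 4, 1, 0, 0, 1, 4, 9, 1, 0, 1, 4, 1, 0, 1, 4, 9, 0, 1, 4, 0, 0, 0, 0], 1),
    (true, [4, 1, 0, 16, 9, 4, 1, 0, 0, 1, 4, 9, 4, 1, 0, 4, 1, 0, 1, 9, 4, 1, 0, 1, 0, 1, 4, 0, 0, 0, 0], 1),
    (true, [0, 0, 0, 0, 0, 0, 0, 0, 0, 0, 0, 0, 0, 0, 0, 0, 0, 0, 0, 0, 0, 0, 0, 0, 0, 0, 0, 0, 0, 0, 1], 0),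
    (true, [-4, -1, 0, -16, -9, -4, -1, 0, 0, -1, -4, -9, -4, -1, 0, -4, -1, 0, -1, -9, -4, -1, 0, -1, 0, -1, -4, 0, 0, 0, 8], -5)]
  moves := D3u_moves0
  reqs := D3u_reqs0
  tree := D3u_0_1_0_tree

theorem D3u_0_1_0_ok : D3u.instOK 0 1 0 D3u_0_1_0 = true := by
  decide +kernel

def D3u_0_2_0_tree : Tree :=
  (.br 8 0
  (.br 2 0
   (.br 7 0
    (.fk [(3, -1), (5, -3), (7, 1), (16, -1), (17, 6)])
    (.br 14 0
     (.br 9 0
      (.fk [(1, -4), (2, 4), (3, 1), (5, -3), (7, 1), (16, -1), (17, 4)])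
      (.br 24 0
       (.fk [(4, -3), (5, -3), (6, 1), (12, 4), (16, -1), (17, 8)])
       (.br 1 0
        (.fk [(0, 36), (1, -8), (2, 4), (3, 1), (4, -11), (5, -2), (6, 5), (7, -3), (16, -6), (17, 48)])
        (.mv 48))))
     (.mv 11)))
   (.br 7 0
    (.fk [(3, -1), (5, -3), (7, 1), (16, -1), (17, 6)])
    (.mv 5)))
  (.mv 0))

def D3u_0_2_0 : Inst where
  rows :=
   [(false, [1, 1, 1, 0, 0, 0, 0, 0, 0, 0, 0, 0, 0, 0, 0, 0, 0, 0, 0, 0, 0, 0, 0, 0, 0, 0, 0, 0, 0, 0, -1], 0),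
    (false, [0, 0, 0, 1, 1, 1, 1, 1, 0, 0, 0, 0, 0, 0, 0, 0, 0, 0, 0, 0, 0, 0, 0, 0, 0, 0, 0, 0, 0, 0, -1], 0),
    (false, [0, 0, 0, 0, 0, 0, 0, 0, 1, 1, 1, 0, 0, 0, 0, 0, 0, 0, 0, 0, 0, 0, 0, 0, 0, 0, 0, 0, 0, 0, -1], 1),
    (false, [0, 0, 0, 0, 0, 0, 0, 0, 0, 0, 0, 1, 1, 1, 1, 0, 0, 0, 0, 0, 0, 0, 0, 0, 0, 0, 0, 0, 0, 0, 0], 1),
    (false, [0, 0, 0, 0, 0, 0, 0, 0, 0, 0, 0, 0, 0, 0, 0, 1, 1, 1, 1, 0, 0, 0, 0, 0, 0, 0, 0, 0, 0, 0, 0], 1),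
    (false, [0, 0, 0, 0, 0, 0, 0, 0, 0, 0, 0, 0, 0, 0, 0, 0, 0, 0, 0, 1, 1, 1, 1, 1, 0, 0, 0, 0, 0, 0, 0], 1),
    (false, [0, 1, 4, 4, 1, 0, 1, 4, 0, 1, 4, 1, 0, 1, 4, 1, 0, 1, 4, 4, 1, 0, 1, 4, 0, 1, 4, 0, 0, 0, -8], 6),
    (false, [4, 1, 0, 4, 1, 0, 1, 4, 4, 1, 0, 4, 1, 0, 1, 4, 1, 0, 1, 4, 1, 0, 1, 4, 0, 1, 4, 0, 0, 0, -8], 6),
    (false, [-1, -1, -1, 1, 1, 1, 1, 1, -1, -1, -1, 0, 0, 0, 0, 0, 0, 0, 0, 1, 1, 1, 1, 1, 1, 1, 1, -1, 0, 0, 0], 0),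
    (false, [1, 1, 1, -1, -1, -1, -1, -1, -1, -1, -1, 0, 0, 0, 0, 1, 1, 1, 1, 0, 0, 0, 0, 0, 1, 1, 1, 0, -1, 0, 0], 0),
    (false, [-1, 0, 1, -1, 0, 1, 0, -1, -1, 0, 1, -1, 0, 1, 0, -1, 0, 1, 0, -1, 0, 1, 0, -1, 1, 0, -1, 0, 0, -1, 0], 0),
    (true, [-1, -1, -1, -1, -1, -1, -1, -1, 1, 1, 1, -1, -1, -1, -1, 0, 0, 0, 0, 0, 0, 0, 0, 0, 1, 1, 1, 0, 0, 0, 0], 0),
    (true, [1, 0, -1, -1, 0, 1, 0, -1, 1, 0, -1, 0, 1, 0, -1, 0, 1, 0, -1, -1, 0, 1, 0, -1, 1, 0, -1, 0, 0, 0, 0], 0),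
    (true, [0, 1, 4, 0, 1, 4, 9, 16, 4, 1, 0, 0, 1, 4, 9, 1, 0, 1, 4, 1, 0, 1, 4, 9, 0, 1, 4, 0, 0, 0, 0], 1),
    (true, [4, 1, 0, 16, 9, 4, 1, 0, 0, 1, 4, 9, 4, 1, 0, 4, 1, 0, 1, 9, 4, 1, 0, 1, 0, 1, 4, 0, 0, 0, 0], 1),
    (true, [0, 0, 0, 0, 0, 0, 0, 0, 0, 0, 0, 0, 0, 0, 0, 0, 0, 0, 0, 0, 0, 0, 0, 0, 0, 0, 0, 0, 0, 0, 1], 0),
    (false, [4, 1, 0, 16, 9, 4, 1, 0, 0, 1, 4, 9, 4, 1, 0, 4, 1, 0, 1, 9, 4, 1, 0, 1, 0, 1, 4, 0, 0, 0, -8], 6),
    (true, [0, 0, 0, 1, 1, 0, 0, 0, 0, 0, 0, 1, 0, 0, 0, 0, 0, 0, 0, 1, 0, 0, 0, 0, 0, 0, 0, 0, 0, 0, 0], 1)]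
  moves := D3u_moves0
  reqs := D3u_reqs0
  tree := D3u_0_2_0_tree

theorem D3u_0_2_0_ok : D3u.instOK 0 2 0 D3u_0_2_0 = true := by
  decide +kernel

def D3u_0_3_0_tree : Tree :=
  (.br 8 0
  (.br 13 0
   (.fk [(3, 2), (4, -1), (5, -3), (6, 1), (7, 2), (10, 4), (12, 2), (16, -3), (17, 6)])
   (.br 6 0
    (.br 9 0
     (.fk [(0, -4), (2, 4), (3, -6), (4, -3), (5, -5), (6, 1), (7, 4), (10, 6), (12, 4), (16, -5), (17, 10)])
     (.br 23 0
      (.br 16 0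
       (.br 18 0
        (.fk [(3, -2), (4, 1), (5, -1), (6, 1), (12, 2), (16, -1), (17, 2)])
        (.br 21 0
         (.fk [(3, -2), (4, -2), (5, 2), (6, 1), (7, 1), (10, 2), (12, 2), (16, -2), (17, 4)])
         (.mv 29)))
       (.mv 27))
      (.mv 20)))
    (.mv 6)))
  (.mv 0))

def D3u_0_3_0 : Inst where
  rows :=
   [(false, [1, 1, 1, 0, 0, 0, 0, 0, 0, 0, 0, 0, 0, 0, 0, 0, 0, 0, 0, 0, 0, 0, 0, 0, 0, 0, 0, 0, 0, 0, -1], 0),
    (false, [0, 0, 0, 1, 1, 1, 1, 1, 0, 0, 0, 0, 0, 0, 0, 0, 0, 0, 0, 0, 0, 0, 0, 0, 0, 0, 0, 0, 0, 0, -1], 0),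
    (false, [0, 0, 0, 0, 0, 0, 0, 0, 1, 1, 1, 0, 0, 0, 0, 0, 0, 0, 0, 0, 0, 0, 0, 0, 0, 0, 0, 0, 0, 0, -1], 1),
    (false, [0, 0, 0, 0, 0, 0, 0, 0, 0, 0, 0, 1, 1, 1, 1, 0, 0, 0, 0, 0, 0, 0, 0, 0, 0, 0, 0, 0, 0, 0, 0], 1),
    (false, [0, 0, 0, 0, 0, 0, 0, 0, 0, 0, 0, 0, 0, 0, 0, 1, 1, 1, 1, 0, 0, 0, 0, 0, 0, 0, 0, 0, 0, 0, 0], 1),
    (false, [0, 0, 0, 0, 0, 0, 0, 0, 0, 0, 0, 0, 0, 0, 0, 0, 0, 0, 0, 1, 1, 1, 1, 1, 0, 0, 0, 0, 0, 0, 0], 1),
    (false, [0, 1, 4, 4, 1, 0, 1, 4, 0, 1, 4, 1, 0, 1, 4, 1, 0, 1, 4, 4, 1, 0, 1, 4, 0, 1, 4, 0, 0, 0, -8], 6),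
    (false, [4, 1, 0, 4, 1, 0, 1, 4, 4, 1, 0, 4, 1, 0, 1, 4, 1, 0, 1, 4, 1, 0, 1, 4, 0, 1, 4, 0, 0, 0, -8], 6),
    (false, [-1, -1, -1, 1, 1, 1, 1, 1, -1, -1, -1, 0, 0, 0, 0, 0, 0, 0, 0, 1, 1, 1, 1, 1, 1, 1, 1, -1, 0, 0, 0], 0),
    (false, [1, 1, 1, -1, -1, -1, -1, -1, -1, -1, -1, 0, 0, 0, 0, 1, 1, 1, 1, 0, 0, 0, 0, 0, 1, 1, 1, 0, -1, 0, 0], 0),
    (false, [-1, 0, 1, -1, 0, 1, 0, -1, -1, 0, 1, -1, 0, 1, 0, -1, 0, 1, 0, -1, 0, 1, 0, -1, 1, 0, -1, 0, 0, -1, 0], 0),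
    (true, [-1, -1, -1, -1, -1, -1, -1, -1, 1, 1, 1, -1, -1, -1, -1, 0, 0, 0, 0, 0, 0, 0, 0, 0, 1, 1, 1, 0, 0, 0, 0], 0),
    (true, [1, 0, -1, -1, 0, 1, 0, -1, 1, 0, -1, 0, 1, 0, -1, 0, 1, 0, -1, -1, 0, 1, 0, -1, 1, 0, -1, 0, 0, 0, 0], 0),
    (true, [0, 1, 4, 0, 1, 4, 9, 16, 4, 1, 0, 0, 1, 4, 9, 1, 0, 1, 4, 1, 0, 1, 4, 9, 0, 1, 4, 0, 0, 0, 0], 1),
    (true, [4, 1, 0, 16, 9, 4, 1, 0, 0, 1, 4, 9, 4, 1, 0, 4, 1, 0, 1, 9, 4, 1, 0, 1, 0, 1, 4, 0, 0, 0, 0], 1),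
    (true, [0, 0, 0, 0, 0, 0, 0, 0, 0, 0, 0, 0, 0, 0, 0, 0, 0, 0, 0, 0, 0, 0, 0, 0, 0, 0, 0, 0, 0, 0, 1], 0),
    (false, [4, 1, 0, 16, 9, 4, 1, 0, 0, 1, 4, 9, 4, 1, 0, 4, 1, 0, 1, 9, 4, 1, 0, 1, 0, 1, 4, 0, 0, 0, -8], 6),
    (true, [1, 0, -1, 0, 0, 1, 0, -1, -1, 0, 1, 0, 1, 0, -1, 1, 0, -1, 0, 0, 1, 0, -1, 0, -1, 0, 1, 0, 0, 0, 0], 1)]
  moves := D3u_moves0
  reqs := D3u_reqs0
  tree := D3u_0_3_0_tree

theorem D3u_0_3_0_ok : D3u.instOK 0 3 0 D3u_0_3_0 = true := by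
  decide +kernel

theorem D3u_ok0 : ∀ b ∈ D3u.branches, ∃ I : Inst, D3u.instOK 0 b.1 b.2 I = true := by
  intro b hb
  have h : b = (0, 0) ∨ b = (1, 0) ∨ b = (2, 0) ∨ b = (3, 0) := by
    have hb2 : b ∈ [(0, 0), (1, 0), (2, 0), (3, 0)] := hb
    simpa using hb2
  rcases h with rfl | rfl | rfl | rfl
  · exact ⟨D3u_0_0_0, D3u_0_0_0_ok⟩
  · exact ⟨D3u_0_1_0, D3u_0_1_0_ok⟩
  · exact ⟨D3u_0_2_0, D3u_0_2_0_ok⟩
  · exact ⟨D3u_0_3_0, D3u_0_3_0_ok⟩

end Pool.Agent.helper1.CAD
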