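import Pool.Agent.helper1.CAD.Sound

namespace Pool.Agent.helper1.CAD

set_option maxRecDepth 100000

def D86 : Spec where
  K := .D
  tys := [(2, 1, [], 2), (1, 1, [], 2), (1, 0, [], 2), (0, 2, [], 2)]
  kc := ([], 6)
  pmin := []
  sl := (0, -1)
  good := true
  pv := 0
  px := 0
  pvx := 0

def D86_moves0 : List Move :=
   [([((0, 2, 0), -2)], 0),
    ([((1, 1, -1), 0), ((1, 0, -1), 1)], 0),
    ([((0, 2, 2), 0), ((0, 0, 2), 2)], 0),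
    ([((1, 1, 1), 0), ((1, 0, 1), 1)], 0),
    ([((0, 2, 1), 0), ((0, 0, 1), 2)], 0),
    ([((1, 1, 2), 0), ((1, 0, 2), 1)], 0),
    ([((1, 1, 0), 0), ((1, 0, 0), 1)], 0),
    ([((2, 1, 1), 0), ((1, 0, 2), 2), ((0, 2, 1), -1)], 0),
    ([((1, 1, 1), 2), ((1, 0, -1), -1), ((0, 2, 1), 0)], 0),
    ([((2, 1, 1), 2), ((1, 1, 0), -1), ((0, 2, 1), 1)], 0),
    ([((1, 1, 0), -1), ((1, 0, 1), 2), ((0, 2, 1), 0)], 0),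
    ([((1, 1, -1), -1), ((1, 0, 0), 2), ((0, 2, 1), 0)], 0),
    ([((2, 1, 1), 2), ((1, 1, -1), -1), ((0, 2, 1), -1)], 0),
    ([((1, 1, 2), 2), ((1, 0, 0), -1), ((0, 2, 1), 0)], 0),
    ([((2, 1, 0), 0), ((1, 0, 1), 2), ((0, 2, 2), 1)], 0),
    ([((2, 1, -1), 0), ((1, 0, 0), 2), ((0, 2, 1), 1)], 0),
    ([((1, 1, 0), 2), ((1, 0, -2), -1), ((0, 2, 1), 0)], 0),
    ([((1, 1, 1), -1), ((1, 0, 2), 2), ((0, 2, 1), 0)], 0),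
    ([((2, 1, 0), 2), ((1, 1, -1), -1), ((0, 2, 2), 1)], 0),
    ([((1, 1, -1), -1), ((1, 0, 1), 2), ((0, 2, 2), 0)], 0),
    ([((1, 1, -1), 0), ((1, 0, 1), -1), ((1, 0, 1), 2), ((0, 2, 1), 0)], 0),
    ([((2, 1, 2), 2), ((1, 1, 0), 0), ((1, 0, -1), -1), ((0, 2, 1), -1)], 0),
    ([((2, 1, 0), 2), ((1, 1, 0), 0), ((1, 0, -1), -1), ((0, 2, 1), 1)], 0),
    ([((2, 1, 0), 2), ((1, 1, 1), 0), ((1, 0, -2), -1), ((0, 2, 1), 1)], 0),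
    ([((1, 1, 0), -1), ((1, 1, 0), 2), ((1, 0, 2), 1), ((0, 2, 1), 0)], 0),
    ([((2, 1, 0), 0), ((1, 1, 1), 2), ((1, 0, 0), 1), ((0, 2, 1), 1)], 0),
    ([((2, 1, 1), 2), ((1, 1, -1), -1), ((0, 2, 2), 0), ((0, 0, 1), 1)], 0),
    ([((1, 1, -1), -1), ((1, 1, 2), 2), ((1, 0, 0), 1), ((0, 2, 2), 0)], 0),
    ([((2, 1, -1), 0), ((1, 1, 0), 2), ((1, 0, 1), 1), ((0, 2, 2), 1)], 0),
    ([((1, 1, -1), 0), ((1, 1, 1), 0), ((1, 0, 0), 1), ((1, 0, 0), 1)], 0),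
    ([((2, 1, 1), 2), ((1, 1, -1), 0), ((1, 0, 0), -1), ((0, 2, 2), 1)], 0)]

def D86_reqs0 : List (List ℤ) :=
   [[0, 0, 0, 0, 0, 0, 0, 0, 0, 0, 0, 0, 0, 1, 0, 0, 0, 0, 0, 0, 0, 0],
    [0, 0, 0, 0, 1, 0, 0, 0, 0, 1, 0, 0, 0, 0, 0, 0, 0, 0, 0, 0, 0, 0],
    [0, 0, 0, 0, 0, 0, 0, 0, 0, 0, 0, 0, 0, 0, 0, 1, 0, 0, 1, 0, 0, 0],
    [0, 0, 0, 0, 0, 0, 1, 0, 0, 0, 0, 1, 0, 0, 0, 0, 0, 0, 0, 0, 0, 0],
    [0, 0, 0, 0, 0, 0, 0, 0, 0, 0, 0, 0, 0, 0, 1, 0, 0, 1, 0, 0, 0, 0],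
    [0, 0, 0, 0, 0, 0, 0, 1, 0, 0, 0, 0, 1, 0, 0, 0, 0, 0, 0, 0, 0, 0],
    [0, 0, 0, 0, 0, 1, 0, 0, 0, 0, 1, 0, 0, 0, 0, 0, 0, 0, 0, 0, 0, 0],
    [0, 0, 1, 0, 0, 0, 0, 0, 0, 0, 0, 0, 1, 0, 1, 0, 0, 0, 0, 0, 0, 0],
    [0, 0, 0, 0, 0, 0, 1, 0, 0, 1, 0, 0, 0, 0, 1, 0, 0, 0, 0, 0, 0, 0],
    [0, 0, 1, 0, 0, 1, 0, 0, 0, 0, 0, 0, 0, 0, 1, 0, 0, 0, 0, 0, 0, 0],
    [0, 0, 0, 0, 0, 1, 0, 0, 0, 0, 0, 1, 0, 0, 1, 0, 0, 0, 0, 0, 0, 0],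
    [0, 0, 0, 0, 1, 0, 0, 0, 0, 0, 1, 0, 0, 0, 1, 0, 0, 0, 0, 0, 0, 0],
    [0, 0, 1, 0, 1, 0, 0, 0, 0, 0, 0, 0, 0, 0, 1, 0, 0, 0, 0, 0, 0, 0],
    [0, 0, 0, 0, 0, 0, 0, 1, 0, 0, 1, 0, 0, 0, 1, 0, 0, 0, 0, 0, 0, 0],
    [0, 1, 0, 0, 0, 0, 0, 0, 0, 0, 0, 1, 0, 0, 0, 1, 0, 0, 0, 0, 0, 0],
    [1, 0, 0, 0, 0, 0, 0, 0, 0, 0, 1, 0, 0, 0, 1, 0, 0, 0, 0, 0, 0, 0],
    [0, 0, 0, 0, 0, 1, 0, 0, 1, 0, 0, 0, 0, 0, 1, 0, 0, 0, 0, 0, 0, 0],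
    [0, 0, 0, 0, 0, 0, 1, 0, 0, 0, 0, 0, 1, 0, 1, 0, 0, 0, 0, 0, 0, 0],
    [0, 1, 0, 0, 1, 0, 0, 0, 0, 0, 0, 0, 0, 0, 0, 1, 0, 0, 0, 0, 0, 0],
    [0, 0, 0, 0, 1, 0, 0, 0, 0, 0, 0, 1, 0, 0, 0, 1, 0, 0, 0, 0, 0, 0],
    [0, 0, 0, 0, 1, 0, 0, 0, 0, 0, 0, 2, 0, 0, 1, 0, 0, 0, 0, 0, 0, 0],
    [0, 0, 0, 1, 0, 1, 0, 0, 0, 1, 0, 0, 0, 0, 1, 0, 0, 0, 0, 0, 0, 0],
    [0, 1, 0, 0, 0, 1, 0, 0, 0, 1, 0, 0, 0, 0, 1, 0, 0, 0, 0, 0, 0, 0],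
    [0, 1, 0, 0, 0, 0, 1, 0, 1, 0, 0, 0, 0, 0, 1, 0, 0, 0, 0, 0, 0, 0],
    [0, 0, 0, 0, 0, 2, 0, 0, 0, 0, 0, 0, 1, 0, 1, 0, 0, 0, 0, 0, 0, 0],
    [0, 1, 0, 0, 0, 0, 1, 0, 0, 0, 1, 0, 0, 0, 1, 0, 0, 0, 0, 0, 0, 0],
    [0, 0, 1, 0, 1, 0, 0, 0, 0, 0, 0, 0, 0, 0, 0, 1, 0, 1, 0, 0, 0, 0],
    [0, 0, 0, 0, 1, 0, 0, 1, 0, 0, 1, 0, 0, 0, 0, 1, 0, 0, 0, 0, 0, 0],
    [1, 0, 0, 0, 0, 1, 0, 0, 0, 0, 0, 1, 0, 0, 0, 1, 0, 0, 0, 0, 0, 0],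
    [0, 0, 0, 0, 1, 0, 1, 0, 0, 0, 2, 0, 0, 0, 0, 0, 0, 0, 0, 0, 0, 2],
    [0, 0, 1, 0, 1, 0, 0, 0, 0, 0, 1, 0, 0, 0, 0, 1, 0, 0, 0, 0, 0, 2]]

def D86_base0 : List Row :=
   [(false, [1, 1, 1, 1, 0, 0, 0, 0, 0, 0, 0, 0, 0, 0, 0, 0, 0, 0, 0, 0, 0, 0], 2),
    (false, [0, 0, 0, 0, 1, 1, 1, 1, 0, 0, 0, 0, 0, 0, 0, 0, 0, 0, 0, 0, 0, 0], 2),
    (false, [0, 0, 0, 0, 0, 0, 0, 0, 1, 1, 1, 1, 1, 0, 0, 0, 0, 0, 0, 0, 0, 0], 2),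
    (false, [0, 0, 0, 0, 0, 0, 0, 0, 0, 0, 0, 0, 0, 1, 1, 1, 0, 0, 0, 0, 0, 0], 2),
    (false, [1, 0, 1, 4, 1, 0, 1, 4, 4, 1, 0, 1, 4, 0, 1, 4, 0, 1, 4, 0, 0, 0], 12),
    (false, [4, 1, 0, 1, 4, 1, 0, 1, 4, 1, 0, 1, 4, 4, 1, 0, 0, 1, 4, 0, 0, 0], 12),
    (false, [0, 0, 0, 0, 0, 0, 0, 0, 1, 1, 1, 1, 1, -1, -1, -1, 1, 1, 1, -1, 0, 0], 0),
    (false, [0, 0, 0, 0, 1, 1, 1, 1, 0, 0, 0, 0, 0, -1, -1, -1, 1, 1, 1, 0, -1, 0], 0),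
    (false, [-1, 0, 1, 0, -1, 0, 1, 0, -1, 0, 1, 0, -1, -1, 0, 1, 1, 0, -1, 0, 0, -1], 0),
    (true, [-1, -1, -1, -1, 0, 0, 0, 0, 0, 0, 0, 0, 0, 1, 1, 1, 1, 1, 1, 0, 0, 0], 0),
    (true, [0, 1, 0, -1, 0, 1, 0, -1, -1, 0, 1, 0, -1, 1, 0, -1, 1, 0, -1, 0, 0, 0], 0),
    (true, [0, 1, 4, 9, 1, 0, 1, 4, 1, 0, 1, 4, 9, 4, 1, 0, 0, 1, 4, 0, 0, 0], 1),
    (true, [9, 4, 1, 0, 4, 1, 0, 1, 9, 4, 1, 0, 1, 0, 1, 4, 0, 1, 4, 0, 0, 0], 1)]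

def D86_0_0_0_tree : Tree :=
  (.br 13 0
  (.br 2 0
   (.br 12 0
    (.br 5 0
     (.br 4 0
      (.br 6 0
       (.br 7 0
        (.fk [(1, 1)])
        (.br 10 0
         (.fk [(0, -1), (1, 11), (2, 2), (3, 2), (4, -3), (5, 1)])
         (.br 14 0
          (.fk [(0, -3), (1, 3), (3, 3), (4, -1), (5, 1)])
          (.mv 13))))
       (.br 11 0
        (.br 10 0
         (.br 14 0
          (.fk [(0, -3), (1, 1), (3, 4), (4, -1), (5, 1)])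
          (.br 9 0
           (.br 1 0
            (.fk [(0, 5), (1, 1), (2, 8), (3, 2), (4, -1), (5, -1)])
            (.br 8 0
             (.fk [(2, 1)])
             (.mv 23)))
           (.mv 8)))
         (.br 14 0
          (.fk [(0, -3), (1, 1), (3, 4), (4, -1), (5, 1)])
          (.br 0 0
           (.br 1 0
            (.fk [(0, 1), (1, 1), (4, -1), (5, 1)])
            (.mv 25))
           (.mv 15))))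
        (.mv 3)))
      (.br 10 0
       (.br 11 0
        (.br 9 0
         (.fk [(0, 3), (1, 1), (2, 16), (3, 4), (4, -1), (5, -3)])
         (.mv 1))
        (.br 6 0
         (.br 11 1
          (.br 9 0
           (.fk [(0, 3), (1, 7), (2, 16), (3, 4), (4, -1), (5, -3)])
           (.mv 1))
          (.br 14 0
           (.br 15 0
            (.fk [(2, -1), (3, 1)])
            (.mv 19))
           (.mv 20)))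
         (.mv 3)))
       (.br 14 0
        (.br 1 0
         (.br 9 0
          (.br 15 0
           (.fk [(3, 1)])
           (.br 18 0
            (.br 11 0
             (.br 7 0
              (.br 10 1
               (.fk [(0, 1), (1, 1), (2, 4), (3, 4), (4, -1)])
               (.br 21 0
                (.fk [(0, 46), (1, 46), (2, 12), (3, 46), (4, 46), (5, -76), (8, -192), (9, 25), (10, 129), (13, 5)])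
                (.br 21 1
                 (.fk [(0, 3), (1, 2), (3, 1), (5, -1), (8, -2), (9, 1), (10, 1)])
                 (.br 6 0
                  (.fk [(0, 5), (1, 5), (2, -4), (3, 4), (4, -1), (5, -1)])
                  (.mv 29)))))
              (.mv 27))
             (.mv 19))
            (.mv 2)))
          (.mv 1))
         (.br 15 0
          (.fk [(3, 1)])
          (.mv 18)))
        (.mv 11))))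
     (.br 10 0
      (.br 14 0
       (.br 11 0
        (.br 9 0
         (.fk [(2, 4), (3, 4), (4, -1)])
         (.br 4 0
          (.fk [(0, -2), (1, -1), (2, 1), (3, 8), (4, -2), (5, 1), (11, 1)])
          (.mv 1)))
        (.br 15 0
         (.fk [(3, 1)])
         (.br 1 0
          (.br 0 0
           (.fk [(0, 1), (1, -3), (3, 1), (4, -1), (5, 1)])
           (.mv 28))
          (.mv 14))))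
       (.br 11 0
        (.br 9 0
         (.fk [(0, 3), (1, 1), (2, 16), (3, 4), (4, -1), (5, -3)])
         (.br 8 0
          (.br 4 0
           (.br 3 0
            (.br 1 0
             (.fk [(0, 11), (1, -1), (2, 2), (3, -4), (4, 1), (5, -3)])
             (.mv 22))
            (.mv 21))
           (.mv 1))
          (.mv 16)))
        (.mv 10)))
      (.mv 6)))
    (.br 6 0
     (.br 5 0
      (.br 7 0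
       (.fk [(0, 3), (1, 13), (3, 4), (4, -1), (5, -3)])
       (.mv 5))
      (.br 10 0
       (.br 5 1
        (.br 7 0
         (.fk [(0, 3), (1, 13), (2, 4), (3, 4), (4, -1), (5, -3)])
         (.mv 5))
        (.br 14 0
         (.fk [(0, -1), (1, -13), (2, 2), (3, 12), (4, -3), (5, 1)])
         (.mv 24)))
       (.mv 6)))
     (.br 14 0
      (.fk [(0, -1), (1, -1), (3, 12), (4, -3), (5, 1)])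
      (.mv 17))))
   (.br 4 0
    (.br 12 0
     (.br 5 0
      (.br 6 0
       (.fk [(0, -3), (1, 3), (4, -1), (5, 1)])
       (.br 11 0
        (.br 10 0
         (.br 14 0
          (.fk [(0, -3), (1, 1), (3, 1), (4, -1), (5, 1)])
          (.br 9 0
           (.fk [(0, -11), (1, 5), (2, 4), (3, 1), (4, -5), (5, 4)])
           (.mv 8)))
         (.br 14 0
          (.fk [(0, -3), (1, 1), (3, 1), (4, -1), (5, 1)])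
          (.br 0 0
           (.fk [(0, -1), (1, 1), (4, -1), (5, 1)])
           (.mv 15))))
        (.mv 3)))
      (.br 14 0
       (.fk [(0, -3), (1, -1), (3, 4), (4, -1), (5, 1)])
       (.mv 9)))
     (.br 14 0
      (.fk [(0, -3), (1, -1), (3, 4), (4, -1), (5, 1)])
      (.mv 7)))
    (.br 14 0
     (.br 9 0
      (.br 15 0
       (.fk [(3, 1)])
       (.br 18 0
        (.br 1 0
         (.br 11 0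
          (.br 17 0
           (.br 10 0
            (.fk [(0, 1), (2, 4), (3, 4), (4, -1)])
            (.br 21 0
             (.fk [(0, 34), (1, -13), (2, 19), (3, 34), (4, 10), (5, -21), (8, -59), (9, 19), (10, 34)])
             (.br 21 1
              (.fk [(0, 14), (1, 2), (2, 12), (3, 14), (4, -3), (5, -3), (8, -13), (9, 12), (10, 1)])
              (.mv 30))))
           (.mv 26))
          (.mv 19))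
         (.mv 18))
        (.mv 2)))
      (.mv 1))
     (.mv 12))))
  (.mv 0))

def D86_0_0_0 : Inst where
  rows :=
   [(false, [1, 1, 1, 1, 0, 0, 0, 0, 0, 0, 0, 0, 0, 0, 0, 0, 0, 0, 0, 0, 0, 0], 2),
    (false, [0, 0, 0, 0, 1, 1, 1, 1, 0, 0, 0, 0, 0, 0, 0, 0, 0, 0, 0, 0, 0, 0], 2),
    (false, [0, 0, 0, 0, 0, 0, 0, 0, 1, 1, 1, 1, 1, 0, 0, 0, 0, 0, 0, 0, 0, 0], 2),
    (false, [0, 0, 0, 0, 0, 0, 0, 0, 0, 0, 0, 0, 0, 1, 1, 1, 0, 0, 0, 0, 0, 0], 2),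
    (false, [1, 0, 1, 4, 1, 0, 1, 4, 4, 1, 0, 1, 4, 0, 1, 4, 0, 1, 4, 0, 0, 0], 12),
    (false, [4, 1, 0, 1, 4, 1, 0, 1, 4, 1, 0, 1, 4, 4, 1, 0, 0, 1, 4, 0, 0, 0], 12),
    (false, [0, 0, 0, 0, 0, 0, 0, 0, 1, 1, 1, 1, 1, -1, -1, -1, 1, 1, 1, -1, 0, 0], 0),
    (false, [0, 0, 0, 0, 1, 1, 1, 1, 0, 0, 0, 0, 0, -1, -1, -1, 1, 1, 1, 0, -1, 0], 0),
    (false, [-1, 0, 1, 0, -1, 0, 1, 0, -1, 0, 1, 0, -1, -1, 0, 1, 1, 0, -1, 0, 0, -1], 0),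
    (true, [-1, -1, -1, -1, 0, 0, 0, 0, 0, 0, 0, 0, 0, 1, 1, 1, 1, 1, 1, 0, 0, 0], 0),
    (true, [0, 1, 0, -1, 0, 1, 0, -1, -1, 0, 1, 0, -1, 1, 0, -1, 1, 0, -1, 0, 0, 0], 0),
    (true, [0, 1, 4, 9, 1, 0, 1, 4, 1, 0, 1, 4, 9, 4, 1, 0, 0, 1, 4, 0, 0, 0], 1),
    (true, [9, 4, 1, 0, 4, 1, 0, 1, 9, 4, 1, 0, 1, 0, 1, 4, 0, 1, 4, 0, 0, 0], 1),
    (true, [9, 4, 1, 0, 4, 1, 0, 1, 9, 4, 1, 0, 1, 0, 1, 4, 0, 1, 4, 0, 0, 0], 13)]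
  moves := D86_moves0
  reqs := D86_reqs0
  tree := D86_0_0_0_tree

theorem D86_0_0_0_ok : D86.instOK 0 0 0 D86_0_0_0 = true := by
  decide +kernel

def D86_0_1_0_tree : Tree :=
  (.br 13 0
  (.br 2 0
   (.br 6 0
    (.br 10 0
     (.br 4 0
      (.br 14 0
       (.fk [(0, 2), (1, -1), (2, -3), (3, 8), (4, -1), (5, 2), (13, 1)])
       (.br 17 0
        (.br 5 0
         (.fk [(0, 8), (1, 11), (2, -1), (3, 2), (4, -3), (5, 4), (13, 3)])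
         (.br 11 0
          (.fk [(0, 4), (1, 1), (2, 5), (3, 2), (4, -1), (13, 1)])
          (.mv 10)))
        (.mv 4)))
      (.br 9 0
       (.br 14 0
        (.fk [(0, 8), (1, -1), (2, -1), (3, 24), (4, -3), (5, 4), (13, 3)])
        (.br 11 0
         (.fk [(0, 10), (1, 7), (2, 29), (3, 8), (4, -1), (5, -6), (13, 1)])
         (.br 5 0
          (.fk [(0, 4), (1, 5), (2, 1), (3, 2), (4, -1), (13, 1)])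
          (.mv 10))))
       (.mv 1)))
     (.br 5 0
      (.fk [(0, 4), (1, 5), (2, 1), (3, 2), (4, -1), (13, 1)])
      (.mv 6)))
    (.br 11 0
     (.br 14 0
      (.fk [(0, 8), (1, -1), (2, -1), (3, 24), (4, -3), (5, 4), (13, 3)])
      (.br 12 0
       (.fk [(0, 8), (1, -1), (2, 3), (3, 2), (4, -3), (5, 4), (13, 3)])
       (.mv 17)))
     (.mv 3)))
   (.br 5 0
    (.br 14 0
     (.fk [(0, 5), (1, 2), (2, -1), (3, 20), (4, -2), (5, 3), (13, 3)])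
     (.br 4 0
      (.fk [(0, 5), (1, 6), (2, -1), (3, 2), (4, -6), (5, 7), (13, 3)])
      (.mv 12)))
    (.br 14 0
     (.fk [(0, 7), (1, -4), (2, -1), (3, 28), (4, -4), (5, 5), (13, 3)])
     (.mv 9))))
  (.mv 0))

def D86_0_1_0 : Inst where
  rows :=
   [(false, [1, 1, 1, 1, 0, 0, 0, 0, 0, 0, 0, 0, 0, 0, 0, 0, 0, 0, 0, 0, 0, 0], 2),
    (false, [0, 0, 0, 0, 1, 1, 1, 1, 0, 0, 0, 0, 0, 0, 0, 0, 0, 0, 0, 0, 0, 0], 2),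
    (false, [0, 0, 0, 0, 0, 0, 0, 0, 1, 1, 1, 1, 1, 0, 0, 0, 0, 0, 0, 0, 0, 0], 2),
    (false, [0, 0, 0, 0, 0, 0, 0, 0, 0, 0, 0, 0, 0, 1, 1, 1, 0, 0, 0, 0, 0, 0], 2),
    (false, [1, 0, 1, 4, 1, 0, 1, 4, 4, 1, 0, 1, 4, 0, 1, 4, 0, 1, 4, 0, 0, 0], 12),
    (false, [4, 1, 0, 1, 4, 1, 0, 1, 4, 1, 0, 1, 4, 4, 1, 0, 0, 1, 4, 0, 0, 0], 12),
    (false, [0, 0, 0, 0, 0, 0, 0, 0, 1, 1, 1, 1, 1, -1, -1, -1, 1, 1, 1, -1, 0, 0], 0),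
    (false, [0, 0, 0, 0, 1, 1, 1, 1, 0, 0, 0, 0, 0, -1, -1, -1, 1, 1, 1, 0, -1, 0], 0),
    (false, [-1, 0, 1, 0, -1, 0, 1, 0, -1, 0, 1, 0, -1, -1, 0, 1, 1, 0, -1, 0, 0, -1], 0),
    (true, [-1, -1, -1, -1, 0, 0, 0, 0, 0, 0, 0, 0, 0, 1, 1, 1, 1, 1, 1, 0, 0, 0], 0),
    (true, [0, 1, 0, -1, 0, 1, 0, -1, -1, 0, 1, 0, -1, 1, 0, -1, 1, 0, -1, 0, 0, 0], 0),
    (true, [0, 1, 4, 9, 1, 0, 1, 4, 1, 0, 1, 4, 9, 4, 1, 0, 0, 1, 4, 0, 0, 0], 1),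
    (true, [9, 4, 1, 0, 4, 1, 0, 1, 9, 4, 1, 0, 1, 0, 1, 4, 0, 1, 4, 0, 0, 0], 1),
    (true, [-9, -4, -1, 0, -4, -1, 0, -1, -9, -4, -1, 0, -1, 0, -1, -4, 0, -1, -4, 0, 0, 0], -11)]
  moves := D86_moves0
  reqs := D86_reqs0
  tree := D86_0_1_0_tree

theorem D86_0_1_0_ok : D86.instOK 0 1 0 D86_0_1_0 = true := by
  decide +kernel

def D86_0_2_0_tree : Tree :=
  (.br 13 0
  (.fk [(0, 2), (1, 1), (2, -1), (3, 2), (4, -1), (5, 2), (13, -3), (14, 18)])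
  (.mv 0))

def D86_0_2_0 : Inst where
  rows :=
   [(false, [1, 1, 1, 1, 0, 0, 0, 0, 0, 0, 0, 0, 0, 0, 0, 0, 0, 0, 0, 0, 0, 0], 2),
    (false, [0, 0, 0, 0, 1, 1, 1, 1, 0, 0, 0, 0, 0, 0, 0, 0, 0, 0, 0, 0, 0, 0], 2),
    (false, [0, 0, 0, 0, 0, 0, 0, 0, 1, 1, 1, 1, 1, 0, 0, 0, 0, 0, 0, 0, 0, 0], 2),
    (false, [0, 0, 0, 0, 0, 0, 0, 0, 0, 0, 0, 0, 0, 1, 1, 1, 0, 0, 0, 0, 0, 0], 2),
    (false, [1, 0, 1, 4, 1, 0, 1, 4, 4, 1, 0, 1, 4, 0, 1, 4, 0, 1, 4, 0, 0, 0], 12),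
    (false, [4, 1, 0, 1, 4, 1, 0, 1, 4, 1, 0, 1, 4, 4, 1, 0, 0, 1, 4, 0, 0, 0], 12),
    (false, [0, 0, 0, 0, 0, 0, 0, 0, 1, 1, 1, 1, 1, -1, -1, -1, 1, 1, 1, -1, 0, 0], 0),
    (false, [0, 0, 0, 0, 1, 1, 1, 1, 0, 0, 0, 0, 0, -1, -1, -1, 1, 1, 1, 0, -1, 0], 0),
    (false, [-1, 0, 1, 0, -1, 0, 1, 0, -1, 0, 1, 0, -1, -1, 0, 1, 1, 0, -1, 0, 0, -1], 0),
    (true, [-1, -1, -1, -1, 0, 0, 0, 0, 0, 0, 0, 0, 0, 1, 1, 1, 1, 1, 1, 0, 0, 0], 0),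
    (true, [0, 1, 0, -1, 0, 1, 0, -1, -1, 0, 1, 0, -1, 1, 0, -1, 1, 0, -1, 0, 0, 0], 0),
    (true, [0, 1, 4, 9, 1, 0, 1, 4, 1, 0, 1, 4, 9, 4, 1, 0, 0, 1, 4, 0, 0, 0], 1),
    (true, [9, 4, 1, 0, 4, 1, 0, 1, 9, 4, 1, 0, 1, 0, 1, 4, 0, 1, 4, 0, 0, 0], 1),
    (false, [9, 4, 1, 0, 4, 1, 0, 1, 9, 4, 1, 0, 1, 0, 1, 4, 0, 1, 4, 0, 0, 0], 12),
    (true, [1, 0, 0, 0, 0, 0, 0, 0, 1, 0, 0, 0, 0, 0, 0, 0, 0, 0, 0, 0, 0, 0], 1)]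
  moves := D86_moves0
  reqs := D86_reqs0
  tree := D86_0_2_0_tree

theorem D86_0_2_0_ok : D86.instOK 0 2 0 D86_0_2_0 = true := by
  decide +kernel

def D86_0_3_0_tree : Tree :=
  (.br 13 0
  (.br 12 0
   (.fk [(0, 9), (1, 2), (2, 9), (3, 4), (4, 2), (5, 9), (8, 2), (10, 4), (13, -15), (14, 22)])
   (.br 2 0
    (.fk [(0, 1), (2, -1), (5, 1), (8, 2), (13, -1), (14, 2)])
    (.br 14 0
     (.fk [(0, 3), (2, 1), (3, 6), (4, -1), (5, 1), (9, 1), (13, -1), (14, 1)])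
     (.mv 7))))
  (.mv 0))

def D86_0_3_0 : Inst where
  rows :=
   [(false, [1, 1, 1, 1, 0, 0, 0, 0, 0, 0, 0, 0, 0, 0, 0, 0, 0, 0, 0, 0, 0, 0], 2),
    (false, [0, 0, 0, 0, 1, 1, 1, 1, 0, 0, 0, 0, 0, 0, 0, 0, 0, 0, 0, 0, 0, 0], 2),
    (false, [0, 0, 0, 0, 0, 0, 0, 0, 1, 1, 1, 1, 1, 0, 0, 0, 0, 0, 0, 0, 0, 0], 2),
    (false, [0, 0, 0, 0, 0, 0, 0, 0, 0, 0, 0, 0, 0, 1, 1, 1, 0, 0, 0, 0, 0, 0], 2),
    (false, [1, 0, 1, 4, 1, 0, 1, 4, 4, 1, 0, 1, 4, 0, 1, 4, 0, 1, 4, 0, 0, 0], 12),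
    (false, [4, 1, 0, 1, 4, 1, 0, 1, 4, 1, 0, 1, 4, 4, 1, 0, 0, 1, 4, 0, 0, 0], 12),
    (false, [0, 0, 0, 0, 0, 0, 0, 0, 1, 1, 1, 1, 1, -1, -1, -1, 1, 1, 1, -1, 0, 0], 0),
    (false, [0, 0, 0, 0, 1, 1, 1, 1, 0, 0, 0, 0, 0, -1, -1, -1, 1, 1, 1, 0, -1, 0], 0),
    (false, [-1, 0, 1, 0, -1, 0, 1, 0, -1, 0, 1, 0, -1, -1, 0, 1, 1, 0, -1, 0, 0, -1], 0),
    (true, [-1, -1, -1, -1, 0, 0, 0, 0, 0, 0, 0, 0, 0, 1, 1, 1, 1, 1, 1, 0, 0, 0], 0),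
    (true, [0, 1, 0, -1, 0, 1, 0, -1, -1, 0, 1, 0, -1, 1, 0, -1, 1, 0, -1, 0, 0, 0], 0),
    (true, [0, 1, 4, 9, 1, 0, 1, 4, 1, 0, 1, 4, 9, 4, 1, 0, 0, 1, 4, 0, 0, 0], 1),
    (true, [9, 4, 1, 0, 4, 1, 0, 1, 9, 4, 1, 0, 1, 0, 1, 4, 0, 1, 4, 0, 0, 0], 1),
    (false, [9, 4, 1, 0, 4, 1, 0, 1, 9, 4, 1, 0, 1, 0, 1, 4, 0, 1, 4, 0, 0, 0], 12),
    (true, [0, 1, 0, -1, 1, 0, -1, 0, 0, 1, 0, -1, 0, -1, 0, 1, -1, 0, 1, 0, 0, 0], 1)]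
  moves := D86_moves0
  reqs := D86_reqs0
  tree := D86_0_3_0_tree

theorem D86_0_3_0_ok : D86.instOK 0 3 0 D86_0_3_0 = true := by
  decide +kernel

theorem D86_ok0 : ∀ b ∈ D86.branches, ∃ I : Inst, D86.instOK 0 b.1 b.2 I = true := by
  intro b hb
  have h : b = (0, 0) ∨ b = (1, 0) ∨ b = (2, 0) ∨ b = (3, 0) := by
    have hb2 : b ∈ [(0, 0), (1, 0), (2, 0), (3, 0)] := hb
    simpa using hb2
  rcases h with rfl | rfl | rfl | rfl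
  · exact ⟨D86_0_0_0, D86_0_0_0_ok⟩
  · exact ⟨D86_0_1_0, D86_0_1_0_ok⟩
  · exact ⟨D86_0_2_0, D86_0_2_0_ok⟩
  · exact ⟨D86_0_3_0, D86_0_3_0_ok⟩

end Pool.Agent.helper1.CAD
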