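import Pool.Agent.helper1.CAD.Sound

namespace Pool.Agent.helper1.CAD

set_option maxRecDepth 100000

def EB10 : Spec where
  K := .B
  tys := [(2, 2, [1, 0], 0), (2, 0, [1, 0], 0), (0, 2, [1, 0], 0), (1, 2, [0, 1], 0), (1, 0, [0, 3], 0), (1, 1, [0, 0], 1), (0, 1, [0, 0], 1)]
  kc := ([4, 2], 1)
  pmin := [0, 0]
  sl := (0, -1)
  good := false
  pv := 1
  px := 0
  pvx := 1

def EB10_moves0 : List Move :=
   [([((0, 1, 0), -1)], 0),
    ([((0, 2, 0), -2)], 0),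
    ([((1, 0, -1), 1), ((1, 1, -1), 0)], 0),
    ([((1, 2, 2), 1), ((1, 1, 2), 2)], 0),
    ([((1, 0, 0), 1), ((1, 1, 0), 0)], 0),
    ([((1, 0, 1), 1), ((1, 1, 1), 0)], 0),
    ([((1, 2, 1), 0), ((1, 0, 1), 2)], 0),
    ([((0, 1, -1), 0), ((0, 0, 1), -1)], 0),
    ([((0, 1, -1), -1), ((0, 1, 1), -1)], 0),
    ([((2, 2, 0), 0), ((2, 0, 0), 2)], 0),
    ([((1, 2, 1), 1), ((1, 1, 1), 2)], 0),
    ([((1, 2, 0), 1), ((1, 1, 0), 2)], 0),
    ([((0, 2, 2), 1), ((0, 1, 2), 2)], 0),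
    ([((0, 2, 2), 0), ((0, 0, 2), 2)], 0),
    ([((0, 2, 1), -1), ((0, 1, -1), -2)], 0),
    ([((1, 2, 0), 0), ((1, 0, 0), 2)], 0),
    ([((2, 2, 1), 0), ((2, 0, 1), 2)], 0),
    ([((0, 2, 1), 1), ((0, 1, 1), 2)], 0),
    ([((1, 1, 0), 0)], 1),
    ([((0, 1, 1), 0), ((0, 0, 1), 1)], 0),
    ([((1, 0, 2), 1), ((1, 1, 2), 0)], 0),
    ([((0, 1, 2), 0), ((0, 0, 2), 1)], 0),
    ([((1, 2, 2), 0), ((1, 0, 2), 2)], 0),
    ([((0, 2, 1), 0), ((0, 0, 1), 2)], 0),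
    ([((1, 0, 0), 1), ((1, 1, 2), 0), ((0, 1, -1), -1)], 0),
    ([((2, 0, 0), 2), ((1, 2, 1), 0), ((1, 1, -1), -1)], 0),
    ([((1, 2, 0), 0), ((1, 0, 1), 2), ((0, 1, 1), -1)], 0),
    ([((1, 0, 1), 1), ((1, 1, -1), 0), ((0, 1, 1), -1)], 0),
    ([((2, 0, 1), 2), ((1, 2, 0), 0), ((1, 1, 1), -1)], 0),
    ([((0, 2, 1), 0), ((1, 0, 0), 2), ((1, 1, -1), -1)], 0),
    ([((1, 0, 2), 1), ((1, 1, 0), 0), ((0, 1, 1), -1)], 0),
    ([((0, 2, 2), 0), ((1, 0, 1), 2), ((1, 1, -1), -1)], 0),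
    ([((2, 2, 1), 0), ((2, 0, 0), 2), ((0, 1, -1), -1)], 0),
    ([((0, 2, 1), 0), ((1, 0, -1), -1), ((1, 1, 1), 2)], 0),
    ([((1, 2, 0), 1), ((1, 1, 2), 2), ((0, 1, 1), -1)], 0),
    ([((0, 2, 2), 0), ((1, 0, 2), 2), ((1, 1, 0), -1)], 0),
    ([((2, 0, 0), 1), ((1, 1, -1), -1), ((0, 1, 2), 0)], 0),
    ([((1, 2, 2), 0), ((1, 0, 1), 2), ((0, 1, -1), -1)], 0),
    ([((2, 0, -1), 1), ((1, 2, 0), 0), ((0, 1, 1), 2)], 0),
    ([((1, 2, 0), 0), ((1, 0, -1), 1), ((1, 1, 1), 2)], 0),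
    ([((2, 2, 1), 1), ((1, 0, 0), 2), ((0, 1, -1), 0)], 0),
    ([((1, 2, 0), 1), ((1, 0, 1), 2), ((1, 1, 2), 0)], 0),
    ([((1, 0, -1), 1), ((1, 1, 1), 0), ((0, 1, -1), -1)], 0),
    ([((2, 2, 2), 0), ((2, 0, 1), 2), ((0, 1, -1), -1)], 0),
    ([((2, 0, -1), 1), ((1, 1, -1), -1), ((0, 1, 1), 0)], 0),
    ([((1, 2, 1), 1), ((1, 0, 0), 2), ((1, 1, -1), 0)], 0),
    ([((1, 2, 1), 0), ((1, 0, 0), 1), ((1, 1, 2), 2)], 0),
    ([((0, 2, 1), 0), ((1, 0, 1), 2), ((1, 1, 0), -1)], 0),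
    ([((2, 0, 1), 2), ((1, 2, 0), -1), ((1, 1, 2), 0)], 0),
    ([((0, 2, 2), 0), ((1, 0, -2), -1), ((1, 1, 2), 2)], 0),
    ([((2, 0, 2), 1), ((1, 2, 2), 0), ((0, 1, 2), 2)], 0),
    ([((2, 2, 0), 0), ((2, 0, 1), 2), ((0, 1, 1), -1)], 0),
    ([((2, 0, 1), 1), ((1, 1, 1), -1), ((0, 1, -1), 0)], 0),
    ([((2, 0, 1), 2), ((1, 2, 2), 0), ((1, 1, -1), -1)], 0),
    ([((1, 1, 2), 0), ((0, 1, -1), -1)], 1),
    ([((0, 2, 1), 0), ((1, 0, 0), -1), ((1, 1, 2), 2)], 0),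
    ([((1, 2, 1), 0), ((1, 0, 0), 2), ((0, 1, -1), -1)], 0),
    ([((2, 2, 0), 1), ((1, 0, 1), 2), ((0, 1, 2), 0)], 0),
    ([((0, 2, 1), 0), ((0, 1, 2), 2), ((0, 0, 0), -1)], 0),
    ([((2, 0, 1), 1), ((1, 2, 2), 0), ((0, 1, -1), -2)], 0),
    ([((0, 2, 1), 1), ((1, 0, 0), 1), ((1, 1, 1), 0), ((0, 1, 2), 2)], 0),
    ([((0, 2, 1), 1), ((1, 0, -1), 1), ((1, 1, 0), 0), ((0, 1, 2), 2)], 0),
    ([((2, 2, 0), 0), ((2, 2, 2), 0), ((2, 0, 1), 2), ((2, 0, 1), 2)], 0),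
    ([((2, 2, 0), 0), ((2, 0, -1), 1), ((1, 0, 0), 2), ((0, 1, -1), 0)], 0),
    ([((2, 2, 1), 0), ((2, 0, 0), 2), ((1, 2, 0), 1), ((1, 1, 2), 2)], 0),
    ([((2, 2, 0), 1), ((1, 1, 2), 2), ((0, 1, 2), 0)], 1),
    ([((2, 2, 1), 0), ((2, 0, 0), 1), ((1, 0, 2), 2), ((0, 1, 2), 0)], 0),
    ([((2, 2, 0), 0), ((2, 0, 2), 2), ((1, 2, 2), 0), ((1, 0, 0), 2)], 0),
    ([((2, 2, 0), 0), ((0, 2, 2), 0), ((1, 0, 0), 2), ((1, 0, 2), 2)], 0),
    ([((2, 2, 0), 1), ((1, 0, 0), 2), ((0, 1, -1), -1), ((0, 1, 2), 0)], 0),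
    ([((2, 0, 0), 2), ((1, 2, 2), 0), ((1, 1, -1), -1), ((0, 1, -1), -1)], 0),
    ([((2, 0, 0), 1), ((1, 0, -1), -1), ((1, 1, 2), 0), ((0, 1, -1), 0)], 0),
    ([((2, 0, -1), 1), ((0, 2, 2), 0), ((1, 1, -1), -1), ((0, 1, -1), -2)], 0),
    ([((2, 0, -1), 1), ((1, 2, 0), 1), ((1, 1, 2), 0), ((0, 1, -1), -2)], 0),
    ([((2, 0, -1), 1), ((1, 2, 0), 0), ((0, 1, -1), 0), ((0, 0, 0), -2)], 0),
    ([((2, 2, 2), 1), ((0, 2, 1), 0), ((1, 0, 1), 2), ((0, 1, 2), 2)], 0),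
    ([((2, 0, 0), 1), ((0, 2, 1), 0), ((1, 1, 0), -1), ((0, 1, 2), 2)], 0),
    ([((0, 2, 2), 0), ((1, 0, 0), 2), ((1, 1, -1), -1), ((0, 1, -1), -1)], 0),
    ([((0, 2, 2), 0), ((1, 0, 0), 1), ((1, 1, -1), -1), ((1, 1, 2), 2)], 0),
    ([((0, 2, 2), 1), ((1, 0, -1), -1), ((1, 1, 0), 2), ((0, 1, -1), 0)], 0),
    ([((0, 2, 2), 0), ((1, 2, 0), 0), ((1, 0, 2), 2), ((0, 0, 0), -2)], 0),
    ([((0, 2, 2), 0), ((1, 0, 1), 2), ((1, 1, 0), -1), ((0, 1, -1), -1)], 0),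
    ([((0, 2, 2), 1), ((1, 0, 1), -1), ((1, 1, 2), 2), ((0, 1, -1), 0)], 0),
    ([((1, 2, 2), 0), ((1, 0, 0), 2), ((0, 1, -1), -1), ((0, 1, -1), -1)], 0),
    ([((2, 2, 2), 1), ((1, 1, 1), 2), ((0, 1, -1), 0)], 1),
    ([((1, 0, 0), 1), ((1, 1, -1), -1), ((0, 1, 1), 0), ((0, 1, 1), 0)], 1),
    ([((0, 2, 2), 1), ((1, 1, 1), 0), ((0, 1, -1), -2)], 1),
    ([((0, 2, 2), 1), ((1, 1, -1), 0), ((0, 1, 1), 2)], 1),
    ([((1, 1, -1), 0), ((0, 1, 1), 0), ((0, 0, 0), -1)], 1),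
    ([((1, 1, 1), 0), ((0, 1, -1), 0), ((0, 0, 0), -1)], 1),
    ([((2, 2, 0), 1), ((1, 1, 1), 2), ((0, 1, 1), 0)], 1),
    ([((2, 2, 0), 1), ((1, 0, 0), 2), ((1, 1, -1), 0), ((0, 1, 1), 0)], 1),
    ([((1, 0, 0), 1), ((1, 1, -1), 0), ((1, 1, -1), 0), ((0, 1, 1), -1)], 1),
    ([((0, 2, 2), 0), ((1, 1, -1), 0), ((0, 1, -1), -2), ((0, 0, 0), -1)], 1),
    ([((2, 0, 0), 1), ((1, 0, 0), -1), ((1, 1, -1), 0), ((0, 1, 1), 0)], 0),
    ([((0, 2, 2), 1), ((1, 0, 0), -1), ((1, 1, 1), 2), ((0, 1, -1), 0)], 0),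
    ([((1, 2, 2), 1), ((1, 0, 0), 1), ((1, 0, 0), 1), ((1, 1, -1), -1)], 1),
    ([((0, 2, 2), 1), ((1, 0, 0), 1), ((1, 1, -1), 0), ((0, 1, 1), 2)], 0)]

def EB10_reqs0 : List (List ℤ) :=
   [[0, 0, 0, 0, 0, 0, 0, 0, 0, 0, 0, 0, 0, 0, 0, 0, 0, 0, 0, 0, 0, 0, 0, 0, 1, 0, 0, 0, 0, 0, 0, 0, 0, 0, 0],
    [0, 0, 0, 0, 0, 0, 0, 0, 1, 0, 0, 0, 0, 0, 0, 0, 0, 0, 0, 0, 0, 0, 0, 0, 0, 0, 0, 0, 0, 0, 0, 0, 0, 0, 0],
    [0, 0, 0, 0, 0, 0, 0, 0, 0, 0, 0, 0, 0, 0, 0, 1, 0, 0, 0, 1, 0, 0, 0, 0, 0, 0, 0, 0, 0, 0, 0, 0, 0, 0, 0],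
    [0, 0, 0, 0, 0, 0, 0, 0, 0, 0, 0, 0, 0, 1, 0, 0, 0, 0, 0, 0, 0, 0, 1, 0, 0, 0, 0, 0, 0, 0, 0, 0, 0, 0, 0],
    [0, 0, 0, 0, 0, 0, 0, 0, 0, 0, 0, 0, 0, 0, 0, 0, 1, 0, 0, 0, 1, 0, 0, 0, 0, 0, 0, 0, 0, 0, 0, 0, 0, 0, 0],
    [0, 0, 0, 0, 0, 0, 0, 0, 0, 0, 0, 0, 0, 0, 0, 0, 0, 1, 0, 0, 0, 1, 0, 0, 0, 0, 0, 0, 0, 0, 0, 0, 0, 0, 0],
    [0, 0, 0, 0, 0, 0, 0, 0, 0, 0, 0, 0, 1, 0, 0, 0, 0, 1, 0, 0, 0, 0, 0, 0, 0, 0, 0, 0, 0, 0, 0, 0, 0, 0, 0],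
    [0, 0, 0, 0, 0, 0, 0, 0, 0, 0, 0, 0, 0, 0, 0, 0, 0, 0, 0, 0, 0, 0, 0, 1, 0, 0, 0, 0, 1, 0, 0, 0, 0, 0, 0],
    [0, 0, 0, 0, 0, 0, 0, 0, 0, 0, 0, 0, 0, 0, 0, 0, 0, 0, 0, 0, 0, 0, 0, 1, 0, 1, 0, 0, 0, 0, 0, 0, 0, 0, 0],
    [1, 0, 0, 0, 0, 1, 0, 0, 0, 0, 0, 0, 0, 0, 0, 0, 0, 0, 0, 0, 0, 0, 0, 0, 0, 0, 0, 0, 0, 0, 0, 0, 0, 0, 0],
    [0, 0, 0, 0, 0, 0, 0, 0, 0, 0, 0, 0, 1, 0, 0, 0, 0, 0, 0, 0, 0, 1, 0, 0, 0, 0, 0, 0, 0, 0, 0, 0, 0, 0, 0],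
    [0, 0, 0, 0, 0, 0, 0, 0, 0, 0, 0, 1, 0, 0, 0, 0, 0, 0, 0, 0, 1, 0, 0, 0, 0, 0, 0, 0, 0, 0, 0, 0, 0, 0, 0],
    [0, 0, 0, 0, 0, 0, 0, 0, 0, 0, 1, 0, 0, 0, 0, 0, 0, 0, 0, 0, 0, 0, 0, 0, 0, 0, 1, 0, 0, 0, 0, 0, 0, 0, 0],
    [0, 0, 0, 0, 0, 0, 0, 0, 0, 0, 1, 0, 0, 0, 0, 0, 0, 0, 0, 0, 0, 0, 0, 0, 0, 0, 0, 0, 0, 1, 0, 0, 0, 0, 0],
    [0, 0, 0, 0, 0, 0, 0, 0, 0, 1, 0, 0, 0, 0, 0, 0, 0, 0, 0, 0, 0, 0, 0, 1, 0, 0, 0, 0, 0, 0, 0, 0, 0, 0, 0],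
    [0, 0, 0, 0, 0, 0, 0, 0, 0, 0, 0, 1, 0, 0, 0, 0, 1, 0, 0, 0, 0, 0, 0, 0, 0, 0, 0, 0, 0, 0, 0, 0, 0, 0, 0],
    [0, 1, 0, 0, 0, 0, 1, 0, 0, 0, 0, 0, 0, 0, 0, 0, 0, 0, 0, 0, 0, 0, 0, 0, 0, 0, 0, 0, 0, 0, 0, 0, 0, 0, 0],
    [0, 0, 0, 0, 0, 0, 0, 0, 0, 1, 0, 0, 0, 0, 0, 0, 0, 0, 0, 0, 0, 0, 0, 0, 0, 1, 0, 0, 0, 0, 0, 0, 0, 0, 0],
    [0, 0, 0, 0, 0, 0, 0, 0, 0, 0, 0, 0, 0, 0, 0, 0, 0, 0, 0, 0, 1, 0, 0, 0, 0, 0, 0, 0, 0, 0, 0, 1, 0, 0, 0],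
    [0, 0, 0, 0, 0, 0, 0, 0, 0, 0, 0, 0, 0, 0, 0, 0, 0, 0, 0, 0, 0, 0, 0, 0, 0, 1, 0, 0, 1, 0, 0, 0, 0, 0, 0],
    [0, 0, 0, 0, 0, 0, 0, 0, 0, 0, 0, 0, 0, 0, 0, 0, 0, 0, 1, 0, 0, 0, 1, 0, 0, 0, 0, 0, 0, 0, 0, 0, 0, 0, 0],
    [0, 0, 0, 0, 0, 0, 0, 0, 0, 0, 0, 0, 0, 0, 0, 0, 0, 0, 0, 0, 0, 0, 0, 0, 0, 0, 1, 0, 0, 1, 0, 0, 0, 0, 0],
    [0, 0, 0, 0, 0, 0, 0, 0, 0, 0, 0, 0, 0, 1, 0, 0, 0, 0, 1, 0, 0, 0, 0, 0, 0, 0, 0, 0, 0, 0, 0, 0, 0, 0, 0],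
    [0, 0, 0, 0, 0, 0, 0, 0, 0, 1, 0, 0, 0, 0, 0, 0, 0, 0, 0, 0, 0, 0, 0, 0, 0, 0, 0, 0, 1, 0, 0, 0, 0, 0, 0],
    [0, 0, 0, 0, 0, 0, 0, 0, 0, 0, 0, 0, 0, 0, 0, 0, 1, 0, 0, 0, 0, 0, 1, 1, 0, 0, 0, 0, 0, 0, 0, 0, 0, 0, 0],
    [0, 0, 0, 0, 0, 1, 0, 0, 0, 0, 0, 0, 1, 0, 0, 0, 0, 0, 0, 1, 0, 0, 0, 0, 0, 0, 0, 0, 0, 0, 0, 0, 0, 0, 0],
    [0, 0, 0, 0, 0, 0, 0, 0, 0, 0, 0, 1, 0, 0, 0, 0, 0, 1, 0, 0, 0, 0, 0, 0, 0, 1, 0, 0, 0, 0, 0, 0, 0, 0, 0],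
    [0, 0, 0, 0, 0, 0, 0, 0, 0, 0, 0, 0, 0, 0, 0, 0, 0, 1, 0, 1, 0, 0, 0, 0, 0, 1, 0, 0, 0, 0, 0, 0, 0, 0, 0],
    [0, 0, 0, 0, 0, 0, 1, 0, 0, 0, 0, 1, 0, 0, 0, 0, 0, 0, 0, 0, 0, 1, 0, 0, 0, 0, 0, 0, 0, 0, 0, 0, 0, 0, 0],
    [0, 0, 0, 0, 0, 0, 0, 0, 0, 1, 0, 0, 0, 0, 0, 0, 1, 0, 0, 1, 0, 0, 0, 0, 0, 0, 0, 0, 0, 0, 0, 0, 0, 0, 0],
    [0, 0, 0, 0, 0, 0, 0, 0, 0, 0, 0, 0, 0, 0, 0, 0, 0, 0, 1, 0, 1, 0, 0, 0, 0, 1, 0, 0, 0, 0, 0, 0, 0, 0, 0],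
    [0, 0, 0, 0, 0, 0, 0, 0, 0, 0, 1, 0, 0, 0, 0, 0, 0, 1, 0, 1, 0, 0, 0, 0, 0, 0, 0, 0, 0, 0, 0, 0, 0, 0, 0],
    [0, 1, 0, 0, 0, 1, 0, 0, 0, 0, 0, 0, 0, 0, 0, 0, 0, 0, 0, 0, 0, 0, 0, 1, 0, 0, 0, 0, 0, 0, 0, 0, 0, 0, 0],
    [0, 0, 0, 0, 0, 0, 0, 0, 0, 1, 0, 0, 0, 0, 0, 1, 0, 0, 0, 0, 0, 1, 0, 0, 0, 0, 0, 0, 0, 0, 0, 0, 0, 0, 0],
    [0, 0, 0, 0, 0, 0, 0, 0, 0, 0, 0, 1, 0, 0, 0, 0, 0, 0, 0, 0, 0, 0, 1, 0, 0, 1, 0, 0, 0, 0, 0, 0, 0, 0, 0],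
    [0, 0, 0, 0, 0, 0, 0, 0, 0, 0, 1, 0, 0, 0, 0, 0, 0, 0, 1, 0, 1, 0, 0, 0, 0, 0, 0, 0, 0, 0, 0, 0, 0, 0, 0],
    [0, 0, 0, 0, 0, 1, 0, 0, 0, 0, 0, 0, 0, 0, 0, 0, 0, 0, 0, 1, 0, 0, 0, 0, 0, 0, 1, 0, 0, 0, 0, 0, 0, 0, 0],
    [0, 0, 0, 0, 0, 0, 0, 0, 0, 0, 0, 0, 0, 1, 0, 0, 0, 1, 0, 0, 0, 0, 0, 1, 0, 0, 0, 0, 0, 0, 0, 0, 0, 0, 0],
    [0, 0, 0, 0, 1, 0, 0, 0, 0, 0, 0, 1, 0, 0, 0, 0, 0, 0, 0, 0, 0, 0, 0, 0, 0, 1, 0, 0, 0, 0, 0, 0, 0, 0, 0],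
    [0, 0, 0, 0, 0, 0, 0, 0, 0, 0, 0, 1, 0, 0, 0, 1, 0, 0, 0, 0, 0, 1, 0, 0, 0, 0, 0, 0, 0, 0, 0, 0, 0, 0, 0],
    [0, 1, 0, 0, 0, 0, 0, 0, 0, 0, 0, 0, 0, 0, 0, 0, 1, 0, 0, 0, 0, 0, 0, 1, 0, 0, 0, 0, 0, 0, 0, 0, 0, 0, 0],
    [0, 0, 0, 0, 0, 0, 0, 0, 0, 0, 0, 1, 0, 0, 0, 0, 0, 1, 0, 0, 0, 0, 1, 0, 0, 0, 0, 0, 0, 0, 0, 0, 0, 0, 0],
    [0, 0, 0, 0, 0, 0, 0, 0, 0, 0, 0, 0, 0, 0, 0, 1, 0, 0, 0, 0, 0, 1, 0, 1, 0, 0, 0, 0, 0, 0, 0, 0, 0, 0, 0],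
    [0, 0, 1, 0, 0, 0, 1, 0, 0, 0, 0, 0, 0, 0, 0, 0, 0, 0, 0, 0, 0, 0, 0, 1, 0, 0, 0, 0, 0, 0, 0, 0, 0, 0, 0],
    [0, 0, 0, 0, 1, 0, 0, 0, 0, 0, 0, 0, 0, 0, 0, 0, 0, 0, 0, 1, 0, 0, 0, 0, 0, 1, 0, 0, 0, 0, 0, 0, 0, 0, 0],
    [0, 0, 0, 0, 0, 0, 0, 0, 0, 0, 0, 0, 1, 0, 0, 0, 1, 0, 0, 1, 0, 0, 0, 0, 0, 0, 0, 0, 0, 0, 0, 0, 0, 0, 0],
    [0, 0, 0, 0, 0, 0, 0, 0, 0, 0, 0, 0, 1, 0, 0, 0, 1, 0, 0, 0, 0, 0, 1, 0, 0, 0, 0, 0, 0, 0, 0, 0, 0, 0, 0],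
    [0, 0, 0, 0, 0, 0, 0, 0, 0, 1, 0, 0, 0, 0, 0, 0, 0, 1, 0, 0, 1, 0, 0, 0, 0, 0, 0, 0, 0, 0, 0, 0, 0, 0, 0],
    [0, 0, 0, 0, 0, 0, 1, 0, 0, 0, 0, 1, 0, 0, 0, 0, 0, 0, 0, 0, 0, 0, 1, 0, 0, 0, 0, 0, 0, 0, 0, 0, 0, 0, 0],
    [0, 0, 0, 0, 0, 0, 0, 0, 0, 0, 1, 0, 0, 0, 1, 0, 0, 0, 0, 0, 0, 0, 1, 0, 0, 0, 0, 0, 0, 0, 0, 0, 0, 0, 0],
    [0, 0, 0, 0, 0, 0, 0, 1, 0, 0, 0, 0, 0, 1, 0, 0, 0, 0, 0, 0, 0, 0, 0, 0, 0, 0, 1, 0, 0, 0, 0, 0, 0, 0, 0],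
    [1, 0, 0, 0, 0, 0, 1, 0, 0, 0, 0, 0, 0, 0, 0, 0, 0, 0, 0, 0, 0, 0, 0, 0, 0, 1, 0, 0, 0, 0, 0, 0, 0, 0, 0],
    [0, 0, 0, 0, 0, 0, 1, 0, 0, 0, 0, 0, 0, 0, 0, 0, 0, 0, 0, 0, 0, 1, 0, 1, 0, 0, 0, 0, 0, 0, 0, 0, 0, 0, 0],
    [0, 0, 0, 0, 0, 0, 1, 0, 0, 0, 0, 0, 0, 1, 0, 0, 0, 0, 0, 1, 0, 0, 0, 0, 0, 0, 0, 0, 0, 0, 0, 0, 0, 0, 0],
    [0, 0, 0, 0, 0, 0, 0, 0, 0, 0, 0, 0, 0, 0, 0, 0, 0, 0, 0, 0, 0, 0, 1, 1, 0, 0, 0, 0, 0, 0, 0, 1, 0, 0, 0],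
    [0, 0, 0, 0, 0, 0, 0, 0, 0, 1, 0, 0, 0, 0, 0, 0, 1, 0, 0, 0, 0, 0, 1, 0, 0, 0, 0, 0, 0, 0, 0, 0, 0, 0, 0],
    [0, 0, 0, 0, 0, 0, 0, 0, 0, 0, 0, 0, 1, 0, 0, 0, 1, 0, 0, 0, 0, 0, 0, 1, 0, 0, 0, 0, 0, 0, 0, 0, 0, 0, 0],
    [1, 0, 0, 0, 0, 0, 0, 0, 0, 0, 0, 0, 0, 0, 0, 0, 0, 1, 0, 0, 0, 0, 0, 0, 0, 0, 1, 0, 0, 0, 0, 0, 0, 0, 0],
    [0, 0, 0, 0, 0, 0, 0, 0, 0, 1, 0, 0, 0, 0, 0, 0, 0, 0, 0, 0, 0, 0, 0, 0, 0, 0, 1, 1, 0, 0, 0, 0, 0, 0, 0],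
    [0, 0, 0, 0, 0, 0, 1, 0, 0, 0, 0, 0, 0, 1, 0, 0, 0, 0, 0, 0, 0, 0, 0, 1, 0, 0, 0, 0, 0, 0, 0, 0, 0, 0, 0],
    [0, 0, 0, 0, 0, 0, 0, 0, 0, 1, 0, 0, 0, 0, 0, 0, 1, 0, 0, 0, 0, 1, 0, 0, 0, 0, 1, 0, 0, 0, 0, 0, 0, 0, 0],
    [0, 0, 0, 0, 0, 0, 0, 0, 0, 1, 0, 0, 0, 0, 0, 1, 0, 0, 0, 0, 1, 0, 0, 0, 0, 0, 1, 0, 0, 0, 0, 0, 0, 0, 0],
    [1, 0, 1, 0, 0, 0, 2, 0, 0, 0, 0, 0, 0, 0, 0, 0, 0, 0, 0, 0, 0, 0, 0, 0, 0, 0, 0, 0, 0, 0, 0, 0, 0, 0, 0],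
    [1, 0, 0, 0, 1, 0, 0, 0, 0, 0, 0, 0, 0, 0, 0, 0, 1, 0, 0, 0, 0, 0, 0, 1, 0, 0, 0, 0, 0, 0, 0, 0, 0, 0, 0],
    [0, 1, 0, 0, 0, 1, 0, 0, 0, 0, 0, 1, 0, 0, 0, 0, 0, 0, 0, 0, 0, 0, 1, 0, 0, 0, 0, 0, 0, 0, 0, 0, 0, 0, 0],
    [1, 0, 0, 0, 0, 0, 0, 0, 0, 0, 0, 0, 0, 0, 0, 0, 0, 0, 0, 0, 0, 0, 1, 0, 0, 0, 1, 0, 0, 0, 0, 1, 0, 0, 0],
    [0, 1, 0, 0, 0, 1, 0, 0, 0, 0, 0, 0, 0, 0, 0, 0, 0, 0, 1, 0, 0, 0, 0, 0, 0, 0, 1, 0, 0, 0, 0, 0, 0, 0, 0],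
    [1, 0, 0, 0, 0, 0, 0, 1, 0, 0, 0, 0, 0, 1, 0, 0, 1, 0, 0, 0, 0, 0, 0, 0, 0, 0, 0, 0, 0, 0, 0, 0, 0, 0, 0],
    [1, 0, 0, 0, 0, 0, 0, 0, 0, 0, 1, 0, 0, 0, 0, 0, 1, 0, 1, 0, 0, 0, 0, 0, 0, 0, 0, 0, 0, 0, 0, 0, 0, 0, 0],
    [1, 0, 0, 0, 0, 0, 0, 0, 0, 0, 0, 0, 0, 0, 0, 0, 1, 0, 0, 0, 0, 0, 0, 1, 0, 0, 1, 0, 0, 0, 0, 0, 0, 0, 0],
    [0, 0, 0, 0, 0, 1, 0, 0, 0, 0, 0, 0, 0, 1, 0, 0, 0, 0, 0, 1, 0, 0, 0, 1, 0, 0, 0, 0, 0, 0, 0, 0, 0, 0, 0],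
    [0, 0, 0, 0, 0, 1, 0, 0, 0, 0, 0, 0, 0, 0, 0, 1, 0, 0, 0, 0, 0, 0, 1, 1, 0, 0, 0, 0, 0, 0, 0, 0, 0, 0, 0],
    [0, 0, 0, 0, 1, 0, 0, 0, 0, 0, 1, 0, 0, 0, 0, 0, 0, 0, 0, 1, 0, 0, 0, 1, 0, 0, 0, 0, 0, 0, 0, 0, 0, 0, 0],
    [0, 0, 0, 0, 1, 0, 0, 0, 0, 0, 0, 1, 0, 0, 0, 0, 0, 0, 0, 0, 0, 0, 1, 1, 0, 0, 0, 0, 0, 0, 0, 0, 0, 0, 0],
    [0, 0, 0, 0, 1, 0, 0, 0, 0, 0, 0, 1, 0, 0, 0, 0, 0, 0, 0, 0, 0, 0, 0, 1, 0, 0, 0, 1, 0, 0, 0, 0, 0, 0, 0],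
    [0, 0, 1, 0, 0, 0, 0, 0, 0, 1, 0, 0, 0, 0, 0, 0, 0, 1, 0, 0, 0, 0, 0, 0, 0, 0, 1, 0, 0, 0, 0, 0, 0, 0, 0],
    [0, 0, 0, 0, 0, 1, 0, 0, 0, 1, 0, 0, 0, 0, 0, 0, 0, 0, 0, 0, 1, 0, 0, 0, 0, 0, 1, 0, 0, 0, 0, 0, 0, 0, 0],
    [0, 0, 0, 0, 0, 0, 0, 0, 0, 0, 1, 0, 0, 0, 0, 0, 1, 0, 0, 1, 0, 0, 0, 1, 0, 0, 0, 0, 0, 0, 0, 0, 0, 0, 0],
    [0, 0, 0, 0, 0, 0, 0, 0, 0, 0, 1, 0, 0, 0, 0, 0, 1, 0, 0, 1, 0, 0, 1, 0, 0, 0, 0, 0, 0, 0, 0, 0, 0, 0, 0],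
    [0, 0, 0, 0, 0, 0, 0, 0, 0, 0, 1, 0, 0, 0, 0, 1, 0, 0, 0, 0, 1, 0, 0, 1, 0, 0, 0, 0, 0, 0, 0, 0, 0, 0, 0],
    [0, 0, 0, 0, 0, 0, 0, 0, 0, 0, 1, 1, 0, 0, 0, 0, 0, 0, 1, 0, 0, 0, 0, 0, 0, 0, 0, 1, 0, 0, 0, 0, 0, 0, 0],
    [0, 0, 0, 0, 0, 0, 0, 0, 0, 0, 1, 0, 0, 0, 0, 0, 0, 1, 0, 0, 1, 0, 0, 1, 0, 0, 0, 0, 0, 0, 0, 0, 0, 0, 0],
    [0, 0, 0, 0, 0, 0, 0, 0, 0, 0, 1, 0, 0, 0, 0, 0, 0, 1, 0, 0, 0, 0, 1, 1, 0, 0, 0, 0, 0, 0, 0, 0, 0, 0, 0],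
    [0, 0, 0, 0, 0, 0, 0, 0, 0, 0, 0, 0, 0, 1, 0, 0, 1, 0, 0, 0, 0, 0, 0, 2, 0, 0, 0, 0, 0, 0, 0, 0, 0, 0, 0],
    [0, 0, 1, 0, 0, 0, 0, 0, 0, 0, 0, 0, 0, 0, 0, 0, 0, 0, 0, 0, 0, 1, 0, 1, 0, 0, 0, 0, 0, 0, 0, 1, 1, 0, 0],
    [0, 0, 0, 0, 0, 0, 0, 0, 0, 0, 0, 0, 0, 0, 0, 0, 1, 0, 0, 1, 0, 0, 0, 0, 0, 2, 0, 0, 0, 0, 0, 0, 1, 0, 0],
    [0, 0, 0, 0, 0, 0, 0, 0, 0, 0, 1, 0, 0, 0, 0, 0, 0, 0, 0, 0, 0, 1, 0, 1, 0, 0, 0, 0, 0, 0, 0, 1, 1, 0, 0],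
    [0, 0, 0, 0, 0, 0, 0, 0, 0, 0, 1, 0, 0, 0, 0, 0, 0, 0, 0, 1, 0, 0, 0, 0, 0, 1, 0, 0, 0, 0, 0, 1, 1, 0, 0],
    [0, 0, 0, 0, 0, 0, 0, 0, 0, 0, 0, 0, 0, 0, 0, 0, 0, 0, 0, 1, 0, 0, 0, 0, 0, 1, 0, 1, 0, 0, 0, 1, 1, 0, 0],
    [0, 0, 0, 0, 0, 0, 0, 0, 0, 0, 0, 0, 0, 0, 0, 0, 0, 0, 0, 0, 0, 1, 0, 1, 0, 0, 0, 1, 0, 0, 0, 1, 1, 0, 0],
    [1, 0, 0, 0, 0, 0, 0, 0, 0, 0, 0, 0, 0, 0, 0, 0, 0, 0, 0, 0, 0, 1, 0, 0, 0, 1, 0, 0, 0, 0, 0, 1, 1, 0, 0],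
    [1, 0, 0, 0, 0, 0, 0, 0, 0, 0, 0, 0, 0, 0, 0, 0, 1, 0, 0, 1, 0, 0, 0, 0, 0, 1, 0, 0, 0, 0, 0, 1, 1, 0, 0],
    [0, 0, 0, 0, 0, 0, 0, 0, 0, 0, 0, 0, 0, 0, 0, 0, 1, 0, 0, 2, 0, 0, 0, 0, 0, 1, 0, 0, 0, 0, 0, 1, 1, 0, 0],
    [0, 0, 0, 0, 0, 0, 0, 0, 0, 0, 1, 0, 0, 0, 0, 0, 0, 0, 0, 1, 0, 0, 0, 1, 0, 0, 0, 1, 0, 0, 0, 1, 1, 0, 0],
    [0, 0, 0, 0, 0, 1, 0, 0, 0, 0, 0, 0, 0, 0, 0, 0, 1, 0, 0, 1, 0, 0, 0, 0, 0, 1, 0, 0, 0, 0, 0, 0, 2, 0, 0],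
    [0, 0, 0, 0, 0, 0, 0, 0, 0, 0, 1, 0, 0, 0, 0, 0, 1, 0, 0, 0, 0, 1, 0, 1, 0, 0, 0, 0, 0, 0, 0, 0, 2, 0, 0],
    [0, 0, 0, 0, 0, 0, 0, 0, 0, 0, 0, 0, 0, 1, 0, 0, 2, 0, 0, 1, 0, 0, 0, 0, 0, 0, 0, 0, 0, 0, 1, 0, 1, 0, 0],
    [0, 0, 0, 0, 0, 0, 0, 0, 0, 0, 1, 0, 0, 0, 0, 0, 1, 0, 0, 1, 0, 0, 0, 0, 0, 1, 0, 0, 0, 0, 0, 0, 2, 0, 0]]

def EB10_base0 : List Row :=
   [(false, [1, 1, 1, 0, 0, 0, 0, 0, 0, 0, 0, 0, 0, 0, 0, 0, 0, 0, 0, 0, 0, 0, 0, 0, 0, 0, 0, 0, 0, 0, 0, 0, 0, -1, 0], 0),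
    (false, [0, 0, 0, 1, 1, 1, 1, 1, 0, 0, 0, 0, 0, 0, 0, 0, 0, 0, 0, 0, 0, 0, 0, 0, 0, 0, 0, 0, 0, 0, 0, 0, 0, -1, 0], 0),
    (false, [0, 0, 0, 0, 0, 0, 0, 0, 1, 1, 1, 0, 0, 0, 0, 0, 0, 0, 0, 0, 0, 0, 0, 0, 0, 0, 0, 0, 0, 0, 0, 0, 0, -1, 0], 0),
    (false, [0, 0, 0, 0, 0, 0, 0, 0, 0, 0, 0, 1, 1, 1, 0, 0, 0, 0, 0, 0, 0, 0, 0, 0, 0, 0, 0, 0, 0, 0, 0, 0, 0, 0, -1], 0),
    (false, [0, 0, 0, 0, 0, 0, 0, 0, 0, 0, 0, 0, 0, 0, 1, 1, 1, 1, 1, 0, 0, 0, 0, 0, 0, 0, 0, 0, 0, 0, 0, 0, 0, 0, -3], 0),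
    (false, [0, 0, 0, 0, 0, 0, 0, 0, 0, 0, 0, 0, 0, 0, 0, 0, 0, 0, 0, 1, 1, 1, 1, 0, 0, 0, 0, 0, 0, 0, 0, 0, 0, 0, 0], 1),
    (false, [0, 0, 0, 0, 0, 0, 0, 0, 0, 0, 0, 0, 0, 0, 0, 0, 0, 0, 0, 0, 0, 0, 0, 1, 1, 1, 1, 0, 0, 0, 0, 0, 0, 0, 0], 1),
    (false, [0, 1, 4, 4, 1, 0, 1, 4, 0, 1, 4, 0, 1, 4, 4, 1, 0, 1, 4, 1, 0, 1, 4, 1, 0, 1, 4, 0, 1, 4, 0, 0, 0, -8, -4], 2),
    (false, [4, 1, 0, 4, 1, 0, 1, 4, 4, 1, 0, 4, 1, 0, 4, 1, 0, 1, 4, 4, 1, 0, 1, 4, 1, 0, 1, 0, 1, 4, 0, 0, 0, -8, -4], 2),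
    (false, [-1, -1, -1, 1, 1, 1, 1, 1, -1, -1, -1, -1, -1, -1, 1, 1, 1, 1, 1, 0, 0, 0, 0, 0, 0, 0, 0, 1, 1, 1, -1, 0, 0, 0, 0], 0),
    (false, [1, 1, 1, -1, -1, -1, -1, -1, -1, -1, -1, 0, 0, 0, 0, 0, 0, 0, 0, 1, 1, 1, 1, 0, 0, 0, 0, 1, 1, 1, 0, -1, 0, 0, 0], 0),
    (false, [-1, 0, 1, -1, 0, 1, 0, -1, -1, 0, 1, -1, 0, 1, -1, 0, 1, 0, -1, -1, 0, 1, 0, -1, 0, 1, 0, 1, 0, -1, 0, 0, -1, 0, 0], 0),
    (true, [-1, -1, -1, -1, -1, -1, -1, -1, 1, 1, 1, 0, 0, 0, 0, 0, 0, 0, 0, 0, 0, 0, 0, 1, 1, 1, 1, 1, 1, 1, 0, 0, 0, 0, 0], 0),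
    (true, [1, 0, -1, -1, 0, 1, 0, -1, 1, 0, -1, 1, 0, -1, -1, 0, 1, 0, -1, 0, 1, 0, -1, 0, 1, 0, -1, 1, 0, -1, 0, 0, 0, 0, 0], 0),
    (true, [4, 1, 0, 16, 9, 4, 1, 0, 0, 1, 4, 1, 0, 1, 9, 4, 1, 0, 1, 4, 1, 0, 1, 1, 0, 1, 4, 0, 1, 4, 0, 0, 0, 0, 0], 1),
    (true, [0, 0, 0, 0, 0, 0, 0, 0, 0, 0, 0, 0, 0, 0, 0, 0, 0, 0, 0, 0, 0, 0, 0, 0, 0, 0, 0, 0, 0, 0, 0, 0, 0, 1, 0], 0),
    (true, [0, 0, 0, 0, 0, 0, 0, 0, 0, 0, 0, 0, 0, 0, 0, 0, 0, 0, 0, 0, 0, 0, 0, 0, 0, 0, 0, 0, 0, 0, 0, 0, 0, 0, 1], 0)]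

def EB10_0_0_0_tree : Tree :=
  (.br 24 0
  (.br 8 0
   (.br 9 0
    (.br 31 0
     (.br 16 0
      (.br 20 0
       (.br 17 0
        (.br 5 0
         (.br 6 0
          (.br 15 0
           (.br 4 0
            (.fk [(0, 4), (1, -8), (2, -4), (3, -4), (5, 1), (6, -1), (7, 1), (9, 2), (10, -8), (13, 6)])
            (.br 10 0
             (.fk [(0, 8), (1, -20), (2, 4), (3, -4), (5, 4), (6, -1), (7, 1), (10, -12), (13, 4)])
             (.br 26 0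
              (.br 18 0
               (.br 11 0
                (.fk [(1, -4), (2, -4), (3, -1), (4, -1), (5, 1), (6, -2), (8, 1), (10, -3), (11, 2), (13, 1)])
                (.br 25 0
                 (.br 27 0
                  (.fk [(0, 68), (1, -74), (2, -10), (3, 13), (4, -7), (5, 18), (6, 13), (7, 1), (8, 1), (9, 35), (10, -37), (11, 18), (13, 18)])
                  (.br 23 0
                   (.fk [(0, 4), (2, -4), (5, 1), (6, 1), (10, -2), (12, 2)])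
                   (.mv 74)))
                 (.mv 38)))
               (.br 22 0
                (.br 11 0
                 (.fk [(1, -12), (2, -12), (3, -3), (4, -3), (5, 1), (6, -5), (7, 1), (8, 2), (10, -9), (11, 4), (13, 5)])
                 (.br 13 0
                  (.br 25 0
                   (.br 27 0
                    (.fk [(0, 12), (1, -12), (3, 3), (4, -1), (5, 3), (6, 3), (9, 6), (10, -6), (11, 3), (13, 3)])
                    (.mv 80))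
                   (.mv 38))
                  (.mv 22)))
                (.mv 20)))
              (.mv 12))))
           (.br 19 0
            (.br 11 0
             (.fk [(1, -12), (2, -12), (3, -3), (4, -3), (5, 1), (6, -5), (7, 1), (8, 2), (10, -9), (11, 4), (13, 5)])
             (.br 21 0
              (.br 18 0
               (.br 22 0
                (.fk [(5, 1)])
                (.br 25 0
                 (.br 13 0
                  (.br 10 0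
                   (.fk [(0, 36), (1, -79), (2, 67), (3, 3), (4, 3), (5, 13), (6, 13), (7, 1), (8, -4), (10, -40), (11, 13), (13, 13)])
                   (.br 14 0
                    (.br 4 0
                     (.fk [(0, 2), (2, -2), (5, 1), (6, 1), (10, -2), (11, 1), (13, 1)])
                     (.br 23 0
                      (.br 26 0
                       (.fk [(0, 4), (2, -4), (5, 1), (6, 1), (10, -2), (12, 2)])
                       (.mv 12))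
                      (.mv 73)))
                    (.mv 49)))
                  (.mv 3))
                 (.mv 34)))
               (.br 22 0
                (.fk [(5, 1)])
                (.mv 20)))
              (.mv 39)))
            (.mv 2)))
          (.br 0 0
           (.br 1 0
            (.br 11 0
             (.fk [(0, 7), (1, -18), (2, -13), (3, -3), (4, -3), (5, 5), (6, -5), (7, 1), (8, 2), (10, -10), (11, 4), (13, 5)])
             (.br 21 0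
              (.br 15 0
               (.fk [(0, 26), (1, -34), (2, -8), (3, -29), (4, 7), (5, 14), (6, -3), (7, 1), (8, 1), (9, 1), (10, -17), (11, 2), (13, 14)])
               (.br 19 0
                (.br 22 0
                 (.fk [(5, 1)])
                 (.mv 48))
                (.mv 2)))
              (.mv 28)))
            (.mv 16))
           (.br 25 0
            (.br 11 0
             (.fk [(0, 2), (1, -16), (2, -18), (3, -4), (4, -4), (5, 6), (6, -8), (7, 1), (8, 3), (10, -13), (11, 6), (12, 1), (13, 6)])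
             (.br 21 0
              (.br 22 0
               (.br 2 0
                (.br 10 0
                 (.fk [(0, 19), (1, -47), (2, 60), (3, 4), (4, 4), (5, 8), (6, 8), (7, -1), (8, -3), (10, -23), (11, 8), (13, 8)])
                 (.br 26 0
                  (.br 18 0
                   (.br 15 0
                    (.br 13 0
                     (.fk [(0, 8), (1, -16), (2, -24), (3, -4), (4, -4), (5, 6), (6, -1), (7, 3), (8, 1), (10, -12), (11, 6), (13, 6)])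
                     (.br 19 0
                      (.fk [(5, 1)])
                      (.mv 53)))
                    (.br 19 0
                     (.fk [(5, 1)])
                     (.mv 2)))
                   (.br 13 0
                    (.fk [(0, 8), (1, -16), (2, -24), (3, -4), (4, -4), (5, 6), (6, -1), (7, 3), (8, 1), (10, -12), (11, 6), (13, 6)])
                    (.mv 22)))
                  (.mv 12)))
                (.br 23 0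
                 (.br 6 1
                  (.br 15 0
                   (.br 10 0
                    (.fk [(0, 4), (1, -52), (2, 24), (3, -24), (4, 4), (5, 8), (6, 8), (7, -1), (8, 4), (10, -28), (11, 8), (13, 8)])
                    (.br 26 0
                     (.fk [(0, 4), (2, -4), (5, 1), (6, 1), (10, -2), (12, 2)])
                     (.mv 12)))
                   (.br 19 0
                    (.fk [(5, 1)])
                    (.mv 2)))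
                  (.mv 62))
                 (.mv 43)))
               (.mv 48))
              (.mv 28)))
            (.mv 51))))
         (.br 0 0
          (.br 10 0
           (.fk [(0, 2), (1, -3), (2, 1), (5, 1), (10, -2)])
           (.br 26 0
            (.br 29 0
             (.br 15 0
              (.fk [(0, 18), (1, -20), (2, -14), (3, -14), (4, 2), (5, 10), (6, -10), (7, 1), (8, 1), (10, -15), (12, 5), (13, 10)])
              (.br 19 0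
               (.br 1 0
                (.br 11 0
                 (.fk [(0, 48), (1, -83), (2, -37), (3, -9), (4, -9), (5, 27), (6, -30), (7, 2), (8, 7), (10, -29), (13, 27)])
                 (.br 21 0
                  (.br 22 0
                   (.fk [(5, 1)])
                   (.br 23 0
                    (.br 25 0
                     (.fk [(0, 4), (2, -4), (5, 1), (6, 1), (10, -2), (12, 2)])
                     (.mv 34))
                    (.mv 71)))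
                  (.mv 39)))
                (.br 23 0
                 (.br 11 0
                  (.fk [(0, -4), (1, -9), (2, 5), (3, -1), (4, -1), (5, 3), (6, 2), (7, -2), (8, 3), (10, -3), (13, 3)])
                  (.br 21 0
                   (.br 22 0
                    (.fk [(5, 1)])
                    (.mv 64))
                   (.mv 39)))
                 (.mv 32)))
               (.mv 2)))
             (.mv 13))
            (.mv 12)))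
          (.mv 9)))
        (.br 21 0
         (.br 22 0
          (.br 11 0
           (.br 12 0
            (.br 0 0
             (.fk [(0, 8), (1, -15), (2, -9), (3, 1), (4, -3), (5, 5), (6, -5), (7, 1), (8, 1), (10, -10), (13, 5)])
             (.br 5 0
              (.fk [(1, -12), (2, -12), (3, -3), (4, -3), (5, 1), (6, -5), (7, 1), (8, 2), (10, -9), (11, 4), (13, 5)])
              (.mv 9)))
            (.mv 6))
           (.br 25 0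
            (.br 10 0
             (.fk [(0, 27), (1, -39), (2, 44), (3, 4), (4, 4), (5, 8), (6, 8), (7, -1), (8, -3), (10, -23), (11, 8), (13, 8)])
             (.br 19 0
              (.fk [(5, 1)])
              (.mv 31)))
            (.mv 26)))
          (.br 11 0
           (.br 12 0
            (.fk [(0, 10), (1, -4), (2, -14), (3, 2), (4, -2), (5, 5), (6, -11), (8, 1), (10, -9), (12, 7), (13, 2)])
            (.mv 6))
           (.mv 41)))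
         (.mv 5)))
       (.br 11 0
        (.br 10 0
         (.fk [(0, 6), (1, -12), (2, -2), (3, -1), (4, -1), (5, 3), (6, -1), (7, 1), (10, -9), (13, 3)])
         (.br 18 0
          (.br 17 0
           (.br 15 0
            (.br 5 0
             (.fk [(1, -12), (2, -12), (3, -3), (4, -3), (5, 1), (6, -5), (7, 1), (8, 2), (10, -9), (11, 4), (13, 5)])
             (.br 0 0
              (.fk [(0, 14), (1, -42), (2, -28), (3, -7), (4, -7), (5, 4), (6, -17), (7, -2), (8, 9), (10, -21), (11, 17), (13, 4)])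
              (.mv 9)))
            (.br 23 0
             (.br 19 0
              (.br 26 0
               (.br 29 0
                (.br 0 0
                 (.fk [(0, 11), (1, -15), (2, -4), (3, -1), (4, -1), (5, 3), (6, 2), (7, -2), (8, 3), (10, -12), (13, 3)])
                 (.br 5 0
                  (.fk [(0, 2), (1, -4), (2, -6), (3, -1), (4, -1), (5, 1), (6, -3), (8, 1), (10, -4), (11, 2), (12, 1), (13, 1)])
                  (.mv 9)))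
                (.mv 13))
               (.mv 12))
              (.mv 2))
             (.mv 79)))
           (.br 23 0
            (.br 12 0
             (.fk [(0, -4), (1, -8), (2, 4), (3, 8), (4, -4), (5, -3), (6, 1), (7, -1), (8, 2), (9, 2), (10, -4), (13, 2)])
             (.mv 6))
            (.mv 81)))
          (.mv 35)))
        (.mv 11)))
      (.br 11 0
       (.br 20 0
        (.br 23 0
         (.br 12 0
          (.br 0 0
           (.fk [(0, 8), (1, -12), (2, -4), (3, 5), (4, -3), (5, 2), (6, 1), (7, -1), (8, 2), (10, -9), (13, 1)])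
           (.br 5 0
            (.br 7 0
             (.br 19 0
              (.fk [(0, -12), (2, 12), (3, 12), (4, -4), (5, 3), (6, 3), (7, -3), (8, 3)])
              (.br 15 0
               (.br 10 0
                (.fk [(1, -16), (2, 8), (3, 5), (4, -3), (5, 2), (6, 1), (7, -1), (8, 2), (10, -11), (13, 1)])
                (.br 26 0
                 (.br 29 0
                  (.br 17 0
                   (.br 18 0
                    (.br 22 0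
                     (.br 25 0
                      (.fk [(1, -4), (2, -4), (3, 2), (4, -2), (5, -2), (6, 2), (8, 1), (10, -4), (12, 2), (13, 2)])
                      (.br 28 0
                       (.br 4 0
                        (.br 6 0
                         (.br 25 1
                          (.br 32 0
                           (.fk [(0, 18), (1, -18), (2, 16), (3, 38), (4, -10), (5, 2), (6, 2), (7, -4), (8, 2), (9, 13), (10, -15), (11, -7), (12, 7), (13, 2)])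
                           (.br 32 1
                            (.br 16 1
                             (.fk [(0, 16), (1, -62), (2, -74), (3, -24), (4, -12), (5, 14), (6, -50), (7, 1), (8, 14), (9, 1), (10, -50), (11, 35), (13, 14)])
                             (.fk [(0, 16), (1, 4), (2, -12), (3, 25), (4, -7), (5, 4), (6, -15), (7, -5), (8, 4), (10, -20), (11, -1), (12, 17), (13, 4)]))
                            (.mv 97)))
                          (.fk [(0, 4), (1, -2), (2, -2), (3, 6), (4, -2), (5, 1), (6, -3), (7, -1), (8, 1), (9, 1), (10, -5), (12, 3), (13, 1)]))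
                         (.mv 51))
                        (.mv 44))
                       (.mv 19)))
                     (.mv 78))
                    (.mv 68))
                   (.mv 31))
                  (.mv 13))
                 (.mv 12)))
               (.mv 2)))
             (.br 13 0
              (.fk [(1, -4), (2, -4), (3, 5), (4, -3), (5, 2), (6, -1), (7, 1), (10, -3), (13, 3)])
              (.mv 67)))
            (.mv 9)))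
          (.br 17 0
           (.br 21 0
            (.br 19 0
             (.fk [(0, -4), (2, 4), (5, 1), (6, 1), (7, -1), (8, 1)])
             (.mv 45))
            (.mv 10))
           (.mv 6)))
         (.br 22 0
          (.br 28 0
           (.br 25 0
            (.br 1 0
             (.br 12 0
              (.br 0 0
               (.fk [(0, 36), (1, -24), (2, -12), (3, 12), (4, -4), (5, 15), (6, -24), (7, -3), (8, 3), (10, -24)])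
               (.br 5 0
                (.br 4 0
                 (.br 26 0
                  (.br 7 0
                   (.br 6 0
                    (.br 21 0
                     (.br 10 0
                      (.fk [(1, -2), (2, 2), (5, 1), (6, -1), (10, -1)])
                      (.br 19 0
                       (.fk [(5, 1), (6, -1)])
                       (.mv 77)))
                     (.br 17 0
                      (.br 15 0
                       (.br 10 0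
                        (.fk [(0, 1), (1, -3), (2, 2), (5, 1), (6, -1), (10, -2)])
                        (.br 29 0
                         (.br 18 0
                          (.br 19 0
                           (.br 23 1
                            (.br 32 0
                             (.fk [(0, -4), (1, 12), (2, 16), (3, 12), (5, 4), (6, 4), (7, 4), (8, -7), (10, 4), (11, -16), (13, 12)])
                             (.br 32 1
                              (.br 16 1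
                               (.fk [(0, 22), (1, 36), (2, 14), (3, 18), (4, 6), (5, 3), (6, 21), (7, -5), (8, -4), (10, -4), (11, 3), (13, 1)])
                               (.fk [(0, -30), (1, -24), (2, 6), (3, 18), (4, -14), (5, 4), (6, -40), (7, -7), (8, 13), (10, -11), (11, 10), (12, 1)]))
                              (.mv 95)))
                            (.fk [(0, 2), (1, 4), (2, 2), (3, 4), (5, 1), (6, -1), (7, -1), (10, -1), (12, 1)]))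
                           (.mv 77))
                          (.mv 68))
                         (.mv 13)))
                       (.mv 42))
                      (.mv 5)))
                    (.br 21 0
                     (.br 13 0
                      (.fk [(0, 2), (1, -4), (2, -6), (3, 2), (4, -2), (5, 2), (6, -4), (7, 1), (10, -3), (12, 1), (13, 2)])
                      (.mv 59))
                     (.mv 52)))
                   (.br 13 0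
                    (.fk [(1, -4), (2, -4), (3, 2), (4, -2), (5, 1), (6, -3), (7, 1), (10, -2), (13, 2)])
                    (.mv 67)))
                  (.mv 69))
                 (.mv 63))
                (.mv 9)))
              (.mv 56))
             (.mv 40))
            (.mv 8))
           (.mv 7))
          (.mv 24)))
        (.mv 4))
       (.mv 15)))
     (.br 20 0
      (.br 23 0
       (.br 21 0
        (.br 17 0
         (.br 16 0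
          (.br 19 0
           (.br 18 0
            (.br 0 0
             (.br 11 0
              (.fk [(0, -4), (2, 4), (5, 1), (6, 1), (7, -1), (8, 1)])
              (.br 22 0
               (.fk [(5, 1)])
               (.br 25 0
                (.br 10 0
                 (.fk [(0, 11), (2, 77), (3, 11), (4, 11), (5, 13), (6, 13), (7, -5), (8, -6)])
                 (.br 26 0
                  (.fk [(5, -1), (6, 1)])
                  (.mv 12)))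
                (.mv 34))))
             (.br 5 0
              (.br 11 0
               (.fk [(0, -4), (2, 4), (5, 1), (6, 1), (7, -1), (8, 1)])
               (.br 22 0
                (.fk [(5, 1)])
                (.br 25 0
                 (.br 26 0
                  (.fk [(5, -1), (6, 1)])
                  (.mv 65))
                 (.mv 34))))
              (.mv 9)))
            (.br 22 0
             (.fk [(5, 1)])
             (.mv 20)))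
           (.br 15 0
            (.br 25 0
             (.br 26 0
              (.fk [(5, -1), (6, 1)])
              (.br 10 0
               (.fk [(0, 4), (2, 28), (3, 4), (4, 4), (5, 5), (6, 5), (7, -2), (8, -2)])
               (.mv 12)))
             (.br 28 0
              (.br 4 0
               (.br 32 0
                (.fk [(5, -1), (6, -1), (7, 1), (8, -1), (11, -2), (13, 2)])
                (.br 27 0
                 (.fk [(0, 40), (1, -46), (2, 70), (3, 47), (4, -5), (5, 7), (6, -8), (7, -6), (8, -2), (9, 39), (10, 7), (11, 7), (13, 7)])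
                 (.mv 88)))
               (.mv 44))
              (.mv 19)))
            (.mv 2)))
          (.br 11 0
           (.br 19 0
            (.fk [(0, -4), (2, 4), (5, 1), (6, 1), (7, -1), (8, 1)])
            (.br 12 0
             (.br 15 0
              (.br 25 0
               (.fk [(0, -12), (2, 12), (3, 12), (4, -4), (5, -18), (6, 9), (7, -3), (8, 3)])
               (.br 28 0
                (.br 4 0
                 (.br 32 0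
                  (.fk [(5, -1), (6, -1), (7, 1), (8, -1), (11, -2), (13, 2)])
                  (.br 10 0
                   (.br 25 1
                    (.br 27 0
                     (.br 0 0
                      (.br 19 1
                       (.br 32 1
                        (.fk [(0, 5), (1, 10), (2, 65), (3, 19), (4, 7), (5, 14), (6, 5), (7, -3), (8, -7), (10, 5), (11, -7)])
                        (.br 5 0
                         (.br 13 0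
                          (.fk [(0, -7), (1, -30), (2, 109), (3, 171), (4, -45), (5, 15), (6, -28), (7, -2), (8, -7), (10, 15), (11, 15), (13, 15)])
                          (.fk [(0, 19), (1, -4), (2, 169), (3, 104), (4, -4), (5, 4), (6, 20), (7, -28), (8, 5), (10, 4), (11, 4)]))
                         (.mv 94)))
                       (.mv 92))
                      (.mv 91))
                     (.mv 88))
                    (.mv 85))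
                   (.mv 87)))
                 (.mv 44))
                (.mv 19)))
              (.mv 2))
             (.mv 45)))
           (.mv 15)))
         (.br 12 0
          (.br 25 0
           (.br 10 0
            (.br 16 0
             (.fk [(0, 16), (1, -8), (2, 120), (3, 34), (4, 10), (5, 37), (6, 37), (7, -9), (8, -9), (17, 2)])
             (.br 11 0
              (.fk [(2, 8), (3, 4), (5, 1), (6, 1), (7, -1)])
              (.mv 15)))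
            (.br 26 0
             (.fk [(6, 1)])
             (.mv 12)))
           (.br 19 0
            (.br 11 0
             (.fk [(0, -8), (2, 8), (3, 3), (4, -1), (5, 1), (6, 1), (7, -2), (8, 2)])
             (.mv 26))
            (.mv 27)))
          (.mv 6)))
        (.br 17 0
         (.br 12 0
          (.br 16 0
           (.br 6 0
            (.br 0 0
             (.br 15 0
              (.fk [(0, 4), (2, 28), (3, -32), (4, 16), (5, -5), (6, 7), (7, -7), (8, 3)])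
              (.br 11 0
               (.fk [(0, 4), (2, 28), (3, 28), (4, -4), (5, -5), (6, 7), (7, -7), (8, 3)])
               (.mv 39)))
             (.br 5 0
              (.br 32 0
               (.br 10 0
                (.fk [(0, -4), (1, 2), (2, 26), (3, 3), (4, 3), (5, 1), (6, 4), (7, 1), (8, -4), (10, 3), (11, -9), (13, 4)])
                (.br 26 0
                 (.fk [(5, -1), (6, 1), (7, 1), (8, -1), (11, -2), (13, 2)])
                 (.mv 12)))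
               (.br 25 0
                (.br 10 0
                 (.fk [(0, -9), (1, -13), (2, 54), (3, 4), (4, 4), (5, -10), (6, 13), (7, -3), (8, -1)])
                 (.br 26 0
                  (.fk [(5, -1), (6, 1)])
                  (.mv 12)))
                (.mv 90)))
              (.mv 9)))
            (.br 11 0
             (.fk [(0, -4), (2, 4), (5, -3), (6, 1), (7, -1), (8, 1)])
             (.mv 28)))
           (.br 11 0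
            (.fk [(0, -12), (2, 12), (3, 12), (4, -4), (5, -9), (6, 3), (7, -3), (8, 3)])
            (.mv 15)))
          (.mv 10))
         (.mv 5)))
       (.br 22 0
        (.br 28 0
         (.br 25 0
          (.br 21 0
           (.br 6 0
            (.br 17 0
             (.br 1 0
              (.br 16 0
               (.br 19 0
                (.fk [(5, 1), (6, -1)])
                (.br 15 0
                 (.br 32 0
                  (.fk [(5, -1), (6, -1), (7, 1), (8, -1), (11, -2), (13, 2)])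
                  (.br 10 0
                   (.fk [(0, -6), (1, -6), (2, 84), (3, -72), (4, 36), (5, 15), (6, 15), (7, -2), (8, -7)])
                   (.br 27 0
                    (.fk [(0, 24), (1, -114), (2, 66), (3, 36), (4, -16), (5, 12), (6, 12), (7, 12), (8, -9), (9, 51), (10, 12), (11, 12), (13, 63)])
                    (.mv 93))))
                 (.mv 2)))
               (.br 12 0
                (.br 11 0
                 (.br 19 0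
                  (.fk [(5, 1), (6, -1)])
                  (.br 10 0
                   (.br 15 0
                    (.br 13 0
                     (.fk [(0, -6), (1, -6), (2, 84), (3, 81), (4, -15), (5, 15), (6, 15), (7, -2), (8, -7)])
                     (.br 18 0
                      (.br 5 0
                       (.br 23 1
                        (.br 16 1
                         (.fk [(0, -18), (1, -45), (2, 279), (3, -21), (4, 43), (5, 45), (6, 45), (7, -6), (8, -21)])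
                         (.br 32 0
                          (.fk [(0, -6), (1, 8), (2, 62), (3, 17), (4, 5), (5, 7), (6, 7), (7, 7), (8, -15), (10, 7), (11, -32), (13, 20)])
                          (.br 30 0
                           (.fk [(0, -77), (1, 11), (2, 58), (3, -61), (4, 19), (5, 4), (6, 4), (7, 4), (8, -7), (9, -60), (10, 4), (11, 4), (13, 29), (17, 4)])
                           (.mv 96))))
                        (.mv 83))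
                       (.mv 70))
                      (.mv 22)))
                    (.mv 2))
                   (.mv 77)))
                 (.mv 15))
                (.mv 56)))
              (.br 5 0
               (.br 16 0
                (.br 19 0
                 (.fk [(5, 1), (6, -1)])
                 (.br 15 0
                  (.br 10 0
                   (.fk [(0, -6), (1, -15), (2, 93), (3, -72), (4, 36), (5, 15), (6, 15), (7, -2), (8, -7)])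
                   (.br 4 0
                    (.fk [(0, 12), (1, 132), (2, 120), (3, 12), (4, 40), (5, 21), (6, 21), (7, -30), (8, -3)])
                    (.mv 72)))
                  (.mv 2)))
                (.mv 40))
               (.mv 32)))
             (.br 12 0
              (.br 10 0
               (.br 13 0
                (.fk [(2, 8), (3, 4), (5, 1), (6, 1), (8, -1)])
                (.mv 37))
               (.br 19 0
                (.fk [(5, 1), (6, -1)])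
                (.mv 31)))
              (.mv 6)))
            (.br 2 0
             (.br 1 0
              (.br 13 0
               (.fk [(0, 4), (2, -4), (5, 3), (6, -3), (7, 1), (8, -1)])
               (.mv 59))
              (.mv 16))
             (.mv 43)))
           (.br 17 0
            (.br 12 0
             (.br 15 0
              (.br 6 0
               (.br 32 0
                (.fk [(5, -1), (6, -1), (7, 1), (8, -1), (11, -2), (13, 2)])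
                (.br 10 0
                 (.br 2 0
                  (.br 27 0
                   (.br 16 0
                    (.fk [(0, -252), (1, -380), (2, 824), (3, 63), (4, 11), (5, -303), (6, 120), (7, -57), (8, -32), (10, 120), (11, 120), (13, 120), (17, 65)])
                    (.br 11 0
                     (.fk [(0, -8), (2, 72), (3, 35), (4, -1), (5, 1), (6, 4), (7, -9), (10, 4), (17, 1)])
                     (.mv 15)))
                   (.mv 89))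
                  (.mv 84))
                 (.mv 86)))
               (.mv 52))
              (.mv 42))
             (.mv 10))
            (.mv 5)))
          (.mv 8))
         (.mv 7))
        (.mv 54)))
      (.mv 18)))
    (.br 23 0
     (.br 25 0
      (.br 16 0
       (.br 26 0
        (.fk [(6, 1)])
        (.br 27 0
         (.br 17 0
          (.br 28 0
           (.br 15 0
            (.br 29 0
             (.fk [(0, 53), (1, -79), (2, 42), (3, 53), (4, -15), (5, -14), (6, 11), (7, -3), (8, 1), (9, 51), (11, 17), (13, 11)])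
             (.mv 21))
            (.br 21 0
             (.br 19 0
              (.br 20 0
               (.fk [(0, -6), (2, 6), (5, -2), (6, 3), (7, -1), (8, 1), (10, 6), (11, 5), (13, 1)])
               (.mv 61))
              (.mv 2))
             (.mv 33)))
           (.mv 23))
          (.br 21 0
           (.br 28 0
            (.br 20 0
             (.br 0 0
              (.br 2 0
               (.br 15 0
                (.br 10 0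
                 (.fk [(0, -12), (1, -40), (2, -12), (3, -14), (4, -6), (5, -9), (6, -23), (7, 3), (8, 3), (10, 4), (11, 18), (13, 18), (17, 2)])
                 (.mv 12))
                (.br 19 0
                 (.fk [(0, -4), (2, 4), (5, -1), (6, -1), (7, -1), (8, 1), (10, 4), (11, 4)])
                 (.mv 2)))
               (.mv 75))
              (.mv 57))
             (.mv 47))
            (.mv 23))
           (.mv 5)))
         (.mv 58)))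
       (.br 19 0
        (.br 20 0
         (.br 11 0
          (.br 22 0
           (.br 21 0
            (.fk [(5, 1)])
            (.br 26 0
             (.fk [(5, -1), (6, 1)])
             (.mv 60)))
           (.mv 55))
          (.mv 15))
         (.mv 4))
        (.mv 29)))
      (.mv 17))
     (.mv 14)))
   (.mv 1))
  (.mv 0))

def EB10_0_0_0 : Inst where
  rows :=
   [(false, [1, 1, 1, 0, 0, 0, 0, 0, 0, 0, 0, 0, 0, 0, 0, 0, 0, 0, 0, 0, 0, 0, 0, 0, 0, 0, 0, 0, 0, 0, 0, 0, 0, -1, 0], 0),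
    (false, [0, 0, 0, 1, 1, 1, 1, 1, 0, 0, 0, 0, 0, 0, 0, 0, 0, 0, 0, 0, 0, 0, 0, 0, 0, 0, 0, 0, 0, 0, 0, 0, 0, -1, 0], 0),
    (false, [0, 0, 0, 0, 0, 0, 0, 0, 1, 1, 1, 0, 0, 0, 0, 0, 0, 0, 0, 0, 0, 0, 0, 0, 0, 0, 0, 0, 0, 0, 0, 0, 0, -1, 0], 0),
    (false, [0, 0, 0, 0, 0, 0, 0, 0, 0, 0, 0, 1, 1, 1, 0, 0, 0, 0, 0, 0, 0, 0, 0, 0, 0, 0, 0, 0, 0, 0, 0, 0, 0, 0, -1], 0),
    (false, [0, 0, 0, 0, 0, 0, 0, 0, 0, 0, 0, 0, 0, 0, 1, 1, 1, 1, 1, 0, 0, 0, 0, 0, 0, 0, 0, 0, 0, 0, 0, 0, 0, 0, -3], 0),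
    (false, [0, 0, 0, 0, 0, 0, 0, 0, 0, 0, 0, 0, 0, 0, 0, 0, 0, 0, 0, 1, 1, 1, 1, 0, 0, 0, 0, 0, 0, 0, 0, 0, 0, 0, 0], 1),
    (false, [0, 0, 0, 0, 0, 0, 0, 0, 0, 0, 0, 0, 0, 0, 0, 0, 0, 0, 0, 0, 0, 0, 0, 1, 1, 1, 1, 0, 0, 0, 0, 0, 0, 0, 0], 1),
    (false, [0, 1, 4, 4, 1, 0, 1, 4, 0, 1, 4, 0, 1, 4, 4, 1, 0, 1, 4, 1, 0, 1, 4, 1, 0, 1, 4, 0, 1, 4, 0, 0, 0, -8, -4], 2),
    (false, [4, 1, 0, 4, 1, 0, 1, 4, 4, 1, 0, 4, 1, 0, 4, 1, 0, 1, 4, 4, 1, 0, 1, 4, 1, 0, 1, 0, 1, 4, 0, 0, 0, -8, -4], 2),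
    (false, [-1, -1, -1, 1, 1, 1, 1, 1, -1, -1, -1, -1, -1, -1, 1, 1, 1, 1, 1, 0, 0, 0, 0, 0, 0, 0, 0, 1, 1, 1, -1, 0, 0, 0, 0], 0),
    (false, [1, 1, 1, -1, -1, -1, -1, -1, -1, -1, -1, 0, 0, 0, 0, 0, 0, 0, 0, 1, 1, 1, 1, 0, 0, 0, 0, 1, 1, 1, 0, -1, 0, 0, 0], 0),
    (false, [-1, 0, 1, -1, 0, 1, 0, -1, -1, 0, 1, -1, 0, 1, -1, 0, 1, 0, -1, -1, 0, 1, 0, -1, 0, 1, 0, 1, 0, -1, 0, 0, -1, 0, 0], 0),
    (true, [-1, -1, -1, -1, -1, -1, -1, -1, 1, 1, 1, 0, 0, 0, 0, 0, 0, 0, 0, 0, 0, 0, 0, 1, 1, 1, 1, 1, 1, 1, 0, 0, 0, 0, 0], 0),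
    (true, [1, 0, -1, -1, 0, 1, 0, -1, 1, 0, -1, 1, 0, -1, -1, 0, 1, 0, -1, 0, 1, 0, -1, 0, 1, 0, -1, 1, 0, -1, 0, 0, 0, 0, 0], 0),
    (true, [4, 1, 0, 16, 9, 4, 1, 0, 0, 1, 4, 1, 0, 1, 9, 4, 1, 0, 1, 4, 1, 0, 1, 1, 0, 1, 4, 0, 1, 4, 0, 0, 0, 0, 0], 1),
    (true, [0, 0, 0, 0, 0, 0, 0, 0, 0, 0, 0, 0, 0, 0, 0, 0, 0, 0, 0, 0, 0, 0, 0, 0, 0, 0, 0, 0, 0, 0, 0, 0, 0, 1, 0], 0),
    (true, [0, 0, 0, 0, 0, 0, 0, 0, 0, 0, 0, 0, 0, 0, 0, 0, 0, 0, 0, 0, 0, 0, 0, 0, 0, 0, 0, 0, 0, 0, 0, 0, 0, 0, 1], 0),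
    (true, [4, 1, 0, 16, 9, 4, 1, 0, 0, 1, 4, 1, 0, 1, 9, 4, 1, 0, 1, 4, 1, 0, 1, 1, 0, 1, 4, 0, 1, 4, 0, 0, 0, -8, -4], 2)]
  moves := EB10_moves0
  reqs := EB10_reqs0
  tree := EB10_0_0_0_tree

theorem EB10_0_0_0_ok : EB10.instOK 0 0 0 EB10_0_0_0 = true := by
  decide +kernel

def EB10_0_1_0_tree : Tree :=
  (.br 24 0
  (.br 8 0
   (.br 21 0
    (.br 9 0
     (.br 20 0
      (.br 17 0
       (.br 16 0
        (.fk [(0, 4), (1, 4), (2, 24), (3, -5), (4, 7), (5, 7), (6, -2), (7, -3), (8, 2), (17, 3)])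
        (.br 1 0
         (.br 11 0
          (.br 22 0
           (.br 12 0
            (.fk [(0, 8), (1, -4), (2, 28), (3, 13), (4, 1), (5, 4), (6, -5), (7, -2), (8, 3), (17, 5)])
            (.br 19 0
             (.fk [(5, 1)])
             (.mv 45)))
           (.br 23 0
            (.fk [(0, -4), (2, 4), (5, -3), (6, 1), (7, -1), (8, 1)])
            (.mv 24)))
          (.mv 15))
         (.br 23 0
          (.br 11 0
           (.fk [(0, -4), (2, 4), (5, -3), (6, 1), (7, -1), (8, 1)])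
           (.mv 15))
          (.mv 40))))
       (.br 12 0
        (.br 16 0
         (.br 10 0
          (.fk [(0, 6), (1, 4), (2, 38), (3, 9), (4, 5), (5, 15), (6, 4), (7, -3), (8, -2), (17, 1)])
          (.br 19 0
           (.br 22 0
            (.fk [(5, 1)])
            (.br 23 0
             (.br 11 0
              (.fk [(0, -20), (1, -4), (2, 24), (3, 21), (4, -7), (5, 6), (6, 6), (7, -5), (8, 6), (17, 1)])
              (.mv 41))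
             (.mv 82)))
           (.mv 31)))
         (.br 11 0
          (.fk [(0, 12), (1, 12), (2, 72), (3, 45), (4, 1), (5, 21), (6, -6), (7, -9), (8, 6), (17, 9)])
          (.mv 15)))
        (.mv 6)))
      (.br 31 0
       (.br 17 0
        (.br 16 0
         (.fk [(0, 8), (1, -4), (2, -4), (3, -3), (4, 1), (5, 2), (6, -3), (8, 1), (10, -6), (11, 2), (12, 2), (13, 2), (17, 1)])
         (.mv 4))
        (.br 12 0
         (.br 16 0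
          (.br 11 0
           (.fk [(0, 14), (1, -8), (2, -6), (3, 6), (4, -2), (5, 4), (6, -10), (7, -1), (8, 3), (10, -13), (11, 4), (12, 5), (13, 4), (17, 2)])
           (.mv 11))
          (.mv 4))
         (.mv 6)))
       (.mv 18)))
     (.br 23 0
      (.br 25 0
       (.br 27 0
        (.br 28 0
         (.br 16 0
          (.br 26 0
           (.fk [(6, 1)])
           (.br 10 0
            (.br 5 0
             (.fk [(0, -4), (1, 4), (5, -5), (6, -1), (7, -1), (8, 1), (10, 4), (11, 4)])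
             (.br 19 0
              (.br 20 0
               (.fk [(0, -4), (2, 4), (5, -1), (6, -1), (7, -1), (8, 1), (10, 4), (11, 4)])
               (.mv 76))
              (.mv 36)))
            (.mv 12)))
          (.br 20 0
           (.br 11 0
            (.br 19 0
             (.br 22 0
              (.fk [(5, 1)])
              (.mv 55))
             (.mv 29))
            (.mv 15))
           (.mv 4)))
         (.mv 23))
        (.br 26 0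
         (.fk [(6, 1)])
         (.mv 58)))
       (.mv 17))
      (.mv 14)))
    (.br 17 0
     (.br 12 0
      (.br 23 0
       (.br 9 0
        (.br 16 0
         (.fk [(0, 4), (1, 4), (2, 24), (3, -5), (4, 7), (5, 1), (6, 2), (7, -3), (8, 2), (17, 3)])
         (.br 11 0
          (.fk [(0, -12), (1, -16), (2, 68), (3, 41), (4, -7), (5, -4), (6, 12), (7, -8), (8, 12), (17, 9)])
          (.mv 15)))
        (.br 27 0
         (.br 25 0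
          (.br 16 0
           (.fk [(3, -3), (4, 1), (5, -5), (6, 4), (7, 1), (13, 4), (17, 1)])
           (.br 26 0
            (.fk [(5, -1), (6, 1)])
            (.mv 60)))
          (.mv 17))
         (.br 26 0
          (.br 25 0
           (.fk [(5, -1), (6, 1)])
           (.mv 17))
          (.mv 58))))
       (.br 9 0
        (.br 28 0
         (.br 25 0
          (.br 15 0
           (.br 6 0
            (.br 16 0
             (.br 31 0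
              (.fk [(0, 68), (1, -44), (2, 40), (3, -19), (4, 17), (5, 18), (6, -25), (7, -6), (8, 11), (9, 12), (10, -48), (11, 18), (13, 18), (17, 13)])
              (.br 32 0
               (.fk [(5, -1), (6, -1), (7, 1), (8, -1), (11, -2), (13, 2)])
               (.br 27 0
                (.fk [(0, 36), (1, 14), (2, 142), (3, 6), (4, 30), (5, 3), (6, 3), (7, -12), (8, 7), (9, 15), (10, 3), (11, 3), (13, 3), (17, 19)])
                (.mv 89))))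
             (.br 11 0
              (.fk [(0, 8), (1, 12), (2, 44), (3, 29), (4, 1), (5, 2), (6, -5), (7, -6), (8, 3), (17, 5)])
              (.mv 15)))
            (.mv 52))
           (.mv 42))
          (.mv 8))
         (.mv 7))
        (.mv 14)))
      (.mv 10))
     (.mv 5)))
   (.mv 1))
  (.mv 0))

def EB10_0_1_0 : Inst where
  rows :=
   [(false, [1, 1, 1, 0, 0, 0, 0, 0, 0, 0, 0, 0, 0, 0, 0, 0, 0, 0, 0, 0, 0, 0, 0, 0, 0, 0, 0, 0, 0, 0, 0, 0, 0, -1, 0], 0),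
    (false, [0, 0, 0, 1, 1, 1, 1, 1, 0, 0, 0, 0, 0, 0, 0, 0, 0, 0, 0, 0, 0, 0, 0, 0, 0, 0, 0, 0, 0, 0, 0, 0, 0, -1, 0], 0),
    (false, [0, 0, 0, 0, 0, 0, 0, 0, 1, 1, 1, 0, 0, 0, 0, 0, 0, 0, 0, 0, 0, 0, 0, 0, 0, 0, 0, 0, 0, 0, 0, 0, 0, -1, 0], 0),
    (false, [0, 0, 0, 0, 0, 0, 0, 0, 0, 0, 0, 1, 1, 1, 0, 0, 0, 0, 0, 0, 0, 0, 0, 0, 0, 0, 0, 0, 0, 0, 0, 0, 0, 0, -1], 0),
    (false, [0, 0, 0, 0, 0, 0, 0, 0, 0, 0, 0, 0, 0, 0, 1, 1, 1, 1, 1, 0, 0, 0, 0, 0, 0, 0, 0, 0, 0, 0, 0, 0, 0, 0, -3], 0),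
    (false, [0, 0, 0, 0, 0, 0, 0, 0, 0, 0, 0, 0, 0, 0, 0, 0, 0, 0, 0, 1, 1, 1, 1, 0, 0, 0, 0, 0, 0, 0, 0, 0, 0, 0, 0], 1),
    (false, [0, 0, 0, 0, 0, 0, 0, 0, 0, 0, 0, 0, 0, 0, 0, 0, 0, 0, 0, 0, 0, 0, 0, 1, 1, 1, 1, 0, 0, 0, 0, 0, 0, 0, 0], 1),
    (false, [0, 1, 4, 4, 1, 0, 1, 4, 0, 1, 4, 0, 1, 4, 4, 1, 0, 1, 4, 1, 0, 1, 4, 1, 0, 1, 4, 0, 1, 4, 0, 0, 0, -8, -4], 2),
    (false, [4, 1, 0, 4, 1, 0, 1, 4, 4, 1, 0, 4, 1, 0, 4, 1, 0, 1, 4, 4, 1, 0, 1, 4, 1, 0, 1, 0, 1, 4, 0, 0, 0, -8, -4], 2),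
    (false, [-1, -1, -1, 1, 1, 1, 1, 1, -1, -1, -1, -1, -1, -1, 1, 1, 1, 1, 1, 0, 0, 0, 0, 0, 0, 0, 0, 1, 1, 1, -1, 0, 0, 0, 0], 0),
    (false, [1, 1, 1, -1, -1, -1, -1, -1, -1, -1, -1, 0, 0, 0, 0, 0, 0, 0, 0, 1, 1, 1, 1, 0, 0, 0, 0, 1, 1, 1, 0, -1, 0, 0, 0], 0),
    (false, [-1, 0, 1, -1, 0, 1, 0, -1, -1, 0, 1, -1, 0, 1, -1, 0, 1, 0, -1, -1, 0, 1, 0, -1, 0, 1, 0, 1, 0, -1, 0, 0, -1, 0, 0], 0),
    (true, [-1, -1, -1, -1, -1, -1, -1, -1, 1, 1, 1, 0, 0, 0, 0, 0, 0, 0, 0, 0, 0, 0, 0, 1, 1, 1, 1, 1, 1, 1, 0, 0, 0, 0, 0], 0),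
    (true, [1, 0, -1, -1, 0, 1, 0, -1, 1, 0, -1, 1, 0, -1, -1, 0, 1, 0, -1, 0, 1, 0, -1, 0, 1, 0, -1, 1, 0, -1, 0, 0, 0, 0, 0], 0),
    (true, [4, 1, 0, 16, 9, 4, 1, 0, 0, 1, 4, 1, 0, 1, 9, 4, 1, 0, 1, 4, 1, 0, 1, 1, 0, 1, 4, 0, 1, 4, 0, 0, 0, 0, 0], 1),
    (true, [0, 0, 0, 0, 0, 0, 0, 0, 0, 0, 0, 0, 0, 0, 0, 0, 0, 0, 0, 0, 0, 0, 0, 0, 0, 0, 0, 0, 0, 0, 0, 0, 0, 1, 0], 0),
    (true, [0, 0, 0, 0, 0, 0, 0, 0, 0, 0, 0, 0, 0, 0, 0, 0, 0, 0, 0, 0, 0, 0, 0, 0, 0, 0, 0, 0, 0, 0, 0, 0, 0, 0, 1], 0),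
    (true, [-4, -1, 0, -16, -9, -4, -1, 0, 0, -1, -4, -1, 0, -1, -9, -4, -1, 0, -1, -4, -1, 0, -1, -1, 0, -1, -4, 0, -1, -4, 0, 0, 0, 8, 4], 0)]
  moves := EB10_moves0
  reqs := EB10_reqs0
  tree := EB10_0_1_0_tree

theorem EB10_0_1_0_ok : EB10.instOK 0 1 0 EB10_0_1_0 = true := by
  decide +kernel

def EB10_0_2_0_tree : Tree :=
  (.br 8 0
  (.br 9 0
   (.br 17 0
    (.br 16 0
     (.fk [(0, 4), (1, 4), (2, 24), (3, -5), (4, 7), (5, 1), (6, -2), (7, -3), (8, 2), (17, -3), (18, 24)])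
     (.br 20 0
      (.br 11 0
       (.br 12 0
        (.fk [(0, 4), (2, 28), (3, 16), (5, 3), (6, -5), (7, -3), (8, 3), (17, -4), (18, 36)])
        (.br 21 0
         (.br 19 0
          (.br 22 0
           (.fk [(5, 1)])
           (.mv 46))
          (.mv 45))
         (.mv 10)))
       (.mv 15))
      (.mv 4)))
    (.br 11 0
     (.br 12 0
      (.fk [(0, 12), (1, 12), (2, 72), (3, 45), (4, 1), (5, 3), (6, -6), (7, -9), (8, 6), (17, -9), (18, 72)])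
      (.mv 6))
     (.br 20 0
      (.br 21 0
       (.br 16 0
        (.br 25 0
         (.br 22 0
          (.br 24 0
           (.br 10 0
            (.fk [(0, 7), (1, -6), (2, 55), (3, 7), (4, 7), (5, 13), (6, 13), (7, -2), (8, -5), (18, 13)])
            (.br 19 0
             (.fk [(5, 1)])
             (.mv 31)))
           (.mv 0))
          (.mv 41))
         (.mv 26))
        (.mv 15))
       (.mv 5))
      (.mv 11))))
   (.br 25 0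
    (.br 23 0
     (.br 24 0
      (.br 16 0
       (.br 27 0
        (.br 17 0
         (.fk [(3, -3), (4, 1), (5, -2), (6, 5), (8, 1), (11, 2), (13, 2), (17, -1), (18, 5)])
         (.br 20 0
          (.br 21 0
           (.br 28 0
            (.fk [(0, -2), (2, 2), (5, -1), (6, 1), (10, 2), (11, 1), (13, 1), (18, 1)])
            (.mv 23))
           (.mv 5))
          (.mv 47)))
        (.br 26 0
         (.fk [(6, 1)])
         (.mv 58)))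
       (.br 20 0
        (.br 11 0
         (.br 27 0
          (.br 28 0
           (.br 12 0
            (.fk [(0, 12), (1, 12), (2, -8), (3, 8), (5, 1), (6, 3), (7, -1), (8, 1), (12, 10), (13, 2), (17, -2), (18, 3)])
            (.br 21 0
             (.br 19 0
              (.br 22 0
               (.fk [(5, 1)])
               (.mv 46))
              (.mv 29))
             (.mv 10)))
           (.mv 23))
          (.br 26 0
           (.fk [(6, 1)])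
           (.mv 58)))
         (.mv 15))
        (.mv 4)))
      (.mv 0))
     (.mv 14))
    (.mv 17)))
  (.mv 1))

def EB10_0_2_0 : Inst where
  rows :=
   [(false, [1, 1, 1, 0, 0, 0, 0, 0, 0, 0, 0, 0, 0, 0, 0, 0, 0, 0, 0, 0, 0, 0, 0, 0, 0, 0, 0, 0, 0, 0, 0, 0, 0, -1, 0], 0),
    (false, [0, 0, 0, 1, 1, 1, 1, 1, 0, 0, 0, 0, 0, 0, 0, 0, 0, 0, 0, 0, 0, 0, 0, 0, 0, 0, 0, 0, 0, 0, 0, 0, 0, -1, 0], 0),
    (false, [0, 0, 0, 0, 0, 0, 0, 0, 1, 1, 1, 0, 0, 0, 0, 0, 0, 0, 0, 0, 0, 0, 0, 0, 0, 0, 0, 0, 0, 0, 0, 0, 0, -1, 0], 0),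
    (false, [0, 0, 0, 0, 0, 0, 0, 0, 0, 0, 0, 1, 1, 1, 0, 0, 0, 0, 0, 0, 0, 0, 0, 0, 0, 0, 0, 0, 0, 0, 0, 0, 0, 0, -1], 0),
    (false, [0, 0, 0, 0, 0, 0, 0, 0, 0, 0, 0, 0, 0, 0, 1, 1, 1, 1, 1, 0, 0, 0, 0, 0, 0, 0, 0, 0, 0, 0, 0, 0, 0, 0, -3], 0),
    (false, [0, 0, 0, 0, 0, 0, 0, 0, 0, 0, 0, 0, 0, 0, 0, 0, 0, 0, 0, 1, 1, 1, 1, 0, 0, 0, 0, 0, 0, 0, 0, 0, 0, 0, 0], 1),
    (false, [0, 0, 0, 0, 0, 0, 0, 0, 0, 0, 0, 0, 0, 0, 0, 0, 0, 0, 0, 0, 0, 0, 0, 1, 1, 1, 1, 0, 0, 0, 0, 0, 0, 0, 0], 1),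
    (false, [0, 1, 4, 4, 1, 0, 1, 4, 0, 1, 4, 0, 1, 4, 4, 1, 0, 1, 4, 1, 0, 1, 4, 1, 0, 1, 4, 0, 1, 4, 0, 0, 0, -8, -4], 2),
    (false, [4, 1, 0, 4, 1, 0, 1, 4, 4, 1, 0, 4, 1, 0, 4, 1, 0, 1, 4, 4, 1, 0, 1, 4, 1, 0, 1, 0, 1, 4, 0, 0, 0, -8, -4], 2),
    (false, [-1, -1, -1, 1, 1, 1, 1, 1, -1, -1, -1, -1, -1, -1, 1, 1, 1, 1, 1, 0, 0, 0, 0, 0, 0, 0, 0, 1, 1, 1, -1, 0, 0, 0, 0], 0),
    (false, [1, 1, 1, -1, -1, -1, -1, -1, -1, -1, -1, 0, 0, 0, 0, 0, 0, 0, 0, 1, 1, 1, 1, 0, 0, 0, 0, 1, 1, 1, 0, -1, 0, 0, 0], 0),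
    (false, [-1, 0, 1, -1, 0, 1, 0, -1, -1, 0, 1, -1, 0, 1, -1, 0, 1, 0, -1, -1, 0, 1, 0, -1, 0, 1, 0, 1, 0, -1, 0, 0, -1, 0, 0], 0),
    (true, [-1, -1, -1, -1, -1, -1, -1, -1, 1, 1, 1, 0, 0, 0, 0, 0, 0, 0, 0, 0, 0, 0, 0, 1, 1, 1, 1, 1, 1, 1, 0, 0, 0, 0, 0], 0),
    (true, [1, 0, -1, -1, 0, 1, 0, -1, 1, 0, -1, 1, 0, -1, -1, 0, 1, 0, -1, 0, 1, 0, -1, 0, 1, 0, -1, 1, 0, -1, 0, 0, 0, 0, 0], 0),
    (true, [4, 1, 0, 16, 9, 4, 1, 0, 0, 1, 4, 1, 0, 1, 9, 4, 1, 0, 1, 4, 1, 0, 1, 1, 0, 1, 4, 0, 1, 4, 0, 0, 0, 0, 0], 1),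
    (true, [0, 0, 0, 0, 0, 0, 0, 0, 0, 0, 0, 0, 0, 0, 0, 0, 0, 0, 0, 0, 0, 0, 0, 0, 0, 0, 0, 0, 0, 0, 0, 0, 0, 1, 0], 0),
    (true, [0, 0, 0, 0, 0, 0, 0, 0, 0, 0, 0, 0, 0, 0, 0, 0, 0, 0, 0, 0, 0, 0, 0, 0, 0, 0, 0, 0, 0, 0, 0, 0, 0, 0, 1], 0),
    (false, [4, 1, 0, 16, 9, 4, 1, 0, 0, 1, 4, 1, 0, 1, 9, 4, 1, 0, 1, 4, 1, 0, 1, 1, 0, 1, 4, 0, 1, 4, 0, 0, 0, -8, -4], 1),
    (true, [0, 0, 0, 1, 1, 0, 0, 0, 0, 0, 0, 0, 0, 0, 1, 0, 0, 0, 0, 0, 0, 0, 0, 0, 0, 0, 0, 0, 0, 0, 0, 0, 0, 0, 0], 1)]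
  moves := EB10_moves0
  reqs := EB10_reqs0
  tree := EB10_0_2_0_tree

theorem EB10_0_2_0_ok : EB10.instOK 0 2 0 EB10_0_2_0 = true := by
  decide +kernel

def EB10_0_3_0_tree : Tree :=
  (.br 8 0
  (.br 23 0
   (.br 25 0
    (.br 16 0
     (.br 24 0
      (.br 5 0
       (.br 10 0
        (.br 15 0
         (.fk [(3, -3), (4, 1), (6, -1), (8, 1), (11, 4), (17, -1), (18, 4)])
         (.br 19 0
          (.br 18 0
           (.fk [(3, -3), (4, 1), (6, 3), (8, 3), (11, 6), (17, -3), (18, 6)])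
           (.br 13 0
            (.fk [(8, 1), (11, 3), (17, -1), (18, 3)])
            (.mv 22)))
          (.mv 2)))
        (.br 26 0
         (.fk [(6, 1)])
         (.mv 12)))
       (.br 0 0
        (.br 18 0
         (.fk [(3, -21), (4, 7), (5, -9), (6, 18), (7, -3), (8, 12), (11, 18), (17, -9), (18, 18)])
         (.br 1 0
          (.fk [(0, 6), (1, 2), (3, -2), (4, 2), (6, 2), (7, -1), (8, 1), (11, 1), (12, 1), (17, -1), (18, 2)])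
          (.br 26 0
           (.fk [(6, 1)])
           (.mv 66))))
        (.mv 9)))
      (.mv 0))
     (.br 11 0
      (.br 24 0
       (.br 13 0
        (.br 5 0
         (.br 18 0
          (.br 29 0
           (.br 10 0
            (.fk [(3, 6), (4, -2), (5, -3), (6, -1), (7, 1), (8, 3), (11, 6), (17, -4), (18, 10)])
            (.br 26 0
             (.fk [(6, 1)])
             (.mv 12)))
           (.br 26 0
            (.fk [(6, 1)])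
            (.mv 21)))
          (.br 22 0
           (.br 10 0
            (.br 29 0
             (.fk [(3, 6), (4, -2), (5, -1), (6, -5), (7, 1), (8, 1), (11, 4), (17, -2), (18, 8)])
             (.br 26 0
              (.fk [(6, 1)])
              (.mv 21)))
            (.br 26 0
             (.fk [(6, 1)])
             (.mv 12)))
           (.mv 20)))
         (.br 0 0
          (.br 12 0
           (.fk [(3, 9), (4, -3), (5, -1), (6, 2), (8, 1), (11, 1), (13, 1), (17, -1), (18, 2)])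
           (.br 19 0
            (.fk [(5, -1), (6, 3), (7, -1), (8, 1)])
            (.mv 25)))
          (.mv 9)))
        (.br 22 0
         (.br 18 0
          (.br 7 0
           (.fk [(6, 1), (8, 1), (11, 1), (17, -1), (18, 1)])
           (.br 26 0
            (.fk [(6, 1)])
            (.mv 50)))
          (.mv 22))
         (.mv 3)))
       (.mv 0))
      (.mv 15)))
    (.br 9 0
     (.br 18 0
      (.br 28 0
       (.br 16 0
        (.fk [(1, -2), (2, 2), (3, -3), (4, 1), (6, -4), (8, 2), (11, 3), (17, -2), (18, 3)])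
        (.br 20 0
         (.br 11 0
          (.fk [(0, -4), (1, -8), (2, 28), (3, 2), (4, 2), (5, -1), (6, -1), (7, 1), (8, 5), (10, 4), (13, 4), (17, -8), (18, 8)])
          (.mv 15))
         (.mv 4)))
       (.mv 19))
      (.br 20 0
       (.br 16 0
        (.br 6 0
         (.fk [(1, 12), (2, 20), (3, -2), (4, 6), (5, 3), (6, -1), (7, -1), (8, 1), (10, 4), (13, 2), (17, -4), (18, 6)])
         (.br 0 0
          (.fk [(1, 4), (2, 12), (3, -4), (4, 4), (5, -1), (6, -1), (7, -1), (8, 1), (10, 2), (13, 2), (17, -2), (18, 4)])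
          (.mv 51)))
        (.br 11 0
         (.fk [(1, 4), (2, 12), (3, 2), (4, 2), (5, 1), (6, 1), (7, -1), (8, 1), (10, 2), (17, -2), (18, 2)])
         (.mv 15)))
       (.mv 30)))
     (.mv 17)))
   (.br 9 0
    (.br 28 0
     (.br 16 0
      (.br 1 0
       (.br 6 0
        (.fk [(0, 20), (1, 12), (2, 16), (3, 9), (4, 5), (5, 5), (6, -6), (7, -1), (9, 4), (12, 4), (17, -5), (18, 8)])
        (.br 2 0
         (.fk [(0, 2), (1, 2), (2, 4), (3, 1), (4, 1), (10, 1), (17, -1), (18, 1)])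
         (.mv 43)))
       (.br 6 0
        (.br 5 0
         (.fk [(0, 4), (1, 24), (2, 4), (3, 4), (4, 4), (5, -5), (6, 1), (7, 3), (8, -3), (13, 12), (17, -4), (18, 12)])
         (.mv 32))
        (.mv 16)))
      (.br 20 0
       (.br 22 0
        (.br 11 0
         (.br 1 0
          (.fk [(0, 10), (1, 8), (2, 14), (3, 4), (4, 4), (5, 4), (6, -6), (7, -1), (8, 1), (10, 1), (12, 3), (17, -4), (18, 4)])
          (.mv 40))
         (.mv 15))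
        (.mv 24))
       (.mv 4)))
     (.mv 7))
    (.mv 14)))
  (.mv 1))

def EB10_0_3_0 : Inst where
  rows :=
   [(false, [1, 1, 1, 0, 0, 0, 0, 0, 0, 0, 0, 0, 0, 0, 0, 0, 0, 0, 0, 0, 0, 0, 0, 0, 0, 0, 0, 0, 0, 0, 0, 0, 0, -1, 0], 0),
    (false, [0, 0, 0, 1, 1, 1, 1, 1, 0, 0, 0, 0, 0, 0, 0, 0, 0, 0, 0, 0, 0, 0, 0, 0, 0, 0, 0, 0, 0, 0, 0, 0, 0, -1, 0], 0),
    (false, [0, 0, 0, 0, 0, 0, 0, 0, 1, 1, 1, 0, 0, 0, 0, 0, 0, 0, 0, 0, 0, 0, 0, 0, 0, 0, 0, 0, 0, 0, 0, 0, 0, -1, 0], 0),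
    (false, [0, 0, 0, 0, 0, 0, 0, 0, 0, 0, 0, 1, 1, 1, 0, 0, 0, 0, 0, 0, 0, 0, 0, 0, 0, 0, 0, 0, 0, 0, 0, 0, 0, 0, -1], 0),
    (false, [0, 0, 0, 0, 0, 0, 0, 0, 0, 0, 0, 0, 0, 0, 1, 1, 1, 1, 1, 0, 0, 0, 0, 0, 0, 0, 0, 0, 0, 0, 0, 0, 0, 0, -3], 0),
    (false, [0, 0, 0, 0, 0, 0, 0, 0, 0, 0, 0, 0, 0, 0, 0, 0, 0, 0, 0, 1, 1, 1, 1, 0, 0, 0, 0, 0, 0, 0, 0, 0, 0, 0, 0], 1),
    (false, [0, 0, 0, 0, 0, 0, 0, 0, 0, 0, 0, 0, 0, 0, 0, 0, 0, 0, 0, 0, 0, 0, 0, 1, 1, 1, 1, 0, 0, 0, 0, 0, 0, 0, 0], 1),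
    (false, [0, 1, 4, 4, 1, 0, 1, 4, 0, 1, 4, 0, 1, 4, 4, 1, 0, 1, 4, 1, 0, 1, 4, 1, 0, 1, 4, 0, 1, 4, 0, 0, 0, -8, -4], 2),
    (false, [4, 1, 0, 4, 1, 0, 1, 4, 4, 1, 0, 4, 1, 0, 4, 1, 0, 1, 4, 4, 1, 0, 1, 4, 1, 0, 1, 0, 1, 4, 0, 0, 0, -8, -4], 2),
    (false, [-1, -1, -1, 1, 1, 1, 1, 1, -1, -1, -1, -1, -1, -1, 1, 1, 1, 1, 1, 0, 0, 0, 0, 0, 0, 0, 0, 1, 1, 1, -1, 0, 0, 0, 0], 0),
    (false, [1, 1, 1, -1, -1, -1, -1, -1, -1, -1, -1, 0, 0, 0, 0, 0, 0, 0, 0, 1, 1, 1, 1, 0, 0, 0, 0, 1, 1, 1, 0, -1, 0, 0, 0], 0),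
    (false, [-1, 0, 1, -1, 0, 1, 0, -1, -1, 0, 1, -1, 0, 1, -1, 0, 1, 0, -1, -1, 0, 1, 0, -1, 0, 1, 0, 1, 0, -1, 0, 0, -1, 0, 0], 0),
    (true, [-1, -1, -1, -1, -1, -1, -1, -1, 1, 1, 1, 0, 0, 0, 0, 0, 0, 0, 0, 0, 0, 0, 0, 1, 1, 1, 1, 1, 1, 1, 0, 0, 0, 0, 0], 0),
    (true, [1, 0, -1, -1, 0, 1, 0, -1, 1, 0, -1, 1, 0, -1, -1, 0, 1, 0, -1, 0, 1, 0, -1, 0, 1, 0, -1, 1, 0, -1, 0, 0, 0, 0, 0], 0),
    (true, [4, 1, 0, 16, 9, 4, 1, 0, 0, 1, 4, 1, 0, 1, 9, 4, 1, 0, 1, 4, 1, 0, 1, 1, 0, 1, 4, 0, 1, 4, 0, 0, 0, 0, 0], 1),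
    (true, [0, 0, 0, 0, 0, 0, 0, 0, 0, 0, 0, 0, 0, 0, 0, 0, 0, 0, 0, 0, 0, 0, 0, 0, 0, 0, 0, 0, 0, 0, 0, 0, 0, 1, 0], 0),
    (true, [0, 0, 0, 0, 0, 0, 0, 0, 0, 0, 0, 0, 0, 0, 0, 0, 0, 0, 0, 0, 0, 0, 0, 0, 0, 0, 0, 0, 0, 0, 0, 0, 0, 0, 1], 0),
    (false, [4, 1, 0, 16, 9, 4, 1, 0, 0, 1, 4, 1, 0, 1, 9, 4, 1, 0, 1, 4, 1, 0, 1, 1, 0, 1, 4, 0, 1, 4, 0, 0, 0, -8, -4], 1),
    (true, [1, 0, -1, 0, 0, 1, 0, -1, -1, 0, 1, 0, -1, 0, 0, 1, 0, -1, 0, 1, 0, -1, 0, 0, -1, 0, 1, -1, 0, 1, 0, 0, 0, 0, 0], 1)]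
  moves := EB10_moves0
  reqs := EB10_reqs0
  tree := EB10_0_3_0_tree

theorem EB10_0_3_0_ok : EB10.instOK 0 3 0 EB10_0_3_0 = true := by
  decide +kernel

theorem EB10_ok0 : ∀ b ∈ EB10.branches, ∃ I : Inst, EB10.instOK 0 b.1 b.2 I = true := by
  intro b hb
  have h : b = (0, 0) ∨ b = (1, 0) ∨ b = (2, 0) ∨ b = (3, 0) := by
    have hb2 : b ∈ [(0, 0), (1, 0), (2, 0), (3, 0)] := hb
    simpa using hb2
  rcases h with rfl | rfl | rfl | rfl
  · exact ⟨EB10_0_0_0, EB10_0_0_0_ok⟩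
  · exact ⟨EB10_0_1_0, EB10_0_1_0_ok⟩
  · exact ⟨EB10_0_2_0, EB10_0_2_0_ok⟩
  · exact ⟨EB10_0_3_0, EB10_0_3_0_ok⟩

def EB10_moves1 : List Move :=
   [([((0, 1, 0), -1)], 0),
    ([((0, 2, 0), -2)], 0),
    ([((1, 0, 1), 1), ((1, 1, 1), 0)], 0),
    ([((0, 2, 2), 1), ((0, 1, 2), 2)], 0),
    ([((1, 2, 0), 1), ((1, 1, 0), 2)], 0),
    ([((0, 1, -1), 0), ((0, 0, 1), -1)], 0),
    ([((1, 2, 2), 0), ((1, 0, 2), 2)], 0),
    ([((0, 1, -1), -1), ((0, 1, 1), -1)], 0),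
    ([((0, 2, 2), 0), ((0, 0, 2), 2)], 0),
    ([((2, 2, 1), 0), ((2, 0, 1), 2)], 0),
    ([((0, 2, 1), 0), ((0, 0, 1), 2)], 0),
    ([((1, 2, 2), 1), ((1, 1, 2), 2)], 0),
    ([((1, 2, 1), 0), ((1, 0, 1), 2)], 0),
    ([((0, 2, 1), 1), ((0, 1, 1), 2)], 0),
    ([((0, 1, 2), 0), ((0, 0, 2), 1)], 0),
    ([((1, 0, -1), 1), ((1, 1, -1), 0)], 0),
    ([((2, 2, 0), 0), ((2, 0, 0), 2)], 0),
    ([((2, 2, 2), 0), ((2, 0, 2), 2)], 0),
    ([((0, 2, 1), -1), ((0, 1, -1), -2)], 0),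
    ([((1, 0, 2), 1), ((1, 1, 2), 0)], 0),
    ([((1, 2, 1), 1), ((1, 1, 1), 2)], 0),
    ([((1, 2, 0), 0), ((1, 0, 0), 2)], 0),
    ([((1, 0, 0), 1), ((1, 1, 0), 0)], 0),
    ([((0, 1, 1), 0), ((0, 0, 1), 1)], 0),
    ([((0, 2, 2), 0), ((1, 0, 2), 2), ((1, 1, 0), -1)], 0),
    ([((1, 2, 0), 0), ((1, 0, 1), 2), ((0, 1, 1), -1)], 0),
    ([((2, 0, -1), 1), ((1, 1, -1), -1), ((0, 1, 1), 0)], 0),
    ([((2, 2, 2), 0), ((2, 0, 1), 2), ((0, 1, -1), -1)], 0),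
    ([((0, 2, 1), 0), ((1, 0, 0), -1), ((1, 1, 2), 2)], 0),
    ([((1, 0, 2), 1), ((1, 1, 0), 0), ((0, 1, 1), -1)], 0),
    ([((2, 2, 1), 0), ((2, 0, 0), 2), ((0, 1, -1), -1)], 0),
    ([((2, 0, -1), 1), ((1, 1, 0), -1), ((0, 1, -1), 0)], 0),
    ([((2, 0, 1), 2), ((1, 2, 0), -1), ((1, 1, 2), 0)], 0),
    ([((0, 2, 1), 0), ((1, 0, 2), 2), ((1, 1, 1), -1)], 0),
    ([((2, 0, 2), 1), ((1, 1, 0), -1), ((0, 1, 2), 0)], 0),
    ([((2, 2, 0), 1), ((1, 0, 1), 2), ((0, 1, 2), 0)], 0),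
    ([((1, 2, 2), 0), ((1, 0, 1), 2), ((0, 1, -1), -1)], 0),
    ([((1, 2, 0), 1), ((1, 0, 1), 2), ((1, 1, 2), 0)], 0),
    ([((2, 0, 1), 2), ((1, 2, 0), 0), ((1, 1, 1), -1)], 0),
    ([((0, 2, 1), 0), ((1, 0, 1), 2), ((1, 1, 0), -1)], 0),
    ([((2, 0, 0), 1), ((1, 1, -1), -1), ((0, 1, 2), 0)], 0),
    ([((1, 0, -1), 1), ((1, 1, 1), 0), ((0, 1, -1), -1)], 0),
    ([((1, 0, 1), 1), ((1, 1, -1), 0), ((0, 1, 1), -1)], 0),
    ([((0, 2, 1), 0), ((1, 0, -2), -1), ((1, 1, 0), 2)], 0),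
    ([((2, 2, 1), 0), ((2, 0, 2), 2), ((0, 1, 1), -1)], 0),
    ([((2, 2, 1), 1), ((1, 0, 1), 2), ((0, 1, 1), 0)], 0),
    ([((2, 2, 1), 1), ((1, 0, 0), 2), ((0, 1, -1), 0)], 0),
    ([((1, 0, 0), 1), ((1, 1, 2), 0), ((0, 1, -1), -1)], 0),
    ([((0, 2, 1), 0), ((1, 0, 0), 2), ((1, 1, -1), -1)], 0),
    ([((1, 2, 0), 1), ((1, 1, 2), 2), ((0, 1, 1), -1)], 0),
    ([((0, 2, 1), 0), ((1, 0, -1), -1), ((1, 1, 1), 2)], 0),
    ([((0, 2, 2), 0), ((1, 0, -2), -1), ((1, 1, 2), 2)], 0),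
    ([((1, 2, 1), 0), ((1, 0, 2), 1), ((1, 1, 0), 2)], 0),
    ([((2, 0, -1), 1), ((1, 2, 0), 0), ((0, 1, 1), 2)], 0),
    ([((2, 0, 1), 1), ((1, 2, 2), 0), ((0, 1, -1), -2)], 0),
    ([((1, 1, 1), 0)], 1),
    ([((1, 2, 1), 1), ((1, 0, 0), 2), ((1, 1, -1), 0)], 0),
    ([((1, 2, 1), 0), ((1, 0, 0), 2), ((0, 1, -1), -1)], 0),
    ([((2, 0, 1), 1), ((1, 1, 0), -1), ((0, 1, 1), 0)], 0),
    ([((0, 1, -1), -1), ((0, 1, 2), 0), ((0, 0, 0), -1)], 0),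
    ([((0, 2, 1), 0), ((0, 1, 2), 2), ((0, 0, 0), -1)], 0),
    ([((2, 0, 1), 1), ((1, 1, 1), -1), ((0, 1, -1), 0)], 0),
    ([((2, 0, -1), 1), ((1, 2, 1), 0), ((0, 1, -1), -2)], 0),
    ([((1, 2, 2), 1), ((1, 1, 0), 2), ((0, 1, -1), -1)], 0),
    ([((1, 2, 0), 0), ((1, 0, -1), 1), ((1, 1, 1), 2)], 0),
    ([((0, 2, 2), 0), ((1, 0, 1), 2), ((1, 1, -1), -1)], 0),
    ([((2, 2, 0), 0), ((2, 0, 1), 2), ((0, 1, 1), -1)], 0),
    ([((1, 2, 1), 0), ((1, 0, 2), 2), ((0, 1, 1), -1)], 0),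
    ([((2, 0, 2), 2), ((1, 2, 1), 0), ((1, 1, 0), -1), ((0, 1, 1), -1)], 0),
    ([((0, 2, 1), 1), ((1, 0, -1), 1), ((1, 1, 0), 0), ((0, 1, 2), 2)], 0),
    ([((0, 2, 1), 1), ((1, 0, 0), 1), ((1, 1, 1), 0), ((0, 1, 2), 2)], 0),
    ([((2, 2, 1), 0), ((0, 2, 1), 0), ((1, 0, 1), 2), ((1, 0, 1), 2)], 0),
    ([((2, 2, 1), 1), ((0, 2, 2), 0), ((1, 0, 1), 2), ((0, 1, -1), -2)], 0),
    ([((2, 2, 0), 0), ((2, 0, 2), 2), ((0, 2, 2), 0), ((0, 0, 0), -2)], 0),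
    ([((2, 2, 0), 0), ((2, 0, -1), 1), ((1, 0, 0), 2), ((0, 1, -1), 0)], 0),
    ([((2, 2, 0), 1), ((1, 0, -1), 1), ((1, 1, 2), 2), ((0, 1, 1), 0)], 0),
    ([((2, 2, 0), 1), ((1, 0, 1), 1), ((1, 1, 0), 2), ((0, 1, 1), 0)], 0),
    ([((2, 0, 1), 1), ((0, 2, 2), 0), ((1, 1, 0), -1), ((0, 1, -1), -2)], 0),
    ([((2, 0, 0), 1), ((1, 0, -1), -1), ((1, 1, 0), 0), ((0, 1, 1), 0)], 0),
    ([((2, 0, 0), 1), ((1, 0, -1), -1), ((1, 1, 2), 0), ((0, 1, -1), 0)], 0),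
    ([((2, 0, 1), 1), ((1, 2, 1), 0), ((0, 1, -1), 0), ((0, 0, 0), -2)], 0),
    ([((2, 0, -1), 1), ((0, 2, 2), 0), ((1, 1, -1), -1), ((0, 1, -1), -2)], 0),
    ([((2, 0, -1), 1), ((1, 2, 0), 1), ((1, 1, 2), 0), ((0, 1, -1), -2)], 0),
    ([((2, 0, -1), 1), ((1, 2, 0), 0), ((0, 1, -1), 0), ((0, 0, 0), -2)], 0),
    ([((2, 2, 2), 1), ((0, 2, 1), 0), ((1, 0, 1), 2), ((0, 1, 2), 2)], 0),
    ([((2, 2, 2), 1), ((1, 0, -1), 1), ((1, 1, 2), 2), ((0, 1, -1), 0)], 0),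
    ([((2, 2, 2), 1), ((1, 0, 1), 1), ((1, 1, 0), 2), ((0, 1, -1), 0)], 0),
    ([((2, 0, -1), 1), ((1, 0, -2), -1), ((1, 1, 0), 0), ((0, 1, 1), 0)], 0),
    ([((1, 0, 1), 1), ((1, 1, 2), 0), ((0, 1, -1), 0), ((0, 0, 0), -1)], 0),
    ([((0, 2, 2), 0), ((0, 1, -1), -1), ((0, 1, -1), -1), ((0, 0, 0), -2)], 0),
    ([((1, 2, 1), 1), ((1, 0, -1), -1), ((1, 0, -1), 1)], 1),
    ([((1, 0, -1), -1), ((0, 1, 1), 0), ((0, 1, 1), 0)], 1),
    ([((1, 0, -1), 1), ((1, 1, 0), 0), ((0, 1, 1), 0), ((0, 0, 2), 1)], 0),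
    ([((1, 0, -1), 1), ((1, 1, 0), 0), ((1, 1, 0), 0)], 1),
    ([((1, 0, 0), -1), ((0, 1, -1), 0), ((0, 1, 2), 0)], 1),
    ([((0, 2, 2), 0), ((1, 0, 1), 2), ((1, 1, 0), -1), ((0, 1, -1), -1)], 0),
    ([((0, 2, 2), 1), ((1, 0, -1), -1), ((1, 1, 0), 2), ((0, 1, -1), 0)], 0),
    ([((0, 2, 2), 0), ((1, 0, 0), 2), ((1, 1, -1), -1), ((0, 1, -1), -1)], 0),
    ([((0, 2, 2), 0), ((1, 0, -2), -1), ((1, 1, 0), 2), ((0, 1, -1), -1)], 0),
    ([((1, 1, -1), 0), ((0, 1, 1), -1)], 1),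
    ([((0, 2, 2), 1), ((1, 0, 1), -1), ((1, 1, 2), 2), ((0, 1, -1), 0)], 0),
    ([((2, 2, 2), 1), ((1, 1, 0), 2), ((0, 1, -1), 0)], 1),
    ([((1, 1, 2), 0), ((0, 1, -1), 0), ((0, 0, 0), -1)], 1),
    ([((1, 1, 0), 0), ((0, 1, 1), 0), ((0, 0, 0), -1)], 1),
    ([((0, 2, 2), 1), ((1, 1, 0), 0), ((0, 1, 1), 2)], 1),
    ([((0, 2, 2), 1), ((1, 1, 2), 0), ((0, 1, -1), -2)], 1),
    ([((2, 2, 0), 1), ((1, 1, 0), 2), ((0, 1, 1), 0)], 1)]

def EB10_reqs1 : List (List ℤ) :=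
   [[0, 0, 0, 0, 0, 0, 0, 0, 0, 0, 0, 0, 0, 0, 0, 0, 0, 0, 0, 0, 0, 0, 0, 0, 1, 0, 0, 0, 0, 0, 0, 0, 0, 0, 0],
    [0, 0, 0, 0, 0, 0, 0, 0, 1, 0, 0, 0, 0, 0, 0, 0, 0, 0, 0, 0, 0, 0, 0, 0, 0, 0, 0, 0, 0, 0, 0, 0, 0, 0, 0],
    [0, 0, 0, 0, 0, 0, 0, 0, 0, 0, 0, 0, 0, 0, 0, 0, 0, 1, 0, 0, 0, 1, 0, 0, 0, 0, 0, 0, 0, 0, 0, 0, 0, 0, 0],
    [0, 0, 0, 0, 0, 0, 0, 0, 0, 0, 1, 0, 0, 0, 0, 0, 0, 0, 0, 0, 0, 0, 0, 0, 0, 0, 1, 0, 0, 0, 0, 0, 0, 0, 0],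
    [0, 0, 0, 0, 0, 0, 0, 0, 0, 0, 0, 1, 0, 0, 0, 0, 0, 0, 0, 0, 1, 0, 0, 0, 0, 0, 0, 0, 0, 0, 0, 0, 0, 0, 0],
    [0, 0, 0, 0, 0, 0, 0, 0, 0, 0, 0, 0, 0, 0, 0, 0, 0, 0, 0, 0, 0, 0, 0, 1, 0, 0, 0, 0, 1, 0, 0, 0, 0, 0, 0],
    [0, 0, 0, 0, 0, 0, 0, 0, 0, 0, 0, 0, 0, 1, 0, 0, 0, 0, 1, 0, 0, 0, 0, 0, 0, 0, 0, 0, 0, 0, 0, 0, 0, 0, 0],
    [0, 0, 0, 0, 0, 0, 0, 0, 0, 0, 0, 0, 0, 0, 0, 0, 0, 0, 0, 0, 0, 0, 0, 1, 0, 1, 0, 0, 0, 0, 0, 0, 0, 0, 0],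
    [0, 0, 0, 0, 0, 0, 0, 0, 0, 0, 1, 0, 0, 0, 0, 0, 0, 0, 0, 0, 0, 0, 0, 0, 0, 0, 0, 0, 0, 1, 0, 0, 0, 0, 0],
    [0, 1, 0, 0, 0, 0, 1, 0, 0, 0, 0, 0, 0, 0, 0, 0, 0, 0, 0, 0, 0, 0, 0, 0, 0, 0, 0, 0, 0, 0, 0, 0, 0, 0, 0],
    [0, 0, 0, 0, 0, 0, 0, 0, 0, 1, 0, 0, 0, 0, 0, 0, 0, 0, 0, 0, 0, 0, 0, 0, 0, 0, 0, 0, 1, 0, 0, 0, 0, 0, 0],
    [0, 0, 0, 0, 0, 0, 0, 0, 0, 0, 0, 0, 0, 1, 0, 0, 0, 0, 0, 0, 0, 0, 1, 0, 0, 0, 0, 0, 0, 0, 0, 0, 0, 0, 0],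
    [0, 0, 0, 0, 0, 0, 0, 0, 0, 0, 0, 0, 1, 0, 0, 0, 0, 1, 0, 0, 0, 0, 0, 0, 0, 0, 0, 0, 0, 0, 0, 0, 0, 0, 0],
    [0, 0, 0, 0, 0, 0, 0, 0, 0, 1, 0, 0, 0, 0, 0, 0, 0, 0, 0, 0, 0, 0, 0, 0, 0, 1, 0, 0, 0, 0, 0, 0, 0, 0, 0],
    [0, 0, 0, 0, 0, 0, 0, 0, 0, 0, 0, 0, 0, 0, 0, 0, 0, 0, 0, 0, 0, 0, 0, 0, 0, 0, 1, 0, 0, 1, 0, 0, 0, 0, 0],
    [0, 0, 0, 0, 0, 0, 0, 0, 0, 0, 0, 0, 0, 0, 0, 1, 0, 0, 0, 1, 0, 0, 0, 0, 0, 0, 0, 0, 0, 0, 0, 0, 0, 0, 0],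
    [1, 0, 0, 0, 0, 1, 0, 0, 0, 0, 0, 0, 0, 0, 0, 0, 0, 0, 0, 0, 0, 0, 0, 0, 0, 0, 0, 0, 0, 0, 0, 0, 0, 0, 0],
    [0, 0, 1, 0, 0, 0, 0, 1, 0, 0, 0, 0, 0, 0, 0, 0, 0, 0, 0, 0, 0, 0, 0, 0, 0, 0, 0, 0, 0, 0, 0, 0, 0, 0, 0],
    [0, 0, 0, 0, 0, 0, 0, 0, 0, 1, 0, 0, 0, 0, 0, 0, 0, 0, 0, 0, 0, 0, 0, 1, 0, 0, 0, 0, 0, 0, 0, 0, 0, 0, 0],
    [0, 0, 0, 0, 0, 0, 0, 0, 0, 0, 0, 0, 0, 0, 0, 0, 0, 0, 1, 0, 0, 0, 1, 0, 0, 0, 0, 0, 0, 0, 0, 0, 0, 0, 0],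
    [0, 0, 0, 0, 0, 0, 0, 0, 0, 0, 0, 0, 1, 0, 0, 0, 0, 0, 0, 0, 0, 1, 0, 0, 0, 0, 0, 0, 0, 0, 0, 0, 0, 0, 0],
    [0, 0, 0, 0, 0, 0, 0, 0, 0, 0, 0, 1, 0, 0, 0, 0, 1, 0, 0, 0, 0, 0, 0, 0, 0, 0, 0, 0, 0, 0, 0, 0, 0, 0, 0],
    [0, 0, 0, 0, 0, 0, 0, 0, 0, 0, 0, 0, 0, 0, 0, 0, 1, 0, 0, 0, 1, 0, 0, 0, 0, 0, 0, 0, 0, 0, 0, 0, 0, 0, 0],
    [0, 0, 0, 0, 0, 0, 0, 0, 0, 0, 0, 0, 0, 0, 0, 0, 0, 0, 0, 0, 0, 0, 0, 0, 0, 1, 0, 0, 1, 0, 0, 0, 0, 0, 0],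
    [0, 0, 0, 0, 0, 0, 0, 0, 0, 0, 1, 0, 0, 0, 0, 0, 0, 0, 1, 0, 1, 0, 0, 0, 0, 0, 0, 0, 0, 0, 0, 0, 0, 0, 0],
    [0, 0, 0, 0, 0, 0, 0, 0, 0, 0, 0, 1, 0, 0, 0, 0, 0, 1, 0, 0, 0, 0, 0, 0, 0, 1, 0, 0, 0, 0, 0, 0, 0, 0, 0],
    [0, 0, 0, 0, 1, 0, 0, 0, 0, 0, 0, 0, 0, 0, 0, 0, 0, 0, 0, 1, 0, 0, 0, 0, 0, 1, 0, 0, 0, 0, 0, 0, 0, 0, 0],
    [0, 0, 1, 0, 0, 0, 1, 0, 0, 0, 0, 0, 0, 0, 0, 0, 0, 0, 0, 0, 0, 0, 0, 1, 0, 0, 0, 0, 0, 0, 0, 0, 0, 0, 0],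
    [0, 0, 0, 0, 0, 0, 0, 0, 0, 1, 0, 0, 0, 0, 0, 0, 1, 0, 0, 0, 0, 0, 1, 0, 0, 0, 0, 0, 0, 0, 0, 0, 0, 0, 0],
    [0, 0, 0, 0, 0, 0, 0, 0, 0, 0, 0, 0, 0, 0, 0, 0, 0, 0, 1, 0, 1, 0, 0, 0, 0, 1, 0, 0, 0, 0, 0, 0, 0, 0, 0],
    [0, 1, 0, 0, 0, 1, 0, 0, 0, 0, 0, 0, 0, 0, 0, 0, 0, 0, 0, 0, 0, 0, 0, 1, 0, 0, 0, 0, 0, 0, 0, 0, 0, 0, 0],
    [0, 0, 0, 0, 1, 0, 0, 0, 0, 0, 0, 0, 0, 0, 0, 0, 0, 0, 0, 0, 1, 0, 0, 1, 0, 0, 0, 0, 0, 0, 0, 0, 0, 0, 0],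
    [0, 0, 0, 0, 0, 0, 1, 0, 0, 0, 0, 1, 0, 0, 0, 0, 0, 0, 0, 0, 0, 0, 1, 0, 0, 0, 0, 0, 0, 0, 0, 0, 0, 0, 0],
    [0, 0, 0, 0, 0, 0, 0, 0, 0, 1, 0, 0, 0, 0, 0, 0, 0, 0, 1, 0, 0, 1, 0, 0, 0, 0, 0, 0, 0, 0, 0, 0, 0, 0, 0],
    [0, 0, 0, 0, 0, 0, 0, 1, 0, 0, 0, 0, 0, 0, 0, 0, 0, 0, 0, 0, 1, 0, 0, 0, 0, 0, 1, 0, 0, 0, 0, 0, 0, 0, 0],
    [1, 0, 0, 0, 0, 0, 0, 0, 0, 0, 0, 0, 0, 0, 0, 0, 0, 1, 0, 0, 0, 0, 0, 0, 0, 0, 1, 0, 0, 0, 0, 0, 0, 0, 0],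
    [0, 0, 0, 0, 0, 0, 0, 0, 0, 0, 0, 0, 0, 1, 0, 0, 0, 1, 0, 0, 0, 0, 0, 1, 0, 0, 0, 0, 0, 0, 0, 0, 0, 0, 0],
    [0, 0, 0, 0, 0, 0, 0, 0, 0, 0, 0, 1, 0, 0, 0, 0, 0, 1, 0, 0, 0, 0, 1, 0, 0, 0, 0, 0, 0, 0, 0, 0, 0, 0, 0],
    [0, 0, 0, 0, 0, 0, 1, 0, 0, 0, 0, 1, 0, 0, 0, 0, 0, 0, 0, 0, 0, 1, 0, 0, 0, 0, 0, 0, 0, 0, 0, 0, 0, 0, 0],
    [0, 0, 0, 0, 0, 0, 0, 0, 0, 1, 0, 0, 0, 0, 0, 0, 0, 1, 0, 0, 1, 0, 0, 0, 0, 0, 0, 0, 0, 0, 0, 0, 0, 0, 0],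
    [0, 0, 0, 0, 0, 1, 0, 0, 0, 0, 0, 0, 0, 0, 0, 0, 0, 0, 0, 1, 0, 0, 0, 0, 0, 0, 1, 0, 0, 0, 0, 0, 0, 0, 0],
    [0, 0, 0, 0, 0, 0, 0, 0, 0, 0, 0, 0, 0, 0, 0, 1, 0, 0, 0, 0, 0, 1, 0, 1, 0, 0, 0, 0, 0, 0, 0, 0, 0, 0, 0],
    [0, 0, 0, 0, 0, 0, 0, 0, 0, 0, 0, 0, 0, 0, 0, 0, 0, 1, 0, 1, 0, 0, 0, 0, 0, 1, 0, 0, 0, 0, 0, 0, 0, 0, 0],
    [0, 0, 0, 0, 0, 0, 0, 0, 0, 1, 0, 0, 0, 0, 1, 0, 0, 0, 0, 0, 1, 0, 0, 0, 0, 0, 0, 0, 0, 0, 0, 0, 0, 0, 0],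
    [0, 1, 0, 0, 0, 0, 0, 1, 0, 0, 0, 0, 0, 0, 0, 0, 0, 0, 0, 0, 0, 0, 0, 0, 0, 1, 0, 0, 0, 0, 0, 0, 0, 0, 0],
    [0, 1, 0, 0, 0, 0, 0, 0, 0, 0, 0, 0, 0, 0, 0, 0, 0, 1, 0, 0, 0, 0, 0, 0, 0, 1, 0, 0, 0, 0, 0, 0, 0, 0, 0],
    [0, 1, 0, 0, 0, 0, 0, 0, 0, 0, 0, 0, 0, 0, 0, 0, 1, 0, 0, 0, 0, 0, 0, 1, 0, 0, 0, 0, 0, 0, 0, 0, 0, 0, 0],
    [0, 0, 0, 0, 0, 0, 0, 0, 0, 0, 0, 0, 0, 0, 0, 0, 1, 0, 0, 0, 0, 0, 1, 1, 0, 0, 0, 0, 0, 0, 0, 0, 0, 0, 0],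
    [0, 0, 0, 0, 0, 0, 0, 0, 0, 1, 0, 0, 0, 0, 0, 0, 1, 0, 0, 1, 0, 0, 0, 0, 0, 0, 0, 0, 0, 0, 0, 0, 0, 0, 0],
    [0, 0, 0, 0, 0, 0, 0, 0, 0, 0, 0, 1, 0, 0, 0, 0, 0, 0, 0, 0, 0, 0, 1, 0, 0, 1, 0, 0, 0, 0, 0, 0, 0, 0, 0],
    [0, 0, 0, 0, 0, 0, 0, 0, 0, 1, 0, 0, 0, 0, 0, 1, 0, 0, 0, 0, 0, 1, 0, 0, 0, 0, 0, 0, 0, 0, 0, 0, 0, 0, 0],
    [0, 0, 0, 0, 0, 0, 0, 0, 0, 0, 1, 0, 0, 0, 1, 0, 0, 0, 0, 0, 0, 0, 1, 0, 0, 0, 0, 0, 0, 0, 0, 0, 0, 0, 0],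
    [0, 0, 0, 0, 0, 0, 0, 0, 0, 0, 0, 0, 1, 0, 0, 0, 0, 0, 1, 0, 1, 0, 0, 0, 0, 0, 0, 0, 0, 0, 0, 0, 0, 0, 0],
    [0, 0, 0, 0, 1, 0, 0, 0, 0, 0, 0, 1, 0, 0, 0, 0, 0, 0, 0, 0, 0, 0, 0, 0, 0, 1, 0, 0, 0, 0, 0, 0, 0, 0, 0],
    [0, 0, 0, 0, 0, 0, 1, 0, 0, 0, 0, 0, 0, 1, 0, 0, 0, 0, 0, 0, 0, 0, 0, 1, 0, 0, 0, 0, 0, 0, 0, 0, 0, 0, 0],
    [0, 0, 0, 0, 0, 0, 0, 0, 0, 0, 0, 0, 0, 0, 0, 0, 0, 0, 0, 0, 0, 1, 0, 0, 0, 0, 0, 0, 0, 0, 0, 1, 1, 0, 0],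
    [0, 0, 0, 0, 0, 0, 0, 0, 0, 0, 0, 0, 1, 0, 0, 0, 1, 0, 0, 1, 0, 0, 0, 0, 0, 0, 0, 0, 0, 0, 0, 0, 0, 0, 0],
    [0, 0, 0, 0, 0, 0, 0, 0, 0, 0, 0, 0, 1, 0, 0, 0, 1, 0, 0, 0, 0, 0, 0, 1, 0, 0, 0, 0, 0, 0, 0, 0, 0, 0, 0],
    [0, 0, 0, 0, 0, 0, 1, 0, 0, 0, 0, 0, 0, 0, 0, 0, 0, 0, 0, 0, 1, 0, 0, 0, 0, 1, 0, 0, 0, 0, 0, 0, 0, 0, 0],
    [0, 0, 0, 0, 0, 0, 0, 0, 0, 0, 0, 0, 0, 0, 0, 0, 0, 0, 0, 0, 0, 0, 0, 1, 0, 0, 1, 1, 0, 0, 0, 0, 0, 0, 0],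
    [0, 0, 0, 0, 0, 0, 0, 0, 0, 1, 0, 0, 0, 0, 0, 0, 0, 0, 0, 0, 0, 0, 0, 0, 0, 0, 1, 1, 0, 0, 0, 0, 0, 0, 0],
    [0, 0, 0, 0, 0, 0, 1, 0, 0, 0, 0, 0, 0, 0, 0, 0, 0, 0, 0, 0, 0, 1, 0, 1, 0, 0, 0, 0, 0, 0, 0, 0, 0, 0, 0],
    [0, 0, 0, 0, 1, 0, 0, 0, 0, 0, 0, 0, 1, 0, 0, 0, 0, 0, 0, 0, 0, 0, 0, 1, 0, 0, 0, 0, 0, 0, 0, 0, 0, 0, 0],
    [0, 0, 0, 0, 0, 0, 0, 0, 0, 0, 0, 0, 0, 1, 0, 0, 0, 0, 0, 0, 1, 0, 0, 1, 0, 0, 0, 0, 0, 0, 0, 0, 0, 0, 0],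
    [0, 0, 0, 0, 0, 0, 0, 0, 0, 0, 0, 1, 0, 0, 0, 1, 0, 0, 0, 0, 0, 1, 0, 0, 0, 0, 0, 0, 0, 0, 0, 0, 0, 0, 0],
    [0, 0, 0, 0, 0, 0, 0, 0, 0, 0, 1, 0, 0, 0, 0, 0, 0, 1, 0, 1, 0, 0, 0, 0, 0, 0, 0, 0, 0, 0, 0, 0, 0, 0, 0],
    [1, 0, 0, 0, 0, 0, 1, 0, 0, 0, 0, 0, 0, 0, 0, 0, 0, 0, 0, 0, 0, 0, 0, 0, 0, 1, 0, 0, 0, 0, 0, 0, 0, 0, 0],
    [0, 0, 0, 0, 0, 0, 0, 0, 0, 0, 0, 0, 1, 0, 0, 0, 0, 0, 1, 0, 0, 0, 0, 0, 0, 1, 0, 0, 0, 0, 0, 0, 0, 0, 0],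
    [0, 0, 0, 0, 0, 0, 0, 1, 0, 0, 0, 0, 1, 0, 0, 0, 0, 0, 0, 0, 1, 0, 0, 0, 0, 1, 0, 0, 0, 0, 0, 0, 0, 0, 0],
    [0, 0, 0, 0, 0, 0, 0, 0, 0, 1, 0, 0, 0, 0, 0, 1, 0, 0, 0, 0, 1, 0, 0, 0, 0, 0, 1, 0, 0, 0, 0, 0, 0, 0, 0],
    [0, 0, 0, 0, 0, 0, 0, 0, 0, 1, 0, 0, 0, 0, 0, 0, 1, 0, 0, 0, 0, 1, 0, 0, 0, 0, 1, 0, 0, 0, 0, 0, 0, 0, 0],
    [0, 1, 0, 0, 0, 0, 0, 0, 0, 1, 0, 0, 0, 0, 0, 0, 0, 2, 0, 0, 0, 0, 0, 0, 0, 0, 0, 0, 0, 0, 0, 0, 0, 0, 0],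
    [0, 1, 0, 0, 0, 0, 0, 0, 0, 0, 1, 0, 0, 0, 0, 0, 0, 1, 0, 0, 0, 0, 0, 1, 0, 0, 0, 0, 0, 0, 0, 0, 0, 0, 0],
    [1, 0, 0, 0, 0, 0, 0, 1, 0, 0, 1, 0, 0, 0, 0, 0, 0, 0, 0, 0, 0, 0, 0, 0, 0, 0, 0, 1, 0, 0, 0, 0, 0, 0, 0],
    [1, 0, 0, 0, 1, 0, 0, 0, 0, 0, 0, 0, 0, 0, 0, 0, 1, 0, 0, 0, 0, 0, 0, 1, 0, 0, 0, 0, 0, 0, 0, 0, 0, 0, 0],
    [1, 0, 0, 0, 0, 0, 0, 0, 0, 0, 0, 0, 0, 0, 0, 1, 0, 0, 0, 0, 0, 0, 1, 0, 0, 1, 0, 0, 0, 0, 0, 0, 0, 0, 0],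
    [1, 0, 0, 0, 0, 0, 0, 0, 0, 0, 0, 0, 0, 0, 0, 0, 0, 1, 0, 0, 1, 0, 0, 0, 0, 1, 0, 0, 0, 0, 0, 0, 0, 0, 0],
    [0, 0, 0, 0, 0, 0, 1, 0, 0, 0, 1, 0, 0, 0, 0, 0, 0, 0, 0, 0, 1, 0, 0, 1, 0, 0, 0, 0, 0, 0, 0, 0, 0, 0, 0],
    [0, 0, 0, 0, 0, 1, 0, 0, 0, 0, 0, 0, 0, 0, 0, 1, 0, 0, 0, 0, 1, 0, 0, 0, 0, 1, 0, 0, 0, 0, 0, 0, 0, 0, 0],
    [0, 0, 0, 0, 0, 1, 0, 0, 0, 0, 0, 0, 0, 0, 0, 1, 0, 0, 0, 0, 0, 0, 1, 1, 0, 0, 0, 0, 0, 0, 0, 0, 0, 0, 0],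
    [0, 0, 0, 0, 0, 0, 1, 0, 0, 0, 0, 0, 1, 0, 0, 0, 0, 0, 0, 0, 0, 0, 0, 1, 0, 0, 0, 1, 0, 0, 0, 0, 0, 0, 0],
    [0, 0, 0, 0, 1, 0, 0, 0, 0, 0, 1, 0, 0, 0, 0, 0, 0, 0, 0, 1, 0, 0, 0, 1, 0, 0, 0, 0, 0, 0, 0, 0, 0, 0, 0],
    [0, 0, 0, 0, 1, 0, 0, 0, 0, 0, 0, 1, 0, 0, 0, 0, 0, 0, 0, 0, 0, 0, 1, 1, 0, 0, 0, 0, 0, 0, 0, 0, 0, 0, 0],
    [0, 0, 0, 0, 1, 0, 0, 0, 0, 0, 0, 1, 0, 0, 0, 0, 0, 0, 0, 0, 0, 0, 0, 1, 0, 0, 0, 1, 0, 0, 0, 0, 0, 0, 0],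
    [0, 0, 1, 0, 0, 0, 0, 0, 0, 1, 0, 0, 0, 0, 0, 0, 0, 1, 0, 0, 0, 0, 0, 0, 0, 0, 1, 0, 0, 0, 0, 0, 0, 0, 0],
    [0, 0, 1, 0, 0, 0, 0, 0, 0, 0, 0, 0, 0, 0, 0, 1, 0, 0, 0, 0, 0, 0, 1, 1, 0, 0, 0, 0, 0, 0, 0, 0, 0, 0, 0],
    [0, 0, 1, 0, 0, 0, 0, 0, 0, 0, 0, 0, 0, 0, 0, 0, 0, 1, 0, 0, 1, 0, 0, 1, 0, 0, 0, 0, 0, 0, 0, 0, 0, 0, 0],
    [0, 0, 0, 0, 1, 0, 0, 0, 0, 0, 0, 0, 0, 0, 1, 0, 0, 0, 0, 0, 1, 0, 0, 0, 0, 1, 0, 0, 0, 0, 0, 0, 0, 0, 0],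
    [0, 0, 0, 0, 0, 0, 0, 0, 0, 0, 0, 0, 0, 0, 0, 0, 0, 1, 0, 0, 0, 0, 1, 1, 0, 0, 0, 1, 0, 0, 0, 0, 0, 0, 0],
    [0, 0, 0, 0, 0, 0, 0, 0, 0, 0, 1, 0, 0, 0, 0, 0, 0, 0, 0, 0, 0, 0, 0, 2, 0, 0, 0, 1, 0, 0, 0, 0, 0, 0, 0],
    [0, 0, 0, 0, 0, 0, 0, 0, 0, 0, 0, 0, 1, 0, 0, 2, 0, 0, 0, 0, 0, 0, 0, 0, 0, 0, 0, 0, 0, 0, 1, 0, 0, 0, 0],
    [0, 0, 0, 0, 0, 0, 0, 0, 0, 0, 0, 0, 0, 0, 0, 1, 0, 0, 0, 0, 0, 0, 0, 0, 0, 2, 0, 0, 0, 0, 0, 0, 1, 0, 0],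
    [0, 0, 0, 0, 0, 0, 0, 0, 0, 0, 0, 0, 0, 0, 0, 1, 0, 0, 0, 0, 1, 0, 0, 0, 0, 1, 0, 0, 0, 1, 0, 0, 0, 0, 0],
    [0, 0, 0, 0, 0, 0, 0, 0, 0, 0, 0, 0, 0, 0, 0, 1, 0, 0, 0, 0, 2, 0, 0, 0, 0, 0, 0, 0, 0, 0, 0, 1, 0, 0, 0],
    [0, 0, 0, 0, 0, 0, 0, 0, 0, 0, 0, 0, 0, 0, 0, 0, 1, 0, 0, 0, 0, 0, 0, 1, 0, 0, 1, 0, 0, 0, 0, 0, 1, 0, 0],
    [0, 0, 0, 0, 0, 0, 0, 0, 0, 0, 1, 0, 0, 0, 0, 0, 0, 1, 0, 0, 1, 0, 0, 1, 0, 0, 0, 0, 0, 0, 0, 0, 0, 0, 0],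
    [0, 0, 0, 0, 0, 0, 0, 0, 0, 0, 1, 0, 0, 0, 0, 1, 0, 0, 0, 0, 1, 0, 0, 1, 0, 0, 0, 0, 0, 0, 0, 0, 0, 0, 0],
    [0, 0, 0, 0, 0, 0, 0, 0, 0, 0, 1, 0, 0, 0, 0, 0, 1, 0, 0, 1, 0, 0, 0, 1, 0, 0, 0, 0, 0, 0, 0, 0, 0, 0, 0],
    [0, 0, 0, 0, 0, 0, 0, 0, 0, 0, 1, 0, 0, 0, 1, 0, 0, 0, 0, 0, 1, 0, 0, 1, 0, 0, 0, 0, 0, 0, 0, 0, 0, 0, 0],
    [0, 0, 0, 0, 0, 0, 0, 0, 0, 0, 0, 0, 0, 0, 0, 0, 0, 0, 0, 1, 0, 0, 0, 0, 0, 1, 0, 0, 0, 0, 0, 1, 1, 0, 0],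
    [0, 0, 0, 0, 0, 0, 0, 0, 0, 0, 1, 0, 0, 0, 0, 0, 0, 1, 0, 0, 0, 0, 1, 1, 0, 0, 0, 0, 0, 0, 0, 0, 0, 0, 0],
    [0, 0, 1, 0, 0, 0, 0, 0, 0, 0, 0, 0, 0, 0, 0, 0, 0, 0, 0, 0, 1, 0, 0, 1, 0, 0, 0, 0, 0, 0, 0, 1, 1, 0, 0],
    [0, 0, 0, 0, 0, 0, 0, 0, 0, 0, 0, 0, 0, 0, 0, 0, 0, 0, 0, 0, 0, 0, 1, 1, 0, 0, 0, 1, 0, 0, 0, 1, 1, 0, 0],
    [0, 0, 0, 0, 0, 0, 0, 0, 0, 0, 0, 0, 0, 0, 0, 0, 0, 0, 0, 0, 1, 0, 0, 0, 0, 1, 0, 1, 0, 0, 0, 1, 1, 0, 0],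
    [0, 0, 0, 0, 0, 0, 0, 0, 0, 0, 1, 0, 0, 0, 0, 0, 0, 0, 0, 0, 1, 0, 0, 0, 0, 1, 0, 0, 0, 0, 0, 1, 1, 0, 0],
    [0, 0, 0, 0, 0, 0, 0, 0, 0, 0, 1, 0, 0, 0, 0, 0, 0, 0, 0, 0, 0, 0, 1, 1, 0, 0, 0, 0, 0, 0, 0, 1, 1, 0, 0],
    [1, 0, 0, 0, 0, 0, 0, 0, 0, 0, 0, 0, 0, 0, 0, 0, 0, 0, 0, 0, 1, 0, 0, 0, 0, 1, 0, 0, 0, 0, 0, 1, 1, 0, 0]]

def EB10_base1 : List Row :=
   [(false, [1, 1, 1, 0, 0, 0, 0, 0, 0, 0, 0, 0, 0, 0, 0, 0, 0, 0, 0, 0, 0, 0, 0, 0, 0, 0, 0, 0, 0, 0, 0, 0, 0, -1, 0], 0),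
    (false, [0, 0, 0, 1, 1, 1, 1, 1, 0, 0, 0, 0, 0, 0, 0, 0, 0, 0, 0, 0, 0, 0, 0, 0, 0, 0, 0, 0, 0, 0, 0, 0, 0, -1, 0], 0),
    (false, [0, 0, 0, 0, 0, 0, 0, 0, 1, 1, 1, 0, 0, 0, 0, 0, 0, 0, 0, 0, 0, 0, 0, 0, 0, 0, 0, 0, 0, 0, 0, 0, 0, -1, 0], 0),
    (false, [0, 0, 0, 0, 0, 0, 0, 0, 0, 0, 0, 1, 1, 1, 0, 0, 0, 0, 0, 0, 0, 0, 0, 0, 0, 0, 0, 0, 0, 0, 0, 0, 0, 0, -1], 0),
    (false, [0, 0, 0, 0, 0, 0, 0, 0, 0, 0, 0, 0, 0, 0, 1, 1, 1, 1, 1, 0, 0, 0, 0, 0, 0, 0, 0, 0, 0, 0, 0, 0, 0, 0, -3], 0),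
    (false, [0, 0, 0, 0, 0, 0, 0, 0, 0, 0, 0, 0, 0, 0, 0, 0, 0, 0, 0, 1, 1, 1, 1, 0, 0, 0, 0, 0, 0, 0, 0, 0, 0, 0, 0], 1),
    (false, [0, 0, 0, 0, 0, 0, 0, 0, 0, 0, 0, 0, 0, 0, 0, 0, 0, 0, 0, 0, 0, 0, 0, 1, 1, 1, 1, 0, 0, 0, 0, 0, 0, 0, 0], 1),
    (false, [0, 1, 4, 4, 1, 0, 1, 4, 0, 1, 4, 0, 1, 4, 4, 1, 0, 1, 4, 1, 0, 1, 4, 1, 0, 1, 4, 0, 1, 4, 0, 0, 0, -8, -4], 1),
    (false, [4, 1, 0, 4, 1, 0, 1, 4, 4, 1, 0, 4, 1, 0, 4, 1, 0, 1, 4, 4, 1, 0, 1, 4, 1, 0, 1, 0, 1, 4, 0, 0, 0, -8, -4], 1),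
    (false, [-1, -1, -1, 1, 1, 1, 1, 1, -1, -1, -1, -1, -1, -1, 1, 1, 1, 1, 1, 0, 0, 0, 0, 0, 0, 0, 0, 1, 1, 1, -1, 0, 0, 0, 0], 0),
    (false, [1, 1, 1, -1, -1, -1, -1, -1, -1, -1, -1, 0, 0, 0, 0, 0, 0, 0, 0, 1, 1, 1, 1, 0, 0, 0, 0, 1, 1, 1, 0, -1, 0, 0, 0], 0),
    (false, [-1, 0, 1, -1, 0, 1, 0, -1, -1, 0, 1, -1, 0, 1, -1, 0, 1, 0, -1, -1, 0, 1, 0, -1, 0, 1, 0, 1, 0, -1, 0, 0, -1, 0, 0], 0),
    (true, [-1, -1, -1, -1, -1, -1, -1, -1, 1, 1, 1, 0, 0, 0, 0, 0, 0, 0, 0, 0, 0, 0, 0, 1, 1, 1, 1, 1, 1, 1, 0, 0, 0, 0, 0], 0),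
    (true, [1, 0, -1, -1, 0, 1, 0, -1, 1, 0, -1, 1, 0, -1, -1, 0, 1, 0, -1, 0, 1, 0, -1, 0, 1, 0, -1, 1, 0, -1, 0, 0, 0, 0, 0], 0),
    (true, [4, 1, 0, 16, 9, 4, 1, 0, 0, 1, 4, 1, 0, 1, 9, 4, 1, 0, 1, 4, 1, 0, 1, 1, 0, 1, 4, 0, 1, 4, 0, 0, 0, 0, 0], 1),
    (true, [0, 0, 0, 0, 0, 0, 0, 0, 0, 0, 0, 0, 0, 0, 0, 0, 0, 0, 0, 0, 0, 0, 0, 0, 0, 0, 0, 0, 0, 0, 0, 0, 0, 1, 0], 0),
    (true, [0, 0, 0, 0, 0, 0, 0, 0, 0, 0, 0, 0, 0, 0, 0, 0, 0, 0, 0, 0, 0, 0, 0, 0, 0, 0, 0, 0, 0, 0, 0, 0, 0, 0, 1], 0)]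

def EB10_1_0_0_tree : Tree :=
  (.br 8 0
  (.br 24 0
   (.br 25 0
    (.br 1 0
     (.br 9 0
      (.br 23 0
       (.br 26 0
        (.fk [(6, 1)])
        (.br 10 0
         (.br 12 0
          (.br 17 0
           (.br 16 0
            (.fk [(0, -5), (1, -16), (2, 277), (3, 68), (4, 20), (5, 14), (6, 37), (7, -18), (8, -18), (17, 4)])
            (.br 11 0
             (.fk [(0, -4), (1, -6), (2, 26), (3, 11), (4, -1), (5, -1), (6, 4), (7, -3), (17, 1)])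
             (.mv 21)))
           (.br 21 0
            (.br 11 0
             (.fk [(0, -4), (1, -6), (2, 26), (3, 11), (4, -1), (5, -1), (6, 4), (7, -3), (17, 1)])
             (.br 20 0
              (.br 16 0
               (.fk [(0, -2), (1, -36), (2, 1206), (3, 227), (4, 119), (5, 148), (6, 148), (7, -59), (8, -96), (17, 9)])
               (.mv 21))
              (.mv 4)))
            (.mv 2)))
          (.br 21 0
           (.br 17 0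
            (.br 16 0
             (.fk [(0, 1), (2, 63), (3, 8), (4, 8), (5, 6), (6, 7), (7, -2), (8, -6)])
             (.br 20 0
              (.br 11 0
               (.br 19 0
                (.fk [(0, -4), (2, 4), (5, 1), (6, 1), (7, -1), (8, 1)])
                (.mv 56))
               (.mv 21))
              (.mv 22)))
            (.mv 12))
           (.mv 20)))
         (.mv 3)))
       (.br 28 0
        (.br 21 0
         (.br 20 0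
          (.br 16 0
           (.br 6 0
            (.br 17 0
             (.br 0 0
              (.br 15 0
               (.fk [(0, 84), (1, -12), (2, 72), (3, -3), (4, 25), (5, 9), (6, 9), (7, -21), (17, 3)])
               (.br 19 0
                (.br 5 0
                 (.br 2 0
                  (.fk [(0, 82), (1, -13), (2, -5), (3, 8), (4, 8), (5, 13), (6, 13), (7, -2), (8, -6)])
                  (.br 22 0
                   (.fk [(5, 1), (6, -1)])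
                   (.mv 85)))
                 (.br 22 0
                  (.fk [(5, 1), (6, -1)])
                  (.mv 79)))
                (.mv 15)))
              (.br 5 0
               (.br 10 0
                (.fk [(0, -5), (1, -13), (2, 82), (3, 8), (4, 8), (5, 13), (6, 13), (7, -2), (8, -6)])
                (.br 4 0
                 (.fk [(0, 8), (1, 16), (2, 8), (3, 4), (4, 4), (5, 5), (6, 5), (7, -2), (8, -2)])
                 (.br 19 0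
                  (.br 26 0
                   (.br 29 0
                    (.br 12 0
                     (.br 22 0
                      (.fk [(5, 1), (6, -1)])
                      (.br 13 0
                       (.br 18 0
                        (.br 14 0
                         (.br 11 0
                          (.br 31 0
                           (.fk [(0, 54), (1, -90), (2, -28), (3, 151), (4, -61), (5, 12), (6, -23), (7, 7), (8, 1), (9, 29), (10, -41), (13, 12)])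
                           (.br 32 0
                            (.fk [(0, -8), (1, -6), (2, 38), (3, 36), (4, -8), (5, 1), (6, 1), (7, 9), (8, -12), (9, 9), (10, 1), (11, -37), (13, 27)])
                            (.mv 105)))
                          (.mv 82))
                         (.mv 51))
                        (.mv 19))
                       (.mv 11)))
                     (.mv 62))
                    (.mv 8))
                   (.mv 3))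
                  (.mv 81))))
               (.mv 16)))
             (.br 10 0
              (.fk [(0, -5), (1, -5), (2, 74), (3, 8), (4, 8), (5, 13), (6, 13), (7, -2), (8, -6)])
              (.br 22 0
               (.br 19 0
                (.fk [(5, 1), (6, -1)])
                (.mv 65))
               (.mv 100))))
            (.br 2 0
             (.br 13 0
              (.br 27 0
               (.fk [(0, 10), (1, 24), (2, 14), (3, 6), (4, 6), (5, 2), (6, 2), (7, -3), (8, -3), (10, 15), (11, 2), (12, 13), (13, 2)])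
               (.br 12 0
                (.br 26 0
                 (.br 10 0
                  (.fk [(0, -25), (1, -82), (2, 283), (3, 139), (4, -17), (5, 13), (6, 13), (7, 3), (8, -38), (17, 13)])
                  (.br 29 0
                   (.br 23 1
                    (.br 0 0
                     (.fk [(0, 335), (1, -82), (2, -77), (3, 139), (4, -17), (5, 13), (6, 13), (7, 3), (8, -38), (17, 13)])
                     (.br 5 0
                      (.br 7 0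
                       (.br 22 0
                        (.fk [(0, 8), (1, -4), (2, -12), (3, 8), (4, -4), (5, 3), (6, 2), (7, 3), (8, -2)])
                        (.br 18 0
                         (.br 11 0
                          (.br 14 0
                           (.br 17 0
                            (.br 31 0
                             (.fk [(0, 50), (1, -90), (2, -96), (3, 16), (4, -28), (5, 16), (6, -20), (7, 16), (8, 1), (9, 11), (10, -62), (11, 16), (13, 35)])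
                             (.br 32 0
                              (.fk [(0, 10), (1, -6), (2, 20), (3, 36), (4, -8), (5, 1), (6, 1), (8, -3), (9, 9), (10, 1), (11, -10)])
                              (.mv 102)))
                            (.mv 88))
                           (.mv 51))
                          (.mv 32))
                         (.mv 19)))
                       (.mv 73))
                      (.mv 16)))
                    (.mv 89))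
                   (.mv 8)))
                 (.mv 59))
                (.mv 80)))
              (.mv 54))
             (.mv 27)))
           (.br 12 0
            (.br 11 0
             (.br 10 0
              (.fk [(0, -4), (1, -4), (2, 56), (3, 27), (4, -1), (5, 3), (6, 3), (7, -7), (17, 1)])
              (.br 19 0
               (.fk [(0, -12), (2, 12), (3, 12), (4, -4), (5, 9), (6, -18), (7, -3), (8, 3)])
               (.mv 97)))
             (.mv 21))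
            (.mv 57)))
          (.br 16 0
           (.br 11 0
            (.br 4 0
             (.br 13 0
              (.br 31 0
               (.br 17 0
                (.br 10 0
                 (.fk [(0, 34), (1, -76), (2, 66), (3, 3), (4, 3), (5, 15), (6, 15), (7, 1), (8, -4), (10, -46), (11, 15), (13, 15)])
                 (.br 18 0
                  (.br 15 0
                   (.br 6 0
                    (.br 14 0
                     (.fk [(0, 12), (1, -24), (2, -12), (3, 3), (4, -5), (5, 3), (6, -6), (7, 3), (9, 6), (10, -12), (13, 6)])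
                     (.mv 98))
                    (.mv 77))
                   (.mv 96))
                  (.mv 24)))
                (.br 10 0
                 (.fk [(0, 34), (1, -76), (2, 66), (3, 3), (4, 3), (5, 15), (6, 15), (7, 1), (8, -4), (10, -46), (11, 15), (13, 15)])
                 (.mv 95)))
               (.br 32 0
                (.br 10 0
                 (.fk [(0, -4), (2, 60), (3, 7), (4, 7), (5, 4), (6, 4), (7, 1), (8, -8)])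
                 (.br 29 0
                  (.fk [(0, -4), (1, 16), (2, 20), (3, 4), (4, 4), (5, -19), (6, -5), (7, 1), (8, -5), (10, 12), (11, -12)])
                  (.mv 8)))
                (.br 2 0
                 (.fk [(0, 4), (2, -4), (5, -5), (6, -3), (7, 1), (8, -1)])
                 (.mv 101))))
              (.mv 63))
             (.mv 31))
            (.mv 4))
           (.mv 22)))
         (.br 17 0
          (.br 12 0
           (.br 15 0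
            (.br 6 0
             (.br 32 0
              (.fk [(5, -1), (6, -1), (7, 1), (8, -1), (11, -2), (13, 2)])
              (.br 31 0
               (.br 16 0
                (.br 5 0
                 (.br 4 0
                  (.fk [(0, 66), (2, -18), (3, 3), (4, 7), (5, 15), (6, 15), (7, -3), (8, -3), (9, 12), (10, -42), (11, 15), (13, 15)])
                  (.br 27 0
                   (.fk [(0, 43), (1, -42), (2, 15), (3, 29), (4, -7), (5, 5), (6, 5), (7, -1), (8, -1), (9, 25), (10, -14), (11, 5), (13, 5)])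
                   (.br 11 0
                    (.fk [(0, 10), (1, -44), (2, -30), (3, 10), (4, -14), (5, 12), (6, -40), (7, -1), (8, 9), (9, 6), (10, -35), (11, 12), (12, 5), (13, 12)])
                    (.mv 83))))
                 (.br 0 0
                  (.fk [(0, 186), (1, -98), (2, 96), (3, -73), (4, 55), (5, 8), (6, 8), (7, -36), (8, 5), (9, 13), (10, -29), (11, 8), (13, 8), (17, 8)])
                  (.mv 16)))
                (.br 11 0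
                 (.br 20 0
                  (.br 22 0
                   (.br 26 0
                    (.br 32 1
                     (.br 0 0
                      (.fk [(0, 39), (1, -14), (2, 23), (3, 33), (4, -3), (5, 2), (6, 2), (7, -9), (8, 1), (10, -4), (11, 1), (17, 2)])
                      (.br 4 0
                       (.fk [(0, 16), (1, 12), (2, 28), (3, 22), (4, 2), (5, 4), (6, 10), (8, -7), (9, 8), (10, 6), (11, -14)])
                       (.mv 74)))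
                     (.fk [(0, 10), (1, -4), (2, -14), (3, 2), (4, -2), (5, 4), (6, -16), (7, -1), (8, 2), (10, -9), (11, 2), (12, 7)]))
                    (.mv 94))
                   (.mv 47))
                  (.mv 22))
                 (.mv 21)))
               (.mv 55)))
             (.mv 61))
            (.mv 41))
           (.mv 20))
          (.mv 2)))
        (.mv 5)))
      (.br 23 0
       (.br 27 0
        (.br 28 0
         (.br 17 0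
          (.br 16 0
           (.br 21 0
            (.br 11 0
             (.br 15 0
              (.fk [(0, 4), (1, -8), (2, 4), (5, -1), (6, 3), (7, -1), (8, 1), (9, 4), (11, 4)])
              (.br 19 0
               (.fk [(0, -12), (1, -16), (2, -4), (3, -4), (4, -4), (5, -7), (6, 5), (7, -3), (8, 7), (11, 16)])
               (.mv 15)))
             (.br 20 0
              (.br 15 0
               (.fk [(0, 2), (1, -4), (2, 2), (5, 1), (6, 1), (9, 2), (11, 1), (13, 1)])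
               (.br 19 0
                (.fk [(0, -4), (2, 4), (5, -1), (6, 3), (7, -1), (8, 1), (10, 4), (11, 4)])
                (.mv 15)))
              (.mv 4)))
            (.br 18 0
             (.br 15 0
              (.br 29 0
               (.fk [(0, 54), (1, -10), (2, 12), (3, 34), (4, -2), (5, 1), (6, 5), (7, -6), (8, -1), (9, 30), (12, 20)])
               (.br 26 0
                (.fk [(0, -12), (1, -24), (2, -12), (3, -12), (4, -4), (5, -21), (6, 12), (7, 9), (8, -3), (13, 24)])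
                (.mv 14)))
              (.mv 50))
             (.mv 33)))
           (.br 19 0
            (.br 20 0
             (.br 11 0
              (.br 21 0
               (.br 22 0
                (.fk [(5, 1)])
                (.mv 28))
               (.br 26 0
                (.fk [(5, -1), (6, 1)])
                (.mv 70)))
              (.mv 21))
             (.mv 22))
            (.mv 48)))
          (.br 12 0
           (.br 20 0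
            (.br 21 0
             (.br 26 0
              (.fk [(6, 1)])
              (.br 2 0
               (.br 0 0
                (.fk [(0, 1), (2, -1), (6, -1)])
                (.mv 35))
               (.mv 84)))
             (.mv 2))
            (.mv 39))
           (.mv 12)))
         (.mv 10))
        (.br 26 0
         (.fk [(6, 1)])
         (.mv 60)))
       (.mv 18)))
     (.br 6 0
      (.br 16 0
       (.br 9 0
        (.br 23 0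
         (.br 10 0
          (.fk [(0, -3), (1, -3), (2, 22), (3, 2), (4, 2), (5, 1), (6, 5), (7, -1), (8, -1)])
          (.br 26 0
           (.fk [(6, 1)])
           (.mv 3)))
         (.br 5 0
          (.br 28 0
           (.br 20 0
            (.br 17 0
             (.br 10 0
              (.fk [(0, 1), (1, -7), (2, 70), (3, 8), (4, 8), (5, 6), (6, 7), (7, -6), (8, -2)])
              (.br 4 0
               (.fk [(0, 8), (1, 32), (2, 24), (3, 8), (4, 8), (5, 6), (6, 7), (7, -6), (8, -2)])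
               (.br 19 0
                (.br 15 0
                 (.br 26 0
                  (.br 29 0
                   (.br 12 0
                    (.br 27 0
                     (.fk [(0, 162), (1, -167), (2, 269), (3, 165), (4, -11), (5, 27), (6, 27), (7, -27), (8, -7), (9, 165), (13, 27), (17, 1)])
                     (.br 11 0
                      (.fk [(0, -12), (1, -4), (2, 8), (3, 8), (4, -4), (5, 2), (6, -21), (7, -2), (8, 3)])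
                      (.mv 83)))
                    (.mv 62))
                   (.mv 8))
                  (.mv 3))
                 (.br 21 0
                  (.br 14 0
                   (.br 18 0
                    (.br 11 0
                     (.fk [(0, -4), (2, 4), (5, 3), (6, -6), (7, -1), (8, 1)])
                     (.br 22 0
                      (.fk [(5, 1), (6, -1)])
                      (.mv 82)))
                    (.br 22 0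
                     (.fk [(5, 1), (6, -1)])
                     (.mv 19)))
                   (.br 22 0
                    (.fk [(5, 1), (6, -1)])
                    (.mv 51)))
                  (.mv 41)))
                (.mv 81))))
             (.br 10 0
              (.fk [(0, 1), (1, -7), (2, 70), (3, 8), (4, 8), (5, 6), (6, 7), (7, -6), (8, -2)])
              (.mv 72)))
            (.br 4 0
             (.fk [(0, 8), (1, 32), (2, 24), (3, 8), (4, 8), (5, -5), (6, 7), (7, -6), (8, -2)])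
             (.mv 31)))
           (.mv 5))
          (.mv 30)))
        (.br 23 0
         (.br 27 0
          (.br 17 0
           (.br 28 0
            (.br 18 0
             (.br 26 0
              (.fk [(6, 1)])
              (.br 29 0
               (.br 15 0
                (.fk [(0, 35), (1, -18), (2, 15), (3, 28), (4, -4), (6, 3), (7, -4), (9, 24), (11, 4), (12, 10)])
                (.br 21 0
                 (.br 20 0
                  (.br 19 0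
                   (.fk [(0, 1), (1, 20), (2, 3), (3, 3), (4, 3), (5, 1), (6, 1), (7, -4), (8, 1), (10, 15), (11, 8), (12, 14), (13, 1)])
                   (.mv 15))
                  (.mv 69))
                 (.mv 50)))
               (.mv 14)))
             (.br 21 0
              (.fk [(0, -4), (2, 4), (5, -5), (6, 3), (7, -1), (8, 1), (10, 4), (11, 4)])
              (.mv 33)))
            (.mv 10))
           (.br 28 0
            (.br 21 0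
             (.br 17 1
              (.br 20 0
               (.br 10 0
                (.br 15 0
                 (.fk [(0, -12), (1, -24), (2, -12), (3, -12), (4, -4), (5, -3), (6, -3), (7, 3), (8, 3), (11, 12), (13, 12)])
                 (.br 19 0
                  (.fk [(0, -4), (2, 4), (5, -1), (6, 3), (7, -1), (8, 1), (10, 4), (11, 4)])
                  (.mv 15)))
                (.br 26 0
                 (.fk [(0, 2), (2, -2), (5, 1), (6, 1), (11, 1), (12, 2), (13, 1)])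
                 (.mv 3)))
               (.mv 39))
              (.mv 71))
             (.mv 2))
            (.mv 10)))
          (.br 26 0
           (.fk [(6, 1)])
           (.mv 60)))
         (.mv 18)))
       (.br 11 0
        (.br 23 0
         (.br 9 0
          (.fk [(0, -4), (2, 4), (5, -3), (6, 3), (7, -1), (8, 1)])
          (.br 19 0
           (.br 20 0
            (.br 22 0
             (.br 27 0
              (.br 29 0
               (.br 28 0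
                (.fk [(0, -5), (1, 5), (5, -2), (6, 1), (7, -1), (8, 1), (10, 3), (12, 2)])
                (.mv 10))
               (.br 26 0
                (.fk [(6, 1)])
                (.mv 14)))
              (.br 26 0
               (.fk [(6, 1)])
               (.mv 60)))
             (.mv 28))
            (.mv 22))
           (.mv 48)))
         (.mv 46))
        (.mv 21)))
      (.mv 9)))
    (.br 9 0
     (.br 16 0
      (.br 23 0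
       (.br 28 0
        (.br 21 0
         (.br 20 0
          (.br 19 0
           (.br 17 0
            (.br 18 0
             (.br 11 0
              (.fk [(0, -4), (2, 4), (5, 1), (7, -1), (8, 1)])
              (.br 22 0
               (.fk [(5, 1), (6, -1)])
               (.mv 49)))
             (.br 22 0
              (.fk [(5, 1), (6, -1)])
              (.mv 19)))
            (.br 11 0
             (.fk [(0, -4), (2, 4), (5, 1), (7, -1), (8, 1)])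
             (.mv 25)))
           (.br 17 0
            (.br 31 0
             (.br 0 0
              (.br 15 0
               (.fk [(0, 8), (1, -8), (2, 8), (3, -2), (4, 2), (5, 1), (6, 1), (7, -2), (8, 1), (9, 3), (10, -4), (13, 1)])
               (.mv 15))
              (.br 5 0
               (.br 6 0
                (.br 15 0
                 (.br 4 0
                  (.fk [(0, 2), (1, -2), (2, 8), (3, -2), (4, 2), (5, 1), (6, 1), (7, -2), (8, 1), (9, 3), (10, -4), (13, 1)])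
                  (.mv 26))
                 (.mv 15))
                (.mv 66))
               (.mv 16)))
             (.br 32 0
              (.fk [(5, -1), (6, -1), (7, 1), (8, -1), (11, -2), (13, 2)])
              (.mv 99)))
            (.mv 42)))
          (.br 17 0
           (.br 11 0
            (.br 18 0
             (.br 6 0
              (.br 31 0
               (.br 7 0
                (.br 0 0
                 (.fk [(0, 4), (1, -5), (2, 1), (5, 1), (7, -1), (8, 1), (10, -4), (13, 1)])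
                 (.br 5 0
                  (.br 4 0
                   (.br 10 0
                    (.fk [(0, -2), (1, -6), (2, 16), (3, 1), (4, 1), (5, 1), (6, 1), (7, -2), (8, 1), (10, -4), (13, 1)])
                    (.br 26 0
                     (.br 29 0
                      (.br 15 0
                       (.fk [(0, 4), (1, -8), (2, 12), (3, 7), (4, -1), (5, 2), (6, 1), (7, -3), (8, 2), (9, 6), (10, -7), (13, 1)])
                       (.br 19 0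
                        (.br 22 0
                         (.br 25 1
                          (.br 15 1
                           (.fk [(0, 2), (1, -2), (2, 8), (3, 4), (5, 1), (6, 1), (7, -2), (8, 1), (9, 3), (10, -3)])
                           (.br 12 0
                            (.fk [(0, 6), (1, 2), (2, 32), (3, 41), (4, -7), (5, 3), (6, 5), (7, -8), (8, 3), (9, 9), (10, -9)])
                            (.br 30 0
                             (.fk [(0, 4), (1, -4), (2, -24), (3, -9), (4, -1), (5, 2), (6, -13), (7, 1), (8, 2), (9, -4), (10, -15), (11, 10), (13, 9)])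
                             (.mv 90))))
                          (.fk [(0, 6), (1, -4), (2, -10), (3, -1), (4, -1), (5, 3), (6, -10), (7, -2), (8, 3), (10, -9), (11, 9)]))
                         (.mv 75))
                        (.mv 15)))
                      (.mv 8))
                     (.mv 3)))
                   (.br 14 0
                    (.fk [(0, 2), (1, -4), (2, -6), (3, -1), (4, -1), (5, 1), (6, -4), (8, 1), (10, -4), (11, 1), (12, 2), (13, 1)])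
                    (.mv 87)))
                  (.mv 16)))
                (.br 12 0
                 (.fk [(0, 4), (1, -4), (3, 6), (4, -2), (5, 1), (6, -2), (7, -1), (8, 1), (9, 2), (10, -4), (12, 2)])
                 (.mv 68)))
               (.br 32 0
                (.br 10 0
                 (.fk [(0, 4), (1, 8), (2, 52), (3, 8), (4, 8), (5, 1), (6, 4), (7, 1), (8, -9), (10, 4), (11, -20)])
                 (.br 29 0
                  (.fk [(0, -6), (1, 4), (2, 10), (3, 1), (4, 1), (5, -5), (6, 2), (7, -1), (10, 3), (11, -3)])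
                  (.mv 8)))
                (.br 27 0
                 (.br 10 0
                  (.br 19 0
                   (.br 0 0
                    (.br 15 0
                     (.fk [(0, 4), (1, -4), (2, 40), (3, 5), (4, 5), (5, -1), (6, 1), (7, -4), (8, -2), (10, 1), (11, 1), (17, 1)])
                     (.br 5 0
                      (.br 25 1
                       (.br 29 0
                        (.br 20 1
                         (.br 12 0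
                          (.fk [(0, -8), (1, -128), (2, 152), (3, 149), (4, -47), (5, -61), (6, 10), (7, -43), (8, 28), (10, 10), (11, 10), (17, 13)])
                          (.br 15 1
                           (.fk [(0, -11), (1, -9), (2, 4), (3, -11), (4, 1), (5, -47), (6, 9), (7, -27), (8, 29), (10, 9), (11, 9)])
                           (.br 30 0
                            (.fk [(0, -8), (1, 7), (2, 41), (3, -7), (4, 9), (5, -1), (6, 1), (7, -4), (8, -2), (9, -12), (10, 1), (11, 1), (17, 1)])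
                            (.mv 90))))
                         (.mv 93))
                        (.mv 92))
                       (.mv 91))
                      (.mv 78)))
                    (.mv 106))
                   (.mv 99))
                  (.mv 104))
                 (.mv 103))))
              (.mv 58))
             (.mv 29))
            (.mv 4))
           (.br 0 0
            (.br 11 0
             (.br 12 0
              (.fk [(0, 4), (1, -4), (2, 32), (3, 19), (4, -1), (5, -11), (6, 2), (7, -9), (8, 4), (17, 1)])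
              (.mv 12))
             (.mv 4))
            (.mv 76))))
         (.br 17 0
          (.br 0 0
           (.br 32 0
            (.fk [(5, -1), (6, -1), (7, 1), (8, -1), (11, -2), (13, 2)])
            (.br 31 0
             (.br 11 0
              (.fk [(0, 10), (1, -16), (2, -2), (3, -1), (4, -1), (5, 3), (6, -1), (7, -2), (8, 3), (10, -13), (13, 3)])
              (.br 6 0
               (.br 15 0
                (.fk [(0, 48), (1, -55), (2, 47), (3, -49), (4, 23), (5, 6), (6, 6), (7, -18), (8, 13), (9, 9), (10, -34), (11, 6), (13, 6)])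
                (.mv 64))
               (.mv 38)))
             (.mv 55)))
           (.br 6 0
            (.br 5 0
             (.br 12 0
              (.br 15 0
               (.br 4 0
                (.fk [(0, 8), (1, 32), (2, 24), (3, -64), (4, 32), (5, 2), (6, 3), (7, -6), (8, -2)])
                (.br 11 0
                 (.fk [(0, -12), (2, 12), (3, 12), (4, -4), (5, -9), (6, -9), (7, -3), (8, 3)])
                 (.mv 53)))
               (.br 11 0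
                (.fk [(0, -12), (2, 12), (3, 12), (4, -4), (5, -9), (6, -9), (7, -3), (8, 3)])
                (.mv 64)))
              (.mv 20))
             (.mv 16))
            (.mv 66)))
          (.mv 2)))
        (.mv 23))
       (.mv 7))
      (.br 11 0
       (.br 20 0
        (.br 23 0
         (.br 28 0
          (.br 19 0
           (.fk [(0, -4), (2, 4), (5, 1), (7, -1), (8, 1)])
           (.br 12 0
            (.br 15 0
             (.br 4 0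
              (.br 17 0
               (.br 32 0
                (.fk [(0, -6), (2, 6), (3, 6), (4, -2), (5, -4), (6, 2), (7, 1), (8, -1), (11, -5), (13, 5)])
                (.br 31 0
                 (.br 0 0
                  (.fk [(0, 30), (1, -39), (2, -15), (3, 18), (4, -10), (5, 6), (6, -3), (7, -3), (8, 6), (10, -33), (13, 6)])
                  (.br 6 0
                   (.br 5 0
                    (.fk [(0, -14), (1, 72), (2, 86), (3, 87), (4, -5), (5, 4), (6, 17), (7, -22), (8, 4), (10, -1), (11, 1)])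
                    (.mv 16))
                   (.mv 66)))
                 (.mv 99)))
               (.mv 42))
              (.mv 26))
             (.mv 15))
            (.mv 56)))
          (.mv 23))
         (.mv 7))
        (.mv 22))
       (.mv 21)))
     (.mv 13)))
   (.mv 0))
  (.mv 1))

def EB10_1_0_0 : Inst where
  rows :=
   [(false, [1, 1, 1, 0, 0, 0, 0, 0, 0, 0, 0, 0, 0, 0, 0, 0, 0, 0, 0, 0, 0, 0, 0, 0, 0, 0, 0, 0, 0, 0, 0, 0, 0, -1, 0], 0),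
    (false, [0, 0, 0, 1, 1, 1, 1, 1, 0, 0, 0, 0, 0, 0, 0, 0, 0, 0, 0, 0, 0, 0, 0, 0, 0, 0, 0, 0, 0, 0, 0, 0, 0, -1, 0], 0),
    (false, [0, 0, 0, 0, 0, 0, 0, 0, 1, 1, 1, 0, 0, 0, 0, 0, 0, 0, 0, 0, 0, 0, 0, 0, 0, 0, 0, 0, 0, 0, 0, 0, 0, -1, 0], 0),
    (false, [0, 0, 0, 0, 0, 0, 0, 0, 0, 0, 0, 1, 1, 1, 0, 0, 0, 0, 0, 0, 0, 0, 0, 0, 0, 0, 0, 0, 0, 0, 0, 0, 0, 0, -1], 0),
    (false, [0, 0, 0, 0, 0, 0, 0, 0, 0, 0, 0, 0, 0, 0, 1, 1, 1, 1, 1, 0, 0, 0, 0, 0, 0, 0, 0, 0, 0, 0, 0, 0, 0, 0, -3], 0),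
    (false, [0, 0, 0, 0, 0, 0, 0, 0, 0, 0, 0, 0, 0, 0, 0, 0, 0, 0, 0, 1, 1, 1, 1, 0, 0, 0, 0, 0, 0, 0, 0, 0, 0, 0, 0], 1),
    (false, [0, 0, 0, 0, 0, 0, 0, 0, 0, 0, 0, 0, 0, 0, 0, 0, 0, 0, 0, 0, 0, 0, 0, 1, 1, 1, 1, 0, 0, 0, 0, 0, 0, 0, 0], 1),
    (false, [0, 1, 4, 4, 1, 0, 1, 4, 0, 1, 4, 0, 1, 4, 4, 1, 0, 1, 4, 1, 0, 1, 4, 1, 0, 1, 4, 0, 1, 4, 0, 0, 0, -8, -4], 1),
    (false, [4, 1, 0, 4, 1, 0, 1, 4, 4, 1, 0, 4, 1, 0, 4, 1, 0, 1, 4, 4, 1, 0, 1, 4, 1, 0, 1, 0, 1, 4, 0, 0, 0, -8, -4], 1),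
    (false, [-1, -1, -1, 1, 1, 1, 1, 1, -1, -1, -1, -1, -1, -1, 1, 1, 1, 1, 1, 0, 0, 0, 0, 0, 0, 0, 0, 1, 1, 1, -1, 0, 0, 0, 0], 0),
    (false, [1, 1, 1, -1, -1, -1, -1, -1, -1, -1, -1, 0, 0, 0, 0, 0, 0, 0, 0, 1, 1, 1, 1, 0, 0, 0, 0, 1, 1, 1, 0, -1, 0, 0, 0], 0),
    (false, [-1, 0, 1, -1, 0, 1, 0, -1, -1, 0, 1, -1, 0, 1, -1, 0, 1, 0, -1, -1, 0, 1, 0, -1, 0, 1, 0, 1, 0, -1, 0, 0, -1, 0, 0], 0),
    (true, [-1, -1, -1, -1, -1, -1, -1, -1, 1, 1, 1, 0, 0, 0, 0, 0, 0, 0, 0, 0, 0, 0, 0, 1, 1, 1, 1, 1, 1, 1, 0, 0, 0, 0, 0], 0),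
    (true, [1, 0, -1, -1, 0, 1, 0, -1, 1, 0, -1, 1, 0, -1, -1, 0, 1, 0, -1, 0, 1, 0, -1, 0, 1, 0, -1, 1, 0, -1, 0, 0, 0, 0, 0], 0),
    (true, [4, 1, 0, 16, 9, 4, 1, 0, 0, 1, 4, 1, 0, 1, 9, 4, 1, 0, 1, 4, 1, 0, 1, 1, 0, 1, 4, 0, 1, 4, 0, 0, 0, 0, 0], 1),
    (true, [0, 0, 0, 0, 0, 0, 0, 0, 0, 0, 0, 0, 0, 0, 0, 0, 0, 0, 0, 0, 0, 0, 0, 0, 0, 0, 0, 0, 0, 0, 0, 0, 0, 1, 0], 0),
    (true, [0, 0, 0, 0, 0, 0, 0, 0, 0, 0, 0, 0, 0, 0, 0, 0, 0, 0, 0, 0, 0, 0, 0, 0, 0, 0, 0, 0, 0, 0, 0, 0, 0, 0, 1], 0),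
    (true, [4, 1, 0, 16, 9, 4, 1, 0, 0, 1, 4, 1, 0, 1, 9, 4, 1, 0, 1, 4, 1, 0, 1, 1, 0, 1, 4, 0, 1, 4, 0, 0, 0, -8, -4], 3)]
  moves := EB10_moves1
  reqs := EB10_reqs1
  tree := EB10_1_0_0_tree

theorem EB10_1_0_0_ok : EB10.instOK 1 0 0 EB10_1_0_0 = true := by
  decide +kernel

def EB10_1_1_0_tree : Tree :=
  (.br 8 0
  (.br 24 0
   (.br 25 0
    (.br 23 0
     (.br 27 0
      (.br 16 0
       (.br 5 0
        (.br 17 0
         (.fk [(3, -3), (4, 1), (5, -2), (6, 5), (8, 1), (11, 2), (13, 2), (17, 1)])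
         (.br 21 0
          (.fk [(5, -1), (6, 3), (7, -1), (8, 1), (11, 4)])
          (.mv 2)))
        (.br 19 0
         (.br 0 0
          (.br 17 0
           (.fk [(3, -3), (4, 1), (5, -2), (6, 5), (8, 1), (11, 2), (13, 2), (17, 1)])
           (.br 21 0
            (.br 11 0
             (.fk [(5, -1), (6, 3), (7, -1), (8, 1)])
             (.br 20 0
              (.br 22 0
               (.fk [(5, 1)])
               (.mv 37))
              (.mv 4)))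
            (.mv 2)))
          (.mv 16))
         (.br 26 0
          (.fk [(5, -1), (6, 1)])
          (.mv 40))))
       (.br 11 0
        (.br 20 0
         (.br 9 0
          (.br 10 0
           (.br 17 0
            (.br 12 0
             (.fk [(0, -4), (1, -8), (2, 44), (3, 19), (4, -1), (5, 4), (6, 4), (7, -4), (8, 7), (13, 4), (17, 7)])
             (.br 19 0
              (.fk [(0, -4), (2, 4), (5, 1), (6, 1), (7, -1), (8, 1)])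
              (.mv 56)))
            (.br 12 0
             (.fk [(0, -28), (1, 26), (2, 210), (3, 155), (4, -17), (5, 20), (6, 20), (7, -28), (8, 25), (13, 20), (17, 23)])
             (.mv 12)))
           (.br 26 0
            (.fk [(6, 1)])
            (.mv 3)))
          (.br 21 0
           (.br 22 0
            (.br 19 0
             (.fk [(5, 1)])
             (.mv 48))
            (.mv 28))
           (.br 26 0
            (.fk [(5, -1), (6, 1)])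
            (.mv 70))))
         (.mv 22))
        (.mv 21)))
      (.br 1 0
       (.br 7 0
        (.br 9 0
         (.br 10 0
          (.br 17 0
           (.br 16 0
            (.fk [(0, -24), (1, -26), (2, 98), (3, -3), (4, 9), (5, 3), (6, 30), (7, -3), (8, 2), (17, 5)])
            (.br 11 0
             (.br 12 0
              (.fk [(1, -8), (2, 40), (3, 13), (4, 1), (5, 2), (6, 4), (7, -2), (8, 3), (17, 5)])
              (.br 19 0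
               (.fk [(0, -4), (1, -3), (2, 7), (5, -1), (6, 3), (7, -1), (8, 1)])
               (.mv 56)))
             (.mv 21)))
           (.br 12 0
            (.br 21 0
             (.br 11 0
              (.fk [(0, -12), (2, 60), (3, 36), (4, -4), (5, -3), (6, 10), (7, -9), (8, 3)])
              (.br 20 0
               (.br 16 0
                (.fk [(0, -27), (2, 291), (3, 36), (4, 32), (5, 60), (6, 60), (7, -9), (8, -24)])
                (.mv 21))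
               (.mv 4)))
             (.mv 2))
            (.mv 12)))
          (.br 26 0
           (.fk [(6, 1)])
           (.mv 3)))
         (.br 26 0
          (.fk [(6, 1)])
          (.mv 60)))
        (.br 2 0
         (.br 9 0
          (.br 10 0
           (.fk [(0, -1), (1, -1), (2, 2)])
           (.br 26 0
            (.fk [(6, 1)])
            (.mv 3)))
          (.br 26 0
           (.fk [(6, 1)])
           (.mv 60)))
         (.mv 17)))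
       (.br 9 0
        (.br 10 0
         (.fk [(0, -1), (2, 1)])
         (.br 26 0
          (.fk [(6, 1)])
          (.mv 3)))
        (.br 26 0
         (.fk [(6, 1)])
         (.mv 60)))))
     (.br 9 0
      (.br 16 0
       (.br 28 0
        (.br 17 0
         (.br 6 0
          (.br 1 0
           (.fk [(0, 12), (1, 12), (2, 24), (3, 3), (4, 7), (5, 3), (6, 3), (7, -3), (17, 3)])
           (.br 5 0
            (.fk [(0, 84), (1, 396), (2, 576), (3, -15), (4, 181), (5, 21), (6, 48), (7, -111), (8, 12), (17, 33)])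
            (.mv 30)))
          (.br 2 0
           (.br 1 0
            (.fk [(0, 116), (1, 12), (2, 112), (3, 3), (4, 39), (5, 1), (6, 18), (7, -1), (8, -2), (17, 27)])
            (.mv 9))
           (.mv 27)))
         (.br 12 0
          (.br 13 0
           (.br 20 0
            (.br 21 0
             (.br 1 0
              (.br 22 0
               (.br 6 0
                (.br 10 0
                 (.fk [(2, 8), (3, 4), (5, 1), (6, 1), (8, -1)])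
                 (.br 19 0
                  (.fk [(5, 1), (6, -1)])
                  (.mv 65)))
                (.br 2 0
                 (.fk [(0, 172), (1, -12), (2, 16), (3, 97), (4, -3), (5, 34), (6, 34), (7, 21), (8, -18), (17, 25)])
                 (.mv 27)))
               (.br 27 0
                (.fk [(0, 36), (1, 80), (2, 76), (3, 36), (4, 20), (5, 11), (6, 11), (7, -12), (8, -8), (10, 49), (11, 11), (12, 37), (13, 11), (17, 4)])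
                (.mv 88)))
              (.br 10 0
               (.fk [(2, 8), (3, 4), (5, 1), (6, 1), (8, -1)])
               (.mv 72)))
             (.mv 2))
            (.br 2 0
             (.br 10 0
              (.fk [(0, -1), (2, 9), (3, 4), (6, 1), (8, -1)])
              (.mv 95))
             (.mv 86)))
           (.mv 36))
          (.mv 12)))
        (.mv 5))
       (.br 20 0
        (.br 12 0
         (.br 11 0
          (.br 1 0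
           (.br 28 0
            (.br 22 0
             (.br 21 0
              (.fk [(0, 12), (1, 8), (2, 44), (3, 26), (4, 2), (5, 17), (6, -18), (7, -5), (8, 3), (17, 6)])
              (.br 17 0
               (.fk [(0, 24), (1, 12), (2, 60), (3, 33), (4, 5), (5, 2), (6, -1), (7, -6), (8, 3), (17, 9)])
               (.mv 2)))
             (.mv 47))
            (.mv 5))
           (.mv 46))
          (.mv 21))
         (.mv 57))
        (.mv 22)))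
      (.mv 18)))
    (.br 9 0
     (.br 20 0
      (.br 17 0
       (.br 23 0
        (.br 28 0
         (.br 16 0
          (.fk [(0, 4), (1, 4), (2, 24), (3, -5), (4, 7), (5, 3), (6, 3), (7, -3), (8, 2), (17, 3)])
          (.br 11 0
           (.br 12 0
            (.fk [(2, 8), (3, 4), (5, 1), (6, 1), (7, -1), (8, 1), (17, 1)])
            (.br 18 0
             (.fk [(1, -20), (2, 36), (3, -7), (4, 5), (5, 2), (6, 2), (7, -2), (8, 7), (17, 7)])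
             (.mv 67)))
           (.mv 21)))
         (.mv 23))
        (.mv 7))
       (.br 21 0
        (.br 1 0
         (.br 11 0
          (.br 19 0
           (.fk [(0, -4), (2, 4), (5, 3), (6, -3), (7, -1), (8, 1)])
           (.mv 42))
          (.mv 25))
         (.mv 45))
        (.mv 2)))
      (.br 11 0
       (.br 23 0
        (.br 16 0
         (.br 17 0
          (.fk [(0, 40), (1, 16), (2, 264), (3, 4), (4, 52), (5, -23), (6, 33), (7, -30), (8, 26), (17, 36)])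
          (.br 0 0
           (.br 12 0
            (.fk [(0, -12), (1, -4), (2, 32), (3, 23), (4, -5), (5, -7), (6, 4), (7, -5), (8, 6), (17, 3)])
            (.mv 12))
           (.mv 76)))
         (.mv 22))
        (.mv 7))
       (.mv 4)))
     (.mv 13)))
   (.mv 0))
  (.mv 1))

def EB10_1_1_0 : Inst where
  rows :=
   [(false, [1, 1, 1, 0, 0, 0, 0, 0, 0, 0, 0, 0, 0, 0, 0, 0, 0, 0, 0, 0, 0, 0, 0, 0, 0, 0, 0, 0, 0, 0, 0, 0, 0, -1, 0], 0),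
    (false, [0, 0, 0, 1, 1, 1, 1, 1, 0, 0, 0, 0, 0, 0, 0, 0, 0, 0, 0, 0, 0, 0, 0, 0, 0, 0, 0, 0, 0, 0, 0, 0, 0, -1, 0], 0),
    (false, [0, 0, 0, 0, 0, 0, 0, 0, 1, 1, 1, 0, 0, 0, 0, 0, 0, 0, 0, 0, 0, 0, 0, 0, 0, 0, 0, 0, 0, 0, 0, 0, 0, -1, 0], 0),
    (false, [0, 0, 0, 0, 0, 0, 0, 0, 0, 0, 0, 1, 1, 1, 0, 0, 0, 0, 0, 0, 0, 0, 0, 0, 0, 0, 0, 0, 0, 0, 0, 0, 0, 0, -1], 0),
    (false, [0, 0, 0, 0, 0, 0, 0, 0, 0, 0, 0, 0, 0, 0, 1, 1, 1, 1, 1, 0, 0, 0, 0, 0, 0, 0, 0, 0, 0, 0, 0, 0, 0, 0, -3], 0),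
    (false, [0, 0, 0, 0, 0, 0, 0, 0, 0, 0, 0, 0, 0, 0, 0, 0, 0, 0, 0, 1, 1, 1, 1, 0, 0, 0, 0, 0, 0, 0, 0, 0, 0, 0, 0], 1),
    (false, [0, 0, 0, 0, 0, 0, 0, 0, 0, 0, 0, 0, 0, 0, 0, 0, 0, 0, 0, 0, 0, 0, 0, 1, 1, 1, 1, 0, 0, 0, 0, 0, 0, 0, 0], 1),
    (false, [0, 1, 4, 4, 1, 0, 1, 4, 0, 1, 4, 0, 1, 4, 4, 1, 0, 1, 4, 1, 0, 1, 4, 1, 0, 1, 4, 0, 1, 4, 0, 0, 0, -8, -4], 1),
    (false, [4, 1, 0, 4, 1, 0, 1, 4, 4, 1, 0, 4, 1, 0, 4, 1, 0, 1, 4, 4, 1, 0, 1, 4, 1, 0, 1, 0, 1, 4, 0, 0, 0, -8, -4], 1),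
    (false, [-1, -1, -1, 1, 1, 1, 1, 1, -1, -1, -1, -1, -1, -1, 1, 1, 1, 1, 1, 0, 0, 0, 0, 0, 0, 0, 0, 1, 1, 1, -1, 0, 0, 0, 0], 0),
    (false, [1, 1, 1, -1, -1, -1, -1, -1, -1, -1, -1, 0, 0, 0, 0, 0, 0, 0, 0, 1, 1, 1, 1, 0, 0, 0, 0, 1, 1, 1, 0, -1, 0, 0, 0], 0),
    (false, [-1, 0, 1, -1, 0, 1, 0, -1, -1, 0, 1, -1, 0, 1, -1, 0, 1, 0, -1, -1, 0, 1, 0, -1, 0, 1, 0, 1, 0, -1, 0, 0, -1, 0, 0], 0),
    (true, [-1, -1, -1, -1, -1, -1, -1, -1, 1, 1, 1, 0, 0, 0, 0, 0, 0, 0, 0, 0, 0, 0, 0, 1, 1, 1, 1, 1, 1, 1, 0, 0, 0, 0, 0], 0),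
    (true, [1, 0, -1, -1, 0, 1, 0, -1, 1, 0, -1, 1, 0, -1, -1, 0, 1, 0, -1, 0, 1, 0, -1, 0, 1, 0, -1, 1, 0, -1, 0, 0, 0, 0, 0], 0),
    (true, [4, 1, 0, 16, 9, 4, 1, 0, 0, 1, 4, 1, 0, 1, 9, 4, 1, 0, 1, 4, 1, 0, 1, 1, 0, 1, 4, 0, 1, 4, 0, 0, 0, 0, 0], 1),
    (true, [0, 0, 0, 0, 0, 0, 0, 0, 0, 0, 0, 0, 0, 0, 0, 0, 0, 0, 0, 0, 0, 0, 0, 0, 0, 0, 0, 0, 0, 0, 0, 0, 0, 1, 0], 0),
    (true, [0, 0, 0, 0, 0, 0, 0, 0, 0, 0, 0, 0, 0, 0, 0, 0, 0, 0, 0, 0, 0, 0, 0, 0, 0, 0, 0, 0, 0, 0, 0, 0, 0, 0, 1], 0),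
    (true, [-4, -1, 0, -16, -9, -4, -1, 0, 0, -1, -4, -1, 0, -1, -9, -4, -1, 0, -1, -4, -1, 0, -1, -1, 0, -1, -4, 0, -1, -4, 0, 0, 0, 8, 4], -1)]
  moves := EB10_moves1
  reqs := EB10_reqs1
  tree := EB10_1_1_0_tree

theorem EB10_1_1_0_ok : EB10.instOK 1 1 0 EB10_1_1_0 = true := by
  decide +kernel

def EB10_1_2_0_tree : Tree :=
  (.br 8 0
  (.br 16 0
   (.br 20 0
    (.br 24 0
     (.br 9 0
      (.br 17 0
       (.fk [(0, 4), (1, 4), (2, 24), (3, -5), (4, 7), (5, 3), (6, -2), (7, -3), (8, 2), (17, -3), (18, 24)])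
       (.br 21 0
        (.br 1 0
         (.br 11 0
          (.br 12 0
           (.fk [(0, 12), (1, 8), (2, 44), (3, 26), (4, 2), (5, 17), (6, -1), (7, -5), (8, 3), (17, -6), (18, 17)])
           (.mv 12))
          (.br 12 0
           (.br 25 0
            (.br 22 0
             (.br 10 0
              (.fk [(0, -66), (1, -74), (2, 796), (3, 91), (4, 79), (5, 148), (6, 148), (7, -23), (8, -60), (17, 1), (18, 148)])
              (.br 19 0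
               (.fk [(5, 1)])
               (.mv 65)))
             (.mv 37))
            (.mv 25))
           (.mv 12)))
         (.br 6 0
          (.br 10 0
           (.fk [(0, -3), (1, -3), (2, 38), (3, 4), (4, 4), (5, 7), (6, 3), (7, -3), (8, -1), (18, 7)])
           (.br 19 0
            (.br 23 0
             (.br 26 0
              (.br 25 0
               (.fk [(6, 1)])
               (.mv 45))
              (.mv 3))
             (.mv 72))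
            (.mv 65)))
          (.mv 9)))
        (.mv 2)))
      (.br 25 0
       (.br 23 0
        (.br 18 0
         (.br 7 0
          (.br 17 0
           (.fk [(3, -3), (4, 1), (6, 3), (8, 1), (17, -1), (18, 3)])
           (.br 21 0
            (.br 27 0
             (.br 28 0
              (.fk [(0, -4), (2, 4), (5, -3), (6, 3), (7, -1), (8, 1), (10, 4), (11, 4), (18, 4)])
              (.mv 10))
             (.br 26 0
              (.fk [(6, 1)])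
              (.mv 60)))
            (.mv 2)))
          (.br 2 0
           (.br 27 0
            (.br 28 0
             (.fk [(0, -4), (2, 4), (5, -5), (6, 1), (7, 1), (8, -1), (10, 4), (13, 4), (18, 4)])
             (.mv 10))
            (.br 26 0
             (.fk [(6, 1)])
             (.mv 60)))
           (.mv 17)))
         (.br 21 0
          (.br 27 0
           (.br 28 0
            (.fk [(0, -2), (2, 2), (5, -1), (6, 1), (10, 2), (11, 1), (13, 1), (18, 1)])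
            (.mv 10))
           (.br 26 0
            (.fk [(6, 1)])
            (.mv 60)))
          (.mv 33)))
        (.mv 18))
       (.mv 13)))
     (.mv 0))
    (.br 9 0
     (.br 11 0
      (.br 17 0
       (.fk [(0, 44), (1, 32), (2, 276), (3, 8), (4, 56), (5, -289), (6, -31), (7, -33), (8, 25), (17, -36), (18, 300)])
       (.br 12 0
        (.fk [(0, 12), (1, 12), (2, 72), (3, 45), (4, 1), (5, -69), (6, -6), (7, -9), (8, 6), (17, -9), (18, 72)])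
        (.mv 12)))
      (.mv 4))
     (.br 23 0
      (.br 25 0
       (.br 24 0
        (.br 14 0
         (.br 7 0
          (.br 11 0
           (.br 18 0
            (.br 17 0
             (.fk [(3, -3), (4, 1), (5, -9), (6, 9), (8, 3), (17, -3), (18, 9)])
             (.mv 39))
            (.br 13 0
             (.br 12 0
              (.fk [(3, 18), (4, -6), (5, -3), (6, 3), (8, 1), (17, -1), (18, 3)])
              (.mv 52))
             (.mv 6)))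
           (.mv 4))
          (.br 2 0
           (.br 26 0
            (.fk [(5, -1), (6, 1)])
            (.mv 34))
           (.mv 17)))
         (.mv 43))
        (.mv 0))
       (.mv 13))
      (.mv 18))))
   (.br 20 0
    (.br 11 0
     (.br 24 0
      (.br 9 0
       (.br 17 0
        (.br 12 0
         (.fk [(0, 12), (1, 12), (2, 72), (3, 45), (4, 1), (5, 9), (6, -6), (7, -9), (8, 6), (17, -9), (18, 72)])
         (.br 21 0
          (.br 23 0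
           (.br 19 0
            (.fk [(0, -4), (2, 4), (5, 1), (6, 1), (7, -1), (8, 1)])
            (.mv 56))
           (.mv 57))
          (.mv 20)))
        (.br 12 0
         (.fk [(1, 4), (2, 28), (3, 19), (4, -1), (5, 4), (6, -5), (7, -4), (8, 3), (17, -3), (18, 24)])
         (.mv 12)))
       (.br 19 0
        (.br 25 0
         (.br 23 0
          (.br 27 0
           (.br 28 0
            (.br 29 0
             (.br 17 0
              (.br 12 0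
               (.fk [(0, 8), (1, 40), (2, -16), (3, 151), (4, -45), (5, 5), (6, 24), (7, -25), (8, 24), (9, 48), (10, 20), (12, 64), (17, -3), (18, 24)])
               (.br 21 0
                (.fk [(0, -5), (1, 5), (6, 1), (7, -1), (8, 1), (10, 3), (12, 2)])
                (.mv 20)))
              (.br 21 0
               (.fk [(0, -5), (1, 5), (6, 1), (7, -1), (8, 1), (10, 3), (12, 2)])
               (.mv 2)))
             (.br 26 0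
              (.fk [(6, 1)])
              (.mv 14)))
            (.mv 10))
           (.br 26 0
            (.fk [(6, 1)])
            (.mv 60)))
          (.mv 18))
         (.mv 13))
        (.mv 48)))
      (.mv 0))
     (.mv 21))
    (.mv 22)))
  (.mv 1))

def EB10_1_2_0 : Inst where
  rows :=
   [(false, [1, 1, 1, 0, 0, 0, 0, 0, 0, 0, 0, 0, 0, 0, 0, 0, 0, 0, 0, 0, 0, 0, 0, 0, 0, 0, 0, 0, 0, 0, 0, 0, 0, -1, 0], 0),
    (false, [0, 0, 0, 1, 1, 1, 1, 1, 0, 0, 0, 0, 0, 0, 0, 0, 0, 0, 0, 0, 0, 0, 0, 0, 0, 0, 0, 0, 0, 0, 0, 0, 0, -1, 0], 0),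
    (false, [0, 0, 0, 0, 0, 0, 0, 0, 1, 1, 1, 0, 0, 0, 0, 0, 0, 0, 0, 0, 0, 0, 0, 0, 0, 0, 0, 0, 0, 0, 0, 0, 0, -1, 0], 0),
    (false, [0, 0, 0, 0, 0, 0, 0, 0, 0, 0, 0, 1, 1, 1, 0, 0, 0, 0, 0, 0, 0, 0, 0, 0, 0, 0, 0, 0, 0, 0, 0, 0, 0, 0, -1], 0),
    (false, [0, 0, 0, 0, 0, 0, 0, 0, 0, 0, 0, 0, 0, 0, 1, 1, 1, 1, 1, 0, 0, 0, 0, 0, 0, 0, 0, 0, 0, 0, 0, 0, 0, 0, -3], 0),
    (false, [0, 0, 0, 0, 0, 0, 0, 0, 0, 0, 0, 0, 0, 0, 0, 0, 0, 0, 0, 1, 1, 1, 1, 0, 0, 0, 0, 0, 0, 0, 0, 0, 0, 0, 0], 1),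
    (false, [0, 0, 0, 0, 0, 0, 0, 0, 0, 0, 0, 0, 0, 0, 0, 0, 0, 0, 0, 0, 0, 0, 0, 1, 1, 1, 1, 0, 0, 0, 0, 0, 0, 0, 0], 1),
    (false, [0, 1, 4, 4, 1, 0, 1, 4, 0, 1, 4, 0, 1, 4, 4, 1, 0, 1, 4, 1, 0, 1, 4, 1, 0, 1, 4, 0, 1, 4, 0, 0, 0, -8, -4], 1),
    (false, [4, 1, 0, 4, 1, 0, 1, 4, 4, 1, 0, 4, 1, 0, 4, 1, 0, 1, 4, 4, 1, 0, 1, 4, 1, 0, 1, 0, 1, 4, 0, 0, 0, -8, -4], 1),
    (false, [-1, -1, -1, 1, 1, 1, 1, 1, -1, -1, -1, -1, -1, -1, 1, 1, 1, 1, 1, 0, 0, 0, 0, 0, 0, 0, 0, 1, 1, 1, -1, 0, 0, 0, 0], 0),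
    (false, [1, 1, 1, -1, -1, -1, -1, -1, -1, -1, -1, 0, 0, 0, 0, 0, 0, 0, 0, 1, 1, 1, 1, 0, 0, 0, 0, 1, 1, 1, 0, -1, 0, 0, 0], 0),
    (false, [-1, 0, 1, -1, 0, 1, 0, -1, -1, 0, 1, -1, 0, 1, -1, 0, 1, 0, -1, -1, 0, 1, 0, -1, 0, 1, 0, 1, 0, -1, 0, 0, -1, 0, 0], 0),
    (true, [-1, -1, -1, -1, -1, -1, -1, -1, 1, 1, 1, 0, 0, 0, 0, 0, 0, 0, 0, 0, 0, 0, 0, 1, 1, 1, 1, 1, 1, 1, 0, 0, 0, 0, 0], 0),
    (true, [1, 0, -1, -1, 0, 1, 0, -1, 1, 0, -1, 1, 0, -1, -1, 0, 1, 0, -1, 0, 1, 0, -1, 0, 1, 0, -1, 1, 0, -1, 0, 0, 0, 0, 0], 0),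
    (true, [4, 1, 0, 16, 9, 4, 1, 0, 0, 1, 4, 1, 0, 1, 9, 4, 1, 0, 1, 4, 1, 0, 1, 1, 0, 1, 4, 0, 1, 4, 0, 0, 0, 0, 0], 1),
    (true, [0, 0, 0, 0, 0, 0, 0, 0, 0, 0, 0, 0, 0, 0, 0, 0, 0, 0, 0, 0, 0, 0, 0, 0, 0, 0, 0, 0, 0, 0, 0, 0, 0, 1, 0], 0),
    (true, [0, 0, 0, 0, 0, 0, 0, 0, 0, 0, 0, 0, 0, 0, 0, 0, 0, 0, 0, 0, 0, 0, 0, 0, 0, 0, 0, 0, 0, 0, 0, 0, 0, 0, 1], 0),
    (false, [4, 1, 0, 16, 9, 4, 1, 0, 0, 1, 4, 1, 0, 1, 9, 4, 1, 0, 1, 4, 1, 0, 1, 1, 0, 1, 4, 0, 1, 4, 0, 0, 0, -8, -4], 2),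
    (true, [0, 0, 0, 1, 1, 0, 0, 0, 0, 0, 0, 0, 0, 0, 1, 0, 0, 0, 0, 0, 0, 0, 0, 0, 0, 0, 0, 0, 0, 0, 0, 0, 0, 0, 0], 1)]
  moves := EB10_moves1
  reqs := EB10_reqs1
  tree := EB10_1_2_0_tree

theorem EB10_1_2_0_ok : EB10.instOK 1 2 0 EB10_1_2_0 = true := by
  decide +kernel

def EB10_1_3_0_tree : Tree :=
  (.br 8 0
  (.br 24 0
   (.br 23 0
    (.br 9 0
     (.br 0 0
      (.br 1 0
       (.br 16 0
        (.fk [(0, 10), (1, 4), (2, 18), (3, -5), (4, 7), (5, 1), (6, 6), (7, -3), (8, 2), (17, -3), (18, 6)])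
        (.br 11 0
         (.fk [(0, 130), (1, 36), (2, 122), (3, 81), (4, 21), (5, 25), (6, 52), (7, -11), (8, 16), (17, -41), (18, 86)])
         (.mv 21)))
       (.br 7 0
        (.br 6 0
         (.br 16 0
          (.fk [(1, 10), (2, 22), (3, -5), (4, 7), (5, -3), (6, 6), (7, -3), (8, 2), (10, 4), (17, -3), (18, 6)])
          (.br 11 0
           (.fk [(0, -16), (1, 164), (2, 300), (3, 83), (4, 47), (5, 15), (6, 86), (7, -41), (8, 44), (12, 14), (17, -59), (18, 86)])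
           (.mv 21)))
         (.mv 9))
        (.br 25 0
         (.br 6 0
          (.br 10 0
           (.fk [(0, -1), (1, -1), (2, 10), (3, 1), (4, 1), (5, 1), (6, 2), (17, -1), (18, 2)])
           (.br 26 0
            (.fk [(6, 1)])
            (.mv 3)))
          (.mv 9))
         (.mv 44))))
      (.br 5 0
       (.br 6 0
        (.br 16 0
         (.fk [(0, 16), (1, 34), (2, 30), (3, 10), (4, 10), (5, 4), (6, 6), (7, -6), (8, -1), (9, 3), (12, 3), (17, -3), (18, 6)])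
         (.br 20 0
          (.br 11 0
           (.fk [(0, 2), (1, 4), (2, 10), (3, 2), (4, 2), (5, 2), (6, 2), (7, -1), (8, 1), (10, 1), (12, 1), (17, -2), (18, 2)])
           (.mv 21))
          (.mv 22)))
        (.br 25 0
         (.br 1 0
          (.br 10 0
           (.fk [(0, -1), (1, -1), (2, 10), (3, 1), (4, 1), (5, 1), (6, 2), (17, -1), (18, 2)])
           (.br 26 0
            (.fk [(6, 1)])
            (.mv 3)))
          (.mv 9))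
         (.mv 66)))
       (.mv 16)))
     (.br 25 0
      (.br 28 0
       (.br 16 0
        (.br 0 0
         (.br 27 0
          (.fk [(0, -2), (2, 2), (3, -3), (4, 1), (5, -3), (6, 4), (7, -1), (8, 2), (10, 2), (11, 4), (17, -1), (18, 2)])
          (.br 26 0
           (.fk [(6, 1)])
           (.mv 60)))
         (.br 5 0
          (.br 10 0
           (.br 18 0
            (.fk [(3, -3), (4, 1), (6, 3), (8, 3), (11, 6), (17, -3), (18, 6)])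
            (.br 13 0
             (.fk [(8, 1), (11, 3), (17, -1), (18, 3)])
             (.mv 6)))
           (.br 26 0
            (.fk [(6, 1)])
            (.mv 3)))
          (.mv 16)))
        (.br 22 0
         (.br 20 0
          (.br 19 0
           (.br 11 0
            (.br 21 0
             (.fk [(5, 1)])
             (.br 26 0
              (.fk [(5, -1), (6, 1)])
              (.mv 70)))
            (.mv 21))
           (.mv 48))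
          (.mv 22))
         (.mv 28)))
       (.mv 10))
      (.mv 13)))
    (.br 9 0
     (.br 16 0
      (.br 28 0
       (.br 1 0
        (.br 25 0
         (.br 6 0
          (.fk [(0, 20), (1, 12), (2, 16), (3, 9), (4, 5), (5, 5), (6, -6), (7, -1), (9, 4), (12, 4), (17, -5), (18, 8)])
          (.br 2 0
           (.br 13 0
            (.fk [(0, 40), (1, 6), (2, 2), (3, 6), (4, 6), (5, -6), (6, 9), (7, 4), (8, -1), (11, 9), (17, -9), (18, 9)])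
            (.mv 54))
           (.mv 27)))
         (.mv 7))
        (.br 6 0
         (.br 5 0
          (.fk [(0, 4), (1, 10), (2, 10), (3, 3), (4, 3), (5, 1), (6, 2), (7, -2), (9, 1), (11, 1), (17, -1), (18, 2)])
          (.mv 30))
         (.mv 9)))
       (.mv 5))
      (.br 20 0
       (.br 1 0
        (.br 6 0
         (.br 28 0
          (.br 11 0
           (.fk [(0, 18), (1, 20), (2, 10), (3, 9), (4, 5), (5, 8), (6, -9), (7, -1), (10, 1), (12, 7), (17, -5), (18, 8)])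
           (.mv 21))
          (.mv 5))
         (.br 22 0
          (.br 2 0
           (.br 21 0
            (.fk [(0, 2), (1, 2), (2, 4), (3, 1), (4, 1), (5, 2), (6, -1), (10, 1), (17, -1), (18, 1)])
            (.mv 61))
           (.mv 27))
          (.mv 47)))
        (.mv 46))
       (.mv 22)))
     (.mv 18)))
   (.mv 0))
  (.mv 1))

def EB10_1_3_0 : Inst where
  rows :=
   [(false, [1, 1, 1, 0, 0, 0, 0, 0, 0, 0, 0, 0, 0, 0, 0, 0, 0, 0, 0, 0, 0, 0, 0, 0, 0, 0, 0, 0, 0, 0, 0, 0, 0, -1, 0], 0),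
    (false, [0, 0, 0, 1, 1, 1, 1, 1, 0, 0, 0, 0, 0, 0, 0, 0, 0, 0, 0, 0, 0, 0, 0, 0, 0, 0, 0, 0, 0, 0, 0, 0, 0, -1, 0], 0),
    (false, [0, 0, 0, 0, 0, 0, 0, 0, 1, 1, 1, 0, 0, 0, 0, 0, 0, 0, 0, 0, 0, 0, 0, 0, 0, 0, 0, 0, 0, 0, 0, 0, 0, -1, 0], 0),
    (false, [0, 0, 0, 0, 0, 0, 0, 0, 0, 0, 0, 1, 1, 1, 0, 0, 0, 0, 0, 0, 0, 0, 0, 0, 0, 0, 0, 0, 0, 0, 0, 0, 0, 0, -1], 0),
    (false, [0, 0, 0, 0, 0, 0, 0, 0, 0, 0, 0, 0, 0, 0, 1, 1, 1, 1, 1, 0, 0, 0, 0, 0, 0, 0, 0, 0, 0, 0, 0, 0, 0, 0, -3], 0),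
    (false, [0, 0, 0, 0, 0, 0, 0, 0, 0, 0, 0, 0, 0, 0, 0, 0, 0, 0, 0, 1, 1, 1, 1, 0, 0, 0, 0, 0, 0, 0, 0, 0, 0, 0, 0], 1),
    (false, [0, 0, 0, 0, 0, 0, 0, 0, 0, 0, 0, 0, 0, 0, 0, 0, 0, 0, 0, 0, 0, 0, 0, 1, 1, 1, 1, 0, 0, 0, 0, 0, 0, 0, 0], 1),
    (false, [0, 1, 4, 4, 1, 0, 1, 4, 0, 1, 4, 0, 1, 4, 4, 1, 0, 1, 4, 1, 0, 1, 4, 1, 0, 1, 4, 0, 1, 4, 0, 0, 0, -8, -4], 1),
    (false, [4, 1, 0, 4, 1, 0, 1, 4, 4, 1, 0, 4, 1, 0, 4, 1, 0, 1, 4, 4, 1, 0, 1, 4, 1, 0, 1, 0, 1, 4, 0, 0, 0, -8, -4], 1),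
    (false, [-1, -1, -1, 1, 1, 1, 1, 1, -1, -1, -1, -1, -1, -1, 1, 1, 1, 1, 1, 0, 0, 0, 0, 0, 0, 0, 0, 1, 1, 1, -1, 0, 0, 0, 0], 0),
    (false, [1, 1, 1, -1, -1, -1, -1, -1, -1, -1, -1, 0, 0, 0, 0, 0, 0, 0, 0, 1, 1, 1, 1, 0, 0, 0, 0, 1, 1, 1, 0, -1, 0, 0, 0], 0),
    (false, [-1, 0, 1, -1, 0, 1, 0, -1, -1, 0, 1, -1, 0, 1, -1, 0, 1, 0, -1, -1, 0, 1, 0, -1, 0, 1, 0, 1, 0, -1, 0, 0, -1, 0, 0], 0),
    (true, [-1, -1, -1, -1, -1, -1, -1, -1, 1, 1, 1, 0, 0, 0, 0, 0, 0, 0, 0, 0, 0, 0, 0, 1, 1, 1, 1, 1, 1, 1, 0, 0, 0, 0, 0], 0),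
    (true, [1, 0, -1, -1, 0, 1, 0, -1, 1, 0, -1, 1, 0, -1, -1, 0, 1, 0, -1, 0, 1, 0, -1, 0, 1, 0, -1, 1, 0, -1, 0, 0, 0, 0, 0], 0),
    (true, [4, 1, 0, 16, 9, 4, 1, 0, 0, 1, 4, 1, 0, 1, 9, 4, 1, 0, 1, 4, 1, 0, 1, 1, 0, 1, 4, 0, 1, 4, 0, 0, 0, 0, 0], 1),
    (true, [0, 0, 0, 0, 0, 0, 0, 0, 0, 0, 0, 0, 0, 0, 0, 0, 0, 0, 0, 0, 0, 0, 0, 0, 0, 0, 0, 0, 0, 0, 0, 0, 0, 1, 0], 0),
    (true, [0, 0, 0, 0, 0, 0, 0, 0, 0, 0, 0, 0, 0, 0, 0, 0, 0, 0, 0, 0, 0, 0, 0, 0, 0, 0, 0, 0, 0, 0, 0, 0, 0, 0, 1], 0),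
    (false, [4, 1, 0, 16, 9, 4, 1, 0, 0, 1, 4, 1, 0, 1, 9, 4, 1, 0, 1, 4, 1, 0, 1, 1, 0, 1, 4, 0, 1, 4, 0, 0, 0, -8, -4], 2),
    (true, [1, 0, -1, 0, 0, 1, 0, -1, -1, 0, 1, 0, -1, 0, 0, 1, 0, -1, 0, 1, 0, -1, 0, 0, -1, 0, 1, -1, 0, 1, 0, 0, 0, 0, 0], 1)]
  moves := EB10_moves1
  reqs := EB10_reqs1
  tree := EB10_1_3_0_tree

theorem EB10_1_3_0_ok : EB10.instOK 1 3 0 EB10_1_3_0 = true := by
  decide +kernel

theorem EB10_ok1 : ∀ b ∈ EB10.branches, ∃ I : Inst, EB10.instOK 1 b.1 b.2 I = true := by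
  intro b hb
  have h : b = (0, 0) ∨ b = (1, 0) ∨ b = (2, 0) ∨ b = (3, 0) := by
    have hb2 : b ∈ [(0, 0), (1, 0), (2, 0), (3, 0)] := hb
    simpa using hb2
  rcases h with rfl | rfl | rfl | rfl
  · exact ⟨EB10_1_0_0, EB10_1_0_0_ok⟩
  · exact ⟨EB10_1_1_0, EB10_1_1_0_ok⟩
  · exact ⟨EB10_1_2_0, EB10_1_2_0_ok⟩
  · exact ⟨EB10_1_3_0, EB10_1_3_0_ok⟩

end Pool.Agent.helper1.CAD
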