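import Pool.Agent.helper1.CAD.Sound

namespace Pool.Agent.helper1.CAD

set_option maxRecDepth 100000

def EB11 : Spec where
  K := .B
  tys := [(2, 2, [1, 0], 1), (2, 0, [1, 0], 0), (0, 2, [1, 0], 0), (1, 2, [0, 1], 0), (1, 0, [0, 3], 0), (1, -1, [0, 0], 1), (0, 1, [0, 0], 1)]
  kc := ([4, 2], 3)
  pmin := [0, 0]
  sl := (0, -1)
  good := false
  pv := 1
  px := 0
  pvx := 1

def EB11_moves0 : List Move :=
   [([((0, 1, 0), -1)], 0),
    ([((0, 2, 0), -2)], 0),
    ([((0, 1, 2), 0), ((0, 0, 2), 1)], 0),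
    ([((1, 0, -2), -1), ((1, -1, -2), 0)], 0),
    ([((2, 2, 1), 0), ((2, 0, 1), 2)], 0),
    ([((0, 2, 1), 1), ((0, 1, 1), 2)], 0),
    ([((1, 2, 0), 0), ((1, 0, 0), 2)], 0),
    ([((0, 2, 2), 0), ((0, 0, 2), 2)], 0),
    ([((0, 2, 1), -1), ((0, 1, -1), -2)], 0),
    ([((1, 2, 0), -1), ((1, -1, 0), 2)], 0),
    ([((1, 0, 1), -1), ((1, -1, 1), 0)], 0),
    ([((2, 2, 2), 0), ((2, 0, 2), 2)], 0),
    ([((1, 2, 2), 0), ((1, 0, 2), 2)], 0),
    ([((0, 2, 1), 0), ((0, 0, 1), 2)], 0),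
    ([((1, 0, -1), -1), ((1, -1, -1), 0)], 0),
    ([((2, 2, 0), 0), ((2, 0, 0), 2)], 0),
    ([((1, 2, 1), 0), ((1, 0, 1), 2)], 0),
    ([((1, 2, 1), -1), ((1, -1, 1), 2)], 0),
    ([((1, 0, 0), -1), ((1, -1, 0), 0)], 0),
    ([((0, 2, 2), 1), ((0, 1, 2), 2)], 0),
    ([((0, 1, -1), -1), ((0, 1, 1), -1)], 0),
    ([((0, 1, -1), 0), ((0, 0, 1), -1)], 0),
    ([((0, 1, 1), 0), ((0, 0, 1), 1)], 0),
    ([((2, 2, 1), 0), ((2, 0, 0), 2), ((0, 1, -1), -1)], 0),
    ([((1, 2, 0), 0), ((1, -1, -1), 1), ((0, 0, 1), 2)], 0),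
    ([((2, 2, 1), 0), ((1, 0, 0), 2), ((1, -1, 1), 1)], 0),
    ([((1, 0, -1), -1), ((1, -1, 1), 0), ((0, 1, 1), -1)], 0),
    ([((2, 0, -1), 1), ((1, 2, 0), 0), ((0, 1, 1), 2)], 0),
    ([((1, 2, 1), 0), ((1, 0, 2), 2), ((0, 1, 1), -1)], 0),
    ([((1, 2, 1), 1), ((0, 1, 1), 0), ((0, 1, 2), 2)], 1),
    ([((2, 2, 1), 0), ((1, 0, 2), 2), ((1, -1, -1), 1)], 0),
    ([((1, 0, -2), -1), ((1, -1, 0), 0), ((0, 1, 1), -1)], 0),
    ([((1, 0, 1), -1), ((1, -1, -1), 0), ((0, 1, -1), -1)], 0),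
    ([((2, 2, 1), 0), ((1, 0, 2), 1), ((1, -1, 0), 2)], 0),
    ([((2, 2, 1), 1), ((1, -1, 0), 1), ((0, 1, 1), 2)], 0),
    ([((0, 2, 1), 0), ((0, 1, 2), 2), ((0, 0, 0), -1)], 0),
    ([((2, 2, 0), 1), ((1, -1, -1), 1), ((0, 1, 2), 2)], 0),
    ([((1, 2, 2), 0), ((1, 0, 1), 2), ((0, 1, -1), -1)], 0),
    ([((2, 2, 1), 0), ((2, 0, 2), 2), ((0, 1, 1), -1)], 0),
    ([((2, 0, 1), 1), ((1, 2, 2), 0), ((0, 1, -1), -2)], 0),
    ([((2, 2, 2), 0), ((2, 0, 1), 2), ((0, 1, -1), -1)], 0),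
    ([((2, 2, 0), 0), ((2, 0, 1), 2), ((0, 1, 1), -1)], 0),
    ([((2, 2, 1), 1), ((1, 0, 0), 2), ((0, 1, -1), 0)], 0),
    ([((2, 2, 0), 0), ((1, -1, 0), 2)], 1),
    ([((1, 2, 1), -1), ((1, 0, 2), 2), ((1, -1, -1), 0)], 0),
    ([((2, 2, 0), 1), ((1, 0, 1), 2), ((0, 1, 2), 0)], 0),
    ([((2, 2, 0), 0), ((1, 0, 1), 2), ((1, -1, -1), 1)], 0),
    ([((0, 1, -1), -1), ((0, 1, 2), 0), ((0, 0, 0), -1)], 0),
    ([((2, 2, 1), 0), ((1, 0, 1), 2), ((1, -1, 0), 1)], 0),
    ([((1, 2, 0), -1), ((1, 0, 1), 2), ((1, -1, -2), 0)], 0),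
    ([((2, 2, 1), 1), ((1, -1, -1), 1), ((0, 1, -1), -2)], 0),
    ([((1, 2, 0), 0), ((1, 0, 1), 2), ((0, 1, 1), -1)], 0),
    ([((2, 2, 2), 1), ((1, 0, 2), 2), ((0, 1, 2), 0)], 0),
    ([((1, 0, 0), -1), ((1, -1, -2), 0), ((0, 1, -1), -1)], 0),
    ([((1, 2, 2), 0), ((1, 0, -1), -1), ((1, -1, 1), 2)], 0),
    ([((2, 2, 1), 1), ((1, 0, 1), 2), ((0, 1, 1), 0)], 0),
    ([((2, 2, 2), 0), ((1, 0, 2), 2), ((1, -1, 0), 1)], 0),
    ([((1, 2, 1), 0), ((1, 0, 0), 2), ((0, 1, -1), -1)], 0),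
    ([((1, 2, 2), 0), ((1, 0, 0), 2), ((0, 1, -1), -1), ((0, 1, -1), -1)], 0),
    ([((1, 2, 0), 0), ((1, -1, 1), 1), ((0, 1, 1), -1), ((0, 0, 0), -2)], 0),
    ([((2, 2, 1), 1), ((1, -1, 1), 1), ((0, 1, 1), 0), ((0, 0, 0), -2)], 0),
    ([((2, 2, 2), 0), ((1, 0, 2), 2), ((1, -1, 1), 1), ((0, 1, 1), -1)], 0),
    ([((2, 2, 2), 0), ((1, 0, 2), 2), ((1, -1, -1), 1), ((0, 1, -1), -1)], 0),
    ([((2, 2, 1), 1), ((1, -1, 0), 1), ((0, 1, -1), 0), ((0, 0, 0), -2)], 0),
    ([((2, 2, 1), 0), ((1, -1, 0), 2), ((0, 1, -1), -1)], 1),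
    ([((2, 2, 0), 0), ((0, 2, 1), 0), ((1, 0, 0), 2), ((1, 0, 1), 2)], 0),
    ([((2, 2, 2), 0), ((1, 0, 0), 2), ((1, -1, 1), 1), ((0, 1, -1), -1)], 0),
    ([((1, 2, 0), 0), ((1, -1, -1), 1), ((0, 1, 2), 2), ((0, 0, 0), -1)], 0),
    ([((2, 2, 2), 0), ((1, 0, -1), 1), ((1, -1, 1), 2), ((0, 1, -1), -1)], 0),
    ([((2, 2, 2), 0), ((2, 0, 0), 2), ((1, 2, 0), 0), ((1, 0, 2), 2)], 0),
    ([((2, 2, 1), 1), ((0, 2, 2), 0), ((1, 0, 2), 2), ((0, 1, 1), 2)], 0),
    ([((2, 2, 2), 0), ((2, 0, -1), 1), ((1, 0, 2), 2), ((0, 1, -1), 0)], 0),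
    ([((2, 2, 2), 0), ((2, 0, -1), 1), ((1, -1, 1), 1), ((0, 1, -1), -2)], 0),
    ([((2, 2, 0), 0), ((0, 2, 2), 0), ((1, 0, 0), 2), ((1, 0, 2), 2)], 0),
    ([((2, 2, 2), 1), ((1, 0, 1), 1), ((1, -1, -1), 0), ((0, 1, 2), 2)], 0),
    ([((0, 2, 1), -1), ((1, 0, 0), -1), ((1, -1, 1), 0), ((0, 1, 2), 2)], 0),
    ([((2, 2, 2), 0), ((1, 0, 1), 2), ((1, -1, 0), 1), ((0, 1, -1), -1)], 0),
    ([((2, 2, 0), 1), ((0, 2, 1), 0), ((1, 0, 0), 2), ((0, 1, 2), 2)], 0),
    ([((2, 2, 2), 1), ((1, 0, 1), 1), ((1, -1, -2), 0), ((0, 1, -1), -2)], 0),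
    ([((2, 2, 1), 0), ((1, 0, 1), 1), ((1, 0, 1), 2), ((1, -1, -1), 0)], 0),
    ([((2, 2, 1), 0), ((2, 0, 0), 2), ((1, 2, 0), 0), ((1, 0, 1), 2)], 0),
    ([((1, 2, 1), 0), ((1, -1, 0), 1), ((0, 1, -1), -1), ((0, 0, 0), -2)], 0),
    ([((2, 0, -1), 1), ((1, 2, 0), 0), ((0, 1, -1), 0), ((0, 0, 0), -2)], 0),
    ([((2, 2, 0), 1), ((1, -1, 1), 1), ((0, 1, 2), 0), ((0, 0, 0), -2)], 0),
    ([((2, 2, 1), 1), ((1, 0, 1), 1), ((1, -1, -2), 0), ((0, 1, 2), 2)], 0),
    ([((2, 2, 1), 1), ((2, 0, 0), 2), ((1, 2, 0), 0), ((0, 1, 1), 2)], 0),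
    ([((2, 2, 0), 1), ((1, -1, -2), 0), ((0, 1, 2), 2)], 1),
    ([((1, 2, 1), 0), ((1, -1, 0), 1), ((0, 1, 2), 2), ((0, 0, 0), -1)], 0),
    ([((2, 0, 0), 2), ((1, 2, 0), 0), ((1, 2, 0), 0), ((0, 0, 0), -2)], 0),
    ([((0, 2, 2), 0), ((1, 2, 0), 0), ((1, 0, 2), 2), ((0, 0, 0), -2)], 0),
    ([((1, 2, 1), 1), ((1, -1, -2), 0), ((0, 1, 1), 2), ((0, 0, 2), 1)], 0),
    ([((2, 2, 1), 1), ((1, -1, -2), 0), ((0, 1, -1), -2)], 1),
    ([((2, 2, 0), 0), ((1, 0, 0), 2), ((1, -1, -1), 1), ((0, 1, -1), -1)], 0),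
    ([((2, 2, 0), 1), ((1, 0, 0), 1), ((1, -1, -2), 0), ((0, 1, 2), 2)], 0),
    ([((2, 2, 0), 1), ((1, 0, -1), 1), ((1, -1, -2), 0), ((0, 1, -1), -2)], 0),
    ([((2, 2, 0), 1), ((1, 0, -1), -1), ((1, -1, 0), 2), ((0, 1, 1), 0)], 0),
    ([((2, 2, 0), 0), ((1, 0, 1), 2), ((1, -1, 0), 1), ((0, 1, 1), -1)], 0),
    ([((2, 2, 0), 0), ((1, 0, 2), 2), ((1, -1, -1), 1), ((0, 1, 1), -1)], 0),
    ([((2, 2, 0), 0), ((1, 0, 2), 1), ((1, -1, 0), 2), ((0, 1, 1), -1)], 0),
    ([((2, 2, 1), 1), ((1, 2, 2), 1), ((1, -1, 0), 2), ((0, 1, -1), -2)], 0),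
    ([((2, 2, 0), 0), ((1, 0, 0), 2), ((1, -1, 1), 1), ((0, 1, 1), -1)], 0),
    ([((1, 2, 2), 0), ((1, 0, -2), -1), ((1, -1, 0), 2), ((0, 1, -1), -1)], 0),
    ([((2, 2, 1), 1), ((1, 0, 2), 1), ((1, -1, -2), 0), ((0, 1, 1), 2)], 0),
    ([((2, 2, 2), 0), ((0, 2, 2), 0), ((1, 0, 2), 2), ((1, 0, 2), 2)], 0),
    ([((2, 2, 1), 0), ((2, 0, 2), 2), ((1, 0, 0), -1), ((1, -1, -2), 0)], 0),
    ([((1, 0, -1), -1), ((1, -1, 1), 0), ((0, 1, 2), 0), ((0, 0, 0), -1)], 0),
    ([((2, 2, 1), 0), ((0, 2, 1), 0), ((1, 0, 0), 2), ((1, 0, 2), 2)], 0),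
    ([((2, 0, 1), 1), ((1, 2, 0), 0), ((0, 1, 1), 0), ((0, 0, 0), -2)], 0),
    ([((2, 2, 1), 0), ((2, 0, 2), 2), ((1, 2, 1), 0), ((1, 0, 0), 2)], 0),
    ([((1, 2, 0), -1), ((1, 0, 2), 2), ((1, -1, -2), 0), ((0, 1, 1), -1)], 0),
    ([((1, 0, -1), -1), ((1, -1, -2), 0), ((0, 1, -1), 0), ((0, 0, 0), -1)], 0),
    ([((1, 0, -1), -1), ((1, -1, -2), 0), ((0, 1, 1), 0), ((0, 0, 2), 1)], 0),
    ([((0, 2, 1), 0), ((1, 2, 1), 0), ((1, 0, 0), 2), ((0, 0, 2), 2)], 0),
    ([((1, 2, 0), 1), ((1, 0, 1), -1), ((1, 0, 1), 1)], 1),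
    ([((2, 2, 0), 0), ((2, 0, -1), 1), ((1, -1, -1), 1), ((0, 1, -1), -2)], 0),
    ([((2, 2, 0), 0), ((2, 0, -1), 1), ((1, 0, 0), 2), ((0, 1, -1), 0)], 0),
    ([((2, 2, 1), 0), ((2, 0, 2), 2), ((0, 2, 1), 0), ((0, 0, 0), -2)], 0),
    ([((2, 2, 0), 0), ((2, 0, 2), 1), ((1, 0, 0), 2), ((0, 1, 2), 0)], 0),
    ([((1, 2, 2), 1), ((1, -1, 0), 0), ((0, 1, -1), -1), ((0, 0, 0), -2)], 0),
    ([((2, 2, 2), 1), ((1, 0, -1), -1), ((1, -1, 0), 2), ((0, 1, -1), 0)], 0),
    ([((1, 2, 0), 1), ((1, 0, -1), -1), ((1, 0, -1), 1)], 1),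
    ([((1, 2, 2), 0), ((1, -1, 1), 1), ((0, 1, 2), 2), ((0, 0, 0), -1)], 0),
    ([((1, 2, 2), 0), ((1, -1, 1), 1), ((0, 1, -1), -1), ((0, 0, 0), -2)], 0),
    ([((2, 2, 0), 0), ((2, 0, 2), 2), ((1, 2, 2), 0), ((1, 0, 0), 2)], 0),
    ([((1, 0, -2), -1), ((0, 1, 1), 0), ((0, 1, 1), 0)], 1),
    ([((2, 2, 2), 0), ((1, -1, 0), 2), ((0, 1, -1), -1), ((0, 1, -1), -1)], 1),
    ([((2, 2, 2), 1), ((1, -1, -1), 0), ((0, 1, -1), -2)], 1),
    ([((2, 2, 0), 0), ((1, -1, -2), 0), ((1, -1, 1), 1), ((0, 0, 0), -2)], 1),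
    ([((2, 2, 0), 1), ((1, -1, -1), 0), ((0, 1, 1), 2)], 1),
    ([((2, 2, 0), 1), ((1, 2, 2), 0), ((1, 0, 0), 2), ((1, -1, 1), 1), ((0, 1, 2), 2)], 0),
    ([((2, 2, 0), 0), ((1, 0, -1), 1), ((1, -1, 0), 2), ((0, 1, -1), 0), ((0, 0, 0), -1)], 0),
    ([((2, 2, 0), 0), ((1, -1, 1), 2), ((0, 1, 2), 0), ((0, 0, 1), -1)], 1),
    ([((2, 2, 0), 0), ((2, 0, -1), 1), ((1, -1, 1), 1), ((0, 1, 1), 0), ((0, 0, 0), -2)], 0),
    ([((2, 2, 0), 1), ((2, 0, -1), 1), ((1, 0, -1), -1)], 1),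
    ([((2, 2, 0), 0), ((2, 0, 2), 2), ((1, 2, 1), 0), ((1, 0, 0), 2), ((0, 1, 1), -1)], 0),
    ([((2, 2, 0), 0), ((2, 0, 2), 1), ((1, 0, -1), 1), ((1, -1, -2), 0), ((0, 1, 1), 2)], 0),
    ([((2, 2, 1), 0), ((2, 0, 2), 2), ((0, 2, 2), 0), ((0, 1, -1), -1), ((0, 0, 0), -2)], 0),
    ([((2, 2, 1), 1), ((0, 2, 2), 0), ((1, -1, 1), 1), ((0, 1, -1), -2), ((0, 0, 0), -2)], 0),
    ([((2, 2, 2), 0), ((1, -1, 1), 2), ((0, 1, -1), 0), ((0, 0, 0), -1)], 1),
    ([((1, 2, 2), 1), ((1, 0, 0), -1), ((1, 0, 0), 1), ((0, 1, -1), -1)], 1),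
    ([((2, 2, 0), 1), ((1, 0, 0), 1), ((1, -1, -1), 0), ((0, 1, 1), 2)], 0),
    ([((2, 2, 2), 1), ((1, 0, -2), -1), ((1, -1, 0), 1), ((0, 0, 0), -1)], 1),
    ([((1, 2, 1), 0), ((1, 0, -2), -1), ((1, 0, -2), -1), ((1, 0, 0), 1), ((1, -1, -1), 1)], 1)]

def EB11_reqs0 : List (List ℤ) :=
   [[0, 0, 0, 0, 0, 0, 0, 0, 0, 0, 0, 0, 0, 0, 0, 0, 0, 0, 0, 0, 0, 0, 0, 0, 1, 0, 0, 0, 0, 0, 0, 0, 0, 0, 0],
    [0, 0, 0, 0, 0, 0, 0, 0, 1, 0, 0, 0, 0, 0, 0, 0, 0, 0, 0, 0, 0, 0, 0, 0, 0, 0, 0, 0, 0, 0, 0, 0, 0, 0, 0],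
    [0, 0, 0, 0, 0, 0, 0, 0, 0, 0, 0, 0, 0, 0, 0, 0, 0, 0, 0, 0, 0, 0, 0, 0, 0, 0, 1, 0, 0, 1, 0, 0, 0, 0, 0],
    [0, 0, 0, 0, 0, 0, 0, 0, 0, 0, 0, 0, 0, 0, 1, 0, 0, 0, 0, 1, 0, 0, 0, 0, 0, 0, 0, 0, 0, 0, 0, 0, 0, 0, 0],
    [0, 1, 0, 0, 0, 0, 1, 0, 0, 0, 0, 0, 0, 0, 0, 0, 0, 0, 0, 0, 0, 0, 0, 0, 0, 0, 0, 0, 0, 0, 0, 0, 0, 0, 0],
    [0, 0, 0, 0, 0, 0, 0, 0, 0, 1, 0, 0, 0, 0, 0, 0, 0, 0, 0, 0, 0, 0, 0, 0, 0, 1, 0, 0, 0, 0, 0, 0, 0, 0, 0],
    [0, 0, 0, 0, 0, 0, 0, 0, 0, 0, 0, 1, 0, 0, 0, 0, 1, 0, 0, 0, 0, 0, 0, 0, 0, 0, 0, 0, 0, 0, 0, 0, 0, 0, 0],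
    [0, 0, 0, 0, 0, 0, 0, 0, 0, 0, 1, 0, 0, 0, 0, 0, 0, 0, 0, 0, 0, 0, 0, 0, 0, 0, 0, 0, 0, 1, 0, 0, 0, 0, 0],
    [0, 0, 0, 0, 0, 0, 0, 0, 0, 1, 0, 0, 0, 0, 0, 0, 0, 0, 0, 0, 0, 0, 0, 1, 0, 0, 0, 0, 0, 0, 0, 0, 0, 0, 0],
    [0, 0, 0, 0, 0, 0, 0, 0, 0, 0, 0, 1, 0, 0, 0, 0, 0, 0, 0, 0, 0, 1, 0, 0, 0, 0, 0, 0, 0, 0, 0, 0, 0, 0, 0],
    [0, 0, 0, 0, 0, 0, 0, 0, 0, 0, 0, 0, 0, 0, 0, 0, 0, 1, 0, 0, 0, 0, 1, 0, 0, 0, 0, 0, 0, 0, 0, 0, 0, 0, 0],
    [0, 0, 1, 0, 0, 0, 0, 1, 0, 0, 0, 0, 0, 0, 0, 0, 0, 0, 0, 0, 0, 0, 0, 0, 0, 0, 0, 0, 0, 0, 0, 0, 0, 0, 0],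
    [0, 0, 0, 0, 0, 0, 0, 0, 0, 0, 0, 0, 0, 1, 0, 0, 0, 0, 1, 0, 0, 0, 0, 0, 0, 0, 0, 0, 0, 0, 0, 0, 0, 0, 0],
    [0, 0, 0, 0, 0, 0, 0, 0, 0, 1, 0, 0, 0, 0, 0, 0, 0, 0, 0, 0, 0, 0, 0, 0, 0, 0, 0, 0, 1, 0, 0, 0, 0, 0, 0],
    [0, 0, 0, 0, 0, 0, 0, 0, 0, 0, 0, 0, 0, 0, 0, 1, 0, 0, 0, 0, 1, 0, 0, 0, 0, 0, 0, 0, 0, 0, 0, 0, 0, 0, 0],
    [1, 0, 0, 0, 0, 1, 0, 0, 0, 0, 0, 0, 0, 0, 0, 0, 0, 0, 0, 0, 0, 0, 0, 0, 0, 0, 0, 0, 0, 0, 0, 0, 0, 0, 0],
    [0, 0, 0, 0, 0, 0, 0, 0, 0, 0, 0, 0, 1, 0, 0, 0, 0, 1, 0, 0, 0, 0, 0, 0, 0, 0, 0, 0, 0, 0, 0, 0, 0, 0, 0],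
    [0, 0, 0, 0, 0, 0, 0, 0, 0, 0, 0, 0, 1, 0, 0, 0, 0, 0, 0, 0, 0, 0, 1, 0, 0, 0, 0, 0, 0, 0, 0, 0, 0, 0, 0],
    [0, 0, 0, 0, 0, 0, 0, 0, 0, 0, 0, 0, 0, 0, 0, 0, 1, 0, 0, 0, 0, 1, 0, 0, 0, 0, 0, 0, 0, 0, 0, 0, 0, 0, 0],
    [0, 0, 0, 0, 0, 0, 0, 0, 0, 0, 1, 0, 0, 0, 0, 0, 0, 0, 0, 0, 0, 0, 0, 0, 0, 0, 1, 0, 0, 0, 0, 0, 0, 0, 0],
    [0, 0, 0, 0, 0, 0, 0, 0, 0, 0, 0, 0, 0, 0, 0, 0, 0, 0, 0, 0, 0, 0, 0, 1, 0, 1, 0, 0, 0, 0, 0, 0, 0, 0, 0],
    [0, 0, 0, 0, 0, 0, 0, 0, 0, 0, 0, 0, 0, 0, 0, 0, 0, 0, 0, 0, 0, 0, 0, 1, 0, 0, 0, 0, 1, 0, 0, 0, 0, 0, 0],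
    [0, 0, 0, 0, 0, 0, 0, 0, 0, 0, 0, 0, 0, 0, 0, 0, 0, 0, 0, 0, 0, 0, 0, 0, 0, 1, 0, 0, 1, 0, 0, 0, 0, 0, 0],
    [0, 1, 0, 0, 0, 1, 0, 0, 0, 0, 0, 0, 0, 0, 0, 0, 0, 0, 0, 0, 0, 0, 0, 1, 0, 0, 0, 0, 0, 0, 0, 0, 0, 0, 0],
    [0, 0, 0, 0, 0, 0, 0, 0, 0, 0, 0, 1, 0, 0, 0, 0, 0, 0, 0, 0, 1, 0, 0, 0, 0, 0, 0, 0, 1, 0, 0, 0, 0, 0, 0],
    [0, 1, 0, 0, 0, 0, 0, 0, 0, 0, 0, 0, 0, 0, 0, 0, 1, 0, 0, 0, 0, 0, 1, 0, 0, 0, 0, 0, 0, 0, 0, 0, 0, 0, 0],
    [0, 0, 0, 0, 0, 0, 0, 0, 0, 0, 0, 0, 0, 0, 0, 1, 0, 0, 0, 0, 0, 0, 1, 0, 0, 1, 0, 0, 0, 0, 0, 0, 0, 0, 0],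
    [0, 0, 0, 0, 1, 0, 0, 0, 0, 0, 0, 1, 0, 0, 0, 0, 0, 0, 0, 0, 0, 0, 0, 0, 0, 1, 0, 0, 0, 0, 0, 0, 0, 0, 0],
    [0, 0, 0, 0, 0, 0, 0, 0, 0, 0, 0, 0, 1, 0, 0, 0, 0, 0, 1, 0, 0, 0, 0, 0, 0, 1, 0, 0, 0, 0, 0, 0, 0, 0, 0],
    [0, 0, 0, 0, 0, 0, 0, 0, 0, 0, 0, 0, 1, 0, 0, 0, 0, 0, 0, 0, 0, 0, 0, 0, 0, 1, 1, 0, 0, 0, 0, 0, 0, 0, 0],
    [0, 1, 0, 0, 0, 0, 0, 0, 0, 0, 0, 0, 0, 0, 0, 0, 0, 0, 1, 0, 1, 0, 0, 0, 0, 0, 0, 0, 0, 0, 0, 0, 0, 0, 0],
    [0, 0, 0, 0, 0, 0, 0, 0, 0, 0, 0, 0, 0, 0, 1, 0, 0, 0, 0, 0, 0, 1, 0, 0, 0, 1, 0, 0, 0, 0, 0, 0, 0, 0, 0],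
    [0, 0, 0, 0, 0, 0, 0, 0, 0, 0, 0, 0, 0, 0, 0, 0, 0, 1, 0, 0, 1, 0, 0, 1, 0, 0, 0, 0, 0, 0, 0, 0, 0, 0, 0],
    [0, 1, 0, 0, 0, 0, 0, 0, 0, 0, 0, 0, 0, 0, 0, 0, 0, 0, 1, 0, 0, 1, 0, 0, 0, 0, 0, 0, 0, 0, 0, 0, 0, 0, 0],
    [0, 1, 0, 0, 0, 0, 0, 0, 0, 0, 0, 0, 0, 0, 0, 0, 0, 0, 0, 0, 0, 1, 0, 0, 0, 1, 0, 0, 0, 0, 0, 0, 0, 0, 0],
    [0, 0, 0, 0, 0, 0, 0, 0, 0, 1, 0, 0, 0, 0, 0, 0, 0, 0, 0, 0, 0, 0, 0, 0, 0, 0, 1, 1, 0, 0, 0, 0, 0, 0, 0],
    [1, 0, 0, 0, 0, 0, 0, 0, 0, 0, 0, 0, 0, 0, 0, 0, 0, 0, 0, 0, 1, 0, 0, 0, 0, 0, 1, 0, 0, 0, 0, 0, 0, 0, 0],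
    [0, 0, 0, 0, 0, 0, 0, 0, 0, 0, 0, 0, 0, 1, 0, 0, 0, 1, 0, 0, 0, 0, 0, 1, 0, 0, 0, 0, 0, 0, 0, 0, 0, 0, 0],
    [0, 1, 0, 0, 0, 0, 0, 1, 0, 0, 0, 0, 0, 0, 0, 0, 0, 0, 0, 0, 0, 0, 0, 0, 0, 1, 0, 0, 0, 0, 0, 0, 0, 0, 0],
    [0, 0, 0, 0, 0, 0, 1, 0, 0, 0, 0, 0, 0, 1, 0, 0, 0, 0, 0, 0, 0, 0, 0, 1, 0, 0, 0, 0, 0, 0, 0, 0, 0, 0, 0],
    [0, 0, 1, 0, 0, 0, 1, 0, 0, 0, 0, 0, 0, 0, 0, 0, 0, 0, 0, 0, 0, 0, 0, 1, 0, 0, 0, 0, 0, 0, 0, 0, 0, 0, 0],
    [1, 0, 0, 0, 0, 0, 1, 0, 0, 0, 0, 0, 0, 0, 0, 0, 0, 0, 0, 0, 0, 0, 0, 0, 0, 1, 0, 0, 0, 0, 0, 0, 0, 0, 0],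
    [0, 1, 0, 0, 0, 0, 0, 0, 0, 0, 0, 0, 0, 0, 0, 0, 1, 0, 0, 0, 0, 0, 0, 1, 0, 0, 0, 0, 0, 0, 0, 0, 0, 0, 0],
    [1, 0, 0, 0, 0, 0, 0, 0, 0, 0, 0, 0, 0, 0, 0, 0, 0, 0, 0, 0, 0, 1, 0, 0, 0, 0, 0, 0, 0, 0, 0, 1, 0, 0, 0],
    [0, 0, 0, 0, 0, 0, 0, 0, 0, 0, 0, 0, 1, 0, 0, 0, 0, 0, 1, 0, 1, 0, 0, 0, 0, 0, 0, 0, 0, 0, 0, 0, 0, 0, 0],
    [1, 0, 0, 0, 0, 0, 0, 0, 0, 0, 0, 0, 0, 0, 0, 0, 0, 1, 0, 0, 0, 0, 0, 0, 0, 0, 1, 0, 0, 0, 0, 0, 0, 0, 0],
    [1, 0, 0, 0, 0, 0, 0, 0, 0, 0, 0, 0, 0, 0, 0, 0, 0, 1, 0, 0, 1, 0, 0, 0, 0, 0, 0, 0, 0, 0, 0, 0, 0, 0, 0],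
    [0, 0, 0, 0, 0, 0, 0, 0, 0, 0, 0, 0, 0, 0, 0, 0, 0, 0, 0, 0, 0, 0, 0, 1, 0, 0, 1, 1, 0, 0, 0, 0, 0, 0, 0],
    [0, 1, 0, 0, 0, 0, 0, 0, 0, 0, 0, 0, 0, 0, 0, 0, 0, 1, 0, 0, 0, 1, 0, 0, 0, 0, 0, 0, 0, 0, 0, 0, 0, 0, 0],
    [0, 0, 0, 0, 0, 0, 0, 0, 0, 0, 0, 1, 0, 0, 0, 0, 0, 1, 0, 1, 0, 0, 0, 0, 0, 0, 0, 0, 0, 0, 0, 0, 0, 0, 0],
    [0, 1, 0, 0, 0, 0, 0, 0, 0, 0, 0, 0, 0, 0, 0, 0, 0, 0, 0, 0, 1, 0, 0, 1, 0, 0, 0, 0, 0, 0, 0, 0, 0, 0, 0],
    [0, 0, 0, 0, 0, 0, 0, 0, 0, 0, 0, 1, 0, 0, 0, 0, 0, 1, 0, 0, 0, 0, 0, 0, 0, 1, 0, 0, 0, 0, 0, 0, 0, 0, 0],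
    [0, 0, 1, 0, 0, 0, 0, 0, 0, 0, 0, 0, 0, 0, 0, 0, 0, 0, 1, 0, 0, 0, 0, 0, 0, 0, 1, 0, 0, 0, 0, 0, 0, 0, 0],
    [0, 0, 0, 0, 0, 0, 0, 0, 0, 0, 0, 0, 0, 0, 0, 0, 1, 0, 0, 1, 0, 0, 0, 1, 0, 0, 0, 0, 0, 0, 0, 0, 0, 0, 0],
    [0, 0, 0, 0, 0, 0, 0, 0, 0, 0, 0, 0, 0, 1, 0, 1, 0, 0, 0, 0, 0, 0, 1, 0, 0, 0, 0, 0, 0, 0, 0, 0, 0, 0, 0],
    [0, 1, 0, 0, 0, 0, 0, 0, 0, 0, 0, 0, 0, 0, 0, 0, 0, 1, 0, 0, 0, 0, 0, 0, 0, 1, 0, 0, 0, 0, 0, 0, 0, 0, 0],
    [0, 0, 1, 0, 0, 0, 0, 0, 0, 0, 0, 0, 0, 0, 0, 0, 0, 0, 1, 0, 0, 1, 0, 0, 0, 0, 0, 0, 0, 0, 0, 0, 0, 0, 0],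
    [0, 0, 0, 0, 0, 0, 0, 0, 0, 0, 0, 0, 1, 0, 0, 0, 1, 0, 0, 0, 0, 0, 0, 1, 0, 0, 0, 0, 0, 0, 0, 0, 0, 0, 0],
    [0, 0, 0, 0, 0, 0, 0, 0, 0, 0, 0, 0, 0, 1, 0, 0, 1, 0, 0, 0, 0, 0, 0, 2, 0, 0, 0, 0, 0, 0, 0, 0, 0, 0, 0],
    [0, 0, 0, 0, 0, 0, 0, 0, 0, 0, 0, 1, 0, 0, 0, 0, 0, 0, 0, 0, 0, 0, 1, 0, 0, 1, 0, 1, 0, 0, 0, 0, 0, 0, 0],
    [0, 1, 0, 0, 0, 0, 0, 0, 0, 0, 0, 0, 0, 0, 0, 0, 0, 0, 0, 0, 0, 0, 1, 0, 0, 1, 0, 1, 0, 0, 0, 0, 0, 0, 0],
    [0, 0, 1, 0, 0, 0, 0, 0, 0, 0, 0, 0, 0, 0, 0, 0, 0, 0, 1, 0, 0, 0, 1, 0, 0, 1, 0, 0, 0, 0, 0, 0, 0, 0, 0],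
    [0, 0, 1, 0, 0, 0, 0, 0, 0, 0, 0, 0, 0, 0, 0, 0, 0, 0, 1, 0, 1, 0, 0, 1, 0, 0, 0, 0, 0, 0, 0, 0, 0, 0, 0],
    [0, 1, 0, 0, 0, 0, 0, 0, 0, 0, 0, 0, 0, 0, 0, 0, 0, 0, 0, 0, 0, 1, 0, 1, 0, 0, 0, 1, 0, 0, 0, 0, 0, 0, 0],
    [0, 1, 0, 0, 0, 0, 0, 0, 0, 0, 0, 0, 0, 0, 0, 0, 0, 0, 0, 0, 0, 1, 0, 1, 0, 0, 0, 0, 0, 0, 0, 1, 0, 0, 0],
    [1, 0, 0, 0, 0, 0, 0, 0, 0, 1, 0, 0, 0, 0, 0, 0, 1, 1, 0, 0, 0, 0, 0, 0, 0, 0, 0, 0, 0, 0, 0, 0, 0, 0, 0],
    [0, 0, 1, 0, 0, 0, 0, 0, 0, 0, 0, 0, 0, 0, 0, 0, 1, 0, 0, 0, 0, 0, 1, 1, 0, 0, 0, 0, 0, 0, 0, 0, 0, 0, 0],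
    [0, 0, 0, 0, 0, 0, 0, 0, 0, 0, 0, 1, 0, 0, 0, 0, 0, 0, 0, 0, 1, 0, 0, 0, 0, 0, 1, 1, 0, 0, 0, 0, 0, 0, 0],
    [0, 0, 1, 0, 0, 0, 0, 0, 0, 0, 0, 0, 0, 0, 0, 1, 0, 0, 0, 0, 0, 0, 1, 1, 0, 0, 0, 0, 0, 0, 0, 0, 0, 0, 0],
    [0, 0, 1, 0, 0, 1, 0, 0, 0, 0, 0, 1, 0, 0, 0, 0, 0, 0, 1, 0, 0, 0, 0, 0, 0, 0, 0, 0, 0, 0, 0, 0, 0, 0, 0],
    [0, 1, 0, 0, 0, 0, 0, 0, 0, 0, 1, 0, 0, 0, 0, 0, 0, 0, 1, 0, 0, 0, 0, 0, 0, 1, 0, 0, 0, 0, 0, 0, 0, 0, 0],
    [0, 0, 1, 0, 1, 0, 0, 0, 0, 0, 0, 0, 0, 0, 0, 0, 0, 0, 1, 0, 0, 0, 0, 1, 0, 0, 0, 0, 0, 0, 0, 0, 0, 0, 0],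
    [0, 0, 1, 0, 1, 0, 0, 0, 0, 0, 0, 0, 0, 0, 0, 0, 0, 0, 0, 0, 0, 0, 1, 1, 0, 0, 0, 0, 0, 0, 0, 0, 0, 0, 0],
    [1, 0, 0, 0, 0, 0, 0, 0, 0, 0, 1, 0, 0, 0, 0, 0, 1, 0, 1, 0, 0, 0, 0, 0, 0, 0, 0, 0, 0, 0, 0, 0, 0, 0, 0],
    [0, 0, 1, 0, 0, 0, 0, 0, 0, 0, 0, 0, 0, 0, 0, 0, 0, 1, 0, 0, 1, 0, 0, 0, 0, 0, 1, 0, 0, 0, 0, 0, 0, 0, 0],
    [0, 0, 0, 0, 0, 0, 0, 0, 0, 1, 0, 0, 0, 0, 0, 0, 1, 0, 0, 0, 0, 0, 1, 0, 0, 0, 1, 0, 0, 0, 0, 0, 0, 0, 0],
    [0, 0, 1, 0, 0, 0, 0, 0, 0, 0, 0, 0, 0, 0, 0, 0, 0, 1, 0, 0, 0, 1, 0, 1, 0, 0, 0, 0, 0, 0, 0, 0, 0, 0, 0],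
    [1, 0, 0, 0, 0, 0, 0, 0, 0, 1, 0, 0, 0, 0, 0, 0, 1, 0, 0, 0, 0, 0, 0, 0, 0, 0, 1, 0, 0, 0, 0, 0, 0, 0, 0],
    [0, 0, 1, 0, 0, 0, 0, 0, 0, 0, 0, 0, 0, 0, 0, 0, 0, 1, 0, 1, 0, 0, 0, 1, 0, 0, 0, 0, 0, 0, 0, 0, 0, 0, 0],
    [0, 1, 0, 0, 0, 0, 0, 0, 0, 0, 0, 0, 0, 0, 0, 0, 0, 2, 0, 0, 1, 0, 0, 0, 0, 0, 0, 0, 0, 0, 0, 0, 0, 0, 0],
    [0, 1, 0, 0, 0, 1, 0, 0, 0, 0, 0, 1, 0, 0, 0, 0, 0, 1, 0, 0, 0, 0, 0, 0, 0, 0, 0, 0, 0, 0, 0, 0, 0, 0, 0],
    [0, 0, 0, 0, 0, 0, 0, 0, 0, 0, 0, 0, 1, 0, 0, 0, 0, 0, 0, 0, 0, 1, 0, 1, 0, 0, 0, 1, 0, 0, 0, 0, 0, 0, 0],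
    [0, 0, 0, 0, 1, 0, 0, 0, 0, 0, 0, 1, 0, 0, 0, 0, 0, 0, 0, 0, 0, 0, 0, 1, 0, 0, 0, 1, 0, 0, 0, 0, 0, 0, 0],
    [1, 0, 0, 0, 0, 0, 0, 0, 0, 0, 0, 0, 0, 0, 0, 0, 0, 0, 0, 0, 0, 0, 1, 0, 0, 0, 1, 1, 0, 0, 0, 0, 0, 0, 0],
    [0, 1, 0, 0, 0, 0, 0, 0, 0, 0, 0, 0, 0, 0, 0, 0, 0, 1, 0, 1, 0, 0, 0, 0, 0, 0, 1, 0, 0, 0, 0, 0, 0, 0, 0],
    [0, 1, 0, 0, 0, 1, 0, 0, 0, 0, 0, 1, 0, 0, 0, 0, 0, 0, 0, 0, 0, 0, 0, 0, 0, 1, 0, 0, 0, 0, 0, 0, 0, 0, 0],
    [1, 0, 0, 0, 0, 0, 0, 0, 0, 0, 0, 0, 0, 0, 0, 0, 0, 0, 0, 1, 0, 0, 0, 0, 0, 0, 1, 0, 0, 0, 0, 1, 0, 0, 0],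
    [0, 0, 0, 0, 0, 0, 0, 0, 0, 0, 0, 0, 1, 0, 0, 0, 0, 0, 0, 0, 0, 1, 0, 0, 0, 0, 1, 1, 0, 0, 0, 0, 0, 0, 0],
    [0, 0, 0, 0, 0, 1, 0, 0, 0, 0, 0, 2, 0, 0, 0, 0, 0, 0, 0, 0, 0, 0, 0, 0, 0, 0, 0, 1, 0, 0, 0, 0, 0, 0, 0],
    [0, 0, 0, 0, 0, 0, 0, 0, 0, 0, 1, 1, 0, 0, 0, 0, 0, 0, 1, 0, 0, 0, 0, 0, 0, 0, 0, 1, 0, 0, 0, 0, 0, 0, 0],
    [0, 0, 0, 0, 0, 0, 0, 0, 0, 0, 0, 0, 1, 0, 0, 0, 0, 0, 0, 1, 0, 0, 0, 0, 0, 1, 0, 0, 0, 1, 0, 0, 0, 0, 0],
    [0, 1, 0, 0, 0, 0, 0, 0, 0, 0, 0, 0, 0, 0, 0, 0, 0, 0, 0, 1, 0, 0, 0, 1, 0, 0, 0, 0, 0, 0, 0, 1, 0, 0, 0],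
    [1, 0, 0, 0, 0, 0, 0, 0, 0, 0, 0, 0, 0, 0, 0, 0, 1, 0, 0, 0, 1, 0, 0, 1, 0, 0, 0, 0, 0, 0, 0, 0, 0, 0, 0],
    [1, 0, 0, 0, 0, 0, 0, 0, 0, 0, 0, 0, 0, 0, 0, 0, 1, 0, 0, 1, 0, 0, 0, 0, 0, 0, 1, 0, 0, 0, 0, 0, 0, 0, 0],
    [1, 0, 0, 0, 0, 0, 0, 0, 0, 0, 0, 0, 0, 0, 0, 1, 0, 0, 0, 1, 0, 0, 0, 1, 0, 0, 0, 0, 0, 0, 0, 0, 0, 0, 0],
    [1, 0, 0, 0, 0, 0, 0, 0, 0, 0, 0, 0, 0, 0, 0, 1, 0, 0, 0, 0, 0, 1, 0, 0, 0, 1, 0, 0, 0, 0, 0, 0, 0, 0, 0],
    [1, 0, 0, 0, 0, 0, 0, 0, 0, 0, 0, 0, 0, 0, 0, 0, 0, 1, 0, 0, 0, 1, 0, 0, 0, 1, 0, 0, 0, 0, 0, 0, 0, 0, 0],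
    [1, 0, 0, 0, 0, 0, 0, 0, 0, 0, 0, 0, 0, 0, 0, 0, 0, 0, 1, 0, 1, 0, 0, 0, 0, 1, 0, 0, 0, 0, 0, 0, 0, 0, 0],
    [1, 0, 0, 0, 0, 0, 0, 0, 0, 0, 0, 0, 0, 0, 0, 0, 0, 0, 1, 0, 0, 1, 0, 0, 0, 1, 0, 0, 0, 0, 0, 0, 0, 0, 0],
    [0, 1, 0, 0, 0, 0, 0, 0, 0, 0, 0, 0, 0, 1, 0, 0, 0, 0, 0, 0, 0, 1, 0, 1, 0, 0, 0, 0, 0, 0, 0, 0, 0, 0, 0],
    [1, 0, 0, 0, 0, 0, 0, 0, 0, 0, 0, 0, 0, 0, 0, 0, 1, 0, 0, 0, 0, 0, 1, 0, 0, 1, 0, 0, 0, 0, 0, 0, 0, 0, 0],
    [0, 0, 0, 0, 0, 0, 0, 0, 0, 0, 0, 0, 0, 1, 1, 0, 0, 0, 0, 0, 0, 1, 0, 1, 0, 0, 0, 0, 0, 0, 0, 0, 0, 0, 0],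
    [0, 1, 0, 0, 0, 0, 0, 0, 0, 0, 0, 0, 0, 0, 0, 0, 0, 0, 1, 1, 0, 0, 0, 0, 0, 1, 0, 0, 0, 0, 0, 0, 0, 0, 0],
    [0, 0, 1, 0, 0, 0, 0, 0, 0, 0, 1, 0, 0, 0, 0, 0, 0, 0, 2, 0, 0, 0, 0, 0, 0, 0, 0, 0, 0, 0, 0, 0, 0, 0, 0],
    [0, 1, 0, 0, 0, 0, 0, 1, 0, 0, 0, 0, 0, 0, 0, 0, 1, 0, 0, 1, 0, 0, 0, 0, 0, 0, 0, 0, 0, 0, 0, 0, 0, 0, 0],
    [0, 0, 0, 0, 0, 0, 0, 0, 0, 0, 0, 0, 0, 0, 0, 1, 0, 0, 0, 0, 0, 0, 1, 0, 0, 0, 1, 1, 0, 0, 0, 0, 0, 0, 0],
    [0, 1, 0, 0, 0, 0, 0, 0, 0, 1, 0, 0, 0, 0, 0, 0, 1, 0, 1, 0, 0, 0, 0, 0, 0, 0, 0, 0, 0, 0, 0, 0, 0, 0, 0],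
    [0, 0, 0, 0, 0, 0, 1, 0, 0, 0, 0, 1, 0, 0, 0, 0, 0, 0, 0, 0, 0, 0, 0, 0, 0, 1, 0, 1, 0, 0, 0, 0, 0, 0, 0],
    [0, 1, 0, 0, 0, 0, 0, 1, 0, 0, 0, 0, 1, 0, 0, 0, 1, 0, 0, 0, 0, 0, 0, 0, 0, 0, 0, 0, 0, 0, 0, 0, 0, 0, 0],
    [0, 0, 0, 0, 0, 0, 0, 0, 0, 0, 0, 1, 0, 0, 0, 0, 0, 0, 1, 1, 0, 0, 0, 0, 0, 1, 0, 0, 0, 0, 0, 0, 0, 0, 0],
    [0, 0, 0, 0, 0, 0, 0, 0, 0, 0, 0, 0, 0, 0, 0, 1, 0, 0, 0, 1, 0, 0, 0, 1, 0, 0, 0, 1, 0, 0, 0, 0, 0, 0, 0],
    [0, 0, 0, 0, 0, 0, 0, 0, 0, 0, 0, 0, 0, 0, 0, 1, 0, 0, 0, 1, 0, 0, 0, 0, 0, 1, 0, 0, 0, 1, 0, 0, 0, 0, 0],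
    [0, 0, 0, 0, 0, 0, 0, 0, 0, 1, 0, 0, 1, 0, 0, 0, 1, 0, 0, 0, 0, 0, 0, 0, 0, 0, 0, 0, 0, 1, 0, 0, 0, 0, 0],
    [0, 0, 0, 0, 0, 0, 0, 0, 0, 0, 0, 1, 0, 0, 0, 0, 0, 2, 0, 0, 0, 0, 0, 0, 0, 0, 0, 0, 0, 0, 1, 0, 0, 0, 0],
    [1, 0, 0, 0, 1, 0, 0, 0, 0, 0, 0, 0, 0, 0, 0, 0, 0, 0, 0, 0, 1, 0, 0, 1, 0, 0, 0, 0, 0, 0, 0, 0, 0, 0, 0],
    [1, 0, 0, 0, 1, 0, 0, 0, 0, 0, 0, 0, 0, 0, 0, 0, 1, 0, 0, 0, 0, 0, 0, 1, 0, 0, 0, 0, 0, 0, 0, 0, 0, 0, 0],
    [0, 1, 0, 0, 0, 0, 0, 1, 0, 1, 0, 0, 0, 0, 0, 0, 0, 0, 0, 0, 0, 0, 0, 0, 0, 0, 0, 1, 0, 0, 0, 0, 0, 0, 0],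
    [1, 0, 0, 0, 0, 0, 0, 1, 0, 0, 0, 0, 0, 0, 0, 0, 1, 0, 0, 0, 0, 0, 0, 0, 0, 0, 1, 0, 0, 0, 0, 0, 0, 0, 0],
    [0, 0, 0, 0, 0, 0, 0, 0, 0, 0, 0, 0, 0, 1, 0, 0, 0, 0, 0, 0, 0, 1, 0, 1, 0, 0, 0, 1, 0, 0, 0, 0, 0, 0, 0],
    [0, 0, 1, 0, 0, 0, 0, 0, 0, 0, 0, 0, 0, 0, 0, 1, 0, 0, 0, 0, 0, 1, 0, 1, 0, 0, 0, 0, 0, 0, 0, 0, 0, 0, 0],
    [0, 0, 0, 0, 0, 0, 0, 0, 0, 0, 0, 1, 0, 0, 0, 2, 0, 0, 0, 0, 0, 0, 0, 0, 0, 0, 0, 0, 0, 0, 1, 0, 0, 0, 0],
    [0, 0, 0, 0, 0, 0, 0, 0, 0, 0, 0, 0, 0, 1, 0, 0, 0, 0, 0, 0, 0, 0, 1, 0, 0, 0, 1, 1, 0, 0, 0, 0, 0, 0, 0],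
    [0, 0, 0, 0, 0, 0, 0, 0, 0, 0, 0, 0, 0, 1, 0, 0, 0, 0, 0, 0, 0, 0, 1, 1, 0, 0, 0, 1, 0, 0, 0, 0, 0, 0, 0],
    [1, 0, 0, 0, 0, 0, 0, 1, 0, 0, 0, 0, 0, 1, 0, 0, 1, 0, 0, 0, 0, 0, 0, 0, 0, 0, 0, 0, 0, 0, 0, 0, 0, 0, 0],
    [0, 0, 0, 0, 0, 0, 0, 0, 0, 0, 0, 0, 0, 0, 1, 0, 0, 0, 0, 0, 0, 0, 0, 0, 0, 2, 0, 0, 0, 0, 0, 0, 1, 0, 0],
    [0, 0, 1, 0, 0, 0, 0, 0, 0, 0, 0, 0, 0, 0, 0, 0, 0, 0, 0, 0, 0, 1, 0, 2, 0, 0, 0, 0, 0, 0, 0, 1, 0, 0, 0],
    [0, 0, 1, 0, 0, 0, 0, 0, 0, 0, 0, 0, 0, 0, 0, 0, 0, 0, 0, 0, 1, 0, 0, 1, 0, 0, 0, 0, 0, 0, 0, 1, 1, 0, 0],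
    [1, 0, 0, 0, 0, 0, 0, 0, 0, 0, 0, 0, 0, 0, 0, 0, 0, 0, 0, 1, 0, 0, 1, 0, 0, 0, 0, 1, 0, 0, 0, 1, 0, 0, 0],
    [1, 0, 0, 0, 0, 0, 0, 0, 0, 0, 0, 0, 0, 0, 0, 0, 0, 0, 0, 0, 1, 0, 0, 0, 0, 1, 0, 0, 0, 0, 0, 1, 1, 0, 0],
    [1, 0, 0, 0, 0, 0, 0, 0, 0, 0, 0, 0, 0, 1, 0, 0, 1, 0, 0, 0, 0, 0, 1, 0, 0, 0, 1, 0, 0, 0, 0, 0, 0, 0, 0],
    [1, 0, 0, 0, 0, 0, 0, 0, 0, 0, 0, 0, 0, 0, 0, 1, 0, 0, 0, 0, 0, 1, 0, 1, 0, 0, 0, 1, 0, 0, 0, 0, 0, 0, 0],
    [1, 0, 0, 0, 0, 0, 0, 0, 0, 0, 0, 0, 0, 0, 0, 0, 0, 0, 0, 0, 0, 0, 1, 0, 0, 0, 1, 0, 1, 0, 0, 1, 0, 0, 0],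
    [1, 0, 0, 0, 1, 0, 0, 0, 0, 0, 0, 0, 0, 0, 0, 0, 0, 0, 0, 0, 0, 0, 1, 0, 0, 1, 0, 1, 0, 0, 0, 0, 0, 0, 0],
    [1, 0, 0, 0, 1, 0, 0, 0, 0, 0, 0, 0, 0, 0, 0, 1, 0, 0, 0, 0, 0, 0, 0, 0, 0, 0, 0, 0, 0, 0, 1, 1, 0, 0, 0],
    [1, 0, 0, 0, 0, 0, 0, 1, 0, 0, 0, 0, 1, 0, 0, 0, 1, 0, 0, 0, 0, 0, 0, 0, 0, 1, 0, 0, 0, 0, 0, 0, 0, 0, 0],
    [1, 0, 0, 0, 0, 0, 0, 1, 0, 0, 0, 0, 0, 0, 0, 1, 0, 0, 0, 1, 0, 0, 0, 0, 0, 1, 0, 0, 0, 0, 0, 0, 0, 0, 0],
    [0, 1, 0, 0, 0, 0, 0, 1, 0, 0, 1, 0, 0, 0, 0, 0, 0, 0, 0, 0, 0, 0, 0, 1, 0, 0, 0, 1, 0, 0, 0, 0, 0, 0, 0],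
    [0, 1, 0, 0, 0, 0, 0, 0, 0, 0, 1, 0, 0, 0, 0, 0, 0, 0, 0, 0, 0, 0, 1, 1, 0, 0, 0, 1, 0, 0, 0, 0, 0, 0, 0],
    [0, 0, 1, 0, 0, 0, 0, 0, 0, 0, 0, 0, 0, 0, 0, 0, 0, 0, 0, 0, 0, 0, 1, 1, 0, 0, 0, 1, 0, 0, 0, 1, 1, 0, 0],
    [0, 0, 0, 0, 0, 0, 0, 0, 0, 0, 0, 0, 0, 1, 0, 0, 2, 0, 0, 0, 0, 0, 0, 1, 0, 0, 0, 0, 0, 0, 1, 0, 1, 0, 0],
    [1, 0, 0, 0, 0, 0, 0, 0, 0, 0, 0, 0, 0, 0, 0, 0, 1, 0, 0, 0, 1, 0, 0, 0, 0, 1, 0, 0, 0, 0, 0, 0, 2, 0, 0],
    [0, 0, 1, 0, 0, 0, 0, 0, 0, 0, 0, 0, 0, 0, 1, 0, 0, 0, 0, 0, 0, 1, 0, 0, 0, 0, 0, 1, 0, 0, 1, 1, 1, 0, 0],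
    [0, 0, 0, 0, 0, 0, 0, 0, 0, 0, 0, 0, 1, 0, 2, 0, 1, 0, 0, 0, 1, 0, 0, 0, 0, 0, 0, 0, 0, 0, 1, 0, 1, 0, 0]]

def EB11_base0 : List Row :=
   [(false, [1, 1, 1, 0, 0, 0, 0, 0, 0, 0, 0, 0, 0, 0, 0, 0, 0, 0, 0, 0, 0, 0, 0, 0, 0, 0, 0, 0, 0, 0, 0, 0, 0, -1, 0], 1),
    (false, [0, 0, 0, 1, 1, 1, 1, 1, 0, 0, 0, 0, 0, 0, 0, 0, 0, 0, 0, 0, 0, 0, 0, 0, 0, 0, 0, 0, 0, 0, 0, 0, 0, -1, 0], 0),
    (false, [0, 0, 0, 0, 0, 0, 0, 0, 1, 1, 1, 0, 0, 0, 0, 0, 0, 0, 0, 0, 0, 0, 0, 0, 0, 0, 0, 0, 0, 0, 0, 0, 0, -1, 0], 0),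
    (false, [0, 0, 0, 0, 0, 0, 0, 0, 0, 0, 0, 1, 1, 1, 0, 0, 0, 0, 0, 0, 0, 0, 0, 0, 0, 0, 0, 0, 0, 0, 0, 0, 0, 0, -1], 0),
    (false, [0, 0, 0, 0, 0, 0, 0, 0, 0, 0, 0, 0, 0, 0, 1, 1, 1, 1, 1, 0, 0, 0, 0, 0, 0, 0, 0, 0, 0, 0, 0, 0, 0, 0, -3], 0),
    (false, [0, 0, 0, 0, 0, 0, 0, 0, 0, 0, 0, 0, 0, 0, 0, 0, 0, 0, 0, 1, 1, 1, 1, 0, 0, 0, 0, 0, 0, 0, 0, 0, 0, 0, 0], 1),
    (false, [0, 0, 0, 0, 0, 0, 0, 0, 0, 0, 0, 0, 0, 0, 0, 0, 0, 0, 0, 0, 0, 0, 0, 1, 1, 1, 1, 0, 0, 0, 0, 0, 0, 0, 0], 1),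
    (false, [0, 1, 4, 4, 1, 0, 1, 4, 0, 1, 4, 0, 1, 4, 4, 1, 0, 1, 4, 4, 1, 0, 1, 1, 0, 1, 4, 0, 1, 4, 0, 0, 0, -8, -4], 6),
    (false, [4, 1, 0, 4, 1, 0, 1, 4, 4, 1, 0, 4, 1, 0, 4, 1, 0, 1, 4, 1, 0, 1, 4, 4, 1, 0, 1, 0, 1, 4, 0, 0, 0, -8, -4], 6),
    (false, [-1, -1, -1, 1, 1, 1, 1, 1, -1, -1, -1, -1, -1, -1, 1, 1, 1, 1, 1, 0, 0, 0, 0, 0, 0, 0, 0, 1, 1, 1, -1, 0, 0, 0, 0], 0),
    (false, [1, 1, 1, -1, -1, -1, -1, -1, -1, -1, -1, 0, 0, 0, 0, 0, 0, 0, 0, -1, -1, -1, -1, 0, 0, 0, 0, 1, 1, 1, 0, -1, 0, 0, 0], 0),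
    (false, [-1, 0, 1, -1, 0, 1, 0, -1, -1, 0, 1, -1, 0, 1, -1, 0, 1, 0, -1, 0, 1, 0, -1, -1, 0, 1, 0, 1, 0, -1, 0, 0, -1, 0, 0], 0),
    (true, [-1, -1, -1, -1, -1, -1, -1, -1, 1, 1, 1, 0, 0, 0, 0, 0, 0, 0, 0, 0, 0, 0, 0, 1, 1, 1, 1, 1, 1, 1, 0, 0, 0, 0, 0], 0),
    (true, [1, 0, -1, -1, 0, 1, 0, -1, 1, 0, -1, 1, 0, -1, -1, 0, 1, 0, -1, -1, 0, 1, 0, 0, 1, 0, -1, 1, 0, -1, 0, 0, 0, 0, 0], 0),
    (true, [4, 1, 0, 16, 9, 4, 1, 0, 0, 1, 4, 1, 0, 1, 9, 4, 1, 0, 1, 9, 4, 1, 0, 1, 0, 1, 4, 0, 1, 4, 0, 0, 0, 0, 0], 1),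
    (true, [0, 0, 0, 0, 0, 0, 0, 0, 0, 0, 0, 0, 0, 0, 0, 0, 0, 0, 0, 0, 0, 0, 0, 0, 0, 0, 0, 0, 0, 0, 0, 0, 0, 1, 0], 0),
    (true, [0, 0, 0, 0, 0, 0, 0, 0, 0, 0, 0, 0, 0, 0, 0, 0, 0, 0, 0, 0, 0, 0, 0, 0, 0, 0, 0, 0, 0, 0, 0, 0, 0, 0, 1], 0)]

def EB11_0_0_0_tree : Tree :=
  (.br 24 0
  (.br 8 0
   (.br 23 0
    (.br 0 0
     (.br 26 0
      (.br 25 0
       (.fk [(6, 1)])
       (.br 9 0
        (.br 28 0
         (.br 18 0
          (.br 27 0
           (.br 16 0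
            (.br 17 0
             (.br 1 0
              (.br 15 0
               (.fk [(0, 8), (1, -25), (2, -7), (3, -24), (4, 4), (5, -10), (6, -13), (7, -3), (8, 6), (10, 4), (11, 8), (13, 8)])
               (.br 22 0
                (.br 11 0
                 (.fk [(0, 1), (1, -8), (2, -9), (3, -2), (4, -2), (5, -9), (6, -2), (7, 1), (8, 1), (13, 8)])
                 (.br 21 0
                  (.br 20 0
                   (.fk [(0, 20), (1, 8), (2, 4), (3, 4), (4, 4), (5, 13), (6, -18), (7, -3), (8, -1), (12, 8)])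
                   (.mv 14))
                  (.mv 9)))
                (.mv 26)))
              (.br 21 0
               (.br 6 0
                (.br 7 0
                 (.br 11 0
                  (.fk [(0, -4), (1, -4), (3, -1), (4, -1), (5, -1), (6, -5), (7, 1), (13, 4)])
                  (.br 4 0
                   (.br 5 0
                    (.br 15 0
                     (.fk [(0, 10), (1, 2), (2, 20), (3, 1), (4, 5), (5, 9), (6, -6), (7, -4), (9, 21), (10, 5), (13, 10)])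
                     (.br 20 0
                      (.br 15 1
                       (.fk [(0, -72), (1, -96), (2, -72), (3, -90), (4, -10), (5, -15), (6, -129), (7, 9), (8, 21), (11, 78), (13, 42)])
                       (.br 30 0
                        (.fk [(0, -10), (1, 2), (2, -8), (3, -11), (4, 1), (5, -2), (6, -5), (7, 1), (8, 1), (9, -5), (10, 1), (11, 2), (13, 2)])
                        (.mv 120)))
                      (.mv 14)))
                    (.mv 85))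
                   (.mv 27)))
                 (.mv 38))
                (.mv 4))
               (.mv 34)))
             (.br 11 0
              (.br 1 0
               (.fk [(0, 8), (1, -35), (2, -13), (3, -5), (4, -5), (5, -17), (6, -17), (7, -3), (8, 8), (11, 12), (13, 8)])
               (.mv 55))
              (.mv 51)))
            (.br 11 0
             (.br 21 0
              (.br 1 0
               (.fk [(0, 4), (1, -8), (2, 4), (5, -3), (6, -3), (7, -1), (8, 1)])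
               (.br 22 0
                (.fk [(0, -4), (2, 4), (5, 1), (7, -1), (8, 1)])
                (.mv 25)))
              (.mv 18))
             (.mv 6)))
           (.br 22 0
            (.br 10 0
             (.br 21 0
              (.br 17 0
               (.br 16 0
                (.br 20 0
                 (.br 19 0
                  (.fk [(5, 1), (6, -1)])
                  (.br 14 0
                   (.br 15 0
                    (.fk [(3, -12), (4, 4), (5, 3), (7, -3), (8, 3)])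
                    (.br 29 0
                     (.br 15 1
                      (.fk [(0, -12), (1, -48), (2, -36), (3, -36), (4, -4), (5, -30), (6, -12), (7, 3), (8, 9)])
                      (.br 30 0
                       (.fk [(0, -27), (2, -21), (3, -54), (4, 10), (5, 3), (6, -6), (7, 3), (8, 3), (9, -21), (13, 21)])
                       (.br 11 0
                        (.fk [(0, -1), (1, -4), (2, -3), (3, -1), (4, -1), (5, -2), (6, -1), (8, 1)])
                        (.mv 120))))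
                     (.mv 111)))
                   (.mv 3)))
                 (.br 15 0
                  (.fk [(0, 2), (2, 14), (3, -16), (4, 8), (5, 3), (6, 3), (7, -6), (8, 4)])
                  (.mv 14)))
                (.br 11 0
                 (.fk [(5, 1), (7, -1), (8, 1)])
                 (.mv 6)))
               (.br 11 0
                (.fk [(5, 1), (7, -1), (8, 1)])
                (.mv 51)))
              (.br 1 0
               (.br 11 0
                (.fk [(0, 1), (2, -1), (5, -3), (6, 1), (7, -2), (8, 2)])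
                (.mv 9))
               (.mv 34)))
             (.br 29 0
              (.br 11 0
               (.fk [(1, -3), (2, 3), (5, -1), (7, -1), (8, 1)])
               (.br 21 0
                (.br 17 0
                 (.br 16 0
                  (.br 14 0
                   (.br 1 0
                    (.br 11 1
                     (.fk [(0, 4), (1, -21), (2, 1), (3, -2), (4, -2), (5, 1), (6, -2), (7, -1), (8, 3)])
                     (.br 5 0
                      (.br 4 0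
                       (.br 6 0
                        (.fk [(0, 12), (1, 16), (2, 4), (3, 4), (4, 4), (5, 3), (6, -5), (7, -3), (8, -1)])
                        (.mv 107))
                       (.mv 27))
                      (.mv 88)))
                    (.br 7 0
                     (.br 6 0
                      (.br 4 0
                       (.br 5 0
                        (.br 15 0
                         (.fk [(0, -6), (1, -12), (2, -6), (3, -15), (4, 1), (5, -3), (6, -3), (8, 3)])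
                         (.br 20 0
                          (.br 15 1
                           (.fk [(0, -36), (1, -84), (2, -48), (3, -60), (4, -8), (5, -48), (6, -21), (7, 9), (8, 12)])
                           (.br 30 0
                            (.fk [(0, -8), (2, -8), (3, -14), (4, 2), (5, -1), (6, -2), (7, 1), (8, 1), (9, -5), (13, 4)])
                            (.mv 120)))
                          (.mv 14)))
                        (.mv 85))
                       (.mv 27))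
                      (.mv 4))
                     (.mv 38)))
                   (.br 19 0
                    (.br 15 0
                     (.fk [(0, 5), (1, -1), (2, 36), (3, -40), (4, 20), (5, 12), (7, -12), (8, 7)])
                     (.br 20 0
                      (.fk [(5, 1), (6, -1)])
                      (.mv 14)))
                    (.mv 3)))
                  (.mv 6))
                 (.mv 51))
                (.mv 9)))
              (.mv 7)))
            (.br 1 0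
             (.br 11 0
              (.fk [(0, 4), (1, -8), (2, 4), (5, -7), (6, -3), (7, -1), (8, 1)])
              (.mv 59))
             (.mv 60))))
          (.br 1 0
           (.br 16 0
            (.br 11 0
             (.fk [(0, 12), (1, -8), (2, 12), (3, 2), (4, 2), (5, -1), (6, -9), (7, -3), (8, 1)])
             (.br 21 0
              (.br 17 0
               (.br 15 0
                (.fk [(0, 36), (1, -12), (2, 32), (3, -41), (4, 23), (5, 5), (6, -28), (7, -9), (8, 1), (17, 1)])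
                (.br 22 0
                 (.br 20 0
                  (.br 19 0
                   (.fk [(5, 1), (6, -1)])
                   (.mv 109))
                  (.mv 14))
                 (.mv 26)))
               (.mv 51))
              (.mv 9)))
            (.br 11 0
             (.fk [(0, 4), (1, -8), (2, 4), (5, -3), (6, -3), (7, -1), (8, 1)])
             (.mv 6)))
           (.br 21 0
            (.br 10 0
             (.br 20 0
              (.br 12 0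
               (.br 19 0
                (.br 13 0
                 (.fk [(0, -12), (1, -28), (2, 56), (3, 29), (4, -7), (5, 29), (6, -20), (7, 3), (8, -8), (17, 3)])
                 (.mv 12))
                (.mv 102))
               (.mv 28))
              (.mv 30))
             (.mv 70))
            (.mv 33))))
         (.mv 22))
        (.mv 5)))
      (.br 10 0
       (.br 29 0
        (.br 27 0
         (.br 16 0
          (.br 20 0
           (.br 17 0
            (.br 28 0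
             (.fk [(0, -7), (2, 7), (5, 6), (6, -3), (7, -1), (8, 1), (10, 7), (11, 4)])
             (.br 9 0
              (.fk [(1, -4), (2, 4), (5, -1), (6, -3), (7, -1), (8, 1), (11, 4)])
              (.mv 13)))
            (.br 22 0
             (.br 1 0
              (.br 11 0
               (.fk [(0, 1), (1, -1), (5, -1), (6, 1), (7, -1), (8, 1)])
               (.br 21 0
                (.br 19 0
                 (.fk [(5, 1), (6, -1)])
                 (.mv 49))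
                (.mv 9)))
              (.br 21 0
               (.br 19 0
                (.fk [(5, 1), (6, -1)])
                (.mv 84))
               (.mv 48)))
             (.mv 10)))
           (.br 15 0
            (.br 11 0
             (.fk [(5, -3), (6, 1), (7, -1), (8, 1)])
             (.br 28 0
              (.fk [(0, 8), (1, -18), (2, -14), (3, -6), (4, -2), (5, 8), (6, -48), (7, 1), (8, 1), (10, 28), (11, 7), (12, 39), (13, 8), (17, 1)])
              (.mv 24)))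
            (.mv 14)))
          (.br 11 0
           (.br 1 0
            (.fk [(0, 2), (1, -2), (5, -3), (6, 1), (7, -1), (8, 1)])
            (.br 22 0
             (.fk [(5, -1), (6, 1), (7, -1), (8, 1)])
             (.mv 25)))
           (.mv 6)))
         (.br 9 0
          (.br 22 0
           (.br 21 0
            (.br 16 0
             (.br 11 0
              (.fk [(5, 1), (6, 1), (7, -1), (8, 1)])
              (.br 20 0
               (.fk [(0, 4), (2, 28), (3, 4), (4, 4), (5, 13), (7, -3), (8, -1)])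
               (.mv 67)))
             (.br 11 0
              (.fk [(5, 1), (6, 1), (7, -1), (8, 1)])
              (.mv 6)))
            (.br 16 0
             (.br 11 0
              (.fk [(5, -2), (6, 1), (7, -1), (8, 1)])
              (.mv 9))
             (.mv 18)))
           (.br 15 0
            (.br 13 0
             (.br 12 0
              (.br 16 0
               (.fk [(0, 28), (1, -92), (2, 288), (3, 1), (4, 37), (5, -21), (6, 24), (7, -39), (8, -4), (17, 15)])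
               (.br 11 0
                (.fk [(1, -48), (2, 48), (3, 60), (4, -20), (5, -11), (6, 3), (7, -7), (8, 3), (17, 4)])
                (.mv 6)))
              (.mv 17))
             (.mv 121))
            (.mv 105)))
          (.mv 35)))
        (.mv 2))
       (.mv 19)))
     (.br 5 0
      (.br 9 0
       (.br 25 0
        (.br 26 0
         (.fk [(6, 1)])
         (.br 10 0
          (.br 17 0
           (.br 29 0
            (.br 20 0
             (.br 31 0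
              (.br 16 0
               (.fk [(0, 4), (1, -16), (2, 12), (5, -9), (6, -1), (7, -1), (8, 1), (10, -8), (11, 4)])
               (.br 19 0
                (.br 21 0
                 (.br 13 0
                  (.fk [(0, 8), (1, -20), (2, 12), (5, -9), (6, -11), (7, 1), (8, -1), (10, -12)])
                  (.br 22 0
                   (.fk [(0, 1), (1, -3), (2, 2), (5, 1), (6, -1), (10, -2)])
                   (.mv 129)))
                 (.mv 18))
                (.mv 93)))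
              (.br 21 0
               (.br 18 0
                (.br 22 0
                 (.br 19 0
                  (.fk [(0, -1), (1, -1), (2, 2), (5, 1), (6, -1)])
                  (.mv 86))
                 (.br 27 0
                  (.br 28 0
                   (.fk [(0, -2), (1, 2), (5, 1), (6, -2), (10, 2), (12, 1)])
                   (.mv 131))
                  (.mv 83)))
                (.br 13 0
                 (.br 19 0
                  (.fk [(0, -4), (1, -8), (2, 12), (5, 3), (6, -11), (7, 1), (8, -1)])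
                  (.mv 86))
                 (.mv 12)))
               (.mv 43)))
             (.mv 36))
            (.mv 2))
           (.mv 45))
          (.mv 19)))
        (.br 28 0
         (.br 6 0
          (.br 16 0
           (.br 2 0
            (.br 18 0
             (.br 1 0
              (.br 17 0
               (.br 19 0
                (.br 15 0
                 (.br 14 0
                  (.fk [(0, 12), (2, -12), (3, -12), (4, 4), (5, -3), (6, -15), (7, 3), (8, -3)])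
                  (.br 21 0
                   (.br 20 0
                    (.br 27 0
                     (.fk [(0, 2), (1, -12), (2, 2), (3, 2), (4, -2), (5, 2), (6, -6), (7, 2), (8, -1), (9, 5), (11, 2), (13, 7)])
                     (.br 4 0
                      (.fk [(0, 12), (1, 16), (2, 4), (3, 4), (4, 4), (5, 13), (6, -11), (7, -1), (8, -3)])
                      (.br 22 0
                       (.fk [(5, 1), (6, -1)])
                       (.mv 132))))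
                    (.br 26 0
                     (.br 32 0
                      (.fk [(7, 1), (8, -1), (11, -2), (13, 2)])
                      (.br 31 0
                       (.br 25 1
                        (.br 4 0
                         (.fk [(0, 4), (1, -20), (2, -24), (3, -14), (4, -2), (5, -30), (6, -12), (7, 4), (8, 1), (10, -18), (11, 4), (13, 14)])
                         (.br 11 0
                          (.fk [(0, 2), (1, -12), (2, -14), (3, -3), (4, -3), (5, -16), (6, -7), (7, 2), (8, 1), (10, -10), (11, 2), (12, 1), (13, 7)])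
                          (.mv 27)))
                        (.mv 124))
                       (.mv 128)))
                     (.mv 36)))
                   (.mv 31)))
                 (.br 20 0
                  (.br 21 0
                   (.br 22 0
                    (.fk [(5, 1), (6, -1)])
                    (.mv 26))
                   (.mv 95))
                  (.mv 14)))
                (.br 14 0
                 (.br 31 0
                  (.br 15 0
                   (.fk [(0, 12), (1, -108), (2, -72), (3, -42), (4, -14), (5, -93), (6, -36), (7, 12), (8, 9), (9, 12), (10, -54), (11, 12), (13, 30)])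
                   (.br 20 0
                    (.br 22 0
                     (.br 21 0
                      (.br 29 0
                       (.br 7 0
                        (.br 15 1
                         (.fk [(0, 6), (1, -60), (2, -42), (3, -18), (4, -10), (5, -51), (6, -21), (7, 6), (8, 6), (9, 6), (10, -24), (11, 9), (13, 9)])
                         (.br 30 0
                          (.fk [(0, 2), (1, -6), (2, -28), (3, -13), (4, -1), (5, -17), (6, -14), (7, 2), (8, 2), (9, -5), (10, -8), (11, 3), (12, 7), (13, 3)])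
                          (.br 11 0
                           (.fk [(0, 2), (1, -16), (2, -18), (3, -4), (4, -4), (5, -17), (6, -9), (7, 2), (8, 2), (10, -11), (12, 5), (13, 6)])
                           (.mv 120))))
                        (.mv 135))
                       (.mv 111))
                      (.mv 95))
                     (.mv 26))
                    (.mv 14)))
                  (.br 21 0
                   (.br 26 0
                    (.br 27 0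
                     (.fk [(0, -4), (1, 2), (2, 2), (5, 3), (6, -3), (7, 1), (8, -1), (10, 4), (13, 4)])
                     (.br 22 0
                      (.br 32 0
                       (.br 10 0
                        (.fk [(0, 2), (1, 6), (2, 16), (3, 3), (4, 3), (5, 2), (6, 5), (7, 2), (8, -5), (10, 5), (11, -9), (13, 2)])
                        (.br 29 0
                         (.fk [(0, -18), (1, 4), (2, 22), (3, 1), (4, 1), (5, 4), (6, 11), (7, 4), (8, -5), (10, 19), (11, -19)])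
                         (.mv 7)))
                       (.br 20 0
                        (.br 29 0
                         (.br 15 0
                          (.fk [(0, -12), (1, -24), (2, -12), (3, -12), (4, -4), (5, -18), (6, -6), (7, 3), (8, 3)])
                          (.br 7 0
                           (.br 30 0
                            (.fk [(0, -54), (1, 24), (2, -18), (3, -39), (4, 5), (5, 3), (6, -9), (7, 3), (8, 3), (9, -24), (10, 21), (11, 3)])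
                            (.br 4 0
                             (.br 15 1
                              (.fk [(0, -12), (1, -24), (2, -12), (3, -12), (4, -4), (5, -18), (6, -6), (7, 3), (8, 3)])
                              (.br 11 0
                               (.fk [(0, -12), (1, -16), (2, -4), (3, -4), (4, -4), (5, -10), (6, -4), (7, 1), (8, 3)])
                               (.mv 120)))
                             (.mv 133)))
                           (.mv 135)))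
                         (.br 10 0
                          (.fk [(0, 8), (1, -8), (2, 56), (3, 7), (4, 7), (5, 8), (6, -5), (7, -3), (8, -4)])
                          (.mv 7)))
                        (.mv 128)))
                      (.mv 127)))
                    (.mv 86))
                   (.mv 43)))
                 (.mv 3)))
               (.br 21 0
                (.br 22 0
                 (.br 11 0
                  (.br 12 0
                   (.br 20 0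
                    (.fk [(0, -12), (2, 12), (3, 12), (4, -4), (5, 9), (6, -6), (7, -3), (8, 3)])
                    (.mv 46))
                   (.mv 16))
                  (.mv 51))
                 (.mv 10))
                (.mv 96)))
              (.br 7 0
               (.br 17 0
                (.br 29 0
                 (.br 27 0
                  (.fk [(1, 2), (2, -2), (5, 1), (6, -3), (10, 1), (12, 2)])
                  (.br 22 0
                   (.br 21 0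
                    (.br 14 0
                     (.br 15 0
                      (.fk [(0, -36), (1, -24), (2, 12), (3, -36), (4, 4), (5, 3), (6, -6), (7, -3), (8, 9)])
                      (.br 20 0
                       (.br 15 1
                        (.fk [(0, -4), (1, -4), (3, -4), (5, -1), (6, -1), (8, 1)])
                        (.br 30 0
                         (.fk [(0, -14), (1, 2), (2, -4), (3, -14), (4, 2), (6, -2), (7, 1), (8, 1), (9, -5), (13, 5)])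
                         (.br 11 0
                          (.fk [(0, -4), (1, -4), (3, -1), (4, -1), (5, -1), (6, -1), (8, 1)])
                          (.mv 120))))
                       (.mv 14)))
                     (.br 19 0
                      (.br 20 0
                       (.fk [(5, 1), (6, -1)])
                       (.br 15 0
                        (.br 26 0
                         (.br 4 0
                          (.fk [(0, -16), (1, 8), (2, 24), (3, -16), (4, 8), (5, 3), (6, 3), (7, -6), (8, 4)])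
                          (.br 11 0
                           (.fk [(0, -4), (2, 4), (7, -1), (8, 1)])
                           (.mv 27)))
                         (.mv 36))
                        (.mv 14)))
                      (.mv 3)))
                    (.mv 34))
                   (.mv 60)))
                 (.br 10 0
                  (.fk [(0, -6), (1, -8), (2, 30), (3, 2), (4, 2), (5, 1), (6, -7), (7, -1), (8, -1)])
                  (.mv 7)))
                (.mv 55))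
               (.mv 38)))
             (.br 21 0
              (.br 20 0
               (.br 13 0
                (.br 12 0
                 (.br 1 0
                  (.fk [(0, 12), (2, -12), (3, 12), (4, -4), (5, -9), (6, -15), (7, 3), (8, -3)])
                  (.br 7 0
                   (.br 10 0
                    (.fk [(0, -14), (1, -20), (2, 82), (3, 12), (4, 4), (5, 15), (6, -17), (7, -3), (8, -3)])
                    (.mv 70))
                   (.mv 38)))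
                 (.mv 28))
                (.mv 12))
               (.mv 97))
              (.mv 98)))
            (.br 7 0
             (.br 11 0
              (.fk [(0, -4), (2, 4), (5, -3), (6, -7), (7, -1), (8, 1)])
              (.br 4 0
               (.br 17 0
                (.br 21 0
                 (.br 15 0
                  (.fk [(0, -4), (1, 12), (2, 16), (3, -24), (4, 12), (6, -16), (7, -4), (8, 1)])
                  (.br 20 0
                   (.br 22 0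
                    (.fk [(0, 4), (1, 16), (2, 12), (3, 4), (4, 4), (5, 13), (6, -10), (7, -3), (8, -1)])
                    (.mv 26))
                   (.mv 14)))
                 (.mv 9))
                (.mv 51))
               (.mv 27)))
             (.mv 11)))
           (.br 22 0
            (.br 21 0
             (.br 11 0
              (.br 18 0
               (.br 17 0
                (.br 29 0
                 (.br 19 0
                  (.br 12 0
                   (.fk [(0, -12), (1, -4), (2, 8), (3, 8), (4, -4), (5, 2), (6, -2), (7, -2), (8, 3)])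
                   (.br 7 0
                    (.br 26 0
                     (.br 20 0
                      (.fk [(5, 1), (6, -1)])
                      (.br 15 0
                       (.br 32 0
                        (.fk [(0, 4), (1, 4), (3, 1), (4, 1), (5, 2), (7, 2), (8, -3), (11, -7), (12, 3), (13, 4)])
                        (.br 32 1
                         (.br 31 0
                          (.br 14 0
                           (.fk [(0, 2), (1, -38), (2, 4), (3, -10), (4, -2), (5, 2), (6, 2), (7, 2), (8, 2), (9, 11), (10, -5), (11, -11), (12, 5)])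
                           (.br 14 1
                            (.fk [(0, -28), (1, -48), (2, -20), (3, -24), (4, -8), (5, -11), (6, -15), (7, 7), (8, 5), (10, 4), (11, -4)])
                            (.br 30 0
                             (.fk [(0, -22), (1, 6), (2, -16), (3, -19), (4, 1), (5, -5), (6, -8), (7, 2), (8, 2), (9, -11), (10, 3), (11, 4), (13, 4)])
                             (.mv 142))))
                          (.mv 128))
                         (.mv 140)))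
                       (.mv 14)))
                     (.mv 29))
                    (.mv 134)))
                  (.br 14 0
                   (.fk [(0, -4), (1, -4), (3, -1), (4, -1), (5, -2), (6, -1), (8, 1)])
                   (.mv 3)))
                 (.br 10 0
                  (.br 26 0
                   (.br 32 0
                    (.fk [(0, -10), (1, -3), (2, 61), (3, 6), (4, 6), (5, 9), (6, 13), (7, 2), (8, -8), (11, -24), (13, 9)])
                    (.br 20 0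
                     (.br 12 0
                      (.fk [(0, -4), (1, -4), (2, 16), (3, 4), (5, 4), (6, -3), (7, -1)])
                      (.br 19 0
                       (.fk [(0, -1), (1, -1), (2, 2), (5, 1), (6, -1)])
                       (.mv 90)))
                     (.br 31 0
                      (.fk [(0, 1), (1, -3), (2, 2), (5, -3), (6, -1), (10, -2)])
                      (.mv 128))))
                   (.mv 2))
                  (.mv 7)))
                (.br 12 0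
                 (.fk [(0, -12), (2, 12), (3, 12), (4, -4), (5, 3), (6, -1), (7, -3), (8, 3)])
                 (.mv 16)))
               (.br 12 0
                (.fk [(0, -12), (2, 12), (3, 12), (4, -4), (5, 3), (7, -3), (8, 3)])
                (.mv 28)))
              (.mv 6))
             (.mv 18))
            (.mv 100)))
          (.mv 41))
         (.mv 22)))
       (.br 25 0
        (.br 27 0
         (.br 28 0
          (.br 26 0
           (.fk [(6, 1)])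
           (.br 29 0
            (.fk [(1, 2), (2, -2), (5, 1), (6, -3), (10, 1), (12, 2)])
            (.mv 2)))
          (.mv 13))
         (.br 26 0
          (.fk [(6, 1)])
          (.mv 35)))
        (.mv 5)))
      (.mv 15)))
    (.br 9 0
     (.br 25 0
      (.br 28 0
       (.br 2 0
        (.br 16 0
         (.br 1 0
          (.br 17 0
           (.br 18 0
            (.br 0 0
             (.fk [(0, 1), (2, -1), (6, -1)])
             (.br 5 0
              (.br 15 0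
               (.br 14 0
                (.fk [(0, 12), (2, -12), (3, -12), (4, 4), (5, -9), (6, -9), (7, 3), (8, -3)])
                (.br 19 0
                 (.br 4 0
                  (.br 6 0
                   (.fk [(0, 12), (1, 16), (2, 4), (3, 4), (4, 4), (5, 1), (6, 1), (7, -1), (8, -3)])
                   (.br 13 0
                    (.fk [(0, 4), (2, -4), (5, -1), (6, -3), (7, 1), (8, -1)])
                    (.mv 39)))
                  (.br 20 0
                   (.br 6 0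
                    (.br 13 0
                     (.fk [(0, 4), (2, -4), (5, 1), (6, -3), (7, 1), (8, -1)])
                     (.br 21 0
                      (.br 27 0
                       (.fk [(0, 2), (1, -16), (2, 6), (3, 2), (4, -2), (5, 2), (6, 2), (7, 2), (8, -1), (9, 7), (11, 2), (13, 9)])
                       (.br 22 0
                        (.fk [(5, 1), (6, -1)])
                        (.mv 122)))
                      (.mv 101)))
                    (.br 13 0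
                     (.fk [(0, 4), (2, -4), (5, 1), (6, -3), (7, 1), (8, -1)])
                     (.mv 39)))
                   (.mv 114)))
                 (.mv 3)))
               (.br 19 0
                (.br 20 0
                 (.br 27 0
                  (.fk [(0, 2), (1, 10), (2, 4), (3, 2), (4, 2), (5, 7), (6, 3), (7, -1), (8, -1), (10, 6), (11, 2), (12, 2)])
                  (.br 21 0
                   (.br 13 0
                    (.fk [(0, 4), (2, -4), (5, 3), (6, -3), (7, 1), (8, -1)])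
                    (.br 22 0
                     (.fk [(5, 1), (6, -1)])
                     (.mv 54)))
                   (.mv 130)))
                 (.mv 14))
                (.mv 94)))
              (.mv 15)))
            (.br 13 0
             (.fk [(0, 4), (2, -4), (5, -3), (6, -3), (7, 1), (8, -1)])
             (.mv 12)))
           (.br 20 0
            (.br 13 0
             (.fk [(0, 4), (2, -4), (5, -3), (6, -3), (7, 1), (8, -1)])
             (.mv 37))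
            (.mv 32)))
          (.br 5 0
           (.br 6 0
            (.br 20 0
             (.br 31 0
              (.br 17 0
               (.br 13 0
                (.fk [(0, 4), (1, -8), (2, -12), (3, -2), (4, -2), (5, -9), (6, -5), (7, 1), (8, 1), (10, -6), (11, 4), (13, 2)])
                (.br 21 0
                 (.br 18 0
                  (.br 11 0
                   (.fk [(0, 2), (1, -8), (2, -10), (3, -2), (4, -2), (5, -9), (6, -5), (7, 2), (10, -7), (12, 1), (13, 6)])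
                   (.br 4 0
                    (.fk [(0, 4), (1, 4), (3, 1), (4, 1), (5, 1), (8, -1), (10, -3), (13, 3)])
                    (.br 27 0
                     (.fk [(0, 1), (1, 1), (2, -2), (5, 1), (7, 1), (8, -1), (11, 1), (12, 2), (13, 5)])
                     (.mv 82))))
                  (.mv 12))
                 (.mv 99)))
               (.br 13 0
                (.fk [(0, 4), (1, -8), (2, -12), (3, -2), (4, -2), (5, -9), (6, -5), (7, 1), (8, 1), (10, -6), (11, 4), (13, 2)])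
                (.mv 37)))
              (.br 19 0
               (.br 21 0
                (.br 27 0
                 (.fk [(0, -7), (1, 2), (2, 5), (5, 1), (6, 2), (7, 1), (8, -1), (10, 6), (11, 1), (13, 5)])
                 (.br 10 0
                  (.fk [(0, -5), (1, -13), (2, 82), (3, 8), (4, 8), (5, 26), (6, 13), (7, -2), (8, -6)])
                  (.br 22 0
                   (.fk [(5, 1), (6, -1)])
                   (.mv 137))))
                (.mv 64))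
               (.mv 91)))
             (.mv 50))
            (.mv 4))
           (.mv 23)))
         (.br 1 0
          (.br 13 0
           (.fk [(0, 4), (2, -4), (5, -3), (6, -3), (7, 1), (8, -1)])
           (.br 18 0
            (.br 17 0
             (.br 10 0
              (.br 11 0
               (.br 21 0
                (.br 6 0
                 (.br 19 0
                  (.br 12 0
                   (.br 23 1
                    (.br 16 1
                     (.br 15 0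
                      (.fk [(0, 12), (1, -10), (2, 14), (3, -16), (4, 8), (5, -1), (6, -1), (7, 1), (8, -3)])
                      (.br 20 0
                       (.fk [(0, 12), (1, -8), (2, 28), (3, 4), (4, 4), (5, 13), (6, 1), (7, -1), (8, -3)])
                       (.mv 14)))
                     (.br 32 0
                      (.fk [(0, 1), (1, 1), (2, 6), (3, 1), (4, 1), (5, 4), (7, 1), (8, -2), (10, 1), (11, -4), (13, 2)])
                      (.br 30 0
                       (.fk [(0, -30), (1, 10), (2, -28), (3, -54), (4, 10), (5, -11), (6, -15), (7, 3), (8, 3), (9, -26), (11, 8)])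
                       (.mv 139))))
                    (.mv 58))
                   (.mv 57))
                  (.mv 53))
                 (.mv 39))
                (.mv 18))
               (.mv 6))
              (.br 29 0
               (.br 19 0
                (.br 0 0
                 (.fk [(0, 1), (2, -1), (6, -1)])
                 (.br 20 0
                  (.br 7 0
                   (.br 5 0
                    (.br 21 0
                     (.br 4 0
                      (.br 6 0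
                       (.br 22 0
                        (.fk [(5, 1), (6, -1)])
                        (.br 27 0
                         (.fk [(0, 1), (1, 2), (2, -3), (5, 1), (6, -5), (10, 2), (12, 4)])
                         (.mv 122)))
                       (.mv 39))
                      (.mv 115))
                     (.mv 18))
                    (.mv 15))
                   (.mv 123))
                  (.mv 92)))
                (.mv 53))
               (.mv 7)))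
             (.mv 37))
            (.mv 12)))
          (.mv 42)))
        (.br 7 0
         (.br 6 0
          (.br 27 0
           (.br 16 0
            (.br 17 0
             (.br 15 0
              (.fk [(0, 8), (1, -20), (2, 44), (3, -26), (4, 14), (5, 7), (6, 7), (7, -3), (8, -1), (9, 18), (10, 14), (11, 8), (13, 8)])
              (.br 21 0
               (.fk [(0, -4), (2, 4), (5, 3), (6, -1), (7, 1), (8, -1), (10, 4), (13, 4)])
               (.mv 119)))
             (.br 21 0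
              (.fk [(0, -4), (2, 4), (5, 3), (6, -1), (7, 1), (8, -1), (10, 4), (13, 4)])
              (.mv 76)))
            (.br 22 0
             (.br 21 0
              (.br 11 0
               (.fk [(0, -4), (2, 4), (5, 1), (6, -11), (7, -1), (8, 1)])
               (.mv 6))
              (.mv 18))
             (.mv 66)))
           (.br 26 0
            (.br 22 0
             (.br 18 0
              (.br 21 0
               (.br 17 0
                (.br 0 0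
                 (.br 16 0
                  (.br 15 0
                   (.fk [(0, 1), (1, -5), (2, 12), (3, -8), (4, 4), (5, 3), (6, -16), (7, -3), (8, 2)])
                   (.br 20 0
                    (.br 19 0
                     (.fk [(5, 1), (6, -1)])
                     (.mv 110))
                    (.mv 14)))
                  (.br 11 0
                   (.fk [(5, 1), (6, -7), (7, -1), (8, 1)])
                   (.mv 6)))
                 (.br 5 0
                  (.br 4 0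
                   (.br 16 0
                    (.br 15 0
                     (.fk [(0, -8), (1, 4), (2, 12), (3, -8), (4, 4), (5, 3), (6, -25), (7, -3), (8, 2)])
                     (.br 20 0
                      (.fk [(0, 4), (1, 16), (2, 12), (3, 4), (4, 4), (5, 13), (6, -6), (7, -3), (8, -1)])
                      (.mv 14)))
                    (.br 20 0
                     (.br 11 0
                      (.fk [(0, -4), (2, 4), (5, 3), (6, -11), (7, -1), (8, 1)])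
                      (.mv 6))
                     (.mv 92)))
                   (.br 20 0
                    (.br 11 0
                     (.fk [(0, -4), (2, 4), (5, 3), (6, -11), (7, -1), (8, 1)])
                     (.mv 82))
                    (.mv 114)))
                  (.mv 15)))
                (.br 20 0
                 (.br 19 0
                  (.fk [(5, 1), (6, -1)])
                  (.mv 78))
                 (.mv 32)))
               (.br 11 0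
                (.br 12 0
                 (.br 16 0
                  (.br 1 0
                   (.br 17 0
                    (.br 13 0
                     (.br 15 0
                      (.br 31 0
                       (.fk [(0, 4), (1, -38), (2, -30), (3, 37), (4, -23), (5, -36), (6, -17), (7, 4), (8, 4), (9, 3), (10, -19), (11, 7), (13, 9)])
                       (.br 0 0
                        (.fk [(0, 16), (1, -36), (2, 20), (3, 75), (4, -25), (5, -24), (6, -31), (7, -8), (8, 5), (17, 3)])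
                        (.mv 43)))
                      (.mv 119))
                     (.mv 118))
                    (.mv 76))
                   (.mv 63))
                  (.mv 18))
                 (.mv 81))
                (.mv 9)))
              (.br 21 0
               (.br 20 0
                (.br 16 0
                 (.br 11 0
                  (.fk [(0, -4), (2, 4), (5, 3), (6, -11), (7, -1), (8, 1)])
                  (.br 5 0
                   (.br 4 0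
                    (.fk [(0, 4), (1, 16), (2, 12), (3, 4), (4, 4), (5, 12), (6, -5), (7, -3), (8, -1)])
                    (.mv 71))
                   (.mv 69)))
                 (.br 11 0
                  (.fk [(0, -4), (2, 4), (5, 3), (6, -11), (7, -1), (8, 1)])
                  (.mv 6)))
                (.mv 62))
               (.mv 56)))
             (.br 31 0
              (.br 16 0
               (.br 5 0
                (.br 17 0
                 (.br 15 0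
                  (.br 4 0
                   (.fk [(0, 4), (1, -16), (2, -20), (3, -10), (4, -2), (5, -25), (6, -7), (7, 3), (8, 1), (10, -14), (11, 4), (13, 10)])
                   (.mv 72))
                  (.mv 68))
                 (.mv 10))
                (.br 0 0
                 (.br 1 0
                  (.br 17 0
                   (.br 15 0
                    (.fk [(0, 2), (1, -6), (2, 4), (3, -6), (4, 2), (5, -7), (6, -5), (7, -1), (8, 1), (10, -2), (13, 2)])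
                    (.mv 68))
                   (.mv 10))
                  (.mv 23))
                 (.mv 15)))
               (.mv 66))
              (.br 32 0
               (.fk [(5, -2), (6, 1), (7, 2), (8, -2), (11, -4), (13, 4)])
               (.mv 138))))
            (.mv 47)))
          (.mv 40))
         (.mv 11)))
       (.mv 21))
      (.mv 20))
     (.mv 8)))
   (.mv 1))
  (.mv 0))

def EB11_0_0_0 : Inst where
  rows :=
   [(false, [1, 1, 1, 0, 0, 0, 0, 0, 0, 0, 0, 0, 0, 0, 0, 0, 0, 0, 0, 0, 0, 0, 0, 0, 0, 0, 0, 0, 0, 0, 0, 0, 0, -1, 0], 1),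
    (false, [0, 0, 0, 1, 1, 1, 1, 1, 0, 0, 0, 0, 0, 0, 0, 0, 0, 0, 0, 0, 0, 0, 0, 0, 0, 0, 0, 0, 0, 0, 0, 0, 0, -1, 0], 0),
    (false, [0, 0, 0, 0, 0, 0, 0, 0, 1, 1, 1, 0, 0, 0, 0, 0, 0, 0, 0, 0, 0, 0, 0, 0, 0, 0, 0, 0, 0, 0, 0, 0, 0, -1, 0], 0),
    (false, [0, 0, 0, 0, 0, 0, 0, 0, 0, 0, 0, 1, 1, 1, 0, 0, 0, 0, 0, 0, 0, 0, 0, 0, 0, 0, 0, 0, 0, 0, 0, 0, 0, 0, -1], 0),
    (false, [0, 0, 0, 0, 0, 0, 0, 0, 0, 0, 0, 0, 0, 0, 1, 1, 1, 1, 1, 0, 0, 0, 0, 0, 0, 0, 0, 0, 0, 0, 0, 0, 0, 0, -3], 0),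
    (false, [0, 0, 0, 0, 0, 0, 0, 0, 0, 0, 0, 0, 0, 0, 0, 0, 0, 0, 0, 1, 1, 1, 1, 0, 0, 0, 0, 0, 0, 0, 0, 0, 0, 0, 0], 1),
    (false, [0, 0, 0, 0, 0, 0, 0, 0, 0, 0, 0, 0, 0, 0, 0, 0, 0, 0, 0, 0, 0, 0, 0, 1, 1, 1, 1, 0, 0, 0, 0, 0, 0, 0, 0], 1),
    (false, [0, 1, 4, 4, 1, 0, 1, 4, 0, 1, 4, 0, 1, 4, 4, 1, 0, 1, 4, 4, 1, 0, 1, 1, 0, 1, 4, 0, 1, 4, 0, 0, 0, -8, -4], 6),
    (false, [4, 1, 0, 4, 1, 0, 1, 4, 4, 1, 0, 4, 1, 0, 4, 1, 0, 1, 4, 1, 0, 1, 4, 4, 1, 0, 1, 0, 1, 4, 0, 0, 0, -8, -4], 6),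
    (false, [-1, -1, -1, 1, 1, 1, 1, 1, -1, -1, -1, -1, -1, -1, 1, 1, 1, 1, 1, 0, 0, 0, 0, 0, 0, 0, 0, 1, 1, 1, -1, 0, 0, 0, 0], 0),
    (false, [1, 1, 1, -1, -1, -1, -1, -1, -1, -1, -1, 0, 0, 0, 0, 0, 0, 0, 0, -1, -1, -1, -1, 0, 0, 0, 0, 1, 1, 1, 0, -1, 0, 0, 0], 0),
    (false, [-1, 0, 1, -1, 0, 1, 0, -1, -1, 0, 1, -1, 0, 1, -1, 0, 1, 0, -1, 0, 1, 0, -1, -1, 0, 1, 0, 1, 0, -1, 0, 0, -1, 0, 0], 0),
    (true, [-1, -1, -1, -1, -1, -1, -1, -1, 1, 1, 1, 0, 0, 0, 0, 0, 0, 0, 0, 0, 0, 0, 0, 1, 1, 1, 1, 1, 1, 1, 0, 0, 0, 0, 0], 0),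
    (true, [1, 0, -1, -1, 0, 1, 0, -1, 1, 0, -1, 1, 0, -1, -1, 0, 1, 0, -1, -1, 0, 1, 0, 0, 1, 0, -1, 1, 0, -1, 0, 0, 0, 0, 0], 0),
    (true, [4, 1, 0, 16, 9, 4, 1, 0, 0, 1, 4, 1, 0, 1, 9, 4, 1, 0, 1, 9, 4, 1, 0, 1, 0, 1, 4, 0, 1, 4, 0, 0, 0, 0, 0], 1),
    (true, [0, 0, 0, 0, 0, 0, 0, 0, 0, 0, 0, 0, 0, 0, 0, 0, 0, 0, 0, 0, 0, 0, 0, 0, 0, 0, 0, 0, 0, 0, 0, 0, 0, 1, 0], 0),
    (true, [0, 0, 0, 0, 0, 0, 0, 0, 0, 0, 0, 0, 0, 0, 0, 0, 0, 0, 0, 0, 0, 0, 0, 0, 0, 0, 0, 0, 0, 0, 0, 0, 0, 0, 1], 0),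
    (true, [4, 1, 0, 16, 9, 4, 1, 0, 0, 1, 4, 1, 0, 1, 9, 4, 1, 0, 1, 9, 4, 1, 0, 1, 0, 1, 4, 0, 1, 4, 0, 0, 0, -8, -4], 6)]
  moves := EB11_moves0
  reqs := EB11_reqs0
  tree := EB11_0_0_0_tree

theorem EB11_0_0_0_ok : EB11.instOK 0 0 0 EB11_0_0_0 = true := by
  decide +kernel

def EB11_0_1_0_tree : Tree :=
  (.br 24 0
  (.br 8 0
   (.br 23 0
    (.br 5 0
     (.br 16 0
      (.br 25 0
       (.br 26 0
        (.fk [(6, 1)])
        (.br 29 0
         (.br 10 0
          (.br 27 0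
           (.br 20 0
            (.fk [(5, -1), (6, -1), (7, -1), (8, 1), (11, 4)])
            (.br 0 0
             (.br 15 0
              (.br 17 0
               (.fk [(3, -18), (4, 6), (5, -8), (6, 11), (7, -1), (8, 5), (11, 11), (13, 7), (17, 4)])
               (.br 2 0
                (.br 17 1
                 (.fk [(3, -3), (4, 1), (5, -2), (6, 3), (8, 1), (11, 2), (13, 2), (17, 1)])
                 (.br 1 0
                  (.fk [(0, 1), (1, -1), (5, -2), (11, 1), (13, 1)])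
                  (.mv 79)))
                (.mv 74)))
              (.mv 14))
             (.mv 36)))
           (.br 9 0
            (.br 22 0
             (.br 21 0
              (.br 11 0
               (.br 17 0
                (.fk [(0, 40), (1, 16), (2, 264), (3, 4), (4, 52), (5, 119), (6, 119), (7, -30), (8, 26), (17, 36)])
                (.br 12 0
                 (.fk [(1, -8), (2, 40), (3, 22), (4, -2), (5, 17), (6, 17), (7, -4), (8, 6), (17, 6)])
                 (.mv 16)))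
               (.br 20 0
                (.fk [(0, 4), (1, -13), (2, 41), (3, 4), (4, 4), (5, 13), (7, -3), (8, -1)])
                (.mv 67)))
              (.br 11 0
               (.br 12 0
                (.fk [(1, -4), (2, 20), (3, 11), (4, -1), (5, -11), (6, 6), (7, -2), (8, 3), (17, 3)])
                (.mv 87))
               (.mv 9)))
             (.br 17 0
              (.fk [(0, 40), (1, 16), (2, 264), (3, 4), (4, 52), (5, -103), (6, 89), (7, -10), (8, 6), (17, 36)])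
              (.mv 10)))
            (.mv 35)))
          (.mv 19))
         (.mv 2)))
       (.br 9 0
        (.br 28 0
         (.br 22 0
          (.br 21 0
           (.br 17 0
            (.fk [(0, 4), (1, 4), (2, 24), (3, -5), (4, 7), (5, 15), (6, -9), (7, -3), (8, 2), (17, 3)])
            (.br 11 0
             (.br 12 0
              (.fk [(1, -4), (2, 20), (3, 11), (4, -1), (5, 14), (6, -9), (7, -2), (8, 3), (17, 3)])
              (.mv 16))
             (.mv 51)))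
           (.br 11 0
            (.br 14 0
             (.br 1 0
              (.br 18 0
               (.br 17 0
                (.fk [(1, -12), (2, 12), (3, -3), (4, 1), (5, -3), (8, 3), (17, 3)])
                (.br 12 0
                 (.fk [(0, -4), (1, -8), (2, 12), (3, 6), (4, -2), (5, -4), (7, -1), (8, 3), (17, 2)])
                 (.mv 16)))
               (.br 0 0
                (.fk [(0, 1), (1, -5), (2, 4), (5, -2), (7, -1), (8, 1)])
                (.mv 98)))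
              (.mv 34))
             (.mv 31))
            (.mv 9)))
          (.br 17 0
           (.br 12 0
            (.br 15 0
             (.br 2 0
              (.br 27 0
               (.fk [(0, 36), (1, -216), (2, 4), (3, 5), (4, -31), (5, -98), (6, -97), (7, 36), (8, -3), (9, 60), (10, 2), (11, 36), (13, 114), (17, 11)])
               (.br 1 0
                (.fk [(0, 24), (1, 4), (2, 4), (3, -5), (4, 7), (5, -14), (6, -23), (7, 2), (8, -3), (17, 3)])
                (.mv 60)))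
              (.br 18 0
               (.fk [(0, -12), (1, -4), (2, 16), (3, -15), (4, 5), (5, -37), (6, -20), (7, -3), (8, 4), (17, 1)])
               (.mv 61)))
             (.mv 26))
            (.mv 17))
           (.mv 10)))
         (.mv 22))
        (.mv 5)))
      (.br 11 0
       (.br 21 0
        (.br 25 0
         (.br 22 0
          (.br 7 0
           (.br 27 0
            (.br 9 0
             (.br 17 0
              (.br 0 0
               (.fk [(1, -1), (2, 1), (5, 1), (6, 1), (7, -1), (8, 1)])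
               (.br 20 0
                (.fk [(0, -4), (2, 4), (5, 3), (6, 3), (7, -1), (8, 1)])
                (.br 26 0
                 (.fk [(5, -1), (6, 1)])
                 (.mv 36))))
              (.br 12 0
               (.fk [(0, -5), (2, 5), (3, 6), (4, -2), (5, 2), (6, 2), (7, -1), (8, 2), (13, 1), (17, 1)])
               (.mv 16)))
             (.br 28 0
              (.br 29 0
               (.fk [(0, 1), (1, 5), (2, -6), (5, 1), (6, -2), (7, -1), (8, 1), (12, 5)])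
               (.br 26 0
                (.fk [(6, 1)])
                (.mv 2)))
              (.mv 13)))
            (.br 9 0
             (.br 17 0
              (.br 10 0
               (.br 0 0
                (.fk [(1, -1), (2, 1), (5, 1), (6, 1), (7, -1), (8, 1)])
                (.br 20 0
                 (.fk [(0, -7), (1, -3), (2, 10), (5, 3), (6, 3), (7, -1), (8, 1)])
                 (.br 26 0
                  (.fk [(0, -1), (1, -1), (2, 2), (5, -1), (6, 1)])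
                  (.mv 36))))
               (.br 26 0
                (.fk [(6, 1)])
                (.mv 19)))
              (.br 12 0
               (.fk [(0, -8), (1, -4), (2, 12), (3, 9), (4, -3), (5, 4), (6, 4), (7, -2), (8, 3), (17, 1)])
               (.mv 16)))
             (.br 26 0
              (.fk [(6, 1)])
              (.mv 35))))
           (.br 2 0
            (.br 0 0
             (.fk [(5, 1), (6, 1), (7, -1), (8, 1)])
             (.br 26 0
              (.fk [(6, 1)])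
              (.mv 117)))
            (.mv 11)))
          (.br 12 0
           (.br 17 0
            (.br 1 0
             (.br 26 0
              (.fk [(5, -1), (6, 1)])
              (.br 9 0
               (.fk [(0, 16), (1, -8), (2, 56), (3, 26), (4, 2), (5, -45), (6, 25), (7, -4), (8, 6), (17, 10)])
               (.mv 75)))
             (.mv 25))
            (.mv 10))
           (.mv 17)))
         (.br 9 0
          (.br 28 0
           (.br 22 0
            (.br 17 0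
             (.br 12 0
              (.fk [(0, 8), (1, -12), (2, 68), (3, 35), (4, -1), (5, 12), (6, 5), (7, -6), (8, 9), (17, 11)])
              (.br 18 0
               (.fk [(1, -12), (2, 12), (3, -6), (4, 2), (5, 3), (8, 3), (17, 3)])
               (.mv 28)))
             (.br 12 0
              (.fk [(1, -4), (2, 20), (3, 11), (4, -1), (5, 4), (6, 1), (7, -2), (8, 3), (17, 3)])
              (.mv 16)))
            (.br 0 0
             (.br 1 0
              (.fk [(0, 4), (2, -4), (5, -7), (6, -3), (7, -1), (8, 1)])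
              (.mv 25))
             (.mv 100)))
           (.mv 22))
          (.mv 5)))
        (.mv 18))
       (.mv 6)))
     (.br 0 0
      (.br 27 0
       (.br 9 0
        (.br 16 0
         (.br 11 0
          (.fk [(1, -6), (2, 6), (5, -3), (6, 1), (7, -1), (8, 1), (13, 2)])
          (.br 17 0
           (.fk [(1, -16), (2, 16), (3, -24), (4, 8), (5, -11), (6, -5), (7, 1), (8, 3), (11, 8), (13, 12), (17, 4)])
           (.br 1 0
            (.br 22 0
             (.br 21 0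
              (.br 25 0
               (.br 15 0
                (.br 10 0
                 (.fk [(0, 16), (1, -5), (2, 21), (3, 4), (4, 4), (5, 3), (6, 9), (7, -3), (8, -1), (12, 4)])
                 (.br 26 0
                  (.fk [(6, 1)])
                  (.mv 19)))
                (.br 20 0
                 (.br 19 0
                  (.fk [(5, 1)])
                  (.mv 49))
                 (.mv 14)))
               (.mv 51))
              (.mv 9))
             (.mv 10))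
            (.mv 80))))
         (.br 11 0
          (.fk [(1, -4), (2, 4), (5, -3), (6, 1), (7, -1), (8, 1)])
          (.mv 6)))
        (.br 25 0
         (.br 28 0
          (.br 29 0
           (.fk [(0, 1), (1, 1), (2, -2), (5, 1), (6, -2), (10, 1), (12, 2)])
           (.br 26 0
            (.fk [(6, 1)])
            (.mv 2)))
          (.mv 13))
         (.mv 5)))
       (.br 9 0
        (.br 10 0
         (.fk [(1, -1), (2, 1)])
         (.br 26 0
          (.br 29 0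
           (.br 18 0
            (.br 17 0
             (.fk [(1, -4), (2, 4), (3, -3), (4, 1), (5, -4), (6, 1), (8, 1), (17, 1)])
             (.br 22 0
              (.br 11 0
               (.fk [(1, -3), (2, 3), (5, -1), (6, 1), (7, -1), (8, 1)])
               (.br 21 0
                (.br 25 0
                 (.fk [(6, 1)])
                 (.mv 51))
                (.mv 9)))
              (.mv 10)))
            (.br 11 0
             (.fk [(1, -2), (2, 2), (5, -3), (6, 1), (7, -1), (8, 1)])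
             (.mv 89)))
           (.mv 7))
          (.mv 19)))
        (.br 26 0
         (.br 25 0
          (.fk [(6, 1)])
          (.mv 5))
         (.mv 35))))
      (.mv 15)))
    (.br 9 0
     (.br 25 0
      (.br 28 0
       (.br 2 0
        (.br 16 0
         (.br 1 0
          (.br 17 0
           (.fk [(0, 24), (1, 4), (2, 4), (3, -5), (4, 7), (5, 6), (6, -11), (7, 2), (8, -3), (17, 3)])
           (.br 13 0
            (.fk [(0, 4), (2, -4), (5, -3), (6, -3), (7, 1), (8, -1)])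
            (.mv 37)))
          (.br 5 0
           (.br 6 0
            (.br 20 0
             (.br 31 0
              (.br 17 0
               (.fk [(0, 16), (1, -36), (2, -44), (3, -17), (4, -5), (5, -55), (6, -16), (7, 11), (8, -2), (10, -30), (11, 2), (13, 28), (17, 1)])
               (.br 13 0
                (.fk [(0, 4), (1, -8), (2, -12), (3, -2), (4, -2), (5, -9), (6, -5), (7, 1), (8, 1), (10, -6), (11, 4), (13, 2)])
                (.mv 37)))
              (.br 19 0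
               (.br 21 0
                (.br 27 0
                 (.fk [(0, -7), (1, 2), (2, 5), (5, 1), (6, 2), (7, 1), (8, -1), (10, 6), (11, 1), (13, 5)])
                 (.br 10 0
                  (.fk [(0, -5), (1, -13), (2, 82), (3, 8), (4, 8), (5, 26), (6, 13), (7, -2), (8, -6)])
                  (.br 22 0
                   (.fk [(5, 1), (6, -1)])
                   (.mv 137))))
                (.mv 64))
               (.mv 91)))
             (.mv 50))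
            (.mv 4))
           (.mv 23)))
         (.br 1 0
          (.br 17 0
           (.br 21 0
            (.br 12 0
             (.fk [(0, 4), (2, 4), (3, 1), (4, 1), (6, -3), (17, 1)])
             (.mv 57))
            (.mv 18))
           (.br 13 0
            (.fk [(0, 4), (2, -4), (5, -3), (6, -3), (7, 1), (8, -1)])
            (.mv 37)))
          (.mv 42)))
        (.br 7 0
         (.br 6 0
          (.br 27 0
           (.br 17 0
            (.br 16 0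
             (.fk [(0, 15), (1, 16), (2, 113), (3, 60), (4, 4), (5, 44), (6, 15), (7, -5), (8, 1), (9, 56), (10, 46), (11, 15), (13, 15), (17, 14)])
             (.br 22 0
              (.br 21 0
               (.br 12 0
                (.fk [(1, 8), (3, 1), (4, 1), (5, 4), (6, -7), (12, 4), (17, 1)])
                (.mv 57))
               (.mv 18))
              (.mv 66)))
            (.br 21 0
             (.br 22 0
              (.br 20 0
               (.br 12 0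
                (.br 13 0
                 (.fk [(0, 8), (1, 12), (2, -4), (3, 5), (4, 1), (5, 10), (6, -13), (8, -1), (12, 8), (17, 1)])
                 (.mv 37))
                (.mv 16))
               (.mv 32))
              (.mv 10))
             (.mv 76)))
           (.br 26 0
            (.br 22 0
             (.br 18 0
              (.br 21 0
               (.br 17 0
                (.fk [(0, -4), (1, 4), (3, -3), (4, 1), (5, 4), (6, -7), (8, 1), (17, 1)])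
                (.br 20 0
                 (.br 19 0
                  (.fk [(5, 1), (6, -1)])
                  (.mv 78))
                 (.mv 32)))
               (.br 11 0
                (.br 12 0
                 (.br 16 0
                  (.br 1 0
                   (.br 17 0
                    (.br 13 0
                     (.br 15 0
                      (.br 31 0
                       (.fk [(0, 2), (1, -14), (2, -12), (3, 33), (4, -15), (5, -15), (6, -8), (7, 2), (8, 2), (9, 3), (10, -10), (11, 3), (13, 2), (17, 1)])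
                       (.br 0 0
                        (.br 23 1
                         (.br 32 0
                          (.fk [(0, 24), (1, 100), (2, 132), (3, 107), (4, 7), (5, 24), (6, 41), (7, 24), (8, -47), (9, 28), (10, 24), (11, -108), (13, 32), (17, 9)])
                          (.br 20 0
                           (.br 30 0
                            (.fk [(0, 4), (1, -44), (2, 16), (3, -24), (4, 4), (5, -10), (6, -33), (7, -7), (8, 10), (9, -12), (10, 4), (11, 4)])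
                            (.br 14 0
                             (.br 29 0
                              (.fk [(0, -40), (1, -43), (2, -21), (3, 155), (4, -69), (5, -13), (6, -45), (7, 8), (8, 8), (17, 3)])
                              (.fk [(0, 4), (1, -4), (2, 8), (3, 16), (4, -4), (5, -5), (6, -6), (7, -2), (8, 1)]))
                             (.mv 141)))
                           (.mv 126)))
                         (.mv 125))
                        (.mv 43)))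
                      (.mv 119))
                     (.mv 118))
                    (.mv 76))
                   (.mv 63))
                  (.mv 18))
                 (.mv 81))
                (.mv 9)))
              (.br 21 0
               (.br 20 0
                (.br 16 0
                 (.br 1 0
                  (.br 11 0
                   (.fk [(0, -4), (2, 4), (5, 3), (6, -11), (7, -1), (8, 1)])
                   (.br 5 0
                    (.br 4 0
                     (.fk [(0, 4), (1, 8), (2, 4), (3, 2), (4, 2), (5, 5), (7, -1), (8, -1)])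
                     (.mv 71))
                    (.mv 69)))
                  (.br 5 0
                   (.br 13 0
                    (.br 4 0
                     (.fk [(0, 4), (1, 16), (2, 12), (3, 4), (4, 4), (5, 12), (6, -5), (7, -3), (8, -1)])
                     (.mv 71))
                    (.mv 12))
                   (.mv 23)))
                 (.br 11 0
                  (.fk [(0, -4), (2, 4), (5, 3), (6, -11), (7, -1), (8, 1)])
                  (.mv 6)))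
                (.mv 62))
               (.mv 56)))
             (.br 4 0
              (.br 31 0
               (.br 16 0
                (.br 17 0
                 (.fk [(0, 4), (1, -4), (3, -3), (4, 1), (5, -9), (6, -4), (7, 1), (10, -4), (13, 4), (17, 1)])
                 (.mv 10))
                (.mv 66))
               (.br 32 0
                (.fk [(0, -2), (1, 8), (2, 10), (3, 2), (4, 2), (6, 4), (7, 5), (8, -7), (10, 4), (11, -15), (13, 11)])
                (.mv 138)))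
              (.mv 72)))
            (.mv 47)))
          (.mv 40))
         (.mv 11)))
       (.mv 21))
      (.mv 20))
     (.mv 8)))
   (.mv 1))
  (.mv 0))

def EB11_0_1_0 : Inst where
  rows :=
   [(false, [1, 1, 1, 0, 0, 0, 0, 0, 0, 0, 0, 0, 0, 0, 0, 0, 0, 0, 0, 0, 0, 0, 0, 0, 0, 0, 0, 0, 0, 0, 0, 0, 0, -1, 0], 1),
    (false, [0, 0, 0, 1, 1, 1, 1, 1, 0, 0, 0, 0, 0, 0, 0, 0, 0, 0, 0, 0, 0, 0, 0, 0, 0, 0, 0, 0, 0, 0, 0, 0, 0, -1, 0], 0),
    (false, [0, 0, 0, 0, 0, 0, 0, 0, 1, 1, 1, 0, 0, 0, 0, 0, 0, 0, 0, 0, 0, 0, 0, 0, 0, 0, 0, 0, 0, 0, 0, 0, 0, -1, 0], 0),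
    (false, [0, 0, 0, 0, 0, 0, 0, 0, 0, 0, 0, 1, 1, 1, 0, 0, 0, 0, 0, 0, 0, 0, 0, 0, 0, 0, 0, 0, 0, 0, 0, 0, 0, 0, -1], 0),
    (false, [0, 0, 0, 0, 0, 0, 0, 0, 0, 0, 0, 0, 0, 0, 1, 1, 1, 1, 1, 0, 0, 0, 0, 0, 0, 0, 0, 0, 0, 0, 0, 0, 0, 0, -3], 0),
    (false, [0, 0, 0, 0, 0, 0, 0, 0, 0, 0, 0, 0, 0, 0, 0, 0, 0, 0, 0, 1, 1, 1, 1, 0, 0, 0, 0, 0, 0, 0, 0, 0, 0, 0, 0], 1),
    (false, [0, 0, 0, 0, 0, 0, 0, 0, 0, 0, 0, 0, 0, 0, 0, 0, 0, 0, 0, 0, 0, 0, 0, 1, 1, 1, 1, 0, 0, 0, 0, 0, 0, 0, 0], 1),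
    (false, [0, 1, 4, 4, 1, 0, 1, 4, 0, 1, 4, 0, 1, 4, 4, 1, 0, 1, 4, 4, 1, 0, 1, 1, 0, 1, 4, 0, 1, 4, 0, 0, 0, -8, -4], 6),
    (false, [4, 1, 0, 4, 1, 0, 1, 4, 4, 1, 0, 4, 1, 0, 4, 1, 0, 1, 4, 1, 0, 1, 4, 4, 1, 0, 1, 0, 1, 4, 0, 0, 0, -8, -4], 6),
    (false, [-1, -1, -1, 1, 1, 1, 1, 1, -1, -1, -1, -1, -1, -1, 1, 1, 1, 1, 1, 0, 0, 0, 0, 0, 0, 0, 0, 1, 1, 1, -1, 0, 0, 0, 0], 0),
    (false, [1, 1, 1, -1, -1, -1, -1, -1, -1, -1, -1, 0, 0, 0, 0, 0, 0, 0, 0, -1, -1, -1, -1, 0, 0, 0, 0, 1, 1, 1, 0, -1, 0, 0, 0], 0),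
    (false, [-1, 0, 1, -1, 0, 1, 0, -1, -1, 0, 1, -1, 0, 1, -1, 0, 1, 0, -1, 0, 1, 0, -1, -1, 0, 1, 0, 1, 0, -1, 0, 0, -1, 0, 0], 0),
    (true, [-1, -1, -1, -1, -1, -1, -1, -1, 1, 1, 1, 0, 0, 0, 0, 0, 0, 0, 0, 0, 0, 0, 0, 1, 1, 1, 1, 1, 1, 1, 0, 0, 0, 0, 0], 0),
    (true, [1, 0, -1, -1, 0, 1, 0, -1, 1, 0, -1, 1, 0, -1, -1, 0, 1, 0, -1, -1, 0, 1, 0, 0, 1, 0, -1, 1, 0, -1, 0, 0, 0, 0, 0], 0),
    (true, [4, 1, 0, 16, 9, 4, 1, 0, 0, 1, 4, 1, 0, 1, 9, 4, 1, 0, 1, 9, 4, 1, 0, 1, 0, 1, 4, 0, 1, 4, 0, 0, 0, 0, 0], 1),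
    (true, [0, 0, 0, 0, 0, 0, 0, 0, 0, 0, 0, 0, 0, 0, 0, 0, 0, 0, 0, 0, 0, 0, 0, 0, 0, 0, 0, 0, 0, 0, 0, 0, 0, 1, 0], 0),
    (true, [0, 0, 0, 0, 0, 0, 0, 0, 0, 0, 0, 0, 0, 0, 0, 0, 0, 0, 0, 0, 0, 0, 0, 0, 0, 0, 0, 0, 0, 0, 0, 0, 0, 0, 1], 0),
    (true, [-4, -1, 0, -16, -9, -4, -1, 0, 0, -1, -4, -1, 0, -1, -9, -4, -1, 0, -1, -9, -4, -1, 0, -1, 0, -1, -4, 0, -1, -4, 0, 0, 0, 8, 4], -4)]
  moves := EB11_moves0
  reqs := EB11_reqs0
  tree := EB11_0_1_0_tree

theorem EB11_0_1_0_ok : EB11.instOK 0 1 0 EB11_0_1_0 = true := by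
  decide +kernel

def EB11_0_2_0_tree : Tree :=
  (.br 8 0
  (.br 24 0
   (.br 23 0
    (.br 16 0
     (.br 9 0
      (.br 17 0
       (.fk [(0, 4), (1, 4), (2, 24), (3, -5), (4, 7), (5, -5), (6, 6), (7, -3), (8, 2), (17, -3), (18, 24)])
       (.br 22 0
        (.br 11 0
         (.br 12 0
          (.fk [(1, -4), (2, 20), (3, 11), (4, -1), (6, 5), (7, -2), (8, 3), (17, -3), (18, 24)])
          (.mv 16))
         (.br 21 0
          (.br 25 0
           (.br 17 1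
            (.fk [(0, 4), (1, 4), (2, 24), (3, -5), (4, 7), (5, 15), (6, 22), (7, -3), (8, 2), (17, -3), (18, 22)])
            (.br 30 0
             (.fk [(0, -258), (1, 326), (2, -292), (3, -607), (4, 165), (5, 77), (6, 77), (7, 2), (8, 77), (9, -321), (11, 125), (12, 119), (13, 77), (17, -51), (18, 77)])
             (.mv 113)))
           (.mv 51))
          (.mv 9)))
        (.mv 10)))
      (.br 25 0
       (.br 27 0
        (.br 28 0
         (.fk [(0, -2), (2, 2), (5, 1), (6, 1), (10, 2), (11, 1), (13, 1), (18, 1)])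
         (.mv 13))
        (.br 26 0
         (.fk [(6, 1)])
         (.mv 35)))
       (.mv 5)))
     (.br 11 0
      (.br 9 0
       (.br 17 0
        (.br 12 0
         (.fk [(0, 8), (1, -12), (2, 68), (3, 35), (4, -1), (5, -30), (6, 17), (7, -6), (8, 9), (17, -11), (18, 88)])
         (.br 22 0
          (.br 21 0
           (.br 18 0
            (.fk [(1, -12), (2, 12), (3, -6), (4, 2), (5, 3), (6, 3), (8, 3), (17, -3), (18, 3)])
            (.br 25 0
             (.br 20 0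
              (.fk [(0, -4), (2, 4), (5, 3), (6, 3), (7, -1), (8, 1)])
              (.mv 44))
             (.mv 28)))
           (.mv 18))
          (.mv 17)))
        (.br 22 0
         (.br 12 0
          (.fk [(0, -8), (1, -4), (2, 12), (3, 9), (4, -3), (5, -2), (6, 3), (7, -2), (8, 3), (17, -1), (18, 4)])
          (.mv 16))
         (.mv 10)))
       (.br 25 0
        (.br 12 0
         (.br 7 0
          (.br 18 0
           (.br 29 0
            (.br 28 0
             (.fk [(0, -20), (1, -4), (2, -8), (3, 8), (4, -8), (5, -35), (6, 11), (7, -1), (8, 9), (17, -4), (18, 12)])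
             (.mv 13))
            (.br 26 0
             (.fk [(6, 1)])
             (.mv 2)))
           (.br 13 0
            (.fk [(3, 18), (4, -6), (5, -4), (6, 3), (8, 1), (17, -1), (18, 3)])
            (.mv 12)))
          (.br 2 0
           (.br 1 0
            (.br 17 0
             (.br 13 0
              (.fk [(0, 24), (1, -20), (2, -4), (3, 87), (4, -29), (5, -2), (6, -3), (7, 6), (8, -1), (17, -5), (18, 24)])
              (.br 18 0
               (.fk [(0, 4), (1, -4), (3, -3), (4, 1), (5, -1), (7, 1), (17, -1), (18, 4)])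
               (.mv 12)))
             (.br 22 0
              (.br 21 0
               (.br 0 0
                (.fk [(0, 1), (1, -1), (3, 3), (4, -1), (5, 1), (6, 1), (7, -1), (8, 1), (18, 1)])
                (.mv 65))
               (.mv 18))
              (.mv 10)))
            (.br 22 0
             (.br 19 0
              (.br 18 0
               (.br 21 0
                (.br 27 0
                 (.br 28 0
                  (.fk [(0, 2), (1, 12), (2, 2), (3, 8), (5, 2), (6, 9), (7, -2), (8, 2), (10, 5), (11, 2), (12, 5), (17, -2), (18, 2)])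
                  (.mv 13))
                 (.mv 116))
                (.mv 18))
               (.mv 106))
              (.mv 104))
             (.mv 25)))
           (.mv 11)))
         (.br 22 0
          (.br 21 0
           (.br 7 0
            (.br 27 0
             (.br 28 0
              (.br 29 0
               (.fk [(0, 1), (1, 1), (2, -2), (5, 1), (6, -2), (10, 1), (12, 2)])
               (.mv 112))
              (.mv 13))
             (.br 26 0
              (.fk [(6, 1)])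
              (.mv 35)))
            (.br 2 0
             (.br 1 0
              (.br 13 0
               (.fk [(0, 4), (2, -4), (5, -3), (6, -3), (7, 1), (8, -1)])
               (.br 18 0
                (.br 17 0
                 (.fk [(0, 4), (1, -4), (3, -3), (4, 1), (5, 1), (7, 1), (17, -1), (18, 4)])
                 (.mv 16))
                (.mv 12)))
              (.mv 108))
             (.mv 11)))
           (.mv 18))
          (.mv 17)))
        (.mv 5)))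
      (.mv 6)))
    (.br 9 0
     (.br 17 0
      (.br 25 0
       (.br 28 0
        (.br 1 0
         (.br 16 0
          (.fk [(0, 48), (1, 20), (2, 124), (3, -9), (4, 35), (5, -16), (6, -153), (7, -12), (8, 7), (17, -19), (18, 156)])
          (.br 11 0
           (.br 12 0
            (.fk [(0, 40), (1, 4), (2, 116), (3, 59), (4, 7), (5, -26), (6, -175), (7, -10), (8, 9), (17, -19), (18, 168)])
            (.mv 57))
           (.mv 6)))
         (.br 6 0
          (.br 5 0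
           (.br 16 0
            (.br 20 0
             (.br 27 0
              (.fk [(0, 30), (1, 42), (2, 120), (3, 90), (4, 2), (5, 52), (6, 30), (7, 5), (8, -7), (9, 88), (10, 53), (11, 30), (12, 15), (13, 30), (17, -22), (18, 30)])
              (.br 10 0
               (.fk [(0, -56), (1, -56), (2, 304), (3, -39), (4, 45), (5, 38), (6, 7), (7, 14), (8, -21), (17, -17), (18, 80)])
               (.br 7 0
                (.fk [(0, -36), (1, 540), (2, 136), (3, 8), (4, 104), (5, 59), (6, 15), (7, 9), (8, -17), (17, -72), (18, 116)])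
                (.mv 136))))
             (.mv 50))
            (.mv 42))
           (.mv 23))
          (.mv 4)))
        (.mv 21))
       (.mv 20))
      (.br 22 0
       (.br 11 0
        (.br 12 0
         (.fk [(0, 4), (2, 28), (3, 16), (5, 1), (6, -41), (7, -3), (8, 3), (17, -4), (18, 36)])
         (.mv 16))
        (.br 16 0
         (.br 21 0
          (.br 12 0
           (.br 19 0
            (.br 20 0
             (.fk [(5, 1), (6, -1)])
             (.mv 32))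
            (.mv 49))
           (.mv 16))
          (.mv 9))
         (.mv 6)))
       (.mv 10)))
     (.mv 8)))
   (.mv 0))
  (.mv 1))

def EB11_0_2_0 : Inst where
  rows :=
   [(false, [1, 1, 1, 0, 0, 0, 0, 0, 0, 0, 0, 0, 0, 0, 0, 0, 0, 0, 0, 0, 0, 0, 0, 0, 0, 0, 0, 0, 0, 0, 0, 0, 0, -1, 0], 1),
    (false, [0, 0, 0, 1, 1, 1, 1, 1, 0, 0, 0, 0, 0, 0, 0, 0, 0, 0, 0, 0, 0, 0, 0, 0, 0, 0, 0, 0, 0, 0, 0, 0, 0, -1, 0], 0),
    (false, [0, 0, 0, 0, 0, 0, 0, 0, 1, 1, 1, 0, 0, 0, 0, 0, 0, 0, 0, 0, 0, 0, 0, 0, 0, 0, 0, 0, 0, 0, 0, 0, 0, -1, 0], 0),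
    (false, [0, 0, 0, 0, 0, 0, 0, 0, 0, 0, 0, 1, 1, 1, 0, 0, 0, 0, 0, 0, 0, 0, 0, 0, 0, 0, 0, 0, 0, 0, 0, 0, 0, 0, -1], 0),
    (false, [0, 0, 0, 0, 0, 0, 0, 0, 0, 0, 0, 0, 0, 0, 1, 1, 1, 1, 1, 0, 0, 0, 0, 0, 0, 0, 0, 0, 0, 0, 0, 0, 0, 0, -3], 0),
    (false, [0, 0, 0, 0, 0, 0, 0, 0, 0, 0, 0, 0, 0, 0, 0, 0, 0, 0, 0, 1, 1, 1, 1, 0, 0, 0, 0, 0, 0, 0, 0, 0, 0, 0, 0], 1),
    (false, [0, 0, 0, 0, 0, 0, 0, 0, 0, 0, 0, 0, 0, 0, 0, 0, 0, 0, 0, 0, 0, 0, 0, 1, 1, 1, 1, 0, 0, 0, 0, 0, 0, 0, 0], 1),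
    (false, [0, 1, 4, 4, 1, 0, 1, 4, 0, 1, 4, 0, 1, 4, 4, 1, 0, 1, 4, 4, 1, 0, 1, 1, 0, 1, 4, 0, 1, 4, 0, 0, 0, -8, -4], 6),
    (false, [4, 1, 0, 4, 1, 0, 1, 4, 4, 1, 0, 4, 1, 0, 4, 1, 0, 1, 4, 1, 0, 1, 4, 4, 1, 0, 1, 0, 1, 4, 0, 0, 0, -8, -4], 6),
    (false, [-1, -1, -1, 1, 1, 1, 1, 1, -1, -1, -1, -1, -1, -1, 1, 1, 1, 1, 1, 0, 0, 0, 0, 0, 0, 0, 0, 1, 1, 1, -1, 0, 0, 0, 0], 0),
    (false, [1, 1, 1, -1, -1, -1, -1, -1, -1, -1, -1, 0, 0, 0, 0, 0, 0, 0, 0, -1, -1, -1, -1, 0, 0, 0, 0, 1, 1, 1, 0, -1, 0, 0, 0], 0),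
    (false, [-1, 0, 1, -1, 0, 1, 0, -1, -1, 0, 1, -1, 0, 1, -1, 0, 1, 0, -1, 0, 1, 0, -1, -1, 0, 1, 0, 1, 0, -1, 0, 0, -1, 0, 0], 0),
    (true, [-1, -1, -1, -1, -1, -1, -1, -1, 1, 1, 1, 0, 0, 0, 0, 0, 0, 0, 0, 0, 0, 0, 0, 1, 1, 1, 1, 1, 1, 1, 0, 0, 0, 0, 0], 0),
    (true, [1, 0, -1, -1, 0, 1, 0, -1, 1, 0, -1, 1, 0, -1, -1, 0, 1, 0, -1, -1, 0, 1, 0, 0, 1, 0, -1, 1, 0, -1, 0, 0, 0, 0, 0], 0),
    (true, [4, 1, 0, 16, 9, 4, 1, 0, 0, 1, 4, 1, 0, 1, 9, 4, 1, 0, 1, 9, 4, 1, 0, 1, 0, 1, 4, 0, 1, 4, 0, 0, 0, 0, 0], 1),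
    (true, [0, 0, 0, 0, 0, 0, 0, 0, 0, 0, 0, 0, 0, 0, 0, 0, 0, 0, 0, 0, 0, 0, 0, 0, 0, 0, 0, 0, 0, 0, 0, 0, 0, 1, 0], 0),
    (true, [0, 0, 0, 0, 0, 0, 0, 0, 0, 0, 0, 0, 0, 0, 0, 0, 0, 0, 0, 0, 0, 0, 0, 0, 0, 0, 0, 0, 0, 0, 0, 0, 0, 0, 1], 0),
    (false, [4, 1, 0, 16, 9, 4, 1, 0, 0, 1, 4, 1, 0, 1, 9, 4, 1, 0, 1, 9, 4, 1, 0, 1, 0, 1, 4, 0, 1, 4, 0, 0, 0, -8, -4], 5),
    (true, [0, 0, 0, 1, 1, 0, 0, 0, 0, 0, 0, 0, 0, 0, 1, 0, 0, 0, 0, 1, 0, 0, 0, 0, 0, 0, 0, 0, 0, 0, 0, 0, 0, 0, 0], 1)]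
  moves := EB11_moves0
  reqs := EB11_reqs0
  tree := EB11_0_2_0_tree

theorem EB11_0_2_0_ok : EB11.instOK 0 2 0 EB11_0_2_0 = true := by
  decide +kernel

def EB11_0_3_0_tree : Tree :=
  (.br 8 0
  (.br 0 0
   (.br 16 0
    (.br 24 0
     (.br 21 0
      (.br 1 0
       (.fk [(0, 8), (1, 4), (2, 4), (3, -4), (4, 4), (5, 3), (6, -1), (7, -1), (8, 1), (10, 2), (13, 2), (17, -2), (18, 4)])
       (.br 18 0
        (.fk [(3, -3), (4, 1), (5, 3), (7, 3), (13, 6), (17, -3), (18, 6)])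
        (.br 20 0
         (.br 6 0
          (.br 13 0
           (.br 10 0
            (.br 29 0
             (.br 9 0
              (.fk [(0, -24), (1, -24), (2, 192), (3, 42), (4, 10), (5, 123), (6, -9), (7, 27), (8, -27), (13, 42), (17, -18), (18, 42)])
              (.br 25 0
               (.br 28 0
                (.br 27 0
                 (.fk [(0, 42), (1, -16), (2, -90), (3, 31), (4, -21), (5, 42), (6, -77), (7, 19), (8, 2), (9, 26), (10, 1), (11, 42), (12, 67), (13, 42), (17, -13), (18, 26)])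
                 (.br 26 0
                  (.br 23 0
                   (.fk [(6, 1)])
                   (.mv 8))
                  (.mv 35)))
                (.mv 13))
               (.mv 5)))
             (.br 26 0
              (.br 9 0
               (.fk [(0, -30), (1, -30), (2, 140), (3, 37), (4, 1), (5, 91), (6, -8), (7, 21), (8, -18), (13, 40), (17, -13), (18, 40)])
               (.br 23 0
                (.br 25 0
                 (.fk [(6, 1)])
                 (.mv 5))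
                (.mv 8)))
              (.mv 2)))
            (.br 26 0
             (.br 5 0
              (.fk [(0, 4), (1, 24), (2, 4), (3, 4), (4, 4), (5, 21), (6, 1), (7, 3), (8, -3), (13, 12), (17, -4), (18, 12)])
              (.br 23 0
               (.br 25 0
                (.fk [(6, 1)])
                (.mv 70))
               (.mv 23)))
             (.mv 19)))
           (.mv 12))
          (.mv 4))
         (.mv 30))))
      (.br 11 0
       (.br 1 0
        (.fk [(0, 10), (1, -10), (3, 3), (4, -1), (5, -13), (6, -6), (7, -2), (8, 5), (11, 9), (13, 1), (17, -3), (18, 10)])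
        (.br 18 0
         (.fk [(3, -3), (4, 1), (5, -2), (6, -1), (8, 1), (11, 2), (17, -1), (18, 2)])
         (.mv 33)))
       (.mv 9)))
     (.mv 0))
    (.br 21 0
     (.br 11 0
      (.br 1 0
       (.fk [(0, 8), (1, 4), (2, 4), (3, 5), (4, 1), (5, 6), (6, -1), (8, 1), (10, 2), (13, 2), (17, -3), (18, 8)])
       (.br 23 0
        (.br 24 0
         (.br 22 0
          (.fk [(5, 1), (6, 1), (7, -1), (8, 1)])
          (.mv 25))
         (.mv 0))
        (.mv 42)))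
      (.mv 6))
     (.mv 18)))
   (.br 5 0
    (.br 24 0
     (.br 18 0
      (.br 9 0
       (.br 10 0
        (.fk [(0, 12), (1, -20), (2, 264), (3, -43), (4, 57), (5, 61), (6, 20), (7, 29), (8, 4), (9, 8), (17, -65), (18, 120)])
        (.br 29 0
         (.br 16 0
          (.fk [(3, -3), (4, 1), (5, -3), (7, 3), (13, 6), (17, -3), (18, 6)])
          (.br 21 0
           (.br 11 0
            (.br 7 0
             (.fk [(5, -3), (6, -3), (7, 1), (8, 1), (13, 2), (17, -2), (18, 2)])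
             (.br 13 0
              (.br 2 0
               (.br 12 0
                (.fk [(3, 9), (4, -3), (5, 1), (7, 1), (13, 2), (17, -1), (18, 2)])
                (.br 22 0
                 (.fk [(1, -4), (2, 4), (5, 1), (6, -3), (7, 1), (8, 1), (13, 2), (17, -2), (18, 2)])
                 (.mv 17)))
               (.mv 11))
              (.mv 123)))
            (.mv 6))
           (.mv 18)))
         (.mv 7)))
       (.br 23 0
        (.br 25 0
         (.br 29 0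
          (.br 28 0
           (.fk [(0, -4), (1, -8), (2, -4), (3, -5), (4, -1), (5, -4), (6, -5), (7, 2), (8, 1), (13, 2), (17, -1), (18, 2)])
           (.mv 13))
          (.br 26 0
           (.fk [(6, 1)])
           (.mv 2)))
         (.mv 5))
        (.mv 8)))
      (.br 13 0
       (.br 2 0
        (.br 9 0
         (.br 16 0
          (.br 1 0
           (.fk [(0, 6), (1, 2), (3, 1), (4, 1), (5, 3), (7, 1), (8, -1), (10, 1), (17, -1), (18, 1)])
           (.br 6 0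
            (.fk [(1, 2), (2, -2), (5, -1), (6, -1), (7, 1), (11, 1), (13, 2), (17, -1), (18, 3)])
            (.mv 4)))
          (.br 21 0
           (.br 11 0
            (.br 10 0
             (.fk [(0, 10), (1, 2), (2, 68), (3, 19), (4, 7), (5, 25), (6, 8), (7, 5), (8, -2), (13, 6), (17, -13), (18, 22)])
             (.mv 73))
            (.mv 6))
           (.mv 18)))
         (.br 25 0
          (.br 23 0
           (.br 16 0
            (.br 1 0
             (.fk [(0, 16), (1, 2), (2, -2), (3, 2), (4, 2), (5, 4), (6, 2), (7, 2), (8, -1), (11, 3), (17, -3), (18, 3)])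
             (.br 6 0
              (.fk [(0, 4), (1, 24), (2, 4), (3, -5), (4, 7), (5, -5), (6, 22), (7, -3), (8, 12), (11, 30), (17, -13), (18, 30)])
              (.mv 4)))
            (.br 11 0
             (.br 26 0
              (.fk [(6, 1)])
              (.mv 77))
             (.mv 6)))
           (.mv 8))
          (.mv 5)))
        (.br 21 0
         (.br 11 0
          (.br 9 0
           (.br 10 0
            (.fk [(0, -2), (1, -2), (2, 20), (3, 5), (4, 1), (5, 5), (6, 2), (7, 1), (13, 2), (17, -3), (18, 6)])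
            (.br 29 0
             (.br 16 0
              (.br 18 1
               (.fk [(3, 3), (4, -1), (5, 3), (7, 3), (13, 6), (17, -3), (18, 6)])
               (.mv 103))
              (.mv 73))
             (.mv 7)))
           (.br 23 0
            (.br 25 0
             (.br 26 0
              (.fk [(6, 1)])
              (.mv 52))
             (.mv 5))
            (.mv 8)))
          (.br 16 0
           (.br 6 0
            (.fk [(0, 4), (1, 24), (2, 4), (3, -14), (4, 10), (5, 7), (6, 1), (7, 9), (8, -3), (13, 24), (17, -10), (18, 24)])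
            (.br 23 0
             (.br 25 0
              (.br 26 0
               (.fk [(6, 1)])
               (.mv 52))
              (.mv 41))
             (.mv 40)))
           (.mv 6)))
         (.mv 56)))
       (.mv 12)))
     (.mv 0))
    (.mv 15)))
  (.mv 1))

def EB11_0_3_0 : Inst where
  rows :=
   [(false, [1, 1, 1, 0, 0, 0, 0, 0, 0, 0, 0, 0, 0, 0, 0, 0, 0, 0, 0, 0, 0, 0, 0, 0, 0, 0, 0, 0, 0, 0, 0, 0, 0, -1, 0], 1),
    (false, [0, 0, 0, 1, 1, 1, 1, 1, 0, 0, 0, 0, 0, 0, 0, 0, 0, 0, 0, 0, 0, 0, 0, 0, 0, 0, 0, 0, 0, 0, 0, 0, 0, -1, 0], 0),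
    (false, [0, 0, 0, 0, 0, 0, 0, 0, 1, 1, 1, 0, 0, 0, 0, 0, 0, 0, 0, 0, 0, 0, 0, 0, 0, 0, 0, 0, 0, 0, 0, 0, 0, -1, 0], 0),
    (false, [0, 0, 0, 0, 0, 0, 0, 0, 0, 0, 0, 1, 1, 1, 0, 0, 0, 0, 0, 0, 0, 0, 0, 0, 0, 0, 0, 0, 0, 0, 0, 0, 0, 0, -1], 0),
    (false, [0, 0, 0, 0, 0, 0, 0, 0, 0, 0, 0, 0, 0, 0, 1, 1, 1, 1, 1, 0, 0, 0, 0, 0, 0, 0, 0, 0, 0, 0, 0, 0, 0, 0, -3], 0),
    (false, [0, 0, 0, 0, 0, 0, 0, 0, 0, 0, 0, 0, 0, 0, 0, 0, 0, 0, 0, 1, 1, 1, 1, 0, 0, 0, 0, 0, 0, 0, 0, 0, 0, 0, 0], 1),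
    (false, [0, 0, 0, 0, 0, 0, 0, 0, 0, 0, 0, 0, 0, 0, 0, 0, 0, 0, 0, 0, 0, 0, 0, 1, 1, 1, 1, 0, 0, 0, 0, 0, 0, 0, 0], 1),
    (false, [0, 1, 4, 4, 1, 0, 1, 4, 0, 1, 4, 0, 1, 4, 4, 1, 0, 1, 4, 4, 1, 0, 1, 1, 0, 1, 4, 0, 1, 4, 0, 0, 0, -8, -4], 6),
    (false, [4, 1, 0, 4, 1, 0, 1, 4, 4, 1, 0, 4, 1, 0, 4, 1, 0, 1, 4, 1, 0, 1, 4, 4, 1, 0, 1, 0, 1, 4, 0, 0, 0, -8, -4], 6),
    (false, [-1, -1, -1, 1, 1, 1, 1, 1, -1, -1, -1, -1, -1, -1, 1, 1, 1, 1, 1, 0, 0, 0, 0, 0, 0, 0, 0, 1, 1, 1, -1, 0, 0, 0, 0], 0),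
    (false, [1, 1, 1, -1, -1, -1, -1, -1, -1, -1, -1, 0, 0, 0, 0, 0, 0, 0, 0, -1, -1, -1, -1, 0, 0, 0, 0, 1, 1, 1, 0, -1, 0, 0, 0], 0),
    (false, [-1, 0, 1, -1, 0, 1, 0, -1, -1, 0, 1, -1, 0, 1, -1, 0, 1, 0, -1, 0, 1, 0, -1, -1, 0, 1, 0, 1, 0, -1, 0, 0, -1, 0, 0], 0),
    (true, [-1, -1, -1, -1, -1, -1, -1, -1, 1, 1, 1, 0, 0, 0, 0, 0, 0, 0, 0, 0, 0, 0, 0, 1, 1, 1, 1, 1, 1, 1, 0, 0, 0, 0, 0], 0),
    (true, [1, 0, -1, -1, 0, 1, 0, -1, 1, 0, -1, 1, 0, -1, -1, 0, 1, 0, -1, -1, 0, 1, 0, 0, 1, 0, -1, 1, 0, -1, 0, 0, 0, 0, 0], 0),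
    (true, [4, 1, 0, 16, 9, 4, 1, 0, 0, 1, 4, 1, 0, 1, 9, 4, 1, 0, 1, 9, 4, 1, 0, 1, 0, 1, 4, 0, 1, 4, 0, 0, 0, 0, 0], 1),
    (true, [0, 0, 0, 0, 0, 0, 0, 0, 0, 0, 0, 0, 0, 0, 0, 0, 0, 0, 0, 0, 0, 0, 0, 0, 0, 0, 0, 0, 0, 0, 0, 0, 0, 1, 0], 0),
    (true, [0, 0, 0, 0, 0, 0, 0, 0, 0, 0, 0, 0, 0, 0, 0, 0, 0, 0, 0, 0, 0, 0, 0, 0, 0, 0, 0, 0, 0, 0, 0, 0, 0, 0, 1], 0),
    (false, [4, 1, 0, 16, 9, 4, 1, 0, 0, 1, 4, 1, 0, 1, 9, 4, 1, 0, 1, 9, 4, 1, 0, 1, 0, 1, 4, 0, 1, 4, 0, 0, 0, -8, -4], 5),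
    (true, [1, 0, -1, 0, 0, 1, 0, -1, -1, 0, 1, 0, -1, 0, 0, 1, 0, -1, 0, 0, 1, 0, -1, 0, -1, 0, 1, -1, 0, 1, 0, 0, 0, 0, 0], 1)]
  moves := EB11_moves0
  reqs := EB11_reqs0
  tree := EB11_0_3_0_tree

theorem EB11_0_3_0_ok : EB11.instOK 0 3 0 EB11_0_3_0 = true := by
  decide +kernel

theorem EB11_ok0 : ∀ b ∈ EB11.branches, ∃ I : Inst, EB11.instOK 0 b.1 b.2 I = true := by
  intro b hb
  have h : b = (0, 0) ∨ b = (1, 0) ∨ b = (2, 0) ∨ b = (3, 0) := by
    have hb2 : b ∈ [(0, 0), (1, 0), (2, 0), (3, 0)] := hb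
    simpa using hb2
  rcases h with rfl | rfl | rfl | rfl
  · exact ⟨EB11_0_0_0, EB11_0_0_0_ok⟩
  · exact ⟨EB11_0_1_0, EB11_0_1_0_ok⟩
  · exact ⟨EB11_0_2_0, EB11_0_2_0_ok⟩
  · exact ⟨EB11_0_3_0, EB11_0_3_0_ok⟩

def EB11_moves1 : List Move :=
   [([((0, 2, 0), -2)], 0),
    ([((0, 1, 0), -1)], 0),
    ([((1, 2, 2), 0), ((1, 0, 2), 2)], 0),
    ([((1, 2, 0), -1), ((1, -1, 0), 2)], 0),
    ([((0, 2, 1), -1), ((0, 1, -1), -2)], 0),
    ([((1, 0, -2), -1), ((1, -1, -2), 0)], 0),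
    ([((1, 0, 1), -1), ((1, -1, 1), 0)], 0),
    ([((1, 0, -1), -1), ((1, -1, -1), 0)], 0),
    ([((2, 2, 0), 0), ((2, 0, 0), 2)], 0),
    ([((1, 2, 1), -1), ((1, -1, 1), 2)], 0),
    ([((1, 0, 0), -1), ((1, -1, 0), 0)], 0),
    ([((0, 2, 1), 1), ((0, 1, 1), 2)], 0),
    ([((0, 1, -1), -1), ((0, 1, 1), -1)], 0),
    ([((1, 2, 0), 0), ((1, 0, 0), 2)], 0),
    ([((0, 2, 2), 0), ((0, 0, 2), 2)], 0),
    ([((0, 2, 2), 1), ((0, 1, 2), 2)], 0),
    ([((0, 1, -1), 0), ((0, 0, 1), -1)], 0),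
    ([((0, 1, 1), 0), ((0, 0, 1), 1)], 0),
    ([((2, 2, 1), 0), ((2, 0, 1), 2)], 0),
    ([((0, 2, 1), 0), ((0, 0, 1), 2)], 0),
    ([((2, 2, 2), 0), ((2, 0, 2), 2)], 0),
    ([((1, 2, 1), 0), ((1, 0, 1), 2)], 0),
    ([((0, 1, 2), 0), ((0, 0, 2), 1)], 0),
    ([((1, 2, 0), 1), ((1, -1, -2), 0), ((0, 0, 1), 2)], 0),
    ([((2, 2, 1), 0), ((1, 0, 2), 2), ((1, -1, -1), 1)], 0),
    ([((2, 2, 1), 1), ((1, -1, -1), 1), ((0, 1, -1), -2)], 0),
    ([((2, 2, 1), 0), ((1, 0, -1), 1), ((1, -1, 1), 2)], 0),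
    ([((1, 0, 0), -1), ((1, -1, -2), 0), ((0, 1, -1), -1)], 0),
    ([((2, 2, 0), 1), ((1, -1, -1), 1), ((0, 1, 2), 2)], 0),
    ([((2, 2, 2), 0), ((1, 0, 2), 2), ((1, -1, 0), 1)], 0),
    ([((0, 2, 1), 0), ((0, 1, 2), 2), ((0, 0, 0), -1)], 0),
    ([((1, 0, -2), -1), ((1, -1, 0), 0), ((0, 1, 1), -1)], 0),
    ([((2, 2, 2), 0), ((2, 0, 1), 2), ((0, 1, -1), -1)], 0),
    ([((2, 0, -1), 1), ((1, 2, 0), 0), ((0, 1, 1), 2)], 0),
    ([((2, 2, 1), 0), ((1, 0, 1), 2), ((1, -1, 0), 1)], 0),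
    ([((1, 0, 1), -1), ((1, -1, -1), 0), ((0, 1, -1), -1)], 0),
    ([((1, 2, 2), 0), ((1, 0, 1), 2), ((0, 1, -1), -1)], 0),
    ([((2, 2, 2), 1), ((1, -1, 0), 1), ((0, 1, 2), 2)], 0),
    ([((2, 2, 0), 0), ((1, 0, 1), 2), ((1, -1, -1), 1)], 0),
    ([((2, 0, 2), 1), ((1, 2, 2), 0), ((0, 1, 2), 2)], 0),
    ([((2, 2, 2), 1), ((1, 0, 2), 2), ((0, 1, 2), 0)], 0),
    ([((1, 2, 0), 0), ((1, 0, 1), 2), ((0, 1, 1), -1)], 0),
    ([((2, 2, 0), 1), ((1, 0, 1), 2), ((0, 1, 2), 0)], 0),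
    ([((2, 2, 0), 0), ((2, 0, 1), 2), ((0, 1, 1), -1)], 0),
    ([((1, 2, 0), -1), ((1, 0, 1), 2), ((1, -1, -2), 0)], 0),
    ([((1, 2, 1), 0), ((1, 0, 2), 2), ((0, 1, 1), -1)], 0),
    ([((2, 2, 1), 0), ((1, 0, 0), 2), ((1, -1, 1), 1)], 0),
    ([((2, 2, 1), 1), ((1, 0, 0), 2), ((0, 1, -1), 0)], 0),
    ([((0, 1, -1), -1), ((0, 1, 2), 0), ((0, 0, 0), -1)], 0),
    ([((2, 2, 1), 0), ((2, 0, 2), 2), ((0, 1, 1), -1)], 0),
    ([((2, 0, 1), 1), ((1, 2, 2), 0), ((0, 1, -1), -2)], 0),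
    ([((2, 2, 1), 0), ((1, 0, 2), 1), ((1, -1, 0), 2)], 0),
    ([((2, 2, 1), 1), ((1, -1, 0), 1), ((0, 1, 1), 2)], 0),
    ([((1, 2, 1), -1), ((1, 0, 2), 2), ((1, -1, -1), 0)], 0),
    ([((1, 2, 2), 0), ((1, 0, -1), -1), ((1, -1, 1), 2)], 0),
    ([((1, 2, 1), 0), ((1, 0, 0), 2), ((0, 1, -1), -1)], 0),
    ([((1, 0, -1), -1), ((1, -1, 1), 0), ((0, 1, 1), -1)], 0),
    ([((2, 2, 1), 1), ((1, 0, 1), 2), ((0, 1, 1), 0)], 0),
    ([((2, 2, 1), 0), ((2, 0, 0), 2), ((0, 1, -1), -1)], 0),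
    ([((2, 2, 0), 1), ((1, 0, 1), -1), ((1, -1, 0), 2), ((0, 1, -1), 0)], 0),
    ([((1, 2, 0), 0), ((1, 0, 1), 1), ((1, -1, -1), 0), ((0, 0, 0), -2)], 0),
    ([((2, 2, 0), 0), ((1, -1, 0), 1), ((1, -1, 0), 1), ((0, 0, 0), -2)], 0),
    ([((0, 2, 2), 1), ((1, 0, -1), -1), ((1, -1, -2), 0), ((0, 1, -1), -2)], 0),
    ([((0, 2, 2), 1), ((1, 0, -1), -1), ((1, -1, 0), 0), ((0, 1, 1), 2)], 0),
    ([((2, 2, 1), 0), ((2, 0, 2), 2), ((1, 0, 0), -1), ((1, -1, -2), 0)], 0),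
    ([((2, 2, 0), 0), ((2, 0, -1), 1), ((1, -1, 0), 1), ((0, 1, 1), 2)], 0),
    ([((1, 2, 2), 1), ((1, -1, 0), 0), ((0, 1, -1), -1), ((0, 0, 0), -2)], 0),
    ([((2, 2, 0), 0), ((2, 0, -1), 1), ((1, -1, -1), 1), ((0, 1, -1), -2)], 0),
    ([((2, 2, 0), 0), ((1, 0, 0), 2), ((1, 0, 2), 1), ((1, -1, -2), 0)], 0),
    ([((2, 2, 0), 0), ((1, 0, 1), 2), ((1, -1, 0), 1), ((0, 1, 1), -1)], 0),
    ([((1, 2, 1), 1), ((1, 0, -1), -1), ((1, 0, -1), 1)], 1),
    ([((2, 2, 1), 1), ((1, -1, 1), 1), ((0, 1, 1), 0), ((0, 0, 0), -2)], 0),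
    ([((2, 2, 0), 0), ((2, 0, 2), 2), ((0, 2, 2), 0), ((0, 0, 0), -2)], 0),
    ([((2, 2, 1), 0), ((1, 0, 1), 2), ((1, 0, 2), 1), ((1, -1, -2), 0)], 0),
    ([((2, 2, 2), 0), ((2, 0, -1), 1), ((1, -1, 1), 1), ((0, 1, -1), -2)], 0),
    ([((2, 2, 0), 0), ((1, 0, 0), 2), ((1, -1, 1), 1), ((0, 1, 1), -1)], 0),
    ([((2, 0, -1), 1), ((1, 2, 0), 0), ((0, 1, -1), 0), ((0, 0, 0), -2)], 0),
    ([((2, 2, 1), 0), ((2, 0, 2), 1), ((1, 0, 1), 2), ((0, 1, 2), 0)], 0),
    ([((2, 2, 0), 1), ((1, 0, 0), 2), ((0, 1, -1), -1), ((0, 1, 2), 0)], 0),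
    ([((1, 2, 2), 0), ((1, 0, -2), -1), ((1, -1, 0), 2), ((0, 1, -1), -1)], 0),
    ([((2, 2, 0), 0), ((1, 0, 2), 2), ((1, -1, -1), 1), ((0, 1, 1), -1)], 0),
    ([((2, 2, 2), 0), ((2, 0, 1), 2), ((1, 0, -1), -1), ((1, -1, 1), 0)], 0),
    ([((2, 2, 0), 0), ((1, 0, 2), 1), ((1, -1, 0), 2), ((0, 1, 1), -1)], 0),
    ([((2, 2, 0), 0), ((1, 0, 0), 2), ((1, -1, -1), 1), ((0, 1, -1), -1)], 0),
    ([((2, 2, 2), 0), ((2, 0, -1), 1), ((1, 0, 2), 2), ((0, 1, -1), 0)], 0),
    ([((2, 2, 1), 0), ((1, 0, 1), 1), ((1, 0, 1), 2), ((1, -1, -1), 0)], 0),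
    ([((1, 2, 2), 0), ((1, 0, 0), 2), ((0, 1, -1), -1), ((0, 1, -1), -1)], 0),
    ([((2, 0, 1), 1), ((1, 2, 0), -1), ((1, -1, -2), 0), ((0, 1, 1), 2)], 0),
    ([((2, 2, 0), 1), ((1, 0, 1), 1), ((1, -1, -2), 0), ((0, 1, 1), 2)], 0),
    ([((1, 2, 2), 0), ((1, -1, 1), 1), ((0, 1, -1), -1), ((0, 0, 0), -2)], 0),
    ([((2, 2, 0), 1), ((1, 0, 0), 1), ((1, -1, -2), 0), ((0, 1, 2), 2)], 0),
    ([((2, 2, 0), 0), ((2, 0, 2), 2), ((1, 2, 2), 0), ((1, 0, 0), 2)], 0),
    ([((0, 2, 2), 0), ((0, 1, -1), -1), ((0, 1, -1), -1), ((0, 0, 0), -2)], 0),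
    ([((1, 2, 0), 1), ((1, 0, -1), 1), ((0, 1, 1), 0), ((0, 1, 2), 2)], 0),
    ([((1, 2, 1), 0), ((1, 0, 0), -1), ((1, 0, 2), 2), ((1, -1, -2), 0)], 0),
    ([((2, 2, 1), 1), ((1, 2, 2), 1), ((1, -1, 0), 2), ((0, 1, -1), -2)], 0),
    ([((2, 2, 1), 0), ((2, 0, 0), 1), ((1, 0, 2), 2), ((0, 1, 2), 0)], 0),
    ([((2, 2, 2), 1), ((1, 2, 1), 1), ((1, -1, 0), 2), ((0, 1, -1), -2)], 0),
    ([((2, 2, 0), 1), ((1, 0, -1), -1), ((1, -1, 0), 2), ((0, 1, 1), 0)], 0),
    ([((2, 2, 1), 1), ((0, 2, 2), 0), ((1, 0, 1), 2), ((0, 1, -1), -2)], 0),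
    ([((2, 2, 0), 0), ((2, 0, -1), 1), ((1, 0, 0), 2), ((0, 1, -1), 0)], 0),
    ([((1, 0, -1), -1), ((1, -1, -2), 0), ((0, 1, -1), 0), ((0, 0, 0), -1)], 0),
    ([((1, 0, -1), -1), ((1, -1, -2), 0), ((0, 1, 1), 0), ((0, 0, 2), 1)], 0),
    ([((2, 2, 1), 0), ((2, 0, 2), 2), ((1, 2, 1), 0), ((1, 0, 0), 2)], 0),
    ([((2, 2, 1), 0), ((0, 2, 1), 0), ((1, 0, 1), 2), ((1, 0, 1), 2)], 0),
    ([((1, 2, 1), 1), ((1, -1, -2), 0), ((0, 1, -1), -2), ((0, 0, 0), -1)], 0),
    ([((2, 2, 0), 1), ((1, 0, -1), 1), ((1, -1, -2), 0), ((0, 1, -1), -2)], 0),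
    ([((2, 2, 0), 0), ((0, 2, 2), 0), ((1, 0, 0), 2), ((1, 0, 2), 2)], 0),
    ([((1, 0, 1), -1), ((1, -1, 0), 0), ((0, 1, -1), 0), ((0, 0, 0), -1)], 0),
    ([((2, 2, 2), 1), ((0, 2, 1), 0), ((1, 0, 1), 2), ((0, 1, 2), 2)], 0),
    ([((2, 2, 0), 0), ((0, 2, 2), 0), ((1, 0, 1), 2), ((1, 0, 1), 2)], 0),
    ([((1, 2, 1), 0), ((1, -1, 0), 1), ((0, 1, -1), -1), ((0, 0, 0), -2)], 0),
    ([((2, 2, 2), 0), ((1, 0, 0), 2), ((1, -1, 1), 1), ((0, 1, -1), -1)], 0),
    ([((1, 2, 0), 1), ((1, -1, -2), 0), ((0, 1, -1), -1), ((0, 0, 0), -2)], 0),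
    ([((2, 2, 2), 1), ((1, 0, 1), 1), ((1, -1, -2), 0), ((0, 1, -1), -2)], 0),
    ([((2, 2, 1), 1), ((1, -1, 0), 1), ((0, 1, -1), 0), ((0, 0, 0), -2)], 0),
    ([((2, 2, 2), 0), ((1, 0, 1), 2), ((1, -1, 0), 1), ((0, 1, -1), -1)], 0),
    ([((1, 2, 0), 1), ((1, -1, -2), 0), ((0, 1, 1), -1), ((0, 0, 2), 2)], 0),
    ([((2, 2, 1), 1), ((2, 0, 0), 2), ((1, 2, 0), 0), ((0, 1, 1), 2)], 0),
    ([((2, 2, 1), 1), ((1, 0, 2), 1), ((1, -1, -2), 0), ((0, 1, 1), 2)], 0),
    ([((2, 2, 2), 1), ((1, 0, -1), -1), ((1, -1, 0), 2), ((0, 1, -1), 0)], 0),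
    ([((2, 2, 1), 1), ((1, -1, -1), 1), ((0, 1, 1), 0), ((0, 0, 2), 2)], 0),
    ([((2, 2, 1), 1), ((0, 2, 2), 0), ((1, 0, 2), 2), ((0, 1, 1), 2)], 0),
    ([((2, 2, 2), 1), ((1, 0, -1), -1), ((1, -1, 1), 2), ((0, 1, 2), 0)], 0),
    ([((2, 2, 2), 0), ((1, 0, -1), 1), ((1, -1, 1), 2), ((0, 1, -1), -1)], 0),
    ([((2, 2, 1), 0), ((0, 2, 1), 0), ((1, 0, 0), 2), ((1, 0, 2), 2)], 0),
    ([((2, 2, 0), 1), ((1, -1, -2), 0), ((0, 1, 1), 2)], 1),
    ([((2, 2, 0), 0), ((2, 0, -1), 1), ((1, -1, 1), 1), ((0, 1, 1), 0), ((0, 0, 0), -2)], 0),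
    ([((2, 2, 0), 0), ((2, 0, -1), 1), ((1, -1, 0), 1), ((0, 1, -1), 0), ((0, 0, 0), -2)], 0),
    ([((2, 2, 1), 1), ((0, 2, 2), 0), ((1, -1, 1), 1), ((0, 1, -1), -2), ((0, 0, 0), -2)], 0),
    ([((2, 2, 1), 1), ((0, 2, 2), 0), ((1, 0, 2), 2), ((0, 1, -1), 0), ((0, 0, 0), -2)], 0),
    ([((2, 2, 0), 1), ((1, 2, 2), 0), ((1, 0, 0), 2), ((1, -1, 1), 1), ((0, 1, 2), 2)], 0),
    ([((2, 2, 0), 0), ((2, 0, 2), 1), ((1, 0, -1), 1), ((1, -1, -2), 0), ((0, 1, 1), 2)], 0),
    ([((2, 2, 0), 0), ((2, 0, 2), 2), ((1, 0, 0), -1), ((1, -1, -2), 0), ((0, 1, 1), -1)], 0),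
    ([((2, 2, 0), 0), ((0, 2, 2), 0), ((1, 0, 2), 2), ((1, -1, 0), 1), ((0, 0, 0), -2)], 0),
    ([((2, 0, 0), 1), ((1, 2, 0), 0), ((1, 0, -1), -1), ((1, -1, -2), 0), ((0, 1, 1), 2)], 0),
    ([((1, 2, 0), 0), ((1, 0, -1), -1), ((1, 0, -1), 1), ((1, 0, -1), 1)], 1),
    ([((2, 2, 0), 0), ((2, 0, -1), 1), ((0, 2, 2), 0), ((1, 0, 2), 2), ((0, 1, 1), 2)], 0),
    ([((2, 2, 0), 1), ((1, 0, 0), 1), ((1, -1, -1), 0), ((0, 1, 1), 2)], 0),
    ([((2, 2, 0), 0), ((1, 2, 2), 0), ((1, 0, 0), 2), ((1, -1, 1), 2)], 1),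
    ([((2, 2, 0), 0), ((0, 2, 2), 0), ((1, -1, 1), 2), ((0, 0, 0), -2)], 1),
    ([((2, 2, 2), 1), ((1, -1, 0), 0), ((0, 1, -1), 0), ((0, 0, 0), -2)], 1),
    ([((1, 0, -2), -1), ((1, -1, -1), 0), ((0, 1, 1), 0), ((0, 0, 0), -1)], 0),
    ([((2, 2, 0), 0), ((2, 0, -1), 1), ((1, -1, -1), 0), ((0, 1, 1), 2)], 1),
    ([((2, 2, 0), 1), ((1, -1, -2), 0), ((0, 1, -1), 0), ((0, 0, 0), -2)], 1),
    ([((1, 2, 2), 0), ((1, 0, 0), -1), ((1, 0, 0), -1), ((1, -1, 1), 0), ((1, -1, 1), 2)], 0),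
    ([((1, 2, 1), 1), ((1, 0, -2), -1), ((1, 0, -2), -1), ((1, -1, -1), 1), ((0, 1, 1), -1)], 1),
    ([((1, 2, 2), 1), ((1, 2, 2), 1), ((1, 0, 0), -1), ((1, 0, 0), -1), ((1, -1, 1), 2)], 1)]

def EB11_reqs1 : List (List ℤ) :=
   [[0, 0, 0, 0, 0, 0, 0, 0, 1, 0, 0, 0, 0, 0, 0, 0, 0, 0, 0, 0, 0, 0, 0, 0, 0, 0, 0, 0, 0, 0, 0, 0, 0, 0, 0],
    [0, 0, 0, 0, 0, 0, 0, 0, 0, 0, 0, 0, 0, 0, 0, 0, 0, 0, 0, 0, 0, 0, 0, 0, 1, 0, 0, 0, 0, 0, 0, 0, 0, 0, 0],
    [0, 0, 0, 0, 0, 0, 0, 0, 0, 0, 0, 0, 0, 1, 0, 0, 0, 0, 1, 0, 0, 0, 0, 0, 0, 0, 0, 0, 0, 0, 0, 0, 0, 0, 0],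
    [0, 0, 0, 0, 0, 0, 0, 0, 0, 0, 0, 1, 0, 0, 0, 0, 0, 0, 0, 0, 0, 1, 0, 0, 0, 0, 0, 0, 0, 0, 0, 0, 0, 0, 0],
    [0, 0, 0, 0, 0, 0, 0, 0, 0, 1, 0, 0, 0, 0, 0, 0, 0, 0, 0, 0, 0, 0, 0, 1, 0, 0, 0, 0, 0, 0, 0, 0, 0, 0, 0],
    [0, 0, 0, 0, 0, 0, 0, 0, 0, 0, 0, 0, 0, 0, 1, 0, 0, 0, 0, 1, 0, 0, 0, 0, 0, 0, 0, 0, 0, 0, 0, 0, 0, 0, 0],
    [0, 0, 0, 0, 0, 0, 0, 0, 0, 0, 0, 0, 0, 0, 0, 0, 0, 1, 0, 0, 0, 0, 1, 0, 0, 0, 0, 0, 0, 0, 0, 0, 0, 0, 0],
    [0, 0, 0, 0, 0, 0, 0, 0, 0, 0, 0, 0, 0, 0, 0, 1, 0, 0, 0, 0, 1, 0, 0, 0, 0, 0, 0, 0, 0, 0, 0, 0, 0, 0, 0],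
    [1, 0, 0, 0, 0, 1, 0, 0, 0, 0, 0, 0, 0, 0, 0, 0, 0, 0, 0, 0, 0, 0, 0, 0, 0, 0, 0, 0, 0, 0, 0, 0, 0, 0, 0],
    [0, 0, 0, 0, 0, 0, 0, 0, 0, 0, 0, 0, 1, 0, 0, 0, 0, 0, 0, 0, 0, 0, 1, 0, 0, 0, 0, 0, 0, 0, 0, 0, 0, 0, 0],
    [0, 0, 0, 0, 0, 0, 0, 0, 0, 0, 0, 0, 0, 0, 0, 0, 1, 0, 0, 0, 0, 1, 0, 0, 0, 0, 0, 0, 0, 0, 0, 0, 0, 0, 0],
    [0, 0, 0, 0, 0, 0, 0, 0, 0, 1, 0, 0, 0, 0, 0, 0, 0, 0, 0, 0, 0, 0, 0, 0, 0, 1, 0, 0, 0, 0, 0, 0, 0, 0, 0],
    [0, 0, 0, 0, 0, 0, 0, 0, 0, 0, 0, 0, 0, 0, 0, 0, 0, 0, 0, 0, 0, 0, 0, 1, 0, 1, 0, 0, 0, 0, 0, 0, 0, 0, 0],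
    [0, 0, 0, 0, 0, 0, 0, 0, 0, 0, 0, 1, 0, 0, 0, 0, 1, 0, 0, 0, 0, 0, 0, 0, 0, 0, 0, 0, 0, 0, 0, 0, 0, 0, 0],
    [0, 0, 0, 0, 0, 0, 0, 0, 0, 0, 1, 0, 0, 0, 0, 0, 0, 0, 0, 0, 0, 0, 0, 0, 0, 0, 0, 0, 0, 1, 0, 0, 0, 0, 0],
    [0, 0, 0, 0, 0, 0, 0, 0, 0, 0, 1, 0, 0, 0, 0, 0, 0, 0, 0, 0, 0, 0, 0, 0, 0, 0, 1, 0, 0, 0, 0, 0, 0, 0, 0],
    [0, 0, 0, 0, 0, 0, 0, 0, 0, 0, 0, 0, 0, 0, 0, 0, 0, 0, 0, 0, 0, 0, 0, 1, 0, 0, 0, 0, 1, 0, 0, 0, 0, 0, 0],
    [0, 0, 0, 0, 0, 0, 0, 0, 0, 0, 0, 0, 0, 0, 0, 0, 0, 0, 0, 0, 0, 0, 0, 0, 0, 1, 0, 0, 1, 0, 0, 0, 0, 0, 0],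
    [0, 1, 0, 0, 0, 0, 1, 0, 0, 0, 0, 0, 0, 0, 0, 0, 0, 0, 0, 0, 0, 0, 0, 0, 0, 0, 0, 0, 0, 0, 0, 0, 0, 0, 0],
    [0, 0, 0, 0, 0, 0, 0, 0, 0, 1, 0, 0, 0, 0, 0, 0, 0, 0, 0, 0, 0, 0, 0, 0, 0, 0, 0, 0, 1, 0, 0, 0, 0, 0, 0],
    [0, 0, 1, 0, 0, 0, 0, 1, 0, 0, 0, 0, 0, 0, 0, 0, 0, 0, 0, 0, 0, 0, 0, 0, 0, 0, 0, 0, 0, 0, 0, 0, 0, 0, 0],
    [0, 0, 0, 0, 0, 0, 0, 0, 0, 0, 0, 0, 1, 0, 0, 0, 0, 1, 0, 0, 0, 0, 0, 0, 0, 0, 0, 0, 0, 0, 0, 0, 0, 0, 0],
    [0, 0, 0, 0, 0, 0, 0, 0, 0, 0, 0, 0, 0, 0, 0, 0, 0, 0, 0, 0, 0, 0, 0, 0, 0, 0, 1, 0, 0, 1, 0, 0, 0, 0, 0],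
    [0, 0, 0, 0, 0, 0, 0, 0, 0, 0, 0, 1, 0, 0, 0, 0, 0, 0, 0, 1, 0, 0, 0, 0, 0, 0, 0, 0, 1, 0, 0, 0, 0, 0, 0],
    [0, 1, 0, 0, 0, 0, 0, 0, 0, 0, 0, 0, 0, 0, 0, 0, 0, 0, 1, 0, 1, 0, 0, 0, 0, 0, 0, 0, 0, 0, 0, 0, 0, 0, 0],
    [0, 1, 0, 0, 0, 0, 0, 0, 0, 0, 0, 0, 0, 0, 0, 0, 0, 0, 0, 0, 1, 0, 0, 1, 0, 0, 0, 0, 0, 0, 0, 0, 0, 0, 0],
    [0, 1, 0, 0, 0, 0, 0, 0, 0, 0, 0, 0, 0, 0, 0, 1, 0, 0, 0, 0, 0, 0, 1, 0, 0, 0, 0, 0, 0, 0, 0, 0, 0, 0, 0],
    [0, 0, 0, 0, 0, 0, 0, 0, 0, 0, 0, 0, 0, 0, 0, 0, 1, 0, 0, 1, 0, 0, 0, 1, 0, 0, 0, 0, 0, 0, 0, 0, 0, 0, 0],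
    [1, 0, 0, 0, 0, 0, 0, 0, 0, 0, 0, 0, 0, 0, 0, 0, 0, 0, 0, 0, 1, 0, 0, 0, 0, 0, 1, 0, 0, 0, 0, 0, 0, 0, 0],
    [0, 0, 1, 0, 0, 0, 0, 0, 0, 0, 0, 0, 0, 0, 0, 0, 0, 0, 1, 0, 0, 1, 0, 0, 0, 0, 0, 0, 0, 0, 0, 0, 0, 0, 0],
    [0, 0, 0, 0, 0, 0, 0, 0, 0, 1, 0, 0, 0, 0, 0, 0, 0, 0, 0, 0, 0, 0, 0, 0, 0, 0, 1, 1, 0, 0, 0, 0, 0, 0, 0],
    [0, 0, 0, 0, 0, 0, 0, 0, 0, 0, 0, 0, 0, 0, 1, 0, 0, 0, 0, 0, 0, 1, 0, 0, 0, 1, 0, 0, 0, 0, 0, 0, 0, 0, 0],
    [0, 0, 1, 0, 0, 0, 1, 0, 0, 0, 0, 0, 0, 0, 0, 0, 0, 0, 0, 0, 0, 0, 0, 1, 0, 0, 0, 0, 0, 0, 0, 0, 0, 0, 0],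
    [0, 0, 0, 0, 1, 0, 0, 0, 0, 0, 0, 1, 0, 0, 0, 0, 0, 0, 0, 0, 0, 0, 0, 0, 0, 1, 0, 0, 0, 0, 0, 0, 0, 0, 0],
    [0, 1, 0, 0, 0, 0, 0, 0, 0, 0, 0, 0, 0, 0, 0, 0, 0, 1, 0, 0, 0, 1, 0, 0, 0, 0, 0, 0, 0, 0, 0, 0, 0, 0, 0],
    [0, 0, 0, 0, 0, 0, 0, 0, 0, 0, 0, 0, 0, 0, 0, 0, 0, 1, 0, 0, 1, 0, 0, 1, 0, 0, 0, 0, 0, 0, 0, 0, 0, 0, 0],
    [0, 0, 0, 0, 0, 0, 0, 0, 0, 0, 0, 0, 0, 1, 0, 0, 0, 1, 0, 0, 0, 0, 0, 1, 0, 0, 0, 0, 0, 0, 0, 0, 0, 0, 0],
    [0, 0, 1, 0, 0, 0, 0, 0, 0, 0, 0, 0, 0, 0, 0, 0, 0, 0, 0, 0, 0, 1, 0, 0, 0, 0, 1, 0, 0, 0, 0, 0, 0, 0, 0],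
    [1, 0, 0, 0, 0, 0, 0, 0, 0, 0, 0, 0, 0, 0, 0, 0, 0, 1, 0, 0, 1, 0, 0, 0, 0, 0, 0, 0, 0, 0, 0, 0, 0, 0, 0],
    [0, 0, 0, 0, 0, 0, 0, 1, 0, 0, 0, 0, 0, 1, 0, 0, 0, 0, 0, 0, 0, 0, 0, 0, 0, 0, 1, 0, 0, 0, 0, 0, 0, 0, 0],
    [0, 0, 1, 0, 0, 0, 0, 0, 0, 0, 0, 0, 0, 0, 0, 0, 0, 0, 1, 0, 0, 0, 0, 0, 0, 0, 1, 0, 0, 0, 0, 0, 0, 0, 0],
    [0, 0, 0, 0, 0, 0, 0, 0, 0, 0, 0, 1, 0, 0, 0, 0, 0, 1, 0, 0, 0, 0, 0, 0, 0, 1, 0, 0, 0, 0, 0, 0, 0, 0, 0],
    [1, 0, 0, 0, 0, 0, 0, 0, 0, 0, 0, 0, 0, 0, 0, 0, 0, 1, 0, 0, 0, 0, 0, 0, 0, 0, 1, 0, 0, 0, 0, 0, 0, 0, 0],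
    [1, 0, 0, 0, 0, 0, 1, 0, 0, 0, 0, 0, 0, 0, 0, 0, 0, 0, 0, 0, 0, 0, 0, 0, 0, 1, 0, 0, 0, 0, 0, 0, 0, 0, 0],
    [0, 0, 0, 0, 0, 0, 0, 0, 0, 0, 0, 1, 0, 0, 0, 0, 0, 1, 0, 1, 0, 0, 0, 0, 0, 0, 0, 0, 0, 0, 0, 0, 0, 0, 0],
    [0, 0, 0, 0, 0, 0, 0, 0, 0, 0, 0, 0, 1, 0, 0, 0, 0, 0, 1, 0, 0, 0, 0, 0, 0, 1, 0, 0, 0, 0, 0, 0, 0, 0, 0],
    [0, 1, 0, 0, 0, 0, 0, 0, 0, 0, 0, 0, 0, 0, 0, 0, 1, 0, 0, 0, 0, 0, 1, 0, 0, 0, 0, 0, 0, 0, 0, 0, 0, 0, 0],
    [0, 1, 0, 0, 0, 0, 0, 0, 0, 0, 0, 0, 0, 0, 0, 0, 1, 0, 0, 0, 0, 0, 0, 1, 0, 0, 0, 0, 0, 0, 0, 0, 0, 0, 0],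
    [0, 0, 0, 0, 0, 0, 0, 0, 0, 0, 0, 0, 0, 0, 0, 0, 0, 0, 0, 0, 0, 0, 0, 1, 0, 0, 1, 1, 0, 0, 0, 0, 0, 0, 0],
    [0, 1, 0, 0, 0, 0, 0, 1, 0, 0, 0, 0, 0, 0, 0, 0, 0, 0, 0, 0, 0, 0, 0, 0, 0, 1, 0, 0, 0, 0, 0, 0, 0, 0, 0],
    [0, 0, 0, 0, 0, 0, 1, 0, 0, 0, 0, 0, 0, 1, 0, 0, 0, 0, 0, 0, 0, 0, 0, 1, 0, 0, 0, 0, 0, 0, 0, 0, 0, 0, 0],
    [0, 1, 0, 0, 0, 0, 0, 0, 0, 0, 0, 0, 0, 0, 0, 0, 0, 0, 1, 0, 0, 1, 0, 0, 0, 0, 0, 0, 0, 0, 0, 0, 0, 0, 0],
    [0, 1, 0, 0, 0, 0, 0, 0, 0, 0, 0, 0, 0, 0, 0, 0, 0, 0, 0, 0, 0, 1, 0, 0, 0, 1, 0, 0, 0, 0, 0, 0, 0, 0, 0],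
    [0, 0, 0, 0, 0, 0, 0, 0, 0, 0, 0, 0, 1, 0, 0, 0, 0, 0, 1, 0, 1, 0, 0, 0, 0, 0, 0, 0, 0, 0, 0, 0, 0, 0, 0],
    [0, 0, 0, 0, 0, 0, 0, 0, 0, 0, 0, 0, 0, 1, 0, 1, 0, 0, 0, 0, 0, 0, 1, 0, 0, 0, 0, 0, 0, 0, 0, 0, 0, 0, 0],
    [0, 0, 0, 0, 0, 0, 0, 0, 0, 0, 0, 0, 1, 0, 0, 0, 1, 0, 0, 0, 0, 0, 0, 1, 0, 0, 0, 0, 0, 0, 0, 0, 0, 0, 0],
    [0, 0, 0, 0, 0, 0, 0, 0, 0, 0, 0, 0, 0, 0, 0, 1, 0, 0, 0, 0, 0, 0, 1, 0, 0, 1, 0, 0, 0, 0, 0, 0, 0, 0, 0],
    [0, 1, 0, 0, 0, 0, 0, 0, 0, 0, 0, 0, 0, 0, 0, 0, 0, 1, 0, 0, 0, 0, 0, 0, 0, 1, 0, 0, 0, 0, 0, 0, 0, 0, 0],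
    [0, 1, 0, 0, 0, 1, 0, 0, 0, 0, 0, 0, 0, 0, 0, 0, 0, 0, 0, 0, 0, 0, 0, 1, 0, 0, 0, 0, 0, 0, 0, 0, 0, 0, 0],
    [1, 0, 0, 0, 0, 0, 0, 0, 0, 0, 0, 0, 0, 0, 0, 0, 0, 1, 0, 0, 0, 1, 0, 1, 0, 0, 0, 0, 0, 0, 0, 0, 0, 0, 0],
    [0, 0, 0, 0, 0, 0, 0, 0, 0, 0, 0, 1, 0, 0, 0, 0, 0, 1, 0, 0, 1, 0, 0, 0, 0, 0, 0, 1, 0, 0, 0, 0, 0, 0, 0],
    [1, 0, 0, 0, 0, 0, 0, 0, 0, 0, 0, 0, 0, 0, 0, 0, 0, 0, 0, 0, 0, 2, 0, 0, 0, 0, 0, 1, 0, 0, 0, 0, 0, 0, 0],
    [0, 0, 0, 0, 0, 0, 0, 0, 0, 0, 1, 0, 0, 0, 0, 1, 0, 0, 0, 1, 0, 0, 0, 1, 0, 0, 0, 0, 0, 0, 0, 0, 0, 0, 0],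
    [0, 0, 0, 0, 0, 0, 0, 0, 0, 0, 1, 0, 0, 0, 0, 1, 0, 0, 0, 0, 0, 1, 0, 0, 0, 1, 0, 0, 0, 0, 0, 0, 0, 0, 0],
    [0, 1, 0, 0, 0, 0, 0, 1, 0, 0, 0, 0, 0, 0, 0, 0, 1, 0, 0, 1, 0, 0, 0, 0, 0, 0, 0, 0, 0, 0, 0, 0, 0, 0, 0],
    [1, 0, 0, 0, 1, 0, 0, 0, 0, 0, 0, 0, 0, 0, 0, 0, 0, 0, 0, 0, 0, 1, 0, 0, 0, 1, 0, 0, 0, 0, 0, 0, 0, 0, 0],
    [0, 0, 0, 0, 0, 0, 0, 0, 0, 0, 0, 0, 0, 1, 0, 0, 0, 0, 0, 0, 0, 1, 0, 1, 0, 0, 0, 1, 0, 0, 0, 0, 0, 0, 0],
    [1, 0, 0, 0, 1, 0, 0, 0, 0, 0, 0, 0, 0, 0, 0, 0, 0, 0, 0, 0, 1, 0, 0, 1, 0, 0, 0, 0, 0, 0, 0, 0, 0, 0, 0],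
    [1, 0, 0, 0, 0, 0, 0, 0, 0, 0, 0, 0, 0, 0, 0, 0, 1, 0, 1, 1, 0, 0, 0, 0, 0, 0, 0, 0, 0, 0, 0, 0, 0, 0, 0],
    [1, 0, 0, 0, 0, 0, 0, 0, 0, 0, 0, 0, 0, 0, 0, 0, 0, 1, 0, 0, 0, 1, 0, 0, 0, 1, 0, 0, 0, 0, 0, 0, 0, 0, 0],
    [0, 0, 0, 0, 0, 0, 0, 0, 0, 0, 0, 0, 1, 0, 0, 2, 0, 0, 0, 0, 0, 0, 0, 0, 0, 0, 0, 0, 0, 0, 1, 0, 0, 0, 0],
    [0, 1, 0, 0, 0, 0, 0, 0, 0, 0, 0, 0, 0, 0, 0, 0, 0, 0, 0, 0, 0, 0, 1, 0, 0, 1, 0, 1, 0, 0, 0, 0, 0, 0, 0],
    [1, 0, 0, 0, 0, 0, 0, 1, 0, 0, 1, 0, 0, 0, 0, 0, 0, 0, 0, 0, 0, 0, 0, 0, 0, 0, 0, 1, 0, 0, 0, 0, 0, 0, 0],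
    [0, 1, 0, 0, 0, 0, 0, 0, 0, 0, 0, 0, 0, 0, 0, 0, 0, 1, 1, 1, 0, 0, 0, 0, 0, 0, 0, 0, 0, 0, 0, 0, 0, 0, 0],
    [0, 0, 1, 0, 1, 0, 0, 0, 0, 0, 0, 0, 0, 0, 0, 0, 0, 0, 0, 0, 0, 0, 1, 1, 0, 0, 0, 0, 0, 0, 0, 0, 0, 0, 0],
    [1, 0, 0, 0, 0, 0, 0, 0, 0, 0, 0, 0, 0, 0, 0, 0, 1, 0, 0, 0, 0, 0, 1, 0, 0, 1, 0, 0, 0, 0, 0, 0, 0, 0, 0],
    [0, 0, 0, 0, 1, 0, 0, 0, 0, 0, 0, 1, 0, 0, 0, 0, 0, 0, 0, 0, 0, 0, 0, 1, 0, 0, 0, 1, 0, 0, 0, 0, 0, 0, 0],
    [0, 1, 0, 0, 0, 0, 0, 1, 0, 0, 0, 0, 0, 0, 0, 0, 0, 1, 0, 0, 0, 0, 0, 0, 0, 0, 1, 0, 0, 0, 0, 0, 0, 0, 0],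
    [1, 0, 0, 0, 0, 0, 0, 0, 0, 0, 0, 0, 0, 0, 0, 0, 1, 0, 0, 0, 0, 0, 0, 1, 0, 0, 1, 0, 0, 0, 0, 0, 0, 0, 0],
    [0, 0, 0, 0, 0, 0, 0, 0, 0, 0, 0, 0, 0, 1, 1, 0, 0, 0, 0, 0, 0, 1, 0, 1, 0, 0, 0, 0, 0, 0, 0, 0, 0, 0, 0],
    [1, 0, 0, 0, 0, 0, 0, 0, 0, 0, 0, 0, 0, 0, 0, 0, 0, 0, 1, 0, 1, 0, 0, 0, 0, 1, 0, 0, 0, 0, 0, 0, 0, 0, 0],
    [0, 0, 1, 0, 0, 0, 1, 0, 0, 0, 0, 0, 0, 0, 0, 1, 0, 0, 0, 0, 0, 0, 1, 0, 0, 0, 0, 0, 0, 0, 0, 0, 0, 0, 0],
    [1, 0, 0, 0, 0, 0, 0, 0, 0, 0, 0, 0, 0, 0, 0, 0, 0, 0, 1, 0, 0, 1, 0, 0, 0, 1, 0, 0, 0, 0, 0, 0, 0, 0, 0],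
    [1, 0, 0, 0, 0, 0, 0, 0, 0, 0, 0, 0, 0, 0, 0, 0, 1, 0, 0, 0, 1, 0, 0, 1, 0, 0, 0, 0, 0, 0, 0, 0, 0, 0, 0],
    [0, 0, 1, 0, 1, 0, 0, 0, 0, 0, 0, 0, 0, 0, 0, 0, 0, 0, 1, 0, 0, 0, 0, 1, 0, 0, 0, 0, 0, 0, 0, 0, 0, 0, 0],
    [0, 1, 0, 0, 0, 0, 0, 0, 0, 0, 0, 0, 0, 0, 0, 0, 0, 2, 0, 0, 1, 0, 0, 0, 0, 0, 0, 0, 0, 0, 0, 0, 0, 0, 0],
    [0, 0, 0, 0, 0, 0, 0, 0, 0, 0, 0, 0, 0, 1, 0, 0, 1, 0, 0, 0, 0, 0, 0, 2, 0, 0, 0, 0, 0, 0, 0, 0, 0, 0, 0],
    [0, 0, 0, 0, 0, 0, 1, 0, 0, 0, 0, 1, 0, 0, 0, 0, 0, 0, 0, 1, 0, 0, 0, 0, 0, 1, 0, 0, 0, 0, 0, 0, 0, 0, 0],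
    [1, 0, 0, 0, 0, 0, 0, 0, 0, 0, 0, 0, 0, 0, 0, 0, 0, 1, 0, 1, 0, 0, 0, 0, 0, 1, 0, 0, 0, 0, 0, 0, 0, 0, 0],
    [0, 0, 0, 0, 0, 0, 0, 0, 0, 0, 0, 0, 0, 1, 0, 0, 0, 0, 0, 0, 0, 0, 1, 1, 0, 0, 0, 1, 0, 0, 0, 0, 0, 0, 0],
    [1, 0, 0, 0, 0, 0, 0, 0, 0, 0, 0, 0, 0, 0, 0, 0, 1, 0, 0, 1, 0, 0, 0, 0, 0, 0, 1, 0, 0, 0, 0, 0, 0, 0, 0],
    [1, 0, 0, 0, 0, 0, 0, 1, 0, 0, 0, 0, 0, 1, 0, 0, 1, 0, 0, 0, 0, 0, 0, 0, 0, 0, 0, 0, 0, 0, 0, 0, 0, 0, 0],
    [0, 0, 0, 0, 0, 0, 0, 0, 0, 0, 1, 0, 0, 0, 0, 0, 0, 0, 0, 0, 0, 0, 0, 2, 0, 0, 0, 1, 0, 0, 0, 0, 0, 0, 0],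
    [0, 0, 0, 0, 0, 0, 0, 0, 0, 0, 0, 1, 0, 0, 0, 1, 0, 0, 0, 0, 0, 0, 0, 0, 0, 1, 1, 0, 0, 0, 0, 0, 0, 0, 0],
    [0, 0, 0, 0, 0, 0, 0, 0, 0, 0, 0, 0, 1, 0, 0, 0, 1, 0, 1, 1, 0, 0, 0, 0, 0, 0, 0, 0, 0, 0, 0, 0, 0, 0, 0],
    [0, 1, 0, 0, 0, 0, 0, 0, 0, 0, 0, 0, 0, 1, 0, 0, 0, 0, 0, 0, 0, 1, 0, 1, 0, 0, 0, 0, 0, 0, 0, 0, 0, 0, 0],
    [0, 1, 0, 0, 0, 1, 0, 0, 0, 0, 0, 0, 0, 0, 0, 0, 0, 0, 1, 0, 0, 0, 0, 0, 0, 0, 1, 0, 0, 0, 0, 0, 0, 0, 0],
    [0, 0, 1, 0, 0, 0, 0, 0, 0, 0, 0, 0, 1, 0, 0, 0, 0, 0, 0, 0, 0, 1, 0, 1, 0, 0, 0, 0, 0, 0, 0, 0, 0, 0, 0],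
    [1, 0, 0, 0, 0, 0, 0, 0, 0, 0, 0, 0, 0, 0, 0, 1, 0, 0, 0, 0, 0, 1, 0, 0, 0, 1, 0, 0, 0, 0, 0, 0, 0, 0, 0],
    [0, 1, 0, 0, 0, 0, 0, 0, 0, 0, 1, 0, 0, 0, 0, 0, 0, 1, 0, 0, 0, 0, 0, 1, 0, 0, 0, 0, 0, 0, 0, 0, 0, 0, 0],
    [1, 0, 0, 0, 1, 0, 0, 0, 0, 0, 0, 0, 0, 0, 0, 0, 1, 0, 0, 0, 0, 0, 0, 1, 0, 0, 0, 0, 0, 0, 0, 0, 0, 0, 0],
    [0, 0, 0, 0, 0, 0, 0, 0, 0, 0, 0, 0, 0, 0, 0, 1, 0, 0, 0, 1, 0, 0, 0, 1, 0, 0, 0, 1, 0, 0, 0, 0, 0, 0, 0],
    [0, 0, 0, 0, 0, 0, 0, 0, 0, 0, 0, 0, 0, 0, 0, 1, 0, 0, 0, 1, 0, 0, 0, 0, 0, 1, 0, 0, 0, 1, 0, 0, 0, 0, 0],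
    [0, 1, 0, 0, 0, 0, 0, 1, 0, 0, 0, 0, 1, 0, 0, 0, 1, 0, 0, 0, 0, 0, 0, 0, 0, 0, 0, 0, 0, 0, 0, 0, 0, 0, 0],
    [0, 1, 0, 0, 0, 0, 0, 0, 0, 1, 0, 0, 0, 0, 0, 0, 0, 2, 0, 0, 0, 0, 0, 0, 0, 0, 0, 0, 0, 0, 0, 0, 0, 0, 0],
    [0, 0, 0, 0, 0, 0, 0, 0, 0, 0, 0, 0, 1, 0, 0, 0, 0, 0, 0, 1, 0, 0, 0, 1, 0, 0, 0, 1, 0, 0, 0, 0, 0, 0, 0],
    [1, 0, 0, 0, 0, 0, 0, 0, 0, 0, 0, 0, 0, 0, 0, 1, 0, 0, 0, 1, 0, 0, 0, 1, 0, 0, 0, 0, 0, 0, 0, 0, 0, 0, 0],
    [1, 0, 0, 0, 0, 0, 0, 0, 0, 0, 1, 0, 0, 0, 0, 0, 1, 0, 1, 0, 0, 0, 0, 0, 0, 0, 0, 0, 0, 0, 0, 0, 0, 0, 0],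
    [0, 0, 0, 0, 0, 0, 0, 0, 0, 0, 0, 0, 0, 0, 0, 0, 0, 1, 0, 0, 0, 1, 0, 1, 0, 0, 0, 1, 0, 0, 0, 0, 0, 0, 0],
    [0, 0, 1, 0, 0, 0, 0, 0, 0, 1, 0, 0, 0, 0, 0, 0, 0, 1, 0, 0, 0, 0, 0, 0, 0, 0, 1, 0, 0, 0, 0, 0, 0, 0, 0],
    [1, 0, 0, 0, 0, 0, 0, 0, 0, 0, 1, 0, 0, 0, 0, 0, 0, 2, 0, 0, 0, 0, 0, 0, 0, 0, 0, 0, 0, 0, 0, 0, 0, 0, 0],
    [0, 0, 0, 0, 0, 0, 0, 0, 0, 0, 0, 0, 1, 0, 0, 0, 0, 0, 0, 0, 0, 1, 0, 1, 0, 0, 0, 1, 0, 0, 0, 0, 0, 0, 0],
    [0, 0, 1, 0, 0, 0, 0, 0, 0, 0, 0, 0, 0, 0, 0, 0, 1, 0, 0, 0, 0, 0, 1, 1, 0, 0, 0, 0, 0, 0, 0, 0, 0, 0, 0],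
    [0, 0, 0, 0, 0, 0, 0, 0, 0, 0, 0, 1, 0, 0, 0, 0, 0, 0, 0, 1, 0, 0, 0, 1, 0, 0, 0, 1, 0, 0, 0, 0, 0, 0, 0],
    [0, 0, 1, 0, 0, 0, 0, 0, 0, 0, 0, 0, 0, 0, 0, 0, 0, 1, 0, 1, 0, 0, 0, 1, 0, 0, 0, 0, 0, 0, 0, 0, 0, 0, 0],
    [0, 1, 0, 0, 0, 0, 0, 0, 0, 0, 0, 0, 0, 0, 0, 0, 0, 0, 0, 0, 0, 1, 0, 1, 0, 0, 0, 1, 0, 0, 0, 0, 0, 0, 0],
    [0, 0, 1, 0, 0, 0, 0, 0, 0, 0, 0, 0, 0, 0, 0, 0, 0, 1, 0, 0, 0, 1, 0, 1, 0, 0, 0, 0, 0, 0, 0, 0, 0, 0, 0],
    [0, 0, 0, 0, 0, 0, 0, 0, 0, 0, 0, 1, 0, 0, 0, 0, 0, 0, 0, 1, 0, 0, 0, 0, 0, 1, 0, 0, 0, 1, 0, 0, 0, 0, 0],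
    [0, 1, 0, 0, 0, 1, 0, 0, 0, 0, 0, 1, 0, 0, 0, 0, 0, 0, 0, 0, 0, 0, 0, 0, 0, 1, 0, 0, 0, 0, 0, 0, 0, 0, 0],
    [0, 1, 0, 0, 0, 0, 0, 0, 0, 0, 0, 0, 0, 0, 0, 0, 0, 0, 1, 1, 0, 0, 0, 0, 0, 1, 0, 0, 0, 0, 0, 0, 0, 0, 0],
    [0, 0, 1, 0, 0, 0, 0, 0, 0, 0, 0, 0, 0, 0, 0, 1, 0, 0, 0, 0, 0, 1, 0, 1, 0, 0, 0, 0, 0, 0, 0, 0, 0, 0, 0],
    [0, 1, 0, 0, 0, 0, 0, 0, 0, 0, 0, 0, 0, 0, 0, 0, 0, 0, 0, 0, 1, 0, 0, 0, 0, 1, 0, 0, 0, 1, 0, 0, 0, 0, 0],
    [0, 1, 0, 0, 0, 0, 0, 0, 0, 0, 1, 0, 0, 0, 0, 0, 0, 0, 1, 0, 0, 0, 0, 0, 0, 1, 0, 0, 0, 0, 0, 0, 0, 0, 0],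
    [0, 0, 1, 0, 0, 0, 0, 0, 0, 0, 0, 0, 0, 0, 0, 1, 0, 0, 0, 0, 0, 0, 1, 0, 0, 0, 1, 0, 0, 0, 0, 0, 0, 0, 0],
    [0, 0, 1, 0, 0, 0, 0, 0, 0, 0, 0, 0, 0, 0, 0, 1, 0, 0, 0, 0, 0, 0, 1, 1, 0, 0, 0, 0, 0, 0, 0, 0, 0, 0, 0],
    [0, 1, 0, 0, 0, 0, 0, 0, 0, 1, 0, 0, 0, 0, 0, 0, 1, 0, 1, 0, 0, 0, 0, 0, 0, 0, 0, 0, 0, 0, 0, 0, 0, 0, 0],
    [1, 0, 0, 0, 0, 0, 0, 0, 0, 0, 0, 0, 0, 0, 0, 0, 0, 0, 0, 1, 0, 0, 0, 0, 0, 1, 0, 0, 0, 0, 0, 1, 1, 0, 0],
    [1, 0, 0, 0, 1, 0, 0, 0, 0, 0, 0, 0, 0, 0, 0, 0, 0, 0, 0, 0, 0, 0, 1, 0, 0, 1, 0, 1, 0, 0, 0, 0, 0, 0, 0],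
    [1, 0, 0, 0, 1, 0, 0, 0, 0, 0, 0, 0, 0, 0, 0, 0, 0, 0, 0, 0, 0, 1, 0, 1, 0, 0, 0, 1, 0, 0, 0, 0, 0, 0, 0],
    [0, 1, 0, 0, 0, 0, 0, 0, 0, 0, 1, 0, 0, 0, 0, 0, 0, 0, 0, 0, 0, 0, 1, 1, 0, 0, 0, 1, 0, 0, 0, 0, 0, 0, 0],
    [0, 1, 0, 0, 0, 0, 0, 0, 0, 0, 1, 0, 0, 0, 0, 0, 0, 0, 1, 0, 0, 0, 0, 1, 0, 0, 0, 1, 0, 0, 0, 0, 0, 0, 0],
    [1, 0, 0, 0, 0, 0, 0, 0, 0, 0, 0, 0, 0, 1, 0, 0, 1, 0, 0, 0, 0, 0, 1, 0, 0, 0, 1, 0, 0, 0, 0, 0, 0, 0, 0],
    [1, 0, 0, 0, 0, 0, 0, 1, 0, 0, 0, 0, 0, 0, 0, 1, 0, 0, 0, 1, 0, 0, 0, 0, 0, 1, 0, 0, 0, 0, 0, 0, 0, 0, 0],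
    [1, 0, 0, 0, 0, 0, 0, 1, 0, 0, 0, 0, 0, 0, 0, 0, 1, 0, 0, 1, 0, 0, 0, 0, 0, 1, 0, 0, 0, 0, 0, 0, 0, 0, 0],
    [1, 0, 0, 0, 0, 0, 0, 0, 0, 0, 1, 0, 0, 0, 0, 0, 0, 0, 1, 0, 0, 1, 0, 0, 0, 0, 0, 1, 0, 0, 0, 0, 0, 0, 0],
    [0, 0, 0, 0, 0, 1, 0, 0, 0, 0, 0, 1, 0, 0, 0, 1, 0, 0, 0, 1, 0, 0, 0, 0, 0, 1, 0, 0, 0, 0, 0, 0, 0, 0, 0],
    [0, 0, 0, 0, 0, 0, 0, 0, 0, 0, 0, 1, 0, 0, 0, 3, 0, 0, 0, 0, 0, 0, 0, 0, 0, 0, 0, 0, 0, 0, 1, 0, 0, 0, 0],
    [1, 0, 0, 0, 1, 0, 0, 0, 0, 0, 1, 0, 0, 0, 0, 0, 0, 0, 1, 0, 0, 0, 0, 0, 0, 1, 0, 0, 0, 0, 0, 0, 0, 0, 0],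
    [1, 0, 0, 0, 0, 0, 0, 0, 0, 0, 0, 0, 0, 0, 0, 0, 1, 0, 0, 0, 1, 0, 0, 0, 0, 1, 0, 0, 0, 0, 0, 0, 2, 0, 0],
    [1, 0, 0, 0, 0, 0, 0, 0, 0, 0, 0, 0, 0, 1, 0, 0, 1, 0, 0, 0, 0, 0, 1, 0, 0, 0, 0, 0, 0, 0, 0, 1, 1, 0, 0],
    [1, 0, 0, 0, 0, 0, 0, 0, 0, 0, 1, 0, 0, 0, 0, 0, 0, 0, 0, 0, 0, 0, 1, 0, 0, 0, 0, 1, 0, 0, 0, 1, 1, 0, 0],
    [0, 0, 1, 0, 0, 0, 0, 0, 0, 0, 0, 0, 0, 0, 0, 0, 0, 0, 0, 0, 0, 1, 0, 1, 0, 0, 0, 1, 0, 0, 0, 1, 1, 0, 0],
    [0, 0, 0, 0, 0, 0, 0, 0, 0, 0, 0, 0, 0, 0, 1, 0, 0, 0, 0, 0, 1, 0, 0, 0, 0, 1, 0, 1, 0, 0, 0, 0, 2, 0, 0],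
    [1, 0, 0, 0, 1, 0, 0, 0, 0, 0, 0, 0, 0, 0, 0, 0, 0, 0, 0, 0, 1, 0, 0, 0, 0, 1, 0, 0, 0, 0, 0, 1, 1, 0, 0],
    [1, 0, 0, 0, 0, 0, 0, 0, 0, 0, 0, 0, 0, 0, 0, 0, 0, 0, 0, 1, 0, 0, 0, 1, 0, 0, 0, 1, 0, 0, 0, 1, 1, 0, 0],
    [0, 0, 0, 0, 0, 0, 0, 0, 0, 0, 0, 0, 0, 1, 0, 0, 2, 0, 0, 0, 0, 0, 2, 0, 0, 0, 0, 0, 0, 0, 0, 0, 2, 0, 0],
    [0, 0, 0, 0, 0, 0, 0, 0, 0, 0, 0, 0, 1, 0, 2, 0, 0, 0, 0, 0, 1, 0, 0, 0, 0, 1, 0, 0, 0, 0, 1, 0, 1, 0, 0],
    [0, 0, 0, 0, 0, 0, 0, 0, 0, 0, 0, 0, 0, 2, 0, 0, 2, 0, 0, 0, 0, 0, 1, 0, 0, 0, 0, 0, 0, 0, 1, 0, 3, 0, 0]]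

def EB11_base1 : List Row :=
   [(false, [1, 1, 1, 0, 0, 0, 0, 0, 0, 0, 0, 0, 0, 0, 0, 0, 0, 0, 0, 0, 0, 0, 0, 0, 0, 0, 0, 0, 0, 0, 0, 0, 0, -1, 0], 1),
    (false, [0, 0, 0, 1, 1, 1, 1, 1, 0, 0, 0, 0, 0, 0, 0, 0, 0, 0, 0, 0, 0, 0, 0, 0, 0, 0, 0, 0, 0, 0, 0, 0, 0, -1, 0], 0),
    (false, [0, 0, 0, 0, 0, 0, 0, 0, 1, 1, 1, 0, 0, 0, 0, 0, 0, 0, 0, 0, 0, 0, 0, 0, 0, 0, 0, 0, 0, 0, 0, 0, 0, -1, 0], 0),
    (false, [0, 0, 0, 0, 0, 0, 0, 0, 0, 0, 0, 1, 1, 1, 0, 0, 0, 0, 0, 0, 0, 0, 0, 0, 0, 0, 0, 0, 0, 0, 0, 0, 0, 0, -1], 0),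
    (false, [0, 0, 0, 0, 0, 0, 0, 0, 0, 0, 0, 0, 0, 0, 1, 1, 1, 1, 1, 0, 0, 0, 0, 0, 0, 0, 0, 0, 0, 0, 0, 0, 0, 0, -3], 0),
    (false, [0, 0, 0, 0, 0, 0, 0, 0, 0, 0, 0, 0, 0, 0, 0, 0, 0, 0, 0, 1, 1, 1, 1, 0, 0, 0, 0, 0, 0, 0, 0, 0, 0, 0, 0], 1),
    (false, [0, 0, 0, 0, 0, 0, 0, 0, 0, 0, 0, 0, 0, 0, 0, 0, 0, 0, 0, 0, 0, 0, 0, 1, 1, 1, 1, 0, 0, 0, 0, 0, 0, 0, 0], 1),
    (false, [0, 1, 4, 4, 1, 0, 1, 4, 0, 1, 4, 0, 1, 4, 4, 1, 0, 1, 4, 4, 1, 0, 1, 1, 0, 1, 4, 0, 1, 4, 0, 0, 0, -8, -4], 5),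
    (false, [4, 1, 0, 4, 1, 0, 1, 4, 4, 1, 0, 4, 1, 0, 4, 1, 0, 1, 4, 1, 0, 1, 4, 4, 1, 0, 1, 0, 1, 4, 0, 0, 0, -8, -4], 5),
    (false, [-1, -1, -1, 1, 1, 1, 1, 1, -1, -1, -1, -1, -1, -1, 1, 1, 1, 1, 1, 0, 0, 0, 0, 0, 0, 0, 0, 1, 1, 1, -1, 0, 0, 0, 0], 0),
    (false, [1, 1, 1, -1, -1, -1, -1, -1, -1, -1, -1, 0, 0, 0, 0, 0, 0, 0, 0, -1, -1, -1, -1, 0, 0, 0, 0, 1, 1, 1, 0, -1, 0, 0, 0], 0),
    (false, [-1, 0, 1, -1, 0, 1, 0, -1, -1, 0, 1, -1, 0, 1, -1, 0, 1, 0, -1, 0, 1, 0, -1, -1, 0, 1, 0, 1, 0, -1, 0, 0, -1, 0, 0], 0),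
    (true, [-1, -1, -1, -1, -1, -1, -1, -1, 1, 1, 1, 0, 0, 0, 0, 0, 0, 0, 0, 0, 0, 0, 0, 1, 1, 1, 1, 1, 1, 1, 0, 0, 0, 0, 0], 0),
    (true, [1, 0, -1, -1, 0, 1, 0, -1, 1, 0, -1, 1, 0, -1, -1, 0, 1, 0, -1, -1, 0, 1, 0, 0, 1, 0, -1, 1, 0, -1, 0, 0, 0, 0, 0], 0),
    (true, [4, 1, 0, 16, 9, 4, 1, 0, 0, 1, 4, 1, 0, 1, 9, 4, 1, 0, 1, 9, 4, 1, 0, 1, 0, 1, 4, 0, 1, 4, 0, 0, 0, 0, 0], 1),
    (true, [0, 0, 0, 0, 0, 0, 0, 0, 0, 0, 0, 0, 0, 0, 0, 0, 0, 0, 0, 0, 0, 0, 0, 0, 0, 0, 0, 0, 0, 0, 0, 0, 0, 1, 0], 0),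
    (true, [0, 0, 0, 0, 0, 0, 0, 0, 0, 0, 0, 0, 0, 0, 0, 0, 0, 0, 0, 0, 0, 0, 0, 0, 0, 0, 0, 0, 0, 0, 0, 0, 0, 0, 1], 0)]

def EB11_1_0_0_tree : Tree :=
  (.br 8 0
  (.br 24 0
   (.br 0 0
    (.br 23 0
     (.br 1 0
      (.br 15 0
       (.br 16 0
        (.br 25 0
         (.br 17 0
          (.fk [(0, 84), (1, -14), (2, 10), (3, -35), (4, 25), (5, -11), (6, 64), (7, -21), (8, 8), (17, 3)])
          (.br 22 0
           (.br 11 0
            (.fk [(0, 3), (1, -3), (5, -1), (6, 3), (7, -1), (8, 1)])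
            (.br 21 0
             (.br 27 0
              (.br 9 0
               (.fk [(0, 16), (1, -12), (2, 12), (3, -4), (4, 4), (5, -3), (6, 11), (7, -3), (8, -1), (10, 2), (13, 6), (17, 2)])
               (.br 28 0
                (.fk [(0, 54), (1, -40), (2, 114), (3, -62), (4, 42), (5, 54), (6, 54), (7, -51), (8, 9), (10, 161), (11, 54), (12, 11), (13, 54), (17, 26)])
                (.mv 19)))
              (.br 20 0
               (.br 19 0
                (.fk [(5, 1)])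
                (.mv 44))
               (.mv 60)))
             (.mv 3)))
           (.mv 6)))
         (.br 9 0
          (.br 11 0
           (.fk [(0, 156), (1, -164), (2, 120), (3, 23), (4, 11), (5, -25), (6, -126), (7, -39), (8, 16), (17, 9)])
           (.br 21 0
            (.br 4 0
             (.fk [(0, 12), (1, -4), (2, 8), (3, -1), (4, 3), (5, -1), (6, -10), (7, -3), (17, 1)])
             (.mv 33))
            (.mv 3)))
          (.mv 11)))
        (.br 11 0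
         (.fk [(0, 4), (1, -4), (5, -3), (6, 1), (7, -1), (8, 1)])
         (.mv 13)))
       (.br 22 0
        (.br 11 0
         (.fk [(0, 1), (1, -1), (5, -1), (6, 1), (7, -1), (8, 1)])
         (.br 21 0
          (.br 20 0
           (.br 16 0
            (.br 17 0
             (.br 25 0
              (.br 9 0
               (.br 10 0
                (.fk [(0, 12), (2, 20), (3, 4), (4, 4), (5, 13), (6, 13), (7, -3), (8, -1)])
                (.br 26 0
                 (.fk [(6, 1)])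
                 (.mv 15)))
               (.br 27 0
                (.br 28 0
                 (.fk [(0, 6), (2, -6), (5, 6), (6, -2), (7, -1), (8, 1), (10, 1), (11, 6), (12, 7), (13, 2)])
                 (.mv 19))
                (.br 26 0
                 (.fk [(6, 1)])
                 (.mv 30))))
              (.br 9 0
               (.br 5 0
                (.br 6 0
                 (.br 4 0
                  (.fk [(0, 12), (1, 16), (2, 4), (3, 4), (4, 4), (5, 13), (6, -10), (7, -3), (8, -1)])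
                  (.mv 33))
                 (.br 4 0
                  (.br 19 0
                   (.fk [(5, 1), (6, -1)])
                   (.mv 87))
                  (.mv 33)))
                (.br 19 0
                 (.fk [(5, 1), (6, -1)])
                 (.mv 135)))
               (.mv 11)))
             (.br 25 0
              (.br 19 0
               (.fk [(5, 1)])
               (.mv 44))
              (.mv 41)))
            (.mv 13))
           (.mv 7))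
          (.mv 3)))
        (.br 25 0
         (.br 16 0
          (.br 17 0
           (.br 2 0
            (.fk [(0, 1), (1, -1), (5, -1)])
            (.br 6 0
             (.br 26 0
              (.fk [(5, -1), (6, 1)])
              (.mv 123))
             (.mv 81)))
           (.mv 6))
          (.br 11 0
           (.fk [(0, 3), (1, -3), (5, -6), (6, 3), (7, -1), (8, 1)])
           (.mv 13)))
         (.mv 56))))
      (.br 6 0
       (.br 22 0
        (.br 25 0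
         (.br 16 0
          (.br 18 0
           (.br 17 0
            (.br 21 0
             (.br 27 0
              (.br 15 0
               (.br 28 0
                (.fk [(0, 10), (1, -4), (2, -14), (3, -43), (4, 13), (5, 2), (6, 10), (7, -9), (8, 10), (11, 7), (12, 13), (13, 10)])
                (.br 9 0
                 (.fk [(0, -4), (1, -6), (2, 18), (3, -29), (4, 11), (5, 6), (6, 6), (7, -7), (8, 6), (11, 1), (12, 1), (13, 6)])
                 (.mv 19)))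
               (.br 20 0
                (.br 14 0
                 (.br 28 0
                  (.fk [(0, 2), (2, -2), (5, 2), (6, 1), (7, -2), (8, 2), (10, 5), (11, 10), (12, 7), (13, 2)])
                  (.br 9 0
                   (.br 10 0
                    (.fk [(0, -1), (1, -6), (2, 7), (5, 1), (6, 1), (7, -1), (8, 1), (11, 5), (13, 1)])
                    (.br 26 0
                     (.fk [(6, 1)])
                     (.mv 15)))
                   (.mv 19)))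
                 (.br 19 0
                  (.fk [(5, 1)])
                  (.mv 5)))
                (.mv 7)))
              (.br 15 0
               (.br 9 0
                (.fk [(0, 1), (1, -5), (2, 12), (3, -8), (4, 4), (5, 3), (6, 10), (7, -3), (8, 2)])
                (.br 26 0
                 (.fk [(6, 1)])
                 (.mv 30)))
               (.br 20 0
                (.br 14 0
                 (.br 29 0
                  (.br 28 0
                   (.br 26 0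
                    (.fk [(6, 1)])
                    (.br 9 0
                     (.br 10 0
                      (.fk [(0, -9), (1, -9), (2, 50), (3, 4), (4, 4), (5, 13), (7, -3), (8, -1)])
                      (.mv 15))
                     (.mv 30)))
                   (.br 9 0
                    (.br 11 0
                     (.fk [(0, -1), (1, -1), (2, 2), (5, 1), (6, 1), (7, -1), (8, 1)])
                     (.br 19 0
                      (.fk [(5, 1)])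
                      (.mv 23)))
                    (.mv 19)))
                  (.br 26 0
                   (.fk [(6, 1)])
                   (.mv 22)))
                 (.br 19 0
                  (.fk [(5, 1)])
                  (.mv 5)))
                (.mv 7))))
             (.br 11 0
              (.fk [(5, -4), (6, 3), (7, -1), (8, 1)])
              (.mv 3)))
            (.br 21 0
             (.br 7 0
              (.br 17 1
               (.br 12 0
                (.br 27 0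
                 (.br 28 0
                  (.br 15 0
                   (.fk [(0, 21), (1, -24), (2, -45), (3, -63), (4, 13), (5, -27), (6, 21), (7, -15), (8, 21), (11, 42), (12, 39), (13, 21)])
                   (.br 20 0
                    (.fk [(0, 2), (2, -2), (5, 2), (6, 1), (7, -2), (8, 2), (10, 5), (11, 10), (12, 7), (13, 2)])
                    (.mv 7)))
                  (.br 15 0
                   (.br 9 0
                    (.fk [(1, -2), (2, 2), (3, -6), (4, 2), (5, 1), (6, 5), (7, -1), (8, 1), (13, 2)])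
                    (.mv 19))
                   (.br 20 0
                    (.br 9 0
                     (.br 10 0
                      (.fk [(0, -1), (1, -6), (2, 7), (5, 1), (6, 1), (7, -1), (8, 1), (11, 5), (13, 1)])
                      (.br 26 0
                       (.fk [(6, 1)])
                       (.mv 15)))
                     (.mv 19))
                    (.mv 7))))
                 (.br 9 0
                  (.br 15 0
                   (.fk [(0, 1), (1, -5), (2, 12), (3, -8), (4, 4), (5, 3), (6, 10), (7, -3), (8, 2)])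
                   (.br 20 0
                    (.br 11 0
                     (.fk [(1, -24), (2, 24), (3, 27), (4, -9), (5, 6), (6, 6), (7, -7), (8, 6), (17, 1)])
                     (.br 19 0
                      (.fk [(5, 1)])
                      (.mv 44)))
                    (.mv 7)))
                  (.br 26 0
                   (.fk [(6, 1)])
                   (.mv 30))))
                (.mv 21))
               (.br 20 0
                (.br 9 0
                 (.br 11 0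
                  (.fk [(1, -1), (2, 1), (5, 1), (6, 1), (7, -1), (8, 1)])
                  (.br 19 0
                   (.fk [(5, 1)])
                   (.mv 44)))
                 (.mv 104))
                (.mv 85)))
              (.br 26 0
               (.fk [(6, 1)])
               (.mv 77)))
             (.mv 34)))
           (.br 21 0
            (.br 20 0
             (.br 17 0
              (.br 5 0
               (.br 13 0
                (.br 27 0
                 (.fk [(5, 1), (6, 1), (7, -1), (8, 1), (11, 5), (13, 1)])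
                 (.br 9 0
                  (.br 10 0
                   (.fk [(0, -9), (1, -13), (2, 54), (3, 4), (4, 4), (5, 13), (6, 13), (7, -3), (8, -1)])
                   (.br 26 0
                    (.fk [(6, 1)])
                    (.mv 15)))
                  (.br 26 0
                   (.fk [(6, 1)])
                   (.mv 30))))
                (.mv 2))
               (.br 26 0
                (.fk [(6, 1)])
                (.mv 96)))
              (.br 19 0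
               (.fk [(5, 1)])
               (.mv 73)))
             (.mv 24))
            (.mv 51)))
          (.br 21 0
           (.br 11 0
            (.fk [(5, 1), (6, 1), (7, -1), (8, 1)])
            (.mv 13))
           (.mv 10)))
         (.br 21 0
          (.br 9 0
           (.br 20 0
            (.br 28 0
             (.br 7 0
              (.br 16 0
               (.br 17 0
                (.br 19 0
                 (.fk [(5, 1), (6, -1)])
                 (.br 14 0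
                  (.br 18 0
                   (.br 11 0
                    (.fk [(1, -4), (2, 4), (5, 1), (7, -1), (8, 1)])
                    (.br 4 0
                     (.br 29 0
                      (.br 5 0
                       (.br 15 0
                        (.fk [(0, -3), (1, -12), (2, -9), (3, -60), (4, 16), (5, 12), (6, -3), (7, -9), (8, 12)])
                        (.br 26 0
                         (.br 15 1
                          (.fk [(0, -3), (1, -12), (2, -9), (3, -60), (4, 16), (5, 12), (6, -3), (7, -9), (8, 12)])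
                          (.br 15 2
                           (.fk [(0, -3), (1, -12), (2, -9), (3, -60), (4, 16), (5, 12), (6, -3), (7, -9), (8, 12)])
                           (.br 30 0
                            (.fk [(0, -40), (1, 13), (2, -45), (3, -87), (4, 17), (5, 5), (6, -9), (7, 4), (8, 5), (9, -31), (13, 31)])
                            (.mv 136))))
                         (.mv 93)))
                       (.mv 118))
                      (.mv 117))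
                     (.mv 33)))
                   (.mv 119))
                  (.mv 5)))
                (.mv 57))
               (.br 11 0
                (.fk [(0, -1), (1, -1), (2, 2), (5, 1), (7, -1), (8, 1)])
                (.mv 13)))
              (.mv 49))
             (.mv 17))
            (.br 18 0
             (.br 17 0
              (.br 29 0
               (.br 28 0
                (.br 15 0
                 (.br 7 0
                  (.br 14 0
                   (.fk [(0, -2), (1, -4), (2, -2), (3, -4), (5, -1), (6, -1), (8, 1)])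
                   (.br 19 0
                    (.br 11 0
                     (.fk [(7, -1), (8, 1)])
                     (.br 16 0
                      (.fk [(0, 8), (2, 56), (3, -31), (4, 21), (5, 7), (6, 7), (7, -14), (8, 6)])
                      (.mv 13)))
                    (.mv 5)))
                  (.mv 49))
                 (.mv 7))
                (.mv 17))
               (.mv 121))
              (.mv 57))
             (.mv 24)))
           (.mv 11))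
          (.mv 52)))
        (.br 17 0
         (.br 12 0
          (.br 15 0
           (.br 16 0
            (.br 26 0
             (.br 27 0
              (.br 28 0
               (.fk [(0, 1), (1, -2), (2, 1), (5, -1), (9, 1), (13, 1)])
               (.br 25 0
                (.fk [(5, -1), (6, 1)])
                (.mv 17)))
              (.br 25 0
               (.fk [(5, -1), (6, 1)])
               (.mv 71)))
             (.br 10 0
              (.br 29 0
               (.br 27 0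
                (.br 28 0
                 (.fk [(0, 7), (1, -27), (2, 4), (3, 7), (4, -5), (5, 7), (6, -28), (7, 1), (8, 1), (9, 11), (10, 15), (11, 7), (12, 20), (13, 7)])
                 (.br 9 0
                  (.fk [(0, -36), (1, -64), (2, 228), (3, -8), (4, 24), (5, -17), (6, 13), (7, -23), (8, -3), (13, 10), (17, 10)])
                  (.mv 19)))
                (.br 9 0
                 (.fk [(0, -48), (1, -92), (2, 364), (3, 1), (4, 37), (5, -21), (6, 24), (7, -39), (8, -4), (17, 15)])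
                 (.mv 30)))
               (.mv 22))
              (.mv 15)))
            (.mv 46))
           (.mv 26))
          (.mv 9))
         (.mv 6)))
       (.mv 18)))
     (.br 9 0
      (.br 25 0
       (.br 28 0
        (.br 21 0
         (.br 16 0
          (.br 20 0
           (.br 1 0
            (.br 22 0
             (.br 17 0
              (.br 15 0
               (.fk [(0, 10), (1, -14), (2, 12), (3, -8), (4, 4), (5, 10), (6, -15), (7, -3), (8, 2)])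
               (.br 10 0
                (.fk [(0, 12), (2, 20), (3, 4), (4, 4), (5, 13), (6, -6), (7, -3), (8, -1)])
                (.br 19 0
                 (.fk [(5, 1), (6, -1)])
                 (.mv 62))))
              (.br 11 0
               (.fk [(0, 3), (1, -7), (2, 4), (5, 3), (6, -6), (7, -1), (8, 1)])
               (.br 19 0
                (.fk [(5, 1), (6, -1)])
                (.mv 44))))
             (.br 17 0
              (.br 15 0
               (.fk [(0, 228), (1, -100), (2, 160), (3, -33), (4, 59), (5, -187), (6, -204), (7, -57), (8, 4), (17, 17)])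
               (.br 2 0
                (.fk [(0, 28), (2, 4), (3, 4), (4, 4), (5, -15), (6, -15), (7, -1), (8, -3)])
                (.mv 124)))
              (.mv 6)))
            (.br 6 0
             (.br 5 0
              (.br 27 0
               (.fk [(0, -12), (1, 30), (2, 14), (3, 4), (4, 4), (5, 36), (6, 5), (7, -2), (8, -2), (10, 21), (11, 5), (12, 5), (13, 5)])
               (.br 26 0
                (.br 22 0
                 (.br 17 0
                  (.br 15 0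
                   (.fk [(0, 2), (1, 2), (2, 12), (3, -16), (4, 8), (5, 11), (6, -12), (7, -3), (8, 1)])
                   (.br 19 0
                    (.fk [(5, 1), (6, -1)])
                    (.mv 101)))
                  (.br 10 0
                   (.fk [(0, -3), (1, -7), (2, 42), (3, 4), (4, 4), (5, 7), (6, 6), (7, -1), (8, -3)])
                   (.mv 99)))
                 (.br 10 0
                  (.fk [(0, -5), (1, -13), (2, 82), (3, 8), (4, 8), (5, 13), (6, 13), (7, -2), (8, -6)])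
                  (.mv 129)))
                (.mv 48)))
              (.mv 58))
             (.mv 18)))
           (.br 1 0
            (.br 15 0
             (.br 17 0
              (.fk [(0, 228), (1, -100), (2, 160), (3, -33), (4, 59), (5, -239), (6, -204), (7, -57), (8, 4), (17, 17)])
              (.mv 35))
             (.mv 7))
            (.mv 25)))
          (.br 11 0
           (.br 1 0
            (.br 12 0
             (.fk [(0, 32), (1, -28), (2, 12), (3, 29), (4, -7), (5, -4), (6, -39), (7, -8), (8, 3), (17, 3)])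
             (.mv 55))
            (.mv 47))
           (.mv 13)))
         (.br 11 0
          (.br 16 0
           (.br 27 0
            (.br 15 0
             (.fk [(0, -2), (1, -22), (2, -8), (3, -4), (4, -4), (5, -21), (6, -11), (7, 1), (8, 2), (9, 1), (11, 9), (12, 1), (13, 9), (17, 1)])
             (.br 2 0
              (.br 17 0
               (.br 1 0
                (.fk [(0, 19), (1, -26), (2, 39), (3, 4), (4, 4), (5, 19), (6, 13), (7, -1), (8, -3), (10, 54), (11, 19), (13, 19)])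
                (.br 13 0
                 (.fk [(0, -8), (1, -32), (2, -24), (3, -8), (4, -8), (5, -33), (6, -11), (7, 7), (8, 1), (11, 14), (13, 18)])
                 (.mv 95)))
               (.br 1 0
                (.fk [(0, 13), (1, -27), (2, 46), (3, 4), (4, 4), (5, 19), (6, 13), (7, -1), (8, -3), (10, 42), (11, 13), (13, 13)])
                (.mv 34)))
              (.mv 120)))
            (.br 1 0
             (.br 12 0
              (.fk [(0, 32), (1, -36), (2, 20), (3, 29), (4, -7), (5, -38), (6, -39), (7, -8), (8, 3), (17, 3)])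
              (.mv 111))
             (.mv 115)))
           (.mv 10))
          (.mv 3)))
        (.mv 16))
       (.mv 12))
      (.mv 4)))
    (.br 9 0
     (.br 5 0
      (.br 23 0
       (.br 10 0
        (.br 16 0
         (.br 17 0
          (.br 15 0
           (.br 19 0
            (.br 20 0
             (.fk [(0, -4), (1, -16), (2, 36), (3, -16), (4, 8), (5, 3), (6, -1), (7, 1), (8, -3)])
             (.br 26 0
              (.fk [(0, -8), (1, -20), (2, 36), (3, -8), (4, 4), (5, -22), (6, -2), (7, 2), (8, -3)])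
              (.mv 28)))
            (.br 14 0
             (.br 25 0
              (.fk [(0, 7), (1, -13), (2, 62), (3, -56), (4, 28), (6, 13), (7, -2), (8, -5)])
              (.br 31 0
               (.fk [(0, 4), (1, -12), (2, 16), (3, 4), (5, -4), (6, -3), (7, -1), (9, 4), (10, -4)])
               (.br 32 0
                (.fk [(1, 8), (2, 32), (3, 5), (4, 5), (5, 9), (6, 4), (7, -1), (8, -4), (10, 5), (11, -7)])
                (.mv 126))))
             (.mv 5)))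
           (.br 20 0
            (.br 25 0
             (.fk [(0, 4), (1, -8), (2, 36), (3, 4), (4, 4), (5, 3), (6, 7), (7, -1), (8, -3)])
             (.br 21 0
              (.br 28 0
               (.br 6 0
                (.br 22 0
                 (.br 19 0
                  (.fk [(0, -1), (1, -1), (2, 2), (5, 1), (6, -1)])
                  (.br 14 0
                   (.br 29 0
                    (.br 7 0
                     (.br 31 0
                      (.br 12 0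
                       (.fk [(0, 21), (1, -27), (2, 150), (3, 39), (4, 11), (5, 21), (6, -12), (7, -9), (8, -9), (9, 3), (10, -3)])
                       (.br 15 1
                        (.fk [(0, 20), (1, -72), (2, 116), (3, 14), (4, 6), (5, -5), (6, -9), (7, -11), (8, 3), (9, 26), (10, -26)])
                        (.br 30 0
                         (.fk [(0, 17), (1, -11), (2, 178), (3, -28), (4, 40), (5, 17), (6, -4), (7, -13), (8, -10), (9, -34), (10, -28)])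
                         (.mv 70))))
                      (.br 32 0
                       (.fk [(0, -9), (1, 14), (2, 59), (3, 8), (4, 8), (5, 11), (6, 5), (7, 1), (8, -9), (10, 17), (11, -17)])
                       (.mv 126)))
                     (.mv 132))
                    (.mv 102))
                   (.mv 5)))
                 (.mv 56))
                (.mv 43))
               (.mv 17))
              (.mv 98)))
            (.mv 7)))
          (.br 26 0
           (.br 20 0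
            (.br 22 0
             (.br 12 0
              (.br 25 0
               (.fk [(0, -1), (1, -1), (2, 2), (6, 1)])
               (.br 21 0
                (.fk [(0, -3), (1, -15), (2, 66), (3, 12), (4, 4), (5, 15), (6, -12), (7, -3), (8, -3)])
                (.mv 69)))
              (.mv 21))
             (.mv 6))
            (.mv 38))
           (.mv 42)))
         (.br 21 0
          (.br 11 0
           (.br 22 0
            (.br 17 0
             (.br 18 0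
              (.br 25 0
               (.br 20 0
                (.fk [(0, -7), (1, -3), (2, 10), (5, 3), (6, 3), (7, -1), (8, 1)])
                (.br 26 0
                 (.fk [(0, -1), (1, -1), (2, 2), (5, -1), (6, 1)])
                 (.mv 28)))
               (.br 28 0
                (.br 6 0
                 (.br 20 0
                  (.br 19 0
                   (.fk [(0, -1), (1, -1), (2, 2), (5, 1), (6, -1)])
                   (.br 14 0
                    (.br 26 0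
                     (.br 7 0
                      (.br 32 0
                       (.fk [(0, -35), (1, -11), (2, 78), (3, 4), (4, 4), (5, 11), (6, 11), (7, -6), (8, 2), (11, -16)])
                       (.br 31 0
                        (.fk [(0, 4), (1, -46), (2, 2), (3, -5), (4, -5), (5, -35), (6, -6), (7, 1), (8, 4), (10, -23), (11, 1)])
                        (.mv 126)))
                      (.mv 133))
                     (.mv 90))
                    (.mv 5)))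
                  (.br 32 0
                   (.fk [(0, -7), (1, -3), (2, 50), (3, 5), (4, 5), (5, 8), (6, 8), (7, -1), (8, -4), (11, -15)])
                   (.br 32 1
                    (.fk [(1, -4), (2, 20), (3, 2), (4, 2), (5, -1), (6, -1), (7, 1), (8, -3), (11, -6)])
                    (.mv 138))))
                 (.mv 43))
                (.mv 17)))
              (.br 13 0
               (.br 19 0
                (.br 20 0
                 (.fk [(0, -4), (1, -8), (2, 12), (5, 8), (6, -3), (7, 1), (8, -1)])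
                 (.br 26 0
                  (.fk [(0, -4), (1, -8), (2, 12), (5, -9), (6, -1), (7, 1), (8, -1)])
                  (.mv 28)))
                (.mv 68))
               (.mv 2)))
             (.br 20 0
              (.br 12 0
               (.fk [(0, -21), (1, -9), (2, 30), (3, 12), (4, -4), (5, 9), (6, 3), (7, -3), (8, 3)])
               (.mv 21))
              (.mv 38)))
            (.br 25 0
             (.br 17 0
              (.br 12 0
               (.br 13 0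
                (.fk [(1, -16), (2, 72), (3, 76), (4, -16), (5, 3), (6, 16), (7, -3), (8, -4)])
                (.br 26 0
                 (.fk [(0, -1), (1, -1), (2, 2), (5, -1), (6, 1)])
                 (.mv 131)))
               (.mv 9))
              (.mv 6))
             (.mv 75)))
           (.mv 13))
          (.mv 10)))
        (.br 26 0
         (.br 6 0
          (.br 27 0
           (.br 28 0
            (.br 29 0
             (.fk [(0, 1), (1, 2), (2, -3), (5, 1), (6, -3), (10, 1), (12, 3)])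
             (.mv 14))
            (.br 25 0
             (.fk [(6, 1)])
             (.mv 17)))
           (.br 7 0
            (.br 17 0
             (.br 29 0
              (.br 4 0
               (.br 16 0
                (.br 32 0
                 (.br 25 0
                  (.fk [(6, 1)])
                  (.br 28 0
                   (.br 1 0
                    (.br 19 0
                     (.fk [(0, 18), (1, 80), (2, 62), (3, 20), (4, 20), (5, 66), (6, 18), (7, 5), (8, -25), (10, 41), (11, -60), (12, 19)])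
                     (.br 14 0
                      (.br 15 0
                       (.fk [(0, 32), (1, 40), (2, 144), (3, 54), (4, 18), (5, 41), (6, 32), (7, -8), (8, -19), (9, 34), (10, 22), (11, -56)])
                       (.br 20 0
                        (.br 22 0
                         (.br 21 0
                          (.br 12 0
                           (.fk [(0, 2), (1, 6), (2, 8), (3, 5), (4, 1), (5, 3), (6, 2), (8, -2), (9, 1), (10, 3), (11, -4)])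
                           (.br 15 1
                            (.fk [(0, 34), (1, 24), (2, 150), (3, 32), (4, 24), (5, 34), (6, 34), (7, -7), (8, -19), (9, 40), (11, -61), (13, 21)])
                            (.br 30 0
                             (.fk [(0, 106), (1, 120), (2, -18), (3, 14), (4, 30), (5, 4), (6, 4), (7, 17), (8, -43), (9, -8), (11, -87), (12, 62), (13, 33)])
                             (.mv 70))))
                          (.mv 63))
                         (.mv 56))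
                        (.mv 7)))
                      (.mv 5)))
                    (.br 21 0
                     (.br 22 0
                      (.br 18 0
                       (.br 19 0
                        (.fk [(5, 1), (7, 1), (8, -1), (11, -2), (13, 2)])
                        (.br 14 0
                         (.br 15 0
                          (.fk [(0, 4), (1, -26), (2, 6), (3, 4), (4, -4), (5, -14), (6, 3), (7, 3), (8, -1), (9, 9), (11, -9)])
                          (.br 20 0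
                           (.br 15 1
                            (.fk [(0, 72), (1, -60), (2, 108), (3, 72), (4, -4), (5, 3), (6, 54), (7, 3), (8, -18), (9, 60), (11, -60)])
                            (.br 15 2
                             (.fk [(0, -12), (1, -12), (3, -6), (4, -2), (5, -9), (7, 3), (10, 6), (11, -6)])
                             (.br 11 0
                              (.fk [(0, -8), (1, -4), (2, 4), (3, -1), (4, -1), (5, -3), (6, 2), (7, 2), (8, -1), (10, 6), (11, -7), (12, 1)])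
                              (.br 30 0
                               (.fk [(0, -18), (1, 2), (3, -11), (4, 1), (5, -1), (7, 2), (9, -5), (10, 9), (11, -4)])
                               (.mv 136)))))
                           (.mv 7)))
                         (.mv 5)))
                       (.mv 122))
                      (.mv 71))
                     (.mv 52)))
                   (.mv 17)))
                 (.br 21 0
                  (.br 22 0
                   (.br 20 0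
                    (.br 19 0
                     (.fk [(5, 1)])
                     (.br 25 0
                      (.fk [(5, -1), (6, 1)])
                      (.br 31 0
                       (.fk [(0, 4), (2, -4), (5, -5), (6, -7), (7, -1), (8, 1), (10, -4), (11, 4)])
                       (.mv 126))))
                    (.br 15 0
                     (.br 25 0
                      (.fk [(5, -1), (6, 1)])
                      (.br 18 0
                       (.br 28 0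
                        (.br 32 1
                         (.fk [(0, 56), (1, 8), (2, 96), (3, 56), (4, 8), (5, 21), (6, 21), (7, -6), (8, -14), (9, 36), (11, -36)])
                         (.br 14 0
                          (.fk [(0, -12), (1, -24), (2, -12), (3, -12), (4, -4), (5, -15), (6, -7), (7, 3), (8, 3)])
                          (.mv 142)))
                        (.mv 17))
                       (.mv 80)))
                     (.mv 7)))
                   (.br 31 0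
                    (.fk [(0, 4), (2, -4), (5, -7), (6, -3), (7, -1), (8, 1), (10, -4), (11, 4)])
                    (.mv 140)))
                  (.br 18 0
                   (.br 28 0
                    (.br 11 0
                     (.br 21 1
                      (.br 25 0
                       (.fk [(5, -1), (6, 1)])
                       (.br 14 0
                        (.fk [(0, -12), (1, -16), (2, -4), (3, -4), (4, -4), (5, -13), (6, -11), (7, 1), (8, 3)])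
                        (.mv 31)))
                      (.mv 61))
                     (.mv 3))
                    (.br 25 0
                     (.fk [(5, -1), (6, 1)])
                     (.mv 17)))
                   (.mv 134))))
                (.br 11 0
                 (.br 22 0
                  (.br 21 0
                   (.br 18 0
                    (.br 25 0
                     (.fk [(6, 1)])
                     (.br 28 0
                      (.br 19 0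
                       (.br 20 0
                        (.fk [(5, 1), (6, -1)])
                        (.br 15 0
                         (.br 32 0
                          (.fk [(0, 14), (1, 10), (2, 8), (3, 7), (4, 3), (5, 4), (6, 4), (7, 4), (8, -8), (9, 3), (11, -19), (12, 7), (13, 9)])
                          (.br 32 1
                           (.fk [(0, 48), (1, 40), (2, 16), (3, 19), (4, 11), (5, 18), (6, -11), (7, -1), (8, -12), (9, 6), (11, -35), (12, 29)])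
                           (.mv 138)))
                         (.mv 7)))
                       (.br 14 0
                        (.fk [(0, -12), (1, -16), (2, -4), (3, -4), (4, -4), (5, -11), (6, -5), (7, 1), (8, 3)])
                        (.mv 5)))
                      (.mv 17)))
                    (.mv 107))
                   (.mv 10))
                  (.br 25 0
                   (.fk [(5, -1), (6, 1)])
                   (.mv 75)))
                 (.mv 13)))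
               (.br 22 0
                (.br 21 0
                 (.br 25 0
                  (.fk [(6, 1)])
                  (.br 18 0
                   (.br 28 0
                    (.br 11 0
                     (.br 14 0
                      (.fk [(0, -12), (1, -16), (2, -4), (3, -4), (4, -4), (5, -7), (6, -13), (7, 1), (8, 3)])
                      (.br 19 0
                       (.br 20 0
                        (.fk [(5, 1), (6, -1)])
                        (.br 15 0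
                         (.br 32 0
                          (.fk [(0, 4), (1, 4), (3, 1), (4, 1), (5, 3), (7, 3), (8, -4), (11, -9), (12, 3), (13, 6)])
                          (.br 32 1
                           (.br 31 0
                            (.br 25 1
                             (.br 14 1
                              (.fk [(0, 6), (1, -16), (2, 2), (3, 5), (4, -3), (5, -7), (6, -4), (7, 1), (9, 6), (10, -3), (11, -3)])
                              (.br 12 0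
                               (.fk [(0, 2), (1, -4), (2, -6), (3, 5), (4, -3), (5, -10), (6, -7), (7, -2), (8, 3), (10, -7), (11, 3), (12, 4)])
                               (.br 30 0
                                (.fk [(0, 2), (1, 2), (2, -28), (3, -12), (5, -15), (6, -15), (7, 1), (8, 2), (9, -7), (10, -8), (11, 4), (12, 8), (13, 3)])
                                (.mv 146))))
                             (.fk [(0, 2), (2, -2), (5, -3), (6, -3), (10, -1), (12, 1)]))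
                            (.mv 143))
                           (.mv 142)))
                         (.mv 7)))
                       (.mv 5)))
                     (.mv 33))
                    (.mv 17))
                   (.mv 137)))
                 (.br 25 0
                  (.fk [(5, -1), (6, 1)])
                  (.mv 65)))
                (.br 25 0
                 (.fk [(5, -1), (6, 1)])
                 (.mv 127))))
              (.mv 14))
             (.br 22 0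
              (.br 17 1
               (.br 21 0
                (.br 20 0
                 (.br 19 0
                  (.fk [(5, 1)])
                  (.br 25 0
                   (.fk [(5, -1), (6, 1)])
                   (.mv 88)))
                 (.mv 38))
                (.br 25 0
                 (.fk [(5, -1), (6, 1)])
                 (.mv 69)))
               (.mv 110))
              (.mv 6)))
            (.mv 72)))
          (.br 25 0
           (.fk [(6, 1)])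
           (.mv 43)))
         (.mv 15)))
       (.br 25 0
        (.br 28 0
         (.br 2 0
          (.br 1 0
           (.br 13 0
            (.fk [(0, 4), (2, -4), (5, -3), (6, -3), (7, 1), (8, -1)])
            (.br 18 0
             (.br 17 0
              (.br 6 0
               (.br 22 0
                (.br 16 0
                 (.br 15 0
                  (.br 14 0
                   (.fk [(0, 12), (2, -12), (3, -30), (4, 10), (5, -9), (6, -9), (7, 3), (8, -3)])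
                   (.br 19 0
                    (.br 21 0
                     (.br 4 0
                      (.fk [(0, 12), (1, 20), (2, 8), (3, -4), (4, 8), (5, 2), (6, 2), (7, -2), (8, -3)])
                      (.br 20 0
                       (.fk [(5, 1), (6, -1)])
                       (.mv 67)))
                     (.mv 79))
                    (.mv 5)))
                  (.br 19 0
                   (.br 20 0
                    (.br 21 0
                     (.fk [(5, 1), (6, -1)])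
                     (.br 27 0
                      (.fk [(0, 3), (1, 19), (2, 10), (3, 4), (4, 4), (5, 3), (6, 7), (7, -1), (8, -3), (10, 9), (11, 3), (12, 6), (13, 6)])
                      (.mv 66)))
                    (.mv 7))
                   (.mv 106)))
                 (.br 21 0
                  (.br 20 0
                   (.br 19 0
                    (.fk [(5, 1), (6, -1)])
                    (.mv 27))
                   (.mv 83))
                  (.mv 10)))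
                (.br 12 0
                 (.br 15 0
                  (.br 27 0
                   (.br 10 0
                    (.br 16 0
                     (.fk [(0, 3), (1, -15), (2, 20), (3, 1), (4, 1), (5, 3), (6, 3), (7, 3), (8, -4), (9, 8), (10, 10), (11, 3), (13, 11)])
                     (.br 32 0
                      (.fk [(0, 62), (1, -22), (2, 416), (3, 99), (4, 43), (5, 62), (6, 39), (7, 6), (8, -63), (9, 40), (10, 23), (11, -145)])
                      (.br 31 0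
                       (.br 21 0
                        (.br 11 0
                         (.br 19 0
                          (.br 26 0
                           (.br 20 0
                            (.br 23 1
                             (.br 7 0
                              (.br 4 0
                               (.br 16 1
                                (.fk [(0, 56), (1, -204), (2, -52), (3, -244), (4, 48), (5, 56), (6, 56), (7, 56), (8, -31), (10, -12), (11, 56), (12, 12), (13, 92)])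
                                (.br 32 1
                                 (.fk [(0, 11), (1, -5), (2, 26), (3, -8), (4, 8), (5, 11), (6, 9), (7, 4), (8, -8), (10, 2), (11, -8)])
                                 (.br 22 1
                                  (.br 32 2
                                   (.fk [(0, 2), (1, 1), (2, 5), (3, -2), (4, 2), (5, 5), (6, 2), (7, 1), (8, -2), (10, 2), (11, -2)])
                                   (.br 30 0
                                    (.fk [(0, 14), (1, -52), (2, -2), (3, -200), (4, 60), (5, 14), (6, 14), (7, 14), (8, -23), (9, -119), (10, -64), (11, 14), (12, 50), (13, 17), (17, 14)])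
                                    (.br 13 1
                                     (.fk [(0, 30), (1, -93), (2, -9), (3, 72), (4, -36), (5, 30), (6, 30), (7, 16), (8, -13), (10, -6), (11, 30), (17, 6)])
                                     (.mv 147))))
                                  (.mv 145))))
                               (.mv 100))
                              (.mv 91))
                             (.mv 86))
                            (.mv 83))
                           (.mv 78))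
                          (.mv 27))
                         (.mv 13))
                        (.mv 10))
                       (.mv 139))))
                    (.br 29 0
                     (.fk [(0, 1), (1, 2), (2, -3), (5, 1), (6, -5), (10, 2), (12, 4)])
                     (.mv 14)))
                   (.mv 89))
                  (.mv 54))
                 (.mv 9)))
               (.mv 50))
              (.mv 36))
             (.mv 2)))
           (.br 6 0
            (.br 16 0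
             (.br 20 0
              (.br 27 0
               (.fk [(0, -3), (1, 2), (2, 1), (5, 1), (10, 2), (11, 1), (13, 1)])
               (.br 21 0
                (.br 10 0
                 (.fk [(0, -1), (1, -5), (2, 38), (3, 4), (4, 4), (5, 10), (6, 5), (7, -2), (8, -2)])
                 (.br 7 0
                  (.br 17 0
                   (.br 18 0
                    (.br 29 0
                     (.br 22 0
                      (.br 26 0
                       (.br 23 1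
                        (.br 19 0
                         (.fk [(5, 1), (6, -1)])
                         (.br 14 0
                          (.br 15 0
                           (.br 12 0
                            (.br 11 0
                             (.br 31 0
                              (.fk [(0, 12), (1, -60), (2, -72), (3, -27), (4, -11), (5, -75), (6, -24), (7, 12), (8, 3), (10, -45), (11, 12), (13, 33)])
                              (.br 32 0
                               (.fk [(0, 18), (1, -48), (2, 198), (3, 69), (4, 5), (5, 18), (6, -15), (7, 18), (8, -39), (9, 66), (10, 69), (11, -135)])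
                               (.mv 144)))
                             (.mv 113))
                            (.mv 105))
                           (.mv 62))
                          (.mv 5)))
                        (.mv 92))
                       (.mv 15))
                      (.mv 129))
                     (.mv 14))
                    (.mv 130))
                   (.mv 99))
                  (.mv 72)))
                (.mv 115)))
              (.mv 25))
             (.mv 47))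
            (.mv 18)))
          (.br 6 0
           (.br 7 0
            (.br 17 0
             (.br 4 0
              (.br 16 0
               (.br 21 0
                (.fk [(0, 4), (1, 16), (2, 12), (3, 4), (4, 4), (5, 3), (6, -1), (7, -3), (8, -1)])
                (.br 11 0
                 (.br 18 0
                  (.br 26 0
                   (.br 12 0
                    (.br 15 0
                     (.br 27 0
                      (.fk [(0, 100), (1, -54), (2, 178), (3, 100), (4, 4), (5, -102), (6, 100), (7, -14), (8, -39), (9, 183), (10, 84), (11, 100), (12, 45), (13, 100), (17, 25)])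
                      (.br 31 0
                       (.fk [(0, 12), (1, -12), (2, 8), (3, 16), (4, -4), (5, -21), (6, -14), (7, -2), (8, 1), (9, 8), (10, -8)])
                       (.br 32 0
                        (.fk [(0, 2), (1, 4), (2, 10), (3, 2), (4, 2), (6, 2), (7, 1), (8, -3), (9, 2), (10, 2), (11, -7), (13, 3)])
                        (.mv 141))))
                     (.mv 120))
                    (.mv 97))
                   (.mv 37))
                  (.mv 29))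
                 (.mv 3)))
               (.br 21 0
                (.br 12 0
                 (.br 22 0
                  (.br 20 0
                   (.br 11 0
                    (.fk [(1, 4), (2, 4), (3, 4), (5, 4), (6, -3), (7, -1)])
                    (.mv 13))
                   (.mv 83))
                  (.mv 112))
                 (.mv 55))
                (.mv 10)))
              (.br 22 0
               (.br 18 0
                (.br 27 0
                 (.br 16 0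
                  (.fk [(0, -9), (1, 7), (2, 10), (3, 1), (4, 1), (5, 6), (6, 2), (7, -1), (10, 7), (11, 2), (13, 1)])
                  (.mv 100))
                 (.br 21 0
                  (.br 20 0
                   (.br 11 0
                    (.fk [(0, -4), (2, 4), (5, 3), (6, -11), (7, -1), (8, 1)])
                    (.mv 76))
                   (.mv 67))
                  (.mv 128)))
                (.mv 84))
               (.mv 74)))
             (.br 22 0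
              (.br 12 0
               (.br 21 0
                (.br 20 0
                 (.br 13 0
                  (.br 19 0
                   (.fk [(5, 1), (6, -1)])
                   (.mv 114))
                  (.mv 36))
                 (.mv 35))
                (.mv 59))
               (.mv 21))
              (.mv 6)))
            (.mv 20))
           (.mv 32)))
         (.mv 16))
        (.mv 12)))
      (.mv 8))
     (.br 23 0
      (.br 25 0
       (.br 27 0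
        (.br 28 0
         (.br 5 0
          (.br 26 0
           (.fk [(6, 1)])
           (.br 29 0
            (.fk [(0, 1), (1, 2), (2, -3), (5, 1), (6, -4), (10, 1), (12, 3)])
            (.mv 22)))
          (.mv 8))
         (.mv 19))
        (.br 26 0
         (.fk [(6, 1)])
         (.mv 30)))
       (.mv 11))
      (.mv 4))))
   (.mv 1))
  (.mv 0))

def EB11_1_0_0 : Inst where
  rows :=
   [(false, [1, 1, 1, 0, 0, 0, 0, 0, 0, 0, 0, 0, 0, 0, 0, 0, 0, 0, 0, 0, 0, 0, 0, 0, 0, 0, 0, 0, 0, 0, 0, 0, 0, -1, 0], 1),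
    (false, [0, 0, 0, 1, 1, 1, 1, 1, 0, 0, 0, 0, 0, 0, 0, 0, 0, 0, 0, 0, 0, 0, 0, 0, 0, 0, 0, 0, 0, 0, 0, 0, 0, -1, 0], 0),
    (false, [0, 0, 0, 0, 0, 0, 0, 0, 1, 1, 1, 0, 0, 0, 0, 0, 0, 0, 0, 0, 0, 0, 0, 0, 0, 0, 0, 0, 0, 0, 0, 0, 0, -1, 0], 0),
    (false, [0, 0, 0, 0, 0, 0, 0, 0, 0, 0, 0, 1, 1, 1, 0, 0, 0, 0, 0, 0, 0, 0, 0, 0, 0, 0, 0, 0, 0, 0, 0, 0, 0, 0, -1], 0),
    (false, [0, 0, 0, 0, 0, 0, 0, 0, 0, 0, 0, 0, 0, 0, 1, 1, 1, 1, 1, 0, 0, 0, 0, 0, 0, 0, 0, 0, 0, 0, 0, 0, 0, 0, -3], 0),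
    (false, [0, 0, 0, 0, 0, 0, 0, 0, 0, 0, 0, 0, 0, 0, 0, 0, 0, 0, 0, 1, 1, 1, 1, 0, 0, 0, 0, 0, 0, 0, 0, 0, 0, 0, 0], 1),
    (false, [0, 0, 0, 0, 0, 0, 0, 0, 0, 0, 0, 0, 0, 0, 0, 0, 0, 0, 0, 0, 0, 0, 0, 1, 1, 1, 1, 0, 0, 0, 0, 0, 0, 0, 0], 1),
    (false, [0, 1, 4, 4, 1, 0, 1, 4, 0, 1, 4, 0, 1, 4, 4, 1, 0, 1, 4, 4, 1, 0, 1, 1, 0, 1, 4, 0, 1, 4, 0, 0, 0, -8, -4], 5),
    (false, [4, 1, 0, 4, 1, 0, 1, 4, 4, 1, 0, 4, 1, 0, 4, 1, 0, 1, 4, 1, 0, 1, 4, 4, 1, 0, 1, 0, 1, 4, 0, 0, 0, -8, -4], 5),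
    (false, [-1, -1, -1, 1, 1, 1, 1, 1, -1, -1, -1, -1, -1, -1, 1, 1, 1, 1, 1, 0, 0, 0, 0, 0, 0, 0, 0, 1, 1, 1, -1, 0, 0, 0, 0], 0),
    (false, [1, 1, 1, -1, -1, -1, -1, -1, -1, -1, -1, 0, 0, 0, 0, 0, 0, 0, 0, -1, -1, -1, -1, 0, 0, 0, 0, 1, 1, 1, 0, -1, 0, 0, 0], 0),
    (false, [-1, 0, 1, -1, 0, 1, 0, -1, -1, 0, 1, -1, 0, 1, -1, 0, 1, 0, -1, 0, 1, 0, -1, -1, 0, 1, 0, 1, 0, -1, 0, 0, -1, 0, 0], 0),
    (true, [-1, -1, -1, -1, -1, -1, -1, -1, 1, 1, 1, 0, 0, 0, 0, 0, 0, 0, 0, 0, 0, 0, 0, 1, 1, 1, 1, 1, 1, 1, 0, 0, 0, 0, 0], 0),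
    (true, [1, 0, -1, -1, 0, 1, 0, -1, 1, 0, -1, 1, 0, -1, -1, 0, 1, 0, -1, -1, 0, 1, 0, 0, 1, 0, -1, 1, 0, -1, 0, 0, 0, 0, 0], 0),
    (true, [4, 1, 0, 16, 9, 4, 1, 0, 0, 1, 4, 1, 0, 1, 9, 4, 1, 0, 1, 9, 4, 1, 0, 1, 0, 1, 4, 0, 1, 4, 0, 0, 0, 0, 0], 1),
    (true, [0, 0, 0, 0, 0, 0, 0, 0, 0, 0, 0, 0, 0, 0, 0, 0, 0, 0, 0, 0, 0, 0, 0, 0, 0, 0, 0, 0, 0, 0, 0, 0, 0, 1, 0], 0),
    (true, [0, 0, 0, 0, 0, 0, 0, 0, 0, 0, 0, 0, 0, 0, 0, 0, 0, 0, 0, 0, 0, 0, 0, 0, 0, 0, 0, 0, 0, 0, 0, 0, 0, 0, 1], 0),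
    (true, [4, 1, 0, 16, 9, 4, 1, 0, 0, 1, 4, 1, 0, 1, 9, 4, 1, 0, 1, 9, 4, 1, 0, 1, 0, 1, 4, 0, 1, 4, 0, 0, 0, -8, -4], 7)]
  moves := EB11_moves1
  reqs := EB11_reqs1
  tree := EB11_1_0_0_tree

theorem EB11_1_0_0_ok : EB11.instOK 1 0 0 EB11_1_0_0 = true := by
  decide +kernel

def EB11_1_1_0_tree : Tree :=
  (.br 8 0
  (.br 24 0
   (.br 0 0
    (.br 23 0
     (.br 1 0
      (.br 16 0
       (.br 15 0
        (.br 25 0
         (.br 17 0
          (.fk [(0, 7), (2, 1), (3, -8), (4, 4), (5, -5), (6, 10), (7, -3), (8, 2)])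
          (.br 22 0
           (.br 11 0
            (.fk [(0, 3), (1, -3), (5, -1), (6, 3), (7, -1), (8, 1)])
            (.br 21 0
             (.br 27 0
              (.br 9 0
               (.br 10 0
                (.fk [(0, 34), (1, 12), (2, 50), (3, 12), (4, 12), (5, 16), (6, 34), (7, -9), (8, -3), (10, 7), (12, 5)])
                (.br 26 0
                 (.fk [(6, 1)])
                 (.mv 15)))
               (.br 28 0
                (.fk [(0, 22), (1, 56), (2, 34), (3, 14), (4, 14), (5, 54), (6, 22), (7, -5), (8, -9), (10, 49), (12, 29), (13, 22)])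
                (.mv 19)))
              (.br 20 0
               (.br 19 0
                (.fk [(5, 1)])
                (.mv 44))
               (.mv 60)))
             (.mv 3)))
           (.mv 6)))
         (.br 9 0
          (.br 11 0
           (.fk [(0, 4), (1, -8), (2, 4), (5, -3), (6, -3), (7, -1), (8, 1)])
           (.br 21 0
            (.br 4 0
             (.br 17 0
              (.fk [(0, 12), (1, -8), (2, 12), (3, -16), (4, 8), (5, -1), (6, -9), (7, -3), (8, 1)])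
              (.mv 41))
             (.mv 33))
            (.mv 3)))
          (.mv 11)))
        (.br 17 0
         (.fk [(0, 12), (1, 2), (2, 2), (3, -7), (4, 5), (5, -5), (6, 4), (7, -3), (8, 2), (17, 1)])
         (.br 22 0
          (.br 11 0
           (.fk [(0, 1), (1, -1), (5, -1), (6, 1), (7, -1), (8, 1)])
           (.br 21 0
            (.br 20 0
             (.br 25 0
              (.br 19 0
               (.fk [(5, 1)])
               (.mv 44))
              (.mv 41))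
             (.mv 7))
            (.mv 3)))
          (.mv 6))))
       (.br 11 0
        (.fk [(0, 4), (1, -4), (5, -3), (6, 1), (7, -1), (8, 1)])
        (.mv 13)))
      (.br 22 0
       (.br 6 0
        (.br 18 0
         (.br 21 0
          (.br 17 0
           (.br 9 0
            (.fk [(1, -4), (2, 4), (3, -3), (4, 1), (5, 1), (6, 1), (8, 1), (17, 1)])
            (.br 25 0
             (.br 16 0
              (.br 27 0
               (.fk [(3, -27), (4, 9), (5, 7), (6, 7), (7, -4), (8, 7), (11, 5), (13, 7), (17, 3)])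
               (.br 26 0
                (.fk [(6, 1)])
                (.mv 30)))
              (.br 11 0
               (.fk [(5, 1), (6, 1), (7, -1), (8, 1)])
               (.mv 13)))
             (.mv 11)))
           (.br 25 0
            (.br 7 0
             (.br 17 1
              (.fk [(1, 4), (2, -4), (3, -3), (4, 1), (5, 3), (6, 3), (8, 1), (17, 1)])
              (.br 20 0
               (.br 9 0
                (.br 11 0
                 (.fk [(1, -4), (2, 4), (5, 3), (6, 3), (7, -1), (8, 1)])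
                 (.br 19 0
                  (.fk [(5, 1)])
                  (.mv 44)))
                (.mv 104))
               (.mv 85)))
             (.br 26 0
              (.fk [(6, 1)])
              (.mv 77)))
            (.mv 57)))
          (.br 25 0
           (.br 17 0
            (.br 11 0
             (.fk [(5, -4), (6, 3), (7, -1), (8, 1)])
             (.mv 3))
            (.mv 34))
           (.mv 52)))
         (.br 21 0
          (.br 20 0
           (.br 17 0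
            (.br 9 0
             (.br 16 0
              (.fk [(0, 28), (1, 32), (2, 164), (3, -44), (4, 52), (5, 191), (6, 41), (7, -33), (8, 13), (17, 8)])
              (.br 11 0
               (.fk [(0, -1), (1, -3), (2, 4), (5, 1), (6, 1), (7, -1), (8, 1)])
               (.mv 13)))
             (.br 25 0
              (.br 16 0
               (.br 27 0
                (.fk [(3, -9), (4, 3), (5, 4), (6, 4), (7, -1), (8, 4), (11, 8), (13, 4), (17, 3)])
                (.br 26 0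
                 (.fk [(6, 1)])
                 (.mv 30)))
               (.mv 125))
              (.mv 11)))
            (.br 25 0
             (.br 19 0
              (.fk [(5, 1)])
              (.mv 73))
             (.mv 57)))
           (.mv 24))
          (.mv 51)))
        (.mv 18))
       (.br 16 0
        (.br 15 0
         (.br 6 0
          (.br 17 0
           (.br 12 0
            (.br 26 0
             (.br 27 0
              (.br 28 0
               (.fk [(0, 11), (1, -16), (2, 13), (3, 13), (4, -3), (5, -5), (6, -1), (7, 2), (8, -2), (9, 12), (13, 8), (17, 1)])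
               (.br 25 0
                (.fk [(5, -1), (6, 1)])
                (.mv 17)))
              (.br 25 0
               (.fk [(5, -1), (6, 1)])
               (.mv 71)))
             (.br 10 0
              (.br 29 0
               (.br 27 0
                (.fk [(3, -3), (4, 1), (5, -5), (7, 1), (13, 4), (17, 1)])
                (.br 9 0
                 (.fk [(0, -2), (1, -2), (2, 20), (3, -16), (4, 8), (5, 1), (6, 1), (7, -1), (8, -1)])
                 (.mv 30)))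
               (.mv 22))
              (.mv 15)))
            (.mv 9))
           (.mv 6))
          (.mv 18))
         (.mv 26))
        (.mv 46))))
     (.br 9 0
      (.br 25 0
       (.br 28 0
        (.br 21 0
         (.br 16 0
          (.br 20 0
           (.br 1 0
            (.br 17 0
             (.fk [(0, 36), (1, 4), (2, 40), (3, 1), (4, 13), (5, 9), (6, -26), (7, -9), (17, 1)])
             (.br 22 0
              (.br 11 0
               (.fk [(0, 3), (1, -7), (2, 4), (5, 3), (6, -6), (7, -1), (8, 1)])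
               (.br 19 0
                (.fk [(5, 1), (6, -1)])
                (.mv 44)))
              (.mv 6)))
            (.br 6 0
             (.br 5 0
              (.br 27 0
               (.fk [(0, -13), (1, 30), (2, 15), (3, 4), (4, 4), (5, 36), (6, 5), (7, -2), (8, -2), (10, 21), (11, 5), (12, 5), (13, 5)])
               (.br 26 0
                (.br 22 0
                 (.br 11 0
                  (.fk [(0, 2), (1, 2), (2, 12), (3, 2), (4, 2), (5, 11), (6, -12), (7, -3), (8, 1)])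
                  (.br 19 0
                   (.fk [(5, 1), (6, -1)])
                   (.mv 113)))
                 (.br 10 0
                  (.fk [(0, -5), (1, -13), (2, 82), (3, 8), (4, 8), (5, 13), (6, 13), (7, -2), (8, -6)])
                  (.mv 129)))
                (.mv 48)))
              (.mv 58))
             (.mv 18)))
           (.br 1 0
            (.br 17 0
             (.fk [(0, 12), (1, 2), (2, 2), (3, -7), (4, 5), (5, -5), (6, -16), (7, -3), (8, 2), (17, 1)])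
             (.mv 35))
            (.mv 25)))
          (.br 11 0
           (.br 1 0
            (.br 12 0
             (.fk [(0, 4), (2, 4), (3, 4), (5, 1), (6, -3), (7, -1)])
             (.mv 55))
            (.mv 47))
           (.mv 13)))
         (.br 11 0
          (.br 16 0
           (.br 27 0
            (.br 15 0
             (.br 17 0
              (.fk [(0, 30), (1, -66), (2, 132), (3, 72), (4, -8), (5, -6), (6, 30), (7, -3), (8, -6), (9, 63), (10, 45), (11, 30), (13, 30), (17, 3)])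
              (.br 1 0
               (.br 2 0
                (.fk [(0, 13), (1, -14), (2, 33), (3, 4), (4, 4), (5, 19), (6, 13), (7, -1), (8, -3), (10, 42), (11, 13), (13, 13)])
                (.mv 116))
               (.mv 34)))
             (.br 2 0
              (.br 17 0
               (.fk [(0, 9), (1, 19), (2, 28), (3, -5), (4, 11), (5, 17), (6, 9), (7, 6), (8, -5), (9, 11), (10, 22), (11, 9), (12, 13), (13, 9), (17, 8)])
               (.br 1 0
                (.fk [(0, 13), (1, -14), (2, 33), (3, 4), (4, 4), (5, 19), (6, 13), (7, -1), (8, -3), (10, 42), (11, 13), (13, 13)])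
                (.mv 34)))
              (.mv 120)))
            (.br 1 0
             (.br 12 0
              (.br 26 0
               (.br 13 0
                (.br 17 0
                 (.br 2 0
                  (.fk [(0, 4), (2, -4), (3, 12), (4, -4), (5, -3), (6, -1), (7, 1), (8, -1)])
                  (.br 31 0
                   (.fk [(0, 44), (1, -68), (2, -8), (3, 44), (4, -20), (5, -105), (6, -87), (7, -9), (8, 13), (9, 4), (10, -48)])
                   (.br 32 0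
                    (.fk [(0, 6), (1, 10), (2, 24), (3, 8), (4, 4), (5, 4), (6, -2), (7, -1), (8, -4), (9, 1), (10, 6), (11, -13)])
                    (.mv 141))))
                 (.mv 108))
                (.mv 66))
               (.mv 48))
              (.mv 111))
             (.mv 115)))
           (.mv 10))
          (.mv 3)))
        (.mv 16))
       (.mv 12))
      (.mv 4)))
    (.br 9 0
     (.br 5 0
      (.br 23 0
       (.br 25 0
        (.br 10 0
         (.br 17 0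
          (.br 12 0
           (.fk [(2, 8), (3, 1), (4, 1), (6, 4), (17, 1)])
           (.br 22 0
            (.br 16 0
             (.fk [(0, 60), (1, -100), (2, 1112), (3, -361), (4, 299), (5, 119), (6, 416), (7, -15), (8, -40), (17, 79)])
             (.br 21 0
              (.br 11 0
               (.br 20 0
                (.fk [(0, -7), (1, -3), (2, 10), (5, 3), (6, 3), (7, -1), (8, 1)])
                (.br 26 0
                 (.fk [(0, -1), (1, -1), (2, 2), (5, -1), (6, 1)])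
                 (.mv 28)))
               (.mv 13))
              (.mv 10)))
            (.mv 9)))
          (.br 26 0
           (.fk [(0, -1), (1, -1), (2, 2), (6, 1)])
           (.mv 42)))
         (.br 26 0
          (.fk [(6, 1)])
          (.mv 15)))
        (.br 6 0
         (.br 28 0
          (.br 2 0
           (.br 22 0
            (.br 21 0
             (.br 1 0
              (.br 17 0
               (.br 12 0
                (.fk [(0, 4), (2, 4), (3, 1), (4, 1), (5, 4), (6, -3), (17, 1)])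
                (.br 18 0
                 (.fk [(0, 12), (1, -60), (2, 48), (3, -33), (4, 11), (5, 12), (7, 3), (8, 12), (17, 15)])
                 (.mv 45)))
               (.br 12 0
                (.br 20 0
                 (.br 11 0
                  (.fk [(1, -4), (2, 20), (3, 11), (4, -1), (5, 32), (6, -27), (7, -2), (8, 3), (17, 3)])
                  (.mv 41))
                 (.mv 38))
                (.mv 21)))
              (.br 7 0
               (.br 17 0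
                (.br 18 0
                 (.fk [(0, -3), (1, 18), (2, -15), (3, -6), (4, 2), (5, 3), (7, 3), (8, 3), (17, 6)])
                 (.br 20 0
                  (.br 12 0
                   (.fk [(0, -5), (1, 9), (2, 4), (3, 1), (4, 1), (5, 9), (6, -8), (17, 1)])
                   (.mv 45))
                  (.mv 24)))
                (.mv 57))
               (.mv 49)))
             (.br 18 0
              (.br 17 0
               (.fk [(1, -4), (2, 4), (3, -3), (4, 1), (5, -1), (8, 1), (17, 1)])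
               (.mv 69))
              (.mv 82)))
            (.br 16 0
             (.br 27 0
              (.fk [(0, -4), (1, 6), (2, 6), (3, 1), (4, 1), (5, 5), (6, -4), (8, -1), (10, 5), (13, 1)])
              (.br 1 0
               (.br 17 0
                (.fk [(0, 16), (1, 4), (2, -4), (3, -7), (4, 5), (5, -6), (6, -17), (7, 2), (8, -3), (17, 1)])
                (.mv 6))
               (.mv 71)))
             (.mv 75)))
           (.br 7 0
            (.br 17 0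
             (.br 12 0
              (.fk [(0, -5), (1, 9), (2, 4), (3, 1), (4, 1), (6, -8), (17, 1)])
              (.br 22 0
               (.br 18 0
                (.fk [(0, -1), (1, -7), (2, 8), (3, -6), (4, 2), (6, 1), (8, 2), (17, 2)])
                (.mv 45))
               (.mv 9)))
             (.br 22 0
              (.br 11 0
               (.fk [(0, -4), (2, 4), (5, -1), (6, -7), (7, -1), (8, 1)])
               (.mv 41))
              (.mv 6)))
            (.mv 20)))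
          (.mv 17))
         (.mv 43)))
       (.br 2 0
        (.br 1 0
         (.br 17 0
          (.br 13 0
           (.fk [(0, 4), (2, -4), (5, -3), (6, -3), (7, 1), (8, -1)])
           (.br 18 0
            (.fk [(0, 4), (1, -4), (3, -3), (4, 1), (5, -1), (6, -4), (7, 1), (17, 1)])
            (.mv 2)))
          (.br 20 0
           (.br 13 0
            (.fk [(0, 4), (2, -4), (5, -3), (6, -3), (7, 1), (8, -1)])
            (.mv 36))
           (.mv 35)))
         (.br 16 0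
          (.br 6 0
           (.br 27 0
            (.br 28 0
             (.fk [(0, -4), (1, 2), (2, 2), (5, 1), (6, -1), (10, 2), (11, 1), (13, 1)])
             (.mv 16))
            (.br 20 0
             (.br 21 0
              (.br 10 0
               (.fk [(0, -2), (1, -4), (2, 22), (3, 2), (4, 2), (5, 5), (6, 1), (7, -1), (8, -1)])
               (.br 7 0
                (.br 17 0
                 (.fk [(0, 16), (1, 120), (2, -8), (3, -11), (4, 25), (5, 30), (6, 7), (7, 6), (8, -9), (17, 13)])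
                 (.mv 99))
                (.mv 72)))
              (.mv 115))
             (.mv 25)))
           (.mv 18))
          (.mv 47)))
        (.br 6 0
         (.br 7 0
          (.br 17 0
           (.br 12 0
            (.fk [(0, -5), (1, 9), (2, 4), (3, 1), (4, 1), (6, -8), (17, 1)])
            (.br 22 0
             (.br 16 0
              (.fk [(0, -34), (1, 118), (2, 92), (3, -68), (4, 52), (5, 11), (6, -59), (7, -11), (8, 1), (17, 12)])
              (.mv 55))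
             (.mv 9)))
           (.br 22 0
            (.br 12 0
             (.br 13 0
              (.br 21 0
               (.br 20 0
                (.br 19 0
                 (.fk [(5, 1), (6, -1)])
                 (.mv 114))
                (.mv 35))
               (.mv 59))
              (.mv 36))
             (.mv 21))
            (.mv 6)))
          (.mv 20))
         (.mv 32))))
      (.mv 8))
     (.br 23 0
      (.br 27 0
       (.br 25 0
        (.br 28 0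
         (.br 29 0
          (.fk [(0, -1), (1, 2), (2, -1), (5, 1), (6, -1), (10, 1), (12, 1)])
          (.br 26 0
           (.fk [(6, 1)])
           (.mv 22)))
         (.mv 19))
        (.mv 11))
       (.br 26 0
        (.br 25 0
         (.fk [(6, 1)])
         (.mv 11))
        (.mv 30)))
      (.mv 4))))
   (.mv 1))
  (.mv 0))

def EB11_1_1_0 : Inst where
  rows :=
   [(false, [1, 1, 1, 0, 0, 0, 0, 0, 0, 0, 0, 0, 0, 0, 0, 0, 0, 0, 0, 0, 0, 0, 0, 0, 0, 0, 0, 0, 0, 0, 0, 0, 0, -1, 0], 1),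
    (false, [0, 0, 0, 1, 1, 1, 1, 1, 0, 0, 0, 0, 0, 0, 0, 0, 0, 0, 0, 0, 0, 0, 0, 0, 0, 0, 0, 0, 0, 0, 0, 0, 0, -1, 0], 0),
    (false, [0, 0, 0, 0, 0, 0, 0, 0, 1, 1, 1, 0, 0, 0, 0, 0, 0, 0, 0, 0, 0, 0, 0, 0, 0, 0, 0, 0, 0, 0, 0, 0, 0, -1, 0], 0),
    (false, [0, 0, 0, 0, 0, 0, 0, 0, 0, 0, 0, 1, 1, 1, 0, 0, 0, 0, 0, 0, 0, 0, 0, 0, 0, 0, 0, 0, 0, 0, 0, 0, 0, 0, -1], 0),
    (false, [0, 0, 0, 0, 0, 0, 0, 0, 0, 0, 0, 0, 0, 0, 1, 1, 1, 1, 1, 0, 0, 0, 0, 0, 0, 0, 0, 0, 0, 0, 0, 0, 0, 0, -3], 0),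
    (false, [0, 0, 0, 0, 0, 0, 0, 0, 0, 0, 0, 0, 0, 0, 0, 0, 0, 0, 0, 1, 1, 1, 1, 0, 0, 0, 0, 0, 0, 0, 0, 0, 0, 0, 0], 1),
    (false, [0, 0, 0, 0, 0, 0, 0, 0, 0, 0, 0, 0, 0, 0, 0, 0, 0, 0, 0, 0, 0, 0, 0, 1, 1, 1, 1, 0, 0, 0, 0, 0, 0, 0, 0], 1),
    (false, [0, 1, 4, 4, 1, 0, 1, 4, 0, 1, 4, 0, 1, 4, 4, 1, 0, 1, 4, 4, 1, 0, 1, 1, 0, 1, 4, 0, 1, 4, 0, 0, 0, -8, -4], 5),
    (false, [4, 1, 0, 4, 1, 0, 1, 4, 4, 1, 0, 4, 1, 0, 4, 1, 0, 1, 4, 1, 0, 1, 4, 4, 1, 0, 1, 0, 1, 4, 0, 0, 0, -8, -4], 5),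
    (false, [-1, -1, -1, 1, 1, 1, 1, 1, -1, -1, -1, -1, -1, -1, 1, 1, 1, 1, 1, 0, 0, 0, 0, 0, 0, 0, 0, 1, 1, 1, -1, 0, 0, 0, 0], 0),
    (false, [1, 1, 1, -1, -1, -1, -1, -1, -1, -1, -1, 0, 0, 0, 0, 0, 0, 0, 0, -1, -1, -1, -1, 0, 0, 0, 0, 1, 1, 1, 0, -1, 0, 0, 0], 0),
    (false, [-1, 0, 1, -1, 0, 1, 0, -1, -1, 0, 1, -1, 0, 1, -1, 0, 1, 0, -1, 0, 1, 0, -1, -1, 0, 1, 0, 1, 0, -1, 0, 0, -1, 0, 0], 0),
    (true, [-1, -1, -1, -1, -1, -1, -1, -1, 1, 1, 1, 0, 0, 0, 0, 0, 0, 0, 0, 0, 0, 0, 0, 1, 1, 1, 1, 1, 1, 1, 0, 0, 0, 0, 0], 0),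
    (true, [1, 0, -1, -1, 0, 1, 0, -1, 1, 0, -1, 1, 0, -1, -1, 0, 1, 0, -1, -1, 0, 1, 0, 0, 1, 0, -1, 1, 0, -1, 0, 0, 0, 0, 0], 0),
    (true, [4, 1, 0, 16, 9, 4, 1, 0, 0, 1, 4, 1, 0, 1, 9, 4, 1, 0, 1, 9, 4, 1, 0, 1, 0, 1, 4, 0, 1, 4, 0, 0, 0, 0, 0], 1),
    (true, [0, 0, 0, 0, 0, 0, 0, 0, 0, 0, 0, 0, 0, 0, 0, 0, 0, 0, 0, 0, 0, 0, 0, 0, 0, 0, 0, 0, 0, 0, 0, 0, 0, 1, 0], 0),
    (true, [0, 0, 0, 0, 0, 0, 0, 0, 0, 0, 0, 0, 0, 0, 0, 0, 0, 0, 0, 0, 0, 0, 0, 0, 0, 0, 0, 0, 0, 0, 0, 0, 0, 0, 1], 0),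
    (true, [-4, -1, 0, -16, -9, -4, -1, 0, 0, -1, -4, -1, 0, -1, -9, -4, -1, 0, -1, -9, -4, -1, 0, -1, 0, -1, -4, 0, -1, -4, 0, 0, 0, 8, 4], -5)]
  moves := EB11_moves1
  reqs := EB11_reqs1
  tree := EB11_1_1_0_tree

theorem EB11_1_1_0_ok : EB11.instOK 1 1 0 EB11_1_1_0 = true := by
  decide +kernel

def EB11_1_2_0_tree : Tree :=
  (.br 8 0
  (.br 24 0
   (.br 23 0
    (.br 25 0
     (.br 2 0
      (.br 16 0
       (.br 26 0
        (.fk [(6, 1)])
        (.br 10 0
         (.br 27 0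
          (.br 9 0
           (.fk [(1, -4), (2, 4), (5, -3), (6, -1), (7, -1), (8, 1), (11, 4), (18, 4)])
           (.br 28 0
            (.fk [(0, -4), (2, 4), (5, 1), (6, -1), (7, -1), (8, 1), (10, 4), (11, 4), (18, 4)])
            (.mv 19)))
          (.br 9 0
           (.fk [(0, 4), (1, -8), (2, 36), (3, 4), (4, 4), (5, 1), (6, 1), (7, -3), (8, -1), (18, 12)])
           (.mv 30)))
         (.mv 15)))
       (.br 11 0
        (.br 18 0
         (.br 1 0
          (.br 17 0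
           (.fk [(0, 4), (1, -4), (3, -3), (4, 1), (5, -1), (7, 1), (17, -1), (18, 4)])
           (.br 22 0
            (.br 21 0
             (.br 0 0
              (.fk [(0, 1), (1, -1), (5, 1), (6, 1), (7, -1), (8, 1)])
              (.br 26 0
               (.fk [(6, 1)])
               (.mv 42)))
             (.mv 10))
            (.mv 6)))
          (.br 22 0
           (.br 21 0
            (.br 7 0
             (.br 6 0
              (.br 17 0
               (.fk [(0, -10), (1, 10), (3, -3), (4, 1), (5, 14), (6, 14), (7, -2), (8, 5), (17, -3), (18, 14)])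
               (.br 12 0
                (.fk [(0, -12), (1, 12), (3, 15), (4, -5), (5, 8), (6, 8), (7, -3), (8, 6), (17, -3), (18, 8)])
                (.mv 21)))
              (.mv 18))
             (.br 19 0
              (.br 29 0
               (.br 13 0
                (.br 12 0
                 (.fk [(3, 3), (4, -1)])
                 (.mv 103))
                (.br 26 0
                 (.fk [(6, 1)])
                 (.mv 39)))
               (.br 26 0
                (.fk [(6, 1)])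
                (.mv 22)))
              (.mv 64)))
            (.mv 10))
           (.mv 46)))
         (.br 13 0
          (.br 12 0
           (.fk [(3, 3), (4, -1)])
           (.br 22 0
            (.br 21 0
             (.br 19 0
              (.br 20 0
               (.fk [(5, 1)])
               (.mv 53))
              (.mv 94))
             (.mv 10))
            (.mv 9)))
          (.mv 2)))
        (.mv 13)))
      (.br 7 0
       (.br 16 0
        (.br 26 0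
         (.fk [(6, 1)])
         (.br 18 0
          (.br 17 0
           (.fk [(3, -3), (4, 1), (5, -4), (6, -1), (8, 1), (17, -1), (18, 4)])
           (.br 22 0
            (.br 9 0
             (.br 10 0
              (.fk [(0, 4), (1, -4), (2, 32), (3, 4), (4, 4), (5, 1), (6, 5), (7, -3), (8, -1), (18, 8)])
              (.mv 15))
             (.mv 109))
            (.mv 6)))
          (.mv 40)))
        (.br 11 0
         (.br 12 0
          (.br 18 0
           (.br 17 0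
            (.fk [(3, 3), (4, -1), (5, -12), (6, 9), (8, 3), (17, -3), (18, 16)])
            (.br 22 0
             (.br 21 0
              (.br 29 0
               (.br 28 0
                (.fk [(0, -28), (1, -6), (2, -14), (3, 9), (4, -11), (5, 12), (6, 12), (7, -1), (8, 12), (17, -5), (18, 12)])
                (.br 9 0
                 (.fk [(0, -48), (2, 48), (3, 69), (4, -23), (5, 96), (6, 96), (7, -12), (8, 33), (17, -21), (18, 96)])
                 (.mv 19)))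
               (.br 26 0
                (.fk [(6, 1)])
                (.mv 22)))
              (.mv 10))
             (.mv 6)))
           (.br 13 0
            (.fk [(3, 33), (4, -11), (5, -4), (6, 3), (8, 1), (17, -1), (18, 8)])
            (.mv 2)))
          (.br 22 0
           (.br 18 0
            (.br 21 0
             (.br 17 0
              (.fk [(3, -3), (4, 1), (5, 2), (6, 2), (8, 1), (17, -1), (18, 2)])
              (.mv 21))
             (.mv 10))
            (.br 21 0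
             (.br 26 0
              (.fk [(6, 1)])
              (.mv 40))
             (.mv 10)))
           (.mv 9)))
         (.mv 13)))
       (.mv 20)))
     (.br 9 0
      (.br 17 0
       (.br 16 0
        (.fk [(0, 4), (1, 4), (2, 24), (3, -5), (4, 7), (5, -5), (6, -18), (7, -3), (8, 2), (17, -3), (18, 24)])
        (.br 11 0
         (.br 12 0
          (.fk [(0, 4), (2, 28), (3, 16), (5, -9), (6, -29), (7, -3), (8, 3), (17, -4), (18, 36)])
          (.br 22 0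
           (.br 21 0
            (.br 18 0
             (.fk [(1, -8), (2, 8), (3, -3), (4, 1), (5, 1), (6, 1), (8, 2), (17, -2), (18, 1)])
             (.mv 45))
            (.mv 10))
           (.mv 9)))
         (.mv 13)))
       (.br 22 0
        (.br 11 0
         (.br 12 0
          (.fk [(1, -4), (2, 20), (3, 11), (4, -1), (6, -19), (7, -2), (8, 3), (17, -3), (18, 24)])
          (.mv 21))
         (.mv 41))
        (.mv 6)))
      (.mv 11)))
    (.br 9 0
     (.br 11 0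
      (.br 17 0
       (.br 16 0
        (.br 25 0
         (.br 28 0
          (.br 22 0
           (.fk [(0, 44), (1, 32), (2, 276), (3, 8), (4, 56), (5, 11), (6, -331), (7, -33), (8, 25), (17, -36), (18, 300)])
           (.br 12 0
            (.fk [(0, 4), (2, 28), (3, 16), (5, -45), (6, -41), (7, -3), (8, 3), (17, -4), (18, 36)])
            (.mv 9)))
          (.mv 16))
         (.mv 12))
        (.br 1 0
         (.br 12 0
          (.fk [(0, 40), (1, 4), (2, 116), (3, 59), (4, 7), (5, -26), (6, -175), (7, -10), (8, 9), (17, -19), (18, 168)])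
          (.mv 55))
         (.mv 47)))
       (.br 22 0
        (.br 12 0
         (.fk [(0, 4), (2, 28), (3, 16), (5, 1), (6, -41), (7, -3), (8, 3), (17, -4), (18, 36)])
         (.mv 21))
        (.mv 6)))
      (.br 21 0
       (.br 17 0
        (.br 16 0
         (.br 1 0
          (.fk [(0, 8), (1, 4), (2, 20), (3, -5), (4, 7), (5, -2), (6, -23), (7, -2), (8, 1), (17, -3), (18, 24)])
          (.br 6 0
           (.fk [(0, 4), (1, 8), (2, 20), (3, -14), (4, 10), (5, -1), (6, -11), (7, -3), (8, 1), (17, -2), (18, 12)])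
           (.mv 18)))
         (.mv 13))
        (.br 22 0
         (.br 16 0
          (.br 20 0
           (.br 19 0
            (.fk [(5, 1), (6, -1)])
            (.mv 44))
           (.mv 35))
          (.mv 13))
         (.mv 6)))
       (.mv 3)))
     (.mv 4)))
   (.mv 1))
  (.mv 0))

def EB11_1_2_0 : Inst where
  rows :=
   [(false, [1, 1, 1, 0, 0, 0, 0, 0, 0, 0, 0, 0, 0, 0, 0, 0, 0, 0, 0, 0, 0, 0, 0, 0, 0, 0, 0, 0, 0, 0, 0, 0, 0, -1, 0], 1),
    (false, [0, 0, 0, 1, 1, 1, 1, 1, 0, 0, 0, 0, 0, 0, 0, 0, 0, 0, 0, 0, 0, 0, 0, 0, 0, 0, 0, 0, 0, 0, 0, 0, 0, -1, 0], 0),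
    (false, [0, 0, 0, 0, 0, 0, 0, 0, 1, 1, 1, 0, 0, 0, 0, 0, 0, 0, 0, 0, 0, 0, 0, 0, 0, 0, 0, 0, 0, 0, 0, 0, 0, -1, 0], 0),
    (false, [0, 0, 0, 0, 0, 0, 0, 0, 0, 0, 0, 1, 1, 1, 0, 0, 0, 0, 0, 0, 0, 0, 0, 0, 0, 0, 0, 0, 0, 0, 0, 0, 0, 0, -1], 0),
    (false, [0, 0, 0, 0, 0, 0, 0, 0, 0, 0, 0, 0, 0, 0, 1, 1, 1, 1, 1, 0, 0, 0, 0, 0, 0, 0, 0, 0, 0, 0, 0, 0, 0, 0, -3], 0),
    (false, [0, 0, 0, 0, 0, 0, 0, 0, 0, 0, 0, 0, 0, 0, 0, 0, 0, 0, 0, 1, 1, 1, 1, 0, 0, 0, 0, 0, 0, 0, 0, 0, 0, 0, 0], 1),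
    (false, [0, 0, 0, 0, 0, 0, 0, 0, 0, 0, 0, 0, 0, 0, 0, 0, 0, 0, 0, 0, 0, 0, 0, 1, 1, 1, 1, 0, 0, 0, 0, 0, 0, 0, 0], 1),
    (false, [0, 1, 4, 4, 1, 0, 1, 4, 0, 1, 4, 0, 1, 4, 4, 1, 0, 1, 4, 4, 1, 0, 1, 1, 0, 1, 4, 0, 1, 4, 0, 0, 0, -8, -4], 5),
    (false, [4, 1, 0, 4, 1, 0, 1, 4, 4, 1, 0, 4, 1, 0, 4, 1, 0, 1, 4, 1, 0, 1, 4, 4, 1, 0, 1, 0, 1, 4, 0, 0, 0, -8, -4], 5),
    (false, [-1, -1, -1, 1, 1, 1, 1, 1, -1, -1, -1, -1, -1, -1, 1, 1, 1, 1, 1, 0, 0, 0, 0, 0, 0, 0, 0, 1, 1, 1, -1, 0, 0, 0, 0], 0),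
    (false, [1, 1, 1, -1, -1, -1, -1, -1, -1, -1, -1, 0, 0, 0, 0, 0, 0, 0, 0, -1, -1, -1, -1, 0, 0, 0, 0, 1, 1, 1, 0, -1, 0, 0, 0], 0),
    (false, [-1, 0, 1, -1, 0, 1, 0, -1, -1, 0, 1, -1, 0, 1, -1, 0, 1, 0, -1, 0, 1, 0, -1, -1, 0, 1, 0, 1, 0, -1, 0, 0, -1, 0, 0], 0),
    (true, [-1, -1, -1, -1, -1, -1, -1, -1, 1, 1, 1, 0, 0, 0, 0, 0, 0, 0, 0, 0, 0, 0, 0, 1, 1, 1, 1, 1, 1, 1, 0, 0, 0, 0, 0], 0),
    (true, [1, 0, -1, -1, 0, 1, 0, -1, 1, 0, -1, 1, 0, -1, -1, 0, 1, 0, -1, -1, 0, 1, 0, 0, 1, 0, -1, 1, 0, -1, 0, 0, 0, 0, 0], 0),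
    (true, [4, 1, 0, 16, 9, 4, 1, 0, 0, 1, 4, 1, 0, 1, 9, 4, 1, 0, 1, 9, 4, 1, 0, 1, 0, 1, 4, 0, 1, 4, 0, 0, 0, 0, 0], 1),
    (true, [0, 0, 0, 0, 0, 0, 0, 0, 0, 0, 0, 0, 0, 0, 0, 0, 0, 0, 0, 0, 0, 0, 0, 0, 0, 0, 0, 0, 0, 0, 0, 0, 0, 1, 0], 0),
    (true, [0, 0, 0, 0, 0, 0, 0, 0, 0, 0, 0, 0, 0, 0, 0, 0, 0, 0, 0, 0, 0, 0, 0, 0, 0, 0, 0, 0, 0, 0, 0, 0, 0, 0, 1], 0),
    (false, [4, 1, 0, 16, 9, 4, 1, 0, 0, 1, 4, 1, 0, 1, 9, 4, 1, 0, 1, 9, 4, 1, 0, 1, 0, 1, 4, 0, 1, 4, 0, 0, 0, -8, -4], 6),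
    (true, [0, 0, 0, 1, 1, 0, 0, 0, 0, 0, 0, 0, 0, 0, 1, 0, 0, 0, 0, 1, 0, 0, 0, 0, 0, 0, 0, 0, 0, 0, 0, 0, 0, 0, 0], 1)]
  moves := EB11_moves1
  reqs := EB11_reqs1
  tree := EB11_1_2_0_tree

theorem EB11_1_2_0_ok : EB11.instOK 1 2 0 EB11_1_2_0 = true := by
  decide +kernel

def EB11_1_3_0_tree : Tree :=
  (.br 10 0
  (.br 9 0
   (.br 8 0
    (.br 24 0
     (.br 21 0
      (.br 1 0
       (.fk [(0, 2), (1, 1), (2, 5), (3, 1), (4, 1), (5, 2), (6, 1), (17, -1), (18, 2)])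
       (.br 20 0
        (.fk [(0, -2), (1, 1), (2, 9), (3, 1), (4, 1), (5, 3), (6, 1), (17, -1), (18, 3)])
        (.br 23 0
         (.br 18 0
          (.fk [(0, -23), (1, -12), (2, 75), (3, -7), (4, 9), (5, 4), (6, 9), (7, 8), (8, 4), (13, 8), (17, -17), (18, 28)])
          (.mv 24))
         (.mv 25))))
      (.br 16 0
       (.br 11 0
        (.br 1 0
         (.fk [(0, 84), (1, 36), (2, 200), (3, 52), (4, 36), (5, -25), (6, 33), (7, 1), (8, -7), (9, 22), (10, 18), (17, -34), (18, 84)])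
         (.br 18 0
          (.fk [(0, -3), (2, 27), (3, 3), (4, 3), (5, -5), (6, 3), (7, 1), (9, 3), (17, -4), (18, 9)])
          (.mv 51)))
        (.mv 3))
       (.mv 10)))
     (.mv 1))
    (.mv 0))
   (.br 23 0
    (.br 25 0
     (.br 24 0
      (.br 26 0
       (.fk [(6, 1)])
       (.br 27 0
        (.br 28 0
         (.br 29 0
          (.fk [(0, 1), (1, 1), (2, -2), (5, 1), (6, -3), (10, 1), (12, 2)])
          (.mv 22))
         (.mv 19))
        (.mv 30)))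
      (.mv 1))
     (.mv 11))
    (.mv 4)))
  (.br 8 0
   (.br 24 0
    (.br 29 0
     (.br 5 0
      (.br 26 0
       (.br 18 0
        (.br 28 0
         (.fk [(0, -4), (2, 4), (3, -3), (4, 1), (5, 6), (6, -3), (7, 2), (8, 1), (9, 1), (10, 5), (13, 1), (17, -3), (18, 7)])
         (.br 23 0
          (.br 25 0
           (.fk [(6, 1)])
           (.mv 17))
          (.mv 16)))
        (.br 13 0
         (.br 21 0
          (.br 0 0
           (.br 1 0
            (.br 9 0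
             (.br 15 0
              (.fk [(0, 1), (2, -1), (5, -1), (18, 1)])
              (.br 20 0
               (.br 16 0
                (.fk [(0, 54), (1, 22), (2, 28), (3, -23), (4, 25), (5, 54), (6, 13), (7, 9), (10, 9), (13, 45), (17, -22), (18, 54)])
                (.br 11 0
                 (.fk [(0, 8), (2, -8), (3, 6), (4, -2), (5, 3), (6, -3), (7, 1), (8, 1), (13, 4), (17, -2), (18, 8)])
                 (.mv 13)))
               (.mv 7)))
             (.br 23 0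
              (.br 25 0
               (.fk [(6, 1)])
               (.mv 11))
              (.mv 4)))
            (.br 20 0
             (.br 6 0
              (.br 25 0
               (.br 16 0
                (.fk [(0, 4), (1, 24), (2, 4), (3, 4), (4, 4), (5, 21), (6, 13), (7, 3), (8, -3), (13, 12), (17, -4), (18, 12)])
                (.br 11 0
                 (.fk [(1, 2), (2, -2), (3, 3), (4, -1), (5, 3), (7, 1), (13, 2), (17, -1), (18, 4)])
                 (.mv 13)))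
               (.mv 122))
              (.mv 18))
             (.mv 24)))
           (.br 16 0
            (.br 6 0
             (.fk [(0, 4), (1, 24), (2, 4), (3, 4), (4, 4), (5, 1), (6, 1), (7, 3), (8, -3), (13, 12), (17, -4), (18, 12)])
             (.br 25 0
              (.br 2 0
               (.br 1 0
                (.fk [(0, 14), (1, 2), (2, -8), (3, 1), (4, 1), (5, 1), (6, 10), (7, 3), (8, -3), (10, 1), (17, -1), (18, 1)])
                (.mv 18))
               (.br 23 0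
                (.fk [(6, 1)])
                (.mv 32)))
              (.mv 43)))
            (.mv 107)))
          (.br 2 0
           (.br 16 0
            (.br 1 0
             (.fk [(0, 4), (2, -4), (5, -3), (6, -1), (7, 1), (8, -1)])
             (.mv 51))
            (.mv 10))
           (.mv 29)))
         (.mv 2)))
       (.mv 15))
      (.br 0 0
       (.br 26 0
        (.br 28 0
         (.br 1 0
          (.fk [(1, 4), (2, 4), (3, 1), (4, 1), (5, 4), (6, 1), (10, 3), (17, -1), (18, 3)])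
          (.br 23 0
           (.br 18 0
            (.fk [(0, -2), (1, -4), (2, -2), (3, -4), (5, -2), (7, 1), (8, 1), (10, 1), (13, 1), (17, -1), (18, 2)])
            (.br 25 0
             (.fk [(6, 1)])
             (.mv 122)))
           (.mv 58)))
         (.br 23 0
          (.br 25 0
           (.fk [(6, 1)])
           (.mv 17))
          (.mv 16)))
        (.mv 15))
       (.mv 8)))
     (.mv 14))
    (.mv 1))
   (.mv 0)))

def EB11_1_3_0 : Inst where
  rows :=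
   [(false, [1, 1, 1, 0, 0, 0, 0, 0, 0, 0, 0, 0, 0, 0, 0, 0, 0, 0, 0, 0, 0, 0, 0, 0, 0, 0, 0, 0, 0, 0, 0, 0, 0, -1, 0], 1),
    (false, [0, 0, 0, 1, 1, 1, 1, 1, 0, 0, 0, 0, 0, 0, 0, 0, 0, 0, 0, 0, 0, 0, 0, 0, 0, 0, 0, 0, 0, 0, 0, 0, 0, -1, 0], 0),
    (false, [0, 0, 0, 0, 0, 0, 0, 0, 1, 1, 1, 0, 0, 0, 0, 0, 0, 0, 0, 0, 0, 0, 0, 0, 0, 0, 0, 0, 0, 0, 0, 0, 0, -1, 0], 0),
    (false, [0, 0, 0, 0, 0, 0, 0, 0, 0, 0, 0, 1, 1, 1, 0, 0, 0, 0, 0, 0, 0, 0, 0, 0, 0, 0, 0, 0, 0, 0, 0, 0, 0, 0, -1], 0),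
    (false, [0, 0, 0, 0, 0, 0, 0, 0, 0, 0, 0, 0, 0, 0, 1, 1, 1, 1, 1, 0, 0, 0, 0, 0, 0, 0, 0, 0, 0, 0, 0, 0, 0, 0, -3], 0),
    (false, [0, 0, 0, 0, 0, 0, 0, 0, 0, 0, 0, 0, 0, 0, 0, 0, 0, 0, 0, 1, 1, 1, 1, 0, 0, 0, 0, 0, 0, 0, 0, 0, 0, 0, 0], 1),
    (false, [0, 0, 0, 0, 0, 0, 0, 0, 0, 0, 0, 0, 0, 0, 0, 0, 0, 0, 0, 0, 0, 0, 0, 1, 1, 1, 1, 0, 0, 0, 0, 0, 0, 0, 0], 1),
    (false, [0, 1, 4, 4, 1, 0, 1, 4, 0, 1, 4, 0, 1, 4, 4, 1, 0, 1, 4, 4, 1, 0, 1, 1, 0, 1, 4, 0, 1, 4, 0, 0, 0, -8, -4], 5),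
    (false, [4, 1, 0, 4, 1, 0, 1, 4, 4, 1, 0, 4, 1, 0, 4, 1, 0, 1, 4, 1, 0, 1, 4, 4, 1, 0, 1, 0, 1, 4, 0, 0, 0, -8, -4], 5),
    (false, [-1, -1, -1, 1, 1, 1, 1, 1, -1, -1, -1, -1, -1, -1, 1, 1, 1, 1, 1, 0, 0, 0, 0, 0, 0, 0, 0, 1, 1, 1, -1, 0, 0, 0, 0], 0),
    (false, [1, 1, 1, -1, -1, -1, -1, -1, -1, -1, -1, 0, 0, 0, 0, 0, 0, 0, 0, -1, -1, -1, -1, 0, 0, 0, 0, 1, 1, 1, 0, -1, 0, 0, 0], 0),
    (false, [-1, 0, 1, -1, 0, 1, 0, -1, -1, 0, 1, -1, 0, 1, -1, 0, 1, 0, -1, 0, 1, 0, -1, -1, 0, 1, 0, 1, 0, -1, 0, 0, -1, 0, 0], 0),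
    (true, [-1, -1, -1, -1, -1, -1, -1, -1, 1, 1, 1, 0, 0, 0, 0, 0, 0, 0, 0, 0, 0, 0, 0, 1, 1, 1, 1, 1, 1, 1, 0, 0, 0, 0, 0], 0),
    (true, [1, 0, -1, -1, 0, 1, 0, -1, 1, 0, -1, 1, 0, -1, -1, 0, 1, 0, -1, -1, 0, 1, 0, 0, 1, 0, -1, 1, 0, -1, 0, 0, 0, 0, 0], 0),
    (true, [4, 1, 0, 16, 9, 4, 1, 0, 0, 1, 4, 1, 0, 1, 9, 4, 1, 0, 1, 9, 4, 1, 0, 1, 0, 1, 4, 0, 1, 4, 0, 0, 0, 0, 0], 1),
    (true, [0, 0, 0, 0, 0, 0, 0, 0, 0, 0, 0, 0, 0, 0, 0, 0, 0, 0, 0, 0, 0, 0, 0, 0, 0, 0, 0, 0, 0, 0, 0, 0, 0, 1, 0], 0),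
    (true, [0, 0, 0, 0, 0, 0, 0, 0, 0, 0, 0, 0, 0, 0, 0, 0, 0, 0, 0, 0, 0, 0, 0, 0, 0, 0, 0, 0, 0, 0, 0, 0, 0, 0, 1], 0),
    (false, [4, 1, 0, 16, 9, 4, 1, 0, 0, 1, 4, 1, 0, 1, 9, 4, 1, 0, 1, 9, 4, 1, 0, 1, 0, 1, 4, 0, 1, 4, 0, 0, 0, -8, -4], 6),
    (true, [1, 0, -1, 0, 0, 1, 0, -1, -1, 0, 1, 0, -1, 0, 0, 1, 0, -1, 0, 0, 1, 0, -1, 0, -1, 0, 1, -1, 0, 1, 0, 0, 0, 0, 0], 1)]
  moves := EB11_moves1
  reqs := EB11_reqs1
  tree := EB11_1_3_0_tree

theorem EB11_1_3_0_ok : EB11.instOK 1 3 0 EB11_1_3_0 = true := by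
  decide +kernel

theorem EB11_ok1 : ∀ b ∈ EB11.branches, ∃ I : Inst, EB11.instOK 1 b.1 b.2 I = true := by
  intro b hb
  have h : b = (0, 0) ∨ b = (1, 0) ∨ b = (2, 0) ∨ b = (3, 0) := by
    have hb2 : b ∈ [(0, 0), (1, 0), (2, 0), (3, 0)] := hb
    simpa using hb2
  rcases h with rfl | rfl | rfl | rfl
  · exact ⟨EB11_1_0_0, EB11_1_0_0_ok⟩
  · exact ⟨EB11_1_1_0, EB11_1_1_0_ok⟩
  · exact ⟨EB11_1_2_0, EB11_1_2_0_ok⟩
  · exact ⟨EB11_1_3_0, EB11_1_3_0_ok⟩

end Pool.Agent.helper1.CAD
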