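import Pool.Agent.helper1.CAD.Sound

namespace Pool.Agent.helper1.CAD

set_option maxRecDepth 100000

def EB30 : Spec where
  K := .B
  tys := [(2, 2, [1, 0], 0), (2, 0, [1, 0], 0), (0, 2, [1, 0], 0), (1, 2, [0, 1], 0), (1, 0, [0, 3], 1), (1, 1, [0, 0], 2), (0, 1, [0, 0], 2)]
  kc := ([4, 2], 2)
  pmin := [0, 0]
  sl := (0, -1)
  good := false
  pv := 1
  px := 0
  pvx := 1

def EB30_moves0 : List Move :=
   [([((0, 1, 0), -1)], 0),
    ([((0, 2, 0), -2)], 0),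
    ([((1, 0, -1), 1), ((1, 1, -1), 0)], 0),
    ([((1, 2, 2), 1), ((1, 1, 2), 2)], 0),
    ([((1, 0, 0), 1), ((1, 1, 0), 0)], 0),
    ([((1, 0, 1), 1), ((1, 1, 1), 0)], 0),
    ([((1, 2, 1), 0), ((1, 0, 1), 2)], 0),
    ([((0, 1, -1), 0), ((0, 0, 1), -1)], 0),
    ([((0, 1, -1), -1), ((0, 1, 1), -1)], 0),
    ([((2, 2, 0), 0), ((2, 0, 0), 2)], 0),
    ([((1, 2, 1), 1), ((1, 1, 1), 2)], 0),
    ([((1, 2, 0), 1), ((1, 1, 0), 2)], 0),
    ([((0, 2, 2), 1), ((0, 1, 2), 2)], 0),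
    ([((0, 2, 2), 0), ((0, 0, 2), 2)], 0),
    ([((0, 2, 1), -1), ((0, 1, -1), -2)], 0),
    ([((1, 2, 0), 0), ((1, 0, 0), 2)], 0),
    ([((2, 2, 1), 0), ((2, 0, 1), 2)], 0),
    ([((0, 2, 1), 1), ((0, 1, 1), 2)], 0),
    ([((2, 2, 2), 0), ((2, 0, 2), 2)], 0),
    ([((1, 1, 0), 0)], 1),
    ([((1, 0, 2), 1), ((1, 1, 2), 0)], 0),
    ([((0, 1, 2), 0), ((0, 0, 2), 1)], 0),
    ([((1, 2, 2), 0), ((1, 0, 2), 2)], 0),
    ([((0, 2, 1), 0), ((0, 0, 1), 2)], 0),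
    ([((1, 0, 0), 1), ((1, 1, 2), 0), ((0, 1, -1), -1)], 0),
    ([((2, 0, 0), 2), ((1, 2, 1), 0), ((1, 1, -1), -1)], 0),
    ([((2, 2, 1), 0), ((2, 0, 2), 2), ((0, 1, 1), -1)], 0),
    ([((1, 2, 0), 0), ((1, 0, 1), 2), ((0, 1, 1), -1)], 0),
    ([((1, 0, 1), 1), ((1, 1, -1), 0), ((0, 1, 1), -1)], 0),
    ([((2, 0, 1), 2), ((1, 2, 0), 0), ((1, 1, 1), -1)], 0),
    ([((0, 2, 1), 0), ((1, 0, 0), 2), ((1, 1, -1), -1)], 0),
    ([((0, 2, 2), 0), ((1, 0, 1), 2), ((1, 1, -1), -1)], 0),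
    ([((2, 2, 1), 0), ((2, 0, 0), 2), ((0, 1, -1), -1)], 0),
    ([((0, 2, 1), 0), ((1, 0, -1), -1), ((1, 1, 1), 2)], 0),
    ([((1, 2, 0), 1), ((1, 1, 2), 2), ((0, 1, 1), -1)], 0),
    ([((2, 0, 0), 1), ((1, 1, -1), -1), ((0, 1, 2), 0)], 0),
    ([((1, 2, 2), 1), ((1, 0, 1), 2), ((1, 1, 0), 0)], 0),
    ([((2, 0, -1), 1), ((1, 2, 0), 0), ((0, 1, 1), 2)], 0),
    ([((2, 2, 2), 1), ((1, 0, 2), 2), ((0, 1, 2), 0)], 0),
    ([((1, 2, 0), 0), ((1, 0, -1), 1), ((1, 1, 1), 2)], 0),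
    ([((2, 2, 1), 1), ((1, 0, 0), 2), ((0, 1, -1), 0)], 0),
    ([((1, 2, 0), 1), ((1, 0, 1), 2), ((1, 1, 2), 0)], 0),
    ([((2, 2, 1), 1), ((1, 0, 1), 2), ((0, 1, 1), 0)], 0),
    ([((1, 0, -1), 1), ((1, 1, 1), 0), ((0, 1, -1), -1)], 0),
    ([((2, 2, 2), 0), ((2, 0, 1), 2), ((0, 1, -1), -1)], 0),
    ([((2, 0, -1), 1), ((1, 1, -1), -1), ((0, 1, 1), 0)], 0),
    ([((1, 2, 1), 1), ((1, 0, 0), 2), ((1, 1, -1), 0)], 0),
    ([((1, 2, 1), 0), ((1, 0, 0), 1), ((1, 1, 2), 2)], 0),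
    ([((0, 2, 1), 0), ((1, 0, 1), 2), ((1, 1, 0), -1)], 0),
    ([((0, 2, 2), 0), ((1, 0, -2), -1), ((1, 1, 2), 2)], 0),
    ([((2, 2, 0), 0), ((2, 0, 1), 2), ((0, 1, 1), -1)], 0),
    ([((2, 0, 1), 1), ((1, 1, 1), -1), ((0, 1, -1), 0)], 0),
    ([((0, 2, 1), 0), ((1, 0, 2), 2), ((1, 1, 1), -1)], 0),
    ([((1, 1, 2), 0), ((0, 1, -1), -1)], 1),
    ([((0, 2, 1), 0), ((1, 0, 0), -1), ((1, 1, 2), 2)], 0),
    ([((1, 2, 1), 0), ((1, 0, 0), 2), ((0, 1, -1), -1)], 0),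
    ([((1, 2, 0), 1), ((0, 1, 2), 0), ((0, 1, 2), 2)], 1),
    ([((2, 2, 0), 1), ((1, 0, 1), 2), ((0, 1, 2), 0)], 0),
    ([((0, 2, 1), 0), ((0, 1, 2), 2), ((0, 0, 0), -1)], 0),
    ([((2, 0, 1), 1), ((1, 2, 2), 0), ((0, 1, -1), -2)], 0),
    ([((2, 0, 2), 2), ((1, 2, 2), 0), ((1, 1, -1), -1), ((0, 1, 1), -1)], 0),
    ([((0, 2, 1), 1), ((1, 0, 0), 1), ((1, 1, 1), 0), ((0, 1, 2), 2)], 0),
    ([((2, 2, 1), 0), ((2, 0, 2), 2), ((0, 2, 1), 0), ((0, 0, 0), -2)], 0),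
    ([((2, 2, 2), 0), ((2, 0, 1), 2), ((1, 0, 1), 1), ((1, 1, -1), 0)], 0),
    ([((2, 2, 2), 0), ((2, 0, 1), 2), ((1, 2, 0), 0), ((1, 0, 1), 2)], 0),
    ([((2, 2, 2), 0), ((2, 0, 0), 2), ((1, 2, 0), 0), ((1, 0, 2), 2)], 0),
    ([((2, 2, 2), 0), ((2, 0, 0), 2), ((0, 1, -1), -1), ((0, 1, -1), -1)], 0),
    ([((2, 2, 1), 0), ((2, 0, 0), 2), ((1, 2, 0), 0), ((1, 0, 1), 2)], 0),
    ([((2, 2, 1), 1), ((2, 0, 0), 2), ((1, 1, -1), -1), ((0, 1, 1), 0)], 0),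
    ([((2, 2, 0), 0), ((2, 0, 2), 1), ((1, 0, 0), 2), ((0, 1, 2), 0)], 0),
    ([((2, 2, 0), 1), ((0, 2, 1), 0), ((1, 0, 0), 2), ((0, 1, 2), 2)], 0),
    ([((2, 0, 1), 1), ((0, 2, 2), 0), ((1, 1, -1), -1), ((0, 1, 1), 2)], 0),
    ([((2, 0, 2), 1), ((0, 2, 1), 0), ((1, 1, 1), -1), ((0, 1, 2), 2)], 0),
    ([((2, 0, 2), 2), ((0, 2, 2), 0), ((1, 1, -1), -1), ((1, 1, 1), -1)], 0),
    ([((2, 0, -1), 1), ((0, 2, 2), 0), ((1, 1, -1), -1), ((0, 1, -1), -2)], 0),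
    ([((2, 0, -1), 1), ((1, 2, 0), 1), ((1, 1, 2), 0), ((0, 1, -1), -2)], 0),
    ([((2, 0, -1), 1), ((1, 2, 0), 0), ((0, 1, -1), 0), ((0, 0, 0), -2)], 0),
    ([((2, 2, 2), 1), ((1, 0, -1), 1), ((1, 1, 2), 2), ((0, 1, -1), 0)], 0),
    ([((2, 0, 0), 2), ((1, 2, 0), 0), ((1, 0, 1), -1), ((1, 1, -1), 0)], 0),
    ([((0, 2, 2), 0), ((1, 0, 0), 2), ((1, 1, -1), -1), ((0, 1, -1), -1)], 0),
    ([((0, 2, 2), 0), ((1, 0, 0), 1), ((1, 1, -1), -1), ((1, 1, 2), 2)], 0),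
    ([((0, 2, 2), 1), ((1, 0, -1), -1), ((1, 1, 2), 2), ((0, 1, 1), 0)], 0),
    ([((0, 2, 2), 0), ((1, 0, 2), 2), ((1, 1, 1), -1), ((0, 1, -1), -1)], 0),
    ([((0, 2, 2), 0), ((1, 2, 0), 0), ((1, 0, 2), 2), ((0, 0, 0), -2)], 0),
    ([((0, 2, 2), 1), ((1, 0, 1), -1), ((1, 1, 2), 2), ((0, 1, -1), 0)], 0),
    ([((1, 2, 2), 0), ((1, 0, 0), 2), ((0, 1, -1), -1), ((0, 1, -1), -1)], 0),
    ([((1, 0, 0), 1), ((1, 1, -1), -1), ((0, 1, 1), 0), ((0, 1, 1), 0)], 1),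
    ([((1, 0, 0), 1), ((1, 1, 1), -1), ((0, 1, -1), 0), ((0, 1, -1), 0)], 1),
    ([((0, 2, 2), 1), ((1, 1, 1), 0), ((0, 1, -1), -2)], 1)]

def EB30_reqs0 : List (List ℤ) :=
   [[0, 0, 0, 0, 0, 0, 0, 0, 0, 0, 0, 0, 0, 0, 0, 0, 0, 0, 0, 0, 0, 0, 0, 0, 1, 0, 0, 0, 0, 0, 0, 0, 0, 0, 0],
    [0, 0, 0, 0, 0, 0, 0, 0, 1, 0, 0, 0, 0, 0, 0, 0, 0, 0, 0, 0, 0, 0, 0, 0, 0, 0, 0, 0, 0, 0, 0, 0, 0, 0, 0],
    [0, 0, 0, 0, 0, 0, 0, 0, 0, 0, 0, 0, 0, 0, 0, 1, 0, 0, 0, 1, 0, 0, 0, 0, 0, 0, 0, 0, 0, 0, 0, 0, 0, 0, 0],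
    [0, 0, 0, 0, 0, 0, 0, 0, 0, 0, 0, 0, 0, 1, 0, 0, 0, 0, 0, 0, 0, 0, 1, 0, 0, 0, 0, 0, 0, 0, 0, 0, 0, 0, 0],
    [0, 0, 0, 0, 0, 0, 0, 0, 0, 0, 0, 0, 0, 0, 0, 0, 1, 0, 0, 0, 1, 0, 0, 0, 0, 0, 0, 0, 0, 0, 0, 0, 0, 0, 0],
    [0, 0, 0, 0, 0, 0, 0, 0, 0, 0, 0, 0, 0, 0, 0, 0, 0, 1, 0, 0, 0, 1, 0, 0, 0, 0, 0, 0, 0, 0, 0, 0, 0, 0, 0],
    [0, 0, 0, 0, 0, 0, 0, 0, 0, 0, 0, 0, 1, 0, 0, 0, 0, 1, 0, 0, 0, 0, 0, 0, 0, 0, 0, 0, 0, 0, 0, 0, 0, 0, 0],
    [0, 0, 0, 0, 0, 0, 0, 0, 0, 0, 0, 0, 0, 0, 0, 0, 0, 0, 0, 0, 0, 0, 0, 1, 0, 0, 0, 0, 1, 0, 0, 0, 0, 0, 0],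
    [0, 0, 0, 0, 0, 0, 0, 0, 0, 0, 0, 0, 0, 0, 0, 0, 0, 0, 0, 0, 0, 0, 0, 1, 0, 1, 0, 0, 0, 0, 0, 0, 0, 0, 0],
    [1, 0, 0, 0, 0, 1, 0, 0, 0, 0, 0, 0, 0, 0, 0, 0, 0, 0, 0, 0, 0, 0, 0, 0, 0, 0, 0, 0, 0, 0, 0, 0, 0, 0, 0],
    [0, 0, 0, 0, 0, 0, 0, 0, 0, 0, 0, 0, 1, 0, 0, 0, 0, 0, 0, 0, 0, 1, 0, 0, 0, 0, 0, 0, 0, 0, 0, 0, 0, 0, 0],
    [0, 0, 0, 0, 0, 0, 0, 0, 0, 0, 0, 1, 0, 0, 0, 0, 0, 0, 0, 0, 1, 0, 0, 0, 0, 0, 0, 0, 0, 0, 0, 0, 0, 0, 0],
    [0, 0, 0, 0, 0, 0, 0, 0, 0, 0, 1, 0, 0, 0, 0, 0, 0, 0, 0, 0, 0, 0, 0, 0, 0, 0, 1, 0, 0, 0, 0, 0, 0, 0, 0],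
    [0, 0, 0, 0, 0, 0, 0, 0, 0, 0, 1, 0, 0, 0, 0, 0, 0, 0, 0, 0, 0, 0, 0, 0, 0, 0, 0, 0, 0, 1, 0, 0, 0, 0, 0],
    [0, 0, 0, 0, 0, 0, 0, 0, 0, 1, 0, 0, 0, 0, 0, 0, 0, 0, 0, 0, 0, 0, 0, 1, 0, 0, 0, 0, 0, 0, 0, 0, 0, 0, 0],
    [0, 0, 0, 0, 0, 0, 0, 0, 0, 0, 0, 1, 0, 0, 0, 0, 1, 0, 0, 0, 0, 0, 0, 0, 0, 0, 0, 0, 0, 0, 0, 0, 0, 0, 0],
    [0, 1, 0, 0, 0, 0, 1, 0, 0, 0, 0, 0, 0, 0, 0, 0, 0, 0, 0, 0, 0, 0, 0, 0, 0, 0, 0, 0, 0, 0, 0, 0, 0, 0, 0],
    [0, 0, 0, 0, 0, 0, 0, 0, 0, 1, 0, 0, 0, 0, 0, 0, 0, 0, 0, 0, 0, 0, 0, 0, 0, 1, 0, 0, 0, 0, 0, 0, 0, 0, 0],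
    [0, 0, 1, 0, 0, 0, 0, 1, 0, 0, 0, 0, 0, 0, 0, 0, 0, 0, 0, 0, 0, 0, 0, 0, 0, 0, 0, 0, 0, 0, 0, 0, 0, 0, 0],
    [0, 0, 0, 0, 0, 0, 0, 0, 0, 0, 0, 0, 0, 0, 0, 0, 0, 0, 0, 0, 1, 0, 0, 0, 0, 0, 0, 0, 0, 0, 0, 1, 0, 0, 0],
    [0, 0, 0, 0, 0, 0, 0, 0, 0, 0, 0, 0, 0, 0, 0, 0, 0, 0, 1, 0, 0, 0, 1, 0, 0, 0, 0, 0, 0, 0, 0, 0, 0, 0, 0],
    [0, 0, 0, 0, 0, 0, 0, 0, 0, 0, 0, 0, 0, 0, 0, 0, 0, 0, 0, 0, 0, 0, 0, 0, 0, 0, 1, 0, 0, 1, 0, 0, 0, 0, 0],
    [0, 0, 0, 0, 0, 0, 0, 0, 0, 0, 0, 0, 0, 1, 0, 0, 0, 0, 1, 0, 0, 0, 0, 0, 0, 0, 0, 0, 0, 0, 0, 0, 0, 0, 0],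
    [0, 0, 0, 0, 0, 0, 0, 0, 0, 1, 0, 0, 0, 0, 0, 0, 0, 0, 0, 0, 0, 0, 0, 0, 0, 0, 0, 0, 1, 0, 0, 0, 0, 0, 0],
    [0, 0, 0, 0, 0, 0, 0, 0, 0, 0, 0, 0, 0, 0, 0, 0, 1, 0, 0, 0, 0, 0, 1, 1, 0, 0, 0, 0, 0, 0, 0, 0, 0, 0, 0],
    [0, 0, 0, 0, 0, 1, 0, 0, 0, 0, 0, 0, 1, 0, 0, 0, 0, 0, 0, 1, 0, 0, 0, 0, 0, 0, 0, 0, 0, 0, 0, 0, 0, 0, 0],
    [0, 1, 0, 0, 0, 0, 0, 1, 0, 0, 0, 0, 0, 0, 0, 0, 0, 0, 0, 0, 0, 0, 0, 0, 0, 1, 0, 0, 0, 0, 0, 0, 0, 0, 0],
    [0, 0, 0, 0, 0, 0, 0, 0, 0, 0, 0, 1, 0, 0, 0, 0, 0, 1, 0, 0, 0, 0, 0, 0, 0, 1, 0, 0, 0, 0, 0, 0, 0, 0, 0],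
    [0, 0, 0, 0, 0, 0, 0, 0, 0, 0, 0, 0, 0, 0, 0, 0, 0, 1, 0, 1, 0, 0, 0, 0, 0, 1, 0, 0, 0, 0, 0, 0, 0, 0, 0],
    [0, 0, 0, 0, 0, 0, 1, 0, 0, 0, 0, 1, 0, 0, 0, 0, 0, 0, 0, 0, 0, 1, 0, 0, 0, 0, 0, 0, 0, 0, 0, 0, 0, 0, 0],
    [0, 0, 0, 0, 0, 0, 0, 0, 0, 1, 0, 0, 0, 0, 0, 0, 1, 0, 0, 1, 0, 0, 0, 0, 0, 0, 0, 0, 0, 0, 0, 0, 0, 0, 0],
    [0, 0, 0, 0, 0, 0, 0, 0, 0, 0, 1, 0, 0, 0, 0, 0, 0, 1, 0, 1, 0, 0, 0, 0, 0, 0, 0, 0, 0, 0, 0, 0, 0, 0, 0],
    [0, 1, 0, 0, 0, 1, 0, 0, 0, 0, 0, 0, 0, 0, 0, 0, 0, 0, 0, 0, 0, 0, 0, 1, 0, 0, 0, 0, 0, 0, 0, 0, 0, 0, 0],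
    [0, 0, 0, 0, 0, 0, 0, 0, 0, 1, 0, 0, 0, 0, 0, 1, 0, 0, 0, 0, 0, 1, 0, 0, 0, 0, 0, 0, 0, 0, 0, 0, 0, 0, 0],
    [0, 0, 0, 0, 0, 0, 0, 0, 0, 0, 0, 1, 0, 0, 0, 0, 0, 0, 0, 0, 0, 0, 1, 0, 0, 1, 0, 0, 0, 0, 0, 0, 0, 0, 0],
    [0, 0, 0, 0, 0, 1, 0, 0, 0, 0, 0, 0, 0, 0, 0, 0, 0, 0, 0, 1, 0, 0, 0, 0, 0, 0, 1, 0, 0, 0, 0, 0, 0, 0, 0],
    [0, 0, 0, 0, 0, 0, 0, 0, 0, 0, 0, 0, 0, 1, 0, 0, 0, 1, 0, 0, 1, 0, 0, 0, 0, 0, 0, 0, 0, 0, 0, 0, 0, 0, 0],
    [0, 0, 0, 0, 1, 0, 0, 0, 0, 0, 0, 1, 0, 0, 0, 0, 0, 0, 0, 0, 0, 0, 0, 0, 0, 1, 0, 0, 0, 0, 0, 0, 0, 0, 0],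
    [0, 0, 1, 0, 0, 0, 0, 0, 0, 0, 0, 0, 0, 0, 0, 0, 0, 0, 1, 0, 0, 0, 0, 0, 0, 0, 1, 0, 0, 0, 0, 0, 0, 0, 0],
    [0, 0, 0, 0, 0, 0, 0, 0, 0, 0, 0, 1, 0, 0, 0, 1, 0, 0, 0, 0, 0, 1, 0, 0, 0, 0, 0, 0, 0, 0, 0, 0, 0, 0, 0],
    [0, 1, 0, 0, 0, 0, 0, 0, 0, 0, 0, 0, 0, 0, 0, 0, 1, 0, 0, 0, 0, 0, 0, 1, 0, 0, 0, 0, 0, 0, 0, 0, 0, 0, 0],
    [0, 0, 0, 0, 0, 0, 0, 0, 0, 0, 0, 1, 0, 0, 0, 0, 0, 1, 0, 0, 0, 0, 1, 0, 0, 0, 0, 0, 0, 0, 0, 0, 0, 0, 0],
    [0, 1, 0, 0, 0, 0, 0, 0, 0, 0, 0, 0, 0, 0, 0, 0, 0, 1, 0, 0, 0, 0, 0, 0, 0, 1, 0, 0, 0, 0, 0, 0, 0, 0, 0],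
    [0, 0, 0, 0, 0, 0, 0, 0, 0, 0, 0, 0, 0, 0, 0, 1, 0, 0, 0, 0, 0, 1, 0, 1, 0, 0, 0, 0, 0, 0, 0, 0, 0, 0, 0],
    [0, 0, 1, 0, 0, 0, 1, 0, 0, 0, 0, 0, 0, 0, 0, 0, 0, 0, 0, 0, 0, 0, 0, 1, 0, 0, 0, 0, 0, 0, 0, 0, 0, 0, 0],
    [0, 0, 0, 0, 1, 0, 0, 0, 0, 0, 0, 0, 0, 0, 0, 0, 0, 0, 0, 1, 0, 0, 0, 0, 0, 1, 0, 0, 0, 0, 0, 0, 0, 0, 0],
    [0, 0, 0, 0, 0, 0, 0, 0, 0, 0, 0, 0, 1, 0, 0, 0, 1, 0, 0, 1, 0, 0, 0, 0, 0, 0, 0, 0, 0, 0, 0, 0, 0, 0, 0],
    [0, 0, 0, 0, 0, 0, 0, 0, 0, 0, 0, 0, 1, 0, 0, 0, 1, 0, 0, 0, 0, 0, 1, 0, 0, 0, 0, 0, 0, 0, 0, 0, 0, 0, 0],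
    [0, 0, 0, 0, 0, 0, 0, 0, 0, 1, 0, 0, 0, 0, 0, 0, 0, 1, 0, 0, 1, 0, 0, 0, 0, 0, 0, 0, 0, 0, 0, 0, 0, 0, 0],
    [0, 0, 0, 0, 0, 0, 0, 0, 0, 0, 1, 0, 0, 0, 1, 0, 0, 0, 0, 0, 0, 0, 1, 0, 0, 0, 0, 0, 0, 0, 0, 0, 0, 0, 0],
    [1, 0, 0, 0, 0, 0, 1, 0, 0, 0, 0, 0, 0, 0, 0, 0, 0, 0, 0, 0, 0, 0, 0, 0, 0, 1, 0, 0, 0, 0, 0, 0, 0, 0, 0],
    [0, 0, 0, 0, 0, 0, 1, 0, 0, 0, 0, 0, 0, 0, 0, 0, 0, 0, 0, 0, 0, 1, 0, 1, 0, 0, 0, 0, 0, 0, 0, 0, 0, 0, 0],
    [0, 0, 0, 0, 0, 0, 0, 0, 0, 1, 0, 0, 0, 0, 0, 0, 0, 0, 1, 0, 0, 1, 0, 0, 0, 0, 0, 0, 0, 0, 0, 0, 0, 0, 0],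
    [0, 0, 0, 0, 0, 0, 0, 0, 0, 0, 0, 0, 0, 0, 0, 0, 0, 0, 0, 0, 0, 0, 1, 1, 0, 0, 0, 0, 0, 0, 0, 1, 0, 0, 0],
    [0, 0, 0, 0, 0, 0, 0, 0, 0, 1, 0, 0, 0, 0, 0, 0, 1, 0, 0, 0, 0, 0, 1, 0, 0, 0, 0, 0, 0, 0, 0, 0, 0, 0, 0],
    [0, 0, 0, 0, 0, 0, 0, 0, 0, 0, 0, 0, 1, 0, 0, 0, 1, 0, 0, 0, 0, 0, 0, 1, 0, 0, 0, 0, 0, 0, 0, 0, 0, 0, 0],
    [0, 0, 0, 0, 0, 0, 0, 0, 0, 0, 0, 1, 0, 0, 0, 0, 0, 0, 0, 0, 0, 0, 0, 0, 0, 0, 2, 0, 0, 0, 0, 0, 0, 0, 0],
    [1, 0, 0, 0, 0, 0, 0, 0, 0, 0, 0, 0, 0, 0, 0, 0, 0, 1, 0, 0, 0, 0, 0, 0, 0, 0, 1, 0, 0, 0, 0, 0, 0, 0, 0],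
    [0, 0, 0, 0, 0, 0, 0, 0, 0, 1, 0, 0, 0, 0, 0, 0, 0, 0, 0, 0, 0, 0, 0, 0, 0, 0, 1, 1, 0, 0, 0, 0, 0, 0, 0],
    [0, 0, 0, 0, 0, 0, 1, 0, 0, 0, 0, 0, 0, 1, 0, 0, 0, 0, 0, 0, 0, 0, 0, 1, 0, 0, 0, 0, 0, 0, 0, 0, 0, 0, 0],
    [0, 0, 0, 0, 0, 0, 0, 1, 0, 0, 0, 0, 0, 1, 0, 0, 0, 0, 0, 1, 0, 0, 0, 0, 0, 1, 0, 0, 0, 0, 0, 0, 0, 0, 0],
    [0, 0, 0, 0, 0, 0, 0, 0, 0, 1, 0, 0, 0, 0, 0, 0, 1, 0, 0, 0, 0, 1, 0, 0, 0, 0, 1, 0, 0, 0, 0, 0, 0, 0, 0],
    [0, 1, 0, 0, 0, 0, 0, 1, 0, 1, 0, 0, 0, 0, 0, 0, 0, 0, 0, 0, 0, 0, 0, 0, 0, 0, 0, 1, 0, 0, 0, 0, 0, 0, 0],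
    [0, 0, 1, 0, 0, 0, 1, 0, 0, 0, 0, 0, 0, 0, 0, 0, 0, 1, 0, 1, 0, 0, 0, 0, 0, 0, 0, 0, 0, 0, 0, 0, 0, 0, 0],
    [0, 0, 1, 0, 0, 0, 1, 0, 0, 0, 0, 1, 0, 0, 0, 0, 0, 1, 0, 0, 0, 0, 0, 0, 0, 0, 0, 0, 0, 0, 0, 0, 0, 0, 0],
    [0, 0, 1, 0, 0, 1, 0, 0, 0, 0, 0, 1, 0, 0, 0, 0, 0, 0, 1, 0, 0, 0, 0, 0, 0, 0, 0, 0, 0, 0, 0, 0, 0, 0, 0],
    [0, 0, 1, 0, 0, 1, 0, 0, 0, 0, 0, 0, 0, 0, 0, 0, 0, 0, 0, 0, 0, 0, 0, 2, 0, 0, 0, 0, 0, 0, 0, 0, 0, 0, 0],
    [0, 1, 0, 0, 0, 1, 0, 0, 0, 0, 0, 1, 0, 0, 0, 0, 0, 1, 0, 0, 0, 0, 0, 0, 0, 0, 0, 0, 0, 0, 0, 0, 0, 0, 0],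
    [0, 1, 0, 0, 0, 1, 0, 0, 0, 0, 0, 0, 0, 0, 0, 0, 0, 0, 0, 1, 0, 0, 0, 0, 0, 1, 0, 0, 0, 0, 0, 0, 0, 0, 0],
    [1, 0, 0, 0, 0, 0, 0, 1, 0, 0, 0, 0, 0, 0, 0, 0, 1, 0, 0, 0, 0, 0, 0, 0, 0, 0, 1, 0, 0, 0, 0, 0, 0, 0, 0],
    [1, 0, 0, 0, 0, 0, 0, 0, 0, 1, 0, 0, 0, 0, 0, 0, 1, 0, 0, 0, 0, 0, 0, 0, 0, 0, 1, 0, 0, 0, 0, 0, 0, 0, 0],
    [0, 0, 0, 0, 0, 0, 1, 0, 0, 0, 1, 0, 0, 0, 0, 0, 0, 0, 0, 1, 0, 0, 0, 0, 0, 1, 0, 0, 0, 0, 0, 0, 0, 0, 0],
    [0, 0, 0, 0, 0, 0, 0, 1, 0, 1, 0, 0, 0, 0, 0, 0, 0, 0, 0, 0, 0, 1, 0, 0, 0, 0, 1, 0, 0, 0, 0, 0, 0, 0, 0],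
    [0, 0, 0, 0, 0, 0, 0, 1, 0, 0, 1, 0, 0, 0, 0, 0, 0, 0, 0, 1, 0, 1, 0, 0, 0, 0, 0, 0, 0, 0, 0, 0, 0, 0, 0],
    [0, 0, 0, 0, 1, 0, 0, 0, 0, 0, 1, 0, 0, 0, 0, 0, 0, 0, 0, 1, 0, 0, 0, 1, 0, 0, 0, 0, 0, 0, 0, 0, 0, 0, 0],
    [0, 0, 0, 0, 1, 0, 0, 0, 0, 0, 0, 1, 0, 0, 0, 0, 0, 0, 0, 0, 0, 0, 1, 1, 0, 0, 0, 0, 0, 0, 0, 0, 0, 0, 0],
    [0, 0, 0, 0, 1, 0, 0, 0, 0, 0, 0, 1, 0, 0, 0, 0, 0, 0, 0, 0, 0, 0, 0, 1, 0, 0, 0, 1, 0, 0, 0, 0, 0, 0, 0],
    [0, 0, 1, 0, 0, 0, 0, 0, 0, 0, 0, 0, 0, 0, 0, 1, 0, 0, 0, 0, 0, 0, 1, 1, 0, 0, 0, 0, 0, 0, 0, 0, 0, 0, 0],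
    [0, 0, 0, 0, 0, 1, 0, 0, 0, 0, 0, 1, 0, 0, 0, 0, 0, 1, 0, 1, 0, 0, 0, 0, 0, 0, 0, 0, 0, 0, 0, 0, 0, 0, 0],
    [0, 0, 0, 0, 0, 0, 0, 0, 0, 0, 1, 0, 0, 0, 0, 0, 1, 0, 0, 1, 0, 0, 0, 1, 0, 0, 0, 0, 0, 0, 0, 0, 0, 0, 0],
    [0, 0, 0, 0, 0, 0, 0, 0, 0, 0, 1, 0, 0, 0, 0, 0, 1, 0, 0, 1, 0, 0, 1, 0, 0, 0, 0, 0, 0, 0, 0, 0, 0, 0, 0],
    [0, 0, 0, 0, 0, 0, 0, 0, 0, 0, 1, 0, 0, 0, 0, 1, 0, 0, 0, 0, 0, 0, 1, 0, 0, 1, 0, 0, 0, 0, 0, 0, 0, 0, 0],
    [0, 0, 0, 0, 0, 0, 0, 0, 0, 0, 1, 0, 0, 0, 0, 0, 0, 0, 1, 0, 0, 1, 0, 1, 0, 0, 0, 0, 0, 0, 0, 0, 0, 0, 0],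
    [0, 0, 0, 0, 0, 0, 0, 0, 0, 0, 1, 1, 0, 0, 0, 0, 0, 0, 1, 0, 0, 0, 0, 0, 0, 0, 0, 1, 0, 0, 0, 0, 0, 0, 0],
    [0, 0, 0, 0, 0, 0, 0, 0, 0, 0, 1, 0, 0, 0, 0, 0, 0, 1, 0, 0, 0, 0, 1, 1, 0, 0, 0, 0, 0, 0, 0, 0, 0, 0, 0],
    [0, 0, 0, 0, 0, 0, 0, 0, 0, 0, 0, 0, 0, 1, 0, 0, 1, 0, 0, 0, 0, 0, 0, 2, 0, 0, 0, 0, 0, 0, 0, 0, 0, 0, 0],
    [0, 0, 0, 0, 0, 0, 0, 0, 0, 0, 0, 0, 0, 0, 0, 0, 1, 0, 0, 1, 0, 0, 0, 0, 0, 2, 0, 0, 0, 0, 0, 0, 1, 0, 0],
    [0, 0, 0, 0, 0, 0, 0, 0, 0, 0, 0, 0, 0, 0, 0, 0, 1, 0, 0, 0, 0, 1, 0, 2, 0, 0, 0, 0, 0, 0, 0, 0, 1, 0, 0],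
    [0, 0, 0, 0, 0, 0, 0, 0, 0, 0, 1, 0, 0, 0, 0, 0, 0, 0, 0, 0, 0, 1, 0, 1, 0, 0, 0, 0, 0, 0, 0, 1, 1, 0, 0]]

def EB30_base0 : List Row :=
   [(false, [1, 1, 1, 0, 0, 0, 0, 0, 0, 0, 0, 0, 0, 0, 0, 0, 0, 0, 0, 0, 0, 0, 0, 0, 0, 0, 0, 0, 0, 0, 0, 0, 0, -1, 0], 0),
    (false, [0, 0, 0, 1, 1, 1, 1, 1, 0, 0, 0, 0, 0, 0, 0, 0, 0, 0, 0, 0, 0, 0, 0, 0, 0, 0, 0, 0, 0, 0, 0, 0, 0, -1, 0], 0),
    (false, [0, 0, 0, 0, 0, 0, 0, 0, 1, 1, 1, 0, 0, 0, 0, 0, 0, 0, 0, 0, 0, 0, 0, 0, 0, 0, 0, 0, 0, 0, 0, 0, 0, -1, 0], 0),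
    (false, [0, 0, 0, 0, 0, 0, 0, 0, 0, 0, 0, 1, 1, 1, 0, 0, 0, 0, 0, 0, 0, 0, 0, 0, 0, 0, 0, 0, 0, 0, 0, 0, 0, 0, -1], 0),
    (false, [0, 0, 0, 0, 0, 0, 0, 0, 0, 0, 0, 0, 0, 0, 1, 1, 1, 1, 1, 0, 0, 0, 0, 0, 0, 0, 0, 0, 0, 0, 0, 0, 0, 0, -3], 1),
    (false, [0, 0, 0, 0, 0, 0, 0, 0, 0, 0, 0, 0, 0, 0, 0, 0, 0, 0, 0, 1, 1, 1, 1, 0, 0, 0, 0, 0, 0, 0, 0, 0, 0, 0, 0], 2),
    (false, [0, 0, 0, 0, 0, 0, 0, 0, 0, 0, 0, 0, 0, 0, 0, 0, 0, 0, 0, 0, 0, 0, 0, 1, 1, 1, 1, 0, 0, 0, 0, 0, 0, 0, 0], 2),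
    (false, [0, 1, 4, 4, 1, 0, 1, 4, 0, 1, 4, 0, 1, 4, 4, 1, 0, 1, 4, 1, 0, 1, 4, 1, 0, 1, 4, 0, 1, 4, 0, 0, 0, -8, -4], 4),
    (false, [4, 1, 0, 4, 1, 0, 1, 4, 4, 1, 0, 4, 1, 0, 4, 1, 0, 1, 4, 4, 1, 0, 1, 4, 1, 0, 1, 0, 1, 4, 0, 0, 0, -8, -4], 4),
    (false, [-1, -1, -1, 1, 1, 1, 1, 1, -1, -1, -1, -1, -1, -1, 1, 1, 1, 1, 1, 0, 0, 0, 0, 0, 0, 0, 0, 1, 1, 1, -1, 0, 0, 0, 0], 0),
    (false, [1, 1, 1, -1, -1, -1, -1, -1, -1, -1, -1, 0, 0, 0, 0, 0, 0, 0, 0, 1, 1, 1, 1, 0, 0, 0, 0, 1, 1, 1, 0, -1, 0, 0, 0], 0),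
    (false, [-1, 0, 1, -1, 0, 1, 0, -1, -1, 0, 1, -1, 0, 1, -1, 0, 1, 0, -1, -1, 0, 1, 0, -1, 0, 1, 0, 1, 0, -1, 0, 0, -1, 0, 0], 0),
    (true, [-1, -1, -1, -1, -1, -1, -1, -1, 1, 1, 1, 0, 0, 0, 0, 0, 0, 0, 0, 0, 0, 0, 0, 1, 1, 1, 1, 1, 1, 1, 0, 0, 0, 0, 0], 0),
    (true, [1, 0, -1, -1, 0, 1, 0, -1, 1, 0, -1, 1, 0, -1, -1, 0, 1, 0, -1, 0, 1, 0, -1, 0, 1, 0, -1, 1, 0, -1, 0, 0, 0, 0, 0], 0),
    (true, [4, 1, 0, 16, 9, 4, 1, 0, 0, 1, 4, 1, 0, 1, 9, 4, 1, 0, 1, 4, 1, 0, 1, 1, 0, 1, 4, 0, 1, 4, 0, 0, 0, 0, 0], 1),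
    (true, [0, 0, 0, 0, 0, 0, 0, 0, 0, 0, 0, 0, 0, 0, 0, 0, 0, 0, 0, 0, 0, 0, 0, 0, 0, 0, 0, 0, 0, 0, 0, 0, 0, 1, 0], 0),
    (true, [0, 0, 0, 0, 0, 0, 0, 0, 0, 0, 0, 0, 0, 0, 0, 0, 0, 0, 0, 0, 0, 0, 0, 0, 0, 0, 0, 0, 0, 0, 0, 0, 0, 0, 1], 0)]

def EB30_0_0_0_tree : Tree :=
  (.br 24 0
  (.br 16 0
   (.br 8 0
    (.br 9 0
     (.br 5 0
      (.br 21 0
       (.br 20 0
        (.br 17 0
         (.br 1 0
          (.br 22 0
           (.br 6 0
            (.br 19 0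
             (.fk [(5, 1)])
             (.br 15 0
              (.br 4 0
               (.fk [(0, 8), (1, 16), (2, 8), (3, -31), (4, 16), (5, 1), (6, 1), (7, -2), (8, -2), (16, 1)])
               (.br 25 0
                (.br 10 0
                 (.fk [(0, 3), (1, -1), (2, 30), (3, -32), (4, 16), (5, 1), (6, 1), (7, -2), (8, -2)])
                 (.br 23 0
                  (.br 26 0
                   (.fk [(6, 1)])
                   (.mv 12))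
                  (.mv 74)))
                (.mv 45)))
              (.mv 2)))
            (.br 23 0
             (.br 25 0
              (.br 10 0
               (.fk [(0, -3), (1, -5), (2, 24), (3, 2), (4, 2), (5, 5), (6, 5), (7, -1), (8, -1)])
               (.br 26 0
                (.fk [(6, 1)])
                (.mv 12)))
              (.br 0 0
               (.br 15 0
                (.fk [(0, 60), (1, 16), (2, 60), (3, -136), (4, 68), (5, 1), (6, 1), (7, -15), (8, -2)])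
                (.br 19 0
                 (.fk [(5, 1)])
                 (.mv 2)))
               (.mv 50)))
             (.br 2 0
              (.br 25 0
               (.br 13 0
                (.fk [(0, 4), (2, -4), (5, 3), (6, -3), (7, 1), (8, -1)])
                (.mv 59))
               (.mv 8))
              (.mv 44))))
           (.br 18 0
            (.br 10 0
             (.fk [(0, -5), (1, -13), (2, 82), (3, 8), (4, 8), (5, 13), (6, 6), (7, -6), (8, -2)])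
             (.br 14 0
              (.br 15 0
               (.fk [(4, 1), (16, 1)])
               (.br 19 0
                (.br 23 0
                 (.br 25 0
                  (.br 26 0
                   (.fk [(6, 1)])
                   (.mv 12))
                  (.mv 81))
                 (.br 31 0
                  (.br 25 0
                   (.br 2 0
                    (.br 13 0
                     (.fk [(0, 2), (1, -4), (2, -6), (3, -1), (4, -1), (5, 1), (6, -2), (7, 1), (10, -3), (11, 1), (13, 2)])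
                     (.mv 3))
                    (.mv 77))
                   (.mv 8))
                  (.mv 53)))
                (.mv 2)))
              (.mv 49)))
            (.mv 20)))
          (.br 6 0
           (.br 19 0
            (.br 22 0
             (.fk [(5, 1)])
             (.br 23 0
              (.br 11 0
               (.fk [(0, -8), (2, 8), (5, 1), (6, 1), (7, -2), (8, 2)])
               (.br 25 0
                (.br 10 0
                 (.fk [(0, -2), (1, -13), (2, 103), (3, 11), (4, 11), (5, 13), (6, 13), (7, -5), (8, -6)])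
                 (.br 26 0
                  (.fk [(6, 1)])
                  (.mv 12)))
                (.mv 34)))
              (.br 31 0
               (.br 25 0
                (.br 11 0
                 (.fk [(0, -2), (1, -24), (2, -22), (3, -6), (4, -6), (5, 9), (6, -12), (7, 1), (8, 5), (10, -18), (11, 9), (13, 9)])
                 (.br 13 0
                  (.br 4 0
                   (.fk [(0, 2), (2, -2), (5, 1), (6, 1), (10, -2), (11, 1), (13, 1)])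
                   (.mv 75))
                  (.mv 3)))
                (.mv 8))
               (.mv 53))))
            (.br 15 0
             (.br 18 0
              (.br 25 0
               (.br 10 0
                (.fk [(0, -6), (1, -15), (2, 93), (3, 8), (4, 15), (5, 15), (6, 15), (7, -2), (8, -7), (16, 15)])
                (.br 4 0
                 (.fk [(0, 4), (1, 16), (2, 12), (3, 4), (4, 7), (5, 7), (6, 7), (7, -3), (8, -1), (16, 7)])
                 (.br 23 0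
                  (.br 26 0
                   (.fk [(6, 1)])
                   (.mv 12))
                  (.mv 74))))
               (.br 23 0
                (.br 4 0
                 (.fk [(0, 4), (1, 16), (2, 12), (3, 4), (4, 4), (5, 7), (6, 3), (7, -3), (8, -1)])
                 (.mv 45))
                (.mv 8)))
              (.br 22 0
               (.br 13 0
                (.br 4 0
                 (.fk [(0, 8), (1, 36), (2, 28), (3, -68), (4, 35), (5, 1), (6, 1), (7, -7), (8, -2), (16, 1)])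
                 (.br 23 0
                  (.br 25 0
                   (.br 10 0
                    (.fk [(0, 25), (1, -12), (2, 251), (3, -249), (4, 127), (5, 8), (6, 8), (7, -17), (8, -17), (17, 1)])
                    (.br 26 0
                     (.fk [(6, 1)])
                     (.mv 12)))
                   (.mv 45))
                  (.br 25 0
                   (.br 10 0
                    (.fk [(0, 25), (1, -12), (2, 251), (3, -249), (4, 127), (5, 8), (6, 8), (7, -17), (8, -17), (17, 1)])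
                    (.mv 74))
                   (.mv 8))))
                (.mv 22))
               (.mv 20)))
             (.mv 2)))
           (.mv 16)))
         (.br 11 0
          (.br 1 0
           (.br 12 0
            (.br 10 0
             (.fk [(0, -3), (1, -5), (2, 24), (3, 2), (4, 2), (5, 5), (6, 1), (7, -1), (8, -1)])
             (.br 22 0
              (.br 19 0
               (.fk [(5, 1)])
               (.mv 31))
              (.br 23 0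
               (.fk [(0, -4), (2, 4), (5, -3), (6, 1), (7, -1), (8, 1)])
               (.mv 84))))
            (.mv 6))
           (.br 6 0
            (.br 12 0
             (.br 25 0
              (.br 10 0
               (.fk [(0, -3), (1, -5), (2, 24), (3, 2), (4, 2), (5, 5), (6, 5), (7, -1), (8, -1)])
               (.br 19 0
                (.fk [(0, -4), (2, 4), (5, 3), (6, -3), (7, -1), (8, 1)])
                (.mv 31)))
              (.mv 42))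
             (.mv 6))
            (.mv 16)))
          (.br 1 0
           (.br 25 0
            (.br 22 0
             (.br 10 0
              (.fk [(0, -6), (1, -13), (2, 75), (3, 7), (4, 7), (5, 13), (6, 13), (7, -2), (8, -5)])
              (.br 26 0
               (.br 19 0
                (.fk [(5, 1)])
                (.mv 31))
               (.mv 12)))
             (.mv 41))
            (.mv 27))
           (.br 6 0
            (.br 12 0
             (.br 25 0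
              (.br 10 0
               (.fk [(0, -6), (1, -13), (2, 75), (3, 7), (4, 7), (5, 13), (6, 13), (7, -2), (8, -5)])
               (.br 19 0
                (.br 22 0
                 (.fk [(5, 1)])
                 (.mv 41))
                (.mv 31)))
              (.mv 27))
             (.mv 6))
            (.mv 16)))))
        (.br 31 0
         (.br 11 0
          (.fk [(1, -4), (2, -4), (3, -1), (4, -1), (5, 1), (6, -2), (8, 1), (10, -3), (11, 2), (13, 1)])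
          (.mv 11))
         (.mv 19)))
       (.br 31 0
        (.br 17 0
         (.br 11 0
          (.fk [(1, -4), (2, -4), (3, -1), (4, -1), (5, 1), (6, -2), (8, 1), (10, -3), (11, 2), (13, 1)])
          (.br 20 0
           (.br 6 0
            (.br 15 0
             (.br 10 0
              (.fk [(0, 7), (1, -5), (2, 38), (3, -46), (4, 22), (5, 1), (6, 1), (7, -2), (8, -3), (10, -2), (11, 1), (13, 1)])
              (.br 26 0
               (.br 18 0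
                (.br 25 0
                 (.br 13 0
                  (.br 14 0
                   (.fk [(0, 10), (1, -16), (2, -10), (3, -3), (4, 3), (5, 3), (6, -2), (7, 1), (8, 1), (9, 4), (10, -10), (11, 3), (13, 3), (16, 3)])
                   (.br 22 0
                    (.br 12 0
                     (.br 29 0
                      (.br 4 0
                       (.fk [(0, 102), (1, -16), (2, -54), (3, -6), (4, 26), (5, 26), (6, 26), (7, -3), (8, -1), (9, 16), (10, -75), (11, 26), (12, 7), (13, 26), (16, 26)])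
                       (.br 27 0
                        (.fk [(0, 10), (1, -10), (3, 3), (4, -1), (5, 2), (6, 2), (9, 5), (10, -5), (11, 2), (13, 2)])
                        (.br 23 0
                         (.fk [(0, 4), (2, -4), (5, 1), (6, 1), (10, -2), (12, 2)])
                         (.mv 76))))
                      (.mv 13))
                     (.mv 10))
                    (.mv 49)))
                  (.br 22 0
                   (.br 12 0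
                    (.br 29 0
                     (.br 4 0
                      (.fk [(0, 4), (1, -2), (2, -2), (4, 1), (5, 1), (6, 1), (9, 1), (10, -3), (11, 1), (13, 1), (16, 1)])
                      (.br 27 0
                       (.fk [(0, 10), (1, -10), (3, 3), (4, -1), (5, 2), (6, 2), (9, 5), (10, -5), (11, 2), (13, 2)])
                       (.br 23 0
                        (.fk [(0, 4), (2, -4), (5, 1), (6, 1), (10, -2), (12, 2)])
                        (.mv 76))))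
                     (.mv 13))
                    (.mv 10))
                   (.mv 3)))
                 (.br 22 0
                  (.br 4 0
                   (.fk [(0, 8), (1, -4), (2, 4), (3, -6), (4, 5), (5, 5), (6, 1), (7, -1), (9, 4), (10, -9), (13, 5), (16, 5)])
                   (.mv 37))
                  (.mv 34)))
                (.br 22 0
                 (.br 13 0
                  (.br 27 0
                   (.fk [(0, 2), (1, -6), (2, 4), (3, -3), (4, 1), (5, 2), (6, -1), (7, -1), (8, 1), (9, 3), (10, -3), (11, 2), (13, 2)])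
                   (.mv 83))
                  (.mv 22))
                 (.mv 20)))
               (.mv 12)))
             (.mv 39))
            (.mv 29))
           (.mv 11)))
         (.mv 5))
        (.br 20 0
         (.br 23 0
          (.br 17 0
           (.br 6 0
            (.br 15 0
             (.br 12 0
              (.br 25 0
               (.br 10 0
                (.fk [(0, 4), (1, -1), (2, 29), (3, -32), (4, 16), (5, 1), (6, 1), (7, -2), (8, -2)])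
                (.br 26 0
                 (.fk [(6, 1)])
                 (.mv 12)))
               (.br 10 0
                (.fk [(0, 4), (1, -1), (2, 29), (3, -32), (4, 16), (5, 1), (6, 1), (7, -2), (8, -2)])
                (.br 26 0
                 (.br 4 0
                  (.fk [(0, 8), (1, 32), (2, 24), (3, -63), (4, 32), (5, 1), (6, 1), (7, -6), (8, -2), (16, 1)])
                  (.br 19 0
                   (.br 11 0
                    (.fk [(0, -8), (2, 8), (5, 1), (6, 1), (7, -2), (8, 2)])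
                    (.mv 37))
                   (.mv 45)))
                 (.mv 12))))
              (.mv 10))
             (.br 19 0
              (.br 11 0
               (.fk [(0, -8), (2, 8), (5, 1), (6, 1), (7, -2), (8, 2)])
               (.mv 39))
              (.mv 2)))
            (.br 25 0
             (.br 11 0
              (.fk [(0, -4), (2, 4), (5, -3), (6, 3), (7, -1), (8, 1)])
              (.mv 29))
             (.br 11 0
              (.br 0 0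
               (.fk [(0, 1), (1, -1), (2, 8), (3, 1), (4, 1), (5, -2), (6, 2), (7, -2), (8, 1)])
               (.mv 50))
              (.mv 29))))
           (.mv 5))
          (.br 17 0
           (.br 6 0
            (.br 25 0
             (.br 15 0
              (.br 10 0
               (.fk [(0, 4), (1, -1), (2, 29), (3, -32), (4, 16), (5, 1), (6, 1), (7, -2), (8, -2)])
               (.br 26 0
                (.br 18 0
                 (.br 32 0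
                  (.fk [(5, -1), (6, 1), (7, 1), (8, -1), (11, -2), (13, 2)])
                  (.mv 88))
                 (.mv 82))
                (.mv 12)))
              (.mv 43))
             (.mv 8))
            (.mv 51))
           (.mv 5)))
         (.mv 19))))
      (.br 0 0
       (.br 23 0
        (.br 17 0
         (.br 11 0
          (.br 19 0
           (.fk [(0, -3), (1, -1), (2, 4), (5, -1), (6, 1), (7, -1), (8, 1)])
           (.br 15 0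
            (.fk [(0, 4), (2, 28), (3, -32), (4, 16), (5, -5), (6, 7), (7, -7), (8, 3)])
            (.mv 2)))
          (.br 20 0
           (.br 15 0
            (.fk [(0, 4), (2, 28), (3, -32), (4, 16), (5, -5), (6, 7), (7, -7), (8, 3)])
            (.br 19 0
             (.br 21 0
              (.br 10 0
               (.fk [(0, 7), (1, -13), (2, 62), (3, 7), (4, 7), (5, 13), (6, 2), (7, -2), (8, -5)])
               (.br 26 0
                (.br 22 0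
                 (.fk [(5, 1)])
                 (.br 25 0
                  (.fk [(6, 1)])
                  (.mv 34)))
                (.mv 12)))
              (.mv 39))
             (.mv 2)))
           (.mv 11)))
         (.br 21 0
          (.br 11 0
           (.br 12 0
            (.br 19 0
             (.fk [(0, -3), (1, -1), (2, 4), (5, -1), (6, 1), (7, -1), (8, 1)])
             (.br 25 0
              (.fk [(0, 1), (1, -25), (2, 32), (3, 1), (4, 1), (5, -20), (6, 25), (7, -8), (8, 7)])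
              (.mv 28)))
            (.mv 6))
           (.br 20 0
            (.br 25 0
             (.br 22 0
              (.br 1 0
               (.br 19 0
                (.fk [(5, 1)])
                (.mv 78))
               (.mv 67))
              (.mv 41))
             (.mv 27))
            (.mv 11)))
          (.mv 5)))
        (.br 1 0
         (.br 23 1
          (.br 25 0
           (.br 11 0
            (.fk [(0, 12), (1, -8), (2, 12), (3, 2), (4, 2), (5, -1), (6, 11), (7, -3), (8, 1)])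
            (.br 20 0
             (.br 10 0
              (.fk [(0, 8), (1, -13), (2, 69), (3, 8), (4, 8), (5, 2), (6, 13), (7, -2), (8, -6)])
              (.br 26 0
               (.fk [(6, 1)])
               (.mv 12)))
             (.mv 11)))
           (.mv 8))
          (.br 2 0
           (.fk [(0, 22), (1, -4), (2, -2), (3, 2), (4, 2), (5, 1), (6, 1), (7, -1), (8, -1)])
           (.mv 66)))
         (.mv 32)))
       (.mv 9)))
     (.br 23 0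
      (.br 25 0
       (.br 21 0
        (.br 31 0
         (.br 5 0
          (.br 10 0
           (.br 27 0
            (.fk [(0, 10), (2, -10), (5, 4), (6, -2), (7, -1), (8, 1), (10, -5), (11, 4), (12, 5)])
            (.br 26 0
             (.fk [(0, 2), (2, -2), (5, 1), (6, 1), (10, -1), (12, 1)])
             (.mv 58)))
           (.br 26 0
            (.fk [(0, 2), (2, -2), (5, 1), (6, 1), (10, -1), (12, 1)])
            (.mv 12)))
          (.br 0 0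
           (.br 11 0
            (.fk [(0, 30), (1, -36), (2, -42), (3, -6), (4, -6), (5, -3), (6, 9), (7, -5), (8, 11), (10, -27), (11, 9), (12, 9), (13, 9)])
            (.br 10 0
             (.br 20 0
              (.br 18 0
               (.br 19 0
                (.br 17 0
                 (.br 26 0
                  (.fk [(0, 4), (2, -4), (5, 1), (6, 1), (10, -2), (12, 2)])
                  (.br 26 1
                   (.fk [(0, 2), (2, -2), (5, 1), (6, 1), (10, -1), (12, 1)])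
                   (.mv 56)))
                 (.br 22 0
                  (.fk [(5, 1)])
                  (.mv 41)))
                (.br 26 0
                 (.fk [(0, 4), (2, -4), (5, 1), (6, 1), (10, -2), (12, 2)])
                 (.mv 35)))
               (.br 2 0
                (.br 13 0
                 (.fk [(0, 4), (1, -6), (2, -6), (3, -1), (4, -1), (5, 3), (6, -2), (8, 1), (10, -4), (11, 3), (12, 1)])
                 (.mv 22))
                (.mv 65)))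
              (.mv 11))
             (.br 26 0
              (.fk [(0, 2), (2, -2), (5, 1), (6, 1), (10, -1), (12, 1)])
              (.mv 12))))
           (.mv 9)))
         (.br 20 0
          (.br 5 0
           (.br 27 0
            (.fk [(5, 1), (6, 1), (11, 1), (13, 1)])
            (.br 26 0
             (.fk [(6, 1)])
             (.mv 58)))
           (.br 0 0
            (.br 19 0
             (.br 18 0
              (.br 26 0
               (.fk [(6, 1)])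
               (.br 10 0
                (.br 27 0
                 (.br 28 0
                  (.fk [(5, 1), (6, 1), (7, -1), (8, 1), (10, 3), (11, 5), (12, 3), (13, 1)])
                  (.mv 23))
                 (.mv 58))
                (.mv 12)))
              (.br 22 0
               (.fk [(5, 1)])
               (.mv 20)))
             (.br 26 0
              (.fk [(6, 1)])
              (.mv 35)))
            (.mv 9)))
          (.mv 19)))
        (.br 18 0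
         (.br 7 0
          (.br 17 0
           (.br 26 0
            (.fk [(6, 1)])
            (.br 27 0
             (.br 15 0
              (.br 10 0
               (.br 28 0
                (.br 29 0
                 (.fk [(0, -6), (1, -20), (2, 2), (3, -6), (4, -2), (5, -9), (6, 5), (7, -1), (8, 4), (9, 5), (11, 10), (13, 5)])
                 (.mv 21))
                (.mv 23))
               (.mv 12))
              (.mv 33))
             (.mv 58)))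
           (.mv 5))
          (.br 17 0
           (.br 2 0
            (.br 26 0
             (.fk [(6, 1)])
             (.mv 72))
            (.mv 18))
           (.mv 5)))
         (.mv 52)))
       (.mv 17))
      (.mv 14)))
    (.mv 1))
   (.br 20 0
    (.br 11 0
     (.br 8 0
      (.br 5 0
       (.br 9 0
        (.br 23 0
         (.br 17 0
          (.br 19 0
           (.fk [(0, -4), (2, 4), (5, 1), (6, 1), (7, -1), (8, 1)])
           (.br 12 0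
            (.br 15 0
             (.br 7 0
              (.br 32 0
               (.br 10 0
                (.fk [(0, 9), (1, -2), (2, 89), (3, 39), (4, 3), (5, 5), (6, 5), (7, 4), (8, -16), (11, -50), (13, 5)])
                (.br 26 0
                 (.fk [(0, -2), (2, 2), (6, 2), (7, 1), (8, -1), (11, -3), (13, 3)])
                 (.mv 12)))
               (.br 25 0
                (.br 10 0
                 (.fk [(1, -4), (2, 12), (3, 4), (5, 1), (6, 4), (7, -1)])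
                 (.br 26 0
                  (.fk [(6, 1)])
                  (.mv 12)))
                (.br 10 0
                 (.br 25 1
                  (.fk [(1, -4), (2, 12), (3, 4), (5, 1), (6, 4), (7, -1)])
                  (.mv 86))
                 (.br 26 0
                  (.br 6 0
                   (.br 4 0
                    (.br 25 1
                     (.fk [(6, 1)])
                     (.mv 86))
                    (.mv 45))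
                   (.mv 71))
                  (.mv 12)))))
              (.br 10 0
               (.fk [(1, -1), (2, 9), (3, 4), (5, 1), (6, 1), (7, -1)])
               (.br 21 0
                (.br 22 0
                 (.br 2 0
                  (.br 25 0
                   (.br 26 0
                    (.fk [(6, 1)])
                    (.mv 12))
                   (.br 26 0
                    (.br 1 0
                     (.br 4 0
                      (.br 13 0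
                       (.fk [(0, 8), (2, -8), (3, 9), (4, -3), (5, 3), (6, -2), (7, 2), (8, -2)])
                       (.mv 60))
                      (.mv 45))
                     (.mv 26))
                    (.mv 12)))
                  (.mv 18))
                 (.mv 80))
                (.mv 73))))
             (.mv 2))
            (.mv 46)))
          (.br 21 0
           (.br 12 0
            (.br 25 0
             (.fk [(0, -12), (2, 12), (3, 12), (4, -4), (5, -9), (6, 9), (7, -3), (8, 3)])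
             (.br 19 0
              (.fk [(0, -8), (2, 8), (3, 3), (4, -1), (5, 1), (6, 1), (7, -2), (8, 2)])
              (.mv 28)))
            (.mv 6))
           (.mv 5)))
         (.br 12 0
          (.br 22 0
           (.br 28 0
            (.br 25 0
             (.br 1 0
              (.br 21 0
               (.br 6 0
                (.br 10 0
                 (.br 13 0
                  (.fk [(0, -6), (1, -15), (2, 93), (3, 81), (4, -15), (5, 15), (6, 15), (7, -2), (8, -7)])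
                  (.br 23 1
                   (.fk [(0, -3), (1, -4), (2, 15), (3, 4), (5, 1), (6, 4), (7, -1)])
                   (.mv 85)))
                 (.br 19 0
                  (.fk [(5, 1)])
                  (.mv 79)))
                (.br 2 0
                 (.br 13 0
                  (.fk [(0, 4), (2, -4), (3, 9), (4, -3), (5, 3), (6, -3), (7, 1), (8, -1)])
                  (.mv 59))
                 (.mv 44)))
               (.br 6 0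
                (.br 32 0
                 (.fk [(5, 1), (6, -1), (7, 1), (8, -1), (11, -2), (13, 2)])
                 (.br 23 1
                  (.br 10 0
                   (.fk [(0, -3), (1, -4), (2, 15), (3, 4), (5, 1), (6, 4), (7, -1)])
                   (.br 26 0
                    (.fk [(6, 1)])
                    (.mv 12)))
                  (.mv 87)))
                (.mv 51)))
              (.mv 40))
             (.mv 8))
            (.mv 7))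
           (.mv 24))
          (.mv 55)))
        (.br 23 0
         (.br 25 0
          (.br 19 0
           (.br 26 0
            (.fk [(6, 1)])
            (.br 27 0
             (.br 21 0
              (.br 22 0
               (.fk [(5, 1)])
               (.mv 54))
              (.mv 61))
             (.mv 58)))
           (.mv 30))
          (.mv 17))
         (.mv 14)))
       (.br 0 0
        (.br 23 0
         (.br 25 0
          (.br 9 0
           (.fk [(1, -4), (2, 4), (5, -3), (6, 3), (7, -1), (8, 1)])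
           (.br 19 0
            (.fk [(5, 1), (6, 1), (7, -2), (8, 2)])
            (.mv 30)))
          (.br 9 0
           (.br 17 0
            (.br 19 0
             (.fk [(0, -7), (1, -1), (2, 8), (5, 1), (6, 1), (7, -2), (8, 2)])
             (.br 1 0
              (.fk [(0, 4), (1, -8), (2, 4), (5, -3), (6, 1), (7, -1), (8, 1)])
              (.mv 68)))
            (.br 12 0
             (.fk [(1, -12), (2, 12), (3, 12), (4, -4), (5, -9), (6, 3), (7, -3), (8, 3)])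
             (.mv 6)))
           (.mv 17)))
         (.br 9 0
          (.br 1 0
           (.br 12 0
            (.br 23 1
             (.br 25 0
              (.fk [(0, 4), (2, 4), (3, 4), (5, 1), (6, 4), (7, -1)])
              (.mv 8))
             (.br 2 0
              (.fk [(0, 10), (1, -1), (2, -1), (3, 4), (5, 1), (7, -1)])
              (.mv 66)))
            (.mv 55))
           (.mv 32))
          (.mv 14)))
        (.mv 9)))
      (.mv 1))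
     (.mv 15))
    (.mv 4)))
  (.mv 0))

def EB30_0_0_0 : Inst where
  rows :=
   [(false, [1, 1, 1, 0, 0, 0, 0, 0, 0, 0, 0, 0, 0, 0, 0, 0, 0, 0, 0, 0, 0, 0, 0, 0, 0, 0, 0, 0, 0, 0, 0, 0, 0, -1, 0], 0),
    (false, [0, 0, 0, 1, 1, 1, 1, 1, 0, 0, 0, 0, 0, 0, 0, 0, 0, 0, 0, 0, 0, 0, 0, 0, 0, 0, 0, 0, 0, 0, 0, 0, 0, -1, 0], 0),
    (false, [0, 0, 0, 0, 0, 0, 0, 0, 1, 1, 1, 0, 0, 0, 0, 0, 0, 0, 0, 0, 0, 0, 0, 0, 0, 0, 0, 0, 0, 0, 0, 0, 0, -1, 0], 0),
    (false, [0, 0, 0, 0, 0, 0, 0, 0, 0, 0, 0, 1, 1, 1, 0, 0, 0, 0, 0, 0, 0, 0, 0, 0, 0, 0, 0, 0, 0, 0, 0, 0, 0, 0, -1], 0),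
    (false, [0, 0, 0, 0, 0, 0, 0, 0, 0, 0, 0, 0, 0, 0, 1, 1, 1, 1, 1, 0, 0, 0, 0, 0, 0, 0, 0, 0, 0, 0, 0, 0, 0, 0, -3], 1),
    (false, [0, 0, 0, 0, 0, 0, 0, 0, 0, 0, 0, 0, 0, 0, 0, 0, 0, 0, 0, 1, 1, 1, 1, 0, 0, 0, 0, 0, 0, 0, 0, 0, 0, 0, 0], 2),
    (false, [0, 0, 0, 0, 0, 0, 0, 0, 0, 0, 0, 0, 0, 0, 0, 0, 0, 0, 0, 0, 0, 0, 0, 1, 1, 1, 1, 0, 0, 0, 0, 0, 0, 0, 0], 2),
    (false, [0, 1, 4, 4, 1, 0, 1, 4, 0, 1, 4, 0, 1, 4, 4, 1, 0, 1, 4, 1, 0, 1, 4, 1, 0, 1, 4, 0, 1, 4, 0, 0, 0, -8, -4], 4),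
    (false, [4, 1, 0, 4, 1, 0, 1, 4, 4, 1, 0, 4, 1, 0, 4, 1, 0, 1, 4, 4, 1, 0, 1, 4, 1, 0, 1, 0, 1, 4, 0, 0, 0, -8, -4], 4),
    (false, [-1, -1, -1, 1, 1, 1, 1, 1, -1, -1, -1, -1, -1, -1, 1, 1, 1, 1, 1, 0, 0, 0, 0, 0, 0, 0, 0, 1, 1, 1, -1, 0, 0, 0, 0], 0),
    (false, [1, 1, 1, -1, -1, -1, -1, -1, -1, -1, -1, 0, 0, 0, 0, 0, 0, 0, 0, 1, 1, 1, 1, 0, 0, 0, 0, 1, 1, 1, 0, -1, 0, 0, 0], 0),
    (false, [-1, 0, 1, -1, 0, 1, 0, -1, -1, 0, 1, -1, 0, 1, -1, 0, 1, 0, -1, -1, 0, 1, 0, -1, 0, 1, 0, 1, 0, -1, 0, 0, -1, 0, 0], 0),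
    (true, [-1, -1, -1, -1, -1, -1, -1, -1, 1, 1, 1, 0, 0, 0, 0, 0, 0, 0, 0, 0, 0, 0, 0, 1, 1, 1, 1, 1, 1, 1, 0, 0, 0, 0, 0], 0),
    (true, [1, 0, -1, -1, 0, 1, 0, -1, 1, 0, -1, 1, 0, -1, -1, 0, 1, 0, -1, 0, 1, 0, -1, 0, 1, 0, -1, 1, 0, -1, 0, 0, 0, 0, 0], 0),
    (true, [4, 1, 0, 16, 9, 4, 1, 0, 0, 1, 4, 1, 0, 1, 9, 4, 1, 0, 1, 4, 1, 0, 1, 1, 0, 1, 4, 0, 1, 4, 0, 0, 0, 0, 0], 1),
    (true, [0, 0, 0, 0, 0, 0, 0, 0, 0, 0, 0, 0, 0, 0, 0, 0, 0, 0, 0, 0, 0, 0, 0, 0, 0, 0, 0, 0, 0, 0, 0, 0, 0, 1, 0], 0),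
    (true, [0, 0, 0, 0, 0, 0, 0, 0, 0, 0, 0, 0, 0, 0, 0, 0, 0, 0, 0, 0, 0, 0, 0, 0, 0, 0, 0, 0, 0, 0, 0, 0, 0, 0, 1], 0),
    (true, [4, 1, 0, 16, 9, 4, 1, 0, 0, 1, 4, 1, 0, 1, 9, 4, 1, 0, 1, 4, 1, 0, 1, 1, 0, 1, 4, 0, 1, 4, 0, 0, 0, -8, -4], 4)]
  moves := EB30_moves0
  reqs := EB30_reqs0
  tree := EB30_0_0_0_tree

theorem EB30_0_0_0_ok : EB30.instOK 0 0 0 EB30_0_0_0 = true := by
  decide +kernel

def EB30_0_1_0_tree : Tree :=
  (.br 24 0
  (.br 16 0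
   (.br 8 0
    (.br 9 0
     (.br 2 0
      (.br 17 0
       (.br 1 0
        (.fk [(0, 36), (1, 16), (2, 76), (3, -20), (4, 28), (5, 7), (6, 7), (7, -7), (8, 3), (17, 12)])
        (.br 6 0
         (.fk [(0, 4), (1, 8), (2, 20), (3, -14), (4, 10), (5, 1), (6, 1), (7, -3), (8, 1), (17, 2)])
         (.mv 16)))
       (.br 20 0
        (.br 21 0
         (.br 10 0
          (.fk [(0, -1), (2, 17), (3, 2), (4, 2), (5, 5), (6, 1), (7, -1), (8, -1)])
          (.br 22 0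
           (.br 19 0
            (.fk [(5, 1)])
            (.mv 31))
           (.br 11 0
            (.br 12 0
             (.fk [(0, 8), (1, 8), (2, 48), (3, 26), (4, 2), (5, 13), (6, -4), (7, -6), (8, 4), (17, 6)])
             (.mv 6))
            (.mv 41))))
         (.mv 5))
        (.br 31 0
         (.br 11 0
          (.br 12 0
           (.br 13 0
            (.fk [(0, 36), (1, -68), (2, -32), (3, 67), (4, -33), (5, 10), (6, -13), (7, 6), (8, 5), (9, 12), (10, -32), (11, 10), (13, 10), (17, 3)])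
            (.mv 36))
           (.mv 6))
          (.mv 11))
         (.mv 19))))
      (.br 7 0
       (.br 17 0
        (.fk [(0, 4), (1, 4), (2, 24), (3, -5), (4, 7), (5, 1), (6, -2), (7, -3), (8, 2), (17, 3)])
        (.br 20 0
         (.br 6 0
          (.br 11 0
           (.br 21 0
            (.br 12 0
             (.fk [(0, 8), (1, 148), (2, 276), (3, 165), (4, 17), (5, 120), (6, 9), (7, -32), (8, 15), (17, 37)])
             (.mv 6))
            (.mv 5))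
           (.br 21 0
            (.br 25 0
             (.br 22 0
              (.br 12 0
               (.br 10 0
                (.fk [(0, -5), (1, -6), (2, 67), (3, 7), (4, 7), (5, 13), (6, 13), (7, -2), (8, -5)])
                (.br 19 0
                 (.fk [(5, 1)])
                 (.mv 31)))
               (.mv 6))
              (.mv 41))
             (.mv 27))
            (.mv 5)))
          (.br 21 0
           (.br 23 0
            (.br 19 0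
             (.br 11 0
              (.fk [(0, -4), (2, 4), (5, 1), (6, 1), (7, -1), (8, 1)])
              (.mv 64))
             (.mv 63))
            (.mv 44))
           (.mv 5)))
         (.br 31 0
          (.br 11 0
           (.br 12 0
            (.fk [(0, 2), (1, -8), (2, -2), (3, 2), (4, -2), (5, 3), (6, -5), (8, 2), (10, -7), (11, 2), (13, 3), (17, 1)])
            (.mv 6))
           (.mv 11))
          (.mv 19))))
       (.mv 18)))
     (.br 23 0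
      (.br 25 0
       (.br 21 0
        (.br 31 0
         (.br 5 0
          (.br 10 0
           (.br 27 0
            (.fk [(0, 10), (2, -10), (5, 4), (6, -2), (7, -1), (8, 1), (10, -5), (11, 4), (12, 5)])
            (.br 26 0
             (.fk [(0, 2), (2, -2), (5, 1), (6, 1), (10, -1), (12, 1)])
             (.mv 58)))
           (.br 26 0
            (.fk [(0, 2), (2, -2), (5, 1), (6, 1), (10, -1), (12, 1)])
            (.mv 12)))
          (.br 0 0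
           (.br 11 0
            (.fk [(0, 30), (1, -36), (2, -42), (3, -6), (4, -6), (5, -3), (6, 9), (7, -5), (8, 11), (10, -27), (11, 9), (12, 9), (13, 9)])
            (.br 10 0
             (.br 20 0
              (.br 18 0
               (.br 19 0
                (.br 13 0
                 (.br 17 0
                  (.fk [(0, 12), (1, -36), (2, -24), (3, -33), (4, 3), (5, 8), (6, 8), (7, 1), (8, 8), (10, -18), (11, 10), (13, 8), (17, 3)])
                  (.br 22 0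
                   (.fk [(5, 1)])
                   (.mv 41)))
                 (.br 22 0
                  (.fk [(5, 1)])
                  (.mv 3)))
                (.br 26 0
                 (.fk [(0, 4), (2, -4), (5, 1), (6, 1), (10, -2), (12, 2)])
                 (.mv 35)))
               (.br 2 0
                (.br 13 0
                 (.fk [(0, 4), (1, -6), (2, -6), (3, -1), (4, -1), (5, 3), (6, -2), (8, 1), (10, -4), (11, 3), (12, 1)])
                 (.mv 22))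
                (.mv 65)))
              (.mv 11))
             (.br 26 0
              (.fk [(0, 2), (2, -2), (5, 1), (6, 1), (10, -1), (12, 1)])
              (.mv 12))))
           (.mv 9)))
         (.br 20 0
          (.br 0 0
           (.br 27 0
            (.br 28 0
             (.fk [(0, -2), (2, 2), (5, -1), (6, 1), (10, 2), (11, 1), (13, 1)])
             (.mv 23))
            (.br 26 0
             (.fk [(6, 1)])
             (.mv 58)))
           (.br 5 0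
            (.br 27 0
             (.fk [(5, 1), (6, 1), (11, 1), (13, 1)])
             (.br 26 0
              (.fk [(6, 1)])
              (.mv 58)))
            (.mv 9)))
          (.mv 19)))
        (.br 18 0
         (.br 17 0
          (.br 7 0
           (.fk [(3, -3), (4, 1), (6, 1), (8, 1), (17, 1)])
           (.br 2 0
            (.br 26 0
             (.fk [(6, 1)])
             (.mv 72))
            (.mv 18)))
          (.mv 5))
         (.mv 52)))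
       (.mv 17))
      (.mv 14)))
    (.mv 1))
   (.br 8 0
    (.br 20 0
     (.br 11 0
      (.br 5 0
       (.br 7 0
        (.br 23 0
         (.br 9 0
          (.br 17 0
           (.br 12 0
            (.fk [(1, -4), (2, 36), (3, 13), (4, 1), (5, 4), (6, 4), (7, -4), (8, 5), (17, 5)])
            (.br 21 0
             (.br 19 0
              (.fk [(0, -8), (2, 8), (5, 1), (6, 1), (7, -2), (8, 2)])
              (.mv 46))
             (.mv 10)))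
           (.br 21 0
            (.br 12 0
             (.fk [(0, 8), (1, -12), (2, 116), (3, 65), (4, -3), (5, 20), (6, 20), (7, -12), (8, 15), (17, 17)])
             (.mv 6))
            (.mv 5)))
          (.br 25 0
           (.br 19 0
            (.br 18 0
             (.br 17 0
              (.fk [(3, -3), (4, 1), (6, 3), (8, 3), (17, 3)])
              (.br 21 0
               (.br 12 0
                (.br 22 0
                 (.fk [(5, 1)])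
                 (.mv 54))
                (.mv 6))
               (.mv 5)))
             (.br 21 0
              (.br 22 0
               (.fk [(5, 1)])
               (.mv 20))
              (.mv 52)))
            (.mv 30))
           (.mv 17)))
         (.br 22 0
          (.br 28 0
           (.br 25 0
            (.br 9 0
             (.br 1 0
              (.br 21 0
               (.br 12 0
                (.fk [(0, 12), (1, 8), (2, 44), (3, 26), (4, 2), (5, 17), (6, -1), (7, -5), (8, 3), (17, 6)])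
                (.mv 55))
               (.br 6 0
                (.br 17 0
                 (.br 12 0
                  (.fk [(0, -10), (1, 18), (2, 8), (3, 2), (4, 2), (6, 1), (17, 2)])
                  (.mv 10))
                 (.mv 5))
                (.mv 51)))
              (.mv 40))
             (.mv 14))
            (.mv 8))
           (.mv 7))
          (.mv 24)))
        (.br 2 0
         (.br 23 0
          (.br 0 0
           (.br 25 0
            (.br 9 0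
             (.fk [(0, -1), (1, -3), (2, 4), (5, -3), (6, 3), (7, -1), (8, 1)])
             (.br 19 0
              (.fk [(5, 1), (6, 1), (7, -2), (8, 2)])
              (.mv 30)))
            (.br 9 0
             (.br 1 0
              (.fk [(0, 2), (1, -1), (2, -1)])
              (.mv 26))
             (.mv 17)))
           (.br 26 0
            (.br 9 0
             (.br 17 0
              (.br 12 0
               (.fk [(1, -4), (2, 36), (3, 13), (4, 1), (5, 4), (6, 4), (7, -4), (8, 5), (17, 5)])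
               (.br 21 0
                (.br 19 0
                 (.fk [(0, -8), (2, 8), (5, 1), (6, 1), (7, -2), (8, 2)])
                 (.mv 46))
                (.mv 10)))
              (.br 21 0
               (.br 12 0
                (.fk [(0, 8), (1, -12), (2, 116), (3, 65), (4, -3), (5, 20), (6, 20), (7, -12), (8, 15), (17, 17)])
                (.mv 6))
               (.mv 5)))
             (.br 25 0
              (.fk [(6, 1)])
              (.mv 17)))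
            (.mv 69)))
          (.br 25 0
           (.br 9 0
            (.br 22 0
             (.br 1 0
              (.br 21 0
               (.br 12 0
                (.fk [(0, 12), (1, 8), (2, 44), (3, 26), (4, 2), (5, 17), (6, -1), (7, -5), (8, 3), (17, 6)])
                (.mv 55))
               (.br 17 0
                (.br 12 0
                 (.fk [(0, 8), (2, 8), (3, 2), (4, 2), (6, 1), (17, 2)])
                 (.mv 10))
                (.mv 5)))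
              (.mv 40))
             (.mv 24))
            (.mv 14))
           (.mv 8)))
         (.mv 18)))
       (.br 0 0
        (.br 23 0
         (.br 25 0
          (.br 9 0
           (.fk [(1, -4), (2, 4), (5, -3), (6, 3), (7, -1), (8, 1)])
           (.br 19 0
            (.fk [(5, 1), (6, 1), (7, -2), (8, 2)])
            (.mv 30)))
          (.br 9 0
           (.br 17 0
            (.br 12 0
             (.fk [(1, -4), (2, 36), (3, 13), (4, 1), (5, 4), (6, 4), (7, -4), (8, 5), (17, 5)])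
             (.br 19 0
              (.fk [(0, -7), (1, -1), (2, 8), (5, 1), (6, 1), (7, -2), (8, 2)])
              (.mv 25)))
            (.br 12 0
             (.fk [(1, -4), (2, 20), (3, 11), (4, -1), (5, 2), (6, 2), (7, -2), (8, 3), (17, 3)])
             (.mv 6)))
           (.mv 17)))
         (.br 9 0
          (.br 1 0
           (.br 12 0
            (.fk [(0, 32), (1, 12), (2, 52), (3, 33), (4, 5), (5, 8), (6, 9), (7, -8), (8, 1), (17, 5)])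
            (.mv 55))
           (.mv 32))
          (.mv 14)))
        (.mv 9)))
      (.mv 15))
     (.mv 4))
    (.mv 1)))
  (.mv 0))

def EB30_0_1_0 : Inst where
  rows :=
   [(false, [1, 1, 1, 0, 0, 0, 0, 0, 0, 0, 0, 0, 0, 0, 0, 0, 0, 0, 0, 0, 0, 0, 0, 0, 0, 0, 0, 0, 0, 0, 0, 0, 0, -1, 0], 0),
    (false, [0, 0, 0, 1, 1, 1, 1, 1, 0, 0, 0, 0, 0, 0, 0, 0, 0, 0, 0, 0, 0, 0, 0, 0, 0, 0, 0, 0, 0, 0, 0, 0, 0, -1, 0], 0),
    (false, [0, 0, 0, 0, 0, 0, 0, 0, 1, 1, 1, 0, 0, 0, 0, 0, 0, 0, 0, 0, 0, 0, 0, 0, 0, 0, 0, 0, 0, 0, 0, 0, 0, -1, 0], 0),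
    (false, [0, 0, 0, 0, 0, 0, 0, 0, 0, 0, 0, 1, 1, 1, 0, 0, 0, 0, 0, 0, 0, 0, 0, 0, 0, 0, 0, 0, 0, 0, 0, 0, 0, 0, -1], 0),
    (false, [0, 0, 0, 0, 0, 0, 0, 0, 0, 0, 0, 0, 0, 0, 1, 1, 1, 1, 1, 0, 0, 0, 0, 0, 0, 0, 0, 0, 0, 0, 0, 0, 0, 0, -3], 1),
    (false, [0, 0, 0, 0, 0, 0, 0, 0, 0, 0, 0, 0, 0, 0, 0, 0, 0, 0, 0, 1, 1, 1, 1, 0, 0, 0, 0, 0, 0, 0, 0, 0, 0, 0, 0], 2),
    (false, [0, 0, 0, 0, 0, 0, 0, 0, 0, 0, 0, 0, 0, 0, 0, 0, 0, 0, 0, 0, 0, 0, 0, 1, 1, 1, 1, 0, 0, 0, 0, 0, 0, 0, 0], 2),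
    (false, [0, 1, 4, 4, 1, 0, 1, 4, 0, 1, 4, 0, 1, 4, 4, 1, 0, 1, 4, 1, 0, 1, 4, 1, 0, 1, 4, 0, 1, 4, 0, 0, 0, -8, -4], 4),
    (false, [4, 1, 0, 4, 1, 0, 1, 4, 4, 1, 0, 4, 1, 0, 4, 1, 0, 1, 4, 4, 1, 0, 1, 4, 1, 0, 1, 0, 1, 4, 0, 0, 0, -8, -4], 4),
    (false, [-1, -1, -1, 1, 1, 1, 1, 1, -1, -1, -1, -1, -1, -1, 1, 1, 1, 1, 1, 0, 0, 0, 0, 0, 0, 0, 0, 1, 1, 1, -1, 0, 0, 0, 0], 0),
    (false, [1, 1, 1, -1, -1, -1, -1, -1, -1, -1, -1, 0, 0, 0, 0, 0, 0, 0, 0, 1, 1, 1, 1, 0, 0, 0, 0, 1, 1, 1, 0, -1, 0, 0, 0], 0),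
    (false, [-1, 0, 1, -1, 0, 1, 0, -1, -1, 0, 1, -1, 0, 1, -1, 0, 1, 0, -1, -1, 0, 1, 0, -1, 0, 1, 0, 1, 0, -1, 0, 0, -1, 0, 0], 0),
    (true, [-1, -1, -1, -1, -1, -1, -1, -1, 1, 1, 1, 0, 0, 0, 0, 0, 0, 0, 0, 0, 0, 0, 0, 1, 1, 1, 1, 1, 1, 1, 0, 0, 0, 0, 0], 0),
    (true, [1, 0, -1, -1, 0, 1, 0, -1, 1, 0, -1, 1, 0, -1, -1, 0, 1, 0, -1, 0, 1, 0, -1, 0, 1, 0, -1, 1, 0, -1, 0, 0, 0, 0, 0], 0),
    (true, [4, 1, 0, 16, 9, 4, 1, 0, 0, 1, 4, 1, 0, 1, 9, 4, 1, 0, 1, 4, 1, 0, 1, 1, 0, 1, 4, 0, 1, 4, 0, 0, 0, 0, 0], 1),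
    (true, [0, 0, 0, 0, 0, 0, 0, 0, 0, 0, 0, 0, 0, 0, 0, 0, 0, 0, 0, 0, 0, 0, 0, 0, 0, 0, 0, 0, 0, 0, 0, 0, 0, 1, 0], 0),
    (true, [0, 0, 0, 0, 0, 0, 0, 0, 0, 0, 0, 0, 0, 0, 0, 0, 0, 0, 0, 0, 0, 0, 0, 0, 0, 0, 0, 0, 0, 0, 0, 0, 0, 0, 1], 0),
    (true, [-4, -1, 0, -16, -9, -4, -1, 0, 0, -1, -4, -1, 0, -1, -9, -4, -1, 0, -1, -4, -1, 0, -1, -1, 0, -1, -4, 0, -1, -4, 0, 0, 0, 8, 4], -2)]
  moves := EB30_moves0
  reqs := EB30_reqs0
  tree := EB30_0_1_0_tree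

theorem EB30_0_1_0_ok : EB30.instOK 0 1 0 EB30_0_1_0 = true := by
  decide +kernel

def EB30_0_2_0_tree : Tree :=
  (.br 24 0
  (.br 16 0
   (.br 8 0
    (.br 9 0
     (.br 17 0
      (.fk [(0, 4), (1, 4), (2, 24), (3, -5), (4, 7), (5, 1), (6, -2), (7, -3), (8, 2), (17, -3), (18, 24)])
      (.br 12 0
       (.br 20 0
        (.br 21 0
         (.br 11 0
          (.fk [(0, 4), (1, 4), (2, 24), (3, 13), (4, 1), (5, 7), (6, -2), (7, -3), (8, 2), (17, -3), (18, 24)])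
          (.br 25 0
           (.br 10 0
            (.fk [(0, 7), (1, -6), (2, 55), (3, 7), (4, 7), (5, 13), (6, 13), (7, -2), (8, -5), (18, 13)])
            (.br 19 0
             (.br 22 0
              (.fk [(5, 1)])
              (.mv 41))
             (.mv 31)))
           (.mv 27)))
         (.mv 5))
        (.br 11 0
         (.fk [(0, 4), (2, 28), (3, 16), (5, 1), (6, -5), (7, -3), (8, 3), (17, -4), (18, 36)])
         (.mv 11)))
       (.mv 6)))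
     (.br 23 0
      (.br 25 0
       (.br 7 0
        (.br 18 0
         (.br 27 0
          (.br 17 0
           (.fk [(3, -3), (4, 1), (6, 1), (8, 1), (17, -1), (18, 1)])
           (.br 20 0
            (.br 21 0
             (.br 28 0
              (.fk [(0, -2), (2, 2), (5, -1), (6, 1), (10, 2), (11, 1), (13, 1), (18, 1)])
              (.mv 23))
             (.mv 5))
            (.mv 48)))
          (.br 26 0
           (.fk [(6, 1)])
           (.mv 58)))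
         (.br 5 0
          (.br 20 0
           (.br 21 0
            (.br 2 0
             (.br 13 0
              (.br 22 0
               (.br 1 0
                (.fk [(0, 4), (2, -4), (5, 3), (6, -3), (7, 1), (8, -1)])
                (.br 6 0
                 (.br 17 0
                  (.fk [(0, 8), (1, 224), (2, 8), (3, 3), (4, 39), (5, 22), (6, 22), (7, 25), (8, -28), (17, -27), (18, 22)])
                  (.br 12 0
                   (.fk [(0, -24), (1, 448), (2, -24), (3, 227), (4, -9), (5, 74), (6, 74), (7, 51), (8, -42), (17, -59), (18, 74)])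
                   (.mv 6)))
                 (.mv 16)))
               (.mv 20))
              (.mv 22))
             (.br 26 0
              (.fk [(6, 1)])
              (.mv 38)))
            (.mv 52))
           (.br 11 0
            (.br 31 0
             (.fk [(1, -16), (2, -16), (3, -4), (4, -4), (5, 3), (6, -1), (7, 1), (8, 3), (10, -12), (11, 6), (13, 6)])
             (.mv 19))
            (.mv 11)))
          (.br 0 0
           (.br 21 0
            (.br 13 0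
             (.br 20 0
              (.br 22 0
               (.br 19 0
                (.fk [(5, 1)])
                (.br 26 0
                 (.fk [(6, 1)])
                 (.mv 35)))
               (.mv 20))
              (.br 11 0
               (.fk [(5, -3), (6, 3), (7, -1), (8, 1)])
               (.mv 11)))
             (.mv 22))
            (.mv 52))
           (.mv 9))))
        (.br 2 0
         (.br 1 0
          (.br 17 0
           (.fk [(0, 24), (1, 4), (2, 4), (3, -5), (4, 7), (5, -2), (6, 7), (7, 2), (8, -3), (17, -3), (18, 7)])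
           (.br 21 0
            (.br 12 0
             (.br 20 0
              (.br 22 0
               (.br 0 0
                (.fk [(0, 78), (1, 1), (2, -15), (3, 14), (4, 6), (5, 23), (6, 23), (7, -3), (8, -3), (17, -2), (18, 23)])
                (.br 5 0
                 (.br 26 0
                  (.fk [(6, 1)])
                  (.mv 57))
                 (.mv 9)))
               (.br 13 0
                (.fk [(0, 24), (1, 4), (2, 4), (3, 13), (4, 1), (5, -2), (6, 7), (7, 2), (8, -3), (17, -3), (18, 24)])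
                (.mv 3)))
              (.mv 48))
             (.mv 6))
            (.mv 5)))
          (.br 27 0
           (.br 28 0
            (.fk [(0, -2), (2, 2), (5, -3), (6, 1), (10, 2), (11, 1), (13, 1), (18, 1)])
            (.mv 23))
           (.mv 62)))
         (.mv 18)))
       (.mv 17))
      (.mv 14)))
    (.mv 1))
   (.br 8 0
    (.br 11 0
     (.br 9 0
      (.br 20 0
       (.br 17 0
        (.br 12 0
         (.fk [(0, 4), (1, 4), (2, 24), (3, 7), (4, 3), (5, 3), (6, -2), (7, -3), (8, 2), (17, -3), (18, 24)])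
         (.br 21 0
          (.br 19 0
           (.br 22 0
            (.fk [(5, 1)])
            (.mv 47))
           (.mv 46))
          (.mv 10)))
        (.br 21 0
         (.br 12 0
          (.fk [(0, 12), (1, 12), (2, 72), (3, 45), (4, 1), (5, 21), (6, -6), (7, -9), (8, 6), (17, -9), (18, 21)])
          (.mv 6))
         (.mv 5)))
       (.mv 4))
      (.br 23 0
       (.br 20 0
        (.br 25 0
         (.br 27 0
          (.br 28 0
           (.br 12 0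
            (.fk [(0, 12), (1, 12), (2, -8), (3, 8), (5, 1), (6, 3), (7, -1), (8, 1), (12, 10), (13, 2), (17, -2), (18, 3)])
            (.br 21 0
             (.br 19 0
              (.br 22 0
               (.fk [(5, 1)])
               (.mv 47))
              (.mv 30))
             (.mv 10)))
           (.mv 23))
          (.br 26 0
           (.fk [(6, 1)])
           (.mv 58)))
         (.mv 17))
        (.mv 4))
       (.mv 14)))
     (.mv 15))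
    (.mv 1)))
  (.mv 0))

def EB30_0_2_0 : Inst where
  rows :=
   [(false, [1, 1, 1, 0, 0, 0, 0, 0, 0, 0, 0, 0, 0, 0, 0, 0, 0, 0, 0, 0, 0, 0, 0, 0, 0, 0, 0, 0, 0, 0, 0, 0, 0, -1, 0], 0),
    (false, [0, 0, 0, 1, 1, 1, 1, 1, 0, 0, 0, 0, 0, 0, 0, 0, 0, 0, 0, 0, 0, 0, 0, 0, 0, 0, 0, 0, 0, 0, 0, 0, 0, -1, 0], 0),
    (false, [0, 0, 0, 0, 0, 0, 0, 0, 1, 1, 1, 0, 0, 0, 0, 0, 0, 0, 0, 0, 0, 0, 0, 0, 0, 0, 0, 0, 0, 0, 0, 0, 0, -1, 0], 0),
    (false, [0, 0, 0, 0, 0, 0, 0, 0, 0, 0, 0, 1, 1, 1, 0, 0, 0, 0, 0, 0, 0, 0, 0, 0, 0, 0, 0, 0, 0, 0, 0, 0, 0, 0, -1], 0),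
    (false, [0, 0, 0, 0, 0, 0, 0, 0, 0, 0, 0, 0, 0, 0, 1, 1, 1, 1, 1, 0, 0, 0, 0, 0, 0, 0, 0, 0, 0, 0, 0, 0, 0, 0, -3], 1),
    (false, [0, 0, 0, 0, 0, 0, 0, 0, 0, 0, 0, 0, 0, 0, 0, 0, 0, 0, 0, 1, 1, 1, 1, 0, 0, 0, 0, 0, 0, 0, 0, 0, 0, 0, 0], 2),
    (false, [0, 0, 0, 0, 0, 0, 0, 0, 0, 0, 0, 0, 0, 0, 0, 0, 0, 0, 0, 0, 0, 0, 0, 1, 1, 1, 1, 0, 0, 0, 0, 0, 0, 0, 0], 2),
    (false, [0, 1, 4, 4, 1, 0, 1, 4, 0, 1, 4, 0, 1, 4, 4, 1, 0, 1, 4, 1, 0, 1, 4, 1, 0, 1, 4, 0, 1, 4, 0, 0, 0, -8, -4], 4),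
    (false, [4, 1, 0, 4, 1, 0, 1, 4, 4, 1, 0, 4, 1, 0, 4, 1, 0, 1, 4, 4, 1, 0, 1, 4, 1, 0, 1, 0, 1, 4, 0, 0, 0, -8, -4], 4),
    (false, [-1, -1, -1, 1, 1, 1, 1, 1, -1, -1, -1, -1, -1, -1, 1, 1, 1, 1, 1, 0, 0, 0, 0, 0, 0, 0, 0, 1, 1, 1, -1, 0, 0, 0, 0], 0),
    (false, [1, 1, 1, -1, -1, -1, -1, -1, -1, -1, -1, 0, 0, 0, 0, 0, 0, 0, 0, 1, 1, 1, 1, 0, 0, 0, 0, 1, 1, 1, 0, -1, 0, 0, 0], 0),
    (false, [-1, 0, 1, -1, 0, 1, 0, -1, -1, 0, 1, -1, 0, 1, -1, 0, 1, 0, -1, -1, 0, 1, 0, -1, 0, 1, 0, 1, 0, -1, 0, 0, -1, 0, 0], 0),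
    (true, [-1, -1, -1, -1, -1, -1, -1, -1, 1, 1, 1, 0, 0, 0, 0, 0, 0, 0, 0, 0, 0, 0, 0, 1, 1, 1, 1, 1, 1, 1, 0, 0, 0, 0, 0], 0),
    (true, [1, 0, -1, -1, 0, 1, 0, -1, 1, 0, -1, 1, 0, -1, -1, 0, 1, 0, -1, 0, 1, 0, -1, 0, 1, 0, -1, 1, 0, -1, 0, 0, 0, 0, 0], 0),
    (true, [4, 1, 0, 16, 9, 4, 1, 0, 0, 1, 4, 1, 0, 1, 9, 4, 1, 0, 1, 4, 1, 0, 1, 1, 0, 1, 4, 0, 1, 4, 0, 0, 0, 0, 0], 1),
    (true, [0, 0, 0, 0, 0, 0, 0, 0, 0, 0, 0, 0, 0, 0, 0, 0, 0, 0, 0, 0, 0, 0, 0, 0, 0, 0, 0, 0, 0, 0, 0, 0, 0, 1, 0], 0),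
    (true, [0, 0, 0, 0, 0, 0, 0, 0, 0, 0, 0, 0, 0, 0, 0, 0, 0, 0, 0, 0, 0, 0, 0, 0, 0, 0, 0, 0, 0, 0, 0, 0, 0, 0, 1], 0),
    (false, [4, 1, 0, 16, 9, 4, 1, 0, 0, 1, 4, 1, 0, 1, 9, 4, 1, 0, 1, 4, 1, 0, 1, 1, 0, 1, 4, 0, 1, 4, 0, 0, 0, -8, -4], 3),
    (true, [0, 0, 0, 1, 1, 0, 0, 0, 0, 0, 0, 0, 0, 0, 1, 0, 0, 0, 0, 0, 0, 0, 0, 0, 0, 0, 0, 0, 0, 0, 0, 0, 0, 0, 0], 1)]
  moves := EB30_moves0
  reqs := EB30_reqs0
  tree := EB30_0_2_0_tree

theorem EB30_0_2_0_ok : EB30.instOK 0 2 0 EB30_0_2_0 = true := by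
  decide +kernel

def EB30_0_3_0_tree : Tree :=
  (.br 20 0
  (.br 8 0
   (.br 23 0
    (.br 24 0
     (.br 9 0
      (.br 16 0
       (.br 17 0
        (.fk [(0, 4), (1, 4), (2, 24), (3, -5), (4, 7), (5, 3), (6, 3), (7, -3), (8, 2), (17, -3)])
        (.br 21 0
         (.br 6 0
          (.fk [(1, 24), (2, 40), (3, -4), (4, 12), (5, 2), (6, 2), (7, -3), (8, 3), (10, 8), (11, 2), (13, 2), (17, -8), (18, 12)])
          (.br 1 0
           (.br 18 0
            (.fk [(0, -10), (1, 2), (2, 24), (3, -25), (4, 11), (5, 5), (6, 6), (7, 6), (8, 4), (13, 21), (17, -12), (18, 21)])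
            (.br 11 0
             (.fk [(0, 2), (1, 2), (2, 12), (3, 2), (4, 2), (5, 3), (6, 3), (8, 1), (13, 3), (17, -3), (18, 3)])
             (.br 22 0
              (.br 25 0
               (.br 2 0
                (.fk [(0, 6), (1, 4), (2, 6), (3, 2), (4, 2), (5, 5), (6, 5), (10, 1), (12, 1), (17, -2), (18, 2)])
                (.mv 64))
               (.mv 27))
              (.mv 20))))
           (.mv 16)))
         (.mv 5)))
       (.br 11 0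
        (.fk [(0, 2), (1, 4), (2, 10), (3, 2), (4, 2), (5, 2), (6, 2), (7, -1), (8, 1), (10, 1), (12, 1), (17, -2), (18, 2)])
        (.mv 15)))
      (.br 25 0
       (.br 16 0
        (.br 5 0
         (.br 10 0
          (.br 15 0
           (.fk [(3, -3), (4, 1), (6, -1), (8, 1), (11, 4), (17, -1), (18, 4)])
           (.br 21 0
            (.br 19 0
             (.br 13 0
              (.fk [(8, 1), (11, 3), (17, -1), (18, 3)])
              (.br 22 0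
               (.fk [(5, 1)])
               (.mv 3)))
             (.mv 2))
            (.mv 33)))
          (.br 26 0
           (.fk [(6, 1)])
           (.mv 12)))
         (.br 0 0
          (.br 19 0
           (.br 18 0
            (.fk [(3, -3), (4, 1), (5, 1), (6, 1), (8, 1), (11, 1), (13, 1), (17, -1), (18, 2)])
            (.br 21 0
             (.br 22 0
              (.fk [(5, 1)])
              (.mv 20))
             (.mv 52)))
           (.br 26 0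
            (.fk [(6, 1)])
            (.mv 35)))
          (.mv 9)))
        (.br 11 0
         (.br 19 0
          (.br 0 0
           (.fk [(5, 1), (6, 1), (7, -2), (8, 2)])
           (.br 5 0
            (.br 26 0
             (.fk [(6, 1)])
             (.mv 70))
            (.mv 9)))
          (.mv 30))
         (.mv 15)))
       (.mv 17)))
     (.mv 0))
    (.br 9 0
     (.br 24 0
      (.br 25 0
       (.br 16 0
        (.br 0 0
         (.br 1 0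
          (.fk [(0, 4), (2, 4), (3, -2), (4, 2), (5, 2), (6, 1), (13, 2), (17, -1), (18, 2)])
          (.br 6 0
           (.fk [(1, 24), (2, 40), (3, -4), (4, 12), (5, 2), (6, 1), (7, -3), (8, 3), (10, 8), (11, 2), (13, 2), (17, -8), (18, 12)])
           (.mv 16)))
         (.br 5 0
          (.br 21 0
           (.br 18 0
            (.fk [(0, 2), (1, 2), (2, 12), (3, -7), (4, 5), (5, 2), (6, -1), (7, 3), (8, 1), (13, 9), (17, -6), (18, 9)])
            (.br 22 0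
             (.br 6 0
              (.fk [(0, 48), (1, 248), (2, 88), (3, 3), (4, 63), (5, 114), (6, 114), (7, 21), (8, -26), (13, 114), (17, -43), (18, 114)])
              (.br 1 0
               (.br 2 0
                (.fk [(0, 4), (1, 4), (2, 8), (3, 2), (4, 2), (5, 1), (6, 1), (10, 2), (17, -2), (18, 2)])
                (.mv 44))
               (.mv 16)))
             (.mv 20)))
           (.br 17 0
            (.br 6 0
             (.fk [(0, 6), (1, 14), (2, 28), (3, -21), (4, 15), (5, 3), (6, 3), (7, -3), (8, 1), (13, 3), (17, -4), (18, 3)])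
             (.mv 51))
            (.mv 5)))
          (.mv 9)))
        (.br 11 0
         (.br 22 0
          (.br 12 0
           (.fk [(1, 4), (2, 12), (3, 5), (4, 1), (5, 2), (6, -1), (8, 1), (10, 2), (13, 2), (17, -3), (18, 4)])
           (.mv 55))
          (.mv 24))
         (.mv 15)))
       (.mv 8))
      (.mv 0))
     (.mv 14)))
   (.mv 1))
  (.br 24 0
   (.br 16 0
    (.br 8 0
     (.br 31 0
      (.br 11 0
       (.br 9 0
        (.fk [(0, 8), (1, -8), (5, 3), (6, -3), (7, 1), (8, 3), (10, -8), (11, 6), (13, 6), (17, -4), (18, 4)])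
        (.br 23 0
         (.br 25 0
          (.br 5 0
           (.fk [(1, -16), (2, -16), (3, -4), (4, -4), (5, 3), (6, -1), (7, 1), (8, 3), (10, -12), (11, 6), (13, 6)])
           (.br 0 0
            (.fk [(0, 30), (1, -36), (2, -42), (3, -6), (4, -6), (5, -3), (6, 9), (7, -5), (8, 11), (10, -27), (11, 9), (12, 9), (13, 9)])
            (.mv 9)))
          (.mv 17))
         (.mv 14)))
       (.mv 11))
      (.mv 19))
     (.mv 1))
    (.mv 4))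
   (.mv 0)))

def EB30_0_3_0 : Inst where
  rows :=
   [(false, [1, 1, 1, 0, 0, 0, 0, 0, 0, 0, 0, 0, 0, 0, 0, 0, 0, 0, 0, 0, 0, 0, 0, 0, 0, 0, 0, 0, 0, 0, 0, 0, 0, -1, 0], 0),
    (false, [0, 0, 0, 1, 1, 1, 1, 1, 0, 0, 0, 0, 0, 0, 0, 0, 0, 0, 0, 0, 0, 0, 0, 0, 0, 0, 0, 0, 0, 0, 0, 0, 0, -1, 0], 0),
    (false, [0, 0, 0, 0, 0, 0, 0, 0, 1, 1, 1, 0, 0, 0, 0, 0, 0, 0, 0, 0, 0, 0, 0, 0, 0, 0, 0, 0, 0, 0, 0, 0, 0, -1, 0], 0),
    (false, [0, 0, 0, 0, 0, 0, 0, 0, 0, 0, 0, 1, 1, 1, 0, 0, 0, 0, 0, 0, 0, 0, 0, 0, 0, 0, 0, 0, 0, 0, 0, 0, 0, 0, -1], 0),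
    (false, [0, 0, 0, 0, 0, 0, 0, 0, 0, 0, 0, 0, 0, 0, 1, 1, 1, 1, 1, 0, 0, 0, 0, 0, 0, 0, 0, 0, 0, 0, 0, 0, 0, 0, -3], 1),
    (false, [0, 0, 0, 0, 0, 0, 0, 0, 0, 0, 0, 0, 0, 0, 0, 0, 0, 0, 0, 1, 1, 1, 1, 0, 0, 0, 0, 0, 0, 0, 0, 0, 0, 0, 0], 2),
    (false, [0, 0, 0, 0, 0, 0, 0, 0, 0, 0, 0, 0, 0, 0, 0, 0, 0, 0, 0, 0, 0, 0, 0, 1, 1, 1, 1, 0, 0, 0, 0, 0, 0, 0, 0], 2),
    (false, [0, 1, 4, 4, 1, 0, 1, 4, 0, 1, 4, 0, 1, 4, 4, 1, 0, 1, 4, 1, 0, 1, 4, 1, 0, 1, 4, 0, 1, 4, 0, 0, 0, -8, -4], 4),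
    (false, [4, 1, 0, 4, 1, 0, 1, 4, 4, 1, 0, 4, 1, 0, 4, 1, 0, 1, 4, 4, 1, 0, 1, 4, 1, 0, 1, 0, 1, 4, 0, 0, 0, -8, -4], 4),
    (false, [-1, -1, -1, 1, 1, 1, 1, 1, -1, -1, -1, -1, -1, -1, 1, 1, 1, 1, 1, 0, 0, 0, 0, 0, 0, 0, 0, 1, 1, 1, -1, 0, 0, 0, 0], 0),
    (false, [1, 1, 1, -1, -1, -1, -1, -1, -1, -1, -1, 0, 0, 0, 0, 0, 0, 0, 0, 1, 1, 1, 1, 0, 0, 0, 0, 1, 1, 1, 0, -1, 0, 0, 0], 0),
    (false, [-1, 0, 1, -1, 0, 1, 0, -1, -1, 0, 1, -1, 0, 1, -1, 0, 1, 0, -1, -1, 0, 1, 0, -1, 0, 1, 0, 1, 0, -1, 0, 0, -1, 0, 0], 0),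
    (true, [-1, -1, -1, -1, -1, -1, -1, -1, 1, 1, 1, 0, 0, 0, 0, 0, 0, 0, 0, 0, 0, 0, 0, 1, 1, 1, 1, 1, 1, 1, 0, 0, 0, 0, 0], 0),
    (true, [1, 0, -1, -1, 0, 1, 0, -1, 1, 0, -1, 1, 0, -1, -1, 0, 1, 0, -1, 0, 1, 0, -1, 0, 1, 0, -1, 1, 0, -1, 0, 0, 0, 0, 0], 0),
    (true, [4, 1, 0, 16, 9, 4, 1, 0, 0, 1, 4, 1, 0, 1, 9, 4, 1, 0, 1, 4, 1, 0, 1, 1, 0, 1, 4, 0, 1, 4, 0, 0, 0, 0, 0], 1),
    (true, [0, 0, 0, 0, 0, 0, 0, 0, 0, 0, 0, 0, 0, 0, 0, 0, 0, 0, 0, 0, 0, 0, 0, 0, 0, 0, 0, 0, 0, 0, 0, 0, 0, 1, 0], 0),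
    (true, [0, 0, 0, 0, 0, 0, 0, 0, 0, 0, 0, 0, 0, 0, 0, 0, 0, 0, 0, 0, 0, 0, 0, 0, 0, 0, 0, 0, 0, 0, 0, 0, 0, 0, 1], 0),
    (false, [4, 1, 0, 16, 9, 4, 1, 0, 0, 1, 4, 1, 0, 1, 9, 4, 1, 0, 1, 4, 1, 0, 1, 1, 0, 1, 4, 0, 1, 4, 0, 0, 0, -8, -4], 3),
    (true, [1, 0, -1, 0, 0, 1, 0, -1, -1, 0, 1, 0, -1, 0, 0, 1, 0, -1, 0, 1, 0, -1, 0, 0, -1, 0, 1, -1, 0, 1, 0, 0, 0, 0, 0], 1)]
  moves := EB30_moves0
  reqs := EB30_reqs0
  tree := EB30_0_3_0_tree

theorem EB30_0_3_0_ok : EB30.instOK 0 3 0 EB30_0_3_0 = true := by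
  decide +kernel

theorem EB30_ok0 : ∀ b ∈ EB30.branches, ∃ I : Inst, EB30.instOK 0 b.1 b.2 I = true := by
  intro b hb
  have h : b = (0, 0) ∨ b = (1, 0) ∨ b = (2, 0) ∨ b = (3, 0) := by
    have hb2 : b ∈ [(0, 0), (1, 0), (2, 0), (3, 0)] := hb
    simpa using hb2
  rcases h with rfl | rfl | rfl | rfl
  · exact ⟨EB30_0_0_0, EB30_0_0_0_ok⟩
  · exact ⟨EB30_0_1_0, EB30_0_1_0_ok⟩
  · exact ⟨EB30_0_2_0, EB30_0_2_0_ok⟩
  · exact ⟨EB30_0_3_0, EB30_0_3_0_ok⟩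

def EB30_moves1 : List Move :=
   [([((0, 1, 0), -1)], 0),
    ([((0, 2, 0), -2)], 0),
    ([((1, 0, 1), 1), ((1, 1, 1), 0)], 0),
    ([((0, 2, 2), 1), ((0, 1, 2), 2)], 0),
    ([((1, 2, 0), 1), ((1, 1, 0), 2)], 0),
    ([((0, 1, -1), 0), ((0, 0, 1), -1)], 0),
    ([((1, 2, 2), 0), ((1, 0, 2), 2)], 0),
    ([((0, 1, -1), -1), ((0, 1, 1), -1)], 0),
    ([((0, 2, 2), 0), ((0, 0, 2), 2)], 0),
    ([((2, 2, 1), 0), ((2, 0, 1), 2)], 0),
    ([((0, 2, 1), 0), ((0, 0, 1), 2)], 0),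
    ([((1, 2, 2), 1), ((1, 1, 2), 2)], 0),
    ([((1, 2, 1), 0), ((1, 0, 1), 2)], 0),
    ([((0, 2, 1), 1), ((0, 1, 1), 2)], 0),
    ([((0, 1, 2), 0), ((0, 0, 2), 1)], 0),
    ([((1, 0, -1), 1), ((1, 1, -1), 0)], 0),
    ([((2, 2, 0), 0), ((2, 0, 0), 2)], 0),
    ([((2, 2, 2), 0), ((2, 0, 2), 2)], 0),
    ([((0, 2, 1), -1), ((0, 1, -1), -2)], 0),
    ([((1, 0, 2), 1), ((1, 1, 2), 0)], 0),
    ([((1, 2, 1), 1), ((1, 1, 1), 2)], 0),
    ([((1, 2, 0), 0), ((1, 0, 0), 2)], 0),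
    ([((1, 0, 0), 1), ((1, 1, 0), 0)], 0),
    ([((0, 1, 1), 0), ((0, 0, 1), 1)], 0),
    ([((0, 2, 2), 0), ((1, 0, 2), 2), ((1, 1, 0), -1)], 0),
    ([((1, 2, 0), 0), ((1, 0, 1), 2), ((0, 1, 1), -1)], 0),
    ([((2, 0, -1), 1), ((1, 1, -1), -1), ((0, 1, 1), 0)], 0),
    ([((2, 2, 2), 0), ((2, 0, 1), 2), ((0, 1, -1), -1)], 0),
    ([((0, 2, 1), 0), ((1, 0, 0), -1), ((1, 1, 2), 2)], 0),
    ([((1, 0, 2), 1), ((1, 1, 0), 0), ((0, 1, 1), -1)], 0),
    ([((2, 2, 1), 0), ((2, 0, 0), 2), ((0, 1, -1), -1)], 0),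
    ([((2, 0, -1), 1), ((1, 1, 0), -1), ((0, 1, -1), 0)], 0),
    ([((2, 0, 1), 2), ((1, 2, 0), -1), ((1, 1, 2), 0)], 0),
    ([((0, 2, 1), 0), ((1, 0, 2), 2), ((1, 1, 1), -1)], 0),
    ([((2, 0, 2), 1), ((1, 1, 0), -1), ((0, 1, 2), 0)], 0),
    ([((2, 2, 0), 1), ((1, 0, 1), 2), ((0, 1, 2), 0)], 0),
    ([((1, 2, 2), 0), ((1, 0, 1), 2), ((0, 1, -1), -1)], 0),
    ([((1, 2, 0), 1), ((1, 0, 1), 2), ((1, 1, 2), 0)], 0),
    ([((2, 0, 1), 2), ((1, 2, 0), 0), ((1, 1, 1), -1)], 0),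
    ([((2, 0, 0), 1), ((1, 1, -1), -1), ((0, 1, 2), 0)], 0),
    ([((1, 0, -1), 1), ((1, 1, 1), 0), ((0, 1, -1), -1)], 0),
    ([((1, 0, 1), 1), ((1, 1, -1), 0), ((0, 1, 1), -1)], 0),
    ([((2, 2, 1), 0), ((2, 0, 2), 2), ((0, 1, 1), -1)], 0),
    ([((2, 0, 0), 2), ((1, 2, 1), 0), ((1, 1, -1), -1)], 0),
    ([((2, 2, 1), 1), ((1, 0, 1), 2), ((0, 1, 1), 0)], 0),
    ([((2, 2, 1), 1), ((1, 0, 0), 2), ((0, 1, -1), 0)], 0),
    ([((1, 0, 0), 1), ((1, 1, 2), 0), ((0, 1, -1), -1)], 0),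
    ([((0, 2, 1), 0), ((1, 0, 0), 2), ((1, 1, -1), -1)], 0),
    ([((1, 2, 1), 1), ((0, 1, 2), 0), ((0, 1, 2), 2)], 1),
    ([((1, 2, 0), 1), ((1, 1, 2), 2), ((0, 1, 1), -1)], 0),
    ([((0, 2, 1), 0), ((1, 0, -1), -1), ((1, 1, 1), 2)], 0),
    ([((0, 2, 2), 0), ((1, 0, -2), -1), ((1, 1, 2), 2)], 0),
    ([((2, 0, -1), 1), ((1, 2, 0), 0), ((0, 1, 1), 2)], 0),
    ([((2, 0, 1), 1), ((1, 2, 2), 0), ((0, 1, -1), -2)], 0),
    ([((1, 1, 1), 0)], 1),
    ([((1, 2, 1), 1), ((1, 0, 0), 2), ((1, 1, -1), 0)], 0),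
    ([((1, 2, 1), 0), ((1, 0, 0), 2), ((0, 1, -1), -1)], 0),
    ([((2, 0, 1), 1), ((1, 1, 0), -1), ((0, 1, 1), 0)], 0),
    ([((0, 2, 1), 0), ((0, 1, 2), 2), ((0, 0, 0), -1)], 0),
    ([((2, 0, 1), 1), ((1, 1, 1), -1), ((0, 1, -1), 0)], 0),
    ([((2, 0, 1), 1), ((1, 2, 1), 0), ((0, 1, 1), 2)], 0),
    ([((1, 2, 0), 0), ((1, 0, -1), 1), ((1, 1, 1), 2)], 0),
    ([((0, 2, 2), 0), ((1, 0, 1), 2), ((1, 1, -1), -1)], 0),
    ([((2, 0, 1), 2), ((1, 2, 1), -1), ((1, 1, -1), 0)], 0),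
    ([((2, 2, 0), 0), ((2, 0, 1), 2), ((0, 1, 1), -1)], 0),
    ([((2, 0, 2), 1), ((1, 0, 1), -1), ((1, 1, 0), 0), ((0, 1, 1), 0)], 0),
    ([((0, 2, 1), 0), ((1, 0, 1), 1), ((1, 1, -1), 0), ((0, 0, 0), -2)], 0),
    ([((0, 2, 1), 1), ((1, 0, 0), 1), ((1, 1, 1), 0), ((0, 1, 2), 2)], 0),
    ([((0, 2, 1), 0), ((1, 0, 1), -1), ((1, 0, 1), 2), ((1, 1, -1), 0)], 0),
    ([((0, 2, 1), -1), ((1, 2, 0), 1), ((1, 1, 1), 2), ((0, 1, 2), 2)], 0),
    ([((2, 2, 1), 1), ((0, 2, 2), 0), ((1, 0, 1), 2), ((0, 1, -1), -2)], 0),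
    ([((2, 2, 1), 1), ((0, 2, 2), 0), ((1, 0, 2), 2), ((0, 1, 1), 2)], 0),
    ([((2, 2, 1), 1), ((1, 0, 0), 1), ((1, 1, 2), 2), ((0, 1, 1), 0)], 0),
    ([((2, 2, 2), 1), ((2, 0, 0), 2), ((1, 2, 0), 0), ((0, 1, 2), 2)], 0),
    ([((2, 2, 2), 0), ((2, 0, 0), 2), ((0, 1, -1), -1), ((0, 1, -1), -1)], 0),
    ([((2, 2, 2), 0), ((2, 0, 1), 2), ((1, 2, 0), 0), ((1, 0, 1), 2)], 0),
    ([((2, 2, 0), 0), ((2, 0, 2), 2), ((0, 2, 2), 0), ((0, 0, 0), -2)], 0),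
    ([((2, 2, 1), 0), ((2, 0, 0), 2), ((1, 2, 0), 0), ((1, 0, 1), 2)], 0),
    ([((2, 2, 1), 1), ((2, 0, 0), 2), ((1, 2, 0), 0), ((0, 1, 1), 2)], 0),
    ([((2, 2, 1), 0), ((2, 0, 0), 1), ((1, 0, 2), 2), ((0, 1, 2), 0)], 0),
    ([((2, 2, 1), 1), ((2, 0, 0), 2), ((1, 1, -1), -1), ((0, 1, 1), 0)], 0),
    ([((2, 2, 0), 0), ((2, 0, 2), 2), ((0, 1, 1), -1), ((0, 1, 1), -1)], 0),
    ([((2, 2, 0), 1), ((0, 2, 1), 0), ((1, 0, 0), 2), ((0, 1, 2), 2)], 0),
    ([((2, 2, 0), 0), ((0, 2, 2), 0), ((1, 0, 1), 2), ((1, 0, 1), 2)], 0),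
    ([((2, 2, 0), 1), ((1, 0, -1), 1), ((1, 1, 2), 2), ((0, 1, 1), 0)], 0),
    ([((2, 2, 0), 1), ((1, 0, 1), 1), ((1, 1, 0), 2), ((0, 1, 1), 0)], 0),
    ([((2, 2, 1), 0), ((2, 2, 1), 0), ((2, 0, 0), 2), ((2, 0, 2), 2)], 0),
    ([((2, 0, 0), 1), ((1, 0, -1), -1), ((1, 1, 2), 0), ((0, 1, -1), 0)], 0),
    ([((2, 0, 0), 1), ((1, 0, 1), -1), ((1, 1, 0), 0), ((0, 1, -1), 0)], 0),
    ([((2, 0, -1), 1), ((0, 2, 2), 0), ((1, 1, -1), -1), ((0, 1, -1), -2)], 0),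
    ([((2, 2, 2), 1), ((1, 0, 1), 2), ((0, 1, -1), -1), ((0, 1, 2), 0)], 0),
    ([((2, 0, -1), 1), ((1, 2, 0), 1), ((1, 1, 2), 0), ((0, 1, -1), -2)], 0),
    ([((2, 2, 2), 1), ((1, 0, -1), 1), ((1, 1, 2), 2), ((0, 1, -1), 0)], 0),
    ([((2, 0, -1), 1), ((1, 0, -2), -1), ((1, 1, 0), 0), ((0, 1, 1), 0)], 0),
    ([((2, 0, -1), 1), ((1, 1, 1), -1), ((0, 1, -1), -1), ((0, 1, -1), 0)], 0),
    ([((1, 0, 1), 1), ((1, 1, 2), 0), ((0, 1, -1), 0), ((0, 0, 0), -1)], 0),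
    ([((0, 2, 2), 0), ((0, 1, -1), -1), ((0, 1, -1), -1), ((0, 0, 0), -2)], 0),
    ([((1, 2, 1), 1), ((1, 0, -1), -1), ((1, 0, -1), 1)], 1),
    ([((1, 0, -1), -1), ((0, 1, 1), 0), ((0, 1, 1), 0)], 1),
    ([((1, 0, -1), 1), ((1, 1, 0), 0), ((1, 1, 0), 0)], 1),
    ([((0, 2, 2), 0), ((1, 0, 1), 2), ((1, 1, 0), -1), ((0, 1, -1), -1)], 0),
    ([((0, 2, 2), 1), ((1, 0, 1), 1), ((1, 1, 0), 0), ((0, 1, 1), 2)], 0),
    ([((1, 2, 2), 0), ((1, 0, 0), 2), ((0, 1, -1), -1), ((0, 1, -1), -1)], 0),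
    ([((0, 2, 2), 1), ((1, 0, 1), -1), ((1, 1, 2), 2), ((0, 1, -1), 0)], 0),
    ([((1, 0, 1), 1), ((1, 1, 0), -1), ((0, 1, 1), 0), ((0, 1, 1), 0)], 1),
    ([((2, 2, 0), 1), ((1, 1, 0), 2), ((0, 1, 1), 0)], 1)]

def EB30_reqs1 : List (List ℤ) :=
   [[0, 0, 0, 0, 0, 0, 0, 0, 0, 0, 0, 0, 0, 0, 0, 0, 0, 0, 0, 0, 0, 0, 0, 0, 1, 0, 0, 0, 0, 0, 0, 0, 0, 0, 0],
    [0, 0, 0, 0, 0, 0, 0, 0, 1, 0, 0, 0, 0, 0, 0, 0, 0, 0, 0, 0, 0, 0, 0, 0, 0, 0, 0, 0, 0, 0, 0, 0, 0, 0, 0],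
    [0, 0, 0, 0, 0, 0, 0, 0, 0, 0, 0, 0, 0, 0, 0, 0, 0, 1, 0, 0, 0, 1, 0, 0, 0, 0, 0, 0, 0, 0, 0, 0, 0, 0, 0],
    [0, 0, 0, 0, 0, 0, 0, 0, 0, 0, 1, 0, 0, 0, 0, 0, 0, 0, 0, 0, 0, 0, 0, 0, 0, 0, 1, 0, 0, 0, 0, 0, 0, 0, 0],
    [0, 0, 0, 0, 0, 0, 0, 0, 0, 0, 0, 1, 0, 0, 0, 0, 0, 0, 0, 0, 1, 0, 0, 0, 0, 0, 0, 0, 0, 0, 0, 0, 0, 0, 0],
    [0, 0, 0, 0, 0, 0, 0, 0, 0, 0, 0, 0, 0, 0, 0, 0, 0, 0, 0, 0, 0, 0, 0, 1, 0, 0, 0, 0, 1, 0, 0, 0, 0, 0, 0],
    [0, 0, 0, 0, 0, 0, 0, 0, 0, 0, 0, 0, 0, 1, 0, 0, 0, 0, 1, 0, 0, 0, 0, 0, 0, 0, 0, 0, 0, 0, 0, 0, 0, 0, 0],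
    [0, 0, 0, 0, 0, 0, 0, 0, 0, 0, 0, 0, 0, 0, 0, 0, 0, 0, 0, 0, 0, 0, 0, 1, 0, 1, 0, 0, 0, 0, 0, 0, 0, 0, 0],
    [0, 0, 0, 0, 0, 0, 0, 0, 0, 0, 1, 0, 0, 0, 0, 0, 0, 0, 0, 0, 0, 0, 0, 0, 0, 0, 0, 0, 0, 1, 0, 0, 0, 0, 0],
    [0, 1, 0, 0, 0, 0, 1, 0, 0, 0, 0, 0, 0, 0, 0, 0, 0, 0, 0, 0, 0, 0, 0, 0, 0, 0, 0, 0, 0, 0, 0, 0, 0, 0, 0],
    [0, 0, 0, 0, 0, 0, 0, 0, 0, 1, 0, 0, 0, 0, 0, 0, 0, 0, 0, 0, 0, 0, 0, 0, 0, 0, 0, 0, 1, 0, 0, 0, 0, 0, 0],
    [0, 0, 0, 0, 0, 0, 0, 0, 0, 0, 0, 0, 0, 1, 0, 0, 0, 0, 0, 0, 0, 0, 1, 0, 0, 0, 0, 0, 0, 0, 0, 0, 0, 0, 0],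
    [0, 0, 0, 0, 0, 0, 0, 0, 0, 0, 0, 0, 1, 0, 0, 0, 0, 1, 0, 0, 0, 0, 0, 0, 0, 0, 0, 0, 0, 0, 0, 0, 0, 0, 0],
    [0, 0, 0, 0, 0, 0, 0, 0, 0, 1, 0, 0, 0, 0, 0, 0, 0, 0, 0, 0, 0, 0, 0, 0, 0, 1, 0, 0, 0, 0, 0, 0, 0, 0, 0],
    [0, 0, 0, 0, 0, 0, 0, 0, 0, 0, 0, 0, 0, 0, 0, 0, 0, 0, 0, 0, 0, 0, 0, 0, 0, 0, 1, 0, 0, 1, 0, 0, 0, 0, 0],
    [0, 0, 0, 0, 0, 0, 0, 0, 0, 0, 0, 0, 0, 0, 0, 1, 0, 0, 0, 1, 0, 0, 0, 0, 0, 0, 0, 0, 0, 0, 0, 0, 0, 0, 0],
    [1, 0, 0, 0, 0, 1, 0, 0, 0, 0, 0, 0, 0, 0, 0, 0, 0, 0, 0, 0, 0, 0, 0, 0, 0, 0, 0, 0, 0, 0, 0, 0, 0, 0, 0],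
    [0, 0, 1, 0, 0, 0, 0, 1, 0, 0, 0, 0, 0, 0, 0, 0, 0, 0, 0, 0, 0, 0, 0, 0, 0, 0, 0, 0, 0, 0, 0, 0, 0, 0, 0],
    [0, 0, 0, 0, 0, 0, 0, 0, 0, 1, 0, 0, 0, 0, 0, 0, 0, 0, 0, 0, 0, 0, 0, 1, 0, 0, 0, 0, 0, 0, 0, 0, 0, 0, 0],
    [0, 0, 0, 0, 0, 0, 0, 0, 0, 0, 0, 0, 0, 0, 0, 0, 0, 0, 1, 0, 0, 0, 1, 0, 0, 0, 0, 0, 0, 0, 0, 0, 0, 0, 0],
    [0, 0, 0, 0, 0, 0, 0, 0, 0, 0, 0, 0, 1, 0, 0, 0, 0, 0, 0, 0, 0, 1, 0, 0, 0, 0, 0, 0, 0, 0, 0, 0, 0, 0, 0],
    [0, 0, 0, 0, 0, 0, 0, 0, 0, 0, 0, 1, 0, 0, 0, 0, 1, 0, 0, 0, 0, 0, 0, 0, 0, 0, 0, 0, 0, 0, 0, 0, 0, 0, 0],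
    [0, 0, 0, 0, 0, 0, 0, 0, 0, 0, 0, 0, 0, 0, 0, 0, 1, 0, 0, 0, 1, 0, 0, 0, 0, 0, 0, 0, 0, 0, 0, 0, 0, 0, 0],
    [0, 0, 0, 0, 0, 0, 0, 0, 0, 0, 0, 0, 0, 0, 0, 0, 0, 0, 0, 0, 0, 0, 0, 0, 0, 1, 0, 0, 1, 0, 0, 0, 0, 0, 0],
    [0, 0, 0, 0, 0, 0, 0, 0, 0, 0, 1, 0, 0, 0, 0, 0, 0, 0, 1, 0, 1, 0, 0, 0, 0, 0, 0, 0, 0, 0, 0, 0, 0, 0, 0],
    [0, 0, 0, 0, 0, 0, 0, 0, 0, 0, 0, 1, 0, 0, 0, 0, 0, 1, 0, 0, 0, 0, 0, 0, 0, 1, 0, 0, 0, 0, 0, 0, 0, 0, 0],
    [0, 0, 0, 0, 1, 0, 0, 0, 0, 0, 0, 0, 0, 0, 0, 0, 0, 0, 0, 1, 0, 0, 0, 0, 0, 1, 0, 0, 0, 0, 0, 0, 0, 0, 0],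
    [0, 0, 1, 0, 0, 0, 1, 0, 0, 0, 0, 0, 0, 0, 0, 0, 0, 0, 0, 0, 0, 0, 0, 1, 0, 0, 0, 0, 0, 0, 0, 0, 0, 0, 0],
    [0, 0, 0, 0, 0, 0, 0, 0, 0, 1, 0, 0, 0, 0, 0, 0, 1, 0, 0, 0, 0, 0, 1, 0, 0, 0, 0, 0, 0, 0, 0, 0, 0, 0, 0],
    [0, 0, 0, 0, 0, 0, 0, 0, 0, 0, 0, 0, 0, 0, 0, 0, 0, 0, 1, 0, 1, 0, 0, 0, 0, 1, 0, 0, 0, 0, 0, 0, 0, 0, 0],
    [0, 1, 0, 0, 0, 1, 0, 0, 0, 0, 0, 0, 0, 0, 0, 0, 0, 0, 0, 0, 0, 0, 0, 1, 0, 0, 0, 0, 0, 0, 0, 0, 0, 0, 0],
    [0, 0, 0, 0, 1, 0, 0, 0, 0, 0, 0, 0, 0, 0, 0, 0, 0, 0, 0, 0, 1, 0, 0, 1, 0, 0, 0, 0, 0, 0, 0, 0, 0, 0, 0],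
    [0, 0, 0, 0, 0, 0, 1, 0, 0, 0, 0, 1, 0, 0, 0, 0, 0, 0, 0, 0, 0, 0, 1, 0, 0, 0, 0, 0, 0, 0, 0, 0, 0, 0, 0],
    [0, 0, 0, 0, 0, 0, 0, 0, 0, 1, 0, 0, 0, 0, 0, 0, 0, 0, 1, 0, 0, 1, 0, 0, 0, 0, 0, 0, 0, 0, 0, 0, 0, 0, 0],
    [0, 0, 0, 0, 0, 0, 0, 1, 0, 0, 0, 0, 0, 0, 0, 0, 0, 0, 0, 0, 1, 0, 0, 0, 0, 0, 1, 0, 0, 0, 0, 0, 0, 0, 0],
    [1, 0, 0, 0, 0, 0, 0, 0, 0, 0, 0, 0, 0, 0, 0, 0, 0, 1, 0, 0, 0, 0, 0, 0, 0, 0, 1, 0, 0, 0, 0, 0, 0, 0, 0],
    [0, 0, 0, 0, 0, 0, 0, 0, 0, 0, 0, 0, 0, 1, 0, 0, 0, 1, 0, 0, 0, 0, 0, 1, 0, 0, 0, 0, 0, 0, 0, 0, 0, 0, 0],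
    [0, 0, 0, 0, 0, 0, 0, 0, 0, 0, 0, 1, 0, 0, 0, 0, 0, 1, 0, 0, 0, 0, 1, 0, 0, 0, 0, 0, 0, 0, 0, 0, 0, 0, 0],
    [0, 0, 0, 0, 0, 0, 1, 0, 0, 0, 0, 1, 0, 0, 0, 0, 0, 0, 0, 0, 0, 1, 0, 0, 0, 0, 0, 0, 0, 0, 0, 0, 0, 0, 0],
    [0, 0, 0, 0, 0, 1, 0, 0, 0, 0, 0, 0, 0, 0, 0, 0, 0, 0, 0, 1, 0, 0, 0, 0, 0, 0, 1, 0, 0, 0, 0, 0, 0, 0, 0],
    [0, 0, 0, 0, 0, 0, 0, 0, 0, 0, 0, 0, 0, 0, 0, 1, 0, 0, 0, 0, 0, 1, 0, 1, 0, 0, 0, 0, 0, 0, 0, 0, 0, 0, 0],
    [0, 0, 0, 0, 0, 0, 0, 0, 0, 0, 0, 0, 0, 0, 0, 0, 0, 1, 0, 1, 0, 0, 0, 0, 0, 1, 0, 0, 0, 0, 0, 0, 0, 0, 0],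
    [0, 1, 0, 0, 0, 0, 0, 1, 0, 0, 0, 0, 0, 0, 0, 0, 0, 0, 0, 0, 0, 0, 0, 0, 0, 1, 0, 0, 0, 0, 0, 0, 0, 0, 0],
    [0, 0, 0, 0, 0, 1, 0, 0, 0, 0, 0, 0, 1, 0, 0, 0, 0, 0, 0, 1, 0, 0, 0, 0, 0, 0, 0, 0, 0, 0, 0, 0, 0, 0, 0],
    [0, 1, 0, 0, 0, 0, 0, 0, 0, 0, 0, 0, 0, 0, 0, 0, 0, 1, 0, 0, 0, 0, 0, 0, 0, 1, 0, 0, 0, 0, 0, 0, 0, 0, 0],
    [0, 1, 0, 0, 0, 0, 0, 0, 0, 0, 0, 0, 0, 0, 0, 0, 1, 0, 0, 0, 0, 0, 0, 1, 0, 0, 0, 0, 0, 0, 0, 0, 0, 0, 0],
    [0, 0, 0, 0, 0, 0, 0, 0, 0, 0, 0, 0, 0, 0, 0, 0, 1, 0, 0, 0, 0, 0, 1, 1, 0, 0, 0, 0, 0, 0, 0, 0, 0, 0, 0],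
    [0, 0, 0, 0, 0, 0, 0, 0, 0, 1, 0, 0, 0, 0, 0, 0, 1, 0, 0, 1, 0, 0, 0, 0, 0, 0, 0, 0, 0, 0, 0, 0, 0, 0, 0],
    [0, 0, 0, 0, 0, 0, 0, 0, 0, 0, 0, 0, 1, 0, 0, 0, 0, 0, 0, 0, 0, 0, 0, 0, 0, 0, 2, 0, 0, 0, 0, 0, 0, 0, 0],
    [0, 0, 0, 0, 0, 0, 0, 0, 0, 0, 0, 1, 0, 0, 0, 0, 0, 0, 0, 0, 0, 0, 1, 0, 0, 1, 0, 0, 0, 0, 0, 0, 0, 0, 0],
    [0, 0, 0, 0, 0, 0, 0, 0, 0, 1, 0, 0, 0, 0, 0, 1, 0, 0, 0, 0, 0, 1, 0, 0, 0, 0, 0, 0, 0, 0, 0, 0, 0, 0, 0],
    [0, 0, 0, 0, 0, 0, 0, 0, 0, 0, 1, 0, 0, 0, 1, 0, 0, 0, 0, 0, 0, 0, 1, 0, 0, 0, 0, 0, 0, 0, 0, 0, 0, 0, 0],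
    [0, 0, 0, 0, 1, 0, 0, 0, 0, 0, 0, 1, 0, 0, 0, 0, 0, 0, 0, 0, 0, 0, 0, 0, 0, 1, 0, 0, 0, 0, 0, 0, 0, 0, 0],
    [0, 0, 0, 0, 0, 0, 1, 0, 0, 0, 0, 0, 0, 1, 0, 0, 0, 0, 0, 0, 0, 0, 0, 1, 0, 0, 0, 0, 0, 0, 0, 0, 0, 0, 0],
    [0, 0, 0, 0, 0, 0, 0, 0, 0, 0, 0, 0, 0, 0, 0, 0, 0, 0, 0, 0, 0, 1, 0, 0, 0, 0, 0, 0, 0, 0, 0, 1, 1, 0, 0],
    [0, 0, 0, 0, 0, 0, 0, 0, 0, 0, 0, 0, 1, 0, 0, 0, 1, 0, 0, 1, 0, 0, 0, 0, 0, 0, 0, 0, 0, 0, 0, 0, 0, 0, 0],
    [0, 0, 0, 0, 0, 0, 0, 0, 0, 0, 0, 0, 1, 0, 0, 0, 1, 0, 0, 0, 0, 0, 0, 1, 0, 0, 0, 0, 0, 0, 0, 0, 0, 0, 0],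
    [0, 0, 0, 0, 0, 0, 1, 0, 0, 0, 0, 0, 0, 0, 0, 0, 0, 0, 0, 0, 1, 0, 0, 0, 0, 1, 0, 0, 0, 0, 0, 0, 0, 0, 0],
    [0, 0, 0, 0, 0, 0, 0, 0, 0, 1, 0, 0, 0, 0, 0, 0, 0, 0, 0, 0, 0, 0, 0, 0, 0, 0, 1, 1, 0, 0, 0, 0, 0, 0, 0],
    [0, 0, 0, 0, 0, 0, 1, 0, 0, 0, 0, 0, 0, 0, 0, 0, 0, 0, 0, 0, 0, 1, 0, 1, 0, 0, 0, 0, 0, 0, 0, 0, 0, 0, 0],
    [0, 0, 0, 0, 0, 0, 1, 0, 0, 0, 0, 0, 1, 0, 0, 0, 0, 0, 0, 0, 0, 0, 0, 0, 0, 1, 0, 0, 0, 0, 0, 0, 0, 0, 0],
    [0, 0, 0, 0, 0, 0, 0, 0, 0, 0, 0, 1, 0, 0, 0, 1, 0, 0, 0, 0, 0, 1, 0, 0, 0, 0, 0, 0, 0, 0, 0, 0, 0, 0, 0],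
    [0, 0, 0, 0, 0, 0, 0, 0, 0, 0, 1, 0, 0, 0, 0, 0, 0, 1, 0, 1, 0, 0, 0, 0, 0, 0, 0, 0, 0, 0, 0, 0, 0, 0, 0],
    [0, 0, 0, 0, 0, 0, 1, 0, 0, 0, 0, 0, 1, 0, 0, 0, 0, 0, 0, 1, 0, 0, 0, 0, 0, 0, 0, 0, 0, 0, 0, 0, 0, 0, 0],
    [1, 0, 0, 0, 0, 0, 1, 0, 0, 0, 0, 0, 0, 0, 0, 0, 0, 0, 0, 0, 0, 0, 0, 0, 0, 1, 0, 0, 0, 0, 0, 0, 0, 0, 0],
    [0, 0, 0, 0, 0, 0, 0, 1, 0, 0, 0, 0, 0, 0, 0, 0, 0, 1, 0, 0, 1, 0, 0, 0, 0, 1, 0, 0, 0, 0, 0, 0, 0, 0, 0],
    [0, 0, 0, 0, 0, 0, 0, 0, 0, 1, 0, 0, 0, 0, 0, 0, 0, 1, 0, 1, 0, 0, 0, 0, 0, 0, 0, 1, 0, 0, 0, 0, 0, 0, 0],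
    [0, 0, 0, 0, 0, 0, 0, 0, 0, 1, 0, 0, 0, 0, 0, 0, 1, 0, 0, 0, 0, 1, 0, 0, 0, 0, 1, 0, 0, 0, 0, 0, 0, 0, 0],
    [0, 0, 0, 0, 0, 0, 0, 0, 0, 1, 0, 0, 0, 0, 0, 0, 0, 2, 0, 1, 0, 0, 0, 0, 0, 0, 0, 0, 0, 0, 0, 0, 0, 0, 0],
    [0, 0, 0, 0, 0, 0, 0, 0, 0, 1, 0, 1, 0, 0, 0, 0, 0, 0, 0, 0, 0, 1, 0, 0, 0, 0, 1, 0, 0, 0, 0, 0, 0, 0, 0],
    [0, 1, 0, 0, 0, 0, 0, 0, 0, 0, 1, 0, 0, 0, 0, 0, 0, 1, 0, 0, 0, 0, 0, 1, 0, 0, 0, 0, 0, 0, 0, 0, 0, 0, 0],
    [0, 1, 0, 0, 0, 0, 0, 0, 0, 0, 1, 0, 0, 0, 0, 0, 0, 0, 1, 0, 0, 0, 0, 0, 0, 1, 0, 0, 0, 0, 0, 0, 0, 0, 0],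
    [0, 1, 0, 0, 0, 0, 0, 0, 0, 0, 0, 0, 0, 0, 0, 0, 1, 0, 0, 0, 0, 0, 1, 0, 0, 1, 0, 0, 0, 0, 0, 0, 0, 0, 0],
    [0, 0, 1, 0, 0, 1, 0, 0, 0, 0, 0, 1, 0, 0, 0, 0, 0, 0, 0, 0, 0, 0, 0, 0, 0, 0, 1, 0, 0, 0, 0, 0, 0, 0, 0],
    [0, 0, 1, 0, 0, 1, 0, 0, 0, 0, 0, 0, 0, 0, 0, 0, 0, 0, 0, 0, 0, 0, 0, 2, 0, 0, 0, 0, 0, 0, 0, 0, 0, 0, 0],
    [0, 0, 1, 0, 0, 0, 1, 0, 0, 0, 0, 1, 0, 0, 0, 0, 0, 1, 0, 0, 0, 0, 0, 0, 0, 0, 0, 0, 0, 0, 0, 0, 0, 0, 0],
    [1, 0, 0, 0, 0, 0, 0, 1, 0, 0, 1, 0, 0, 0, 0, 0, 0, 0, 0, 0, 0, 0, 0, 0, 0, 0, 0, 1, 0, 0, 0, 0, 0, 0, 0],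
    [0, 1, 0, 0, 0, 1, 0, 0, 0, 0, 0, 1, 0, 0, 0, 0, 0, 1, 0, 0, 0, 0, 0, 0, 0, 0, 0, 0, 0, 0, 0, 0, 0, 0, 0],
    [0, 1, 0, 0, 0, 1, 0, 0, 0, 0, 0, 1, 0, 0, 0, 0, 0, 0, 0, 0, 0, 0, 0, 0, 0, 1, 0, 0, 0, 0, 0, 0, 0, 0, 0],
    [0, 1, 0, 0, 0, 1, 0, 0, 0, 0, 0, 0, 0, 0, 0, 0, 0, 0, 1, 0, 0, 0, 0, 0, 0, 0, 1, 0, 0, 0, 0, 0, 0, 0, 0],
    [0, 1, 0, 0, 0, 1, 0, 0, 0, 0, 0, 0, 0, 0, 0, 0, 0, 0, 0, 1, 0, 0, 0, 0, 0, 1, 0, 0, 0, 0, 0, 0, 0, 0, 0],
    [1, 0, 0, 0, 0, 0, 0, 1, 0, 0, 0, 0, 0, 0, 0, 0, 0, 0, 0, 0, 0, 0, 0, 0, 0, 2, 0, 0, 0, 0, 0, 0, 0, 0, 0],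
    [1, 0, 0, 0, 0, 0, 0, 0, 0, 1, 0, 0, 0, 0, 0, 0, 1, 0, 0, 0, 0, 0, 0, 0, 0, 0, 1, 0, 0, 0, 0, 0, 0, 0, 0],
    [1, 0, 0, 0, 0, 0, 0, 0, 0, 0, 1, 0, 0, 0, 0, 0, 0, 2, 0, 0, 0, 0, 0, 0, 0, 0, 0, 0, 0, 0, 0, 0, 0, 0, 0],
    [1, 0, 0, 0, 0, 0, 0, 0, 0, 0, 0, 0, 0, 0, 0, 1, 0, 0, 0, 0, 0, 0, 1, 0, 0, 1, 0, 0, 0, 0, 0, 0, 0, 0, 0],
    [1, 0, 0, 0, 0, 0, 0, 0, 0, 0, 0, 0, 0, 0, 0, 0, 0, 1, 0, 0, 1, 0, 0, 0, 0, 1, 0, 0, 0, 0, 0, 0, 0, 0, 0],
    [0, 2, 0, 0, 0, 1, 0, 1, 0, 0, 0, 0, 0, 0, 0, 0, 0, 0, 0, 0, 0, 0, 0, 0, 0, 0, 0, 0, 0, 0, 0, 0, 0, 0, 0],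
    [0, 0, 0, 0, 0, 1, 0, 0, 0, 0, 0, 0, 0, 0, 0, 1, 0, 0, 0, 0, 0, 0, 1, 1, 0, 0, 0, 0, 0, 0, 0, 0, 0, 0, 0],
    [0, 0, 0, 0, 0, 1, 0, 0, 0, 0, 0, 0, 0, 0, 0, 0, 0, 1, 0, 0, 1, 0, 0, 1, 0, 0, 0, 0, 0, 0, 0, 0, 0, 0, 0],
    [0, 0, 0, 0, 1, 0, 0, 0, 0, 0, 1, 0, 0, 0, 0, 0, 0, 0, 0, 1, 0, 0, 0, 1, 0, 0, 0, 0, 0, 0, 0, 0, 0, 0, 0],
    [0, 0, 1, 0, 0, 0, 0, 0, 0, 0, 0, 0, 0, 0, 0, 0, 0, 1, 0, 0, 0, 0, 0, 1, 0, 0, 1, 0, 0, 0, 0, 0, 0, 0, 0],
    [0, 0, 0, 0, 1, 0, 0, 0, 0, 0, 0, 1, 0, 0, 0, 0, 0, 0, 0, 0, 0, 0, 1, 1, 0, 0, 0, 0, 0, 0, 0, 0, 0, 0, 0],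
    [0, 0, 1, 0, 0, 0, 0, 0, 0, 0, 0, 0, 0, 0, 0, 1, 0, 0, 0, 0, 0, 0, 1, 1, 0, 0, 0, 0, 0, 0, 0, 0, 0, 0, 0],
    [0, 0, 0, 0, 1, 0, 0, 0, 0, 0, 0, 0, 0, 0, 1, 0, 0, 0, 0, 0, 1, 0, 0, 0, 0, 1, 0, 0, 0, 0, 0, 0, 0, 0, 0],
    [0, 0, 0, 0, 1, 0, 0, 0, 0, 0, 0, 0, 0, 0, 0, 0, 0, 0, 0, 0, 0, 1, 0, 2, 0, 0, 0, 0, 0, 0, 0, 0, 0, 0, 0],
    [0, 0, 0, 0, 0, 0, 0, 0, 0, 0, 0, 0, 0, 0, 0, 0, 0, 1, 0, 0, 0, 0, 1, 1, 0, 0, 0, 1, 0, 0, 0, 0, 0, 0, 0],
    [0, 0, 0, 0, 0, 0, 0, 0, 0, 0, 1, 0, 0, 0, 0, 0, 0, 0, 0, 0, 0, 0, 0, 2, 0, 0, 0, 1, 0, 0, 0, 0, 0, 0, 0],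
    [0, 0, 0, 0, 0, 0, 0, 0, 0, 0, 0, 0, 1, 0, 0, 2, 0, 0, 0, 0, 0, 0, 0, 0, 0, 0, 0, 0, 0, 0, 1, 0, 0, 0, 0],
    [0, 0, 0, 0, 0, 0, 0, 0, 0, 0, 0, 0, 0, 0, 0, 1, 0, 0, 0, 0, 0, 0, 0, 0, 0, 2, 0, 0, 0, 0, 0, 0, 1, 0, 0],
    [0, 0, 0, 0, 0, 0, 0, 0, 0, 0, 0, 0, 0, 0, 0, 1, 0, 0, 0, 0, 2, 0, 0, 0, 0, 0, 0, 0, 0, 0, 0, 1, 0, 0, 0],
    [0, 0, 0, 0, 0, 0, 0, 0, 0, 0, 1, 0, 0, 0, 0, 0, 0, 1, 0, 0, 1, 0, 0, 1, 0, 0, 0, 0, 0, 0, 0, 0, 0, 0, 0],
    [0, 0, 0, 0, 0, 0, 0, 0, 0, 0, 1, 0, 0, 0, 0, 0, 0, 1, 0, 0, 1, 0, 0, 0, 0, 1, 0, 0, 0, 0, 0, 0, 0, 0, 0],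
    [0, 0, 0, 0, 0, 0, 0, 0, 0, 0, 0, 0, 0, 1, 0, 0, 1, 0, 0, 0, 0, 0, 0, 2, 0, 0, 0, 0, 0, 0, 0, 0, 0, 0, 0],
    [0, 0, 0, 0, 0, 0, 0, 0, 0, 0, 1, 0, 0, 0, 0, 0, 0, 1, 0, 0, 0, 0, 1, 1, 0, 0, 0, 0, 0, 0, 0, 0, 0, 0, 0],
    [0, 0, 0, 0, 0, 0, 0, 0, 0, 0, 0, 0, 0, 0, 0, 0, 0, 1, 0, 0, 1, 0, 0, 0, 0, 2, 0, 0, 0, 0, 0, 0, 1, 0, 0],
    [1, 0, 0, 0, 0, 0, 0, 0, 0, 0, 0, 0, 0, 0, 0, 0, 0, 0, 0, 0, 1, 0, 0, 0, 0, 1, 0, 0, 0, 0, 0, 1, 1, 0, 0]]

def EB30_base1 : List Row :=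
   [(false, [1, 1, 1, 0, 0, 0, 0, 0, 0, 0, 0, 0, 0, 0, 0, 0, 0, 0, 0, 0, 0, 0, 0, 0, 0, 0, 0, 0, 0, 0, 0, 0, 0, -1, 0], 0),
    (false, [0, 0, 0, 1, 1, 1, 1, 1, 0, 0, 0, 0, 0, 0, 0, 0, 0, 0, 0, 0, 0, 0, 0, 0, 0, 0, 0, 0, 0, 0, 0, 0, 0, -1, 0], 0),
    (false, [0, 0, 0, 0, 0, 0, 0, 0, 1, 1, 1, 0, 0, 0, 0, 0, 0, 0, 0, 0, 0, 0, 0, 0, 0, 0, 0, 0, 0, 0, 0, 0, 0, -1, 0], 0),
    (false, [0, 0, 0, 0, 0, 0, 0, 0, 0, 0, 0, 1, 1, 1, 0, 0, 0, 0, 0, 0, 0, 0, 0, 0, 0, 0, 0, 0, 0, 0, 0, 0, 0, 0, -1], 0),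
    (false, [0, 0, 0, 0, 0, 0, 0, 0, 0, 0, 0, 0, 0, 0, 1, 1, 1, 1, 1, 0, 0, 0, 0, 0, 0, 0, 0, 0, 0, 0, 0, 0, 0, 0, -3], 1),
    (false, [0, 0, 0, 0, 0, 0, 0, 0, 0, 0, 0, 0, 0, 0, 0, 0, 0, 0, 0, 1, 1, 1, 1, 0, 0, 0, 0, 0, 0, 0, 0, 0, 0, 0, 0], 2),
    (false, [0, 0, 0, 0, 0, 0, 0, 0, 0, 0, 0, 0, 0, 0, 0, 0, 0, 0, 0, 0, 0, 0, 0, 1, 1, 1, 1, 0, 0, 0, 0, 0, 0, 0, 0], 2),
    (false, [0, 1, 4, 4, 1, 0, 1, 4, 0, 1, 4, 0, 1, 4, 4, 1, 0, 1, 4, 1, 0, 1, 4, 1, 0, 1, 4, 0, 1, 4, 0, 0, 0, -8, -4], 3),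
    (false, [4, 1, 0, 4, 1, 0, 1, 4, 4, 1, 0, 4, 1, 0, 4, 1, 0, 1, 4, 4, 1, 0, 1, 4, 1, 0, 1, 0, 1, 4, 0, 0, 0, -8, -4], 3),
    (false, [-1, -1, -1, 1, 1, 1, 1, 1, -1, -1, -1, -1, -1, -1, 1, 1, 1, 1, 1, 0, 0, 0, 0, 0, 0, 0, 0, 1, 1, 1, -1, 0, 0, 0, 0], 0),
    (false, [1, 1, 1, -1, -1, -1, -1, -1, -1, -1, -1, 0, 0, 0, 0, 0, 0, 0, 0, 1, 1, 1, 1, 0, 0, 0, 0, 1, 1, 1, 0, -1, 0, 0, 0], 0),
    (false, [-1, 0, 1, -1, 0, 1, 0, -1, -1, 0, 1, -1, 0, 1, -1, 0, 1, 0, -1, -1, 0, 1, 0, -1, 0, 1, 0, 1, 0, -1, 0, 0, -1, 0, 0], 0),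
    (true, [-1, -1, -1, -1, -1, -1, -1, -1, 1, 1, 1, 0, 0, 0, 0, 0, 0, 0, 0, 0, 0, 0, 0, 1, 1, 1, 1, 1, 1, 1, 0, 0, 0, 0, 0], 0),
    (true, [1, 0, -1, -1, 0, 1, 0, -1, 1, 0, -1, 1, 0, -1, -1, 0, 1, 0, -1, 0, 1, 0, -1, 0, 1, 0, -1, 1, 0, -1, 0, 0, 0, 0, 0], 0),
    (true, [4, 1, 0, 16, 9, 4, 1, 0, 0, 1, 4, 1, 0, 1, 9, 4, 1, 0, 1, 4, 1, 0, 1, 1, 0, 1, 4, 0, 1, 4, 0, 0, 0, 0, 0], 1),
    (true, [0, 0, 0, 0, 0, 0, 0, 0, 0, 0, 0, 0, 0, 0, 0, 0, 0, 0, 0, 0, 0, 0, 0, 0, 0, 0, 0, 0, 0, 0, 0, 0, 0, 1, 0], 0),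
    (true, [0, 0, 0, 0, 0, 0, 0, 0, 0, 0, 0, 0, 0, 0, 0, 0, 0, 0, 0, 0, 0, 0, 0, 0, 0, 0, 0, 0, 0, 0, 0, 0, 0, 0, 1], 0)]

def EB30_1_0_0_tree : Tree :=
  (.br 16 0
  (.br 8 0
   (.br 24 0
    (.br 25 0
     (.br 0 0
      (.br 20 0
       (.br 19 0
        (.br 23 0
         (.br 18 0
          (.br 17 0
           (.br 27 0
            (.br 15 0
             (.br 28 0
              (.fk [(0, 2), (2, -2), (3, -6), (4, 2), (5, 1), (6, 2), (7, -1), (8, 1), (12, 2), (13, 2)])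
              (.br 9 0
               (.fk [(0, 20), (1, -174), (2, 314), (3, -250), (4, 110), (5, 67), (6, 110), (7, -67), (8, 31), (13, 110), (17, 16)])
               (.mv 10)))
             (.br 21 0
              (.br 28 0
               (.fk [(0, -4), (2, 4), (5, -1), (6, 3), (7, -1), (8, 1), (10, 4), (11, 4)])
               (.br 9 0
                (.br 10 0
                 (.fk [(1, -2), (2, 2), (5, 1), (6, 1), (11, 1), (13, 1)])
                 (.br 26 0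
                  (.fk [(6, 1)])
                  (.mv 3)))
                (.mv 10)))
              (.br 9 0
               (.br 11 0
                (.fk [(0, -4), (1, -1), (2, 5), (5, 1), (6, 1), (7, -1), (8, 1), (13, 1)])
                (.mv 61))
               (.mv 50))))
            (.br 9 0
             (.br 26 0
              (.fk [(6, 1)])
              (.br 10 0
               (.fk [(0, 8), (2, 56), (3, 8), (4, 8), (5, 6), (6, 13), (7, -6), (8, -2)])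
               (.mv 3)))
             (.br 26 0
              (.fk [(6, 1)])
              (.mv 58))))
           (.br 21 0
            (.br 11 0
             (.fk [(5, 3), (6, 3), (7, -1), (8, 1)])
             (.br 22 0
              (.fk [(5, 1)])
              (.mv 37)))
            (.mv 2)))
          (.br 9 0
           (.br 17 0
            (.br 10 0
             (.fk [(0, 4), (2, 28), (3, 4), (4, 4), (5, 3), (6, 12), (7, -3), (8, -1)])
             (.br 26 0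
              (.fk [(6, 1)])
              (.mv 3)))
            (.br 21 0
             (.br 22 0
              (.fk [(5, 1)])
              (.mv 19))
             (.mv 2)))
           (.br 21 0
            (.br 22 0
             (.fk [(5, 1)])
             (.mv 19))
            (.mv 33))))
         (.br 28 0
          (.br 9 0
           (.br 1 0
            (.br 17 0
             (.br 15 0
              (.fk [(0, 228), (1, -100), (2, 160), (3, -33), (4, 59), (5, 57), (6, 24), (7, -57), (8, 4), (17, 17)])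
              (.br 21 0
               (.br 5 0
                (.br 2 0
                 (.fk [(0, 82), (1, -13), (2, -5), (3, 8), (4, 8), (5, 13), (6, 13), (7, -2), (8, -6)])
                 (.br 6 0
                  (.br 22 0
                   (.fk [(5, 1)])
                   (.mv 92))
                  (.mv 27)))
                (.br 22 0
                 (.fk [(5, 1)])
                 (.mv 87)))
               (.mv 40)))
             (.br 21 0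
              (.br 11 0
               (.fk [(0, 4), (2, 4), (3, 1), (4, 1), (5, 1), (6, 1), (7, -1)])
               (.br 22 0
                (.fk [(5, 1)])
                (.mv 37)))
              (.mv 2)))
            (.br 5 0
             (.br 6 0
              (.br 17 0
               (.br 21 0
                (.br 4 0
                 (.fk [(0, 4), (1, 16), (2, 12), (3, 4), (4, 4), (5, 7), (6, 7), (7, -3), (8, -1)])
                 (.br 11 0
                  (.fk [(0, 2), (1, 2), (2, 12), (3, 2), (4, 2), (5, 11), (6, -1), (7, -3), (8, 1)])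
                  (.br 22 0
                   (.fk [(5, 1)])
                   (.mv 91))))
                (.br 15 0
                 (.fk [(0, 2), (1, 2), (2, 12), (3, -16), (4, 8), (5, 3), (6, -1), (7, -3), (8, 1)])
                 (.mv 40)))
               (.br 21 0
                (.br 10 0
                 (.fk [(0, -5), (1, -13), (2, 82), (3, 8), (4, 8), (5, 13), (6, 13), (7, -2), (8, -6)])
                 (.mv 70))
                (.mv 2)))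
              (.mv 9))
             (.mv 30)))
           (.mv 18))
          (.mv 5)))
        (.br 17 0
         (.br 15 0
          (.br 23 0
           (.br 5 0
            (.br 1 0
             (.fk [(0, 12), (1, 2), (2, 2), (3, -4), (4, 8), (5, -1), (6, 8), (7, -3), (8, 1), (16, 8)])
             (.br 6 0
              (.br 9 0
               (.fk [(0, 2), (1, 2), (2, 12), (3, -4), (4, 8), (5, -1), (6, 8), (7, -3), (8, 1), (16, 8)])
               (.br 18 0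
                (.br 27 0
                 (.fk [(3, -1), (4, 2), (5, -1), (6, 2), (11, 1), (13, 2), (16, 2)])
                 (.br 26 0
                  (.fk [(6, 1)])
                  (.mv 58)))
                (.br 27 0
                 (.fk [(3, -4), (4, 4), (5, -3), (6, 4), (7, -1), (8, 1), (11, 4), (13, 4), (16, 8)])
                 (.br 26 0
                  (.fk [(6, 1)])
                  (.mv 58)))))
              (.mv 9)))
            (.br 26 0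
             (.fk [(6, 1)])
             (.mv 39)))
           (.br 9 0
            (.br 1 0
             (.fk [(0, 12), (2, 12), (4, 4), (5, 3), (6, 3), (7, -3)])
             (.br 6 0
              (.br 5 0
               (.br 4 0
                (.fk [(0, 4), (1, 16), (2, 12), (3, 4), (4, 4), (5, 3), (6, 4), (7, -3), (8, -1)])
                (.br 10 0
                 (.fk [(0, 12), (1, -276), (2, 712), (3, 92), (4, 44), (5, 45), (6, 44), (7, -45), (8, -47), (17, 36)])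
                 (.mv 89)))
               (.mv 30))
              (.mv 9)))
            (.mv 18)))
          (.mv 15))
         (.br 9 0
          (.br 21 0
           (.br 10 0
            (.fk [(0, 8), (2, 56), (3, 8), (4, 8), (5, 13), (6, 13), (7, -2), (8, -6)])
            (.mv 62))
           (.mv 2))
          (.br 21 0
           (.br 23 0
            (.br 27 0
             (.br 10 0
              (.br 17 1
               (.br 28 0
                (.br 15 0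
                 (.fk [(0, 6), (1, -12), (2, 6), (3, 6), (4, -2), (5, 3), (6, 3), (9, 6), (11, 3), (13, 3)])
                 (.mv 15))
                (.mv 10))
               (.mv 68))
              (.mv 62))
             (.mv 66))
            (.mv 18))
           (.mv 2)))))
       (.br 11 0
        (.br 18 0
         (.br 23 0
          (.fk [(5, -3), (6, 3), (7, -1), (8, 1)])
          (.br 1 0
           (.br 9 0
            (.br 5 0
             (.fk [(0, 28), (1, 8), (2, 28), (3, 8), (4, 8), (5, 1), (6, 11), (7, -7), (8, -1)])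
             (.br 17 0
              (.br 23 1
               (.fk [(0, 36), (1, -32), (2, 36), (3, 5), (4, 5), (5, -7), (6, 32), (7, -9), (8, 4)])
               (.br 2 0
                (.fk [(0, 82), (1, -13), (2, -5), (3, 8), (4, 8), (5, 2), (6, 13), (7, -2), (8, -6)])
                (.mv 74)))
              (.mv 88)))
            (.mv 18))
           (.br 5 0
            (.br 6 0
             (.br 4 0
              (.br 9 0
               (.fk [(0, 4), (1, 16), (2, 12), (3, 4), (4, 4), (5, 1), (6, 4), (7, -3), (8, -1)])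
               (.mv 18))
              (.mv 31))
             (.mv 9))
            (.mv 30))))
         (.br 9 0
          (.br 10 0
           (.fk [(0, 2), (2, 14), (3, 2), (4, 2), (5, 1), (6, 5), (7, -1), (8, -1)])
           (.mv 24))
          (.br 23 0
           (.fk [(5, -3), (6, 3), (7, -1), (8, 1)])
           (.mv 18))))
        (.mv 4)))
      (.br 5 0
       (.br 9 0
        (.br 6 0
         (.br 10 0
          (.fk [(0, -1), (1, -5), (2, 22), (3, 2), (4, 2), (5, 1), (6, 5), (7, -1), (8, -1)])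
          (.br 27 0
           (.br 17 0
            (.br 26 0
             (.br 29 0
              (.br 20 0
               (.fk [(5, -1), (6, 3), (7, 1), (8, -1), (13, 4)])
               (.br 23 0
                (.fk [(6, 1)])
                (.br 4 0
                 (.fk [(0, 2), (1, 8), (2, -2), (3, 1), (4, 1), (5, -1), (6, 2), (8, -1), (11, 1), (12, 1), (13, 2)])
                 (.mv 31))))
              (.mv 8))
             (.mv 3))
            (.br 12 0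
             (.br 17 1
              (.br 21 0
               (.br 23 0
                (.fk [(5, -1), (6, 3), (7, -1), (8, 1), (11, 4)])
                (.br 20 0
                 (.fk [(5, 1), (6, 1), (11, 1), (13, 1)])
                 (.mv 100)))
               (.mv 2))
              (.mv 83))
             (.mv 12)))
           (.br 7 0
            (.br 17 0
             (.br 23 0
              (.br 26 0
               (.fk [(6, 1)])
               (.mv 3))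
              (.br 23 1
               (.br 26 0
                (.fk [(6, 1)])
                (.mv 3))
               (.mv 96)))
             (.br 21 0
              (.br 12 0
               (.br 17 1
                (.br 23 0
                 (.br 26 0
                  (.fk [(6, 1)])
                  (.mv 3))
                 (.br 26 0
                  (.br 23 1
                   (.fk [(6, 1)])
                   (.mv 96))
                  (.mv 3)))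
                (.mv 83))
               (.mv 12))
              (.mv 2)))
            (.mv 76))))
         (.br 1 0
          (.br 17 0
           (.br 23 0
            (.br 26 0
             (.fk [(6, 1)])
             (.br 10 0
              (.fk [(0, -1), (1, -5), (2, 38), (3, 4), (4, 4), (5, 2), (6, 5), (7, -2), (8, -2)])
              (.mv 3)))
            (.br 2 0
             (.br 21 0
              (.br 10 0
               (.fk [(0, -5), (1, -13), (2, 82), (3, 8), (4, 8), (5, 6), (6, 13), (7, -2), (8, -6)])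
               (.br 26 0
                (.br 22 0
                 (.br 13 0
                  (.fk [(0, 8), (2, -8), (5, 1), (6, 1), (7, 2), (8, -2)])
                  (.mv 53))
                 (.br 18 0
                  (.br 14 0
                   (.br 23 1
                    (.fk [(6, 1)])
                    (.br 27 0
                     (.fk [(5, -1), (11, 1), (13, 1)])
                     (.mv 96)))
                   (.mv 51))
                  (.mv 19)))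
                (.mv 3)))
              (.mv 59))
             (.mv 27)))
           (.br 23 0
            (.br 26 0
             (.fk [(6, 1)])
             (.mv 35))
            (.br 2 0
             (.br 21 0
              (.br 12 0
               (.br 13 0
                (.br 22 0
                 (.fk [(0, 12), (2, -12), (3, 12), (4, -4), (5, 3), (6, -9), (7, 3), (8, -3)])
                 (.br 11 0
                  (.br 27 0
                   (.fk [(0, 6), (2, -6), (3, 24), (4, -8), (5, -5), (6, 3), (7, 1), (8, -1), (11, 8), (13, 6)])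
                   (.mv 95))
                  (.mv 32)))
                (.mv 36))
               (.mv 12))
              (.mv 2))
             (.mv 27))))
          (.mv 9)))
        (.br 23 0
         (.br 21 0
          (.br 27 0
           (.fk [(5, -1), (6, 3), (7, -1), (8, 1), (11, 4)])
           (.br 26 0
            (.fk [(6, 1)])
            (.mv 58)))
          (.br 18 0
           (.br 17 0
            (.br 27 0
             (.br 15 0
              (.fk [(4, 1), (5, -1), (6, 1), (11, 1), (13, 1), (16, 1)])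
              (.mv 50))
             (.br 15 0
              (.br 26 0
               (.fk [(6, 1)])
               (.mv 58))
              (.mv 50)))
            (.mv 2))
           (.mv 33)))
         (.mv 18)))
       (.mv 16)))
     (.br 9 0
      (.br 23 0
       (.br 20 0
        (.br 17 0
         (.br 0 0
          (.br 19 0
           (.br 10 0
            (.fk [(0, 4), (2, 28), (3, 4), (4, 4), (5, 3), (6, 3), (7, -3), (8, -1)])
            (.br 1 0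
             (.br 26 0
              (.br 29 0
               (.br 28 0
                (.br 11 0
                 (.fk [(0, 8), (2, -8), (5, 1), (6, 1), (7, -2), (8, 2)])
                 (.br 15 0
                  (.fk [(0, 4), (2, 4), (3, -8), (4, 4), (5, 2), (6, 2), (7, -2), (8, 1)])
                  (.br 21 0
                   (.br 22 0
                    (.fk [(5, 1)])
                    (.mv 49))
                   (.mv 61))))
                (.mv 23))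
               (.mv 8))
              (.mv 3))
             (.br 6 0
              (.br 26 0
               (.br 18 0
                (.br 7 0
                 (.br 29 0
                  (.br 28 0
                   (.br 11 0
                    (.fk [(0, -1), (2, 1), (5, 1), (6, 1), (7, -1), (8, 1)])
                    (.br 5 0
                     (.br 4 0
                      (.fk [(0, 4), (1, 16), (2, 12), (3, 4), (4, 4), (5, 3), (6, 3), (7, -3), (8, -1)])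
                      (.mv 52))
                     (.mv 78)))
                   (.mv 23))
                  (.mv 8))
                 (.mv 42))
                (.mv 71))
               (.mv 3))
              (.mv 9))))
           (.br 15 0
            (.fk [(0, 4), (2, 28), (3, -32), (4, 16), (5, -5), (6, 7), (7, -7), (8, 3)])
            (.mv 15)))
          (.br 6 0
           (.br 5 0
            (.br 4 0
             (.fk [(0, 4), (1, 16), (2, 12), (3, 4), (4, 4), (5, 3), (6, 3), (7, -3), (8, -1)])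
             (.br 19 0
              (.br 11 0
               (.fk [(0, -8), (2, 8), (5, 1), (6, 1), (7, -2), (8, 2)])
               (.mv 52))
              (.mv 26)))
            (.mv 16))
           (.mv 64)))
         (.br 11 0
          (.br 21 0
           (.br 12 0
            (.br 19 0
             (.fk [(0, -8), (2, 8), (3, 3), (4, -1), (5, 1), (6, 1), (7, -2), (8, 2)])
             (.mv 41))
            (.mv 12))
           (.mv 2))
          (.mv 25)))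
        (.br 11 0
         (.br 17 0
          (.br 18 0
           (.br 0 0
            (.br 19 0
             (.br 28 0
              (.br 6 0
               (.br 25 1
                (.fk [(0, 4), (2, 28), (3, 4), (4, 4), (5, -3), (6, 25), (7, -7), (8, 3)])
                (.br 32 0
                 (.fk [(0, 8), (1, 8), (2, 16), (3, 4), (4, 4), (5, 2), (6, 5), (7, -2), (8, -2), (11, -12), (12, 4)])
                 (.br 15 0
                  (.fk [(0, -24), (2, 32), (3, -8), (4, 4), (5, -7), (6, 4), (7, -8), (8, 7)])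
                  (.mv 98))))
               (.mv 57))
              (.mv 23))
             (.br 15 0
              (.fk [(0, 4), (2, 28), (3, -32), (4, 16), (5, -21), (6, 7), (7, -7), (8, 3)])
              (.mv 15)))
            (.br 5 0
             (.br 32 0
              (.br 7 0
               (.br 6 0
                (.br 10 0
                 (.fk [(0, 1), (2, 7), (3, 1), (4, 1), (5, 1), (6, 1), (8, -1), (11, -2)])
                 (.br 26 0
                  (.br 29 0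
                   (.br 4 0
                    (.br 28 0
                     (.br 15 0
                      (.fk [(0, 48), (1, 18), (2, 86), (3, 30), (4, 18), (5, 12), (6, 18), (7, -7), (8, -12), (9, 29), (11, -29), (16, 8)])
                      (.br 19 0
                       (.br 22 0
                        (.br 20 1
                         (.fk [(5, 1), (6, 1), (7, 2), (8, -2), (11, -4), (13, 4)])
                         (.br 31 0
                          (.br 12 0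
                           (.fk [(0, 2), (1, -6), (2, 4), (3, 9), (4, -3), (5, 1), (6, 1), (7, -1), (8, 1), (9, 3), (10, -4), (11, -1), (12, 1), (13, 1)])
                           (.br 15 1
                            (.fk [(0, 14), (1, -30), (2, 32), (3, 14), (4, -2), (5, 7), (6, 7), (7, -9), (8, 7), (9, 19), (10, -28), (11, 2), (13, 7)])
                            (.br 30 0
                             (.fk [(0, 4), (1, 30), (2, 22), (3, 4), (4, 8), (5, 2), (6, 2), (7, -9), (8, 2), (9, -1), (10, -8), (11, 7), (13, 2)])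
                             (.mv 97))))
                          (.mv 99)))
                        (.mv 84))
                       (.mv 15)))
                     (.mv 23))
                    (.br 14 0
                     (.br 28 0
                      (.fk [(0, 4), (1, 4), (3, 1), (4, 1), (6, 1), (7, 1), (8, -2), (11, -7), (12, 5), (13, 2)])
                      (.mv 23))
                     (.mv 93)))
                   (.mv 8))
                  (.mv 3)))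
                (.mv 57))
               (.br 25 1
                (.br 26 0
                 (.fk [(6, 1)])
                 (.mv 34))
                (.mv 81)))
              (.br 31 0
               (.fk [(1, -4), (2, -4), (3, -1), (4, -1), (5, 1), (6, -2), (8, 1), (10, -3), (11, 2), (13, 1)])
               (.mv 105)))
             (.mv 16)))
           (.mv 29))
          (.br 7 0
           (.br 18 0
            (.br 12 0
             (.br 21 0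
              (.br 25 1
               (.br 19 0
                (.fk [(0, -4), (2, 4), (5, -1), (6, 3), (7, -1), (8, 1)])
                (.mv 41))
               (.br 32 0
                (.br 6 0
                 (.br 28 0
                  (.br 0 0
                   (.fk [(0, 30), (1, 24), (2, 186), (3, 186), (4, -22), (5, -18), (6, 72), (7, 3), (8, -33), (11, -147), (13, 51)])
                   (.mv 85))
                  (.mv 23))
                 (.mv 57))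
                (.mv 104)))
              (.mv 2))
             (.mv 12))
            (.mv 29))
           (.mv 65)))
         (.mv 4)))
       (.mv 7))
      (.mv 13)))
    (.mv 0))
   (.mv 1))
  (.br 20 0
   (.br 8 0
    (.br 23 0
     (.br 11 0
      (.br 9 0
       (.br 24 0
        (.br 17 0
         (.br 12 0
          (.br 0 0
           (.br 1 0
            (.fk [(0, 4), (2, 4), (3, 4), (5, 1), (6, 1), (7, -1)])
            (.br 6 0
             (.br 25 0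
              (.fk [(0, -4), (2, 4), (5, -3), (6, 3), (7, -1), (8, 1)])
              (.br 7 0
               (.br 28 0
                (.br 22 0
                 (.br 19 0
                  (.fk [(0, -20), (1, -12), (2, 32), (3, 15), (4, -5), (5, 4), (6, 4), (7, -9), (8, 8), (17, 1)])
                  (.br 5 0
                   (.br 4 0
                    (.fk [(1, 8), (2, 8), (3, 8), (5, 2), (6, 1), (7, -2)])
                    (.mv 26))
                   (.mv 80)))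
                 (.mv 72))
                (.mv 23))
               (.mv 42)))
             (.mv 9)))
           (.br 5 0
            (.br 32 0
             (.br 10 0
              (.fk [(0, -1), (1, 9), (2, 64), (3, 9), (4, 9), (5, 12), (6, 12), (7, -1), (8, -8), (11, -21)])
              (.br 26 0
               (.fk [(0, -6), (2, 6), (3, 6), (4, -2), (6, 6), (7, 3), (8, -3), (11, -9), (13, 9)])
               (.mv 3)))
             (.br 21 0
              (.br 25 0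
               (.br 10 0
                (.fk [(0, -4), (1, -4), (2, 16), (3, 4), (5, 1), (6, 4), (7, -1)])
                (.br 26 0
                 (.fk [(6, 1)])
                 (.mv 3)))
               (.br 19 0
                (.fk [(0, -8), (2, 8), (3, 3), (4, -1), (5, 1), (6, 1), (7, -2), (8, 2)])
                (.br 4 0
                 (.br 6 0
                  (.fk [(1, 4), (2, 4), (3, 4), (5, 1), (6, 1), (7, -1)])
                  (.mv 64))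
                 (.mv 26))))
              (.br 31 0
               (.fk [(1, -4), (2, 4), (3, 6), (4, -2), (5, -1), (6, 1), (7, -1), (8, 1), (9, 2), (10, -2)])
               (.mv 54))))
            (.mv 16)))
          (.br 21 0
           (.br 19 0
            (.fk [(0, -4), (2, 4), (5, 1), (6, 1), (7, -1), (8, 1)])
            (.mv 55))
           (.mv 20)))
         (.br 21 0
          (.br 12 0
           (.br 19 0
            (.fk [(0, -4), (2, 4), (3, 3), (4, -1), (5, 1), (6, 1), (7, -1), (8, 1)])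
            (.br 25 0
             (.fk [(0, -12), (2, 12), (3, 12), (4, -4), (5, -9), (6, 9), (7, -3), (8, 3)])
             (.mv 41)))
           (.mv 12))
          (.mv 2)))
        (.mv 0))
       (.br 25 0
        (.br 24 0
         (.br 19 0
          (.br 0 0
           (.fk [(5, 1), (6, 1), (7, -2), (8, 2)])
           (.br 5 0
            (.br 26 0
             (.fk [(6, 1)])
             (.mv 82))
            (.mv 16)))
          (.mv 47))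
         (.mv 0))
        (.mv 13)))
      (.mv 21))
     (.br 25 0
      (.br 24 0
       (.br 9 0
        (.br 11 0
         (.br 1 0
          (.br 12 0
           (.br 28 0
            (.br 5 0
             (.br 6 0
              (.br 23 1
               (.br 10 0
                (.fk [(1, -1), (2, 9), (3, 4), (5, 1), (6, 1), (7, -1)])
                (.br 26 0
                 (.fk [(6, 1)])
                 (.mv 3)))
               (.br 13 0
                (.br 21 0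
                 (.br 10 0
                  (.fk [(0, -6), (1, -35), (2, 113), (3, 96), (4, -20), (5, 15), (6, 15), (7, -7), (8, -7), (17, 5)])
                  (.br 27 0
                   (.fk [(0, 5), (1, 1), (2, 10), (3, 71), (4, -21), (5, 5), (6, 5), (7, -1), (8, -1), (9, 6), (10, 5), (11, 5), (13, 5)])
                   (.mv 96)))
                 (.br 4 0
                  (.fk [(0, 8), (1, 16), (2, 8), (3, 31), (4, -5), (5, 2), (6, 5), (7, -2), (8, -2)])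
                  (.mv 94)))
                (.mv 102)))
              (.br 21 0
               (.br 22 0
                (.br 2 0
                 (.br 13 0
                  (.fk [(0, 4), (2, -4), (3, 9), (4, -3), (5, 3), (6, -3), (7, 1), (8, -1)])
                  (.mv 53))
                 (.mv 27))
                (.mv 46))
               (.mv 59)))
             (.br 0 0
              (.fk [(0, 4), (2, 4), (3, 4), (5, 1), (6, 1), (7, -1)])
              (.mv 16)))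
            (.mv 5))
           (.mv 56))
          (.mv 45))
         (.mv 21))
        (.mv 18))
       (.mv 0))
      (.mv 7)))
    (.mv 1))
   (.mv 22)))

def EB30_1_0_0 : Inst where
  rows :=
   [(false, [1, 1, 1, 0, 0, 0, 0, 0, 0, 0, 0, 0, 0, 0, 0, 0, 0, 0, 0, 0, 0, 0, 0, 0, 0, 0, 0, 0, 0, 0, 0, 0, 0, -1, 0], 0),
    (false, [0, 0, 0, 1, 1, 1, 1, 1, 0, 0, 0, 0, 0, 0, 0, 0, 0, 0, 0, 0, 0, 0, 0, 0, 0, 0, 0, 0, 0, 0, 0, 0, 0, -1, 0], 0),
    (false, [0, 0, 0, 0, 0, 0, 0, 0, 1, 1, 1, 0, 0, 0, 0, 0, 0, 0, 0, 0, 0, 0, 0, 0, 0, 0, 0, 0, 0, 0, 0, 0, 0, -1, 0], 0),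
    (false, [0, 0, 0, 0, 0, 0, 0, 0, 0, 0, 0, 1, 1, 1, 0, 0, 0, 0, 0, 0, 0, 0, 0, 0, 0, 0, 0, 0, 0, 0, 0, 0, 0, 0, -1], 0),
    (false, [0, 0, 0, 0, 0, 0, 0, 0, 0, 0, 0, 0, 0, 0, 1, 1, 1, 1, 1, 0, 0, 0, 0, 0, 0, 0, 0, 0, 0, 0, 0, 0, 0, 0, -3], 1),
    (false, [0, 0, 0, 0, 0, 0, 0, 0, 0, 0, 0, 0, 0, 0, 0, 0, 0, 0, 0, 1, 1, 1, 1, 0, 0, 0, 0, 0, 0, 0, 0, 0, 0, 0, 0], 2),
    (false, [0, 0, 0, 0, 0, 0, 0, 0, 0, 0, 0, 0, 0, 0, 0, 0, 0, 0, 0, 0, 0, 0, 0, 1, 1, 1, 1, 0, 0, 0, 0, 0, 0, 0, 0], 2),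
    (false, [0, 1, 4, 4, 1, 0, 1, 4, 0, 1, 4, 0, 1, 4, 4, 1, 0, 1, 4, 1, 0, 1, 4, 1, 0, 1, 4, 0, 1, 4, 0, 0, 0, -8, -4], 3),
    (false, [4, 1, 0, 4, 1, 0, 1, 4, 4, 1, 0, 4, 1, 0, 4, 1, 0, 1, 4, 4, 1, 0, 1, 4, 1, 0, 1, 0, 1, 4, 0, 0, 0, -8, -4], 3),
    (false, [-1, -1, -1, 1, 1, 1, 1, 1, -1, -1, -1, -1, -1, -1, 1, 1, 1, 1, 1, 0, 0, 0, 0, 0, 0, 0, 0, 1, 1, 1, -1, 0, 0, 0, 0], 0),
    (false, [1, 1, 1, -1, -1, -1, -1, -1, -1, -1, -1, 0, 0, 0, 0, 0, 0, 0, 0, 1, 1, 1, 1, 0, 0, 0, 0, 1, 1, 1, 0, -1, 0, 0, 0], 0),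
    (false, [-1, 0, 1, -1, 0, 1, 0, -1, -1, 0, 1, -1, 0, 1, -1, 0, 1, 0, -1, -1, 0, 1, 0, -1, 0, 1, 0, 1, 0, -1, 0, 0, -1, 0, 0], 0),
    (true, [-1, -1, -1, -1, -1, -1, -1, -1, 1, 1, 1, 0, 0, 0, 0, 0, 0, 0, 0, 0, 0, 0, 0, 1, 1, 1, 1, 1, 1, 1, 0, 0, 0, 0, 0], 0),
    (true, [1, 0, -1, -1, 0, 1, 0, -1, 1, 0, -1, 1, 0, -1, -1, 0, 1, 0, -1, 0, 1, 0, -1, 0, 1, 0, -1, 1, 0, -1, 0, 0, 0, 0, 0], 0),
    (true, [4, 1, 0, 16, 9, 4, 1, 0, 0, 1, 4, 1, 0, 1, 9, 4, 1, 0, 1, 4, 1, 0, 1, 1, 0, 1, 4, 0, 1, 4, 0, 0, 0, 0, 0], 1),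
    (true, [0, 0, 0, 0, 0, 0, 0, 0, 0, 0, 0, 0, 0, 0, 0, 0, 0, 0, 0, 0, 0, 0, 0, 0, 0, 0, 0, 0, 0, 0, 0, 0, 0, 1, 0], 0),
    (true, [0, 0, 0, 0, 0, 0, 0, 0, 0, 0, 0, 0, 0, 0, 0, 0, 0, 0, 0, 0, 0, 0, 0, 0, 0, 0, 0, 0, 0, 0, 0, 0, 0, 0, 1], 0),
    (true, [4, 1, 0, 16, 9, 4, 1, 0, 0, 1, 4, 1, 0, 1, 9, 4, 1, 0, 1, 4, 1, 0, 1, 1, 0, 1, 4, 0, 1, 4, 0, 0, 0, -8, -4], 5)]
  moves := EB30_moves1
  reqs := EB30_reqs1
  tree := EB30_1_0_0_tree

theorem EB30_1_0_0_ok : EB30.instOK 1 0 0 EB30_1_0_0 = true := by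
  decide +kernel

def EB30_1_1_0_tree : Tree :=
  (.br 16 0
  (.br 8 0
   (.br 25 0
    (.br 24 0
     (.br 0 0
      (.br 1 0
       (.br 23 0
        (.br 9 0
         (.br 10 0
          (.fk [(0, 4), (2, 12), (3, 2), (4, 2), (5, 1), (6, 5), (7, -1), (8, -1)])
          (.br 26 0
           (.fk [(6, 1)])
           (.mv 3)))
         (.br 15 0
          (.br 26 0
           (.fk [(6, 1)])
           (.br 19 0
            (.br 11 0
             (.fk [(0, 12), (2, -4), (3, 1), (4, 1), (5, -2), (6, 5), (7, -3), (8, 2)])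
             (.br 20 0
              (.br 27 0
               (.br 28 0
                (.br 10 0
                 (.br 21 0
                  (.fk [(0, 2), (1, 4), (2, 2), (3, 1), (4, 1), (5, 1), (6, 1), (7, -1), (10, 3), (11, 1), (12, 2)])
                  (.mv 69))
                 (.mv 3))
                (.mv 10))
               (.mv 58))
              (.mv 4)))
            (.br 27 0
             (.br 5 0
              (.fk [(5, -6), (6, 3), (7, -1), (8, 1), (11, 7), (13, 3)])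
              (.mv 39))
             (.mv 58))))
          (.br 19 0
           (.br 11 0
            (.fk [(0, 32), (2, -24), (3, 1), (4, 1), (5, -7), (6, 25), (7, -8), (8, 7)])
            (.br 20 0
             (.br 21 0
              (.br 17 0
               (.fk [(0, 12), (1, 2), (2, 2), (3, -7), (4, 5), (5, 11), (6, 11), (7, -3), (8, 2), (17, 1)])
               (.br 22 0
                (.fk [(5, 1)])
                (.mv 37)))
              (.mv 50))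
             (.mv 4)))
           (.mv 15))))
        (.br 9 0
         (.br 28 0
          (.br 20 0
           (.br 17 0
            (.fk [(0, 36), (1, 4), (2, 40), (3, 1), (4, 13), (5, 9), (6, 10), (7, -9), (17, 1)])
            (.br 21 0
             (.br 10 0
              (.fk [(0, 8), (2, 56), (3, 8), (4, 8), (5, 13), (6, 13), (7, -2), (8, -6)])
              (.br 19 0
               (.br 22 0
                (.fk [(5, 1)])
                (.mv 103))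
               (.mv 62)))
             (.mv 2)))
           (.br 17 0
            (.fk [(0, 12), (1, 4), (2, 16), (3, 1), (4, 7), (5, 1), (6, 4), (7, -3), (16, 6), (17, 1)])
            (.br 5 0
             (.br 11 0
              (.fk [(0, 28), (1, 8), (2, 28), (3, 8), (4, 8), (5, 1), (6, 11), (7, -7), (8, -1)])
              (.mv 4))
             (.mv 88))))
          (.mv 5))
         (.mv 18)))
       (.br 23 0
        (.br 6 0
         (.br 5 0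
          (.br 27 0
           (.br 17 0
            (.fk [(0, -8), (1, 8), (3, -9), (4, 3), (5, -6), (6, 15), (7, -3), (8, 4), (11, 9), (13, 3), (17, 1)])
            (.br 21 0
             (.fk [(5, -1), (6, 3), (7, -1), (8, 1), (11, 4)])
             (.mv 2)))
           (.br 9 0
            (.br 17 0
             (.fk [(0, -12), (1, 16), (2, 60), (3, -24), (4, 20), (5, -3), (6, 20), (7, -11), (8, 7), (16, 4), (17, 4)])
             (.br 21 0
              (.br 10 0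
               (.fk [(0, -3), (1, -7), (2, 42), (3, 4), (4, 4), (5, 3), (6, 7), (7, -1), (8, -3)])
               (.br 26 0
                (.fk [(6, 1)])
                (.mv 3)))
              (.mv 2)))
            (.br 26 0
             (.fk [(6, 1)])
             (.mv 58))))
          (.br 19 0
           (.br 20 0
            (.br 18 0
             (.br 17 0
              (.br 29 0
               (.br 1 1
                (.fk [(0, 8), (1, -8), (3, -18), (4, 6), (5, 3), (6, 5), (7, -3), (8, 5), (17, 2)])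
                (.br 7 0
                 (.fk [(0, -8), (1, 8), (3, -24), (4, 8), (5, 3), (6, 8), (7, -3), (8, 7), (17, 4)])
                 (.mv 86)))
               (.br 26 0
                (.fk [(6, 1)])
                (.mv 14)))
              (.br 11 0
               (.fk [(5, 1), (6, 1), (7, -1), (8, 1)])
               (.mv 77)))
             (.br 26 0
              (.fk [(6, 1)])
              (.mv 79)))
            (.br 11 0
             (.fk [(5, -1), (6, 3), (7, -1), (8, 1)])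
             (.mv 4)))
           (.br 26 0
            (.fk [(6, 1)])
            (.mv 39))))
         (.mv 9))
        (.br 6 0
         (.br 9 0
          (.br 5 0
           (.br 10 0
            (.fk [(0, -1), (1, -5), (2, 38), (3, 4), (4, 4), (5, 2), (6, 5), (7, -2), (8, -2)])
            (.br 17 0
             (.fk [(0, 4), (1, 12), (2, 16), (3, 1), (4, 7), (5, 1), (6, 4), (7, -3), (16, 6), (17, 1)])
             (.mv 70)))
           (.mv 30))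
          (.mv 18))
         (.mv 9))))
      (.br 5 0
       (.br 9 0
        (.br 6 0
         (.br 10 0
          (.fk [(0, -1), (1, -5), (2, 22), (3, 2), (4, 2), (5, 1), (6, 5), (7, -1), (8, -1)])
          (.br 7 0
           (.br 26 0
            (.br 17 0
             (.fk [(0, 20), (1, 108), (2, 32), (3, 9), (4, 32), (5, 5), (6, 32), (7, -5), (8, -4), (16, 25), (17, 11)])
             (.br 21 0
              (.br 12 0
               (.br 17 1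
                (.fk [(1, 103), (2, 17), (3, -21), (4, 27), (5, 15), (6, 27), (8, -4), (17, 11)])
                (.mv 83))
               (.mv 12))
              (.mv 2)))
            (.mv 3))
           (.br 27 0
            (.fk [(5, -1), (6, 1), (11, 1), (13, 1)])
            (.mv 76))))
         (.br 1 0
          (.br 23 0
           (.br 10 0
            (.fk [(0, -3), (1, -5), (2, 24), (3, 2), (4, 2), (5, 1), (6, 5), (7, -1), (8, -1)])
            (.br 26 0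
             (.fk [(6, 1)])
             (.mv 3)))
           (.br 2 0
            (.br 21 0
             (.br 13 0
              (.br 17 0
               (.fk [(0, 40), (1, 4), (2, 36), (3, 1), (4, 13), (5, 10), (6, 13), (8, -1), (17, 9)])
               (.br 12 0
                (.fk [(0, 44), (1, 8), (2, 12), (3, 26), (4, 2), (5, -1), (6, 17), (7, 3), (8, -5), (17, 6)])
                (.mv 12)))
              (.mv 53))
             (.mv 59))
            (.mv 27)))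
          (.mv 9)))
        (.br 23 0
         (.br 27 0
          (.br 17 0
           (.fk [(3, -9), (4, 3), (5, -3), (6, 6), (8, 1), (11, 3), (13, 3), (17, 1)])
           (.br 21 0
            (.fk [(5, -1), (6, 3), (7, -1), (8, 1), (11, 4)])
            (.mv 2)))
          (.br 26 0
           (.fk [(6, 1)])
           (.mv 58)))
         (.mv 18)))
       (.mv 16)))
     (.mv 0))
    (.br 24 0
     (.br 9 0
      (.br 23 0
       (.br 10 0
        (.br 28 0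
         (.br 17 0
          (.fk [(0, 6), (1, 4), (2, 38), (3, -3), (4, 9), (5, 3), (6, 8), (7, -3), (8, 2), (17, 5)])
          (.br 12 0
           (.fk [(0, 6), (1, 4), (2, 38), (3, 9), (4, 5), (5, 3), (6, 4), (7, -3), (8, -2), (17, 1)])
           (.mv 12)))
         (.mv 23))
        (.br 17 0
         (.fk [(0, 4), (1, 4), (2, 24), (3, -5), (4, 7), (5, 1), (6, 6), (7, -3), (8, 2), (17, 3)])
         (.br 11 0
          (.br 26 0
           (.br 20 0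
            (.br 21 0
             (.br 12 0
              (.fk [(0, 4), (2, 28), (3, 16), (5, 7), (6, 7), (7, -3), (8, 3), (17, 4)])
              (.mv 12))
             (.mv 2))
            (.mv 101))
           (.mv 3))
          (.mv 25))))
       (.mv 7))
      (.mv 13))
     (.mv 0)))
   (.mv 1))
  (.br 8 0
   (.br 11 0
    (.br 5 0
     (.br 20 0
      (.br 24 0
       (.br 9 0
        (.br 21 0
         (.br 23 0
          (.br 17 0
           (.br 12 0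
            (.fk [(0, 8), (1, -12), (2, 68), (3, 35), (4, -1), (5, 14), (6, 14), (7, -6), (8, 9), (17, 11)])
            (.br 19 0
             (.fk [(0, -4), (2, 4), (5, 1), (6, 1), (7, -1), (8, 1)])
             (.mv 55)))
           (.br 12 0
            (.fk [(0, 4), (2, 28), (3, 16), (5, 7), (6, 7), (7, -3), (8, 3), (17, 4)])
            (.mv 12)))
          (.br 1 0
           (.br 12 0
            (.fk [(0, 12), (1, 8), (2, 44), (3, 26), (4, 2), (5, 17), (6, -1), (7, -5), (8, 3), (17, 6)])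
            (.mv 56))
           (.mv 45)))
         (.br 12 0
          (.br 17 0
           (.br 23 0
            (.fk [(0, -8), (1, -20), (2, 92), (3, 53), (4, -7), (5, 2), (6, 2), (7, -10), (8, 15), (17, 13)])
            (.br 6 0
             (.fk [(0, 4), (1, 12), (2, 16), (3, 13), (4, 1), (5, 3), (6, 4), (7, -3), (17, 1)])
             (.mv 59)))
           (.mv 2))
          (.mv 20)))
        (.br 23 0
         (.br 25 0
          (.br 19 0
           (.br 26 0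
            (.fk [(6, 1)])
            (.br 21 0
             (.br 22 0
              (.fk [(5, 1)])
              (.mv 28))
             (.mv 67)))
           (.mv 47))
          (.mv 13))
         (.mv 18)))
       (.mv 0))
      (.mv 22))
     (.br 24 0
      (.br 0 0
       (.br 18 0
        (.br 23 0
         (.br 9 0
          (.br 17 0
           (.fk [(1, -4), (2, 4), (3, -3), (4, 1), (6, 1), (8, 1), (17, 1)])
           (.br 12 0
            (.fk [(0, -4), (1, -12), (2, 32), (3, 17), (4, -3), (5, -1), (6, 8), (7, -3), (8, 6), (17, 5)])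
            (.mv 12)))
          (.br 25 0
           (.br 19 0
            (.fk [(5, -1), (6, 3), (7, -1), (8, 1)])
            (.mv 47))
           (.mv 13)))
         (.br 9 0
          (.br 1 0
           (.br 20 0
            (.br 12 0
             (.fk [(0, 96), (1, -12), (2, 108), (3, 99), (4, -1), (5, 24), (6, 15), (7, -24), (8, 3), (17, 3)])
             (.mv 56))
            (.mv 22))
           (.mv 30))
          (.mv 18)))
        (.br 20 0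
         (.br 22 0
          (.br 9 0
           (.br 12 0
            (.fk [(0, 24), (1, 24), (2, 144), (3, 93), (4, 1), (5, 19), (6, -12), (7, -19), (8, 12), (17, 17)])
            (.br 21 0
             (.br 17 0
              (.br 19 0
               (.fk [(5, 1)])
               (.mv 43))
              (.mv 12))
             (.mv 20)))
           (.br 23 0
            (.br 19 0
             (.fk [(5, 1), (6, 1), (7, -1), (8, 1)])
             (.mv 47))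
            (.mv 18)))
          (.mv 19))
         (.mv 22)))
       (.mv 16))
      (.mv 0)))
    (.mv 21))
   (.mv 1)))

def EB30_1_1_0 : Inst where
  rows :=
   [(false, [1, 1, 1, 0, 0, 0, 0, 0, 0, 0, 0, 0, 0, 0, 0, 0, 0, 0, 0, 0, 0, 0, 0, 0, 0, 0, 0, 0, 0, 0, 0, 0, 0, -1, 0], 0),
    (false, [0, 0, 0, 1, 1, 1, 1, 1, 0, 0, 0, 0, 0, 0, 0, 0, 0, 0, 0, 0, 0, 0, 0, 0, 0, 0, 0, 0, 0, 0, 0, 0, 0, -1, 0], 0),
    (false, [0, 0, 0, 0, 0, 0, 0, 0, 1, 1, 1, 0, 0, 0, 0, 0, 0, 0, 0, 0, 0, 0, 0, 0, 0, 0, 0, 0, 0, 0, 0, 0, 0, -1, 0], 0),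
    (false, [0, 0, 0, 0, 0, 0, 0, 0, 0, 0, 0, 1, 1, 1, 0, 0, 0, 0, 0, 0, 0, 0, 0, 0, 0, 0, 0, 0, 0, 0, 0, 0, 0, 0, -1], 0),
    (false, [0, 0, 0, 0, 0, 0, 0, 0, 0, 0, 0, 0, 0, 0, 1, 1, 1, 1, 1, 0, 0, 0, 0, 0, 0, 0, 0, 0, 0, 0, 0, 0, 0, 0, -3], 1),
    (false, [0, 0, 0, 0, 0, 0, 0, 0, 0, 0, 0, 0, 0, 0, 0, 0, 0, 0, 0, 1, 1, 1, 1, 0, 0, 0, 0, 0, 0, 0, 0, 0, 0, 0, 0], 2),
    (false, [0, 0, 0, 0, 0, 0, 0, 0, 0, 0, 0, 0, 0, 0, 0, 0, 0, 0, 0, 0, 0, 0, 0, 1, 1, 1, 1, 0, 0, 0, 0, 0, 0, 0, 0], 2),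
    (false, [0, 1, 4, 4, 1, 0, 1, 4, 0, 1, 4, 0, 1, 4, 4, 1, 0, 1, 4, 1, 0, 1, 4, 1, 0, 1, 4, 0, 1, 4, 0, 0, 0, -8, -4], 3),
    (false, [4, 1, 0, 4, 1, 0, 1, 4, 4, 1, 0, 4, 1, 0, 4, 1, 0, 1, 4, 4, 1, 0, 1, 4, 1, 0, 1, 0, 1, 4, 0, 0, 0, -8, -4], 3),
    (false, [-1, -1, -1, 1, 1, 1, 1, 1, -1, -1, -1, -1, -1, -1, 1, 1, 1, 1, 1, 0, 0, 0, 0, 0, 0, 0, 0, 1, 1, 1, -1, 0, 0, 0, 0], 0),
    (false, [1, 1, 1, -1, -1, -1, -1, -1, -1, -1, -1, 0, 0, 0, 0, 0, 0, 0, 0, 1, 1, 1, 1, 0, 0, 0, 0, 1, 1, 1, 0, -1, 0, 0, 0], 0),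
    (false, [-1, 0, 1, -1, 0, 1, 0, -1, -1, 0, 1, -1, 0, 1, -1, 0, 1, 0, -1, -1, 0, 1, 0, -1, 0, 1, 0, 1, 0, -1, 0, 0, -1, 0, 0], 0),
    (true, [-1, -1, -1, -1, -1, -1, -1, -1, 1, 1, 1, 0, 0, 0, 0, 0, 0, 0, 0, 0, 0, 0, 0, 1, 1, 1, 1, 1, 1, 1, 0, 0, 0, 0, 0], 0),
    (true, [1, 0, -1, -1, 0, 1, 0, -1, 1, 0, -1, 1, 0, -1, -1, 0, 1, 0, -1, 0, 1, 0, -1, 0, 1, 0, -1, 1, 0, -1, 0, 0, 0, 0, 0], 0),
    (true, [4, 1, 0, 16, 9, 4, 1, 0, 0, 1, 4, 1, 0, 1, 9, 4, 1, 0, 1, 4, 1, 0, 1, 1, 0, 1, 4, 0, 1, 4, 0, 0, 0, 0, 0], 1),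
    (true, [0, 0, 0, 0, 0, 0, 0, 0, 0, 0, 0, 0, 0, 0, 0, 0, 0, 0, 0, 0, 0, 0, 0, 0, 0, 0, 0, 0, 0, 0, 0, 0, 0, 1, 0], 0),
    (true, [0, 0, 0, 0, 0, 0, 0, 0, 0, 0, 0, 0, 0, 0, 0, 0, 0, 0, 0, 0, 0, 0, 0, 0, 0, 0, 0, 0, 0, 0, 0, 0, 0, 0, 1], 0),
    (true, [-4, -1, 0, -16, -9, -4, -1, 0, 0, -1, -4, -1, 0, -1, -9, -4, -1, 0, -1, -4, -1, 0, -1, -1, 0, -1, -4, 0, -1, -4, 0, 0, 0, 8, 4], -3)]
  moves := EB30_moves1
  reqs := EB30_reqs1
  tree := EB30_1_1_0_tree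

theorem EB30_1_1_0_ok : EB30.instOK 1 1 0 EB30_1_1_0 = true := by
  decide +kernel

def EB30_1_2_0_tree : Tree :=
  (.br 8 0
  (.br 9 0
   (.br 20 0
    (.br 24 0
     (.br 21 0
      (.br 1 0
       (.br 6 0
        (.br 2 0
         (.br 12 0
          (.br 13 0
           (.fk [(0, 8), (1, 4), (2, 4), (3, 5), (4, 1), (5, 2), (6, 1), (8, -1), (17, -1), (18, 2)])
           (.br 22 0
            (.br 16 0
             (.br 0 0
              (.fk [(0, 38), (1, -3), (2, -3), (3, 4), (4, 4), (5, 7), (6, 3), (7, -3), (8, -1), (18, 7)])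
              (.br 5 0
               (.fk [(0, 20), (1, 24), (2, 20), (3, 14), (4, 6), (5, 23), (6, 5), (7, -3), (8, -3), (17, -2)])
               (.mv 16)))
             (.br 11 0
              (.fk [(0, 4), (1, 4), (2, 8), (3, 5), (4, 1), (5, 5), (6, 2), (7, -1), (17, -1), (18, 5)])
              (.mv 21)))
            (.mv 11)))
          (.br 17 0
           (.br 18 0
            (.fk [(0, 12), (1, -4), (2, 8), (3, -1), (4, 3), (5, -1), (6, 2), (7, 1), (17, -3), (18, 20)])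
            (.br 22 0
             (.br 13 0
              (.br 10 0
               (.br 26 0
                (.fk [(0, -7), (1, -3), (2, 10), (5, 3), (6, -1), (7, 1), (8, -1)])
                (.br 26 1
                 (.fk [(0, -7), (1, -3), (2, 10), (5, 3), (6, -1), (7, 1), (8, -1)])
                 (.mv 48)))
               (.br 26 0
                (.fk [(0, 4), (2, -4), (5, 3), (6, -1), (7, 1), (8, -1)])
                (.mv 3)))
              (.mv 6))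
             (.mv 19)))
           (.mv 12)))
         (.br 7 0
          (.br 16 0
           (.br 5 0
            (.br 17 0
             (.fk [(0, -7), (1, 47), (2, 40), (3, 3), (4, 19), (5, 19), (6, 10), (7, -3), (16, 19), (17, -7), (18, 19)])
             (.br 12 0
              (.br 11 0
               (.fk [(0, 28), (1, 52), (2, 80), (3, 59), (4, 7), (5, 24), (6, 20), (7, -13), (17, -7), (18, 24)])
               (.br 25 0
                (.br 23 0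
                 (.br 22 0
                  (.br 10 0
                   (.fk [(0, -6), (1, -13), (2, 75), (3, 7), (4, 7), (5, 13), (6, 13), (7, -2), (8, -5), (18, 13)])
                   (.br 26 0
                    (.fk [(6, 1)])
                    (.mv 3)))
                  (.mv 37))
                 (.br 13 0
                  (.br 22 0
                   (.br 26 0
                    (.br 10 0
                     (.fk [(0, -9), (1, -1), (2, 10), (3, 3), (4, -1), (5, 1), (6, 1), (7, 2), (8, -2), (18, 1)])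
                     (.br 19 0
                      (.fk [(5, 1)])
                      (.mv 62)))
                    (.mv 90))
                   (.mv 37))
                  (.mv 36)))
                (.mv 25)))
              (.mv 12)))
            (.br 23 0
             (.br 0 0
              (.br 17 0
               (.fk [(0, 3), (1, 5), (2, 24), (3, -5), (4, 7), (5, 7), (6, 6), (7, -3), (8, 2), (17, -3), (18, 7)])
               (.br 11 0
                (.fk [(0, 28), (1, -4), (2, 32), (3, 7), (4, 7), (5, 4), (6, 4), (7, -8), (8, 1), (18, 4)])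
                (.br 25 0
                 (.br 26 0
                  (.fk [(6, 1)])
                  (.mv 73))
                 (.mv 25))))
              (.mv 16))
             (.br 23 1
              (.br 10 0
               (.fk [(1, -4), (2, 36), (3, 4), (4, 4), (5, 4), (6, 3), (7, -3), (8, -1), (18, 4)])
               (.br 26 0
                (.br 25 0
                 (.fk [(6, 1)])
                 (.mv 7))
                (.mv 3)))
              (.mv 74))))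
           (.br 11 0
            (.br 17 0
             (.br 12 0
              (.fk [(0, -24), (1, 156), (2, 252), (3, 135), (4, 19), (5, 120), (6, 3), (7, -24), (8, 15), (17, -39), (18, 120)])
              (.br 19 0
               (.fk [(0, -4), (2, 4), (5, 3), (6, -3), (7, -1), (8, 1)])
               (.mv 55)))
             (.br 12 0
              (.fk [(0, 72), (1, 132), (2, 324), (3, 225), (4, 13), (5, 120), (6, 21), (7, -48), (8, 15), (17, -33), (18, 120)])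
              (.mv 12)))
            (.mv 21)))
          (.mv 17)))
        (.br 23 0
         (.br 11 0
          (.br 17 0
           (.br 12 0
            (.fk [(0, 16), (1, -12), (2, 100), (3, 40), (4, 4), (5, 25), (6, 25), (7, -9), (8, 12), (17, -16), (18, 25)])
            (.br 25 0
             (.br 19 0
              (.fk [(0, -8), (2, 8), (5, 1), (6, 1), (7, -2), (8, 2)])
              (.mv 63))
             (.mv 60)))
           (.br 12 0
            (.fk [(0, 4), (2, 28), (3, 16), (5, 7), (6, 7), (7, -3), (8, 3), (17, -4), (18, 7)])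
            (.mv 12)))
          (.br 16 0
           (.br 17 0
            (.fk [(0, 8), (1, 4), (2, 20), (3, -5), (4, 7), (5, 5), (6, 5), (7, -2), (8, 1), (17, -3), (18, 5)])
            (.br 25 0
             (.br 12 0
              (.br 2 0
               (.br 22 0
                (.br 10 0
                 (.fk [(0, -6), (1, -6), (2, 68), (3, 7), (4, 7), (5, 13), (6, 13), (7, -2), (8, -5), (18, 13)])
                 (.br 26 0
                  (.fk [(6, 1)])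
                  (.mv 3)))
                (.mv 32))
               (.mv 75))
              (.mv 12))
             (.mv 25)))
           (.mv 21)))
         (.br 2 0
          (.br 25 0
           (.br 17 0
            (.br 18 0
             (.fk [(0, 12), (1, -4), (2, 8), (3, -1), (4, 3), (5, -1), (6, 2), (7, 1), (17, -3), (18, 6)])
             (.br 22 0
              (.br 13 0
               (.fk [(0, 4), (2, -4), (5, 3), (6, -3), (7, 1), (8, -1)])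
               (.mv 6))
              (.mv 19)))
            (.br 12 0
             (.br 13 0
              (.fk [(0, 44), (1, 8), (2, 12), (3, 26), (4, 2), (5, -1), (6, 17), (7, 3), (8, -5), (17, -6), (18, 17)])
              (.mv 36))
             (.mv 12)))
           (.mv 7))
          (.mv 27))))
       (.br 16 0
        (.br 5 0
         (.br 6 0
          (.br 17 0
           (.fk [(0, 48), (1, 116), (2, 220), (3, -9), (4, 84), (5, 84), (6, 27), (7, -36), (8, 7), (16, 51), (17, -19), (18, 84)])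
           (.br 10 0
            (.fk [(0, -3), (1, -7), (2, 42), (3, 4), (4, 4), (5, 7), (6, 3), (7, -3), (8, -1), (18, 7)])
            (.br 19 0
             (.br 25 0
              (.br 23 0
               (.br 26 0
                (.fk [(6, 1)])
                (.mv 3))
               (.mv 70))
              (.mv 44))
             (.mv 62))))
          (.mv 9))
         (.br 23 0
          (.br 17 0
           (.fk [(0, 4), (1, 4), (2, 24), (3, -5), (4, 7), (5, 7), (6, 6), (7, -3), (8, 2), (17, -3), (18, 7)])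
           (.br 25 0
            (.br 11 0
             (.fk [(0, -4), (2, 4), (5, -3), (6, 3), (7, -1), (8, 1)])
             (.mv 77))
            (.mv 44)))
          (.mv 30)))
        (.br 11 0
         (.br 6 0
          (.br 23 0
           (.br 17 0
            (.br 25 0
             (.fk [(0, -4), (2, 4), (5, -3), (6, 3), (7, -1), (8, 1)])
             (.br 7 0
              (.br 12 0
               (.fk [(0, -112), (1, 88), (2, 144), (3, 78), (4, -6), (5, 18), (6, 18), (7, -14), (8, 21), (17, -22), (18, 18)])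
               (.br 19 0
                (.fk [(0, -8), (2, 8), (5, 1), (6, 1), (7, -2), (8, 2)])
                (.mv 55)))
              (.mv 42)))
            (.br 12 0
             (.fk [(1, 12), (2, 36), (3, 27), (4, -1), (5, 6), (6, 6), (7, -6), (8, 3), (17, -3), (18, 6)])
             (.mv 12)))
           (.mv 45))
          (.mv 9))
         (.mv 21))))
      (.br 17 0
       (.br 16 0
        (.fk [(0, 4), (1, 4), (2, 24), (3, -5), (4, 7), (5, 3), (6, -2), (7, -3), (8, 2), (17, -3), (18, 24)])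
        (.br 11 0
         (.br 12 0
          (.fk [(0, 12), (1, 12), (2, 72), (3, 45), (4, 1), (5, 9), (6, -6), (7, -9), (8, 6), (17, -9), (18, 72)])
          (.mv 20))
         (.mv 21)))
       (.mv 2)))
     (.mv 0))
    (.br 24 0
     (.br 11 0
      (.br 16 0
       (.br 17 0
        (.fk [(0, 4), (1, 4), (2, 24), (3, -5), (4, 7), (5, 1), (6, -2), (7, -3), (8, 2), (17, -3), (18, 24)])
        (.br 21 0
         (.br 12 0
          (.fk [(0, 4), (2, 28), (3, 16), (5, 1), (6, -5), (7, -3), (8, 3), (17, -4), (18, 36)])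
          (.mv 12))
         (.mv 2)))
       (.mv 22))
      (.mv 4))
     (.mv 0)))
   (.br 25 0
    (.br 23 0
     (.br 24 0
      (.br 16 0
       (.br 27 0
        (.br 11 0
         (.br 17 0
          (.fk [(3, -3), (4, 1), (5, -2), (6, 5), (8, 1), (11, 2), (13, 2), (17, -1), (18, 5)])
          (.br 21 0
           (.br 28 0
            (.fk [(0, -4), (1, -4), (3, -1), (4, -1), (5, -3), (6, 2), (7, -1), (8, 2), (10, 1), (11, 5), (18, 2)])
            (.mv 10))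
           (.mv 2)))
         (.br 20 0
          (.br 17 0
           (.fk [(3, -3), (4, 1), (5, -1), (6, 4), (7, 1), (13, 4), (17, -1), (18, 4)])
           (.br 21 0
            (.br 28 0
             (.fk [(0, -2), (2, 2), (5, -1), (6, 1), (10, 2), (11, 1), (13, 1), (18, 1)])
             (.mv 10))
            (.mv 2)))
          (.mv 4)))
        (.br 26 0
         (.fk [(6, 1)])
         (.mv 58)))
       (.br 19 0
        (.br 28 0
         (.br 11 0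
          (.br 20 0
           (.br 0 0
            (.fk [(5, 1), (6, 1), (7, -2), (8, 2)])
            (.br 5 0
             (.br 26 0
              (.fk [(6, 1)])
              (.mv 82))
             (.mv 16)))
           (.mv 22))
          (.mv 21))
         (.mv 10))
        (.mv 47)))
      (.mv 0))
     (.mv 18))
    (.mv 13)))
  (.mv 1))

def EB30_1_2_0 : Inst where
  rows :=
   [(false, [1, 1, 1, 0, 0, 0, 0, 0, 0, 0, 0, 0, 0, 0, 0, 0, 0, 0, 0, 0, 0, 0, 0, 0, 0, 0, 0, 0, 0, 0, 0, 0, 0, -1, 0], 0),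
    (false, [0, 0, 0, 1, 1, 1, 1, 1, 0, 0, 0, 0, 0, 0, 0, 0, 0, 0, 0, 0, 0, 0, 0, 0, 0, 0, 0, 0, 0, 0, 0, 0, 0, -1, 0], 0),
    (false, [0, 0, 0, 0, 0, 0, 0, 0, 1, 1, 1, 0, 0, 0, 0, 0, 0, 0, 0, 0, 0, 0, 0, 0, 0, 0, 0, 0, 0, 0, 0, 0, 0, -1, 0], 0),
    (false, [0, 0, 0, 0, 0, 0, 0, 0, 0, 0, 0, 1, 1, 1, 0, 0, 0, 0, 0, 0, 0, 0, 0, 0, 0, 0, 0, 0, 0, 0, 0, 0, 0, 0, -1], 0),
    (false, [0, 0, 0, 0, 0, 0, 0, 0, 0, 0, 0, 0, 0, 0, 1, 1, 1, 1, 1, 0, 0, 0, 0, 0, 0, 0, 0, 0, 0, 0, 0, 0, 0, 0, -3], 1),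
    (false, [0, 0, 0, 0, 0, 0, 0, 0, 0, 0, 0, 0, 0, 0, 0, 0, 0, 0, 0, 1, 1, 1, 1, 0, 0, 0, 0, 0, 0, 0, 0, 0, 0, 0, 0], 2),
    (false, [0, 0, 0, 0, 0, 0, 0, 0, 0, 0, 0, 0, 0, 0, 0, 0, 0, 0, 0, 0, 0, 0, 0, 1, 1, 1, 1, 0, 0, 0, 0, 0, 0, 0, 0], 2),
    (false, [0, 1, 4, 4, 1, 0, 1, 4, 0, 1, 4, 0, 1, 4, 4, 1, 0, 1, 4, 1, 0, 1, 4, 1, 0, 1, 4, 0, 1, 4, 0, 0, 0, -8, -4], 3),
    (false, [4, 1, 0, 4, 1, 0, 1, 4, 4, 1, 0, 4, 1, 0, 4, 1, 0, 1, 4, 4, 1, 0, 1, 4, 1, 0, 1, 0, 1, 4, 0, 0, 0, -8, -4], 3),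
    (false, [-1, -1, -1, 1, 1, 1, 1, 1, -1, -1, -1, -1, -1, -1, 1, 1, 1, 1, 1, 0, 0, 0, 0, 0, 0, 0, 0, 1, 1, 1, -1, 0, 0, 0, 0], 0),
    (false, [1, 1, 1, -1, -1, -1, -1, -1, -1, -1, -1, 0, 0, 0, 0, 0, 0, 0, 0, 1, 1, 1, 1, 0, 0, 0, 0, 1, 1, 1, 0, -1, 0, 0, 0], 0),
    (false, [-1, 0, 1, -1, 0, 1, 0, -1, -1, 0, 1, -1, 0, 1, -1, 0, 1, 0, -1, -1, 0, 1, 0, -1, 0, 1, 0, 1, 0, -1, 0, 0, -1, 0, 0], 0),
    (true, [-1, -1, -1, -1, -1, -1, -1, -1, 1, 1, 1, 0, 0, 0, 0, 0, 0, 0, 0, 0, 0, 0, 0, 1, 1, 1, 1, 1, 1, 1, 0, 0, 0, 0, 0], 0),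
    (true, [1, 0, -1, -1, 0, 1, 0, -1, 1, 0, -1, 1, 0, -1, -1, 0, 1, 0, -1, 0, 1, 0, -1, 0, 1, 0, -1, 1, 0, -1, 0, 0, 0, 0, 0], 0),
    (true, [4, 1, 0, 16, 9, 4, 1, 0, 0, 1, 4, 1, 0, 1, 9, 4, 1, 0, 1, 4, 1, 0, 1, 1, 0, 1, 4, 0, 1, 4, 0, 0, 0, 0, 0], 1),
    (true, [0, 0, 0, 0, 0, 0, 0, 0, 0, 0, 0, 0, 0, 0, 0, 0, 0, 0, 0, 0, 0, 0, 0, 0, 0, 0, 0, 0, 0, 0, 0, 0, 0, 1, 0], 0),
    (true, [0, 0, 0, 0, 0, 0, 0, 0, 0, 0, 0, 0, 0, 0, 0, 0, 0, 0, 0, 0, 0, 0, 0, 0, 0, 0, 0, 0, 0, 0, 0, 0, 0, 0, 1], 0),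
    (false, [4, 1, 0, 16, 9, 4, 1, 0, 0, 1, 4, 1, 0, 1, 9, 4, 1, 0, 1, 4, 1, 0, 1, 1, 0, 1, 4, 0, 1, 4, 0, 0, 0, -8, -4], 4),
    (true, [0, 0, 0, 1, 1, 0, 0, 0, 0, 0, 0, 0, 0, 0, 1, 0, 0, 0, 0, 0, 0, 0, 0, 0, 0, 0, 0, 0, 0, 0, 0, 0, 0, 0, 0], 1)]
  moves := EB30_moves1
  reqs := EB30_reqs1
  tree := EB30_1_2_0_tree

theorem EB30_1_2_0_ok : EB30.instOK 1 2 0 EB30_1_2_0 = true := by
  decide +kernel

def EB30_1_3_0_tree : Tree :=
  (.br 8 0
  (.br 5 0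
   (.br 23 0
    (.br 24 0
     (.br 9 0
      (.br 20 0
       (.br 6 0
        (.br 16 0
         (.fk [(0, -4), (1, 40), (2, 44), (3, -11), (4, 17), (5, 14), (6, 11), (7, -4), (8, 1), (13, 14), (17, -7), (18, 14)])
         (.br 11 0
          (.fk [(0, 2), (1, 4), (2, 10), (3, 2), (4, 2), (5, 2), (6, 2), (7, -1), (8, 1), (10, 1), (12, 1), (17, -2), (18, 2)])
          (.mv 21)))
        (.br 1 0
         (.br 21 0
          (.br 22 0
           (.br 11 0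
            (.fk [(0, 4), (1, 8), (2, 20), (3, 4), (4, 4), (5, 5), (6, 5), (7, -1), (8, 1), (10, 4), (17, -4), (18, 4)])
            (.br 16 0
             (.br 17 0
              (.fk [(0, 8), (1, 4), (2, 20), (3, -5), (4, 7), (5, 7), (6, 5), (7, -2), (8, 1), (17, -3)])
              (.br 25 0
               (.br 2 0
                (.fk [(0, 6), (1, 4), (2, 6), (3, 2), (4, 2), (5, 5), (6, 5), (10, 1), (12, 1), (17, -2), (18, 2)])
                (.mv 75))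
               (.mv 25)))
             (.mv 21)))
           (.br 18 0
            (.br 11 0
             (.fk [(0, 8), (1, -30), (2, 94), (3, 9), (4, 9), (5, 12), (6, 12), (7, -1), (8, 25), (11, 12), (12, 9), (13, 12), (17, -33), (18, 33)])
             (.mv 32))
            (.mv 19)))
          (.br 17 0
           (.br 11 0
            (.fk [(0, 10), (1, 20), (2, 50), (3, 10), (4, 10), (5, 8), (6, 8), (7, -7), (8, 7), (10, 1), (12, 9), (17, -10), (18, 10)])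
            (.mv 38))
           (.mv 2)))
         (.mv 9)))
       (.br 11 0
        (.br 17 0
         (.br 16 0
          (.fk [(0, 16), (1, 12), (2, 84), (3, -7), (4, 21), (5, 4), (6, 21), (7, -10), (8, 7), (9, 2), (17, -11), (18, 2)])
          (.mv 22))
         (.br 12 0
          (.fk [(0, 20), (1, 12), (2, 48), (3, 31), (4, 3), (5, 5), (6, 6), (7, -5), (8, 8), (9, 4), (11, 6), (12, 6), (17, -13), (18, 16)])
          (.mv 12)))
        (.mv 4)))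
      (.br 25 0
       (.br 16 0
        (.br 27 0
         (.fk [(3, -3), (4, 1), (5, -2), (6, 5), (8, 2), (11, 5), (13, 2), (17, -2), (18, 3)])
         (.br 26 0
          (.fk [(6, 1)])
          (.mv 58)))
        (.br 11 0
         (.br 19 0
          (.br 20 0
           (.br 18 0
            (.br 21 0
             (.br 22 0
              (.fk [(5, 1)])
              (.mv 28))
             (.br 22 0
              (.br 26 0
               (.fk [(6, 1)])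
               (.mv 67))
              (.mv 28)))
            (.br 21 0
             (.br 22 0
              (.fk [(5, 1)])
              (.mv 19))
             (.mv 33)))
           (.mv 22))
          (.mv 47))
         (.mv 21)))
       (.mv 13)))
     (.mv 0))
    (.br 9 0
     (.br 24 0
      (.br 25 0
       (.br 21 0
        (.br 16 0
         (.br 6 0
          (.fk [(0, 36), (1, 164), (2, 88), (3, 30), (4, 42), (5, 9), (6, 42), (7, -27), (8, 7), (11, 42), (16, 12), (17, -16), (18, 42)])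
          (.br 2 0
           (.br 1 0
            (.br 13 0
             (.fk [(0, 8), (1, 2), (2, 6), (3, 2), (4, 2), (5, 2), (6, 2), (8, 1), (11, 3), (17, -3), (18, 3)])
             (.mv 53))
            (.mv 9))
           (.mv 27)))
         (.br 20 0
          (.br 11 0
           (.br 1 0
            (.br 22 0
             (.fk [(0, 4), (1, 8), (2, 20), (3, 4), (4, 4), (5, 5), (6, 1), (7, -1), (8, 1), (10, 4), (17, -4), (18, 4)])
             (.mv 46))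
            (.mv 45))
           (.mv 21))
          (.mv 22)))
        (.br 6 0
         (.br 28 0
          (.br 10 0
           (.fk [(0, 1), (2, 7), (3, 1), (4, 1), (5, 1), (6, 1), (17, -1), (18, 1)])
           (.br 26 0
            (.br 15 0
             (.br 16 0
              (.fk [(0, 2), (1, 26), (2, -12), (3, -6), (4, 14), (5, -7), (6, 15), (7, 6), (8, -5), (13, 15), (16, 15), (17, -3), (18, 15)])
              (.br 20 0
               (.br 11 0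
                (.fk [(0, -2), (1, 14), (2, 12), (3, 6), (4, 2), (5, -1), (6, 3), (7, -1), (10, 5), (17, -2), (18, 5)])
                (.mv 21))
               (.mv 22)))
             (.mv 40))
            (.mv 3)))
          (.mv 5))
         (.mv 59)))
       (.mv 7))
      (.mv 0))
     (.mv 18)))
   (.br 0 0
    (.br 24 0
     (.br 16 0
      (.br 23 0
       (.br 25 0
        (.br 18 0
         (.fk [(3, -3), (4, 1), (5, -1), (6, 2), (8, 1), (11, 1), (13, 1), (17, -1), (18, 2)])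
         (.br 9 0
          (.fk [(0, 2), (1, 2), (2, 4), (3, -2), (4, 2), (6, 2), (7, -1), (8, 1), (11, 1), (12, 1), (17, -1), (18, 2)])
          (.br 21 0
           (.br 19 0
            (.br 20 0
             (.br 22 0
              (.fk [(5, 1)])
              (.mv 19))
             (.br 11 0
              (.fk [(5, -1), (6, 3), (7, -1), (8, 1)])
              (.mv 4)))
            (.br 26 0
             (.fk [(6, 1)])
             (.mv 39)))
           (.mv 33))))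
        (.br 9 0
         (.br 28 0
          (.fk [(0, -2), (1, 10), (2, 24), (3, -5), (4, 7), (5, -5), (6, 6), (7, -3), (8, 2), (10, 6), (17, -3), (18, 6)])
          (.mv 23))
         (.mv 13)))
       (.br 9 0
        (.br 1 0
         (.fk [(0, 20), (1, 4), (2, 24), (3, -3), (4, 9), (5, 3), (7, -3), (8, 2), (17, -5), (18, 8)])
         (.mv 30))
        (.mv 18)))
      (.br 23 0
       (.br 19 0
        (.br 20 0
         (.br 11 0
          (.fk [(5, 1), (6, 1), (7, -1), (8, 1)])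
          (.mv 21))
         (.mv 22))
        (.br 9 0
         (.br 11 0
          (.fk [(0, 62), (1, 62), (2, 124), (3, 40), (4, 28), (5, 14), (6, 18), (7, -17), (8, 18), (12, 31), (17, -32), (18, 41)])
          (.mv 21))
         (.mv 47)))
       (.br 9 0
        (.br 1 0
         (.br 20 0
          (.br 11 0
           (.fk [(0, 102), (1, 52), (2, 166), (3, 55), (4, 35), (5, 50), (6, 7), (7, -16), (8, 11), (10, 12), (17, -35), (18, 50)])
           (.mv 21))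
          (.mv 22))
         (.mv 30))
        (.mv 18))))
     (.mv 0))
    (.mv 16)))
  (.mv 1))

def EB30_1_3_0 : Inst where
  rows :=
   [(false, [1, 1, 1, 0, 0, 0, 0, 0, 0, 0, 0, 0, 0, 0, 0, 0, 0, 0, 0, 0, 0, 0, 0, 0, 0, 0, 0, 0, 0, 0, 0, 0, 0, -1, 0], 0),
    (false, [0, 0, 0, 1, 1, 1, 1, 1, 0, 0, 0, 0, 0, 0, 0, 0, 0, 0, 0, 0, 0, 0, 0, 0, 0, 0, 0, 0, 0, 0, 0, 0, 0, -1, 0], 0),
    (false, [0, 0, 0, 0, 0, 0, 0, 0, 1, 1, 1, 0, 0, 0, 0, 0, 0, 0, 0, 0, 0, 0, 0, 0, 0, 0, 0, 0, 0, 0, 0, 0, 0, -1, 0], 0),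
    (false, [0, 0, 0, 0, 0, 0, 0, 0, 0, 0, 0, 1, 1, 1, 0, 0, 0, 0, 0, 0, 0, 0, 0, 0, 0, 0, 0, 0, 0, 0, 0, 0, 0, 0, -1], 0),
    (false, [0, 0, 0, 0, 0, 0, 0, 0, 0, 0, 0, 0, 0, 0, 1, 1, 1, 1, 1, 0, 0, 0, 0, 0, 0, 0, 0, 0, 0, 0, 0, 0, 0, 0, -3], 1),
    (false, [0, 0, 0, 0, 0, 0, 0, 0, 0, 0, 0, 0, 0, 0, 0, 0, 0, 0, 0, 1, 1, 1, 1, 0, 0, 0, 0, 0, 0, 0, 0, 0, 0, 0, 0], 2),
    (false, [0, 0, 0, 0, 0, 0, 0, 0, 0, 0, 0, 0, 0, 0, 0, 0, 0, 0, 0, 0, 0, 0, 0, 1, 1, 1, 1, 0, 0, 0, 0, 0, 0, 0, 0], 2),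
    (false, [0, 1, 4, 4, 1, 0, 1, 4, 0, 1, 4, 0, 1, 4, 4, 1, 0, 1, 4, 1, 0, 1, 4, 1, 0, 1, 4, 0, 1, 4, 0, 0, 0, -8, -4], 3),
    (false, [4, 1, 0, 4, 1, 0, 1, 4, 4, 1, 0, 4, 1, 0, 4, 1, 0, 1, 4, 4, 1, 0, 1, 4, 1, 0, 1, 0, 1, 4, 0, 0, 0, -8, -4], 3),
    (false, [-1, -1, -1, 1, 1, 1, 1, 1, -1, -1, -1, -1, -1, -1, 1, 1, 1, 1, 1, 0, 0, 0, 0, 0, 0, 0, 0, 1, 1, 1, -1, 0, 0, 0, 0], 0),
    (false, [1, 1, 1, -1, -1, -1, -1, -1, -1, -1, -1, 0, 0, 0, 0, 0, 0, 0, 0, 1, 1, 1, 1, 0, 0, 0, 0, 1, 1, 1, 0, -1, 0, 0, 0], 0),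
    (false, [-1, 0, 1, -1, 0, 1, 0, -1, -1, 0, 1, -1, 0, 1, -1, 0, 1, 0, -1, -1, 0, 1, 0, -1, 0, 1, 0, 1, 0, -1, 0, 0, -1, 0, 0], 0),
    (true, [-1, -1, -1, -1, -1, -1, -1, -1, 1, 1, 1, 0, 0, 0, 0, 0, 0, 0, 0, 0, 0, 0, 0, 1, 1, 1, 1, 1, 1, 1, 0, 0, 0, 0, 0], 0),
    (true, [1, 0, -1, -1, 0, 1, 0, -1, 1, 0, -1, 1, 0, -1, -1, 0, 1, 0, -1, 0, 1, 0, -1, 0, 1, 0, -1, 1, 0, -1, 0, 0, 0, 0, 0], 0),
    (true, [4, 1, 0, 16, 9, 4, 1, 0, 0, 1, 4, 1, 0, 1, 9, 4, 1, 0, 1, 4, 1, 0, 1, 1, 0, 1, 4, 0, 1, 4, 0, 0, 0, 0, 0], 1),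
    (true, [0, 0, 0, 0, 0, 0, 0, 0, 0, 0, 0, 0, 0, 0, 0, 0, 0, 0, 0, 0, 0, 0, 0, 0, 0, 0, 0, 0, 0, 0, 0, 0, 0, 1, 0], 0),
    (true, [0, 0, 0, 0, 0, 0, 0, 0, 0, 0, 0, 0, 0, 0, 0, 0, 0, 0, 0, 0, 0, 0, 0, 0, 0, 0, 0, 0, 0, 0, 0, 0, 0, 0, 1], 0),
    (false, [4, 1, 0, 16, 9, 4, 1, 0, 0, 1, 4, 1, 0, 1, 9, 4, 1, 0, 1, 4, 1, 0, 1, 1, 0, 1, 4, 0, 1, 4, 0, 0, 0, -8, -4], 4),
    (true, [1, 0, -1, 0, 0, 1, 0, -1, -1, 0, 1, 0, -1, 0, 0, 1, 0, -1, 0, 1, 0, -1, 0, 0, -1, 0, 1, -1, 0, 1, 0, 0, 0, 0, 0], 1)]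
  moves := EB30_moves1
  reqs := EB30_reqs1
  tree := EB30_1_3_0_tree

theorem EB30_1_3_0_ok : EB30.instOK 1 3 0 EB30_1_3_0 = true := by
  decide +kernel

theorem EB30_ok1 : ∀ b ∈ EB30.branches, ∃ I : Inst, EB30.instOK 1 b.1 b.2 I = true := by
  intro b hb
  have h : b = (0, 0) ∨ b = (1, 0) ∨ b = (2, 0) ∨ b = (3, 0) := by
    have hb2 : b ∈ [(0, 0), (1, 0), (2, 0), (3, 0)] := hb
    simpa using hb2
  rcases h with rfl | rfl | rfl | rfl
  · exact ⟨EB30_1_0_0, EB30_1_0_0_ok⟩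
  · exact ⟨EB30_1_1_0, EB30_1_1_0_ok⟩
  · exact ⟨EB30_1_2_0, EB30_1_2_0_ok⟩
  · exact ⟨EB30_1_3_0, EB30_1_3_0_ok⟩

end Pool.Agent.helper1.CAD
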