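import Pool.Agent.helper1.CAD.Sound

namespace Pool.Agent.helper1.CAD

set_option maxRecDepth 100000

def EB31 : Spec where
  K := .B
  tys := [(2, 2, [1, 0], 0), (0, 2, [1, 0], 0), (2, 0, [1, 0], 1), (1, 2, [0, 1], 1), (1, 0, [0, 3], 0), (1, 1, [0, 0], 2), (0, 1, [0, 0], 2)]
  kc := ([4, 2], 4)
  pmin := [0, 0]
  sl := (0, -1)
  good := false
  pv := 1
  px := 0
  pvx := 1

def EB31_moves0 : List Move :=
   [([((0, 2, 0), -2)], 0),
    ([((0, 1, 0), -1)], 0),
    ([((1, 0, 0), 1), ((1, 1, 0), 0)], 0),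
    ([((0, 2, 1), -1), ((0, 1, -1), -2)], 0),
    ([((0, 2, 2), 1), ((0, 1, 2), 2)], 0),
    ([((0, 2, 2), 0), ((0, 0, 2), 2)], 0),
    ([((1, 0, -1), 1), ((1, 1, -1), 0)], 0),
    ([((2, 2, 1), 0), ((2, 0, 1), 2)], 0),
    ([((1, 0, 2), 1), ((1, 1, 2), 0)], 0),
    ([((1, 2, 2), 1), ((1, 1, 2), 2)], 0),
    ([((1, 2, 0), 1), ((1, 1, 0), 2)], 0),
    ([((2, 2, 2), 0), ((2, 0, 2), 2)], 0),
    ([((0, 1, -1), 0), ((0, 0, 1), -1)], 0),
    ([((1, 2, 2), 0), ((1, 0, 2), 2)], 0),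
    ([((0, 1, -1), -1), ((0, 1, 1), -1)], 0),
    ([((2, 2, 0), 0), ((2, 0, 0), 2)], 0),
    ([((1, 1, 0), 0)], 1),
    ([((0, 1, 1), 0), ((0, 0, 1), 1)], 0),
    ([((1, 2, 0), 0), ((1, 0, 0), 2)], 0),
    ([((1, 2, 1), 0), ((1, 0, 1), 2)], 0),
    ([((0, 2, 1), 0), ((0, 0, 1), 2)], 0),
    ([((0, 1, 2), 0), ((0, 0, 2), 1)], 0),
    ([((1, 0, 1), 1), ((1, 1, 1), 0)], 0),
    ([((1, 2, 1), 1), ((1, 1, 1), 2)], 0),
    ([((0, 2, 1), 1), ((0, 1, 1), 2)], 0),
    ([((1, 2, 1), 0), ((1, 0, 2), 2), ((0, 1, 1), -1)], 0),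
    ([((1, 2, 0), 1), ((1, 1, 2), 2), ((0, 1, 1), -1)], 0),
    ([((2, 0, -1), 1), ((1, 1, -1), -1), ((0, 1, 1), 0)], 0),
    ([((1, 2, 1), 0), ((1, 0, 2), 1), ((1, 1, 0), 2)], 0),
    ([((2, 2, 0), 1), ((1, 0, 1), 2), ((0, 1, 2), 0)], 0),
    ([((2, 2, 2), 0), ((2, 0, 1), 2), ((0, 1, -1), -1)], 0),
    ([((0, 2, 1), 0), ((1, 0, 2), 2), ((1, 1, 1), -1)], 0),
    ([((1, 2, 0), 1), ((0, 1, 2), 0), ((0, 1, 2), 2)], 1),
    ([((2, 0, 1), 1), ((1, 1, 0), -1), ((0, 1, 1), 0)], 0),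
    ([((2, 0, -1), 1), ((1, 2, 0), 0), ((0, 1, 1), 2)], 0),
    ([((2, 0, 1), 1), ((1, 1, 1), -1), ((0, 1, -1), 0)], 0),
    ([((2, 0, -1), 1), ((1, 2, 1), 0), ((0, 1, -1), -2)], 0),
    ([((1, 2, 0), 1), ((1, 0, 1), 2), ((1, 1, 2), 0)], 0),
    ([((1, 2, 1), 1), ((0, 1, -1), -2), ((0, 1, 2), 0)], 1),
    ([((0, 2, 2), 0), ((1, 0, -2), -1), ((1, 1, 2), 2)], 0),
    ([((1, 2, 1), 1), ((0, 1, 1), 0), ((0, 1, 2), 2)], 1),
    ([((0, 2, 2), 0), ((1, 0, 1), 2), ((1, 1, -1), -1)], 0),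
    ([((2, 2, 1), 0), ((2, 0, 2), 2), ((0, 1, 1), -1)], 0),
    ([((1, 0, -1), 1), ((1, 1, 1), 0), ((0, 1, -1), -1)], 0),
    ([((0, 2, 1), 0), ((1, 0, 0), 2), ((1, 1, -1), -1)], 0),
    ([((2, 0, 2), 1), ((1, 2, 2), 0), ((0, 1, 2), 2)], 0),
    ([((1, 2, 0), 0), ((1, 0, 1), 2), ((0, 1, 1), -1)], 0),
    ([((2, 2, 1), 0), ((2, 0, 0), 2), ((0, 1, -1), -1)], 0),
    ([((1, 0, 1), 1), ((1, 1, -1), 0), ((0, 1, 1), -1)], 0),
    ([((0, 2, 1), 0), ((1, 0, 0), -1), ((1, 1, 2), 2)], 0),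
    ([((1, 2, 1), 0), ((1, 1, 2), 2)], 1),
    ([((1, 0, 0), 1), ((1, 1, 2), 0), ((0, 1, -1), -1)], 0),
    ([((2, 0, 0), 1), ((1, 2, 1), 0), ((0, 1, 2), 2)], 0),
    ([((1, 2, 2), 1), ((1, 1, 0), 2), ((0, 1, -1), -1)], 0),
    ([((1, 2, 0), 0), ((1, 0, -1), 1), ((1, 1, 1), 2)], 0),
    ([((2, 2, 2), 1), ((1, 0, 2), 2), ((0, 1, 2), 0)], 0),
    ([((2, 0, 0), 2), ((1, 2, 1), 0), ((1, 1, -1), -1)], 0),
    ([((2, 0, 1), 2), ((1, 2, 2), 0), ((1, 1, -1), -1)], 0),
    ([((1, 2, 1), 1), ((1, 0, 0), 2), ((1, 1, -1), 0)], 0),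
    ([((1, 2, 1), 0), ((1, 0, 0), 2), ((0, 1, -1), -1)], 0),
    ([((1, 1, 2), 0), ((0, 1, -1), -1)], 1),
    ([((2, 0, 1), 1), ((1, 2, 1), 0), ((0, 1, 1), 2)], 0),
    ([((2, 0, 1), 2), ((1, 2, 1), -1), ((1, 1, -1), 0)], 0),
    ([((2, 2, 0), 0), ((2, 0, 1), 2), ((0, 1, 1), -1)], 0),
    ([((0, 2, 1), 0), ((0, 1, 2), 2), ((0, 0, 0), -1)], 0),
    ([((1, 2, 2), 0), ((1, 0, 1), 2), ((0, 1, -1), -1)], 0),
    ([((2, 0, 1), 2), ((1, 2, 0), 0), ((1, 1, 1), -1)], 0),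
    ([((2, 0, 1), 1), ((1, 2, 2), 0), ((0, 1, -1), -2)], 0),
    ([((2, 0, -1), 1), ((1, 2, 2), 0), ((0, 1, -1), -2), ((0, 1, -1), -1)], 0),
    ([((2, 0, -1), 1), ((1, 1, 1), -1), ((0, 1, -1), -1), ((0, 1, -1), 0)], 0),
    ([((2, 0, 0), 2), ((1, 2, 0), 0), ((1, 0, 1), -1), ((1, 1, -1), 0)], 0),
    ([((2, 0, 0), 2), ((1, 2, 0), 0), ((1, 1, -1), -1), ((0, 1, 1), -1)], 0),
    ([((2, 0, -1), 1), ((1, 2, 0), 1), ((1, 1, 1), 0), ((0, 1, 2), 2)], 0),
    ([((2, 0, -1), 1), ((1, 2, 0), 1), ((1, 1, 2), 0), ((0, 1, -1), -2)], 0),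
    ([((2, 0, -1), 1), ((1, 2, 0), 0), ((0, 1, -1), 0), ((0, 0, 0), -2)], 0),
    ([((2, 0, 1), 1), ((1, 2, 0), 0), ((0, 1, 1), -1), ((0, 1, 1), 2)], 0),
    ([((2, 0, 1), 1), ((1, 2, 0), 0), ((0, 1, 1), 0), ((0, 0, 0), -2)], 0),
    ([((2, 0, 0), 2), ((1, 2, 0), 0), ((1, 1, 1), -1), ((0, 1, -1), -1)], 0),
    ([((2, 0, 0), 2), ((1, 2, 0), -1), ((1, 1, 2), 0), ((0, 1, -1), -1)], 0),
    ([((2, 0, 0), 1), ((1, 2, 0), -1), ((1, 1, 2), 2), ((0, 1, 2), 0)], 0),
    ([((2, 0, 0), 2), ((1, 2, 1), 0), ((1, 1, 0), -1), ((0, 1, -1), -1)], 0),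
    ([((2, 0, 0), 1), ((1, 2, 1), -1), ((1, 1, 2), 2), ((0, 1, -1), 0)], 0),
    ([((0, 2, 2), 0), ((1, 2, 0), 0), ((1, 0, 2), 2), ((0, 0, 0), -2)], 0),
    ([((0, 2, 2), 0), ((2, 0, -1), 1), ((1, 1, -1), -1), ((0, 1, -1), -2)], 0),
    ([((0, 2, 2), 1), ((1, 0, 1), 1), ((1, 1, 0), 0), ((0, 1, 1), 2)], 0),
    ([((0, 2, 2), 1), ((1, 0, 1), -1), ((1, 1, 2), 2), ((0, 1, -1), 0)], 0),
    ([((0, 2, 2), 0), ((0, 1, -1), -1), ((0, 1, -1), -1), ((0, 0, 0), -2)], 0),
    ([((0, 2, 2), 0), ((1, 0, -1), -1), ((1, 0, 2), 2), ((1, 1, 1), 0)], 0),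
    ([((2, 2, 1), 1), ((0, 2, 2), 0), ((1, 0, 2), 2), ((0, 1, 1), 2)], 0),
    ([((2, 2, 1), 0), ((2, 0, -1), 1), ((1, 0, 1), 2), ((0, 1, -1), 0)], 0),
    ([((2, 2, 1), 1), ((2, 0, 0), 2), ((1, 2, 0), 0), ((0, 1, 1), 2)], 0),
    ([((2, 2, 2), 0), ((0, 2, 2), 0), ((1, 0, 2), 2), ((1, 0, 2), 2)], 0),
    ([((2, 2, 2), 0), ((2, 0, 0), 2), ((1, 2, 0), 0), ((1, 0, 2), 2)], 0),
    ([((2, 2, 2), 1), ((2, 0, 0), 2), ((1, 2, 0), 0), ((0, 1, 2), 2)], 0),
    ([((2, 2, 2), 0), ((2, 0, 0), 2), ((0, 1, -1), -1), ((0, 1, -1), -1)], 0),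
    ([((2, 2, 2), 0), ((2, 0, 1), 2), ((1, 2, 0), 0), ((1, 0, 1), 2)], 0),
    ([((2, 2, 2), 0), ((2, 0, 1), 2), ((1, 0, 1), 1), ((1, 1, -1), 0)], 0),
    ([((2, 2, 2), 0), ((2, 0, 1), 1), ((1, 0, 2), 2), ((0, 1, 1), 0)], 0),
    ([((2, 2, 0), 1), ((0, 2, 1), 0), ((1, 0, 0), 2), ((0, 1, 2), 2)], 0),
    ([((2, 2, 0), 0), ((0, 2, 2), 0), ((2, 0, 2), 2), ((0, 0, 0), -2)], 0),
    ([((2, 2, 0), 1), ((1, 1, 2), 2), ((0, 1, 2), 0)], 1),
    ([((2, 2, 0), 0), ((2, 0, 2), 2), ((0, 1, 1), -1), ((0, 1, 1), -1)], 0),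
    ([((2, 2, 2), 1), ((1, 0, 1), 2), ((0, 1, -1), -1), ((0, 1, 2), 0)], 0),
    ([((1, 2, 1), 0), ((1, 0, 2), 1), ((0, 1, 2), 0), ((0, 1, 2), 2)], 1),
    ([((1, 2, 2), 0), ((1, 0, 0), 2), ((0, 1, -1), -1), ((0, 1, -1), -1)], 0),
    ([((1, 2, 0), 1), ((0, 1, 1), 0), ((0, 1, 1), 2)], 1),
    ([((2, 0, 2), 2), ((1, 2, 0), 0), ((1, 1, 1), -1), ((0, 1, 1), -1)], 0),
    ([((1, 2, 0), 1), ((1, 1, 1), 0), ((1, 1, 1), 2)], 1),
    ([((2, 0, 0), 1), ((1, 2, 0), 0), ((1, 1, 1), 0), ((0, 1, 1), 2)], 1),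
    ([((2, 0, 0), 1), ((1, 2, 2), 1), ((1, 1, 1), 0), ((0, 1, -1), -2)], 0),
    ([((2, 0, 0), 1), ((1, 2, 2), 1), ((1, 1, -1), 0), ((0, 1, 1), 2)], 0)]

def EB31_reqs0 : List (List ℤ) :=
   [[0, 0, 0, 1, 0, 0, 0, 0, 0, 0, 0, 0, 0, 0, 0, 0, 0, 0, 0, 0, 0, 0, 0, 0, 0, 0, 0, 0, 0, 0, 0, 0, 0, 0, 0],
    [0, 0, 0, 0, 0, 0, 0, 0, 0, 0, 0, 0, 0, 0, 0, 0, 0, 0, 0, 0, 0, 0, 0, 0, 1, 0, 0, 0, 0, 0, 0, 0, 0, 0, 0],
    [0, 0, 0, 0, 0, 0, 0, 0, 0, 0, 0, 0, 0, 0, 0, 0, 1, 0, 0, 0, 1, 0, 0, 0, 0, 0, 0, 0, 0, 0, 0, 0, 0, 0, 0],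
    [0, 0, 0, 0, 1, 0, 0, 0, 0, 0, 0, 0, 0, 0, 0, 0, 0, 0, 0, 0, 0, 0, 0, 1, 0, 0, 0, 0, 0, 0, 0, 0, 0, 0, 0],
    [0, 0, 0, 0, 0, 1, 0, 0, 0, 0, 0, 0, 0, 0, 0, 0, 0, 0, 0, 0, 0, 0, 0, 0, 0, 0, 1, 0, 0, 0, 0, 0, 0, 0, 0],
    [0, 0, 0, 0, 0, 1, 0, 0, 0, 0, 0, 0, 0, 0, 0, 0, 0, 0, 0, 0, 0, 0, 0, 0, 0, 0, 0, 0, 0, 1, 0, 0, 0, 0, 0],
    [0, 0, 0, 0, 0, 0, 0, 0, 0, 0, 0, 0, 0, 0, 0, 1, 0, 0, 0, 1, 0, 0, 0, 0, 0, 0, 0, 0, 0, 0, 0, 0, 0, 0, 0],
    [0, 1, 0, 0, 0, 0, 0, 0, 0, 1, 0, 0, 0, 0, 0, 0, 0, 0, 0, 0, 0, 0, 0, 0, 0, 0, 0, 0, 0, 0, 0, 0, 0, 0, 0],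
    [0, 0, 0, 0, 0, 0, 0, 0, 0, 0, 0, 0, 0, 0, 0, 0, 0, 0, 1, 0, 0, 0, 1, 0, 0, 0, 0, 0, 0, 0, 0, 0, 0, 0, 0],
    [0, 0, 0, 0, 0, 0, 0, 0, 0, 0, 0, 0, 0, 1, 0, 0, 0, 0, 0, 0, 0, 0, 1, 0, 0, 0, 0, 0, 0, 0, 0, 0, 0, 0, 0],
    [0, 0, 0, 0, 0, 0, 0, 0, 0, 0, 0, 1, 0, 0, 0, 0, 0, 0, 0, 0, 1, 0, 0, 0, 0, 0, 0, 0, 0, 0, 0, 0, 0, 0, 0],
    [0, 0, 1, 0, 0, 0, 0, 0, 0, 0, 1, 0, 0, 0, 0, 0, 0, 0, 0, 0, 0, 0, 0, 0, 0, 0, 0, 0, 0, 0, 0, 0, 0, 0, 0],
    [0, 0, 0, 0, 0, 0, 0, 0, 0, 0, 0, 0, 0, 0, 0, 0, 0, 0, 0, 0, 0, 0, 0, 1, 0, 0, 0, 0, 1, 0, 0, 0, 0, 0, 0],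
    [0, 0, 0, 0, 0, 0, 0, 0, 0, 0, 0, 0, 0, 1, 0, 0, 0, 0, 1, 0, 0, 0, 0, 0, 0, 0, 0, 0, 0, 0, 0, 0, 0, 0, 0],
    [0, 0, 0, 0, 0, 0, 0, 0, 0, 0, 0, 0, 0, 0, 0, 0, 0, 0, 0, 0, 0, 0, 0, 1, 0, 1, 0, 0, 0, 0, 0, 0, 0, 0, 0],
    [1, 0, 0, 0, 0, 0, 0, 0, 1, 0, 0, 0, 0, 0, 0, 0, 0, 0, 0, 0, 0, 0, 0, 0, 0, 0, 0, 0, 0, 0, 0, 0, 0, 0, 0],
    [0, 0, 0, 0, 0, 0, 0, 0, 0, 0, 0, 0, 0, 0, 0, 0, 0, 0, 0, 0, 1, 0, 0, 0, 0, 0, 0, 0, 0, 0, 0, 1, 0, 0, 0],
    [0, 0, 0, 0, 0, 0, 0, 0, 0, 0, 0, 0, 0, 0, 0, 0, 0, 0, 0, 0, 0, 0, 0, 0, 0, 1, 0, 0, 1, 0, 0, 0, 0, 0, 0],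
    [0, 0, 0, 0, 0, 0, 0, 0, 0, 0, 0, 1, 0, 0, 0, 0, 1, 0, 0, 0, 0, 0, 0, 0, 0, 0, 0, 0, 0, 0, 0, 0, 0, 0, 0],
    [0, 0, 0, 0, 0, 0, 0, 0, 0, 0, 0, 0, 1, 0, 0, 0, 0, 1, 0, 0, 0, 0, 0, 0, 0, 0, 0, 0, 0, 0, 0, 0, 0, 0, 0],
    [0, 0, 0, 0, 1, 0, 0, 0, 0, 0, 0, 0, 0, 0, 0, 0, 0, 0, 0, 0, 0, 0, 0, 0, 0, 0, 0, 0, 1, 0, 0, 0, 0, 0, 0],
    [0, 0, 0, 0, 0, 0, 0, 0, 0, 0, 0, 0, 0, 0, 0, 0, 0, 0, 0, 0, 0, 0, 0, 0, 0, 0, 1, 0, 0, 1, 0, 0, 0, 0, 0],
    [0, 0, 0, 0, 0, 0, 0, 0, 0, 0, 0, 0, 0, 0, 0, 0, 0, 1, 0, 0, 0, 1, 0, 0, 0, 0, 0, 0, 0, 0, 0, 0, 0, 0, 0],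
    [0, 0, 0, 0, 0, 0, 0, 0, 0, 0, 0, 0, 1, 0, 0, 0, 0, 0, 0, 0, 0, 1, 0, 0, 0, 0, 0, 0, 0, 0, 0, 0, 0, 0, 0],
    [0, 0, 0, 0, 1, 0, 0, 0, 0, 0, 0, 0, 0, 0, 0, 0, 0, 0, 0, 0, 0, 0, 0, 0, 0, 1, 0, 0, 0, 0, 0, 0, 0, 0, 0],
    [0, 0, 0, 0, 0, 0, 0, 0, 0, 0, 0, 0, 1, 0, 0, 0, 0, 0, 1, 0, 0, 0, 0, 0, 0, 1, 0, 0, 0, 0, 0, 0, 0, 0, 0],
    [0, 0, 0, 0, 0, 0, 0, 0, 0, 0, 0, 1, 0, 0, 0, 0, 0, 0, 0, 0, 0, 0, 1, 0, 0, 1, 0, 0, 0, 0, 0, 0, 0, 0, 0],
    [0, 0, 0, 0, 0, 0, 0, 1, 0, 0, 0, 0, 0, 0, 0, 0, 0, 0, 0, 1, 0, 0, 0, 0, 0, 1, 0, 0, 0, 0, 0, 0, 0, 0, 0],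
    [0, 0, 0, 0, 0, 0, 0, 0, 0, 0, 0, 0, 1, 0, 0, 0, 0, 0, 1, 0, 1, 0, 0, 0, 0, 0, 0, 0, 0, 0, 0, 0, 0, 0, 0],
    [1, 0, 0, 0, 0, 0, 0, 0, 0, 0, 0, 0, 0, 0, 0, 0, 0, 1, 0, 0, 0, 0, 0, 0, 0, 0, 1, 0, 0, 0, 0, 0, 0, 0, 0],
    [0, 0, 1, 0, 0, 0, 0, 0, 0, 1, 0, 0, 0, 0, 0, 0, 0, 0, 0, 0, 0, 0, 0, 1, 0, 0, 0, 0, 0, 0, 0, 0, 0, 0, 0],
    [0, 0, 0, 0, 1, 0, 0, 0, 0, 0, 0, 0, 0, 0, 0, 0, 0, 0, 1, 0, 0, 1, 0, 0, 0, 0, 0, 0, 0, 0, 0, 0, 0, 0, 0],
    [0, 0, 0, 0, 0, 0, 0, 0, 0, 0, 0, 1, 0, 0, 0, 0, 0, 0, 0, 0, 0, 0, 0, 0, 0, 0, 2, 0, 0, 0, 0, 0, 0, 0, 0],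
    [0, 0, 0, 0, 0, 0, 0, 0, 0, 1, 0, 0, 0, 0, 0, 0, 0, 0, 0, 0, 1, 0, 0, 0, 0, 1, 0, 0, 0, 0, 0, 0, 0, 0, 0],
    [0, 0, 0, 0, 0, 0, 0, 1, 0, 0, 0, 1, 0, 0, 0, 0, 0, 0, 0, 0, 0, 0, 0, 0, 0, 1, 0, 0, 0, 0, 0, 0, 0, 0, 0],
    [0, 0, 0, 0, 0, 0, 0, 0, 0, 1, 0, 0, 0, 0, 0, 0, 0, 0, 0, 0, 0, 1, 0, 1, 0, 0, 0, 0, 0, 0, 0, 0, 0, 0, 0],
    [0, 0, 0, 0, 0, 0, 0, 1, 0, 0, 0, 0, 1, 0, 0, 0, 0, 0, 0, 0, 0, 0, 0, 1, 0, 0, 0, 0, 0, 0, 0, 0, 0, 0, 0],
    [0, 0, 0, 0, 0, 0, 0, 0, 0, 0, 0, 1, 0, 0, 0, 0, 0, 1, 0, 0, 0, 0, 1, 0, 0, 0, 0, 0, 0, 0, 0, 0, 0, 0, 0],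
    [0, 0, 0, 0, 0, 0, 0, 0, 0, 0, 0, 0, 1, 0, 0, 0, 0, 0, 0, 0, 0, 0, 0, 1, 0, 0, 1, 0, 0, 0, 0, 0, 0, 0, 0],
    [0, 0, 0, 0, 0, 1, 0, 0, 0, 0, 0, 0, 0, 0, 1, 0, 0, 0, 0, 0, 0, 0, 1, 0, 0, 0, 0, 0, 0, 0, 0, 0, 0, 0, 0],
    [0, 0, 0, 0, 0, 0, 0, 0, 0, 0, 0, 0, 1, 0, 0, 0, 0, 0, 0, 0, 0, 0, 0, 0, 0, 1, 1, 0, 0, 0, 0, 0, 0, 0, 0],
    [0, 0, 0, 0, 0, 1, 0, 0, 0, 0, 0, 0, 0, 0, 0, 0, 0, 1, 0, 1, 0, 0, 0, 0, 0, 0, 0, 0, 0, 0, 0, 0, 0, 0, 0],
    [0, 1, 0, 0, 0, 0, 0, 0, 0, 0, 1, 0, 0, 0, 0, 0, 0, 0, 0, 0, 0, 0, 0, 0, 0, 1, 0, 0, 0, 0, 0, 0, 0, 0, 0],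
    [0, 0, 0, 0, 0, 0, 0, 0, 0, 0, 0, 0, 0, 0, 0, 1, 0, 0, 0, 0, 0, 1, 0, 1, 0, 0, 0, 0, 0, 0, 0, 0, 0, 0, 0],
    [0, 0, 0, 0, 1, 0, 0, 0, 0, 0, 0, 0, 0, 0, 0, 0, 1, 0, 0, 1, 0, 0, 0, 0, 0, 0, 0, 0, 0, 0, 0, 0, 0, 0, 0],
    [0, 0, 0, 0, 0, 0, 0, 0, 0, 0, 1, 0, 0, 1, 0, 0, 0, 0, 0, 0, 0, 0, 0, 0, 0, 0, 1, 0, 0, 0, 0, 0, 0, 0, 0],
    [0, 0, 0, 0, 0, 0, 0, 0, 0, 0, 0, 1, 0, 0, 0, 0, 0, 1, 0, 0, 0, 0, 0, 0, 0, 1, 0, 0, 0, 0, 0, 0, 0, 0, 0],
    [0, 1, 0, 0, 0, 0, 0, 0, 1, 0, 0, 0, 0, 0, 0, 0, 0, 0, 0, 0, 0, 0, 0, 1, 0, 0, 0, 0, 0, 0, 0, 0, 0, 0, 0],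
    [0, 0, 0, 0, 0, 0, 0, 0, 0, 0, 0, 0, 0, 0, 0, 0, 0, 1, 0, 1, 0, 0, 0, 0, 0, 1, 0, 0, 0, 0, 0, 0, 0, 0, 0],
    [0, 0, 0, 0, 1, 0, 0, 0, 0, 0, 0, 0, 0, 0, 0, 0, 1, 0, 0, 0, 0, 0, 1, 0, 0, 0, 0, 0, 0, 0, 0, 0, 0, 0, 0],
    [0, 0, 0, 0, 0, 0, 0, 0, 0, 0, 0, 0, 1, 0, 0, 0, 0, 0, 0, 0, 0, 0, 1, 0, 0, 0, 0, 0, 0, 0, 0, 1, 0, 0, 0],
    [0, 0, 0, 0, 0, 0, 0, 0, 0, 0, 0, 0, 0, 0, 0, 0, 1, 0, 0, 0, 0, 0, 1, 1, 0, 0, 0, 0, 0, 0, 0, 0, 0, 0, 0],
    [0, 0, 0, 0, 0, 0, 0, 0, 1, 0, 0, 0, 1, 0, 0, 0, 0, 0, 0, 0, 0, 0, 0, 0, 0, 0, 1, 0, 0, 0, 0, 0, 0, 0, 0],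
    [0, 0, 0, 0, 0, 0, 0, 0, 0, 0, 0, 0, 0, 1, 0, 0, 0, 0, 0, 0, 1, 0, 0, 1, 0, 0, 0, 0, 0, 0, 0, 0, 0, 0, 0],
    [0, 0, 0, 0, 0, 0, 0, 0, 0, 0, 0, 1, 0, 0, 0, 1, 0, 0, 0, 0, 0, 1, 0, 0, 0, 0, 0, 0, 0, 0, 0, 0, 0, 0, 0],
    [0, 0, 1, 0, 0, 0, 0, 0, 0, 0, 0, 0, 0, 0, 0, 0, 0, 0, 1, 0, 0, 0, 0, 0, 0, 0, 1, 0, 0, 0, 0, 0, 0, 0, 0],
    [0, 0, 0, 0, 0, 0, 0, 0, 1, 0, 0, 0, 1, 0, 0, 0, 0, 0, 0, 1, 0, 0, 0, 0, 0, 0, 0, 0, 0, 0, 0, 0, 0, 0, 0],
    [0, 0, 0, 0, 0, 0, 0, 0, 0, 1, 0, 0, 0, 1, 0, 0, 0, 0, 0, 1, 0, 0, 0, 0, 0, 0, 0, 0, 0, 0, 0, 0, 0, 0, 0],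
    [0, 0, 0, 0, 0, 0, 0, 0, 0, 0, 0, 0, 1, 0, 0, 0, 1, 0, 0, 1, 0, 0, 0, 0, 0, 0, 0, 0, 0, 0, 0, 0, 0, 0, 0],
    [0, 0, 0, 0, 0, 0, 0, 0, 0, 0, 0, 0, 1, 0, 0, 0, 1, 0, 0, 0, 0, 0, 0, 1, 0, 0, 0, 0, 0, 0, 0, 0, 0, 0, 0],
    [0, 0, 0, 0, 0, 0, 0, 0, 0, 0, 0, 0, 0, 0, 0, 0, 0, 0, 0, 0, 0, 0, 1, 1, 0, 0, 0, 0, 0, 0, 0, 1, 0, 0, 0],
    [0, 0, 0, 0, 0, 0, 0, 0, 0, 1, 0, 0, 1, 0, 0, 0, 0, 0, 0, 0, 0, 0, 0, 0, 0, 1, 0, 0, 0, 0, 0, 0, 0, 0, 0],
    [0, 0, 0, 0, 0, 0, 0, 0, 0, 1, 0, 0, 1, 0, 0, 0, 0, 0, 0, 1, 0, 0, 0, 0, 0, 0, 0, 0, 0, 0, 0, 0, 0, 0, 0],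
    [1, 0, 0, 0, 0, 0, 0, 0, 0, 1, 0, 0, 0, 0, 0, 0, 0, 0, 0, 0, 0, 0, 0, 0, 0, 1, 0, 0, 0, 0, 0, 0, 0, 0, 0],
    [0, 0, 0, 0, 1, 0, 0, 0, 0, 0, 0, 0, 0, 0, 0, 0, 0, 0, 0, 0, 0, 0, 0, 0, 0, 0, 1, 1, 0, 0, 0, 0, 0, 0, 0],
    [0, 0, 0, 0, 0, 0, 0, 0, 0, 0, 0, 0, 0, 1, 0, 0, 0, 1, 0, 0, 0, 0, 0, 1, 0, 0, 0, 0, 0, 0, 0, 0, 0, 0, 0],
    [0, 0, 0, 0, 0, 0, 0, 0, 0, 1, 0, 1, 0, 0, 0, 0, 0, 0, 0, 0, 0, 1, 0, 0, 0, 0, 0, 0, 0, 0, 0, 0, 0, 0, 0],
    [0, 0, 0, 0, 0, 0, 0, 0, 0, 1, 0, 0, 0, 1, 0, 0, 0, 0, 0, 0, 0, 0, 0, 1, 0, 0, 0, 0, 0, 0, 0, 0, 0, 0, 0],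
    [0, 0, 0, 0, 0, 0, 0, 1, 0, 0, 0, 0, 0, 1, 0, 0, 0, 0, 0, 0, 0, 0, 0, 2, 0, 0, 0, 0, 0, 0, 0, 0, 0, 0, 0],
    [0, 0, 0, 0, 0, 0, 0, 1, 0, 0, 0, 0, 0, 0, 0, 0, 0, 0, 0, 0, 0, 1, 0, 2, 0, 0, 0, 0, 0, 0, 0, 0, 0, 0, 0],
    [0, 0, 0, 0, 0, 0, 0, 0, 1, 0, 0, 1, 0, 0, 0, 0, 0, 1, 0, 1, 0, 0, 0, 0, 0, 0, 0, 0, 0, 0, 0, 0, 0, 0, 0],
    [0, 0, 0, 0, 0, 0, 0, 0, 1, 0, 0, 1, 0, 0, 0, 0, 0, 0, 0, 1, 0, 0, 0, 0, 0, 1, 0, 0, 0, 0, 0, 0, 0, 0, 0],
    [0, 0, 0, 0, 0, 0, 0, 1, 0, 0, 0, 1, 0, 0, 0, 0, 0, 0, 0, 0, 0, 1, 0, 0, 0, 0, 1, 0, 0, 0, 0, 0, 0, 0, 0],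
    [0, 0, 0, 0, 0, 0, 0, 1, 0, 0, 0, 1, 0, 0, 0, 0, 0, 0, 0, 0, 0, 0, 1, 1, 0, 0, 0, 0, 0, 0, 0, 0, 0, 0, 0],
    [0, 0, 0, 0, 0, 0, 0, 1, 0, 0, 0, 1, 0, 0, 0, 0, 0, 0, 0, 0, 0, 0, 0, 1, 0, 0, 0, 1, 0, 0, 0, 0, 0, 0, 0],
    [0, 0, 0, 0, 0, 0, 0, 0, 0, 1, 0, 1, 0, 0, 0, 0, 0, 0, 0, 0, 0, 0, 0, 0, 0, 2, 0, 0, 0, 0, 0, 0, 0, 0, 0],
    [0, 0, 0, 0, 0, 0, 0, 0, 0, 1, 0, 1, 0, 0, 0, 0, 0, 0, 0, 0, 0, 0, 0, 0, 0, 1, 0, 1, 0, 0, 0, 0, 0, 0, 0],
    [0, 0, 0, 0, 0, 0, 0, 0, 1, 0, 0, 1, 0, 0, 0, 0, 0, 0, 0, 0, 0, 1, 0, 1, 0, 0, 0, 0, 0, 0, 0, 0, 0, 0, 0],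
    [0, 0, 0, 0, 0, 0, 0, 0, 1, 0, 0, 1, 0, 0, 0, 0, 0, 0, 0, 0, 0, 0, 1, 1, 0, 0, 0, 0, 0, 0, 0, 0, 0, 0, 0],
    [0, 0, 0, 0, 0, 0, 0, 0, 1, 0, 0, 1, 0, 0, 0, 0, 0, 0, 0, 0, 0, 0, 1, 0, 0, 0, 1, 0, 0, 0, 0, 0, 0, 0, 0],
    [0, 0, 0, 0, 0, 0, 0, 0, 1, 0, 0, 0, 1, 0, 0, 0, 0, 0, 0, 0, 1, 0, 0, 1, 0, 0, 0, 0, 0, 0, 0, 0, 0, 0, 0],
    [0, 0, 0, 0, 0, 0, 0, 0, 1, 0, 0, 0, 1, 0, 0, 0, 0, 0, 0, 0, 0, 0, 1, 1, 0, 0, 0, 0, 0, 0, 0, 0, 0, 0, 0],
    [0, 0, 0, 0, 0, 1, 0, 0, 0, 0, 0, 1, 0, 0, 0, 0, 0, 0, 1, 0, 0, 0, 0, 0, 0, 0, 0, 1, 0, 0, 0, 0, 0, 0, 0],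
    [0, 0, 0, 0, 0, 1, 0, 1, 0, 0, 0, 0, 0, 0, 0, 0, 0, 0, 0, 1, 0, 0, 0, 1, 0, 0, 0, 0, 0, 0, 0, 0, 0, 0, 0],
    [0, 0, 0, 0, 0, 1, 0, 0, 0, 0, 0, 0, 0, 0, 0, 0, 0, 1, 0, 0, 1, 0, 0, 0, 0, 1, 0, 0, 0, 0, 0, 0, 0, 0, 0],
    [0, 0, 0, 0, 0, 1, 0, 0, 0, 0, 0, 0, 0, 0, 0, 0, 0, 1, 0, 0, 0, 0, 1, 1, 0, 0, 0, 0, 0, 0, 0, 0, 0, 0, 0],
    [0, 0, 0, 0, 0, 1, 0, 0, 0, 0, 0, 0, 0, 0, 0, 0, 0, 0, 0, 0, 0, 0, 0, 2, 0, 0, 0, 1, 0, 0, 0, 0, 0, 0, 0],
    [0, 0, 0, 0, 0, 1, 0, 0, 0, 0, 0, 0, 0, 0, 0, 1, 0, 0, 1, 0, 0, 1, 0, 0, 0, 0, 0, 0, 0, 0, 0, 0, 0, 0, 0],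
    [0, 1, 0, 0, 0, 1, 0, 0, 0, 0, 0, 0, 0, 0, 0, 0, 0, 0, 1, 0, 0, 0, 0, 0, 0, 1, 0, 0, 0, 0, 0, 0, 0, 0, 0],
    [0, 1, 0, 0, 0, 0, 0, 1, 0, 0, 0, 0, 0, 0, 0, 0, 0, 1, 0, 0, 0, 0, 0, 1, 0, 0, 0, 0, 0, 0, 0, 0, 0, 0, 0],
    [0, 1, 0, 0, 0, 0, 0, 0, 1, 0, 0, 1, 0, 0, 0, 0, 0, 0, 0, 0, 0, 0, 0, 0, 0, 1, 0, 0, 0, 0, 0, 0, 0, 0, 0],
    [0, 0, 1, 0, 0, 1, 0, 0, 0, 0, 0, 0, 0, 0, 0, 0, 0, 0, 2, 0, 0, 0, 0, 0, 0, 0, 0, 0, 0, 0, 0, 0, 0, 0, 0],
    [0, 0, 1, 0, 0, 0, 0, 0, 1, 0, 0, 1, 0, 0, 0, 0, 0, 0, 1, 0, 0, 0, 0, 0, 0, 0, 0, 0, 0, 0, 0, 0, 0, 0, 0],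
    [0, 0, 1, 0, 0, 0, 0, 0, 1, 0, 0, 1, 0, 0, 0, 0, 0, 0, 0, 0, 0, 0, 0, 0, 0, 0, 1, 0, 0, 0, 0, 0, 0, 0, 0],
    [0, 0, 1, 0, 0, 0, 0, 0, 1, 0, 0, 0, 0, 0, 0, 0, 0, 0, 0, 0, 0, 0, 0, 2, 0, 0, 0, 0, 0, 0, 0, 0, 0, 0, 0],
    [0, 0, 1, 0, 0, 0, 0, 0, 0, 1, 0, 1, 0, 0, 0, 0, 0, 1, 0, 0, 0, 0, 0, 0, 0, 0, 0, 0, 0, 0, 0, 0, 0, 0, 0],
    [0, 0, 1, 0, 0, 0, 0, 0, 0, 1, 0, 0, 0, 0, 0, 0, 0, 1, 0, 1, 0, 0, 0, 0, 0, 0, 0, 0, 0, 0, 0, 0, 0, 0, 0],
    [0, 0, 1, 0, 0, 0, 0, 0, 0, 1, 0, 0, 0, 0, 0, 0, 0, 0, 1, 0, 0, 0, 0, 0, 0, 1, 0, 0, 0, 0, 0, 0, 0, 0, 0],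
    [1, 0, 0, 0, 1, 0, 0, 0, 0, 0, 0, 0, 0, 0, 0, 0, 1, 0, 0, 0, 0, 0, 0, 0, 0, 0, 1, 0, 0, 0, 0, 0, 0, 0, 0],
    [1, 0, 0, 0, 0, 1, 0, 0, 0, 0, 1, 0, 0, 0, 0, 0, 0, 0, 0, 0, 0, 0, 0, 0, 0, 0, 0, 1, 0, 0, 0, 0, 0, 0, 0],
    [1, 0, 0, 0, 0, 0, 0, 0, 0, 0, 0, 0, 0, 0, 0, 0, 0, 0, 0, 0, 0, 0, 1, 0, 0, 0, 1, 0, 0, 0, 0, 1, 0, 0, 0],
    [1, 0, 0, 0, 0, 0, 0, 0, 0, 0, 1, 0, 0, 0, 0, 0, 0, 0, 0, 0, 0, 0, 0, 0, 0, 2, 0, 0, 0, 0, 0, 0, 0, 0, 0],
    [0, 0, 1, 0, 0, 0, 0, 0, 0, 0, 0, 0, 0, 0, 0, 0, 0, 1, 0, 0, 0, 0, 0, 1, 0, 0, 1, 0, 0, 0, 0, 0, 0, 0, 0],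
    [0, 0, 0, 0, 0, 0, 0, 0, 0, 0, 0, 0, 1, 0, 0, 0, 0, 0, 1, 0, 0, 0, 0, 0, 0, 0, 2, 0, 0, 0, 0, 0, 0, 0, 0],
    [0, 0, 0, 0, 0, 0, 0, 0, 0, 0, 0, 0, 0, 1, 0, 0, 1, 0, 0, 0, 0, 0, 0, 2, 0, 0, 0, 0, 0, 0, 0, 0, 0, 0, 0],
    [0, 0, 0, 0, 0, 0, 0, 0, 0, 0, 0, 1, 0, 0, 0, 0, 0, 0, 0, 0, 0, 0, 0, 0, 0, 2, 0, 0, 0, 0, 0, 0, 1, 0, 0],
    [0, 0, 0, 0, 0, 0, 0, 0, 0, 0, 1, 1, 0, 0, 0, 0, 0, 0, 0, 0, 0, 1, 0, 0, 0, 1, 0, 0, 0, 0, 0, 0, 0, 0, 0],
    [0, 0, 0, 0, 0, 0, 0, 0, 0, 0, 0, 1, 0, 0, 0, 0, 0, 0, 0, 0, 0, 2, 0, 0, 0, 0, 0, 0, 0, 0, 0, 1, 1, 0, 0],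
    [0, 0, 0, 0, 0, 0, 0, 0, 1, 0, 0, 1, 0, 0, 0, 0, 0, 0, 0, 0, 0, 1, 0, 0, 0, 1, 0, 0, 0, 0, 0, 1, 1, 0, 0],
    [0, 0, 0, 0, 0, 0, 0, 0, 1, 0, 0, 0, 0, 1, 0, 0, 0, 0, 0, 0, 0, 1, 0, 1, 0, 0, 0, 0, 0, 0, 0, 0, 2, 0, 0],
    [0, 0, 0, 0, 0, 0, 0, 0, 1, 0, 0, 0, 0, 1, 0, 0, 0, 0, 0, 1, 0, 0, 0, 0, 0, 1, 0, 0, 0, 0, 0, 0, 2, 0, 0]]

def EB31_base0 : List Row :=
   [(false, [1, 1, 1, 0, 0, 0, 0, 0, 0, 0, 0, 0, 0, 0, 0, 0, 0, 0, 0, 0, 0, 0, 0, 0, 0, 0, 0, 0, 0, 0, 0, 0, 0, -1, 0], 0),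
    (false, [0, 0, 0, 1, 1, 1, 0, 0, 0, 0, 0, 0, 0, 0, 0, 0, 0, 0, 0, 0, 0, 0, 0, 0, 0, 0, 0, 0, 0, 0, 0, 0, 0, -1, 0], 0),
    (false, [0, 0, 0, 0, 0, 0, 1, 1, 1, 1, 1, 0, 0, 0, 0, 0, 0, 0, 0, 0, 0, 0, 0, 0, 0, 0, 0, 0, 0, 0, 0, 0, 0, -1, 0], 1),
    (false, [0, 0, 0, 0, 0, 0, 0, 0, 0, 0, 0, 1, 1, 1, 0, 0, 0, 0, 0, 0, 0, 0, 0, 0, 0, 0, 0, 0, 0, 0, 0, 0, 0, 0, -1], 1),
    (false, [0, 0, 0, 0, 0, 0, 0, 0, 0, 0, 0, 0, 0, 0, 1, 1, 1, 1, 1, 0, 0, 0, 0, 0, 0, 0, 0, 0, 0, 0, 0, 0, 0, 0, -3], 0),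
    (false, [0, 0, 0, 0, 0, 0, 0, 0, 0, 0, 0, 0, 0, 0, 0, 0, 0, 0, 0, 1, 1, 1, 1, 0, 0, 0, 0, 0, 0, 0, 0, 0, 0, 0, 0], 2),
    (false, [0, 0, 0, 0, 0, 0, 0, 0, 0, 0, 0, 0, 0, 0, 0, 0, 0, 0, 0, 0, 0, 0, 0, 1, 1, 1, 1, 0, 0, 0, 0, 0, 0, 0, 0], 2),
    (false, [0, 1, 4, 0, 1, 4, 4, 1, 0, 1, 4, 0, 1, 4, 4, 1, 0, 1, 4, 1, 0, 1, 4, 1, 0, 1, 4, 0, 1, 4, 0, 0, 0, -8, -4], 8),
    (false, [4, 1, 0, 4, 1, 0, 4, 1, 0, 1, 4, 4, 1, 0, 4, 1, 0, 1, 4, 4, 1, 0, 1, 4, 1, 0, 1, 0, 1, 4, 0, 0, 0, -8, -4], 8),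
    (false, [-1, -1, -1, -1, -1, -1, 1, 1, 1, 1, 1, -1, -1, -1, 1, 1, 1, 1, 1, 0, 0, 0, 0, 0, 0, 0, 0, 1, 1, 1, -1, 0, 0, 0, 0], 0),
    (false, [1, 1, 1, -1, -1, -1, -1, -1, -1, -1, -1, 0, 0, 0, 0, 0, 0, 0, 0, 1, 1, 1, 1, 0, 0, 0, 0, 1, 1, 1, 0, -1, 0, 0, 0], 0),
    (false, [-1, 0, 1, -1, 0, 1, -1, 0, 1, 0, -1, -1, 0, 1, -1, 0, 1, 0, -1, -1, 0, 1, 0, -1, 0, 1, 0, 1, 0, -1, 0, 0, -1, 0, 0], 0),
    (true, [-1, -1, -1, 1, 1, 1, -1, -1, -1, -1, -1, 0, 0, 0, 0, 0, 0, 0, 0, 0, 0, 0, 0, 1, 1, 1, 1, 1, 1, 1, 0, 0, 0, 0, 0], 0),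
    (true, [1, 0, -1, 1, 0, -1, -1, 0, 1, 0, -1, 1, 0, -1, -1, 0, 1, 0, -1, 0, 1, 0, -1, 0, 1, 0, -1, 1, 0, -1, 0, 0, 0, 0, 0], 0),
    (true, [4, 1, 0, 0, 1, 4, 16, 9, 4, 1, 0, 1, 0, 1, 9, 4, 1, 0, 1, 4, 1, 0, 1, 1, 0, 1, 4, 0, 1, 4, 0, 0, 0, 0, 0], 1),
    (true, [0, 0, 0, 0, 0, 0, 0, 0, 0, 0, 0, 0, 0, 0, 0, 0, 0, 0, 0, 0, 0, 0, 0, 0, 0, 0, 0, 0, 0, 0, 0, 0, 0, 1, 0], 0),
    (true, [0, 0, 0, 0, 0, 0, 0, 0, 0, 0, 0, 0, 0, 0, 0, 0, 0, 0, 0, 0, 0, 0, 0, 0, 0, 0, 0, 0, 0, 0, 0, 0, 0, 0, 1], 0)]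

def EB31_0_0_0_tree : Tree :=
  (.br 3 0
  (.br 16 0
   (.br 23 0
    (.br 24 0
     (.br 31 0
      (.br 8 0
       (.br 20 0
        (.br 17 0
         (.br 18 0
          (.br 11 0
           (.fk [(0, 2), (1, -6), (2, -4), (3, -1), (4, -1), (5, 3), (6, -2), (7, 1), (10, -4), (12, 1), (13, 3)])
           (.br 25 0
            (.br 5 0
             (.br 26 0
              (.fk [(0, 2), (1, -2), (5, 1), (6, 1), (10, -1), (12, 1)])
              (.br 26 1
               (.fk [(0, 2), (1, -2), (5, 1), (6, 1), (10, -1), (12, 1)])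
               (.mv 32)))
             (.br 26 0
              (.fk [(0, 2), (1, -2), (5, 1), (6, 1), (10, -1), (12, 1)])
              (.mv 4)))
            (.br 22 0
             (.br 5 0
              (.br 4 0
               (.fk [(0, 1), (2, -1), (5, 1), (10, -1)])
               (.mv 24))
              (.br 2 0
               (.br 26 0
                (.br 7 0
                 (.br 15 0
                  (.br 9 0
                   (.fk [(0, 8), (1, -20), (2, -12), (3, -9), (4, -1), (5, 6), (6, -5), (7, 5), (8, -2), (10, -11), (13, 11)])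
                   (.br 0 0
                    (.fk [(0, 7), (1, -18), (2, -13), (3, -6), (4, -2), (5, 6), (6, -4), (7, 4), (8, -1), (10, -10), (13, 10)])
                    (.mv 63)))
                  (.br 21 0
                   (.br 19 0
                    (.fk [(5, 1)])
                    (.mv 6))
                   (.mv 54)))
                 (.mv 34))
                (.mv 4))
               (.br 10 0
                (.br 26 0
                 (.br 15 0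
                  (.br 9 0
                   (.br 7 0
                    (.fk [(0, 4), (1, -28), (2, -24), (3, -18), (4, -2), (5, 12), (6, -7), (7, 7), (8, -1), (10, -22), (13, 22)])
                    (.mv 34))
                   (.br 0 0
                    (.fk [(0, 13), (1, -23), (2, -22), (3, -22), (4, 2), (5, 11), (6, -3), (7, 3), (8, 1), (10, -18), (13, 18)])
                    (.mv 63)))
                  (.br 21 0
                   (.br 19 0
                    (.fk [(5, 1)])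
                    (.mv 6))
                   (.mv 54)))
                 (.mv 4))
                (.mv 11))))
             (.mv 26))))
          (.br 22 0
           (.br 13 0
            (.br 9 0
             (.br 5 0
              (.fk [(1, -4), (2, -4), (3, -1), (4, -1), (5, 1), (6, -2), (7, 1), (10, -3), (11, 1), (13, 2)])
              (.br 26 0
               (.br 15 0
                (.br 27 0
                 (.fk [(0, 19), (1, -37), (2, -6), (3, -6), (4, -2), (5, 10), (6, -15), (7, 4), (8, -1), (10, -14), (12, 11), (13, 10)])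
                 (.br 11 0
                  (.fk [(0, 2), (1, -6), (2, -4), (3, -1), (4, -1), (5, 3), (6, -2), (7, 1), (10, -4), (12, 1), (13, 3)])
                  (.mv 82)))
                (.br 21 0
                 (.br 19 0
                  (.fk [(5, 1)])
                  (.mv 6))
                 (.mv 87)))
               (.mv 4)))
             (.br 0 0
              (.br 11 0
               (.fk [(0, 2), (1, -5), (2, -5), (3, -1), (4, -1), (5, 3), (6, -1), (7, 1), (10, -4), (13, 3)])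
               (.br 21 0
                (.br 15 0
                 (.fk [(0, 18), (1, -48), (2, -42), (3, -21), (4, -5), (5, 33), (6, -12), (7, 12), (8, -3), (10, -33), (13, 33)])
                 (.br 19 0
                  (.fk [(5, 1)])
                  (.mv 6)))
                (.mv 66)))
              (.br 25 0
               (.br 5 0
                (.fk [(1, -4), (2, -4), (3, -1), (4, -1), (5, 1), (6, -2), (7, 1), (10, -3), (11, 1), (13, 2)])
                (.br 26 0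
                 (.fk [(0, 2), (1, -2), (5, 1), (6, 1), (10, -1), (12, 1)])
                 (.mv 4)))
               (.mv 63))))
            (.mv 13))
           (.mv 8)))
         (.br 21 0
          (.br 11 0
           (.fk [(0, 2), (1, -6), (2, -4), (3, -1), (4, -1), (5, 3), (6, -2), (7, 1), (10, -4), (12, 1), (13, 3)])
           (.br 22 0
            (.br 5 0
             (.br 26 0
              (.br 25 0
               (.fk [(0, 2), (1, -2), (5, 1), (6, 1), (10, -1), (12, 1)])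
               (.mv 46))
              (.br 26 1
               (.br 0 0
                (.br 25 0
                 (.fk [(0, 2), (1, -2), (5, 1), (6, 1), (10, -1), (12, 1)])
                 (.mv 46))
                (.mv 29))
               (.mv 32)))
             (.br 19 0
              (.fk [(5, 1)])
              (.mv 41)))
            (.mv 37)))
          (.mv 22)))
        (.br 11 0
         (.fk [(1, -4), (2, -4), (3, -1), (4, -1), (5, 1), (6, -2), (8, 1), (10, -3), (11, 2), (13, 1)])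
         (.mv 10)))
       (.br 11 0
        (.br 0 0
         (.br 25 0
          (.fk [(0, 2), (1, -4), (2, -6), (3, -1), (4, -1), (5, 1), (8, 1), (10, -3), (11, 2), (13, 1)])
          (.br 4 0
           (.fk [(0, 6), (1, -4), (2, -10), (3, -1), (4, -1), (5, 3), (8, 1), (10, -7), (13, 3)])
           (.mv 24)))
         (.mv 15))
        (.br 0 0
         (.br 20 0
          (.br 22 0
           (.br 4 0
            (.br 25 0
             (.br 26 0
              (.fk [(0, 2), (1, -2), (5, 1), (6, 1), (10, -1), (12, 1)])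
              (.br 5 0
               (.fk [(0, 14), (1, 41), (2, -23), (3, 4), (4, 4), (5, 13), (6, 13), (7, -3), (8, -1), (10, -10)])
               (.mv 4)))
             (.br 1 0
              (.br 17 0
               (.br 19 0
                (.br 15 0
                 (.fk [(0, 28), (1, -4), (2, -16), (3, -8), (4, 4), (5, 19), (6, 3), (7, -3), (8, 2), (10, -16)])
                 (.br 21 0
                  (.fk [(5, 1)])
                  (.mv 54)))
                (.mv 71))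
               (.mv 46))
              (.mv 90)))
            (.br 25 0
             (.br 18 0
              (.br 2 0
               (.br 17 0
                (.br 26 0
                 (.fk [(0, 4), (1, -4), (5, 1), (6, 1), (10, -2), (12, 2)])
                 (.br 26 1
                  (.fk [(0, 2), (1, -2), (5, 1), (6, 1), (10, -1), (12, 1)])
                  (.mv 32)))
                (.br 21 0
                 (.br 19 0
                  (.fk [(5, 1)])
                  (.mv 70))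
                 (.mv 22)))
               (.br 10 0
                (.br 26 0
                 (.fk [(0, 4), (1, -4), (5, 1), (6, 1), (10, -2), (12, 2)])
                 (.mv 93))
                (.mv 11)))
              (.br 21 0
               (.br 2 0
                (.br 13 0
                 (.br 5 0
                  (.fk [(0, 6), (1, -12), (2, -18), (3, -3), (4, -3), (5, 9), (6, -6), (7, 1), (8, 2), (10, -9), (11, 9)])
                  (.br 26 0
                   (.fk [(0, 2), (1, -2), (5, 1), (6, 1), (10, -1), (12, 1)])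
                   (.mv 4)))
                 (.mv 13))
                (.mv 92))
               (.mv 31)))
             (.mv 24)))
           (.br 18 0
            (.br 25 0
             (.br 17 0
              (.br 26 0
               (.fk [(0, 2), (1, -2), (5, 1), (6, 1), (10, -1), (12, 1)])
               (.mv 79))
              (.mv 37))
             (.mv 26))
            (.mv 8)))
          (.mv 10))
         (.mv 15))))
      (.br 10 0
       (.br 20 0
        (.br 25 0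
         (.br 26 0
          (.fk [(6, 1)])
          (.br 26 1
           (.fk [(6, 1)])
           (.br 11 0
            (.br 0 0
             (.br 8 0
              (.br 9 0
               (.br 17 0
                (.br 27 0
                 (.fk [(5, -1), (6, 3), (7, -1), (8, 1), (11, 2), (13, 3)])
                 (.br 4 0
                  (.fk [(0, 4), (1, 24), (2, 4), (3, 4), (4, 4), (5, -2), (6, 11), (7, -6), (8, 2)])
                  (.mv 64)))
                (.br 12 0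
                 (.fk [(3, 24), (4, -8), (5, -18), (6, 9), (7, -6), (8, 6)])
                 (.mv 19)))
               (.br 1 0
                (.fk [(0, 24), (1, 4), (2, 4), (3, 4), (4, 4), (5, -2), (6, 11), (7, -6), (8, 2)])
                (.mv 7)))
              (.br 12 0
               (.fk [(3, 24), (4, -8), (5, -18), (6, 9), (7, -6), (8, 6)])
               (.mv 52)))
             (.br 8 0
              (.br 12 0
               (.br 18 0
                (.br 27 0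
                 (.br 28 0
                  (.fk [(0, -10), (1, 1), (2, 1), (3, 2), (4, -2), (5, -5), (6, 2), (7, -1), (8, 2), (10, 2), (11, 4), (13, 2)])
                  (.br 4 0
                   (.fk [(0, -15), (1, 15), (3, 15), (4, -5), (5, -3), (6, 9), (7, -3), (8, 3), (11, 6), (13, 9)])
                   (.mv 20)))
                 (.br 4 0
                  (.fk [(0, -24), (1, 24), (3, 24), (4, -8), (5, -18), (6, 9), (7, -6), (8, 6)])
                  (.mv 64)))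
                (.br 13 0
                 (.fk [(3, 3), (4, -1), (6, -3)])
                 (.mv 13)))
               (.br 21 0
                (.br 18 0
                 (.br 17 0
                  (.br 22 0
                   (.br 5 0
                    (.br 9 0
                     (.br 27 0
                      (.fk [(5, 1), (6, 1), (7, -1), (8, 1), (11, 5), (13, 1)])
                      (.br 4 0
                       (.fk [(0, -7), (1, 70), (2, 9), (3, 9), (4, 9), (5, 15), (6, 15), (7, -7), (8, -2)])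
                       (.mv 64)))
                     (.br 19 0
                      (.fk [(5, 1), (6, -1)])
                      (.mv 62)))
                    (.mv 4))
                   (.mv 50))
                  (.mv 19))
                 (.mv 103))
                (.mv 23)))
              (.mv 15)))
            (.mv 32))))
         (.br 22 0
          (.br 28 0
           (.br 4 0
            (.br 21 0
             (.br 11 0
              (.br 12 0
               (.br 19 0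
                (.fk [(0, -12), (1, 12), (3, 3), (4, -1), (5, 3), (6, 3), (7, -3), (8, 3)])
                (.br 9 0
                 (.br 15 0
                  (.br 7 0
                   (.br 17 0
                    (.br 13 0
                     (.fk [(3, 3), (4, -1)])
                     (.br 18 0
                      (.br 32 0
                       (.fk [(0, 96), (1, 210), (2, 54), (3, 237), (4, -19), (5, 54), (6, 54), (7, 6), (8, -51), (9, 63), (11, -144), (12, 27), (13, 54)])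
                       (.br 32 1
                        (.fk [(0, 78), (1, 228), (2, 54), (3, 201), (4, -7), (5, 54), (6, 54), (7, 15), (8, -60), (9, 63), (10, 27), (11, -144), (13, 54)])
                        (.br 8 0
                         (.fk [(0, -12), (1, 16), (2, 4), (3, 16), (4, -4), (5, -8), (6, 4), (7, -4), (8, 3)])
                         (.mv 110))))
                      (.mv 13)))
                    (.mv 48))
                   (.mv 27))
                  (.mv 6))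
                 (.br 13 0
                  (.fk [(3, 3), (4, -1)])
                  (.mv 57))))
               (.br 17 0
                (.br 9 0
                 (.br 18 0
                  (.br 26 0
                   (.br 19 0
                    (.fk [(0, -4), (1, 4), (5, 1), (6, 1), (7, -1), (8, 1)])
                    (.br 8 0
                     (.br 7 0
                      (.fk [(0, 4), (1, 12), (2, 16), (3, 4), (4, 4), (5, 7), (6, 3), (7, -3), (8, -1)])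
                      (.mv 27))
                     (.mv 56)))
                   (.mv 40))
                  (.mv 25))
                 (.mv 61))
                (.mv 19)))
              (.br 17 0
               (.br 9 0
                (.br 8 0
                 (.br 7 0
                  (.fk [(0, 4), (1, 12), (2, 16), (3, 4), (4, 4), (5, 7), (6, 3), (7, -3), (8, -1)])
                  (.mv 34))
                 (.br 19 0
                  (.fk [(5, 1)])
                  (.mv 71)))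
                (.br 25 1
                 (.br 27 0
                  (.fk [(0, -4), (1, 4), (5, -1), (6, 1), (7, 1), (8, -1), (10, 4), (13, 4)])
                  (.mv 76))
                 (.mv 75)))
               (.mv 46)))
             (.br 17 0
              (.br 12 0
               (.br 32 0
                (.fk [(5, 1), (6, -1), (7, 1), (8, -1), (11, -2), (13, 2)])
                (.br 21 1
                 (.br 9 0
                  (.br 25 1
                   (.br 8 0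
                    (.br 7 0
                     (.fk [(0, 4), (1, 12), (2, 16), (3, 4), (4, 4), (5, 7), (6, 13), (7, -3), (8, -1)])
                     (.br 19 0
                      (.fk [(5, 1)])
                      (.mv 27)))
                    (.br 11 0
                     (.fk [(0, -4), (1, 4), (3, 3), (4, -1), (5, -3), (6, 3), (7, -1), (8, 1)])
                     (.mv 108)))
                   (.br 11 0
                    (.fk [(0, -12), (1, 12), (3, 12), (4, -4), (5, -9), (6, -9), (7, -3), (8, 3)])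
                    (.mv 105)))
                  (.br 11 0
                   (.fk [(0, -12), (1, 12), (3, 12), (4, -4), (5, -9), (6, 3), (7, -3), (8, 3)])
                   (.mv 66)))
                 (.br 11 0
                  (.fk [(0, -12), (1, 12), (3, 12), (4, -4), (5, -9), (6, 3), (7, -3), (8, 3)])
                  (.mv 107))))
               (.mv 23))
              (.mv 22)))
            (.mv 24))
           (.mv 17))
          (.br 11 0
           (.br 18 0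
            (.br 4 0
             (.fk [(0, -4), (1, 4), (5, -3), (6, 1), (7, -1), (8, 1)])
             (.mv 24))
            (.mv 8))
           (.mv 26))))
        (.mv 16))
       (.br 25 0
        (.br 2 0
         (.br 20 0
          (.br 26 0
           (.fk [(6, 1)])
           (.br 26 1
            (.fk [(6, 1)])
            (.br 11 0
             (.br 13 0
              (.br 21 0
               (.br 0 0
                (.br 27 0
                 (.br 17 0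
                  (.br 28 0
                   (.fk [(0, -21), (1, 15), (2, -18), (3, -3), (4, -3), (5, -33), (6, 18), (7, -7), (8, 10), (10, 18), (11, 18), (13, 18)])
                   (.br 4 0
                    (.fk [(1, 5), (2, -5), (5, -1), (6, 3), (7, -1), (8, 1), (11, 2), (13, 3)])
                    (.mv 20)))
                  (.br 12 0
                   (.fk [(3, 3), (4, -1), (5, -6), (6, 3), (7, -2), (8, 2)])
                   (.mv 19)))
                 (.br 4 0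
                  (.fk [(0, 8), (1, 56), (3, 8), (4, 8), (5, -10), (6, 25), (7, -14), (8, 6)])
                  (.mv 64)))
                (.br 8 0
                 (.br 22 0
                  (.br 5 0
                   (.fk [(5, 3), (6, -6), (7, 1), (8, -1)])
                   (.mv 4))
                  (.mv 100))
                 (.mv 15)))
               (.br 12 0
                (.fk [(3, 3), (4, -1), (6, -3)])
                (.mv 23)))
              (.mv 45))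
             (.mv 32))))
          (.mv 16))
         (.mv 11))
        (.br 20 0
         (.br 1 0
          (.br 21 0
           (.br 2 0
            (.br 4 0
             (.br 22 0
              (.br 17 0
               (.br 0 0
                (.fk [(0, 41), (1, -9), (3, 4), (4, 4), (5, 13), (6, 1), (7, -1), (8, -3)])
                (.br 9 0
                 (.br 8 0
                  (.br 25 1
                   (.br 5 0
                    (.fk [(0, -3), (1, 17), (2, 2), (3, 2), (4, 2), (5, 5), (6, 5), (7, -1), (8, -1)])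
                    (.br 26 0
                     (.fk [(6, 1)])
                     (.mv 4)))
                   (.mv 101))
                  (.mv 15))
                 (.mv 63)))
               (.br 12 0
                (.br 19 0
                 (.fk [(5, 1)])
                 (.mv 48))
                (.mv 19)))
              (.br 11 0
               (.fk [(0, -4), (1, 4), (5, -3), (6, 1), (7, -1), (8, 1)])
               (.mv 26)))
             (.mv 24))
            (.mv 11))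
           (.br 11 0
            (.br 4 0
             (.br 12 0
              (.fk [(0, -12), (1, 12), (3, 12), (4, -4), (5, -9), (6, 3), (7, -3), (8, 3)])
              (.mv 23))
             (.mv 24))
            (.mv 106)))
          (.mv 42))
         (.mv 16)))))
     (.mv 1))
    (.br 24 0
     (.br 4 0
      (.br 25 0
       (.br 20 0
        (.br 28 0
         (.br 21 0
          (.br 10 0
           (.br 8 0
            (.br 22 0
             (.br 9 0
              (.br 17 0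
               (.br 7 0
                (.fk [(0, 4), (1, 12), (2, 16), (3, 4), (4, 4), (5, 7), (6, 7), (7, -3), (8, -1)])
                (.br 23 1
                 (.br 12 0
                  (.br 5 0
                   (.fk [(0, 6), (1, 51), (2, -9), (3, 12), (4, 4), (5, 15), (6, 15), (7, -3), (8, -3)])
                   (.br 26 0
                    (.fk [(6, 1)])
                    (.mv 4)))
                  (.mv 36))
                 (.br 13 0
                  (.br 12 0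
                   (.br 27 0
                    (.fk [(0, -18), (1, 4), (2, 6), (3, 2), (4, -2), (5, 6), (6, 6), (7, 6), (8, -5), (9, 1), (10, 14), (11, 6), (13, 25)])
                    (.br 11 0
                     (.fk [(3, 3), (4, -1), (6, -3)])
                     (.mv 74)))
                   (.mv 36))
                  (.mv 68))))
               (.br 12 0
                (.br 13 0
                 (.br 5 0
                  (.fk [(0, 9), (1, 54), (2, 9), (3, 24), (4, 4), (5, 9), (6, 18), (7, -3), (8, -6)])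
                  (.br 26 0
                   (.br 19 0
                    (.fk [(5, 1)])
                    (.mv 41))
                   (.mv 4)))
                 (.mv 65))
                (.mv 19)))
              (.br 2 0
               (.br 1 0
                (.br 13 0
                 (.fk [(0, 4), (1, -4), (5, 3), (6, -3), (7, 1), (8, -1)])
                 (.mv 67))
                (.mv 7))
               (.mv 30)))
             (.br 31 0
              (.br 18 0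
               (.br 13 0
                (.br 5 0
                 (.fk [(0, 2), (1, -4), (2, -6), (3, -1), (4, -1), (5, 2), (6, -1), (7, 1), (10, -5), (11, 2), (13, 3)])
                 (.br 26 0
                  (.br 14 0
                   (.br 17 0
                    (.br 9 0
                     (.br 11 0
                      (.fk [(0, 6), (1, -30), (2, -24), (3, -6), (4, -6), (5, 5), (6, -4), (7, 5), (8, 1), (10, -18), (11, 5), (13, 13)])
                      (.br 7 0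
                       (.fk [(0, 28), (1, -24), (2, 4), (3, 1), (4, 1), (5, 4), (6, 4), (7, 4), (8, -5), (10, -27), (11, 4), (13, 23)])
                       (.mv 73)))
                     (.br 2 0
                      (.fk [(0, 2), (1, -6), (2, -4), (3, -1), (4, -1), (5, 1), (7, 1), (10, -3), (11, 1), (13, 2)])
                      (.mv 30)))
                    (.mv 85))
                   (.mv 39))
                  (.mv 4)))
                (.mv 9))
               (.mv 8))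
              (.mv 60)))
            (.br 1 0
             (.br 0 0
              (.br 11 0
               (.br 2 0
                (.fk [(0, 24), (1, -3), (2, -5), (3, 2), (4, 2), (5, 5), (6, 5), (7, -1), (8, -1)])
                (.br 9 0
                 (.br 23 1
                  (.fk [(0, -4), (1, 4), (5, -3), (6, 3), (7, -1), (8, 1)])
                  (.mv 94))
                 (.mv 30)))
               (.br 22 0
                (.br 2 0
                 (.fk [(0, 40), (1, -2), (2, -6), (3, 4), (4, 4), (5, 6), (6, 7), (7, -1), (8, -3)])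
                 (.br 9 0
                  (.br 18 0
                   (.br 23 1
                    (.br 26 0
                     (.fk [(6, 1)])
                     (.mv 93))
                    (.mv 94))
                   (.mv 92))
                  (.mv 30)))
                (.mv 78)))
              (.mv 15))
             (.mv 47)))
           (.br 8 0
            (.br 2 0
             (.br 1 0
              (.br 22 0
               (.br 17 0
                (.br 5 0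
                 (.fk [(0, -6), (1, 27), (2, 3), (3, 3), (4, 3), (5, 9), (6, 6), (7, -1), (8, -2)])
                 (.br 26 0
                  (.br 18 0
                   (.br 15 0
                    (.br 9 0
                     (.br 7 0
                      (.fk [(0, 24), (1, 8), (2, 32), (3, 8), (4, 8), (5, 13), (6, 13), (7, -2), (8, -6)])
                      (.br 19 0
                       (.fk [(5, 1)])
                       (.mv 83)))
                     (.br 13 0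
                      (.fk [(0, 8), (1, -8), (5, 1), (6, 1), (7, 2), (8, -2)])
                      (.mv 67)))
                    (.br 19 0
                     (.fk [(5, 1)])
                     (.mv 6)))
                   (.br 13 0
                    (.fk [(0, 8), (1, -8), (5, 1), (6, 1), (7, 2), (8, -2)])
                    (.mv 13)))
                  (.mv 4)))
                (.br 13 0
                 (.fk [(0, 4), (1, -4), (5, 3), (6, -3), (7, 1), (8, -1)])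
                 (.mv 65)))
               (.br 31 0
                (.br 13 0
                 (.fk [(0, 10), (1, -26), (2, -16), (3, -4), (4, -4), (5, 6), (6, -8), (7, 3), (8, 1), (10, -13), (11, 6), (12, 1), (13, 6)])
                 (.mv 9))
                (.mv 60)))
              (.br 9 0
               (.br 17 0
                (.br 27 0
                 (.fk [(1, 4), (2, 12), (3, 2), (4, 2), (5, 2), (6, 2), (7, -1), (8, -1), (10, 5), (11, 2), (12, 5), (13, 2)])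
                 (.br 7 0
                  (.fk [(0, 4), (1, 12), (2, 16), (3, 4), (4, 4), (5, 7), (6, 7), (7, -3), (8, -1)])
                  (.br 11 0
                   (.br 12 0
                    (.br 23 1
                     (.fk [(0, -12), (1, 12), (3, 12), (4, -4), (5, -9), (6, 9), (7, -3), (8, 3)])
                     (.br 13 0
                      (.fk [(3, 3), (4, -1), (6, -3)])
                      (.mv 68)))
                    (.mv 36))
                   (.mv 74))))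
                (.br 7 0
                 (.fk [(0, 4), (1, 12), (2, 16), (3, 4), (4, 4), (5, 7), (6, 7), (7, -3), (8, -1)])
                 (.mv 89)))
               (.mv 7)))
             (.mv 11))
            (.br 1 0
             (.br 2 0
              (.br 0 0
               (.fk [(0, 24), (1, -3), (2, -5), (3, 2), (4, 2), (5, 5), (6, 5), (7, -1), (8, -1)])
               (.mv 15))
              (.mv 11))
             (.mv 47))))
          (.br 22 0
           (.br 11 0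
            (.br 17 0
             (.br 12 0
              (.br 9 0
               (.br 15 0
                (.br 8 0
                 (.br 7 0
                  (.fk [(0, -12), (1, 72), (2, 60), (3, 72), (4, -4), (5, 3), (6, 3), (7, -18), (8, 3)])
                  (.br 23 1
                   (.fk [(0, -12), (1, 12), (3, 12), (4, -4), (5, -9), (6, 9), (7, -3), (8, 3)])
                   (.mv 69)))
                 (.br 0 0
                  (.br 1 0
                   (.br 32 0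
                    (.fk [(0, 24), (1, 36), (2, 12), (3, 30), (4, 2), (5, 10), (6, 10), (7, 3), (8, -12), (9, 3), (10, 6), (11, -29), (13, 10)])
                    (.br 32 1
                     (.fk [(0, 10), (1, 15), (2, -1), (3, 15), (4, -1), (5, 4), (6, 4), (7, 1), (8, -4), (9, 4), (11, -11), (13, 4)])
                     (.br 13 0
                      (.fk [(3, 3), (4, -1)])
                      (.mv 109))))
                   (.mv 47))
                  (.mv 15)))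
                (.mv 43))
               (.mv 35))
              (.mv 23))
             (.mv 22))
            (.br 17 0
             (.br 8 0
              (.br 9 0
               (.br 23 1
                (.br 7 0
                 (.fk [(0, 8), (1, 24), (2, 32), (3, 8), (4, 8), (5, 6), (6, 7), (7, -6), (8, -2)])
                 (.br 26 0
                  (.fk [(6, 1)])
                  (.mv 72)))
                (.br 7 0
                 (.fk [(0, 8), (1, 24), (2, 32), (3, 8), (4, 8), (5, 6), (6, 7), (7, -6), (8, -2)])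
                 (.mv 69)))
               (.mv 35))
              (.mv 77))
             (.mv 22)))
           (.br 31 0
            (.br 17 0
             (.br 18 0
              (.br 15 0
               (.br 5 0
                (.fk [(0, 42), (1, 30), (2, -96), (3, -6), (4, -2), (5, 9), (6, 9), (7, 9), (8, -6), (10, -48), (11, 9), (13, 39)])
                (.br 14 0
                 (.fk [(0, 12), (2, -12), (3, 6), (4, -2), (5, 3), (9, 6), (10, -6)])
                 (.mv 39)))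
               (.mv 43))
              (.mv 8))
             (.mv 22))
            (.mv 60))))
         (.mv 12))
        (.br 31 0
         (.br 13 0
          (.br 11 0
           (.br 12 0
            (.fk [(1, -8), (2, -8), (3, 4), (4, -4), (5, 1), (6, -3), (7, 1), (8, 1), (10, -4), (11, 2), (13, 2)])
            (.br 18 0
             (.br 17 0
              (.br 8 0
               (.fk [(0, 4), (1, -12), (2, -8), (3, -2), (4, -2), (5, 3), (6, -3), (7, 1), (8, 1), (10, -7), (11, 3), (12, 1), (13, 3)])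
               (.mv 80))
              (.mv 19))
             (.mv 28)))
           (.mv 10))
          (.mv 53))
         (.mv 16)))
       (.mv 14))
      (.mv 3))
     (.mv 1)))
   (.br 23 0
    (.br 24 0
     (.br 11 0
      (.br 0 0
       (.br 20 0
        (.br 19 0
         (.fk [(5, 1), (6, 1), (7, -1), (8, 1)])
         (.br 4 0
          (.br 12 0
           (.fk [(0, -12), (1, 12), (3, 12), (4, -4), (5, -9), (6, 3), (7, -3), (8, 3)])
           (.mv 58))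
          (.mv 44)))
        (.mv 2))
       (.br 8 0
        (.br 20 0
         (.br 25 0
          (.br 4 0
           (.br 26 0
            (.fk [(6, 1)])
            (.br 5 0
             (.fk [(0, -7), (1, 7), (5, -3), (6, 3), (7, -1), (8, 1)])
             (.mv 4)))
           (.br 26 0
            (.fk [(6, 1)])
            (.mv 98)))
          (.br 4 0
           (.br 12 0
            (.fk [(0, -12), (1, 12), (3, 12), (4, -4), (5, -9), (6, 3), (7, -3), (8, 3)])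
            (.br 19 0
             (.fk [(0, -4), (1, 4), (5, 1), (6, 1), (7, -1), (8, 1)])
             (.mv 58)))
           (.mv 24)))
         (.mv 2))
        (.mv 15)))
      (.mv 18))
     (.mv 1))
    (.br 24 0
     (.br 4 0
      (.br 20 0
       (.br 25 0
        (.br 11 0
         (.br 22 0
          (.br 23 1
           (.br 12 0
            (.br 5 0
             (.fk [(1, 8), (3, 4), (5, 1), (6, 4), (7, -1)])
             (.br 26 0
              (.fk [(6, 1)])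
              (.mv 4)))
            (.mv 59))
           (.br 13 0
            (.br 12 0
             (.fk [(3, 3), (4, -1), (6, -3)])
             (.mv 59))
            (.mv 104)))
          (.mv 51))
         (.mv 18))
        (.mv 14))
       (.mv 2))
      (.mv 3))
     (.mv 1))))
  (.mv 0))

def EB31_0_0_0 : Inst where
  rows :=
   [(false, [1, 1, 1, 0, 0, 0, 0, 0, 0, 0, 0, 0, 0, 0, 0, 0, 0, 0, 0, 0, 0, 0, 0, 0, 0, 0, 0, 0, 0, 0, 0, 0, 0, -1, 0], 0),
    (false, [0, 0, 0, 1, 1, 1, 0, 0, 0, 0, 0, 0, 0, 0, 0, 0, 0, 0, 0, 0, 0, 0, 0, 0, 0, 0, 0, 0, 0, 0, 0, 0, 0, -1, 0], 0),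
    (false, [0, 0, 0, 0, 0, 0, 1, 1, 1, 1, 1, 0, 0, 0, 0, 0, 0, 0, 0, 0, 0, 0, 0, 0, 0, 0, 0, 0, 0, 0, 0, 0, 0, -1, 0], 1),
    (false, [0, 0, 0, 0, 0, 0, 0, 0, 0, 0, 0, 1, 1, 1, 0, 0, 0, 0, 0, 0, 0, 0, 0, 0, 0, 0, 0, 0, 0, 0, 0, 0, 0, 0, -1], 1),
    (false, [0, 0, 0, 0, 0, 0, 0, 0, 0, 0, 0, 0, 0, 0, 1, 1, 1, 1, 1, 0, 0, 0, 0, 0, 0, 0, 0, 0, 0, 0, 0, 0, 0, 0, -3], 0),
    (false, [0, 0, 0, 0, 0, 0, 0, 0, 0, 0, 0, 0, 0, 0, 0, 0, 0, 0, 0, 1, 1, 1, 1, 0, 0, 0, 0, 0, 0, 0, 0, 0, 0, 0, 0], 2),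
    (false, [0, 0, 0, 0, 0, 0, 0, 0, 0, 0, 0, 0, 0, 0, 0, 0, 0, 0, 0, 0, 0, 0, 0, 1, 1, 1, 1, 0, 0, 0, 0, 0, 0, 0, 0], 2),
    (false, [0, 1, 4, 0, 1, 4, 4, 1, 0, 1, 4, 0, 1, 4, 4, 1, 0, 1, 4, 1, 0, 1, 4, 1, 0, 1, 4, 0, 1, 4, 0, 0, 0, -8, -4], 8),
    (false, [4, 1, 0, 4, 1, 0, 4, 1, 0, 1, 4, 4, 1, 0, 4, 1, 0, 1, 4, 4, 1, 0, 1, 4, 1, 0, 1, 0, 1, 4, 0, 0, 0, -8, -4], 8),
    (false, [-1, -1, -1, -1, -1, -1, 1, 1, 1, 1, 1, -1, -1, -1, 1, 1, 1, 1, 1, 0, 0, 0, 0, 0, 0, 0, 0, 1, 1, 1, -1, 0, 0, 0, 0], 0),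
    (false, [1, 1, 1, -1, -1, -1, -1, -1, -1, -1, -1, 0, 0, 0, 0, 0, 0, 0, 0, 1, 1, 1, 1, 0, 0, 0, 0, 1, 1, 1, 0, -1, 0, 0, 0], 0),
    (false, [-1, 0, 1, -1, 0, 1, -1, 0, 1, 0, -1, -1, 0, 1, -1, 0, 1, 0, -1, -1, 0, 1, 0, -1, 0, 1, 0, 1, 0, -1, 0, 0, -1, 0, 0], 0),
    (true, [-1, -1, -1, 1, 1, 1, -1, -1, -1, -1, -1, 0, 0, 0, 0, 0, 0, 0, 0, 0, 0, 0, 0, 1, 1, 1, 1, 1, 1, 1, 0, 0, 0, 0, 0], 0),
    (true, [1, 0, -1, 1, 0, -1, -1, 0, 1, 0, -1, 1, 0, -1, -1, 0, 1, 0, -1, 0, 1, 0, -1, 0, 1, 0, -1, 1, 0, -1, 0, 0, 0, 0, 0], 0),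
    (true, [4, 1, 0, 0, 1, 4, 16, 9, 4, 1, 0, 1, 0, 1, 9, 4, 1, 0, 1, 4, 1, 0, 1, 1, 0, 1, 4, 0, 1, 4, 0, 0, 0, 0, 0], 1),
    (true, [0, 0, 0, 0, 0, 0, 0, 0, 0, 0, 0, 0, 0, 0, 0, 0, 0, 0, 0, 0, 0, 0, 0, 0, 0, 0, 0, 0, 0, 0, 0, 0, 0, 1, 0], 0),
    (true, [0, 0, 0, 0, 0, 0, 0, 0, 0, 0, 0, 0, 0, 0, 0, 0, 0, 0, 0, 0, 0, 0, 0, 0, 0, 0, 0, 0, 0, 0, 0, 0, 0, 0, 1], 0),
    (true, [4, 1, 0, 0, 1, 4, 16, 9, 4, 1, 0, 1, 0, 1, 9, 4, 1, 0, 1, 4, 1, 0, 1, 1, 0, 1, 4, 0, 1, 4, 0, 0, 0, -8, -4], 8)]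
  moves := EB31_moves0
  reqs := EB31_reqs0
  tree := EB31_0_0_0_tree

theorem EB31_0_0_0_ok : EB31.instOK 0 0 0 EB31_0_0_0 = true := by
  decide +kernel

def EB31_0_1_0_tree : Tree :=
  (.br 3 0
  (.br 2 0
   (.br 23 0
    (.br 24 0
     (.br 31 0
      (.br 16 0
       (.br 25 0
        (.br 17 0
         (.br 18 0
          (.fk [(0, 6), (1, -10), (2, -12), (3, -5), (4, -1), (5, 3), (7, 2), (8, 1), (10, -8), (11, 3), (13, 5), (17, 1)])
          (.br 4 0
           (.fk [(0, 14), (1, -6), (2, -8), (3, -6), (4, 2), (5, 7), (6, 7), (8, 2), (10, -11), (11, 4), (12, 3), (13, 4), (17, 2)])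
           (.br 21 0
            (.br 13 0
             (.br 22 0
              (.br 5 0
               (.fk [(0, 4), (1, -6), (2, -6), (3, -1), (4, -1), (5, 3), (6, -2), (8, 1), (10, -4), (11, 3), (12, 1)])
               (.br 26 0
                (.fk [(0, 2), (1, -2), (5, 1), (6, 1), (10, -1), (12, 1)])
                (.mv 4)))
              (.mv 8))
             (.mv 13))
            (.mv 31))))
         (.br 21 0
          (.br 11 0
           (.br 18 0
            (.br 0 0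
             (.fk [(0, 2), (1, -4), (2, -6), (3, -1), (4, -1), (5, 1), (8, 1), (10, -3), (11, 2), (13, 1)])
             (.br 8 0
              (.fk [(1, -4), (2, -4), (3, -1), (4, -1), (5, 1), (8, 1), (10, -3), (11, 2), (13, 1)])
              (.mv 15)))
            (.br 13 0
             (.br 12 0
              (.fk [(0, 12), (1, -20), (2, -24), (3, 8), (4, -8), (5, 7), (6, 1), (7, 3), (8, 3), (10, -16), (11, 8), (13, 8), (17, 2)])
              (.mv 19))
             (.mv 13)))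
           (.br 20 0
            (.br 18 0
             (.br 26 0
              (.fk [(0, 2), (1, -2), (5, 1), (6, 1), (10, -1), (12, 1)])
              (.br 26 1
               (.fk [(0, 2), (1, -2), (5, 1), (6, 1), (10, -1), (12, 1)])
               (.mv 32)))
             (.br 13 0
              (.br 5 0
               (.fk [(0, 2), (1, -4), (2, -6), (3, -1), (4, -1), (5, 2), (6, -1), (8, 1), (10, -3), (11, 3)])
               (.br 26 0
                (.fk [(0, 2), (1, -2), (5, 1), (6, 1), (10, -1), (12, 1)])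
                (.mv 4)))
              (.mv 13)))
            (.mv 10)))
          (.mv 22)))
        (.br 5 0
         (.br 4 0
          (.fk [(1, 1), (2, -1), (5, 1), (10, -1)])
          (.mv 24))
         (.br 26 0
          (.br 17 0
           (.br 11 0
            (.br 12 0
             (.br 4 0
              (.fk [(0, 4), (1, 24), (2, -20), (3, 31), (4, -9), (5, 5), (6, 5), (7, -4), (8, 5), (9, 8), (10, -13), (13, 5), (17, 2)])
              (.mv 24))
             (.br 18 0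
              (.fk [(0, 16), (1, -32), (2, -64), (3, -13), (4, -9), (5, 12), (6, -13), (7, 6), (8, 7), (9, 6), (10, -28), (11, 10), (13, 12), (17, 3)])
              (.mv 25)))
            (.br 20 0
             (.br 4 0
              (.fk [(0, 4), (2, -4), (3, -3), (4, 1), (5, 3), (7, 1), (10, -4), (13, 4), (17, 1)])
              (.mv 24))
             (.mv 10)))
           (.br 20 0
            (.br 11 0
             (.br 12 0
              (.br 4 0
               (.fk [(0, -18), (1, 258), (2, -24), (3, 264), (4, -52), (5, 51), (6, 51), (7, -45), (8, 51), (10, -78), (12, 27), (13, 51), (17, 33)])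
               (.mv 24))
              (.mv 19))
             (.mv 46))
            (.mv 84)))
          (.mv 4))))
       (.br 20 0
        (.br 11 0
         (.br 4 0
          (.br 12 0
           (.fk [(0, -18), (1, 258), (2, -24), (3, 264), (4, -52), (5, 51), (6, 51), (7, -45), (8, 51), (10, -78), (12, 27), (13, 51), (17, 33)])
           (.br 19 0
            (.fk [(0, -4), (1, 4), (5, 1), (6, 1), (7, -1), (8, 1)])
            (.mv 58)))
          (.br 25 0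
           (.br 22 0
            (.br 19 0
             (.br 12 0
              (.br 27 0
               (.br 28 0
                (.fk [(0, 10), (1, -2), (2, 24), (3, 16), (5, -5), (6, 13), (7, -2), (8, 2), (10, 7), (12, 13), (13, 4), (17, 4)])
                (.mv 20))
               (.br 26 0
                (.fk [(0, 2), (1, -2), (5, 1), (6, 1), (10, -1), (12, 1)])
                (.mv 64)))
              (.br 21 0
               (.fk [(5, 1)])
               (.mv 23)))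
             (.mv 44))
            (.mv 49))
           (.mv 24)))
         (.mv 18))
        (.mv 2)))
      (.br 20 0
       (.br 11 0
        (.br 4 0
         (.br 12 0
          (.fk [(0, -12), (1, 348), (2, 48), (3, 240), (4, -16), (5, 39), (6, 39), (7, -51), (8, 39), (17, 36)])
          (.br 21 0
           (.br 16 0
            (.br 17 0
             (.fk [(0, 4), (1, 24), (2, 4), (3, 1), (4, 5), (5, 7), (6, 6), (7, -3), (8, 2), (17, 3)])
             (.mv 19))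
            (.br 19 0
             (.fk [(0, -4), (1, 4), (5, 1), (6, 1), (7, -1), (8, 1)])
             (.mv 58)))
           (.mv 23)))
         (.br 25 0
          (.br 27 0
           (.br 28 0
            (.br 9 0
             (.br 0 0
              (.br 29 0
               (.fk [(0, -3), (2, 3), (5, -6), (6, 3), (7, -1), (8, 1), (10, 3)])
               (.br 26 0
                (.fk [(6, 1)])
                (.mv 21)))
              (.br 8 0
               (.br 29 0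
                (.fk [(0, -1), (1, -1), (2, 2), (5, -1), (6, -1), (10, 1), (12, 1)])
                (.br 26 0
                 (.fk [(6, 1)])
                 (.mv 21)))
               (.mv 15)))
             (.br 1 0
              (.br 17 0
               (.br 26 0
                (.fk [(6, 1)])
                (.br 29 0
                 (.fk [(0, -1), (2, 1), (5, -1), (10, 1)])
                 (.mv 21)))
               (.br 12 0
                (.fk [(0, -4), (1, 8), (2, 12), (3, 8), (5, -7), (6, 2), (7, -1), (8, 1), (10, 8), (12, 2), (13, 2), (17, 2)])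
                (.mv 19)))
              (.mv 7)))
            (.mv 20))
           (.br 26 0
            (.fk [(6, 1)])
            (.mv 64)))
          (.mv 24)))
        (.br 25 0
         (.br 16 0
          (.br 26 0
           (.fk [(6, 1)])
           (.br 26 1
            (.fk [(6, 1)])
            (.mv 32)))
          (.mv 18))
         (.br 4 0
          (.br 21 0
           (.br 16 0
            (.br 17 0
             (.br 10 0
              (.br 9 0
               (.fk [(0, 6), (1, 27), (2, 15), (3, -3), (4, 9), (5, 15), (6, 8), (7, -3), (8, 2), (17, 5)])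
               (.br 1 0
                (.fk [(0, 10), (1, 32), (2, 6), (3, -3), (4, 9), (5, 15), (6, 8), (7, -3), (8, 2), (17, 5)])
                (.mv 7)))
              (.br 1 0
               (.fk [(0, 8), (1, 20), (2, 4), (3, -5), (4, 7), (5, 10), (6, 5), (7, -2), (8, 1), (17, 3)])
               (.mv 42)))
             (.mv 46))
            (.mv 18))
           (.br 10 0
            (.br 9 0
             (.br 12 0
              (.br 17 0
               (.fk [(1, 4), (2, 4), (3, 1), (4, 1), (6, 1), (17, 1)])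
               (.mv 22))
              (.mv 23))
             (.mv 66))
            (.mv 106)))
          (.mv 24))))
       (.mv 16)))
     (.mv 1))
    (.br 24 0
     (.br 4 0
      (.br 25 0
       (.br 11 0
        (.br 28 0
         (.br 12 0
          (.br 20 0
           (.br 21 0
            (.fk [(0, 12), (1, 72), (2, 12), (3, 45), (4, 1), (5, 21), (6, -6), (7, -9), (8, 6), (17, 9)])
            (.br 9 0
             (.fk [(0, 12), (1, 60), (2, 24), (3, 42), (4, 2), (5, 9), (6, 3), (7, -9), (8, 3), (17, 6)])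
             (.mv 35)))
           (.br 16 0
            (.br 31 0
             (.br 13 0
              (.fk [(0, 24), (1, -60), (2, -60), (3, 18), (4, -22), (5, 9), (6, -12), (7, 9), (8, 6), (10, -36), (11, 18), (13, 18), (17, 3)])
              (.mv 53))
             (.mv 16))
            (.mv 2)))
          (.br 16 0
           (.br 22 0
            (.br 21 0
             (.br 26 0
              (.br 1 0
               (.br 17 0
                (.fk [(0, 24), (1, 4), (2, 4), (3, -5), (4, 7), (5, 6), (6, 6), (7, 2), (8, -3), (17, 3)])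
                (.mv 19))
               (.br 20 0
                (.br 8 0
                 (.br 9 0
                  (.br 17 0
                   (.fk [(0, 12), (1, 48), (2, 36), (3, 9), (4, 13), (5, 21), (6, 12), (7, -9), (17, 3)])
                   (.mv 19))
                  (.mv 7))
                 (.mv 47))
                (.br 31 0
                 (.br 17 0
                  (.fk [(0, 42), (1, -30), (2, -60), (3, -15), (4, -3), (5, 23), (6, -14), (7, 4), (8, 11), (10, -48), (11, 25), (13, 23), (17, 9)])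
                  (.mv 19))
                 (.mv 16))))
              (.mv 38))
             (.mv 23))
            (.br 8 0
             (.br 31 0
              (.fk [(1, -4), (2, -4), (3, -1), (4, -1), (5, 1), (6, -2), (8, 1), (10, -3), (11, 2), (13, 1)])
              (.mv 50))
             (.mv 81)))
           (.mv 59)))
         (.mv 12))
        (.br 16 0
         (.br 20 0
          (.br 21 0
           (.br 22 0
            (.br 1 0
             (.br 17 0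
              (.fk [(0, 60), (1, 24), (2, 12), (3, -3), (4, 17), (5, 36), (6, 30), (7, 3), (8, -6), (17, 9)])
              (.br 13 0
               (.fk [(0, 4), (1, -4), (5, 3), (6, -3), (7, 1), (8, -1)])
               (.mv 65)))
             (.br 8 0
              (.br 9 0
               (.br 27 0
                (.fk [(5, 1), (6, 1), (11, 1), (13, 1)])
                (.br 7 0
                 (.fk [(0, 4), (1, 12), (2, 16), (3, 4), (4, 4), (5, 7), (6, 7), (7, -3), (8, -1)])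
                 (.mv 74)))
               (.mv 7))
              (.mv 47)))
            (.br 17 0
             (.br 31 0
              (.fk [(0, 4), (2, -4), (3, -3), (4, 1), (5, 4), (7, 1), (10, -4), (13, 4), (17, 1)])
              (.mv 60))
             (.mv 37)))
           (.br 8 0
            (.br 27 0
             (.fk [(5, -1), (6, 1), (7, 1), (8, -1), (13, 4)])
             (.br 9 0
              (.br 7 0
               (.fk [(0, 8), (1, 24), (2, 32), (3, 8), (4, 8), (5, 6), (6, 7), (7, -6), (8, -2)])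
               (.mv 74))
              (.mv 35)))
            (.mv 77)))
          (.mv 10))
         (.mv 18)))
       (.mv 14))
      (.mv 3))
     (.mv 1)))
   (.br 10 0
    (.br 24 0
     (.br 23 0
      (.br 18 0
       (.br 25 0
        (.br 9 0
         (.br 11 0
          (.br 8 0
           (.br 17 0
            (.fk [(0, -3), (2, 3), (3, -3), (4, 1), (6, 3), (8, 3), (17, 3)])
            (.br 12 0
             (.fk [(0, -4), (2, 4), (3, 6), (4, -2), (5, -3), (6, 4), (7, -1), (8, 3), (17, 2)])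
             (.mv 19)))
           (.br 0 0
            (.fk [(5, -3), (6, 3), (7, -1), (8, 1)])
            (.mv 15)))
          (.br 26 0
           (.fk [(6, 1)])
           (.br 26 1
            (.fk [(6, 1)])
            (.mv 32))))
         (.br 11 0
          (.br 17 0
           (.fk [(3, -3), (4, 1), (6, 3), (8, 3), (17, 3)])
           (.br 12 0
            (.br 19 0
             (.br 21 0
              (.br 31 0
               (.fk [(0, -12), (1, -18), (2, -18), (3, 3), (4, -9), (5, -1), (6, 8), (7, 1), (8, 8), (10, -12), (11, 4), (13, 8), (17, 3)])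
               (.br 20 0
                (.br 13 0
                 (.fk [(3, 3), (4, -1), (6, 3), (8, 1), (17, 1)])
                 (.br 22 0
                  (.fk [(5, 1)])
                  (.mv 9)))
                (.mv 16)))
              (.mv 22))
             (.mv 96))
            (.mv 19)))
          (.br 16 0
           (.br 17 0
            (.fk [(3, -3), (4, 1), (6, 3), (8, 1), (17, 1)])
            (.mv 95))
           (.mv 18))))
        (.br 4 0
         (.br 5 0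
          (.fk [(0, -1), (1, 1)])
          (.br 26 0
           (.br 11 0
            (.fk [(0, -4), (1, 4), (5, -3), (6, 1), (7, -1), (8, 1)])
            (.br 22 0
             (.br 17 0
              (.fk [(0, -18), (1, 18), (3, -15), (4, 5), (5, -3), (6, 6), (7, 3), (8, 6), (17, 9)])
              (.mv 46))
             (.mv 26)))
           (.mv 4)))
         (.mv 24)))
       (.br 22 0
        (.br 20 0
         (.br 25 0
          (.br 26 0
           (.fk [(6, 1)])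
           (.mv 55))
          (.br 4 0
           (.br 9 0
            (.br 17 0
             (.br 12 0
              (.fk [(1, 4), (2, 4), (3, 1), (4, 1), (6, 1), (17, 1)])
              (.mv 25))
             (.br 21 0
              (.br 12 0
               (.br 13 0
                (.br 11 0
                 (.fk [(0, -76), (1, 108), (2, 96), (3, 88), (4, -8), (5, 55), (6, 27), (7, -3), (8, 11), (17, 24)])
                 (.mv 46))
                (.mv 13))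
               (.mv 19))
              (.mv 22)))
            (.mv 97))
           (.mv 24)))
         (.br 11 0
          (.br 12 0
           (.br 13 0
            (.fk [(3, 9), (4, -3), (6, 1), (8, 1), (17, 1)])
            (.mv 13))
           (.mv 28))
          (.mv 10)))
        (.mv 8)))
      (.br 4 0
       (.br 25 0
        (.br 9 0
         (.br 8 0
          (.br 16 0
           (.br 11 0
            (.br 17 0
             (.fk [(0, -120), (1, 116), (2, 164), (3, 2), (4, 26), (5, 9), (6, -7), (7, -11), (8, 9), (17, 18)])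
             (.br 12 0
              (.fk [(0, -36), (1, 44), (2, 56), (3, 26), (4, 2), (5, 3), (6, -1), (7, -5), (8, 3), (17, 6)])
              (.mv 19)))
            (.br 17 0
             (.fk [(0, -50), (1, 48), (2, 82), (3, 1), (4, 13), (5, 3), (6, 4), (7, -3), (8, 2), (17, 9)])
             (.br 20 0
              (.br 12 0
               (.br 21 0
                (.br 22 0
                 (.br 13 0
                  (.br 26 0
                   (.br 5 0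
                    (.fk [(0, -365), (1, 300), (2, 73), (3, 73), (4, -23), (5, 73), (6, 73), (7, 73), (8, -65), (17, 9)])
                    (.br 19 0
                     (.fk [(5, 1)])
                     (.mv 41)))
                   (.mv 102))
                  (.mv 65))
                 (.mv 37))
                (.mv 22))
               (.mv 19))
              (.mv 10))))
           (.br 11 0
            (.br 12 0
             (.fk [(0, -36), (1, 44), (2, 56), (3, 26), (4, 2), (5, 3), (6, -1), (7, -5), (8, 3), (17, 6)])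
             (.mv 59))
            (.mv 18)))
          (.br 23 1
           (.br 5 0
            (.fk [(0, -1), (1, 2), (2, -1)])
            (.br 26 0
             (.fk [(6, 1)])
             (.mv 4)))
           (.mv 94)))
         (.mv 30))
        (.mv 14))
       (.mv 3)))
     (.mv 1))
    (.mv 11)))
  (.mv 0))

def EB31_0_1_0 : Inst where
  rows :=
   [(false, [1, 1, 1, 0, 0, 0, 0, 0, 0, 0, 0, 0, 0, 0, 0, 0, 0, 0, 0, 0, 0, 0, 0, 0, 0, 0, 0, 0, 0, 0, 0, 0, 0, -1, 0], 0),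
    (false, [0, 0, 0, 1, 1, 1, 0, 0, 0, 0, 0, 0, 0, 0, 0, 0, 0, 0, 0, 0, 0, 0, 0, 0, 0, 0, 0, 0, 0, 0, 0, 0, 0, -1, 0], 0),
    (false, [0, 0, 0, 0, 0, 0, 1, 1, 1, 1, 1, 0, 0, 0, 0, 0, 0, 0, 0, 0, 0, 0, 0, 0, 0, 0, 0, 0, 0, 0, 0, 0, 0, -1, 0], 1),
    (false, [0, 0, 0, 0, 0, 0, 0, 0, 0, 0, 0, 1, 1, 1, 0, 0, 0, 0, 0, 0, 0, 0, 0, 0, 0, 0, 0, 0, 0, 0, 0, 0, 0, 0, -1], 1),
    (false, [0, 0, 0, 0, 0, 0, 0, 0, 0, 0, 0, 0, 0, 0, 1, 1, 1, 1, 1, 0, 0, 0, 0, 0, 0, 0, 0, 0, 0, 0, 0, 0, 0, 0, -3], 0),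
    (false, [0, 0, 0, 0, 0, 0, 0, 0, 0, 0, 0, 0, 0, 0, 0, 0, 0, 0, 0, 1, 1, 1, 1, 0, 0, 0, 0, 0, 0, 0, 0, 0, 0, 0, 0], 2),
    (false, [0, 0, 0, 0, 0, 0, 0, 0, 0, 0, 0, 0, 0, 0, 0, 0, 0, 0, 0, 0, 0, 0, 0, 1, 1, 1, 1, 0, 0, 0, 0, 0, 0, 0, 0], 2),
    (false, [0, 1, 4, 0, 1, 4, 4, 1, 0, 1, 4, 0, 1, 4, 4, 1, 0, 1, 4, 1, 0, 1, 4, 1, 0, 1, 4, 0, 1, 4, 0, 0, 0, -8, -4], 8),
    (false, [4, 1, 0, 4, 1, 0, 4, 1, 0, 1, 4, 4, 1, 0, 4, 1, 0, 1, 4, 4, 1, 0, 1, 4, 1, 0, 1, 0, 1, 4, 0, 0, 0, -8, -4], 8),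
    (false, [-1, -1, -1, -1, -1, -1, 1, 1, 1, 1, 1, -1, -1, -1, 1, 1, 1, 1, 1, 0, 0, 0, 0, 0, 0, 0, 0, 1, 1, 1, -1, 0, 0, 0, 0], 0),
    (false, [1, 1, 1, -1, -1, -1, -1, -1, -1, -1, -1, 0, 0, 0, 0, 0, 0, 0, 0, 1, 1, 1, 1, 0, 0, 0, 0, 1, 1, 1, 0, -1, 0, 0, 0], 0),
    (false, [-1, 0, 1, -1, 0, 1, -1, 0, 1, 0, -1, -1, 0, 1, -1, 0, 1, 0, -1, -1, 0, 1, 0, -1, 0, 1, 0, 1, 0, -1, 0, 0, -1, 0, 0], 0),
    (true, [-1, -1, -1, 1, 1, 1, -1, -1, -1, -1, -1, 0, 0, 0, 0, 0, 0, 0, 0, 0, 0, 0, 0, 1, 1, 1, 1, 1, 1, 1, 0, 0, 0, 0, 0], 0),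
    (true, [1, 0, -1, 1, 0, -1, -1, 0, 1, 0, -1, 1, 0, -1, -1, 0, 1, 0, -1, 0, 1, 0, -1, 0, 1, 0, -1, 1, 0, -1, 0, 0, 0, 0, 0], 0),
    (true, [4, 1, 0, 0, 1, 4, 16, 9, 4, 1, 0, 1, 0, 1, 9, 4, 1, 0, 1, 4, 1, 0, 1, 1, 0, 1, 4, 0, 1, 4, 0, 0, 0, 0, 0], 1),
    (true, [0, 0, 0, 0, 0, 0, 0, 0, 0, 0, 0, 0, 0, 0, 0, 0, 0, 0, 0, 0, 0, 0, 0, 0, 0, 0, 0, 0, 0, 0, 0, 0, 0, 1, 0], 0),
    (true, [0, 0, 0, 0, 0, 0, 0, 0, 0, 0, 0, 0, 0, 0, 0, 0, 0, 0, 0, 0, 0, 0, 0, 0, 0, 0, 0, 0, 0, 0, 0, 0, 0, 0, 1], 0),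
    (true, [-4, -1, 0, 0, -1, -4, -16, -9, -4, -1, 0, -1, 0, -1, -9, -4, -1, 0, -1, -4, -1, 0, -1, -1, 0, -1, -4, 0, -1, -4, 0, 0, 0, 8, 4], -6)]
  moves := EB31_moves0
  reqs := EB31_reqs0
  tree := EB31_0_1_0_tree

theorem EB31_0_1_0_ok : EB31.instOK 0 1 0 EB31_0_1_0 = true := by
  decide +kernel

def EB31_0_2_0_tree : Tree :=
  (.br 3 0
  (.br 4 0
   (.br 20 0
    (.br 10 0
     (.br 24 0
      (.br 11 0
       (.br 9 0
        (.br 17 0
         (.br 12 0
          (.fk [(1, 36), (2, 12), (3, 27), (4, -1), (5, 6), (6, -3), (7, -6), (8, 3), (17, -3), (18, 12)])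
          (.br 21 0
           (.br 18 0
            (.fk [(0, -12), (1, 16), (2, 12), (3, -1), (4, 3), (5, 5), (6, -4), (7, -1), (8, 2), (17, -3), (18, 12)])
            (.br 22 0
             (.br 25 0
              (.br 19 0
               (.fk [(5, 1)])
               (.br 8 0
                (.br 16 0
                 (.fk [(0, 48), (1, 180), (2, 156), (3, 15), (4, 59), (5, 156), (6, 57), (7, -12), (8, -3), (17, -33), (18, 156)])
                 (.mv 58))
                (.mv 56)))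
              (.mv 25))
             (.mv 8)))
           (.mv 23)))
         (.br 12 0
          (.fk [(1, 36), (2, 12), (3, 27), (4, -1), (5, 6), (6, -3), (7, -6), (8, 3), (17, -3), (18, 6)])
          (.mv 19)))
        (.br 12 0
         (.fk [(0, 12), (1, 72), (2, 12), (3, 45), (4, 1), (5, 9), (6, -6), (7, -9), (8, 6), (17, -9), (18, 72)])
         (.br 17 0
          (.br 1 0
           (.br 21 0
            (.br 18 0
             (.fk [(0, -2), (1, 16), (2, 2), (3, -1), (4, 3), (5, 5), (6, -4), (7, -1), (8, 2), (17, -3), (18, 20)])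
             (.br 22 0
              (.br 19 0
               (.fk [(5, 1)])
               (.mv 62))
              (.mv 8)))
            (.mv 23))
           (.mv 7))
          (.mv 19))))
       (.br 16 0
        (.br 17 0
         (.br 9 0
          (.fk [(0, 4), (1, 40), (2, 36), (3, 1), (4, 13), (5, 1), (6, 10), (7, -1), (17, -9), (18, 46)])
          (.br 1 0
           (.fk [(0, 36), (1, 104), (2, 20), (3, -7), (4, 29), (5, 9), (6, 2), (7, -9), (8, 6), (17, -17), (18, 136)])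
           (.mv 7)))
         (.br 21 0
          (.br 22 0
           (.br 5 0
            (.fk [(0, 4), (1, 36), (2, -8), (3, 4), (4, 4), (5, 13), (6, 1), (7, -1), (8, -3), (18, 12)])
            (.br 19 0
             (.fk [(5, 1)])
             (.mv 41)))
           (.mv 37))
          (.mv 22)))
        (.mv 18)))
      (.mv 1))
     (.br 24 0
      (.br 16 0
       (.br 2 0
        (.br 5 0
         (.fk [(0, -12), (1, 52), (2, -8), (3, 4), (4, 4), (5, 3), (6, 3), (7, -3), (8, -1), (18, 12)])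
         (.br 26 0
          (.br 29 0
           (.br 23 0
            (.br 17 0
             (.fk [(0, 4), (1, 24), (2, 4), (3, -5), (4, 7), (5, 3), (6, 6), (7, -3), (8, 2), (17, -3), (18, 24)])
             (.br 21 0
              (.br 11 0
               (.br 12 0
                (.fk [(0, -24), (1, 388), (2, 52), (3, 271), (4, -21), (5, 34), (6, 34), (7, -58), (8, 45), (17, -39), (18, 34)])
                (.mv 19))
               (.br 22 0
                (.br 19 0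
                 (.fk [(5, 1)])
                 (.mv 41))
                (.mv 37)))
              (.mv 22)))
            (.br 25 0
             (.br 1 0
              (.br 0 0
               (.fk [(0, 49), (1, -9), (2, -8), (3, 4), (4, 4), (5, 1), (6, 13), (7, -1), (8, -3), (18, 12)])
               (.br 27 0
                (.br 28 0
                 (.fk [(0, -16), (1, 8), (2, 8), (5, -13), (6, 3), (7, 1), (8, -1), (10, 12), (13, 4), (18, 4)])
                 (.mv 12))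
                (.mv 99)))
              (.br 27 0
               (.br 28 0
                (.fk [(0, -16), (1, 8), (2, 8), (5, -13), (6, 3), (7, 1), (8, -1), (10, 12), (13, 4), (18, 4)])
                (.mv 12))
               (.br 23 1
                (.fk [(6, 1)])
                (.mv 86))))
             (.mv 14)))
           (.mv 5))
          (.mv 4)))
        (.mv 11))
       (.br 11 0
        (.br 2 0
         (.br 12 0
          (.fk [(1, 28), (2, 4), (3, 19), (4, -1), (5, 4), (6, -5), (7, -4), (8, 3), (17, -3), (18, 24)])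
          (.br 21 0
           (.br 19 0
            (.br 17 0
             (.br 23 0
              (.fk [(0, -4), (1, 4), (5, 1), (6, 1), (7, -1), (8, 1)])
              (.mv 59))
             (.mv 19))
            (.mv 58))
           (.mv 23)))
         (.mv 11))
        (.mv 18)))
      (.mv 1)))
    (.br 16 0
     (.br 24 0
      (.br 11 0
       (.br 31 0
        (.br 17 0
         (.fk [(0, 16), (1, -10), (2, -6), (5, 8), (6, -6), (8, 1), (9, 1), (10, -10), (11, 2), (12, 5), (13, 2), (17, -1), (18, 8)])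
         (.br 12 0
          (.fk [(0, 34), (1, -26), (2, -8), (3, 6), (4, -2), (5, 16), (6, -18), (7, 1), (8, 1), (10, -23), (12, 15), (13, 8), (17, -2), (18, 16)])
          (.mv 19)))
        (.mv 16))
       (.mv 10))
      (.mv 1))
     (.mv 2)))
   (.br 23 0
    (.br 24 0
     (.br 28 0
      (.br 25 0
       (.br 10 0
        (.br 11 0
         (.br 27 0
          (.br 9 0
           (.br 0 0
            (.br 17 0
             (.br 16 0
              (.fk [(0, 10), (1, -22), (2, 12), (3, -3), (4, 1), (5, -5), (6, 12), (7, -4), (8, 7), (11, 9), (12, 10), (13, 1), (17, -3), (18, 12)])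
              (.br 19 0
               (.fk [(5, -1), (6, 3), (7, -1), (8, 1)])
               (.mv 44)))
             (.br 12 0
              (.fk [(0, 6), (1, -154), (2, 52), (3, 123), (4, -57), (5, -79), (6, 52), (7, -15), (8, 52), (11, 14), (12, 18), (13, 52), (17, -25), (18, 52)])
              (.mv 19)))
            (.br 8 0
             (.br 17 0
              (.br 16 0
               (.fk [(0, -84), (1, -41), (2, 21), (3, -19), (4, -11), (5, -36), (6, 21), (7, -2), (8, 21), (11, 38), (12, 7), (13, 21), (17, -6), (18, 21)])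
               (.br 20 0
                (.br 19 0
                 (.br 26 0
                  (.fk [(6, 1)])
                  (.mv 98))
                 (.mv 44))
                (.mv 2)))
              (.br 12 0
               (.fk [(0, -24), (1, -8), (2, 8), (3, 15), (4, -9), (5, -14), (6, 8), (7, -2), (8, 8), (11, 4), (13, 8), (17, -3), (18, 8)])
               (.mv 19)))
             (.mv 15)))
           (.br 1 0
            (.br 29 0
             (.br 17 0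
              (.br 16 0
               (.fk [(0, -52), (1, -72), (2, -36), (3, -29), (4, -17), (5, -55), (6, 34), (7, -5), (8, 34), (11, 60), (12, 18), (13, 30), (17, -9), (18, 34)])
               (.br 20 0
                (.br 19 0
                 (.fk [(0, -8), (1, 4), (2, 4), (5, -3), (6, 3), (7, -1), (8, 1), (10, 4)])
                 (.mv 44))
                (.mv 2)))
              (.br 12 0
               (.fk [(0, -1), (1, -4), (2, 5), (3, 3), (4, -1), (5, -3), (6, 3), (7, -1), (8, 2), (10, 2), (11, 2), (12, 3), (17, -1), (18, 3)])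
               (.mv 19)))
             (.br 26 0
              (.fk [(6, 1)])
              (.mv 21)))
            (.mv 7)))
          (.br 26 0
           (.fk [(6, 1)])
           (.mv 64)))
         (.br 18 0
          (.br 5 0
           (.br 16 0
            (.br 26 0
             (.fk [(6, 1)])
             (.br 26 1
              (.fk [(6, 1)])
              (.mv 32)))
            (.mv 18))
           (.br 26 0
            (.fk [(6, 1)])
            (.mv 4)))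
          (.br 21 0
           (.br 22 0
            (.br 20 0
             (.br 8 0
              (.br 16 0
               (.br 26 0
                (.fk [(6, 1)])
                (.br 26 1
                 (.fk [(6, 1)])
                 (.mv 32)))
               (.mv 18))
              (.br 0 0
               (.br 2 0
                (.br 13 0
                 (.br 16 0
                  (.br 5 0
                   (.fk [(5, 3), (6, -3), (7, 1), (8, -1)])
                   (.br 26 0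
                    (.fk [(6, 1)])
                    (.mv 4)))
                  (.mv 18))
                 (.mv 13))
                (.mv 92))
               (.mv 15)))
             (.mv 10))
            (.mv 8))
           (.mv 31))))
        (.br 2 0
         (.br 16 0
          (.br 27 0
           (.fk [(0, -2), (1, 2), (5, -3), (6, 1), (10, 2), (11, 1), (13, 1), (18, 2)])
           (.br 26 0
            (.fk [(6, 1)])
            (.mv 64)))
          (.br 11 0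
           (.br 26 0
            (.fk [(6, 1)])
            (.br 13 0
             (.br 20 0
              (.br 27 0
               (.br 29 0
                (.br 19 0
                 (.fk [(0, -7), (1, 2), (2, 5), (5, -3), (6, 1), (7, -1), (8, 1), (10, 4), (12, 1)])
                 (.mv 44))
                (.mv 21))
               (.mv 64))
              (.mv 2))
             (.mv 45)))
           (.mv 18)))
         (.mv 11)))
       (.mv 24))
      (.mv 20))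
     (.mv 1))
    (.mv 3)))
  (.mv 0))

def EB31_0_2_0 : Inst where
  rows :=
   [(false, [1, 1, 1, 0, 0, 0, 0, 0, 0, 0, 0, 0, 0, 0, 0, 0, 0, 0, 0, 0, 0, 0, 0, 0, 0, 0, 0, 0, 0, 0, 0, 0, 0, -1, 0], 0),
    (false, [0, 0, 0, 1, 1, 1, 0, 0, 0, 0, 0, 0, 0, 0, 0, 0, 0, 0, 0, 0, 0, 0, 0, 0, 0, 0, 0, 0, 0, 0, 0, 0, 0, -1, 0], 0),
    (false, [0, 0, 0, 0, 0, 0, 1, 1, 1, 1, 1, 0, 0, 0, 0, 0, 0, 0, 0, 0, 0, 0, 0, 0, 0, 0, 0, 0, 0, 0, 0, 0, 0, -1, 0], 1),
    (false, [0, 0, 0, 0, 0, 0, 0, 0, 0, 0, 0, 1, 1, 1, 0, 0, 0, 0, 0, 0, 0, 0, 0, 0, 0, 0, 0, 0, 0, 0, 0, 0, 0, 0, -1], 1),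
    (false, [0, 0, 0, 0, 0, 0, 0, 0, 0, 0, 0, 0, 0, 0, 1, 1, 1, 1, 1, 0, 0, 0, 0, 0, 0, 0, 0, 0, 0, 0, 0, 0, 0, 0, -3], 0),
    (false, [0, 0, 0, 0, 0, 0, 0, 0, 0, 0, 0, 0, 0, 0, 0, 0, 0, 0, 0, 1, 1, 1, 1, 0, 0, 0, 0, 0, 0, 0, 0, 0, 0, 0, 0], 2),
    (false, [0, 0, 0, 0, 0, 0, 0, 0, 0, 0, 0, 0, 0, 0, 0, 0, 0, 0, 0, 0, 0, 0, 0, 1, 1, 1, 1, 0, 0, 0, 0, 0, 0, 0, 0], 2),
    (false, [0, 1, 4, 0, 1, 4, 4, 1, 0, 1, 4, 0, 1, 4, 4, 1, 0, 1, 4, 1, 0, 1, 4, 1, 0, 1, 4, 0, 1, 4, 0, 0, 0, -8, -4], 8),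
    (false, [4, 1, 0, 4, 1, 0, 4, 1, 0, 1, 4, 4, 1, 0, 4, 1, 0, 1, 4, 4, 1, 0, 1, 4, 1, 0, 1, 0, 1, 4, 0, 0, 0, -8, -4], 8),
    (false, [-1, -1, -1, -1, -1, -1, 1, 1, 1, 1, 1, -1, -1, -1, 1, 1, 1, 1, 1, 0, 0, 0, 0, 0, 0, 0, 0, 1, 1, 1, -1, 0, 0, 0, 0], 0),
    (false, [1, 1, 1, -1, -1, -1, -1, -1, -1, -1, -1, 0, 0, 0, 0, 0, 0, 0, 0, 1, 1, 1, 1, 0, 0, 0, 0, 1, 1, 1, 0, -1, 0, 0, 0], 0),
    (false, [-1, 0, 1, -1, 0, 1, -1, 0, 1, 0, -1, -1, 0, 1, -1, 0, 1, 0, -1, -1, 0, 1, 0, -1, 0, 1, 0, 1, 0, -1, 0, 0, -1, 0, 0], 0),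
    (true, [-1, -1, -1, 1, 1, 1, -1, -1, -1, -1, -1, 0, 0, 0, 0, 0, 0, 0, 0, 0, 0, 0, 0, 1, 1, 1, 1, 1, 1, 1, 0, 0, 0, 0, 0], 0),
    (true, [1, 0, -1, 1, 0, -1, -1, 0, 1, 0, -1, 1, 0, -1, -1, 0, 1, 0, -1, 0, 1, 0, -1, 0, 1, 0, -1, 1, 0, -1, 0, 0, 0, 0, 0], 0),
    (true, [4, 1, 0, 0, 1, 4, 16, 9, 4, 1, 0, 1, 0, 1, 9, 4, 1, 0, 1, 4, 1, 0, 1, 1, 0, 1, 4, 0, 1, 4, 0, 0, 0, 0, 0], 1),
    (true, [0, 0, 0, 0, 0, 0, 0, 0, 0, 0, 0, 0, 0, 0, 0, 0, 0, 0, 0, 0, 0, 0, 0, 0, 0, 0, 0, 0, 0, 0, 0, 0, 0, 1, 0], 0),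
    (true, [0, 0, 0, 0, 0, 0, 0, 0, 0, 0, 0, 0, 0, 0, 0, 0, 0, 0, 0, 0, 0, 0, 0, 0, 0, 0, 0, 0, 0, 0, 0, 0, 0, 0, 1], 0),
    (false, [4, 1, 0, 0, 1, 4, 16, 9, 4, 1, 0, 1, 0, 1, 9, 4, 1, 0, 1, 4, 1, 0, 1, 1, 0, 1, 4, 0, 1, 4, 0, 0, 0, -8, -4], 7),
    (true, [0, 0, 0, 0, 0, 0, 1, 1, 0, 0, 0, 0, 0, 0, 1, 0, 0, 0, 0, 0, 0, 0, 0, 0, 0, 0, 0, 0, 0, 0, 0, 0, 0, 0, 0], 1)]
  moves := EB31_moves0
  reqs := EB31_reqs0
  tree := EB31_0_2_0_tree

theorem EB31_0_2_0_ok : EB31.instOK 0 2 0 EB31_0_2_0 = true := by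
  decide +kernel

def EB31_0_3_0_tree : Tree :=
  (.br 23 0
  (.br 3 0
   (.br 22 0
    (.br 20 0
     (.br 24 0
      (.br 18 0
       (.br 16 0
        (.fk [(3, -3), (4, 1), (5, 3), (7, 3), (13, 6), (17, -3), (18, 6)])
        (.br 11 0
         (.br 25 0
          (.br 4 0
           (.fk [(1, 4), (2, -4), (5, 1), (6, 2), (7, 1), (8, 1), (13, 2), (17, -2), (18, 2)])
           (.br 19 0
            (.br 0 0
             (.fk [(5, 1), (6, 1), (7, -1), (8, 1)])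
             (.br 8 0
              (.br 26 0
               (.fk [(6, 1)])
               (.mv 98))
              (.mv 15)))
            (.mv 44)))
          (.br 4 0
           (.fk [(1, 4), (2, -4), (5, 1), (6, 1), (7, 1), (8, 1), (13, 2), (17, -2), (18, 2)])
           (.mv 24)))
         (.mv 18)))
       (.br 5 0
        (.br 11 0
         (.br 13 0
          (.br 29 0
           (.br 4 0
            (.fk [(0, 5), (1, 30), (2, 5), (3, 11), (4, 3), (5, 10), (6, 4), (8, -1), (13, 1), (17, -4), (18, 10)])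
            (.br 28 0
             (.br 16 0
              (.br 21 0
               (.br 25 0
                (.br 8 0
                 (.fk [(3, 6), (4, -2), (5, 5), (6, -3), (7, 5), (8, -1), (13, 10), (17, -4), (18, 10)])
                 (.br 0 0
                  (.br 12 0
                   (.fk [(3, 3), (4, -1), (5, -2), (6, 3), (8, 1), (13, 2), (17, -1), (18, 2)])
                   (.br 26 0
                    (.fk [(0, 28), (1, -20), (2, 24), (3, 22), (4, -2), (5, 7), (6, 24), (7, 5), (8, -3), (12, 24), (17, -6), (18, 24)])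
                    (.mv 52)))
                  (.mv 15)))
                (.mv 24))
               (.mv 31))
              (.br 19 0
               (.fk [(0, -20), (1, 28), (2, 24), (3, 22), (4, -2), (5, -3), (6, -11), (7, 3), (8, -1), (10, 24), (17, -6), (18, 24)])
               (.mv 44)))
             (.mv 20)))
           (.br 26 0
            (.br 2 0
             (.br 12 0
              (.fk [(3, 3), (4, -1), (5, 1), (7, 1), (13, 2), (17, -1), (18, 2)])
              (.br 21 0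
               (.fk [(5, 3), (6, -1), (7, 1), (8, -1)])
               (.mv 23)))
             (.br 10 0
              (.br 8 0
               (.br 4 0
                (.fk [(1, 14), (2, 2), (3, 5), (4, 1), (5, 4), (6, 1), (8, -1), (17, -1), (18, 4)])
                (.br 25 0
                 (.fk [(6, 1)])
                 (.mv 24)))
               (.br 0 0
                (.br 4 0
                 (.fk [(0, 5), (1, 36), (2, 7), (3, 9), (4, 5), (5, 10), (6, 8), (7, -1), (8, 2), (10, 1), (13, 2), (17, -7), (18, 10)])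
                 (.br 25 0
                  (.fk [(6, 1)])
                  (.mv 24)))
                (.mv 15)))
              (.mv 11)))
            (.mv 21)))
          (.mv 13))
         (.br 4 0
          (.fk [(0, 1), (1, 6), (2, 1), (3, 1), (4, 1), (5, 2), (6, 1), (17, -1), (18, 2)])
          (.br 13 0
           (.br 16 0
            (.br 21 0
             (.br 2 0
              (.fk [(5, 3), (6, -3), (7, 1), (8, -1)])
              (.br 10 0
               (.br 25 0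
                (.br 26 0
                 (.fk [(6, 1)])
                 (.mv 55))
                (.mv 24))
               (.mv 11)))
             (.mv 31))
            (.mv 18))
           (.mv 13))))
        (.br 29 0
         (.br 26 0
          (.br 13 0
           (.br 2 0
            (.br 28 0
             (.br 16 0
              (.br 25 0
               (.fk [(6, 1)])
               (.br 1 0
                (.br 12 0
                 (.fk [(0, 12), (1, -12), (3, 15), (4, -5), (5, -2), (6, -3), (7, 4), (8, -3), (9, 2), (10, 2), (17, -1), (18, 4)])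
                 (.mv 25))
                (.mv 88)))
              (.br 11 0
               (.br 4 0
                (.fk [(1, 12), (2, 4), (3, 2), (4, 2), (5, 1), (6, 3), (7, -1), (8, 1), (10, 2), (17, -2), (18, 2)])
                (.br 25 0
                 (.fk [(6, 1)])
                 (.mv 24)))
               (.mv 18)))
             (.br 25 0
              (.fk [(6, 1)])
              (.mv 17)))
            (.br 10 0
             (.br 18 1
              (.br 28 0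
               (.fk [(0, -16), (1, -12), (2, -4), (3, -7), (4, -3), (6, -3), (7, 8), (8, 1), (13, 8), (17, -5), (18, 8)])
               (.br 25 0
                (.fk [(6, 1)])
                (.mv 17)))
              (.mv 91))
             (.mv 11)))
           (.mv 13))
          (.mv 4))
         (.mv 5))))
      (.mv 1))
     (.br 11 0
      (.br 16 0
       (.br 13 0
        (.br 25 0
         (.br 8 0
          (.br 24 0
           (.br 31 0
            (.fk [(0, 16), (1, -40), (2, -40), (3, -8), (4, -8), (5, 11), (6, 3), (7, 5), (8, 7), (10, -32), (11, 18), (13, 18), (17, -4), (18, 4)])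
            (.mv 16))
           (.mv 1))
          (.br 24 0
           (.br 0 0
            (.fk [(5, -3), (6, 3), (7, -1), (8, 1)])
            (.mv 15))
           (.mv 1)))
         (.br 28 0
          (.br 4 0
           (.br 9 0
            (.fk [(0, 10), (1, 40), (2, 14), (3, 20), (4, 4), (6, 10), (7, -3), (8, 2), (9, 7), (10, 5), (17, -7), (18, 12)])
            (.mv 33))
           (.mv 24))
          (.mv 17)))
        (.br 24 0
         (.br 18 0
          (.br 31 0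
           (.fk [(0, 8), (1, -18), (2, -22), (3, -4), (4, -4), (5, 6), (6, -10), (7, 2), (8, 5), (9, 3), (10, -14), (11, 8), (12, 3), (13, 6), (17, -3), (18, 6)])
           (.mv 16))
          (.mv 13))
         (.mv 1)))
       (.mv 2))
      (.mv 10)))
    (.br 24 0
     (.br 18 0
      (.br 13 0
       (.br 16 0
        (.br 11 0
         (.fk [(3, 3), (4, -1), (5, -3), (7, 3), (13, 6), (17, -3), (18, 6)])
         (.br 20 0
          (.br 25 0
           (.fk [(3, -15), (4, 5), (5, -6), (6, 3), (7, 6), (8, 3), (11, 6), (13, 12), (17, -9), (18, 18)])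
           (.mv 26))
          (.mv 10)))
        (.br 20 0
         (.br 11 0
          (.br 4 0
           (.fk [(0, 2), (1, 10), (2, 4), (3, 2), (4, 2), (5, 2), (6, 2), (7, -1), (8, 1), (10, 1), (12, 1), (17, -2), (18, 2)])
           (.mv 49))
          (.mv 18))
         (.mv 2)))
       (.mv 9))
      (.mv 8))
     (.mv 1)))
   (.mv 0))
  (.br 25 0
   (.br 3 0
    (.br 4 0
     (.br 11 0
      (.br 8 0
       (.br 16 0
        (.br 20 0
         (.br 18 0
          (.fk [(0, -6), (1, 20), (2, 2), (3, 8), (5, 5), (6, -7), (7, 4), (8, 3), (13, 15), (17, -9), (18, 15)])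
          (.br 24 0
           (.br 22 0
            (.br 13 0
             (.br 12 0
              (.fk [(3, 3), (4, -1), (5, 1), (7, 1), (13, 2), (17, -1), (18, 2)])
              (.br 21 0
               (.fk [(0, 2), (1, 12), (2, 2), (3, 2), (4, 2), (5, 5), (6, -1), (8, 1), (13, 3), (17, -3), (18, 3)])
               (.mv 23)))
             (.mv 13))
            (.mv 8))
           (.mv 1)))
         (.br 13 0
          (.br 31 0
           (.fk [(0, 2), (1, -10), (2, -8), (3, -2), (4, -2), (5, 2), (6, -4), (7, 1), (8, 1), (10, -6), (11, 3), (13, 3)])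
           (.mv 16))
          (.mv 53)))
        (.br 20 0
         (.br 22 0
          (.br 24 0
           (.br 12 0
            (.fk [(1, 12), (2, 4), (3, 5), (4, 1), (5, 2), (6, -1), (8, 1), (10, 2), (13, 2), (17, -3), (18, 4)])
            (.mv 59))
           (.mv 1))
          (.mv 51))
         (.mv 2)))
       (.br 0 0
        (.br 1 0
         (.fk [(0, 40), (1, 36), (2, 4), (3, 28), (4, 4), (5, 7), (6, 1), (7, -3), (8, 3), (9, 6), (17, -10), (18, 22)])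
         (.mv 47))
        (.mv 15)))
      (.br 16 0
       (.br 20 0
        (.br 24 0
         (.br 1 0
          (.br 22 0
           (.br 8 0
            (.br 18 0
             (.fk [(3, -3), (4, 1), (5, 1), (7, 1), (13, 2), (17, -1), (18, 2)])
             (.br 9 0
              (.fk [(0, 142), (1, 52), (2, 318), (3, 67), (4, 63), (5, 81), (6, 91), (7, 10), (8, -44), (12, 14), (13, 77), (17, -30), (18, 91)])
              (.br 13 0
               (.br 2 0
                (.fk [(0, 38), (1, 4), (2, 6), (3, 6), (4, 6), (5, 1), (6, 9), (7, 8), (8, -5), (13, 9), (17, -9), (18, 9)])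
                (.mv 30))
               (.mv 13))))
            (.br 0 0
             (.fk [(0, 4), (1, 4), (3, 1), (4, 1), (5, 2), (6, 1), (9, 1), (13, 1), (17, -1), (18, 2)])
             (.mv 15)))
           (.br 31 0
            (.br 18 0
             (.fk [(0, 4), (2, -4), (3, -3), (4, 1), (5, 2), (6, -1), (7, 2), (8, 1), (9, 1), (10, -3), (11, 2), (13, 5), (17, -3), (18, 5)])
             (.mv 8))
            (.mv 60)))
          (.br 9 0
           (.br 8 0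
            (.fk [(0, -2), (1, -2), (2, 36), (3, -5), (4, 7), (5, 7), (6, 10), (7, 6), (8, 3), (11, 15), (13, 21), (17, -13), (18, 36)])
            (.mv 47))
           (.mv 7)))
         (.mv 1))
        (.mv 10))
       (.mv 18)))
     (.mv 3))
    (.mv 0))
   (.mv 14)))

def EB31_0_3_0 : Inst where
  rows :=
   [(false, [1, 1, 1, 0, 0, 0, 0, 0, 0, 0, 0, 0, 0, 0, 0, 0, 0, 0, 0, 0, 0, 0, 0, 0, 0, 0, 0, 0, 0, 0, 0, 0, 0, -1, 0], 0),
    (false, [0, 0, 0, 1, 1, 1, 0, 0, 0, 0, 0, 0, 0, 0, 0, 0, 0, 0, 0, 0, 0, 0, 0, 0, 0, 0, 0, 0, 0, 0, 0, 0, 0, -1, 0], 0),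
    (false, [0, 0, 0, 0, 0, 0, 1, 1, 1, 1, 1, 0, 0, 0, 0, 0, 0, 0, 0, 0, 0, 0, 0, 0, 0, 0, 0, 0, 0, 0, 0, 0, 0, -1, 0], 1),
    (false, [0, 0, 0, 0, 0, 0, 0, 0, 0, 0, 0, 1, 1, 1, 0, 0, 0, 0, 0, 0, 0, 0, 0, 0, 0, 0, 0, 0, 0, 0, 0, 0, 0, 0, -1], 1),
    (false, [0, 0, 0, 0, 0, 0, 0, 0, 0, 0, 0, 0, 0, 0, 1, 1, 1, 1, 1, 0, 0, 0, 0, 0, 0, 0, 0, 0, 0, 0, 0, 0, 0, 0, -3], 0),
    (false, [0, 0, 0, 0, 0, 0, 0, 0, 0, 0, 0, 0, 0, 0, 0, 0, 0, 0, 0, 1, 1, 1, 1, 0, 0, 0, 0, 0, 0, 0, 0, 0, 0, 0, 0], 2),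
    (false, [0, 0, 0, 0, 0, 0, 0, 0, 0, 0, 0, 0, 0, 0, 0, 0, 0, 0, 0, 0, 0, 0, 0, 1, 1, 1, 1, 0, 0, 0, 0, 0, 0, 0, 0], 2),
    (false, [0, 1, 4, 0, 1, 4, 4, 1, 0, 1, 4, 0, 1, 4, 4, 1, 0, 1, 4, 1, 0, 1, 4, 1, 0, 1, 4, 0, 1, 4, 0, 0, 0, -8, -4], 8),
    (false, [4, 1, 0, 4, 1, 0, 4, 1, 0, 1, 4, 4, 1, 0, 4, 1, 0, 1, 4, 4, 1, 0, 1, 4, 1, 0, 1, 0, 1, 4, 0, 0, 0, -8, -4], 8),
    (false, [-1, -1, -1, -1, -1, -1, 1, 1, 1, 1, 1, -1, -1, -1, 1, 1, 1, 1, 1, 0, 0, 0, 0, 0, 0, 0, 0, 1, 1, 1, -1, 0, 0, 0, 0], 0),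
    (false, [1, 1, 1, -1, -1, -1, -1, -1, -1, -1, -1, 0, 0, 0, 0, 0, 0, 0, 0, 1, 1, 1, 1, 0, 0, 0, 0, 1, 1, 1, 0, -1, 0, 0, 0], 0),
    (false, [-1, 0, 1, -1, 0, 1, -1, 0, 1, 0, -1, -1, 0, 1, -1, 0, 1, 0, -1, -1, 0, 1, 0, -1, 0, 1, 0, 1, 0, -1, 0, 0, -1, 0, 0], 0),
    (true, [-1, -1, -1, 1, 1, 1, -1, -1, -1, -1, -1, 0, 0, 0, 0, 0, 0, 0, 0, 0, 0, 0, 0, 1, 1, 1, 1, 1, 1, 1, 0, 0, 0, 0, 0], 0),
    (true, [1, 0, -1, 1, 0, -1, -1, 0, 1, 0, -1, 1, 0, -1, -1, 0, 1, 0, -1, 0, 1, 0, -1, 0, 1, 0, -1, 1, 0, -1, 0, 0, 0, 0, 0], 0),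
    (true, [4, 1, 0, 0, 1, 4, 16, 9, 4, 1, 0, 1, 0, 1, 9, 4, 1, 0, 1, 4, 1, 0, 1, 1, 0, 1, 4, 0, 1, 4, 0, 0, 0, 0, 0], 1),
    (true, [0, 0, 0, 0, 0, 0, 0, 0, 0, 0, 0, 0, 0, 0, 0, 0, 0, 0, 0, 0, 0, 0, 0, 0, 0, 0, 0, 0, 0, 0, 0, 0, 0, 1, 0], 0),
    (true, [0, 0, 0, 0, 0, 0, 0, 0, 0, 0, 0, 0, 0, 0, 0, 0, 0, 0, 0, 0, 0, 0, 0, 0, 0, 0, 0, 0, 0, 0, 0, 0, 0, 0, 1], 0),
    (false, [4, 1, 0, 0, 1, 4, 16, 9, 4, 1, 0, 1, 0, 1, 9, 4, 1, 0, 1, 4, 1, 0, 1, 1, 0, 1, 4, 0, 1, 4, 0, 0, 0, -8, -4], 7),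
    (true, [1, 0, -1, -1, 0, 1, 0, 0, 1, 0, -1, 0, -1, 0, 0, 1, 0, -1, 0, 1, 0, -1, 0, 0, -1, 0, 1, -1, 0, 1, 0, 0, 0, 0, 0], 1)]
  moves := EB31_moves0
  reqs := EB31_reqs0
  tree := EB31_0_3_0_tree

theorem EB31_0_3_0_ok : EB31.instOK 0 3 0 EB31_0_3_0 = true := by
  decide +kernel

theorem EB31_ok0 : ∀ b ∈ EB31.branches, ∃ I : Inst, EB31.instOK 0 b.1 b.2 I = true := by
  intro b hb
  have h : b = (0, 0) ∨ b = (1, 0) ∨ b = (2, 0) ∨ b = (3, 0) := by
    have hb2 : b ∈ [(0, 0), (1, 0), (2, 0), (3, 0)] := hb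
    simpa using hb2
  rcases h with rfl | rfl | rfl | rfl
  · exact ⟨EB31_0_0_0, EB31_0_0_0_ok⟩
  · exact ⟨EB31_0_1_0, EB31_0_1_0_ok⟩
  · exact ⟨EB31_0_2_0, EB31_0_2_0_ok⟩
  · exact ⟨EB31_0_3_0, EB31_0_3_0_ok⟩

def EB31_moves1 : List Move :=
   [([((0, 1, 0), -1)], 0),
    ([((0, 2, 0), -2)], 0),
    ([((2, 2, 1), 0), ((2, 0, 1), 2)], 0),
    ([((1, 2, 2), 0), ((1, 0, 2), 2)], 0),
    ([((0, 2, 1), -1), ((0, 1, -1), -2)], 0),
    ([((0, 1, -1), 0), ((0, 0, 1), -1)], 0),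
    ([((0, 1, -1), -1), ((0, 1, 1), -1)], 0),
    ([((1, 2, 1), 0), ((1, 0, 1), 2)], 0),
    ([((1, 2, 0), 0), ((1, 0, 0), 2)], 0),
    ([((0, 2, 2), 0), ((0, 0, 2), 2)], 0),
    ([((1, 0, 2), 1), ((1, 1, 2), 0)], 0),
    ([((2, 2, 0), 0), ((2, 0, 0), 2)], 0),
    ([((0, 2, 2), 1), ((0, 1, 2), 2)], 0),
    ([((0, 2, 1), 0), ((0, 0, 1), 2)], 0),
    ([((1, 0, 0), 1), ((1, 1, 0), 0)], 0),
    ([((1, 2, 1), 1), ((1, 1, 1), 2)], 0),
    ([((0, 1, 2), 0), ((0, 0, 2), 1)], 0),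
    ([((1, 0, 1), 1), ((1, 1, 1), 0)], 0),
    ([((1, 2, 0), 1), ((1, 1, 0), 2)], 0),
    ([((0, 2, 1), 1), ((0, 1, 1), 2)], 0),
    ([((1, 2, 2), 1), ((1, 1, 2), 2)], 0),
    ([((2, 2, 2), 0), ((2, 0, 2), 2)], 0),
    ([((1, 0, -1), 1), ((1, 1, -1), 0)], 0),
    ([((0, 1, 1), 0), ((0, 0, 1), 1)], 0),
    ([((1, 2, 1), 1), ((0, 1, 2), 0), ((0, 1, 2), 2)], 1),
    ([((0, 2, 1), 0), ((1, 0, 2), 2), ((1, 1, 1), -1)], 0),
    ([((1, 2, 2), 0), ((1, 0, 1), 2), ((0, 1, -1), -1)], 0),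
    ([((2, 2, 2), 0), ((2, 0, 1), 2), ((0, 1, -1), -1)], 0),
    ([((1, 2, 0), 0), ((1, 0, -1), 1), ((1, 1, 1), 2)], 0),
    ([((2, 0, -1), 1), ((1, 1, 0), -1), ((0, 1, -1), 0)], 0),
    ([((2, 0, -1), 1), ((1, 1, -1), -1), ((0, 1, 1), 0)], 0),
    ([((1, 0, 2), 1), ((1, 1, 0), 0), ((0, 1, 1), -1)], 0),
    ([((0, 2, 1), 0), ((1, 0, 1), 2), ((1, 1, 0), -1)], 0),
    ([((0, 2, 2), 0), ((1, 0, 1), 2), ((1, 1, -1), -1)], 0),
    ([((1, 0, 0), 1), ((1, 1, 2), 0), ((0, 1, -1), -1)], 0),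
    ([((1, 2, 0), 1), ((1, 1, 2), 2), ((0, 1, 1), -1)], 0),
    ([((2, 0, 2), 1), ((1, 1, 0), -1), ((0, 1, 2), 0)], 0),
    ([((0, 2, 1), 0), ((1, 0, 0), 2), ((1, 1, -1), -1)], 0),
    ([((2, 2, 1), 0), ((2, 0, 2), 2), ((0, 1, 1), -1)], 0),
    ([((2, 2, 1), 1), ((1, 0, 0), 2), ((0, 1, -1), 0)], 0),
    ([((0, 2, 1), 0), ((1, 0, 0), -1), ((1, 1, 2), 2)], 0),
    ([((2, 0, -1), 1), ((1, 2, 0), 0), ((0, 1, 1), 2)], 0),
    ([((2, 2, 0), 1), ((1, 0, 1), 2), ((0, 1, 2), 0)], 0),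
    ([((2, 0, 2), 2), ((1, 2, 2), 0), ((1, 1, 0), -1)], 0),
    ([((2, 2, 1), 0), ((2, 0, 0), 2), ((0, 1, -1), -1)], 0),
    ([((2, 0, -1), 1), ((1, 2, 1), 0), ((0, 1, -1), -2)], 0),
    ([((1, 0, -1), 1), ((1, 1, 1), 0), ((0, 1, -1), -1)], 0),
    ([((1, 0, 1), 1), ((1, 1, -1), 0), ((0, 1, 1), -1)], 0),
    ([((2, 0, 2), 1), ((1, 2, 2), 0), ((0, 1, 2), 2)], 0),
    ([((2, 0, 1), 2), ((1, 2, 2), 0), ((1, 1, -1), -1)], 0),
    ([((2, 0, 1), 2), ((1, 2, 0), 0), ((1, 1, 1), -1)], 0),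
    ([((1, 2, 2), 1), ((1, 1, 0), 2), ((0, 1, -1), -1)], 0),
    ([((2, 0, 1), 2), ((1, 2, 0), -1), ((1, 1, 2), 0)], 0),
    ([((1, 2, 0), 0), ((1, 0, 1), 2), ((0, 1, 1), -1)], 0),
    ([((2, 0, 1), 1), ((1, 2, 2), 0), ((0, 1, -1), -2)], 0),
    ([((2, 0, 0), 1), ((1, 1, -1), -1), ((0, 1, 2), 0)], 0),
    ([((1, 2, 1), 0), ((1, 0, 0), 2), ((0, 1, -1), -1)], 0),
    ([((0, 2, 1), 0), ((0, 1, 2), 2), ((0, 0, 0), -1)], 0),
    ([((2, 2, 2), 1), ((1, 0, 2), 2), ((0, 1, 2), 0)], 0),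
    ([((2, 0, 1), 2), ((1, 2, 1), 0), ((1, 1, 0), -1)], 0),
    ([((2, 0, 1), 1), ((1, 2, 1), 0), ((0, 1, 1), 2)], 0),
    ([((2, 0, 1), 2), ((1, 2, 1), -1), ((1, 1, -1), 0)], 0),
    ([((1, 2, 1), 0), ((1, 0, 2), 1), ((1, 1, 0), 2)], 0),
    ([((2, 2, 0), 0), ((2, 0, 1), 2), ((0, 1, 1), -1)], 0),
    ([((2, 0, 1), 1), ((1, 1, 1), -1), ((0, 1, -1), 0)], 0),
    ([((2, 0, 0), 2), ((1, 2, 1), 0), ((1, 1, -1), -1)], 0),
    ([((1, 2, 0), 1), ((1, 0, 1), 2), ((1, 1, 2), 0)], 0),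
    ([((1, 2, 1), 1), ((1, 0, 0), 2), ((1, 1, -1), 0)], 0),
    ([((2, 0, 1), 1), ((1, 1, 0), -1), ((0, 1, 1), 0)], 0),
    ([((2, 0, 0), 1), ((1, 2, 1), 0), ((0, 1, 2), 2)], 0),
    ([((1, 1, 1), 0)], 1),
    ([((1, 2, 1), 0), ((1, 0, 0), 1), ((1, 1, 2), 2)], 0),
    ([((0, 2, 1), 0), ((1, 2, 0), 0), ((1, 0, 1), 2), ((0, 0, 0), -2)], 0),
    ([((0, 2, 1), -1), ((1, 2, 0), 1), ((1, 1, 1), 2), ((0, 1, 2), 2)], 0),
    ([((0, 2, 1), 0), ((1, 2, 0), 1), ((1, 1, 2), 2), ((0, 0, 0), -2)], 0),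
    ([((2, 0, 0), 2), ((1, 2, 0), 0), ((1, 1, -1), -1), ((0, 1, 1), -1)], 0),
    ([((2, 0, -1), 1), ((1, 1, 1), -1), ((0, 1, -1), -1), ((0, 1, -1), 0)], 0),
    ([((2, 0, 0), 2), ((1, 2, 0), 0), ((1, 2, 0), 0), ((0, 0, 0), -2)], 0),
    ([((2, 0, 0), 2), ((1, 2, 0), 0), ((1, 0, 1), -1), ((1, 1, -1), 0)], 0),
    ([((2, 0, 0), 2), ((1, 2, 0), 0), ((1, 1, 1), -1), ((0, 1, -1), -1)], 0),
    ([((2, 0, 0), 2), ((1, 2, 0), -1), ((1, 1, 2), 0), ((0, 1, -1), -1)], 0),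
    ([((2, 0, 0), 1), ((1, 2, 0), -1), ((1, 1, 2), 2), ((0, 1, 2), 0)], 0),
    ([((2, 0, -1), 1), ((1, 2, 0), 1), ((1, 1, 2), 0), ((0, 1, -1), -2)], 0),
    ([((2, 0, -1), 1), ((1, 0, -2), -1), ((1, 1, 0), 0), ((0, 1, 1), 0)], 0),
    ([((2, 0, 0), 1), ((1, 2, 1), 1), ((1, 1, 0), 0), ((0, 1, 1), 2)], 0),
    ([((2, 0, 0), 1), ((1, 2, 1), -1), ((1, 1, 2), 2), ((0, 1, -1), 0)], 0),
    ([((0, 2, 2), 1), ((1, 2, 1), 1), ((1, 1, 0), 2), ((0, 1, -1), -2)], 0),
    ([((0, 2, 2), 0), ((2, 0, -1), 1), ((1, 1, -1), -1), ((0, 1, -1), -2)], 0),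
    ([((0, 2, 2), 0), ((2, 0, 2), 2), ((1, 1, 0), -1), ((1, 1, 0), -1)], 0),
    ([((0, 2, 2), 1), ((1, 0, 1), 1), ((1, 1, 0), 0), ((0, 1, 1), 2)], 0),
    ([((2, 2, 1), 0), ((2, 0, 0), 1), ((1, 0, 2), 2), ((0, 1, 2), 0)], 0),
    ([((2, 2, 1), 1), ((0, 2, 2), 0), ((1, 0, 1), 2), ((0, 1, -1), -2)], 0),
    ([((2, 2, 1), 1), ((2, 0, 0), 2), ((1, 2, 0), 0), ((0, 1, 1), 2)], 0),
    ([((2, 2, 2), 1), ((2, 0, -1), 1), ((0, 1, -1), 0), ((0, 1, 2), 2)], 0),
    ([((2, 2, 2), 1), ((0, 2, 1), 0), ((1, 0, 1), 2), ((0, 1, 2), 2)], 0),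
    ([((2, 2, 2), 0), ((2, 0, 0), 2), ((1, 2, 0), 0), ((1, 0, 2), 2)], 0),
    ([((2, 2, 2), 0), ((2, 0, 0), 2), ((0, 1, -1), -1), ((0, 1, -1), -1)], 0),
    ([((2, 2, 0), 0), ((2, 2, 2), 0), ((2, 0, 1), 2), ((2, 0, 1), 2)], 0),
    ([((2, 2, 0), 1), ((0, 2, 1), 0), ((1, 0, 0), 2), ((0, 1, 2), 2)], 0),
    ([((2, 2, 0), 0), ((0, 2, 2), 0), ((2, 0, 2), 2), ((0, 0, 0), -2)], 0),
    ([((2, 2, 0), 1), ((2, 0, 2), 2), ((1, 1, 1), -1), ((0, 1, 2), 0)], 0),
    ([((2, 2, 0), 0), ((2, 0, 1), 2), ((1, 2, 2), 1), ((1, 1, 0), 2)], 0),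
    ([((2, 2, 0), 1), ((2, 0, 1), 2), ((1, 1, 0), -1), ((0, 1, 2), 0)], 0),
    ([((2, 2, 0), 0), ((2, 0, 2), 2), ((0, 1, 1), -1), ((0, 1, 1), -1)], 0),
    ([((2, 2, 2), 1), ((1, 0, 1), 1), ((1, 1, 0), 2), ((0, 1, -1), 0)], 0),
    ([((2, 2, 2), 1), ((1, 0, 1), 2), ((0, 1, -1), -1), ((0, 1, 2), 0)], 0),
    ([((1, 2, 1), 1), ((1, 1, 0), 0), ((1, 1, 0), 2)], 1),
    ([((1, 2, 2), 0), ((1, 0, 0), 2), ((0, 1, -1), -1), ((0, 1, -1), -1)], 0),
    ([((1, 2, 1), 1), ((1, 1, 2), 0), ((1, 1, 2), 2)], 1),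
    ([((1, 2, 1), 1), ((0, 1, 1), 0), ((0, 1, 1), 2)], 1),
    ([((1, 2, 1), 1), ((1, 0, -1), -1), ((1, 0, -1), 1)], 1),
    ([((1, 2, 0), 1), ((0, 1, 1), 2), ((0, 1, 2), 0)], 1),
    ([((1, 2, 0), 0), ((1, 0, 1), 2), ((0, 1, 2), 0), ((0, 0, 0), -1)], 0),
    ([((1, 2, 0), 0), ((1, 0, 2), 2), ((0, 1, 1), -1), ((0, 1, 1), -1)], 0),
    ([((1, 2, 0), 1), ((1, 1, 2), 2), ((0, 1, 2), 0), ((0, 0, 0), -1)], 0),
    ([((1, 1, -1), 0), ((0, 1, 1), -1)], 1),
    ([((1, 1, 0), 0), ((1, 1, 1), 2), ((0, 1, -1), 0), ((0, 1, 2), 0)], 0),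
    ([((1, 1, 0), 2), ((1, 1, 2), 0), ((0, 1, -1), 0), ((0, 1, -1), 0)], 0),
    ([((1, 0, 1), 1), ((1, 1, -1), -1), ((0, 1, 2), 0), ((0, 1, 2), 0)], 1),
    ([((2, 0, 2), 2), ((1, 2, 0), 0), ((1, 1, 1), -1), ((0, 1, 1), -1)], 0),
    ([((2, 0, 2), 2), ((1, 2, 1), 0), ((1, 1, 0), -1), ((0, 1, 1), -1)], 0),
    ([((2, 0, 2), 1), ((1, 2, 1), -1), ((1, 1, 0), 2), ((0, 1, -1), 0)], 0),
    ([((2, 0, 1), 1), ((1, 2, 1), 0), ((0, 1, -1), 0), ((0, 0, 0), -2)], 0),
    ([((2, 0, 2), 1), ((1, 2, 0), 0), ((0, 1, 2), 0), ((0, 0, 0), -2)], 0)]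

def EB31_reqs1 : List (List ℤ) :=
   [[0, 0, 0, 0, 0, 0, 0, 0, 0, 0, 0, 0, 0, 0, 0, 0, 0, 0, 0, 0, 0, 0, 0, 0, 1, 0, 0, 0, 0, 0, 0, 0, 0, 0, 0],
    [0, 0, 0, 1, 0, 0, 0, 0, 0, 0, 0, 0, 0, 0, 0, 0, 0, 0, 0, 0, 0, 0, 0, 0, 0, 0, 0, 0, 0, 0, 0, 0, 0, 0, 0],
    [0, 1, 0, 0, 0, 0, 0, 0, 0, 1, 0, 0, 0, 0, 0, 0, 0, 0, 0, 0, 0, 0, 0, 0, 0, 0, 0, 0, 0, 0, 0, 0, 0, 0, 0],
    [0, 0, 0, 0, 0, 0, 0, 0, 0, 0, 0, 0, 0, 1, 0, 0, 0, 0, 1, 0, 0, 0, 0, 0, 0, 0, 0, 0, 0, 0, 0, 0, 0, 0, 0],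
    [0, 0, 0, 0, 1, 0, 0, 0, 0, 0, 0, 0, 0, 0, 0, 0, 0, 0, 0, 0, 0, 0, 0, 1, 0, 0, 0, 0, 0, 0, 0, 0, 0, 0, 0],
    [0, 0, 0, 0, 0, 0, 0, 0, 0, 0, 0, 0, 0, 0, 0, 0, 0, 0, 0, 0, 0, 0, 0, 1, 0, 0, 0, 0, 1, 0, 0, 0, 0, 0, 0],
    [0, 0, 0, 0, 0, 0, 0, 0, 0, 0, 0, 0, 0, 0, 0, 0, 0, 0, 0, 0, 0, 0, 0, 1, 0, 1, 0, 0, 0, 0, 0, 0, 0, 0, 0],
    [0, 0, 0, 0, 0, 0, 0, 0, 0, 0, 0, 0, 1, 0, 0, 0, 0, 1, 0, 0, 0, 0, 0, 0, 0, 0, 0, 0, 0, 0, 0, 0, 0, 0, 0],
    [0, 0, 0, 0, 0, 0, 0, 0, 0, 0, 0, 1, 0, 0, 0, 0, 1, 0, 0, 0, 0, 0, 0, 0, 0, 0, 0, 0, 0, 0, 0, 0, 0, 0, 0],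
    [0, 0, 0, 0, 0, 1, 0, 0, 0, 0, 0, 0, 0, 0, 0, 0, 0, 0, 0, 0, 0, 0, 0, 0, 0, 0, 0, 0, 0, 1, 0, 0, 0, 0, 0],
    [0, 0, 0, 0, 0, 0, 0, 0, 0, 0, 0, 0, 0, 0, 0, 0, 0, 0, 1, 0, 0, 0, 1, 0, 0, 0, 0, 0, 0, 0, 0, 0, 0, 0, 0],
    [1, 0, 0, 0, 0, 0, 0, 0, 1, 0, 0, 0, 0, 0, 0, 0, 0, 0, 0, 0, 0, 0, 0, 0, 0, 0, 0, 0, 0, 0, 0, 0, 0, 0, 0],
    [0, 0, 0, 0, 0, 1, 0, 0, 0, 0, 0, 0, 0, 0, 0, 0, 0, 0, 0, 0, 0, 0, 0, 0, 0, 0, 1, 0, 0, 0, 0, 0, 0, 0, 0],
    [0, 0, 0, 0, 1, 0, 0, 0, 0, 0, 0, 0, 0, 0, 0, 0, 0, 0, 0, 0, 0, 0, 0, 0, 0, 0, 0, 0, 1, 0, 0, 0, 0, 0, 0],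
    [0, 0, 0, 0, 0, 0, 0, 0, 0, 0, 0, 0, 0, 0, 0, 0, 1, 0, 0, 0, 1, 0, 0, 0, 0, 0, 0, 0, 0, 0, 0, 0, 0, 0, 0],
    [0, 0, 0, 0, 0, 0, 0, 0, 0, 0, 0, 0, 1, 0, 0, 0, 0, 0, 0, 0, 0, 1, 0, 0, 0, 0, 0, 0, 0, 0, 0, 0, 0, 0, 0],
    [0, 0, 0, 0, 0, 0, 0, 0, 0, 0, 0, 0, 0, 0, 0, 0, 0, 0, 0, 0, 0, 0, 0, 0, 0, 0, 1, 0, 0, 1, 0, 0, 0, 0, 0],
    [0, 0, 0, 0, 0, 0, 0, 0, 0, 0, 0, 0, 0, 0, 0, 0, 0, 1, 0, 0, 0, 1, 0, 0, 0, 0, 0, 0, 0, 0, 0, 0, 0, 0, 0],
    [0, 0, 0, 0, 0, 0, 0, 0, 0, 0, 0, 1, 0, 0, 0, 0, 0, 0, 0, 0, 1, 0, 0, 0, 0, 0, 0, 0, 0, 0, 0, 0, 0, 0, 0],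
    [0, 0, 0, 0, 1, 0, 0, 0, 0, 0, 0, 0, 0, 0, 0, 0, 0, 0, 0, 0, 0, 0, 0, 0, 0, 1, 0, 0, 0, 0, 0, 0, 0, 0, 0],
    [0, 0, 0, 0, 0, 0, 0, 0, 0, 0, 0, 0, 0, 1, 0, 0, 0, 0, 0, 0, 0, 0, 1, 0, 0, 0, 0, 0, 0, 0, 0, 0, 0, 0, 0],
    [0, 0, 1, 0, 0, 0, 0, 0, 0, 0, 1, 0, 0, 0, 0, 0, 0, 0, 0, 0, 0, 0, 0, 0, 0, 0, 0, 0, 0, 0, 0, 0, 0, 0, 0],
    [0, 0, 0, 0, 0, 0, 0, 0, 0, 0, 0, 0, 0, 0, 0, 1, 0, 0, 0, 1, 0, 0, 0, 0, 0, 0, 0, 0, 0, 0, 0, 0, 0, 0, 0],
    [0, 0, 0, 0, 0, 0, 0, 0, 0, 0, 0, 0, 0, 0, 0, 0, 0, 0, 0, 0, 0, 0, 0, 0, 0, 1, 0, 0, 1, 0, 0, 0, 0, 0, 0],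
    [0, 0, 0, 0, 0, 0, 0, 0, 0, 0, 0, 0, 1, 0, 0, 0, 0, 0, 0, 0, 0, 0, 0, 0, 0, 0, 2, 0, 0, 0, 0, 0, 0, 0, 0],
    [0, 0, 0, 0, 1, 0, 0, 0, 0, 0, 0, 0, 0, 0, 0, 0, 0, 0, 1, 0, 0, 1, 0, 0, 0, 0, 0, 0, 0, 0, 0, 0, 0, 0, 0],
    [0, 0, 0, 0, 0, 0, 0, 0, 0, 0, 0, 0, 0, 1, 0, 0, 0, 1, 0, 0, 0, 0, 0, 1, 0, 0, 0, 0, 0, 0, 0, 0, 0, 0, 0],
    [0, 0, 1, 0, 0, 0, 0, 0, 0, 1, 0, 0, 0, 0, 0, 0, 0, 0, 0, 0, 0, 0, 0, 1, 0, 0, 0, 0, 0, 0, 0, 0, 0, 0, 0],
    [0, 0, 0, 0, 0, 0, 0, 0, 0, 0, 0, 1, 0, 0, 0, 1, 0, 0, 0, 0, 0, 1, 0, 0, 0, 0, 0, 0, 0, 0, 0, 0, 0, 0, 0],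
    [0, 0, 0, 0, 0, 0, 0, 1, 0, 0, 0, 0, 0, 0, 0, 0, 0, 0, 0, 0, 1, 0, 0, 1, 0, 0, 0, 0, 0, 0, 0, 0, 0, 0, 0],
    [0, 0, 0, 0, 0, 0, 0, 1, 0, 0, 0, 0, 0, 0, 0, 0, 0, 0, 0, 1, 0, 0, 0, 0, 0, 1, 0, 0, 0, 0, 0, 0, 0, 0, 0],
    [0, 0, 0, 0, 0, 0, 0, 0, 0, 0, 0, 0, 0, 0, 0, 0, 0, 0, 1, 0, 1, 0, 0, 0, 0, 1, 0, 0, 0, 0, 0, 0, 0, 0, 0],
    [0, 0, 0, 0, 1, 0, 0, 0, 0, 0, 0, 0, 0, 0, 0, 0, 0, 1, 0, 0, 1, 0, 0, 0, 0, 0, 0, 0, 0, 0, 0, 0, 0, 0, 0],
    [0, 0, 0, 0, 0, 1, 0, 0, 0, 0, 0, 0, 0, 0, 0, 0, 0, 1, 0, 1, 0, 0, 0, 0, 0, 0, 0, 0, 0, 0, 0, 0, 0, 0, 0],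
    [0, 0, 0, 0, 0, 0, 0, 0, 0, 0, 0, 0, 0, 0, 0, 0, 1, 0, 0, 0, 0, 0, 1, 1, 0, 0, 0, 0, 0, 0, 0, 0, 0, 0, 0],
    [0, 0, 0, 0, 0, 0, 0, 0, 0, 0, 0, 1, 0, 0, 0, 0, 0, 0, 0, 0, 0, 0, 1, 0, 0, 1, 0, 0, 0, 0, 0, 0, 0, 0, 0],
    [0, 0, 0, 0, 0, 0, 0, 0, 0, 0, 1, 0, 0, 0, 0, 0, 0, 0, 0, 0, 1, 0, 0, 0, 0, 0, 1, 0, 0, 0, 0, 0, 0, 0, 0],
    [0, 0, 0, 0, 1, 0, 0, 0, 0, 0, 0, 0, 0, 0, 0, 0, 1, 0, 0, 1, 0, 0, 0, 0, 0, 0, 0, 0, 0, 0, 0, 0, 0, 0, 0],
    [0, 1, 0, 0, 0, 0, 0, 0, 0, 0, 1, 0, 0, 0, 0, 0, 0, 0, 0, 0, 0, 0, 0, 0, 0, 1, 0, 0, 0, 0, 0, 0, 0, 0, 0],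
    [0, 1, 0, 0, 0, 0, 0, 0, 0, 0, 0, 0, 0, 0, 0, 0, 1, 0, 0, 0, 0, 0, 0, 1, 0, 0, 0, 0, 0, 0, 0, 0, 0, 0, 0],
    [0, 0, 0, 0, 1, 0, 0, 0, 0, 0, 0, 0, 0, 0, 0, 0, 1, 0, 0, 0, 0, 0, 1, 0, 0, 0, 0, 0, 0, 0, 0, 0, 0, 0, 0],
    [0, 0, 0, 0, 0, 0, 0, 1, 0, 0, 0, 1, 0, 0, 0, 0, 0, 0, 0, 0, 0, 0, 0, 0, 0, 1, 0, 0, 0, 0, 0, 0, 0, 0, 0],
    [1, 0, 0, 0, 0, 0, 0, 0, 0, 0, 0, 0, 0, 0, 0, 0, 0, 1, 0, 0, 0, 0, 0, 0, 0, 0, 1, 0, 0, 0, 0, 0, 0, 0, 0],
    [0, 0, 0, 0, 0, 0, 0, 0, 0, 0, 1, 0, 0, 1, 0, 0, 0, 0, 0, 0, 1, 0, 0, 0, 0, 0, 0, 0, 0, 0, 0, 0, 0, 0, 0],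
    [0, 1, 0, 0, 0, 0, 0, 0, 1, 0, 0, 0, 0, 0, 0, 0, 0, 0, 0, 0, 0, 0, 0, 1, 0, 0, 0, 0, 0, 0, 0, 0, 0, 0, 0],
    [0, 0, 0, 0, 0, 0, 0, 1, 0, 0, 0, 0, 1, 0, 0, 0, 0, 0, 0, 0, 0, 0, 0, 1, 0, 0, 0, 0, 0, 0, 0, 0, 0, 0, 0],
    [0, 0, 0, 0, 0, 0, 0, 0, 0, 0, 0, 0, 0, 0, 0, 1, 0, 0, 0, 0, 0, 1, 0, 1, 0, 0, 0, 0, 0, 0, 0, 0, 0, 0, 0],
    [0, 0, 0, 0, 0, 0, 0, 0, 0, 0, 0, 0, 0, 0, 0, 0, 0, 1, 0, 1, 0, 0, 0, 0, 0, 1, 0, 0, 0, 0, 0, 0, 0, 0, 0],
    [0, 0, 0, 0, 0, 0, 0, 0, 0, 0, 1, 0, 0, 1, 0, 0, 0, 0, 0, 0, 0, 0, 0, 0, 0, 0, 1, 0, 0, 0, 0, 0, 0, 0, 0],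
    [0, 0, 0, 0, 0, 0, 0, 0, 0, 1, 0, 0, 0, 1, 0, 0, 0, 0, 0, 1, 0, 0, 0, 0, 0, 0, 0, 0, 0, 0, 0, 0, 0, 0, 0],
    [0, 0, 0, 0, 0, 0, 0, 0, 0, 1, 0, 1, 0, 0, 0, 0, 0, 0, 0, 0, 0, 1, 0, 0, 0, 0, 0, 0, 0, 0, 0, 0, 0, 0, 0],
    [0, 0, 0, 0, 0, 0, 0, 0, 0, 0, 0, 0, 0, 1, 0, 0, 0, 0, 0, 0, 1, 0, 0, 1, 0, 0, 0, 0, 0, 0, 0, 0, 0, 0, 0],
    [0, 0, 0, 0, 0, 0, 0, 0, 0, 1, 0, 1, 0, 0, 0, 0, 0, 0, 0, 0, 0, 0, 1, 0, 0, 0, 0, 0, 0, 0, 0, 0, 0, 0, 0],
    [0, 0, 0, 0, 0, 0, 0, 0, 0, 0, 0, 1, 0, 0, 0, 0, 0, 1, 0, 0, 0, 0, 0, 0, 0, 1, 0, 0, 0, 0, 0, 0, 0, 0, 0],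
    [0, 0, 0, 0, 0, 0, 0, 0, 0, 1, 0, 0, 0, 1, 0, 0, 0, 0, 0, 0, 0, 0, 0, 1, 0, 0, 0, 0, 0, 0, 0, 0, 0, 0, 0],
    [0, 0, 0, 0, 0, 0, 0, 0, 1, 0, 0, 0, 0, 0, 0, 0, 0, 0, 0, 1, 0, 0, 0, 0, 0, 0, 1, 0, 0, 0, 0, 0, 0, 0, 0],
    [0, 0, 0, 0, 0, 0, 0, 0, 0, 0, 0, 0, 1, 0, 0, 0, 1, 0, 0, 0, 0, 0, 0, 1, 0, 0, 0, 0, 0, 0, 0, 0, 0, 0, 0],
    [0, 0, 0, 0, 1, 0, 0, 0, 0, 0, 0, 0, 0, 0, 0, 0, 0, 0, 0, 0, 0, 0, 0, 0, 0, 0, 1, 1, 0, 0, 0, 0, 0, 0, 0],
    [0, 0, 1, 0, 0, 0, 0, 0, 0, 0, 0, 0, 0, 0, 0, 0, 0, 0, 1, 0, 0, 0, 0, 0, 0, 0, 1, 0, 0, 0, 0, 0, 0, 0, 0],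
    [0, 0, 0, 0, 0, 0, 0, 0, 0, 1, 0, 0, 1, 0, 0, 0, 0, 0, 0, 0, 1, 0, 0, 0, 0, 0, 0, 0, 0, 0, 0, 0, 0, 0, 0],
    [0, 0, 0, 0, 0, 0, 0, 0, 0, 1, 0, 0, 1, 0, 0, 0, 0, 0, 0, 0, 0, 0, 0, 0, 0, 1, 0, 0, 0, 0, 0, 0, 0, 0, 0],
    [0, 0, 0, 0, 0, 0, 0, 0, 0, 1, 0, 0, 1, 0, 0, 0, 0, 0, 0, 1, 0, 0, 0, 0, 0, 0, 0, 0, 0, 0, 0, 0, 0, 0, 0],
    [0, 0, 0, 0, 0, 0, 0, 0, 0, 0, 0, 0, 1, 0, 0, 0, 0, 0, 1, 0, 1, 0, 0, 0, 0, 0, 0, 0, 0, 0, 0, 0, 0, 0, 0],
    [1, 0, 0, 0, 0, 0, 0, 0, 0, 1, 0, 0, 0, 0, 0, 0, 0, 0, 0, 0, 0, 0, 0, 0, 0, 1, 0, 0, 0, 0, 0, 0, 0, 0, 0],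
    [0, 0, 0, 0, 0, 0, 0, 0, 0, 1, 0, 0, 0, 0, 0, 0, 0, 0, 0, 0, 0, 1, 0, 1, 0, 0, 0, 0, 0, 0, 0, 0, 0, 0, 0],
    [0, 0, 0, 0, 0, 0, 0, 0, 1, 0, 0, 0, 1, 0, 0, 0, 0, 0, 0, 1, 0, 0, 0, 0, 0, 0, 0, 0, 0, 0, 0, 0, 0, 0, 0],
    [0, 0, 0, 0, 0, 0, 0, 0, 0, 0, 0, 1, 0, 0, 0, 0, 0, 1, 0, 0, 0, 0, 1, 0, 0, 0, 0, 0, 0, 0, 0, 0, 0, 0, 0],
    [0, 0, 0, 0, 0, 0, 0, 0, 0, 0, 0, 0, 1, 0, 0, 0, 1, 0, 0, 1, 0, 0, 0, 0, 0, 0, 0, 0, 0, 0, 0, 0, 0, 0, 0],
    [0, 0, 0, 0, 0, 0, 0, 0, 0, 1, 0, 0, 0, 0, 0, 0, 0, 0, 0, 0, 1, 0, 0, 0, 0, 1, 0, 0, 0, 0, 0, 0, 0, 0, 0],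
    [0, 0, 0, 0, 0, 0, 0, 0, 1, 0, 0, 0, 1, 0, 0, 0, 0, 0, 0, 0, 0, 0, 0, 0, 0, 0, 1, 0, 0, 0, 0, 0, 0, 0, 0],
    [0, 0, 0, 0, 0, 0, 0, 0, 0, 0, 0, 0, 0, 0, 0, 0, 0, 0, 0, 0, 0, 1, 0, 0, 0, 0, 0, 0, 0, 0, 0, 1, 1, 0, 0],
    [0, 0, 0, 0, 0, 0, 0, 0, 0, 0, 0, 0, 1, 0, 0, 0, 1, 0, 0, 0, 0, 0, 1, 0, 0, 0, 0, 0, 0, 0, 0, 0, 0, 0, 0],
    [0, 0, 0, 0, 1, 0, 0, 0, 0, 0, 0, 1, 0, 0, 0, 0, 0, 1, 0, 0, 0, 0, 0, 0, 0, 0, 0, 1, 0, 0, 0, 0, 0, 0, 0],
    [0, 0, 0, 0, 1, 0, 0, 0, 0, 0, 0, 1, 0, 0, 0, 0, 0, 0, 0, 0, 0, 1, 0, 0, 0, 0, 1, 0, 0, 0, 0, 0, 0, 0, 0],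
    [0, 0, 0, 0, 1, 0, 0, 0, 0, 0, 0, 1, 0, 0, 0, 0, 0, 0, 0, 0, 0, 0, 1, 0, 0, 0, 0, 1, 0, 0, 0, 0, 0, 0, 0],
    [0, 0, 0, 0, 0, 0, 0, 0, 1, 0, 0, 1, 0, 0, 0, 0, 0, 0, 0, 1, 0, 0, 0, 0, 0, 1, 0, 0, 0, 0, 0, 0, 0, 0, 0],
    [0, 0, 0, 0, 0, 0, 0, 1, 0, 0, 0, 0, 0, 0, 0, 0, 0, 0, 0, 0, 0, 1, 0, 2, 0, 0, 0, 0, 0, 0, 0, 0, 0, 0, 0],
    [0, 0, 0, 0, 0, 0, 0, 0, 1, 0, 0, 2, 0, 0, 0, 0, 0, 0, 0, 0, 0, 0, 0, 0, 0, 0, 0, 1, 0, 0, 0, 0, 0, 0, 0],
    [0, 0, 0, 0, 0, 0, 0, 0, 1, 0, 0, 1, 0, 0, 0, 0, 0, 1, 0, 1, 0, 0, 0, 0, 0, 0, 0, 0, 0, 0, 0, 0, 0, 0, 0],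
    [0, 0, 0, 0, 0, 0, 0, 0, 1, 0, 0, 1, 0, 0, 0, 0, 0, 0, 0, 0, 0, 1, 0, 1, 0, 0, 0, 0, 0, 0, 0, 0, 0, 0, 0],
    [0, 0, 0, 0, 0, 0, 0, 0, 1, 0, 0, 1, 0, 0, 0, 0, 0, 0, 0, 0, 0, 0, 1, 1, 0, 0, 0, 0, 0, 0, 0, 0, 0, 0, 0],
    [0, 0, 0, 0, 0, 0, 0, 0, 1, 0, 0, 1, 0, 0, 0, 0, 0, 0, 0, 0, 0, 0, 1, 0, 0, 0, 1, 0, 0, 0, 0, 0, 0, 0, 0],
    [0, 0, 0, 0, 0, 0, 0, 1, 0, 0, 0, 1, 0, 0, 0, 0, 0, 0, 0, 0, 0, 0, 1, 1, 0, 0, 0, 0, 0, 0, 0, 0, 0, 0, 0],
    [0, 0, 0, 0, 0, 0, 0, 1, 0, 0, 0, 0, 0, 0, 1, 0, 0, 0, 0, 0, 1, 0, 0, 0, 0, 1, 0, 0, 0, 0, 0, 0, 0, 0, 0],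
    [0, 0, 0, 0, 0, 0, 0, 0, 1, 0, 0, 0, 1, 0, 0, 0, 0, 0, 0, 0, 1, 0, 0, 0, 0, 1, 0, 0, 0, 0, 0, 0, 0, 0, 0],
    [0, 0, 0, 0, 0, 0, 0, 0, 1, 0, 0, 0, 1, 0, 0, 0, 0, 0, 0, 0, 0, 0, 1, 1, 0, 0, 0, 0, 0, 0, 0, 0, 0, 0, 0],
    [0, 0, 0, 0, 0, 1, 0, 0, 0, 0, 0, 0, 1, 0, 0, 0, 0, 0, 0, 0, 1, 0, 0, 1, 0, 0, 0, 0, 0, 0, 0, 0, 0, 0, 0],
    [0, 0, 0, 0, 0, 1, 0, 1, 0, 0, 0, 0, 0, 0, 0, 0, 0, 0, 0, 1, 0, 0, 0, 1, 0, 0, 0, 0, 0, 0, 0, 0, 0, 0, 0],
    [0, 0, 0, 0, 0, 1, 0, 0, 0, 0, 1, 0, 0, 0, 0, 0, 0, 0, 0, 0, 2, 0, 0, 0, 0, 0, 0, 0, 0, 0, 0, 0, 0, 0, 0],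
    [0, 0, 0, 0, 0, 1, 0, 0, 0, 0, 0, 0, 0, 0, 0, 0, 0, 1, 0, 0, 1, 0, 0, 0, 0, 1, 0, 0, 0, 0, 0, 0, 0, 0, 0],
    [0, 1, 0, 0, 0, 0, 0, 0, 1, 0, 0, 0, 0, 0, 0, 0, 0, 0, 1, 0, 0, 0, 0, 0, 0, 0, 1, 0, 0, 0, 0, 0, 0, 0, 0],
    [0, 1, 0, 0, 0, 1, 0, 0, 0, 0, 0, 0, 0, 0, 0, 0, 0, 1, 0, 0, 0, 0, 0, 1, 0, 0, 0, 0, 0, 0, 0, 0, 0, 0, 0],
    [0, 1, 0, 0, 0, 0, 0, 0, 1, 0, 0, 1, 0, 0, 0, 0, 0, 0, 0, 0, 0, 0, 0, 0, 0, 1, 0, 0, 0, 0, 0, 0, 0, 0, 0],
    [0, 0, 1, 0, 0, 0, 0, 1, 0, 0, 0, 0, 0, 0, 0, 0, 0, 0, 0, 0, 0, 0, 0, 1, 0, 0, 1, 0, 0, 0, 0, 0, 0, 0, 0],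
    [0, 0, 1, 0, 1, 0, 0, 0, 0, 0, 0, 0, 0, 0, 0, 0, 0, 1, 0, 0, 0, 0, 0, 0, 0, 0, 1, 0, 0, 0, 0, 0, 0, 0, 0],
    [0, 0, 1, 0, 0, 0, 0, 0, 1, 0, 0, 1, 0, 0, 0, 0, 0, 0, 1, 0, 0, 0, 0, 0, 0, 0, 0, 0, 0, 0, 0, 0, 0, 0, 0],
    [0, 0, 1, 0, 0, 0, 0, 0, 1, 0, 0, 0, 0, 0, 0, 0, 0, 0, 0, 0, 0, 0, 0, 2, 0, 0, 0, 0, 0, 0, 0, 0, 0, 0, 0],
    [1, 0, 1, 0, 0, 0, 0, 0, 0, 2, 0, 0, 0, 0, 0, 0, 0, 0, 0, 0, 0, 0, 0, 0, 0, 0, 0, 0, 0, 0, 0, 0, 0, 0, 0],
    [1, 0, 0, 0, 1, 0, 0, 0, 0, 0, 0, 0, 0, 0, 0, 0, 1, 0, 0, 0, 0, 0, 0, 0, 0, 0, 1, 0, 0, 0, 0, 0, 0, 0, 0],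
    [1, 0, 0, 0, 0, 1, 0, 0, 0, 0, 1, 0, 0, 0, 0, 0, 0, 0, 0, 0, 0, 0, 0, 0, 0, 0, 0, 1, 0, 0, 0, 0, 0, 0, 0],
    [1, 0, 0, 0, 0, 0, 0, 0, 0, 0, 1, 0, 0, 0, 0, 0, 0, 0, 0, 0, 0, 1, 0, 0, 0, 0, 1, 0, 0, 0, 0, 0, 0, 0, 0],
    [1, 0, 0, 0, 0, 0, 0, 0, 0, 1, 0, 0, 0, 1, 0, 0, 0, 0, 0, 0, 1, 0, 0, 0, 0, 0, 0, 0, 0, 0, 0, 0, 0, 0, 0],
    [1, 0, 0, 0, 0, 0, 0, 0, 0, 1, 0, 0, 0, 0, 0, 0, 0, 0, 0, 0, 1, 0, 0, 0, 0, 0, 1, 0, 0, 0, 0, 0, 0, 0, 0],
    [1, 0, 0, 0, 0, 0, 0, 0, 0, 0, 1, 0, 0, 0, 0, 0, 0, 0, 0, 0, 0, 0, 0, 0, 0, 2, 0, 0, 0, 0, 0, 0, 0, 0, 0],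
    [0, 0, 1, 0, 0, 0, 0, 0, 0, 0, 0, 0, 0, 0, 0, 0, 0, 1, 0, 0, 1, 0, 0, 1, 0, 0, 0, 0, 0, 0, 0, 0, 0, 0, 0],
    [0, 0, 1, 0, 0, 0, 0, 0, 0, 0, 0, 0, 0, 0, 0, 0, 0, 1, 0, 0, 0, 0, 0, 1, 0, 0, 1, 0, 0, 0, 0, 0, 0, 0, 0],
    [0, 0, 0, 0, 0, 0, 0, 0, 0, 0, 0, 0, 1, 0, 0, 0, 0, 0, 0, 0, 2, 0, 0, 0, 0, 0, 0, 0, 0, 0, 0, 1, 0, 0, 0],
    [0, 0, 0, 0, 0, 0, 0, 0, 0, 0, 0, 0, 0, 1, 0, 0, 1, 0, 0, 0, 0, 0, 0, 2, 0, 0, 0, 0, 0, 0, 0, 0, 0, 0, 0],
    [0, 0, 0, 0, 0, 0, 0, 0, 0, 0, 0, 0, 1, 0, 0, 0, 0, 0, 0, 0, 0, 0, 2, 0, 0, 0, 0, 0, 0, 0, 0, 1, 0, 0, 0],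
    [0, 0, 0, 0, 0, 0, 0, 0, 0, 0, 0, 0, 1, 0, 0, 0, 0, 0, 0, 0, 0, 0, 0, 0, 0, 2, 0, 0, 0, 0, 0, 0, 1, 0, 0],
    [0, 0, 0, 0, 0, 0, 0, 0, 0, 0, 0, 0, 1, 0, 0, 2, 0, 0, 0, 0, 0, 0, 0, 0, 0, 0, 0, 0, 0, 0, 1, 0, 0, 0, 0],
    [0, 0, 0, 0, 0, 0, 0, 0, 0, 0, 0, 1, 0, 0, 0, 0, 0, 0, 0, 0, 0, 0, 0, 0, 0, 1, 1, 0, 0, 0, 0, 0, 1, 0, 0],
    [0, 0, 0, 0, 0, 0, 0, 0, 0, 0, 0, 1, 0, 0, 0, 0, 0, 1, 0, 0, 0, 0, 0, 0, 0, 0, 1, 1, 0, 0, 0, 0, 0, 0, 0],
    [0, 0, 0, 0, 0, 0, 0, 0, 0, 0, 0, 1, 0, 0, 0, 0, 0, 0, 1, 0, 0, 0, 0, 0, 0, 2, 0, 0, 0, 0, 0, 0, 0, 0, 0],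
    [0, 0, 0, 0, 0, 0, 0, 0, 0, 0, 0, 1, 0, 0, 0, 0, 0, 0, 0, 0, 0, 0, 1, 0, 0, 0, 1, 1, 0, 0, 0, 0, 0, 0, 0],
    [0, 0, 0, 0, 0, 0, 0, 0, 0, 0, 0, 0, 0, 0, 0, 0, 0, 0, 0, 1, 0, 0, 0, 0, 0, 1, 0, 0, 0, 0, 0, 1, 1, 0, 0],
    [0, 0, 0, 0, 0, 0, 0, 0, 0, 0, 0, 0, 0, 0, 0, 0, 0, 0, 0, 0, 1, 1, 0, 1, 0, 0, 1, 0, 0, 0, 0, 0, 0, 0, 0],
    [0, 0, 0, 0, 0, 0, 0, 0, 0, 0, 0, 0, 0, 0, 0, 0, 0, 0, 0, 0, 1, 0, 1, 2, 0, 0, 0, 0, 0, 0, 0, 0, 0, 0, 0],
    [0, 0, 0, 0, 0, 0, 0, 0, 0, 0, 0, 0, 0, 0, 0, 0, 0, 1, 0, 1, 0, 0, 0, 0, 0, 0, 2, 0, 0, 0, 0, 0, 0, 0, 0],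
    [0, 0, 0, 0, 0, 0, 0, 0, 0, 0, 1, 1, 0, 0, 0, 0, 0, 0, 0, 0, 0, 1, 0, 0, 0, 1, 0, 0, 0, 0, 0, 0, 0, 0, 0],
    [0, 0, 0, 0, 0, 0, 0, 0, 0, 0, 1, 0, 1, 0, 0, 0, 0, 0, 0, 0, 1, 0, 0, 0, 0, 1, 0, 0, 0, 0, 0, 0, 0, 0, 0],
    [0, 0, 0, 0, 0, 0, 0, 0, 0, 0, 1, 0, 1, 0, 0, 0, 0, 0, 0, 0, 1, 0, 0, 1, 0, 0, 0, 0, 0, 0, 0, 0, 0, 0, 0],
    [0, 0, 0, 0, 0, 0, 0, 0, 0, 1, 0, 0, 1, 0, 0, 0, 0, 0, 0, 0, 0, 0, 0, 1, 0, 0, 0, 1, 0, 0, 0, 0, 0, 0, 0],
    [0, 0, 0, 0, 0, 0, 0, 0, 0, 0, 1, 1, 0, 0, 0, 0, 0, 0, 0, 0, 0, 0, 0, 0, 0, 0, 1, 1, 0, 0, 0, 0, 0, 0, 0]]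

def EB31_base1 : List Row :=
   [(false, [1, 1, 1, 0, 0, 0, 0, 0, 0, 0, 0, 0, 0, 0, 0, 0, 0, 0, 0, 0, 0, 0, 0, 0, 0, 0, 0, 0, 0, 0, 0, 0, 0, -1, 0], 0),
    (false, [0, 0, 0, 1, 1, 1, 0, 0, 0, 0, 0, 0, 0, 0, 0, 0, 0, 0, 0, 0, 0, 0, 0, 0, 0, 0, 0, 0, 0, 0, 0, 0, 0, -1, 0], 0),
    (false, [0, 0, 0, 0, 0, 0, 1, 1, 1, 1, 1, 0, 0, 0, 0, 0, 0, 0, 0, 0, 0, 0, 0, 0, 0, 0, 0, 0, 0, 0, 0, 0, 0, -1, 0], 1),
    (false, [0, 0, 0, 0, 0, 0, 0, 0, 0, 0, 0, 1, 1, 1, 0, 0, 0, 0, 0, 0, 0, 0, 0, 0, 0, 0, 0, 0, 0, 0, 0, 0, 0, 0, -1], 1),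
    (false, [0, 0, 0, 0, 0, 0, 0, 0, 0, 0, 0, 0, 0, 0, 1, 1, 1, 1, 1, 0, 0, 0, 0, 0, 0, 0, 0, 0, 0, 0, 0, 0, 0, 0, -3], 0),
    (false, [0, 0, 0, 0, 0, 0, 0, 0, 0, 0, 0, 0, 0, 0, 0, 0, 0, 0, 0, 1, 1, 1, 1, 0, 0, 0, 0, 0, 0, 0, 0, 0, 0, 0, 0], 2),
    (false, [0, 0, 0, 0, 0, 0, 0, 0, 0, 0, 0, 0, 0, 0, 0, 0, 0, 0, 0, 0, 0, 0, 0, 1, 1, 1, 1, 0, 0, 0, 0, 0, 0, 0, 0], 2),
    (false, [0, 1, 4, 0, 1, 4, 4, 1, 0, 1, 4, 0, 1, 4, 4, 1, 0, 1, 4, 1, 0, 1, 4, 1, 0, 1, 4, 0, 1, 4, 0, 0, 0, -8, -4], 7),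
    (false, [4, 1, 0, 4, 1, 0, 4, 1, 0, 1, 4, 4, 1, 0, 4, 1, 0, 1, 4, 4, 1, 0, 1, 4, 1, 0, 1, 0, 1, 4, 0, 0, 0, -8, -4], 7),
    (false, [-1, -1, -1, -1, -1, -1, 1, 1, 1, 1, 1, -1, -1, -1, 1, 1, 1, 1, 1, 0, 0, 0, 0, 0, 0, 0, 0, 1, 1, 1, -1, 0, 0, 0, 0], 0),
    (false, [1, 1, 1, -1, -1, -1, -1, -1, -1, -1, -1, 0, 0, 0, 0, 0, 0, 0, 0, 1, 1, 1, 1, 0, 0, 0, 0, 1, 1, 1, 0, -1, 0, 0, 0], 0),
    (false, [-1, 0, 1, -1, 0, 1, -1, 0, 1, 0, -1, -1, 0, 1, -1, 0, 1, 0, -1, -1, 0, 1, 0, -1, 0, 1, 0, 1, 0, -1, 0, 0, -1, 0, 0], 0),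
    (true, [-1, -1, -1, 1, 1, 1, -1, -1, -1, -1, -1, 0, 0, 0, 0, 0, 0, 0, 0, 0, 0, 0, 0, 1, 1, 1, 1, 1, 1, 1, 0, 0, 0, 0, 0], 0),
    (true, [1, 0, -1, 1, 0, -1, -1, 0, 1, 0, -1, 1, 0, -1, -1, 0, 1, 0, -1, 0, 1, 0, -1, 0, 1, 0, -1, 1, 0, -1, 0, 0, 0, 0, 0], 0),
    (true, [4, 1, 0, 0, 1, 4, 16, 9, 4, 1, 0, 1, 0, 1, 9, 4, 1, 0, 1, 4, 1, 0, 1, 1, 0, 1, 4, 0, 1, 4, 0, 0, 0, 0, 0], 1),
    (true, [0, 0, 0, 0, 0, 0, 0, 0, 0, 0, 0, 0, 0, 0, 0, 0, 0, 0, 0, 0, 0, 0, 0, 0, 0, 0, 0, 0, 0, 0, 0, 0, 0, 1, 0], 0),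
    (true, [0, 0, 0, 0, 0, 0, 0, 0, 0, 0, 0, 0, 0, 0, 0, 0, 0, 0, 0, 0, 0, 0, 0, 0, 0, 0, 0, 0, 0, 0, 0, 0, 0, 0, 1], 0)]

def EB31_1_0_0_tree : Tree :=
  (.br 3 0
  (.br 22 0
   (.br 23 0
    (.br 24 0
     (.br 16 0
      (.br 32 0
       (.br 25 0
        (.br 17 0
         (.br 8 0
          (.br 20 0
           (.br 10 0
            (.br 27 0
             (.br 28 0
              (.br 21 0
               (.fk [(0, -3), (1, 2), (2, 1), (5, 1), (6, 1), (7, 1), (8, -1), (10, 3), (11, 1), (13, 5)])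
               (.br 11 0
                (.fk [(0, -12), (1, -9), (2, 5), (3, -2), (4, -2), (5, -7), (6, 5), (7, -3), (8, 5), (11, 10), (12, 7), (13, 5)])
                (.br 15 0
                 (.fk [(1, 3), (2, -3), (3, -3), (4, 1), (5, 3), (6, 3), (7, 3), (8, -3), (9, 6), (11, -6), (12, 3), (13, 15)])
                 (.mv 28))))
              (.br 4 0
               (.br 26 0
                (.fk [(5, 1), (6, 1), (7, 1), (8, -1), (11, -2), (13, 2)])
                (.br 5 0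
                 (.fk [(0, 1), (1, 6), (2, 1), (3, 1), (4, 1), (5, 1), (6, 1), (7, 1), (8, -2), (11, -2), (13, 5)])
                 (.mv 12)))
               (.mv 13)))
             (.br 26 0
              (.fk [(5, 1), (6, 1), (7, 1), (8, -1), (11, -2), (13, 2)])
              (.br 4 0
               (.br 5 0
                (.fk [(0, 9), (1, 54), (2, 9), (3, 9), (4, 9), (5, 15), (6, 15), (7, -2), (8, -7), (11, -15)])
                (.mv 12))
               (.mv 57))))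
            (.br 2 0
             (.br 26 0
              (.fk [(5, 1), (6, 2), (7, 1), (8, -1), (11, -2), (13, 2)])
              (.br 4 0
               (.br 5 0
                (.fk [(0, 3), (1, 18), (2, 3), (3, 3), (4, 3), (5, 6), (6, 6), (7, 1), (8, -4), (11, -7), (13, 6)])
                (.mv 12))
               (.br 27 0
                (.fk [(5, -1), (6, 1), (11, 1), (13, 1)])
                (.mv 57))))
             (.mv 21)))
           (.br 11 0
            (.br 10 0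
             (.br 9 0
              (.br 26 0
               (.fk [(6, 1)])
               (.br 26 1
                (.fk [(6, 1)])
                (.br 12 0
                 (.br 13 0
                  (.fk [(3, 3), (4, -1), (6, -3)])
                  (.br 18 0
                   (.br 27 0
                    (.fk [(5, -6), (6, 3), (7, -2), (8, 2), (11, 8)])
                    (.br 4 0
                     (.fk [(0, -8), (1, 8), (3, 6), (4, -2), (5, -5), (6, 2), (7, -1), (8, 1), (11, -2), (13, 2)])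
                     (.mv 57)))
                   (.mv 3)))
                 (.mv 24))))
              (.br 12 0
               (.br 18 0
                (.br 13 0
                 (.fk [(3, 3), (4, -1)])
                 (.br 19 0
                  (.br 0 0
                   (.fk [(3, 6), (4, -2), (5, -3), (6, 6), (7, -3), (8, 3)])
                   (.mv 101))
                  (.mv 49)))
                (.br 13 0
                 (.fk [(3, 3), (4, -1)])
                 (.mv 3)))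
               (.mv 59)))
             (.br 26 0
              (.fk [(6, 1)])
              (.mv 36)))
            (.mv 18)))
          (.br 0 0
           (.br 26 0
            (.fk [(6, 1)])
            (.br 19 0
             (.br 18 0
              (.br 20 0
               (.br 29 0
                (.br 27 0
                 (.br 5 0
                  (.br 12 0
                   (.br 15 0
                    (.br 4 0
                     (.fk [(1, 19), (2, 5), (4, 4), (5, 6), (6, 6), (7, -1), (8, -2), (10, 3), (11, -8)])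
                     (.br 28 0
                      (.fk [(0, 27), (1, -24), (2, 45), (3, -27), (4, 17), (5, 9), (6, 9), (7, -11), (8, 5), (10, 9), (11, -7), (12, 30)])
                      (.mv 13)))
                    (.br 11 0
                     (.fk [(3, 3), (4, -1), (5, 3), (6, 3), (7, -3), (8, 3), (11, -3), (13, 3)])
                     (.br 21 0
                      (.fk [(5, 1)])
                      (.mv 28))))
                   (.mv 69))
                  (.mv 12))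
                 (.br 4 0
                  (.br 5 0
                   (.fk [(0, 7), (1, 42), (2, 7), (3, 7), (4, 7), (5, 10), (6, 10), (7, -1), (8, -6), (11, -17)])
                   (.mv 12))
                  (.mv 57)))
                (.mv 16))
               (.br 11 0
                (.fk [(5, -1), (6, 1), (7, -1), (8, 1)])
                (.mv 18)))
              (.br 1 0
               (.br 2 0
                (.fk [(0, 52), (1, -8), (2, -12), (3, 4), (4, 4), (5, 1), (6, 12), (7, -3), (8, -1)])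
                (.mv 58))
               (.mv 90)))
             (.mv 55)))
           (.mv 11)))
         (.br 2 0
          (.br 20 0
           (.br 21 0
            (.br 12 0
             (.br 19 0
              (.fk [(5, 1)])
              (.br 26 0
               (.fk [(5, 1), (6, 2), (7, 1), (8, -1), (11, -2), (13, 2)])
               (.br 8 0
                (.br 26 1
                 (.fk [(5, 1), (6, 1), (7, 1), (8, -1), (11, -2), (13, 2)])
                 (.mv 118))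
                (.mv 55))))
             (.mv 7))
            (.mv 17))
           (.br 21 0
            (.br 11 0
             (.br 4 0
              (.fk [(0, -4), (1, 4), (5, -3), (6, 3), (7, -1), (8, 1)])
              (.mv 32))
             (.mv 18))
            (.mv 17)))
          (.br 10 0
           (.br 21 0
            (.br 18 0
             (.br 26 0
              (.fk [(6, 1)])
              (.br 4 0
               (.br 5 0
                (.fk [(0, 1), (1, 13), (2, 2), (3, 2), (4, 2), (5, 1), (6, 5), (7, -1), (8, -1), (11, -2)])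
                (.mv 12))
               (.mv 94)))
             (.br 26 0
              (.fk [(6, 1)])
              (.mv 58)))
            (.mv 17))
           (.mv 21))))
        (.br 4 0
         (.br 28 0
          (.br 5 0
           (.fk [(0, 1), (1, 6), (2, 1), (3, 1), (4, 1), (5, 1), (6, 1), (8, -1), (11, -3)])
           (.br 20 0
            (.fk [(5, 1), (6, -1), (7, 1), (8, -1), (11, -2), (13, 2)])
            (.br 26 0
             (.br 11 0
              (.br 20 1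
               (.fk [(5, 1), (6, 1), (7, 1), (8, -1), (11, -2), (13, 2)])
               (.br 10 0
                (.br 18 0
                 (.br 29 0
                  (.br 9 0
                   (.br 17 0
                    (.br 7 0
                     (.br 0 0
                      (.fk [(0, 5), (1, 6), (2, 5), (3, 2), (4, 2), (5, -5), (6, 5), (7, -2), (11, -6), (12, 3)])
                      (.br 8 0
                       (.br 12 0
                        (.fk [(0, -50), (1, 42), (2, -8), (3, 16), (4, -8), (5, -34), (6, 16), (7, -5), (8, 7), (11, -11), (13, 11)])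
                        (.br 21 0
                         (.br 31 0
                          (.br 15 0
                           (.fk [(0, 28), (1, 98), (2, -102), (3, 60), (4, -16), (5, 20), (6, 20), (7, -29), (8, 26), (9, 57), (10, -86), (11, 9), (13, 20)])
                           (.br 19 0
                            (.br 15 1
                             (.fk [(0, 28), (1, 62), (2, -66), (3, 42), (4, -10), (5, 14), (6, 14), (7, -17), (8, 14), (9, 39), (10, -56), (11, 3), (13, 14)])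
                             (.br 30 0
                              (.fk [(0, 4), (1, 26), (2, 42), (3, 6), (4, 10), (5, 2), (6, 2), (7, -11), (8, 2), (9, -3), (10, -8), (11, 9), (13, 2)])
                              (.mv 110)))
                            (.mv 22)))
                          (.mv 106))
                         (.mv 15)))
                       (.mv 11)))
                     (.br 14 0
                      (.fk [(0, 4), (2, 4), (3, 1), (4, 1), (5, -1), (6, 1), (7, 1), (8, -2), (11, -8), (12, 6), (13, 2)])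
                      (.mv 83)))
                    (.mv 89))
                   (.mv 68))
                  (.mv 9))
                 (.mv 31))
                (.mv 88)))
              (.mv 18))
             (.mv 12))))
          (.mv 23))
         (.mv 19)))
       (.br 21 0
        (.br 25 0
         (.br 8 0
          (.br 20 0
           (.br 10 0
            (.br 27 0
             (.fk [(5, 1), (6, 1), (7, 1), (8, -1), (11, 1), (13, 5)])
             (.br 26 0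
              (.fk [(6, 1)])
              (.br 4 0
               (.br 5 0
                (.fk [(0, 2), (1, 12), (2, 2), (3, 2), (4, 2), (5, 5), (6, 5), (7, -1), (8, -1)])
                (.mv 12))
               (.mv 57))))
            (.br 2 0
             (.br 9 0
              (.br 26 0
               (.fk [(6, 1)])
               (.br 13 0
                (.br 26 1
                 (.fk [(6, 1)])
                 (.br 12 0
                  (.br 5 0
                   (.fk [(3, 12), (4, -4), (5, 9), (6, -18), (7, 3), (8, -3)])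
                   (.mv 12))
                  (.mv 24)))
                (.mv 48)))
              (.br 1 0
               (.br 13 0
                (.br 17 0
                 (.br 5 0
                  (.fk [(0, 12), (1, 2), (2, 2), (3, 2), (4, 2), (5, 11), (6, -1), (7, 1), (8, -3)])
                  (.br 26 0
                   (.fk [(0, 4), (1, -4), (5, 3), (6, 3), (7, 1), (8, -1)])
                   (.mv 12)))
                 (.br 12 0
                  (.fk [(0, 12), (1, -12), (3, 12), (4, -4), (5, 9), (6, -9), (7, 3), (8, -3)])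
                  (.mv 7)))
                (.br 26 0
                 (.fk [(6, 1)])
                 (.mv 48)))
               (.mv 2)))
             (.mv 21)))
           (.br 11 0
            (.br 10 0
             (.br 18 0
              (.br 17 0
               (.br 9 0
                (.br 26 0
                 (.fk [(6, 1)])
                 (.br 26 1
                  (.fk [(6, 1)])
                  (.br 12 0
                   (.br 27 0
                    (.fk [(5, -2), (6, 3), (7, -2), (8, 2), (11, 8)])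
                    (.br 4 0
                     (.fk [(0, -24), (1, 24), (3, 24), (4, -8), (5, -18), (6, 9), (7, -6), (8, 6)])
                     (.mv 57)))
                   (.mv 24))))
                (.br 12 0
                 (.br 26 0
                  (.fk [(6, 1)])
                  (.br 0 0
                   (.fk [(3, 24), (4, -8), (5, -18), (6, 9), (7, -6), (8, 6)])
                   (.mv 102)))
                 (.mv 59)))
               (.br 12 0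
                (.br 4 0
                 (.fk [(0, -12), (1, 12), (3, 12), (4, -4), (5, -9), (6, 3), (7, -3), (8, 3)])
                 (.mv 32))
                (.mv 7)))
              (.br 12 0
               (.br 13 0
                (.fk [(3, 3), (4, -1)])
                (.mv 3))
               (.mv 62)))
             (.br 26 0
              (.fk [(6, 1)])
              (.mv 36)))
            (.mv 18)))
          (.br 0 0
           (.br 19 0
            (.br 20 0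
             (.fk [(5, 1)])
             (.br 11 0
              (.fk [(5, -1), (6, 3), (7, -1), (8, 1)])
              (.mv 18)))
            (.br 26 0
             (.fk [(6, 1)])
             (.mv 55)))
           (.mv 11)))
         (.br 28 0
          (.br 20 0
           (.br 10 0
            (.br 4 0
             (.br 19 0
              (.fk [(5, 1)])
              (.br 31 0
               (.br 17 0
                (.br 8 0
                 (.br 9 0
                  (.br 7 0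
                   (.fk [(0, 32), (1, -4), (2, 28), (3, 7), (4, 7), (5, 28), (6, -1), (7, 1), (8, -8), (10, -25), (13, 25)])
                   (.mv 30))
                  (.br 0 0
                   (.br 15 0
                    (.fk [(0, 8), (1, -26), (2, -22), (3, -11), (4, -3), (5, 6), (6, -7), (7, 6), (8, -1), (10, -17), (11, 1), (13, 16)])
                    (.mv 22))
                   (.mv 63)))
                 (.br 11 0
                  (.br 0 0
                   (.fk [(0, 2), (1, -4), (2, -6), (3, -1), (4, -1), (5, 1), (6, -1), (7, 1), (10, -3), (13, 3)])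
                   (.mv 11))
                  (.mv 75)))
                (.mv 47))
               (.mv 115)))
             (.mv 19))
            (.br 4 0
             (.br 1 0
              (.br 2 0
               (.br 17 0
                (.br 0 0
                 (.fk [(0, 41), (1, -9), (3, 4), (4, 4), (5, 13), (6, 1), (7, -1), (8, -3)])
                 (.br 9 0
                  (.br 8 0
                   (.br 25 1
                    (.br 5 0
                     (.fk [(0, -3), (1, 17), (2, 2), (3, 2), (4, 2), (5, 5), (6, 5), (7, -1), (8, -1)])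
                     (.br 26 0
                      (.fk [(6, 1)])
                      (.mv 12)))
                    (.mv 103))
                   (.mv 11))
                  (.mv 63)))
                (.br 19 0
                 (.fk [(5, 1)])
                 (.mv 47)))
               (.mv 21))
              (.mv 38))
             (.mv 19)))
           (.br 11 0
            (.br 4 0
             (.br 25 1
              (.br 9 0
               (.br 17 0
                (.br 8 0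
                 (.br 7 0
                  (.fk [(0, 4), (1, 12), (2, 16), (3, 4), (4, 4), (5, 1), (6, 13), (7, -3), (8, -1)])
                  (.br 19 0
                   (.fk [(0, -4), (1, 4), (5, -1), (6, 3), (7, -1), (8, 1)])
                   (.mv 30)))
                 (.br 12 0
                  (.fk [(0, -12), (1, 12), (3, 12), (4, -4), (5, -9), (6, 3), (7, -3), (8, 3)])
                  (.mv 84)))
                (.br 12 0
                 (.fk [(0, -24), (1, 24), (3, 24), (4, -8), (5, -18), (6, 3), (7, -6), (8, 6)])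
                 (.mv 7)))
               (.mv 68))
              (.br 12 0
               (.fk [(0, -24), (1, 24), (3, 24), (4, -8), (5, -18), (6, 3), (7, -6), (8, 6)])
               (.mv 109)))
             (.mv 19))
            (.mv 18)))
          (.mv 23)))
        (.br 31 0
         (.br 17 0
          (.br 11 0
           (.br 12 0
            (.br 18 0
             (.br 0 0
              (.fk [(0, 14), (1, -4), (2, -18), (3, 17), (4, -7), (5, -1), (6, 2), (7, -2), (8, 3), (9, 6), (10, -9), (13, 3)])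
              (.br 8 0
               (.fk [(0, 6), (1, -22), (2, -16), (3, -4), (4, -4), (5, 6), (6, -10), (7, 1), (8, 3), (10, -15), (11, 6), (12, 3), (13, 6)])
               (.mv 11)))
             (.br 13 0
              (.fk [(0, 6), (1, -14), (2, -8), (3, 4), (4, -4), (5, 4), (6, -6), (7, 1), (8, 1), (10, -8), (11, 1), (12, 4), (13, 3)])
              (.mv 3)))
            (.mv 15))
           (.br 15 0
            (.br 25 0
             (.br 8 0
              (.br 9 0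
               (.br 5 0
                (.fk [(0, 14), (1, -24), (2, -30), (3, -8), (4, -4), (5, 10), (6, -2), (7, 2), (8, 3), (9, 3), (10, -22), (11, 10), (13, 9)])
                (.br 26 0
                 (.fk [(0, 2), (1, -2), (5, 1), (6, 1), (10, -1), (12, 1)])
                 (.mv 12)))
               (.mv 50))
              (.br 0 0
               (.br 18 0
                (.br 4 0
                 (.fk [(0, 34), (1, -17), (2, -25), (3, -22), (4, 6), (5, 10), (6, 10), (7, -7), (8, 8), (10, -25), (11, 10), (12, 10)])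
                 (.br 26 0
                  (.fk [(0, 2), (1, -2), (5, 1), (6, 1), (10, -1), (12, 1)])
                  (.mv 73)))
                (.br 4 0
                 (.fk [(0, 42), (1, -18), (2, -24), (3, -24), (4, 8), (5, 12), (6, 12), (7, -9), (8, 9), (10, -27), (11, 12), (12, 15)])
                 (.mv 25)))
               (.mv 11)))
             (.br 4 0
              (.br 20 0
               (.br 12 0
                (.br 10 0
                 (.br 9 0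
                  (.br 18 0
                   (.br 26 0
                    (.br 8 0
                     (.br 7 0
                      (.fk [(0, 32), (1, -20), (2, 12), (3, -9), (4, 7), (5, 12), (6, -5), (7, 5), (8, -8), (10, -29), (13, 29)])
                      (.mv 41))
                     (.br 19 0
                      (.br 0 0
                       (.fk [(0, 6), (1, 7), (2, -5), (3, -8), (4, 4), (5, 8), (6, 3), (7, -3), (8, 2), (10, -5)])
                       (.mv 11))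
                      (.mv 75)))
                    (.mv 111))
                   (.br 25 1
                    (.br 26 0
                     (.fk [(0, 4), (1, -4), (5, 1), (6, 1), (10, -2), (12, 2)])
                     (.mv 111))
                    (.mv 113)))
                  (.mv 50))
                 (.mv 119))
                (.mv 15))
               (.mv 18))
              (.mv 19)))
            (.mv 28)))
          (.mv 17))
         (.mv 70))))
      (.br 11 0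
       (.br 12 0
        (.br 20 0
         (.br 0 0
          (.fk [(3, 12), (4, -4), (5, -9), (6, 3), (7, -3), (8, 3)])
          (.br 8 0
           (.br 4 0
            (.fk [(0, -12), (1, 12), (3, 12), (4, -4), (5, -9), (6, 3), (7, -3), (8, 3)])
            (.br 26 0
             (.br 25 0
              (.fk [(6, 1)])
              (.mv 19))
             (.mv 98)))
           (.mv 11)))
         (.mv 14))
        (.br 21 0
         (.br 20 0
          (.br 19 0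
           (.fk [(5, 1)])
           (.mv 67))
          (.mv 14))
         (.mv 15)))
       (.mv 8)))
     (.mv 0))
    (.br 24 0
     (.br 4 0
      (.br 25 0
       (.br 2 0
        (.br 28 0
         (.br 26 0
          (.br 8 0
           (.br 16 0
            (.br 20 0
             (.br 21 0
              (.br 9 0
               (.br 5 0
                (.fk [(0, -9), (1, 37), (2, 4), (3, 4), (4, 4), (5, 13), (6, 13), (7, -1), (8, -3)])
                (.br 17 0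
                 (.br 19 0
                  (.fk [(5, 1)])
                  (.br 7 0
                   (.fk [(0, 8), (1, 24), (2, 32), (3, 8), (4, 8), (5, 7), (6, 7), (7, -6), (8, -2)])
                   (.mv 87)))
                 (.br 19 0
                  (.fk [(5, 1)])
                  (.mv 33))))
               (.br 1 0
                (.br 13 0
                 (.fk [(0, 8), (1, -8), (5, 3), (6, 3), (7, 2), (8, -2)])
                 (.mv 54))
                (.mv 2)))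
              (.br 9 0
               (.br 32 0
                (.fk [(5, 1), (6, 1), (7, 1), (8, -1), (11, -2), (13, 2)])
                (.br 31 0
                 (.br 17 0
                  (.br 7 0
                   (.fk [(0, 36), (1, -4), (2, 32), (3, 8), (4, 8), (5, 7), (6, 7), (7, -6), (8, -2), (10, -21), (11, 7), (12, 7), (13, 7)])
                   (.br 23 1
                    (.fk [(0, 2), (1, -2), (5, 1), (6, 1), (10, -1), (12, 1)])
                    (.mv 76)))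
                  (.mv 17))
                 (.mv 70)))
               (.mv 64)))
             (.br 7 0
              (.br 13 0
               (.br 12 0
                (.br 11 0
                 (.fk [(3, 3), (4, -1)])
                 (.mv 18))
                (.br 21 0
                 (.br 5 0
                  (.fk [(0, -5), (1, 5), (5, 1), (6, 1), (7, 1), (8, -1)])
                  (.mv 86))
                 (.mv 15)))
               (.mv 51))
              (.mv 29)))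
            (.br 20 0
             (.br 1 0
              (.br 23 1
               (.fk [(6, 1)])
               (.br 13 0
                (.fk [(0, 8), (1, -8), (5, -2), (6, 3), (7, 2), (8, -2)])
                (.mv 107)))
              (.mv 39))
             (.mv 14)))
           (.br 0 0
            (.br 1 0
             (.br 21 0
              (.br 16 0
               (.fk [(0, 54), (1, -9), (2, -13), (3, 4), (4, 4), (5, 3), (6, 13), (7, -1), (8, -3)])
               (.br 20 0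
                (.br 12 0
                 (.br 11 0
                  (.fk [(0, 10), (1, -1), (2, -1), (3, 4), (5, 1), (6, 1), (7, -1)])
                  (.mv 8))
                 (.mv 56))
                (.mv 14)))
              (.br 15 0
               (.br 11 0
                (.br 12 0
                 (.fk [(0, 24), (1, -2), (2, -6), (3, 11), (4, -1), (5, -1), (6, 2), (7, -3), (17, 1)])
                 (.mv 15))
                (.mv 79))
               (.mv 46)))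
             (.mv 44))
            (.mv 11)))
          (.br 5 0
           (.br 20 0
            (.br 21 0
             (.br 12 0
              (.br 16 0
               (.fk [(0, 9), (1, 87), (3, 24), (4, 8), (5, 15), (6, 15), (7, -6), (8, -6)])
               (.br 11 0
                (.fk [(1, 8), (3, 4), (5, 1), (6, 1), (7, -1)])
                (.mv 8)))
              (.br 17 0
               (.br 16 0
                (.fk [(0, -9), (1, 41), (3, 4), (4, 4), (5, 13), (6, -6), (7, -1), (8, -3)])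
                (.mv 56))
               (.mv 7)))
             (.br 12 0
              (.br 16 0
               (.fk [(0, 32), (1, 240), (2, -16), (3, 68), (4, 20), (5, 18), (6, 37), (7, -18), (8, -18), (17, 4)])
               (.br 11 0
                (.fk [(0, -12), (1, 180), (3, 96), (4, -4), (5, 12), (6, 12), (7, -24), (8, 3)])
                (.mv 8)))
              (.mv 15)))
            (.br 21 0
             (.br 16 0
              (.fk [(0, 1), (1, 31), (3, 4), (4, 4), (5, 3), (6, 4), (7, -1), (8, -3)])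
              (.mv 14))
             (.mv 116)))
           (.mv 12)))
         (.mv 5))
        (.br 10 0
         (.br 9 0
          (.br 8 0
           (.br 17 0
            (.br 16 0
             (.br 28 0
              (.br 21 0
               (.br 7 0
                (.fk [(0, 4), (1, 12), (2, 16), (3, 4), (4, 4), (5, 1), (6, 7), (7, -3), (8, -1)])
                (.br 20 0
                 (.br 12 0
                  (.br 19 0
                   (.fk [(5, 1)])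
                   (.br 5 0
                    (.fk [(0, -5), (1, 74), (2, -5), (3, 8), (4, 8), (5, 13), (6, 13), (7, -2), (8, -6)])
                    (.mv 87)))
                  (.mv 45))
                 (.mv 29)))
               (.br 7 0
                (.fk [(0, 4), (1, 12), (2, 16), (3, 4), (4, 4), (5, 1), (6, 7), (7, -3), (8, -1)])
                (.br 20 0
                 (.br 23 1
                  (.br 26 0
                   (.fk [(6, 1)])
                   (.mv 93))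
                  (.mv 76))
                 (.mv 29))))
              (.mv 5))
             (.br 11 0
              (.br 20 0
               (.br 12 0
                (.fk [(0, -12), (1, 12), (3, 12), (4, -4), (5, -9), (6, -9), (7, -3), (8, 3)])
                (.mv 56))
               (.mv 14))
              (.mv 8)))
            (.br 12 0
             (.br 21 0
              (.br 13 0
               (.br 20 0
                (.br 26 0
                 (.br 5 0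
                  (.fk [(0, -15), (1, 15), (3, 3), (4, -1), (5, 3), (6, 3), (7, 3), (8, -3)])
                  (.br 19 0
                   (.fk [(5, 1)])
                   (.mv 33)))
                 (.mv 105))
                (.mv 104))
               (.mv 26))
              (.mv 17))
             (.mv 7)))
           (.br 23 1
            (.br 5 0
             (.fk [(0, -1), (1, 2), (2, -1)])
             (.br 26 0
              (.fk [(6, 1)])
              (.mv 12)))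
            (.mv 96)))
          (.mv 27))
         (.mv 21)))
       (.mv 6))
      (.mv 4))
     (.mv 0)))
   (.br 13 0
    (.br 23 0
     (.br 24 0
      (.br 8 0
       (.br 11 0
        (.br 25 0
         (.br 18 0
          (.br 10 0
           (.br 17 0
            (.br 26 0
             (.fk [(6, 1)])
             (.br 29 0
              (.br 4 0
               (.fk [(0, -4), (1, 4), (5, -3), (6, 3), (7, -1), (8, 1)])
               (.br 28 0
                (.br 27 0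
                 (.fk [(0, -14), (1, 4), (2, 10), (5, -13), (6, 3), (7, -1), (8, 1), (10, 10)])
                 (.mv 57))
                (.mv 13)))
              (.mv 16)))
            (.br 12 0
             (.fk [(3, 3), (4, -1)])
             (.mv 7)))
           (.br 2 0
            (.br 12 0
             (.fk [(3, 3), (4, -1)])
             (.br 21 0
              (.br 16 0
               (.br 26 0
                (.fk [(6, 1)])
                (.br 26 1
                 (.fk [(6, 1)])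
                 (.mv 24)))
               (.mv 71))
              (.mv 15)))
            (.mv 21)))
          (.mv 10))
         (.br 4 0
          (.fk [(0, -4), (1, 4), (5, -3), (6, 1), (7, -1), (8, 1)])
          (.mv 19)))
        (.br 16 0
         (.br 25 0
          (.br 27 0
           (.fk [(5, -1), (6, 1), (11, 1), (13, 1)])
           (.br 4 0
            (.br 9 0
             (.br 17 0
              (.br 26 0
               (.fk [(6, 1)])
               (.mv 114))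
              (.mv 66))
             (.mv 52))
            (.mv 74)))
          (.mv 35))
         (.mv 8)))
       (.br 0 0
        (.br 26 0
         (.br 25 0
          (.fk [(6, 1)])
          (.br 4 0
           (.br 11 0
            (.fk [(0, -4), (1, 4), (5, -3), (6, 1), (7, -1), (8, 1)])
            (.mv 35))
           (.mv 19)))
         (.br 19 0
          (.br 11 0
           (.fk [(5, -1), (6, 1), (7, -1), (8, 1)])
           (.mv 81))
          (.mv 55)))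
        (.mv 11)))
      (.mv 0))
     (.br 24 0
      (.br 25 0
       (.br 4 0
        (.br 11 0
         (.br 16 0
          (.br 8 0
           (.br 23 1
            (.br 17 0
             (.br 5 0
              (.fk [(0, 4), (1, 24), (2, 4), (3, 4), (4, 4), (5, 2), (6, 5), (7, -2), (8, -2)])
              (.br 26 0
               (.fk [(6, 1)])
               (.mv 12)))
             (.br 12 0
              (.fk [(0, -4), (1, 4), (3, 3), (4, -1), (5, -3), (6, 3), (7, -1), (8, 1)])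
              (.mv 7)))
            (.br 20 0
             (.br 12 0
              (.fk [(3, 3), (4, -1), (6, -3)])
              (.br 9 0
               (.br 17 0
                (.br 21 0
                 (.br 7 0
                  (.fk [(0, 8), (1, 24), (2, 32), (3, 8), (4, 8), (5, 7), (6, 7), (7, -6), (8, -2)])
                  (.mv 45))
                 (.mv 15))
                (.mv 7))
               (.br 27 0
                (.fk [(5, -3), (6, -1), (7, 1), (8, -1), (11, 2), (13, 6)])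
                (.mv 122))))
             (.mv 117)))
           (.br 12 0
            (.fk [(3, 3), (4, -1)])
            (.mv 85)))
          (.mv 34))
         (.br 20 0
          (.br 8 0
           (.br 16 0
            (.br 9 0
             (.br 17 0
              (.br 7 0
               (.fk [(0, 4), (1, 12), (2, 16), (3, 4), (4, 4), (5, 3), (6, 7), (7, -3), (8, -1)])
               (.mv 82))
              (.mv 66))
             (.mv 52))
            (.mv 8))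
           (.mv 80))
          (.mv 18)))
        (.mv 4))
       (.mv 6))
      (.mv 0)))
    (.mv 20)))
  (.mv 1))

def EB31_1_0_0 : Inst where
  rows :=
   [(false, [1, 1, 1, 0, 0, 0, 0, 0, 0, 0, 0, 0, 0, 0, 0, 0, 0, 0, 0, 0, 0, 0, 0, 0, 0, 0, 0, 0, 0, 0, 0, 0, 0, -1, 0], 0),
    (false, [0, 0, 0, 1, 1, 1, 0, 0, 0, 0, 0, 0, 0, 0, 0, 0, 0, 0, 0, 0, 0, 0, 0, 0, 0, 0, 0, 0, 0, 0, 0, 0, 0, -1, 0], 0),
    (false, [0, 0, 0, 0, 0, 0, 1, 1, 1, 1, 1, 0, 0, 0, 0, 0, 0, 0, 0, 0, 0, 0, 0, 0, 0, 0, 0, 0, 0, 0, 0, 0, 0, -1, 0], 1),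
    (false, [0, 0, 0, 0, 0, 0, 0, 0, 0, 0, 0, 1, 1, 1, 0, 0, 0, 0, 0, 0, 0, 0, 0, 0, 0, 0, 0, 0, 0, 0, 0, 0, 0, 0, -1], 1),
    (false, [0, 0, 0, 0, 0, 0, 0, 0, 0, 0, 0, 0, 0, 0, 1, 1, 1, 1, 1, 0, 0, 0, 0, 0, 0, 0, 0, 0, 0, 0, 0, 0, 0, 0, -3], 0),
    (false, [0, 0, 0, 0, 0, 0, 0, 0, 0, 0, 0, 0, 0, 0, 0, 0, 0, 0, 0, 1, 1, 1, 1, 0, 0, 0, 0, 0, 0, 0, 0, 0, 0, 0, 0], 2),
    (false, [0, 0, 0, 0, 0, 0, 0, 0, 0, 0, 0, 0, 0, 0, 0, 0, 0, 0, 0, 0, 0, 0, 0, 1, 1, 1, 1, 0, 0, 0, 0, 0, 0, 0, 0], 2),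
    (false, [0, 1, 4, 0, 1, 4, 4, 1, 0, 1, 4, 0, 1, 4, 4, 1, 0, 1, 4, 1, 0, 1, 4, 1, 0, 1, 4, 0, 1, 4, 0, 0, 0, -8, -4], 7),
    (false, [4, 1, 0, 4, 1, 0, 4, 1, 0, 1, 4, 4, 1, 0, 4, 1, 0, 1, 4, 4, 1, 0, 1, 4, 1, 0, 1, 0, 1, 4, 0, 0, 0, -8, -4], 7),
    (false, [-1, -1, -1, -1, -1, -1, 1, 1, 1, 1, 1, -1, -1, -1, 1, 1, 1, 1, 1, 0, 0, 0, 0, 0, 0, 0, 0, 1, 1, 1, -1, 0, 0, 0, 0], 0),
    (false, [1, 1, 1, -1, -1, -1, -1, -1, -1, -1, -1, 0, 0, 0, 0, 0, 0, 0, 0, 1, 1, 1, 1, 0, 0, 0, 0, 1, 1, 1, 0, -1, 0, 0, 0], 0),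
    (false, [-1, 0, 1, -1, 0, 1, -1, 0, 1, 0, -1, -1, 0, 1, -1, 0, 1, 0, -1, -1, 0, 1, 0, -1, 0, 1, 0, 1, 0, -1, 0, 0, -1, 0, 0], 0),
    (true, [-1, -1, -1, 1, 1, 1, -1, -1, -1, -1, -1, 0, 0, 0, 0, 0, 0, 0, 0, 0, 0, 0, 0, 1, 1, 1, 1, 1, 1, 1, 0, 0, 0, 0, 0], 0),
    (true, [1, 0, -1, 1, 0, -1, -1, 0, 1, 0, -1, 1, 0, -1, -1, 0, 1, 0, -1, 0, 1, 0, -1, 0, 1, 0, -1, 1, 0, -1, 0, 0, 0, 0, 0], 0),
    (true, [4, 1, 0, 0, 1, 4, 16, 9, 4, 1, 0, 1, 0, 1, 9, 4, 1, 0, 1, 4, 1, 0, 1, 1, 0, 1, 4, 0, 1, 4, 0, 0, 0, 0, 0], 1),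
    (true, [0, 0, 0, 0, 0, 0, 0, 0, 0, 0, 0, 0, 0, 0, 0, 0, 0, 0, 0, 0, 0, 0, 0, 0, 0, 0, 0, 0, 0, 0, 0, 0, 0, 1, 0], 0),
    (true, [0, 0, 0, 0, 0, 0, 0, 0, 0, 0, 0, 0, 0, 0, 0, 0, 0, 0, 0, 0, 0, 0, 0, 0, 0, 0, 0, 0, 0, 0, 0, 0, 0, 0, 1], 0),
    (true, [4, 1, 0, 0, 1, 4, 16, 9, 4, 1, 0, 1, 0, 1, 9, 4, 1, 0, 1, 4, 1, 0, 1, 1, 0, 1, 4, 0, 1, 4, 0, 0, 0, -8, -4], 9)]
  moves := EB31_moves1
  reqs := EB31_reqs1
  tree := EB31_1_0_0_tree

theorem EB31_1_0_0_ok : EB31.instOK 1 0 0 EB31_1_0_0 = true := by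
  decide +kernel

def EB31_1_1_0_tree : Tree :=
  (.br 3 0
  (.br 11 0
   (.br 24 0
    (.br 4 0
     (.br 17 0
      (.br 10 0
       (.br 12 0
        (.br 23 0
         (.fk [(0, -8), (1, 36), (2, 4), (3, 31), (4, -5), (5, -2), (6, 9), (7, -6), (8, 9), (17, 7)])
         (.br 28 0
          (.br 25 0
           (.br 20 0
            (.br 13 0
             (.fk [(3, 3), (4, -1)])
             (.br 9 0
              (.fk [(1, 36), (2, 12), (3, 27), (4, -1), (5, 6), (6, -3), (7, -6), (8, 3), (17, 3)])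
              (.mv 54)))
            (.br 16 0
             (.br 13 0
              (.fk [(3, 3), (4, -1)])
              (.mv 51))
             (.mv 14)))
           (.mv 6))
          (.mv 5)))
        (.br 21 0
         (.br 20 0
          (.br 22 0
           (.br 9 0
            (.br 16 0
             (.fk [(0, 4), (1, 40), (2, 36), (3, 1), (4, 13), (5, 37), (6, 10), (7, -1), (17, 9)])
             (.br 23 0
              (.br 19 0
               (.fk [(0, -4), (1, 4), (5, 1), (6, 1), (7, -1), (8, 1)])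
               (.mv 67))
              (.mv 56)))
            (.br 19 0
             (.fk [(5, 1)])
             (.mv 61)))
           (.br 9 0
            (.br 16 0
             (.fk [(0, 4), (1, 40), (2, 36), (3, 1), (4, 13), (5, 10), (6, 10), (7, -1), (17, 9)])
             (.mv 71))
            (.br 19 0
             (.br 16 0
              (.br 22 1
               (.fk [(5, 1)])
               (.br 31 0
                (.fk [(0, 30), (2, -30), (5, 16), (6, -2), (7, 3), (8, 2), (9, 5), (10, -25), (11, 4), (13, 16), (17, 5)])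
                (.mv 108)))
              (.mv 71))
             (.mv 61))))
          (.br 16 0
           (.br 9 0
            (.fk [(0, 4), (1, 40), (2, 36), (3, 1), (4, 13), (5, 9), (6, 10), (7, -1), (17, 9)])
            (.mv 59))
           (.mv 14)))
         (.mv 15)))
       (.br 2 0
        (.br 20 0
         (.br 21 0
          (.br 16 0
           (.br 1 0
            (.br 27 0
             (.fk [(0, -24), (1, 180), (2, 36), (3, 3), (4, 31), (5, 72), (6, 21), (8, -3), (10, 24), (13, 72), (17, 21)])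
             (.br 0 0
              (.fk [(0, 140), (1, -24), (2, 12), (3, 13), (4, 17), (5, 40), (6, 11), (7, -8), (8, -5), (17, 3)])
              (.br 5 0
               (.fk [(0, -24), (1, 140), (2, 12), (3, 13), (4, 17), (5, 40), (6, 11), (7, -8), (8, -5), (17, 3)])
               (.mv 99))))
            (.br 9 0
             (.br 23 0
              (.fk [(1, 36), (2, 12), (3, 3), (4, 7), (5, 6), (6, 9), (7, -6), (8, 3), (17, 3)])
              (.br 8 0
               (.fk [(0, 12), (1, 48), (2, 36), (3, 9), (4, 13), (5, 21), (6, 12), (7, -9), (17, 3)])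
               (.mv 44)))
             (.mv 2)))
           (.br 23 0
            (.br 12 0
             (.fk [(0, 12), (1, 72), (2, 12), (3, 45), (4, 1), (5, 21), (6, 18), (7, -9), (8, 6), (17, 9)])
             (.br 19 0
              (.fk [(0, -4), (1, 4), (5, 1), (6, 1), (7, -1), (8, 1)])
              (.mv 67)))
            (.br 25 0
             (.br 1 0
              (.br 22 0
               (.br 12 0
                (.fk [(0, 12), (1, 16), (2, 4), (3, 7), (4, 3), (5, 13), (6, 4), (7, -1), (17, 3)])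
                (.mv 56))
               (.mv 34))
              (.mv 39))
             (.mv 6))))
          (.br 12 0
           (.br 32 0
            (.fk [(0, -10), (1, 26), (3, 23), (4, -5), (5, 4), (6, 1), (7, 7), (8, -8), (9, 2), (11, -25), (13, 23), (17, 1)])
            (.br 31 0
             (.fk [(1, 20), (2, -4), (3, 17), (4, -3), (5, 8), (6, -7), (7, -2), (8, 3), (10, -6), (13, 6), (17, 3)])
             (.mv 70)))
           (.mv 15)))
         (.br 16 0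
          (.br 13 0
           (.br 23 0
            (.br 25 0
             (.fk [(0, -8), (1, 36), (2, 4), (3, 1), (4, 5), (5, -2), (6, 31), (7, -6), (8, 5), (17, 3)])
             (.br 9 0
              (.br 12 0
               (.fk [(3, 3), (4, -1)])
               (.mv 120))
              (.mv 68)))
            (.br 25 0
             (.br 12 0
              (.fk [(3, 3), (4, -1)])
              (.mv 121))
             (.mv 6)))
           (.mv 43))
          (.mv 14)))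
        (.mv 21)))
      (.br 12 0
       (.br 23 0
        (.fk [(0, -24), (1, 108), (2, 12), (3, 81), (4, -11), (5, -6), (6, 14), (7, -18), (8, 15), (17, 9)])
        (.br 13 0
         (.fk [(3, 3), (4, -1)])
         (.mv 26)))
       (.mv 7)))
     (.br 23 0
      (.br 25 0
       (.br 0 0
        (.br 27 0
         (.br 28 0
          (.br 1 0
           (.fk [(0, 3), (1, -3), (5, -3), (6, 3), (7, -1), (8, 1)])
           (.br 9 0
            (.br 16 0
             (.fk [(0, -3), (1, -5), (2, -8), (3, -2), (4, -2), (5, -5), (6, 3), (7, -1), (8, 3), (11, 6), (13, 2)])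
             (.br 19 0
              (.fk [(5, -1), (6, 3), (7, -1), (8, 1)])
              (.mv 37)))
            (.mv 2)))
          (.mv 13))
         (.br 26 0
          (.fk [(6, 1)])
          (.mv 57)))
        (.br 8 0
         (.br 21 0
          (.br 27 0
           (.br 28 0
            (.br 16 0
             (.fk [(0, 1), (1, -3), (2, 2), (5, -1), (6, 1), (7, -1), (8, 1), (11, 4), (12, 2)])
             (.br 20 0
              (.br 19 0
               (.br 22 0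
                (.fk [(5, 1)])
                (.mv 40))
               (.mv 37))
              (.mv 14)))
            (.mv 13))
           (.br 26 0
            (.fk [(6, 1)])
            (.mv 57)))
          (.br 12 0
           (.br 27 0
            (.br 28 0
             (.fk [(0, 6), (1, -2), (2, 12), (3, 8), (5, -3), (6, 7), (7, -2), (8, 2), (10, 3), (11, 2), (12, 7), (17, 2)])
             (.mv 13))
            (.br 26 0
             (.fk [(6, 1)])
             (.mv 57)))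
           (.mv 15)))
         (.mv 11)))
       (.mv 19))
      (.mv 4)))
    (.mv 0))
   (.br 24 0
    (.br 16 0
     (.br 25 0
      (.br 23 0
       (.br 0 0
        (.br 20 0
         (.br 26 0
          (.fk [(6, 1)])
          (.br 17 0
           (.br 27 0
            (.fk [(3, -3), (4, 1), (5, -1), (6, 4), (7, 1), (13, 4), (17, 1)])
            (.br 4 0
             (.fk [(0, 1), (1, 20), (2, 3), (3, -6), (4, 6), (5, 3), (6, 9), (7, -3), (8, 2), (17, 2)])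
             (.mv 57)))
           (.br 21 0
            (.br 27 0
             (.br 4 0
              (.br 5 0
               (.fk [(1, 10), (2, -2), (3, 1), (4, 1), (5, 3), (6, 3), (7, -1), (10, 1), (11, 3)])
               (.mv 12))
              (.br 28 0
               (.br 12 0
                (.br 29 0
                 (.fk [(0, 47), (1, -44), (2, 61), (3, 14), (4, 6), (5, 13), (6, -20), (7, -6), (10, 13), (11, 12), (12, 52), (17, 2)])
                 (.mv 16))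
                (.mv 7))
               (.mv 13)))
             (.mv 112))
            (.mv 17))))
         (.mv 18))
        (.br 8 0
         (.br 20 0
          (.br 10 0
           (.br 9 0
            (.br 17 0
             (.fk [(0, -12), (1, 10), (2, 82), (3, 1), (4, 13), (5, 3), (6, 46), (7, -3), (8, 2), (17, 9)])
             (.br 12 0
              (.br 21 0
               (.br 26 0
                (.fk [(6, 1)])
                (.mv 42))
               (.mv 17))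
              (.mv 7)))
            (.br 22 0
             (.br 21 0
              (.br 9 1
               (.br 17 0
                (.fk [(0, -8), (1, 8), (2, 64), (3, -1), (4, 11), (5, 38), (6, 23), (7, 2), (8, -3), (17, 7)])
                (.br 12 0
                 (.br 1 0
                  (.br 26 0
                   (.fk [(6, 1)])
                   (.mv 42))
                  (.mv 2))
                 (.mv 7)))
               (.br 2 0
                (.br 1 0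
                 (.br 17 0
                  (.fk [(0, 24), (1, 4), (2, 4), (3, -5), (4, 7), (5, 7), (6, 7), (7, 2), (8, -3), (17, 3)])
                  (.br 26 0
                   (.fk [(6, 1)])
                   (.mv 42)))
                 (.mv 2))
                (.mv 97)))
              (.mv 50))
             (.mv 52)))
           (.br 21 0
            (.br 2 0
             (.br 9 0
              (.br 27 0
               (.fk [(5, 1), (6, 1), (11, 1), (13, 1)])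
               (.br 26 0
                (.fk [(6, 1)])
                (.mv 123)))
              (.br 22 0
               (.br 1 0
                (.br 17 0
                 (.fk [(0, 24), (1, 4), (2, 4), (3, -5), (4, 7), (5, 7), (6, 7), (7, 2), (8, -3), (17, 3)])
                 (.br 26 0
                  (.fk [(6, 1)])
                  (.mv 42)))
                (.mv 2))
               (.mv 52)))
             (.mv 21))
            (.br 9 0
             (.br 26 0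
              (.fk [(6, 1)])
              (.mv 100))
             (.mv 50))))
          (.mv 18))
         (.mv 11)))
       (.br 4 0
        (.br 20 0
         (.br 17 0
          (.br 21 0
           (.br 1 0
            (.br 9 0
             (.fk [(0, 4), (1, 8), (2, 4), (3, -7), (4, 5), (5, 5), (6, 2), (7, -1), (17, 1)])
             (.br 22 0
              (.br 2 0
               (.fk [(0, 60), (1, 24), (2, 12), (3, -3), (4, 17), (5, 36), (6, 30), (7, 3), (8, -6), (17, 9)])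
               (.mv 27))
              (.mv 52)))
            (.br 9 0
             (.br 8 0
              (.fk [(0, 4), (1, 16), (2, 12), (3, 1), (4, 5), (5, 7), (6, 4), (7, -3), (17, 1)])
              (.mv 44))
             (.mv 2)))
           (.br 8 0
            (.br 9 0
             (.br 31 0
              (.fk [(0, 18), (1, -8), (2, -10), (5, 12), (6, 6), (7, 3), (8, -2), (9, 3), (10, -15), (13, 12), (17, 1)])
              (.br 32 0
               (.fk [(1, 28), (2, 20), (3, 3), (4, 7), (5, 6), (6, 6), (8, -5), (10, 6), (11, -12), (13, 6), (17, 1)])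
               (.mv 70)))
             (.mv 50))
            (.mv 79)))
          (.br 21 0
           (.br 22 0
            (.br 10 0
             (.br 9 0
              (.br 12 0
               (.br 13 0
                (.br 5 0
                 (.fk [(0, -260), (1, 308), (2, 192), (3, 192), (4, -24), (5, 192), (6, -21), (7, 65), (8, -47), (17, 48)])
                 (.br 19 0
                  (.fk [(5, 1)])
                  (.mv 33)))
                (.mv 26))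
               (.mv 7))
              (.br 2 0
               (.br 1 0
                (.br 13 0
                 (.fk [(0, 4), (1, -4), (5, 3), (6, -3), (7, 1), (8, -1)])
                 (.mv 26))
                (.mv 2))
               (.mv 27)))
             (.br 2 0
              (.br 13 0
               (.br 5 0
                (.fk [(0, -3), (1, 11), (3, 1), (4, 1), (5, 3), (6, 1), (8, -1)])
                (.br 26 0
                 (.br 19 0
                  (.fk [(5, 1)])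
                  (.mv 33))
                 (.mv 12)))
               (.mv 26))
              (.mv 21)))
            (.mv 66))
           (.mv 17)))
         (.mv 18))
        (.mv 4)))
      (.br 23 0
       (.br 20 0
        (.br 4 0
         (.br 28 0
          (.br 22 0
           (.br 7 0
            (.br 17 0
             (.br 21 0
              (.br 10 0
               (.br 9 0
                (.fk [(0, 4), (1, 40), (2, 36), (3, 1), (4, 13), (5, 37), (6, 10), (7, -1), (17, 9)])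
                (.br 1 0
                 (.fk [(0, 36), (1, 104), (2, 20), (3, -7), (4, 29), (5, 53), (6, 26), (7, -9), (8, 6), (17, 17)])
                 (.mv 2)))
               (.br 1 0
                (.fk [(0, 24), (1, 60), (2, 12), (3, -3), (4, 17), (5, 30), (6, 15), (7, -6), (8, 3), (17, 9)])
                (.mv 38)))
              (.br 10 0
               (.br 9 0
                (.br 25 1
                 (.fk [(0, 4), (1, 40), (2, 36), (3, 1), (4, 13), (5, 1), (6, 40), (7, -1), (17, 9)])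
                 (.br 18 0
                  (.fk [(0, -4), (2, 4), (3, -3), (4, 1), (5, -1), (6, -4), (7, 1), (17, 1)])
                  (.mv 113)))
                (.mv 50))
               (.mv 119)))
             (.mv 53))
            (.mv 41))
           (.mv 35))
          (.mv 23))
         (.mv 19))
        (.mv 18))
       (.mv 6)))
     (.mv 8))
    (.mv 0)))
  (.mv 1))

def EB31_1_1_0 : Inst where
  rows :=
   [(false, [1, 1, 1, 0, 0, 0, 0, 0, 0, 0, 0, 0, 0, 0, 0, 0, 0, 0, 0, 0, 0, 0, 0, 0, 0, 0, 0, 0, 0, 0, 0, 0, 0, -1, 0], 0),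
    (false, [0, 0, 0, 1, 1, 1, 0, 0, 0, 0, 0, 0, 0, 0, 0, 0, 0, 0, 0, 0, 0, 0, 0, 0, 0, 0, 0, 0, 0, 0, 0, 0, 0, -1, 0], 0),
    (false, [0, 0, 0, 0, 0, 0, 1, 1, 1, 1, 1, 0, 0, 0, 0, 0, 0, 0, 0, 0, 0, 0, 0, 0, 0, 0, 0, 0, 0, 0, 0, 0, 0, -1, 0], 1),
    (false, [0, 0, 0, 0, 0, 0, 0, 0, 0, 0, 0, 1, 1, 1, 0, 0, 0, 0, 0, 0, 0, 0, 0, 0, 0, 0, 0, 0, 0, 0, 0, 0, 0, 0, -1], 1),
    (false, [0, 0, 0, 0, 0, 0, 0, 0, 0, 0, 0, 0, 0, 0, 1, 1, 1, 1, 1, 0, 0, 0, 0, 0, 0, 0, 0, 0, 0, 0, 0, 0, 0, 0, -3], 0),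
    (false, [0, 0, 0, 0, 0, 0, 0, 0, 0, 0, 0, 0, 0, 0, 0, 0, 0, 0, 0, 1, 1, 1, 1, 0, 0, 0, 0, 0, 0, 0, 0, 0, 0, 0, 0], 2),
    (false, [0, 0, 0, 0, 0, 0, 0, 0, 0, 0, 0, 0, 0, 0, 0, 0, 0, 0, 0, 0, 0, 0, 0, 1, 1, 1, 1, 0, 0, 0, 0, 0, 0, 0, 0], 2),
    (false, [0, 1, 4, 0, 1, 4, 4, 1, 0, 1, 4, 0, 1, 4, 4, 1, 0, 1, 4, 1, 0, 1, 4, 1, 0, 1, 4, 0, 1, 4, 0, 0, 0, -8, -4], 7),
    (false, [4, 1, 0, 4, 1, 0, 4, 1, 0, 1, 4, 4, 1, 0, 4, 1, 0, 1, 4, 4, 1, 0, 1, 4, 1, 0, 1, 0, 1, 4, 0, 0, 0, -8, -4], 7),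
    (false, [-1, -1, -1, -1, -1, -1, 1, 1, 1, 1, 1, -1, -1, -1, 1, 1, 1, 1, 1, 0, 0, 0, 0, 0, 0, 0, 0, 1, 1, 1, -1, 0, 0, 0, 0], 0),
    (false, [1, 1, 1, -1, -1, -1, -1, -1, -1, -1, -1, 0, 0, 0, 0, 0, 0, 0, 0, 1, 1, 1, 1, 0, 0, 0, 0, 1, 1, 1, 0, -1, 0, 0, 0], 0),
    (false, [-1, 0, 1, -1, 0, 1, -1, 0, 1, 0, -1, -1, 0, 1, -1, 0, 1, 0, -1, -1, 0, 1, 0, -1, 0, 1, 0, 1, 0, -1, 0, 0, -1, 0, 0], 0),
    (true, [-1, -1, -1, 1, 1, 1, -1, -1, -1, -1, -1, 0, 0, 0, 0, 0, 0, 0, 0, 0, 0, 0, 0, 1, 1, 1, 1, 1, 1, 1, 0, 0, 0, 0, 0], 0),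
    (true, [1, 0, -1, 1, 0, -1, -1, 0, 1, 0, -1, 1, 0, -1, -1, 0, 1, 0, -1, 0, 1, 0, -1, 0, 1, 0, -1, 1, 0, -1, 0, 0, 0, 0, 0], 0),
    (true, [4, 1, 0, 0, 1, 4, 16, 9, 4, 1, 0, 1, 0, 1, 9, 4, 1, 0, 1, 4, 1, 0, 1, 1, 0, 1, 4, 0, 1, 4, 0, 0, 0, 0, 0], 1),
    (true, [0, 0, 0, 0, 0, 0, 0, 0, 0, 0, 0, 0, 0, 0, 0, 0, 0, 0, 0, 0, 0, 0, 0, 0, 0, 0, 0, 0, 0, 0, 0, 0, 0, 1, 0], 0),
    (true, [0, 0, 0, 0, 0, 0, 0, 0, 0, 0, 0, 0, 0, 0, 0, 0, 0, 0, 0, 0, 0, 0, 0, 0, 0, 0, 0, 0, 0, 0, 0, 0, 0, 0, 1], 0),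
    (true, [-4, -1, 0, 0, -1, -4, -16, -9, -4, -1, 0, -1, 0, -1, -9, -4, -1, 0, -1, -4, -1, 0, -1, -1, 0, -1, -4, 0, -1, -4, 0, 0, 0, 8, 4], -7)]
  moves := EB31_moves1
  reqs := EB31_reqs1
  tree := EB31_1_1_0_tree

theorem EB31_1_1_0_ok : EB31.instOK 1 1 0 EB31_1_1_0 = true := by
  decide +kernel

def EB31_1_2_0_tree : Tree :=
  (.br 3 0
  (.br 23 0
   (.br 24 0
    (.br 11 0
     (.br 12 0
      (.br 10 0
       (.br 18 0
        (.br 4 0
         (.fk [(0, -4), (1, 18), (2, 2), (3, 17), (4, -3), (5, -1), (6, 8), (7, -3), (8, 6), (17, -5), (18, 8)])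
         (.br 25 0
          (.br 29 0
           (.br 28 0
            (.fk [(0, -36), (1, -20), (2, -8), (3, 10), (4, -14), (5, -35), (6, 12), (7, -1), (8, 15), (17, -6), (18, 12)])
            (.mv 13))
           (.br 26 0
            (.fk [(6, 1)])
            (.mv 16)))
          (.mv 19)))
        (.br 13 0
         (.fk [(3, 9), (4, -3), (6, 1), (8, 1), (17, -1), (18, 8)])
         (.mv 3)))
       (.br 2 0
        (.br 4 0
         (.fk [(0, -132), (1, 612), (2, 48), (3, 450), (4, -62), (5, -33), (6, 153), (7, -99), (8, 87), (17, -54), (18, 450)])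
         (.br 25 0
          (.br 13 0
           (.fk [(3, 3), (4, -1)])
           (.br 22 0
            (.br 26 0
             (.fk [(6, 1)])
             (.mv 48))
            (.mv 20)))
          (.mv 19)))
        (.mv 21)))
      (.br 4 0
       (.br 17 0
        (.br 16 0
         (.fk [(0, -44), (1, 204), (2, 16), (3, 4), (4, 28), (5, -11), (6, 51), (7, -33), (8, 29), (17, -18), (18, 150)])
         (.br 20 0
          (.br 21 0
           (.br 19 0
            (.fk [(0, -4), (1, 4), (5, 1), (6, 1), (7, -1), (8, 1)])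
            (.mv 67))
           (.mv 15))
          (.mv 14)))
        (.mv 7))
       (.br 25 0
        (.br 10 0
         (.br 26 0
          (.fk [(6, 1)])
          (.br 21 0
           (.br 26 1
            (.fk [(6, 1)])
            (.mv 24))
           (.mv 15)))
         (.br 2 0
          (.br 26 0
           (.fk [(6, 1)])
           (.br 26 1
            (.fk [(6, 1)])
            (.mv 24)))
          (.mv 21)))
        (.mv 19))))
     (.br 16 0
      (.br 20 0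
       (.br 8 0
        (.br 25 0
         (.br 10 0
          (.br 9 0
           (.br 17 0
            (.fk [(0, 4), (1, 4), (2, 24), (3, -5), (4, 7), (5, 3), (6, 22), (7, -3), (8, 2), (17, -3), (18, 4)])
            (.br 21 0
             (.br 22 0
              (.br 4 0
               (.br 12 0
                (.br 5 0
                 (.fk [(0, 8), (1, 55), (2, 1), (3, 14), (4, 6), (5, 23), (6, 23), (7, -3), (8, -3), (17, -2), (18, 23)])
                 (.br 26 0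
                  (.fk [(6, 1)])
                  (.mv 12)))
                (.mv 7))
               (.br 27 0
                (.fk [(5, 1), (6, 1), (7, 1), (8, -1), (11, 1), (13, 5)])
                (.mv 72)))
              (.mv 66))
             (.mv 17)))
           (.br 21 0
            (.br 1 0
             (.br 22 0
              (.br 27 0
               (.fk [(5, 1), (6, 1), (7, 1), (8, -1), (11, 1), (13, 5)])
               (.br 4 0
                (.br 5 0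
                 (.fk [(0, -3), (1, 22), (2, -3), (3, 2), (4, 2), (5, 5), (6, 5), (7, -1), (8, -1), (18, 5)])
                 (.br 26 0
                  (.fk [(6, 1)])
                  (.mv 12)))
                (.br 26 0
                 (.fk [(6, 1)])
                 (.mv 57))))
              (.mv 52))
             (.mv 2))
            (.mv 50)))
          (.br 2 0
           (.br 27 0
            (.fk [(5, -1), (6, 1), (11, 1), (13, 1)])
            (.br 26 0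
             (.fk [(6, 1)])
             (.mv 123)))
           (.mv 21)))
         (.br 17 0
          (.br 4 0
           (.fk [(0, 4), (1, 24), (2, 4), (3, -5), (4, 7), (5, 3), (6, 6), (7, -3), (8, 2), (17, -3), (18, 24)])
           (.mv 19))
          (.mv 53)))
        (.br 0 0
         (.br 25 0
          (.br 27 0
           (.br 17 0
            (.fk [(3, -3), (4, 1), (5, -1), (6, 4), (7, 1), (13, 4), (17, -1), (18, 4)])
            (.br 21 0
             (.br 19 0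
              (.br 22 0
               (.fk [(5, 1)])
               (.mv 66))
              (.mv 78))
             (.mv 17)))
           (.br 10 0
            (.br 11 1
             (.br 1 0
              (.fk [(0, 28), (1, 4), (3, 4), (4, 4), (5, -5), (6, 25), (7, -7), (8, 3), (18, 4)])
              (.br 9 0
               (.br 12 0
                (.fk [(0, 2), (1, 2), (2, 12), (3, 11), (4, -1), (5, 2), (6, 14), (7, -2), (8, 3), (17, -3), (18, 14)])
                (.br 21 0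
                 (.br 19 0
                  (.fk [(5, 3), (6, 3), (7, -1), (8, 1)])
                  (.mv 65))
                 (.mv 15)))
               (.mv 2)))
             (.mv 77))
            (.br 26 0
             (.fk [(6, 1)])
             (.mv 123))))
          (.br 4 0
           (.br 17 0
            (.fk [(0, 4), (1, 24), (2, 4), (3, -5), (4, 7), (5, 3), (6, 6), (7, -3), (8, 2), (17, -3), (18, 24)])
            (.mv 53))
           (.mv 19)))
         (.mv 11)))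
       (.mv 18))
      (.mv 8)))
    (.mv 0))
   (.br 24 0
    (.br 4 0
     (.br 25 0
      (.br 16 0
       (.br 20 0
        (.br 1 0
         (.br 17 0
          (.fk [(0, 24), (1, 60), (2, 12), (3, -3), (4, 17), (5, 6), (6, 3), (7, -6), (8, 3), (17, -9), (18, 72)])
          (.br 21 0
           (.br 9 0
            (.br 11 0
             (.br 12 0
              (.fk [(0, 4), (1, 8), (2, 4), (3, 5), (4, 1), (5, 5), (6, 2), (7, -1), (17, -1), (18, 5)])
              (.mv 7))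
             (.br 12 0
              (.br 22 0
               (.br 2 0
                (.br 13 0
                 (.fk [(0, 52), (1, -4), (2, 16), (3, 35), (4, -1), (5, 5), (6, 5), (7, 5), (8, -9), (17, -4), (18, 5)])
                 (.mv 26))
                (.br 10 0
                 (.br 13 0
                  (.br 5 0
                   (.fk [(0, -264), (1, 948), (2, 180), (3, 381), (4, 17), (5, 180), (6, 180), (7, 21), (8, -84), (17, -45), (18, 180)])
                   (.br 19 0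
                    (.fk [(5, 1)])
                    (.mv 33)))
                  (.mv 26))
                 (.mv 21)))
               (.mv 66))
              (.mv 7)))
            (.br 2 0
             (.br 12 0
              (.br 13 0
               (.fk [(0, 660), (1, 96), (2, 108), (3, 417), (4, 5), (5, -63), (6, 180), (7, 57), (8, -84), (17, -81), (18, 180)])
               (.mv 26))
              (.mv 7))
             (.mv 27)))
           (.mv 17)))
         (.br 8 0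
          (.br 9 0
           (.br 28 0
            (.br 21 0
             (.br 5 0
              (.fk [(0, -3), (1, 38), (2, -3), (3, 4), (4, 4), (5, 7), (6, 7), (7, -1), (8, -3), (18, 7)])
              (.br 17 0
               (.fk [(0, 4), (1, 16), (2, 12), (3, 1), (4, 5), (5, 7), (6, 4), (7, -3), (17, -1)])
               (.mv 91)))
             (.br 32 0
              (.br 17 0
               (.fk [(0, 12), (1, 38), (2, 22), (3, 6), (4, 10), (5, 18), (6, 18), (7, 3), (8, -10), (9, 3), (11, -21), (13, 18), (17, -2)])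
               (.mv 17))
              (.br 31 0
               (.br 17 0
                (.fk [(0, 12), (1, -8), (2, -4), (3, -3), (4, 1), (5, 6), (6, 3), (8, 1), (10, -12), (11, 6), (13, 6), (17, -1)])
                (.mv 17))
               (.mv 70))))
            (.mv 5))
           (.mv 2))
          (.mv 44)))
        (.br 11 0
         (.br 7 0
          (.br 1 0
           (.br 12 0
            (.fk [(0, 12), (1, 44), (2, 8), (3, 26), (4, 2), (5, 3), (6, -1), (7, -5), (8, 3), (17, -6), (18, 60)])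
            (.br 17 0
             (.fk [(0, 8), (1, 20), (2, 4), (3, 1), (4, 5), (5, 2), (6, 1), (7, -2), (8, 1), (17, -3), (18, 26)])
             (.mv 7)))
           (.br 9 0
            (.br 8 0
             (.fk [(0, 4), (1, 12), (2, 16), (3, 4), (4, 4), (5, 1), (6, 7), (7, -3), (8, -1)])
             (.mv 44))
            (.mv 2)))
          (.mv 29))
         (.mv 18)))
       (.br 11 0
        (.br 20 0
         (.br 12 0
          (.fk [(1, 28), (2, 4), (3, 19), (4, -1), (5, 4), (6, -5), (7, -4), (8, 3), (17, -3), (18, 24)])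
          (.mv 56))
         (.mv 14))
        (.mv 8)))
      (.mv 6))
     (.mv 4))
    (.mv 0)))
  (.mv 1))

def EB31_1_2_0 : Inst where
  rows :=
   [(false, [1, 1, 1, 0, 0, 0, 0, 0, 0, 0, 0, 0, 0, 0, 0, 0, 0, 0, 0, 0, 0, 0, 0, 0, 0, 0, 0, 0, 0, 0, 0, 0, 0, -1, 0], 0),
    (false, [0, 0, 0, 1, 1, 1, 0, 0, 0, 0, 0, 0, 0, 0, 0, 0, 0, 0, 0, 0, 0, 0, 0, 0, 0, 0, 0, 0, 0, 0, 0, 0, 0, -1, 0], 0),
    (false, [0, 0, 0, 0, 0, 0, 1, 1, 1, 1, 1, 0, 0, 0, 0, 0, 0, 0, 0, 0, 0, 0, 0, 0, 0, 0, 0, 0, 0, 0, 0, 0, 0, -1, 0], 1),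
    (false, [0, 0, 0, 0, 0, 0, 0, 0, 0, 0, 0, 1, 1, 1, 0, 0, 0, 0, 0, 0, 0, 0, 0, 0, 0, 0, 0, 0, 0, 0, 0, 0, 0, 0, -1], 1),
    (false, [0, 0, 0, 0, 0, 0, 0, 0, 0, 0, 0, 0, 0, 0, 1, 1, 1, 1, 1, 0, 0, 0, 0, 0, 0, 0, 0, 0, 0, 0, 0, 0, 0, 0, -3], 0),
    (false, [0, 0, 0, 0, 0, 0, 0, 0, 0, 0, 0, 0, 0, 0, 0, 0, 0, 0, 0, 1, 1, 1, 1, 0, 0, 0, 0, 0, 0, 0, 0, 0, 0, 0, 0], 2),
    (false, [0, 0, 0, 0, 0, 0, 0, 0, 0, 0, 0, 0, 0, 0, 0, 0, 0, 0, 0, 0, 0, 0, 0, 1, 1, 1, 1, 0, 0, 0, 0, 0, 0, 0, 0], 2),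
    (false, [0, 1, 4, 0, 1, 4, 4, 1, 0, 1, 4, 0, 1, 4, 4, 1, 0, 1, 4, 1, 0, 1, 4, 1, 0, 1, 4, 0, 1, 4, 0, 0, 0, -8, -4], 7),
    (false, [4, 1, 0, 4, 1, 0, 4, 1, 0, 1, 4, 4, 1, 0, 4, 1, 0, 1, 4, 4, 1, 0, 1, 4, 1, 0, 1, 0, 1, 4, 0, 0, 0, -8, -4], 7),
    (false, [-1, -1, -1, -1, -1, -1, 1, 1, 1, 1, 1, -1, -1, -1, 1, 1, 1, 1, 1, 0, 0, 0, 0, 0, 0, 0, 0, 1, 1, 1, -1, 0, 0, 0, 0], 0),
    (false, [1, 1, 1, -1, -1, -1, -1, -1, -1, -1, -1, 0, 0, 0, 0, 0, 0, 0, 0, 1, 1, 1, 1, 0, 0, 0, 0, 1, 1, 1, 0, -1, 0, 0, 0], 0),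
    (false, [-1, 0, 1, -1, 0, 1, -1, 0, 1, 0, -1, -1, 0, 1, -1, 0, 1, 0, -1, -1, 0, 1, 0, -1, 0, 1, 0, 1, 0, -1, 0, 0, -1, 0, 0], 0),
    (true, [-1, -1, -1, 1, 1, 1, -1, -1, -1, -1, -1, 0, 0, 0, 0, 0, 0, 0, 0, 0, 0, 0, 0, 1, 1, 1, 1, 1, 1, 1, 0, 0, 0, 0, 0], 0),
    (true, [1, 0, -1, 1, 0, -1, -1, 0, 1, 0, -1, 1, 0, -1, -1, 0, 1, 0, -1, 0, 1, 0, -1, 0, 1, 0, -1, 1, 0, -1, 0, 0, 0, 0, 0], 0),
    (true, [4, 1, 0, 0, 1, 4, 16, 9, 4, 1, 0, 1, 0, 1, 9, 4, 1, 0, 1, 4, 1, 0, 1, 1, 0, 1, 4, 0, 1, 4, 0, 0, 0, 0, 0], 1),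
    (true, [0, 0, 0, 0, 0, 0, 0, 0, 0, 0, 0, 0, 0, 0, 0, 0, 0, 0, 0, 0, 0, 0, 0, 0, 0, 0, 0, 0, 0, 0, 0, 0, 0, 1, 0], 0),
    (true, [0, 0, 0, 0, 0, 0, 0, 0, 0, 0, 0, 0, 0, 0, 0, 0, 0, 0, 0, 0, 0, 0, 0, 0, 0, 0, 0, 0, 0, 0, 0, 0, 0, 0, 1], 0),
    (false, [4, 1, 0, 0, 1, 4, 16, 9, 4, 1, 0, 1, 0, 1, 9, 4, 1, 0, 1, 4, 1, 0, 1, 1, 0, 1, 4, 0, 1, 4, 0, 0, 0, -8, -4], 8),
    (true, [0, 0, 0, 0, 0, 0, 1, 1, 0, 0, 0, 0, 0, 0, 1, 0, 0, 0, 0, 0, 0, 0, 0, 0, 0, 0, 0, 0, 0, 0, 0, 0, 0, 0, 0], 1)]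
  moves := EB31_moves1
  reqs := EB31_reqs1
  tree := EB31_1_2_0_tree

theorem EB31_1_2_0_ok : EB31.instOK 1 2 0 EB31_1_2_0 = true := by
  decide +kernel

def EB31_1_3_0_tree : Tree :=
  (.br 3 0
  (.br 24 0
   (.br 23 0
    (.br 8 0
     (.br 11 0
      (.br 25 0
       (.br 4 0
        (.fk [(1, 6), (2, 2), (3, 1), (4, 1), (6, 5), (7, -1), (8, 1), (12, 1), (17, -1), (18, 1)])
        (.br 28 0
         (.br 16 0
          (.br 13 0
           (.br 5 0
            (.fk [(3, 3), (4, -1), (6, 1), (8, 2), (11, 5), (17, -2), (18, 5)])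
            (.br 26 0
             (.fk [(6, 1)])
             (.mv 12)))
           (.br 18 0
            (.fk [(3, -6), (4, 2), (6, 3), (8, 3), (11, 6), (17, -3), (18, 6)])
            (.mv 3)))
          (.br 19 0
           (.br 26 0
            (.fk [(6, 1)])
            (.br 29 0
             (.br 20 0
              (.br 27 0
               (.fk [(0, -12), (1, 6), (2, 6), (3, 3), (4, -1), (5, -3), (6, 2), (7, -1), (8, 2), (10, 6), (11, 2), (17, -1), (18, 4)])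
               (.mv 57))
              (.mv 14))
             (.mv 16)))
           (.mv 37)))
         (.mv 13)))
       (.br 4 0
        (.br 28 0
         (.br 16 0
          (.br 20 0
           (.fk [(1, 28), (2, 4), (3, 4), (4, 4), (5, 7), (6, 6), (7, -1), (8, 3), (13, 6), (17, -6), (18, 6)])
           (.br 18 0
            (.fk [(0, 2), (1, 16), (2, -2), (3, 8), (6, 4), (7, -1), (8, 2), (9, 4), (13, 1), (17, -3), (18, 5)])
            (.mv 31)))
          (.br 20 0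
           (.br 9 0
            (.fk [(0, -2), (1, 16), (2, 10), (3, 6), (4, 2), (6, 4), (8, 1), (10, 5), (13, 2), (17, -4), (18, 7)])
            (.br 1 0
             (.br 12 0
              (.fk [(1, 8), (3, 4), (5, 2), (6, 2), (8, 1), (13, 2), (17, -2), (18, 2)])
              (.mv 60))
             (.mv 2)))
           (.mv 14)))
         (.mv 23))
        (.mv 19)))
      (.br 16 0
       (.br 20 0
        (.br 25 0
         (.br 26 0
          (.fk [(6, 1)])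
          (.br 5 0
           (.br 18 0
            (.fk [(3, -3), (4, 1), (6, 1), (8, 1), (11, 2), (17, -1), (18, 2)])
            (.br 13 0
             (.fk [(8, 1), (11, 3), (17, -1), (18, 3)])
             (.mv 3)))
           (.mv 12)))
         (.br 4 0
          (.br 22 0
           (.br 9 0
            (.fk [(1, -4), (2, 52), (3, -9), (4, 11), (5, 32), (6, -1), (7, 20), (8, -7), (13, 52), (17, -19), (18, 52)])
            (.br 21 0
             (.br 1 0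
              (.br 17 0
               (.fk [(0, 8), (1, 20), (2, 4), (3, -2), (4, 6), (5, 11), (6, 5), (7, -1), (8, 1), (13, 2), (17, -4), (18, 2)])
               (.mv 53))
              (.mv 2))
             (.mv 50)))
           (.mv 35))
          (.mv 19)))
        (.mv 18))
       (.mv 8)))
     (.br 0 0
      (.br 4 0
       (.br 25 0
        (.br 9 0
         (.br 16 0
          (.fk [(0, 4), (1, 6), (2, 6), (3, -1), (4, 3), (5, 1), (6, 6), (7, -1), (8, 1), (11, 1), (12, 2), (17, -2), (18, 3)])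
          (.br 11 0
           (.fk [(0, 60), (1, 94), (2, 86), (3, 69), (4, 17), (5, 11), (6, 76), (7, -11), (8, 18), (12, 30), (13, 8), (17, -37), (18, 76)])
           (.mv 8)))
         (.br 1 0
          (.br 16 0
           (.fk [(0, 22), (1, 14), (2, -4), (3, -5), (4, 7), (5, 1), (6, 12), (7, -3), (8, 2), (12, 4), (17, -3), (18, 6)])
           (.br 11 0
            (.fk [(0, 378), (1, 234), (2, 60), (3, 183), (4, 51), (5, 55), (6, 194), (7, -29), (8, 40), (12, 68), (17, -95), (18, 194)])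
            (.mv 8)))
          (.mv 2)))
        (.br 11 0
         (.fk [(0, 26), (1, 108), (2, 26), (3, 29), (4, 17), (5, 5), (6, 30), (7, -15), (8, 16), (12, 6), (17, -21), (18, 30)])
         (.br 1 0
          (.br 16 0
           (.br 20 0
            (.fk [(0, 62), (1, 126), (2, 52), (3, -6), (4, 42), (5, 35), (6, 35), (7, -3), (8, 5), (10, 22), (13, 18), (17, -32), (18, 54)])
            (.mv 18))
           (.mv 8))
          (.mv 92))))
       (.br 18 0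
        (.br 25 0
         (.br 11 0
          (.br 26 0
           (.fk [(6, 1)])
           (.br 29 0
            (.fk [(3, 3), (4, -1), (5, -4), (6, 2), (8, 2), (11, 1), (13, 2), (17, -2), (18, 5)])
            (.mv 16)))
          (.br 16 0
           (.fk [(3, -3), (4, 1), (6, 3), (8, 3), (11, 6), (17, -3), (18, 6)])
           (.mv 8)))
         (.mv 19))
        (.br 21 0
         (.br 22 0
          (.br 25 0
           (.br 13 0
            (.br 20 0
             (.br 11 0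
              (.br 26 0
               (.fk [(6, 1)])
               (.br 29 0
                (.br 28 0
                 (.br 19 0
                  (.fk [(0, -10), (1, 14), (2, 12), (3, 11), (4, -1), (5, 12), (6, 12), (7, -11), (8, 12), (10, 12), (17, -3), (18, 12)])
                  (.mv 55))
                 (.mv 13))
                (.mv 16)))
              (.br 16 0
               (.br 2 0
                (.br 26 0
                 (.fk [(6, 1)])
                 (.br 5 0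
                  (.fk [(5, 3), (6, -3), (7, 1), (8, -1)])
                  (.mv 12)))
                (.mv 95))
               (.mv 8)))
             (.br 16 0
              (.br 11 0
               (.fk [(5, -3), (6, 3), (7, -1), (8, 1)])
               (.mv 18))
              (.mv 14)))
            (.mv 3))
           (.mv 19))
          (.mv 10))
         (.mv 25))))
      (.mv 11)))
    (.br 25 0
     (.br 4 0
      (.br 28 0
       (.br 8 0
        (.br 16 0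
         (.br 26 0
          (.br 9 0
           (.fk [(0, 4), (1, 4), (2, 24), (3, 4), (4, 4), (5, 1), (6, 7), (7, -3), (8, 3), (11, 12), (17, -4), (18, 12)])
           (.br 2 0
            (.br 13 0
             (.br 1 0
              (.br 27 0
               (.fk [(0, 28), (1, -56), (2, 12), (3, 13), (4, -7), (5, -16), (6, 14), (7, 14), (8, -7), (11, 14), (12, 14), (13, 28), (17, -5), (18, 20)])
               (.br 12 0
                (.fk [(0, 24), (1, -24), (3, 24), (4, -8), (5, -18), (6, 9), (7, 6), (8, -6)])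
                (.mv 122)))
              (.mv 2))
             (.mv 54))
            (.mv 27)))
          (.br 5 0
           (.fk [(0, 9), (1, 54), (2, 9), (3, 12), (4, 8), (5, 7), (6, 7), (7, -2), (8, -1), (11, 2), (17, -6), (18, 19)])
           (.mv 12)))
         (.br 11 0
          (.br 22 0
           (.br 20 0
            (.br 9 0
             (.fk [(0, -2), (1, 12), (2, 14), (3, 6), (4, 2), (5, -1), (6, 3), (7, -1), (10, 5), (17, -2), (18, 5)])
             (.br 13 0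
              (.br 12 0
               (.fk [(3, 3), (4, -1), (5, 1), (7, 1), (13, 2), (17, -1), (18, 2)])
               (.mv 56))
              (.mv 54)))
            (.mv 14))
           (.mv 34))
          (.mv 8)))
        (.br 1 0
         (.br 0 0
          (.br 11 0
           (.br 16 0
            (.fk [(0, 44), (1, 40), (2, -4), (3, 34), (4, 2), (5, 7), (6, 7), (7, -3), (8, 1), (9, 14), (17, -8), (18, 18)])
            (.br 20 0
             (.fk [(0, 48), (1, 132), (2, 68), (3, 58), (4, 22), (5, 16), (6, 16), (7, -4), (8, 5), (10, 37), (13, 10), (17, -32), (18, 59)])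
             (.mv 14)))
           (.br 20 0
            (.br 16 0
             (.fk [(0, 4), (1, 4), (3, 1), (4, 1), (5, 2), (6, 1), (9, 1), (13, 1), (17, -1), (18, 2)])
             (.mv 8))
            (.mv 18)))
          (.mv 11))
         (.mv 44)))
       (.mv 5))
      (.mv 4))
     (.mv 6)))
   (.mv 0))
  (.mv 1))

def EB31_1_3_0 : Inst where
  rows :=
   [(false, [1, 1, 1, 0, 0, 0, 0, 0, 0, 0, 0, 0, 0, 0, 0, 0, 0, 0, 0, 0, 0, 0, 0, 0, 0, 0, 0, 0, 0, 0, 0, 0, 0, -1, 0], 0),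
    (false, [0, 0, 0, 1, 1, 1, 0, 0, 0, 0, 0, 0, 0, 0, 0, 0, 0, 0, 0, 0, 0, 0, 0, 0, 0, 0, 0, 0, 0, 0, 0, 0, 0, -1, 0], 0),
    (false, [0, 0, 0, 0, 0, 0, 1, 1, 1, 1, 1, 0, 0, 0, 0, 0, 0, 0, 0, 0, 0, 0, 0, 0, 0, 0, 0, 0, 0, 0, 0, 0, 0, -1, 0], 1),
    (false, [0, 0, 0, 0, 0, 0, 0, 0, 0, 0, 0, 1, 1, 1, 0, 0, 0, 0, 0, 0, 0, 0, 0, 0, 0, 0, 0, 0, 0, 0, 0, 0, 0, 0, -1], 1),
    (false, [0, 0, 0, 0, 0, 0, 0, 0, 0, 0, 0, 0, 0, 0, 1, 1, 1, 1, 1, 0, 0, 0, 0, 0, 0, 0, 0, 0, 0, 0, 0, 0, 0, 0, -3], 0),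
    (false, [0, 0, 0, 0, 0, 0, 0, 0, 0, 0, 0, 0, 0, 0, 0, 0, 0, 0, 0, 1, 1, 1, 1, 0, 0, 0, 0, 0, 0, 0, 0, 0, 0, 0, 0], 2),
    (false, [0, 0, 0, 0, 0, 0, 0, 0, 0, 0, 0, 0, 0, 0, 0, 0, 0, 0, 0, 0, 0, 0, 0, 1, 1, 1, 1, 0, 0, 0, 0, 0, 0, 0, 0], 2),
    (false, [0, 1, 4, 0, 1, 4, 4, 1, 0, 1, 4, 0, 1, 4, 4, 1, 0, 1, 4, 1, 0, 1, 4, 1, 0, 1, 4, 0, 1, 4, 0, 0, 0, -8, -4], 7),
    (false, [4, 1, 0, 4, 1, 0, 4, 1, 0, 1, 4, 4, 1, 0, 4, 1, 0, 1, 4, 4, 1, 0, 1, 4, 1, 0, 1, 0, 1, 4, 0, 0, 0, -8, -4], 7),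
    (false, [-1, -1, -1, -1, -1, -1, 1, 1, 1, 1, 1, -1, -1, -1, 1, 1, 1, 1, 1, 0, 0, 0, 0, 0, 0, 0, 0, 1, 1, 1, -1, 0, 0, 0, 0], 0),
    (false, [1, 1, 1, -1, -1, -1, -1, -1, -1, -1, -1, 0, 0, 0, 0, 0, 0, 0, 0, 1, 1, 1, 1, 0, 0, 0, 0, 1, 1, 1, 0, -1, 0, 0, 0], 0),
    (false, [-1, 0, 1, -1, 0, 1, -1, 0, 1, 0, -1, -1, 0, 1, -1, 0, 1, 0, -1, -1, 0, 1, 0, -1, 0, 1, 0, 1, 0, -1, 0, 0, -1, 0, 0], 0),
    (true, [-1, -1, -1, 1, 1, 1, -1, -1, -1, -1, -1, 0, 0, 0, 0, 0, 0, 0, 0, 0, 0, 0, 0, 1, 1, 1, 1, 1, 1, 1, 0, 0, 0, 0, 0], 0),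
    (true, [1, 0, -1, 1, 0, -1, -1, 0, 1, 0, -1, 1, 0, -1, -1, 0, 1, 0, -1, 0, 1, 0, -1, 0, 1, 0, -1, 1, 0, -1, 0, 0, 0, 0, 0], 0),
    (true, [4, 1, 0, 0, 1, 4, 16, 9, 4, 1, 0, 1, 0, 1, 9, 4, 1, 0, 1, 4, 1, 0, 1, 1, 0, 1, 4, 0, 1, 4, 0, 0, 0, 0, 0], 1),
    (true, [0, 0, 0, 0, 0, 0, 0, 0, 0, 0, 0, 0, 0, 0, 0, 0, 0, 0, 0, 0, 0, 0, 0, 0, 0, 0, 0, 0, 0, 0, 0, 0, 0, 1, 0], 0),
    (true, [0, 0, 0, 0, 0, 0, 0, 0, 0, 0, 0, 0, 0, 0, 0, 0, 0, 0, 0, 0, 0, 0, 0, 0, 0, 0, 0, 0, 0, 0, 0, 0, 0, 0, 1], 0),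
    (false, [4, 1, 0, 0, 1, 4, 16, 9, 4, 1, 0, 1, 0, 1, 9, 4, 1, 0, 1, 4, 1, 0, 1, 1, 0, 1, 4, 0, 1, 4, 0, 0, 0, -8, -4], 8),
    (true, [1, 0, -1, -1, 0, 1, 0, 0, 1, 0, -1, 0, -1, 0, 0, 1, 0, -1, 0, 1, 0, -1, 0, 0, -1, 0, 1, -1, 0, 1, 0, 0, 0, 0, 0], 1)]
  moves := EB31_moves1
  reqs := EB31_reqs1
  tree := EB31_1_3_0_tree

theorem EB31_1_3_0_ok : EB31.instOK 1 3 0 EB31_1_3_0 = true := by
  decide +kernel

theorem EB31_ok1 : ∀ b ∈ EB31.branches, ∃ I : Inst, EB31.instOK 1 b.1 b.2 I = true := by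
  intro b hb
  have h : b = (0, 0) ∨ b = (1, 0) ∨ b = (2, 0) ∨ b = (3, 0) := by
    have hb2 : b ∈ [(0, 0), (1, 0), (2, 0), (3, 0)] := hb
    simpa using hb2
  rcases h with rfl | rfl | rfl | rfl
  · exact ⟨EB31_1_0_0, EB31_1_0_0_ok⟩
  · exact ⟨EB31_1_1_0, EB31_1_1_0_ok⟩
  · exact ⟨EB31_1_2_0, EB31_1_2_0_ok⟩
  · exact ⟨EB31_1_3_0, EB31_1_3_0_ok⟩

end Pool.Agent.helper1.CAD
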