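import Pool.Agent.helper1.CAD.Sound

namespace Pool.Agent.helper1.CAD

set_option maxRecDepth 100000

def EBi : Spec where
  K := .B
  tys := [(1, 2, [1], 1), (1, 0, [3], 2)]
  kc := ([2], 2)
  pmin := [0]
  sl := (0, 0)
  good := false
  pv := 1
  px := 0
  pvx := 1

def EBi_moves0 : List Move :=
   [([((1, 2, 1), 0), ((1, 0, 1), 2)], 0),
    ([((1, 2, 2), 0), ((1, 0, 2), 2)], 0),
    ([((1, 2, 0), 0), ((1, 0, 0), 2)], 0),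
    ([((1, 2, 2), 1), ((1, 0, -1), -1), ((1, 0, 1), 1)], 1),
    ([((1, 2, 1), 1), ((1, 0, -1), -1), ((1, 0, 0), 1)], 1),
    ([((1, 2, 1), 0), ((1, 2, 1), 0), ((1, 0, 0), 2), ((1, 0, 2), 2)], 0),
    ([((1, 2, 1), 1), ((1, 2, 1), 1), ((1, 0, -2), -1), ((1, 0, 0), 2)], 1)]

def EBi_reqs0 : List (List ℤ) :=
   [[0, 1, 0, 0, 0, 0, 1, 0, 0, 0, 0, 0, 0, 0, 0],
    [0, 0, 1, 0, 0, 0, 0, 1, 0, 0, 0, 0, 0, 0, 0],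
    [1, 0, 0, 0, 0, 1, 0, 0, 0, 0, 0, 0, 0, 0, 0],
    [0, 0, 1, 0, 1, 0, 1, 0, 0, 0, 0, 1, 0, 0, 0],
    [0, 1, 0, 0, 1, 1, 0, 0, 0, 0, 0, 1, 0, 0, 0],
    [0, 2, 0, 0, 0, 1, 0, 1, 0, 0, 0, 0, 0, 0, 0],
    [0, 2, 0, 1, 0, 1, 0, 0, 0, 0, 0, 1, 0, 0, 0]]

def EBi_base0 : List Row :=
   [(false, [1, 1, 1, 0, 0, 0, 0, 0, 0, 0, 0, 0, 0, 0, -1], 1),
    (false, [0, 0, 0, 1, 1, 1, 1, 1, 0, 0, 0, 0, 0, 0, -3], 2),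
    (false, [0, 1, 4, 4, 1, 0, 1, 4, 0, 1, 4, 0, 0, 0, -4], 4),
    (false, [4, 1, 0, 4, 1, 0, 1, 4, 0, 1, 4, 0, 0, 0, -4], 4),
    (false, [-1, -1, -1, 1, 1, 1, 1, 1, 1, 1, 1, -1, 0, 0, 0], 0),
    (false, [0, 0, 0, 0, 0, 0, 0, 0, 1, 1, 1, 0, -1, 0, 0], 0),
    (false, [-1, 0, 1, -1, 0, 1, 0, -1, 1, 0, -1, 0, 0, -1, 0], 0),
    (true, [0, 0, 0, 0, 0, 0, 0, 0, 1, 1, 1, 0, 0, 0, 0], 0),
    (true, [0, 0, 0, 0, 0, 0, 0, 0, -1, -1, -1, 0, 0, 0, 0], 0),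
    (true, [1, 0, -1, -1, 0, 1, 0, -1, 1, 0, -1, 0, 0, 0, 0], 0),
    (true, [1, 0, 1, 9, 4, 1, 0, 1, 0, 1, 4, 0, 0, 0, 0], 1),
    (true, [0, 0, 0, 0, 0, 0, 0, 0, 0, 0, 0, 0, 0, 0, 1], 0)]

def EBi_0_0_0_tree : Tree :=
  (.br 5 0
  (.br 6 0
   (.br 2 0
    (.fk [(0, -1), (1, -1), (2, 3), (3, -2), (6, 3), (8, 3)])
    (.fk [(0, 4), (1, 4), (2, -1), (3, -3), (8, 8), (9, 8)]))
   (.br 1 0
    (.br 11 0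
     (.fk [(0, -10), (1, 2), (2, 1), (3, 1), (4, -6), (5, 2), (6, 2), (7, 2), (8, 2), (9, 2), (11, 2)])
     (.br 4 0
      (.fk [(0, 12), (1, 8), (2, -1), (3, -7), (8, 12), (9, 12), (11, 12), (12, 4)])
      (.br 2 0
       (.fk [(0, 2), (1, -2), (2, 2), (3, -1), (6, 2), (8, 2)])
       (.mv 3))))
    (.mv 0)))
  (.br 0 0
   (.br 1 0
    (.fk [(0, 8), (1, -4), (2, -7), (3, 8), (7, 4), (8, 8)])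
    (.br 6 0
     (.br 11 0
      (.fk [(0, -25), (1, 4), (2, 1), (3, 4), (4, -16), (5, 4), (6, 4), (7, 4), (8, 4), (9, 4), (11, 4)])
      (.br 4 0
       (.br 7 0
        (.br 1 1
         (.br 5 1
          (.fk [(0, 1), (1, 2), (2, -3), (3, 2), (4, 2), (8, 2), (11, 2)])
          (.fk [(0, 8), (1, -4), (2, -3), (3, 4), (8, 4)]))
         (.br 3 0
          (.fk [(0, -4), (2, -3), (3, 4), (8, 4)])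
          (.mv 6)))
        (.br 1 1
         (.fk [(0, 31), (1, -9), (2, -10), (3, 8), (4, 8), (8, 8), (12, 1)])
         (.mv 5)))
       (.mv 4)))
     (.mv 0)))
   (.mv 2)))

def EBi_0_0_0 : Inst where
  rows :=
   [(false, [1, 1, 1, 0, 0, 0, 0, 0, 0, 0, 0, 0, 0, 0, -1], 1),
    (false, [0, 0, 0, 1, 1, 1, 1, 1, 0, 0, 0, 0, 0, 0, -3], 2),
    (false, [0, 1, 4, 4, 1, 0, 1, 4, 0, 1, 4, 0, 0, 0, -4], 4),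
    (false, [4, 1, 0, 4, 1, 0, 1, 4, 0, 1, 4, 0, 0, 0, -4], 4),
    (false, [-1, -1, -1, 1, 1, 1, 1, 1, 1, 1, 1, -1, 0, 0, 0], 0),
    (false, [0, 0, 0, 0, 0, 0, 0, 0, 1, 1, 1, 0, -1, 0, 0], 0),
    (false, [-1, 0, 1, -1, 0, 1, 0, -1, 1, 0, -1, 0, 0, -1, 0], 0),
    (true, [0, 0, 0, 0, 0, 0, 0, 0, 1, 1, 1, 0, 0, 0, 0], 0),
    (true, [0, 0, 0, 0, 0, 0, 0, 0, -1, -1, -1, 0, 0, 0, 0], 0),
    (true, [1, 0, -1, -1, 0, 1, 0, -1, 1, 0, -1, 0, 0, 0, 0], 0),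
    (true, [1, 0, 1, 9, 4, 1, 0, 1, 0, 1, 4, 0, 0, 0, 0], 1),
    (true, [0, 0, 0, 0, 0, 0, 0, 0, 0, 0, 0, 0, 0, 0, 1], 0),
    (true, [1, 0, 1, 9, 4, 1, 0, 1, 0, 1, 4, 0, 0, 0, -4], 4)]
  moves := EBi_moves0
  reqs := EBi_reqs0
  tree := EBi_0_0_0_tree

theorem EBi_0_0_0_ok : EBi.instOK 0 0 0 EBi_0_0_0 = true := by
  decide +kernel

def EBi_0_1_0_tree : Tree :=
  (.br 1 0
  (.br 0 0
   (.fk [(0, 1), (2, -1), (3, 1), (7, 1), (8, 1), (11, 1)])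
   (.br 5 0
    (.fk [(0, 4), (1, 4), (2, 1), (3, -5), (8, 8), (9, 8)])
    (.mv 2)))
  (.br 6 0
   (.br 5 0
    (.fk [(0, -64), (1, 60), (2, 35), (3, -31), (8, 60), (9, 60), (11, 60), (12, 16)])
    (.br 0 0
     (.br 11 0
      (.fk [(0, -25), (1, 4), (2, 1), (3, 4), (4, -16), (5, 4), (6, 4), (7, 4), (8, 4), (9, 4), (11, 4)])
      (.br 4 0
       (.br 7 0
        (.fk [(0, -2), (1, 1), (2, 1), (3, 1), (4, 1), (8, 1), (11, 1), (12, 2)])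
        (.br 1 1
         (.fk [(0, 16), (1, -4), (2, -5), (3, 4), (4, 4), (8, 4)])
         (.mv 5)))
       (.mv 4)))
     (.mv 2)))
   (.mv 0)))

def EBi_0_1_0 : Inst where
  rows :=
   [(false, [1, 1, 1, 0, 0, 0, 0, 0, 0, 0, 0, 0, 0, 0, -1], 1),
    (false, [0, 0, 0, 1, 1, 1, 1, 1, 0, 0, 0, 0, 0, 0, -3], 2),
    (false, [0, 1, 4, 4, 1, 0, 1, 4, 0, 1, 4, 0, 0, 0, -4], 4),
    (false, [4, 1, 0, 4, 1, 0, 1, 4, 0, 1, 4, 0, 0, 0, -4], 4),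
    (false, [-1, -1, -1, 1, 1, 1, 1, 1, 1, 1, 1, -1, 0, 0, 0], 0),
    (false, [0, 0, 0, 0, 0, 0, 0, 0, 1, 1, 1, 0, -1, 0, 0], 0),
    (false, [-1, 0, 1, -1, 0, 1, 0, -1, 1, 0, -1, 0, 0, -1, 0], 0),
    (true, [0, 0, 0, 0, 0, 0, 0, 0, 1, 1, 1, 0, 0, 0, 0], 0),
    (true, [0, 0, 0, 0, 0, 0, 0, 0, -1, -1, -1, 0, 0, 0, 0], 0),
    (true, [1, 0, -1, -1, 0, 1, 0, -1, 1, 0, -1, 0, 0, 0, 0], 0),
    (true, [1, 0, 1, 9, 4, 1, 0, 1, 0, 1, 4, 0, 0, 0, 0], 1),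
    (true, [0, 0, 0, 0, 0, 0, 0, 0, 0, 0, 0, 0, 0, 0, 1], 0),
    (true, [-1, 0, -1, -9, -4, -1, 0, -1, 0, -1, -4, 0, 0, 0, 4], -2)]
  moves := EBi_moves0
  reqs := EBi_reqs0
  tree := EBi_0_1_0_tree

theorem EBi_0_1_0_ok : EBi.instOK 0 1 0 EBi_0_1_0 = true := by
  decide +kernel

def EBi_0_2_0_tree : Tree :=
  (.br 6 0
  (.br 7 0
   (.fk [(0, -1), (1, 1), (2, 1), (3, 1), (4, 1), (8, 1), (11, 1), (12, -2), (13, 1)])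
   (.br 2 0
    (.br 5 0
     (.fk [(0, 1), (1, 5), (2, 5), (3, -6), (8, 5), (9, 5), (11, 5), (12, -1), (13, 5)])
     (.br 1 0
      (.fk [(0, 4), (2, 4), (3, -5), (8, 4), (13, 4)])
      (.br 1 1
       (.fk [(0, 4), (2, 4), (3, -5), (7, 4), (8, 4), (13, 4)])
       (.mv 5))))
    (.mv 1)))
  (.br 1 0
   (.br 5 0
    (.fk [(0, 8), (1, 4), (2, -1), (3, -3), (8, 4), (9, 4), (11, 4), (13, 4)])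
    (.br 0 0
     (.fk [(0, 16), (1, -12), (2, -9), (3, 16), (6, 14), (8, 16), (12, -2), (13, 16)])
     (.mv 2)))
   (.mv 0)))

def EBi_0_2_0 : Inst where
  rows :=
   [(false, [1, 1, 1, 0, 0, 0, 0, 0, 0, 0, 0, 0, 0, 0, -1], 1),
    (false, [0, 0, 0, 1, 1, 1, 1, 1, 0, 0, 0, 0, 0, 0, -3], 2),
    (false, [0, 1, 4, 4, 1, 0, 1, 4, 0, 1, 4, 0, 0, 0, -4], 4),
    (false, [4, 1, 0, 4, 1, 0, 1, 4, 0, 1, 4, 0, 0, 0, -4], 4),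
    (false, [-1, -1, -1, 1, 1, 1, 1, 1, 1, 1, 1, -1, 0, 0, 0], 0),
    (false, [0, 0, 0, 0, 0, 0, 0, 0, 1, 1, 1, 0, -1, 0, 0], 0),
    (false, [-1, 0, 1, -1, 0, 1, 0, -1, 1, 0, -1, 0, 0, -1, 0], 0),
    (true, [0, 0, 0, 0, 0, 0, 0, 0, 1, 1, 1, 0, 0, 0, 0], 0),
    (true, [0, 0, 0, 0, 0, 0, 0, 0, -1, -1, -1, 0, 0, 0, 0], 0),
    (true, [1, 0, -1, -1, 0, 1, 0, -1, 1, 0, -1, 0, 0, 0, 0], 0),
    (true, [1, 0, 1, 9, 4, 1, 0, 1, 0, 1, 4, 0, 0, 0, 0], 1),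
    (true, [0, 0, 0, 0, 0, 0, 0, 0, 0, 0, 0, 0, 0, 0, 1], 0),
    (false, [1, 0, 1, 9, 4, 1, 0, 1, 0, 1, 4, 0, 0, 0, -4], 3),
    (true, [0, 0, 0, 1, 0, 0, 0, 0, 0, 0, 0, 0, 0, 0, 0], 1)]
  moves := EBi_moves0
  reqs := EBi_reqs0
  tree := EBi_0_2_0_tree

theorem EBi_0_2_0_ok : EBi.instOK 0 2 0 EBi_0_2_0 = true := by
  decide +kernel

def EBi_0_3_0_tree : Tree :=
  (.fk [(0, 1), (1, 1), (5, 1), (7, 1), (8, 1), (12, -1), (13, 1)])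

def EBi_0_3_0 : Inst where
  rows :=
   [(false, [1, 1, 1, 0, 0, 0, 0, 0, 0, 0, 0, 0, 0, 0, -1], 1),
    (false, [0, 0, 0, 1, 1, 1, 1, 1, 0, 0, 0, 0, 0, 0, -3], 2),
    (false, [0, 1, 4, 4, 1, 0, 1, 4, 0, 1, 4, 0, 0, 0, -4], 4),
    (false, [4, 1, 0, 4, 1, 0, 1, 4, 0, 1, 4, 0, 0, 0, -4], 4),
    (false, [-1, -1, -1, 1, 1, 1, 1, 1, 1, 1, 1, -1, 0, 0, 0], 0),
    (false, [0, 0, 0, 0, 0, 0, 0, 0, 1, 1, 1, 0, -1, 0, 0], 0),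
    (false, [-1, 0, 1, -1, 0, 1, 0, -1, 1, 0, -1, 0, 0, -1, 0], 0),
    (true, [0, 0, 0, 0, 0, 0, 0, 0, 1, 1, 1, 0, 0, 0, 0], 0),
    (true, [0, 0, 0, 0, 0, 0, 0, 0, -1, -1, -1, 0, 0, 0, 0], 0),
    (true, [1, 0, -1, -1, 0, 1, 0, -1, 1, 0, -1, 0, 0, 0, 0], 0),
    (true, [1, 0, 1, 9, 4, 1, 0, 1, 0, 1, 4, 0, 0, 0, 0], 1),
    (true, [0, 0, 0, 0, 0, 0, 0, 0, 0, 0, 0, 0, 0, 0, 1], 0),
    (false, [1, 0, 1, 9, 4, 1, 0, 1, 0, 1, 4, 0, 0, 0, -4], 3),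
    (true, [0, -1, 0, 0, 1, 0, -1, 0, -1, 0, 1, 0, 0, 0, 0], 1)]
  moves := EBi_moves0
  reqs := EBi_reqs0
  tree := EBi_0_3_0_tree

theorem EBi_0_3_0_ok : EBi.instOK 0 3 0 EBi_0_3_0 = true := by
  decide +kernel

theorem EBi_ok0 : ∀ b ∈ EBi.branches, ∃ I : Inst, EBi.instOK 0 b.1 b.2 I = true := by
  intro b hb
  have h : b = (0, 0) ∨ b = (1, 0) ∨ b = (2, 0) ∨ b = (3, 0) := by
    have hb2 : b ∈ [(0, 0), (1, 0), (2, 0), (3, 0)] := hb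
    simpa using hb2
  rcases h with rfl | rfl | rfl | rfl
  · exact ⟨EBi_0_0_0, EBi_0_0_0_ok⟩
  · exact ⟨EBi_0_1_0, EBi_0_1_0_ok⟩
  · exact ⟨EBi_0_2_0, EBi_0_2_0_ok⟩
  · exact ⟨EBi_0_3_0, EBi_0_3_0_ok⟩

def EBi_moves1 : List Move :=
   [([((1, 2, 0), 0), ((1, 0, 0), 2)], 0),
    ([((1, 2, 1), 0), ((1, 0, 1), 2)], 0),
    ([((1, 2, 1), 0), ((1, 2, 1), 0), ((1, 0, 0), 2), ((1, 0, 2), 2)], 0),
    ([((1, 2, 1), 1), ((1, 0, -1), -1), ((1, 0, -1), 1)], 1),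
    ([((1, 2, 1), 1), ((1, 2, 1), 1), ((1, 0, -1), -1), ((1, 0, 0), 2)], 1),
    ([((1, 2, 1), 1), ((1, 0, 0), -1), ((1, 0, 0), 1)], 1)]

def EBi_reqs1 : List (List ℤ) :=
   [[1, 0, 0, 0, 0, 1, 0, 0, 0, 0, 0, 0, 0, 0, 0],
    [0, 1, 0, 0, 0, 0, 1, 0, 0, 0, 0, 0, 0, 0, 0],
    [0, 2, 0, 0, 0, 1, 0, 1, 0, 0, 0, 0, 0, 0, 0],
    [0, 1, 0, 0, 2, 0, 0, 0, 0, 0, 0, 1, 0, 0, 0],
    [0, 2, 0, 0, 1, 1, 0, 0, 0, 0, 0, 1, 0, 0, 0],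
    [0, 1, 0, 0, 0, 2, 0, 0, 0, 0, 0, 1, 0, 1, 0]]

def EBi_base1 : List Row :=
   [(false, [1, 1, 1, 0, 0, 0, 0, 0, 0, 0, 0, 0, 0, 0, -1], 1),
    (false, [0, 0, 0, 1, 1, 1, 1, 1, 0, 0, 0, 0, 0, 0, -3], 2),
    (false, [0, 1, 4, 4, 1, 0, 1, 4, 0, 1, 4, 0, 0, 0, -4], 3),
    (false, [4, 1, 0, 4, 1, 0, 1, 4, 0, 1, 4, 0, 0, 0, -4], 3),
    (false, [-1, -1, -1, 1, 1, 1, 1, 1, 1, 1, 1, -1, 0, 0, 0], 0),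
    (false, [0, 0, 0, 0, 0, 0, 0, 0, 1, 1, 1, 0, -1, 0, 0], 0),
    (false, [-1, 0, 1, -1, 0, 1, 0, -1, 1, 0, -1, 0, 0, -1, 0], 0),
    (true, [0, 0, 0, 0, 0, 0, 0, 0, 1, 1, 1, 0, 0, 0, 0], 0),
    (true, [0, 0, 0, 0, 0, 0, 0, 0, -1, -1, -1, 0, 0, 0, 0], 0),
    (true, [1, 0, -1, -1, 0, 1, 0, -1, 1, 0, -1, 0, 0, 0, 0], 0),
    (true, [1, 0, 1, 9, 4, 1, 0, 1, 0, 1, 4, 0, 0, 0, 0], 1),
    (true, [0, 0, 0, 0, 0, 0, 0, 0, 0, 0, 0, 0, 0, 0, 1], 0)]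

def EBi_1_0_0_tree : Tree :=
  (.br 5 0
  (.br 1 0
   (.fk [(0, 8), (1, 4), (2, -1), (3, -3), (8, 4), (9, 4), (11, 4)])
   (.br 6 0
    (.br 4 0
     (.fk [(0, 5), (1, 5), (2, -1), (3, -8), (8, 5), (9, 5), (12, 4)])
     (.br 4 1
      (.fk [(0, -2), (1, 2), (2, 1), (3, -1), (8, 2), (9, 2), (11, 4)])
      (.br 11 0
       (.fk [(0, -32), (1, 4), (2, 1), (3, 7), (4, -16), (6, 16), (8, 4), (9, 4), (11, 4)])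
       (.mv 3))))
    (.mv 1)))
  (.br 0 0
   (.br 1 0
    (.fk [(0, 1), (2, -1), (3, 1), (7, 1), (8, 1), (11, 1)])
    (.br 6 0
     (.br 5 1
      (.br 7 0
       (.br 11 0
        (.fk [(0, -13), (1, 4), (2, -3), (3, 4), (4, -8), (8, 4)])
        (.br 4 0
         (.fk [(0, 1), (1, 2), (2, -3), (3, 2), (4, 2), (8, 2)])
         (.br 1 1
          (.fk [(0, 11), (1, -5), (2, -3), (3, 4), (8, 4)])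
          (.mv 4))))
       (.fk [(0, 1), (1, 1), (2, -4), (3, 3), (7, 3), (8, 3)]))
      (.br 11 0
       (.fk [(0, -38), (1, 12), (2, -11), (3, 12), (4, -25), (5, 12), (7, 12), (8, 12), (12, 1)])
       (.br 13 0
        (.fk [(0, 1), (1, 1), (2, -2), (3, 1), (5, 1), (6, -3), (7, 1), (8, 1)])
        (.mv 5))))
     (.mv 1)))
   (.mv 0)))

def EBi_1_0_0 : Inst where
  rows :=
   [(false, [1, 1, 1, 0, 0, 0, 0, 0, 0, 0, 0, 0, 0, 0, -1], 1),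
    (false, [0, 0, 0, 1, 1, 1, 1, 1, 0, 0, 0, 0, 0, 0, -3], 2),
    (false, [0, 1, 4, 4, 1, 0, 1, 4, 0, 1, 4, 0, 0, 0, -4], 3),
    (false, [4, 1, 0, 4, 1, 0, 1, 4, 0, 1, 4, 0, 0, 0, -4], 3),
    (false, [-1, -1, -1, 1, 1, 1, 1, 1, 1, 1, 1, -1, 0, 0, 0], 0),
    (false, [0, 0, 0, 0, 0, 0, 0, 0, 1, 1, 1, 0, -1, 0, 0], 0),
    (false, [-1, 0, 1, -1, 0, 1, 0, -1, 1, 0, -1, 0, 0, -1, 0], 0),
    (true, [0, 0, 0, 0, 0, 0, 0, 0, 1, 1, 1, 0, 0, 0, 0], 0),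
    (true, [0, 0, 0, 0, 0, 0, 0, 0, -1, -1, -1, 0, 0, 0, 0], 0),
    (true, [1, 0, -1, -1, 0, 1, 0, -1, 1, 0, -1, 0, 0, 0, 0], 0),
    (true, [1, 0, 1, 9, 4, 1, 0, 1, 0, 1, 4, 0, 0, 0, 0], 1),
    (true, [0, 0, 0, 0, 0, 0, 0, 0, 0, 0, 0, 0, 0, 0, 1], 0),
    (true, [1, 0, 1, 9, 4, 1, 0, 1, 0, 1, 4, 0, 0, 0, -4], 5)]
  moves := EBi_moves1
  reqs := EBi_reqs1
  tree := EBi_1_0_0_tree

theorem EBi_1_0_0_ok : EBi.instOK 1 0 0 EBi_1_0_0 = true := by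
  decide +kernel

def EBi_1_1_0_tree : Tree :=
  (.br 5 0
  (.br 6 0
   (.fk [(0, -1), (1, 15), (2, 5), (3, -4), (8, 15), (9, 15), (11, 15), (12, 4)])
   (.br 1 0
    (.fk [(0, 6), (1, 2), (2, -1), (3, -2), (8, 2), (9, 2)])
    (.mv 1)))
  (.br 0 0
   (.br 1 0
    (.fk [(0, 1), (2, -1), (3, 1), (7, 1), (8, 1), (11, 1)])
    (.br 6 0
     (.br 5 1
      (.fk [(0, -4), (1, 5), (2, -6), (3, 5), (7, 5), (8, 5), (11, 3), (12, 1)])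
      (.br 11 0
       (.fk [(0, -8), (1, 2), (2, -1), (3, 2), (4, -5), (5, 2), (6, 1), (7, 2), (8, 2), (11, 2)])
       (.br 13 0
        (.fk [(0, 10), (1, 6), (2, -12), (3, 6), (4, 4), (5, 3), (6, -15), (7, 6), (8, 6), (12, 1)])
        (.mv 5))))
     (.mv 1)))
   (.mv 0)))

def EBi_1_1_0 : Inst where
  rows :=
   [(false, [1, 1, 1, 0, 0, 0, 0, 0, 0, 0, 0, 0, 0, 0, -1], 1),
    (false, [0, 0, 0, 1, 1, 1, 1, 1, 0, 0, 0, 0, 0, 0, -3], 2),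
    (false, [0, 1, 4, 4, 1, 0, 1, 4, 0, 1, 4, 0, 0, 0, -4], 3),
    (false, [4, 1, 0, 4, 1, 0, 1, 4, 0, 1, 4, 0, 0, 0, -4], 3),
    (false, [-1, -1, -1, 1, 1, 1, 1, 1, 1, 1, 1, -1, 0, 0, 0], 0),
    (false, [0, 0, 0, 0, 0, 0, 0, 0, 1, 1, 1, 0, -1, 0, 0], 0),
    (false, [-1, 0, 1, -1, 0, 1, 0, -1, 1, 0, -1, 0, 0, -1, 0], 0),
    (true, [0, 0, 0, 0, 0, 0, 0, 0, 1, 1, 1, 0, 0, 0, 0], 0),
    (true, [0, 0, 0, 0, 0, 0, 0, 0, -1, -1, -1, 0, 0, 0, 0], 0),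
    (true, [1, 0, -1, -1, 0, 1, 0, -1, 1, 0, -1, 0, 0, 0, 0], 0),
    (true, [1, 0, 1, 9, 4, 1, 0, 1, 0, 1, 4, 0, 0, 0, 0], 1),
    (true, [0, 0, 0, 0, 0, 0, 0, 0, 0, 0, 0, 0, 0, 0, 1], 0),
    (true, [-1, 0, -1, -9, -4, -1, 0, -1, 0, -1, -4, 0, 0, 0, 4], -3)]
  moves := EBi_moves1
  reqs := EBi_reqs1
  tree := EBi_1_1_0_tree

theorem EBi_1_1_0_ok : EBi.instOK 1 1 0 EBi_1_1_0 = true := by
  decide +kernel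

def EBi_1_2_0_tree : Tree :=
  (.br 6 0
  (.br 5 0
   (.fk [(0, -1), (1, 15), (2, 5), (3, -4), (8, 15), (9, 15), (11, 15), (12, -4), (13, 15)])
   (.br 0 0
    (.br 1 0
     (.fk [(0, 8), (1, 1), (2, -8), (3, 8), (7, 8), (8, 8), (11, 7), (12, -1), (13, 8)])
     (.br 1 1
      (.fk [(0, 1), (1, 1), (2, -8), (3, 8), (7, 8), (8, 8), (12, -1), (13, 8)])
      (.br 7 0
       (.fk [(0, -9), (1, 4), (2, 1), (3, 4), (8, 4), (11, 4), (12, -4), (13, 4)])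
       (.mv 2))))
    (.mv 0)))
  (.br 1 0
   (.br 5 0
    (.fk [(0, 68), (1, 20), (2, -13), (3, -23), (8, 20), (9, 20), (12, 4), (13, 20)])
    (.br 0 0
     (.fk [(0, 64), (1, -20), (2, -57), (3, 64), (7, 64), (8, 64), (12, -8), (13, 64)])
     (.mv 0)))
   (.mv 1)))

def EBi_1_2_0 : Inst where
  rows :=
   [(false, [1, 1, 1, 0, 0, 0, 0, 0, 0, 0, 0, 0, 0, 0, -1], 1),
    (false, [0, 0, 0, 1, 1, 1, 1, 1, 0, 0, 0, 0, 0, 0, -3], 2),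
    (false, [0, 1, 4, 4, 1, 0, 1, 4, 0, 1, 4, 0, 0, 0, -4], 3),
    (false, [4, 1, 0, 4, 1, 0, 1, 4, 0, 1, 4, 0, 0, 0, -4], 3),
    (false, [-1, -1, -1, 1, 1, 1, 1, 1, 1, 1, 1, -1, 0, 0, 0], 0),
    (false, [0, 0, 0, 0, 0, 0, 0, 0, 1, 1, 1, 0, -1, 0, 0], 0),
    (false, [-1, 0, 1, -1, 0, 1, 0, -1, 1, 0, -1, 0, 0, -1, 0], 0),
    (true, [0, 0, 0, 0, 0, 0, 0, 0, 1, 1, 1, 0, 0, 0, 0], 0),
    (true, [0, 0, 0, 0, 0, 0, 0, 0, -1, -1, -1, 0, 0, 0, 0], 0),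
    (true, [1, 0, -1, -1, 0, 1, 0, -1, 1, 0, -1, 0, 0, 0, 0], 0),
    (true, [1, 0, 1, 9, 4, 1, 0, 1, 0, 1, 4, 0, 0, 0, 0], 1),
    (true, [0, 0, 0, 0, 0, 0, 0, 0, 0, 0, 0, 0, 0, 0, 1], 0),
    (false, [1, 0, 1, 9, 4, 1, 0, 1, 0, 1, 4, 0, 0, 0, -4], 4),
    (true, [0, 0, 0, 1, 0, 0, 0, 0, 0, 0, 0, 0, 0, 0, 0], 1)]
  moves := EBi_moves1
  reqs := EBi_reqs1
  tree := EBi_1_2_0_tree

theorem EBi_1_2_0_ok : EBi.instOK 1 2 0 EBi_1_2_0 = true := by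
  decide +kernel

def EBi_1_3_0_tree : Tree :=
  (.fk [(0, 1), (1, 1), (5, 1), (7, 3), (8, 3), (12, -1), (13, 3)])

def EBi_1_3_0 : Inst where
  rows :=
   [(false, [1, 1, 1, 0, 0, 0, 0, 0, 0, 0, 0, 0, 0, 0, -1], 1),
    (false, [0, 0, 0, 1, 1, 1, 1, 1, 0, 0, 0, 0, 0, 0, -3], 2),
    (false, [0, 1, 4, 4, 1, 0, 1, 4, 0, 1, 4, 0, 0, 0, -4], 3),
    (false, [4, 1, 0, 4, 1, 0, 1, 4, 0, 1, 4, 0, 0, 0, -4], 3),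
    (false, [-1, -1, -1, 1, 1, 1, 1, 1, 1, 1, 1, -1, 0, 0, 0], 0),
    (false, [0, 0, 0, 0, 0, 0, 0, 0, 1, 1, 1, 0, -1, 0, 0], 0),
    (false, [-1, 0, 1, -1, 0, 1, 0, -1, 1, 0, -1, 0, 0, -1, 0], 0),
    (true, [0, 0, 0, 0, 0, 0, 0, 0, 1, 1, 1, 0, 0, 0, 0], 0),
    (true, [0, 0, 0, 0, 0, 0, 0, 0, -1, -1, -1, 0, 0, 0, 0], 0),
    (true, [1, 0, -1, -1, 0, 1, 0, -1, 1, 0, -1, 0, 0, 0, 0], 0),
    (true, [1, 0, 1, 9, 4, 1, 0, 1, 0, 1, 4, 0, 0, 0, 0], 1),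
    (true, [0, 0, 0, 0, 0, 0, 0, 0, 0, 0, 0, 0, 0, 0, 1], 0),
    (false, [1, 0, 1, 9, 4, 1, 0, 1, 0, 1, 4, 0, 0, 0, -4], 4),
    (true, [0, -1, 0, 0, 1, 0, -1, 0, -1, 0, 1, 0, 0, 0, 0], 1)]
  moves := EBi_moves1
  reqs := EBi_reqs1
  tree := EBi_1_3_0_tree

theorem EBi_1_3_0_ok : EBi.instOK 1 3 0 EBi_1_3_0 = true := by
  decide +kernel

theorem EBi_ok1 : ∀ b ∈ EBi.branches, ∃ I : Inst, EBi.instOK 1 b.1 b.2 I = true := by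
  intro b hb
  have h : b = (0, 0) ∨ b = (1, 0) ∨ b = (2, 0) ∨ b = (3, 0) := by
    have hb2 : b ∈ [(0, 0), (1, 0), (2, 0), (3, 0)] := hb
    simpa using hb2
  rcases h with rfl | rfl | rfl | rfl
  · exact ⟨EBi_1_0_0, EBi_1_0_0_ok⟩
  · exact ⟨EBi_1_1_0, EBi_1_1_0_ok⟩
  · exact ⟨EBi_1_2_0, EBi_1_2_0_ok⟩
  · exact ⟨EBi_1_3_0, EBi_1_3_0_ok⟩

end Pool.Agent.helper1.CAD
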