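import Pool.Agent.helper1.CAD.Sound

namespace Pool.Agent.helper1.CAD

set_option maxRecDepth 100000

def EBii : Spec where
  K := .B
  tys := [(1, 2, [1], 1), (1, 0, [3], 2), (1, 1, [0], 3), (1, -1, [0], 1)]
  kc := ([2], 4)
  pmin := [0]
  sl := (0, -1)
  good := false
  pv := 1
  px := 0
  pvx := 1

def EBii_moves0 : List Move :=
   [([((1, 0, 0), -1), ((1, -1, 0), 0)], 0),
    ([((1, 2, 0), -1), ((1, -1, 0), 2)], 0),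
    ([((1, 0, 1), 1), ((1, 1, 1), 0)], 0),
    ([((1, 2, 1), 1), ((1, 1, 1), 2)], 0),
    ([((1, 0, 1), -1), ((1, -1, 1), 0)], 0),
    ([((1, 2, 2), 0), ((1, 0, 2), 2)], 0),
    ([((1, 1, 0), -1), ((1, -1, 0), 1)], 0),
    ([((1, 0, -1), -1), ((1, -1, -1), 0)], 0),
    ([((1, 1, 0), 0)], 1),
    ([((1, 0, 2), 1), ((1, 1, 2), 0)], 0),
    ([((1, 2, 0), 0), ((1, 0, 0), 2)], 0),
    ([((1, 2, 1), 0), ((1, 0, 1), 2)], 0),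
    ([((1, 2, 1), -1), ((1, -1, 1), 2)], 0),
    ([((1, 1, 1), -1), ((1, -1, 1), 1)], 0),
    ([((1, 1, -1), -1), ((1, -1, -1), 1)], 0),
    ([((1, 2, 1), 1), ((1, 0, 0), 2), ((1, 1, -1), 0)], 0),
    ([((1, 2, 2), 0), ((1, 0, 0), 2), ((1, 1, -1), -1), ((1, -1, 1), 1)], 0)]

def EBii_reqs0 : List (List ℤ) :=
   [[0, 0, 0, 0, 0, 1, 0, 0, 0, 0, 0, 0, 0, 0, 1, 0, 0, 0, 0, 0, 0, 0, 0],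
    [1, 0, 0, 0, 0, 0, 0, 0, 0, 0, 0, 0, 0, 0, 1, 0, 0, 0, 0, 0, 0, 0, 0],
    [0, 0, 0, 0, 0, 0, 1, 0, 0, 0, 1, 0, 0, 0, 0, 0, 0, 0, 0, 0, 0, 0, 0],
    [0, 1, 0, 0, 0, 0, 0, 0, 0, 0, 1, 0, 0, 0, 0, 0, 0, 0, 0, 0, 0, 0, 0],
    [0, 0, 0, 0, 0, 0, 1, 0, 0, 0, 0, 0, 0, 0, 0, 1, 0, 0, 0, 0, 0, 0, 0],
    [0, 0, 1, 0, 0, 0, 0, 1, 0, 0, 0, 0, 0, 0, 0, 0, 0, 0, 0, 0, 0, 0, 0],
    [0, 0, 0, 0, 0, 0, 0, 0, 0, 1, 0, 0, 0, 0, 1, 0, 0, 0, 0, 0, 0, 0, 0],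
    [0, 0, 0, 0, 1, 0, 0, 0, 0, 0, 0, 0, 0, 1, 0, 0, 0, 0, 0, 0, 0, 0, 0],
    [0, 0, 0, 0, 0, 0, 0, 0, 0, 1, 0, 0, 0, 0, 0, 0, 0, 0, 0, 0, 1, 0, 0],
    [0, 0, 0, 0, 0, 0, 0, 1, 0, 0, 0, 1, 0, 0, 0, 0, 0, 0, 0, 0, 0, 0, 0],
    [1, 0, 0, 0, 0, 1, 0, 0, 0, 0, 0, 0, 0, 0, 0, 0, 0, 0, 0, 0, 0, 0, 0],
    [0, 1, 0, 0, 0, 0, 1, 0, 0, 0, 0, 0, 0, 0, 0, 0, 0, 0, 0, 0, 0, 0, 0],
    [0, 1, 0, 0, 0, 0, 0, 0, 0, 0, 0, 0, 0, 0, 0, 1, 0, 0, 0, 0, 0, 0, 0],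
    [0, 0, 0, 0, 0, 0, 0, 0, 0, 0, 1, 0, 0, 0, 0, 1, 0, 0, 0, 0, 0, 0, 0],
    [0, 0, 0, 0, 0, 0, 0, 0, 1, 0, 0, 0, 0, 1, 0, 0, 0, 0, 0, 0, 0, 0, 0],
    [0, 1, 0, 0, 0, 1, 0, 0, 1, 0, 0, 0, 0, 0, 0, 0, 0, 0, 0, 0, 0, 0, 0],
    [0, 0, 1, 0, 0, 1, 0, 0, 1, 0, 0, 0, 0, 0, 0, 1, 0, 0, 0, 0, 0, 0, 0]]

def EBii_base0 : List Row :=
   [(false, [1, 1, 1, 0, 0, 0, 0, 0, 0, 0, 0, 0, 0, 0, 0, 0, 0, 0, 0, 0, 0, 0, -1], 1),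
    (false, [0, 0, 0, 1, 1, 1, 1, 1, 0, 0, 0, 0, 0, 0, 0, 0, 0, 0, 0, 0, 0, 0, -3], 2),
    (false, [0, 0, 0, 0, 0, 0, 0, 0, 1, 1, 1, 1, 0, 0, 0, 0, 0, 0, 0, 0, 0, 0, 0], 3),
    (false, [0, 0, 0, 0, 0, 0, 0, 0, 0, 0, 0, 0, 1, 1, 1, 1, 0, 0, 0, 0, 0, 0, 0], 1),
    (false, [0, 1, 4, 4, 1, 0, 1, 4, 1, 0, 1, 4, 4, 1, 0, 1, 0, 1, 4, 0, 0, 0, -4], 8),
    (false, [4, 1, 0, 4, 1, 0, 1, 4, 4, 1, 0, 1, 1, 0, 1, 4, 0, 1, 4, 0, 0, 0, -4], 8),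
    (false, [-1, -1, -1, 1, 1, 1, 1, 1, 0, 0, 0, 0, 0, 0, 0, 0, 1, 1, 1, -1, 0, 0, 0], 0),
    (false, [0, 0, 0, 0, 0, 0, 0, 0, 1, 1, 1, 1, -1, -1, -1, -1, 1, 1, 1, 0, -1, 0, 0], 0),
    (false, [-1, 0, 1, -1, 0, 1, 0, -1, -1, 0, 1, 0, 0, 1, 0, -1, 1, 0, -1, 0, 0, -1, 0], 0),
    (true, [0, 0, 0, 0, 0, 0, 0, 0, 0, 0, 0, 0, 0, 0, 0, 0, 1, 1, 1, 0, 0, 0, 0], 0),
    (true, [1, 0, -1, -1, 0, 1, 0, -1, 0, 1, 0, -1, -1, 0, 1, 0, 1, 0, -1, 0, 0, 0, 0], 0),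
    (true, [1, 0, 1, 9, 4, 1, 0, 1, 4, 1, 0, 1, 9, 4, 1, 0, 0, 1, 4, 0, 0, 0, 0], 1),
    (true, [0, 0, 0, 0, 0, 0, 0, 0, 0, 0, 0, 0, 0, 0, 0, 0, 0, 0, 0, 0, 0, 0, 1], 0)]

def EBii_0_0_0_tree : Tree :=
  (.br 9 0
  (.br 5 0
   (.br 14 0
    (.br 10 0
     (.fk [(0, 2), (1, 2), (2, 5), (3, 1), (4, -1), (5, -1)])
     (.br 15 0
      (.br 6 0
       (.br 4 0
        (.fk [(0, 4), (1, 16), (2, 3), (3, 3), (4, -3), (5, -1), (12, 16)])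
        (.br 13 0
         (.fk [(0, 4), (1, 4), (2, 3), (3, 13), (4, -3), (5, -1)])
         (.mv 7)))
       (.mv 2))
      (.mv 13)))
    (.br 0 0
     (.br 10 0
      (.fk [(0, 2), (1, 2), (2, 5), (3, -4), (4, -1), (5, -1)])
      (.br 1 0
       (.fk [(0, 4), (1, 1), (2, 1), (3, -1), (4, -1), (12, 1)])
       (.mv 3)))
     (.mv 1)))
   (.br 0 0
    (.br 10 0
     (.br 1 0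
      (.br 14 0
       (.br 2 0
        (.fk [(0, 8), (2, 5), (3, 1), (4, -1), (5, -1)])
        (.br 8 0
         (.fk [(0, 3), (2, 1), (3, -3), (4, -1), (5, 1), (12, 1)])
         (.br 15 0
          (.br 13 0
           (.fk [(0, 4), (2, 1), (3, 4), (4, -1)])
           (.mv 14))
          (.mv 16))))
       (.mv 0))
      (.br 8 0
       (.fk [(2, 3), (3, -3), (4, -1), (5, 1)])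
       (.mv 15)))
     (.br 15 0
      (.br 14 0
       (.br 6 0
        (.br 1 0
         (.br 8 0
          (.fk [(0, 4), (2, 1), (3, 1), (4, -1), (5, 1), (12, 1)])
          (.br 13 0
           (.fk [(0, 4), (2, 1), (3, 4), (4, -1)])
           (.mv 14)))
         (.mv 3))
        (.mv 2))
       (.mv 0))
      (.mv 13)))
    (.mv 10)))
  (.br 14 0
   (.br 20 0
    (.fk [(2, 1), (3, -2), (7, -2), (9, 1)])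
    (.mv 8))
   (.mv 6)))

def EBii_0_0_0 : Inst where
  rows :=
   [(false, [1, 1, 1, 0, 0, 0, 0, 0, 0, 0, 0, 0, 0, 0, 0, 0, 0, 0, 0, 0, 0, 0, -1], 1),
    (false, [0, 0, 0, 1, 1, 1, 1, 1, 0, 0, 0, 0, 0, 0, 0, 0, 0, 0, 0, 0, 0, 0, -3], 2),
    (false, [0, 0, 0, 0, 0, 0, 0, 0, 1, 1, 1, 1, 0, 0, 0, 0, 0, 0, 0, 0, 0, 0, 0], 3),
    (false, [0, 0, 0, 0, 0, 0, 0, 0, 0, 0, 0, 0, 1, 1, 1, 1, 0, 0, 0, 0, 0, 0, 0], 1),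
    (false, [0, 1, 4, 4, 1, 0, 1, 4, 1, 0, 1, 4, 4, 1, 0, 1, 0, 1, 4, 0, 0, 0, -4], 8),
    (false, [4, 1, 0, 4, 1, 0, 1, 4, 4, 1, 0, 1, 1, 0, 1, 4, 0, 1, 4, 0, 0, 0, -4], 8),
    (false, [-1, -1, -1, 1, 1, 1, 1, 1, 0, 0, 0, 0, 0, 0, 0, 0, 1, 1, 1, -1, 0, 0, 0], 0),
    (false, [0, 0, 0, 0, 0, 0, 0, 0, 1, 1, 1, 1, -1, -1, -1, -1, 1, 1, 1, 0, -1, 0, 0], 0),
    (false, [-1, 0, 1, -1, 0, 1, 0, -1, -1, 0, 1, 0, 0, 1, 0, -1, 1, 0, -1, 0, 0, -1, 0], 0),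
    (true, [0, 0, 0, 0, 0, 0, 0, 0, 0, 0, 0, 0, 0, 0, 0, 0, 1, 1, 1, 0, 0, 0, 0], 0),
    (true, [1, 0, -1, -1, 0, 1, 0, -1, 0, 1, 0, -1, -1, 0, 1, 0, 1, 0, -1, 0, 0, 0, 0], 0),
    (true, [1, 0, 1, 9, 4, 1, 0, 1, 4, 1, 0, 1, 9, 4, 1, 0, 0, 1, 4, 0, 0, 0, 0], 1),
    (true, [0, 0, 0, 0, 0, 0, 0, 0, 0, 0, 0, 0, 0, 0, 0, 0, 0, 0, 0, 0, 0, 0, 1], 0),
    (true, [1, 0, 1, 9, 4, 1, 0, 1, 4, 1, 0, 1, 9, 4, 1, 0, 0, 1, 4, 0, 0, 0, -4], 8)]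
  moves := EBii_moves0
  reqs := EBii_reqs0
  tree := EBii_0_0_0_tree

theorem EBii_0_0_0_ok : EBii.instOK 0 0 0 EBii_0_0_0 = true := by
  decide +kernel

def EBii_0_1_0_tree : Tree :=
  (.br 9 0
  (.br 5 0
   (.br 14 0
    (.br 10 0
     (.fk [(0, 2), (1, 2), (2, 5), (3, 1), (4, -1), (5, -1)])
     (.br 15 0
      (.br 6 0
       (.fk [(0, 1), (1, 5), (2, 1), (3, 5), (4, -1), (12, 5), (13, 1)])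
       (.mv 2))
      (.mv 13)))
    (.br 0 0
     (.br 10 0
      (.fk [(0, 2), (1, 2), (2, 5), (3, -4), (4, -1), (5, -1)])
      (.br 1 0
       (.fk [(0, 82), (1, 11), (2, 11), (3, -13), (4, -19), (5, 8), (12, 11), (13, 6)])
       (.mv 3)))
     (.mv 1)))
   (.br 0 0
    (.br 1 0
     (.fk [(0, 9), (1, 1), (2, 2), (3, -2), (4, -2), (5, 1), (12, 2), (13, 1)])
     (.br 10 0
      (.br 15 0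
       (.br 14 0
        (.br 6 0
         (.br 8 0
          (.fk [(2, 1), (3, 1), (4, -1), (5, 1)])
          (.mv 15))
         (.mv 11))
        (.mv 0))
       (.mv 12))
      (.mv 3)))
    (.mv 10)))
  (.br 14 0
   (.br 20 0
    (.fk [(2, 1), (3, -2), (7, -2), (9, 1)])
    (.mv 8))
   (.mv 6)))

def EBii_0_1_0 : Inst where
  rows :=
   [(false, [1, 1, 1, 0, 0, 0, 0, 0, 0, 0, 0, 0, 0, 0, 0, 0, 0, 0, 0, 0, 0, 0, -1], 1),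
    (false, [0, 0, 0, 1, 1, 1, 1, 1, 0, 0, 0, 0, 0, 0, 0, 0, 0, 0, 0, 0, 0, 0, -3], 2),
    (false, [0, 0, 0, 0, 0, 0, 0, 0, 1, 1, 1, 1, 0, 0, 0, 0, 0, 0, 0, 0, 0, 0, 0], 3),
    (false, [0, 0, 0, 0, 0, 0, 0, 0, 0, 0, 0, 0, 1, 1, 1, 1, 0, 0, 0, 0, 0, 0, 0], 1),
    (false, [0, 1, 4, 4, 1, 0, 1, 4, 1, 0, 1, 4, 4, 1, 0, 1, 0, 1, 4, 0, 0, 0, -4], 8),
    (false, [4, 1, 0, 4, 1, 0, 1, 4, 4, 1, 0, 1, 1, 0, 1, 4, 0, 1, 4, 0, 0, 0, -4], 8),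
    (false, [-1, -1, -1, 1, 1, 1, 1, 1, 0, 0, 0, 0, 0, 0, 0, 0, 1, 1, 1, -1, 0, 0, 0], 0),
    (false, [0, 0, 0, 0, 0, 0, 0, 0, 1, 1, 1, 1, -1, -1, -1, -1, 1, 1, 1, 0, -1, 0, 0], 0),
    (false, [-1, 0, 1, -1, 0, 1, 0, -1, -1, 0, 1, 0, 0, 1, 0, -1, 1, 0, -1, 0, 0, -1, 0], 0),
    (true, [0, 0, 0, 0, 0, 0, 0, 0, 0, 0, 0, 0, 0, 0, 0, 0, 1, 1, 1, 0, 0, 0, 0], 0),
    (true, [1, 0, -1, -1, 0, 1, 0, -1, 0, 1, 0, -1, -1, 0, 1, 0, 1, 0, -1, 0, 0, 0, 0], 0),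
    (true, [1, 0, 1, 9, 4, 1, 0, 1, 4, 1, 0, 1, 9, 4, 1, 0, 0, 1, 4, 0, 0, 0, 0], 1),
    (true, [0, 0, 0, 0, 0, 0, 0, 0, 0, 0, 0, 0, 0, 0, 0, 0, 0, 0, 0, 0, 0, 0, 1], 0),
    (true, [-1, 0, -1, -9, -4, -1, 0, -1, -4, -1, 0, -1, -9, -4, -1, 0, 0, -1, -4, 0, 0, 0, 4], -6)]
  moves := EBii_moves0
  reqs := EBii_reqs0
  tree := EBii_0_1_0_tree

theorem EBii_0_1_0_ok : EBii.instOK 0 1 0 EBii_0_1_0 = true := by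
  decide +kernel

def EBii_0_2_0_tree : Tree :=
  (.br 10 0
  (.br 9 0
   (.br 6 0
    (.br 7 0
     (.fk [(0, -1), (1, 3), (2, 2), (3, -4), (5, 1), (13, -3), (14, 20)])
     (.br 11 0
      (.br 2 0
       (.fk [(2, 3), (3, -3), (4, 1), (5, -1)])
       (.mv 5))
      (.mv 9)))
    (.br 15 0
     (.br 1 0
      (.br 5 0
       (.fk [(0, 29), (1, 15), (2, 40), (3, 8), (4, -8), (5, -7), (13, -1), (14, 40)])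
       (.br 0 0
        (.fk [(0, 65), (1, -3), (2, 20), (3, 2), (4, -12), (5, 15), (13, -17), (14, 20)])
        (.mv 10)))
      (.mv 11))
     (.mv 4)))
   (.br 20 0
    (.fk [(2, 1), (3, -1), (7, -1), (9, 1)])
    (.mv 8)))
  (.br 6 0
   (.br 1 0
    (.fk [(0, 1), (1, 1), (13, -1), (14, 8)])
    (.mv 3))
   (.mv 2)))

def EBii_0_2_0 : Inst where
  rows :=
   [(false, [1, 1, 1, 0, 0, 0, 0, 0, 0, 0, 0, 0, 0, 0, 0, 0, 0, 0, 0, 0, 0, 0, -1], 1),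
    (false, [0, 0, 0, 1, 1, 1, 1, 1, 0, 0, 0, 0, 0, 0, 0, 0, 0, 0, 0, 0, 0, 0, -3], 2),
    (false, [0, 0, 0, 0, 0, 0, 0, 0, 1, 1, 1, 1, 0, 0, 0, 0, 0, 0, 0, 0, 0, 0, 0], 3),
    (false, [0, 0, 0, 0, 0, 0, 0, 0, 0, 0, 0, 0, 1, 1, 1, 1, 0, 0, 0, 0, 0, 0, 0], 1),
    (false, [0, 1, 4, 4, 1, 0, 1, 4, 1, 0, 1, 4, 4, 1, 0, 1, 0, 1, 4, 0, 0, 0, -4], 8),
    (false, [4, 1, 0, 4, 1, 0, 1, 4, 4, 1, 0, 1, 1, 0, 1, 4, 0, 1, 4, 0, 0, 0, -4], 8),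
    (false, [-1, -1, -1, 1, 1, 1, 1, 1, 0, 0, 0, 0, 0, 0, 0, 0, 1, 1, 1, -1, 0, 0, 0], 0),
    (false, [0, 0, 0, 0, 0, 0, 0, 0, 1, 1, 1, 1, -1, -1, -1, -1, 1, 1, 1, 0, -1, 0, 0], 0),
    (false, [-1, 0, 1, -1, 0, 1, 0, -1, -1, 0, 1, 0, 0, 1, 0, -1, 1, 0, -1, 0, 0, -1, 0], 0),
    (true, [0, 0, 0, 0, 0, 0, 0, 0, 0, 0, 0, 0, 0, 0, 0, 0, 1, 1, 1, 0, 0, 0, 0], 0),
    (true, [1, 0, -1, -1, 0, 1, 0, -1, 0, 1, 0, -1, -1, 0, 1, 0, 1, 0, -1, 0, 0, 0, 0], 0),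
    (true, [1, 0, 1, 9, 4, 1, 0, 1, 4, 1, 0, 1, 9, 4, 1, 0, 0, 1, 4, 0, 0, 0, 0], 1),
    (true, [0, 0, 0, 0, 0, 0, 0, 0, 0, 0, 0, 0, 0, 0, 0, 0, 0, 0, 0, 0, 0, 0, 1], 0),
    (false, [1, 0, 1, 9, 4, 1, 0, 1, 4, 1, 0, 1, 9, 4, 1, 0, 0, 1, 4, 0, 0, 0, -4], 7),
    (true, [0, 0, 0, 1, 0, 0, 0, 0, 0, 0, 0, 0, 1, 0, 0, 0, 0, 0, 0, 0, 0, 0, 0], 1)]
  moves := EBii_moves0
  reqs := EBii_reqs0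
  tree := EBii_0_2_0_tree

theorem EBii_0_2_0_ok : EBii.instOK 0 2 0 EBii_0_2_0 = true := by
  decide +kernel

def EBii_0_3_0_tree : Tree :=
  (.fk [(0, 1), (1, 1), (2, 1), (3, 1), (9, 1), (13, -1), (14, 1)])

def EBii_0_3_0 : Inst where
  rows :=
   [(false, [1, 1, 1, 0, 0, 0, 0, 0, 0, 0, 0, 0, 0, 0, 0, 0, 0, 0, 0, 0, 0, 0, -1], 1),
    (false, [0, 0, 0, 1, 1, 1, 1, 1, 0, 0, 0, 0, 0, 0, 0, 0, 0, 0, 0, 0, 0, 0, -3], 2),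
    (false, [0, 0, 0, 0, 0, 0, 0, 0, 1, 1, 1, 1, 0, 0, 0, 0, 0, 0, 0, 0, 0, 0, 0], 3),
    (false, [0, 0, 0, 0, 0, 0, 0, 0, 0, 0, 0, 0, 1, 1, 1, 1, 0, 0, 0, 0, 0, 0, 0], 1),
    (false, [0, 1, 4, 4, 1, 0, 1, 4, 1, 0, 1, 4, 4, 1, 0, 1, 0, 1, 4, 0, 0, 0, -4], 8),
    (false, [4, 1, 0, 4, 1, 0, 1, 4, 4, 1, 0, 1, 1, 0, 1, 4, 0, 1, 4, 0, 0, 0, -4], 8),
    (false, [-1, -1, -1, 1, 1, 1, 1, 1, 0, 0, 0, 0, 0, 0, 0, 0, 1, 1, 1, -1, 0, 0, 0], 0),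
    (false, [0, 0, 0, 0, 0, 0, 0, 0, 1, 1, 1, 1, -1, -1, -1, -1, 1, 1, 1, 0, -1, 0, 0], 0),
    (false, [-1, 0, 1, -1, 0, 1, 0, -1, -1, 0, 1, 0, 0, 1, 0, -1, 1, 0, -1, 0, 0, -1, 0], 0),
    (true, [0, 0, 0, 0, 0, 0, 0, 0, 0, 0, 0, 0, 0, 0, 0, 0, 1, 1, 1, 0, 0, 0, 0], 0),
    (true, [1, 0, -1, -1, 0, 1, 0, -1, 0, 1, 0, -1, -1, 0, 1, 0, 1, 0, -1, 0, 0, 0, 0], 0),
    (true, [1, 0, 1, 9, 4, 1, 0, 1, 4, 1, 0, 1, 9, 4, 1, 0, 0, 1, 4, 0, 0, 0, 0], 1),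
    (true, [0, 0, 0, 0, 0, 0, 0, 0, 0, 0, 0, 0, 0, 0, 0, 0, 0, 0, 0, 0, 0, 0, 1], 0),
    (false, [1, 0, 1, 9, 4, 1, 0, 1, 4, 1, 0, 1, 9, 4, 1, 0, 0, 1, 4, 0, 0, 0, -4], 7),
    (true, [0, -1, 0, 0, 1, 0, -1, 0, 1, 0, -1, 0, 0, 1, 0, -1, -1, 0, 1, 0, 0, 0, 0], 1)]
  moves := EBii_moves0
  reqs := EBii_reqs0
  tree := EBii_0_3_0_tree

theorem EBii_0_3_0_ok : EBii.instOK 0 3 0 EBii_0_3_0 = true := by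
  decide +kernel

theorem EBii_ok0 : ∀ b ∈ EBii.branches, ∃ I : Inst, EBii.instOK 0 b.1 b.2 I = true := by
  intro b hb
  have h : b = (0, 0) ∨ b = (1, 0) ∨ b = (2, 0) ∨ b = (3, 0) := by
    have hb2 : b ∈ [(0, 0), (1, 0), (2, 0), (3, 0)] := hb
    simpa using hb2
  rcases h with rfl | rfl | rfl | rfl
  · exact ⟨EBii_0_0_0, EBii_0_0_0_ok⟩
  · exact ⟨EBii_0_1_0, EBii_0_1_0_ok⟩
  · exact ⟨EBii_0_2_0, EBii_0_2_0_ok⟩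
  · exact ⟨EBii_0_3_0, EBii_0_3_0_ok⟩

def EBii_moves1 : List Move :=
   [([((1, 2, 1), -1), ((1, -1, 1), 2)], 0),
    ([((1, 1, -1), -1), ((1, -1, -1), 1)], 0),
    ([((1, 2, 1), 0), ((1, 0, 1), 2)], 0),
    ([((1, 0, 0), -1), ((1, -1, 0), 0)], 0),
    ([((1, 0, -1), -1), ((1, -1, -1), 0)], 0),
    ([((1, 0, 0), 1), ((1, 1, 0), 0)], 0),
    ([((1, 1, 0), -1), ((1, -1, 0), 1)], 0),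
    ([((1, 2, 1), 1), ((1, 1, 1), 2)], 0),
    ([((1, 2, 0), -1), ((1, -1, 0), 2)], 0),
    ([((1, 2, 0), 0), ((1, 0, 0), 2)], 0),
    ([((1, 1, 1), -1), ((1, -1, 1), 1)], 0),
    ([((1, 0, 1), 1), ((1, 1, 1), 0)], 0),
    ([((1, 0, 1), -1), ((1, -1, 1), 0)], 0),
    ([((1, 0, 1), 1), ((1, 1, 0), -1), ((1, -1, -1), 0)], 0),
    ([((1, 2, 1), 1), ((1, 0, 0), 2), ((1, 1, -1), 0)], 0),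
    ([((1, 2, 1), 1), ((1, 1, 0), 0), ((1, 1, 0), 2)], 1)]

def EBii_reqs1 : List (List ℤ) :=
   [[0, 1, 0, 0, 0, 0, 0, 0, 0, 0, 0, 0, 0, 0, 0, 1, 0, 0, 0, 0, 0, 0, 0],
    [0, 0, 0, 0, 0, 0, 0, 0, 1, 0, 0, 0, 0, 1, 0, 0, 0, 0, 0, 0, 0, 0, 0],
    [0, 1, 0, 0, 0, 0, 1, 0, 0, 0, 0, 0, 0, 0, 0, 0, 0, 0, 0, 0, 0, 0, 0],
    [0, 0, 0, 0, 0, 1, 0, 0, 0, 0, 0, 0, 0, 0, 1, 0, 0, 0, 0, 0, 0, 0, 0],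
    [0, 0, 0, 0, 1, 0, 0, 0, 0, 0, 0, 0, 0, 1, 0, 0, 0, 0, 0, 0, 0, 0, 0],
    [0, 0, 0, 0, 0, 1, 0, 0, 0, 1, 0, 0, 0, 0, 0, 0, 0, 0, 0, 0, 0, 0, 0],
    [0, 0, 0, 0, 0, 0, 0, 0, 0, 1, 0, 0, 0, 0, 1, 0, 0, 0, 0, 0, 0, 0, 0],
    [0, 1, 0, 0, 0, 0, 0, 0, 0, 0, 1, 0, 0, 0, 0, 0, 0, 0, 0, 0, 0, 0, 0],
    [1, 0, 0, 0, 0, 0, 0, 0, 0, 0, 0, 0, 0, 0, 1, 0, 0, 0, 0, 0, 0, 0, 0],
    [1, 0, 0, 0, 0, 1, 0, 0, 0, 0, 0, 0, 0, 0, 0, 0, 0, 0, 0, 0, 0, 0, 0],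
    [0, 0, 0, 0, 0, 0, 0, 0, 0, 0, 1, 0, 0, 0, 0, 1, 0, 0, 0, 0, 0, 0, 0],
    [0, 0, 0, 0, 0, 0, 1, 0, 0, 0, 1, 0, 0, 0, 0, 0, 0, 0, 0, 0, 0, 0, 0],
    [0, 0, 0, 0, 0, 0, 1, 0, 0, 0, 0, 0, 0, 0, 0, 1, 0, 0, 0, 0, 0, 0, 0],
    [0, 0, 0, 0, 0, 0, 1, 0, 0, 1, 0, 0, 0, 1, 0, 0, 0, 0, 0, 0, 0, 0, 0],
    [0, 1, 0, 0, 0, 1, 0, 0, 1, 0, 0, 0, 0, 0, 0, 0, 0, 0, 0, 0, 0, 0, 0],
    [0, 1, 0, 0, 0, 0, 0, 0, 0, 2, 0, 0, 0, 0, 0, 0, 0, 0, 0, 0, 1, 0, 0]]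

def EBii_base1 : List Row :=
   [(false, [1, 1, 1, 0, 0, 0, 0, 0, 0, 0, 0, 0, 0, 0, 0, 0, 0, 0, 0, 0, 0, 0, -1], 1),
    (false, [0, 0, 0, 1, 1, 1, 1, 1, 0, 0, 0, 0, 0, 0, 0, 0, 0, 0, 0, 0, 0, 0, -3], 2),
    (false, [0, 0, 0, 0, 0, 0, 0, 0, 1, 1, 1, 1, 0, 0, 0, 0, 0, 0, 0, 0, 0, 0, 0], 3),
    (false, [0, 0, 0, 0, 0, 0, 0, 0, 0, 0, 0, 0, 1, 1, 1, 1, 0, 0, 0, 0, 0, 0, 0], 1),
    (false, [0, 1, 4, 4, 1, 0, 1, 4, 1, 0, 1, 4, 4, 1, 0, 1, 0, 1, 4, 0, 0, 0, -4], 7),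
    (false, [4, 1, 0, 4, 1, 0, 1, 4, 4, 1, 0, 1, 1, 0, 1, 4, 0, 1, 4, 0, 0, 0, -4], 7),
    (false, [-1, -1, -1, 1, 1, 1, 1, 1, 0, 0, 0, 0, 0, 0, 0, 0, 1, 1, 1, -1, 0, 0, 0], 0),
    (false, [0, 0, 0, 0, 0, 0, 0, 0, 1, 1, 1, 1, -1, -1, -1, -1, 1, 1, 1, 0, -1, 0, 0], 0),
    (false, [-1, 0, 1, -1, 0, 1, 0, -1, -1, 0, 1, 0, 0, 1, 0, -1, 1, 0, -1, 0, 0, -1, 0], 0),
    (true, [0, 0, 0, 0, 0, 0, 0, 0, 0, 0, 0, 0, 0, 0, 0, 0, 1, 1, 1, 0, 0, 0, 0], 0),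
    (true, [1, 0, -1, -1, 0, 1, 0, -1, 0, 1, 0, -1, -1, 0, 1, 0, 1, 0, -1, 0, 0, 0, 0], 0),
    (true, [1, 0, 1, 9, 4, 1, 0, 1, 4, 1, 0, 1, 9, 4, 1, 0, 0, 1, 4, 0, 0, 0, 0], 1),
    (true, [0, 0, 0, 0, 0, 0, 0, 0, 0, 0, 0, 0, 0, 0, 0, 0, 0, 0, 0, 0, 0, 0, 1], 0)]

def EBii_1_0_0_tree : Tree :=
  (.br 5 0
  (.br 14 0
   (.br 13 0
    (.br 1 0
     (.fk [(0, 4), (1, 2), (2, 1), (3, 5), (4, -1), (5, -1), (12, 2)])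
     (.br 15 0
      (.br 6 0
       (.br 10 0
        (.br 9 0
         (.fk [(0, 2), (1, 2), (2, 5), (3, 5), (4, -1), (5, -1)])
         (.br 9 1
          (.fk [(0, 2), (1, 2), (2, 5), (3, 5), (4, -1), (5, -1)])
          (.br 20 0
           (.fk [(2, 4), (3, -6), (4, -1), (5, 1), (7, -9), (8, 4), (9, 5)])
           (.mv 15))))
        (.mv 7))
       (.mv 2))
      (.mv 0)))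
    (.br 4 0
     (.br 10 0
      (.br 8 0
       (.br 6 0
        (.fk [(0, 4), (1, 16), (2, 3), (3, -15), (4, -1), (5, -3), (12, 16)])
        (.br 9 0
         (.fk [(0, 3), (1, 3), (2, 8), (3, -10), (4, -2), (5, -1), (12, 4), (13, 1)])
         (.mv 13)))
       (.mv 1))
      (.br 6 0
       (.fk [(0, 2), (1, 8), (2, 1), (3, -7), (4, -1), (5, -1), (12, 8)])
       (.mv 11)))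
     (.mv 4)))
   (.br 0 0
    (.br 10 0
     (.br 9 0
      (.fk [(0, 2), (1, 2), (2, 5), (3, -4), (4, -1), (5, -1)])
      (.mv 6))
     (.br 9 0
      (.br 1 0
       (.fk [(0, 4), (1, 1), (2, 1), (3, -1), (4, -1), (12, 1)])
       (.mv 7))
      (.mv 6)))
    (.mv 8)))
  (.br 9 0
   (.br 0 0
    (.br 10 0
     (.br 1 0
      (.br 14 0
       (.fk [(0, 4), (2, 1), (3, 1), (4, -1)])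
       (.mv 3))
      (.br 8 0
       (.fk [(2, 3), (3, -3), (4, -1), (5, 1)])
       (.mv 14)))
     (.br 1 0
      (.br 14 0
       (.fk [(0, 63), (1, -1), (2, 8), (3, 12), (4, -16), (5, 1), (12, 4), (13, 1)])
       (.mv 3))
      (.mv 7)))
    (.mv 9))
   (.mv 5)))

def EBii_1_0_0 : Inst where
  rows :=
   [(false, [1, 1, 1, 0, 0, 0, 0, 0, 0, 0, 0, 0, 0, 0, 0, 0, 0, 0, 0, 0, 0, 0, -1], 1),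
    (false, [0, 0, 0, 1, 1, 1, 1, 1, 0, 0, 0, 0, 0, 0, 0, 0, 0, 0, 0, 0, 0, 0, -3], 2),
    (false, [0, 0, 0, 0, 0, 0, 0, 0, 1, 1, 1, 1, 0, 0, 0, 0, 0, 0, 0, 0, 0, 0, 0], 3),
    (false, [0, 0, 0, 0, 0, 0, 0, 0, 0, 0, 0, 0, 1, 1, 1, 1, 0, 0, 0, 0, 0, 0, 0], 1),
    (false, [0, 1, 4, 4, 1, 0, 1, 4, 1, 0, 1, 4, 4, 1, 0, 1, 0, 1, 4, 0, 0, 0, -4], 7),
    (false, [4, 1, 0, 4, 1, 0, 1, 4, 4, 1, 0, 1, 1, 0, 1, 4, 0, 1, 4, 0, 0, 0, -4], 7),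
    (false, [-1, -1, -1, 1, 1, 1, 1, 1, 0, 0, 0, 0, 0, 0, 0, 0, 1, 1, 1, -1, 0, 0, 0], 0),
    (false, [0, 0, 0, 0, 0, 0, 0, 0, 1, 1, 1, 1, -1, -1, -1, -1, 1, 1, 1, 0, -1, 0, 0], 0),
    (false, [-1, 0, 1, -1, 0, 1, 0, -1, -1, 0, 1, 0, 0, 1, 0, -1, 1, 0, -1, 0, 0, -1, 0], 0),
    (true, [0, 0, 0, 0, 0, 0, 0, 0, 0, 0, 0, 0, 0, 0, 0, 0, 1, 1, 1, 0, 0, 0, 0], 0),
    (true, [1, 0, -1, -1, 0, 1, 0, -1, 0, 1, 0, -1, -1, 0, 1, 0, 1, 0, -1, 0, 0, 0, 0], 0),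
    (true, [1, 0, 1, 9, 4, 1, 0, 1, 4, 1, 0, 1, 9, 4, 1, 0, 0, 1, 4, 0, 0, 0, 0], 1),
    (true, [0, 0, 0, 0, 0, 0, 0, 0, 0, 0, 0, 0, 0, 0, 0, 0, 0, 0, 0, 0, 0, 0, 1], 0),
    (true, [1, 0, 1, 9, 4, 1, 0, 1, 4, 1, 0, 1, 9, 4, 1, 0, 0, 1, 4, 0, 0, 0, -4], 9)]
  moves := EBii_moves1
  reqs := EBii_reqs1
  tree := EBii_1_0_0_tree

theorem EBii_1_0_0_ok : EBii.instOK 1 0 0 EBii_1_0_0 = true := by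
  decide +kernel

def EBii_1_1_0_tree : Tree :=
  (.br 5 0
  (.br 14 0
   (.br 1 0
    (.br 10 0
     (.br 6 0
      (.fk [(0, 1), (1, 5), (2, 2), (3, 4), (5, -1), (12, 5), (13, 1)])
      (.br 15 0
       (.br 9 0
        (.fk [(0, 4), (1, 2), (2, 5), (3, 1), (4, -1), (5, -1), (12, 2)])
        (.br 13 0
         (.fk [(0, 14), (1, 6), (2, 5), (3, 33), (4, -3), (5, -3), (13, 2)])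
         (.mv 13)))
       (.mv 12)))
     (.br 6 0
      (.fk [(0, 5), (1, 6), (2, 1), (3, 5), (4, -1), (5, -1), (12, 6), (13, 1)])
      (.mv 11)))
    (.br 6 0
     (.fk [(0, -4), (1, 5), (3, 4), (5, -1), (12, 3), (13, 1)])
     (.mv 2)))
   (.br 0 0
    (.br 10 0
     (.br 9 0
      (.fk [(0, 2), (1, 2), (2, 5), (3, -4), (4, -1), (5, -1)])
      (.mv 6))
     (.br 9 0
      (.br 1 0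
       (.fk [(0, 82), (1, 11), (2, 11), (3, -13), (4, -19), (5, 8), (12, 11), (13, 6)])
       (.mv 7))
      (.mv 6)))
    (.mv 8)))
  (.br 9 0
   (.br 0 0
    (.br 10 0
     (.br 1 0
      (.fk [(0, 5), (1, 1), (2, 5), (3, 1), (4, -1), (13, 1)])
      (.br 8 0
       (.fk [(2, 3), (3, -3), (4, -1), (5, 1)])
       (.mv 14)))
     (.br 15 0
      (.br 14 0
       (.br 1 0
        (.fk [(0, 11), (1, -1), (2, 2), (3, 11), (4, -2), (5, 3), (13, 3)])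
        (.mv 7))
       (.mv 3))
      (.mv 10)))
    (.mv 9))
   (.mv 5)))

def EBii_1_1_0 : Inst where
  rows :=
   [(false, [1, 1, 1, 0, 0, 0, 0, 0, 0, 0, 0, 0, 0, 0, 0, 0, 0, 0, 0, 0, 0, 0, -1], 1),
    (false, [0, 0, 0, 1, 1, 1, 1, 1, 0, 0, 0, 0, 0, 0, 0, 0, 0, 0, 0, 0, 0, 0, -3], 2),
    (false, [0, 0, 0, 0, 0, 0, 0, 0, 1, 1, 1, 1, 0, 0, 0, 0, 0, 0, 0, 0, 0, 0, 0], 3),
    (false, [0, 0, 0, 0, 0, 0, 0, 0, 0, 0, 0, 0, 1, 1, 1, 1, 0, 0, 0, 0, 0, 0, 0], 1),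
    (false, [0, 1, 4, 4, 1, 0, 1, 4, 1, 0, 1, 4, 4, 1, 0, 1, 0, 1, 4, 0, 0, 0, -4], 7),
    (false, [4, 1, 0, 4, 1, 0, 1, 4, 4, 1, 0, 1, 1, 0, 1, 4, 0, 1, 4, 0, 0, 0, -4], 7),
    (false, [-1, -1, -1, 1, 1, 1, 1, 1, 0, 0, 0, 0, 0, 0, 0, 0, 1, 1, 1, -1, 0, 0, 0], 0),
    (false, [0, 0, 0, 0, 0, 0, 0, 0, 1, 1, 1, 1, -1, -1, -1, -1, 1, 1, 1, 0, -1, 0, 0], 0),
    (false, [-1, 0, 1, -1, 0, 1, 0, -1, -1, 0, 1, 0, 0, 1, 0, -1, 1, 0, -1, 0, 0, -1, 0], 0),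
    (true, [0, 0, 0, 0, 0, 0, 0, 0, 0, 0, 0, 0, 0, 0, 0, 0, 1, 1, 1, 0, 0, 0, 0], 0),
    (true, [1, 0, -1, -1, 0, 1, 0, -1, 0, 1, 0, -1, -1, 0, 1, 0, 1, 0, -1, 0, 0, 0, 0], 0),
    (true, [1, 0, 1, 9, 4, 1, 0, 1, 4, 1, 0, 1, 9, 4, 1, 0, 0, 1, 4, 0, 0, 0, 0], 1),
    (true, [0, 0, 0, 0, 0, 0, 0, 0, 0, 0, 0, 0, 0, 0, 0, 0, 0, 0, 0, 0, 0, 0, 1], 0),
    (true, [-1, 0, -1, -9, -4, -1, 0, -1, -4, -1, 0, -1, -9, -4, -1, 0, 0, -1, -4, 0, 0, 0, 4], -7)]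
  moves := EBii_moves1
  reqs := EBii_reqs1
  tree := EBii_1_1_0_tree

theorem EBii_1_1_0_ok : EBii.instOK 1 1 0 EBii_1_1_0 = true := by
  decide +kernel

def EBii_1_2_0_tree : Tree :=
  (.br 1 0
  (.br 5 0
   (.fk [(0, 4), (1, 2), (2, 1), (3, 1), (4, -1), (5, -1), (12, 2), (14, 4)])
   (.br 0 0
    (.fk [(0, 5), (1, 1), (2, 1), (3, 1), (4, -1), (13, -1), (14, 12)])
    (.mv 9)))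
  (.br 6 0
   (.br 15 0
    (.br 10 0
     (.br 5 0
      (.fk [(0, -4), (1, 5), (2, 2), (3, 2), (5, -1), (12, 3), (13, -1), (14, 5)])
      (.br 14 0
       (.br 9 0
        (.br 0 0
         (.br 8 0
          (.fk [(2, 1), (3, 1), (4, -1), (5, 1)])
          (.mv 14))
         (.mv 9))
        (.mv 5))
       (.mv 3)))
     (.mv 7))
    (.mv 0))
   (.mv 2)))

def EBii_1_2_0 : Inst where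
  rows :=
   [(false, [1, 1, 1, 0, 0, 0, 0, 0, 0, 0, 0, 0, 0, 0, 0, 0, 0, 0, 0, 0, 0, 0, -1], 1),
    (false, [0, 0, 0, 1, 1, 1, 1, 1, 0, 0, 0, 0, 0, 0, 0, 0, 0, 0, 0, 0, 0, 0, -3], 2),
    (false, [0, 0, 0, 0, 0, 0, 0, 0, 1, 1, 1, 1, 0, 0, 0, 0, 0, 0, 0, 0, 0, 0, 0], 3),
    (false, [0, 0, 0, 0, 0, 0, 0, 0, 0, 0, 0, 0, 1, 1, 1, 1, 0, 0, 0, 0, 0, 0, 0], 1),
    (false, [0, 1, 4, 4, 1, 0, 1, 4, 1, 0, 1, 4, 4, 1, 0, 1, 0, 1, 4, 0, 0, 0, -4], 7),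
    (false, [4, 1, 0, 4, 1, 0, 1, 4, 4, 1, 0, 1, 1, 0, 1, 4, 0, 1, 4, 0, 0, 0, -4], 7),
    (false, [-1, -1, -1, 1, 1, 1, 1, 1, 0, 0, 0, 0, 0, 0, 0, 0, 1, 1, 1, -1, 0, 0, 0], 0),
    (false, [0, 0, 0, 0, 0, 0, 0, 0, 1, 1, 1, 1, -1, -1, -1, -1, 1, 1, 1, 0, -1, 0, 0], 0),
    (false, [-1, 0, 1, -1, 0, 1, 0, -1, -1, 0, 1, 0, 0, 1, 0, -1, 1, 0, -1, 0, 0, -1, 0], 0),
    (true, [0, 0, 0, 0, 0, 0, 0, 0, 0, 0, 0, 0, 0, 0, 0, 0, 1, 1, 1, 0, 0, 0, 0], 0),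
    (true, [1, 0, -1, -1, 0, 1, 0, -1, 0, 1, 0, -1, -1, 0, 1, 0, 1, 0, -1, 0, 0, 0, 0], 0),
    (true, [1, 0, 1, 9, 4, 1, 0, 1, 4, 1, 0, 1, 9, 4, 1, 0, 0, 1, 4, 0, 0, 0, 0], 1),
    (true, [0, 0, 0, 0, 0, 0, 0, 0, 0, 0, 0, 0, 0, 0, 0, 0, 0, 0, 0, 0, 0, 0, 1], 0),
    (false, [1, 0, 1, 9, 4, 1, 0, 1, 4, 1, 0, 1, 9, 4, 1, 0, 0, 1, 4, 0, 0, 0, -4], 8),
    (true, [0, 0, 0, 1, 0, 0, 0, 0, 0, 0, 0, 0, 1, 0, 0, 0, 0, 0, 0, 0, 0, 0, 0], 1)]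
  moves := EBii_moves1
  reqs := EBii_reqs1
  tree := EBii_1_2_0_tree

theorem EBii_1_2_0_ok : EBii.instOK 1 2 0 EBii_1_2_0 = true := by
  decide +kernel

def EBii_1_3_0_tree : Tree :=
  (.fk [(0, 1), (1, 1), (2, 1), (3, 1), (9, 1), (13, -1), (14, 3)])

def EBii_1_3_0 : Inst where
  rows :=
   [(false, [1, 1, 1, 0, 0, 0, 0, 0, 0, 0, 0, 0, 0, 0, 0, 0, 0, 0, 0, 0, 0, 0, -1], 1),
    (false, [0, 0, 0, 1, 1, 1, 1, 1, 0, 0, 0, 0, 0, 0, 0, 0, 0, 0, 0, 0, 0, 0, -3], 2),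
    (false, [0, 0, 0, 0, 0, 0, 0, 0, 1, 1, 1, 1, 0, 0, 0, 0, 0, 0, 0, 0, 0, 0, 0], 3),
    (false, [0, 0, 0, 0, 0, 0, 0, 0, 0, 0, 0, 0, 1, 1, 1, 1, 0, 0, 0, 0, 0, 0, 0], 1),
    (false, [0, 1, 4, 4, 1, 0, 1, 4, 1, 0, 1, 4, 4, 1, 0, 1, 0, 1, 4, 0, 0, 0, -4], 7),
    (false, [4, 1, 0, 4, 1, 0, 1, 4, 4, 1, 0, 1, 1, 0, 1, 4, 0, 1, 4, 0, 0, 0, -4], 7),
    (false, [-1, -1, -1, 1, 1, 1, 1, 1, 0, 0, 0, 0, 0, 0, 0, 0, 1, 1, 1, -1, 0, 0, 0], 0),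
    (false, [0, 0, 0, 0, 0, 0, 0, 0, 1, 1, 1, 1, -1, -1, -1, -1, 1, 1, 1, 0, -1, 0, 0], 0),
    (false, [-1, 0, 1, -1, 0, 1, 0, -1, -1, 0, 1, 0, 0, 1, 0, -1, 1, 0, -1, 0, 0, -1, 0], 0),
    (true, [0, 0, 0, 0, 0, 0, 0, 0, 0, 0, 0, 0, 0, 0, 0, 0, 1, 1, 1, 0, 0, 0, 0], 0),
    (true, [1, 0, -1, -1, 0, 1, 0, -1, 0, 1, 0, -1, -1, 0, 1, 0, 1, 0, -1, 0, 0, 0, 0], 0),
    (true, [1, 0, 1, 9, 4, 1, 0, 1, 4, 1, 0, 1, 9, 4, 1, 0, 0, 1, 4, 0, 0, 0, 0], 1),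
    (true, [0, 0, 0, 0, 0, 0, 0, 0, 0, 0, 0, 0, 0, 0, 0, 0, 0, 0, 0, 0, 0, 0, 1], 0),
    (false, [1, 0, 1, 9, 4, 1, 0, 1, 4, 1, 0, 1, 9, 4, 1, 0, 0, 1, 4, 0, 0, 0, -4], 8),
    (true, [0, -1, 0, 0, 1, 0, -1, 0, 1, 0, -1, 0, 0, 1, 0, -1, -1, 0, 1, 0, 0, 0, 0], 1)]
  moves := EBii_moves1
  reqs := EBii_reqs1
  tree := EBii_1_3_0_tree

theorem EBii_1_3_0_ok : EBii.instOK 1 3 0 EBii_1_3_0 = true := by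
  decide +kernel

theorem EBii_ok1 : ∀ b ∈ EBii.branches, ∃ I : Inst, EBii.instOK 1 b.1 b.2 I = true := by
  intro b hb
  have h : b = (0, 0) ∨ b = (1, 0) ∨ b = (2, 0) ∨ b = (3, 0) := by
    have hb2 : b ∈ [(0, 0), (1, 0), (2, 0), (3, 0)] := hb
    simpa using hb2
  rcases h with rfl | rfl | rfl | rfl
  · exact ⟨EBii_1_0_0, EBii_1_0_0_ok⟩
  · exact ⟨EBii_1_1_0, EBii_1_1_0_ok⟩
  · exact ⟨EBii_1_2_0, EBii_1_2_0_ok⟩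
  · exact ⟨EBii_1_3_0, EBii_1_3_0_ok⟩

end Pool.Agent.helper1.CAD
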