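import Pool.Agent.helper1.CAD.Sound

namespace Pool.Agent.helper1.CAD

set_option maxRecDepth 100000

def EBiii : Spec where
  K := .B
  tys := [(2, 2, [0], 1), (2, 0, [0], 1), (0, 2, [0], 1), (1, 2, [1], 1), (1, 0, [3], 2), (1, 1, [0], 3), (1, -1, [0], 1)]
  kc := ([2], 8)
  pmin := [0]
  sl := (0, 0)
  good := false
  pv := 1
  px := 0
  pvx := 1

def EBiii_moves0 : List Move :=
   [([((0, 2, 0), -2)], 0),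
    ([((1, 1, 0), -1), ((1, -1, 0), 1)], 0),
    ([((1, 0, 2), 1), ((1, 1, 2), 0)], 0),
    ([((1, 2, 1), -1), ((1, -1, 1), 2)], 0),
    ([((1, 0, 0), 1), ((1, 1, 0), 0)], 0),
    ([((0, 2, 1), 0), ((0, 0, 1), 2)], 0),
    ([((1, 2, 1), 0), ((1, 0, 1), 2)], 0),
    ([((1, 0, -1), -1), ((1, -1, -1), 0)], 0),
    ([((1, 0, -1), 1), ((1, 1, -1), 0)], 0),
    ([((1, 2, 2), 0), ((1, 0, 2), 2)], 0),
    ([((2, 2, 1), 0), ((2, 0, 1), 2)], 0),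
    ([((1, 2, 0), 1), ((1, 1, 0), 2)], 0),
    ([((2, 2, 0), 0), ((2, 0, 0), 2)], 0),
    ([((1, 2, 0), 0), ((1, 0, 0), 2)], 0),
    ([((1, 0, 0), -1), ((1, -1, 0), 0)], 0),
    ([((2, 2, 2), 0), ((2, 0, 2), 2)], 0),
    ([((1, 0, 1), -1), ((1, -1, 1), 0)], 0),
    ([((1, 2, 2), 1), ((1, 1, 2), 2)], 0),
    ([((1, 1, -1), -1), ((1, -1, -1), 1)], 0),
    ([((1, 2, 1), 1), ((1, 1, 1), 2)], 0),
    ([((1, 2, 0), -1), ((1, -1, 0), 2)], 0),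
    ([((1, 1, 0), 0)], 1),
    ([((1, 0, 1), 1), ((1, 1, 1), 0)], 0),
    ([((1, 1, 1), -1), ((1, -1, 1), 1)], 0),
    ([((2, 0, 1), 2), ((1, 2, 0), 0), ((1, 1, 1), -1)], 0),
    ([((1, 2, 2), 1), ((1, 1, -1), -1), ((1, -1, 0), 2)], 0),
    ([((1, 0, 0), -1), ((1, 1, 2), 0), ((1, -1, 1), 1)], 0),
    ([((2, 0, 1), 2), ((1, 2, 0), -1), ((1, 1, 2), 0)], 0),
    ([((2, 0, 1), 2), ((1, 2, 2), 0), ((1, 1, -1), -1)], 0),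
    ([((1, 0, 1), -1), ((1, 1, -1), 0), ((1, -1, 0), 1)], 0),
    ([((0, 2, 1), 0), ((1, 0, 2), 2), ((1, 1, 1), -1)], 0),
    ([((1, 2, 1), 1), ((1, 0, 0), 2), ((1, 1, -1), 0)], 0),
    ([((1, 0, -1), -1), ((1, 1, 1), 0), ((1, -1, 0), 1)], 0),
    ([((1, 2, 1), 0), ((1, 0, 0), 1), ((1, 1, 2), 2)], 0),
    ([((0, 2, 1), 0), ((1, 0, 0), -1), ((1, 1, 2), 2)], 0),
    ([((0, 2, 1), 0), ((1, 0, 0), 2), ((1, 1, -1), -1)], 0),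
    ([((0, 2, 1), 0), ((1, 0, -1), -1), ((1, 1, 1), 2)], 0),
    ([((2, 2, 1), 0), ((1, 0, 0), 2), ((1, -1, 1), 1)], 0),
    ([((1, 0, 0), 1), ((1, 1, -1), -1), ((1, -1, -2), 0)], 0),
    ([((1, 2, 0), -1), ((1, 1, 2), 2), ((1, -1, -1), 1)], 0),
    ([((1, 0, 2), 1), ((1, 1, 1), -1), ((1, -1, 0), 0)], 0),
    ([((1, 2, 0), 1), ((1, 0, 1), 2), ((1, 1, 2), 0)], 0),
    ([((1, 2, 1), 0), ((1, 1, 2), 2)], 1),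
    ([((1, 2, 0), 0), ((1, 0, -1), 1), ((1, 1, 1), 2)], 0),
    ([((1, 1, -1), -1), ((1, -1, -2), 0)], 1),
    ([((1, 2, 2), 0), ((1, 0, 0), 2), ((1, 1, -1), -1), ((1, -1, 1), 1)], 0),
    ([((1, 2, 0), 1), ((1, 1, 1), 0), ((1, 1, 1), 2)], 1)]

def EBiii_reqs0 : List (List ℤ) :=
   [[0, 0, 0, 0, 0, 0, 0, 0, 1, 0, 0, 0, 0, 0, 0, 0, 0, 0, 0, 0, 0, 0, 0, 0, 0, 0, 0, 0, 0, 0, 0, 0, 0, 0],
    [0, 0, 0, 0, 0, 0, 0, 0, 0, 0, 0, 0, 0, 0, 0, 0, 0, 0, 0, 0, 1, 0, 0, 0, 0, 1, 0, 0, 0, 0, 0, 0, 0, 0],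
    [0, 0, 0, 0, 0, 0, 0, 0, 0, 0, 0, 0, 0, 0, 0, 0, 0, 0, 1, 0, 0, 0, 1, 0, 0, 0, 0, 0, 0, 0, 0, 0, 0, 0],
    [0, 0, 0, 0, 0, 0, 0, 0, 0, 0, 0, 0, 1, 0, 0, 0, 0, 0, 0, 0, 0, 0, 0, 0, 0, 0, 1, 0, 0, 0, 0, 0, 0, 0],
    [0, 0, 0, 0, 0, 0, 0, 0, 0, 0, 0, 0, 0, 0, 0, 0, 1, 0, 0, 0, 1, 0, 0, 0, 0, 0, 0, 0, 0, 0, 0, 0, 0, 0],
    [0, 0, 0, 0, 0, 0, 0, 0, 0, 1, 0, 0, 0, 0, 0, 0, 0, 0, 0, 0, 0, 0, 0, 0, 0, 0, 0, 0, 1, 0, 0, 0, 0, 0],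
    [0, 0, 0, 0, 0, 0, 0, 0, 0, 0, 0, 0, 1, 0, 0, 0, 0, 1, 0, 0, 0, 0, 0, 0, 0, 0, 0, 0, 0, 0, 0, 0, 0, 0],
    [0, 0, 0, 0, 0, 0, 0, 0, 0, 0, 0, 0, 0, 0, 0, 1, 0, 0, 0, 0, 0, 0, 0, 0, 1, 0, 0, 0, 0, 0, 0, 0, 0, 0],
    [0, 0, 0, 0, 0, 0, 0, 0, 0, 0, 0, 0, 0, 0, 0, 1, 0, 0, 0, 1, 0, 0, 0, 0, 0, 0, 0, 0, 0, 0, 0, 0, 0, 0],
    [0, 0, 0, 0, 0, 0, 0, 0, 0, 0, 0, 0, 0, 1, 0, 0, 0, 0, 1, 0, 0, 0, 0, 0, 0, 0, 0, 0, 0, 0, 0, 0, 0, 0],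
    [0, 1, 0, 0, 0, 0, 1, 0, 0, 0, 0, 0, 0, 0, 0, 0, 0, 0, 0, 0, 0, 0, 0, 0, 0, 0, 0, 0, 0, 0, 0, 0, 0, 0],
    [0, 0, 0, 0, 0, 0, 0, 0, 0, 0, 0, 1, 0, 0, 0, 0, 0, 0, 0, 0, 1, 0, 0, 0, 0, 0, 0, 0, 0, 0, 0, 0, 0, 0],
    [1, 0, 0, 0, 0, 1, 0, 0, 0, 0, 0, 0, 0, 0, 0, 0, 0, 0, 0, 0, 0, 0, 0, 0, 0, 0, 0, 0, 0, 0, 0, 0, 0, 0],
    [0, 0, 0, 0, 0, 0, 0, 0, 0, 0, 0, 1, 0, 0, 0, 0, 1, 0, 0, 0, 0, 0, 0, 0, 0, 0, 0, 0, 0, 0, 0, 0, 0, 0],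
    [0, 0, 0, 0, 0, 0, 0, 0, 0, 0, 0, 0, 0, 0, 0, 0, 1, 0, 0, 0, 0, 0, 0, 0, 0, 1, 0, 0, 0, 0, 0, 0, 0, 0],
    [0, 0, 1, 0, 0, 0, 0, 1, 0, 0, 0, 0, 0, 0, 0, 0, 0, 0, 0, 0, 0, 0, 0, 0, 0, 0, 0, 0, 0, 0, 0, 0, 0, 0],
    [0, 0, 0, 0, 0, 0, 0, 0, 0, 0, 0, 0, 0, 0, 0, 0, 0, 1, 0, 0, 0, 0, 0, 0, 0, 0, 1, 0, 0, 0, 0, 0, 0, 0],
    [0, 0, 0, 0, 0, 0, 0, 0, 0, 0, 0, 0, 0, 1, 0, 0, 0, 0, 0, 0, 0, 0, 1, 0, 0, 0, 0, 0, 0, 0, 0, 0, 0, 0],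
    [0, 0, 0, 0, 0, 0, 0, 0, 0, 0, 0, 0, 0, 0, 0, 0, 0, 0, 0, 1, 0, 0, 0, 0, 1, 0, 0, 0, 0, 0, 0, 0, 0, 0],
    [0, 0, 0, 0, 0, 0, 0, 0, 0, 0, 0, 0, 1, 0, 0, 0, 0, 0, 0, 0, 0, 1, 0, 0, 0, 0, 0, 0, 0, 0, 0, 0, 0, 0],
    [0, 0, 0, 0, 0, 0, 0, 0, 0, 0, 0, 1, 0, 0, 0, 0, 0, 0, 0, 0, 0, 0, 0, 0, 0, 1, 0, 0, 0, 0, 0, 0, 0, 0],
    [0, 0, 0, 0, 0, 0, 0, 0, 0, 0, 0, 0, 0, 0, 0, 0, 0, 0, 0, 0, 1, 0, 0, 0, 0, 0, 0, 0, 0, 0, 0, 1, 0, 0],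
    [0, 0, 0, 0, 0, 0, 0, 0, 0, 0, 0, 0, 0, 0, 0, 0, 0, 1, 0, 0, 0, 1, 0, 0, 0, 0, 0, 0, 0, 0, 0, 0, 0, 0],
    [0, 0, 0, 0, 0, 0, 0, 0, 0, 0, 0, 0, 0, 0, 0, 0, 0, 0, 0, 0, 0, 1, 0, 0, 0, 0, 1, 0, 0, 0, 0, 0, 0, 0],
    [0, 0, 0, 0, 0, 0, 1, 0, 0, 0, 0, 1, 0, 0, 0, 0, 0, 0, 0, 0, 0, 1, 0, 0, 0, 0, 0, 0, 0, 0, 0, 0, 0, 0],
    [0, 0, 0, 0, 0, 0, 0, 0, 0, 0, 0, 0, 0, 1, 0, 0, 0, 0, 0, 1, 0, 0, 0, 0, 0, 1, 0, 0, 0, 0, 0, 0, 0, 0],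
    [0, 0, 0, 0, 0, 0, 0, 0, 0, 0, 0, 0, 0, 0, 0, 0, 1, 0, 0, 0, 0, 0, 1, 0, 0, 0, 1, 0, 0, 0, 0, 0, 0, 0],
    [0, 0, 0, 0, 0, 0, 1, 0, 0, 0, 0, 1, 0, 0, 0, 0, 0, 0, 0, 0, 0, 0, 1, 0, 0, 0, 0, 0, 0, 0, 0, 0, 0, 0],
    [0, 0, 0, 0, 0, 0, 1, 0, 0, 0, 0, 0, 0, 1, 0, 0, 0, 0, 0, 1, 0, 0, 0, 0, 0, 0, 0, 0, 0, 0, 0, 0, 0, 0],
    [0, 0, 0, 0, 0, 0, 0, 0, 0, 0, 0, 0, 0, 0, 0, 0, 0, 1, 0, 1, 0, 0, 0, 0, 0, 1, 0, 0, 0, 0, 0, 0, 0, 0],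
    [0, 0, 0, 0, 0, 0, 0, 0, 0, 1, 0, 0, 0, 0, 0, 0, 0, 0, 1, 0, 0, 1, 0, 0, 0, 0, 0, 0, 0, 0, 0, 0, 0, 0],
    [0, 0, 0, 0, 0, 0, 0, 0, 0, 0, 0, 0, 1, 0, 0, 0, 1, 0, 0, 1, 0, 0, 0, 0, 0, 0, 0, 0, 0, 0, 0, 0, 0, 0],
    [0, 0, 0, 0, 0, 0, 0, 0, 0, 0, 0, 0, 0, 0, 0, 1, 0, 0, 0, 0, 0, 1, 0, 0, 0, 1, 0, 0, 0, 0, 0, 0, 0, 0],
    [0, 0, 0, 0, 0, 0, 0, 0, 0, 0, 0, 0, 1, 0, 0, 0, 1, 0, 0, 0, 0, 0, 1, 0, 0, 0, 0, 0, 0, 0, 0, 0, 0, 0],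
    [0, 0, 0, 0, 0, 0, 0, 0, 0, 1, 0, 0, 0, 0, 0, 0, 1, 0, 0, 0, 0, 0, 1, 0, 0, 0, 0, 0, 0, 0, 0, 0, 0, 0],
    [0, 0, 0, 0, 0, 0, 0, 0, 0, 1, 0, 0, 0, 0, 0, 0, 1, 0, 0, 1, 0, 0, 0, 0, 0, 0, 0, 0, 0, 0, 0, 0, 0, 0],
    [0, 0, 0, 0, 0, 0, 0, 0, 0, 1, 0, 0, 0, 0, 0, 1, 0, 0, 0, 0, 0, 1, 0, 0, 0, 0, 0, 0, 0, 0, 0, 0, 0, 0],
    [0, 1, 0, 0, 0, 0, 0, 0, 0, 0, 0, 0, 0, 0, 0, 0, 1, 0, 0, 0, 0, 0, 0, 0, 0, 0, 1, 0, 0, 0, 0, 0, 0, 0],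
    [0, 0, 0, 0, 0, 0, 0, 0, 0, 0, 0, 0, 0, 0, 0, 0, 1, 0, 0, 1, 0, 0, 0, 1, 0, 0, 0, 0, 0, 0, 0, 0, 0, 0],
    [0, 0, 0, 0, 0, 0, 0, 0, 0, 0, 0, 1, 0, 0, 0, 0, 0, 0, 0, 0, 0, 0, 1, 0, 1, 0, 0, 0, 0, 0, 0, 0, 0, 0],
    [0, 0, 0, 0, 0, 0, 0, 0, 0, 0, 0, 0, 0, 0, 0, 0, 0, 0, 1, 0, 0, 1, 0, 0, 0, 1, 0, 0, 0, 0, 0, 0, 0, 0],
    [0, 0, 0, 0, 0, 0, 0, 0, 0, 0, 0, 1, 0, 0, 0, 0, 0, 1, 0, 0, 0, 0, 1, 0, 0, 0, 0, 0, 0, 0, 0, 0, 0, 0],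
    [0, 0, 0, 0, 0, 0, 0, 0, 0, 0, 0, 0, 1, 0, 0, 0, 0, 0, 0, 0, 0, 0, 1, 0, 0, 0, 0, 0, 0, 0, 0, 1, 0, 0],
    [0, 0, 0, 0, 0, 0, 0, 0, 0, 0, 0, 1, 0, 0, 0, 1, 0, 0, 0, 0, 0, 1, 0, 0, 0, 0, 0, 0, 0, 0, 0, 0, 0, 0],
    [0, 0, 0, 0, 0, 0, 0, 0, 0, 0, 0, 0, 0, 0, 0, 0, 0, 0, 0, 1, 0, 0, 0, 1, 0, 0, 0, 0, 0, 0, 0, 1, 0, 0],
    [0, 0, 0, 0, 0, 0, 0, 0, 0, 0, 0, 0, 0, 1, 0, 0, 1, 0, 0, 1, 0, 0, 0, 0, 0, 0, 1, 0, 0, 0, 0, 0, 0, 0],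
    [0, 0, 0, 0, 0, 0, 0, 0, 0, 0, 0, 1, 0, 0, 0, 0, 0, 0, 0, 0, 0, 2, 0, 0, 0, 0, 0, 0, 0, 0, 0, 1, 1, 0]]

def EBiii_base0 : List Row :=
   [(false, [1, 1, 1, 0, 0, 0, 0, 0, 0, 0, 0, 0, 0, 0, 0, 0, 0, 0, 0, 0, 0, 0, 0, 0, 0, 0, 0, 0, 0, 0, 0, 0, 0, 0], 1),
    (false, [0, 0, 0, 1, 1, 1, 1, 1, 0, 0, 0, 0, 0, 0, 0, 0, 0, 0, 0, 0, 0, 0, 0, 0, 0, 0, 0, 0, 0, 0, 0, 0, 0, 0], 1),
    (false, [0, 0, 0, 0, 0, 0, 0, 0, 1, 1, 1, 0, 0, 0, 0, 0, 0, 0, 0, 0, 0, 0, 0, 0, 0, 0, 0, 0, 0, 0, 0, 0, 0, 0], 1),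
    (false, [0, 0, 0, 0, 0, 0, 0, 0, 0, 0, 0, 1, 1, 1, 0, 0, 0, 0, 0, 0, 0, 0, 0, 0, 0, 0, 0, 0, 0, 0, 0, 0, 0, -1], 1),
    (false, [0, 0, 0, 0, 0, 0, 0, 0, 0, 0, 0, 0, 0, 0, 1, 1, 1, 1, 1, 0, 0, 0, 0, 0, 0, 0, 0, 0, 0, 0, 0, 0, 0, -3], 2),
    (false, [0, 0, 0, 0, 0, 0, 0, 0, 0, 0, 0, 0, 0, 0, 0, 0, 0, 0, 0, 1, 1, 1, 1, 0, 0, 0, 0, 0, 0, 0, 0, 0, 0, 0], 3),
    (false, [0, 0, 0, 0, 0, 0, 0, 0, 0, 0, 0, 0, 0, 0, 0, 0, 0, 0, 0, 0, 0, 0, 0, 1, 1, 1, 1, 0, 0, 0, 0, 0, 0, 0], 1),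
    (false, [0, 1, 4, 4, 1, 0, 1, 4, 0, 1, 4, 0, 1, 4, 4, 1, 0, 1, 4, 1, 0, 1, 4, 4, 1, 0, 1, 0, 1, 4, 0, 0, 0, -4], 16),
    (false, [4, 1, 0, 4, 1, 0, 1, 4, 4, 1, 0, 4, 1, 0, 4, 1, 0, 1, 4, 4, 1, 0, 1, 1, 0, 1, 4, 0, 1, 4, 0, 0, 0, -4], 16),
    (false, [-1, -1, -1, 1, 1, 1, 1, 1, -1, -1, -1, -1, -1, -1, 1, 1, 1, 1, 1, 0, 0, 0, 0, 0, 0, 0, 0, 1, 1, 1, -1, 0, 0, 0], 0),
    (false, [1, 1, 1, -1, -1, -1, -1, -1, -1, -1, -1, 0, 0, 0, 0, 0, 0, 0, 0, 1, 1, 1, 1, -1, -1, -1, -1, 1, 1, 1, 0, -1, 0, 0], 0),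
    (false, [-1, 0, 1, -1, 0, 1, 0, -1, -1, 0, 1, -1, 0, 1, -1, 0, 1, 0, -1, -1, 0, 1, 0, 0, 1, 0, -1, 1, 0, -1, 0, 0, -1, 0], 0),
    (true, [-1, -1, -1, -1, -1, -1, -1, -1, 1, 1, 1, 0, 0, 0, 0, 0, 0, 0, 0, 0, 0, 0, 0, 0, 0, 0, 0, 1, 1, 1, 0, 0, 0, 0], 0),
    (true, [1, 1, 1, 1, 1, 1, 1, 1, -1, -1, -1, 0, 0, 0, 0, 0, 0, 0, 0, 0, 0, 0, 0, 0, 0, 0, 0, -1, -1, -1, 0, 0, 0, 0], 0),
    (true, [1, 0, -1, -1, 0, 1, 0, -1, 1, 0, -1, 1, 0, -1, -1, 0, 1, 0, -1, 0, 1, 0, -1, -1, 0, 1, 0, 1, 0, -1, 0, 0, 0, 0], 0),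
    (true, [4, 1, 0, 16, 9, 4, 1, 0, 0, 1, 4, 1, 0, 1, 9, 4, 1, 0, 1, 4, 1, 0, 1, 9, 4, 1, 0, 0, 1, 4, 0, 0, 0, 0], 1),
    (true, [0, 0, 0, 0, 0, 0, 0, 0, 0, 0, 0, 0, 0, 0, 0, 0, 0, 0, 0, 0, 0, 0, 0, 0, 0, 0, 0, 0, 0, 0, 0, 0, 0, 1], 0)]

def EBiii_0_0_0_tree : Tree :=
  (.br 8 0
  (.br 22 0
   (.br 21 0
    (.br 16 0
     (.br 31 0
      (.fk [(0, 2), (2, -2), (5, 1), (6, -1), (10, -1), (12, 1)])
      (.br 20 0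
       (.br 19 0
        (.fk [(0, -2), (2, 2), (5, 1), (6, 1), (10, 1), (12, 1), (13, 2)])
        (.br 13 0
         (.br 23 0
          (.fk [(0, -8), (1, -6), (2, -2), (3, -1), (4, -1), (5, 2), (6, -2), (7, 2), (8, -1), (12, 2), (13, 5), (14, 3)])
          (.mv 44))
         (.br 25 0
          (.br 24 0
           (.fk [(0, -12), (1, -26), (2, 14), (3, 1), (4, 1), (5, 13), (6, 5), (7, 3), (8, -4), (12, 13), (13, 26), (14, 13)])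
           (.mv 18))
          (.mv 25))))
       (.mv 21)))
     (.br 20 0
      (.br 25 0
       (.br 19 0
        (.fk [(0, -4), (2, 4), (5, 1), (6, 1), (10, 2), (12, 1), (13, 3)])
        (.br 9 0
         (.br 12 0
          (.br 24 0
           (.br 13 0
            (.fk [(0, -4), (2, -4), (3, 4), (5, 3), (6, -3), (7, 1), (8, -1), (12, 3), (13, 3), (16, 4)])
            (.br 11 0
             (.br 6 0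
              (.br 26 0
               (.br 23 0
                (.fk [(6, 1), (12, 1), (13, 1)])
                (.mv 38))
               (.mv 45))
              (.mv 28))
             (.mv 13)))
           (.mv 18))
          (.mv 31))
         (.mv 35)))
       (.mv 14))
      (.mv 4)))
    (.br 26 0
     (.br 18 0
      (.br 16 0
       (.br 17 0
        (.br 11 0
         (.br 12 0
          (.br 15 0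
           (.br 20 0
            (.br 0 0
             (.fk [(0, 1), (2, 1), (3, 4), (4, 4), (5, 1), (7, -1), (12, 4), (13, 4), (16, 4)])
             (.br 5 0
              (.fk [(0, -4), (1, 1), (2, 1), (3, 4), (4, 4), (5, 1), (7, -1), (12, 4), (13, 4), (16, 4)])
              (.mv 12)))
            (.br 25 0
             (.br 31 0
              (.fk [(0, 10), (1, -16), (2, -28), (3, 3), (4, -5), (5, 8), (6, -18), (7, 1), (8, 2), (10, -17), (12, 8), (14, 7)])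
              (.mv 21))
             (.mv 1)))
           (.br 19 0
            (.br 25 0
             (.br 24 0
              (.fk [(0, -4), (3, 4), (5, -1), (6, 3), (7, -1), (8, 1), (12, 3), (13, 3), (16, 3)])
              (.mv 7))
             (.mv 32))
            (.mv 8)))
          (.mv 19))
         (.br 25 0
          (.br 20 0
           (.br 12 0
            (.br 6 0
             (.br 15 0
              (.br 21 1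
               (.fk [(0, -4), (1, -8), (2, 4), (3, -4), (4, 4), (5, 3), (6, -1), (7, 1), (8, -1), (12, 4), (13, 8), (14, 4), (16, 4)])
               (.br 32 0
                (.fk [(0, 2), (1, 2), (3, -2), (4, 3), (5, 3), (6, 1), (7, 1), (8, -2), (11, -4), (12, 3), (13, 2), (14, 3), (16, 3)])
                (.br 31 0
                 (.fk [(0, 51), (1, -47), (2, -75), (3, -12), (4, -4), (5, 18), (6, -54), (7, 7), (8, -1), (10, -45), (11, 2), (12, 18), (14, 18)])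
                 (.mv 46))))
              (.mv 43))
             (.mv 24))
            (.mv 19))
           (.mv 11))
          (.mv 20)))
        (.mv 22))
       (.br 25 0
        (.br 17 0
         (.br 11 0
          (.br 12 0
           (.br 19 0
            (.br 20 0
             (.fk [(0, -4), (3, 4), (5, 1), (6, 1), (7, -1), (8, 1), (12, 1), (13, 1)])
             (.mv 4))
            (.br 24 0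
             (.br 20 0
              (.br 9 0
               (.fk [(0, -4), (2, 4), (3, 4), (5, -3), (6, 3), (7, -1), (8, 1), (12, 3), (13, 3), (16, 4)])
               (.mv 35))
              (.mv 4))
             (.mv 18)))
           (.mv 19))
          (.mv 13))
         (.mv 22))
        (.mv 14)))
      (.br 9 0
       (.br 12 0
        (.br 25 0
         (.br 20 0
          (.br 16 0
           (.br 17 0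
            (.br 6 0
             (.br 15 0
              (.br 0 0
               (.fk [(0, 1), (2, 4), (4, 4), (5, 1), (6, 1), (7, -1), (12, 4), (13, 4)])
               (.br 5 0
                (.fk [(0, -4), (1, 2), (2, 4), (3, 4), (4, 8), (5, 1), (6, 1), (7, -1), (8, -1), (12, 8), (13, 8), (16, 8)])
                (.mv 12)))
              (.br 24 0
               (.br 11 0
                (.fk [(0, -2), (1, -2), (2, 10), (3, 9), (4, 1), (5, 2), (6, 1), (7, -2), (12, 1), (13, 2), (14, 1), (16, 1)])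
                (.mv 43))
               (.mv 7)))
             (.br 11 0
              (.fk [(0, -2), (1, -2), (2, 2), (3, 1), (12, 1), (13, 2), (14, 1), (16, 1)])
              (.mv 24)))
            (.mv 22))
           (.br 11 0
            (.br 13 0
             (.fk [(3, 1), (12, 1), (13, 1)])
             (.mv 9))
            (.mv 13)))
          (.br 16 0
           (.br 11 0
            (.fk [(0, -4), (2, 4), (3, 4), (5, -3), (6, 1), (7, -1), (8, 1), (12, 4), (13, 4), (16, 4)])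
            (.mv 11))
           (.mv 4)))
         (.mv 40))
        (.mv 19))
       (.mv 30)))
     (.mv 23)))
   (.br 13 0
    (.br 18 0
     (.br 17 0
      (.br 9 0
       (.br 16 0
        (.br 11 0
         (.br 12 0
          (.fk [(3, 1), (12, 1), (13, 1), (16, 1)])
          (.br 26 0
           (.br 31 0
            (.fk [(0, 4), (1, -12), (2, -12), (3, -2), (4, -2), (5, 3), (6, -13), (7, -1), (8, 3), (10, -9), (11, 5), (12, 3), (14, 1)])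
            (.mv 42))
           (.mv 3)))
         (.br 20 0
          (.br 6 0
           (.br 21 0
            (.br 24 0
             (.br 25 0
              (.fk [(0, 2), (2, 4), (3, 2), (4, 2), (5, 5), (6, 5), (7, -1), (8, -1), (12, 4), (13, 4)])
              (.mv 20))
             (.mv 39))
            (.br 26 0
             (.br 25 0
              (.br 24 0
               (.br 15 0
                (.fk [(2, 4), (3, -4), (4, 4), (5, 1), (6, 4), (7, -1), (12, 4), (13, 4), (16, 4)])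
                (.mv 43))
               (.mv 39))
              (.mv 20))
             (.mv 23)))
           (.mv 27))
          (.mv 11)))
        (.br 11 0
         (.br 20 0
          (.br 26 0
           (.br 25 0
            (.br 12 0
             (.fk [(3, 1), (12, 1), (13, 1), (16, 1)])
             (.mv 33))
            (.mv 14))
           (.mv 26))
          (.mv 4))
         (.mv 13)))
       (.br 28 0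
        (.br 16 0
         (.br 21 0
          (.br 20 0
           (.br 15 0
            (.fk [(0, -2), (1, -6), (2, 3), (3, 1), (4, 1), (5, 1), (6, -1), (9, 1), (11, 1), (12, 1), (13, 4), (14, 1), (16, 1)])
            (.br 24 0
             (.br 19 0
              (.br 11 0
               (.fk [(0, -8), (1, -6), (3, -1), (4, -1), (5, 2), (6, -4), (7, -1), (8, 2), (11, 3), (12, 2), (13, 5)])
               (.br 25 0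
                (.fk [(0, -4), (1, -8), (2, 1), (5, 3), (6, 1), (7, -1), (8, 1), (11, 4), (12, 3), (13, 7)])
                (.mv 20)))
              (.mv 8))
             (.mv 7)))
           (.br 11 0
            (.br 31 0
             (.fk [(0, 10), (1, -24), (2, -26), (3, -4), (4, -4), (5, 4), (6, -24), (7, 1), (8, 3), (10, -15), (11, 8), (12, 4), (13, 1), (14, 4)])
             (.mv 21))
            (.mv 11)))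
          (.br 15 0
           (.br 12 0
            (.br 11 0
             (.fk [(2, -1), (3, 1), (12, 1), (13, 1), (16, 1)])
             (.br 25 0
              (.br 20 0
               (.fk [(0, 4), (2, -12), (3, -12), (4, 16), (5, 3), (6, 3), (7, -3), (8, -1), (12, 16), (13, 16), (16, 16)])
               (.mv 11))
              (.mv 20)))
            (.mv 19))
           (.mv 36)))
         (.mv 34))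
        (.mv 5)))
      (.br 21 0
       (.br 11 0
        (.br 12 0
         (.fk [(3, 1), (12, 1), (13, 1)])
         (.mv 6))
        (.mv 41))
       (.mv 22)))
     (.mv 2))
    (.mv 17)))
  (.mv 0))

def EBiii_0_0_0 : Inst where
  rows :=
   [(false, [1, 1, 1, 0, 0, 0, 0, 0, 0, 0, 0, 0, 0, 0, 0, 0, 0, 0, 0, 0, 0, 0, 0, 0, 0, 0, 0, 0, 0, 0, 0, 0, 0, 0], 1),
    (false, [0, 0, 0, 1, 1, 1, 1, 1, 0, 0, 0, 0, 0, 0, 0, 0, 0, 0, 0, 0, 0, 0, 0, 0, 0, 0, 0, 0, 0, 0, 0, 0, 0, 0], 1),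
    (false, [0, 0, 0, 0, 0, 0, 0, 0, 1, 1, 1, 0, 0, 0, 0, 0, 0, 0, 0, 0, 0, 0, 0, 0, 0, 0, 0, 0, 0, 0, 0, 0, 0, 0], 1),
    (false, [0, 0, 0, 0, 0, 0, 0, 0, 0, 0, 0, 1, 1, 1, 0, 0, 0, 0, 0, 0, 0, 0, 0, 0, 0, 0, 0, 0, 0, 0, 0, 0, 0, -1], 1),
    (false, [0, 0, 0, 0, 0, 0, 0, 0, 0, 0, 0, 0, 0, 0, 1, 1, 1, 1, 1, 0, 0, 0, 0, 0, 0, 0, 0, 0, 0, 0, 0, 0, 0, -3], 2),
    (false, [0, 0, 0, 0, 0, 0, 0, 0, 0, 0, 0, 0, 0, 0, 0, 0, 0, 0, 0, 1, 1, 1, 1, 0, 0, 0, 0, 0, 0, 0, 0, 0, 0, 0], 3),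
    (false, [0, 0, 0, 0, 0, 0, 0, 0, 0, 0, 0, 0, 0, 0, 0, 0, 0, 0, 0, 0, 0, 0, 0, 1, 1, 1, 1, 0, 0, 0, 0, 0, 0, 0], 1),
    (false, [0, 1, 4, 4, 1, 0, 1, 4, 0, 1, 4, 0, 1, 4, 4, 1, 0, 1, 4, 1, 0, 1, 4, 4, 1, 0, 1, 0, 1, 4, 0, 0, 0, -4], 16),
    (false, [4, 1, 0, 4, 1, 0, 1, 4, 4, 1, 0, 4, 1, 0, 4, 1, 0, 1, 4, 4, 1, 0, 1, 1, 0, 1, 4, 0, 1, 4, 0, 0, 0, -4], 16),
    (false, [-1, -1, -1, 1, 1, 1, 1, 1, -1, -1, -1, -1, -1, -1, 1, 1, 1, 1, 1, 0, 0, 0, 0, 0, 0, 0, 0, 1, 1, 1, -1, 0, 0, 0], 0),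
    (false, [1, 1, 1, -1, -1, -1, -1, -1, -1, -1, -1, 0, 0, 0, 0, 0, 0, 0, 0, 1, 1, 1, 1, -1, -1, -1, -1, 1, 1, 1, 0, -1, 0, 0], 0),
    (false, [-1, 0, 1, -1, 0, 1, 0, -1, -1, 0, 1, -1, 0, 1, -1, 0, 1, 0, -1, -1, 0, 1, 0, 0, 1, 0, -1, 1, 0, -1, 0, 0, -1, 0], 0),
    (true, [-1, -1, -1, -1, -1, -1, -1, -1, 1, 1, 1, 0, 0, 0, 0, 0, 0, 0, 0, 0, 0, 0, 0, 0, 0, 0, 0, 1, 1, 1, 0, 0, 0, 0], 0),
    (true, [1, 1, 1, 1, 1, 1, 1, 1, -1, -1, -1, 0, 0, 0, 0, 0, 0, 0, 0, 0, 0, 0, 0, 0, 0, 0, 0, -1, -1, -1, 0, 0, 0, 0], 0),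
    (true, [1, 0, -1, -1, 0, 1, 0, -1, 1, 0, -1, 1, 0, -1, -1, 0, 1, 0, -1, 0, 1, 0, -1, -1, 0, 1, 0, 1, 0, -1, 0, 0, 0, 0], 0),
    (true, [4, 1, 0, 16, 9, 4, 1, 0, 0, 1, 4, 1, 0, 1, 9, 4, 1, 0, 1, 4, 1, 0, 1, 9, 4, 1, 0, 0, 1, 4, 0, 0, 0, 0], 1),
    (true, [0, 0, 0, 0, 0, 0, 0, 0, 0, 0, 0, 0, 0, 0, 0, 0, 0, 0, 0, 0, 0, 0, 0, 0, 0, 0, 0, 0, 0, 0, 0, 0, 0, 1], 0),
    (true, [4, 1, 0, 16, 9, 4, 1, 0, 0, 1, 4, 1, 0, 1, 9, 4, 1, 0, 1, 4, 1, 0, 1, 9, 4, 1, 0, 0, 1, 4, 0, 0, 0, -4], 16)]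
  moves := EBiii_moves0
  reqs := EBiii_reqs0
  tree := EBiii_0_0_0_tree

theorem EBiii_0_0_0_ok : EBiii.instOK 0 0 0 EBiii_0_0_0 = true := by
  decide +kernel

def EBiii_0_1_0_tree : Tree :=
  (.br 8 0
  (.br 16 0
   (.br 31 0
    (.fk [(0, 2), (2, -2), (5, 1), (6, -1), (10, -1), (12, 1)])
    (.br 21 0
     (.br 20 0
      (.br 17 0
       (.fk [(0, -8), (1, -8), (2, 6), (3, -1), (4, 3), (5, 3), (6, -1), (7, -1), (8, 2), (11, 6), (12, 3), (13, 9), (16, 3), (17, 1)])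
       (.br 12 0
        (.br 26 0
         (.br 19 0
          (.br 22 0
           (.fk [(0, -4), (2, 4), (5, 1), (6, 1), (10, 2), (12, 1), (13, 3)])
           (.br 11 0
            (.fk [(0, -16), (1, -4), (2, 5), (3, 6), (4, -2), (5, 2), (6, -2), (7, -1), (8, 2), (10, 2), (12, 2), (13, 6), (14, 2), (16, 4)])
            (.mv 41)))
          (.br 25 0
           (.br 24 0
            (.fk [(0, -2), (1, -8), (2, 10), (3, 7), (4, 3), (5, 13), (6, 21), (7, -3), (11, 6), (12, 21), (13, 27), (17, 1)])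
            (.mv 18))
           (.mv 29)))
         (.mv 16))
        (.mv 6)))
      (.mv 21))
     (.br 20 0
      (.br 26 0
       (.br 18 0
        (.br 17 0
         (.fk [(1, -4), (3, -3), (4, 3), (8, 1), (12, 3), (13, 3), (16, 3), (17, 1)])
         (.mv 22))
        (.br 17 0
         (.br 9 0
          (.br 25 0
           (.fk [(0, 4), (1, 4), (2, 24), (3, -5), (4, 7), (5, 3), (6, 15), (7, -3), (8, 2), (12, 7), (13, 7), (17, 3)])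
           (.mv 40))
          (.mv 30))
         (.mv 22)))
       (.mv 23))
      (.mv 21))))
   (.br 20 0
    (.br 21 0
     (.br 11 0
      (.br 22 0
       (.br 2 0
        (.br 1 0
         (.br 25 0
          (.br 12 0
           (.fk [(0, 4), (1, 2), (2, 2), (3, 5), (4, 1), (5, 5), (6, 1), (7, -1), (12, 5), (13, 5), (17, 1)])
           (.br 26 0
            (.br 17 0
             (.br 19 0
              (.fk [(0, -2), (2, 2), (5, 2), (6, 1), (10, 1), (12, 2), (13, 3)])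
              (.mv 31))
             (.mv 6))
            (.mv 3)))
          (.mv 14))
         (.br 26 0
          (.br 25 0
           (.br 17 0
            (.br 18 0
             (.fk [(0, -19), (1, -56), (2, 4), (3, -14), (4, 2), (5, 7), (6, 7), (7, 7), (8, 7), (11, 2), (12, 7), (13, 15), (14, 6), (17, 10)])
             (.br 13 0
              (.fk [(0, -3), (2, -4), (5, 3), (6, -3), (7, 1), (8, -1), (12, 3), (13, 3)])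
              (.mv 9)))
            (.br 12 0
             (.fk [(0, -9), (2, 4), (3, 8), (5, 5), (6, 9), (7, -1), (8, 1), (12, 9), (13, 11), (14, 2), (17, 2)])
             (.mv 6)))
           (.mv 14))
          (.mv 37)))
        (.br 7 0
         (.br 12 0
          (.fk [(0, -1), (1, 2), (2, 2), (3, 5), (4, 1), (5, 5), (6, 1), (7, -1), (12, 5), (13, 5), (17, 1)])
          (.br 17 0
           (.br 26 0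
            (.br 25 0
             (.br 19 0
              (.fk [(0, -38), (2, 34), (5, 8), (6, 8), (7, -1), (8, 1), (10, 17), (12, 8), (13, 25)])
              (.mv 31))
             (.mv 14))
            (.mv 3))
           (.mv 6)))
         (.mv 15)))
       (.br 26 0
        (.br 25 0
         (.br 12 0
          (.fk [(2, 4), (3, 8), (5, 5), (6, 5), (7, -1), (8, 1), (12, 5), (13, 7), (14, 2), (17, 2)])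
          (.mv 33))
         (.mv 14))
        (.mv 26)))
      (.mv 13))
     (.br 26 0
      (.br 25 0
       (.br 11 0
        (.br 12 0
         (.fk [(1, -4), (2, 2), (3, 11), (4, -1), (5, 2), (6, 14), (7, -2), (8, 3), (12, 3), (13, 3), (17, 3)])
         (.mv 19))
        (.mv 13))
       (.mv 14))
      (.mv 23)))
    (.mv 4)))
  (.mv 0))

def EBiii_0_1_0 : Inst where
  rows :=
   [(false, [1, 1, 1, 0, 0, 0, 0, 0, 0, 0, 0, 0, 0, 0, 0, 0, 0, 0, 0, 0, 0, 0, 0, 0, 0, 0, 0, 0, 0, 0, 0, 0, 0, 0], 1),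
    (false, [0, 0, 0, 1, 1, 1, 1, 1, 0, 0, 0, 0, 0, 0, 0, 0, 0, 0, 0, 0, 0, 0, 0, 0, 0, 0, 0, 0, 0, 0, 0, 0, 0, 0], 1),
    (false, [0, 0, 0, 0, 0, 0, 0, 0, 1, 1, 1, 0, 0, 0, 0, 0, 0, 0, 0, 0, 0, 0, 0, 0, 0, 0, 0, 0, 0, 0, 0, 0, 0, 0], 1),
    (false, [0, 0, 0, 0, 0, 0, 0, 0, 0, 0, 0, 1, 1, 1, 0, 0, 0, 0, 0, 0, 0, 0, 0, 0, 0, 0, 0, 0, 0, 0, 0, 0, 0, -1], 1),
    (false, [0, 0, 0, 0, 0, 0, 0, 0, 0, 0, 0, 0, 0, 0, 1, 1, 1, 1, 1, 0, 0, 0, 0, 0, 0, 0, 0, 0, 0, 0, 0, 0, 0, -3], 2),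
    (false, [0, 0, 0, 0, 0, 0, 0, 0, 0, 0, 0, 0, 0, 0, 0, 0, 0, 0, 0, 1, 1, 1, 1, 0, 0, 0, 0, 0, 0, 0, 0, 0, 0, 0], 3),
    (false, [0, 0, 0, 0, 0, 0, 0, 0, 0, 0, 0, 0, 0, 0, 0, 0, 0, 0, 0, 0, 0, 0, 0, 1, 1, 1, 1, 0, 0, 0, 0, 0, 0, 0], 1),
    (false, [0, 1, 4, 4, 1, 0, 1, 4, 0, 1, 4, 0, 1, 4, 4, 1, 0, 1, 4, 1, 0, 1, 4, 4, 1, 0, 1, 0, 1, 4, 0, 0, 0, -4], 16),
    (false, [4, 1, 0, 4, 1, 0, 1, 4, 4, 1, 0, 4, 1, 0, 4, 1, 0, 1, 4, 4, 1, 0, 1, 1, 0, 1, 4, 0, 1, 4, 0, 0, 0, -4], 16),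
    (false, [-1, -1, -1, 1, 1, 1, 1, 1, -1, -1, -1, -1, -1, -1, 1, 1, 1, 1, 1, 0, 0, 0, 0, 0, 0, 0, 0, 1, 1, 1, -1, 0, 0, 0], 0),
    (false, [1, 1, 1, -1, -1, -1, -1, -1, -1, -1, -1, 0, 0, 0, 0, 0, 0, 0, 0, 1, 1, 1, 1, -1, -1, -1, -1, 1, 1, 1, 0, -1, 0, 0], 0),
    (false, [-1, 0, 1, -1, 0, 1, 0, -1, -1, 0, 1, -1, 0, 1, -1, 0, 1, 0, -1, -1, 0, 1, 0, 0, 1, 0, -1, 1, 0, -1, 0, 0, -1, 0], 0),
    (true, [-1, -1, -1, -1, -1, -1, -1, -1, 1, 1, 1, 0, 0, 0, 0, 0, 0, 0, 0, 0, 0, 0, 0, 0, 0, 0, 0, 1, 1, 1, 0, 0, 0, 0], 0),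
    (true, [1, 1, 1, 1, 1, 1, 1, 1, -1, -1, -1, 0, 0, 0, 0, 0, 0, 0, 0, 0, 0, 0, 0, 0, 0, 0, 0, -1, -1, -1, 0, 0, 0, 0], 0),
    (true, [1, 0, -1, -1, 0, 1, 0, -1, 1, 0, -1, 1, 0, -1, -1, 0, 1, 0, -1, 0, 1, 0, -1, -1, 0, 1, 0, 1, 0, -1, 0, 0, 0, 0], 0),
    (true, [4, 1, 0, 16, 9, 4, 1, 0, 0, 1, 4, 1, 0, 1, 9, 4, 1, 0, 1, 4, 1, 0, 1, 9, 4, 1, 0, 0, 1, 4, 0, 0, 0, 0], 1),
    (true, [0, 0, 0, 0, 0, 0, 0, 0, 0, 0, 0, 0, 0, 0, 0, 0, 0, 0, 0, 0, 0, 0, 0, 0, 0, 0, 0, 0, 0, 0, 0, 0, 0, 1], 0),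
    (true, [-4, -1, 0, -16, -9, -4, -1, 0, 0, -1, -4, -1, 0, -1, -9, -4, -1, 0, -1, -4, -1, 0, -1, -9, -4, -1, 0, 0, -1, -4, 0, 0, 0, 4], -14)]
  moves := EBiii_moves0
  reqs := EBiii_reqs0
  tree := EBiii_0_1_0_tree

theorem EBiii_0_1_0_ok : EBiii.instOK 0 1 0 EBiii_0_1_0 = true := by
  decide +kernel

def EBiii_0_2_0_tree : Tree :=
  (.br 8 0
  (.br 21 0
   (.br 20 0
    (.br 16 0
     (.br 17 0
      (.fk [(0, -8), (1, -8), (2, 6), (3, -1), (4, 3), (5, 3), (6, -1), (7, -1), (8, 2), (11, 6), (12, 3), (13, 9), (16, 8), (17, -1), (18, 3)])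
      (.br 12 0
       (.fk [(0, -2), (1, -8), (2, 10), (3, 7), (4, 3), (5, 13), (6, 1), (7, -3), (11, 6), (12, 14), (13, 20), (17, -1), (18, 14)])
       (.mv 6)))
     (.br 11 0
      (.br 12 0
       (.fk [(0, 2), (1, 2), (2, 2), (3, 5), (4, 1), (5, 5), (6, 1), (7, -1), (12, 8), (13, 8), (17, -1), (18, 8)])
       (.br 26 0
        (.br 17 0
         (.br 25 0
          (.br 19 0
           (.fk [(0, -6), (2, 2), (5, 2), (6, 2), (7, -1), (8, 1), (10, 1), (12, 2), (13, 3)])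
           (.mv 31))
          (.mv 14))
         (.mv 6))
        (.mv 3)))
      (.mv 13)))
    (.br 31 0
     (.fk [(0, 2), (2, -2), (5, 1), (6, -1), (10, -1), (12, 1)])
     (.mv 21)))
   (.br 26 0
    (.br 20 0
     (.br 11 0
      (.br 12 0
       (.fk [(1, -4), (2, 2), (3, 11), (4, -1), (5, 2), (7, -2), (8, 3), (12, 24), (13, 24), (17, -3), (18, 24)])
       (.mv 19))
      (.br 25 0
       (.br 16 0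
        (.br 17 0
         (.fk [(0, -2), (1, -2), (2, 4), (3, -2), (4, 4), (6, 4), (12, 8), (13, 11), (14, 3), (17, -1), (18, 8)])
         (.mv 22))
        (.mv 13))
       (.mv 20)))
     (.br 16 0
      (.br 25 0
       (.br 11 0
        (.br 12 0
         (.fk [(0, -4), (1, -4), (2, 2), (3, 15), (4, -1), (5, -1), (6, 15), (7, -3), (8, 4), (12, 20), (13, 20), (17, -3), (18, 20)])
         (.mv 19))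
        (.mv 11))
       (.mv 1))
      (.mv 4)))
    (.mv 23)))
  (.mv 0))

def EBiii_0_2_0 : Inst where
  rows :=
   [(false, [1, 1, 1, 0, 0, 0, 0, 0, 0, 0, 0, 0, 0, 0, 0, 0, 0, 0, 0, 0, 0, 0, 0, 0, 0, 0, 0, 0, 0, 0, 0, 0, 0, 0], 1),
    (false, [0, 0, 0, 1, 1, 1, 1, 1, 0, 0, 0, 0, 0, 0, 0, 0, 0, 0, 0, 0, 0, 0, 0, 0, 0, 0, 0, 0, 0, 0, 0, 0, 0, 0], 1),
    (false, [0, 0, 0, 0, 0, 0, 0, 0, 1, 1, 1, 0, 0, 0, 0, 0, 0, 0, 0, 0, 0, 0, 0, 0, 0, 0, 0, 0, 0, 0, 0, 0, 0, 0], 1),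
    (false, [0, 0, 0, 0, 0, 0, 0, 0, 0, 0, 0, 1, 1, 1, 0, 0, 0, 0, 0, 0, 0, 0, 0, 0, 0, 0, 0, 0, 0, 0, 0, 0, 0, -1], 1),
    (false, [0, 0, 0, 0, 0, 0, 0, 0, 0, 0, 0, 0, 0, 0, 1, 1, 1, 1, 1, 0, 0, 0, 0, 0, 0, 0, 0, 0, 0, 0, 0, 0, 0, -3], 2),
    (false, [0, 0, 0, 0, 0, 0, 0, 0, 0, 0, 0, 0, 0, 0, 0, 0, 0, 0, 0, 1, 1, 1, 1, 0, 0, 0, 0, 0, 0, 0, 0, 0, 0, 0], 3),
    (false, [0, 0, 0, 0, 0, 0, 0, 0, 0, 0, 0, 0, 0, 0, 0, 0, 0, 0, 0, 0, 0, 0, 0, 1, 1, 1, 1, 0, 0, 0, 0, 0, 0, 0], 1),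
    (false, [0, 1, 4, 4, 1, 0, 1, 4, 0, 1, 4, 0, 1, 4, 4, 1, 0, 1, 4, 1, 0, 1, 4, 4, 1, 0, 1, 0, 1, 4, 0, 0, 0, -4], 16),
    (false, [4, 1, 0, 4, 1, 0, 1, 4, 4, 1, 0, 4, 1, 0, 4, 1, 0, 1, 4, 4, 1, 0, 1, 1, 0, 1, 4, 0, 1, 4, 0, 0, 0, -4], 16),
    (false, [-1, -1, -1, 1, 1, 1, 1, 1, -1, -1, -1, -1, -1, -1, 1, 1, 1, 1, 1, 0, 0, 0, 0, 0, 0, 0, 0, 1, 1, 1, -1, 0, 0, 0], 0),
    (false, [1, 1, 1, -1, -1, -1, -1, -1, -1, -1, -1, 0, 0, 0, 0, 0, 0, 0, 0, 1, 1, 1, 1, -1, -1, -1, -1, 1, 1, 1, 0, -1, 0, 0], 0),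
    (false, [-1, 0, 1, -1, 0, 1, 0, -1, -1, 0, 1, -1, 0, 1, -1, 0, 1, 0, -1, -1, 0, 1, 0, 0, 1, 0, -1, 1, 0, -1, 0, 0, -1, 0], 0),
    (true, [-1, -1, -1, -1, -1, -1, -1, -1, 1, 1, 1, 0, 0, 0, 0, 0, 0, 0, 0, 0, 0, 0, 0, 0, 0, 0, 0, 1, 1, 1, 0, 0, 0, 0], 0),
    (true, [1, 1, 1, 1, 1, 1, 1, 1, -1, -1, -1, 0, 0, 0, 0, 0, 0, 0, 0, 0, 0, 0, 0, 0, 0, 0, 0, -1, -1, -1, 0, 0, 0, 0], 0),
    (true, [1, 0, -1, -1, 0, 1, 0, -1, 1, 0, -1, 1, 0, -1, -1, 0, 1, 0, -1, 0, 1, 0, -1, -1, 0, 1, 0, 1, 0, -1, 0, 0, 0, 0], 0),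
    (true, [4, 1, 0, 16, 9, 4, 1, 0, 0, 1, 4, 1, 0, 1, 9, 4, 1, 0, 1, 4, 1, 0, 1, 9, 4, 1, 0, 0, 1, 4, 0, 0, 0, 0], 1),
    (true, [0, 0, 0, 0, 0, 0, 0, 0, 0, 0, 0, 0, 0, 0, 0, 0, 0, 0, 0, 0, 0, 0, 0, 0, 0, 0, 0, 0, 0, 0, 0, 0, 0, 1], 0),
    (false, [4, 1, 0, 16, 9, 4, 1, 0, 0, 1, 4, 1, 0, 1, 9, 4, 1, 0, 1, 4, 1, 0, 1, 9, 4, 1, 0, 0, 1, 4, 0, 0, 0, -4], 15),
    (true, [0, 0, 0, 1, 1, 0, 0, 0, 0, 0, 0, 0, 0, 0, 1, 0, 0, 0, 0, 0, 0, 0, 0, 1, 0, 0, 0, 0, 0, 0, 0, 0, 0, 0], 1)]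
  moves := EBiii_moves0
  reqs := EBiii_reqs0
  tree := EBiii_0_2_0_tree

theorem EBiii_0_2_0_ok : EBiii.instOK 0 2 0 EBiii_0_2_0 = true := by
  decide +kernel

def EBiii_0_3_0_tree : Tree :=
  (.br 8 0
  (.br 9 0
   (.br 1 0
    (.br 20 0
     (.br 22 0
      (.fk [(0, 3), (1, 2), (2, 1), (3, 1), (4, 1), (5, 2), (6, 1), (12, 2), (13, 1), (17, -1), (18, 2)])
      (.br 18 0
       (.fk [(0, 12), (1, 8), (2, 8), (3, 1), (4, 5), (5, 4), (6, 4), (8, 1), (12, 4), (17, -5), (18, 8)])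
       (.mv 2)))
     (.br 25 0
      (.fk [(0, 3), (1, 2), (2, 1), (3, 1), (4, 1), (5, 1), (6, 2), (12, 1), (17, -1), (18, 2)])
      (.mv 1)))
    (.br 6 0
     (.br 20 0
      (.br 22 0
       (.fk [(1, 3), (2, 1), (3, 1), (4, 1), (5, 2), (6, 1), (12, 2), (13, 1), (17, -1), (18, 2)])
       (.br 18 0
        (.fk [(0, -2), (1, 4), (2, 4), (3, -1), (4, 3), (5, 2), (6, 2), (8, 1), (12, 6), (13, 4), (17, -3), (18, 6)])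
        (.mv 2)))
      (.br 25 0
       (.fk [(0, 1), (1, 3), (2, 1), (3, 1), (4, 1), (5, 1), (6, 2), (12, 1), (17, -1), (18, 2)])
       (.mv 1)))
     (.mv 10)))
   (.br 28 0
    (.br 1 0
     (.br 20 0
      (.br 16 0
       (.fk [(0, 56), (1, 40), (2, -37), (3, 19), (4, 31), (5, 26), (6, 14), (7, -3), (8, 1), (11, 8), (12, 31), (13, 8), (16, 31), (17, -15), (18, 31)])
       (.br 11 0
        (.fk [(0, 84), (1, 72), (2, -63), (3, 48), (4, 20), (5, 45), (6, 21), (7, -6), (8, 11), (11, 8), (12, 45), (17, -32), (18, 53)])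
        (.mv 13)))
      (.br 25 0
       (.fk [(0, 4), (1, 3), (2, -3), (3, 1), (4, 1), (5, 1), (6, 2), (12, 2), (17, -1), (18, 2)])
       (.mv 1)))
     (.br 6 0
      (.br 20 0
       (.br 16 0
        (.fk [(0, 9), (1, 34), (2, -27), (3, 9), (4, 21), (5, 21), (6, 9), (7, -3), (8, 1), (11, 3), (12, 21), (13, 3), (16, 21), (17, -10), (18, 21)])
        (.br 11 0
         (.fk [(0, 9), (1, 30), (2, -21), (3, 15), (4, 7), (5, 15), (6, 7), (7, -2), (8, 4), (11, 4), (12, 15), (17, -11), (18, 19)])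
         (.mv 13)))
       (.br 25 0
        (.fk [(0, 1), (1, 4), (2, -3), (3, 1), (4, 1), (5, 1), (6, 2), (12, 2), (17, -1), (18, 2)])
        (.mv 1)))
      (.mv 10)))
    (.mv 5)))
  (.mv 0))

def EBiii_0_3_0 : Inst where
  rows :=
   [(false, [1, 1, 1, 0, 0, 0, 0, 0, 0, 0, 0, 0, 0, 0, 0, 0, 0, 0, 0, 0, 0, 0, 0, 0, 0, 0, 0, 0, 0, 0, 0, 0, 0, 0], 1),
    (false, [0, 0, 0, 1, 1, 1, 1, 1, 0, 0, 0, 0, 0, 0, 0, 0, 0, 0, 0, 0, 0, 0, 0, 0, 0, 0, 0, 0, 0, 0, 0, 0, 0, 0], 1),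
    (false, [0, 0, 0, 0, 0, 0, 0, 0, 1, 1, 1, 0, 0, 0, 0, 0, 0, 0, 0, 0, 0, 0, 0, 0, 0, 0, 0, 0, 0, 0, 0, 0, 0, 0], 1),
    (false, [0, 0, 0, 0, 0, 0, 0, 0, 0, 0, 0, 1, 1, 1, 0, 0, 0, 0, 0, 0, 0, 0, 0, 0, 0, 0, 0, 0, 0, 0, 0, 0, 0, -1], 1),
    (false, [0, 0, 0, 0, 0, 0, 0, 0, 0, 0, 0, 0, 0, 0, 1, 1, 1, 1, 1, 0, 0, 0, 0, 0, 0, 0, 0, 0, 0, 0, 0, 0, 0, -3], 2),
    (false, [0, 0, 0, 0, 0, 0, 0, 0, 0, 0, 0, 0, 0, 0, 0, 0, 0, 0, 0, 1, 1, 1, 1, 0, 0, 0, 0, 0, 0, 0, 0, 0, 0, 0], 3),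
    (false, [0, 0, 0, 0, 0, 0, 0, 0, 0, 0, 0, 0, 0, 0, 0, 0, 0, 0, 0, 0, 0, 0, 0, 1, 1, 1, 1, 0, 0, 0, 0, 0, 0, 0], 1),
    (false, [0, 1, 4, 4, 1, 0, 1, 4, 0, 1, 4, 0, 1, 4, 4, 1, 0, 1, 4, 1, 0, 1, 4, 4, 1, 0, 1, 0, 1, 4, 0, 0, 0, -4], 16),
    (false, [4, 1, 0, 4, 1, 0, 1, 4, 4, 1, 0, 4, 1, 0, 4, 1, 0, 1, 4, 4, 1, 0, 1, 1, 0, 1, 4, 0, 1, 4, 0, 0, 0, -4], 16),
    (false, [-1, -1, -1, 1, 1, 1, 1, 1, -1, -1, -1, -1, -1, -1, 1, 1, 1, 1, 1, 0, 0, 0, 0, 0, 0, 0, 0, 1, 1, 1, -1, 0, 0, 0], 0),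
    (false, [1, 1, 1, -1, -1, -1, -1, -1, -1, -1, -1, 0, 0, 0, 0, 0, 0, 0, 0, 1, 1, 1, 1, -1, -1, -1, -1, 1, 1, 1, 0, -1, 0, 0], 0),
    (false, [-1, 0, 1, -1, 0, 1, 0, -1, -1, 0, 1, -1, 0, 1, -1, 0, 1, 0, -1, -1, 0, 1, 0, 0, 1, 0, -1, 1, 0, -1, 0, 0, -1, 0], 0),
    (true, [-1, -1, -1, -1, -1, -1, -1, -1, 1, 1, 1, 0, 0, 0, 0, 0, 0, 0, 0, 0, 0, 0, 0, 0, 0, 0, 0, 1, 1, 1, 0, 0, 0, 0], 0),
    (true, [1, 1, 1, 1, 1, 1, 1, 1, -1, -1, -1, 0, 0, 0, 0, 0, 0, 0, 0, 0, 0, 0, 0, 0, 0, 0, 0, -1, -1, -1, 0, 0, 0, 0], 0),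
    (true, [1, 0, -1, -1, 0, 1, 0, -1, 1, 0, -1, 1, 0, -1, -1, 0, 1, 0, -1, 0, 1, 0, -1, -1, 0, 1, 0, 1, 0, -1, 0, 0, 0, 0], 0),
    (true, [4, 1, 0, 16, 9, 4, 1, 0, 0, 1, 4, 1, 0, 1, 9, 4, 1, 0, 1, 4, 1, 0, 1, 9, 4, 1, 0, 0, 1, 4, 0, 0, 0, 0], 1),
    (true, [0, 0, 0, 0, 0, 0, 0, 0, 0, 0, 0, 0, 0, 0, 0, 0, 0, 0, 0, 0, 0, 0, 0, 0, 0, 0, 0, 0, 0, 0, 0, 0, 0, 1], 0),
    (false, [4, 1, 0, 16, 9, 4, 1, 0, 0, 1, 4, 1, 0, 1, 9, 4, 1, 0, 1, 4, 1, 0, 1, 9, 4, 1, 0, 0, 1, 4, 0, 0, 0, -4], 15),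
    (true, [1, 0, -1, 0, 0, 1, 0, -1, -1, 0, 1, 0, -1, 0, 0, 1, 0, -1, 0, 1, 0, -1, 0, 0, 1, 0, -1, -1, 0, 1, 0, 0, 0, 0], 1)]
  moves := EBiii_moves0
  reqs := EBiii_reqs0
  tree := EBiii_0_3_0_tree

theorem EBiii_0_3_0_ok : EBiii.instOK 0 3 0 EBiii_0_3_0 = true := by
  decide +kernel

theorem EBiii_ok0 : ∀ b ∈ EBiii.branches, ∃ I : Inst, EBiii.instOK 0 b.1 b.2 I = true := by
  intro b hb
  have h : b = (0, 0) ∨ b = (1, 0) ∨ b = (2, 0) ∨ b = (3, 0) := by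
    have hb2 : b ∈ [(0, 0), (1, 0), (2, 0), (3, 0)] := hb
    simpa using hb2
  rcases h with rfl | rfl | rfl | rfl
  · exact ⟨EBiii_0_0_0, EBiii_0_0_0_ok⟩
  · exact ⟨EBiii_0_1_0, EBiii_0_1_0_ok⟩
  · exact ⟨EBiii_0_2_0, EBiii_0_2_0_ok⟩
  · exact ⟨EBiii_0_3_0, EBiii_0_3_0_ok⟩

def EBiii_moves1 : List Move :=
   [([((0, 2, 0), -2)], 0),
    ([((1, 0, 0), 1), ((1, 1, 0), 0)], 0),
    ([((1, 1, 0), -1), ((1, -1, 0), 1)], 0),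
    ([((1, 0, -2), -1), ((1, -1, -2), 0)], 0),
    ([((1, 2, 1), -1), ((1, -1, 1), 2)], 0),
    ([((2, 2, 1), 0), ((2, 0, 1), 2)], 0),
    ([((1, 1, -1), -1), ((1, -1, -1), 1)], 0),
    ([((1, 2, 1), 0), ((1, 0, 1), 2)], 0),
    ([((1, 2, 0), -1), ((1, -1, 0), 2)], 0),
    ([((0, 2, 1), 0), ((0, 0, 1), 2)], 0),
    ([((1, 2, 2), 0), ((1, 0, 2), 2)], 0),
    ([((1, 0, 0), -1), ((1, -1, 0), 0)], 0),
    ([((1, 2, 0), 0), ((1, 0, 0), 2)], 0),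
    ([((1, 0, 2), 1), ((1, 1, 2), 0)], 0),
    ([((1, 2, 2), 1), ((1, 1, 2), 2)], 0),
    ([((1, 2, 0), 1), ((1, 1, 0), 2)], 0),
    ([((1, 0, 1), 1), ((1, 1, 1), 0)], 0),
    ([((1, 0, 1), -1), ((1, -1, 1), 0)], 0),
    ([((1, 2, 1), 1), ((1, 1, 1), 2)], 0),
    ([((1, 0, -1), -1), ((1, -1, -1), 0)], 0),
    ([((1, 1, 1), -1), ((1, -1, 1), 1)], 0),
    ([((2, 2, 2), 0), ((2, 0, 2), 2)], 0),
    ([((1, 0, -1), 1), ((1, 1, -1), 0)], 0),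
    ([((1, 0, 1), 1), ((1, 1, 0), -1), ((1, -1, -1), 0)], 0),
    ([((0, 2, 1), 0), ((1, 0, -2), -1), ((1, 1, 0), 2)], 0),
    ([((1, 2, 0), 1), ((1, 0, 1), 2), ((1, 1, 2), 0)], 0),
    ([((1, 2, 0), 0), ((1, 0, -1), 1), ((1, 1, 1), 2)], 0),
    ([((1, 0, -2), -1), ((1, 1, 0), 0), ((1, -1, -1), 1)], 0),
    ([((1, 0, 0), 1), ((1, 1, -1), -1), ((1, -1, -2), 0)], 0),
    ([((1, 2, 1), 0), ((1, 0, 2), 1), ((1, 1, 0), 2)], 0),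
    ([((1, 0, -1), 1), ((1, 1, 0), -1), ((1, -1, 1), 0)], 0),
    ([((2, 2, 1), 0), ((1, 0, 2), 1), ((1, -1, 0), 2)], 0),
    ([((0, 2, 1), 0), ((1, 0, 2), 2), ((1, 1, 1), -1)], 0),
    ([((1, 2, 0), -1), ((1, 1, 2), 2), ((1, -1, -1), 1)], 0),
    ([((2, 0, 2), 2), ((1, 2, 2), 0), ((1, 1, 0), -1)], 0),
    ([((0, 2, 1), 0), ((1, 0, 0), 2), ((1, 1, -1), -1)], 0),
    ([((1, 0, 2), 1), ((1, 1, 1), -1), ((1, -1, 0), 0)], 0),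
    ([((1, 2, 2), 1), ((1, 0, 1), 2), ((1, 1, 0), 0)], 0),
    ([((1, 2, 1), 1), ((1, 0, 0), 2), ((1, 1, -1), 0)], 0),
    ([((1, 2, 1), 0), ((1, 0, 0), 1), ((1, 1, 2), 2)], 0),
    ([((0, 2, 1), 0), ((1, 0, 1), 2), ((1, 1, 0), -1)], 0),
    ([((1, 1, 1), 0)], 1),
    ([((1, 2, 2), 0), ((1, 0, 0), 2), ((1, 1, -1), -1), ((1, -1, 1), 1)], 0),
    ([((1, 0, -1), -1), ((1, 1, 0), 0), ((1, -1, -2), 0)], 1),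
    ([((1, 2, 1), 1), ((1, 0, -1), 1), ((1, 1, 0), 0), ((1, 1, 2), 2)], 0)]

def EBiii_reqs1 : List (List ℤ) :=
   [[0, 0, 0, 0, 0, 0, 0, 0, 1, 0, 0, 0, 0, 0, 0, 0, 0, 0, 0, 0, 0, 0, 0, 0, 0, 0, 0, 0, 0, 0, 0, 0, 0, 0],
    [0, 0, 0, 0, 0, 0, 0, 0, 0, 0, 0, 0, 0, 0, 0, 0, 1, 0, 0, 0, 1, 0, 0, 0, 0, 0, 0, 0, 0, 0, 0, 0, 0, 0],
    [0, 0, 0, 0, 0, 0, 0, 0, 0, 0, 0, 0, 0, 0, 0, 0, 0, 0, 0, 0, 1, 0, 0, 0, 0, 1, 0, 0, 0, 0, 0, 0, 0, 0],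
    [0, 0, 0, 0, 0, 0, 0, 0, 0, 0, 0, 0, 0, 0, 1, 0, 0, 0, 0, 0, 0, 0, 0, 1, 0, 0, 0, 0, 0, 0, 0, 0, 0, 0],
    [0, 0, 0, 0, 0, 0, 0, 0, 0, 0, 0, 0, 1, 0, 0, 0, 0, 0, 0, 0, 0, 0, 0, 0, 0, 0, 1, 0, 0, 0, 0, 0, 0, 0],
    [0, 1, 0, 0, 0, 0, 1, 0, 0, 0, 0, 0, 0, 0, 0, 0, 0, 0, 0, 0, 0, 0, 0, 0, 0, 0, 0, 0, 0, 0, 0, 0, 0, 0],
    [0, 0, 0, 0, 0, 0, 0, 0, 0, 0, 0, 0, 0, 0, 0, 0, 0, 0, 0, 1, 0, 0, 0, 0, 1, 0, 0, 0, 0, 0, 0, 0, 0, 0],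
    [0, 0, 0, 0, 0, 0, 0, 0, 0, 0, 0, 0, 1, 0, 0, 0, 0, 1, 0, 0, 0, 0, 0, 0, 0, 0, 0, 0, 0, 0, 0, 0, 0, 0],
    [0, 0, 0, 0, 0, 0, 0, 0, 0, 0, 0, 1, 0, 0, 0, 0, 0, 0, 0, 0, 0, 0, 0, 0, 0, 1, 0, 0, 0, 0, 0, 0, 0, 0],
    [0, 0, 0, 0, 0, 0, 0, 0, 0, 1, 0, 0, 0, 0, 0, 0, 0, 0, 0, 0, 0, 0, 0, 0, 0, 0, 0, 0, 1, 0, 0, 0, 0, 0],
    [0, 0, 0, 0, 0, 0, 0, 0, 0, 0, 0, 0, 0, 1, 0, 0, 0, 0, 1, 0, 0, 0, 0, 0, 0, 0, 0, 0, 0, 0, 0, 0, 0, 0],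
    [0, 0, 0, 0, 0, 0, 0, 0, 0, 0, 0, 0, 0, 0, 0, 0, 1, 0, 0, 0, 0, 0, 0, 0, 0, 1, 0, 0, 0, 0, 0, 0, 0, 0],
    [0, 0, 0, 0, 0, 0, 0, 0, 0, 0, 0, 1, 0, 0, 0, 0, 1, 0, 0, 0, 0, 0, 0, 0, 0, 0, 0, 0, 0, 0, 0, 0, 0, 0],
    [0, 0, 0, 0, 0, 0, 0, 0, 0, 0, 0, 0, 0, 0, 0, 0, 0, 0, 1, 0, 0, 0, 1, 0, 0, 0, 0, 0, 0, 0, 0, 0, 0, 0],
    [0, 0, 0, 0, 0, 0, 0, 0, 0, 0, 0, 0, 0, 1, 0, 0, 0, 0, 0, 0, 0, 0, 1, 0, 0, 0, 0, 0, 0, 0, 0, 0, 0, 0],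
    [0, 0, 0, 0, 0, 0, 0, 0, 0, 0, 0, 1, 0, 0, 0, 0, 0, 0, 0, 0, 1, 0, 0, 0, 0, 0, 0, 0, 0, 0, 0, 0, 0, 0],
    [0, 0, 0, 0, 0, 0, 0, 0, 0, 0, 0, 0, 0, 0, 0, 0, 0, 1, 0, 0, 0, 1, 0, 0, 0, 0, 0, 0, 0, 0, 0, 0, 0, 0],
    [0, 0, 0, 0, 0, 0, 0, 0, 0, 0, 0, 0, 0, 0, 0, 0, 0, 1, 0, 0, 0, 0, 0, 0, 0, 0, 1, 0, 0, 0, 0, 0, 0, 0],
    [0, 0, 0, 0, 0, 0, 0, 0, 0, 0, 0, 0, 1, 0, 0, 0, 0, 0, 0, 0, 0, 1, 0, 0, 0, 0, 0, 0, 0, 0, 0, 0, 0, 0],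
    [0, 0, 0, 0, 0, 0, 0, 0, 0, 0, 0, 0, 0, 0, 0, 1, 0, 0, 0, 0, 0, 0, 0, 0, 1, 0, 0, 0, 0, 0, 0, 0, 0, 0],
    [0, 0, 0, 0, 0, 0, 0, 0, 0, 0, 0, 0, 0, 0, 0, 0, 0, 0, 0, 0, 0, 1, 0, 0, 0, 0, 1, 0, 0, 0, 0, 0, 0, 0],
    [0, 0, 1, 0, 0, 0, 0, 1, 0, 0, 0, 0, 0, 0, 0, 0, 0, 0, 0, 0, 0, 0, 0, 0, 0, 0, 0, 0, 0, 0, 0, 0, 0, 0],
    [0, 0, 0, 0, 0, 0, 0, 0, 0, 0, 0, 0, 0, 0, 0, 1, 0, 0, 0, 1, 0, 0, 0, 0, 0, 0, 0, 0, 0, 0, 0, 0, 0, 0],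
    [0, 0, 0, 0, 0, 0, 0, 0, 0, 0, 0, 0, 0, 0, 0, 0, 0, 1, 0, 0, 1, 0, 0, 0, 1, 0, 0, 0, 0, 0, 0, 0, 0, 0],
    [0, 0, 0, 0, 0, 0, 0, 0, 0, 1, 0, 0, 0, 0, 1, 0, 0, 0, 0, 0, 1, 0, 0, 0, 0, 0, 0, 0, 0, 0, 0, 0, 0, 0],
    [0, 0, 0, 0, 0, 0, 0, 0, 0, 0, 0, 1, 0, 0, 0, 0, 0, 1, 0, 0, 0, 0, 1, 0, 0, 0, 0, 0, 0, 0, 0, 0, 0, 0],
    [0, 0, 0, 0, 0, 0, 0, 0, 0, 0, 0, 1, 0, 0, 0, 1, 0, 0, 0, 0, 0, 1, 0, 0, 0, 0, 0, 0, 0, 0, 0, 0, 0, 0],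
    [0, 0, 0, 0, 0, 0, 0, 0, 0, 0, 0, 0, 0, 0, 1, 0, 0, 0, 0, 0, 1, 0, 0, 0, 1, 0, 0, 0, 0, 0, 0, 0, 0, 0],
    [0, 0, 0, 0, 0, 0, 0, 0, 0, 0, 0, 0, 0, 0, 0, 0, 1, 0, 0, 1, 0, 0, 0, 1, 0, 0, 0, 0, 0, 0, 0, 0, 0, 0],
    [0, 0, 0, 0, 0, 0, 0, 0, 0, 0, 0, 0, 1, 0, 0, 0, 0, 0, 1, 0, 1, 0, 0, 0, 0, 0, 0, 0, 0, 0, 0, 0, 0, 0],
    [0, 0, 0, 0, 0, 0, 0, 0, 0, 0, 0, 0, 0, 0, 0, 1, 0, 0, 0, 0, 1, 0, 0, 0, 0, 0, 1, 0, 0, 0, 0, 0, 0, 0],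
    [0, 1, 0, 0, 0, 0, 0, 0, 0, 0, 0, 0, 0, 0, 0, 0, 0, 0, 1, 0, 0, 0, 0, 0, 0, 1, 0, 0, 0, 0, 0, 0, 0, 0],
    [0, 0, 0, 0, 0, 0, 0, 0, 0, 1, 0, 0, 0, 0, 0, 0, 0, 0, 1, 0, 0, 1, 0, 0, 0, 0, 0, 0, 0, 0, 0, 0, 0, 0],
    [0, 0, 0, 0, 0, 0, 0, 0, 0, 0, 0, 1, 0, 0, 0, 0, 0, 0, 0, 0, 0, 0, 1, 0, 1, 0, 0, 0, 0, 0, 0, 0, 0, 0],
    [0, 0, 0, 0, 0, 0, 0, 1, 0, 0, 0, 0, 0, 1, 0, 0, 0, 0, 0, 0, 1, 0, 0, 0, 0, 0, 0, 0, 0, 0, 0, 0, 0, 0],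
    [0, 0, 0, 0, 0, 0, 0, 0, 0, 1, 0, 0, 0, 0, 0, 0, 1, 0, 0, 1, 0, 0, 0, 0, 0, 0, 0, 0, 0, 0, 0, 0, 0, 0],
    [0, 0, 0, 0, 0, 0, 0, 0, 0, 0, 0, 0, 0, 0, 0, 0, 0, 0, 1, 0, 0, 1, 0, 0, 0, 1, 0, 0, 0, 0, 0, 0, 0, 0],
    [0, 0, 0, 0, 0, 0, 0, 0, 0, 0, 0, 0, 0, 1, 0, 0, 0, 1, 0, 0, 1, 0, 0, 0, 0, 0, 0, 0, 0, 0, 0, 0, 0, 0],
    [0, 0, 0, 0, 0, 0, 0, 0, 0, 0, 0, 0, 1, 0, 0, 0, 1, 0, 0, 1, 0, 0, 0, 0, 0, 0, 0, 0, 0, 0, 0, 0, 0, 0],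
    [0, 0, 0, 0, 0, 0, 0, 0, 0, 0, 0, 0, 1, 0, 0, 0, 1, 0, 0, 0, 0, 0, 1, 0, 0, 0, 0, 0, 0, 0, 0, 0, 0, 0],
    [0, 0, 0, 0, 0, 0, 0, 0, 0, 1, 0, 0, 0, 0, 0, 0, 0, 1, 0, 0, 1, 0, 0, 0, 0, 0, 0, 0, 0, 0, 0, 0, 0, 0],
    [0, 0, 0, 0, 0, 0, 0, 0, 0, 0, 0, 0, 0, 0, 0, 0, 0, 0, 0, 0, 0, 1, 0, 0, 0, 0, 0, 0, 0, 0, 0, 1, 1, 0],
    [0, 0, 0, 0, 0, 0, 0, 0, 0, 0, 0, 0, 0, 1, 0, 0, 1, 0, 0, 1, 0, 0, 0, 0, 0, 0, 1, 0, 0, 0, 0, 0, 0, 0],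
    [0, 0, 0, 0, 0, 0, 0, 0, 0, 0, 0, 0, 0, 0, 0, 1, 0, 0, 0, 0, 1, 0, 0, 1, 0, 0, 0, 0, 0, 0, 0, 1, 0, 0],
    [0, 0, 0, 0, 0, 0, 0, 0, 0, 0, 0, 0, 1, 0, 0, 1, 0, 0, 0, 0, 1, 0, 1, 0, 0, 0, 0, 0, 0, 0, 0, 0, 0, 0]]

def EBiii_base1 : List Row :=
   [(false, [1, 1, 1, 0, 0, 0, 0, 0, 0, 0, 0, 0, 0, 0, 0, 0, 0, 0, 0, 0, 0, 0, 0, 0, 0, 0, 0, 0, 0, 0, 0, 0, 0, 0], 1),
    (false, [0, 0, 0, 1, 1, 1, 1, 1, 0, 0, 0, 0, 0, 0, 0, 0, 0, 0, 0, 0, 0, 0, 0, 0, 0, 0, 0, 0, 0, 0, 0, 0, 0, 0], 1),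
    (false, [0, 0, 0, 0, 0, 0, 0, 0, 1, 1, 1, 0, 0, 0, 0, 0, 0, 0, 0, 0, 0, 0, 0, 0, 0, 0, 0, 0, 0, 0, 0, 0, 0, 0], 1),
    (false, [0, 0, 0, 0, 0, 0, 0, 0, 0, 0, 0, 1, 1, 1, 0, 0, 0, 0, 0, 0, 0, 0, 0, 0, 0, 0, 0, 0, 0, 0, 0, 0, 0, -1], 1),
    (false, [0, 0, 0, 0, 0, 0, 0, 0, 0, 0, 0, 0, 0, 0, 1, 1, 1, 1, 1, 0, 0, 0, 0, 0, 0, 0, 0, 0, 0, 0, 0, 0, 0, -3], 2),
    (false, [0, 0, 0, 0, 0, 0, 0, 0, 0, 0, 0, 0, 0, 0, 0, 0, 0, 0, 0, 1, 1, 1, 1, 0, 0, 0, 0, 0, 0, 0, 0, 0, 0, 0], 3),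
    (false, [0, 0, 0, 0, 0, 0, 0, 0, 0, 0, 0, 0, 0, 0, 0, 0, 0, 0, 0, 0, 0, 0, 0, 1, 1, 1, 1, 0, 0, 0, 0, 0, 0, 0], 1),
    (false, [0, 1, 4, 4, 1, 0, 1, 4, 0, 1, 4, 0, 1, 4, 4, 1, 0, 1, 4, 1, 0, 1, 4, 4, 1, 0, 1, 0, 1, 4, 0, 0, 0, -4], 15),
    (false, [4, 1, 0, 4, 1, 0, 1, 4, 4, 1, 0, 4, 1, 0, 4, 1, 0, 1, 4, 4, 1, 0, 1, 1, 0, 1, 4, 0, 1, 4, 0, 0, 0, -4], 15),
    (false, [-1, -1, -1, 1, 1, 1, 1, 1, -1, -1, -1, -1, -1, -1, 1, 1, 1, 1, 1, 0, 0, 0, 0, 0, 0, 0, 0, 1, 1, 1, -1, 0, 0, 0], 0),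
    (false, [1, 1, 1, -1, -1, -1, -1, -1, -1, -1, -1, 0, 0, 0, 0, 0, 0, 0, 0, 1, 1, 1, 1, -1, -1, -1, -1, 1, 1, 1, 0, -1, 0, 0], 0),
    (false, [-1, 0, 1, -1, 0, 1, 0, -1, -1, 0, 1, -1, 0, 1, -1, 0, 1, 0, -1, -1, 0, 1, 0, 0, 1, 0, -1, 1, 0, -1, 0, 0, -1, 0], 0),
    (true, [-1, -1, -1, -1, -1, -1, -1, -1, 1, 1, 1, 0, 0, 0, 0, 0, 0, 0, 0, 0, 0, 0, 0, 0, 0, 0, 0, 1, 1, 1, 0, 0, 0, 0], 0),
    (true, [1, 1, 1, 1, 1, 1, 1, 1, -1, -1, -1, 0, 0, 0, 0, 0, 0, 0, 0, 0, 0, 0, 0, 0, 0, 0, 0, -1, -1, -1, 0, 0, 0, 0], 0),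
    (true, [1, 0, -1, -1, 0, 1, 0, -1, 1, 0, -1, 1, 0, -1, -1, 0, 1, 0, -1, 0, 1, 0, -1, -1, 0, 1, 0, 1, 0, -1, 0, 0, 0, 0], 0),
    (true, [4, 1, 0, 16, 9, 4, 1, 0, 0, 1, 4, 1, 0, 1, 9, 4, 1, 0, 1, 4, 1, 0, 1, 9, 4, 1, 0, 0, 1, 4, 0, 0, 0, 0], 1),
    (true, [0, 0, 0, 0, 0, 0, 0, 0, 0, 0, 0, 0, 0, 0, 0, 0, 0, 0, 0, 0, 0, 0, 0, 0, 0, 0, 0, 0, 0, 0, 0, 0, 0, 1], 0)]

def EBiii_1_0_0_tree : Tree :=
  (.br 8 0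
  (.br 22 0
   (.br 26 0
    (.br 21 0
     (.br 20 0
      (.br 25 0
       (.br 19 0
        (.fk [(0, -4), (2, 4), (5, 1), (6, 1), (10, 2), (12, 1), (13, 3)])
        (.br 24 0
         (.br 17 0
          (.br 2 0
           (.br 18 0
            (.br 16 0
             (.fk [(0, -4), (1, -8), (2, 4), (5, 3), (6, 1), (7, 1), (8, -1), (12, 3), (13, 7), (14, 4)])
             (.br 23 0
              (.fk [(6, 1), (12, 1), (13, 1)])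
              (.mv 28)))
            (.br 13 0
             (.fk [(2, -4), (5, 3), (6, -3), (7, 1), (8, -1), (12, 3), (13, 3)])
             (.mv 10)))
           (.br 7 0
            (.br 16 0
             (.fk [(0, -7), (1, -8), (2, 4), (5, 3), (6, 1), (7, 1), (8, -1), (12, 3), (13, 7), (14, 4)])
             (.br 23 0
              (.fk [(0, -1), (6, 1), (12, 1), (13, 1)])
              (.mv 28)))
            (.mv 21)))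
          (.br 12 0
           (.br 16 0
            (.fk [(0, -4), (1, -14), (2, 10), (3, 3), (4, 3), (5, 15), (6, 7), (7, 1), (8, -4), (12, 7), (13, 14), (14, 7)])
            (.br 11 0
             (.br 23 0
              (.fk [(6, 1), (12, 1), (13, 1)])
              (.mv 28))
             (.mv 12)))
           (.mv 7)))
         (.mv 6)))
       (.br 16 0
        (.fk [(0, 4), (2, 4), (3, 4), (4, 4), (5, 13), (6, -10), (7, -1), (8, -3), (12, 13), (13, 13)])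
        (.mv 11)))
      (.br 16 0
       (.br 25 0
        (.br 11 0
         (.br 18 0
          (.br 9 0
           (.br 17 0
            (.br 15 0
             (.br 14 0
              (.fk [(1, -2), (2, 2), (3, 1), (4, 2), (9, 1), (12, 2), (13, 3), (16, 2)])
              (.br 24 0
               (.fk [(0, -4), (2, 12), (3, 2), (4, 8), (5, -1), (6, 11), (7, -3), (8, 1), (12, 8), (13, 8), (16, 8)])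
               (.mv 27)))
             (.br 24 0
              (.br 19 0
               (.br 14 0
                (.br 31 0
                 (.fk [(0, 6), (1, -16), (2, -22), (3, -4), (4, -4), (5, 5), (6, -14), (7, -1), (8, 5), (10, -13), (11, 8), (12, 5)])
                 (.br 23 0
                  (.fk [(0, -20), (1, -16), (2, 4), (3, -4), (4, -4), (5, -5), (6, 5), (7, -1), (8, 5), (11, 8), (12, 5), (13, 13)])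
                  (.mv 43)))
                (.br 23 0
                 (.fk [(6, 1), (12, 1), (13, 1)])
                 (.mv 3)))
               (.mv 22))
              (.mv 19)))
            (.br 12 0
             (.br 24 0
              (.fk [(0, -4), (2, 12), (3, 12), (4, 2), (5, -1), (6, 11), (7, -3), (8, 1), (12, 12), (13, 12)])
              (.mv 23))
             (.mv 7)))
           (.br 17 0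
            (.br 15 0
             (.br 14 0
              (.fk [(0, -12), (1, -28), (2, 16), (3, 2), (4, 2), (5, -5), (6, -5), (7, 1), (8, 2), (9, 8), (11, 4), (12, 2), (13, 16), (14, 2), (16, 2)])
              (.mv 24))
             (.br 24 0
              (.br 19 0
               (.br 14 0
                (.br 7 0
                 (.br 0 0
                  (.fk [(0, -12), (1, -16), (2, -1), (3, -4), (4, -4), (5, -5), (6, -1), (7, -1), (8, 5), (11, 8), (12, 5), (13, 13)])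
                  (.br 31 0
                   (.fk [(0, -5), (1, -24), (2, -29), (3, -6), (4, -6), (5, 5), (6, -19), (7, 1), (8, 5), (10, -15), (11, 7), (12, 5), (13, 2), (14, 5)])
                   (.br 23 0
                    (.fk [(0, -25), (1, -16), (2, -1), (3, -4), (4, -4), (5, -5), (6, 5), (7, -1), (8, 5), (11, 8), (12, 5), (13, 13)])
                    (.mv 43))))
                 (.br 13 0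
                  (.fk [(0, -4), (1, -5), (3, -1), (4, -1), (5, -1), (6, -1), (8, 1), (11, 2), (12, 1), (13, 3)])
                  (.mv 34)))
                (.mv 24))
               (.mv 22))
              (.mv 19)))
            (.mv 40)))
          (.br 12 0
           (.br 13 0
            (.fk [(3, 1), (12, 1), (13, 1), (16, 1)])
            (.mv 10))
           (.mv 29)))
         (.mv 15))
        (.mv 2))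
       (.mv 1)))
     (.br 12 0
      (.br 18 0
       (.br 32 0
        (.br 17 0
         (.br 20 0
          (.fk [(5, 1), (6, -1), (7, 1), (8, -1), (11, -2), (12, 1), (13, 1), (14, 2)])
          (.br 25 0
           (.br 11 0
            (.br 9 0
             (.fk [(0, -2), (2, 1), (3, 2), (5, -1), (6, 1), (11, -1), (12, 1), (13, 1), (14, 1), (16, 1)])
             (.br 28 0
              (.fk [(0, 4), (1, 6), (2, -7), (3, 8), (4, 2), (5, 1), (6, 5), (7, -1), (8, -1), (11, -4), (12, 5), (13, 1), (16, 5)])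
              (.mv 9)))
            (.mv 15))
           (.mv 2)))
         (.mv 16))
        (.br 31 0
         (.fk [(0, 2), (2, -2), (5, 1), (6, -1), (10, -1), (12, 1)])
         (.mv 41)))
       (.br 9 0
        (.br 20 0
         (.br 32 0
          (.fk [(5, 1), (6, -1), (7, 1), (8, -1), (11, -2), (12, 1), (13, 1), (14, 2)])
          (.br 31 0
           (.fk [(0, 2), (2, -2), (5, 1), (6, -1), (10, -1), (12, 1)])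
           (.mv 41)))
         (.br 16 0
          (.br 17 0
           (.br 11 0
            (.br 25 0
             (.fk [(0, -4), (2, 4), (3, 4), (5, -3), (6, 1), (7, -1), (8, 1), (12, 4), (13, 4), (16, 4)])
             (.mv 2))
            (.mv 15))
           (.mv 16))
          (.mv 1)))
        (.mv 32)))
      (.mv 18)))
    (.br 21 0
     (.br 16 0
      (.br 18 0
       (.br 17 0
        (.br 20 0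
         (.fk [(1, -2), (2, 2), (3, 1), (4, 1), (5, 4), (8, -1), (12, 4), (13, 5), (14, 1)])
         (.br 15 0
          (.fk [(0, 4), (2, 4), (3, 4), (4, 16), (5, 3), (6, -3), (7, -1), (8, -3), (12, 16), (13, 16), (16, 16)])
          (.mv 30)))
        (.mv 17))
       (.br 12 0
        (.br 13 0
         (.fk [(0, -4), (2, -4), (3, 12), (4, 2), (5, 3), (6, -1), (7, 1), (8, -3), (12, 12), (13, 12), (16, 10)])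
         (.mv 10))
        (.mv 4)))
      (.br 20 0
       (.br 19 0
        (.fk [(0, -4), (2, 4), (5, 1), (6, 1), (10, 2), (12, 1), (13, 3)])
        (.br 17 0
         (.br 9 0
          (.br 12 0
           (.br 11 0
            (.br 13 0
             (.fk [(0, -4), (2, -4), (3, 6), (5, 3), (6, -3), (7, 1), (8, -1), (12, 6), (13, 6)])
             (.mv 42))
            (.mv 12))
           (.mv 4))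
          (.mv 35))
         (.mv 17)))
       (.mv 1)))
     (.mv 20)))
   (.br 13 0
    (.br 16 0
     (.br 18 0
      (.br 17 0
       (.br 21 0
        (.br 20 0
         (.br 11 0
          (.br 12 0
           (.fk [(3, 1), (12, 1), (13, 1), (16, 1)])
           (.br 26 0
            (.br 15 0
             (.fk [(0, 2), (1, -6), (2, 8), (4, 5), (5, 5), (6, 1), (7, -1), (8, -1), (9, 3), (12, 5), (13, 8), (16, 5)])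
             (.br 19 0
              (.fk [(0, -8), (1, -6), (2, 2), (3, -1), (4, -1), (5, 2), (6, -2), (7, -1), (8, 2), (11, 3), (12, 2), (13, 5)])
              (.mv 22)))
            (.mv 4)))
          (.br 25 0
           (.br 24 0
            (.fk [(0, -2), (1, -6), (2, 4), (3, 1), (4, 1), (5, 4), (6, 4), (7, -1), (11, 3), (12, 4), (13, 7)])
            (.mv 33))
           (.mv 8)))
         (.br 25 0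
          (.br 11 0
           (.br 12 0
            (.fk [(3, 1), (12, 1), (13, 1), (16, 1)])
            (.br 26 0
             (.br 15 0
              (.fk [(0, 4), (2, 4), (3, -12), (4, 16), (5, 1), (6, 3), (7, -3), (8, -1), (12, 16), (13, 16), (16, 16)])
              (.mv 44))
             (.mv 4)))
           (.mv 15))
          (.mv 2)))
        (.br 26 0
         (.br 11 0
          (.br 12 0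
           (.fk [(3, 1), (12, 1), (13, 1), (16, 1)])
           (.mv 18))
          (.br 25 0
           (.br 20 0
            (.br 15 0
             (.fk [(0, 4), (2, 4), (3, -12), (4, 16), (5, 3), (6, 3), (7, -3), (8, -1), (12, 16), (13, 16), (16, 16)])
             (.mv 26))
            (.mv 15))
           (.mv 8)))
         (.mv 20)))
       (.br 21 0
        (.br 11 0
         (.br 12 0
          (.fk [(3, 1), (12, 1), (13, 1), (16, 1)])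
          (.mv 7))
         (.mv 25))
        (.mv 16)))
      (.mv 13))
     (.br 12 0
      (.br 11 0
       (.fk [(3, 1), (12, 1), (13, 1), (16, 1)])
       (.mv 12))
      (.mv 39)))
    (.mv 14)))
  (.mv 0))

def EBiii_1_0_0 : Inst where
  rows :=
   [(false, [1, 1, 1, 0, 0, 0, 0, 0, 0, 0, 0, 0, 0, 0, 0, 0, 0, 0, 0, 0, 0, 0, 0, 0, 0, 0, 0, 0, 0, 0, 0, 0, 0, 0], 1),
    (false, [0, 0, 0, 1, 1, 1, 1, 1, 0, 0, 0, 0, 0, 0, 0, 0, 0, 0, 0, 0, 0, 0, 0, 0, 0, 0, 0, 0, 0, 0, 0, 0, 0, 0], 1),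
    (false, [0, 0, 0, 0, 0, 0, 0, 0, 1, 1, 1, 0, 0, 0, 0, 0, 0, 0, 0, 0, 0, 0, 0, 0, 0, 0, 0, 0, 0, 0, 0, 0, 0, 0], 1),
    (false, [0, 0, 0, 0, 0, 0, 0, 0, 0, 0, 0, 1, 1, 1, 0, 0, 0, 0, 0, 0, 0, 0, 0, 0, 0, 0, 0, 0, 0, 0, 0, 0, 0, -1], 1),
    (false, [0, 0, 0, 0, 0, 0, 0, 0, 0, 0, 0, 0, 0, 0, 1, 1, 1, 1, 1, 0, 0, 0, 0, 0, 0, 0, 0, 0, 0, 0, 0, 0, 0, -3], 2),
    (false, [0, 0, 0, 0, 0, 0, 0, 0, 0, 0, 0, 0, 0, 0, 0, 0, 0, 0, 0, 1, 1, 1, 1, 0, 0, 0, 0, 0, 0, 0, 0, 0, 0, 0], 3),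
    (false, [0, 0, 0, 0, 0, 0, 0, 0, 0, 0, 0, 0, 0, 0, 0, 0, 0, 0, 0, 0, 0, 0, 0, 1, 1, 1, 1, 0, 0, 0, 0, 0, 0, 0], 1),
    (false, [0, 1, 4, 4, 1, 0, 1, 4, 0, 1, 4, 0, 1, 4, 4, 1, 0, 1, 4, 1, 0, 1, 4, 4, 1, 0, 1, 0, 1, 4, 0, 0, 0, -4], 15),
    (false, [4, 1, 0, 4, 1, 0, 1, 4, 4, 1, 0, 4, 1, 0, 4, 1, 0, 1, 4, 4, 1, 0, 1, 1, 0, 1, 4, 0, 1, 4, 0, 0, 0, -4], 15),
    (false, [-1, -1, -1, 1, 1, 1, 1, 1, -1, -1, -1, -1, -1, -1, 1, 1, 1, 1, 1, 0, 0, 0, 0, 0, 0, 0, 0, 1, 1, 1, -1, 0, 0, 0], 0),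
    (false, [1, 1, 1, -1, -1, -1, -1, -1, -1, -1, -1, 0, 0, 0, 0, 0, 0, 0, 0, 1, 1, 1, 1, -1, -1, -1, -1, 1, 1, 1, 0, -1, 0, 0], 0),
    (false, [-1, 0, 1, -1, 0, 1, 0, -1, -1, 0, 1, -1, 0, 1, -1, 0, 1, 0, -1, -1, 0, 1, 0, 0, 1, 0, -1, 1, 0, -1, 0, 0, -1, 0], 0),
    (true, [-1, -1, -1, -1, -1, -1, -1, -1, 1, 1, 1, 0, 0, 0, 0, 0, 0, 0, 0, 0, 0, 0, 0, 0, 0, 0, 0, 1, 1, 1, 0, 0, 0, 0], 0),
    (true, [1, 1, 1, 1, 1, 1, 1, 1, -1, -1, -1, 0, 0, 0, 0, 0, 0, 0, 0, 0, 0, 0, 0, 0, 0, 0, 0, -1, -1, -1, 0, 0, 0, 0], 0),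
    (true, [1, 0, -1, -1, 0, 1, 0, -1, 1, 0, -1, 1, 0, -1, -1, 0, 1, 0, -1, 0, 1, 0, -1, -1, 0, 1, 0, 1, 0, -1, 0, 0, 0, 0], 0),
    (true, [4, 1, 0, 16, 9, 4, 1, 0, 0, 1, 4, 1, 0, 1, 9, 4, 1, 0, 1, 4, 1, 0, 1, 9, 4, 1, 0, 0, 1, 4, 0, 0, 0, 0], 1),
    (true, [0, 0, 0, 0, 0, 0, 0, 0, 0, 0, 0, 0, 0, 0, 0, 0, 0, 0, 0, 0, 0, 0, 0, 0, 0, 0, 0, 0, 0, 0, 0, 0, 0, 1], 0),
    (true, [4, 1, 0, 16, 9, 4, 1, 0, 0, 1, 4, 1, 0, 1, 9, 4, 1, 0, 1, 4, 1, 0, 1, 9, 4, 1, 0, 0, 1, 4, 0, 0, 0, -4], 17)]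
  moves := EBiii_moves1
  reqs := EBiii_reqs1
  tree := EBiii_1_0_0_tree

theorem EBiii_1_0_0_ok : EBiii.instOK 1 0 0 EBiii_1_0_0 = true := by
  decide +kernel

def EBiii_1_1_0_tree : Tree :=
  (.br 8 0
  (.br 16 0
   (.br 18 0
    (.br 11 0
     (.br 20 0
      (.br 17 0
       (.br 12 0
        (.br 21 0
         (.fk [(0, -4), (1, -6), (2, 6), (3, 2), (4, 2), (5, 2), (6, -2), (8, 1), (9, 1), (11, 2), (12, 2), (13, 7), (14, 2), (16, 2), (17, 1)])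
         (.br 26 0
          (.fk [(1, -8), (2, 4), (3, 3), (4, 1), (8, 1), (9, 2), (12, 1), (13, 3), (16, 1), (17, 1)])
          (.mv 20)))
        (.br 21 0
         (.fk [(0, -24), (1, -34), (2, 28), (3, -6), (4, 5), (5, 5), (6, -11), (7, 1), (8, 5), (9, 5), (11, 10), (12, 5), (13, 30), (14, 10), (16, 5), (17, 4)])
         (.mv 18)))
       (.br 21 0
        (.br 12 0
         (.br 22 0
          (.fk [(0, 8), (1, 8), (2, 8), (3, 14), (4, 6), (5, 23), (6, 5), (7, -3), (8, -3), (12, 23), (13, 23), (17, 2)])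
          (.br 13 0
           (.fk [(3, 1), (12, 1), (13, 1), (16, 1)])
           (.mv 14)))
         (.mv 7))
        (.mv 16)))
      (.br 17 0
       (.br 21 0
        (.br 15 0
         (.fk [(0, -2), (2, 2), (4, 10), (5, 1), (6, 1), (11, 1), (12, 10), (13, 11), (16, 10), (17, 1)])
         (.br 26 0
          (.fk [(0, -6), (1, -8), (2, 2), (3, -2), (4, 2), (5, -1), (6, -1), (8, 2), (11, 3), (12, 2), (13, 5), (16, 2), (17, 1)])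
          (.mv 30)))
        (.br 26 0
         (.fk [(1, -4), (3, -1), (4, 3), (8, 1), (12, 3), (13, 3), (16, 3), (17, 1)])
         (.mv 20)))
       (.br 26 0
        (.br 25 0
         (.br 24 0
          (.br 12 0
           (.fk [(0, -4), (1, -12), (2, 2), (3, 17), (4, -3), (5, -1), (6, 51), (7, -3), (8, 6), (12, 51), (13, 51), (17, 5)])
           (.mv 7))
          (.mv 23))
         (.mv 2))
        (.mv 17))))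
     (.br 25 0
      (.br 21 0
       (.br 20 0
        (.br 22 0
         (.fk [(0, 4), (2, 4), (3, 4), (4, 4), (5, 13), (6, 1), (7, -1), (8, -3), (12, 13), (13, 13)])
         (.br 17 0
          (.fk [(0, -2), (1, -2), (2, 4), (3, -4), (4, 4), (5, 4), (7, -1), (8, 1), (11, 3), (12, 4), (13, 7), (16, 4), (17, 1)])
          (.mv 25)))
        (.mv 15))
       (.br 17 0
        (.br 20 0
         (.br 26 0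
          (.fk [(1, -4), (3, -7), (4, 3), (6, 4), (8, 1), (12, 4), (13, 4), (16, 2), (17, 1)])
          (.mv 20))
         (.mv 15))
        (.mv 16)))
      (.mv 8)))
    (.br 13 0
     (.br 12 0
      (.br 1 0
       (.br 9 0
        (.br 20 0
         (.br 21 0
          (.fk [(0, 12), (1, 4), (2, 16), (3, 9), (4, 5), (5, 15), (6, 3), (7, -3), (8, -2), (12, 15), (13, 15), (17, 1)])
          (.br 17 0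
           (.br 26 0
            (.br 25 0
             (.fk [(0, 8), (1, 4), (2, 20), (3, -1), (4, 7), (5, 2), (6, 14), (7, -2), (8, 1), (12, 7), (13, 7), (16, 4), (17, 3)])
             (.mv 36))
            (.mv 20))
           (.mv 16)))
         (.br 11 0
          (.fk [(3, 1), (12, 1), (13, 1)])
          (.mv 15)))
        (.br 22 0
         (.br 21 0
          (.fk [(0, -32), (1, 4), (2, -20), (3, 39), (4, 1), (5, 12), (6, 4), (7, 8), (8, -9), (12, 24), (13, 24), (16, 24), (17, 3)])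
          (.mv 32))
         (.mv 13)))
       (.br 6 0
        (.br 22 0
         (.br 21 0
          (.fk [(0, -12), (1, 4), (2, -8), (3, 17), (4, 1), (5, 5), (6, 1), (7, 3), (8, -4), (12, 14), (13, 14), (16, 12), (17, 1)])
          (.br 17 0
           (.br 9 0
            (.br 25 0
             (.br 26 0
              (.fk [(0, -3), (1, 4), (2, 8), (3, 1), (4, 5), (5, 1), (6, 5), (7, -1), (12, 5), (13, 5), (16, 5), (17, 1)])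
              (.mv 20))
             (.mv 31))
            (.mv 32))
           (.mv 16)))
         (.mv 13))
        (.mv 5)))
      (.br 17 0
       (.br 26 0
        (.br 21 0
         (.br 20 0
          (.fk [(0, -2), (1, -2), (2, 4), (3, -8), (4, 4), (5, 4), (7, -1), (8, 1), (11, 3), (12, 4), (13, 7), (17, 1)])
          (.mv 29))
         (.mv 18))
        (.mv 4))
       (.mv 7)))
     (.mv 10)))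
   (.br 21 0
    (.br 20 0
     (.br 11 0
      (.br 12 0
       (.br 22 0
        (.br 25 0
         (.br 17 0
          (.fk [(0, 4), (1, 4), (2, 4), (3, 7), (4, 3), (5, 13), (6, 1), (7, -1), (12, 13), (13, 13), (17, 3)])
          (.br 26 0
           (.fk [(2, 4), (3, 8), (5, 5), (6, 9), (7, -1), (8, 1), (12, 5), (13, 7), (14, 2), (17, 2)])
           (.mv 17)))
         (.mv 11))
        (.br 13 0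
         (.fk [(3, 1), (12, 1), (13, 1), (16, 1)])
         (.mv 14)))
       (.br 26 0
        (.br 25 0
         (.br 19 0
          (.fk [(0, -8), (2, 4), (5, 1), (6, 3), (7, -1), (8, 1), (10, 2), (12, 1), (13, 3)])
          (.mv 38))
         (.mv 11))
        (.mv 4)))
      (.mv 12))
     (.mv 1))
    (.br 26 0
     (.br 25 0
      (.br 11 0
       (.br 12 0
        (.br 20 0
         (.fk [(1, -4), (2, 2), (3, 11), (4, -1), (5, 2), (6, 14), (7, -2), (8, 3), (12, 2), (13, 2), (17, 3)])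
         (.mv 1))
        (.mv 18))
       (.mv 12))
      (.mv 11))
     (.mv 20))))
  (.mv 0))

def EBiii_1_1_0 : Inst where
  rows :=
   [(false, [1, 1, 1, 0, 0, 0, 0, 0, 0, 0, 0, 0, 0, 0, 0, 0, 0, 0, 0, 0, 0, 0, 0, 0, 0, 0, 0, 0, 0, 0, 0, 0, 0, 0], 1),
    (false, [0, 0, 0, 1, 1, 1, 1, 1, 0, 0, 0, 0, 0, 0, 0, 0, 0, 0, 0, 0, 0, 0, 0, 0, 0, 0, 0, 0, 0, 0, 0, 0, 0, 0], 1),
    (false, [0, 0, 0, 0, 0, 0, 0, 0, 1, 1, 1, 0, 0, 0, 0, 0, 0, 0, 0, 0, 0, 0, 0, 0, 0, 0, 0, 0, 0, 0, 0, 0, 0, 0], 1),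
    (false, [0, 0, 0, 0, 0, 0, 0, 0, 0, 0, 0, 1, 1, 1, 0, 0, 0, 0, 0, 0, 0, 0, 0, 0, 0, 0, 0, 0, 0, 0, 0, 0, 0, -1], 1),
    (false, [0, 0, 0, 0, 0, 0, 0, 0, 0, 0, 0, 0, 0, 0, 1, 1, 1, 1, 1, 0, 0, 0, 0, 0, 0, 0, 0, 0, 0, 0, 0, 0, 0, -3], 2),
    (false, [0, 0, 0, 0, 0, 0, 0, 0, 0, 0, 0, 0, 0, 0, 0, 0, 0, 0, 0, 1, 1, 1, 1, 0, 0, 0, 0, 0, 0, 0, 0, 0, 0, 0], 3),
    (false, [0, 0, 0, 0, 0, 0, 0, 0, 0, 0, 0, 0, 0, 0, 0, 0, 0, 0, 0, 0, 0, 0, 0, 1, 1, 1, 1, 0, 0, 0, 0, 0, 0, 0], 1),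
    (false, [0, 1, 4, 4, 1, 0, 1, 4, 0, 1, 4, 0, 1, 4, 4, 1, 0, 1, 4, 1, 0, 1, 4, 4, 1, 0, 1, 0, 1, 4, 0, 0, 0, -4], 15),
    (false, [4, 1, 0, 4, 1, 0, 1, 4, 4, 1, 0, 4, 1, 0, 4, 1, 0, 1, 4, 4, 1, 0, 1, 1, 0, 1, 4, 0, 1, 4, 0, 0, 0, -4], 15),
    (false, [-1, -1, -1, 1, 1, 1, 1, 1, -1, -1, -1, -1, -1, -1, 1, 1, 1, 1, 1, 0, 0, 0, 0, 0, 0, 0, 0, 1, 1, 1, -1, 0, 0, 0], 0),
    (false, [1, 1, 1, -1, -1, -1, -1, -1, -1, -1, -1, 0, 0, 0, 0, 0, 0, 0, 0, 1, 1, 1, 1, -1, -1, -1, -1, 1, 1, 1, 0, -1, 0, 0], 0),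
    (false, [-1, 0, 1, -1, 0, 1, 0, -1, -1, 0, 1, -1, 0, 1, -1, 0, 1, 0, -1, -1, 0, 1, 0, 0, 1, 0, -1, 1, 0, -1, 0, 0, -1, 0], 0),
    (true, [-1, -1, -1, -1, -1, -1, -1, -1, 1, 1, 1, 0, 0, 0, 0, 0, 0, 0, 0, 0, 0, 0, 0, 0, 0, 0, 0, 1, 1, 1, 0, 0, 0, 0], 0),
    (true, [1, 1, 1, 1, 1, 1, 1, 1, -1, -1, -1, 0, 0, 0, 0, 0, 0, 0, 0, 0, 0, 0, 0, 0, 0, 0, 0, -1, -1, -1, 0, 0, 0, 0], 0),
    (true, [1, 0, -1, -1, 0, 1, 0, -1, 1, 0, -1, 1, 0, -1, -1, 0, 1, 0, -1, 0, 1, 0, -1, -1, 0, 1, 0, 1, 0, -1, 0, 0, 0, 0], 0),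
    (true, [4, 1, 0, 16, 9, 4, 1, 0, 0, 1, 4, 1, 0, 1, 9, 4, 1, 0, 1, 4, 1, 0, 1, 9, 4, 1, 0, 0, 1, 4, 0, 0, 0, 0], 1),
    (true, [0, 0, 0, 0, 0, 0, 0, 0, 0, 0, 0, 0, 0, 0, 0, 0, 0, 0, 0, 0, 0, 0, 0, 0, 0, 0, 0, 0, 0, 0, 0, 0, 0, 1], 0),
    (true, [-4, -1, 0, -16, -9, -4, -1, 0, 0, -1, -4, -1, 0, -1, -9, -4, -1, 0, -1, -4, -1, 0, -1, -9, -4, -1, 0, 0, -1, -4, 0, 0, 0, 4], -15)]
  moves := EBiii_moves1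
  reqs := EBiii_reqs1
  tree := EBiii_1_1_0_tree

theorem EBiii_1_1_0_ok : EBiii.instOK 1 1 0 EBiii_1_1_0 = true := by
  decide +kernel

def EBiii_1_2_0_tree : Tree :=
  (.br 8 0
  (.br 20 0
   (.br 21 0
    (.br 12 0
     (.br 16 0
      (.fk [(0, -2), (1, -8), (2, 10), (3, 7), (4, 3), (5, 13), (6, 1), (7, -3), (11, 6), (12, 14), (13, 20), (17, -1), (18, 14)])
      (.br 11 0
       (.fk [(0, 2), (1, 2), (2, 2), (3, 5), (4, 1), (5, 5), (6, 1), (7, -1), (12, 8), (13, 8), (17, -1), (18, 8)])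
       (.mv 12)))
     (.br 26 0
      (.br 11 0
       (.br 17 0
        (.br 16 0
         (.fk [(0, -2), (1, -2), (2, 4), (3, -4), (4, 4), (5, 4), (7, -1), (8, 1), (11, 3), (12, 4), (13, 7), (16, 4), (17, -1), (18, 4)])
         (.br 25 0
          (.br 19 0
           (.fk [(0, -6), (2, 2), (5, 2), (6, 2), (7, -1), (8, 1), (10, 1), (12, 2), (13, 3)])
           (.mv 38))
          (.mv 11)))
        (.mv 7))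
       (.br 25 0
        (.br 17 0
         (.br 16 0
          (.fk [(0, -2), (1, -2), (2, 4), (3, -4), (4, 4), (5, 4), (6, 2), (7, -1), (8, 1), (11, 3), (12, 4), (13, 7), (16, 4), (17, -1), (18, 4)])
          (.mv 12))
         (.mv 7))
        (.mv 8)))
      (.mv 4)))
    (.br 18 0
     (.br 26 0
      (.br 11 0
       (.br 17 0
        (.br 12 0
         (.fk [(0, 2), (2, 4), (3, 12), (4, 2), (5, 2), (7, -2), (8, 2), (12, 2), (13, 3), (14, 1), (16, 2), (17, -3), (18, 26)])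
         (.mv 18))
        (.mv 16))
       (.br 25 0
        (.br 16 0
         (.br 17 0
          (.fk [(0, -12), (1, -16), (2, 12), (3, -24), (4, 12), (5, -3), (6, 12), (7, 3), (8, 1), (12, 12), (13, 24), (14, 12), (16, 12), (17, -4), (18, 20)])
          (.mv 16))
         (.mv 12))
        (.mv 8)))
      (.mv 20))
     (.br 9 0
      (.br 12 0
       (.br 26 0
        (.br 25 0
         (.br 16 0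
          (.br 17 0
           (.fk [(0, 4), (1, 8), (2, 44), (3, -8), (4, 20), (5, 7), (6, 23), (7, -7), (8, 3), (12, 20), (13, 20), (16, 20), (17, -4), (18, 20)])
           (.mv 16))
          (.br 11 0
           (.fk [(1, 4), (2, 28), (3, 13), (4, 1), (5, 4), (6, 16), (7, -4), (8, 3), (12, 13), (13, 13), (17, -3), (18, 13)])
           (.mv 12)))
         (.mv 36))
        (.mv 20))
       (.mv 18))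
      (.mv 32))))
   (.br 16 0
    (.br 13 0
     (.br 17 0
      (.br 12 0
       (.br 25 0
        (.fk [(0, 4), (1, 6), (2, 6), (3, 11), (4, 15), (5, 1), (6, 9), (7, -1), (8, -2), (12, 24), (13, 24), (16, 24), (17, -3), (18, 24)])
        (.mv 2))
       (.br 26 0
        (.br 25 0
         (.fk [(0, 2), (1, 2), (2, 2), (3, -7), (4, 5), (5, 1), (6, 5), (7, -1), (12, 8), (13, 8), (17, -1), (18, 8)])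
         (.mv 2))
        (.mv 4)))
      (.br 12 0
       (.br 11 0
        (.fk [(3, 1), (12, 1), (13, 1)])
        (.mv 15))
       (.mv 7)))
     (.br 18 0
      (.br 17 0
       (.fk [(0, 4), (1, 4), (2, 4), (3, -2), (4, 13), (5, 2), (6, -2), (7, -2), (8, 1), (12, 13), (13, 13), (16, 13), (17, -3), (18, 18)])
       (.mv 37))
      (.mv 10)))
    (.mv 1)))
  (.mv 0))

def EBiii_1_2_0 : Inst where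
  rows :=
   [(false, [1, 1, 1, 0, 0, 0, 0, 0, 0, 0, 0, 0, 0, 0, 0, 0, 0, 0, 0, 0, 0, 0, 0, 0, 0, 0, 0, 0, 0, 0, 0, 0, 0, 0], 1),
    (false, [0, 0, 0, 1, 1, 1, 1, 1, 0, 0, 0, 0, 0, 0, 0, 0, 0, 0, 0, 0, 0, 0, 0, 0, 0, 0, 0, 0, 0, 0, 0, 0, 0, 0], 1),
    (false, [0, 0, 0, 0, 0, 0, 0, 0, 1, 1, 1, 0, 0, 0, 0, 0, 0, 0, 0, 0, 0, 0, 0, 0, 0, 0, 0, 0, 0, 0, 0, 0, 0, 0], 1),
    (false, [0, 0, 0, 0, 0, 0, 0, 0, 0, 0, 0, 1, 1, 1, 0, 0, 0, 0, 0, 0, 0, 0, 0, 0, 0, 0, 0, 0, 0, 0, 0, 0, 0, -1], 1),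
    (false, [0, 0, 0, 0, 0, 0, 0, 0, 0, 0, 0, 0, 0, 0, 1, 1, 1, 1, 1, 0, 0, 0, 0, 0, 0, 0, 0, 0, 0, 0, 0, 0, 0, -3], 2),
    (false, [0, 0, 0, 0, 0, 0, 0, 0, 0, 0, 0, 0, 0, 0, 0, 0, 0, 0, 0, 1, 1, 1, 1, 0, 0, 0, 0, 0, 0, 0, 0, 0, 0, 0], 3),
    (false, [0, 0, 0, 0, 0, 0, 0, 0, 0, 0, 0, 0, 0, 0, 0, 0, 0, 0, 0, 0, 0, 0, 0, 1, 1, 1, 1, 0, 0, 0, 0, 0, 0, 0], 1),
    (false, [0, 1, 4, 4, 1, 0, 1, 4, 0, 1, 4, 0, 1, 4, 4, 1, 0, 1, 4, 1, 0, 1, 4, 4, 1, 0, 1, 0, 1, 4, 0, 0, 0, -4], 15),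
    (false, [4, 1, 0, 4, 1, 0, 1, 4, 4, 1, 0, 4, 1, 0, 4, 1, 0, 1, 4, 4, 1, 0, 1, 1, 0, 1, 4, 0, 1, 4, 0, 0, 0, -4], 15),
    (false, [-1, -1, -1, 1, 1, 1, 1, 1, -1, -1, -1, -1, -1, -1, 1, 1, 1, 1, 1, 0, 0, 0, 0, 0, 0, 0, 0, 1, 1, 1, -1, 0, 0, 0], 0),
    (false, [1, 1, 1, -1, -1, -1, -1, -1, -1, -1, -1, 0, 0, 0, 0, 0, 0, 0, 0, 1, 1, 1, 1, -1, -1, -1, -1, 1, 1, 1, 0, -1, 0, 0], 0),
    (false, [-1, 0, 1, -1, 0, 1, 0, -1, -1, 0, 1, -1, 0, 1, -1, 0, 1, 0, -1, -1, 0, 1, 0, 0, 1, 0, -1, 1, 0, -1, 0, 0, -1, 0], 0),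
    (true, [-1, -1, -1, -1, -1, -1, -1, -1, 1, 1, 1, 0, 0, 0, 0, 0, 0, 0, 0, 0, 0, 0, 0, 0, 0, 0, 0, 1, 1, 1, 0, 0, 0, 0], 0),
    (true, [1, 1, 1, 1, 1, 1, 1, 1, -1, -1, -1, 0, 0, 0, 0, 0, 0, 0, 0, 0, 0, 0, 0, 0, 0, 0, 0, -1, -1, -1, 0, 0, 0, 0], 0),
    (true, [1, 0, -1, -1, 0, 1, 0, -1, 1, 0, -1, 1, 0, -1, -1, 0, 1, 0, -1, 0, 1, 0, -1, -1, 0, 1, 0, 1, 0, -1, 0, 0, 0, 0], 0),
    (true, [4, 1, 0, 16, 9, 4, 1, 0, 0, 1, 4, 1, 0, 1, 9, 4, 1, 0, 1, 4, 1, 0, 1, 9, 4, 1, 0, 0, 1, 4, 0, 0, 0, 0], 1),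
    (true, [0, 0, 0, 0, 0, 0, 0, 0, 0, 0, 0, 0, 0, 0, 0, 0, 0, 0, 0, 0, 0, 0, 0, 0, 0, 0, 0, 0, 0, 0, 0, 0, 0, 1], 0),
    (false, [4, 1, 0, 16, 9, 4, 1, 0, 0, 1, 4, 1, 0, 1, 9, 4, 1, 0, 1, 4, 1, 0, 1, 9, 4, 1, 0, 0, 1, 4, 0, 0, 0, -4], 16),
    (true, [0, 0, 0, 1, 1, 0, 0, 0, 0, 0, 0, 0, 0, 0, 1, 0, 0, 0, 0, 0, 0, 0, 0, 1, 0, 0, 0, 0, 0, 0, 0, 0, 0, 0], 1)]
  moves := EBiii_moves1
  reqs := EBiii_reqs1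
  tree := EBiii_1_2_0_tree

theorem EBiii_1_2_0_ok : EBiii.instOK 1 2 0 EBiii_1_2_0 = true := by
  decide +kernel

def EBiii_1_3_0_tree : Tree :=
  (.br 8 0
  (.br 16 0
   (.br 20 0
    (.fk [(0, 8), (1, 6), (3, 3), (4, 7), (5, 7), (6, 3), (7, -1), (8, 2), (11, 6), (12, 7), (13, 3), (16, 7), (17, -5), (18, 12)])
    (.br 25 0
     (.br 18 0
      (.fk [(3, -1), (4, 1), (8, 1), (11, 2), (12, 2), (13, 2), (16, 2), (17, -1), (18, 2)])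
      (.br 13 0
       (.br 22 0
        (.br 12 0
         (.fk [(0, 16), (1, 16), (3, 18), (4, 14), (5, 9), (6, 11), (7, 1), (8, -3), (12, 9), (13, 1), (16, 9), (17, -6), (18, 12)])
         (.mv 29))
        (.mv 13))
       (.mv 10)))
     (.mv 2)))
   (.br 25 0
    (.br 20 0
     (.br 11 0
      (.br 1 0
       (.fk [(0, 10), (1, 8), (3, 7), (4, 3), (5, 7), (6, 7), (7, -1), (12, 7), (13, 3), (17, -3), (18, 6)])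
       (.br 6 0
        (.fk [(0, 3), (1, 18), (3, 10), (4, 6), (5, 9), (6, 9), (7, -1), (8, 1), (12, 9), (13, 3), (17, -6), (18, 12)])
        (.mv 5)))
      (.mv 12))
     (.mv 1))
    (.mv 11)))
  (.mv 0))

def EBiii_1_3_0 : Inst where
  rows :=
   [(false, [1, 1, 1, 0, 0, 0, 0, 0, 0, 0, 0, 0, 0, 0, 0, 0, 0, 0, 0, 0, 0, 0, 0, 0, 0, 0, 0, 0, 0, 0, 0, 0, 0, 0], 1),
    (false, [0, 0, 0, 1, 1, 1, 1, 1, 0, 0, 0, 0, 0, 0, 0, 0, 0, 0, 0, 0, 0, 0, 0, 0, 0, 0, 0, 0, 0, 0, 0, 0, 0, 0], 1),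
    (false, [0, 0, 0, 0, 0, 0, 0, 0, 1, 1, 1, 0, 0, 0, 0, 0, 0, 0, 0, 0, 0, 0, 0, 0, 0, 0, 0, 0, 0, 0, 0, 0, 0, 0], 1),
    (false, [0, 0, 0, 0, 0, 0, 0, 0, 0, 0, 0, 1, 1, 1, 0, 0, 0, 0, 0, 0, 0, 0, 0, 0, 0, 0, 0, 0, 0, 0, 0, 0, 0, -1], 1),
    (false, [0, 0, 0, 0, 0, 0, 0, 0, 0, 0, 0, 0, 0, 0, 1, 1, 1, 1, 1, 0, 0, 0, 0, 0, 0, 0, 0, 0, 0, 0, 0, 0, 0, -3], 2),
    (false, [0, 0, 0, 0, 0, 0, 0, 0, 0, 0, 0, 0, 0, 0, 0, 0, 0, 0, 0, 1, 1, 1, 1, 0, 0, 0, 0, 0, 0, 0, 0, 0, 0, 0], 3),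
    (false, [0, 0, 0, 0, 0, 0, 0, 0, 0, 0, 0, 0, 0, 0, 0, 0, 0, 0, 0, 0, 0, 0, 0, 1, 1, 1, 1, 0, 0, 0, 0, 0, 0, 0], 1),
    (false, [0, 1, 4, 4, 1, 0, 1, 4, 0, 1, 4, 0, 1, 4, 4, 1, 0, 1, 4, 1, 0, 1, 4, 4, 1, 0, 1, 0, 1, 4, 0, 0, 0, -4], 15),
    (false, [4, 1, 0, 4, 1, 0, 1, 4, 4, 1, 0, 4, 1, 0, 4, 1, 0, 1, 4, 4, 1, 0, 1, 1, 0, 1, 4, 0, 1, 4, 0, 0, 0, -4], 15),
    (false, [-1, -1, -1, 1, 1, 1, 1, 1, -1, -1, -1, -1, -1, -1, 1, 1, 1, 1, 1, 0, 0, 0, 0, 0, 0, 0, 0, 1, 1, 1, -1, 0, 0, 0], 0),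
    (false, [1, 1, 1, -1, -1, -1, -1, -1, -1, -1, -1, 0, 0, 0, 0, 0, 0, 0, 0, 1, 1, 1, 1, -1, -1, -1, -1, 1, 1, 1, 0, -1, 0, 0], 0),
    (false, [-1, 0, 1, -1, 0, 1, 0, -1, -1, 0, 1, -1, 0, 1, -1, 0, 1, 0, -1, -1, 0, 1, 0, 0, 1, 0, -1, 1, 0, -1, 0, 0, -1, 0], 0),
    (true, [-1, -1, -1, -1, -1, -1, -1, -1, 1, 1, 1, 0, 0, 0, 0, 0, 0, 0, 0, 0, 0, 0, 0, 0, 0, 0, 0, 1, 1, 1, 0, 0, 0, 0], 0),
    (true, [1, 1, 1, 1, 1, 1, 1, 1, -1, -1, -1, 0, 0, 0, 0, 0, 0, 0, 0, 0, 0, 0, 0, 0, 0, 0, 0, -1, -1, -1, 0, 0, 0, 0], 0),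
    (true, [1, 0, -1, -1, 0, 1, 0, -1, 1, 0, -1, 1, 0, -1, -1, 0, 1, 0, -1, 0, 1, 0, -1, -1, 0, 1, 0, 1, 0, -1, 0, 0, 0, 0], 0),
    (true, [4, 1, 0, 16, 9, 4, 1, 0, 0, 1, 4, 1, 0, 1, 9, 4, 1, 0, 1, 4, 1, 0, 1, 9, 4, 1, 0, 0, 1, 4, 0, 0, 0, 0], 1),
    (true, [0, 0, 0, 0, 0, 0, 0, 0, 0, 0, 0, 0, 0, 0, 0, 0, 0, 0, 0, 0, 0, 0, 0, 0, 0, 0, 0, 0, 0, 0, 0, 0, 0, 1], 0),
    (false, [4, 1, 0, 16, 9, 4, 1, 0, 0, 1, 4, 1, 0, 1, 9, 4, 1, 0, 1, 4, 1, 0, 1, 9, 4, 1, 0, 0, 1, 4, 0, 0, 0, -4], 16),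
    (true, [1, 0, -1, 0, 0, 1, 0, -1, -1, 0, 1, 0, -1, 0, 0, 1, 0, -1, 0, 1, 0, -1, 0, 0, 1, 0, -1, -1, 0, 1, 0, 0, 0, 0], 1)]
  moves := EBiii_moves1
  reqs := EBiii_reqs1
  tree := EBiii_1_3_0_tree

theorem EBiii_1_3_0_ok : EBiii.instOK 1 3 0 EBiii_1_3_0 = true := by
  decide +kernel

theorem EBiii_ok1 : ∀ b ∈ EBiii.branches, ∃ I : Inst, EBiii.instOK 1 b.1 b.2 I = true := by
  intro b hb
  have h : b = (0, 0) ∨ b = (1, 0) ∨ b = (2, 0) ∨ b = (3, 0) := by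
    have hb2 : b ∈ [(0, 0), (1, 0), (2, 0), (3, 0)] := hb
    simpa using hb2
  rcases h with rfl | rfl | rfl | rfl
  · exact ⟨EBiii_1_0_0, EBiii_1_0_0_ok⟩
  · exact ⟨EBiii_1_1_0, EBiii_1_1_0_ok⟩
  · exact ⟨EBiii_1_2_0, EBiii_1_2_0_ok⟩
  · exact ⟨EBiii_1_3_0, EBiii_1_3_0_ok⟩

end Pool.Agent.helper1.CAD
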