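import Pool.Agent.helper1.CAD.Sound

namespace Pool.Agent.helper1.CAD

set_option maxRecDepth 100000

def EBiv : Spec where
  K := .B
  tys := [(2, 0, [0], 1), (1, 2, [1], 1), (1, 1, [0], 4), (1, 0, [3], 2), (0, 2, [0], 1)]
  kc := ([2], 6)
  pmin := [0]
  sl := (0, 0)
  good := false
  pv := 1
  px := 0
  pvx := 1

def EBiv_moves0 : List Move :=
   [([((0, 2, 0), -2)], 0),
    ([((1, 1, 1), 0), ((1, 0, 1), 1)], 0),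
    ([((1, 2, 1), 0), ((1, 0, 1), 2)], 0),
    ([((1, 2, 0), 0), ((1, 0, 0), 2)], 0),
    ([((1, 1, 0), 0), ((1, 0, 0), 1)], 0),
    ([((1, 1, 0), 0)], 1),
    ([((1, 2, 1), 1), ((1, 1, 1), 2)], 0),
    ([((1, 1, -1), 0), ((1, 0, -1), 1)], 0),
    ([((1, 2, 2), 0), ((1, 0, 2), 2)], 0),
    ([((1, 1, 2), 0), ((1, 0, 2), 1)], 0),
    ([((1, 1, 1), 2), ((1, 0, -1), -1), ((0, 2, 1), 0)], 0),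
    ([((1, 2, 1), 1), ((1, 1, -1), 0), ((1, 0, 0), 2)], 0),
    ([((1, 1, 1), -1), ((1, 0, 2), 2), ((0, 2, 1), 0)], 0),
    ([((1, 1, -1), -1), ((1, 0, 0), 2), ((0, 2, 1), 0)], 0),
    ([((1, 2, 0), 0), ((1, 1, 1), 2), ((1, 0, -1), 1)], 0),
    ([((2, 0, 0), 2), ((1, 1, -1), -1), ((1, 1, -1), -1), ((0, 2, 2), 0)], 0),
    ([((1, 1, -1), 0), ((1, 1, 1), 0), ((1, 0, 0), 1)], 1)]

def EBiv_reqs0 : List (List ℤ) :=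
   [[0, 0, 0, 0, 0, 0, 0, 0, 0, 0, 0, 0, 0, 0, 0, 0, 0, 1, 0, 0, 0, 0, 0, 0, 0, 0, 0],
    [0, 0, 0, 0, 0, 0, 0, 0, 0, 0, 1, 0, 0, 0, 0, 1, 0, 0, 0, 0, 0, 0, 0, 0, 0, 0, 0],
    [0, 0, 0, 0, 0, 0, 1, 0, 0, 0, 0, 0, 0, 0, 0, 1, 0, 0, 0, 0, 0, 0, 0, 0, 0, 0, 0],
    [0, 0, 0, 0, 0, 1, 0, 0, 0, 0, 0, 0, 0, 0, 1, 0, 0, 0, 0, 0, 0, 0, 0, 0, 0, 0, 0],
    [0, 0, 0, 0, 0, 0, 0, 0, 0, 1, 0, 0, 0, 0, 1, 0, 0, 0, 0, 0, 0, 0, 0, 0, 0, 0, 0],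
    [0, 0, 0, 0, 0, 0, 0, 0, 0, 1, 0, 0, 0, 0, 0, 0, 0, 0, 0, 0, 0, 0, 0, 0, 1, 0, 0],
    [0, 0, 0, 0, 0, 0, 1, 0, 0, 0, 1, 0, 0, 0, 0, 0, 0, 0, 0, 0, 0, 0, 0, 0, 0, 0, 0],
    [0, 0, 0, 0, 0, 0, 0, 0, 1, 0, 0, 0, 0, 1, 0, 0, 0, 0, 0, 0, 0, 0, 0, 0, 0, 0, 0],
    [0, 0, 0, 0, 0, 0, 0, 1, 0, 0, 0, 0, 0, 0, 0, 0, 1, 0, 0, 0, 0, 0, 0, 0, 0, 0, 0],
    [0, 0, 0, 0, 0, 0, 0, 0, 0, 0, 0, 1, 0, 0, 0, 0, 1, 0, 0, 0, 0, 0, 0, 0, 0, 0, 0],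
    [0, 0, 0, 0, 0, 0, 0, 0, 0, 0, 1, 0, 0, 1, 0, 0, 0, 0, 1, 0, 0, 0, 0, 0, 0, 0, 0],
    [0, 0, 0, 0, 0, 0, 1, 0, 1, 0, 0, 0, 0, 0, 1, 0, 0, 0, 0, 0, 0, 0, 0, 0, 0, 0, 0],
    [0, 0, 0, 0, 0, 0, 0, 0, 0, 0, 1, 0, 0, 0, 0, 0, 1, 0, 1, 0, 0, 0, 0, 0, 0, 0, 0],
    [0, 0, 0, 0, 0, 0, 0, 0, 1, 0, 0, 0, 0, 0, 1, 0, 0, 0, 1, 0, 0, 0, 0, 0, 0, 0, 0],
    [0, 0, 0, 0, 0, 1, 0, 0, 0, 0, 1, 0, 0, 1, 0, 0, 0, 0, 0, 0, 0, 0, 0, 0, 0, 0, 0],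
    [0, 0, 1, 0, 0, 0, 0, 0, 2, 0, 0, 0, 0, 0, 0, 0, 0, 0, 0, 1, 0, 0, 0, 0, 0, 0, 0],
    [0, 0, 0, 0, 0, 0, 0, 0, 1, 0, 1, 0, 0, 0, 1, 0, 0, 0, 0, 0, 0, 0, 0, 0, 1, 1, 0]]

def EBiv_base0 : List Row :=
   [(false, [1, 1, 1, 1, 1, 0, 0, 0, 0, 0, 0, 0, 0, 0, 0, 0, 0, 0, 0, 0, 0, 0, 0, 0, 0, 0, 0], 1),
    (false, [0, 0, 0, 0, 0, 1, 1, 1, 0, 0, 0, 0, 0, 0, 0, 0, 0, 0, 0, 0, 0, 0, 0, 0, 0, 0, -1], 1),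
    (false, [0, 0, 0, 0, 0, 0, 0, 0, 1, 1, 1, 1, 0, 0, 0, 0, 0, 0, 0, 0, 0, 0, 0, 0, 0, 0, 0], 4),
    (false, [0, 0, 0, 0, 0, 0, 0, 0, 0, 0, 0, 0, 1, 1, 1, 1, 1, 0, 0, 0, 0, 0, 0, 0, 0, 0, -3], 2),
    (false, [0, 0, 0, 0, 0, 0, 0, 0, 0, 0, 0, 0, 0, 0, 0, 0, 0, 1, 1, 1, 0, 0, 0, 0, 0, 0, 0], 1),
    (false, [4, 1, 0, 1, 4, 0, 1, 4, 1, 0, 1, 4, 4, 1, 0, 1, 4, 0, 1, 4, 0, 1, 4, 0, 0, 0, -4], 12),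
    (false, [4, 1, 0, 1, 4, 4, 1, 0, 4, 1, 0, 1, 4, 1, 0, 1, 4, 4, 1, 0, 0, 1, 4, 0, 0, 0, -4], 12),
    (false, [1, 1, 1, 1, 1, -1, -1, -1, 0, 0, 0, 0, 1, 1, 1, 1, 1, -1, -1, -1, 1, 1, 1, -1, 0, 0, 0], 0),
    (false, [-1, -1, -1, -1, -1, 0, 0, 0, 1, 1, 1, 1, 0, 0, 0, 0, 0, -1, -1, -1, 1, 1, 1, 0, -1, 0, 0], 0),
    (false, [-1, 0, 1, 0, -1, -1, 0, 1, -1, 0, 1, 0, -1, 0, 1, 0, -1, -1, 0, 1, 1, 0, -1, 0, 0, -1, 0], 0),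
    (true, [-1, -1, -1, -1, -1, 0, 0, 0, 0, 0, 0, 0, 0, 0, 0, 0, 0, 1, 1, 1, 1, 1, 1, 0, 0, 0, 0], 0),
    (true, [1, 1, 1, 1, 1, 0, 0, 0, 0, 0, 0, 0, 0, 0, 0, 0, 0, -1, -1, -1, -1, -1, -1, 0, 0, 0, 0], 0),
    (true, [-1, 0, 1, 0, -1, 1, 0, -1, 0, 1, 0, -1, -1, 0, 1, 0, -1, 1, 0, -1, 1, 0, -1, 0, 0, 0, 0], 0),
    (true, [16, 9, 4, 1, 0, 1, 0, 1, 4, 1, 0, 1, 9, 4, 1, 0, 1, 0, 1, 4, 0, 1, 4, 0, 0, 0, 0], 1),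
    (true, [0, 0, 0, 0, 0, 0, 0, 0, 0, 0, 0, 0, 0, 0, 0, 0, 0, 0, 0, 0, 0, 0, 0, 0, 0, 0, 1], 0)]

def EBiv_0_0_0_tree : Tree :=
  (.br 17 0
  (.br 9 0
   (.br 14 0
    (.br 10 0
     (.fk [(0, -10), (1, 1), (2, 5), (3, 1), (4, 6), (5, -1), (9, 4), (11, 5), (12, 1)])
     (.br 15 0
      (.br 16 0
       (.br 13 0
        (.fk [(0, -16), (1, 4), (2, 3), (3, 16), (4, 20), (5, -3), (6, -1), (11, 16), (14, 36)])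
        (.br 18 0
         (.br 8 0
          (.br 5 0
           (.fk [(2, 1), (4, 1), (5, -1), (6, 1), (10, 1), (11, 1)])
           (.mv 14))
          (.mv 7))
         (.mv 10)))
       (.br 18 0
        (.br 13 0
         (.fk [(0, -2), (1, -1), (3, 1), (4, 2), (11, 1), (12, 1)])
         (.br 5 0
          (.fk [(0, -8), (1, -1), (2, -1), (3, -1), (4, 4), (5, 1), (11, 4), (12, 4)])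
          (.mv 14)))
        (.mv 12)))
      (.mv 1)))
    (.br 5 0
     (.br 10 0
      (.br 6 0
       (.br 8 0
        (.fk [(0, -4), (1, 10), (2, 3), (3, -2), (4, 3), (5, -2), (6, 3), (8, 1), (11, 3), (12, 2)])
        (.br 18 0
         (.br 13 0
          (.br 8 1
           (.fk [(0, -4), (1, 6), (2, 2), (3, -2), (4, 2), (5, -1), (6, 2), (11, 2), (12, 2), (14, 4)])
           (.br 2 0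
            (.fk [(0, 1), (1, 4), (2, 1), (4, 4), (5, -1), (10, 4), (11, 4)])
            (.br 19 0
             (.fk [(0, -1), (4, 1), (10, 1), (11, 1)])
             (.mv 15))))
          (.mv 7))
         (.mv 13)))
       (.br 8 0
        (.fk [(2, 2), (4, 2), (5, -2), (6, 2), (8, 1), (10, 1), (11, 2)])
        (.mv 11)))
      (.br 6 0
       (.br 8 0
        (.fk [(0, -1), (1, 4), (2, 1), (4, 1), (5, -1), (6, 1), (11, 1), (14, 1)])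
        (.br 18 0
         (.br 25 0
          (.fk [(0, 6), (1, 13), (2, 3), (3, 3), (4, 6), (5, 2), (6, -5), (9, -15), (10, 9), (11, 6), (12, 6), (14, 6)])
          (.br 24 0
           (.fk [(0, -13), (1, 6), (2, 2), (3, -2), (4, -1), (5, -1), (6, 2), (8, -9), (11, 2), (12, 2), (14, 2)])
           (.mv 16)))
         (.mv 13)))
       (.mv 6)))
     (.mv 3)))
   (.br 14 0
    (.br 24 0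
     (.fk [(0, -2), (2, 1), (8, -1), (11, 1)])
     (.mv 5))
    (.mv 4)))
  (.mv 0))

def EBiv_0_0_0 : Inst where
  rows :=
   [(false, [1, 1, 1, 1, 1, 0, 0, 0, 0, 0, 0, 0, 0, 0, 0, 0, 0, 0, 0, 0, 0, 0, 0, 0, 0, 0, 0], 1),
    (false, [0, 0, 0, 0, 0, 1, 1, 1, 0, 0, 0, 0, 0, 0, 0, 0, 0, 0, 0, 0, 0, 0, 0, 0, 0, 0, -1], 1),
    (false, [0, 0, 0, 0, 0, 0, 0, 0, 1, 1, 1, 1, 0, 0, 0, 0, 0, 0, 0, 0, 0, 0, 0, 0, 0, 0, 0], 4),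
    (false, [0, 0, 0, 0, 0, 0, 0, 0, 0, 0, 0, 0, 1, 1, 1, 1, 1, 0, 0, 0, 0, 0, 0, 0, 0, 0, -3], 2),
    (false, [0, 0, 0, 0, 0, 0, 0, 0, 0, 0, 0, 0, 0, 0, 0, 0, 0, 1, 1, 1, 0, 0, 0, 0, 0, 0, 0], 1),
    (false, [4, 1, 0, 1, 4, 0, 1, 4, 1, 0, 1, 4, 4, 1, 0, 1, 4, 0, 1, 4, 0, 1, 4, 0, 0, 0, -4], 12),
    (false, [4, 1, 0, 1, 4, 4, 1, 0, 4, 1, 0, 1, 4, 1, 0, 1, 4, 4, 1, 0, 0, 1, 4, 0, 0, 0, -4], 12),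
    (false, [1, 1, 1, 1, 1, -1, -1, -1, 0, 0, 0, 0, 1, 1, 1, 1, 1, -1, -1, -1, 1, 1, 1, -1, 0, 0, 0], 0),
    (false, [-1, -1, -1, -1, -1, 0, 0, 0, 1, 1, 1, 1, 0, 0, 0, 0, 0, -1, -1, -1, 1, 1, 1, 0, -1, 0, 0], 0),
    (false, [-1, 0, 1, 0, -1, -1, 0, 1, -1, 0, 1, 0, -1, 0, 1, 0, -1, -1, 0, 1, 1, 0, -1, 0, 0, -1, 0], 0),
    (true, [-1, -1, -1, -1, -1, 0, 0, 0, 0, 0, 0, 0, 0, 0, 0, 0, 0, 1, 1, 1, 1, 1, 1, 0, 0, 0, 0], 0),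
    (true, [1, 1, 1, 1, 1, 0, 0, 0, 0, 0, 0, 0, 0, 0, 0, 0, 0, -1, -1, -1, -1, -1, -1, 0, 0, 0, 0], 0),
    (true, [-1, 0, 1, 0, -1, 1, 0, -1, 0, 1, 0, -1, -1, 0, 1, 0, -1, 1, 0, -1, 1, 0, -1, 0, 0, 0, 0], 0),
    (true, [16, 9, 4, 1, 0, 1, 0, 1, 4, 1, 0, 1, 9, 4, 1, 0, 1, 0, 1, 4, 0, 1, 4, 0, 0, 0, 0], 1),
    (true, [0, 0, 0, 0, 0, 0, 0, 0, 0, 0, 0, 0, 0, 0, 0, 0, 0, 0, 0, 0, 0, 0, 0, 0, 0, 0, 1], 0),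
    (true, [16, 9, 4, 1, 0, 1, 0, 1, 4, 1, 0, 1, 9, 4, 1, 0, 1, 0, 1, 4, 0, 1, 4, 0, 0, 0, -4], 12)]
  moves := EBiv_moves0
  reqs := EBiv_reqs0
  tree := EBiv_0_0_0_tree

theorem EBiv_0_0_0_ok : EBiv.instOK 0 0 0 EBiv_0_0_0 = true := by
  decide +kernel

def EBiv_0_1_0_tree : Tree :=
  (.br 17 0
  (.br 9 0
   (.br 14 0
    (.br 10 0
     (.fk [(0, -10), (1, 1), (2, 5), (3, 1), (4, 6), (5, -1), (9, 4), (11, 5), (12, 1)])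
     (.br 16 0
      (.br 15 0
       (.fk [(0, -28), (1, -21), (2, -3), (3, 9), (4, 6), (5, 3), (6, 4), (11, 9), (12, 9), (14, 18), (15, 4)])
       (.mv 1))
      (.br 18 0
       (.br 15 0
        (.fk [(0, -14), (1, -37), (2, 5), (3, 19), (4, 82), (5, -5), (6, 6), (11, 19), (12, 19), (15, 6)])
        (.mv 1))
       (.mv 12))))
    (.br 5 0
     (.br 10 0
      (.br 15 0
       (.br 11 0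
        (.br 16 0
         (.fk [(0, -28), (1, -7), (2, 4), (3, 1), (4, 2), (5, 4), (6, 3), (11, 4), (12, 4), (15, 5)])
         (.br 7 0
          (.fk [(2, 3), (4, -2), (5, 2), (6, -2), (8, 3), (11, 3)])
          (.mv 8)))
        (.br 16 0
         (.fk [(0, -9), (1, -1), (2, 5), (3, 3), (4, 7), (5, -1), (6, 2), (11, 5), (15, 3)])
         (.mv 9)))
       (.br 6 0
        (.fk [(0, -12), (1, 25), (2, 10), (3, -3), (4, 14), (5, -2), (6, 5), (11, 10), (12, 10), (15, 7)])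
        (.mv 2)))
      (.br 6 0
       (.fk [(1, 6), (2, 1), (4, 2), (5, -1), (6, 1), (11, 1), (12, 1), (14, 1), (15, 1)])
       (.mv 6)))
     (.mv 3)))
   (.br 24 0
    (.fk [(0, -2), (2, 1), (8, -1), (11, 1)])
    (.mv 5)))
  (.mv 0))

def EBiv_0_1_0 : Inst where
  rows :=
   [(false, [1, 1, 1, 1, 1, 0, 0, 0, 0, 0, 0, 0, 0, 0, 0, 0, 0, 0, 0, 0, 0, 0, 0, 0, 0, 0, 0], 1),
    (false, [0, 0, 0, 0, 0, 1, 1, 1, 0, 0, 0, 0, 0, 0, 0, 0, 0, 0, 0, 0, 0, 0, 0, 0, 0, 0, -1], 1),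
    (false, [0, 0, 0, 0, 0, 0, 0, 0, 1, 1, 1, 1, 0, 0, 0, 0, 0, 0, 0, 0, 0, 0, 0, 0, 0, 0, 0], 4),
    (false, [0, 0, 0, 0, 0, 0, 0, 0, 0, 0, 0, 0, 1, 1, 1, 1, 1, 0, 0, 0, 0, 0, 0, 0, 0, 0, -3], 2),
    (false, [0, 0, 0, 0, 0, 0, 0, 0, 0, 0, 0, 0, 0, 0, 0, 0, 0, 1, 1, 1, 0, 0, 0, 0, 0, 0, 0], 1),
    (false, [4, 1, 0, 1, 4, 0, 1, 4, 1, 0, 1, 4, 4, 1, 0, 1, 4, 0, 1, 4, 0, 1, 4, 0, 0, 0, -4], 12),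
    (false, [4, 1, 0, 1, 4, 4, 1, 0, 4, 1, 0, 1, 4, 1, 0, 1, 4, 4, 1, 0, 0, 1, 4, 0, 0, 0, -4], 12),
    (false, [1, 1, 1, 1, 1, -1, -1, -1, 0, 0, 0, 0, 1, 1, 1, 1, 1, -1, -1, -1, 1, 1, 1, -1, 0, 0, 0], 0),
    (false, [-1, -1, -1, -1, -1, 0, 0, 0, 1, 1, 1, 1, 0, 0, 0, 0, 0, -1, -1, -1, 1, 1, 1, 0, -1, 0, 0], 0),
    (false, [-1, 0, 1, 0, -1, -1, 0, 1, -1, 0, 1, 0, -1, 0, 1, 0, -1, -1, 0, 1, 1, 0, -1, 0, 0, -1, 0], 0),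
    (true, [-1, -1, -1, -1, -1, 0, 0, 0, 0, 0, 0, 0, 0, 0, 0, 0, 0, 1, 1, 1, 1, 1, 1, 0, 0, 0, 0], 0),
    (true, [1, 1, 1, 1, 1, 0, 0, 0, 0, 0, 0, 0, 0, 0, 0, 0, 0, -1, -1, -1, -1, -1, -1, 0, 0, 0, 0], 0),
    (true, [-1, 0, 1, 0, -1, 1, 0, -1, 0, 1, 0, -1, -1, 0, 1, 0, -1, 1, 0, -1, 1, 0, -1, 0, 0, 0, 0], 0),
    (true, [16, 9, 4, 1, 0, 1, 0, 1, 4, 1, 0, 1, 9, 4, 1, 0, 1, 0, 1, 4, 0, 1, 4, 0, 0, 0, 0], 1),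
    (true, [0, 0, 0, 0, 0, 0, 0, 0, 0, 0, 0, 0, 0, 0, 0, 0, 0, 0, 0, 0, 0, 0, 0, 0, 0, 0, 1], 0),
    (true, [-16, -9, -4, -1, 0, -1, 0, -1, -4, -1, 0, -1, -9, -4, -1, 0, -1, 0, -1, -4, 0, -1, -4, 0, 0, 0, 4], -10)]
  moves := EBiv_moves0
  reqs := EBiv_reqs0
  tree := EBiv_0_1_0_tree

theorem EBiv_0_1_0_ok : EBiv.instOK 0 1 0 EBiv_0_1_0 = true := by
  decide +kernel

def EBiv_0_2_0_tree : Tree :=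
  (.br 17 0
  (.br 14 0
   (.br 9 0
    (.br 10 0
     (.fk [(0, -10), (1, 1), (2, 5), (3, 1), (4, 6), (5, -1), (9, 4), (11, 5), (12, 1), (16, 5)])
     (.br 15 0
      (.fk [(0, -14), (2, -1), (3, 8), (4, 18), (5, 1), (6, -1), (11, 16), (12, 6), (14, 16), (15, -2), (16, 16)])
      (.mv 1)))
    (.br 24 0
     (.fk [(0, -2), (2, 1), (8, -1), (11, 1)])
     (.mv 5)))
   (.br 5 0
    (.br 15 0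
     (.br 9 0
      (.br 6 0
       (.fk [(1, 6), (2, 1), (4, 2), (5, -1), (6, 1), (11, 1), (12, 1), (15, -1), (16, 1)])
       (.br 10 0
        (.br 8 0
         (.fk [(2, 2), (4, 2), (5, -2), (6, 2), (8, 1), (10, 1), (11, 2)])
         (.mv 11))
        (.mv 6)))
      (.mv 4))
     (.br 10 0
      (.br 6 0
       (.fk [(0, -68), (1, 31), (2, -2), (3, -5), (4, 60), (5, -6), (6, 9), (11, 56), (15, -7), (16, 56)])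
       (.mv 2))
      (.mv 1)))
    (.mv 3)))
  (.mv 0))

def EBiv_0_2_0 : Inst where
  rows :=
   [(false, [1, 1, 1, 1, 1, 0, 0, 0, 0, 0, 0, 0, 0, 0, 0, 0, 0, 0, 0, 0, 0, 0, 0, 0, 0, 0, 0], 1),
    (false, [0, 0, 0, 0, 0, 1, 1, 1, 0, 0, 0, 0, 0, 0, 0, 0, 0, 0, 0, 0, 0, 0, 0, 0, 0, 0, -1], 1),
    (false, [0, 0, 0, 0, 0, 0, 0, 0, 1, 1, 1, 1, 0, 0, 0, 0, 0, 0, 0, 0, 0, 0, 0, 0, 0, 0, 0], 4),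
    (false, [0, 0, 0, 0, 0, 0, 0, 0, 0, 0, 0, 0, 1, 1, 1, 1, 1, 0, 0, 0, 0, 0, 0, 0, 0, 0, -3], 2),
    (false, [0, 0, 0, 0, 0, 0, 0, 0, 0, 0, 0, 0, 0, 0, 0, 0, 0, 1, 1, 1, 0, 0, 0, 0, 0, 0, 0], 1),
    (false, [4, 1, 0, 1, 4, 0, 1, 4, 1, 0, 1, 4, 4, 1, 0, 1, 4, 0, 1, 4, 0, 1, 4, 0, 0, 0, -4], 12),
    (false, [4, 1, 0, 1, 4, 4, 1, 0, 4, 1, 0, 1, 4, 1, 0, 1, 4, 4, 1, 0, 0, 1, 4, 0, 0, 0, -4], 12),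
    (false, [1, 1, 1, 1, 1, -1, -1, -1, 0, 0, 0, 0, 1, 1, 1, 1, 1, -1, -1, -1, 1, 1, 1, -1, 0, 0, 0], 0),
    (false, [-1, -1, -1, -1, -1, 0, 0, 0, 1, 1, 1, 1, 0, 0, 0, 0, 0, -1, -1, -1, 1, 1, 1, 0, -1, 0, 0], 0),
    (false, [-1, 0, 1, 0, -1, -1, 0, 1, -1, 0, 1, 0, -1, 0, 1, 0, -1, -1, 0, 1, 1, 0, -1, 0, 0, -1, 0], 0),
    (true, [-1, -1, -1, -1, -1, 0, 0, 0, 0, 0, 0, 0, 0, 0, 0, 0, 0, 1, 1, 1, 1, 1, 1, 0, 0, 0, 0], 0),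
    (true, [1, 1, 1, 1, 1, 0, 0, 0, 0, 0, 0, 0, 0, 0, 0, 0, 0, -1, -1, -1, -1, -1, -1, 0, 0, 0, 0], 0),
    (true, [-1, 0, 1, 0, -1, 1, 0, -1, 0, 1, 0, -1, -1, 0, 1, 0, -1, 1, 0, -1, 1, 0, -1, 0, 0, 0, 0], 0),
    (true, [16, 9, 4, 1, 0, 1, 0, 1, 4, 1, 0, 1, 9, 4, 1, 0, 1, 0, 1, 4, 0, 1, 4, 0, 0, 0, 0], 1),
    (true, [0, 0, 0, 0, 0, 0, 0, 0, 0, 0, 0, 0, 0, 0, 0, 0, 0, 0, 0, 0, 0, 0, 0, 0, 0, 0, 1], 0),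
    (false, [16, 9, 4, 1, 0, 1, 0, 1, 4, 1, 0, 1, 9, 4, 1, 0, 1, 0, 1, 4, 0, 1, 4, 0, 0, 0, -4], 11),
    (true, [1, 1, 0, 0, 0, 0, 0, 0, 0, 0, 0, 0, 1, 0, 0, 0, 0, 0, 0, 0, 0, 0, 0, 0, 0, 0, 0], 1)]
  moves := EBiv_moves0
  reqs := EBiv_reqs0
  tree := EBiv_0_2_0_tree

theorem EBiv_0_2_0_ok : EBiv.instOK 0 2 0 EBiv_0_2_0 = true := by
  decide +kernel

def EBiv_0_3_0_tree : Tree :=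
  (.fk [(1, 1), (2, 1), (3, 1), (4, 2), (11, 1), (15, -1), (16, 3)])

def EBiv_0_3_0 : Inst where
  rows :=
   [(false, [1, 1, 1, 1, 1, 0, 0, 0, 0, 0, 0, 0, 0, 0, 0, 0, 0, 0, 0, 0, 0, 0, 0, 0, 0, 0, 0], 1),
    (false, [0, 0, 0, 0, 0, 1, 1, 1, 0, 0, 0, 0, 0, 0, 0, 0, 0, 0, 0, 0, 0, 0, 0, 0, 0, 0, -1], 1),
    (false, [0, 0, 0, 0, 0, 0, 0, 0, 1, 1, 1, 1, 0, 0, 0, 0, 0, 0, 0, 0, 0, 0, 0, 0, 0, 0, 0], 4),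
    (false, [0, 0, 0, 0, 0, 0, 0, 0, 0, 0, 0, 0, 1, 1, 1, 1, 1, 0, 0, 0, 0, 0, 0, 0, 0, 0, -3], 2),
    (false, [0, 0, 0, 0, 0, 0, 0, 0, 0, 0, 0, 0, 0, 0, 0, 0, 0, 1, 1, 1, 0, 0, 0, 0, 0, 0, 0], 1),
    (false, [4, 1, 0, 1, 4, 0, 1, 4, 1, 0, 1, 4, 4, 1, 0, 1, 4, 0, 1, 4, 0, 1, 4, 0, 0, 0, -4], 12),
    (false, [4, 1, 0, 1, 4, 4, 1, 0, 4, 1, 0, 1, 4, 1, 0, 1, 4, 4, 1, 0, 0, 1, 4, 0, 0, 0, -4], 12),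
    (false, [1, 1, 1, 1, 1, -1, -1, -1, 0, 0, 0, 0, 1, 1, 1, 1, 1, -1, -1, -1, 1, 1, 1, -1, 0, 0, 0], 0),
    (false, [-1, -1, -1, -1, -1, 0, 0, 0, 1, 1, 1, 1, 0, 0, 0, 0, 0, -1, -1, -1, 1, 1, 1, 0, -1, 0, 0], 0),
    (false, [-1, 0, 1, 0, -1, -1, 0, 1, -1, 0, 1, 0, -1, 0, 1, 0, -1, -1, 0, 1, 1, 0, -1, 0, 0, -1, 0], 0),
    (true, [-1, -1, -1, -1, -1, 0, 0, 0, 0, 0, 0, 0, 0, 0, 0, 0, 0, 1, 1, 1, 1, 1, 1, 0, 0, 0, 0], 0),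
    (true, [1, 1, 1, 1, 1, 0, 0, 0, 0, 0, 0, 0, 0, 0, 0, 0, 0, -1, -1, -1, -1, -1, -1, 0, 0, 0, 0], 0),
    (true, [-1, 0, 1, 0, -1, 1, 0, -1, 0, 1, 0, -1, -1, 0, 1, 0, -1, 1, 0, -1, 1, 0, -1, 0, 0, 0, 0], 0),
    (true, [16, 9, 4, 1, 0, 1, 0, 1, 4, 1, 0, 1, 9, 4, 1, 0, 1, 0, 1, 4, 0, 1, 4, 0, 0, 0, 0], 1),
    (true, [0, 0, 0, 0, 0, 0, 0, 0, 0, 0, 0, 0, 0, 0, 0, 0, 0, 0, 0, 0, 0, 0, 0, 0, 0, 0, 1], 0),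
    (false, [16, 9, 4, 1, 0, 1, 0, 1, 4, 1, 0, 1, 9, 4, 1, 0, 1, 0, 1, 4, 0, 1, 4, 0, 0, 0, -4], 11),
    (true, [0, 0, 1, 0, -1, 0, -1, 0, 1, 0, -1, 0, 0, 1, 0, -1, 0, -1, 0, 1, -1, 0, 1, 0, 0, 0, 0], 1)]
  moves := EBiv_moves0
  reqs := EBiv_reqs0
  tree := EBiv_0_3_0_tree

theorem EBiv_0_3_0_ok : EBiv.instOK 0 3 0 EBiv_0_3_0 = true := by
  decide +kernel

theorem EBiv_ok0 : ∀ b ∈ EBiv.branches, ∃ I : Inst, EBiv.instOK 0 b.1 b.2 I = true := by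
  intro b hb
  have h : b = (0, 0) ∨ b = (1, 0) ∨ b = (2, 0) ∨ b = (3, 0) := by
    have hb2 : b ∈ [(0, 0), (1, 0), (2, 0), (3, 0)] := hb
    simpa using hb2
  rcases h with rfl | rfl | rfl | rfl
  · exact ⟨EBiv_0_0_0, EBiv_0_0_0_ok⟩
  · exact ⟨EBiv_0_1_0, EBiv_0_1_0_ok⟩
  · exact ⟨EBiv_0_2_0, EBiv_0_2_0_ok⟩
  · exact ⟨EBiv_0_3_0, EBiv_0_3_0_ok⟩

def EBiv_moves1 : List Move :=
   [([((0, 2, 0), -2)], 0),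
    ([((1, 2, 2), 0), ((1, 0, 2), 2)], 0),
    ([((1, 1, 2), 0), ((1, 0, 2), 1)], 0),
    ([((1, 1, 1), 0), ((1, 0, 1), 1)], 0),
    ([((1, 2, 0), 0), ((1, 0, 0), 2)], 0),
    ([((1, 2, 1), 1), ((1, 1, 1), 2)], 0),
    ([((1, 1, -1), 0), ((1, 0, -1), 1)], 0),
    ([((1, 1, 0), 0), ((1, 0, 0), 1)], 0),
    ([((1, 2, 1), 0), ((1, 0, 1), 2)], 0),
    ([((1, 2, 0), 1), ((1, 1, 0), 2)], 0),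
    ([((1, 1, 2), 2), ((1, 0, 0), -1), ((0, 2, 1), 0)], 0),
    ([((1, 1, 0), -1), ((1, 0, 2), 2), ((0, 2, 2), 0)], 0),
    ([((1, 1, 1), 0)], 1),
    ([((1, 2, 1), 0), ((1, 1, 2), 2), ((1, 0, 0), 1)], 0),
    ([((1, 1, 0), -1), ((1, 0, 1), 2), ((0, 2, 1), 0)], 0),
    ([((1, 2, 0), 0), ((1, 1, 1), 2), ((1, 0, -1), 1)], 0),
    ([((1, 1, 0), 2), ((1, 0, -2), -1), ((0, 2, 1), 0)], 0),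
    ([((2, 0, 1), 2), ((1, 2, 1), 0), ((1, 1, 0), -1)], 0),
    ([((1, 1, -1), -1), ((1, 0, 0), 2), ((0, 2, 1), 0)], 0),
    ([((2, 0, 2), 2), ((1, 2, 2), 0), ((1, 1, 0), -1)], 0),
    ([((1, 2, 1), 1), ((1, 1, -1), 0), ((1, 0, 0), 2)], 0),
    ([((1, 2, 1), 0), ((1, 1, 0), 2), ((1, 0, 2), 1)], 0),
    ([((1, 1, 1), 2), ((1, 0, -1), -1), ((0, 2, 1), 0)], 0),
    ([((2, 0, 2), 2), ((1, 1, 0), -1), ((1, 1, 0), -1), ((0, 2, 2), 0)], 0),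
    ([((1, 1, 0), 0), ((1, 1, 0), 0), ((1, 0, -1), 1)], 1)]

def EBiv_reqs1 : List (List ℤ) :=
   [[0, 0, 0, 0, 0, 0, 0, 0, 0, 0, 0, 0, 0, 0, 0, 0, 0, 1, 0, 0, 0, 0, 0, 0, 0, 0, 0],
    [0, 0, 0, 0, 0, 0, 0, 1, 0, 0, 0, 0, 0, 0, 0, 0, 1, 0, 0, 0, 0, 0, 0, 0, 0, 0, 0],
    [0, 0, 0, 0, 0, 0, 0, 0, 0, 0, 0, 1, 0, 0, 0, 0, 1, 0, 0, 0, 0, 0, 0, 0, 0, 0, 0],
    [0, 0, 0, 0, 0, 0, 0, 0, 0, 0, 1, 0, 0, 0, 0, 1, 0, 0, 0, 0, 0, 0, 0, 0, 0, 0, 0],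
    [0, 0, 0, 0, 0, 1, 0, 0, 0, 0, 0, 0, 0, 0, 1, 0, 0, 0, 0, 0, 0, 0, 0, 0, 0, 0, 0],
    [0, 0, 0, 0, 0, 0, 1, 0, 0, 0, 1, 0, 0, 0, 0, 0, 0, 0, 0, 0, 0, 0, 0, 0, 0, 0, 0],
    [0, 0, 0, 0, 0, 0, 0, 0, 1, 0, 0, 0, 0, 1, 0, 0, 0, 0, 0, 0, 0, 0, 0, 0, 0, 0, 0],
    [0, 0, 0, 0, 0, 0, 0, 0, 0, 1, 0, 0, 0, 0, 1, 0, 0, 0, 0, 0, 0, 0, 0, 0, 0, 0, 0],
    [0, 0, 0, 0, 0, 0, 1, 0, 0, 0, 0, 0, 0, 0, 0, 1, 0, 0, 0, 0, 0, 0, 0, 0, 0, 0, 0],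
    [0, 0, 0, 0, 0, 1, 0, 0, 0, 1, 0, 0, 0, 0, 0, 0, 0, 0, 0, 0, 0, 0, 0, 0, 0, 0, 0],
    [0, 0, 0, 0, 0, 0, 0, 0, 0, 0, 0, 1, 0, 0, 1, 0, 0, 0, 1, 0, 0, 0, 0, 0, 0, 0, 0],
    [0, 0, 0, 0, 0, 0, 0, 0, 0, 1, 0, 0, 0, 0, 0, 0, 1, 0, 0, 1, 0, 0, 0, 0, 0, 0, 0],
    [0, 0, 0, 0, 0, 0, 0, 0, 0, 0, 1, 0, 0, 0, 0, 0, 0, 0, 0, 0, 0, 0, 0, 0, 1, 1, 0],
    [0, 0, 0, 0, 0, 0, 1, 0, 0, 0, 0, 1, 0, 0, 1, 0, 0, 0, 0, 0, 0, 0, 0, 0, 0, 0, 0],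
    [0, 0, 0, 0, 0, 0, 0, 0, 0, 1, 0, 0, 0, 0, 0, 1, 0, 0, 1, 0, 0, 0, 0, 0, 0, 0, 0],
    [0, 0, 0, 0, 0, 1, 0, 0, 0, 0, 1, 0, 0, 1, 0, 0, 0, 0, 0, 0, 0, 0, 0, 0, 0, 0, 0],
    [0, 0, 0, 0, 0, 0, 0, 0, 0, 1, 0, 0, 1, 0, 0, 0, 0, 0, 1, 0, 0, 0, 0, 0, 0, 0, 0],
    [0, 0, 0, 1, 0, 0, 1, 0, 0, 1, 0, 0, 0, 0, 0, 0, 0, 0, 0, 0, 0, 0, 0, 0, 0, 0, 0],
    [0, 0, 0, 0, 0, 0, 0, 0, 1, 0, 0, 0, 0, 0, 1, 0, 0, 0, 1, 0, 0, 0, 0, 0, 0, 0, 0],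
    [0, 0, 0, 0, 1, 0, 0, 1, 0, 1, 0, 0, 0, 0, 0, 0, 0, 0, 0, 0, 0, 0, 0, 0, 0, 0, 0],
    [0, 0, 0, 0, 0, 0, 1, 0, 1, 0, 0, 0, 0, 0, 1, 0, 0, 0, 0, 0, 0, 0, 0, 0, 0, 0, 0],
    [0, 0, 0, 0, 0, 0, 1, 0, 0, 1, 0, 0, 0, 0, 0, 0, 1, 0, 0, 0, 0, 0, 0, 0, 0, 0, 0],
    [0, 0, 0, 0, 0, 0, 0, 0, 0, 0, 1, 0, 0, 1, 0, 0, 0, 0, 1, 0, 0, 0, 0, 0, 0, 0, 0],
    [0, 0, 0, 0, 1, 0, 0, 0, 0, 2, 0, 0, 0, 0, 0, 0, 0, 0, 0, 1, 0, 0, 0, 0, 0, 0, 0],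
    [0, 0, 0, 0, 0, 0, 0, 0, 0, 2, 0, 0, 0, 1, 0, 0, 0, 0, 0, 0, 0, 0, 0, 0, 1, 0, 0]]

def EBiv_base1 : List Row :=
   [(false, [1, 1, 1, 1, 1, 0, 0, 0, 0, 0, 0, 0, 0, 0, 0, 0, 0, 0, 0, 0, 0, 0, 0, 0, 0, 0, 0], 1),
    (false, [0, 0, 0, 0, 0, 1, 1, 1, 0, 0, 0, 0, 0, 0, 0, 0, 0, 0, 0, 0, 0, 0, 0, 0, 0, 0, -1], 1),
    (false, [0, 0, 0, 0, 0, 0, 0, 0, 1, 1, 1, 1, 0, 0, 0, 0, 0, 0, 0, 0, 0, 0, 0, 0, 0, 0, 0], 4),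
    (false, [0, 0, 0, 0, 0, 0, 0, 0, 0, 0, 0, 0, 1, 1, 1, 1, 1, 0, 0, 0, 0, 0, 0, 0, 0, 0, -3], 2),
    (false, [0, 0, 0, 0, 0, 0, 0, 0, 0, 0, 0, 0, 0, 0, 0, 0, 0, 1, 1, 1, 0, 0, 0, 0, 0, 0, 0], 1),
    (false, [4, 1, 0, 1, 4, 0, 1, 4, 1, 0, 1, 4, 4, 1, 0, 1, 4, 0, 1, 4, 0, 1, 4, 0, 0, 0, -4], 11),
    (false, [4, 1, 0, 1, 4, 4, 1, 0, 4, 1, 0, 1, 4, 1, 0, 1, 4, 4, 1, 0, 0, 1, 4, 0, 0, 0, -4], 11),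
    (false, [1, 1, 1, 1, 1, -1, -1, -1, 0, 0, 0, 0, 1, 1, 1, 1, 1, -1, -1, -1, 1, 1, 1, -1, 0, 0, 0], 0),
    (false, [-1, -1, -1, -1, -1, 0, 0, 0, 1, 1, 1, 1, 0, 0, 0, 0, 0, -1, -1, -1, 1, 1, 1, 0, -1, 0, 0], 0),
    (false, [-1, 0, 1, 0, -1, -1, 0, 1, -1, 0, 1, 0, -1, 0, 1, 0, -1, -1, 0, 1, 1, 0, -1, 0, 0, -1, 0], 0),
    (true, [-1, -1, -1, -1, -1, 0, 0, 0, 0, 0, 0, 0, 0, 0, 0, 0, 0, 1, 1, 1, 1, 1, 1, 0, 0, 0, 0], 0),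
    (true, [1, 1, 1, 1, 1, 0, 0, 0, 0, 0, 0, 0, 0, 0, 0, 0, 0, -1, -1, -1, -1, -1, -1, 0, 0, 0, 0], 0),
    (true, [-1, 0, 1, 0, -1, 1, 0, -1, 0, 1, 0, -1, -1, 0, 1, 0, -1, 1, 0, -1, 1, 0, -1, 0, 0, 0, 0], 0),
    (true, [16, 9, 4, 1, 0, 1, 0, 1, 4, 1, 0, 1, 9, 4, 1, 0, 1, 0, 1, 4, 0, 1, 4, 0, 0, 0, 0], 1),
    (true, [0, 0, 0, 0, 0, 0, 0, 0, 0, 0, 0, 0, 0, 0, 0, 0, 0, 0, 0, 0, 0, 0, 0, 0, 0, 0, 1], 0)]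

def EBiv_1_0_0_tree : Tree :=
  (.br 17 0
  (.br 10 0
   (.br 9 0
    (.br 14 0
     (.fk [(0, -10), (1, 1), (2, 5), (3, 1), (4, 6), (5, -1), (9, 4), (11, 5), (12, 1)])
     (.br 5 0
      (.br 11 0
       (.br 15 0
        (.br 16 0
         (.br 8 0
          (.fk [(2, 1), (4, 2), (5, -1), (6, 1), (8, 1), (11, 1)])
          (.br 18 0
           (.br 6 0
            (.fk [(1, 4), (2, 1), (4, 4), (5, -1), (10, 4), (11, 4)])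
            (.mv 20))
           (.mv 18)))
         (.br 7 0
          (.fk [(2, 3), (4, -2), (5, 2), (6, -2), (8, 3), (11, 3)])
          (.mv 1)))
        (.br 6 0
         (.br 8 0
          (.fk [(0, -4), (1, 10), (2, 3), (3, -4), (4, 3), (5, -2), (6, 3), (8, 1), (11, 3), (12, 2), (14, 2)])
          (.br 18 0
           (.fk [(1, 4), (2, 1), (4, 4), (5, -1), (10, 4), (11, 4)])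
           (.mv 18)))
         (.mv 8)))
       (.br 18 0
        (.br 6 0
         (.fk [(1, 4), (2, 1), (4, 1), (5, -1), (10, 1), (11, 1)])
         (.mv 13))
        (.mv 10)))
      (.mv 4)))
    (.br 14 0
     (.br 15 0
      (.br 5 0
       (.br 16 0
        (.br 4 0
         (.br 13 0
          (.fk [(0, -16), (1, 4), (2, 3), (3, 16), (4, 20), (5, -1), (6, -3), (11, 16), (14, 16)])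
          (.br 12 0
           (.br 8 0
            (.br 9 1
             (.fk [(0, -4), (1, -1), (2, 2), (3, -1), (4, 1), (5, -1), (6, 2), (9, 2), (11, 2)])
             (.br 24 0
              (.fk [(0, -12), (1, -2), (2, 1), (3, -2), (4, -6), (5, 1), (6, 1), (8, -5), (11, 1), (12, 2)])
              (.mv 24)))
            (.mv 6))
           (.br 18 0
            (.br 3 0
             (.br 8 0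
              (.br 9 1
               (.fk [(2, 1), (4, 6), (5, -1), (6, 1), (8, 1), (11, 1)])
               (.br 24 0
                (.fk [(0, -4), (2, 1), (4, 2), (5, -1), (6, 1), (8, -3), (11, 1)])
                (.mv 24)))
              (.mv 6))
             (.br 6 0
              (.fk [(0, -30), (1, 36), (2, -3), (3, -4), (4, 36), (5, -9), (6, 3), (10, 36), (11, 36)])
              (.mv 17)))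
            (.mv 16))))
         (.br 7 0
          (.br 9 1
           (.fk [(0, -7), (1, 1), (2, 4), (3, 1), (4, 5), (5, -1), (9, 3), (11, 4)])
           (.br 19 0
            (.fk [(0, -9), (1, -1), (2, -1), (3, -1), (4, 4), (6, 1), (9, 4), (10, 4), (11, 9)])
            (.mv 23)))
          (.mv 19)))
        (.br 7 0
         (.br 11 0
          (.br 19 0
           (.fk [(0, -12), (1, -2), (2, 3), (3, -2), (4, 3), (5, 14), (6, -12), (8, 3), (9, 3), (10, 3), (11, 12), (12, 3)])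
           (.mv 11))
          (.mv 2))
         (.mv 1)))
       (.mv 9))
      (.br 18 0
       (.br 6 0
        (.br 5 0
         (.fk [(1, 12), (2, -1), (3, 2), (4, 12), (5, -3), (6, 1), (10, 12), (11, 12), (14, 10)])
         (.mv 9))
        (.mv 8))
       (.mv 14)))
     (.mv 7)))
   (.br 14 0
    (.br 13 0
     (.br 15 0
      (.fk [(0, -8), (1, 2), (2, 1), (3, 8), (4, 10), (5, -1), (6, -1), (11, 8), (14, 8)])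
      (.mv 3))
     (.br 18 0
      (.br 15 0
       (.br 6 0
        (.br 5 0
         (.fk [(1, 12), (2, -1), (3, 2), (4, 12), (5, -3), (6, 1), (10, 12), (11, 12), (14, 10)])
         (.mv 15))
        (.mv 5))
       (.mv 3))
      (.mv 22)))
    (.br 15 0
     (.br 5 0
      (.br 6 0
       (.br 9 0
        (.br 25 0
         (.fk [(1, 11), (2, 3), (3, 3), (4, 6), (5, 1), (6, -4), (9, -12), (11, 3), (12, 3), (14, 3)])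
         (.br 24 0
          (.fk [(0, -15), (1, 2), (2, 4), (3, -2), (4, -6), (5, -1), (6, 2), (8, -9), (9, 2), (11, 4)])
          (.mv 12)))
        (.mv 7))
       (.mv 5))
      (.mv 4))
     (.mv 3))))
  (.mv 0))

def EBiv_1_0_0 : Inst where
  rows :=
   [(false, [1, 1, 1, 1, 1, 0, 0, 0, 0, 0, 0, 0, 0, 0, 0, 0, 0, 0, 0, 0, 0, 0, 0, 0, 0, 0, 0], 1),
    (false, [0, 0, 0, 0, 0, 1, 1, 1, 0, 0, 0, 0, 0, 0, 0, 0, 0, 0, 0, 0, 0, 0, 0, 0, 0, 0, -1], 1),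
    (false, [0, 0, 0, 0, 0, 0, 0, 0, 1, 1, 1, 1, 0, 0, 0, 0, 0, 0, 0, 0, 0, 0, 0, 0, 0, 0, 0], 4),
    (false, [0, 0, 0, 0, 0, 0, 0, 0, 0, 0, 0, 0, 1, 1, 1, 1, 1, 0, 0, 0, 0, 0, 0, 0, 0, 0, -3], 2),
    (false, [0, 0, 0, 0, 0, 0, 0, 0, 0, 0, 0, 0, 0, 0, 0, 0, 0, 1, 1, 1, 0, 0, 0, 0, 0, 0, 0], 1),
    (false, [4, 1, 0, 1, 4, 0, 1, 4, 1, 0, 1, 4, 4, 1, 0, 1, 4, 0, 1, 4, 0, 1, 4, 0, 0, 0, -4], 11),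
    (false, [4, 1, 0, 1, 4, 4, 1, 0, 4, 1, 0, 1, 4, 1, 0, 1, 4, 4, 1, 0, 0, 1, 4, 0, 0, 0, -4], 11),
    (false, [1, 1, 1, 1, 1, -1, -1, -1, 0, 0, 0, 0, 1, 1, 1, 1, 1, -1, -1, -1, 1, 1, 1, -1, 0, 0, 0], 0),
    (false, [-1, -1, -1, -1, -1, 0, 0, 0, 1, 1, 1, 1, 0, 0, 0, 0, 0, -1, -1, -1, 1, 1, 1, 0, -1, 0, 0], 0),
    (false, [-1, 0, 1, 0, -1, -1, 0, 1, -1, 0, 1, 0, -1, 0, 1, 0, -1, -1, 0, 1, 1, 0, -1, 0, 0, -1, 0], 0),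
    (true, [-1, -1, -1, -1, -1, 0, 0, 0, 0, 0, 0, 0, 0, 0, 0, 0, 0, 1, 1, 1, 1, 1, 1, 0, 0, 0, 0], 0),
    (true, [1, 1, 1, 1, 1, 0, 0, 0, 0, 0, 0, 0, 0, 0, 0, 0, 0, -1, -1, -1, -1, -1, -1, 0, 0, 0, 0], 0),
    (true, [-1, 0, 1, 0, -1, 1, 0, -1, 0, 1, 0, -1, -1, 0, 1, 0, -1, 1, 0, -1, 1, 0, -1, 0, 0, 0, 0], 0),
    (true, [16, 9, 4, 1, 0, 1, 0, 1, 4, 1, 0, 1, 9, 4, 1, 0, 1, 0, 1, 4, 0, 1, 4, 0, 0, 0, 0], 1),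
    (true, [0, 0, 0, 0, 0, 0, 0, 0, 0, 0, 0, 0, 0, 0, 0, 0, 0, 0, 0, 0, 0, 0, 0, 0, 0, 0, 1], 0),
    (true, [16, 9, 4, 1, 0, 1, 0, 1, 4, 1, 0, 1, 9, 4, 1, 0, 1, 0, 1, 4, 0, 1, 4, 0, 0, 0, -4], 13)]
  moves := EBiv_moves1
  reqs := EBiv_reqs1
  tree := EBiv_1_0_0_tree

theorem EBiv_1_0_0_ok : EBiv.instOK 1 0 0 EBiv_1_0_0 = true := by
  decide +kernel

def EBiv_1_1_0_tree : Tree :=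
  (.br 17 0
  (.br 9 0
   (.br 25 0
    (.fk [(0, -1), (1, 1), (2, 2), (3, 1), (4, 3), (6, -1), (9, -2), (11, 2), (12, 1)])
    (.br 10 0
     (.br 14 0
      (.fk [(0, -10), (1, 1), (2, 5), (3, 1), (4, 6), (5, -1), (9, 4), (11, 5), (12, 1)])
      (.br 5 0
       (.br 6 0
        (.fk [(1, 4), (2, 2), (4, 2), (5, -1), (6, 1), (9, 1), (10, 1), (11, 2), (15, 1)])
        (.br 15 0
         (.br 11 0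
          (.br 8 0
           (.fk [(2, 2), (4, 2), (5, -2), (6, 2), (8, 1), (10, 1), (11, 2)])
           (.mv 20))
          (.mv 13))
         (.mv 8)))
       (.mv 4)))
     (.br 24 0
      (.fk [(0, -2), (2, 1), (8, -1), (11, 1)])
      (.mv 12))))
   (.br 14 0
    (.br 15 0
     (.br 16 0
      (.br 5 0
       (.fk [(0, -7), (1, -1), (3, 3), (4, 3), (6, 1), (11, 3), (14, 3), (15, 1)])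
       (.mv 9))
      (.br 5 0
       (.br 6 0
        (.fk [(0, -3), (1, 6), (2, -1), (3, 4), (4, 5), (5, -2), (6, 2), (9, 3), (11, 4), (14, 4), (15, 1)])
        (.mv 21))
       (.mv 9)))
     (.br 18 0
      (.br 10 0
       (.br 6 0
        (.br 5 0
         (.fk [(0, 4), (1, 27), (2, -2), (3, 1), (4, 36), (5, -6), (6, 5), (10, 36), (11, 36), (14, 14), (15, 3)])
         (.mv 9))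
        (.mv 8))
       (.mv 3))
      (.mv 14)))
    (.mv 7)))
  (.mv 0))

def EBiv_1_1_0 : Inst where
  rows :=
   [(false, [1, 1, 1, 1, 1, 0, 0, 0, 0, 0, 0, 0, 0, 0, 0, 0, 0, 0, 0, 0, 0, 0, 0, 0, 0, 0, 0], 1),
    (false, [0, 0, 0, 0, 0, 1, 1, 1, 0, 0, 0, 0, 0, 0, 0, 0, 0, 0, 0, 0, 0, 0, 0, 0, 0, 0, -1], 1),
    (false, [0, 0, 0, 0, 0, 0, 0, 0, 1, 1, 1, 1, 0, 0, 0, 0, 0, 0, 0, 0, 0, 0, 0, 0, 0, 0, 0], 4),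
    (false, [0, 0, 0, 0, 0, 0, 0, 0, 0, 0, 0, 0, 1, 1, 1, 1, 1, 0, 0, 0, 0, 0, 0, 0, 0, 0, -3], 2),
    (false, [0, 0, 0, 0, 0, 0, 0, 0, 0, 0, 0, 0, 0, 0, 0, 0, 0, 1, 1, 1, 0, 0, 0, 0, 0, 0, 0], 1),
    (false, [4, 1, 0, 1, 4, 0, 1, 4, 1, 0, 1, 4, 4, 1, 0, 1, 4, 0, 1, 4, 0, 1, 4, 0, 0, 0, -4], 11),
    (false, [4, 1, 0, 1, 4, 4, 1, 0, 4, 1, 0, 1, 4, 1, 0, 1, 4, 4, 1, 0, 0, 1, 4, 0, 0, 0, -4], 11),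
    (false, [1, 1, 1, 1, 1, -1, -1, -1, 0, 0, 0, 0, 1, 1, 1, 1, 1, -1, -1, -1, 1, 1, 1, -1, 0, 0, 0], 0),
    (false, [-1, -1, -1, -1, -1, 0, 0, 0, 1, 1, 1, 1, 0, 0, 0, 0, 0, -1, -1, -1, 1, 1, 1, 0, -1, 0, 0], 0),
    (false, [-1, 0, 1, 0, -1, -1, 0, 1, -1, 0, 1, 0, -1, 0, 1, 0, -1, -1, 0, 1, 1, 0, -1, 0, 0, -1, 0], 0),
    (true, [-1, -1, -1, -1, -1, 0, 0, 0, 0, 0, 0, 0, 0, 0, 0, 0, 0, 1, 1, 1, 1, 1, 1, 0, 0, 0, 0], 0),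
    (true, [1, 1, 1, 1, 1, 0, 0, 0, 0, 0, 0, 0, 0, 0, 0, 0, 0, -1, -1, -1, -1, -1, -1, 0, 0, 0, 0], 0),
    (true, [-1, 0, 1, 0, -1, 1, 0, -1, 0, 1, 0, -1, -1, 0, 1, 0, -1, 1, 0, -1, 1, 0, -1, 0, 0, 0, 0], 0),
    (true, [16, 9, 4, 1, 0, 1, 0, 1, 4, 1, 0, 1, 9, 4, 1, 0, 1, 0, 1, 4, 0, 1, 4, 0, 0, 0, 0], 1),
    (true, [0, 0, 0, 0, 0, 0, 0, 0, 0, 0, 0, 0, 0, 0, 0, 0, 0, 0, 0, 0, 0, 0, 0, 0, 0, 0, 1], 0),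
    (true, [-16, -9, -4, -1, 0, -1, 0, -1, -4, -1, 0, -1, -9, -4, -1, 0, -1, 0, -1, -4, 0, -1, -4, 0, 0, 0, 4], -11)]
  moves := EBiv_moves1
  reqs := EBiv_reqs1
  tree := EBiv_1_1_0_tree

theorem EBiv_1_1_0_ok : EBiv.instOK 1 1 0 EBiv_1_1_0 = true := by
  decide +kernel

def EBiv_1_2_0_tree : Tree :=
  (.br 17 0
  (.br 10 0
   (.br 14 0
    (.br 9 0
     (.fk [(0, -10), (1, 1), (2, 5), (3, 1), (4, 6), (5, -1), (9, 4), (11, 5), (12, 1), (16, 5)])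
     (.br 5 0
      (.br 15 0
       (.fk [(0, -3), (1, 1), (2, 2), (3, 5), (4, 7), (6, -1), (11, 5), (14, 5), (15, -1), (16, 5)])
       (.br 18 0
        (.br 6 0
         (.fk [(1, 14), (2, -1), (4, 18), (5, -3), (6, 3), (10, 18), (11, 18), (14, 6), (15, -2), (16, 18)])
         (.mv 8))
        (.mv 14)))
      (.mv 9)))
    (.br 9 0
     (.br 5 0
      (.br 6 0
       (.fk [(0, -3), (1, 5), (2, 5), (3, 1), (4, 7), (5, -1), (11, 5), (15, -1), (16, 5)])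
       (.br 15 0
        (.br 11 0
         (.br 8 0
          (.fk [(2, 2), (4, 2), (5, -2), (6, 2), (8, 1), (10, 1), (11, 2)])
          (.mv 20))
         (.mv 13))
        (.mv 8)))
      (.mv 4))
     (.mv 7)))
   (.br 6 0
    (.br 15 0
     (.br 14 0
      (.fk [(0, -6), (1, 1), (2, 1), (3, 5), (4, 10), (5, -1), (11, 8), (14, 8), (15, -1), (16, 8)])
      (.br 5 0
       (.fk [(0, -56), (1, 55), (2, -4), (3, 7), (4, 68), (5, -12), (6, 11), (11, 60), (14, 44), (15, -7), (16, 60)])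
       (.mv 4)))
     (.mv 3))
    (.mv 5)))
  (.mv 0))

def EBiv_1_2_0 : Inst where
  rows :=
   [(false, [1, 1, 1, 1, 1, 0, 0, 0, 0, 0, 0, 0, 0, 0, 0, 0, 0, 0, 0, 0, 0, 0, 0, 0, 0, 0, 0], 1),
    (false, [0, 0, 0, 0, 0, 1, 1, 1, 0, 0, 0, 0, 0, 0, 0, 0, 0, 0, 0, 0, 0, 0, 0, 0, 0, 0, -1], 1),
    (false, [0, 0, 0, 0, 0, 0, 0, 0, 1, 1, 1, 1, 0, 0, 0, 0, 0, 0, 0, 0, 0, 0, 0, 0, 0, 0, 0], 4),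
    (false, [0, 0, 0, 0, 0, 0, 0, 0, 0, 0, 0, 0, 1, 1, 1, 1, 1, 0, 0, 0, 0, 0, 0, 0, 0, 0, -3], 2),
    (false, [0, 0, 0, 0, 0, 0, 0, 0, 0, 0, 0, 0, 0, 0, 0, 0, 0, 1, 1, 1, 0, 0, 0, 0, 0, 0, 0], 1),
    (false, [4, 1, 0, 1, 4, 0, 1, 4, 1, 0, 1, 4, 4, 1, 0, 1, 4, 0, 1, 4, 0, 1, 4, 0, 0, 0, -4], 11),
    (false, [4, 1, 0, 1, 4, 4, 1, 0, 4, 1, 0, 1, 4, 1, 0, 1, 4, 4, 1, 0, 0, 1, 4, 0, 0, 0, -4], 11),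
    (false, [1, 1, 1, 1, 1, -1, -1, -1, 0, 0, 0, 0, 1, 1, 1, 1, 1, -1, -1, -1, 1, 1, 1, -1, 0, 0, 0], 0),
    (false, [-1, -1, -1, -1, -1, 0, 0, 0, 1, 1, 1, 1, 0, 0, 0, 0, 0, -1, -1, -1, 1, 1, 1, 0, -1, 0, 0], 0),
    (false, [-1, 0, 1, 0, -1, -1, 0, 1, -1, 0, 1, 0, -1, 0, 1, 0, -1, -1, 0, 1, 1, 0, -1, 0, 0, -1, 0], 0),
    (true, [-1, -1, -1, -1, -1, 0, 0, 0, 0, 0, 0, 0, 0, 0, 0, 0, 0, 1, 1, 1, 1, 1, 1, 0, 0, 0, 0], 0),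
    (true, [1, 1, 1, 1, 1, 0, 0, 0, 0, 0, 0, 0, 0, 0, 0, 0, 0, -1, -1, -1, -1, -1, -1, 0, 0, 0, 0], 0),
    (true, [-1, 0, 1, 0, -1, 1, 0, -1, 0, 1, 0, -1, -1, 0, 1, 0, -1, 1, 0, -1, 1, 0, -1, 0, 0, 0, 0], 0),
    (true, [16, 9, 4, 1, 0, 1, 0, 1, 4, 1, 0, 1, 9, 4, 1, 0, 1, 0, 1, 4, 0, 1, 4, 0, 0, 0, 0], 1),
    (true, [0, 0, 0, 0, 0, 0, 0, 0, 0, 0, 0, 0, 0, 0, 0, 0, 0, 0, 0, 0, 0, 0, 0, 0, 0, 0, 1], 0),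
    (false, [16, 9, 4, 1, 0, 1, 0, 1, 4, 1, 0, 1, 9, 4, 1, 0, 1, 0, 1, 4, 0, 1, 4, 0, 0, 0, -4], 12),
    (true, [1, 1, 0, 0, 0, 0, 0, 0, 0, 0, 0, 0, 1, 0, 0, 0, 0, 0, 0, 0, 0, 0, 0, 0, 0, 0, 0], 1)]
  moves := EBiv_moves1
  reqs := EBiv_reqs1
  tree := EBiv_1_2_0_tree

theorem EBiv_1_2_0_ok : EBiv.instOK 1 2 0 EBiv_1_2_0 = true := by
  decide +kernel

def EBiv_1_3_0_tree : Tree :=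
  (.br 7 0
  (.br 14 0
   (.fk [(0, -1), (1, 3), (2, 1), (3, 1), (4, 3), (7, 1), (9, 1), (11, 1), (14, 1), (15, -1), (16, 2)])
   (.br 5 0
    (.fk [(0, 12), (1, 40), (2, 4), (3, 4), (4, 20), (5, 2), (6, 3), (8, 5), (9, 4), (11, 4), (12, 4), (14, 4), (15, -16), (16, 45)])
    (.mv 4)))
  (.br 16 0
   (.fk [(1, -1), (2, 2), (3, 3), (4, 4), (6, 1), (11, 2), (15, -3), (16, 6)])
   (.mv 1)))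

def EBiv_1_3_0 : Inst where
  rows :=
   [(false, [1, 1, 1, 1, 1, 0, 0, 0, 0, 0, 0, 0, 0, 0, 0, 0, 0, 0, 0, 0, 0, 0, 0, 0, 0, 0, 0], 1),
    (false, [0, 0, 0, 0, 0, 1, 1, 1, 0, 0, 0, 0, 0, 0, 0, 0, 0, 0, 0, 0, 0, 0, 0, 0, 0, 0, -1], 1),
    (false, [0, 0, 0, 0, 0, 0, 0, 0, 1, 1, 1, 1, 0, 0, 0, 0, 0, 0, 0, 0, 0, 0, 0, 0, 0, 0, 0], 4),
    (false, [0, 0, 0, 0, 0, 0, 0, 0, 0, 0, 0, 0, 1, 1, 1, 1, 1, 0, 0, 0, 0, 0, 0, 0, 0, 0, -3], 2),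
    (false, [0, 0, 0, 0, 0, 0, 0, 0, 0, 0, 0, 0, 0, 0, 0, 0, 0, 1, 1, 1, 0, 0, 0, 0, 0, 0, 0], 1),
    (false, [4, 1, 0, 1, 4, 0, 1, 4, 1, 0, 1, 4, 4, 1, 0, 1, 4, 0, 1, 4, 0, 1, 4, 0, 0, 0, -4], 11),
    (false, [4, 1, 0, 1, 4, 4, 1, 0, 4, 1, 0, 1, 4, 1, 0, 1, 4, 4, 1, 0, 0, 1, 4, 0, 0, 0, -4], 11),
    (false, [1, 1, 1, 1, 1, -1, -1, -1, 0, 0, 0, 0, 1, 1, 1, 1, 1, -1, -1, -1, 1, 1, 1, -1, 0, 0, 0], 0),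
    (false, [-1, -1, -1, -1, -1, 0, 0, 0, 1, 1, 1, 1, 0, 0, 0, 0, 0, -1, -1, -1, 1, 1, 1, 0, -1, 0, 0], 0),
    (false, [-1, 0, 1, 0, -1, -1, 0, 1, -1, 0, 1, 0, -1, 0, 1, 0, -1, -1, 0, 1, 1, 0, -1, 0, 0, -1, 0], 0),
    (true, [-1, -1, -1, -1, -1, 0, 0, 0, 0, 0, 0, 0, 0, 0, 0, 0, 0, 1, 1, 1, 1, 1, 1, 0, 0, 0, 0], 0),
    (true, [1, 1, 1, 1, 1, 0, 0, 0, 0, 0, 0, 0, 0, 0, 0, 0, 0, -1, -1, -1, -1, -1, -1, 0, 0, 0, 0], 0),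
    (true, [-1, 0, 1, 0, -1, 1, 0, -1, 0, 1, 0, -1, -1, 0, 1, 0, -1, 1, 0, -1, 1, 0, -1, 0, 0, 0, 0], 0),
    (true, [16, 9, 4, 1, 0, 1, 0, 1, 4, 1, 0, 1, 9, 4, 1, 0, 1, 0, 1, 4, 0, 1, 4, 0, 0, 0, 0], 1),
    (true, [0, 0, 0, 0, 0, 0, 0, 0, 0, 0, 0, 0, 0, 0, 0, 0, 0, 0, 0, 0, 0, 0, 0, 0, 0, 0, 1], 0),
    (false, [16, 9, 4, 1, 0, 1, 0, 1, 4, 1, 0, 1, 9, 4, 1, 0, 1, 0, 1, 4, 0, 1, 4, 0, 0, 0, -4], 12),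
    (true, [0, 0, 1, 0, -1, 0, -1, 0, 1, 0, -1, 0, 0, 1, 0, -1, 0, -1, 0, 1, -1, 0, 1, 0, 0, 0, 0], 1)]
  moves := EBiv_moves1
  reqs := EBiv_reqs1
  tree := EBiv_1_3_0_tree

theorem EBiv_1_3_0_ok : EBiv.instOK 1 3 0 EBiv_1_3_0 = true := by
  decide +kernel

theorem EBiv_ok1 : ∀ b ∈ EBiv.branches, ∃ I : Inst, EBiv.instOK 1 b.1 b.2 I = true := by
  intro b hb
  have h : b = (0, 0) ∨ b = (1, 0) ∨ b = (2, 0) ∨ b = (3, 0) := by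
    have hb2 : b ∈ [(0, 0), (1, 0), (2, 0), (3, 0)] := hb
    simpa using hb2
  rcases h with rfl | rfl | rfl | rfl
  · exact ⟨EBiv_1_0_0, EBiv_1_0_0_ok⟩
  · exact ⟨EBiv_1_1_0, EBiv_1_1_0_ok⟩
  · exact ⟨EBiv_1_2_0, EBiv_1_2_0_ok⟩
  · exact ⟨EBiv_1_3_0, EBiv_1_3_0_ok⟩

end Pool.Agent.helper1.CAD
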