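import Pool.Agent.helper1.CAD.Sound

namespace Pool.Agent.helper1.CAD

set_option maxRecDepth 100000

def EC1 : Spec where
  K := .C
  tys := [(2, 2, [1, 0, 0], 0), (0, 2, [1, 0, 0], 0), (1, 2, [0, 2, 1], 0), (2, 0, [1, 1, 0], 0), (1, 0, [0, 0, 1], 0)]
  kc := ([2, 2, 1], 0)
  pmin := [0, 1, 0]
  sl := (1, -1)
  good := false
  pv := 0
  px := 0
  pvx := 0

def EC1_moves0 : List Move :=
   [([((0, 2, 0), -2)], 0),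
    ([((1, 2, 0), 1), ((0, 0, 0), -1)], 0),
    ([((1, 2, 0), -1), ((2, 0, -1), 1)], 0),
    ([((1, 2, 0), -1), ((2, 0, 0), 1)], 0),
    ([((1, 2, 0), -1), ((1, 0, 0), 1)], 0),
    ([((1, 2, 0), 1), ((0, 0, 1), -1)], 0),
    ([((2, 2, 2), 1), ((2, 0, 1), 1)], 0),
    ([((1, 2, 1), -1), ((2, 0, 1), 1)], 0),
    ([((1, 2, 1), -1), ((2, 0, 2), 1)], 0),
    ([((1, 2, 1), 1), ((1, 0, 0), -1)], 0),
    ([((1, 2, 1), -1), ((1, 0, 1), 1)], 0),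
    ([((2, 2, 0), 1), ((2, 0, -1), 1)], 0),
    ([((2, 2, 1), 0), ((2, 0, 1), 2)], 0),
    ([((1, 2, 2), 1), ((0, 0, 1), 1)], 0),
    ([((0, 2, 1), -1), ((0, 0, 2), 1)], 0),
    ([((0, 2, 1), -1), ((0, 0, 1), 1)], 0),
    ([((0, 2, 1), 1), ((0, 0, 0), -1)], 0),
    ([((1, 2, 2), 1), ((0, 0, 2), 1)], 0),
    ([((1, 2, 1), 1), ((0, 0, 0), -1)], 0),
    ([((1, 2, 1), -1), ((1, 0, 2), 1)], 0),
    ([((1, 2, 1), 1), ((0, 0, 1), -1)], 0),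
    ([((1, 2, 1), 0), ((2, 0, 0), 1), ((0, 0, 2), 1)], 0),
    ([((1, 2, 1), 0), ((2, 0, -1), 1), ((0, 0, 2), 1)], 0)]

def EC1_reqs0 : List (List ℤ) :=
   [[0, 0, 0, 1, 0, 0, 0, 0, 0, 0, 0, 0, 0, 0, 0, 0, 0, 0, 0, 0, 0, 0, 0, 0, 0],
    [0, 0, 0, 0, 0, 0, 1, 0, 0, 0, 0, 0, 0, 0, 0, 0, 0, 0, 0, 1, 0, 0, 0, 0, 0],
    [0, 0, 0, 0, 0, 0, 1, 0, 0, 0, 1, 0, 0, 0, 0, 0, 0, 0, 0, 0, 0, 0, 0, 0, 0],
    [0, 0, 0, 0, 0, 0, 1, 0, 0, 0, 0, 1, 0, 0, 0, 0, 0, 0, 0, 0, 0, 0, 0, 0, 0],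
    [0, 0, 0, 0, 0, 0, 1, 0, 0, 0, 0, 0, 0, 0, 0, 0, 1, 0, 0, 0, 0, 0, 0, 0, 0],
    [0, 0, 0, 0, 0, 0, 1, 0, 0, 0, 0, 0, 0, 0, 0, 0, 0, 0, 0, 0, 1, 0, 0, 0, 0],
    [0, 0, 1, 0, 0, 0, 0, 0, 0, 0, 0, 0, 1, 0, 0, 0, 0, 0, 0, 0, 0, 0, 0, 0, 0],
    [0, 0, 0, 0, 0, 0, 0, 1, 0, 0, 0, 0, 1, 0, 0, 0, 0, 0, 0, 0, 0, 0, 0, 0, 0],
    [0, 0, 0, 0, 0, 0, 0, 1, 0, 0, 0, 0, 0, 1, 0, 0, 0, 0, 0, 0, 0, 0, 0, 0, 0],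
    [0, 0, 0, 0, 0, 0, 0, 1, 0, 0, 0, 0, 0, 0, 0, 0, 1, 0, 0, 0, 0, 0, 0, 0, 0],
    [0, 0, 0, 0, 0, 0, 0, 1, 0, 0, 0, 0, 0, 0, 0, 0, 0, 1, 0, 0, 0, 0, 0, 0, 0],
    [1, 0, 0, 0, 0, 0, 0, 0, 0, 0, 1, 0, 0, 0, 0, 0, 0, 0, 0, 0, 0, 0, 0, 0, 0],
    [0, 1, 0, 0, 0, 0, 0, 0, 0, 0, 0, 0, 1, 0, 0, 0, 0, 0, 0, 0, 0, 0, 0, 0, 0],
    [0, 0, 0, 0, 0, 0, 0, 0, 1, 0, 0, 0, 0, 0, 0, 0, 0, 0, 0, 0, 1, 0, 0, 0, 0],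
    [0, 0, 0, 0, 1, 0, 0, 0, 0, 0, 0, 0, 0, 0, 0, 0, 0, 0, 0, 0, 0, 1, 0, 0, 0],
    [0, 0, 0, 0, 1, 0, 0, 0, 0, 0, 0, 0, 0, 0, 0, 0, 0, 0, 0, 0, 1, 0, 0, 0, 0],
    [0, 0, 0, 0, 1, 0, 0, 0, 0, 0, 0, 0, 0, 0, 0, 0, 0, 0, 0, 1, 0, 0, 0, 0, 0],
    [0, 0, 0, 0, 0, 0, 0, 0, 1, 0, 0, 0, 0, 0, 0, 0, 0, 0, 0, 0, 0, 1, 0, 0, 0],
    [0, 0, 0, 0, 0, 0, 0, 1, 0, 0, 0, 0, 0, 0, 0, 0, 0, 0, 0, 1, 0, 0, 0, 0, 0],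
    [0, 0, 0, 0, 0, 0, 0, 1, 0, 0, 0, 0, 0, 0, 0, 0, 0, 0, 1, 0, 0, 0, 0, 0, 0],
    [0, 0, 0, 0, 0, 0, 0, 1, 0, 0, 0, 0, 0, 0, 0, 0, 0, 0, 0, 0, 1, 0, 0, 0, 0],
    [0, 0, 0, 0, 0, 0, 0, 1, 0, 0, 0, 1, 0, 0, 0, 0, 0, 0, 0, 0, 0, 1, 0, 0, 0],
    [0, 0, 0, 0, 0, 0, 0, 1, 0, 0, 1, 0, 0, 0, 0, 0, 0, 0, 0, 0, 0, 1, 0, 0, 0]]

def EC1_base0 : List Row :=
   [(false, [1, 1, 1, 0, 0, 0, 0, 0, 0, 0, 0, 0, 0, 0, 0, 0, 0, 0, 0, 0, 0, 0, -1, 0, 0], 0),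
    (false, [0, 0, 0, 1, 1, 1, 0, 0, 0, 0, 0, 0, 0, 0, 0, 0, 0, 0, 0, 0, 0, 0, -1, 0, 0], 0),
    (false, [0, 0, 0, 0, 0, 0, 1, 1, 1, 0, 0, 0, 0, 0, 0, 0, 0, 0, 0, 0, 0, 0, 0, -2, -1], 0),
    (false, [0, 0, 0, 0, 0, 0, 0, 0, 0, 1, 1, 1, 1, 1, 0, 0, 0, 0, 0, 0, 0, 0, -1, -1, 0], 0),
    (false, [0, 0, 0, 0, 0, 0, 0, 0, 0, 0, 0, 0, 0, 0, 1, 1, 1, 1, 1, 0, 0, 0, 0, 0, -1], 0),
    (false, [0, 1, 2, 0, 1, 2, 0, 1, 2, 2, 1, 0, 1, 2, 2, 1, 0, 1, 2, 0, 1, 2, -4, -4, -2], 0),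
    (false, [2, 1, 0, 2, 1, 0, 2, 1, 0, 2, 1, 0, 1, 2, 2, 1, 0, 1, 2, 0, 1, 2, -4, -4, -2], 0),
    (true, [0, 0, 0, 0, 0, 0, 0, 0, 0, 0, 0, 0, 0, 0, 0, 0, 0, 0, 0, 1, 1, 1, 0, 0, 0], 1),
    (true, [4, 1, 0, 0, 1, 4, 1, 0, 1, 16, 9, 4, 1, 0, 9, 4, 1, 0, 1, 0, 1, 4, 0, 0, 0], 1),
    (true, [0, 0, 0, 0, 0, 0, 0, 0, 0, 0, 0, 0, 0, 0, 0, 0, 0, 0, 0, 0, 0, 0, 1, 0, 0], 0),
    (true, [0, 0, 0, 0, 0, 0, 0, 0, 0, 0, 0, 0, 0, 0, 0, 0, 0, 0, 0, 0, 0, 0, 0, 1, 0], 1),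
    (true, [0, 0, 0, 0, 0, 0, 0, 0, 0, 0, 0, 0, 0, 0, 0, 0, 0, 0, 0, 0, 0, 0, 0, 0, 1], 0)]

def EC1_0_0_0_tree : Tree :=
  (.br 6 0
  (.br 3 0
   (.br 7 0
    (.br 8 0
     (.fk [(2, 1), (10, 2), (11, 1)])
     (.br 20 0
      (.br 21 0
       (.br 4 0
        (.fk [(0, -4), (1, 2), (3, -2), (4, -2), (5, -1), (6, 2), (10, 2)])
        (.br 19 0
         (.fk [(7, 1)])
         (.mv 16)))
       (.mv 17))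
      (.mv 13)))
    (.br 20 0
     (.br 13 0
      (.br 11 0
       (.br 19 0
        (.br 12 0
         (.br 16 0
          (.br 17 0
           (.br 10 0
            (.fk [(0, 2), (1, 2), (2, 2), (3, 4), (4, 2), (5, -1), (6, -1), (7, 4)])
            (.br 21 0
             (.fk [(7, 1)])
             (.mv 22)))
           (.mv 10))
          (.mv 9))
         (.mv 7))
        (.mv 18))
       (.br 21 0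
        (.br 19 0
         (.fk [(7, 1)])
         (.mv 18))
        (.mv 21)))
      (.mv 8))
     (.mv 20)))
   (.mv 0))
  (.br 20 0
   (.br 11 0
    (.br 19 0
     (.br 10 0
      (.br 12 0
       (.br 16 0
        (.fk [(0, 2), (1, 2), (2, 2), (3, 4), (4, 2), (5, -1), (6, -1), (7, 2)])
        (.mv 4))
       (.br 16 0
        (.br 2 0
         (.br 8 0
          (.br 7 0
           (.br 1 0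
            (.fk [(0, 6), (1, -6), (2, 2), (4, -2), (5, 3), (6, -3), (10, 4)])
            (.mv 12))
           (.mv 7))
          (.br 21 0
           (.fk [(7, 1)])
           (.mv 17)))
         (.mv 6))
        (.mv 4)))
      (.mv 2))
     (.mv 1))
    (.mv 3))
   (.mv 5)))

def EC1_0_0_0 : Inst where
  rows :=
   [(false, [1, 1, 1, 0, 0, 0, 0, 0, 0, 0, 0, 0, 0, 0, 0, 0, 0, 0, 0, 0, 0, 0, -1, 0, 0], 0),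
    (false, [0, 0, 0, 1, 1, 1, 0, 0, 0, 0, 0, 0, 0, 0, 0, 0, 0, 0, 0, 0, 0, 0, -1, 0, 0], 0),
    (false, [0, 0, 0, 0, 0, 0, 1, 1, 1, 0, 0, 0, 0, 0, 0, 0, 0, 0, 0, 0, 0, 0, 0, -2, -1], 0),
    (false, [0, 0, 0, 0, 0, 0, 0, 0, 0, 1, 1, 1, 1, 1, 0, 0, 0, 0, 0, 0, 0, 0, -1, -1, 0], 0),
    (false, [0, 0, 0, 0, 0, 0, 0, 0, 0, 0, 0, 0, 0, 0, 1, 1, 1, 1, 1, 0, 0, 0, 0, 0, -1], 0),
    (false, [0, 1, 2, 0, 1, 2, 0, 1, 2, 2, 1, 0, 1, 2, 2, 1, 0, 1, 2, 0, 1, 2, -4, -4, -2], 0),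
    (false, [2, 1, 0, 2, 1, 0, 2, 1, 0, 2, 1, 0, 1, 2, 2, 1, 0, 1, 2, 0, 1, 2, -4, -4, -2], 0),
    (true, [0, 0, 0, 0, 0, 0, 0, 0, 0, 0, 0, 0, 0, 0, 0, 0, 0, 0, 0, 1, 1, 1, 0, 0, 0], 1),
    (true, [4, 1, 0, 0, 1, 4, 1, 0, 1, 16, 9, 4, 1, 0, 9, 4, 1, 0, 1, 0, 1, 4, 0, 0, 0], 1),
    (true, [0, 0, 0, 0, 0, 0, 0, 0, 0, 0, 0, 0, 0, 0, 0, 0, 0, 0, 0, 0, 0, 0, 1, 0, 0], 0),
    (true, [0, 0, 0, 0, 0, 0, 0, 0, 0, 0, 0, 0, 0, 0, 0, 0, 0, 0, 0, 0, 0, 0, 0, 1, 0], 1),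
    (true, [0, 0, 0, 0, 0, 0, 0, 0, 0, 0, 0, 0, 0, 0, 0, 0, 0, 0, 0, 0, 0, 0, 0, 0, 1], 0),
    (true, [2, 1, 0, 0, 1, 2, 1, 0, 1, 4, 3, 2, 1, 0, 3, 2, 1, 0, 1, 0, 1, 2, -4, -4, -2], 1)]
  moves := EC1_moves0
  reqs := EC1_reqs0
  tree := EC1_0_0_0_tree

theorem EC1_0_0_0_ok : EC1.instOK 0 0 0 EC1_0_0_0 = true := by
  decide +kernel

def EC1_0_1_0_tree : Tree :=
  (.br 7 0
  (.br 6 0
   (.br 3 0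
    (.br 4 0
     (.fk [(0, -2), (1, 6), (2, 4), (3, -4), (4, -2), (5, -1), (6, 3), (10, 4), (11, 2), (12, 2)])
     (.br 21 0
      (.br 19 0
       (.br 20 0
        (.fk [(7, 1)])
        (.mv 15))
       (.mv 16))
      (.mv 14)))
    (.mv 0))
   (.br 19 0
    (.br 4 0
     (.br 20 0
      (.br 3 0
       (.br 11 0
        (.br 12 0
         (.br 16 0
          (.br 10 0
           (.fk [(0, 2), (1, 2), (2, 2), (3, 4), (4, 2), (5, -1), (6, -1), (7, 1)])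
           (.mv 2))
          (.mv 4))
         (.br 10 0
          (.br 16 0
           (.br 2 0
            (.br 8 0
             (.br 1 0
              (.fk [(0, 10), (1, -6), (2, 4), (3, -4), (4, -2), (5, 5), (6, -3), (10, 4), (11, 2), (12, 2)])
              (.mv 12))
             (.br 21 0
              (.fk [(7, 1)])
              (.mv 17)))
            (.mv 6))
           (.mv 4))
          (.mv 2)))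
        (.mv 3))
       (.mv 0))
      (.mv 5))
     (.br 20 0
      (.br 11 0
       (.br 21 0
        (.fk [(7, 1)])
        (.mv 14))
       (.mv 3))
      (.mv 5)))
    (.mv 1)))
  (.br 13 0
   (.br 12 0
    (.br 19 0
     (.br 17 0
      (.br 3 0
       (.br 18 0
        (.fk [(1, -2), (2, -1), (3, 2), (4, 1), (6, 1), (12, 1)])
        (.mv 19))
       (.mv 0))
      (.mv 10))
     (.mv 18))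
    (.mv 7))
   (.mv 8)))

def EC1_0_1_0 : Inst where
  rows :=
   [(false, [1, 1, 1, 0, 0, 0, 0, 0, 0, 0, 0, 0, 0, 0, 0, 0, 0, 0, 0, 0, 0, 0, -1, 0, 0], 0),
    (false, [0, 0, 0, 1, 1, 1, 0, 0, 0, 0, 0, 0, 0, 0, 0, 0, 0, 0, 0, 0, 0, 0, -1, 0, 0], 0),
    (false, [0, 0, 0, 0, 0, 0, 1, 1, 1, 0, 0, 0, 0, 0, 0, 0, 0, 0, 0, 0, 0, 0, 0, -2, -1], 0),
    (false, [0, 0, 0, 0, 0, 0, 0, 0, 0, 1, 1, 1, 1, 1, 0, 0, 0, 0, 0, 0, 0, 0, -1, -1, 0], 0),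
    (false, [0, 0, 0, 0, 0, 0, 0, 0, 0, 0, 0, 0, 0, 0, 1, 1, 1, 1, 1, 0, 0, 0, 0, 0, -1], 0),
    (false, [0, 1, 2, 0, 1, 2, 0, 1, 2, 2, 1, 0, 1, 2, 2, 1, 0, 1, 2, 0, 1, 2, -4, -4, -2], 0),
    (false, [2, 1, 0, 2, 1, 0, 2, 1, 0, 2, 1, 0, 1, 2, 2, 1, 0, 1, 2, 0, 1, 2, -4, -4, -2], 0),
    (true, [0, 0, 0, 0, 0, 0, 0, 0, 0, 0, 0, 0, 0, 0, 0, 0, 0, 0, 0, 1, 1, 1, 0, 0, 0], 1),
    (true, [4, 1, 0, 0, 1, 4, 1, 0, 1, 16, 9, 4, 1, 0, 9, 4, 1, 0, 1, 0, 1, 4, 0, 0, 0], 1),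
    (true, [0, 0, 0, 0, 0, 0, 0, 0, 0, 0, 0, 0, 0, 0, 0, 0, 0, 0, 0, 0, 0, 0, 1, 0, 0], 0),
    (true, [0, 0, 0, 0, 0, 0, 0, 0, 0, 0, 0, 0, 0, 0, 0, 0, 0, 0, 0, 0, 0, 0, 0, 1, 0], 1),
    (true, [0, 0, 0, 0, 0, 0, 0, 0, 0, 0, 0, 0, 0, 0, 0, 0, 0, 0, 0, 0, 0, 0, 0, 0, 1], 0),
    (true, [-2, -1, 0, 0, -1, -2, -1, 0, -1, -4, -3, -2, -1, 0, -3, -2, -1, 0, -1, 0, -1, -2, 4, 4, 2], 1)]
  moves := EC1_moves0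
  reqs := EC1_reqs0
  tree := EC1_0_1_0_tree

theorem EC1_0_1_0_ok : EC1.instOK 0 1 0 EC1_0_1_0 = true := by
  decide +kernel

def EC1_0_2_0_tree : Tree :=
  (.br 3 0
  (.br 6 0
   (.br 7 0
    (.br 0 0
     (.fk [(2, 2), (5, -1), (6, 1), (10, 2), (11, 2)])
     (.br 10 0
      (.br 8 0
       (.fk [(2, 1), (10, 1), (11, 1)])
       (.br 20 0
        (.br 4 0
         (.fk [(0, -6), (1, 10), (2, 4), (3, -4), (4, -2), (5, -3), (6, 5), (10, 4), (11, 2), (12, -2), (13, 4)])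
         (.br 19 0
          (.br 21 0
           (.fk [(7, 1)])
           (.mv 14))
          (.mv 16)))
        (.mv 13)))
      (.mv 11)))
    (.br 13 0
     (.br 20 0
      (.br 19 0
       (.br 12 0
        (.br 17 0
         (.br 11 0
          (.br 16 0
           (.br 10 0
            (.fk [(0, 2), (1, 2), (2, 2), (3, 4), (4, 2), (5, -1), (6, -1), (7, 1)])
            (.br 21 0
             (.fk [(7, 1)])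
             (.mv 22)))
           (.mv 9))
          (.br 21 0
           (.fk [(7, 1)])
           (.mv 21)))
         (.mv 10))
        (.mv 7))
       (.mv 18))
      (.mv 20))
     (.mv 8)))
   (.br 20 0
    (.br 19 0
     (.br 10 0
      (.br 2 0
       (.br 4 0
        (.br 11 0
         (.br 7 0
          (.br 8 0
           (.br 1 0
            (.fk [(0, 18), (1, -10), (2, 8), (4, -2), (5, 7), (6, -7), (7, 4), (10, 8), (11, 2), (12, -2), (13, 8)])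
            (.br 12 0
             (.br 16 0
              (.fk [(0, 2), (1, 2), (2, 2), (3, 4), (4, 2), (5, -1), (6, -1), (7, 1)])
              (.mv 4))
             (.mv 12)))
           (.br 21 0
            (.fk [(7, 1)])
            (.mv 17)))
          (.br 12 0
           (.br 16 0
            (.fk [(0, 2), (1, 2), (2, 2), (3, 4), (4, 2), (5, -1), (6, -1), (7, 1)])
            (.mv 4))
           (.mv 7)))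
         (.mv 3))
        (.br 21 0
         (.fk [(7, 1)])
         (.mv 14)))
       (.br 12 0
        (.br 11 0
         (.br 16 0
          (.fk [(0, 2), (1, 2), (2, 2), (3, 4), (4, 2), (5, -1), (6, -1), (7, 1)])
          (.mv 4))
         (.mv 3))
        (.mv 6)))
      (.mv 2))
     (.mv 1))
    (.mv 5)))
  (.mv 0))

def EC1_0_2_0 : Inst where
  rows :=
   [(false, [1, 1, 1, 0, 0, 0, 0, 0, 0, 0, 0, 0, 0, 0, 0, 0, 0, 0, 0, 0, 0, 0, -1, 0, 0], 0),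
    (false, [0, 0, 0, 1, 1, 1, 0, 0, 0, 0, 0, 0, 0, 0, 0, 0, 0, 0, 0, 0, 0, 0, -1, 0, 0], 0),
    (false, [0, 0, 0, 0, 0, 0, 1, 1, 1, 0, 0, 0, 0, 0, 0, 0, 0, 0, 0, 0, 0, 0, 0, -2, -1], 0),
    (false, [0, 0, 0, 0, 0, 0, 0, 0, 0, 1, 1, 1, 1, 1, 0, 0, 0, 0, 0, 0, 0, 0, -1, -1, 0], 0),
    (false, [0, 0, 0, 0, 0, 0, 0, 0, 0, 0, 0, 0, 0, 0, 1, 1, 1, 1, 1, 0, 0, 0, 0, 0, -1], 0),
    (false, [0, 1, 2, 0, 1, 2, 0, 1, 2, 2, 1, 0, 1, 2, 2, 1, 0, 1, 2, 0, 1, 2, -4, -4, -2], 0),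
    (false, [2, 1, 0, 2, 1, 0, 2, 1, 0, 2, 1, 0, 1, 2, 2, 1, 0, 1, 2, 0, 1, 2, -4, -4, -2], 0),
    (true, [0, 0, 0, 0, 0, 0, 0, 0, 0, 0, 0, 0, 0, 0, 0, 0, 0, 0, 0, 1, 1, 1, 0, 0, 0], 1),
    (true, [4, 1, 0, 0, 1, 4, 1, 0, 1, 16, 9, 4, 1, 0, 9, 4, 1, 0, 1, 0, 1, 4, 0, 0, 0], 1),
    (true, [0, 0, 0, 0, 0, 0, 0, 0, 0, 0, 0, 0, 0, 0, 0, 0, 0, 0, 0, 0, 0, 0, 1, 0, 0], 0),
    (true, [0, 0, 0, 0, 0, 0, 0, 0, 0, 0, 0, 0, 0, 0, 0, 0, 0, 0, 0, 0, 0, 0, 0, 1, 0], 1),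
    (true, [0, 0, 0, 0, 0, 0, 0, 0, 0, 0, 0, 0, 0, 0, 0, 0, 0, 0, 0, 0, 0, 0, 0, 0, 1], 0),
    (false, [2, 1, 0, 0, 1, 2, 1, 0, 1, 4, 3, 2, 1, 0, 3, 2, 1, 0, 1, 0, 1, 2, -4, -4, -2], 0),
    (true, [0, 0, 0, 0, 0, 0, 0, 0, 0, 1, 1, 0, 0, 0, 1, 0, 0, 0, 0, 0, 0, 0, 0, 0, 0], 1)]
  moves := EC1_moves0
  reqs := EC1_reqs0
  tree := EC1_0_2_0_tree

theorem EC1_0_2_0_ok : EC1.instOK 0 2 0 EC1_0_2_0 = true := by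
  decide +kernel

theorem EC1_ok0 : ∀ b ∈ EC1.branches, ∃ I : Inst, EC1.instOK 0 b.1 b.2 I = true := by
  intro b hb
  have h : b = (0, 0) ∨ b = (1, 0) ∨ b = (2, 0) := by
    have hb2 : b ∈ [(0, 0), (1, 0), (2, 0)] := hb
    simpa using hb2
  rcases h with rfl | rfl | rfl
  · exact ⟨EC1_0_0_0, EC1_0_0_0_ok⟩
  · exact ⟨EC1_0_1_0, EC1_0_1_0_ok⟩
  · exact ⟨EC1_0_2_0, EC1_0_2_0_ok⟩

end Pool.Agent.helper1.CAD
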