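import Pool.Agent.helper1.CAD.Sound

namespace Pool.Agent.helper1.CAD

set_option maxRecDepth 100000

def EC2 : Spec where
  K := .C
  tys := [(2, 2, [1, 0], 0), (0, 2, [1, 0], 0), (1, 2, [0, 1], 0), (2, 0, [1, 0], 0), (1, 0, [0, 1], 0)]
  kc := ([2, 1], 0)
  pmin := [0, 1]
  sl := (1, -1)
  good := false
  pv := 0
  px := 0
  pvx := 0

def EC2_moves0 : List Move :=
   [([((0, 2, 0), -2)], 0),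
    ([((1, 2, 0), 1), ((0, 0, 0), -1)], 0),
    ([((1, 2, 0), -1), ((2, 0, -1), 1)], 0),
    ([((1, 2, 0), -1), ((2, 0, 0), 1)], 0),
    ([((1, 2, 0), -1), ((1, 0, -1), 1)], 0),
    ([((1, 2, 0), -1), ((1, 0, 0), 1)], 0),
    ([((1, 2, 0), 1), ((1, 0, 1), -1)], 0),
    ([((1, 2, 0), 1), ((0, 0, 1), -1)], 0),
    ([((2, 2, 2), 1), ((2, 0, 1), 1)], 0),
    ([((1, 2, 1), -1), ((2, 0, 2), 1)], 0),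
    ([((1, 2, 1), 1), ((1, 0, 0), -1)], 0),
    ([((1, 2, 1), -1), ((1, 0, 1), 1)], 0),
    ([((0, 2, 2), 1), ((1, 0, -1), -1)], 0),
    ([((2, 2, 0), 1), ((1, 0, 0), 1)], 0),
    ([((2, 2, 0), 0), ((2, 0, 0), 2)], 0),
    ([((2, 2, 0), 1), ((2, 0, -1), 1)], 0),
    ([((2, 2, 1), 0), ((2, 0, 1), 2)], 0),
    ([((0, 2, 2), 0), ((0, 0, 2), 2)], 0),
    ([((0, 2, 1), -1), ((0, 0, 2), 1)], 0),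
    ([((0, 2, 1), -1), ((0, 0, 1), 1)], 0),
    ([((0, 2, 1), 1), ((0, 0, 0), -1)], 0),
    ([((0, 2, 1), 1), ((1, 0, 1), -1)], 0),
    ([((1, 2, 1), 1), ((0, 0, 0), -1)], 0),
    ([((1, 2, 1), -1), ((1, 0, 2), 1)], 0),
    ([((1, 2, 1), 1), ((0, 0, 1), -1)], 0)]

def EC2_reqs0 : List (List ℤ) :=
   [[0, 0, 0, 1, 0, 0, 0, 0, 0, 0, 0, 0, 0, 0, 0, 0, 0, 0, 0, 0, 0, 0, 0, 0],
    [0, 0, 0, 0, 0, 0, 1, 0, 0, 0, 0, 0, 0, 0, 0, 0, 0, 0, 0, 1, 0, 0, 0, 0],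
    [0, 0, 0, 0, 0, 0, 1, 0, 0, 0, 1, 0, 0, 0, 0, 0, 0, 0, 0, 0, 0, 0, 0, 0],
    [0, 0, 0, 0, 0, 0, 1, 0, 0, 0, 0, 1, 0, 0, 0, 0, 0, 0, 0, 0, 0, 0, 0, 0],
    [0, 0, 0, 0, 0, 0, 1, 0, 0, 0, 0, 0, 0, 0, 0, 1, 0, 0, 0, 0, 0, 0, 0, 0],
    [0, 0, 0, 0, 0, 0, 1, 0, 0, 0, 0, 0, 0, 0, 0, 0, 1, 0, 0, 0, 0, 0, 0, 0],
    [0, 0, 0, 0, 0, 0, 1, 0, 0, 0, 0, 0, 0, 0, 0, 0, 0, 1, 0, 0, 0, 0, 0, 0],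
    [0, 0, 0, 0, 0, 0, 1, 0, 0, 0, 0, 0, 0, 0, 0, 0, 0, 0, 0, 0, 1, 0, 0, 0],
    [0, 0, 1, 0, 0, 0, 0, 0, 0, 0, 0, 0, 1, 0, 0, 0, 0, 0, 0, 0, 0, 0, 0, 0],
    [0, 0, 0, 0, 0, 0, 0, 1, 0, 0, 0, 0, 0, 1, 0, 0, 0, 0, 0, 0, 0, 0, 0, 0],
    [0, 0, 0, 0, 0, 0, 0, 1, 0, 0, 0, 0, 0, 0, 0, 0, 1, 0, 0, 0, 0, 0, 0, 0],
    [0, 0, 0, 0, 0, 0, 0, 1, 0, 0, 0, 0, 0, 0, 0, 0, 0, 1, 0, 0, 0, 0, 0, 0],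
    [0, 0, 0, 0, 0, 1, 0, 0, 0, 0, 0, 0, 0, 0, 0, 1, 0, 0, 0, 0, 0, 0, 0, 0],
    [1, 0, 0, 0, 0, 0, 0, 0, 0, 0, 0, 0, 0, 0, 0, 0, 1, 0, 0, 0, 0, 0, 0, 0],
    [1, 0, 0, 0, 0, 0, 0, 0, 0, 0, 0, 1, 0, 0, 0, 0, 0, 0, 0, 0, 0, 0, 0, 0],
    [1, 0, 0, 0, 0, 0, 0, 0, 0, 0, 1, 0, 0, 0, 0, 0, 0, 0, 0, 0, 0, 0, 0, 0],
    [0, 1, 0, 0, 0, 0, 0, 0, 0, 0, 0, 0, 1, 0, 0, 0, 0, 0, 0, 0, 0, 0, 0, 0],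
    [0, 0, 0, 0, 0, 1, 0, 0, 0, 0, 0, 0, 0, 0, 0, 0, 0, 0, 0, 0, 0, 1, 0, 0],
    [0, 0, 0, 0, 1, 0, 0, 0, 0, 0, 0, 0, 0, 0, 0, 0, 0, 0, 0, 0, 0, 1, 0, 0],
    [0, 0, 0, 0, 1, 0, 0, 0, 0, 0, 0, 0, 0, 0, 0, 0, 0, 0, 0, 0, 1, 0, 0, 0],
    [0, 0, 0, 0, 1, 0, 0, 0, 0, 0, 0, 0, 0, 0, 0, 0, 0, 0, 0, 1, 0, 0, 0, 0],
    [0, 0, 0, 0, 1, 0, 0, 0, 0, 0, 0, 0, 0, 0, 0, 0, 0, 1, 0, 0, 0, 0, 0, 0],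
    [0, 0, 0, 0, 0, 0, 0, 1, 0, 0, 0, 0, 0, 0, 0, 0, 0, 0, 0, 1, 0, 0, 0, 0],
    [0, 0, 0, 0, 0, 0, 0, 1, 0, 0, 0, 0, 0, 0, 0, 0, 0, 0, 1, 0, 0, 0, 0, 0],
    [0, 0, 0, 0, 0, 0, 0, 1, 0, 0, 0, 0, 0, 0, 0, 0, 0, 0, 0, 0, 1, 0, 0, 0]]

def EC2_base0 : List Row :=
   [(false, [1, 1, 1, 0, 0, 0, 0, 0, 0, 0, 0, 0, 0, 0, 0, 0, 0, 0, 0, 0, 0, 0, -1, 0], 0),
    (false, [0, 0, 0, 1, 1, 1, 0, 0, 0, 0, 0, 0, 0, 0, 0, 0, 0, 0, 0, 0, 0, 0, -1, 0], 0),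
    (false, [0, 0, 0, 0, 0, 0, 1, 1, 1, 0, 0, 0, 0, 0, 0, 0, 0, 0, 0, 0, 0, 0, 0, -1], 0),
    (false, [0, 0, 0, 0, 0, 0, 0, 0, 0, 1, 1, 1, 1, 1, 0, 0, 0, 0, 0, 0, 0, 0, -1, 0], 0),
    (false, [0, 0, 0, 0, 0, 0, 0, 0, 0, 0, 0, 0, 0, 0, 1, 1, 1, 1, 1, 0, 0, 0, 0, -1], 0),
    (false, [0, 1, 2, 0, 1, 2, 0, 1, 2, 2, 1, 0, 1, 2, 2, 1, 0, 1, 2, 0, 1, 2, -4, -2], 0),
    (false, [2, 1, 0, 2, 1, 0, 2, 1, 0, 2, 1, 0, 1, 2, 2, 1, 0, 1, 2, 0, 1, 2, -4, -2], 0),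
    (true, [0, 0, 0, 0, 0, 0, 0, 0, 0, 0, 0, 0, 0, 0, 0, 0, 0, 0, 0, 1, 1, 1, 0, 0], 1),
    (true, [4, 1, 0, 0, 1, 4, 1, 0, 1, 16, 9, 4, 1, 0, 9, 4, 1, 0, 1, 0, 1, 4, 0, 0], 1),
    (true, [0, 0, 0, 0, 0, 0, 0, 0, 0, 0, 0, 0, 0, 0, 0, 0, 0, 0, 0, 0, 0, 0, 1, 0], 0),
    (true, [0, 0, 0, 0, 0, 0, 0, 0, 0, 0, 0, 0, 0, 0, 0, 0, 0, 0, 0, 0, 0, 0, 0, 1], 1)]

def EC2_0_0_0_tree : Tree :=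
  (.br 3 0
  (.br 16 0
   (.br 19 0
    (.br 20 0
     (.br 6 0
      (.br 4 0
       (.br 7 0
        (.fk [(0, -2), (1, 2), (2, 2), (4, -1), (5, -1), (6, 1), (10, 1)])
        (.br 17 0
         (.br 5 0
          (.fk [(0, 2), (1, 6), (2, 2), (4, 2), (5, -1), (6, -1), (7, 4)])
          (.br 15 0
           (.br 21 0
            (.fk [(7, 1)])
            (.mv 17))
           (.mv 12)))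
         (.mv 11)))
       (.br 21 0
        (.fk [(7, 1)])
        (.mv 18)))
      (.br 11 0
       (.br 17 0
        (.br 15 0
         (.br 10 0
          (.br 12 0
           (.fk [(0, 2), (1, 2), (3, 4), (4, 4), (5, -1), (6, -1), (7, 2)])
           (.br 1 0
            (.br 2 0
             (.br 5 0
              (.fk [(0, 2), (1, 1), (3, 1), (4, 2), (6, -1), (7, 2)])
              (.br 21 0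
               (.fk [(7, 1)])
               (.mv 17)))
             (.mv 8))
            (.mv 16)))
          (.mv 2))
         (.mv 4))
        (.mv 6))
       (.mv 3)))
     (.br 4 0
      (.br 6 0
       (.br 7 0
        (.fk [(0, -2), (1, 2), (2, 2), (4, -1), (5, -1), (6, 1), (10, 1)])
        (.mv 24))
       (.mv 7))
      (.mv 19)))
    (.br 6 0
     (.br 7 0
      (.br 4 0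
       (.fk [(0, -2), (1, 2), (2, 2), (4, -1), (5, -1), (6, 1), (10, 1)])
       (.mv 20))
      (.mv 22))
     (.mv 1)))
   (.br 6 0
    (.br 7 0
     (.br 0 0
      (.fk [(2, 2), (4, -1), (5, -1), (6, 1), (10, 1)])
      (.mv 13))
     (.mv 10))
    (.mv 5)))
  (.mv 0))

def EC2_0_0_0 : Inst where
  rows :=
   [(false, [1, 1, 1, 0, 0, 0, 0, 0, 0, 0, 0, 0, 0, 0, 0, 0, 0, 0, 0, 0, 0, 0, -1, 0], 0),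
    (false, [0, 0, 0, 1, 1, 1, 0, 0, 0, 0, 0, 0, 0, 0, 0, 0, 0, 0, 0, 0, 0, 0, -1, 0], 0),
    (false, [0, 0, 0, 0, 0, 0, 1, 1, 1, 0, 0, 0, 0, 0, 0, 0, 0, 0, 0, 0, 0, 0, 0, -1], 0),
    (false, [0, 0, 0, 0, 0, 0, 0, 0, 0, 1, 1, 1, 1, 1, 0, 0, 0, 0, 0, 0, 0, 0, -1, 0], 0),
    (false, [0, 0, 0, 0, 0, 0, 0, 0, 0, 0, 0, 0, 0, 0, 1, 1, 1, 1, 1, 0, 0, 0, 0, -1], 0),
    (false, [0, 1, 2, 0, 1, 2, 0, 1, 2, 2, 1, 0, 1, 2, 2, 1, 0, 1, 2, 0, 1, 2, -4, -2], 0),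
    (false, [2, 1, 0, 2, 1, 0, 2, 1, 0, 2, 1, 0, 1, 2, 2, 1, 0, 1, 2, 0, 1, 2, -4, -2], 0),
    (true, [0, 0, 0, 0, 0, 0, 0, 0, 0, 0, 0, 0, 0, 0, 0, 0, 0, 0, 0, 1, 1, 1, 0, 0], 1),
    (true, [4, 1, 0, 0, 1, 4, 1, 0, 1, 16, 9, 4, 1, 0, 9, 4, 1, 0, 1, 0, 1, 4, 0, 0], 1),
    (true, [0, 0, 0, 0, 0, 0, 0, 0, 0, 0, 0, 0, 0, 0, 0, 0, 0, 0, 0, 0, 0, 0, 1, 0], 0),
    (true, [0, 0, 0, 0, 0, 0, 0, 0, 0, 0, 0, 0, 0, 0, 0, 0, 0, 0, 0, 0, 0, 0, 0, 1], 1),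
    (true, [2, 1, 0, 0, 1, 2, 1, 0, 1, 4, 3, 2, 1, 0, 3, 2, 1, 0, 1, 0, 1, 2, -4, -2], 1)]
  moves := EC2_moves0
  reqs := EC2_reqs0
  tree := EC2_0_0_0_tree

theorem EC2_0_0_0_ok : EC2.instOK 0 0 0 EC2_0_0_0 = true := by
  decide +kernel

def EC2_0_1_0_tree : Tree :=
  (.br 7 0
  (.br 3 0
   (.br 19 0
    (.br 12 0
     (.br 6 0
      (.br 0 0
       (.fk [(2, 2), (5, -1), (6, 1), (10, 2)])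
       (.br 11 0
        (.br 10 0
         (.br 16 0
          (.fk [(0, 2), (1, 2), (2, 2), (3, 4), (4, 2), (5, -1), (6, -1), (7, 2)])
          (.mv 13))
         (.mv 15))
        (.mv 14)))
      (.br 16 0
       (.br 11 0
        (.br 10 0
         (.fk [(0, 2), (1, 2), (2, 2), (3, 4), (4, 2), (5, -1), (6, -1), (7, 2)])
         (.mv 2))
        (.mv 3))
       (.mv 5)))
     (.br 2 0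
      (.br 1 0
       (.br 17 0
        (.br 0 0
         (.fk [(0, 1), (3, -1)])
         (.br 16 0
          (.fk [(0, 4), (1, 2), (2, 1), (3, 2), (4, 3), (6, -1), (7, 2), (11, 1)])
          (.mv 13)))
        (.br 6 0
         (.br 4 0
          (.fk [(1, 2), (2, 1), (3, -2), (4, -1), (6, 1), (11, 1)])
          (.mv 21))
         (.mv 6)))
       (.mv 16))
      (.mv 8)))
    (.br 6 0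
     (.br 4 0
      (.fk [(0, -2), (1, 2), (2, 2), (5, -1), (6, 1), (10, 2)])
      (.mv 20))
     (.mv 1)))
   (.mv 0))
  (.br 16 0
   (.br 19 0
    (.br 3 0
     (.br 17 0
      (.br 18 0
       (.br 13 0
        (.fk [(2, -1), (4, 1), (6, 1), (11, 1)])
        (.mv 9))
       (.mv 23))
      (.mv 11))
     (.mv 0))
    (.mv 22))
   (.mv 10)))

def EC2_0_1_0 : Inst where
  rows :=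
   [(false, [1, 1, 1, 0, 0, 0, 0, 0, 0, 0, 0, 0, 0, 0, 0, 0, 0, 0, 0, 0, 0, 0, -1, 0], 0),
    (false, [0, 0, 0, 1, 1, 1, 0, 0, 0, 0, 0, 0, 0, 0, 0, 0, 0, 0, 0, 0, 0, 0, -1, 0], 0),
    (false, [0, 0, 0, 0, 0, 0, 1, 1, 1, 0, 0, 0, 0, 0, 0, 0, 0, 0, 0, 0, 0, 0, 0, -1], 0),
    (false, [0, 0, 0, 0, 0, 0, 0, 0, 0, 1, 1, 1, 1, 1, 0, 0, 0, 0, 0, 0, 0, 0, -1, 0], 0),
    (false, [0, 0, 0, 0, 0, 0, 0, 0, 0, 0, 0, 0, 0, 0, 1, 1, 1, 1, 1, 0, 0, 0, 0, -1], 0),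
    (false, [0, 1, 2, 0, 1, 2, 0, 1, 2, 2, 1, 0, 1, 2, 2, 1, 0, 1, 2, 0, 1, 2, -4, -2], 0),
    (false, [2, 1, 0, 2, 1, 0, 2, 1, 0, 2, 1, 0, 1, 2, 2, 1, 0, 1, 2, 0, 1, 2, -4, -2], 0),
    (true, [0, 0, 0, 0, 0, 0, 0, 0, 0, 0, 0, 0, 0, 0, 0, 0, 0, 0, 0, 1, 1, 1, 0, 0], 1),
    (true, [4, 1, 0, 0, 1, 4, 1, 0, 1, 16, 9, 4, 1, 0, 9, 4, 1, 0, 1, 0, 1, 4, 0, 0], 1),
    (true, [0, 0, 0, 0, 0, 0, 0, 0, 0, 0, 0, 0, 0, 0, 0, 0, 0, 0, 0, 0, 0, 0, 1, 0], 0),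
    (true, [0, 0, 0, 0, 0, 0, 0, 0, 0, 0, 0, 0, 0, 0, 0, 0, 0, 0, 0, 0, 0, 0, 0, 1], 1),
    (true, [-2, -1, 0, 0, -1, -2, -1, 0, -1, -4, -3, -2, -1, 0, -3, -2, -1, 0, -1, 0, -1, -2, 4, 2], 1)]
  moves := EC2_moves0
  reqs := EC2_reqs0
  tree := EC2_0_1_0_tree

theorem EC2_0_1_0_ok : EC2.instOK 0 1 0 EC2_0_1_0 = true := by
  decide +kernel

def EC2_0_2_0_tree : Tree :=
  (.br 3 0
  (.br 4 0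
   (.br 6 0
    (.br 7 0
     (.fk [(0, -2), (1, 4), (2, 3), (3, -2), (4, -3), (5, -1), (6, 2), (11, -1), (12, 4)])
     (.br 17 0
      (.br 16 0
       (.fk [(0, 2), (1, 4), (2, 1), (3, 2), (4, 3), (5, -1), (11, -1), (12, 2)])
       (.mv 10))
      (.mv 11)))
    (.br 19 0
     (.br 16 0
      (.br 17 0
       (.fk [(0, 2), (1, 4), (2, 1), (3, 2), (4, 3), (5, -1), (7, 2), (11, -1), (12, 2)])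
       (.mv 6))
      (.mv 5))
     (.mv 1)))
   (.br 19 0
    (.br 20 0
     (.br 21 0
      (.fk [(7, 1)])
      (.mv 18))
     (.mv 19))
    (.mv 20)))
  (.mv 0))

def EC2_0_2_0 : Inst where
  rows :=
   [(false, [1, 1, 1, 0, 0, 0, 0, 0, 0, 0, 0, 0, 0, 0, 0, 0, 0, 0, 0, 0, 0, 0, -1, 0], 0),
    (false, [0, 0, 0, 1, 1, 1, 0, 0, 0, 0, 0, 0, 0, 0, 0, 0, 0, 0, 0, 0, 0, 0, -1, 0], 0),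
    (false, [0, 0, 0, 0, 0, 0, 1, 1, 1, 0, 0, 0, 0, 0, 0, 0, 0, 0, 0, 0, 0, 0, 0, -1], 0),
    (false, [0, 0, 0, 0, 0, 0, 0, 0, 0, 1, 1, 1, 1, 1, 0, 0, 0, 0, 0, 0, 0, 0, -1, 0], 0),
    (false, [0, 0, 0, 0, 0, 0, 0, 0, 0, 0, 0, 0, 0, 0, 1, 1, 1, 1, 1, 0, 0, 0, 0, -1], 0),
    (false, [0, 1, 2, 0, 1, 2, 0, 1, 2, 2, 1, 0, 1, 2, 2, 1, 0, 1, 2, 0, 1, 2, -4, -2], 0),
    (false, [2, 1, 0, 2, 1, 0, 2, 1, 0, 2, 1, 0, 1, 2, 2, 1, 0, 1, 2, 0, 1, 2, -4, -2], 0),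
    (true, [0, 0, 0, 0, 0, 0, 0, 0, 0, 0, 0, 0, 0, 0, 0, 0, 0, 0, 0, 1, 1, 1, 0, 0], 1),
    (true, [4, 1, 0, 0, 1, 4, 1, 0, 1, 16, 9, 4, 1, 0, 9, 4, 1, 0, 1, 0, 1, 4, 0, 0], 1),
    (true, [0, 0, 0, 0, 0, 0, 0, 0, 0, 0, 0, 0, 0, 0, 0, 0, 0, 0, 0, 0, 0, 0, 1, 0], 0),
    (true, [0, 0, 0, 0, 0, 0, 0, 0, 0, 0, 0, 0, 0, 0, 0, 0, 0, 0, 0, 0, 0, 0, 0, 1], 1),
    (false, [2, 1, 0, 0, 1, 2, 1, 0, 1, 4, 3, 2, 1, 0, 3, 2, 1, 0, 1, 0, 1, 2, -4, -2], 0),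
    (true, [0, 0, 0, 0, 0, 0, 0, 0, 0, 1, 1, 0, 0, 0, 1, 0, 0, 0, 0, 0, 0, 0, 0, 0], 1)]
  moves := EC2_moves0
  reqs := EC2_reqs0
  tree := EC2_0_2_0_tree

theorem EC2_0_2_0_ok : EC2.instOK 0 2 0 EC2_0_2_0 = true := by
  decide +kernel

theorem EC2_ok0 : ∀ b ∈ EC2.branches, ∃ I : Inst, EC2.instOK 0 b.1 b.2 I = true := by
  intro b hb
  have h : b = (0, 0) ∨ b = (1, 0) ∨ b = (2, 0) := by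
    have hb2 : b ∈ [(0, 0), (1, 0), (2, 0)] := hb
    simpa using hb2
  rcases h with rfl | rfl | rfl
  · exact ⟨EC2_0_0_0, EC2_0_0_0_ok⟩
  · exact ⟨EC2_0_1_0, EC2_0_1_0_ok⟩
  · exact ⟨EC2_0_2_0, EC2_0_2_0_ok⟩

end Pool.Agent.helper1.CAD
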