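import Pool.Agent.helper1.CAD.Sound

namespace Pool.Agent.helper1.CAD

set_option maxRecDepth 100000

def EC3 : Spec where
  K := .C
  tys := [(1, 2, [2, 1], 0), (2, 0, [1, 0], 0), (1, 0, [0, 1], 0)]
  kc := ([2, 1], 0)
  pmin := [0, 2]
  sl := (0, 0)
  good := false
  pv := 0
  px := 0
  pvx := 0

def EC3_moves0 : List Move :=
   [([((1, 2, 1), -1), ((2, 0, 2), 1)], 0),
    ([((1, 2, 1), -1), ((2, 0, 1), 1)], 0),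
    ([((1, 2, 1), 1), ((1, 0, 0), -1)], 0),
    ([((1, 2, 1), -1), ((1, 0, 1), 1)], 0),
    ([((1, 2, 1), -1), ((1, 0, 2), 1)], 0),
    ([((1, 2, 0), -1), ((2, 0, -1), 1)], 0),
    ([((1, 2, 0), -1), ((2, 0, 0), 1)], 0),
    ([((1, 2, 0), -1), ((1, 0, -1), 1)], 0),
    ([((1, 2, 0), -1), ((1, 0, 0), 1)], 0),
    ([((1, 2, 0), 1), ((1, 0, 1), -1)], 0),
    ([((1, 2, 2), 1), ((1, 0, -2), -1)], 0),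
    ([((1, 2, 2), 0), ((1, 0, 2), 2)], 0),
    ([((1, 2, 1), 0), ((2, 0, -1), 1), ((1, 0, -2), -1)], 0),
    ([((1, 2, 1), 0), ((2, 0, 0), 1), ((1, 0, -2), -1)], 0),
    ([((1, 2, 1), 0), ((1, 0, -2), -1), ((1, 0, -1), 1)], 0),
    ([((1, 2, 1), 0), ((1, 0, -1), -1), ((1, 0, -1), 1)], 0)]

def EC3_reqs0 : List (List ℤ) :=
   [[0, 1, 0, 0, 0, 0, 0, 1, 0, 0, 0, 0, 0, 0, 0, 0, 0, 0],
    [0, 1, 0, 0, 0, 0, 1, 0, 0, 0, 0, 0, 0, 0, 0, 0, 0, 0],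
    [0, 1, 0, 0, 0, 0, 0, 0, 0, 0, 1, 0, 0, 0, 0, 0, 0, 0],
    [0, 1, 0, 0, 0, 0, 0, 0, 0, 0, 0, 1, 0, 0, 0, 0, 0, 0],
    [0, 1, 0, 0, 0, 0, 0, 0, 0, 0, 0, 0, 1, 0, 0, 0, 0, 0],
    [1, 0, 0, 0, 1, 0, 0, 0, 0, 0, 0, 0, 0, 0, 0, 0, 0, 0],
    [1, 0, 0, 0, 0, 1, 0, 0, 0, 0, 0, 0, 0, 0, 0, 0, 0, 0],
    [1, 0, 0, 0, 0, 0, 0, 0, 0, 1, 0, 0, 0, 0, 0, 0, 0, 0],
    [1, 0, 0, 0, 0, 0, 0, 0, 0, 0, 1, 0, 0, 0, 0, 0, 0, 0],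
    [1, 0, 0, 0, 0, 0, 0, 0, 0, 0, 0, 1, 0, 0, 0, 0, 0, 0],
    [0, 0, 1, 0, 0, 0, 0, 0, 1, 0, 0, 0, 0, 0, 0, 0, 0, 0],
    [0, 0, 1, 0, 0, 0, 0, 0, 0, 0, 0, 0, 1, 0, 0, 0, 0, 0],
    [0, 1, 0, 0, 1, 0, 0, 0, 1, 0, 0, 0, 0, 0, 0, 0, 0, 0],
    [0, 1, 0, 0, 0, 1, 0, 0, 1, 0, 0, 0, 0, 0, 0, 0, 0, 0],
    [0, 1, 0, 0, 0, 0, 0, 0, 1, 1, 0, 0, 0, 0, 0, 0, 0, 0],
    [0, 1, 0, 0, 0, 0, 0, 0, 0, 2, 0, 0, 0, 0, 0, 0, 0, 0]]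

def EC3_base0 : List Row :=
   [(false, [1, 1, 1, 0, 0, 0, 0, 0, 0, 0, 0, 0, 0, 0, 0, 0, -2, -1], 0),
    (false, [0, 0, 0, 1, 1, 1, 1, 1, 0, 0, 0, 0, 0, 0, 0, 0, -1, 0], 0),
    (false, [0, 0, 0, 0, 0, 0, 0, 0, 1, 1, 1, 1, 1, 0, 0, 0, 0, -1], 0),
    (false, [0, 1, 2, 2, 1, 0, 1, 2, 2, 1, 0, 1, 2, 0, 1, 2, -4, -2], 0),
    (false, [2, 1, 0, 2, 1, 0, 1, 2, 2, 1, 0, 1, 2, 0, 1, 2, -4, -2], 0),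
    (true, [0, 0, 0, 0, 0, 0, 0, 0, 0, 0, 0, 0, 0, 1, 1, 1, 0, 0], 0),
    (true, [0, 0, 0, 0, 0, 0, 0, 0, 0, 0, 0, 0, 0, -1, -1, -1, 0, 0], 0),
    (true, [1, 0, 1, 16, 9, 4, 1, 0, 9, 4, 1, 0, 1, 0, 1, 4, 0, 0], 1),
    (true, [0, 0, 0, 0, 0, 0, 0, 0, 0, 0, 0, 0, 0, 0, 0, 0, 1, 0], 0),
    (true, [0, 0, 0, 0, 0, 0, 0, 0, 0, 0, 0, 0, 0, 0, 0, 0, 0, 1], 2)]

def EC3_0_0_0_tree : Tree :=
  (.br 0 0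
  (.fk [(0, 1), (1, -2), (2, -1), (3, -1), (6, 1), (10, 1)])
  (.br 10 0
   (.br 9 0
    (.br 5 0
     (.br 11 0
      (.br 4 0
       (.br 2 0
        (.fk [(0, 6), (1, 4), (2, 6), (3, 1), (4, -7), (6, 6), (9, 4), (10, 2)])
        (.br 8 0
         (.br 12 0
          (.fk [(0, -2), (1, -4), (2, 2), (3, 1), (4, 1), (6, 4), (9, 4)])
          (.mv 11))
         (.mv 10)))
       (.mv 5))
      (.mv 9))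
     (.mv 6))
    (.mv 7))
   (.mv 8)))

def EC3_0_0_0 : Inst where
  rows :=
   [(false, [1, 1, 1, 0, 0, 0, 0, 0, 0, 0, 0, 0, 0, 0, 0, 0, -2, -1], 0),
    (false, [0, 0, 0, 1, 1, 1, 1, 1, 0, 0, 0, 0, 0, 0, 0, 0, -1, 0], 0),
    (false, [0, 0, 0, 0, 0, 0, 0, 0, 1, 1, 1, 1, 1, 0, 0, 0, 0, -1], 0),
    (false, [0, 1, 2, 2, 1, 0, 1, 2, 2, 1, 0, 1, 2, 0, 1, 2, -4, -2], 0),
    (false, [2, 1, 0, 2, 1, 0, 1, 2, 2, 1, 0, 1, 2, 0, 1, 2, -4, -2], 0),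
    (true, [0, 0, 0, 0, 0, 0, 0, 0, 0, 0, 0, 0, 0, 1, 1, 1, 0, 0], 0),
    (true, [0, 0, 0, 0, 0, 0, 0, 0, 0, 0, 0, 0, 0, -1, -1, -1, 0, 0], 0),
    (true, [1, 0, 1, 16, 9, 4, 1, 0, 9, 4, 1, 0, 1, 0, 1, 4, 0, 0], 1),
    (true, [0, 0, 0, 0, 0, 0, 0, 0, 0, 0, 0, 0, 0, 0, 0, 0, 1, 0], 0),
    (true, [0, 0, 0, 0, 0, 0, 0, 0, 0, 0, 0, 0, 0, 0, 0, 0, 0, 1], 2),
    (true, [1, 0, 1, 4, 3, 2, 1, 0, 3, 2, 1, 0, 1, 0, 1, 2, -4, -2], 1)]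
  moves := EC3_moves0
  reqs := EC3_reqs0
  tree := EC3_0_0_0_tree

theorem EC3_0_0_0_ok : EC3.instOK 0 0 0 EC3_0_0_0 = true := by
  decide +kernel

def EC3_0_1_0_tree : Tree :=
  (.br 1 0
  (.br 11 0
   (.br 0 0
    (.fk [(0, 2), (1, -8), (2, -2), (3, -1), (4, 2), (6, 2), (9, 2)])
    (.br 10 0
     (.br 9 0
      (.br 5 0
       (.br 2 0
        (.fk [(0, 1), (1, -2), (3, 1), (4, -1), (5, 1), (6, 1), (9, 1)])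
        (.br 12 0
         (.br 8 0
          (.fk [(0, -2), (1, -4), (2, 2), (3, 1), (4, 1), (6, 4), (9, 4)])
          (.mv 10))
         (.mv 11)))
       (.mv 6))
      (.mv 7))
     (.mv 8)))
   (.br 0 0
    (.fk [(0, 2), (1, -8), (2, -2), (3, -1), (4, 2), (6, 2), (9, 2)])
    (.mv 9)))
  (.br 11 0
   (.br 10 0
    (.br 12 0
     (.br 7 0
      (.br 6 0
       (.fk [(0, -1), (1, 2), (2, 1), (4, 1), (6, 1), (10, 1)])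
       (.mv 1))
      (.mv 0))
     (.mv 4))
    (.mv 2))
   (.mv 3)))

def EC3_0_1_0 : Inst where
  rows :=
   [(false, [1, 1, 1, 0, 0, 0, 0, 0, 0, 0, 0, 0, 0, 0, 0, 0, -2, -1], 0),
    (false, [0, 0, 0, 1, 1, 1, 1, 1, 0, 0, 0, 0, 0, 0, 0, 0, -1, 0], 0),
    (false, [0, 0, 0, 0, 0, 0, 0, 0, 1, 1, 1, 1, 1, 0, 0, 0, 0, -1], 0),
    (false, [0, 1, 2, 2, 1, 0, 1, 2, 2, 1, 0, 1, 2, 0, 1, 2, -4, -2], 0),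
    (false, [2, 1, 0, 2, 1, 0, 1, 2, 2, 1, 0, 1, 2, 0, 1, 2, -4, -2], 0),
    (true, [0, 0, 0, 0, 0, 0, 0, 0, 0, 0, 0, 0, 0, 1, 1, 1, 0, 0], 0),
    (true, [0, 0, 0, 0, 0, 0, 0, 0, 0, 0, 0, 0, 0, -1, -1, -1, 0, 0], 0),
    (true, [1, 0, 1, 16, 9, 4, 1, 0, 9, 4, 1, 0, 1, 0, 1, 4, 0, 0], 1),
    (true, [0, 0, 0, 0, 0, 0, 0, 0, 0, 0, 0, 0, 0, 0, 0, 0, 1, 0], 0),
    (true, [0, 0, 0, 0, 0, 0, 0, 0, 0, 0, 0, 0, 0, 0, 0, 0, 0, 1], 2),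
    (true, [-1, 0, -1, -4, -3, -2, -1, 0, -3, -2, -1, 0, -1, 0, -1, -2, 4, 2], 1)]
  moves := EC3_moves0
  reqs := EC3_reqs0
  tree := EC3_0_1_0_tree

theorem EC3_0_1_0_ok : EC3.instOK 0 1 0 EC3_0_1_0 = true := by
  decide +kernel

def EC3_0_2_0_tree : Tree :=
  (.br 0 0
  (.br 1 0
   (.fk [(0, 2), (1, -4), (2, -1), (3, -1), (4, 2), (5, 2), (6, 2), (9, 1), (10, -1), (11, 2)])
   (.br 10 0
    (.br 7 0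
     (.br 6 0
      (.br 11 0
       (.br 9 0
        (.br 8 0
         (.fk [(0, 2), (1, -12), (2, -2), (3, -3), (4, 1), (6, 4), (9, 4), (10, 4)])
         (.br 5 0
          (.br 4 0
           (.fk [(0, 4), (1, 16), (2, 10), (3, -1), (4, -3), (5, 4), (6, 4), (9, 2), (10, -2)])
           (.mv 12))
          (.mv 13)))
        (.br 8 0
         (.br 9 1
          (.fk [(0, 2), (1, -12), (2, -2), (3, -3), (4, 1), (6, 4), (9, 4), (10, 4)])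
          (.mv 15))
         (.mv 14)))
       (.mv 3))
      (.mv 1))
     (.mv 0))
    (.mv 2)))
  (.br 10 0
   (.br 11 0
    (.br 9 0
     (.br 5 0
      (.br 4 0
       (.br 2 0
        (.fk [(0, 6), (1, 4), (2, 6), (3, 1), (4, -7), (5, 6), (6, 6), (9, 4), (10, 2)])
        (.br 8 0
         (.br 12 0
          (.fk [(0, -2), (1, -4), (2, 2), (3, 1), (4, 1), (6, 4), (9, 4)])
          (.mv 11))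
         (.mv 10)))
       (.mv 5))
      (.mv 6))
     (.mv 7))
    (.mv 9))
   (.mv 8)))

def EC3_0_2_0 : Inst where
  rows :=
   [(false, [1, 1, 1, 0, 0, 0, 0, 0, 0, 0, 0, 0, 0, 0, 0, 0, -2, -1], 0),
    (false, [0, 0, 0, 1, 1, 1, 1, 1, 0, 0, 0, 0, 0, 0, 0, 0, -1, 0], 0),
    (false, [0, 0, 0, 0, 0, 0, 0, 0, 1, 1, 1, 1, 1, 0, 0, 0, 0, -1], 0),
    (false, [0, 1, 2, 2, 1, 0, 1, 2, 2, 1, 0, 1, 2, 0, 1, 2, -4, -2], 0),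
    (false, [2, 1, 0, 2, 1, 0, 1, 2, 2, 1, 0, 1, 2, 0, 1, 2, -4, -2], 0),
    (true, [0, 0, 0, 0, 0, 0, 0, 0, 0, 0, 0, 0, 0, 1, 1, 1, 0, 0], 0),
    (true, [0, 0, 0, 0, 0, 0, 0, 0, 0, 0, 0, 0, 0, -1, -1, -1, 0, 0], 0),
    (true, [1, 0, 1, 16, 9, 4, 1, 0, 9, 4, 1, 0, 1, 0, 1, 4, 0, 0], 1),
    (true, [0, 0, 0, 0, 0, 0, 0, 0, 0, 0, 0, 0, 0, 0, 0, 0, 1, 0], 0),
    (true, [0, 0, 0, 0, 0, 0, 0, 0, 0, 0, 0, 0, 0, 0, 0, 0, 0, 1], 2),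
    (false, [1, 0, 1, 4, 3, 2, 1, 0, 3, 2, 1, 0, 1, 0, 1, 2, -4, -2], 0),
    (true, [0, 0, 0, 1, 1, 0, 0, 0, 1, 0, 0, 0, 0, 0, 0, 0, 0, 0], 1)]
  moves := EC3_moves0
  reqs := EC3_reqs0
  tree := EC3_0_2_0_tree

theorem EC3_0_2_0_ok : EC3.instOK 0 2 0 EC3_0_2_0 = true := by
  decide +kernel

theorem EC3_ok0 : ∀ b ∈ EC3.branches, ∃ I : Inst, EC3.instOK 0 b.1 b.2 I = true := by
  intro b hb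
  have h : b = (0, 0) ∨ b = (1, 0) ∨ b = (2, 0) := by
    have hb2 : b ∈ [(0, 0), (1, 0), (2, 0)] := hb
    simpa using hb2
  rcases h with rfl | rfl | rfl
  · exact ⟨EC3_0_0_0, EC3_0_0_0_ok⟩
  · exact ⟨EC3_0_1_0, EC3_0_1_0_ok⟩
  · exact ⟨EC3_0_2_0, EC3_0_2_0_ok⟩

end Pool.Agent.helper1.CAD
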