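import Pool.Agent.helper1.CAD.Sound

namespace Pool.Agent.helper1.CAD

set_option maxRecDepth 100000

def EC4 : Spec where
  K := .C
  tys := [(2, 2, [1, 0], 0), (0, 2, [1, 0], 0), (1, 2, [0, 2], 1), (2, 0, [1, 1], 0), (1, 0, [0, 0], 1)]
  kc := ([2, 2], 1)
  pmin := [1, 0]
  sl := (0, 0)
  good := false
  pv := 0
  px := 0
  pvx := 0

def EC4_moves0 : List Move :=
   [([((0, 2, 0), -2)], 0),
    ([((1, 2, 0), 1), ((0, 0, 0), -1)], 0),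
    ([((1, 2, 0), -1), ((2, 0, -1), 1)], 0),
    ([((1, 2, 0), -1), ((2, 0, 0), 1)], 0),
    ([((1, 2, 0), -1), ((1, 0, -1), 1)], 0),
    ([((1, 2, 0), -1), ((1, 0, 0), 1)], 0),
    ([((1, 2, 0), 1), ((1, 0, 1), -1)], 0),
    ([((1, 2, 0), 1), ((0, 0, 1), -1)], 0),
    ([((2, 2, 2), 1), ((1, 0, 2), 1)], 0),
    ([((2, 2, 2), 1), ((1, 0, 1), 1)], 0),
    ([((2, 2, 2), 0), ((2, 0, 2), 2)], 0),
    ([((2, 2, 2), 1), ((2, 0, 1), 1)], 0),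
    ([((1, 2, 1), -1), ((2, 0, 1), 1)], 0),
    ([((1, 2, 1), -1), ((2, 0, 2), 1)], 0),
    ([((1, 2, 1), -1), ((1, 0, 1), 1)], 0),
    ([((0, 2, 2), 1), ((1, 0, -1), -1)], 0),
    ([((2, 2, 0), 1), ((1, 0, -1), 1)], 0),
    ([((2, 2, 0), 0), ((2, 0, 0), 2)], 0),
    ([((2, 2, 0), 1), ((2, 0, -1), 1)], 0),
    ([((2, 2, 1), 1), ((2, 0, -1), 1)], 0),
    ([((2, 2, 1), 1), ((2, 0, 0), 1)], 0),
    ([((2, 2, 1), 0), ((2, 0, 1), 2)], 0),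
    ([((2, 2, 1), 1), ((1, 0, -1), 1)], 0),
    ([((2, 2, 1), 1), ((1, 0, 0), 1)], 0),
    ([((0, 2, 2), 1), ((1, 0, -2), -1)], 0),
    ([((0, 2, 1), 1), ((1, 0, 1), -1)], 0),
    ([((0, 2, 1), 1), ((1, 0, 0), -1)], 0),
    ([((0, 2, 1), -1), ((1, 0, -1), -1)], 0),
    ([((0, 2, 1), -1), ((1, 0, -2), -1)], 0),
    ([((1, 2, 2), 1), ((1, 0, -1), -1)], 0),
    ([((1, 2, 1), -1), ((1, 0, 2), 1)], 0),
    ([((1, 2, 2), 1), ((1, 0, -2), -1)], 0),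
    ([((1, 2, 2), 0), ((1, 0, 2), 2)], 0),
    ([((2, 2, 0), 1), ((0, 2, 2), 1), ((1, 0, 1), 2)], 0)]

def EC4_reqs0 : List (List ℤ) :=
   [[0, 0, 0, 1, 0, 0, 0, 0, 0, 0, 0, 0, 0, 0, 0, 0, 0, 0, 0, 0, 0, 0, 0, 0],
    [0, 0, 0, 0, 0, 0, 1, 0, 0, 0, 0, 0, 0, 0, 0, 0, 0, 0, 0, 1, 0, 0, 0, 0],
    [0, 0, 0, 0, 0, 0, 1, 0, 0, 0, 1, 0, 0, 0, 0, 0, 0, 0, 0, 0, 0, 0, 0, 0],
    [0, 0, 0, 0, 0, 0, 1, 0, 0, 0, 0, 1, 0, 0, 0, 0, 0, 0, 0, 0, 0, 0, 0, 0],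
    [0, 0, 0, 0, 0, 0, 1, 0, 0, 0, 0, 0, 0, 0, 0, 1, 0, 0, 0, 0, 0, 0, 0, 0],
    [0, 0, 0, 0, 0, 0, 1, 0, 0, 0, 0, 0, 0, 0, 0, 0, 1, 0, 0, 0, 0, 0, 0, 0],
    [0, 0, 0, 0, 0, 0, 1, 0, 0, 0, 0, 0, 0, 0, 0, 0, 0, 1, 0, 0, 0, 0, 0, 0],
    [0, 0, 0, 0, 0, 0, 1, 0, 0, 0, 0, 0, 0, 0, 0, 0, 0, 0, 0, 0, 1, 0, 0, 0],
    [0, 0, 1, 0, 0, 0, 0, 0, 0, 0, 0, 0, 0, 0, 0, 0, 0, 0, 1, 0, 0, 0, 0, 0],
    [0, 0, 1, 0, 0, 0, 0, 0, 0, 0, 0, 0, 0, 0, 0, 0, 0, 1, 0, 0, 0, 0, 0, 0],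
    [0, 0, 1, 0, 0, 0, 0, 0, 0, 0, 0, 0, 0, 1, 0, 0, 0, 0, 0, 0, 0, 0, 0, 0],
    [0, 0, 1, 0, 0, 0, 0, 0, 0, 0, 0, 0, 1, 0, 0, 0, 0, 0, 0, 0, 0, 0, 0, 0],
    [0, 0, 0, 0, 0, 0, 0, 1, 0, 0, 0, 0, 1, 0, 0, 0, 0, 0, 0, 0, 0, 0, 0, 0],
    [0, 0, 0, 0, 0, 0, 0, 1, 0, 0, 0, 0, 0, 1, 0, 0, 0, 0, 0, 0, 0, 0, 0, 0],
    [0, 0, 0, 0, 0, 0, 0, 1, 0, 0, 0, 0, 0, 0, 0, 0, 0, 1, 0, 0, 0, 0, 0, 0],
    [0, 0, 0, 0, 0, 1, 0, 0, 0, 0, 0, 0, 0, 0, 0, 1, 0, 0, 0, 0, 0, 0, 0, 0],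
    [1, 0, 0, 0, 0, 0, 0, 0, 0, 0, 0, 0, 0, 0, 0, 1, 0, 0, 0, 0, 0, 0, 0, 0],
    [1, 0, 0, 0, 0, 0, 0, 0, 0, 0, 0, 1, 0, 0, 0, 0, 0, 0, 0, 0, 0, 0, 0, 0],
    [1, 0, 0, 0, 0, 0, 0, 0, 0, 0, 1, 0, 0, 0, 0, 0, 0, 0, 0, 0, 0, 0, 0, 0],
    [0, 1, 0, 0, 0, 0, 0, 0, 0, 0, 1, 0, 0, 0, 0, 0, 0, 0, 0, 0, 0, 0, 0, 0],
    [0, 1, 0, 0, 0, 0, 0, 0, 0, 0, 0, 1, 0, 0, 0, 0, 0, 0, 0, 0, 0, 0, 0, 0],
    [0, 1, 0, 0, 0, 0, 0, 0, 0, 0, 0, 0, 1, 0, 0, 0, 0, 0, 0, 0, 0, 0, 0, 0],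
    [0, 1, 0, 0, 0, 0, 0, 0, 0, 0, 0, 0, 0, 0, 0, 1, 0, 0, 0, 0, 0, 0, 0, 0],
    [0, 1, 0, 0, 0, 0, 0, 0, 0, 0, 0, 0, 0, 0, 0, 0, 1, 0, 0, 0, 0, 0, 0, 0],
    [0, 0, 0, 0, 0, 1, 0, 0, 0, 0, 0, 0, 0, 0, 1, 0, 0, 0, 0, 0, 0, 0, 0, 0],
    [0, 0, 0, 0, 1, 0, 0, 0, 0, 0, 0, 0, 0, 0, 0, 0, 0, 1, 0, 0, 0, 0, 0, 0],
    [0, 0, 0, 0, 1, 0, 0, 0, 0, 0, 0, 0, 0, 0, 0, 0, 1, 0, 0, 0, 0, 0, 0, 0],
    [0, 0, 0, 0, 1, 0, 0, 0, 0, 0, 0, 0, 0, 0, 0, 1, 0, 0, 0, 0, 0, 0, 0, 0],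
    [0, 0, 0, 0, 1, 0, 0, 0, 0, 0, 0, 0, 0, 0, 1, 0, 0, 0, 0, 0, 0, 0, 0, 0],
    [0, 0, 0, 0, 0, 0, 0, 0, 1, 0, 0, 0, 0, 0, 0, 1, 0, 0, 0, 0, 0, 0, 0, 0],
    [0, 0, 0, 0, 0, 0, 0, 1, 0, 0, 0, 0, 0, 0, 0, 0, 0, 0, 1, 0, 0, 0, 0, 0],
    [0, 0, 0, 0, 0, 0, 0, 0, 1, 0, 0, 0, 0, 0, 1, 0, 0, 0, 0, 0, 0, 0, 0, 0],
    [0, 0, 0, 0, 0, 0, 0, 0, 1, 0, 0, 0, 0, 0, 0, 0, 0, 0, 1, 0, 0, 0, 0, 0],
    [1, 0, 0, 0, 0, 1, 0, 0, 0, 0, 0, 0, 0, 0, 0, 0, 0, 1, 0, 0, 0, 0, 0, 0]]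

def EC4_base0 : List Row :=
   [(false, [1, 1, 1, 0, 0, 0, 0, 0, 0, 0, 0, 0, 0, 0, 0, 0, 0, 0, 0, 0, 0, 0, -1, 0], 0),
    (false, [0, 0, 0, 1, 1, 1, 0, 0, 0, 0, 0, 0, 0, 0, 0, 0, 0, 0, 0, 0, 0, 0, -1, 0], 0),
    (false, [0, 0, 0, 0, 0, 0, 1, 1, 1, 0, 0, 0, 0, 0, 0, 0, 0, 0, 0, 0, 0, 0, 0, -2], 1),
    (false, [0, 0, 0, 0, 0, 0, 0, 0, 0, 1, 1, 1, 1, 1, 0, 0, 0, 0, 0, 0, 0, 0, -1, -1], 0),
    (false, [0, 0, 0, 0, 0, 0, 0, 0, 0, 0, 0, 0, 0, 0, 1, 1, 1, 1, 1, 0, 0, 0, 0, 0], 1),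
    (false, [0, 1, 2, 0, 1, 2, 0, 1, 2, 2, 1, 0, 1, 2, 2, 1, 0, 1, 2, 0, 1, 2, -4, -4], 2),
    (false, [2, 1, 0, 2, 1, 0, 2, 1, 0, 2, 1, 0, 1, 2, 2, 1, 0, 1, 2, 0, 1, 2, -4, -4], 2),
    (true, [0, 0, 0, 0, 0, 0, 0, 0, 0, 0, 0, 0, 0, 0, 0, 0, 0, 0, 0, 1, 1, 1, 0, 0], 0),
    (true, [0, 0, 0, 0, 0, 0, 0, 0, 0, 0, 0, 0, 0, 0, 0, 0, 0, 0, 0, -1, -1, -1, 0, 0], 0),
    (true, [4, 1, 0, 0, 1, 4, 1, 0, 1, 16, 9, 4, 1, 0, 9, 4, 1, 0, 1, 0, 1, 4, 0, 0], 1),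
    (true, [0, 0, 0, 0, 0, 0, 0, 0, 0, 0, 0, 0, 0, 0, 0, 0, 0, 0, 0, 0, 0, 0, 1, 0], 1),
    (true, [0, 0, 0, 0, 0, 0, 0, 0, 0, 0, 0, 0, 0, 0, 0, 0, 0, 0, 0, 0, 0, 0, 0, 1], 0)]

def EC4_0_0_0_tree : Tree :=
  (.br 3 0
  (.br 6 0
   (.br 8 0
    (.br 7 0
     (.fk [(2, 1), (7, 1), (8, 1), (11, 1)])
     (.br 18 0
      (.br 13 0
       (.br 12 0
        (.br 17 0
         (.br 4 0
          (.br 5 0
           (.fk [(1, 3), (2, 1), (3, -2), (4, -1), (6, -1), (8, 1), (10, 1), (12, 1)])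
           (.br 15 0
            (.br 14 0
             (.fk [(0, -2), (1, -2), (2, -2), (3, -4), (5, 1), (6, 1), (8, 4)])
             (.mv 24))
            (.mv 15)))
          (.br 15 0
           (.br 14 0
            (.fk [(0, -2), (1, -2), (2, -2), (3, -4), (5, 1), (6, 1), (8, 4)])
            (.mv 28))
           (.mv 27)))
         (.mv 14))
        (.mv 12))
       (.mv 13))
      (.mv 30)))
    (.br 18 0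
     (.br 14 0
      (.br 15 0
       (.br 4 0
        (.fk [(0, -2), (1, 2), (5, -1), (6, 1), (8, 1)])
        (.br 17 0
         (.fk [(0, -2), (1, -2), (2, -2), (3, -4), (5, 1), (6, 1), (8, 4)])
         (.mv 25)))
       (.mv 29))
      (.mv 31))
     (.mv 32)))
   (.br 11 0
    (.br 10 0
     (.br 16 0
      (.br 15 0
       (.br 19 0
        (.br 17 0
         (.br 20 0
          (.br 18 0
           (.br 12 0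
            (.fk [(0, 2), (1, 2), (2, 2), (3, 4), (4, 4), (5, -1), (6, -1), (8, 2)])
            (.br 2 0
             (.br 1 0
              (.br 4 0
               (.br 7 0
                (.br 5 0
                 (.fk [(0, -1), (1, 2), (8, 1), (10, 1)])
                 (.br 14 0
                  (.fk [(0, -2), (1, -2), (2, -2), (3, -4), (4, 4), (5, 1), (6, 1), (8, 4)])
                  (.mv 24)))
                (.mv 12))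
               (.br 14 0
                (.fk [(0, -2), (1, -2), (2, -2), (3, -4), (4, 4), (5, 1), (6, 1), (8, 4)])
                (.mv 28)))
              (.mv 21))
             (.mv 11)))
           (.br 2 0
            (.br 8 0
             (.br 1 0
              (.fk [(0, 2), (1, -2), (4, -2), (5, 1), (6, -1), (8, 2)])
              (.br 12 0
               (.fk [(0, 2), (1, 2), (2, 2), (3, 4), (4, 2), (5, -1), (6, -1), (8, 2)])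
               (.mv 21)))
             (.mv 32))
            (.mv 8)))
          (.mv 7))
         (.mv 6))
        (.mv 1))
       (.mv 4))
      (.mv 5))
     (.mv 2))
    (.mv 3)))
  (.mv 0))

def EC4_0_0_0 : Inst where
  rows :=
   [(false, [1, 1, 1, 0, 0, 0, 0, 0, 0, 0, 0, 0, 0, 0, 0, 0, 0, 0, 0, 0, 0, 0, -1, 0], 0),
    (false, [0, 0, 0, 1, 1, 1, 0, 0, 0, 0, 0, 0, 0, 0, 0, 0, 0, 0, 0, 0, 0, 0, -1, 0], 0),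
    (false, [0, 0, 0, 0, 0, 0, 1, 1, 1, 0, 0, 0, 0, 0, 0, 0, 0, 0, 0, 0, 0, 0, 0, -2], 1),
    (false, [0, 0, 0, 0, 0, 0, 0, 0, 0, 1, 1, 1, 1, 1, 0, 0, 0, 0, 0, 0, 0, 0, -1, -1], 0),
    (false, [0, 0, 0, 0, 0, 0, 0, 0, 0, 0, 0, 0, 0, 0, 1, 1, 1, 1, 1, 0, 0, 0, 0, 0], 1),
    (false, [0, 1, 2, 0, 1, 2, 0, 1, 2, 2, 1, 0, 1, 2, 2, 1, 0, 1, 2, 0, 1, 2, -4, -4], 2),
    (false, [2, 1, 0, 2, 1, 0, 2, 1, 0, 2, 1, 0, 1, 2, 2, 1, 0, 1, 2, 0, 1, 2, -4, -4], 2),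
    (true, [0, 0, 0, 0, 0, 0, 0, 0, 0, 0, 0, 0, 0, 0, 0, 0, 0, 0, 0, 1, 1, 1, 0, 0], 0),
    (true, [0, 0, 0, 0, 0, 0, 0, 0, 0, 0, 0, 0, 0, 0, 0, 0, 0, 0, 0, -1, -1, -1, 0, 0], 0),
    (true, [4, 1, 0, 0, 1, 4, 1, 0, 1, 16, 9, 4, 1, 0, 9, 4, 1, 0, 1, 0, 1, 4, 0, 0], 1),
    (true, [0, 0, 0, 0, 0, 0, 0, 0, 0, 0, 0, 0, 0, 0, 0, 0, 0, 0, 0, 0, 0, 0, 1, 0], 1),
    (true, [0, 0, 0, 0, 0, 0, 0, 0, 0, 0, 0, 0, 0, 0, 0, 0, 0, 0, 0, 0, 0, 0, 0, 1], 0),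
    (true, [2, 1, 0, 0, 1, 2, 1, 0, 1, 4, 3, 2, 1, 0, 3, 2, 1, 0, 1, 0, 1, 2, -4, -4], 3)]
  moves := EC4_moves0
  reqs := EC4_reqs0
  tree := EC4_0_0_0_tree

theorem EC4_0_0_0_ok : EC4.instOK 0 0 0 EC4_0_0_0 = true := by
  decide +kernel

def EC4_0_1_0_tree : Tree :=
  (.br 3 0
  (.br 18 0
   (.br 1 0
    (.br 2 0
     (.br 4 0
      (.br 5 0
       (.fk [(1, 1), (7, 1), (8, 1), (10, 1)])
       (.br 14 0
        (.br 7 0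
         (.br 0 0
          (.fk [(0, 6), (1, -6), (2, -2), (3, -4), (4, -2), (5, 1), (6, 1), (8, 4), (10, 4)])
          (.br 17 0
           (.br 15 0
            (.fk [(0, -2), (1, -2), (2, -2), (3, -4), (5, 1), (6, 1), (8, 4)])
            (.mv 15))
           (.mv 33)))
         (.br 13 0
          (.fk [(1, -6), (2, -3), (3, -2), (4, -3), (5, 2), (6, 1), (8, 4), (12, 1)])
          (.mv 13)))
        (.mv 24)))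
      (.br 14 0
       (.br 17 0
        (.br 15 0
         (.fk [(0, -2), (1, -2), (2, -2), (3, -4), (5, 1), (6, 1), (8, 4)])
         (.mv 27))
        (.mv 25))
       (.mv 28)))
     (.br 13 0
      (.fk [(0, -4), (1, -2), (2, -3), (3, -2), (4, -3), (5, 1), (6, 2), (8, 4), (12, 1)])
      (.mv 10)))
    (.br 16 0
     (.br 11 0
      (.br 10 0
       (.br 12 0
        (.br 15 0
         (.br 4 0
          (.br 6 0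
           (.fk [(0, -2), (1, 4), (2, 1), (3, 2), (4, 1), (5, -2), (6, 1), (7, 1), (8, 1)])
           (.br 17 0
            (.fk [(0, 2), (1, 2), (2, 2), (3, 4), (4, 4), (5, -1), (6, -1), (7, 4), (8, 4)])
            (.mv 6)))
          (.br 17 0
           (.fk [(0, 2), (1, 2), (2, 2), (3, 4), (4, 4), (5, -1), (6, -1), (7, 4), (8, 4)])
           (.mv 25)))
         (.mv 22))
        (.mv 21))
       (.mv 19))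
      (.mv 20))
     (.mv 23)))
   (.br 2 0
    (.br 8 0
     (.br 7 0
      (.br 6 0
       (.fk [(2, 1), (4, -1), (7, 1), (8, 1)])
       (.br 11 0
        (.br 1 0
         (.fk [(0, 10), (1, -2), (2, 4), (4, -2), (5, 3), (6, -3), (7, 4), (8, 4), (12, 2)])
         (.br 12 0
          (.br 10 0
           (.fk [(0, 2), (1, 2), (2, 2), (3, 4), (5, -1), (6, -1), (7, 4), (8, 4)])
           (.mv 2))
          (.mv 21)))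
        (.mv 3)))
      (.mv 30))
     (.mv 32))
    (.mv 8)))
  (.mv 0))

def EC4_0_1_0 : Inst where
  rows :=
   [(false, [1, 1, 1, 0, 0, 0, 0, 0, 0, 0, 0, 0, 0, 0, 0, 0, 0, 0, 0, 0, 0, 0, -1, 0], 0),
    (false, [0, 0, 0, 1, 1, 1, 0, 0, 0, 0, 0, 0, 0, 0, 0, 0, 0, 0, 0, 0, 0, 0, -1, 0], 0),
    (false, [0, 0, 0, 0, 0, 0, 1, 1, 1, 0, 0, 0, 0, 0, 0, 0, 0, 0, 0, 0, 0, 0, 0, -2], 1),
    (false, [0, 0, 0, 0, 0, 0, 0, 0, 0, 1, 1, 1, 1, 1, 0, 0, 0, 0, 0, 0, 0, 0, -1, -1], 0),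
    (false, [0, 0, 0, 0, 0, 0, 0, 0, 0, 0, 0, 0, 0, 0, 1, 1, 1, 1, 1, 0, 0, 0, 0, 0], 1),
    (false, [0, 1, 2, 0, 1, 2, 0, 1, 2, 2, 1, 0, 1, 2, 2, 1, 0, 1, 2, 0, 1, 2, -4, -4], 2),
    (false, [2, 1, 0, 2, 1, 0, 2, 1, 0, 2, 1, 0, 1, 2, 2, 1, 0, 1, 2, 0, 1, 2, -4, -4], 2),
    (true, [0, 0, 0, 0, 0, 0, 0, 0, 0, 0, 0, 0, 0, 0, 0, 0, 0, 0, 0, 1, 1, 1, 0, 0], 0),
    (true, [0, 0, 0, 0, 0, 0, 0, 0, 0, 0, 0, 0, 0, 0, 0, 0, 0, 0, 0, -1, -1, -1, 0, 0], 0),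
    (true, [4, 1, 0, 0, 1, 4, 1, 0, 1, 16, 9, 4, 1, 0, 9, 4, 1, 0, 1, 0, 1, 4, 0, 0], 1),
    (true, [0, 0, 0, 0, 0, 0, 0, 0, 0, 0, 0, 0, 0, 0, 0, 0, 0, 0, 0, 0, 0, 0, 1, 0], 1),
    (true, [0, 0, 0, 0, 0, 0, 0, 0, 0, 0, 0, 0, 0, 0, 0, 0, 0, 0, 0, 0, 0, 0, 0, 1], 0),
    (true, [-2, -1, 0, 0, -1, -2, -1, 0, -1, -4, -3, -2, -1, 0, -3, -2, -1, 0, -1, 0, -1, -2, 4, 4], -1)]
  moves := EC4_moves0
  reqs := EC4_reqs0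
  tree := EC4_0_1_0_tree

theorem EC4_0_1_0_ok : EC4.instOK 0 1 0 EC4_0_1_0 = true := by
  decide +kernel

def EC4_0_2_0_tree : Tree :=
  (.br 3 0
  (.br 2 0
   (.br 4 0
    (.br 6 0
     (.br 7 0
      (.fk [(0, -2), (1, 6), (2, 4), (3, -4), (4, -2), (5, -1), (6, 3), (7, 4), (8, 4), (11, 4), (12, -2), (13, 4)])
      (.br 13 0
       (.br 12 0
        (.fk [(1, 2), (2, -1), (3, 2), (4, -1), (6, 1), (7, 4), (8, 4), (10, 4), (12, -1)])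
        (.mv 12))
       (.mv 13)))
     (.br 16 0
      (.br 10 0
       (.br 11 0
        (.br 7 0
         (.br 5 0
          (.fk [(1, 1), (8, 1), (10, 1)])
          (.br 14 0
           (.br 17 0
            (.br 8 0
             (.br 1 0
              (.fk [(0, 18), (1, -22), (2, 8), (3, -12), (4, -10), (5, 13), (6, -7), (8, 8), (11, 8), (12, -2), (13, 8)])
              (.br 12 0
               (.br 15 0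
                (.fk [(0, 2), (1, 2), (2, 2), (3, 4), (4, 4), (5, -1), (6, -1), (8, 2)])
                (.mv 4))
               (.mv 21)))
             (.br 18 0
              (.br 15 0
               (.fk [(0, -2), (1, -2), (2, -2), (3, -4), (4, 4), (5, 1), (6, 1), (8, 4)])
               (.mv 4))
              (.mv 32)))
            (.mv 6))
           (.mv 24)))
         (.br 12 0
          (.br 17 0
           (.br 15 0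
            (.fk [(0, 2), (1, 2), (2, 2), (3, 4), (4, 4), (5, -1), (6, -1), (7, 2), (8, 2)])
            (.mv 4))
           (.mv 6))
          (.mv 12)))
        (.mv 3))
       (.mv 2))
      (.mv 5)))
    (.br 6 0
     (.br 16 0
      (.br 7 0
       (.br 0 0
        (.fk [(0, -1), (1, -1), (2, 2), (3, -2), (4, -2), (5, -1), (6, 2), (8, 2), (11, 2)])
        (.br 10 0
         (.br 14 0
          (.br 17 0
           (.br 11 0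
            (.br 1 0
             (.br 8 0
              (.fk [(0, 4), (1, -6), (2, 4), (3, -6), (4, -5), (5, 4), (6, -1), (8, 4), (11, 4), (12, -1), (13, 4)])
              (.br 18 0
               (.br 15 0
                (.fk [(0, -2), (1, -2), (2, -2), (3, -4), (4, 4), (5, 1), (6, 1), (8, 4)])
                (.mv 16))
               (.mv 32)))
             (.br 12 0
              (.br 15 0
               (.fk [(0, 2), (1, 2), (2, 2), (3, 4), (4, 4), (5, -1), (6, -1), (8, 2)])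
               (.mv 16))
              (.mv 21)))
            (.mv 17))
           (.mv 25))
          (.mv 28))
         (.mv 18)))
       (.br 18 0
        (.br 14 0
         (.br 17 0
          (.br 13 0
           (.fk [(0, -2), (1, -4), (2, -3), (3, -2), (4, -1), (5, 2), (6, 1), (8, 4), (12, -1)])
           (.mv 13))
          (.mv 14))
         (.mv 28))
        (.mv 30)))
      (.mv 26))
     (.br 16 0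
      (.br 11 0
       (.br 7 0
        (.br 10 0
         (.br 14 0
          (.br 17 0
           (.br 8 0
            (.br 1 0
             (.fk [(0, 18), (1, -12), (2, 8), (3, -2), (5, 8), (6, -7), (7, 8), (8, 8), (12, -2), (13, 8)])
             (.br 12 0
              (.br 15 0
               (.fk [(0, 2), (1, 2), (2, 2), (3, 4), (4, 4), (5, -1), (6, -1), (7, 2), (8, 2)])
               (.mv 4))
              (.mv 21)))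
            (.br 18 0
             (.br 15 0
              (.fk [(0, -2), (1, -2), (2, -2), (3, -4), (4, 4), (5, 1), (6, 1), (8, 4)])
              (.mv 4))
             (.mv 32)))
           (.mv 6))
          (.mv 28))
         (.mv 2))
        (.br 12 0
         (.br 15 0
          (.br 10 0
           (.br 17 0
            (.fk [(0, 2), (1, 2), (2, 2), (3, 4), (4, 4), (5, -1), (6, -1), (7, 2), (8, 2)])
            (.mv 6))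
           (.mv 2))
          (.mv 4))
         (.mv 12)))
       (.mv 3))
      (.mv 5))))
   (.br 18 0
    (.br 13 0
     (.br 12 0
      (.br 17 0
       (.fk [(0, -1), (2, -1), (3, 2), (4, 1), (6, 1), (7, 1), (8, 1), (10, 1), (12, -1)])
       (.mv 9))
      (.mv 11))
     (.mv 10))
    (.mv 8)))
  (.mv 0))

def EC4_0_2_0 : Inst where
  rows :=
   [(false, [1, 1, 1, 0, 0, 0, 0, 0, 0, 0, 0, 0, 0, 0, 0, 0, 0, 0, 0, 0, 0, 0, -1, 0], 0),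
    (false, [0, 0, 0, 1, 1, 1, 0, 0, 0, 0, 0, 0, 0, 0, 0, 0, 0, 0, 0, 0, 0, 0, -1, 0], 0),
    (false, [0, 0, 0, 0, 0, 0, 1, 1, 1, 0, 0, 0, 0, 0, 0, 0, 0, 0, 0, 0, 0, 0, 0, -2], 1),
    (false, [0, 0, 0, 0, 0, 0, 0, 0, 0, 1, 1, 1, 1, 1, 0, 0, 0, 0, 0, 0, 0, 0, -1, -1], 0),
    (false, [0, 0, 0, 0, 0, 0, 0, 0, 0, 0, 0, 0, 0, 0, 1, 1, 1, 1, 1, 0, 0, 0, 0, 0], 1),
    (false, [0, 1, 2, 0, 1, 2, 0, 1, 2, 2, 1, 0, 1, 2, 2, 1, 0, 1, 2, 0, 1, 2, -4, -4], 2),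
    (false, [2, 1, 0, 2, 1, 0, 2, 1, 0, 2, 1, 0, 1, 2, 2, 1, 0, 1, 2, 0, 1, 2, -4, -4], 2),
    (true, [0, 0, 0, 0, 0, 0, 0, 0, 0, 0, 0, 0, 0, 0, 0, 0, 0, 0, 0, 1, 1, 1, 0, 0], 0),
    (true, [0, 0, 0, 0, 0, 0, 0, 0, 0, 0, 0, 0, 0, 0, 0, 0, 0, 0, 0, -1, -1, -1, 0, 0], 0),
    (true, [4, 1, 0, 0, 1, 4, 1, 0, 1, 16, 9, 4, 1, 0, 9, 4, 1, 0, 1, 0, 1, 4, 0, 0], 1),
    (true, [0, 0, 0, 0, 0, 0, 0, 0, 0, 0, 0, 0, 0, 0, 0, 0, 0, 0, 0, 0, 0, 0, 1, 0], 1),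
    (true, [0, 0, 0, 0, 0, 0, 0, 0, 0, 0, 0, 0, 0, 0, 0, 0, 0, 0, 0, 0, 0, 0, 0, 1], 0),
    (false, [2, 1, 0, 0, 1, 2, 1, 0, 1, 4, 3, 2, 1, 0, 3, 2, 1, 0, 1, 0, 1, 2, -4, -4], 2),
    (true, [0, 0, 0, 0, 0, 0, 0, 0, 0, 1, 1, 0, 0, 0, 1, 0, 0, 0, 0, 0, 0, 0, 0, 0], 1)]
  moves := EC4_moves0
  reqs := EC4_reqs0
  tree := EC4_0_2_0_tree

theorem EC4_0_2_0_ok : EC4.instOK 0 2 0 EC4_0_2_0 = true := by
  decide +kernel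

theorem EC4_ok0 : ∀ b ∈ EC4.branches, ∃ I : Inst, EC4.instOK 0 b.1 b.2 I = true := by
  intro b hb
  have h : b = (0, 0) ∨ b = (1, 0) ∨ b = (2, 0) := by
    have hb2 : b ∈ [(0, 0), (1, 0), (2, 0)] := hb
    simpa using hb2
  rcases h with rfl | rfl | rfl
  · exact ⟨EC4_0_0_0, EC4_0_0_0_ok⟩
  · exact ⟨EC4_0_1_0, EC4_0_1_0_ok⟩
  · exact ⟨EC4_0_2_0, EC4_0_2_0_ok⟩

end Pool.Agent.helper1.CAD
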