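import Pool.Agent.helper1.CAD.Sound

namespace Pool.Agent.helper1.CAD

set_option maxRecDepth 100000

def EC5 : Spec where
  K := .C
  tys := [(1, -1, [2], 0), (1, 0, [0], 1), (1, 2, [0], 1), (2, 2, [1], 0)]
  kc := ([2], 1)
  pmin := [1]
  sl := (0, 0)
  good := false
  pv := 0
  px := 0
  pvx := 0

def EC5_moves0 : List Move :=
   [([((1, -1, 1), 2), ((1, 2, 1), -1)], 0),
    ([((1, -1, -1), 0), ((1, 0, -2), -1)], 0),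
    ([((1, 0, 2), 1), ((2, 2, 2), 1)], 0),
    ([((1, 0, 2), 2), ((1, 2, 2), 0)], 0),
    ([((1, 0, -2), -1), ((1, 2, 2), 1)], 0),
    ([((1, -1, 1), 0), ((0, 0, 1), -1)], 0),
    ([((1, -1, 1), 0), ((0, 0, 0), -1)], 0),
    ([((1, -1, 1), 2), ((2, 2, 2), 1)], 0),
    ([((1, 0, 2), 1), ((1, 2, 1), -1)], 0),
    ([((1, -1, 1), 0), ((1, 0, 1), -1)], 0),
    ([((1, -1, 1), 0), ((1, 0, 0), -1)], 0),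
    ([((1, -1, 0), 2), ((1, 2, 0), -1)], 0),
    ([((1, 0, 1), -1), ((1, 2, 1), 1)], 0),
    ([((1, 0, 1), -1), ((1, 2, 0), 1)], 0),
    ([((1, 0, 0), -1), ((1, 2, 0), 1)], 0),
    ([((1, -1, -2), 0), ((1, 0, -1), -1)], 0),
    ([((1, 2, 0), 1), ((0, 0, 1), -1)], 0),
    ([((1, -1, -2), 0), ((1, 0, -2), -1)], 0),
    ([((1, 2, 0), 1), ((0, 0, 0), -1)], 0),
    ([((1, 0, -1), 1), ((2, 2, 1), 1)], 0),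
    ([((1, 0, -1), -1), ((1, 2, 2), 1)], 0),
    ([((1, 0, -1), 1), ((1, 2, 0), -1)], 0),
    ([((1, -1, -1), 1), ((1, 0, 2), 2), ((2, 2, 1), 0)], 0)]

def EC5_reqs0 : List (List ℤ) :=
   [[0, 0, 0, 1, 0, 0, 0, 0, 0, 0, 1, 0, 0, 0, 0, 0, 0, 0, 0],
    [0, 1, 0, 0, 1, 0, 0, 0, 0, 0, 0, 0, 0, 0, 0, 0, 0, 0, 0],
    [0, 0, 0, 0, 0, 0, 0, 0, 1, 0, 0, 0, 0, 0, 1, 0, 0, 0, 0],
    [0, 0, 0, 0, 0, 0, 0, 0, 1, 0, 0, 1, 0, 0, 0, 0, 0, 0, 0],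
    [0, 0, 0, 0, 1, 0, 0, 0, 0, 0, 0, 1, 0, 0, 0, 0, 0, 0, 0],
    [0, 0, 0, 1, 0, 0, 0, 0, 0, 0, 0, 0, 0, 0, 0, 0, 1, 0, 0],
    [0, 0, 0, 1, 0, 0, 0, 0, 0, 0, 0, 0, 0, 0, 0, 1, 0, 0, 0],
    [0, 0, 0, 1, 0, 0, 0, 0, 0, 0, 0, 0, 0, 0, 1, 0, 0, 0, 0],
    [0, 0, 0, 0, 0, 0, 0, 0, 1, 0, 1, 0, 0, 0, 0, 0, 0, 0, 0],
    [0, 0, 0, 1, 0, 0, 0, 1, 0, 0, 0, 0, 0, 0, 0, 0, 0, 0, 0],
    [0, 0, 0, 1, 0, 0, 1, 0, 0, 0, 0, 0, 0, 0, 0, 0, 0, 0, 0],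
    [0, 0, 1, 0, 0, 0, 0, 0, 0, 1, 0, 0, 0, 0, 0, 0, 0, 0, 0],
    [0, 0, 0, 0, 0, 0, 0, 1, 0, 0, 1, 0, 0, 0, 0, 0, 0, 0, 0],
    [0, 0, 0, 0, 0, 0, 0, 1, 0, 1, 0, 0, 0, 0, 0, 0, 0, 0, 0],
    [0, 0, 0, 0, 0, 0, 1, 0, 0, 1, 0, 0, 0, 0, 0, 0, 0, 0, 0],
    [1, 0, 0, 0, 0, 1, 0, 0, 0, 0, 0, 0, 0, 0, 0, 0, 0, 0, 0],
    [0, 0, 0, 0, 0, 0, 0, 0, 0, 1, 0, 0, 0, 0, 0, 0, 1, 0, 0],
    [1, 0, 0, 0, 1, 0, 0, 0, 0, 0, 0, 0, 0, 0, 0, 0, 0, 0, 0],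
    [0, 0, 0, 0, 0, 0, 0, 0, 0, 1, 0, 0, 0, 0, 0, 1, 0, 0, 0],
    [0, 0, 0, 0, 0, 1, 0, 0, 0, 0, 0, 0, 0, 1, 0, 0, 0, 0, 0],
    [0, 0, 0, 0, 0, 1, 0, 0, 0, 0, 0, 1, 0, 0, 0, 0, 0, 0, 0],
    [0, 0, 0, 0, 0, 1, 0, 0, 0, 1, 0, 0, 0, 0, 0, 0, 0, 0, 0],
    [0, 1, 0, 0, 0, 0, 0, 0, 1, 0, 0, 0, 0, 1, 0, 0, 0, 0, 0]]

def EC5_base0 : List Row :=
   [(false, [1, 1, 1, 1, 0, 0, 0, 0, 0, 0, 0, 0, 0, 0, 0, 0, 0, 0, -2], 0),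
    (false, [0, 0, 0, 0, 1, 1, 1, 1, 1, 0, 0, 0, 0, 0, 0, 0, 0, 0, 0], 1),
    (false, [0, 0, 0, 0, 0, 0, 0, 0, 0, 1, 1, 1, 0, 0, 0, 0, 0, 0, 0], 1),
    (false, [0, 0, 0, 0, 0, 0, 0, 0, 0, 0, 0, 0, 1, 1, 1, 0, 0, 0, -1], 0),
    (false, [2, 1, 0, 1, 2, 1, 0, 1, 2, 0, 1, 2, 0, 1, 2, 0, 1, 2, -4], 2),
    (false, [1, 0, 1, 2, 2, 1, 0, 1, 2, 2, 1, 0, 2, 1, 0, 0, 1, 2, -4], 2),
    (true, [0, 0, 0, 0, 0, 0, 0, 0, 0, 0, 0, 0, 0, 0, 0, 1, 1, 1, 0], 0),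
    (true, [0, 0, 0, 0, 0, 0, 0, 0, 0, 0, 0, 0, 0, 0, 0, -1, -1, -1, 0], 0),
    (true, [9, 4, 1, 0, 9, 4, 1, 0, 1, 1, 0, 1, 4, 1, 0, 0, 1, 4, 0], 1),
    (true, [0, 0, 0, 0, 0, 0, 0, 0, 0, 0, 0, 0, 0, 0, 0, 0, 0, 0, 1], 1)]

def EC5_0_0_0_tree : Tree :=
  (.br 9 0
  (.br 10 0
   (.br 8 0
    (.br 11 0
     (.fk [(0, -3), (1, -4), (2, 4), (3, -2), (4, 1), (5, 1), (7, 4)])
     (.br 4 0
      (.br 5 0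
       (.br 3 0
        (.fk [(0, -1), (1, -1), (2, -2), (3, -2), (5, 1), (7, 2)])
        (.br 7 0
         (.fk [(0, -3), (2, -6), (3, -2), (4, 1), (5, 1), (7, 4)])
         (.mv 9)))
       (.mv 20))
      (.mv 4)))
    (.br 11 0
     (.fk [(1, -1), (2, 1), (6, 1), (7, 1)])
     (.mv 3)))
   (.br 8 0
    (.br 3 0
     (.br 0 0
      (.fk [(0, -1), (1, -4), (2, -6), (3, -2), (4, 1), (5, 1), (7, 4), (9, 4)])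
      (.br 4 0
       (.br 7 0
        (.br 5 0
         (.fk [(0, -3), (2, -6), (3, -2), (4, 1), (5, 1), (7, 4)])
         (.mv 15))
        (.mv 12))
       (.mv 17)))
     (.mv 0))
    (.mv 8)))
  (.br 2 0
   (.br 6 0
    (.br 7 0
     (.br 16 0
      (.br 15 0
       (.br 5 0
        (.br 8 0
         (.br 1 0
          (.fk [(0, 3), (1, 4), (2, -2), (3, 2), (4, -1), (5, -1), (7, 4)])
          (.br 4 0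
           (.fk [(0, -3), (1, 4), (2, -6), (3, -2), (4, 1), (5, 1), (7, 4)])
           (.mv 1)))
         (.br 14 0
          (.br 1 0
           (.fk [(0, 3), (1, 2), (3, 2), (4, -1), (5, -1), (7, 2)])
           (.br 13 0
            (.fk [(0, -1), (1, -4), (2, -2), (3, 2), (4, 1), (5, -1), (7, 4)])
            (.mv 22)))
          (.mv 2)))
        (.mv 21))
       (.mv 18))
      (.mv 16))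
     (.mv 13))
    (.mv 14))
   (.mv 11)))

def EC5_0_0_0 : Inst where
  rows :=
   [(false, [1, 1, 1, 1, 0, 0, 0, 0, 0, 0, 0, 0, 0, 0, 0, 0, 0, 0, -2], 0),
    (false, [0, 0, 0, 0, 1, 1, 1, 1, 1, 0, 0, 0, 0, 0, 0, 0, 0, 0, 0], 1),
    (false, [0, 0, 0, 0, 0, 0, 0, 0, 0, 1, 1, 1, 0, 0, 0, 0, 0, 0, 0], 1),
    (false, [0, 0, 0, 0, 0, 0, 0, 0, 0, 0, 0, 0, 1, 1, 1, 0, 0, 0, -1], 0),
    (false, [2, 1, 0, 1, 2, 1, 0, 1, 2, 0, 1, 2, 0, 1, 2, 0, 1, 2, -4], 2),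
    (false, [1, 0, 1, 2, 2, 1, 0, 1, 2, 2, 1, 0, 2, 1, 0, 0, 1, 2, -4], 2),
    (true, [0, 0, 0, 0, 0, 0, 0, 0, 0, 0, 0, 0, 0, 0, 0, 1, 1, 1, 0], 0),
    (true, [0, 0, 0, 0, 0, 0, 0, 0, 0, 0, 0, 0, 0, 0, 0, -1, -1, -1, 0], 0),
    (true, [9, 4, 1, 0, 9, 4, 1, 0, 1, 1, 0, 1, 4, 1, 0, 0, 1, 4, 0], 1),
    (true, [0, 0, 0, 0, 0, 0, 0, 0, 0, 0, 0, 0, 0, 0, 0, 0, 0, 0, 1], 1),
    (true, [3, 2, 1, 0, 3, 2, 1, 0, 1, 1, 0, 1, 2, 1, 0, 0, 1, 2, -4], 3)]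
  moves := EC5_moves0
  reqs := EC5_reqs0
  tree := EC5_0_0_0_tree

theorem EC5_0_0_0_ok : EC5.instOK 0 0 0 EC5_0_0_0 = true := by
  decide +kernel

def EC5_0_1_0_tree : Tree :=
  (.br 3 0
  (.fk [(0, -1), (1, -5), (2, -3), (3, -2), (4, 1), (5, 2), (7, 4), (9, 4), (10, 1)])
  (.br 6 0
   (.br 7 0
    (.br 8 0
     (.br 14 0
      (.br 10 0
       (.br 16 0
        (.br 15 0
         (.br 13 0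
          (.fk [(0, -2), (1, 6), (2, -7), (3, 14), (4, 6), (5, -2), (7, 6), (9, 6), (10, 5)])
          (.br 5 0
           (.br 1 0
            (.fk [(0, 3), (1, 5), (2, -1), (3, 2), (4, 1), (5, -2), (7, 5), (10, 1)])
            (.br 4 0
             (.fk [(0, -3), (1, 4), (2, -2), (3, -2), (4, 1), (5, 1), (7, 4)])
             (.mv 1)))
           (.mv 19)))
         (.mv 6))
        (.mv 5))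
       (.mv 0))
      (.mv 7))
     (.br 11 0
      (.br 14 0
       (.br 10 0
        (.fk [(0, -3), (1, -10), (2, 4), (3, -2), (4, 5), (5, -1), (7, 4), (10, 2)])
        (.mv 0))
       (.mv 2))
      (.mv 3)))
    (.mv 9))
   (.mv 10)))

def EC5_0_1_0 : Inst where
  rows :=
   [(false, [1, 1, 1, 1, 0, 0, 0, 0, 0, 0, 0, 0, 0, 0, 0, 0, 0, 0, -2], 0),
    (false, [0, 0, 0, 0, 1, 1, 1, 1, 1, 0, 0, 0, 0, 0, 0, 0, 0, 0, 0], 1),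
    (false, [0, 0, 0, 0, 0, 0, 0, 0, 0, 1, 1, 1, 0, 0, 0, 0, 0, 0, 0], 1),
    (false, [0, 0, 0, 0, 0, 0, 0, 0, 0, 0, 0, 0, 1, 1, 1, 0, 0, 0, -1], 0),
    (false, [2, 1, 0, 1, 2, 1, 0, 1, 2, 0, 1, 2, 0, 1, 2, 0, 1, 2, -4], 2),
    (false, [1, 0, 1, 2, 2, 1, 0, 1, 2, 2, 1, 0, 2, 1, 0, 0, 1, 2, -4], 2),
    (true, [0, 0, 0, 0, 0, 0, 0, 0, 0, 0, 0, 0, 0, 0, 0, 1, 1, 1, 0], 0),
    (true, [0, 0, 0, 0, 0, 0, 0, 0, 0, 0, 0, 0, 0, 0, 0, -1, -1, -1, 0], 0),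
    (true, [9, 4, 1, 0, 9, 4, 1, 0, 1, 1, 0, 1, 4, 1, 0, 0, 1, 4, 0], 1),
    (true, [0, 0, 0, 0, 0, 0, 0, 0, 0, 0, 0, 0, 0, 0, 0, 0, 0, 0, 1], 1),
    (true, [-3, -2, -1, 0, -3, -2, -1, 0, -1, -1, 0, -1, -2, -1, 0, 0, -1, -2, 4], -1)]
  moves := EC5_moves0
  reqs := EC5_reqs0
  tree := EC5_0_1_0_tree

theorem EC5_0_1_0_ok : EC5.instOK 0 1 0 EC5_0_1_0 = true := by
  decide +kernel

def EC5_0_2_0_tree : Tree :=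
  (.br 11 0
  (.br 14 0
   (.br 3 0
    (.br 8 0
     (.fk [(0, -1), (1, -5), (2, -5), (3, -2), (4, 1), (5, 4), (7, 4), (9, 4), (10, -3), (11, 4)])
     (.br 10 0
      (.fk [(0, 11), (1, -14), (2, 10), (3, 4), (4, 7), (5, 1), (6, 10), (7, 10), (9, 10), (10, -12), (11, 10)])
      (.mv 8)))
    (.br 10 0
     (.fk [(1, -1), (2, 3), (4, 2), (5, -1), (6, 3), (7, 3), (10, -1)])
     (.mv 0)))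
   (.br 3 0
    (.br 8 0
     (.fk [(0, -1), (1, -5), (2, -5), (3, -6), (4, 1), (5, 4), (7, 4), (10, -3), (11, 4)])
     (.mv 2))
    (.mv 7)))
  (.br 8 0
   (.br 4 0
    (.br 3 0
     (.fk [(0, -1), (1, -5), (2, -5), (3, -2), (4, 1), (5, 4), (7, 4), (9, 4), (10, -3), (11, 4)])
     (.br 5 0
      (.br 7 0
       (.fk [(0, -3), (2, -6), (3, -2), (4, 1), (5, 1), (7, 4)])
       (.mv 9))
      (.mv 20)))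
    (.mv 4))
   (.mv 3)))

def EC5_0_2_0 : Inst where
  rows :=
   [(false, [1, 1, 1, 1, 0, 0, 0, 0, 0, 0, 0, 0, 0, 0, 0, 0, 0, 0, -2], 0),
    (false, [0, 0, 0, 0, 1, 1, 1, 1, 1, 0, 0, 0, 0, 0, 0, 0, 0, 0, 0], 1),
    (false, [0, 0, 0, 0, 0, 0, 0, 0, 0, 1, 1, 1, 0, 0, 0, 0, 0, 0, 0], 1),
    (false, [0, 0, 0, 0, 0, 0, 0, 0, 0, 0, 0, 0, 1, 1, 1, 0, 0, 0, -1], 0),
    (false, [2, 1, 0, 1, 2, 1, 0, 1, 2, 0, 1, 2, 0, 1, 2, 0, 1, 2, -4], 2),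
    (false, [1, 0, 1, 2, 2, 1, 0, 1, 2, 2, 1, 0, 2, 1, 0, 0, 1, 2, -4], 2),
    (true, [0, 0, 0, 0, 0, 0, 0, 0, 0, 0, 0, 0, 0, 0, 0, 1, 1, 1, 0], 0),
    (true, [0, 0, 0, 0, 0, 0, 0, 0, 0, 0, 0, 0, 0, 0, 0, -1, -1, -1, 0], 0),
    (true, [9, 4, 1, 0, 9, 4, 1, 0, 1, 1, 0, 1, 4, 1, 0, 0, 1, 4, 0], 1),
    (true, [0, 0, 0, 0, 0, 0, 0, 0, 0, 0, 0, 0, 0, 0, 0, 0, 0, 0, 1], 1),
    (false, [3, 2, 1, 0, 3, 2, 1, 0, 1, 1, 0, 1, 2, 1, 0, 0, 1, 2, -4], 2),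
    (true, [1, 0, 0, 0, 1, 0, 0, 0, 0, 0, 0, 0, 0, 0, 0, 0, 0, 0, 0], 1)]
  moves := EC5_moves0
  reqs := EC5_reqs0
  tree := EC5_0_2_0_tree

theorem EC5_0_2_0_ok : EC5.instOK 0 2 0 EC5_0_2_0 = true := by
  decide +kernel

theorem EC5_ok0 : ∀ b ∈ EC5.branches, ∃ I : Inst, EC5.instOK 0 b.1 b.2 I = true := by
  intro b hb
  have h : b = (0, 0) ∨ b = (1, 0) ∨ b = (2, 0) := by
    have hb2 : b ∈ [(0, 0), (1, 0), (2, 0)] := hb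
    simpa using hb2
  rcases h with rfl | rfl | rfl
  · exact ⟨EC5_0_0_0, EC5_0_0_0_ok⟩
  · exact ⟨EC5_0_1_0, EC5_0_1_0_ok⟩
  · exact ⟨EC5_0_2_0, EC5_0_2_0_ok⟩

end Pool.Agent.helper1.CAD
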