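import Pool.Agent.helper1.CAD.Sound

namespace Pool.Agent.helper1.CAD

set_option maxRecDepth 100000

def GC0 : Spec where
  K := .C
  tys := [(2, 2, [1], 0), (2, 0, [1], 0), (0, 2, [1], 0)]
  kc := ([2], 0)
  pmin := [1]
  sl := (1, -1)
  good := true
  pv := 0
  px := 0
  pvx := 0

def GC0_moves0 : List Move :=
   [([((0, 2, 0), -2)], 0),
    ([((0, 2, 1), -1), ((0, 0, 1), 1)], 0),
    ([((0, 2, 1), 1), ((0, 0, 0), -1)], 0),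
    ([((2, 2, 0), 1), ((2, 0, -1), 1)], 0),
    ([((0, 2, 1), -1), ((0, 0, 2), 1)], 0),
    ([((2, 2, 0), 0), ((2, 0, 0), 2)], 0),
    ([((0, 2, 2), 0), ((0, 0, 2), 2)], 0),
    ([((0, 2, 2), 1), ((0, 0, 1), 1)], 0),
    ([((2, 2, 0), 0), ((2, 0, 2), 2), ((0, 2, 2), 0), ((0, 0, 0), -2)], 0),
    ([((2, 2, 0), 0), ((2, 0, 1), 2), ((0, 2, 2), 1), ((0, 0, 0), -1)], 0)]

def GC0_reqs0 : List (List ℤ) :=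
   [[0, 0, 0, 0, 0, 0, 0, 0, 1, 0, 0, 0, 0, 0, 0],
    [0, 0, 0, 0, 0, 0, 0, 0, 0, 1, 0, 0, 1, 0, 0],
    [0, 0, 0, 0, 0, 0, 0, 0, 0, 1, 0, 1, 0, 0, 0],
    [1, 0, 0, 0, 1, 0, 0, 0, 0, 0, 0, 0, 0, 0, 0],
    [0, 0, 0, 0, 0, 0, 0, 0, 0, 1, 0, 0, 0, 1, 0],
    [1, 0, 0, 0, 0, 1, 0, 0, 0, 0, 0, 0, 0, 0, 0],
    [0, 0, 0, 0, 0, 0, 0, 0, 0, 0, 1, 0, 0, 1, 0],
    [0, 0, 0, 0, 0, 0, 0, 0, 0, 0, 1, 0, 1, 0, 0],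
    [1, 0, 0, 0, 0, 0, 0, 1, 0, 0, 1, 1, 0, 0, 0],
    [1, 0, 0, 0, 0, 0, 1, 0, 0, 0, 1, 1, 0, 0, 0]]

def GC0_base0 : List Row :=
   [(false, [1, 1, 1, 0, 0, 0, 0, 0, 0, 0, 0, 0, 0, 0, -1], 0),
    (false, [0, 0, 0, 1, 1, 1, 1, 1, 0, 0, 0, 0, 0, 0, -1], 0),
    (false, [0, 0, 0, 0, 0, 0, 0, 0, 1, 1, 1, 0, 0, 0, -1], 0),
    (false, [0, 1, 2, 2, 1, 0, 1, 2, 0, 1, 2, 0, 1, 2, -4], 0),
    (false, [2, 1, 0, 2, 1, 0, 1, 2, 2, 1, 0, 0, 1, 2, -4], 0),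
    (true, [0, 0, 0, 0, 0, 0, 0, 0, 0, 0, 0, 1, 1, 1, 0], 1),
    (true, [0, 1, 4, 0, 1, 4, 9, 16, 4, 1, 0, 0, 1, 4, 0], 1),
    (true, [4, 1, 0, 16, 9, 4, 1, 0, 0, 1, 4, 0, 1, 4, 0], 1),
    (true, [0, 0, 0, 0, 0, 0, 0, 0, 0, 0, 0, 0, 0, 0, 1], 1)]

def GC0_0_0_0_tree : Tree :=
  (.br 8 0
  (.br 11 0
   (.br 0 0
    (.br 9 0
     (.fk [(2, 2), (3, -1), (4, 1), (8, 2)])
     (.br 12 0
      (.br 13 0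
       (.fk [(3, -1), (4, 1), (5, 1)])
       (.mv 4))
      (.mv 1)))
    (.br 4 0
     (.br 5 0
      (.br 10 0
       (.br 9 0
        (.fk [(0, -2), (2, 4), (3, 1), (4, -1), (8, 2)])
        (.br 12 0
         (.br 13 0
          (.fk [(5, 1)])
          (.mv 4))
         (.mv 1)))
       (.br 12 0
        (.br 13 0
         (.fk [(5, 1)])
         (.mv 6))
        (.mv 7)))
      (.mv 5))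
     (.mv 3)))
   (.br 9 0
    (.br 0 0
     (.fk [(2, 2), (3, -1), (4, 1), (8, 2)])
     (.br 4 0
      (.br 5 0
       (.br 10 0
        (.fk [(0, -2), (2, 4), (3, 1), (4, -1), (8, 2)])
        (.br 7 0
         (.br 6 0
          (.fk [(1, 4), (2, 4), (3, -2), (6, 1)])
          (.mv 9))
         (.mv 8)))
       (.mv 5))
      (.mv 3)))
    (.mv 2)))
  (.mv 0))

def GC0_0_0_0 : Inst where
  rows :=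
   [(false, [1, 1, 1, 0, 0, 0, 0, 0, 0, 0, 0, 0, 0, 0, -1], 0),
    (false, [0, 0, 0, 1, 1, 1, 1, 1, 0, 0, 0, 0, 0, 0, -1], 0),
    (false, [0, 0, 0, 0, 0, 0, 0, 0, 1, 1, 1, 0, 0, 0, -1], 0),
    (false, [0, 1, 2, 2, 1, 0, 1, 2, 0, 1, 2, 0, 1, 2, -4], 0),
    (false, [2, 1, 0, 2, 1, 0, 1, 2, 2, 1, 0, 0, 1, 2, -4], 0),
    (true, [0, 0, 0, 0, 0, 0, 0, 0, 0, 0, 0, 1, 1, 1, 0], 1),
    (true, [0, 1, 4, 0, 1, 4, 9, 16, 4, 1, 0, 0, 1, 4, 0], 1),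
    (true, [4, 1, 0, 16, 9, 4, 1, 0, 0, 1, 4, 0, 1, 4, 0], 1),
    (true, [0, 0, 0, 0, 0, 0, 0, 0, 0, 0, 0, 0, 0, 0, 1], 1),
    (true, [2, 1, 0, 4, 3, 2, 1, 0, 0, 1, 2, 0, 1, 2, -4], 1)]
  moves := GC0_moves0
  reqs := GC0_reqs0
  tree := GC0_0_0_0_tree

theorem GC0_0_0_0_ok : GC0.instOK 0 0 0 GC0_0_0_0 = true := by
  decide +kernel

def GC0_0_1_0_tree : Tree :=
  (.br 8 0
  (.br 9 0
   (.fk [(1, -2), (2, 2), (4, 1), (9, 1)])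
   (.br 11 0
    (.br 12 0
     (.br 13 0
      (.fk [(0, -2), (1, -4), (2, -2), (3, 1), (4, 1), (5, 1)])
      (.mv 4))
     (.mv 1))
    (.mv 2)))
  (.mv 0))

def GC0_0_1_0 : Inst where
  rows :=
   [(false, [1, 1, 1, 0, 0, 0, 0, 0, 0, 0, 0, 0, 0, 0, -1], 0),
    (false, [0, 0, 0, 1, 1, 1, 1, 1, 0, 0, 0, 0, 0, 0, -1], 0),
    (false, [0, 0, 0, 0, 0, 0, 0, 0, 1, 1, 1, 0, 0, 0, -1], 0),
    (false, [0, 1, 2, 2, 1, 0, 1, 2, 0, 1, 2, 0, 1, 2, -4], 0),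
    (false, [2, 1, 0, 2, 1, 0, 1, 2, 2, 1, 0, 0, 1, 2, -4], 0),
    (true, [0, 0, 0, 0, 0, 0, 0, 0, 0, 0, 0, 1, 1, 1, 0], 1),
    (true, [0, 1, 4, 0, 1, 4, 9, 16, 4, 1, 0, 0, 1, 4, 0], 1),
    (true, [4, 1, 0, 16, 9, 4, 1, 0, 0, 1, 4, 0, 1, 4, 0], 1),
    (true, [0, 0, 0, 0, 0, 0, 0, 0, 0, 0, 0, 0, 0, 0, 1], 1),
    (true, [-2, -1, 0, -4, -3, -2, -1, 0, 0, -1, -2, 0, -1, -2, 4], 1)]
  moves := GC0_moves0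
  reqs := GC0_reqs0
  tree := GC0_0_1_0_tree

theorem GC0_0_1_0_ok : GC0.instOK 0 1 0 GC0_0_1_0 = true := by
  decide +kernel

def GC0_0_2_0_tree : Tree :=
  (.br 8 0
  (.br 9 0
   (.fk [(0, -2), (1, -2), (2, 4), (3, -1), (4, 2), (9, -1), (10, 4)])
   (.br 12 0
    (.br 11 0
     (.br 13 0
      (.fk [(5, 1)])
      (.mv 4))
     (.mv 2))
    (.mv 1)))
  (.mv 0))

def GC0_0_2_0 : Inst where
  rows :=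
   [(false, [1, 1, 1, 0, 0, 0, 0, 0, 0, 0, 0, 0, 0, 0, -1], 0),
    (false, [0, 0, 0, 1, 1, 1, 1, 1, 0, 0, 0, 0, 0, 0, -1], 0),
    (false, [0, 0, 0, 0, 0, 0, 0, 0, 1, 1, 1, 0, 0, 0, -1], 0),
    (false, [0, 1, 2, 2, 1, 0, 1, 2, 0, 1, 2, 0, 1, 2, -4], 0),
    (false, [2, 1, 0, 2, 1, 0, 1, 2, 2, 1, 0, 0, 1, 2, -4], 0),
    (true, [0, 0, 0, 0, 0, 0, 0, 0, 0, 0, 0, 1, 1, 1, 0], 1),
    (true, [0, 1, 4, 0, 1, 4, 9, 16, 4, 1, 0, 0, 1, 4, 0], 1),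
    (true, [4, 1, 0, 16, 9, 4, 1, 0, 0, 1, 4, 0, 1, 4, 0], 1),
    (true, [0, 0, 0, 0, 0, 0, 0, 0, 0, 0, 0, 0, 0, 0, 1], 1),
    (false, [2, 1, 0, 4, 3, 2, 1, 0, 0, 1, 2, 0, 1, 2, -4], 0),
    (true, [0, 0, 0, 1, 1, 0, 0, 0, 0, 0, 0, 0, 0, 0, 0], 1)]
  moves := GC0_moves0
  reqs := GC0_reqs0
  tree := GC0_0_2_0_tree

theorem GC0_0_2_0_ok : GC0.instOK 0 2 0 GC0_0_2_0 = true := by
  decide +kernel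

theorem GC0_ok0 : ∀ b ∈ GC0.branches, ∃ I : Inst, GC0.instOK 0 b.1 b.2 I = true := by
  intro b hb
  have h : b = (0, 0) ∨ b = (1, 0) ∨ b = (2, 0) := by
    have hb2 : b ∈ [(0, 0), (1, 0), (2, 0)] := hb
    simpa using hb2
  rcases h with rfl | rfl | rfl
  · exact ⟨GC0_0_0_0, GC0_0_0_0_ok⟩
  · exact ⟨GC0_0_1_0, GC0_0_1_0_ok⟩
  · exact ⟨GC0_0_2_0, GC0_0_2_0_ok⟩

end Pool.Agent.helper1.CAD
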