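import Pool.Agent.helper1.CAD.Sound

namespace Pool.Agent.helper1.CAD

set_option maxRecDepth 100000

def GC1 : Spec where
  K := .C
  tys := [(2, 2, [1], 0), (2, 1, [0], 1), (2, 0, [1], 0), (0, 1, [0], 1), (0, 2, [1], 0)]
  kc := ([2], 1)
  pmin := [1]
  sl := (0, -1)
  good := true
  pv := 0
  px := 0
  pvx := 0

def GC1_moves0 : List Move :=
   [([((0, 1, 0), -1)], 0),
    ([((0, 2, 0), -2)], 0),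
    ([((0, 1, -1), -2), ((0, 2, 2), 1)], 0),
    ([((0, 1, 2), 2), ((0, 2, 2), 1)], 0),
    ([((0, 1, 1), 0), ((0, 1, 2), 2)], 0),
    ([((0, 1, -1), -2), ((0, 2, 1), -1)], 0),
    ([((2, 2, 0), 1), ((2, 0, -1), 1)], 0),
    ([((0, 1, 2), 2), ((0, 2, 1), -1)], 0),
    ([((2, 2, 0), 1), ((2, 1, 0), 2)], 0),
    ([((0, 1, 1), 0), ((0, 0, 2), 1)], 0),
    ([((0, 1, 1), 0), ((0, 0, 1), 1)], 0),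
    ([((0, 1, 1), 2), ((0, 2, 1), 1)], 0),
    ([((0, 1, -1), -2), ((0, 1, 1), 0)], 0),
    ([((2, 2, 0), 0), ((2, 0, 0), 2)], 0),
    ([((2, 2, 0), 1), ((2, 1, 1), 2)], 0),
    ([((2, 2, 0), 1), ((2, 0, 2), 1), ((0, 1, 1), -1)], 0)]

def GC1_reqs0 : List (List ℤ) :=
   [[0, 0, 0, 0, 0, 0, 0, 0, 0, 0, 0, 0, 0, 1, 0, 0, 0, 0, 0, 0, 0, 0, 0],
    [0, 0, 0, 0, 0, 0, 0, 0, 0, 0, 0, 0, 0, 0, 0, 0, 1, 0, 0, 0, 0, 0, 0],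
    [0, 0, 0, 0, 0, 0, 0, 0, 0, 0, 0, 0, 1, 0, 0, 0, 0, 0, 1, 0, 0, 0, 0],
    [0, 0, 0, 0, 0, 0, 0, 0, 0, 0, 0, 0, 0, 0, 0, 1, 0, 0, 1, 0, 0, 0, 0],
    [0, 0, 0, 0, 0, 0, 0, 0, 0, 0, 0, 0, 0, 0, 1, 1, 0, 0, 0, 0, 0, 0, 0],
    [0, 0, 0, 0, 0, 0, 0, 0, 0, 0, 0, 0, 1, 0, 0, 0, 0, 1, 0, 0, 0, 0, 0],
    [1, 0, 0, 0, 0, 0, 0, 0, 1, 0, 0, 0, 0, 0, 0, 0, 0, 0, 0, 0, 0, 0, 0],
    [0, 0, 0, 0, 0, 0, 0, 0, 0, 0, 0, 0, 0, 0, 0, 1, 0, 1, 0, 0, 0, 0, 0],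
    [1, 0, 0, 0, 1, 0, 0, 0, 0, 0, 0, 0, 0, 0, 0, 0, 0, 0, 0, 0, 0, 0, 0],
    [0, 0, 0, 0, 0, 0, 0, 0, 0, 0, 0, 0, 0, 0, 1, 0, 0, 0, 0, 0, 0, 1, 0],
    [0, 0, 0, 0, 0, 0, 0, 0, 0, 0, 0, 0, 0, 0, 1, 0, 0, 0, 0, 0, 1, 0, 0],
    [0, 0, 0, 0, 0, 0, 0, 0, 0, 0, 0, 0, 0, 0, 1, 0, 0, 1, 0, 0, 0, 0, 0],
    [0, 0, 0, 0, 0, 0, 0, 0, 0, 0, 0, 0, 1, 0, 1, 0, 0, 0, 0, 0, 0, 0, 0],
    [1, 0, 0, 0, 0, 0, 0, 0, 0, 1, 0, 0, 0, 0, 0, 0, 0, 0, 0, 0, 0, 0, 0],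
    [1, 0, 0, 0, 0, 1, 0, 0, 0, 0, 0, 0, 0, 0, 0, 0, 0, 0, 0, 0, 0, 0, 0],
    [1, 0, 0, 0, 0, 0, 0, 0, 0, 0, 0, 1, 0, 0, 1, 0, 0, 0, 0, 0, 0, 0, 0]]

def GC1_base0 : List Row :=
   [(false, [1, 1, 1, 0, 0, 0, 0, 0, 0, 0, 0, 0, 0, 0, 0, 0, 0, 0, 0, 0, 0, 0, -1], 0),
    (false, [0, 0, 0, 1, 1, 1, 1, 0, 0, 0, 0, 0, 0, 0, 0, 0, 0, 0, 0, 0, 0, 0, 0], 1),
    (false, [0, 0, 0, 0, 0, 0, 0, 1, 1, 1, 1, 1, 0, 0, 0, 0, 0, 0, 0, 0, 0, 0, -1], 0),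
    (false, [0, 0, 0, 0, 0, 0, 0, 0, 0, 0, 0, 0, 1, 1, 1, 1, 0, 0, 0, 0, 0, 0, 0], 1),
    (false, [0, 0, 0, 0, 0, 0, 0, 0, 0, 0, 0, 0, 0, 0, 0, 0, 1, 1, 1, 0, 0, 0, -1], 0),
    (false, [0, 1, 2, 1, 0, 1, 2, 2, 1, 0, 1, 2, 1, 0, 1, 2, 0, 1, 2, 0, 1, 2, -4], 2),
    (false, [2, 1, 0, 2, 1, 0, 1, 2, 1, 0, 1, 2, 2, 1, 0, 1, 2, 1, 0, 0, 1, 2, -4], 2),
    (true, [0, 0, 0, 0, 0, 0, 0, 0, 0, 0, 0, 0, 0, 0, 0, 0, 0, 0, 0, 1, 1, 1, 0], 0),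
    (true, [0, 1, 4, 0, 1, 4, 9, 0, 1, 4, 9, 16, 4, 1, 0, 1, 4, 1, 0, 0, 1, 4, 0], 1),
    (true, [4, 1, 0, 9, 4, 1, 0, 16, 9, 4, 1, 0, 1, 0, 1, 4, 0, 1, 4, 0, 1, 4, 0], 1),
    (true, [0, 0, 0, 0, 0, 0, 0, 0, 0, 0, 0, 0, 0, 0, 0, 0, 0, 0, 0, 0, 0, 0, 1], 1)]

def GC1_0_0_0_tree : Tree :=
  (.br 13 0
  (.br 16 0
   (.br 14 0
    (.br 15 0
     (.br 12 0
      (.fk [(3, 1)])
      (.br 18 0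
       (.br 17 0
        (.fk [(0, -2), (1, -2), (2, -2), (3, 1), (4, 5), (5, 1), (6, -2), (10, 1), (11, 1)])
        (.mv 5))
       (.mv 2)))
     (.br 18 0
      (.br 17 0
       (.fk [(0, 4), (1, 2), (3, 3), (4, 15), (5, -2), (6, -2), (10, 3)])
       (.mv 7))
      (.mv 3)))
    (.br 17 0
     (.br 15 0
      (.br 21 0
       (.br 20 0
        (.br 12 0
         (.br 0 0
          (.fk [(0, -2), (1, -19), (2, -18), (3, -1), (4, 34), (5, -17), (6, 18), (8, 1), (10, 18)])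
          (.br 11 0
           (.fk [(0, -18), (1, -18), (2, -18), (3, -9), (6, 9), (8, 1)])
           (.mv 15)))
         (.mv 12))
        (.mv 10))
       (.mv 9))
      (.mv 4))
     (.mv 11)))
   (.mv 1))
  (.mv 0))

def GC1_0_0_0 : Inst where
  rows :=
   [(false, [1, 1, 1, 0, 0, 0, 0, 0, 0, 0, 0, 0, 0, 0, 0, 0, 0, 0, 0, 0, 0, 0, -1], 0),
    (false, [0, 0, 0, 1, 1, 1, 1, 0, 0, 0, 0, 0, 0, 0, 0, 0, 0, 0, 0, 0, 0, 0, 0], 1),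
    (false, [0, 0, 0, 0, 0, 0, 0, 1, 1, 1, 1, 1, 0, 0, 0, 0, 0, 0, 0, 0, 0, 0, -1], 0),
    (false, [0, 0, 0, 0, 0, 0, 0, 0, 0, 0, 0, 0, 1, 1, 1, 1, 0, 0, 0, 0, 0, 0, 0], 1),
    (false, [0, 0, 0, 0, 0, 0, 0, 0, 0, 0, 0, 0, 0, 0, 0, 0, 1, 1, 1, 0, 0, 0, -1], 0),
    (false, [0, 1, 2, 1, 0, 1, 2, 2, 1, 0, 1, 2, 1, 0, 1, 2, 0, 1, 2, 0, 1, 2, -4], 2),
    (false, [2, 1, 0, 2, 1, 0, 1, 2, 1, 0, 1, 2, 2, 1, 0, 1, 2, 1, 0, 0, 1, 2, -4], 2),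
    (true, [0, 0, 0, 0, 0, 0, 0, 0, 0, 0, 0, 0, 0, 0, 0, 0, 0, 0, 0, 1, 1, 1, 0], 0),
    (true, [0, 1, 4, 0, 1, 4, 9, 0, 1, 4, 9, 16, 4, 1, 0, 1, 4, 1, 0, 0, 1, 4, 0], 1),
    (true, [4, 1, 0, 9, 4, 1, 0, 16, 9, 4, 1, 0, 1, 0, 1, 4, 0, 1, 4, 0, 1, 4, 0], 1),
    (true, [0, 0, 0, 0, 0, 0, 0, 0, 0, 0, 0, 0, 0, 0, 0, 0, 0, 0, 0, 0, 0, 0, 1], 1),
    (true, [2, 1, 0, 3, 2, 1, 0, 4, 3, 2, 1, 0, 1, 0, 1, 2, 0, 1, 2, 0, 1, 2, -4], 3)]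
  moves := GC1_moves0
  reqs := GC1_reqs0
  tree := GC1_0_0_0_tree

theorem GC1_0_0_0_ok : GC1.instOK 0 0 0 GC1_0_0_0 = true := by
  decide +kernel

def GC1_0_1_0_tree : Tree :=
  (.br 13 0
  (.br 12 0
   (.br 16 0
    (.br 14 0
     (.br 17 0
      (.fk [(0, -2), (2, -2), (3, 2), (4, 4), (5, -1), (6, 2), (11, 1)])
      (.br 15 0
       (.fk [(3, 1)])
       (.mv 7)))
     (.br 17 0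
      (.fk [(1, 1), (3, 1), (4, 4), (5, -1), (6, 1), (11, 1)])
      (.mv 11)))
    (.mv 1))
   (.br 18 0
    (.br 17 0
     (.br 16 0
      (.fk [(0, 2), (1, 4), (2, 6), (3, 4), (4, 20), (5, -1), (6, -2), (10, 4), (11, 3)])
      (.mv 1))
     (.mv 5))
    (.mv 2)))
  (.mv 0))

def GC1_0_1_0 : Inst where
  rows :=
   [(false, [1, 1, 1, 0, 0, 0, 0, 0, 0, 0, 0, 0, 0, 0, 0, 0, 0, 0, 0, 0, 0, 0, -1], 0),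
    (false, [0, 0, 0, 1, 1, 1, 1, 0, 0, 0, 0, 0, 0, 0, 0, 0, 0, 0, 0, 0, 0, 0, 0], 1),
    (false, [0, 0, 0, 0, 0, 0, 0, 1, 1, 1, 1, 1, 0, 0, 0, 0, 0, 0, 0, 0, 0, 0, -1], 0),
    (false, [0, 0, 0, 0, 0, 0, 0, 0, 0, 0, 0, 0, 1, 1, 1, 1, 0, 0, 0, 0, 0, 0, 0], 1),
    (false, [0, 0, 0, 0, 0, 0, 0, 0, 0, 0, 0, 0, 0, 0, 0, 0, 1, 1, 1, 0, 0, 0, -1], 0),
    (false, [0, 1, 2, 1, 0, 1, 2, 2, 1, 0, 1, 2, 1, 0, 1, 2, 0, 1, 2, 0, 1, 2, -4], 2),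
    (false, [2, 1, 0, 2, 1, 0, 1, 2, 1, 0, 1, 2, 2, 1, 0, 1, 2, 1, 0, 0, 1, 2, -4], 2),
    (true, [0, 0, 0, 0, 0, 0, 0, 0, 0, 0, 0, 0, 0, 0, 0, 0, 0, 0, 0, 1, 1, 1, 0], 0),
    (true, [0, 1, 4, 0, 1, 4, 9, 0, 1, 4, 9, 16, 4, 1, 0, 1, 4, 1, 0, 0, 1, 4, 0], 1),
    (true, [4, 1, 0, 9, 4, 1, 0, 16, 9, 4, 1, 0, 1, 0, 1, 4, 0, 1, 4, 0, 1, 4, 0], 1),
    (true, [0, 0, 0, 0, 0, 0, 0, 0, 0, 0, 0, 0, 0, 0, 0, 0, 0, 0, 0, 0, 0, 0, 1], 1),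
    (true, [-2, -1, 0, -3, -2, -1, 0, -4, -3, -2, -1, 0, -1, 0, -1, -2, 0, -1, -2, 0, -1, -2, 4], -1)]
  moves := GC1_moves0
  reqs := GC1_reqs0
  tree := GC1_0_1_0_tree

theorem GC1_0_1_0_ok : GC1.instOK 0 1 0 GC1_0_1_0 = true := by
  decide +kernel

def GC1_0_2_0_tree : Tree :=
  (.br 13 0
  (.br 12 0
   (.br 16 0
    (.br 14 0
     (.br 0 0
      (.br 17 0
       (.fk [(0, 1), (1, 1), (3, 3), (4, 4), (5, -1), (6, 1), (10, 1), (11, -1), (12, 1)])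
       (.br 15 0
        (.fk [(3, 1)])
        (.mv 7)))
      (.br 8 0
       (.br 9 0
        (.br 4 0
         (.br 5 0
          (.br 17 0
           (.fk [(0, -2), (1, -2), (2, -6), (3, 4), (4, 8), (5, -1), (6, 4), (11, -3), (12, 4)])
           (.br 15 0
            (.fk [(3, 1)])
            (.mv 7)))
          (.mv 14))
         (.mv 8))
        (.mv 13))
       (.mv 6)))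
     (.br 17 0
      (.fk [(1, 1), (3, 1), (4, 4), (5, -1), (6, 1), (11, -1), (12, 1)])
      (.mv 11)))
    (.mv 1))
   (.br 16 0
    (.br 17 0
     (.fk [(0, 2), (1, 2), (2, 2), (4, 4), (5, -1), (11, -1), (12, 2)])
     (.mv 5))
    (.mv 1)))
  (.mv 0))

def GC1_0_2_0 : Inst where
  rows :=
   [(false, [1, 1, 1, 0, 0, 0, 0, 0, 0, 0, 0, 0, 0, 0, 0, 0, 0, 0, 0, 0, 0, 0, -1], 0),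
    (false, [0, 0, 0, 1, 1, 1, 1, 0, 0, 0, 0, 0, 0, 0, 0, 0, 0, 0, 0, 0, 0, 0, 0], 1),
    (false, [0, 0, 0, 0, 0, 0, 0, 1, 1, 1, 1, 1, 0, 0, 0, 0, 0, 0, 0, 0, 0, 0, -1], 0),
    (false, [0, 0, 0, 0, 0, 0, 0, 0, 0, 0, 0, 0, 1, 1, 1, 1, 0, 0, 0, 0, 0, 0, 0], 1),
    (false, [0, 0, 0, 0, 0, 0, 0, 0, 0, 0, 0, 0, 0, 0, 0, 0, 1, 1, 1, 0, 0, 0, -1], 0),
    (false, [0, 1, 2, 1, 0, 1, 2, 2, 1, 0, 1, 2, 1, 0, 1, 2, 0, 1, 2, 0, 1, 2, -4], 2),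
    (false, [2, 1, 0, 2, 1, 0, 1, 2, 1, 0, 1, 2, 2, 1, 0, 1, 2, 1, 0, 0, 1, 2, -4], 2),
    (true, [0, 0, 0, 0, 0, 0, 0, 0, 0, 0, 0, 0, 0, 0, 0, 0, 0, 0, 0, 1, 1, 1, 0], 0),
    (true, [0, 1, 4, 0, 1, 4, 9, 0, 1, 4, 9, 16, 4, 1, 0, 1, 4, 1, 0, 0, 1, 4, 0], 1),
    (true, [4, 1, 0, 9, 4, 1, 0, 16, 9, 4, 1, 0, 1, 0, 1, 4, 0, 1, 4, 0, 1, 4, 0], 1),
    (true, [0, 0, 0, 0, 0, 0, 0, 0, 0, 0, 0, 0, 0, 0, 0, 0, 0, 0, 0, 0, 0, 0, 1], 1),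
    (false, [2, 1, 0, 3, 2, 1, 0, 4, 3, 2, 1, 0, 1, 0, 1, 2, 0, 1, 2, 0, 1, 2, -4], 2),
    (true, [0, 0, 0, 1, 0, 0, 0, 1, 1, 0, 0, 0, 0, 0, 0, 0, 0, 0, 0, 0, 0, 0, 0], 1)]
  moves := GC1_moves0
  reqs := GC1_reqs0
  tree := GC1_0_2_0_tree

theorem GC1_0_2_0_ok : GC1.instOK 0 2 0 GC1_0_2_0 = true := by
  decide +kernel

theorem GC1_ok0 : ∀ b ∈ GC1.branches, ∃ I : Inst, GC1.instOK 0 b.1 b.2 I = true := by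
  intro b hb
  have h : b = (0, 0) ∨ b = (1, 0) ∨ b = (2, 0) := by
    have hb2 : b ∈ [(0, 0), (1, 0), (2, 0)] := hb
    simpa using hb2
  rcases h with rfl | rfl | rfl
  · exact ⟨GC1_0_0_0, GC1_0_0_0_ok⟩
  · exact ⟨GC1_0_1_0, GC1_0_1_0_ok⟩
  · exact ⟨GC1_0_2_0, GC1_0_2_0_ok⟩

end Pool.Agent.helper1.CAD
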