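import Pool.Agent.helper1.CAD.Sys

/-! Performing a local move; counting (MP_cad530_co). -/

namespace Pool.Agent.helper1.CAD

open Finset

variable {ι : Type} [Fintype ι] [DecidableEq ι]

theorem exists_move_aux (t : ι → Tr) : ∀ (ch : List (Tr × ℤ)),
    (∀ τ, (ch.filter fun c => c.1 = τ).length ≤ #{i | t i = τ}) →
    ∃ (w : ι → ℤ) (U : Finset ι), (∀ i ∉ U, w i = (t i).2.1) ∧
      (∀ τ, #{i ∈ U | t i = τ} = (ch.filter fun c => c.1 = τ).length) ∧
      ∀ F : Tr → ℤ → ℤ, ∑ i, F (t i) (w i) = ∑ i, F (t i) (t i).2.1 + chsum ch F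
  | [], _ => ⟨fun i => (t i).2.1, ∅, by simp, by simp, by simp [chsum]⟩
  | (τ, u) :: ch, h => by
    obtain ⟨w, U, h1, h2, h3⟩ := exists_move_aux t ch (by
      intro σ
      refine le_trans ?_ (h σ)
      rw [List.filter_cons]
      split_ifs <;> simp)
    have h4 : #{i ∈ U | t i = τ} < #{i | t i = τ} := by
      rw [h2 τ]
      have := h τ
      rw [List.filter_cons] at this
      simp only [decide_true, if_true, List.length_cons] at this
      omega
    obtain ⟨i0, hi0, hi1⟩ : ∃ i0, t i0 = τ ∧ i0 ∉ U := by
      by_contra hcon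
      push Not at hcon
      refine absurd (card_le_card ?_) (not_le.mpr h4)
      intro i hi
      simp only [mem_filter, mem_univ, true_and] at hi ⊢
      exact ⟨hcon i hi, hi⟩
    refine ⟨Function.update w i0 u, insert i0 U, ?_, ?_, ?_⟩
    · intro i hi
      simp only [mem_insert, not_or] at hi
      rw [Function.update_of_ne hi.1]
      exact h1 i hi.2
    · intro σ
      rw [filter_insert, List.filter_cons]
      by_cases hσ : t i0 = σ
      · have hσ' : τ = σ := by rw [← hi0, hσ]
        subst hσ'
        rw [if_pos hσ]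
        simp only [decide_true, if_true, List.length_cons]
        rw [card_insert_of_notMem (by simp [hi1]), h2]
      · have hσ' : ¬ τ = σ := by rw [← hi0]; exact hσ
        rw [if_neg hσ]
        simp only [hσ', decide_false, Bool.false_eq_true, if_false]
        exact h2 σ
    · intro F
      have e1 : ∑ i, F (t i) (Function.update w i0 u i) =
          ∑ i, F (t i) (w i) + (F τ u - F τ (w i0)) := by
        rw [← add_sum_erase _ _ (mem_univ i0), ← add_sum_erase _ (fun i => F (t i) (w i)) (mem_univ i0)]
        have e2 : ∑ i ∈ univ.erase i0, F (t i) (Function.update w i0 u i) =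
            ∑ i ∈ univ.erase i0, F (t i) (w i) := by
          refine sum_congr rfl fun i hi => ?_
          rw [Function.update_of_ne (ne_of_mem_erase hi)]
        rw [e2, Function.update_self, hi0]
        ring
      rw [e1, h3 F, h1 i0 hi1, hi0]
      simp only [chsum, List.map_cons, List.sum_cons]
      ring

/-- counting with a list of types -/
theorem dot_map_count (t : ι → Tr) (g : Tr → ℤ) : ∀ (T : List Tr), T.Nodup →
    dot (T.map g) (T.map fun τ => ((#{i | t i = τ} : ℕ) : ℤ)) = ∑ i ∈ {i | t i ∈ T}, g (t i)
  | [], _ => by simp [dot]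
  | τ :: T, h => by
    rw [List.nodup_cons] at h
    simp only [List.map_cons, dot]
    rw [dot_map_count t g T h.2]
    have e1 : univ.filter (fun i => t i ∈ τ :: T) =
        univ.filter (fun i => t i = τ) ∪ univ.filter (fun i => t i ∈ T) := by
      ext i; simp
    have e2 : Disjoint (univ.filter (fun i => t i = τ)) (univ.filter (fun i => t i ∈ T)) := by
      rw [Finset.disjoint_left]
      intro i hi hi'
      simp only [mem_filter, mem_univ, true_and] at hi hi'
      rw [hi] at hi'
      exact h.1 hi'
    rw [e1, sum_union e2]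
    congr 1
    rw [sum_congr rfl (g := fun _ => g τ) (by
      intro i hi
      simp only [mem_filter, mem_univ, true_and] at hi
      rw [hi])]
    rw [sum_const, nsmul_eq_mul]
    ring

theorem dot_append : ∀ (a b c d : List ℤ), a.length = b.length →
    dot (a ++ c) (b ++ d) = dot a b + dot c d
  | [], [], c, d, _ => by simp [dot]
  | a :: as, b :: bs, c, d, h => by
    simp only [List.cons_append, dot]
    rw [dot_append as bs c d (by simpa using h)]
    ring

theorem dot_neg_map : ∀ (a b : List ℤ), dot (a.map fun c => -c) b = - dot a b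
  | [], b => by simp [dot]
  | a :: as, [] => by simp [dot]
  | a :: as, b :: bs => by
    simp only [List.map_cons, dot]
    rw [dot_neg_map as bs]; ring

theorem dot_smul_map (m : ℤ) : ∀ (a b : List ℤ), dot (a.map fun c => -(m * c)) b = - (m * dot a b)
  | [], b => by simp [dot]
  | a :: as, [] => by simp [dot]
  | a :: as, b :: bs => by
    simp only [List.map_cons, dot]
    rw [dot_smul_map m as bs]; ring

theorem lePw_append : ∀ (a b c d : List ℤ), a.length = b.length → lePw (a ++ c) (b ++ d) →
    lePw a b ∧ lePw c d
  | [], [], c, d, _, h => ⟨trivial, h⟩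
  | a :: as, b :: bs, c, d, h, h' => by
    simp only [List.cons_append, lePw] at h'
    obtain ⟨h1, h2⟩ := h'
    obtain ⟨h3, h4⟩ := lePw_append as bs c d (by simpa using h) h2
    exact ⟨⟨h1, h3⟩, h4⟩

theorem lePw_map {α : Type} (f g : α → ℤ) : ∀ (l : List α), lePw (l.map f) (l.map g) → ∀ a ∈ l, f a ≤ g a
  | [], _ => by simp
  | b :: l, h => by
    simp only [List.map_cons, lePw] at h
    intro a ha
    rcases List.mem_cons.mp ha with rfl | ha
    · exact h.1
    · exact lePw_map f g l h.2 a ha

end Pool.Agent.helper1.CAD
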