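import Pool.Agent.helper1.CAD.Sgn

/-! Existence of patterns (MP_cad530_co). -/

namespace Pool.Agent.helper1.CAD

open Finset

variable {ι : Type} [Fintype ι] [DecidableEq ι]

theorem distr : ∀ (L : List (ℤ × ℕ)) (T : Finset ι), (L.map Prod.fst).Nodup → (∀ c ∈ L, c.1 ≠ 0) →
    (L.map Prod.snd).sum ≤ #T → ∃ f : ι → ℤ, (∀ i, f i = 0 ∨ f i ∈ L.map Prod.fst) ∧
      (∀ c ∈ L, #{i ∈ T | f i = c.1} = c.2) ∧ (∀ i ∉ T, f i = 0) ∧
      #{i ∈ T | f i = 0} + (L.map Prod.snd).sum = #T
  | [], T, _, _, _ => ⟨fun _ => 0, by simp, by simp, by simp, by simp⟩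
  | (u, c) :: L, T, hnd, h0, hs => by
    simp only [List.map_cons, List.nodup_cons, List.sum_cons] at hnd hs
    obtain ⟨T1, hT1, hc1⟩ := exists_subset_card_eq (s := T) (n := c) (by omega)
    have hcard : #(T \ T1) = #T - c := by rw [card_sdiff_of_subset hT1, hc1]
    obtain ⟨f, h1, h2, h3, h4⟩ := distr L (T \ T1) hnd.2 (fun c hc => h0 c (by simp [hc]))
      (by rw [hcard]; omega)
    have hu0 : u ≠ 0 := h0 (u, c) (by simp)
    have hfu : ∀ i, f i ≠ u := by
      intro i hi
      rcases h1 i with h | h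
      · exact hu0 (by rw [← hi, h])
      · exact hnd.1 (by rw [← hi]; exact h)
    refine ⟨fun i => if i ∈ T1 then u else f i, ?_, ?_, ?_, ?_⟩
    · intro i
      show (if i ∈ T1 then u else f i) = 0 ∨ (if i ∈ T1 then u else f i) ∈ _
      by_cases hi : i ∈ T1
      · right; simp [hi]
      · rw [if_neg hi]
        rcases h1 i with h | h
        · left; exact h
        · right; simp only [List.map_cons, List.mem_cons]; right; exact h
    · intro d hd
      rw [List.mem_cons] at hd
      rcases hd with rfl | hd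
      · have e : T.filter (fun i => (if i ∈ T1 then u else f i) = (u, c).1) = T1 := by
          ext i
          rw [mem_filter]
          constructor
          · rintro ⟨_, h⟩
            by_contra hi
            rw [if_neg hi] at h
            exact hfu i h
          · intro hi
            exact ⟨hT1 hi, by rw [if_pos hi]⟩
        rw [e, hc1]
      · have hdu : d.1 ≠ u := by
          intro h
          apply hnd.1
          rw [← h]
          exact List.mem_map_of_mem hd
        rw [← h2 d hd]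
        congr 1
        ext i
        simp only [mem_filter, mem_sdiff]
        by_cases hi : i ∈ T1
        · simp [hi, Ne.symm hdu]
        · simp [hi]
    · intro i hi
      have : i ∉ T1 := fun h => hi (hT1 h)
      simp only [this, if_false]
      exact h3 i (fun h => hi (mem_sdiff.mp h).1)
    · have e : T.filter (fun i => (if i ∈ T1 then u else f i) = 0) = (T \ T1).filter (fun i => f i = 0) := by
        ext i
        simp only [mem_filter, mem_sdiff]
        by_cases hi : i ∈ T1
        · simp [hi, hu0]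
        · simp [hi]
      rw [e]
      simp only [List.map_cons, List.sum_cons]
      omega

/-- counting with a list of types -/
theorem dot_map_count' {α : Type} [DecidableEq α] (t : ι → α) (g : α → ℤ) : ∀ (T : List α), T.Nodup →
    dot (T.map g) (T.map fun τ => ((#{i | t i = τ} : ℕ) : ℤ)) = ∑ i ∈ {i | t i ∈ T}, g (t i)
  | [], _ => by simp [dot]
  | τ :: T, h => by
    rw [List.nodup_cons] at h
    simp only [List.map_cons, dot]
    rw [dot_map_count' t g T h.2]
    have e1 : univ.filter (fun i => t i ∈ τ :: T) =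
        univ.filter (fun i => t i = τ) ∪ univ.filter (fun i => t i ∈ T) := by
      ext i; simp
    have e2 : Disjoint (univ.filter (fun i => t i = τ)) (univ.filter (fun i => t i ∈ T)) := by
      rw [Finset.disjoint_left]
      intro i hi hi'
      simp only [mem_filter, mem_univ, true_and] at hi hi'
      rw [hi] at hi'
      exact h.1 hi'
    rw [e1, sum_union e2]
    congr 1
    rw [sum_congr rfl (g := fun _ => g τ) (by
      intro i hi
      simp only [mem_filter, mem_univ, true_and] at hi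
      rw [hi])]
    rw [sum_const, nsmul_eq_mul]
    ring

theorem dot_map_count'' {α : Type} [DecidableEq α] (t : ι → α) (g : α → ℤ) (T : List α) (nd : T.Nodup)
    (h : ∀ i, t i ∈ T) :
    dot (T.map g) (T.map fun τ => ((#{i | t i = τ} : ℕ) : ℤ)) = ∑ i, g (t i) := by
  rw [dot_map_count' t g T nd, filter_true_of_mem (fun i _ => h i)]

/-- sums over a pattern -/
theorem Spec.Pat.sum {S : Spec} {v x : ι → ℤ} {p : List ℤ} {s : ι → ℤ} (h : S.Pat v x p s)
    (nd : S.pairs.Nodup) (F : ℤ → ℤ → ℤ) :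
    ∑ i, F (s i * v i) (s i * x i) =
      (S.tys.map fun t => F t.1 t.2.1 * (dot t.2.2.1 p + t.2.2.2)).sum +
        F 0 0 * #{i | (s i * v i, s i * x i) = ((0 : ℤ), (0 : ℤ))} := by
  have h1 := dot_map_count'' (fun i => (s i * v i, s i * x i)) (fun q => F q.1 q.2) S.pairs nd h.pair
  rw [← h1]
  unfold Spec.pairs
  rw [List.map_append, List.map_append, dot_append _ _ _ _ (by simp)]
  congr 1
  · rw [List.map_map, List.map_map]
    have h2 : ∀ (L : List (ℤ × ℤ × List ℤ × ℤ)), (∀ t ∈ L, t ∈ S.tys) →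
        dot (L.map ((fun q : ℤ × ℤ => F q.1 q.2) ∘ fun t => (t.1, t.2.1)))
          (L.map ((fun τ : ℤ × ℤ => ((#{i | (s i * v i, s i * x i) = τ} : ℕ) : ℤ)) ∘ fun t => (t.1, t.2.1))) =
        (L.map fun t => F t.1 t.2.1 * (dot t.2.2.1 p + t.2.2.2)).sum := by
      intro L
      induction L with
      | nil => intro _; simp [dot]
      | cons t L ih =>
        intro hL
        simp only [List.map_cons, dot, List.sum_cons]
        rw [ih fun t' ht' => hL t' (by simp [ht'])]
        congr 1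
        simp only [Function.comp]
        rw [h.cnt t (hL t (by simp))]
    exact h2 S.tys fun t ht => ht
  · simp [dot]

/-- the values of the pattern on the coordinates with `s v = a` -/
theorem pat_exists {S : Spec} {v s : ι → ℤ} {p : List ℤ} (hs : IsSgn s)
    (hv : ∀ i, s i * v i = 0 ∨ s i * v i = 1 ∨ s i * v i = 2)
    (L : ℤ → List (ℤ × ℕ))
    (hL1 : ∀ a, ((L a).map Prod.fst).Nodup) (hL2 : ∀ a, ∀ c ∈ L a, c.1 ≠ 0)
    (hL3 : ∀ a, a = 0 ∨ a = 1 ∨ a = 2 → ((L a).map Prod.snd).sum ≤ #{i | s i * v i = a})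
    (hp : ∀ a u, a = 0 ∨ a = 1 ∨ a = 2 → u ∈ (L a).map Prod.fst → (a, u) ∈ S.pairs)
    (hp0 : ∀ a, a = 0 ∨ a = 1 ∨ a = 2 → ((L a).map Prod.snd).sum < #{i | s i * v i = a} → (a, 0) ∈ S.pairs)
    (hc : ∀ t ∈ S.tys, (t.1 = 0 ∨ t.1 = 1 ∨ t.1 = 2) ∧ ((∃ c ∈ L t.1, c.1 = t.2.1 ∧ (c.2 : ℤ) = dot t.2.2.1 p + t.2.2.2) ∨
      (t.2.1 = 0 ∧ ((#{i | s i * v i = t.1} : ℕ) : ℤ) = ((L t.1).map Prod.snd).sum + (dot t.2.2.1 p + t.2.2.2)))) :
    ∃ x : ι → ℤ, S.Pat v x p s := by
  classical
  have hex : ∀ a, ∃ f : ι → ℤ, (a = 0 ∨ a = 1 ∨ a = 2) → (∀ i, f i = 0 ∨ f i ∈ (L a).map Prod.fst) ∧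
      (∀ c ∈ L a, #{i ∈ univ.filter (fun i => s i * v i = a) | f i = c.1} = c.2) ∧
      #{i ∈ univ.filter (fun i => s i * v i = a) | f i = 0} + ((L a).map Prod.snd).sum =
        #{i | s i * v i = a} := by
    intro a
    by_cases ha : a = 0 ∨ a = 1 ∨ a = 2
    · obtain ⟨f, h1, h2, _, h4⟩ := distr (L a) (univ.filter (fun i => s i * v i = a)) (hL1 a) (hL2 a)
        (hL3 a ha)
      exact ⟨f, fun _ => ⟨h1, h2, h4⟩⟩
    · exact ⟨fun _ => 0, fun h => absurd h ha⟩
  choose f hf using hex
  refine ⟨fun i => s i * f (s i * v i) i, hs, ?_, ?_⟩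
  · intro i
    simp only [sgn_sgn s (fun i => f (s i * v i) i) hs i]
    obtain ⟨h1, h2, h3⟩ := hf (s i * v i) (hv i)
    rcases h1 i with h | h
    · rw [h]
      apply hp0 _ (hv i)
      have : 0 < #{j ∈ univ.filter (fun j => s j * v j = s i * v i) | f (s i * v i) j = 0} := by
        rw [card_pos]
        exact ⟨i, by simp [h]⟩
      omega
    · exact hp _ _ (hv i) h
  · intro t ht
    obtain ⟨ha, hc⟩ := hc t ht
    have e : univ.filter (fun i => (s i * v i, s i * (s i * f (s i * v i) i)) = (t.1, t.2.1)) =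
        (univ.filter (fun i => s i * v i = t.1)).filter (fun i => f t.1 i = t.2.1) := by
      ext i
      simp only [sgn_sgn s (fun i => f (s i * v i) i) hs i, Prod.mk.injEq, mem_filter, mem_univ,
        true_and]
      constructor
      · rintro ⟨h1, h2⟩
        exact ⟨h1, by rw [← h1]; exact h2⟩
      · rintro ⟨h1, h2⟩
        exact ⟨h1, by rw [h1]; exact h2⟩
    show ((#(univ.filter (fun i => (s i * v i, s i * (s i * f (s i * v i) i)) = (t.1, t.2.1))) : ℕ) : ℤ) = _
    rw [e]
    obtain ⟨h1, h2, h3⟩ := hf t.1 ha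
    rcases hc with ⟨c, hc1, hc2, hc3⟩ | ⟨h4, h5⟩
    · rw [← hc2, h2 c hc1, hc3]
    · rw [h4]
      have : ((#{i ∈ univ.filter (fun i => s i * v i = t.1) | f t.1 i = 0} : ℕ) : ℤ) +
          (((L t.1).map Prod.snd).sum : ℕ) = (#{i | s i * v i = t.1} : ℕ) := by exact_mod_cast h3
      linarith

end Pool.Agent.helper1.CAD
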