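import Pool.Agent.helper1.CAD.Pat

/-! Membership from a pattern (MP_cad530_co). -/

namespace Pool.Agent.helper1.CAD

open Finset

variable {ι : Type} [Fintype ι] [DecidableEq ι]

/-- number of coordinates of a type -/
def num (p : List ℤ) (t : ℤ × ℤ × List ℤ × ℤ) : ℤ := dot t.2.2.1 p + t.2.2.2

theorem Spec.Pat.free {S : Spec} {v x : ι → ℤ} {p : List ℤ} {s : ι → ℤ} (h : S.Pat v x p s)
    (nd : S.pairs.Nodup) :
    ((#{i | (s i * v i, s i * x i) = ((0 : ℤ), (0 : ℤ))} : ℕ) : ℤ) =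
      Fintype.card ι - (S.tys.map (num p)).sum := by
  have h1 := h.sum nd (fun _ _ => 1)
  simp only [sum_const, card_univ, nsmul_eq_mul, mul_one, one_mul] at h1
  have h2 : (S.tys.map fun t => dot t.2.2.1 p + t.2.2.2).sum = (S.tys.map (num p)).sum := rfl
  rw [h2] at h1
  linarith

theorem stat_zero (K : Kind) (hK : K ≠ .A) (j : ℕ) : stat K j 0 = 0 := by
  cases K with
  | A => exact absurd rfl hK
  | B => simp [stat]
  | C => simp [stat]
  | D => simp [stat]

theorem Spec.Pat.gen {S : Spec} {v x : ι → ℤ} {p : List ℤ} {s : ι → ℤ} (h : S.Pat v x p s)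
    (nd : S.pairs.Nodup) (hK : S.K ≠ .A) (κ : ℤ) (G : ℤ → ℤ → ℤ) (hG : G 0 0 = 0)
    (hbd : ∀ t ∈ S.tys, bd S.K (G t.1 t.2.1) = true)
    (hst : ∀ j < nst S.K, (S.tys.map fun t => stat S.K j (G t.1 t.2.1) * num p t).sum = κ)
    (hz : hasZ S.K = true → (S.tys.map fun t => (1 - zt (G t.1 t.2.1)) * num p t).sum ≤ Fintype.card ι) :
    mem S.K κ (fun i => G (s i * v i) (s i * x i)) := by
  refine ⟨?_, ?_, ?_⟩
  · intro i
    have := h.pair i
    unfold Spec.pairs at this
    rw [List.mem_append, List.mem_map, List.mem_singleton] at this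
    rcases this with ⟨t, ht, he⟩ | he
    · rw [Prod.mk.injEq] at he
      show bd S.K (G (s i * v i) (s i * x i)) = true
      rw [← he.1, ← he.2]
      exact hbd t ht
    · rw [Prod.mk.injEq] at he
      show bd S.K (G (s i * v i) (s i * x i)) = true
      rw [he.1, he.2, hG]
      cases S.K <;> rfl
  · intro j hj
    show ∑ i, stat S.K j (G (s i * v i) (s i * x i)) = κ
    rw [h.sum nd (fun a b => stat S.K j (G a b)), hG, stat_zero S.K hK]
    have := hst j hj
    unfold num at this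
    rw [zero_mul, add_zero, this]
  · intro hz'
    show 0 ≤ ∑ i, zt (G (s i * v i) (s i * x i))
    rw [h.sum nd (fun a b => zt (G a b)), hG, h.free nd]
    have h1 := hz hz'
    have h2 : (S.tys.map fun t => (1 - zt (G t.1 t.2.1)) * num p t).sum =
        (S.tys.map (num p)).sum - (S.tys.map fun t => zt (G t.1 t.2.1) * (dot t.2.2.1 p + t.2.2.2)).sum := by
      generalize S.tys = L
      induction L with
      | nil => simp
      | cons t L ih =>
        simp only [List.map_cons, List.sum_cons, ih]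
        unfold num
        ring
    rw [h2] at h1
    have h3 : zt 0 = 1 := rfl
    rw [h3]
    linarith

theorem Spec.Pat.mem_v {S : Spec} {v x : ι → ℤ} {p : List ℤ} {s : ι → ℤ} (h : S.Pat v x p s)
    (nd : S.pairs.Nodup) (hK : S.K ≠ .A) (κ : ℤ)
    (hbd : ∀ t ∈ S.tys, bd S.K t.1 = true)
    (hst : ∀ j < nst S.K, (S.tys.map fun t => stat S.K j t.1 * num p t).sum = κ)
    (hz : hasZ S.K = true → (S.tys.map fun t => (1 - zt t.1) * num p t).sum ≤ Fintype.card ι) :
    mem S.K κ v :=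
  (mem_sgn hK κ s v h.sg).mp (h.gen nd hK κ (fun a _ => a) rfl hbd hst hz)

theorem Spec.Pat.mem_x {S : Spec} {v x : ι → ℤ} {p : List ℤ} {s : ι → ℤ} (h : S.Pat v x p s)
    (nd : S.pairs.Nodup) (hK : S.K ≠ .A) (κ : ℤ)
    (hbd : ∀ t ∈ S.tys, bd S.K t.2.1 = true)
    (hst : ∀ j < nst S.K, (S.tys.map fun t => stat S.K j t.2.1 * num p t).sum = κ)
    (hz : hasZ S.K = true → (S.tys.map fun t => (1 - zt t.2.1) * num p t).sum ≤ Fintype.card ι) :
    mem S.K κ x :=
  (mem_sgn hK κ s x h.sg).mp (h.gen nd hK κ (fun _ b => b) rfl hbd hst hz)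

theorem Spec.Pat.mem_xv {S : Spec} {v x : ι → ℤ} {p : List ℤ} {s : ι → ℤ} (h : S.Pat v x p s)
    (nd : S.pairs.Nodup) (hK : S.K ≠ .A) (κ : ℤ)
    (hbd : ∀ t ∈ S.tys, bd S.K (t.2.1 - t.1) = true)
    (hst : ∀ j < nst S.K, (S.tys.map fun t => stat S.K j (t.2.1 - t.1) * num p t).sum = κ)
    (hz : hasZ S.K = true → (S.tys.map fun t => (1 - zt (t.2.1 - t.1)) * num p t).sum ≤ Fintype.card ι) :
    mem S.K κ (fun i => x i - v i) := by
  have h1 := h.gen nd hK κ (fun a b => b - a) (by ring) hbd hst hz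
  have h2 : (fun i => s i * x i - s i * v i) = fun i => s i * (x i - v i) := by
    ext i; ring
  rw [h2] at h1
  exact (mem_sgn hK κ s _ h.sg).mp h1

/-- the sum of zt over v -/
theorem Spec.Pat.zt_v {S : Spec} {v x : ι → ℤ} {p : List ℤ} {s : ι → ℤ} (h : S.Pat v x p s)
    (nd : S.pairs.Nodup) :
    ∑ i, zt (v i) = Fintype.card ι - (S.tys.map fun t => (1 - zt t.1) * num p t).sum := by
  have h0 : ∑ i, zt (v i) = ∑ i, zt (s i * v i) := sum_congr rfl fun i _ => by
    rcases h.sg i with h | h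
    · rw [h, one_mul]
    · rw [h, neg_one_mul, zt_neg]
  rw [h0, h.sum nd (fun a b => zt a), h.free nd]
  have h2 : (S.tys.map fun t => (1 - zt t.1) * num p t).sum =
      (S.tys.map (num p)).sum - (S.tys.map fun t => zt t.1 * (dot t.2.2.1 p + t.2.2.2)).sum := by
    generalize S.tys = L
    induction L with
    | nil => simp
    | cons t L ih =>
      simp only [List.map_cons, List.sum_cons, ih]
      unfold num
      ring
  have h3 : zt 0 = 1 := rfl
  rw [h2, h3]
  linarith

end Pool.Agent.helper1.CAD
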