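import Pool.Agent.helper1.CAD.Sound

/-! Arbitrary signs (MP_cad530_co). -/

namespace Pool.Agent.helper1.CAD

open Finset

variable {ι : Type} [Fintype ι] [DecidableEq ι]

theorem bd_neg (K : Kind) (w : ℤ) : bd K (-w) = bd K w := by
  unfold bd
  rw [Bool.eq_iff_iff]
  simp only [Bool.and_eq_true, decide_eq_true_eq]
  constructor <;> rintro ⟨h1, h2⟩ <;> constructor <;> omega

theorem zt_neg (w : ℤ) : zt (-w) = zt w := by
  unfold zt
  split_ifs <;> omega

theorem stat_neg (K : Kind) (hK : K ≠ .A) (j : ℕ) (w : ℤ) : stat K j (-w) = stat K j w := by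
  cases K with
  | A => exact absurd rfl hK
  | B => simp [stat]
  | C => simp only [stat]; split_ifs <;> omega
  | D => simp [stat]

/-- sign vectors -/
def IsSgn (s : ι → ℤ) : Prop := ∀ i, s i = 1 ∨ s i = -1

theorem mem_sgn {K : Kind} (hK : K ≠ .A) (κ : ℤ) (s v : ι → ℤ) (hs : IsSgn s) :
    mem K κ (fun i => s i * v i) ↔ mem K κ v := by
  have h1 : ∀ i, bd K (s i * v i) = bd K (v i) := by
    intro i
    rcases hs i with h | h
    · rw [h, one_mul]
    · rw [h, neg_one_mul, bd_neg]
  have h2 : ∀ j i, stat K j (s i * v i) = stat K j (v i) := by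
    intro j i
    rcases hs i with h | h
    · rw [h, one_mul]
    · rw [h, neg_one_mul, stat_neg K hK]
  have h3 : ∀ i, zt (s i * v i) = zt (v i) := by
    intro i
    rcases hs i with h | h
    · rw [h, one_mul]
    · rw [h, neg_one_mul, zt_neg]
  unfold mem
  simp only [h1, h2, h3]

theorem sgn_sgn (s v : ι → ℤ) (hs : IsSgn s) (i : ι) : s i * (s i * v i) = v i := by
  rcases hs i with h | h <;> rw [h] <;> ring

/-- the pattern of a pair of vectors up to signs -/
structure Spec.Pat (S : Spec) (v x : ι → ℤ) (p : List ℤ) (s : ι → ℤ) : Prop where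
  sg : IsSgn s
  pair : ∀ i, (s i * v i, s i * x i) ∈ S.pairs
  cnt : ∀ t ∈ S.tys, ((#{i | (s i * v i, s i * x i) = (t.1, t.2.1)} : ℕ) : ℤ) = dot t.2.2.1 p + t.2.2.2

/-- the parameters are admissible -/
structure Spec.Par (S : Spec) (p : List ℤ) (k : ℤ) : Prop where
  kl : S.kc.1.length = p.length
  ml : S.pmin.length = p.length
  tl : ∀ t ∈ S.tys, t.2.2.1.length = p.length
  p0 : ∀ a ∈ p, 0 ≤ a
  pm : lePw S.pmin p
  hk : k = dot S.kc.1 p + S.kc.2

/-- a second common neighbour, arbitrary signs, types B, C, D -/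
theorem Spec.use {S : Spec} (hK : S.K ≠ .A) (nd : S.T.Nodup) (h0 : ∀ t ∈ S.tys, (t.1, t.2.1) ≠ (0, 0))
    {v x z : ι → ℤ} {p : List ℤ} {k : ℤ} {s : ι → ℤ} (hP : S.Par p k) (hpat : S.Pat v x p s) (pz : ℤ)
    (mz : mem S.K (mul S.K * k - pz) z)
    (mxz : mem S.K (mul S.K * k - par S.px pz) (fun i => x i - z i))
    (mx' : mem S.K (mul S.K * k - S.px) x)
    (mxv : mem S.K (mul S.K * k - S.pvx) (fun i => x i - v i))
    (bv : ∀ i, bd S.K (v i) = true)
    (sl1 : hasZ S.K = true → S.sl.1 ≤ ∑ i, zt (v i))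
    (sl2 : hasZ S.K = true → 0 ≤ S.sl.2 → ∑ i, zt (v i) ≤ S.sl.2)
    (fr1 : hasZ S.K = false → S.sl.1 ≤ #{i | v i = 0 ∧ x i = 0})
    (fr2 : hasZ S.K = false → 0 ≤ S.sl.2 → (#{i | v i = 0 ∧ x i = 0} : ℤ) ≤ S.sl.2)
    (gd : S.good = true → z ≠ fun i => x i - v i)
    (zv : z ≠ v)
    (na : ¬ mem S.K (mul S.K * k - par pz S.pv) (fun i => z i - v i))
    (ok : ∀ b ∈ S.branches, ∃ I : Inst, S.instOK pz b.1 b.2 I = true) :
    ∃ (w : ι → ℤ) (pu : ℤ), (pu = 0 ∨ (S.K = .B ∧ pu = 1)) ∧ w ≠ x ∧
      mem S.K (mul S.K * k - pu) w ∧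
      mem S.K (mul S.K * k - par pu S.pv) (fun i => w i - v i) ∧
      mem S.K (mul S.K * k - par pu pz) (fun i => w i - z i) := by
  classical
  obtain ⟨hs, hpair, hcnt⟩ := hpat
  set e : ι → ℤ := fun i => if v i = 0 ∧ x i = 0 then (if 0 ≤ z i then 1 else -1) else s i with he
  have hes : IsSgn e := by
    intro i
    simp only [he]
    split_ifs
    · left; rfl
    · right; rfl
    · exact hs i
  have hev : ∀ i, e i * v i = s i * v i := by
    intro i
    simp only [he]
    by_cases h : v i = 0 ∧ x i = 0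
    · rw [if_pos h, h.1]; ring
    · rw [if_neg h]
  have hex : ∀ i, e i * x i = s i * x i := by
    intro i
    simp only [he]
    by_cases h : v i = 0 ∧ x i = 0
    · rw [if_pos h, h.2]; ring
    · rw [if_neg h]
  have hs0 : ∀ i a, s i * a = 0 → a = 0 := by
    intro i a h
    rcases hs i with h1 | h1 <;> rw [h1] at h <;> omega
  have he0 : ∀ i a, e i * a = 0 → a = 0 := by
    intro i a h
    rcases hes i with h1 | h1 <;> rw [h1] at h <;> omega
  have hsub : ∀ a b : ι → ℤ, (fun i => e i * a i - e i * b i) = fun i => e i * (a i - b i) := by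
    intro a b; ext i; ring
  have hfr : ∀ i, ((e i * v i, e i * x i) = ((0 : ℤ), (0 : ℤ))) ↔ (v i = 0 ∧ x i = 0) := by
    intro i
    rw [Prod.mk.injEq]
    constructor
    · rintro ⟨h1, h2⟩
      exact ⟨he0 i _ h1, he0 i _ h2⟩
    · rintro ⟨h1, h2⟩
      rw [h1, h2]; simp
  have H : S.Hyp pz (fun i => e i * v i) (fun i => e i * x i) (fun i => e i * z i) p k := {
    nd := nd
    kl := hP.kl
    ml := hP.ml
    tl := hP.tl
    p0 := hP.p0
    pm := hP.pm
    hk := hP.hk
    pair := by
      intro i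
      simp only [hev, hex]
      exact hpair i
    free := by
      right
      intro i h1 h2
      have h1' := he0 i _ h1
      have h2' := he0 i _ h2
      have h3 : e i = if 0 ≤ z i then 1 else -1 := by simp only [he]; rw [if_pos ⟨h1', h2'⟩]
      show 0 ≤ e i * z i
      rw [h3]
      split_ifs <;> omega
    cnt := by
      intro t ht
      rw [← hcnt t ht]
      simp only [hev, hex]
    mz := (mem_sgn hK _ e z hes).mpr mz
    mxz := by rw [hsub]; exact (mem_sgn hK _ e _ hes).mpr mxz
    mx' := (mem_sgn hK _ e x hes).mpr mx'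
    mxv := by rw [hsub]; exact (mem_sgn hK _ e _ hes).mpr mxv
    bv := by
      intro i
      rcases hes i with h | h
      · show bd S.K (e i * v i) = true
        rw [h, one_mul]; exact bv i
      · show bd S.K (e i * v i) = true
        rw [h, neg_one_mul, bd_neg]; exact bv i
    sl1 := by
      intro h
      have : ∑ i, zt (e i * v i) = ∑ i, zt (v i) := sum_congr rfl fun i _ => by
        rcases hes i with h | h
        · rw [h, one_mul]
        · rw [h, neg_one_mul, zt_neg]
      rw [this]; exact sl1 h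
    sl2 := by
      intro h h'
      have : ∑ i, zt (e i * v i) = ∑ i, zt (v i) := sum_congr rfl fun i _ => by
        rcases hes i with h | h
        · rw [h, one_mul]
        · rw [h, neg_one_mul, zt_neg]
      rw [this]; exact sl2 h h'
    fr1 := by
      intro h
      simp only [hfr]
      exact fr1 h
    fr2 := by
      intro h h'
      simp only [hfr]
      exact fr2 h h'
    gd := by
      intro h h'
      apply gd h
      ext i
      have h1 := congrFun h' i
      have h2 : e i * (z i - (x i - v i)) = 0 := by linarith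
      have := he0 i _ h2
      omega
    zv := by
      intro h'
      apply zv
      ext i
      have h1 := congrFun h' i
      have h2 : e i * (z i - v i) = 0 := by linarith
      have := he0 i _ h2
      omega
    na := by
      rw [hsub]
      intro h
      exact na ((mem_sgn hK _ e _ hes).mp h) }
  obtain ⟨w, pu, h1, h2, h3, h4, h5⟩ := Spec.sound H ok
  refine ⟨fun i => e i * w i, pu, h1, ?_, (mem_sgn hK _ e w hes).mpr h3, ?_, ?_⟩
  · intro h
    apply h2
    ext i
    rw [← congrFun h i, sgn_sgn e w hes]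
  · have : (fun i => e i * w i - v i) = fun i => e i * (w i - e i * v i) := by
      ext i
      have := sgn_sgn e v hes i
      linear_combination this
    rw [this]
    exact (mem_sgn hK _ e _ hes).mpr h4
  · have : (fun i => e i * w i - z i) = fun i => e i * (w i - e i * z i) := by
      ext i
      have := sgn_sgn e z hes i
      linear_combination this
    rw [this]
    exact (mem_sgn hK _ e _ hes).mpr h5

/-- type A -/
theorem Spec.useA {S : Spec} (hK : S.K = .A) (nd : S.T.Nodup)
    {v x z : ι → ℤ} {p : List ℤ} {k : ℤ} (hP : S.Par p k)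
    (pair : ∀ i, (v i, x i) ∈ S.pairs)
    (cnt : ∀ t ∈ S.tys, ((#{i | (v i, x i) = (t.1, t.2.1)} : ℕ) : ℤ) = dot t.2.2.1 p + t.2.2.2)
    (hpx : S.px = 0) (hpv : S.pv = 0) (hpvx : S.pvx = 0) (hg : S.good = true)
    (mz : mem .A k z)
    (mxz : mem .A k (fun i => x i - z i))
    (mx' : mem .A k x)
    (mxv : mem .A k (fun i => x i - v i))
    (bv : ∀ i, bd .A (v i) = true)
    (hsl : S.sl = (0, -1))
    (gd : z ≠ fun i => x i - v i)
    (zv : z ≠ v)
    (na : ¬ mem .A k (fun i => z i - v i))
    (ok : ∀ b ∈ S.branches, ∃ I : Inst, S.instOK 0 b.1 b.2 I = true) :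
    ∃ w : ι → ℤ, w ≠ x ∧ mem .A k w ∧ mem .A k (fun i => w i - v i) ∧
      mem .A k (fun i => w i - z i) := by
  have e1 : mul S.K * k - 0 = k := by rw [hK]; simp [mul]
  have H : S.Hyp 0 v x z p k := {
    nd := nd
    kl := hP.kl
    ml := hP.ml
    tl := hP.tl
    p0 := hP.p0
    pm := hP.pm
    hk := hP.hk
    pair := pair
    free := Or.inl (by rw [hK]; rfl)
    cnt := cnt
    mz := by rw [e1, hK]; exact mz
    mxz := by rw [hpx]; show mem S.K (mul S.K * k - 0) _; rw [e1, hK]; exact mxz
    mx' := by rw [hpx, e1, hK]; exact mx'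
    mxv := by rw [hpvx, e1, hK]; exact mxv
    bv := by rw [hK]; exact bv
    sl1 := by rw [hK]; intro h; exact absurd h (by decide)
    sl2 := by rw [hK]; intro h; exact absurd h (by decide)
    fr1 := by intro _; rw [hsl]; positivity
    fr2 := by intro _ h; rw [hsl] at h; exact absurd h (by decide)
    gd := fun _ => gd
    zv := zv
    na := by rw [hpv]; show ¬ mem S.K (mul S.K * k - 0) _; rw [e1, hK]; exact na }
  obtain ⟨w, pu, h1, h2, h3, h4, h5⟩ := Spec.sound H ok
  rw [hK] at h1
  have hpu : pu = 0 := by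
    rcases h1 with h1 | h1
    · exact h1
    · exact absurd h1.1 (by decide)
  subst hpu
  refine ⟨w, h2, ?_, ?_, ?_⟩
  · rw [e1, hK] at h3; exact h3
  · rw [hpv] at h4
    have h4' : mem S.K (mul S.K * k - 0) (fun i => w i - v i) := h4
    rw [e1, hK] at h4'; exact h4'
  · have h5' : mem S.K (mul S.K * k - 0) (fun i => w i - z i) := h5
    rw [e1, hK] at h5'; exact h5'

end Pool.Agent.helper1.CAD
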