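import Pool.Agent.helper1.CAD.Mov

/-! Soundness of the certificates (MP_cad530_co). -/

namespace Pool.Agent.helper1.CAD

set_option linter.unusedSectionVars false
set_option linter.unusedVariables false

open Finset

variable {ι : Type} [Fintype ι] [DecidableEq ι]

/-- the triple at a coordinate -/
def trip (v x z : ι → ℤ) (i : ι) : Tr := (v i, x i, z i)

def Spec.sv (S : Spec) (v x z : ι → ℤ) : List ℤ :=
  if hasZ S.K then [∑ i, zt (x i), ∑ i, zt (x i - v i), ∑ i, zt (x i - z i)] else []

def Spec.X (S : Spec) (v x z : ι → ℤ) (p : List ℤ) : List ℤ :=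
  S.T.map (fun τ => ((#{i | trip v x z i = τ} : ℕ) : ℤ)) ++ (S.sv v x z ++ p)

/-- the hypotheses on the triple of vectors -/
structure Spec.Hyp (S : Spec) (pz : ℤ) (v x z : ι → ℤ) (p : List ℤ) (k : ℤ) : Prop where
  nd : S.T.Nodup
  kl : S.kc.1.length = p.length
  ml : S.pmin.length = p.length
  tl : ∀ t ∈ S.tys, t.2.2.1.length = p.length
  p0 : ∀ a ∈ p, 0 ≤ a
  pm : lePw S.pmin p
  hk : k = dot S.kc.1 p + S.kc.2
  pair : ∀ i, (v i, x i) ∈ S.pairs
  free : isA S.K = true ∨ ∀ i, v i = 0 → x i = 0 → 0 ≤ z i
  cnt : ∀ t ∈ S.tys, ((#{i | (v i, x i) = (t.1, t.2.1)} : ℕ) : ℤ) = dot t.2.2.1 p + t.2.2.2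
  mz : mem S.K (mul S.K * k - pz) z
  mxz : mem S.K (mul S.K * k - par S.px pz) (fun i => x i - z i)
  mx' : mem S.K (mul S.K * k - S.px) x
  mxv : mem S.K (mul S.K * k - S.pvx) (fun i => x i - v i)
  bv : ∀ i, bd S.K (v i) = true
  sl1 : hasZ S.K = true → S.sl.1 ≤ ∑ i, zt (v i)
  sl2 : hasZ S.K = true → 0 ≤ S.sl.2 → ∑ i, zt (v i) ≤ S.sl.2
  fr1 : hasZ S.K = false → S.sl.1 ≤ #{i | (v i, x i) = (0, 0)}
  fr2 : hasZ S.K = false → 0 ≤ S.sl.2 → (#{i | (v i, x i) = (0, 0)} : ℤ) ≤ S.sl.2
  gd : S.good = true → z ≠ fun i => x i - v i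
  zv : z ≠ v
  na : ¬ mem S.K (mul S.K * k - par pz S.pv) (fun i => z i - v i)

theorem mem_zrange (K : Kind) (z : ℤ) (h : bd K z = true) : z ∈ zrange K := by
  unfold bd at h
  rw [Bool.and_eq_true, decide_eq_true_eq, decide_eq_true_eq] at h
  cases K <;> simp only [lim] at h <;> simp only [zrange, List.mem_cons, List.not_mem_nil, or_false] <;> omega

theorem Spec.Hyp.memT {S : Spec} {pz : ℤ} {v x z : ι → ℤ} {p : List ℤ} {k : ℤ}
    (H : S.Hyp pz v x z p k) (i : ι) : trip v x z i ∈ S.T := by
  unfold Spec.T trip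
  rw [List.mem_flatMap]
  refine ⟨(v i, x i), H.pair i, ?_⟩
  rw [List.mem_map]
  refine ⟨z i, ?_, rfl⟩
  rw [List.mem_filter]
  refine ⟨mem_zrange S.K (z i) (H.mz.1 i), ?_⟩
  rw [Bool.and_eq_true]
  refine ⟨H.mxz.1 i, ?_⟩
  rcases H.free with h | h
  · simp [h]
  · by_cases h1 : v i = 0
    · by_cases h2 : x i = 0
      · simp [h i h1 h2]
      · simp [h2]
    · simp [h1]

theorem sv_length (S : Spec) (v x z : ι → ℤ) : (S.sv v x z).length = S.z3.length := by
  unfold Spec.sv Spec.z3
  cases hasZ S.K <;> simp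

theorem lin_dot {S : Spec} {pz : ℤ} {v x z : ι → ℤ} {p : List ℤ} {k : ℤ}
    (H : S.Hyp pz v x z p k) (g : Tr → ℤ) (s pc : List ℤ) (hs : s.length = S.z3.length) :
    dot (S.lin g s pc) (S.X v x z p) =
      ∑ i, g (v i, x i, z i) + (dot s (S.sv v x z) + dot pc p) := by
  unfold Spec.lin Spec.X
  rw [dot_append _ _ _ _ (by simp), dot_append s _ _ _ (by rw [hs, sv_length]),
    dot_map_count (trip v x z) g S.T H.nd]
  congr 1
  rw [filter_true_of_mem (fun i _ => H.memT i)]
  rfl

theorem z3_dot (S : Spec) (v x z : ι → ℤ) : dot S.z3 (S.sv v x z) = 0 := by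
  apply dot_zero
  unfold Spec.z3
  cases hasZ S.K <;> simp

theorem zp_dot (S : Spec) (p : List ℤ) : dot S.zp p = 0 := by
  apply dot_zero
  unfold Spec.zp
  simp

theorem negk_dot (S : Spec) (p : List ℤ) : dot S.negk p = - (mul S.K * dot S.kc.1 p) := by
  unfold Spec.negk
  rw [dot_smul_map]

theorem units_sound : ∀ (ms pre p1 p2 : List ℤ), pre.length = p1.length → (∀ a ∈ pre, a = 0) →
    lePw ms p2 → ∀ u ∈ units pre ms, u.2 ≤ dot u.1 (p1 ++ p2)
  | [], pre, p1, p2, _, _, _ => by simp [units]
  | m :: ms, pre, p1, [], _, _, h => by simp [lePw] at h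
  | m :: ms, pre, p1, b :: p2, h, h0, hle => by
    intro u hu
    rw [units, List.mem_cons] at hu
    rcases hu with rfl | hu
    · simp only
      rw [List.append_assoc, dot_append pre p1 _ _ h, dot_zero pre p1 h0]
      simp only [List.cons_append, List.nil_append, dot]
      rw [dot_zero _ _ (by simp)]
      have := hle.1
      linarith
    · have := units_sound ms (pre ++ [0]) (p1 ++ [b]) p2 (by simp [h]) (by
        intro a ha
        rw [List.mem_append] at ha
        rcases ha with ha | ha
        · exact h0 a ha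
        · simpa using ha) hle.2 u hu
      rwa [List.append_assoc, List.singleton_append] at this

theorem sum_sq_pos {a : ι → ℤ} (h : a ≠ 0) : 1 ≤ ∑ i, a i * a i := by
  obtain ⟨i, hi⟩ := Function.ne_iff.mp h
  have h1 : a i * a i ≤ ∑ i, a i * a i :=
    single_le_sum (f := fun i => a i * a i) (fun j _ => mul_self_nonneg _) (mem_univ i)
  have h2 : 0 < a i * a i := mul_self_pos.mpr hi
  omega

theorem sum_isTy {S : Spec} (v x z : ι → ℤ) (q : ℤ × ℤ) :
    ∑ i, isTy q (v i, x i, z i) = ((#{i | (v i, x i) = q} : ℕ) : ℤ) := by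
  unfold isTy
  rw [sum_boole]
  congr 2
  ext i
  simp [Prod.ext_iff]

theorem baseRows_sat {S : Spec} {pz : ℤ} {v x z : ι → ℤ} {p : List ℤ} {k : ℤ}
    (H : S.Hyp pz v x z p k) : ∀ r ∈ S.baseRows pz, Row.sat r (S.X v x z p) := by
  intro r hr
  unfold Spec.baseRows at hr
  simp only [List.mem_append] at hr
  have hk := H.hk
  rcases hr with ((((hr | hr) | hr) | hr) | hr) | hr
  · rw [List.mem_map] at hr
    obtain ⟨t, ht, rfl⟩ := hr
    unfold Row.sat
    simp only [Bool.false_eq_true, if_false]
    rw [lin_dot H _ _ _ rfl, z3_dot, sum_isTy (S := S), H.cnt t ht, dot_neg_map]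
    ring
  · rw [List.mem_flatMap] at hr
    obtain ⟨j, hj, hr⟩ := hr
    rw [List.mem_range] at hj
    simp only [List.mem_cons, List.not_mem_nil, or_false] at hr
    rcases hr with rfl | rfl
    · unfold Row.sat
      simp only [Bool.false_eq_true, if_false]
      rw [lin_dot H _ _ _ rfl, z3_dot, negk_dot]
      have := H.mz.2.1 j hj
      rw [this, hk]; ring
    · unfold Row.sat
      simp only [Bool.false_eq_true, if_false]
      rw [lin_dot H _ _ _ rfl, z3_dot, negk_dot]
      have := H.mxz.2.1 j hj
      rw [this, hk]; ring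
  · cases hz : hasZ S.K with
    | true =>
      have hsv : S.sv v x z = [∑ i, zt (x i), ∑ i, zt (x i - v i), ∑ i, zt (x i - z i)] := by
        unfold Spec.sv; simp [hz]
      have hl : S.z3.length = 3 := by unfold Spec.z3; simp [hz]
      rw [hz] at hr
      simp only [if_true, List.mem_append, List.mem_cons, List.not_mem_nil, or_false] at hr
      rcases hr with ((rfl | rfl | rfl | rfl) | hr) | rfl
      · unfold Row.sat
        simp only [Bool.false_eq_true, if_false]
        rw [lin_dot H _ _ _ (by simp [hl]), zp_dot, hsv]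
        simp only [dot]; ring
      · unfold Row.sat
        simp only [Bool.false_eq_true, if_false]
        rw [lin_dot H _ _ _ (by simp [hl]), zp_dot, hsv]
        simp only [dot]; ring
      · unfold Row.sat
        simp only [Bool.false_eq_true, if_false]
        rw [lin_dot H _ _ _ (by simp [hl]), zp_dot, hsv]
        simp only [dot]; ring
      · unfold Row.sat
        simp only [if_true]
        rw [lin_dot H _ _ _ (by simp [hl]), zp_dot, hsv]
        simp only [dot]
        have := H.sl1 hz
        linarith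
      · split_ifs at hr with h2
        · simp only [List.mem_singleton] at hr
          subst hr
          unfold Row.sat
          simp only [if_true]
          rw [lin_dot H _ _ _ (by simp [hl]), zp_dot, hsv]
          simp only [dot, sum_neg_distrib]
          have := H.sl2 hz h2
          linarith
        · simp at hr
      · unfold Row.sat
        simp only [if_true]
        rw [lin_dot H _ _ _ (by simp [hl]), zp_dot, hsv]
        simp only [dot]
        have := H.mz.2.2 hz
        linarith
    | false =>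
      have hl : S.z3.length = 0 := by unfold Spec.z3; simp [hz]
      rw [hz] at hr
      simp only [Bool.false_eq_true, if_false, List.mem_append, List.mem_cons, List.not_mem_nil,
        or_false] at hr
      rcases hr with rfl | hr
      · unfold Row.sat
        simp only [if_true]
        rw [lin_dot H _ _ _ (by simp [hl]), zp_dot, sum_isTy (S := S)]
        have := H.fr1 hz
        simp only [dot]
        linarith
      · split_ifs at hr with h2
        · simp only [List.mem_singleton] at hr
          subst hr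
          unfold Row.sat
          simp only [if_true]
          rw [lin_dot H _ _ _ (by simp [hl]), zp_dot, sum_neg_distrib, sum_isTy (S := S)]
          have := H.fr2 hz h2
          simp only [dot]
          linarith
        · simp at hr
  · split_ifs at hr with h2
    · simp only [List.mem_singleton] at hr
      subst hr
      unfold Row.sat
      simp only [if_true]
      rw [lin_dot H _ _ _ rfl, z3_dot, zp_dot]
      have := H.gd h2
      have h3 : (fun i => z i - x i + v i) ≠ 0 := by
        intro h4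
        apply this
        ext i
        have := congrFun h4 i
        simp only [Pi.zero_apply] at this
        omega
      have := sum_sq_pos h3
      linarith
    · simp at hr
  · simp only [List.mem_singleton] at hr
    subst hr
    unfold Row.sat
    simp only [if_true]
    rw [lin_dot H _ _ _ rfl, z3_dot, zp_dot]
    have := H.zv
    have h3 : (fun i => z i - v i) ≠ 0 := by
      intro h4
      apply this
      ext i
      have := congrFun h4 i
      simp only [Pi.zero_apply] at this
      omega
    have := sum_sq_pos h3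
    linarith
  · rw [List.mem_map] at hr
    obtain ⟨u, hu, rfl⟩ := hr
    unfold Row.sat
    simp only [if_true]
    rw [lin_dot H _ _ _ rfl, z3_dot]
    have := units_sound S.pmin [] [] p rfl (by simp) H.pm u hu
    rw [List.nil_append] at this
    simp only [sum_const_zero]
    linarith

def Spec.branches (S : Spec) : List (ℕ × ℕ) :=
  ((List.range (nst S.K)).flatMap fun j => [(0, j), (1, j)]) ++ ([(2, 0)] ++
    if hasZ S.K then [(3, 0)] else [])

theorem br_sat {S : Spec} {pz : ℤ} {v x z : ι → ℤ} {p : List ℤ} {k : ℤ}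
    (H : S.Hyp pz v x z p k) : ∃ b ∈ S.branches, ∀ r ∈ S.brRows pz b.1 b.2, Row.sat r (S.X v x z p) := by
  have hk := H.hk
  set κ := mul S.K * k - par pz S.pv with hκ
  have hκ' : κ = mul S.K * S.kc.2 - par pz S.pv + mul S.K * dot S.kc.1 p := by
    rw [hκ, hk]; ring
  by_cases h1 : ∀ j < nst S.K, ∑ i, stat S.K j (z i - v i) = κ
  · by_cases h2 : ∀ i, bd S.K (z i - v i) = true
    · have h3 : ¬ (hasZ S.K = true → 0 ≤ ∑ i, zt (z i - v i)) := fun h3 => H.na ⟨h2, h1, h3⟩
      rw [Classical.not_imp, not_le] at h3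
      refine ⟨(3, 0), by simp [Spec.branches, h3.1], ?_⟩
      intro r hr
      simp only [Spec.brRows, List.mem_cons, List.not_mem_nil, or_false] at hr
      have hsv : S.sv v x z = [∑ i, zt (x i), ∑ i, zt (x i - v i), ∑ i, zt (x i - z i)] := by
        unfold Spec.sv; simp [h3.1]
      have hl : S.z3.length = 3 := by unfold Spec.z3; simp [h3.1]
      rcases hr with rfl | rfl
      · unfold Row.sat
        simp only [Bool.false_eq_true, if_false]
        rw [lin_dot H _ _ _ rfl, z3_dot, negk_dot]
        have := h1 0 (by cases S.K <;> simp [nst])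
        rw [this, hκ']; ring
      · unfold Row.sat
        simp only [if_true]
        rw [lin_dot H _ _ _ (by simp [hl]), zp_dot, hsv, sum_neg_distrib]
        simp only [dot]
        linarith [h3.2]
    · push Not at h2
      obtain ⟨i0, hi0⟩ := h2
      refine ⟨(2, 0), by simp [Spec.branches], ?_⟩
      intro r hr
      simp only [Spec.brRows, List.mem_append, List.mem_map, List.mem_range, List.mem_singleton] at hr
      rcases hr with ⟨j, hj, rfl⟩ | rfl
      · unfold Row.sat
        simp only [Bool.false_eq_true, if_false]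
        rw [lin_dot H _ _ _ rfl, z3_dot, negk_dot]
        have := h1 j hj
        rw [this, hκ']; ring
      · unfold Row.sat
        simp only [if_true]
        rw [lin_dot H _ _ _ rfl, z3_dot, zp_dot]
        have : (1 : ℤ) ≤ ∑ i, (if bd S.K (z i - v i) then (0 : ℤ) else 1) := by
          have h4 : (if bd S.K (z i0 - v i0) then (0 : ℤ) else 1) ≤
              ∑ i, (if bd S.K (z i - v i) then (0 : ℤ) else 1) :=
            single_le_sum (f := fun i => if bd S.K (z i - v i) then (0 : ℤ) else 1)
              (fun j _ => by split_ifs <;> simp) (mem_univ i0)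
          rw [if_neg hi0] at h4
          exact h4
        linarith
  · push Not at h1
    obtain ⟨j, hj, hne⟩ := h1
    rcases lt_or_gt_of_ne hne with h4 | h4
    · refine ⟨(1, j), by simp [Spec.branches, hj], ?_⟩
      intro r hr
      simp only [Spec.brRows, List.mem_cons, List.not_mem_nil, or_false] at hr
      subst hr
      unfold Row.sat
      simp only [if_true]
      rw [lin_dot H _ _ _ rfl, z3_dot, dot_neg_map, negk_dot, sum_neg_distrib]
      linarith
    · refine ⟨(0, j), by simp [Spec.branches, hj], ?_⟩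
      intro r hr
      simp only [Spec.brRows, List.mem_cons, List.not_mem_nil, or_false] at hr
      subst hr
      unfold Row.sat
      simp only [if_true]
      rw [lin_dot H _ _ _ rfl, z3_dot, negk_dot]
      linarith

theorem inBox_all : ∀ (X : List ℤ), (∀ a ∈ X, 0 ≤ a) →
    inBox X (List.replicate X.length 0) (List.replicate X.length (-1))
  | [], _ => trivial
  | x :: xs, h => ⟨h x (by simp), Or.inl (by norm_num), inBox_all xs fun a ha => h a (by simp [ha])⟩

theorem X_nonneg {S : Spec} {pz : ℤ} {v x z : ι → ℤ} {p : List ℤ} {k : ℤ}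
    (H : S.Hyp pz v x z p k) : ∀ a ∈ S.X v x z p, 0 ≤ a := by
  intro a ha
  unfold Spec.X at ha
  simp only [List.mem_append, List.mem_map] at ha
  rcases ha with ⟨τ, _, rfl⟩ | ha | ha
  · positivity
  · unfold Spec.sv at ha
    split_ifs at ha with h
    · simp only [List.mem_cons, List.not_mem_nil, or_false] at ha
      rcases ha with rfl | rfl | rfl
      · exact H.mx'.2.2 h
      · exact H.mxv.2.2 h
      · exact H.mxz.2.2 h
    · simp at ha
  · exact H.p0 a ha

theorem X_length {S : Spec} {pz : ℤ} {v x z : ι → ℤ} {p : List ℤ} {k : ℤ}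
    (H : S.Hyp pz v x z p k) : (S.X v x z p).length = S.N := by
  unfold Spec.X Spec.N
  simp only [List.length_append, List.length_map, sv_length]
  rw [← H.ml]
  unfold Spec.zp
  simp

theorem chsum_neg_le_pos (a b : ℤ) (h : pos (-a) ≤ b) : 0 ≤ b + a := by
  unfold pos at h
  split_ifs at h <;> omega

theorem list_sum_nonpos : ∀ (l : List ℤ), (∀ a ∈ l, a ≤ 0) → l.sum ≤ 0
  | [], _ => by simp
  | a :: l, h => by
    have h1 := h a (by simp)
    have h2 := list_sum_nonpos l fun b hb => h b (by simp [hb])
    simp only [List.sum_cons]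
    linarith

/-- the conclusion of a certificate: a second common neighbour -/
theorem Spec.sound {S : Spec} {pz : ℤ} {v x z : ι → ℤ} {p : List ℤ} {k : ℤ}
    (H : S.Hyp pz v x z p k) (ok : ∀ b ∈ S.branches, ∃ I : Inst, S.instOK pz b.1 b.2 I = true) :
    ∃ (w : ι → ℤ) (pu : ℤ), (pu = 0 ∨ (S.K = .B ∧ pu = 1)) ∧ w ≠ x ∧
      mem S.K (mul S.K * k - pu) w ∧
      mem S.K (mul S.K * k - par pu S.pv) (fun i => w i - v i) ∧
      mem S.K (mul S.K * k - par pu pz) (fun i => w i - z i) := by
  obtain ⟨b, hb, hbr⟩ := br_sat H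
  obtain ⟨I, hI⟩ := ok b hb
  unfold Spec.instOK at hI
  simp only [Bool.and_eq_true, decide_eq_true_eq] at hI
  obtain ⟨⟨⟨hrows, hreqs⟩, hmv⟩, hchk⟩ := hI
  have hsat : ∀ r ∈ I.rows, r.sat (S.X v x z p) := by
    intro r hr
    rw [hrows, List.mem_append] at hr
    rcases hr with hr | hr
    · exact baseRows_sat H r hr
    · exact hbr r hr
  have hbox := inBox_all _ (X_nonneg H)
  rw [X_length H] at hbox
  obtain ⟨r, hr, hle⟩ := check_sound I.rows I.reqs (List.replicate S.N 0) (S.X v x z p)
    (fun a ha => List.eq_of_mem_replicate ha) hsat I.tree _ _ hchk hbox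
  rw [hreqs, List.mem_map] at hr
  obtain ⟨m, hm, rfl⟩ := hr
  have hmok := List.all_eq_true.mp hmv m hm
  obtain ⟨ch, pu⟩ := m
  unfold Spec.okMove at hmok
  simp only [Bool.and_eq_true, decide_eq_true_eq, Bool.or_eq_true] at hmok
  obtain ⟨⟨⟨hne, hall⟩, hst⟩, hpu⟩ := hmok
  rw [List.all_eq_true] at hall hst
  unfold Spec.req Spec.X at hle
  obtain ⟨hle1, hle2⟩ := lePw_append _ _ _ _ (by simp) hle
  have hcount : ∀ τ, (ch.filter fun c => c.1 = τ).length ≤ #{i | trip v x z i = τ} := by
    intro τ
    by_cases hτ : τ ∈ S.T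
    · have := lePw_map _ _ S.T hle1 τ hτ
      exact_mod_cast this
    · have : (ch.filter fun c => c.1 = τ) = [] := by
        rw [List.filter_eq_nil_iff]
        intro c hc
        simp only [decide_eq_true_eq]
        intro h
        have h5 := hall c hc
        simp only [Bool.and_eq_true, decide_eq_true_eq] at h5
        exact hτ (h ▸ h5.2)
      rw [this]
      simp
  obtain ⟨w, U, hw1, hw2, hw3⟩ := exists_move_aux (trip v x z) ch hcount
  have hw3' : ∀ F : Tr → ℤ → ℤ, ∑ i, F (v i, x i, z i) (w i) =
      ∑ i, F (v i, x i, z i) (x i) + chsum ch F := hw3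
  -- entries
  have hent : ∀ (G : Tr → ℤ → Bool), (∀ c ∈ ch, G c.1 c.2 = true) →
      (∀ i, G (v i, x i, z i) (x i) = true) → (∀ c ∈ ch, G c.1 c.1.2.1 = true ∨ True) →
      ∀ i, G (v i, x i, z i) (w i) = true := by
    intro G h1 h2 _ i
    have h3 := hw3' (fun t u => if G t u then 0 else 1)
    have h4 : ∑ i, (if G (v i, x i, z i) (x i) then (0 : ℤ) else 1) = 0 := by
      apply sum_eq_zero
      intro i _
      rw [if_pos (h2 i)]
    have h5 : chsum ch (fun t u => if G t u then 0 else 1) ≤ 0 := by
      unfold chsum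
      apply list_sum_nonpos
      intro a ha
      rw [List.mem_map] at ha
      obtain ⟨c, hc, rfl⟩ := ha
      show (if G c.1 c.2 = true then (0 : ℤ) else 1) - (if G c.1 c.1.2.1 = true then 0 else 1) ≤ 0
      rw [if_pos (h1 c hc)]
      split_ifs <;> simp
    have h6 : ∑ i, (if G (v i, x i, z i) (w i) then (0 : ℤ) else 1) ≤ 0 := by
      rw [h3, h4]; linarith
    have h7 := (sum_eq_zero_iff_of_nonneg (fun i _ => by
      split_ifs <;> simp)).mp (le_antisymm h6 (sum_nonneg fun i _ => by
        split_ifs <;> simp)) i (mem_univ i)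
    by_contra h8
    simp only [h8, Bool.false_eq_true, if_false] at h7
    exact one_ne_zero h7
  have hall' : ∀ c ∈ ch, bd S.K c.2 = true ∧ bd S.K (c.2 - c.1.1) = true ∧
      bd S.K (c.2 - c.1.2.2) = true ∧ c.2 ≠ c.1.2.1 := by
    intro c hc
    have h5 := hall c hc
    simp only [Bool.and_eq_true, decide_eq_true_eq] at h5
    exact ⟨h5.1.1.1.1, h5.1.1.1.2, h5.1.1.2, h5.1.2⟩
  have hst' : ∀ j < nst S.K, chsum ch (fun _ u => stat S.K j u) = S.px - pu ∧
      chsum ch (fun t u => stat S.K j (u - t.1)) = S.pvx - par pu S.pv ∧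
      chsum ch (fun t u => stat S.K j (u - t.2.2)) = par S.px pz - par pu pz := by
    intro j hj
    have := hst j (List.mem_range.mpr hj)
    simp only [Bool.and_eq_true, decide_eq_true_eq] at this
    exact ⟨this.1.1, this.1.2, this.2⟩
  have hslack : hasZ S.K = true → (0 ≤ ∑ i, zt (x i) + chsum ch (fun _ u => zt u)) ∧
      (0 ≤ ∑ i, zt (x i - v i) + chsum ch (fun t u => zt (u - t.1))) ∧
      (0 ≤ ∑ i, zt (x i - z i) + chsum ch (fun t u => zt (u - t.2.2))) := by
    intro hz
    rw [hz] at hle2
    have hsv : S.sv v x z = [∑ i, zt (x i), ∑ i, zt (x i - v i), ∑ i, zt (x i - z i)] := by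
      unfold Spec.sv; simp [hz]
    rw [hsv] at hle2
    simp only [if_true, List.cons_append, lePw] at hle2
    exact ⟨chsum_neg_le_pos _ _ hle2.1, chsum_neg_le_pos _ _ hle2.2.1,
      chsum_neg_le_pos _ _ hle2.2.2.1⟩
  refine ⟨w, pu, hpu, ?_, ⟨?_, ?_, ?_⟩, ⟨?_, ?_, ?_⟩, ⟨?_, ?_, ?_⟩⟩
  · intro hwx
    have h3 := hw3' (fun t u => if u = t.2.1 then 0 else 1)
    rw [hwx] at h3
    simp only [if_true, sum_const_zero, zero_add] at h3
    obtain ⟨c, ch', rfl⟩ := List.exists_cons_of_ne_nil hne
    have h5 : 0 ≤ chsum ch' (fun t u => if u = t.2.1 then 0 else 1) := by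
      unfold chsum
      apply List.sum_nonneg
      intro a ha
      rw [List.mem_map] at ha
      obtain ⟨c, hc, rfl⟩ := ha
      simp only [if_true, sub_zero]
      split_ifs <;> simp
    have h6 := (hall' c (by simp)).2.2.2
    simp only [chsum, List.map_cons, List.sum_cons, if_neg h6, if_true] at h3 h5
    omega
  · exact hent (fun _ u => bd S.K u) (fun c hc => (hall' c hc).1) H.mx'.1 (fun _ _ => Or.inr trivial)
  · intro j hj
    rw [hw3' (fun _ u => stat S.K j u), (hst' j hj).1, H.mx'.2.1 j hj]
    ring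
  · intro hz
    rw [hw3' (fun _ u => zt u)]
    exact (hslack hz).1
  · exact hent (fun t u => bd S.K (u - t.1)) (fun c hc => (hall' c hc).2.1) H.mxv.1
      (fun _ _ => Or.inr trivial)
  · intro j hj
    rw [hw3' (fun t u => stat S.K j (u - t.1)), (hst' j hj).2.1, H.mxv.2.1 j hj]
    ring
  · intro hz
    rw [hw3' (fun t u => zt (u - t.1))]
    exact (hslack hz).2.1
  · exact hent (fun t u => bd S.K (u - t.2.2)) (fun c hc => (hall' c hc).2.2.1) H.mxz.1
      (fun _ _ => Or.inr trivial)
  · intro j hj
    rw [hw3' (fun t u => stat S.K j (u - t.2.2)), (hst' j hj).2.2, H.mxz.2.1 j hj]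
    ring
  · intro hz
    rw [hw3' (fun t u => zt (u - t.2.2))]
    exact (hslack hz).2.2

end Pool.Agent.helper1.CAD
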