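import Pool.Agent.helper1.CAD.Chk

/-! Vertex sets as integer vectors, patterns, local moves (MP_cad530_co). -/

namespace Pool.Agent.helper1.CAD

open Finset

inductive Kind
  | A | B | C | D
  deriving DecidableEq

/-- number of equality statistics -/
def nst : Kind → ℕ
  | .A => 2
  | _ => 1

/-- entry bound -/
def lim : Kind → ℤ
  | .A => 1
  | _ => 2

def mul : Kind → ℤ
  | .A => 1
  | _ => 2

def hasZ : Kind → Bool
  | .B => true
  | .D => true
  | _ => false

/-- the statistics -/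
def stat (K : Kind) (j : ℕ) (w : ℤ) : ℤ :=
  match K with
  | .A => if j = 0 then (if w = 1 then 1 else 0) else (if w = -1 then 1 else 0)
  | .C => if 0 ≤ w then w else -w
  | _ => w * w

/-- zeros minus twos -/
def zt (w : ℤ) : ℤ := if w = 0 then 1 else if w = 2 then -1 else if w = -2 then -1 else 0

/-- entry bound as a Bool -/
def bd (K : Kind) (w : ℤ) : Bool := decide (-lim K ≤ w) && decide (w ≤ lim K)

/-- membership with statistic value `κ` -/
def mem (K : Kind) (κ : ℤ) {ι : Type} [Fintype ι] (v : ι → ℤ) : Prop :=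
  (∀ i, bd K (v i) = true) ∧ (∀ j < nst K, ∑ i, stat K j (v i) = κ) ∧
    (hasZ K = true → 0 ≤ ∑ i, zt (v i))

/-- triples (v, x, z) -/
abbrev Tr := ℤ × ℤ × ℤ

/-- a local move: changed coordinates with the new values, and the parity of the new vector -/
abbrev Move := List (Tr × ℤ) × ℤ

structure Spec where
  K : Kind
  /-- (v, x, coefficients, constant): number of coordinates of this type -/
  tys : List (ℤ × ℤ × List ℤ × ℤ)
  /-- k = coefficients and constant -/
  kc : List ℤ × ℤ
  pmin : List ℤ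
  sl : ℤ × ℤ
  good : Bool
  pv : ℤ
  px : ℤ
  pvx : ℤ

def zrange (K : Kind) : List ℤ :=
  match K with
  | .A => [-1, 0, 1]
  | _ => [-2, -1, 0, 1, 2]

def isA : Kind → Bool
  | .A => true
  | _ => false

def Spec.pairs (S : Spec) : List (ℤ × ℤ) := S.tys.map (fun t => (t.1, t.2.1)) ++ [(0, 0)]

/-- all triples -/
def Spec.T (S : Spec) : List Tr :=
  S.pairs.flatMap fun p => ((zrange S.K).filter fun z =>
    bd S.K (p.2 - z) && (isA S.K || !(decide (p.1 = 0) && decide (p.2 = 0)) || decide (0 ≤ z))).map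
      fun z => (p.1, p.2, z)

def par (a b : ℤ) : ℤ := (a + b) % 2

def Spec.z3 (S : Spec) : List ℤ := if hasZ S.K then [0, 0, 0] else []

def Spec.zp (S : Spec) : List ℤ := S.pmin.map fun _ => 0

def Spec.lin (S : Spec) (g : Tr → ℤ) (s p : List ℤ) : List ℤ := S.T.map g ++ (s ++ p)

def Spec.negk (S : Spec) : List ℤ := S.kc.1.map fun c => - (mul S.K * c)

def isTy (p : ℤ × ℤ) (t : Tr) : ℤ := if t.1 = p.1 ∧ t.2.1 = p.2 then 1 else 0

/-- unit vectors for the parameters -/
def units : List ℤ → List ℤ → List (List ℤ × ℤ)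
  | _, [] => []
  | pre, m :: ms => (pre ++ [1] ++ ms.map (fun _ => 0), m) :: units (pre ++ [0]) ms

def Spec.baseRows (S : Spec) (pz : ℤ) : List Row :=
  (S.tys.map fun t => (false, S.lin (isTy (t.1, t.2.1)) S.z3 (t.2.2.1.map fun c => -c), t.2.2.2)) ++
  ((List.range (nst S.K)).flatMap fun j =>
    [(false, S.lin (fun t => stat S.K j t.2.2) S.z3 S.negk, mul S.K * S.kc.2 - pz),
     (false, S.lin (fun t => stat S.K j (t.2.1 - t.2.2)) S.z3 S.negk, mul S.K * S.kc.2 - par S.px pz)]) ++
  (if hasZ S.K then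
    [(false, S.lin (fun t => zt t.2.1) [-1, 0, 0] S.zp, 0),
     (false, S.lin (fun t => zt (t.2.1 - t.1)) [0, -1, 0] S.zp, 0),
     (false, S.lin (fun t => zt (t.2.1 - t.2.2)) [0, 0, -1] S.zp, 0),
     (true, S.lin (fun t => zt t.1) [0, 0, 0] S.zp, S.sl.1)] ++
     (if 0 ≤ S.sl.2 then [(true, S.lin (fun t => - zt t.1) [0, 0, 0] S.zp, - S.sl.2)] else []) ++
     [(true, S.lin (fun t => zt t.2.2) [0, 0, 0] S.zp, 0)]
   else
    [(true, S.lin (isTy (0, 0)) [] S.zp, S.sl.1)] ++
    (if 0 ≤ S.sl.2 then [(true, S.lin (fun t => - isTy (0, 0) t) [] S.zp, - S.sl.2)] else [])) ++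
  (if S.good then [(true, S.lin (fun t => (t.2.2 - t.2.1 + t.1) * (t.2.2 - t.2.1 + t.1)) S.z3 S.zp, 1)] else []) ++
  [(true, S.lin (fun t => (t.2.2 - t.1) * (t.2.2 - t.1)) S.z3 S.zp, 1)] ++
  ((units [] S.pmin).map fun u => (true, S.lin (fun _ => 0) S.z3 u.1, u.2))

/-- the reasons for not being adjacent: 0 = statistic too large, 1 = too small (with index), 2 = an
entry out of range, 3 = too few zeros -/
def Spec.brRows (S : Spec) (pz : ℤ) (br j : ℕ) : List Row :=
  match br with
  | 0 => [(true, S.lin (fun t => stat S.K j (t.2.2 - t.1)) S.z3 S.negk, mul S.K * S.kc.2 - par pz S.pv + 1)]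
  | 1 => [(true, S.lin (fun t => - stat S.K j (t.2.2 - t.1)) S.z3 (S.negk.map fun c => -c),
            - (mul S.K * S.kc.2 - par pz S.pv) + 1)]
  | 2 => ((List.range (nst S.K)).map fun j =>
           (false, S.lin (fun t => stat S.K j (t.2.2 - t.1)) S.z3 S.negk, mul S.K * S.kc.2 - par pz S.pv)) ++
         [(true, S.lin (fun t => if bd S.K (t.2.2 - t.1) then 0 else 1) S.z3 S.zp, 1)]
  | _ => [(false, S.lin (fun t => stat S.K 0 (t.2.2 - t.1)) S.z3 S.negk, mul S.K * S.kc.2 - par pz S.pv),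
          (true, S.lin (fun t => - zt (t.2.2 - t.1)) [0, 0, 0] S.zp, 1)]

def chsum (ch : List (Tr × ℤ)) (F : Tr → ℤ → ℤ) : ℤ :=
  (ch.map fun c => F c.1 c.2 - F c.1 c.1.2.1).sum

def pos (a : ℤ) : ℤ := if 0 ≤ a then a else 0

/-- requirements of a move -/
def Spec.req (S : Spec) (m : Move) : List ℤ :=
  S.T.map (fun t => ((m.1.filter fun c => c.1 = t).length : ℤ)) ++
  ((if hasZ S.K then
    [pos (- chsum m.1 (fun _ u => zt u)), pos (- chsum m.1 (fun t u => zt (u - t.1))),
     pos (- chsum m.1 (fun t u => zt (u - t.2.2)))] else []) ++ S.zp)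

/-- validity of a move -/
def Spec.okMove (S : Spec) (pz : ℤ) (m : Move) : Bool :=
  (decide (m.1 ≠ [])) &&
  (m.1.all fun c => bd S.K c.2 && bd S.K (c.2 - c.1.1) && bd S.K (c.2 - c.1.2.2) &&
    decide (c.2 ≠ c.1.2.1) && decide (c.1 ∈ S.T)) &&
  ((List.range (nst S.K)).all fun j =>
    decide (chsum m.1 (fun _ u => stat S.K j u) = S.px - m.2) &&
    decide (chsum m.1 (fun t u => stat S.K j (u - t.1)) = S.pvx - par m.2 S.pv) &&
    decide (chsum m.1 (fun t u => stat S.K j (u - t.2.2)) = par S.px pz - par m.2 pz)) &&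
  (decide (m.2 = 0) || (decide (S.K = .B) && decide (m.2 = 1)))

/-- the data of one branch -/
structure Inst where
  rows : List Row
  moves : List Move
  reqs : List (List ℤ)
  tree : Tree

def Spec.N (S : Spec) : ℕ := S.T.length + (S.z3.length + S.zp.length)

def Spec.instOK (S : Spec) (pz : ℤ) (br j : ℕ) (I : Inst) : Bool :=
  decide (I.rows = S.baseRows pz ++ S.brRows pz br j) &&
  decide (I.reqs = I.moves.map S.req) &&
  (I.moves.all (S.okMove pz)) &&
  check I.rows I.reqs (List.replicate S.N 0) (List.replicate S.N 0) (List.replicate S.N (-1)) I.tree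

end Pool.Agent.helper1.CAD
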